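import Pool.Agent.X110.NB3

set_option autoImplicit false

/-! Complex means twisted by absolutely convergent Dirichlet series. -/

namespace Pool.Agent.X110.NA

open Finset Filter Topology MeasureTheory

theorem twist_gen_c (ℓ : ℕ → ℕ → ℂ) (Z : ℝ → ℝ → ℂ) (D : ℝ → Set ℝ) (c : ℝ → ℝ)
    (htw : ∀ a b : ℕ, a ≠ 0 → b ≠ 0 → a.Coprime b → Tendsto (fun T => (c T : ℂ) * ∫ t in D T, Z T t *
      Complex.exp (((t * Real.log (a / b) : ℝ) : ℂ) * Complex.I)) atTop (𝓝 (ℓ a b)))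
    {m n : ℕ} (hm : m ≠ 0) (hn : n ≠ 0) :
    Tendsto (fun T => (c T : ℂ) * ∫ t in D T, Z T t *
      ((m:ℂ) ^ (Complex.I * t) * (n:ℂ) ^ (-(Complex.I * t)))) atTop (𝓝 (ℓ (m / m.gcd n) (n / m.gcd n))) := by
  have hg : 0 < m.gcd n := Nat.gcd_pos_of_pos_left _ (Nat.pos_of_ne_zero hm)
  have h1 : m / m.gcd n ≠ 0 := (Nat.div_pos (Nat.gcd_le_left _ (Nat.pos_of_ne_zero hm)) hg).ne'
  have h2 : n / m.gcd n ≠ 0 := (Nat.div_pos (Nat.gcd_le_right _ (Nat.pos_of_ne_zero hn)) hg).ne'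
  have h := htw _ _ h1 h2 (Nat.coprime_div_gcd_div_gcd hg)
  have e : ∀ t : ℝ, Complex.exp (((t * Real.log (((m / m.gcd n : ℕ) : ℝ) / ((n / m.gcd n : ℕ) : ℝ)) : ℝ) : ℂ) * Complex.I) =
      (m:ℂ) ^ (Complex.I * t) * (n:ℂ) ^ (-(Complex.I * t)) := by
    intro t
    have hm' : (m:ℂ) ≠ 0 := by exact_mod_cast hm
    have hn' : (n:ℂ) ≠ 0 := by exact_mod_cast hn
    have hgr : ((m.gcd n : ℕ) : ℝ) ≠ 0 := by exact_mod_cast hg.ne'
    have hmr : (m:ℝ) ≠ 0 := by exact_mod_cast hm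
    have hnr : (n:ℝ) ≠ 0 := by exact_mod_cast hn
    have e1 : ((m / m.gcd n : ℕ) : ℝ) / ((n / m.gcd n : ℕ) : ℝ) = (m:ℝ) / n := by
      rw [Nat.cast_div (Nat.gcd_dvd_left _ _) hgr, Nat.cast_div (Nat.gcd_dvd_right _ _) hgr]
      field_simp
    rw [e1, Real.log_div hmr hnr, Complex.cpow_def_of_ne_zero hm', Complex.cpow_def_of_ne_zero hn', ← Complex.exp_add,
      ← Complex.natCast_log, ← Complex.natCast_log]
    congr 1
    push_cast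
    ring
  simp_rw [e] at h
  exact h

/-- complex means twisted by absolutely convergent Dirichlet series -/
theorem twist_series_c (ℓ : ℕ → ℕ → ℂ) (Z : ℝ → ℝ → ℂ) (D : ℝ → Set ℝ) (c : ℝ → ℝ)
    (hc : ∀ᶠ T in atTop, 0 ≤ c T) {B : ℝ} (hZi : ∀ᶠ T in atTop, IntegrableOn (Z T) (D T) ∧ c T * ∫ t in D T, ‖Z T t‖ ≤ B)
    (htw : ∀ a b : ℕ, a ≠ 0 → b ≠ 0 → a.Coprime b → Tendsto (fun T => (c T : ℂ) * ∫ t in D T, Z T t *
      Complex.exp (((t * Real.log (a / b) : ℝ) : ℂ) * Complex.I)) atTop (𝓝 (ℓ a b)))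
    (a b : ℕ+ → ℂ) (ha : Summable fun n => ‖a n‖) (hb : Summable fun n => ‖b n‖) :
    Tendsto (fun T => (c T : ℂ) * ∫ t in D T, Z T t *
      ((∑' m : ℕ+, a m * ((m:ℕ):ℂ) ^ (Complex.I * t)) * ∑' n : ℕ+, b n * ((n:ℕ):ℂ) ^ (-(Complex.I * t)))) atTop
      (𝓝 (∑' q : ℕ+ × ℕ+, a q.1 * b q.2 *
        ℓ ((q.1:ℕ) / (q.1:ℕ).gcd q.2) ((q.2:ℕ) / (q.1:ℕ).gcd q.2))) := by
  have hab : Summable fun q : ℕ+ × ℕ+ => ‖a q.1‖ * ‖b q.2‖ := ha.mul_of_nonneg hb (fun _ => norm_nonneg _) (fun _ => norm_nonneg _)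
  have hne : ∀ n : ℕ+, (n:ℕ) ≠ 0 := fun n => n.ne_zero
  have key : ∀ᶠ T in atTop, (c T : ℂ) * ∫ t in D T, Z T t *
      ((∑' m : ℕ+, a m * ((m:ℕ):ℂ) ^ (Complex.I * t)) * ∑' n : ℕ+, b n * ((n:ℕ):ℂ) ^ (-(Complex.I * t))) =
      ∑' q : ℕ+ × ℕ+, a q.1 * b q.2 * ((c T : ℂ) * ∫ t in D T, Z T t *
        (((q.1:ℕ):ℂ) ^ (Complex.I * t) * ((q.2:ℕ):ℂ) ^ (-(Complex.I * t)))) := by
    filter_upwards [hZi] with T hT
    have i1 : ∀ q : ℕ+ × ℕ+, IntegrableOn (fun t : ℝ => Z T t * (a q.1 * b q.2 *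
        (((q.1:ℕ):ℂ) ^ (Complex.I * t) * ((q.2:ℕ):ℂ) ^ (-(Complex.I * t))))) (D T) := by
      intro q
      refine hT.1.mul_bdd (c := ‖a q.1‖ * ‖b q.2‖)
        (continuous_const.mul ((cp_cont (hne q.1)).mul (cp_cont' (hne q.2)))).aestronglyMeasurable ?_
      refine Eventually.of_forall fun t => ?_
      rw [norm_mul, norm_mul, norm_mul, cp_norm (hne _), cp_norm' (hne _)]
      simp
    have i2 : ∀ q : ℕ+ × ℕ+, ∫ t in D T, ‖Z T t * (a q.1 * b q.2 *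
        (((q.1:ℕ):ℂ) ^ (Complex.I * t) * ((q.2:ℕ):ℂ) ^ (-(Complex.I * t))))‖ = (∫ t in D T, ‖Z T t‖) * (‖a q.1‖ * ‖b q.2‖) := by
      intro q
      rw [← integral_mul_const]
      refine integral_congr_ae (Eventually.of_forall fun t => ?_)
      dsimp only
      rw [norm_mul, norm_mul, norm_mul, norm_mul, cp_norm (hne _), cp_norm' (hne _)]
      ring
    have h3 := integral_tsum_of_summable_integral_norm i1 (by simp_rw [i2]; exact hab.mul_left _)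
    have h4 : ∀ t : ℝ, ∑' q : ℕ+ × ℕ+, Z T t * (a q.1 * b q.2 *
        (((q.1:ℕ):ℂ) ^ (Complex.I * t) * ((q.2:ℕ):ℂ) ^ (-(Complex.I * t)))) =
        Z T t * ((∑' m : ℕ+, a m * ((m:ℕ):ℂ) ^ (Complex.I * t)) * ∑' n : ℕ+, b n * ((n:ℕ):ℂ) ^ (-(Complex.I * t))) := by
      intro t
      rw [tsum_mul_left]
      congr 1
      have s1 : Summable fun m : ℕ+ => ‖a m * ((m:ℕ):ℂ) ^ (Complex.I * t)‖ := by
        refine ha.congr fun m => ?_
        rw [norm_mul, cp_norm (hne _), mul_one]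
      have s2 : Summable fun n : ℕ+ => ‖b n * ((n:ℕ):ℂ) ^ (-(Complex.I * t))‖ := by
        refine hb.congr fun m => ?_
        rw [norm_mul, cp_norm' (hne _), mul_one]
      rw [tsum_mul_tsum_of_summable_norm s1 s2]
      refine tsum_congr fun q => ?_
      ring
    simp_rw [h4] at h3
    rw [← h3, ← tsum_mul_left]
    refine tsum_congr fun q => ?_
    have e : ∀ t : ℝ, Z T t * (a q.1 * b q.2 *
        (((q.1:ℕ):ℂ) ^ (Complex.I * t) * ((q.2:ℕ):ℂ) ^ (-(Complex.I * t)))) = (a q.1 * b q.2) * (Z T t *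
        (((q.1:ℕ):ℂ) ^ (Complex.I * t) * ((q.2:ℕ):ℂ) ^ (-(Complex.I * t)))) := fun t => by ring
    simp_rw [e]
    rw [integral_const_mul]
    ring
  refine Tendsto.congr' (key.mono fun T hT => hT.symm) ?_
  refine tendsto_tsum_of_dominated_convergence (bound := fun q : ℕ+ × ℕ+ => B * (‖a q.1‖ * ‖b q.2‖)) (hab.mul_left _) ?_ ?_
  · intro q
    exact (twist_gen_c ℓ Z D c htw (hne q.1) (hne q.2)).const_mul _
  · filter_upwards [hc, hZi] with T h2 h3 q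
    rw [norm_mul, norm_mul, norm_mul, Complex.norm_real, Real.norm_of_nonneg h2, mul_comm]
    refine mul_le_mul_of_nonneg_right ?_ (by positivity)
    have h4 : ‖∫ t in D T, Z T t * (((q.1:ℕ):ℂ) ^ (Complex.I * t) * ((q.2:ℕ):ℂ) ^ (-(Complex.I * t)))‖ ≤ ∫ t in D T, ‖Z T t‖ := by
      refine norm_integral_le_of_norm_le h3.1.norm (Eventually.of_forall fun t => ?_)
      rw [norm_mul, norm_mul, cp_norm (hne _), cp_norm' (hne _)]
      simp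
    exact (mul_le_mul_of_nonneg_left h4 h2).trans h3.2

end Pool.Agent.X110.NA
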