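import Pool.Agent.X70.Lions

set_option autoImplicit false

/-! Lions on four vertices (part LI_A for MP_95728c_co, statement of helper70). -/

namespace Pool.Agent.X110.LionsA

open Finset Pool.Agent.X70.Lions

def code (b : Fin 6 → Bool) : ℕ :=
  (b 0).toNat + 2 * (b 1).toNat + 4 * (b 2).toNat + 8 * (b 3).toNat + 16 * (b 4).toNat + 32 * (b 5).toNat

def adjB (b1 b2 b3 b4 b5 b6 : Bool) (i j : Fin 4) : Bool :=
  match i.val, j.val with
  | 0, 1 => b1
  | 1, 0 => b1
  | 0, 2 => b2
  | 2, 0 => b2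
  | 0, 3 => b3
  | 3, 0 => b3
  | 1, 2 => b4
  | 2, 1 => b4
  | 1, 3 => b5
  | 3, 1 => b5
  | 2, 3 => b6
  | 3, 2 => b6
  | _, _ => false

def all4 (f : Fin 4 → Bool) : Bool := f 0 && f 1 && f 2 && f 3

lemma all4_iff (f : Fin 4 → Bool) : all4 f = true ↔ ∀ u, f u = true := by
  unfold all4
  simp only [Bool.and_eq_true]
  constructor
  · rintro ⟨⟨⟨h0, h1⟩, h2⟩, h3⟩ u
    fin_cases u <;> assumption
  · intro h
    exact ⟨⟨⟨h 0, h 1⟩, h 2⟩, h 3⟩

def stepB (a : Fin 4 → Fin 4 → Bool) (C : Fin 4 → Bool) (p0 p1 q0 q1 : Fin 4) (v : Fin 4) : Bool :=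
  (q0 == v || q1 == v) || (C v && all4 fun u => !a v u || C u || (p0 == v && q0 == u) || (p1 == v && q1 == u))

/-- memoised -/
def memo (f : Fin 4 → Bool) : Bool × Bool × Bool × Bool := (f 0, f 1, f 2, f 3)

lemma mem_step (G : SimpleGraph (Fin 4)) [DecidableRel G.Adj] (C : Finset (Fin 4)) (p q : Fin 2 → Fin 4) (v : Fin 4) :
    v ∈ step G C p q ↔ (∃ i, q i = v) ∨ (v ∈ C ∧ ∀ u, G.Adj v u → u ∉ C → ∃ i, p i = v ∧ q i = u) := by
  unfold step
  simp only [Finset.mem_filter, Finset.mem_univ, true_and]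

lemma step_iff (G : SimpleGraph (Fin 4)) [DecidableRel G.Adj] (a : Fin 4 → Fin 4 → Bool)
    (ha : ∀ i j, G.Adj i j ↔ a i j = true) (C : Finset (Fin 4)) (CB : Fin 4 → Bool) (hC : ∀ v, v ∈ C ↔ CB v = true)
    (p q : Fin 2 → Fin 4) (v : Fin 4) :
    v ∈ step G C p q ↔ stepB a CB (p 0) (p 1) (q 0) (q 1) v = true := by
  rw [mem_step]
  unfold stepB
  rw [Bool.or_eq_true, Bool.or_eq_true, Bool.and_eq_true, all4_iff, Fin.exists_fin_two, hC, beq_iff_eq, beq_iff_eq]
  refine or_congr Iff.rfl (and_congr Iff.rfl (forall_congr' fun u => ?_))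
  rw [Fin.exists_fin_two, ha, hC]
  cases a v u <;> cases CB u <;> simp

def startB (p0 p1 : Fin 4) (v : Fin 4) : Bool := p0 == v || p1 == v

def tab : List ℕ := [0, 0, 0, 61133, 0, 48009, 56601, 60932, 0, 61148, 56812, 0, 48052, 48052, 30584, 48004, 0, 48024, 61156, 61156, 39352, 0, 26220, 61124, 52296, 61008, 26220, 48016, 30584, 61136, 30584, 52296, 0, 56792, 30564, 56792, 26228, 39324, 0, 60932, 52356, 39324, 56736, 56720, 48052, 48052, 56800, 52356, 35012, 56792, 61156, 61156, 39408, 39376, 26336, 35012, 0, 61008, 56736, 56720, 39408, 39376, 26336, 0]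

def bads : List ℕ := [0, 1, 2, 4, 8, 11, 16, 21, 32, 38, 56, 63]

def cd (b1 b2 b3 b4 b5 b6 : Bool) : ℕ :=
  b1.toNat + 2 * b2.toNat + 4 * b3.toNat + 8 * b4.toNat + 16 * b5.toNat + 32 * b6.toNat

def ps (w k : ℕ) : Fin 4 := ⟨w / 4 ^ k % 4, Nat.mod_lt _ (by norm_num)⟩

def legB (a : Fin 4 → Fin 4 → Bool) (x y : Fin 4) : Bool := y == x || a x y

def subB (C D : Fin 4 → Bool) : Bool := all4 fun u => !C u || D u

def okB (a : Fin 4 → Fin 4 → Bool) (w : ℕ) : Bool :=
  let C0 := startB (ps w 0) (ps w 1)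
  let C1 := stepB a C0 (ps w 0) (ps w 1) (ps w 2) (ps w 3)
  let C2 := stepB a C1 (ps w 2) (ps w 3) (ps w 4) (ps w 5)
  let C3 := stepB a C2 (ps w 4) (ps w 5) (ps w 6) (ps w 7)
  legB a (ps w 0) (ps w 2) && legB a (ps w 1) (ps w 3) && legB a (ps w 2) (ps w 4) && legB a (ps w 3) (ps w 5) &&
    legB a (ps w 4) (ps w 6) && legB a (ps w 5) (ps w 7) && subB C0 C1 && subB C1 C2 && subB C2 C3 && all4 C3

lemma good_ok : ∀ b1 b2 b3 b4 b5 b6 : Bool, cd b1 b2 b3 b4 b5 b6 ∈ bads ∨
    okB (adjB b1 b2 b3 b4 b5 b6) (tab.getD (cd b1 b2 b3 b4 b5 b6) 0) = true := by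
  decide +kernel

def isoB (a : Fin 4 → Fin 4 → Bool) (z : Fin 4) : Bool := all4 fun u => !a z u

def badB (a : Fin 4 → Fin 4 → Bool) (p0 p1 q0 q1 : Fin 4) : Bool :=
  !legB a p0 q0 || !legB a p1 q1 || (all4 fun v => stepB a (startB p0 p1) p0 p1 q0 q1 v == startB q0 q1 v) ||
    (isoB a 0 && !stepB a (startB p0 p1) p0 p1 q0 q1 0) || (isoB a 1 && !stepB a (startB p0 p1) p0 p1 q0 q1 1) ||
    (isoB a 2 && !stepB a (startB p0 p1) p0 p1 q0 q1 2) || (isoB a 3 && !stepB a (startB p0 p1) p0 p1 q0 q1 3)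

lemma bad_ok : ∀ b1 b2 b3 b4 b5 b6 : Bool, cd b1 b2 b3 b4 b5 b6 ∈ bads → ∀ p0 p1 q0 q1 : Fin 4,
    badB (adjB b1 b2 b3 b4 b5 b6) p0 p1 q0 q1 = true := by
  decide +kernel

lemma exists_bools (G : SimpleGraph (Fin 4)) [DecidableRel G.Adj] :
    ∃ b1 b2 b3 b4 b5 b6 : Bool, ∀ i j, G.Adj i j ↔ adjB b1 b2 b3 b4 b5 b6 i j = true := by
  refine ⟨decide (G.Adj 0 1), decide (G.Adj 0 2), decide (G.Adj 0 3), decide (G.Adj 1 2), decide (G.Adj 1 3),
    decide (G.Adj 2 3), fun i j => ?_⟩
  fin_cases i <;> fin_cases j <;> simp [adjB] <;> exact G.adj_comm _ _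

/-- the invariant -/
def Inv (G : SimpleGraph (Fin 4)) (C : Finset (Fin 4)) (p : Fin 2 → Fin 4) : Prop :=
  (∀ v, v ∈ C ↔ startB (p 0) (p 1) v = true) ∨ ∃ z, (∀ u, ¬ G.Adj z u) ∧ z ∉ C

theorem four_two (G : SimpleGraph (Fin 4)) [DecidableRel G.Adj] (h : Sweepable G 2) : MonotoneSweepable G 2 := by
  obtain ⟨b1, b2, b3, b4, b5, b6, hb⟩ := exists_bools G
  set a := adjB b1 b2 b3 b4 b5 b6 with ha
  by_cases hbad : cd b1 b2 b3 b4 b5 b6 ∈ bads
  · exfalso
    obtain ⟨P, hP, T, hT⟩ := h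
    have hinv : ∀ t, (∀ v, v ∈ cleared G P t ↔ startB (P t 0) (P t 1) v = true) ∨
        ∃ z, (∀ u, ¬ G.Adj z u) ∧ z ∉ cleared G P t ∧ ∀ i, P t i ≠ z := by
      intro t
      induction t with
      | zero =>
        left
        intro v
        show v ∈ univ.image (P 0) ↔ _
        simp [startB, Fin.exists_fin_two]
      | succ t ih =>
        rcases ih with ih | ⟨z, hz1, hz2, hz3⟩
        · have h1 := bad_ok b1 b2 b3 b4 b5 b6 hbad (P t 0) (P t 1) (P (t + 1) 0) (P (t + 1) 1)
          rw [← ha] at h1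
          have hl : ∀ i, legB a (P t i) (P (t + 1) i) = true := by
            intro i
            unfold legB
            rw [Bool.or_eq_true, beq_iff_eq, ← hb]
            exact hP t i
          have hs : ∀ v, v ∈ cleared G P (t + 1) ↔
              stepB a (startB (P t 0) (P t 1)) (P t 0) (P t 1) (P (t + 1) 0) (P (t + 1) 1) v = true :=
            fun v => step_iff G a hb _ _ ih (P t) (P (t + 1)) v
          unfold badB at h1
          rw [hl 0, hl 1] at h1
          simp only [Bool.not_true, Bool.false_or, Bool.or_eq_true, Bool.and_eq_true, all4_iff, beq_iff_eq,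
            Bool.not_eq_true'] at h1
          have hfin : ∀ z, isoB a z = true → stepB a (startB (P t 0) (P t 1)) (P t 0) (P t 1) (P (t + 1) 0)
              (P (t + 1) 1) z = false → ∃ z, (∀ u, ¬ G.Adj z u) ∧ z ∉ cleared G P (t + 1) ∧ ∀ i, P (t + 1) i ≠ z := by
            intro z hz hz2
            refine ⟨z, fun u hu => ?_, ?_, fun i hi => ?_⟩
            · unfold isoB at hz
              rw [all4_iff] at hz
              have := hz u
              rw [(hb z u).mp hu] at this
              simp at this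
            · rw [hs, hz2]
              simp
            · have h5 : z ∈ cleared G P (t + 1) := by
                show z ∈ step G _ _ _
                rw [mem_step]
                exact Or.inl ⟨i, hi⟩
              rw [hs, hz2] at h5
              simp at h5
          rcases h1 with (((h1 | h1) | h1) | h1) | h1
          · left
            intro v
            rw [hs, h1 v]
          · exact Or.inr (hfin 0 h1.1 h1.2)
          · exact Or.inr (hfin 1 h1.1 h1.2)
          · exact Or.inr (hfin 2 h1.1 h1.2)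
          · exact Or.inr (hfin 3 h1.1 h1.2)
        · right
          have hq : ∀ i, P (t + 1) i ≠ z := by
            intro i hi
            rcases hP t i with h1 | h1
            · exact hz3 i (by rw [← h1, hi])
            · rw [hi] at h1
              exact hz1 _ h1.symm
          refine ⟨z, hz1, ?_, hq⟩
          show z ∉ step G _ _ _
          rw [mem_step]
          rintro (⟨i, hi⟩ | h2)
          · exact hq i hi
          · exact hz2 h2.1
    rcases hinv T with h1 | ⟨z, -, h2, -⟩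
    · have h3 : ∀ v, startB (P T 0) (P T 1) v = true := fun v => (h1 v).mp (by rw [hT]; exact mem_univ v)
      have key : ∀ x y : Fin 4, ¬ ∀ v, startB x y v = true := by decide +kernel
      exact key _ _ h3
    · rw [hT] at h2
      exact h2 (mem_univ z)
  · have h1 := (good_ok b1 b2 b3 b4 b5 b6).resolve_left hbad
    rw [← ha] at h1
    set w := tab.getD (cd b1 b2 b3 b4 b5 b6) 0 with hw
    unfold okB at h1
    simp only [Bool.and_eq_true] at h1
    obtain ⟨⟨⟨⟨⟨⟨⟨⟨⟨l1, l2⟩, l3⟩, l4⟩, l5⟩, l6⟩, s1⟩, s2⟩, s3⟩, s4⟩ := h1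
    set P : ℕ → Fin 2 → Fin 4 := fun t i => ps w (2 * min t 3 + i.val) with hPdef
    have hleg : ∀ x y, legB a x y = true → y = x ∨ G.Adj x y := by
      intro x y hxy
      unfold legB at hxy
      rw [Bool.or_eq_true, beq_iff_eq, ← hb] at hxy
      exact hxy
    have c0 : ∀ v, v ∈ cleared G P 0 ↔ startB (ps w 0) (ps w 1) v = true := by
      intro v
      show v ∈ univ.image (P 0) ↔ _
      simp [startB, Fin.exists_fin_two, hPdef]
    have c1 := fun v => step_iff G a hb _ _ c0 (P 0) (P 1) v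
    have c2 := fun v => step_iff G a hb _ _ c1 (P 1) (P 2) v
    have c3 := fun v => step_iff G a hb _ _ c2 (P 2) (P 3) v
    have hsub : ∀ (C D : Fin 4 → Bool) (C' D' : Finset (Fin 4)), (∀ v, v ∈ C' ↔ C v = true) → (∀ v, v ∈ D' ↔ D v = true) →
        subB C D = true → C' ⊆ D' := by
      intro C D C' D' h1 h2 h3 v hv
      unfold subB at h3
      rw [all4_iff] at h3
      have := h3 v
      rw [(h1 v).mp hv] at this
      rw [h2]
      simpa using this
    refine ⟨P, fun t i => ?_, 3, ?_, fun t ht => ?_⟩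
    · rcases Nat.lt_or_ge t 3 with ht | ht
      · interval_cases t
        · fin_cases i
          · exact hleg _ _ l1
          · exact hleg _ _ l2
        · fin_cases i
          · exact hleg _ _ l3
          · exact hleg _ _ l4
        · fin_cases i
          · exact hleg _ _ l5
          · exact hleg _ _ l6
      · left
        simp only [hPdef]
        rw [Nat.min_eq_right ht, Nat.min_eq_right (by omega)]
    · ext v
      refine ⟨fun _ => mem_univ _, fun _ => ?_⟩
      have h5 := (all4_iff _).mp s4 v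
      exact (c3 v).mpr h5
    · interval_cases t
      · exact hsub _ _ _ _ c0 c1 s1
      · exact hsub _ _ _ _ c1 c2 s2
      · exact hsub _ _ _ _ c2 c3 s3

end Pool.Agent.X110.LionsA
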