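import Mathlib

set_option autoImplicit false

namespace Pool.Agent.X110.Pol

open Finset
open scoped ENNReal

/-- tangent inequality for the convex function `t ↦ t ^ (-s)` -/
lemma tangent {s a b : ℝ} (hs : 0 < s) (ha : 0 < a) (hb : 0 < b) :
    a ^ (-s) + s * a ^ (-s - 1) * (a - b) ≤ b ^ (-s) := by
  have h1 : 1 - s * (b / a - 1) ≤ (b / a) ^ (-s) := by
    have hx : 0 < b / a := div_pos hb ha
    rw [Real.rpow_def_of_pos hx]
    have := Real.add_one_le_exp (Real.log (b / a) * -s)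
    have h2 := Real.log_le_sub_one_of_pos hx
    nlinarith
  have h3 : (b / a) ^ (-s) = b ^ (-s) / a ^ (-s) := Real.div_rpow hb.le ha.le _
  have h4 : 0 < a ^ (-s) := Real.rpow_pos_of_pos ha _
  rw [h3, le_div_iff₀ h4] at h1
  have h5 : a ^ (-s - 1) = a ^ (-s) / a := by rw [Real.rpow_sub_one ha.ne']
  rw [h5]
  have : (1 - s * (b / a - 1)) * a ^ (-s) = a ^ (-s) + s * (a ^ (-s) / a) * (a - b) := by
    field_simp
    ring
  linarith

/-- Abel summation with nonincreasing weights -/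
lemma abel (c e : ℕ → ℝ) (hc : ∀ n, c (n + 1) ≤ c n)
    (he : ∀ m, 0 ≤ ∑ i ∈ range m, e i) (M : ℕ) :
    c M * ∑ i ∈ range M, e i ≤ ∑ i ∈ range M, c i * e i := by
  induction M with
  | zero => simp
  | succ M ih =>
    have h1 : c (M + 1) * ∑ i ∈ range (M + 1), e i ≤ c M * ∑ i ∈ range (M + 1), e i :=
      mul_le_mul_of_nonneg_right (hc M) (he _)
    have h2 : c M * ∑ i ∈ range (M + 1), e i = c M * (∑ i ∈ range M, e i) + c M * e M := by
      rw [sum_range_succ]; ring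
    have h3 : ∑ i ∈ range (M + 1), c i * e i = (∑ i ∈ range M, c i * e i) + c M * e M :=
      sum_range_succ _ _
    linarith

lemma karamata {s : ℝ} (hs : 0 < s) (a b : ℕ → ℝ) (ha : ∀ n, 0 < a n)
    (hm : ∀ n, a n ≤ a (n + 1)) (hb : ∀ n, 0 < b n)
    (h : ∀ m, 0 ≤ ∑ i ∈ range m, (a i - b i)) (M : ℕ) :
    ∑ i ∈ range M, (a i) ^ (-s) ≤ ∑ i ∈ range M, (b i) ^ (-s) := by
  have h1 : ∀ i, (a i) ^ (-s) + (s * (a i) ^ (-s - 1)) * (a i - b i) ≤ (b i) ^ (-s) := by
    intro i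
    exact tangent hs (ha i) (hb i)
  have h2 := abel (fun i => s * (a i) ^ (-s - 1)) (fun i => a i - b i) (by
    intro n
    refine mul_le_mul_of_nonneg_left ?_ hs.le
    exact Real.rpow_le_rpow_of_nonpos (ha n) (hm n) (by linarith)) h M
  have h3 : 0 ≤ (s * (a M) ^ (-s - 1)) * ∑ i ∈ range M, (a i - b i) :=
    mul_nonneg (mul_nonneg hs.le (Real.rpow_nonneg (ha M).le _)) (h M)
  have h4 : ∑ i ∈ range M, ((a i) ^ (-s) + (s * (a i) ^ (-s - 1)) * (a i - b i)) ≤
      ∑ i ∈ range M, (b i) ^ (-s) := sum_le_sum fun i _ => h1 i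
  rw [sum_add_distrib] at h4
  have h5 : 0 ≤ ∑ i ∈ range M, (s * (a i) ^ (-s - 1)) * (a i - b i) := h3.trans h2
  linarith

/-- ENNReal version for the whole series -/
lemma karamata_tsum {s : ℝ} (hs : 0 < s) (a b : ℕ → ℝ) (ha : ∀ n, 0 < a n)
    (hm : ∀ n, a n ≤ a (n + 1)) (hb : ∀ n, 0 < b n)
    (h : ∀ m, 0 ≤ ∑ i ∈ range m, (a i - b i)) :
    ∑' i, (ENNReal.ofReal (a i)) ^ (-s) ≤ ∑' i, ENNReal.ofReal ((b i) ^ (-s)) := by
  refine ENNReal.tsum_le_of_sum_range_le fun M => ?_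
  refine le_trans ?_ (ENNReal.sum_le_tsum (range M))
  rw [← ENNReal.ofReal_sum_of_nonneg (fun i _ => Real.rpow_nonneg (hb i).le _)]
  have : ∀ i ∈ range M, (ENNReal.ofReal (a i)) ^ (-s) = ENNReal.ofReal ((a i) ^ (-s)) := by
    intro i _
    rw [ENNReal.ofReal_rpow_of_pos (ha i)]
  rw [sum_congr rfl this, ← ENNReal.ofReal_sum_of_nonneg (fun i _ => Real.rpow_nonneg (ha i).le _)]
  exact ENNReal.ofReal_le_ofReal (karamata hs a b ha hm hb h M)

theorem exists_point_mono {N : ℕ} (hN : 0 < N) {L : ℝ} (hL : 0 < L) (v : ℕ → ℝ)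
    (hv : ∀ i < N, v i ∈ Set.Icc (0 : ℝ) L) (hmono : ∀ i j, i ≤ j → j < N → v i ≤ v j)
    {s : ℝ} (hs : 0 < s) :
    ∃ u ∈ Set.Ico (0 : ℝ) L, ∑ j ∈ range N, (ENNReal.ofReal |u - v j|) ^ (-s) ≤
      2 * ∑' n : ℕ, ENNReal.ofReal ((((n : ℝ) + 1 / 2) * (L / N)) ^ (-s)) := by
  have hNZ : (0 : ℤ) < N := by exact_mod_cast hN
  have hNR : (0 : ℝ) < N := by exact_mod_cast hN
  set h : ℝ := L / N with hh
  have hh0 : 0 < h := div_pos hL hNR
  have hNh : (N : ℝ) * h = L := by rw [hh]; field_simp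
  set w : ℤ → ℝ := fun j => ((j / N : ℤ) : ℝ) * L + v (j % N).toNat with hw
  set c : ℝ := (∑ i ∈ range N, (v i - i * h)) / N with hc
  set e : ℕ → ℝ := fun i => v i - c - i * h with he
  have hesum : ∑ i ∈ range N, e i = 0 := by
    have : ∀ i ∈ range N, e i = (v i - i * h) - c := fun i _ => by rw [he]; ring
    rw [sum_congr rfl this, sum_sub_distrib, sum_const, card_range, nsmul_eq_mul, hc,
      mul_div_cancel₀ _ hNR.ne', sub_self]
  set P : ℤ → ℝ := fun j => ∑ i ∈ range (j % N).toNat, e i with hP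
  set E : ℤ → ℝ := fun j => w j - (c + j * h) with hE
  have hEe : ∀ j : ℤ, E j = e (j % N).toNat := by
    intro j
    simp only [hE, he, hw]
    have h1 : (j : ℝ) = ((j / N : ℤ) : ℝ) * N + ((j % N : ℤ) : ℝ) := by
      have := Int.mul_ediv_add_emod j N
      have h2 : (j : ℝ) = (((N : ℤ) * (j / N) + j % N : ℤ) : ℝ) := by rw [this]
      rw [h2]; push_cast; ring
    have h2 : (((j % N).toNat : ℕ) : ℝ) = ((j % N : ℤ) : ℝ) := by
      have := Int.toNat_of_nonneg (Int.emod_nonneg j hNZ.ne')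
      exact_mod_cast congrArg (fun z : ℤ => (z : ℝ)) this
    rw [h2]
    linear_combination (-h) * h1 - ((j / N : ℤ) : ℝ) * hNh
  have hstep : ∀ j : ℤ, ((j % N).toNat + 1 < N ∧ (j + 1) / N = j / N ∧
      ((j + 1) % N).toNat = (j % N).toNat + 1) ∨
      ((j % N).toNat + 1 = N ∧ (j + 1) / N = j / N + 1 ∧ ((j + 1) % N).toNat = 0) := by
    intro j
    have h0 := Int.emod_nonneg j hNZ.ne'
    have h1 := Int.emod_lt_of_pos j hNZ
    have h2 := Int.mul_ediv_add_emod j N
    rcases lt_or_ge (j % N + 1) (N : ℤ) with h3 | h3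
    · left
      have h4 : (j + 1) / N = j / N ∧ (j + 1) % N = j % N + 1 := by
        rw [Int.ediv_emod_unique hNZ]
        refine ⟨by linarith, by linarith, h3⟩
      refine ⟨by omega, h4.1, ?_⟩
      rw [h4.2]; omega
    · right
      have h5 : j % N + 1 = N := by omega
      have h4 : (j + 1) / N = j / N + 1 ∧ (j + 1) % N = 0 := by
        rw [Int.ediv_emod_unique hNZ]
        refine ⟨by linarith, le_refl _, hNZ⟩
      refine ⟨by omega, h4.1, ?_⟩
      rw [h4.2]; rfl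
  have hwm : ∀ j : ℤ, w j ≤ w (j + 1) := by
    intro j
    simp only [hw]
    rcases hstep j with ⟨h1, h2, h3⟩ | ⟨h1, h2, h3⟩
    · rw [h2, h3]
      have := hmono (j % N).toNat ((j % N).toNat + 1) (by omega) h1
      linarith
    · rw [h2, h3]
      have h4 := (hv 0 hN).1
      have h5 := (hv (j % N).toNat (by omega)).2
      push_cast
      linarith
  have hPs : ∀ j : ℤ, P (j + 1) = P j + E j := by
    intro j
    rw [hEe]
    simp only [hP]
    rcases hstep j with ⟨h1, h2, h3⟩ | ⟨h1, h2, h3⟩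
    · rw [h3, sum_range_succ]
    · rw [h3, sum_range_zero, ← sum_range_succ, h1, hesum]
  obtain ⟨m0, hm0, hmin⟩ := Finset.exists_min_image (range N) (fun m => ∑ i ∈ range m, e i)
    ⟨0, mem_range.2 hN⟩
  set j0 : ℤ := (m0 : ℤ) with hj0
  have hPmin : ∀ j : ℤ, P j0 ≤ P j := by
    intro j
    have h1 : P j0 = ∑ i ∈ range m0, e i := by
      simp only [hP, hj0]
      have : ((m0 : ℤ) % N) = m0 := Int.emod_eq_of_lt (by positivity) (by
        have := mem_range.1 hm0; exact_mod_cast this)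
      rw [this]; rfl
    rw [h1]
    refine hmin (j % N).toNat (mem_range.2 ?_)
    have h2 := Int.emod_nonneg j hNZ.ne'
    have h3 := Int.emod_lt_of_pos j hNZ
    omega
  set y : ℝ := c + (j0 - 1 / 2) * h with hy
  -- right side
  have hr : ∀ m : ℕ, ∑ i ∈ range m, E (j0 + i) = P (j0 + m) - P j0 := by
    intro m
    induction m with
    | zero => simp
    | succ m ih =>
      rw [sum_range_succ, ih]
      have := hPs (j0 + m)
      rw [show (j0 + ((m + 1 : ℕ) : ℤ)) = j0 + m + 1 by push_cast; ring, this]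
      ring
  have hl : ∀ m : ℕ, ∑ i ∈ range m, (-E (j0 - 1 - i)) = P (j0 - m) - P j0 := by
    intro m
    induction m with
    | zero => simp
    | succ m ih =>
      rw [sum_range_succ, ih]
      have := hPs (j0 - 1 - m)
      rw [show j0 - 1 - (m : ℤ) + 1 = j0 - m by ring] at this
      rw [show (j0 - ((m + 1 : ℕ) : ℤ)) = j0 - 1 - m by push_cast; ring, this]
      ring
  have hra : ∀ i : ℕ, w (j0 + i) - y - (((i : ℝ) + 1 / 2) * h) = E (j0 + i) := by
    intro i
    simp only [hE, hy]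
    push_cast
    ring
  have hla : ∀ i : ℕ, y - w (j0 - 1 - i) - (((i : ℝ) + 1 / 2) * h) = -E (j0 - 1 - i) := by
    intro i
    simp only [hE, hy]
    push_cast
    ring
  have hbpos : ∀ i : ℕ, 0 < ((i : ℝ) + 1 / 2) * h := fun i => by positivity
  have hrm : ∀ n : ℕ, w (j0 + n) - y ≤ w (j0 + ((n + 1 : ℕ) : ℤ)) - y := by
    intro n
    have := hwm (j0 + n)
    rw [show (j0 + ((n + 1 : ℕ) : ℤ)) = j0 + n + 1 by push_cast; ring]
    linarith
  have hlm : ∀ n : ℕ, y - w (j0 - 1 - n) ≤ y - w (j0 - 1 - ((n + 1 : ℕ) : ℤ)) := by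
    intro n
    have := hwm (j0 - 1 - ((n + 1 : ℕ) : ℤ))
    rw [show (j0 - 1 - ((n + 1 : ℕ) : ℤ)) + 1 = j0 - 1 - n by push_cast; ring] at this
    linarith
  have hr1 : ∀ m, 0 ≤ ∑ i ∈ range m, ((w (j0 + i) - y) - ((i : ℝ) + 1 / 2) * h) := by
    intro m
    simp only [hra]
    rw [hr]
    have := hPmin (j0 + m)
    linarith
  have hl1 : ∀ m, 0 ≤ ∑ i ∈ range m, ((y - w (j0 - 1 - i)) - ((i : ℝ) + 1 / 2) * h) := by
    intro m
    simp only [hla]
    rw [hl]
    have := hPmin (j0 - m)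
    linarith
  have hrpos : ∀ n : ℕ, 0 < w (j0 + n) - y := by
    intro n
    induction n with
    | zero =>
      have h1 := hr1 1
      rw [sum_range_one] at h1
      exact lt_of_lt_of_le (hbpos 0) (sub_nonneg.1 h1)
    | succ n ih => exact lt_of_lt_of_le ih (hrm n)
  have hlpos : ∀ n : ℕ, 0 < y - w (j0 - 1 - n) := by
    intro n
    induction n with
    | zero =>
      have h1 := hl1 1
      rw [sum_range_one] at h1
      exact lt_of_lt_of_le (hbpos 0) (sub_nonneg.1 h1)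
    | succ n ih => exact lt_of_lt_of_le ih (hlm n)
  have hR := karamata_tsum hs (fun n : ℕ => w (j0 + n) - y) (fun n : ℕ => ((n : ℝ) + 1 / 2) * h)
    hrpos hrm hbpos hr1
  have hLft := karamata_tsum hs (fun n : ℕ => y - w (j0 - 1 - n))
    (fun n : ℕ => ((n : ℝ) + 1 / 2) * h) hlpos hlm hbpos hl1
  set g : ℤ → ℝ≥0∞ := fun j => (ENNReal.ofReal |y - w j|) ^ (-s) with hg
  have htot : ∑' j : ℤ, g j ≤ 2 * ∑' n : ℕ, ENNReal.ofReal ((((n : ℝ) + 1 / 2) * h) ^ (-s)) := by
    rw [← (Equiv.addRight j0).tsum_eq]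
    have h1 : HasSum (fun n : ℕ => g ((n : ℤ) + j0)) (∑' n : ℕ, g ((n : ℤ) + j0)) :=
      ENNReal.summable.hasSum
    have h2 : HasSum (fun n : ℕ => g (-((n : ℤ) + 1) + j0)) (∑' n : ℕ, g (-((n : ℤ) + 1) + j0)) :=
      ENNReal.summable.hasSum
    have h3 := HasSum.of_nat_of_neg_add_one (f := fun j : ℤ => g (j + j0)) h1 h2
    have h4 : ∑' (c : ℤ), g ((Equiv.addRight j0) c) = ∑' j : ℤ, g (j + j0) := rfl
    rw [h4, h3.tsum_eq, two_mul]
    refine add_le_add ?_ ?_
    · refine le_trans (le_of_eq ?_) hR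
      refine tsum_congr fun n => ?_
      simp only [hg]
      rw [add_comm (n : ℤ) j0, abs_sub_comm, abs_of_pos (hrpos n)]
    · refine le_trans (le_of_eq ?_) hLft
      refine tsum_congr fun n => ?_
      simp only [hg]
      rw [show -((n : ℤ) + 1) + j0 = j0 - 1 - n by ring, abs_of_pos (hlpos n)]
  set q : ℤ := ⌊y / L⌋ with hq
  refine ⟨y - q * L, ⟨?_, ?_⟩, ?_⟩
  · have := Int.floor_le (y / L)
    rw [le_div_iff₀ hL] at this
    linarith
  · have := Int.lt_floor_add_one (y / L)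
    rw [div_lt_iff₀ hL] at this
    linarith
  · refine le_trans ?_ htot
    have hinj : Function.Injective (fun r : Fin N => q * N + (r : ℤ)) := by
      intro a b hab
      simp only at hab
      have : (a : ℤ) = b := by linarith
      exact Fin.ext (by exact_mod_cast this)
    refine le_trans (le_of_eq ?_) (ENNReal.tsum_comp_le_tsum_of_injective hinj g)
    rw [tsum_fintype, Finset.sum_range]
    refine sum_congr rfl fun r _ => ?_
    simp only [hg, hw]
    have h1 : (q * N + (r : ℤ)) / N = q ∧ (q * N + (r : ℤ)) % N = r := by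
      rw [Int.ediv_emod_unique hNZ]
      refine ⟨by ring, by positivity, by exact_mod_cast r.2⟩
    rw [h1.1, h1.2, Int.toNat_natCast]
    congr 2
    congr 1
    ring

theorem exists_point {N : ℕ} (hN : 0 < N) {L : ℝ} (hL : 0 < L) (v : Fin N → ℝ)
    (hv : ∀ i, v i ∈ Set.Icc (0 : ℝ) L) {s : ℝ} (hs : 0 < s) :
    ∃ u ∈ Set.Ico (0 : ℝ) L, ∑ j, (ENNReal.ofReal |u - v j|) ^ (-s) ≤
      2 * ∑' n : ℕ, ENNReal.ofReal ((((n : ℝ) + 1 / 2) * (L / N)) ^ (-s)) := by
  set σ := Tuple.sort v with hσ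
  have hm := Tuple.monotone_sort v
  obtain ⟨u, hu, h⟩ := exists_point_mono hN hL
    (fun n => if hn : n < N then v (σ ⟨n, hn⟩) else 0) (by
      intro i hi
      simp only [hi, dif_pos]
      exact hv _) (by
      intro i j hij hj
      have hi : i < N := lt_of_le_of_lt hij hj
      simp only [hi, hj, dif_pos]
      exact hm (show (⟨i, hi⟩ : Fin N) ≤ ⟨j, hj⟩ from hij)) hs
  refine ⟨u, hu, le_trans (le_of_eq ?_) h⟩
  rw [Finset.sum_range, ← Equiv.sum_comp σ]
  refine sum_congr rfl fun i _ => ?_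
  simp [i.2]

end Pool.Agent.X110.Pol
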