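import Mathlib
import Pool.Agent.H306R2.ZetaGrowth
import Pool.Agent.X110.Pol1

set_option autoImplicit false

/-!
Basic estimates for the derivatives of the zeta function.
-/

namespace Pool.Agent.X110.ZB

open Complex Metric Set Filter Topology

/-- `ζ^{(j)}` -/
noncomputable def Z (j : ℕ) (s : ℂ) : ℂ := iteratedDeriv j riemannZeta s

lemma Z_diffOn (j : ℕ) : DifferentiableOn ℂ (Z j) {1}ᶜ := by
  induction j with
  | zero =>
    have : Z 0 = riemannZeta := by funext s; simp [Z]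
    rw [this]
    intro s hs
    exact (differentiableAt_riemannZeta hs).differentiableWithinAt
  | succ j ih =>
    have : Z (j + 1) = deriv (Z j) := by
      funext s
      unfold Z
      rw [iteratedDeriv_succ]
    rw [this]
    exact ih.deriv isOpen_compl_singleton

lemma Z_diffAt (j : ℕ) {s : ℂ} (hs : s ≠ 1) : DifferentiableAt ℂ (Z j) s :=
  (Z_diffOn j).differentiableAt (isOpen_compl_singleton.mem_nhds hs)

lemma deriv_Z (j : ℕ) (s : ℂ) : deriv (Z j) s = Z (j + 1) s := by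
  unfold Z
  rw [iteratedDeriv_succ]

lemma Z_hasDerivAt (j : ℕ) {s : ℂ} (hs : s ≠ 1) : HasDerivAt (Z j) (Z (j + 1) s) s := by
  rw [← deriv_Z]
  exact (Z_diffAt j hs).hasDerivAt

lemma zeta_bd {s : ℂ} (hs : 0 < s.re) (h1 : 1 ≤ ‖s - 1‖) :
    ‖riemannZeta s‖ ≤ ‖s‖ * (1 + 1 / s.re) := by
  have hne : s - 1 ≠ 0 := by
    intro h
    rw [h, norm_zero] at h1
    linarith
  have h2 := Pool.Agent.H306R2.zeta_eq_pos hs (sub_ne_zero.1 hne)
  have h3 : riemannZeta s = s / (s - 1) - s * Pool.Agent.H306R2.Hf s := by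
    unfold Pool.Agent.H306R2.Zt at h2
    field_simp
    linear_combination h2
  rw [h3]
  have h4 := Pool.Agent.H306R2.Hf_norm_le hs
  calc ‖s / (s - 1) - s * Pool.Agent.H306R2.Hf s‖ ≤ ‖s / (s - 1)‖ + ‖s * Pool.Agent.H306R2.Hf s‖ :=
        norm_sub_le _ _
    _ = ‖s‖ / ‖s - 1‖ + ‖s‖ * ‖Pool.Agent.H306R2.Hf s‖ := by rw [norm_div, norm_mul]
    _ ≤ ‖s‖ / 1 + ‖s‖ * (1 / s.re) := by
        gcongr
    _ = _ := by ring

lemma one_le_norm_sub {s : ℂ} (h : 1 ≤ |s.im|) : 1 ≤ ‖s - 1‖ := by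
  refine h.trans ?_
  have := abs_im_le_norm (s - 1)
  simpa using this

lemma Z_bd {σ : ℝ} (hσ : 0 < σ) (hσ1 : σ ≤ 1) (j : ℕ) {s : ℂ} (hs : σ ≤ s.re) (him : 2 ≤ |s.im|) :
    ‖Z j s‖ ≤ j.factorial * (2 / σ) ^ j * ((‖s‖ + 1) * (1 + 2 / σ)) := by
  have hball : ∀ z ∈ closedBall s (σ / 2), 0 < z.re ∧ σ / 2 ≤ z.re ∧ 1 ≤ ‖z - 1‖ ∧
      ‖z‖ ≤ ‖s‖ + 1 := by
    intro z hz
    rw [mem_closedBall, dist_eq_norm] at hz
    have h1 : |(z - s).re| ≤ σ / 2 := (abs_re_le_norm _).trans hz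
    have h2 : |(z - s).im| ≤ σ / 2 := (abs_im_le_norm _).trans hz
    rw [sub_re, abs_le] at h1
    rw [sub_im] at h2
    refine ⟨by linarith, by linarith, ?_, ?_⟩
    · apply one_le_norm_sub
      have h3 : |s.im| - |z.im - s.im| ≤ |z.im| := by
        have := abs_sub_abs_le_abs_sub s.im (s.im - z.im)
        have e : s.im - (s.im - z.im) = z.im := by ring
        rw [e] at this
        rw [abs_sub_comm z.im s.im]
        linarith
      linarith
    · have : ‖z‖ ≤ ‖s‖ + ‖z - s‖ := by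
        have := norm_add_le s (z - s)
        rwa [add_sub_cancel] at this
      linarith
  have h1 := norm_iteratedDeriv_le_of_forall_mem_sphere_norm_le (c := s) (R := σ / 2)
    (C := (‖s‖ + 1) * (1 + 2 / σ)) (f := riemannZeta) j (by positivity) ?_ ?_
  · unfold Z
    refine h1.trans (le_of_eq ?_)
    have : (2 / σ) ^ j = 1 / (σ / 2) ^ j := by
      rw [div_pow, div_pow]
      field_simp
    rw [this]
    ring
  · apply DifferentiableOn.diffContOnCl
    intro z hz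
    have hz' := closure_ball_subset_closedBall hz
    obtain ⟨_, _, h3, _⟩ := hball z hz'
    refine (differentiableAt_riemannZeta ?_).differentiableWithinAt
    rintro rfl
    simp at h3
    linarith
  · intro z hz
    obtain ⟨h2, h3, h4, h5⟩ := hball z (sphere_subset_closedBall hz)
    refine (zeta_bd h2 h4).trans ?_
    have h6 : 1 / z.re ≤ 2 / σ := by
      rw [div_le_div_iff₀ h2 hσ]
      linarith
    have h7 : 0 ≤ ‖z‖ := norm_nonneg _
    have h8 : 0 < 2 / σ := by positivity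
    have h9 : 0 < 1 / z.re := by positivity
    apply mul_le_mul h5 (by linarith) (by linarith) (by positivity)

/-- maximum principle on a rectangle with a Gaussian factor -/
lemma rect_gauss {F : ℂ → ℂ} {x1 x2 t1 H x0 lam A B P C : ℝ} (hx : x1 < x2) (hx1 : x1 ≤ x0)
    (hx2 : x0 ≤ x2) (hH : 0 < H)
    (hF : ∀ z : ℂ, x1 ≤ z.re → z.re ≤ x2 → |z.im - t1| ≤ H → DifferentiableAt ℂ F z)
    (hA : ∀ z : ℂ, z.re = x1 → |z.im - t1| ≤ H → ‖F z‖ ≤ A)
    (hB : ∀ z : ℂ, z.re = x2 → |z.im - t1| ≤ H → ‖F z‖ ≤ B)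
    (hP : ∀ z : ℂ, x1 ≤ z.re → z.re ≤ x2 → |z.im - t1| = H → ‖F z‖ ≤ P)
    (hC1 : A * Real.exp (lam * (x0 - x1) + (x0 - x1) ^ 2) ≤ C)
    (hC2 : B * Real.exp (-lam * (x2 - x0) + (x2 - x0) ^ 2) ≤ C)
    (hC3 : P * Real.exp (|lam| * (x2 - x1) + (x2 - x1) ^ 2 - H ^ 2) ≤ C) :
    ‖F (x0 + t1 * I)‖ ≤ C := by
  set z0 : ℂ := x0 + t1 * I with hz0
  have hz0re : z0.re = x0 := by simp [hz0]
  have hz0im : z0.im = t1 := by simp [hz0]
  set G : ℂ → ℂ := fun z => F z * exp (-lam * (z - z0) + (z - z0) ^ 2) with hG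
  have hnorm : ∀ z : ℂ, ‖G z‖ = ‖F z‖ *
      Real.exp (-lam * (z.re - x0) + (z.re - x0) ^ 2 - (z.im - t1) ^ 2) := by
    intro z
    simp only [hG]
    rw [norm_mul, Complex.norm_exp]
    congr 2
    have e1 : ((-lam * (z - z0) + (z - z0) ^ 2 : ℂ)).re = -lam * (z.re - z0.re) +
        ((z.re - z0.re) ^ 2 - (z.im - z0.im) ^ 2) := by
      simp only [add_re, mul_re, neg_re, neg_im, ofReal_re, ofReal_im, sub_re, sub_im, pow_two]
      ring
    rw [e1, hz0re, hz0im]
    ring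
  set U : Set ℂ := Ioo x1 x2 ×ℂ Ioo (t1 - H) (t1 + H) with hU
  have hcl : closure U = Icc x1 x2 ×ℂ Icc (t1 - H) (t1 + H) := by
    rw [hU, closure_reProdIm, closure_Ioo hx.ne, closure_Ioo (by linarith)]
  have hbdd : Bornology.IsBounded U := by
    have : U ⊆ Icc x1 x2 ×ℂ Icc (t1 - H) (t1 + H) := by rw [← hcl]; exact subset_closure
    refine Bornology.IsBounded.subset ?_ this
    exact (isCompact_Icc.reProdIm isCompact_Icc).isBounded
  have hmemcl : ∀ z ∈ closure U, x1 ≤ z.re ∧ z.re ≤ x2 ∧ |z.im - t1| ≤ H := by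
    intro z hz
    rw [hcl, mem_reProdIm] at hz
    refine ⟨hz.1.1, hz.1.2, ?_⟩
    rw [abs_le]
    constructor <;> linarith [hz.2.1, hz.2.2]
  have hd : DiffContOnCl ℂ G U := by
    apply DifferentiableOn.diffContOnCl
    intro z hz
    obtain ⟨h1, h2, h3⟩ := hmemcl z hz
    have := hF z h1 h2 h3
    have h4 : DifferentiableAt ℂ (fun z : ℂ => exp (-lam * (z - z0) + (z - z0) ^ 2)) z := by
      fun_prop
    exact (this.mul h4).differentiableWithinAt
  have hfr : ∀ z ∈ frontier U, ‖G z‖ ≤ C := by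
    intro z hz
    rw [hU, frontier_reProdIm, closure_Ioo hx.ne, closure_Ioo (by linarith : t1 - H ≠ t1 + H),
      frontier_Ioo hx, frontier_Ioo (by linarith : t1 - H < t1 + H)] at hz
    rw [hnorm]
    rcases hz with hz | hz
    · rw [mem_reProdIm] at hz
      obtain ⟨⟨h1, h2⟩, h3⟩ := hz
      have h4 : |z.im - t1| = H := by
        rcases h3 with h3 | h3
        · rw [h3, show t1 - H - t1 = -H by ring, abs_neg, abs_of_pos hH]
        · rw [mem_singleton_iff] at h3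
          rw [h3, show t1 + H - t1 = H by ring, abs_of_pos hH]
      have h5 := hP z h1 h2 h4
      have h6 : (z.im - t1) ^ 2 = H ^ 2 := by rw [← sq_abs, h4]
      have hP0 : 0 ≤ P := (norm_nonneg _).trans h5
      refine le_trans ?_ hC3
      refine mul_le_mul h5 (Real.exp_le_exp.2 ?_) (Real.exp_pos _).le hP0
      rw [h6]
      have h7 : -lam * (z.re - x0) ≤ |lam| * (x2 - x1) := by
        calc -lam * (z.re - x0) ≤ |(-lam) * (z.re - x0)| := le_abs_self _
          _ = |lam| * |z.re - x0| := by rw [abs_mul, abs_neg]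
          _ ≤ _ := by
            refine mul_le_mul_of_nonneg_left ?_ (abs_nonneg _)
            rw [abs_le]; constructor <;> linarith
      have h8 : (z.re - x0) ^ 2 ≤ (x2 - x1) ^ 2 := by
        apply sq_le_sq'
        · linarith
        · linarith
      linarith
    · rw [mem_reProdIm] at hz
      obtain ⟨h3, h1, h2⟩ := hz
      have h4 : |z.im - t1| ≤ H := by rw [abs_le]; constructor <;> linarith
      rcases h3 with h3 | h3
      · have h5 := hA z h3 h4
        have hA0 : 0 ≤ A := (norm_nonneg _).trans h5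
        refine le_trans ?_ hC1
        refine mul_le_mul h5 (Real.exp_le_exp.2 ?_) (Real.exp_pos _).le hA0
        rw [h3]
        nlinarith [sq_nonneg (z.im - t1)]
      · rw [mem_singleton_iff] at h3
        have h5 := hB z h3 h4
        have hB0 : 0 ≤ B := (norm_nonneg _).trans h5
        refine le_trans ?_ hC2
        refine mul_le_mul h5 (Real.exp_le_exp.2 ?_) (Real.exp_pos _).le hB0
        rw [h3]
        nlinarith [sq_nonneg (z.im - t1)]
  have hz0cl : z0 ∈ closure U := by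
    rw [hcl, mem_reProdIm, hz0re, hz0im]
    exact ⟨⟨hx1, hx2⟩, ⟨by linarith, by linarith⟩⟩
  have := norm_le_of_forall_mem_frontier_norm_le hbdd hd hfr hz0cl
  rw [hnorm, hz0re, hz0im] at this
  simpa using this

/-! ### the Dirichlet series -/

/-- the coefficients of `(-1)^j ζ^{(j)}(x + it)` as a series in `(n+1)^{-it}` -/
noncomputable def a (j : ℕ) (x : ℝ) (n : ℕ) : ℝ := Real.log ((n : ℝ) + 1) ^ j * ((n : ℝ) + 1) ^ (-x)

lemma a_nonneg (j : ℕ) (x : ℝ) (n : ℕ) : 0 ≤ a j x n := by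
  unfold a
  have : (0 : ℝ) ≤ n := Nat.cast_nonneg n
  have : 0 ≤ Real.log ((n : ℝ) + 1) := Real.log_nonneg (by linarith)
  positivity

lemma psum_zeta {u : ℝ} (hu : 0 < u) (N : ℕ) :
    ∑ n ∈ Finset.range (N + 1), ((n : ℝ) + 1) ^ (-(1 + u)) ≤
      1 + 1 / u - (1 / u) * ((N : ℝ) + 1) ^ (-u) := by
  induction N with
  | zero => simp
  | succ N ih =>
    rw [Finset.sum_range_succ]
    have h1 := Pool.Agent.X110.Pol.tangent (s := u) (a := (N : ℝ) + 2) (b := (N : ℝ) + 1) hu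
      (by positivity) (by positivity)
    have h2 : ((N : ℝ) + 2 - (N + 1)) = 1 := by ring
    rw [h2, mul_one] at h1
    have h3 : (((N + 1 : ℕ) : ℝ) + 1) = (N : ℝ) + 2 := by push_cast; ring
    rw [h3]
    have h4 : (-(1 + u)) = -u - 1 := by ring
    rw [h4] at ih ⊢
    have h5 : ((N : ℝ) + 2) ^ (-u - 1) ≤
        (1 / u) * ((N : ℝ) + 1) ^ (-u) - (1 / u) * ((N : ℝ) + 2) ^ (-u) := by
      rw [← mul_sub, one_div, ← div_eq_inv_mul, le_div_iff₀ hu]
      linarith
    linarith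

lemma psum_zeta' {u : ℝ} (hu : 0 < u) (N : ℕ) :
    ∑ n ∈ Finset.range N, ((n : ℝ) + 1) ^ (-(1 + u)) ≤ 1 + 1 / u := by
  have h1 := psum_zeta hu N
  have h2 : ∑ n ∈ Finset.range N, ((n : ℝ) + 1) ^ (-(1 + u)) ≤
      ∑ n ∈ Finset.range (N + 1), ((n : ℝ) + 1) ^ (-(1 + u)) := by
    rw [Finset.sum_range_succ]
    have : 0 ≤ ((N : ℝ) + 1) ^ (-(1 + u)) := by positivity
    linarith
  have h3 : 0 ≤ (1 / u) * ((N : ℝ) + 1) ^ (-u) := by positivity
  linarith

lemma log_pow_le (j : ℕ) {y : ℝ} (hy : 0 < y) (n : ℕ) :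
    Real.log ((n : ℝ) + 1) ^ j ≤ j.factorial / y ^ j * ((n : ℝ) + 1) ^ y := by
  have h0 : (0 : ℝ) ≤ n := Nat.cast_nonneg n
  have h1 : 0 ≤ Real.log ((n : ℝ) + 1) := Real.log_nonneg (by linarith)
  have h2 := Real.pow_div_factorial_le_exp (y * Real.log ((n : ℝ) + 1)) (by positivity) j
  have h3 : Real.exp (y * Real.log ((n : ℝ) + 1)) = ((n : ℝ) + 1) ^ y := by
    rw [Real.rpow_def_of_pos (by linarith), mul_comm]
  rw [h3, mul_pow, div_le_iff₀ (by positivity)] at h2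
  rw [div_mul_eq_mul_div, le_div_iff₀ (by positivity)]
  linarith

lemma a_le (j : ℕ) {x y : ℝ} (hy : 0 < y) (n : ℕ) :
    a j x n ≤ j.factorial / y ^ j * ((n : ℝ) + 1) ^ (-(x - y)) := by
  unfold a
  have h0 : (0 : ℝ) < (n : ℝ) + 1 := by positivity
  have h1 := mul_le_mul_of_nonneg_right (log_pow_le j hy n) (Real.rpow_nonneg h0.le (-x))
  refine h1.trans (le_of_eq ?_)
  rw [mul_assoc, ← Real.rpow_add h0]
  congr 2
  ring

lemma a_summable (j : ℕ) {x : ℝ} (hx : 1 < x) : Summable (a j x) := by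
  set y := (x - 1) / 2 with hy
  have hy0 : 0 < y := by rw [hy]; linarith
  refine Summable.of_nonneg_of_le (a_nonneg j x) (fun n => a_le j hy0 n) ?_
  refine Summable.mul_left _ ?_
  have h1 : 1 < x - y := by rw [hy]; linarith
  have h2 := (Real.summable_nat_rpow (p := -(x - y))).2 (by linarith)
  have h3 := (summable_nat_add_iff 1).2 h2
  simpa using h3

/-- `Z_j(x) = (-1)^j A_j(x)` -/
noncomputable def A (j : ℕ) (x : ℝ) : ℝ := ∑' n, a j x n

lemma A_le (j : ℕ) {x y : ℝ} (hy : 0 < y) (hxy : 1 < x - y) :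
    A j x ≤ j.factorial / y ^ j * (1 + 1 / (x - y - 1)) := by
  unfold A
  refine Real.tsum_le_of_sum_range_le (a_nonneg j x) fun N => ?_
  calc ∑ n ∈ Finset.range N, a j x n ≤
      ∑ n ∈ Finset.range N, j.factorial / y ^ j * ((n : ℝ) + 1) ^ (-(x - y)) :=
        Finset.sum_le_sum fun n _ => a_le j hy n
    _ = j.factorial / y ^ j * ∑ n ∈ Finset.range N, ((n : ℝ) + 1) ^ (-(1 + (x - y - 1))) := by
        rw [Finset.mul_sum]
        simp only [add_sub_cancel]
    _ ≤ _ := by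
        refine mul_le_mul_of_nonneg_left ?_ (by positivity)
        exact psum_zeta' (by linarith) N

lemma A_pos (j : ℕ) {x : ℝ} (hx : 1 < x) : 0 < A j x := by
  unfold A
  refine (a_summable j hx).tsum_pos (a_nonneg j x) 1 ?_
  unfold a
  have : 0 < Real.log (((1 : ℕ) : ℝ) + 1) := Real.log_pos (by norm_num)
  positivity

lemma A_anti (j : ℕ) {x x' : ℝ} (hx : 1 < x) (hxx : x ≤ x') : A j x' ≤ A j x := by
  unfold A
  refine (a_summable j (lt_of_lt_of_le hx hxx)).tsum_le_tsum (fun n => ?_) (a_summable j hx)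
  unfold a
  have h0 : (1 : ℝ) ≤ (n : ℝ) + 1 := by
    have : (0 : ℝ) ≤ n := Nat.cast_nonneg n
    linarith
  refine mul_le_mul_of_nonneg_left ?_ (pow_nonneg (Real.log_nonneg h0) j)
  exact Real.rpow_le_rpow_of_exponent_le h0 (by linarith)

lemma logMul_iter (j n : ℕ) : (LSeries.logMul^[j] 1) n = (Complex.log n) ^ j := by
  induction j with
  | zero => simp
  | succ j ih =>
    rw [Function.iterate_succ_apply', LSeries.logMul, ih, pow_succ, mul_comm]

lemma Z_eq (j : ℕ) {s : ℂ} (hs : 1 < s.re) :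
    Z j s = (-1) ^ j * ∑' n : ℕ, ((Real.log ((n : ℝ) + 1) : ℝ) : ℂ) ^ j * ((n : ℂ) + 1) ^ (-s) := by
  have h1 : Z j s = iteratedDeriv j (LSeries 1) s := by
    unfold Z
    apply Filter.EventuallyEq.iteratedDeriv_eq
    have : {z : ℂ | 1 < z.re} ∈ 𝓝 s := (isOpen_lt continuous_const continuous_re).mem_nhds hs
    filter_upwards [this] with z hz
    rw [LSeries_one_eq_riemannZeta hz]
  have h2 : LSeries.abscissaOfAbsConv (1 : ℕ → ℂ) < s.re := by
    rw [LSeries.abscissaOfAbsConv_one]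
    exact_mod_cast hs
  rw [h1, LSeries_iteratedDeriv j h2]
  congr 1
  unfold LSeries
  have hs0 : s ≠ 0 := by
    rintro rfl
    simp at hs
    linarith
  have hsum : Summable (fun n => LSeries.term (LSeries.logMul^[j] 1) s n) := by
    have h3 : LSeries.abscissaOfAbsConv (LSeries.logMul^[j] (1 : ℕ → ℂ)) < s.re := by
      rw [LSeries.absicssaOfAbsConv_logPowMul]
      exact h2
    exact LSeriesSummable_of_abscissaOfAbsConv_lt_re h3
  rw [hsum.tsum_eq_zero_add, LSeries.term_zero, zero_add]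
  refine tsum_congr fun n => ?_
  rw [LSeries.term_of_ne_zero (by omega), logMul_iter, Complex.cpow_neg, div_eq_mul_inv]
  have e1 : ((n + 1 : ℕ) : ℂ) = (n : ℂ) + 1 := by push_cast; ring
  have e2 : Complex.log (((n + 1 : ℕ) : ℂ)) = ((Real.log ((n : ℝ) + 1) : ℝ) : ℂ) := by
    rw [Complex.natCast_log.symm]
    push_cast
    rfl
  rw [e2, e1]

lemma norm_term (j n : ℕ) (s : ℂ) :
    ‖((Real.log ((n : ℝ) + 1) : ℝ) : ℂ) ^ j * ((n : ℂ) + 1) ^ (-s)‖ = a j s.re n := by
  have h0 : (0 : ℝ) < (n : ℝ) + 1 := by positivity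
  have h1 : ((n : ℂ) + 1) = (((n : ℝ) + 1 : ℝ) : ℂ) := by push_cast; rfl
  rw [norm_mul, norm_pow, Complex.norm_real, h1, Complex.norm_cpow_eq_rpow_re_of_pos h0,
    Real.norm_of_nonneg (Real.log_nonneg (by linarith : (1 : ℝ) ≤ (n : ℝ) + 1)), Complex.neg_re]
  rfl

lemma Z_norm_le_A (j : ℕ) {s : ℂ} (hs : 1 < s.re) : ‖Z j s‖ ≤ A j s.re := by
  rw [Z_eq j hs, norm_mul, norm_pow, norm_neg, norm_one, one_pow, one_mul]
  have hsum : Summable (fun n : ℕ =>
      ‖((Real.log ((n : ℝ) + 1) : ℝ) : ℂ) ^ j * ((n : ℂ) + 1) ^ (-s)‖) := by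
    simp only [norm_term]
    exact a_summable j hs
  refine (norm_tsum_le_tsum_norm hsum).trans (le_of_eq ?_)
  simp only [norm_term]
  rfl

end Pool.Agent.X110.ZB
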