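import Mathlib
import Pool.Agent.X110.ZB

set_option autoImplicit false

/-!
Near periods, the edge lemma and comparison of maxima of derivatives of zeta.
-/

namespace Pool.Agent.X110.ZB

open Complex Metric Set Filter Topology

/-- the finite family `(n+1)^{-it}`, `n < N`, has a relatively dense set of near periods. -/
lemma near_period (N : ℕ) {δ : ℝ} (hδ : 0 < δ) : ∃ L : ℝ, 0 ≤ L ∧ ∀ u : ℝ, ∃ τ : ℝ, u ≤ τ ∧ τ ≤ u + L ∧
    ∀ n : ℕ, n < N → ‖Complex.exp (-((τ * Real.log ((n : ℝ) + 1) : ℝ) : ℂ) * I) - 1‖ ≤ δ := by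
  set φ : ℝ → (Fin N → ℂ) := fun t n => Complex.exp (-((t * Real.log ((n : ℝ) + 1) : ℝ) : ℂ) * I)
    with hφ
  have hnorm : ∀ t n, ‖φ t n‖ = 1 := by
    intro t n
    simp only [hφ]
    rw [← ofReal_neg, Complex.norm_exp_ofReal_mul_I]
  have hb : TotallyBounded (range φ) := by
    have hbd : Bornology.IsBounded (range φ) := by
      rw [isBounded_iff_forall_norm_le]
      refine ⟨1, ?_⟩
      rintro _ ⟨t, rfl⟩
      rw [pi_norm_le_iff_of_nonneg zero_le_one]
      intro n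
      rw [hnorm]
    exact hbd.isCompact_closure.totallyBounded.subset subset_closure
  have hb2 := Metric.totallyBounded_iff.1 hb
  obtain ⟨S, hSsub, hSfin, hS⟩ : ∃ S ⊆ range φ, S.Finite ∧ range φ ⊆ ⋃ y ∈ S, ball y δ := by
    have := totallyBounded_iff_subset.1 hb {p : (Fin N → ℂ) × (Fin N → ℂ) | dist p.1 p.2 < δ}
      (Metric.dist_mem_uniformity hδ)
    obtain ⟨t, ht, htf, htc⟩ := this
    exact ⟨t, ht, htf, htc⟩
  have hex : ∀ y ∈ S, ∃ t : ℝ, φ t = y := fun y hy => hSsub hy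
  choose! g hg using hex
  have hfin : (g '' S).Finite := hSfin.image g
  obtain ⟨R, hR⟩ := (hfin.isBounded).exists_norm_le
  set R' := max R 0 with hR'
  refine ⟨2 * R', by positivity, fun u => ?_⟩
  have h1 : φ (u + R') ∈ ⋃ y ∈ S, ball y δ := hS (mem_range_self _)
  rw [mem_iUnion₂] at h1
  obtain ⟨y, hy, hyb⟩ := h1
  have h2 : |g y| ≤ R' := by
    have := hR (g y) (mem_image_of_mem g hy)
    rw [Real.norm_eq_abs] at this
    exact this.trans (le_max_left _ _)
  rw [abs_le] at h2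
  refine ⟨u + R' - g y, by linarith, by linarith, fun n hn => ?_⟩
  rw [mem_ball, dist_eq_norm, pi_norm_lt_iff hδ] at hyb
  have h3 := hyb ⟨n, hn⟩
  rw [← hg y hy, Pi.sub_apply] at h3
  simp only [hφ] at h3
  have h4 : Complex.exp (-(((u + R' - g y) * Real.log ((n : ℝ) + 1) : ℝ) : ℂ) * I) - 1 =
      Complex.exp (((g y * Real.log ((n : ℝ) + 1) : ℝ) : ℂ) * I) *
      (Complex.exp (-(((u + R') * Real.log ((n : ℝ) + 1) : ℝ) : ℂ) * I) -
      Complex.exp (-((g y * Real.log ((n : ℝ) + 1) : ℝ) : ℂ) * I)) := by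
    rw [mul_sub, ← Complex.exp_add, ← Complex.exp_add]
    congr 1
    · congr 1
      push_cast
      ring
    · rw [← Complex.exp_zero]
      congr 1
      ring
  rw [h4, norm_mul, Complex.norm_exp_ofReal_mul_I, one_mul]
  exact h3.le

/-- large values on the line `Re s = x > 1` on a relatively dense set. -/
lemma large_values (j : ℕ) {x : ℝ} (hx : 1 < x) {c : ℝ} (hc : c < 1) :
    ∃ L : ℝ, 0 ≤ L ∧ ∀ u : ℝ, ∃ τ : ℝ, u ≤ τ ∧ τ ≤ u + L ∧
      c * A j x ≤ ‖Z j (x + τ * I)‖ := by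
  have hA := A_pos j hx
  have hsum := a_summable j hx
  set η := (1 - c) * A j x / 3 with hη
  have hη0 : 0 < η := by
    have : 0 < 1 - c := by linarith
    positivity
  obtain ⟨N, hN⟩ : ∃ N : ℕ, ∑' n, a j x (n + N) < η := by
    have := tendsto_sum_nat_add (a j x)
    exact ((this.eventually_lt_const hη0)).exists
  obtain ⟨L, hL0, hL⟩ := near_period N (δ := (1 - c) / 3) (by linarith)
  refine ⟨L, hL0, fun u => ?_⟩
  obtain ⟨τ, h1, h2, h3⟩ := hL u
  refine ⟨τ, h1, h2, ?_⟩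
  set s : ℂ := x + τ * I with hs
  have hre : s.re = x := by simp [hs]
  have hs1 : 1 < s.re := by rw [hre]; exact hx
  rw [Z_eq j hs1, norm_mul, norm_pow, norm_neg, norm_one, one_pow, one_mul]
  have hterm : ∀ n : ℕ, ((Real.log ((n : ℝ) + 1) : ℝ) : ℂ) ^ j * ((n : ℂ) + 1) ^ (-s) =
      (a j x n : ℂ) * Complex.exp (-((τ * Real.log ((n : ℝ) + 1) : ℝ) : ℂ) * I) := by
    intro n
    have h0 : (0 : ℝ) < (n : ℝ) + 1 := by positivity
    have h0' : ((n : ℂ) + 1) = (((n : ℝ) + 1 : ℝ) : ℂ) := by push_cast; rfl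
    unfold a
    push_cast
    rw [mul_assoc]
    congr 1
    have h0'' : (n : ℂ) + 1 ≠ 0 := by
      rw [h0']
      exact_mod_cast h0.ne'
    have e1 : (((((n : ℝ) + 1 : ℝ)) ^ (-x) : ℝ) : ℂ) = ((n : ℂ) + 1) ^ (-(x : ℂ)) := by
      rw [Complex.ofReal_cpow h0.le]
      push_cast
      rfl
    push_cast at e1
    rw [e1, hs, neg_add, Complex.cpow_add _ _ h0'']
    congr 1
    rw [Complex.cpow_def_of_ne_zero h0'']
    congr 1
    have e2 : Complex.log ((n : ℂ) + 1) = ((Real.log ((n : ℝ) + 1) : ℝ) : ℂ) := by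
      rw [h0', Complex.ofReal_log h0.le]
    rw [e2]
    ring
  simp only [hterm]
  have hs2 : Summable (fun n : ℕ => ‖(a j x n : ℂ) *
      Complex.exp (-((τ * Real.log ((n : ℝ) + 1) : ℝ) : ℂ) * I)‖) := by
    refine hsum.congr fun n => ?_
    rw [norm_mul, ← ofReal_neg, Complex.norm_exp_ofReal_mul_I, mul_one, Complex.norm_real,
      Real.norm_of_nonneg (a_nonneg j x n)]
  have hs3 : Summable (fun n : ℕ => (a j x n : ℂ) *
      Complex.exp (-((τ * Real.log ((n : ℝ) + 1) : ℝ) : ℂ) * I)) := hs2.of_norm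
  have hs4 : Summable (fun n : ℕ => (a j x n : ℂ)) := by
    exact_mod_cast hsum
  -- difference
  have hd : ‖∑' n : ℕ, (a j x n : ℂ) * Complex.exp (-((τ * Real.log ((n : ℝ) + 1) : ℝ) : ℂ) * I) -
      ∑' n : ℕ, (a j x n : ℂ)‖ ≤ (1 - c) / 3 * A j x + 2 * η := by
    rw [← hs3.tsum_sub hs4]
    have hb : ∀ n : ℕ, ‖(a j x n : ℂ) *
        Complex.exp (-((τ * Real.log ((n : ℝ) + 1) : ℝ) : ℂ) * I) - (a j x n : ℂ)‖ ≤
        2 * a j x n := by
      intro n
      rw [show (a j x n : ℂ) *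
        Complex.exp (-((τ * Real.log ((n : ℝ) + 1) : ℝ) : ℂ) * I) - (a j x n : ℂ) =
        (a j x n : ℂ) * (Complex.exp (-((τ * Real.log ((n : ℝ) + 1) : ℝ) : ℂ) * I) - 1) by ring,
        norm_mul, Complex.norm_real, Real.norm_of_nonneg (a_nonneg j x n), mul_comm 2]
      refine mul_le_mul_of_nonneg_left ?_ (a_nonneg j x n)
      refine (norm_sub_le _ _).trans ?_
      rw [← ofReal_neg, Complex.norm_exp_ofReal_mul_I, norm_one]
      norm_num
    have hb2 : ∀ n : ℕ, n < N → ‖(a j x n : ℂ) *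
        Complex.exp (-((τ * Real.log ((n : ℝ) + 1) : ℝ) : ℂ) * I) - (a j x n : ℂ)‖ ≤
        (1 - c) / 3 * a j x n := by
      intro n hn
      rw [show (a j x n : ℂ) *
        Complex.exp (-((τ * Real.log ((n : ℝ) + 1) : ℝ) : ℂ) * I) - (a j x n : ℂ) =
        (a j x n : ℂ) * (Complex.exp (-((τ * Real.log ((n : ℝ) + 1) : ℝ) : ℂ) * I) - 1) by ring,
        norm_mul, Complex.norm_real, Real.norm_of_nonneg (a_nonneg j x n),
        mul_comm ((1 - c) / 3)]
      exact mul_le_mul_of_nonneg_left (h3 n hn) (a_nonneg j x n)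
    have hs5 : Summable (fun n : ℕ => ‖(a j x n : ℂ) *
        Complex.exp (-((τ * Real.log ((n : ℝ) + 1) : ℝ) : ℂ) * I) - (a j x n : ℂ)‖) :=
      Summable.of_nonneg_of_le (fun n => norm_nonneg _) hb (hsum.mul_left 2)
    refine (norm_tsum_le_tsum_norm hs5).trans ?_
    rw [← hs5.sum_add_tsum_nat_add N]
    refine add_le_add ?_ ?_
    · calc _ ≤ ∑ n ∈ Finset.range N, (1 - c) / 3 * a j x n :=
            Finset.sum_le_sum fun n hn => hb2 n (Finset.mem_range.1 hn)
        _ = (1 - c) / 3 * ∑ n ∈ Finset.range N, a j x n := by rw [Finset.mul_sum]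
        _ ≤ _ := by
          refine mul_le_mul_of_nonneg_left ?_ (by linarith)
          exact hsum.sum_le_tsum _ fun n _ => a_nonneg j x n
    · calc _ ≤ ∑' n, 2 * a j x (n + N) := by
            refine Summable.tsum_le_tsum (fun n => hb (n + N)) ?_ ?_
            · exact (summable_nat_add_iff N).2 hs5
            · exact ((summable_nat_add_iff N).2 hsum).mul_left 2
        _ = 2 * ∑' n, a j x (n + N) := by rw [tsum_mul_left]
        _ ≤ _ := by linarith
  have hsumA : ∑' n : ℕ, (a j x n : ℂ) = ((A j x : ℝ) : ℂ) := by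
    unfold A
    rw [Complex.ofReal_tsum]
  rw [hsumA] at hd
  have hnA : ‖((A j x : ℝ) : ℂ)‖ = A j x := by
    rw [Complex.norm_real, Real.norm_of_nonneg hA.le]
  set Y := ∑' n : ℕ, (a j x n : ℂ) * Complex.exp (-((τ * Real.log ((n : ℝ) + 1) : ℝ) : ℂ) * I)
  have h5 : A j x ≤ ‖Y‖ + ‖Y - ((A j x : ℝ) : ℂ)‖ := by
    have := norm_sub_le Y (Y - ((A j x : ℝ) : ℂ))
    rw [sub_sub_cancel, hnA] at this
    exact this
  rw [hη] at hd
  nlinarith

end Pool.Agent.X110.ZB
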