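import Mathlib
import Pool.Agent.X110.ZC

set_option autoImplicit false

/-!
Comparison of the maxima of the derivatives of zeta on `[T, 2T]`.
-/

namespace Pool.Agent.X110.ZB

open Complex Metric Set Filter Topology

/-- polynomial bound -/
lemma poly_bd (j : ℕ) {σ : ℝ} (hσ : 0 < σ) (hσ1 : σ ≤ 1) : ∃ K : ℝ, 0 < K ∧ ∀ T : ℝ, 4 ≤ T →
    ∀ z : ℂ, σ ≤ z.re → z.re ≤ 3 → T / 2 ≤ |z.im| → |z.im| ≤ 3 * T → ‖Z j z‖ ≤ K * T := by
  refine ⟨j.factorial * (2 / σ) ^ j * (4 * (1 + 2 / σ)), by positivity, ?_⟩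
  intro T hT z h1 h2 h3 h4
  have h5 := Z_bd hσ hσ1 j h1 (by linarith : 2 ≤ |z.im|)
  refine h5.trans ?_
  have h6 : ‖z‖ ≤ |z.re| + |z.im| := Complex.norm_le_abs_re_add_abs_im z
  have h7 : |z.re| ≤ 3 := by rw [abs_le]; constructor <;> linarith
  have h8 : ‖z‖ + 1 ≤ 4 * T := by linarith
  calc j.factorial * (2 / σ) ^ j * ((‖z‖ + 1) * (1 + 2 / σ)) ≤
      j.factorial * (2 / σ) ^ j * ((4 * T) * (1 + 2 / σ)) := by gcongr
    _ = _ := by ring

lemma ne_one_of_im {z : ℂ} (h : 0 < |z.im|) : z ≠ 1 := by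
  rintro rfl
  simp at h

lemma lower_M (j : ℕ) {σ x x2 lam c : ℝ} (hσ : 0 < σ) (hσ1 : σ ≤ 1) (hx : 1 < x) (hx2 : x < x2)
    (hx3 : x2 ≤ 3) (hc : c < 1) : ∃ T0 : ℝ, ∀ T : ℝ, T0 ≤ T → ∀ M : ℝ,
    (∀ t ∈ Icc T (2 * T), ‖Z j (σ + t * I)‖ ≤ M) →
    c * A j x ≤ max (M * Real.exp (lam * (x - σ) + (x - σ) ^ 2))
      (A j x2 * Real.exp (-lam * (x2 - x) + (x2 - x) ^ 2)) := by
  obtain ⟨L, hL0, hL⟩ := large_values j hx hc
  obtain ⟨K, hK0, hK⟩ := poly_bd j hσ hσ1
  set E0 := |lam| * (x2 - σ) + (x2 - σ) ^ 2 with hE0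
  set tgt := A j x2 * Real.exp (-lam * (x2 - x) + (x2 - x) ^ 2) with htgt
  have htgt0 : 0 < tgt := by
    have := A_pos j (by linarith : 1 < x2)
    positivity
  refine ⟨max (max 4 (8 * L)) (64 * K * Real.exp E0 / tgt), fun T hT M hM => ?_⟩
  have hT4 : 4 ≤ T := (le_max_left _ _).trans ((le_max_left _ _).trans hT)
  have hTL : 8 * L ≤ T := (le_max_right _ _).trans ((le_max_left _ _).trans hT)
  have hTK : 64 * K * Real.exp E0 / tgt ≤ T := (le_max_right _ _).trans hT
  have hT0 : 0 < T := by linarith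
  obtain ⟨τ, h1, h2, h3⟩ := hL (5 * T / 4)
  refine h3.trans ?_
  have him : ∀ z : ℂ, |z.im - τ| ≤ T / 8 → T ≤ z.im ∧ z.im ≤ 2 * T ∧ |z.im| = z.im := by
    intro z hz
    rw [abs_le] at hz
    have : T ≤ z.im := by linarith
    exact ⟨this, by linarith, abs_of_pos (by linarith)⟩
  apply rect_gauss (F := Z j) (x1 := σ) (x2 := x2) (t1 := τ) (H := T / 8) (x0 := x) (lam := lam)
    (A := M) (B := A j x2) (P := K * T) (by linarith) (by linarith) hx2.le (by positivity)
  · intro z _ _ hz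
    obtain ⟨h4, _, h6⟩ := him z hz
    exact Z_diffAt j (ne_one_of_im (by rw [h6]; linarith))
  · intro z hz hz2
    obtain ⟨h4, h5, h6⟩ := him z hz2
    have := hM z.im ⟨h4, h5⟩
    rw [← hz, Complex.re_add_im] at this
    exact this
  · intro z hz _
    have := Z_norm_le_A j (s := z) (by rw [hz]; linarith)
    rwa [hz] at this
  · intro z hz1 hz2 hz3
    obtain ⟨h4, h5, h6⟩ := him z hz3.le
    exact hK T hT4 z hz1 (by linarith) (by rw [h6]; linarith) (by rw [h6]; linarith)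
  · exact le_max_left _ _
  · exact le_max_right _ _
  · refine le_trans ?_ (le_max_right _ _)
    rw [div_le_iff₀ htgt0] at hTK
    have h7 : Real.exp (-((T / 8) ^ 2)) ≤ 64 / T ^ 2 := by
      have := Real.add_one_le_exp ((T / 8) ^ 2)
      rw [Real.exp_neg, inv_le_comm₀ (Real.exp_pos _) (by positivity), inv_div]
      have e : (T / 8) ^ 2 = T ^ 2 / 64 := by ring
      rw [e] at this ⊢
      linarith
    rw [sub_eq_add_neg, Real.exp_add]
    calc K * T * (Real.exp E0 * Real.exp (-(T / 8) ^ 2)) ≤ K * T * (Real.exp E0 * (64 / T ^ 2)) := by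
          gcongr
      _ = (64 * K * Real.exp E0) / T := by field_simp
      _ ≤ tgt := by
          rw [div_le_iff₀ hT0]
          linarith

/-- the maxima are bounded below by a positive constant. -/
lemma lower_const (j : ℕ) {σ : ℝ} (hσ : 0 < σ) (hσ1 : σ ≤ 1) : ∃ m : ℝ, 0 < m ∧ ∃ T0 : ℝ,
    ∀ T : ℝ, T0 ≤ T → ∀ M : ℝ, (∀ t ∈ Icc T (2 * T), ‖Z j (σ + t * I)‖ ≤ M) → m ≤ M := by
  have hA2 := A_pos j (by norm_num : (1 : ℝ) < 2)
  have hA3 := A_pos j (by norm_num : (1 : ℝ) < 3)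
  -- choose lam
  obtain ⟨lam, hlam⟩ : ∃ lam : ℝ, A j 3 * Real.exp (-lam * (3 - 2) + (3 - 2) ^ 2) < 1 / 2 * A j 2 := by
    have h1 : Tendsto (fun lam : ℝ => A j 3 * Real.exp (-lam * (3 - 2) + (3 - 2) ^ 2)) atTop
        (𝓝 (A j 3 * 0)) := by
      refine Tendsto.const_mul _ (Real.tendsto_exp_atBot.comp ?_)
      apply tendsto_atBot_add_const_right
      norm_num
      exact tendsto_neg_atTop_atBot
    rw [mul_zero] at h1
    exact (h1.eventually_lt_const (by positivity)).exists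
  obtain ⟨T0, hT0⟩ := lower_M j (x := 2) (x2 := 3) (lam := lam) (c := 1 / 2) hσ hσ1 (by norm_num)
    (by norm_num) (by norm_num) (by norm_num)
  set E := Real.exp (lam * (2 - σ) + (2 - σ) ^ 2) with hE
  have hE0 : 0 < E := Real.exp_pos _
  refine ⟨1 / 2 * A j 2 / E, by positivity, T0, fun T hT M hM => ?_⟩
  have h1 := hT0 T hT M hM
  rcases le_max_iff.1 h1 with h2 | h2
  · rw [div_le_iff₀ hE0]
    exact h2
  · linarith

lemma sqrt_log_le {T : ℝ} (hT : 16 ≤ T) : Real.sqrt (Real.log T) ≤ T / 4 ∧ 1 ≤ Real.sqrt (Real.log T) := by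
  have hT0 : 0 < T := by linarith
  have h1 : 1 ≤ Real.log T := by
    rw [Real.le_log_iff_exp_le hT0]
    have := Real.exp_one_lt_d9
    linarith
  constructor
  · rw [Real.sqrt_le_left (by positivity)]
    have := Real.log_le_sub_one_of_pos hT0
    nlinarith
  · rw [Real.le_sqrt (by norm_num) (by linarith)]
    simpa using h1

/-- `M_j ≪ √(log T) M_{j+1}`. -/
lemma down_M (j : ℕ) {σ : ℝ} (hσ : 0 < σ) (hσ1 : σ ≤ 1) : ∃ K : ℝ, 0 < K ∧ ∃ T0 : ℝ,
    ∀ T : ℝ, T0 ≤ T → ∀ M : ℝ, (∀ t ∈ Icc T (2 * T), ‖Z (j + 1) (σ + t * I)‖ ≤ M) →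
    ∀ t ∈ Icc T (2 * T), ‖Z j (σ + t * I)‖ ≤ K * Real.sqrt (Real.log T) * M := by
  obtain ⟨m, hm0, T1, hT1⟩ := lower_const (j + 1) hσ hσ1
  obtain ⟨K, hK0, hK⟩ := poly_bd (j + 1) hσ hσ1
  have hA1 := A_pos (j + 1) (by norm_num : (1 : ℝ) < 2)
  have hA0 := A_pos j (by norm_num : (1 : ℝ) < 2)
  set K1 := (1 + A (j + 1) 2 / m + K / m) * Real.exp 4 with hK1
  have hK1pos : 0 < K1 := by positivity
  refine ⟨1 + 2 * K1 + A j 2 / m, by positivity, max T1 16, fun T hT M hM t0 ht0 => ?_⟩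
  have hT1' : T1 ≤ T := (le_max_left _ _).trans hT
  have hT16 : 16 ≤ T := (le_max_right _ _).trans hT
  have hT0 : 0 < T := by linarith
  have hmM := hT1 T hT1' M hM
  have hM0 : 0 < M := by linarith
  obtain ⟨hH1, hH2⟩ := sqrt_log_le hT16
  set H := Real.sqrt (Real.log T) with hH
  have hHpos : 0 < H := by linarith
  have hHsq : H ^ 2 = Real.log T := Real.sq_sqrt (by
    have : 0 ≤ Real.log T := Real.log_nonneg (by linarith)
    exact this)
  obtain ⟨t1, ht1a, ht1b, ht1c⟩ : ∃ t1 : ℝ, |t0 - t1| ≤ H ∧ T ≤ t1 - H ∧ t1 + H ≤ 2 * T := by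
    rcases le_total t0 (3 * T / 2) with h | h
    · refine ⟨t0 + H, ?_, by linarith [ht0.1], by linarith⟩
      rw [sub_add_cancel_left, abs_neg, abs_of_pos hHpos]
    · refine ⟨t0 - H, ?_, by linarith, by linarith [ht0.2]⟩
      rw [sub_sub_cancel, abs_of_pos hHpos]
  -- (a)
  have ha : ‖Z j (σ + t0 * I) - Z j (σ + t1 * I)‖ ≤ M * H := by
    have h1 := Convex.norm_image_sub_le_of_norm_hasDerivWithin_le (𝕜 := ℝ)
      (f := fun t : ℝ => Z j (σ + t * I)) (f' := fun t : ℝ => Z (j + 1) (σ + t * I) * I)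
      (C := M) (s := Icc T (2 * T)) (x := t1) (y := t0) ?_ ?_ (convex_Icc _ _)
      ⟨by linarith, by linarith⟩ ht0
    · refine h1.trans ?_
      rw [Real.norm_eq_abs]
      exact mul_le_mul_of_nonneg_left ht1a hM0.le
    · intro t ht
      have hne : (σ + t * I : ℂ) ≠ 1 := by
        apply ne_one_of_im
        simp only [add_im, ofReal_im, mul_im, ofReal_re, I_im, I_re, mul_one, mul_zero, add_zero,
          zero_add]
        rw [abs_of_pos (by linarith [ht.1])]
        linarith [ht.1]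
      have h2 := (Z_hasDerivAt j hne)
      have h3 : HasDerivAt (fun t : ℝ => (σ + t * I : ℂ)) I t := by
        have := ((ofRealCLM.hasDerivAt (x := t)).mul_const I).const_add (σ : ℂ)
        simpa using this
      exact (h2.comp t h3).hasDerivWithinAt
    · intro t ht
      rw [norm_mul, norm_I, mul_one]
      exact hM t ht
  -- (b)
  have him : ∀ z : ℂ, |z.im - t1| ≤ H → T ≤ z.im ∧ z.im ≤ 2 * T ∧ |z.im| = z.im := by
    intro z hz
    rw [abs_le] at hz
    have : T ≤ z.im := by linarith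
    exact ⟨this, by linarith, abs_of_pos (by linarith)⟩
  have hb : ∀ x : ℝ, σ ≤ x → x ≤ 2 → ‖Z (j + 1) (x + t1 * I)‖ ≤ K1 * M := by
    intro x hx1 hx2
    have hsq : ∀ y : ℝ, 0 ≤ y → y ≤ 2 → y ^ 2 ≤ 4 := by
      intro y h1 h2
      nlinarith
    apply rect_gauss (F := Z (j + 1)) (x1 := σ) (x2 := 2) (t1 := t1) (H := H) (x0 := x) (lam := 0)
      (A := M) (B := A (j + 1) 2) (P := K * T) (by linarith) hx1 hx2 hHpos
    · intro z _ _ hz
      obtain ⟨h4, _, h6⟩ := him z hz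
      exact Z_diffAt _ (ne_one_of_im (by rw [h6]; linarith))
    · intro z hz hz2
      obtain ⟨h4, h5, h6⟩ := him z hz2
      have := hM z.im ⟨h4, h5⟩
      rw [← hz, Complex.re_add_im] at this
      exact this
    · intro z hz _
      have := Z_norm_le_A (j + 1) (s := z) (by rw [hz]; norm_num)
      rwa [hz] at this
    · intro z hz1 hz2 hz3
      obtain ⟨h4, h5, h6⟩ := him z hz3.le
      exact hK T (by linarith) z hz1 (by linarith) (by rw [h6]; linarith) (by rw [h6]; linarith)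
    · rw [zero_mul, zero_add, hK1, mul_comm M, mul_right_comm]
      have h1 : Real.exp ((x - σ) ^ 2) ≤ Real.exp 4 :=
        Real.exp_le_exp.2 (hsq _ (by linarith) (by linarith))
      have h2 : M ≤ (1 + A (j + 1) 2 / m + K / m) * M := by
        have : 0 ≤ A (j + 1) 2 / m + K / m := by positivity
        nlinarith
      calc Real.exp ((x - σ) ^ 2) * M ≤ Real.exp 4 * ((1 + A (j + 1) 2 / m + K / m) * M) := by
            gcongr
        _ = _ := by ring
    · rw [neg_zero, zero_mul, zero_add, hK1]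
      have h1 : Real.exp ((2 - x) ^ 2) ≤ Real.exp 4 :=
        Real.exp_le_exp.2 (hsq _ (by linarith) (by linarith))
      have h2 : A (j + 1) 2 ≤ A (j + 1) 2 / m * M := by
        rw [div_mul_eq_mul_div, le_div_iff₀ hm0]
        gcongr
      have h3 : A (j + 1) 2 / m * M ≤ (1 + A (j + 1) 2 / m + K / m) * M := by
        have : 0 ≤ K / m := by positivity
        nlinarith
      calc A (j + 1) 2 * Real.exp ((2 - x) ^ 2) ≤
          ((1 + A (j + 1) 2 / m + K / m) * M) * Real.exp 4 := by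
            gcongr
            exact h2.trans h3
        _ = _ := by ring
    · rw [abs_zero, zero_mul, zero_add, hK1, hHsq, sub_eq_add_neg, Real.exp_add, Real.exp_neg,
        Real.exp_log hT0]
      have h1 : Real.exp ((2 - σ) ^ 2) ≤ Real.exp 4 :=
        Real.exp_le_exp.2 (hsq _ (by linarith) (by linarith))
      have h2 : K ≤ K / m * M := by
        rw [div_mul_eq_mul_div, le_div_iff₀ hm0]
        gcongr
      have h3 : K / m * M ≤ (1 + A (j + 1) 2 / m + K / m) * M := by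
        have : 0 ≤ A (j + 1) 2 / m := by positivity
        nlinarith
      calc K * T * (Real.exp ((2 - σ) ^ 2) * T⁻¹) = K * Real.exp ((2 - σ) ^ 2) := by
            field_simp
        _ ≤ ((1 + A (j + 1) 2 / m + K / m) * M) * Real.exp 4 := by
            gcongr
            exact h2.trans h3
        _ = _ := by ring
  -- (c)
  have hc : ‖Z j (σ + t1 * I) - Z j ((2 : ℝ) + t1 * I)‖ ≤ K1 * M * 2 := by
    have h1 := Convex.norm_image_sub_le_of_norm_hasDerivWithin_le (𝕜 := ℝ)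
      (f := fun x : ℝ => Z j (x + t1 * I)) (f' := fun x : ℝ => Z (j + 1) (x + t1 * I))
      (C := K1 * M) (s := Icc σ 2) (x := 2) (y := σ) ?_ ?_ (convex_Icc _ _)
      ⟨by linarith, le_rfl⟩ ⟨le_rfl, by linarith⟩
    · refine h1.trans ?_
      rw [Real.norm_eq_abs]
      refine mul_le_mul_of_nonneg_left ?_ (by positivity)
      rw [abs_le]
      constructor <;> linarith
    · intro x hx
      have hne : (x + t1 * I : ℂ) ≠ 1 := by
        apply ne_one_of_im
        simp only [add_im, ofReal_im, mul_im, ofReal_re, I_im, I_re, mul_one, mul_zero, add_zero,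
          zero_add]
        rw [abs_of_pos (by linarith)]
        linarith
      have h2 := (Z_hasDerivAt j hne)
      have h3 : HasDerivAt (fun x : ℝ => (x + t1 * I : ℂ)) 1 x := by
        have := ((ofRealCLM.hasDerivAt (x := x))).add_const (t1 * I : ℂ)
        simpa using this
      have h4 := h2.comp x h3
      rw [mul_one] at h4
      exact h4.hasDerivWithinAt
    · intro x hx
      exact hb x hx.1 hx.2
  -- (d)
  have hd : ‖Z j ((2 : ℝ) + t1 * I)‖ ≤ A j 2 := by
    have := Z_norm_le_A j (s := ((2 : ℝ) + t1 * I : ℂ)) (by simp)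
    simpa using this
  have htot : ‖Z j (σ + t0 * I)‖ ≤ M * H + K1 * M * 2 + A j 2 := by
    have e : Z j (σ + t0 * I) = (Z j (σ + t0 * I) - Z j (σ + t1 * I)) +
        (Z j (σ + t1 * I) - Z j ((2 : ℝ) + t1 * I)) + Z j ((2 : ℝ) + t1 * I) := by ring
    rw [e]
    refine (norm_add_le _ _).trans ?_
    refine add_le_add ((norm_add_le _ _).trans (add_le_add ha hc)) hd
  refine htot.trans ?_
  have h1 : A j 2 ≤ A j 2 / m * M := by
    rw [div_mul_eq_mul_div, le_div_iff₀ hm0]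
    gcongr
  have h2 : A j 2 / m * M ≤ A j 2 / m * M * H := by
    have : 0 ≤ A j 2 / m * M := by positivity
    nlinarith
  have h3 : K1 * M * 2 ≤ K1 * M * 2 * H := by
    have : 0 ≤ K1 * M * 2 := by positivity
    nlinarith
  nlinarith

end Pool.Agent.X110.ZB
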