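import Mathlib
import Pool.Agent.X110.ZD

set_option autoImplicit false

/-!
The edge lemma and the upper bound `M_ℓ ≪ (log T)^{2ℓ} M_0`.
-/

namespace Pool.Agent.X110.ZB

open Complex Metric Set Filter Topology

lemma edge {f : ℂ → ℂ} {s0 : ℂ} {ε : ℝ} (hε : |ε| = 1) {r M0 P δ : ℝ} (hr : 0 < r)
    (hM0 : 0 < M0) (hMP : M0 ≤ P)
    (hf : ∀ s, ‖s - s0‖ ≤ r ^ 2 → DifferentiableAt ℂ f s)
    (hP : ∀ s, ‖s - s0‖ ≤ r ^ 2 → ‖f s‖ ≤ P)
    (hM : ∀ u : ℝ, 0 ≤ u → u ≤ r ^ 2 → ‖f (s0 + ((ε * u : ℝ) : ℂ) * I)‖ ≤ M0)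
    (hδ : 0 < δ) (hδr : δ ≤ r / 2)
    (hΛ : Real.log (P / M0) * ((4 / r ^ 2) * δ ^ 2 + (4 / r) * δ) ≤ 1) :
    ∀ s, ‖s - s0‖ ≤ δ ^ 2 → ‖f s‖ ≤ Real.exp 1 * M0 := by
  intro s hs
  set Λ := Real.log (P / M0) with hΛdef
  have hP0 : 0 < P := by linarith
  have hΛ0 : 0 ≤ Λ := Real.log_nonneg ((one_le_div hM0).2 hMP)
  have hexpΛ : Real.exp Λ = P / M0 := Real.exp_log (by positivity)
  have hnε : ‖(ε : ℂ) * I‖ = 1 := by
    rw [norm_mul, norm_I, mul_one, Complex.norm_real, Real.norm_eq_abs, hε]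
  set h : ℂ → ℝ := fun w => (4 / r ^ 2) * (w.re ^ 2 - w.im ^ 2) + (4 / r) * w.im with hh
  set G : ℂ → ℂ := fun w => f (s0 + (ε : ℂ) * I * w ^ 2) *
    exp ((Λ : ℂ) * (-((4 / r ^ 2 : ℝ) : ℂ) * w ^ 2 + ((4 / r : ℝ) : ℂ) * (I * w))) with hG
  have hGn : ∀ w, ‖G w‖ = ‖f (s0 + (ε : ℂ) * I * w ^ 2)‖ * Real.exp (-(Λ * h w)) := by
    intro w
    simp only [hG, hh]
    rw [norm_mul, Complex.norm_exp]
    congr 2
    have e1 : ((-((4 / r ^ 2 : ℝ) : ℂ) * w ^ 2 + ((4 / r : ℝ) : ℂ) * (I * w))).re =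
        -(4 / r ^ 2) * (w.re ^ 2 - w.im ^ 2) + (4 / r) * (-w.im) := by
      rw [add_re, ← ofReal_neg, re_ofReal_mul, re_ofReal_mul]
      congr 1
      · congr 1
        rw [pow_two, mul_re]
        ring
      · congr 1
        simp
    rw [re_ofReal_mul, e1]
    ring
  set U : Set ℂ := Ioo (-(r / 2)) (r / 2) ×ℂ Ioo 0 (r / 2) with hU
  have hr2 : 0 < r / 2 := by positivity
  have hne1 : -(r / 2) ≠ r / 2 := by linarith
  have hcl : closure U = Icc (-(r / 2)) (r / 2) ×ℂ Icc 0 (r / 2) := by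
    rw [hU, closure_reProdIm, closure_Ioo hne1, closure_Ioo hr2.ne]
  have hbdd : Bornology.IsBounded U := by
    have : U ⊆ Icc (-(r / 2)) (r / 2) ×ℂ Icc 0 (r / 2) := by rw [← hcl]; exact subset_closure
    refine Bornology.IsBounded.subset ?_ this
    exact (isCompact_Icc.reProdIm isCompact_Icc).isBounded
  have hdist : ∀ w ∈ closure U, ‖(s0 + (ε : ℂ) * I * w ^ 2) - s0‖ ≤ r ^ 2 := by
    intro w hw
    rw [hcl, mem_reProdIm] at hw
    obtain ⟨⟨h1, h2⟩, h3, h4⟩ := hw
    rw [add_sub_cancel_left, norm_mul, hnε, one_mul, norm_pow, Complex.sq_norm, normSq_apply]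
    have h5 : w.re * w.re ≤ (r / 2) ^ 2 := by nlinarith
    have h6 : w.im * w.im ≤ (r / 2) ^ 2 := by nlinarith
    nlinarith
  have hd : DiffContOnCl ℂ G U := by
    apply DifferentiableOn.diffContOnCl
    intro w hw
    have h1 := hf _ (hdist w hw)
    have h2 : DifferentiableAt ℂ (fun w : ℂ => s0 + (ε : ℂ) * I * w ^ 2) w := by fun_prop
    have h3 : DifferentiableAt ℂ (fun w : ℂ =>
      exp ((Λ : ℂ) * (-((4 / r ^ 2 : ℝ) : ℂ) * w ^ 2 + ((4 / r : ℝ) : ℂ) * (I * w)))) w := by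
      fun_prop
    exact ((h1.comp w h2).mul h3).differentiableWithinAt
  have hmain : ∀ w ∈ closure U, 1 ≤ h w → ‖G w‖ ≤ M0 := by
    intro w hw hw1
    rw [hGn]
    calc ‖f (s0 + (ε : ℂ) * I * w ^ 2)‖ * Real.exp (-(Λ * h w)) ≤ P * Real.exp (-Λ) := by
          apply mul_le_mul (hP _ (hdist w hw)) _ (Real.exp_pos _).le hP0.le
          apply Real.exp_le_exp.2
          nlinarith
      _ = M0 := by
          rw [Real.exp_neg, hexpΛ]
          field_simp
  have hfr : ∀ w ∈ frontier U, ‖G w‖ ≤ M0 := by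
    intro w hw
    have hwcl : w ∈ closure U := frontier_subset_closure hw
    rw [hU, frontier_reProdIm, closure_Ioo hne1, closure_Ioo hr2.ne,
      frontier_Ioo (by linarith : -(r / 2) < r / 2), frontier_Ioo hr2] at hw
    have hr' : (4 / r ^ 2) * (r / 2) ^ 2 = 1 := by field_simp; norm_num
    have hr'' : (4 / r) * (r / 2) = 2 := by field_simp; norm_num
    have hc1 : 0 < 4 / r ^ 2 := by positivity
    have hc2 : 0 < 4 / r := by positivity
    rcases hw with hw | hw
    · rw [mem_reProdIm] at hw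
      obtain ⟨⟨h1, h2⟩, h3⟩ := hw
      rcases h3 with h3 | h3
      · -- real side
        rw [hGn]
        have e1 : s0 + (ε : ℂ) * I * w ^ 2 = s0 + ((ε * w.re ^ 2 : ℝ) : ℂ) * I := by
          have : w = (w.re : ℂ) := by
            apply Complex.ext
            · simp
            · simpa using h3
          rw [this]
          push_cast
          simp only [ofReal_re]
          ring
        have h4 : w.re ^ 2 ≤ r ^ 2 := by nlinarith
        have h5 := hM (w.re ^ 2) (sq_nonneg _) h4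
        rw [e1]
        have h6 : 0 ≤ h w := by
          simp only [hh, h3]
          have : 0 ≤ w.re ^ 2 := sq_nonneg _
          nlinarith
        calc _ ≤ M0 * 1 := by
              apply mul_le_mul h5 _ (Real.exp_pos _).le hM0.le
              rw [Real.exp_le_one_iff]
              nlinarith
          _ = M0 := mul_one _
      · rw [mem_singleton_iff] at h3
        apply hmain w hwcl
        simp only [hh, h3]
        rw [hr'', mul_sub, hr']
        have : 0 ≤ 4 / r ^ 2 * w.re ^ 2 := by positivity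
        linarith
    · rw [mem_reProdIm] at hw
      obtain ⟨h3, h1, h2⟩ := hw
      apply hmain w hwcl
      have h4 : w.re ^ 2 = (r / 2) ^ 2 := by
        rcases h3 with h3 | h3
        · rw [h3]; ring
        · rw [mem_singleton_iff] at h3
          rw [h3]
      simp only [hh]
      rw [h4, mul_sub, hr']
      have h5 : 4 / r ^ 2 * w.im ^ 2 ≤ 4 / r * w.im := by
        have h6 : 4 / r ^ 2 * w.im ^ 2 ≤ 4 / r ^ 2 * (w.im * (r / 2)) := by
          apply mul_le_mul_of_nonneg_left _ hc1.le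
          nlinarith
        have h7 : 4 / r ^ 2 * (w.im * (r / 2)) = (4 / r * w.im) / 2 := by
          field_simp
        have h8 : 0 ≤ 4 / r * w.im := by positivity
        linarith
      linarith
  -- the point
  set q : ℂ := (s - s0) / ((ε : ℂ) * I) with hq
  have hεI : (ε : ℂ) * I ≠ 0 := by
    intro h0
    rw [h0, norm_zero] at hnε
    exact zero_ne_one hnε
  obtain ⟨w, hw2, hwim⟩ : ∃ w : ℂ, w ^ 2 = q ∧ 0 ≤ w.im := by
    set w0 : ℂ := q ^ ((2 : ℕ) : ℂ)⁻¹ with hw0
    have hw02 : w0 ^ 2 = q := Complex.cpow_nat_inv_pow q (by norm_num)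
    rcases le_total 0 w0.im with h1 | h1
    · exact ⟨w0, hw02, h1⟩
    · refine ⟨-w0, ?_, ?_⟩
      · rw [neg_sq, hw02]
      · simpa using h1
  have hwn : ‖w‖ ≤ δ := by
    have h1 : ‖w‖ ^ 2 = ‖s - s0‖ := by
      rw [← norm_pow, hw2, hq, norm_div, hnε, div_one]
    rw [← h1] at hs
    exact le_of_sq_le_sq hs hδ.le
  have hwre := (abs_re_le_norm w).trans hwn
  have hwim' := (abs_im_le_norm w).trans hwn
  rw [abs_le] at hwre hwim'
  have hwcl : w ∈ closure U := by
    rw [hcl, mem_reProdIm]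
    exact ⟨⟨by linarith, by linarith⟩, hwim, by linarith⟩
  have hfin := norm_le_of_forall_mem_frontier_norm_le hbdd hd hfr hwcl
  rw [hGn, hw2, hq, mul_div_cancel₀ _ hεI, add_sub_cancel] at hfin
  have hhw : h w ≤ (4 / r ^ 2) * δ ^ 2 + (4 / r) * δ := by
    simp only [hh]
    have h1 : w.re ^ 2 - w.im ^ 2 ≤ δ ^ 2 := by nlinarith [sq_nonneg w.im]
    have h2 : w.im ≤ δ := hwim'.2
    have hc1 : 0 < 4 / r ^ 2 := by positivity
    have hc2 : 0 < 4 / r := by positivity
    nlinarith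
  have h5 : Λ * h w ≤ 1 := (mul_le_mul_of_nonneg_left hhw hΛ0).trans hΛ
  calc ‖f s‖ = ‖f s‖ * Real.exp (-(Λ * h w)) * Real.exp (Λ * h w) := by
        rw [mul_assoc, ← Real.exp_add]
        simp
    _ ≤ M0 * Real.exp 1 := by
        apply mul_le_mul hfin (Real.exp_le_exp.2 h5) (Real.exp_pos _).le hM0.le
    _ = _ := mul_comm _ _

/-- `M_ℓ ≪ (log T)^{2ℓ} M_0`. -/
lemma up_M (l : ℕ) {σ : ℝ} (hσ : 0 < σ) (hσ1 : σ ≤ 1) : ∃ K : ℝ, 0 < K ∧ ∃ T0 : ℝ,
    ∀ T : ℝ, T0 ≤ T → ∀ M : ℝ, (∀ t ∈ Icc T (2 * T), ‖Z 0 (σ + t * I)‖ ≤ M) →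
    ∀ t ∈ Icc T (2 * T), ‖Z l (σ + t * I)‖ ≤ K * Real.log T ^ (2 * l) * M := by
  obtain ⟨m, hm0, T1, hT1⟩ := lower_const 0 hσ hσ1
  obtain ⟨K, hK0, hK⟩ := poly_bd 0 (σ := σ / 2) (by positivity) (by linarith)
  set r := Real.sqrt (σ / 2) with hr
  have hr0 : 0 < r := Real.sqrt_pos.2 (by positivity)
  have hr2 : r ^ 2 = σ / 2 := Real.sq_sqrt (by positivity)
  have hr1 : r ≤ 1 := by nlinarith
  set K2 := |Real.log (K / m)| + 1 with hK2
  have hK2pos : 1 ≤ K2 := by
    have := abs_nonneg (Real.log (K / m))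
    linarith
  set c := r ^ 2 / (8 * K2) with hc
  have hc0 : 0 < c := by positivity
  refine ⟨l.factorial * Real.exp 1 / c ^ (2 * l), by positivity, max T1 16,
    fun T hT M hM t0 ht0 => ?_⟩
  have hT1' : T1 ≤ T := (le_max_left _ _).trans hT
  have hT16 : 16 ≤ T := (le_max_right _ _).trans hT
  have hT0 : 0 < T := by linarith
  have hmM := hT1 T hT1' M hM
  have hM0 : 0 < M := by linarith
  have hlog1 : 1 ≤ Real.log T := by
    rw [Real.le_log_iff_exp_le hT0]
    have := Real.exp_one_lt_d9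
    linarith
  set P := max M (K * T) with hP
  have hΛ : Real.log (P / M) ≤ K2 * Real.log T := by
    rcases le_total M (K * T) with h1 | h1
    · rw [hP, max_eq_right h1]
      have h2 : K * T / M ≤ K / m * T := by
        rw [div_mul_eq_mul_div]
        gcongr
      calc Real.log (K * T / M) ≤ Real.log (K / m * T) := Real.log_le_log (by positivity) h2
        _ = Real.log (K / m) + Real.log T := Real.log_mul (by positivity) (by positivity)
        _ ≤ |Real.log (K / m)| * Real.log T + Real.log T := by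
            have h3 := le_abs_self (Real.log (K / m))
            have h4 := abs_nonneg (Real.log (K / m))
            nlinarith
        _ = _ := by rw [hK2]; ring
    · rw [hP, max_eq_left h1, div_self hM0.ne', Real.log_one]
      positivity
  set δ := c / Real.log T with hδ
  have hδ0 : 0 < δ := by positivity
  have hδc : δ ≤ c := div_le_self hc0.le hlog1
  have hcr : c ≤ r / 8 := by
    rw [hc, div_le_div_iff₀ (by positivity) (by norm_num)]
    nlinarith
  have hε : ∃ ε : ℝ, |ε| = 1 ∧ ∀ u : ℝ, 0 ≤ u → u ≤ 1 → T ≤ t0 + ε * u ∧ t0 + ε * u ≤ 2 * T := by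
    rcases le_total t0 (3 * T / 2) with h | h
    · refine ⟨1, by norm_num, fun u h1 h2 => ⟨by linarith [ht0.1], by linarith⟩⟩
    · refine ⟨-1, by norm_num, fun u h1 h2 => ⟨by linarith, by linarith [ht0.2]⟩⟩
  obtain ⟨ε, hε1, hε2⟩ := hε
  set s0 : ℂ := σ + t0 * I with hs0
  have hs0re : s0.re = σ := by simp [hs0]
  have hs0im : s0.im = t0 := by simp [hs0]
  have hclose : ∀ s : ℂ, ‖s - s0‖ ≤ r ^ 2 → σ / 2 ≤ s.re ∧ s.re ≤ 3 ∧ T / 2 ≤ |s.im| ∧
      |s.im| ≤ 3 * T := by
    intro s hs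
    have h1 := (abs_re_le_norm (s - s0)).trans hs
    have h2 := (abs_im_le_norm (s - s0)).trans hs
    rw [sub_re, hs0re, abs_le, hr2] at h1
    rw [sub_im, hs0im, abs_le, hr2] at h2
    have h3 : T / 2 ≤ s.im := by linarith [ht0.1]
    rw [abs_of_pos (by linarith)]
    refine ⟨by linarith, by linarith, h3, by linarith [ht0.2]⟩
  have hZ0 : Z 0 = riemannZeta := by funext s; simp [Z]
  have hdiff : ∀ s : ℂ, ‖s - s0‖ ≤ r ^ 2 → DifferentiableAt ℂ (Z 0) s := by
    intro s hs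
    obtain ⟨_, _, h3, _⟩ := hclose s hs
    exact Z_diffAt 0 (ne_one_of_im (by linarith))
  have hedge := edge (f := Z 0) (s0 := s0) hε1 hr0 hM0 (le_max_left M (K * T)) (δ := δ) hdiff
    (by
      intro s hs
      obtain ⟨h1, h2, h3, h4⟩ := hclose s hs
      exact (hK T (by linarith) s h1 h2 h3 h4).trans (le_max_right _ _))
    (by
      intro u hu1 hu2
      have h1 := hε2 u hu1 (by nlinarith)
      have h2 := hM (t0 + ε * u) h1
      have e : s0 + ((ε * u : ℝ) : ℂ) * I = σ + ((t0 + ε * u : ℝ) : ℂ) * I := by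
        rw [hs0]; push_cast; ring
      rw [e]
      exact h2)
    hδ0 (by linarith)
    (by
      have hδ1 : δ ≤ 1 := by linarith
      have h1 : (4 / r ^ 2) * δ ^ 2 + (4 / r) * δ ≤ 8 / r ^ 2 * δ := by
        have h2 : (4 / r ^ 2) * δ ^ 2 ≤ (4 / r ^ 2) * δ := by
          apply mul_le_mul_of_nonneg_left _ (by positivity)
          nlinarith
        have h3 : (4 / r) * δ ≤ (4 / r ^ 2) * δ := by
          apply mul_le_mul_of_nonneg_right _ hδ0.le
          apply div_le_div_of_nonneg_left (by norm_num) (by positivity)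
          nlinarith
        have e : 8 / r ^ 2 * δ = 4 / r ^ 2 * δ + 4 / r ^ 2 * δ := by ring
        rw [e]
        linarith
      have h4 : 0 ≤ 4 / r ^ 2 * δ ^ 2 + 4 / r * δ := by positivity
      calc Real.log (max M (K * T) / M) * (4 / r ^ 2 * δ ^ 2 + 4 / r * δ) ≤
          (K2 * Real.log T) * (8 / r ^ 2 * δ) := by
            apply mul_le_mul hΛ h1 h4 (by positivity)
        _ = 1 := by
            rw [hδ, hc]
            field_simp)
  have hR : 0 < δ ^ 2 := by positivity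
  have hRr : δ ^ 2 ≤ r ^ 2 := by nlinarith
  have hcau := norm_iteratedDeriv_le_of_forall_mem_sphere_norm_le (c := s0) (R := δ ^ 2)
    (C := Real.exp 1 * M) (f := riemannZeta) l hR
    (by
      apply DifferentiableOn.diffContOnCl
      intro z hz
      have hz' := closure_ball_subset_closedBall hz
      rw [mem_closedBall, dist_eq_norm] at hz'
      rw [← hZ0]
      exact (hdiff z (hz'.trans hRr)).differentiableWithinAt)
    (by
      intro z hz
      rw [mem_sphere, dist_eq_norm] at hz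
      rw [← hZ0]
      exact hedge z hz.le)
  unfold Z
  refine hcau.trans (le_of_eq ?_)
  rw [hδ, ← pow_mul, div_pow]
  field_simp

end Pool.Agent.X110.ZB
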