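import Pool.Agent.X110.QG2
import Pool.Agent.H692R2.RZ2_W0
import Pool.Agent.H423R2.RGL.TR1G
import Pool.Agent.H423R2.RGL.CGF
import Pool.Agent.H423R2.RGL.FGF
import Pool.Agent.H423R2.RGL.C8G

set_option autoImplicit false

/-! The mollified second moment from the library. -/

namespace Pool.Agent.X110.QF

open Finset Filter Topology
open Pool.Agent.H306R2.RG
open Pool.Agent.H306R2.RZ (TF RH KP ST Adm2 js Ph)

noncomputable section

/-- the weight -/
def Fw (x : ℝ) : ℝ := Real.smoothTransition (2 * x - 1) * Real.smoothTransition (3 - x)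

lemma Fw_nonneg (x : ℝ) : 0 ≤ Fw x := mul_nonneg (Real.smoothTransition.nonneg _) (Real.smoothTransition.nonneg _)

lemma Fw_one {x : ℝ} (h1 : 1 ≤ x) (h2 : x ≤ 2) : Fw x = 1 := by
  unfold Fw
  rw [Real.smoothTransition.one_of_one_le (by linarith), Real.smoothTransition.one_of_one_le (by linarith), one_mul]

lemma Fw_zero {x : ℝ} (h : x ≤ 1 / 2 ∨ 3 ≤ x) : Fw x = 0 := by
  unfold Fw
  rcases h with h | h
  · rw [Real.smoothTransition.zero_of_nonpos (by linarith), zero_mul]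
  · rw [Real.smoothTransition.zero_of_nonpos (x := 3 - x) (by linarith), mul_zero]

lemma Fw_supp : tsupport Fw ⊆ Set.Icc (1 / 2) 3 := by
  refine closure_minimal (fun x hx => ?_) isClosed_Icc
  rw [Function.mem_support] at hx
  by_contra h
  rw [Set.mem_Icc, not_and_or, not_le, not_le] at h
  exact hx (Fw_zero (h.imp le_of_lt le_of_lt))

lemma Fw_TF : TF Fw where
  smooth := (Real.smoothTransition.contDiff.comp ((contDiff_const.mul contDiff_id).sub contDiff_const)).mul
    (Real.smoothTransition.contDiff.comp (contDiff_const.sub contDiff_id))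
  cpt := HasCompactSupport.of_support_subset_isCompact isCompact_Icc (subset_tsupport _ |>.trans Fw_supp)
  pos := fun x hx => by
    have := Fw_supp hx
    rw [Set.mem_Icc] at this
    exact Set.mem_Ioi.mpr (by linarith [this.1])

lemma jo_chi (ε : ℤ) (d n : ℕ) : jo (F8 ε) d n = chi ε d n := rfl

/-- the mollifier of the library -/
lemma moll_eq {ε : ℤ} {δ L x : ℝ} {r κ : ℝ → ℝ} {X d : ℕ} (hr : ST (1 / 100 / 4) (1 / 100) r) (hκ : KP (1 / 64) (1 / 10000) κ)
    (hL : L = Real.log X) (hL0 : 0 < L) (hx : x = δ * L) :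
    Mdg (F8 ε) 2 L (fun t => Real.exp (-(x * t)) * r t * κ t) d = mv ε δ r X d := by
  have hX0 : (0:ℝ) < X := by
    by_contra h
    have : (X:ℝ) = 0 := le_antisymm (not_lt.mp h) (Nat.cast_nonneg _)
    rw [this, Real.log_zero] at hL
    linarith
  unfold Mdg mv PQ
  rw [tsum_eq_sum (s := Icc 1 (ML X))]
  · refine sum_congr rfl fun n hn => ?_
    rw [mem_Icc] at hn
    have hn0 : (0:ℝ) < n := by exact_mod_cast hn.1
    by_cases h : Odd n
    · rw [if_pos (Nat.coprime_two_right.mpr h)]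
      beta_reduce
      rw [mo_apply, if_pos hn.2, jo_chi, ← hL]
      have hlog : 0 ≤ Real.log n := Real.log_nonneg (by exact_mod_cast hn.1)
      have hnX : (n:ℝ) ≤ (X:ℝ) ^ (1 / 100 : ℝ) := by
        have h1 : (n:ℝ) ≤ (ML X : ℝ) := by exact_mod_cast hn.2
        exact h1.trans (Nat.floor_le (by positivity))
      have hlogn : Real.log n / L ≤ 1 / 100 := by
        rw [div_le_iff₀ hL0]
        have := Real.log_le_log hn0 hnX
        rwa [Real.log_rpow hX0, ← hL] at this
      have hk1 : κ (Real.log n / L) = 1 := by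
        refine hκ.one _ ?_ ?_
        · have : 0 ≤ Real.log n / L := div_nonneg hlog hL0.le
          linarith
        · linarith
      rw [hk1, mul_one]
      have e1 : Real.exp (-(x * (Real.log n / L))) = (n:ℝ) ^ (-δ) := by
        rw [Real.rpow_def_of_pos hn0, hx]
        congr 1
        field_simp
      have e2 : (n:ℝ) ^ (-(1 / 2 + δ)) = (n:ℝ) ^ (-δ) / Real.sqrt n := by
        rw [neg_add, Real.rpow_add hn0, Real.sqrt_eq_rpow, Real.rpow_neg hn0.le (1 / 2)]
        ring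
      rw [e1, e2]
      ring
    · rw [if_neg (fun h2 => h (Nat.coprime_two_right.mp h2))]
      unfold chi
      rw [if_neg h, mul_zero]
  · intro n hn
    rw [mem_Icc] at hn
    rcases Nat.eq_zero_or_pos n with h0 | h0
    · subst h0; simp
    · have h1 : ML X < n := by omega
      have hn0 : (0:ℝ) < n := by exact_mod_cast h0
      have h2 : (X:ℝ) ^ (1 / 100 : ℝ) < n := by
        unfold ML at h1
        exact Nat.lt_of_floor_lt h1
      have h3 : 1 / 100 ≤ Real.log n / L := by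
        rw [le_div_iff₀ hL0]
        have := Real.log_le_log (by positivity) h2.le
        rwa [Real.log_rpow hX0, ← hL] at this
      beta_reduce
      rw [hr.zero _ h3]
      simp

theorem hyp8 {ε : ℤ} (hε : ε = 1 ∨ ε = -1) : Hyp ε (LLg (F8 ε)) := by
  have hfam : Fam (F8 ε) := ⟨ε, hε, Or.inl rfl⟩
  have hFG : FG (F8 ε) := Pool.Agent.H306R2.RG.LnkA.FGF _ hfam
  have hCG : CG (F8 ε) := Pool.Agent.H306R2.RG.LnkC.CGF _ hfam
  obtain ⟨w1, w2, w3⟩ := Pool.Agent.H692R2.RZ2W0.W0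
  obtain ⟨ρ, hρ⟩ := w1 (1 / 64) (by norm_num)
  obtain ⟨κ, hκ⟩ := w2 (1 / 64) (1 / 10000) (by norm_num) (by norm_num)
  obtain ⟨r, hr⟩ := w3 (1 / 100 / 4) (1 / 100) (by norm_num)
  have hA : Adm2 (1 / 2 + 3 * (1 / 64)) (1 / 100) :=
    ⟨by norm_num, by norm_num, by norm_num, by norm_num, by norm_num, by norm_num⟩
  obtain ⟨C, c0, L0, hC, hc0, hT⟩ := Pool.Agent.H306R2.RG.LnkB.TR1G (F8 ε) hFG Fw Fw_TF Fw_nonneg (1 / 64) (1 / 10000) (1 / 100)
    (by norm_num) (by norm_num) (by norm_num) (by norm_num) hA ρ r κ hρ hr hκ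
  obtain ⟨c1, c2, b, L0', hc1, hb, hK⟩ := Pool.Agent.H306R2.RG.LnkB.C8G (F8 ε) hFG Fw Fw_TF
  refine ⟨r, C / c1 ^ 2, c0, max (max L0 L0') 1, by positivity, hc0, hr.nonneg, hr.le_one,
    fun u hu => hr.one u (by linarith), fun X hX δ hδ1 hδ2 => ?_⟩
  set L := Real.log X with hL
  have hL1 : 1 ≤ L := (le_max_right _ _).trans hX
  have hL0 : 0 < L := by linarith
  have hX0 : (0:ℝ) < X := by
    by_contra h
    have : (X:ℝ) = 0 := le_antisymm (not_lt.mp h) (Nat.cast_nonneg _)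
    rw [this, Real.log_zero] at hL
    linarith
  have hexp : Real.exp L = X := Real.exp_log hX0
  set x := δ * L with hx
  have hx2 : x ≤ L / 2 := by rw [hx]; nlinarith
  obtain ⟨hE, -⟩ := hT L (((le_max_left _ _).trans (le_max_left _ _)).trans hX) x hδ1 hx2
  rw [hexp] at hE
  unfold EAg at hE
  rw [div_le_iff₀ hX0] at hE
  have hterm : ∀ d ∈ fam X, (1 - LLg (F8 ε) d (1 / 2 + δ) * mv ε δ r X d) ^ 2 ≤
      (1 / c1 ^ 2) * Gug (F8 ε) L ρ r κ d x ^ 2 := by
    intro d hd
    unfold fam at hd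
    rw [mem_filter, mem_Ioc] at hd
    obtain ⟨⟨hd1, hd2⟩, hodd, hsf⟩ := hd
    have hA : (F8 ε).A d := hodd
    have haf := hCG.afe d hA hsf (1 / 64) (by norm_num) ρ hρ L hL0 x (by linarith)
    have hxL : x / L = δ := by rw [hx]; field_simp
    rw [hxL] at haf
    have hF1 : Fw ((d : ℝ) / Real.exp L) = 1 := by
      rw [hexp]
      refine Fw_one ?_ ?_
      · rw [le_div_iff₀ hX0, one_mul]; exact_mod_cast hd1.le
      · rw [div_le_iff₀ hX0]; exact_mod_cast hd2
    have hKE := ((hK L (((le_max_right _ _).trans (le_max_left _ _)).trans hX) d (by rw [hF1]; norm_num)).2 x (by linarith) hx2).1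
    have hKK : KEg (F8 ε) L d x = Kdg (F8 ε) L d x := by
      unfold KEg
      have : (F8 ε).η = 0 := rfl
      rw [this, zero_mul, sub_zero, div_one]
    have hG : Gug (F8 ε) L ρ r κ d x = Kdg (F8 ε) L d x * (1 - LLg (F8 ε) d (1 / 2 + δ) * mv ε δ r X d) := by
      unfold Gug
      rw [haf, hKK, moll_eq hr hκ hL hL0 hx]
      ring
    rw [hG, mul_pow, ← mul_assoc]
    rw [hKK] at hKE
    have h1 : 1 ≤ 1 / c1 ^ 2 * Kdg (F8 ε) L d x ^ 2 := by
      rw [one_div_mul_eq_div, le_div_iff₀ (by positivity), one_mul]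
      exact pow_le_pow_left₀ hc1.le hKE 2
    exact le_mul_of_one_le_left (sq_nonneg _) h1
  refine (sum_le_sum hterm).trans ?_
  rw [← mul_sum]
  have hsum : ∑ d ∈ fam X, Gug (F8 ε) L ρ r κ d x ^ 2 ≤ C * Real.exp (-(c0 * x)) * X := by
    refine le_trans ?_ hE
    classical
    set f : ℕ → ℝ := fun d => if (F8 ε).A d then Fw ((d : ℝ) / X) * Gug (F8 ε) L ρ r κ d x ^ 2 else 0 with hf
    have hf0 : ∀ d, 0 ≤ f d := by
      intro d
      rw [hf]
      show 0 ≤ (if (F8 ε).A d then Fw ((d : ℝ) / X) * Gug (F8 ε) L ρ r κ d x ^ 2 else 0)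
      split_ifs
      · exact mul_nonneg (Fw_nonneg _) (sq_nonneg _)
      · exact le_rfl
    have hfs : Summable f := by
      refine summable_of_ne_finset_zero (s := range (3 * X + 1)) fun d hd => ?_
      rw [mem_range, not_lt] at hd
      have h3 : (3:ℝ) ≤ (d:ℝ) / X := by
        rw [le_div_iff₀ hX0]
        exact_mod_cast (by omega : 3 * X ≤ d)
      rw [hf]
      show (if (F8 ε).A d then Fw ((d : ℝ) / X) * Gug (F8 ε) L ρ r κ d x ^ 2 else 0) = 0
      rw [Fw_zero (Or.inr h3), zero_mul, ite_self]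
    have h1 : ∑ d ∈ fam X, Gug (F8 ε) L ρ r κ d x ^ 2 = ∑ d ∈ fam X, f d := by
      refine sum_congr rfl fun d hd => ?_
      unfold fam at hd
      rw [mem_filter, mem_Ioc] at hd
      obtain ⟨⟨hd1, hd2⟩, hodd, hsf⟩ := hd
      have hA : (F8 ε).A d := hodd
      rw [hf]
      show _ = (if (F8 ε).A d then Fw ((d : ℝ) / X) * Gug (F8 ε) L ρ r κ d x ^ 2 else 0)
      rw [if_pos hA, Fw_one, one_mul]
      · rw [le_div_iff₀ hX0, one_mul]; exact_mod_cast hd1.le
      · rw [div_le_iff₀ hX0]; exact_mod_cast hd2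
    rw [h1]
    refine (hfs.sum_le_tsum _ fun d _ => hf0 d).trans (le_of_eq ?_)
    refine tsum_congr fun d => ?_
    rw [hf]
  calc 1 / c1 ^ 2 * ∑ d ∈ fam X, Gug (F8 ε) L ρ r κ d x ^ 2 ≤ 1 / c1 ^ 2 * (C * Real.exp (-(c0 * x)) * X) := by gcongr
    _ = _ := by ring

end

end Pool.Agent.X110.QF
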