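import Mathlib
import Pool.Agent.X110.Pol1

set_option autoImplicit false

namespace Pool.Agent.X110.Pol

open Finset MeasureTheory Filter Topology
open scoped ENNReal

/-- the polarization constant -/
noncomputable def pol (K : Set ℝ) (s : ℝ) (N : ℕ) : ℝ≥0∞ :=
  ⨆ (x : Fin N → ℝ) (_ : ∀ i, x i ∈ K), ⨅ y ∈ K, ∑ j, (ENNReal.ofReal |y - x j|) ^ (-s)

/-- `φ K t = |K ∩ (-∞, t]|` -/
noncomputable def phi (K : Set ℝ) (t : ℝ) : ℝ := volume.real (K ∩ Set.Iic t)

section
variable {K : Set ℝ} (hK : IsCompact K)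
include hK

lemma fin_inter (S : Set ℝ) : volume (K ∩ S) ≠ ⊤ :=
  ne_top_of_le_ne_top hK.measure_lt_top.ne (measure_mono Set.inter_subset_left)

lemma phi_sub {x y : ℝ} (hxy : x ≤ y) :
    phi K y - phi K x = volume.real (K ∩ Set.Ioc x y) := by
  have h1 : K ∩ Set.Iic y = (K ∩ Set.Iic x) ∪ (K ∩ Set.Ioc x y) := by
    rw [← Set.inter_union_distrib_left, Set.Iic_union_Ioc_eq_Iic hxy]
  have hd : Disjoint (K ∩ Set.Iic x) (K ∩ Set.Ioc x y) := by
    rw [Set.disjoint_left]
    rintro t ⟨_, h2⟩ ⟨_, h3⟩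
    exact absurd h3.1 (not_lt.2 h2)
  unfold phi
  rw [h1, measureReal_union hd (hK.measurableSet.inter measurableSet_Ioc) (fin_inter hK _)
    (fin_inter hK _)]
  ring

lemma phi_mono : Monotone (phi K) := fun x y hxy => by
  have := phi_sub hK hxy
  have h2 : 0 ≤ volume.real (K ∩ Set.Ioc x y) := measureReal_nonneg
  linarith

lemma phi_sub_le {x y : ℝ} (hxy : x ≤ y) : phi K y - phi K x ≤ y - x := by
  rw [phi_sub hK hxy]
  calc volume.real (K ∩ Set.Ioc x y) ≤ volume.real (Set.Ioc x y) :=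
        measureReal_mono Set.inter_subset_right (by rw [Real.volume_Ioc]; exact ENNReal.ofReal_ne_top)
    _ = y - x := by rw [Real.volume_real_Ioc_of_le hxy]

lemma phi_abs (x y : ℝ) : |phi K x - phi K y| ≤ |x - y| := by
  rcases le_total x y with h | h
  · have h1 := phi_sub_le hK h
    have h2 := phi_mono hK h
    rw [abs_sub_comm, abs_of_nonneg (by linarith), abs_sub_comm, abs_of_nonneg (by linarith)]
    exact h1
  · have h1 := phi_sub_le hK h
    have h2 := phi_mono hK h
    rw [abs_of_nonneg (by linarith), abs_of_nonneg (by linarith)]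
    exact h1

lemma phi_cont : Continuous (phi K) := by
  have : LipschitzWith 1 (phi K) := by
    refine LipschitzWith.of_dist_le_mul fun x y => ?_
    rw [Real.dist_eq, Real.dist_eq, NNReal.coe_one, one_mul]
    exact phi_abs hK x y
  exact this.continuous

lemma phi_le (t : ℝ) : phi K t ≤ volume.real K :=
  measureReal_mono Set.inter_subset_left hK.measure_lt_top.ne

lemma phi_nonneg (t : ℝ) : 0 ≤ phi K t := measureReal_nonneg

/-- surjectivity of `φ` from `K` onto `[0, |K|)` -/
lemma phi_surj {u : ℝ} (hu : u ∈ Set.Ico 0 (volume.real K)) : ∃ y ∈ K, phi K y = u := by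
  obtain ⟨R, hR⟩ := hK.isBounded.subset_closedBall 0
  have hR2 : ∀ t ∈ K, -R ≤ t ∧ t ≤ R := by
    intro t ht
    have := hR ht
    rw [Metric.mem_closedBall, Real.dist_eq, sub_zero, abs_le] at this
    exact this
  have hlo : phi K (-|R| - 1) = 0 := by
    unfold phi
    have : K ∩ Set.Iic (-|R| - 1) = ∅ := by
      rw [Set.eq_empty_iff_forall_notMem]
      rintro t ⟨h1, h2⟩
      have := (hR2 t h1).1
      have h3 := le_abs_self R
      rw [Set.mem_Iic] at h2
      linarith
    rw [this, measureReal_empty]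
  have hhi : ∀ t, |R| ≤ t → phi K t = volume.real K := by
    intro t ht
    unfold phi
    have : K ∩ Set.Iic t = K := by
      rw [Set.inter_eq_left]
      intro a ha
      have := (hR2 a ha).2
      have h3 := le_abs_self R
      rw [Set.mem_Iic]
      linarith
    rw [this]
  set S : Set ℝ := {t | phi K t = u} with hS
  have hSc : IsClosed S := isClosed_eq (phi_cont hK) continuous_const
  have hSn : S.Nonempty := by
    have h1 := intermediate_value_Icc (a := -|R| - 1) (b := |R|) (by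
      have := abs_nonneg R; linarith) (phi_cont hK).continuousOn
    have h2 : u ∈ Set.Icc (phi K (-|R| - 1)) (phi K |R|) := by
      rw [hlo, hhi _ le_rfl]
      exact ⟨hu.1, hu.2.le⟩
    obtain ⟨t, _, ht⟩ := h1 h2
    exact ⟨t, ht⟩
  have hSb : BddAbove S := by
    refine ⟨|R|, fun t ht => ?_⟩
    by_contra hcon
    push Not at hcon
    have := hhi t hcon.le
    rw [hS, Set.mem_setOf_eq] at ht
    linarith [hu.2]
  have hmem := hSc.csSup_mem hSn hSb
  refine ⟨sSup S, ?_, hmem⟩
  by_contra hy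
  obtain ⟨ε, hε, hball⟩ := Metric.isOpen_iff.1 hK.isClosed.isOpen_compl _ hy
  have h1 : phi K (sSup S + ε / 2) = u := by
    have h2 := phi_sub hK (x := sSup S) (y := sSup S + ε / 2) (by linarith)
    have h3 : K ∩ Set.Ioc (sSup S) (sSup S + ε / 2) = ∅ := by
      rw [Set.eq_empty_iff_forall_notMem]
      rintro t ⟨h4, h5⟩
      refine hball ?_ h4
      rw [Metric.mem_ball, Real.dist_eq, abs_of_pos (by linarith [h5.1])]
      linarith [h5.2]
    rw [h3, measureReal_empty] at h2
    have : phi K (sSup S) = u := hmem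
    linarith
  have h2 := le_csSup hSb (show sSup S + ε / 2 ∈ S from h1)
  linarith

end

lemma rpow_neg_anti {a b : ℝ≥0∞} (h : a ≤ b) {s : ℝ} (hs : 0 ≤ s) : b ^ (-s) ≤ a ^ (-s) := by
  rw [ENNReal.rpow_neg, ENNReal.rpow_neg, ENNReal.inv_le_inv]
  exact ENNReal.rpow_le_rpow h hs

/-- **Upper bound** valid for every `N ≥ 1`. -/
theorem pol_le {K : Set ℝ} (hK : IsCompact K) (hL : 0 < volume.real K) {s : ℝ} (hs : 0 < s)
    {N : ℕ} (hN : 0 < N) :
    pol K s N ≤ 2 * ∑' n : ℕ, ENNReal.ofReal ((((n : ℝ) + 1 / 2) * (volume.real K / N)) ^ (-s)) := by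
  unfold pol
  refine iSup₂_le fun x hx => ?_
  obtain ⟨u, hu, h⟩ := exists_point hN hL (fun i => phi K (x i))
    (fun i => ⟨phi_nonneg hK _, phi_le hK _⟩) hs
  obtain ⟨y, hy, hyu⟩ := phi_surj hK hu
  refine (iInf₂_le y hy).trans (le_trans ?_ h)
  refine sum_le_sum fun j _ => ?_
  refine rpow_neg_anti ?_ hs.le
  refine ENNReal.ofReal_le_ofReal ?_
  rw [← hyu]
  exact phi_abs hK _ _

end Pool.Agent.X110.Pol
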