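import Mathlib
import Pool.Agent.X110.Pol2

set_option autoImplicit false

namespace Pool.Agent.X110.Pol

open Finset MeasureTheory Filter Topology
open scoped ENNReal

section
variable {K : Set ℝ} (hK : IsCompact K)
include hK

lemma phi_gap {a b y r c : ℝ} (hab : a ≤ b) (h1 : y - r ≤ a) (h2 : b ≤ y + r)
    (hg : volume.real (Set.Icc (y - r) (y + r) \ K) ≤ c) : (b - a) - c ≤ phi K b - phi K a := by
  rw [phi_sub hK hab]
  have hfin : volume (Set.Ioc a b) ≠ ⊤ := by rw [Real.volume_Ioc]; exact ENNReal.ofReal_ne_top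
  have h3 := measureReal_inter_add_sdiff (μ := volume) (s := Set.Ioc a b) (t := K) hK.measurableSet hfin
  rw [Real.volume_real_Ioc_of_le hab] at h3
  have h4 : volume.real (Set.Ioc a b \ K) ≤ volume.real (Set.Icc (y - r) (y + r) \ K) := by
    refine measureReal_mono ?_ ?_
    · rintro t ⟨ht, htK⟩
      exact ⟨⟨by linarith [ht.1], by linarith [ht.2]⟩, htK⟩
    · refine ne_top_of_le_ne_top ?_ (measure_mono Set.sdiff_subset)
      rw [Real.volume_Icc]; exact ENNReal.ofReal_ne_top
  rw [Set.inter_comm] at h3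
  linarith

lemma good_dist {x y r c : ℝ} (hr : 0 ≤ r)
    (hg : volume.real (Set.Icc (y - r) (y + r) \ K) ≤ c)
    (hd : |phi K x - phi K y| < r - c) : |y - x| ≤ |phi K x - phi K y| + c := by
  rcases le_total y x with h | h
  · have hm := phi_mono hK h
    have h5 : x ≤ y + r := by
      by_contra hcon
      push Not at hcon
      have h6 := phi_gap hK (a := y) (b := y + r) (by linarith) (by linarith) le_rfl hg
      have h7 := phi_mono hK hcon.le
      rw [abs_of_nonneg (by linarith)] at hd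
      linarith
    have h6 := phi_gap hK (a := y) (b := x) h (by linarith) h5 hg
    rw [abs_of_nonneg (by linarith : 0 ≤ phi K x - phi K y), abs_sub_comm,
      abs_of_nonneg (by linarith)]
    linarith
  · have hm := phi_mono hK h
    have h5 : y - r ≤ x := by
      by_contra hcon
      push Not at hcon
      have h6 := phi_gap hK (a := y - r) (b := y) (by linarith) le_rfl (by linarith) hg
      have h7 := phi_mono hK hcon.le
      rw [abs_sub_comm, abs_of_nonneg (by linarith)] at hd
      linarith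
    have h6 := phi_gap hK (a := x) (b := y) h h5 (by linarith) hg
    rw [abs_sub_comm (phi K x), abs_of_nonneg (by linarith : 0 ≤ phi K y - phi K x),
      abs_of_nonneg (by linarith)]
    linarith

/-- the potential at a good point -/
lemma good_pot (hL : 0 < volume.real K) {s : ℝ} (hs : 0 < s) {n T : ℕ} (hn : 0 < n) {η : ℝ}
    (hη : 0 < η) (hη1 : η < 1) (x : ℕ → ℝ)
    (hx : ∀ j < n, phi K (x j) = ((j : ℝ) + 1 / 2) * (volume.real K / n)) {y : ℝ}
    (hg : volume.real (Set.Icc (y - (T + 1) * (volume.real K / n))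
      (y + (T + 1) * (volume.real K / n)) \ K) ≤ η * (volume.real K / n)) :
    ENNReal.ofReal (2 * ∑ i ∈ range T, (((i : ℝ) + 1 / 2 + η) * (volume.real K / n)) ^ (-s)) ≤
      ∑ j ∈ range n, (ENNReal.ofReal |y - x j|) ^ (-s) := by
  have hnR : (0 : ℝ) < n := by exact_mod_cast hn
  set L := volume.real K with hLdef
  set h := L / n with hh
  have hh0 : 0 < h := div_pos hL hnR
  have hnh : (n : ℝ) * h = L := by rw [hh]; field_simp
  set r := ((T : ℝ) + 1) * h with hr
  have hr0 : 0 < r := by positivity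
  set t := phi K y / h with ht
  have hth : t * h = phi K y := by rw [ht]; field_simp
  -- bounds for t
  have ht1 : (T : ℝ) + 1 - η ≤ t := by
    have h1 := phi_gap hK (a := y - r) (b := y) (by linarith) le_rfl (by linarith) hg
    have h2 := phi_nonneg hK (y - r)
    have h3 : ((T : ℝ) + 1 - η) * h ≤ t * h := by rw [hth]; rw [hr] at h1; linarith
    exact le_of_mul_le_mul_right h3 hh0
  have ht2 : t ≤ n - ((T : ℝ) + 1) + η := by
    have h1 := phi_gap hK (a := y) (b := y + r) (by linarith) (by linarith) le_rfl hg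
    have h2 := phi_le hK (y + r)
    have h3 : t * h ≤ (n - ((T : ℝ) + 1) + η) * h := by
      rw [hth]
      have : (n - ((T : ℝ) + 1) + η) * h = L - r + η * h := by rw [← hnh, hr]; ring
      rw [this]; linarith
    exact le_of_mul_le_mul_right h3 hh0
  have hT0 : (0 : ℝ) ≤ T := Nat.cast_nonneg _
  have ht0 : 0 ≤ t + 1 / 2 := by linarith
  set m := ⌊t + 1 / 2⌋₊ with hm
  have hm1 : (m : ℝ) ≤ t + 1 / 2 := Nat.floor_le ht0
  have hm2 : t + 1 / 2 < m + 1 := Nat.lt_floor_add_one _
  have hmT : T ≤ m := by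
    have : (T : ℝ) < m + 1 := by linarith
    have : T < m + 1 := by exact_mod_cast this
    omega
  have hmn : m + T ≤ n := by
    have : ((m + T : ℕ) : ℝ) < ((n + 1 : ℕ) : ℝ) := by push_cast; linarith
    have : m + T < n + 1 := by exact_mod_cast this
    omega
  set v := t - m with hv
  have hsub : Ico (m - T) (m + T) ⊆ range n := by
    intro j hj
    rw [mem_Ico] at hj
    exact mem_range.2 (by omega)
  set f : ℕ → ℝ≥0∞ := fun j => (ENNReal.ofReal |y - x j|) ^ (-s) with hf
  have hsum1 : ∑ j ∈ Ico (m - T) (m + T), f j ≤ ∑ j ∈ range n, f j :=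
    sum_le_sum_of_subset hsub
  have hsum2 : ∑ j ∈ Ico (m - T) (m + T), f j =
      ∑ i ∈ range T, (f (m - 1 - i) + f (m + i)) := by
    rw [← Finset.sum_Ico_consecutive f (Nat.sub_le m T) (Nat.le_add_right m T),
      sum_Ico_eq_sum_range, sum_Ico_eq_sum_range, sum_add_distrib]
    congr 1
    · rw [show m - (m - T) = T by omega, ← Finset.sum_range_reflect]
      refine sum_congr rfl fun i hi => ?_
      rw [mem_range] at hi
      congr 1
      omega
    · rw [Nat.add_sub_cancel_left]
  refine le_trans ?_ hsum1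
  rw [hsum2, mul_sum, ENNReal.ofReal_sum_of_nonneg (fun i _ => by positivity)]
  refine sum_le_sum fun i hi => ?_
  rw [mem_range] at hi
  have hiT : (i : ℝ) + 1 ≤ T := by exact_mod_cast hi
  -- distances
  have hkey : ∀ j < n, |phi K (x j) - phi K y| ≤ T * h →
      ENNReal.ofReal ((|phi K (x j) - phi K y| + η * h) ^ (-s)) ≤ f j := by
    intro j hj hd
    have h1 := good_dist hK (x := x j) hr0.le hg (by rw [hr]; nlinarith)
    have h2 : 0 < |phi K (x j) - phi K y| + η * h := by positivity
    rw [← ENNReal.ofReal_rpow_of_pos h2]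
    exact rpow_neg_anti (ENNReal.ofReal_le_ofReal h1) hs.le
  have hR : phi K (x (m + i)) - phi K y = ((i : ℝ) + 1 / 2 - v) * h := by
    rw [hx _ (by omega), ← hth, hv]
    push_cast
    ring
  have hLf : phi K (x (m - 1 - i)) - phi K y = -(((i : ℝ) + 1 / 2 + v) * h) := by
    rw [hx _ (by omega), ← hth, hv]
    rw [Nat.cast_sub (by omega), Nat.cast_sub (by omega)]
    push_cast
    ring
  have hv1 : v ≤ 1 / 2 := by rw [hv]; linarith
  have hv2 : -(1 / 2) ≤ v := by rw [hv]; linarith
  have hi0 : (0 : ℝ) ≤ i := Nat.cast_nonneg _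
  have hRabs : |phi K (x (m + i)) - phi K y| = ((i : ℝ) + 1 / 2 - v) * h := by
    rw [hR, abs_of_nonneg (mul_nonneg (by linarith) hh0.le)]
  have hLabs : |phi K (x (m - 1 - i)) - phi K y| = ((i : ℝ) + 1 / 2 + v) * h := by
    rw [hLf, abs_neg, abs_of_nonneg (mul_nonneg (by linarith) hh0.le)]
  have k1 := hkey (m + i) (by omega) (by
    rw [hRabs]; exact mul_le_mul_of_nonneg_right (by linarith) hh0.le)
  have k2 := hkey (m - 1 - i) (by omega) (by
    rw [hLabs]; exact mul_le_mul_of_nonneg_right (by linarith) hh0.le)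
  rw [hRabs] at k1
  rw [hLabs] at k2
  refine le_trans ?_ (add_le_add k2 k1)
  rw [← ENNReal.ofReal_add (Real.rpow_nonneg (by nlinarith) _) (Real.rpow_nonneg (by nlinarith) _)]
  refine ENNReal.ofReal_le_ofReal ?_
  have ha : 0 < ((i : ℝ) + 1 / 2 + η) * h := by positivity
  have hb1 : 0 < ((i : ℝ) + 1 / 2 + v) * h + η * h := by
    have : 0 ≤ ((i : ℝ) + 1 / 2 + v) * h := mul_nonneg (by linarith) hh0.le
    positivity
  have hb2 : 0 < ((i : ℝ) + 1 / 2 - v) * h + η * h := by
    have : 0 ≤ ((i : ℝ) + 1 / 2 - v) * h := mul_nonneg (by linarith) hh0.le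
    positivity
  have t1 := tangent hs ha hb1
  have t2 := tangent hs ha hb2
  have e : s * (((i : ℝ) + 1 / 2 + η) * h) ^ (-s - 1) *
      (((i : ℝ) + 1 / 2 + η) * h - (((i : ℝ) + 1 / 2 + v) * h + η * h)) +
      s * (((i : ℝ) + 1 / 2 + η) * h) ^ (-s - 1) *
      (((i : ℝ) + 1 / 2 + η) * h - (((i : ℝ) + 1 / 2 - v) * h + η * h)) = 0 := by ring
  linarith

end

/-- the mesh cell `[k r, (k+1) r)` -/
def cell (r : ℝ) (k : ℤ) : Set ℝ := Set.Ico (k * r) ((k + 1) * r)

lemma cell_disj {r : ℝ} (hr : 0 < r) {j k : ℤ} (hjk : j ≠ k) : Disjoint (cell r j) (cell r k) := by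
  rw [Set.disjoint_left]
  rintro t ⟨h1, h2⟩ ⟨h3, h4⟩
  rcases lt_or_gt_of_ne hjk with h | h
  · have : ((j : ℝ) + 1) ≤ k := by exact_mod_cast h
    have := mul_le_mul_of_nonneg_right this hr.le
    linarith
  · have : ((k : ℝ) + 1) ≤ j := by exact_mod_cast h
    have := mul_le_mul_of_nonneg_right this hr.le
    linarith

lemma card_bad {r c : ℝ} (hr : 0 < r) (K G : Set ℝ) (hG : MeasurableSet G) (hGf : volume G ≠ ⊤)
    (B : Finset ℤ) (hB : ∀ k ∈ B, Set.Ico ((k - 1) * r) ((k + 2) * r) \ K ⊆ G)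
    (hc : ∀ k ∈ B, c ≤ volume.real (Set.Ico (((k : ℝ) - 1) * r) ((k + 2) * r) \ K)) :
    (B.card : ℝ) * c ≤ 3 * volume.real G := by
  have hfin : ∀ S : Set ℝ, volume (S ∩ G) ≠ ⊤ := fun S =>
    ne_top_of_le_ne_top hGf (measure_mono Set.inter_subset_right)
  have hone : ∀ d : ℤ, ∑ k ∈ B, volume.real (cell r (k + d) ∩ G) ≤ volume.real G := by
    intro d
    rw [← measureReal_biUnion_finset]
    · exact measureReal_mono (by
        intro t ht
        simp only [Set.mem_iUnion] at ht
        obtain ⟨k, _, h⟩ := ht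
        exact h.2) hGf
    · intro j _ k _ hjk
      exact (cell_disj hr (fun h => hjk (by linarith))).mono Set.inter_subset_left
        Set.inter_subset_left
    · intro k _
      exact measurableSet_Ico.inter hG
  have hthree : ∀ k ∈ B, c ≤ volume.real (cell r (k + (-1)) ∩ G) + volume.real (cell r (k + 0) ∩ G) +
      volume.real (cell r (k + 1) ∩ G) := by
    intro k hk
    refine (hc k hk).trans ?_
    have hsub : Set.Ico (((k : ℝ) - 1) * r) ((k + 2) * r) \ K ⊆
        (cell r (k + (-1)) ∩ G) ∪ (cell r (k + 0) ∩ G) ∪ (cell r (k + 1) ∩ G) := by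
      intro t ht
      have htG := hB k hk ht
      obtain ⟨⟨h1, h2⟩, _⟩ := ht
      rw [← Set.union_inter_distrib_right, ← Set.union_inter_distrib_right]
      refine ⟨?_, htG⟩
      unfold cell
      push_cast
      rcases lt_or_ge t ((k : ℝ) * r) with h3 | h3
      · left; left
        exact ⟨by linarith, by linarith⟩
      · rcases lt_or_ge t (((k : ℝ) + 1) * r) with h4 | h4
        · left; right
          exact ⟨by linarith, by linarith⟩
        · right
          exact ⟨by linarith, by linarith⟩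
    refine (measureReal_mono hsub ?_).trans ?_
    · exact ne_top_of_le_ne_top hGf (measure_mono (by
        rintro t ((h | h) | h) <;> exact h.2))
    · refine (measureReal_union_le _ _).trans ?_
      have := measureReal_union_le (μ := volume) (cell r (k + (-1)) ∩ G) (cell r (k + 0) ∩ G)
      linarith
  calc (B.card : ℝ) * c = ∑ k ∈ B, c := by rw [sum_const, nsmul_eq_mul]
    _ ≤ ∑ k ∈ B, (volume.real (cell r (k + (-1)) ∩ G) + volume.real (cell r (k + 0) ∩ G) +
      volume.real (cell r (k + 1) ∩ G)) := sum_le_sum hthree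
    _ ≤ 3 * volume.real G := by
      rw [sum_add_distrib, sum_add_distrib]
      linarith [hone (-1), hone 0, hone 1]

/-- a configuration with at most `N` points gives a lower bound for the `N`-th constant -/
lemma pol_ge {K : Set ℝ} (hne : K.Nonempty) {s : ℝ} {N : ℕ} {ι : Type} [Fintype ι] (x : ι → ℝ)
    (hx : ∀ i, x i ∈ K) (hcard : Fintype.card ι ≤ N) {c : ℝ≥0∞}
    (h : ∀ y ∈ K, c ≤ ∑ i, (ENNReal.ofReal |y - x i|) ^ (-s)) : c ≤ pol K s N := by
  classical
  obtain ⟨p, hp⟩ := hne
  obtain ⟨e⟩ : Nonempty (ι ↪ Fin N) := by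
    rw [Function.Embedding.nonempty_iff_card_le, Fintype.card_fin]
    exact hcard
  unfold pol
  set x' : Fin N → ℝ := Function.extend e x (fun _ => p) with hx'
  have hx'K : ∀ j, x' j ∈ K := by
    intro j
    by_cases hj : ∃ i, e i = j
    · obtain ⟨i, rfl⟩ := hj
      rw [hx', e.injective.extend_apply]
      exact hx i
    · rw [hx', Function.extend_apply' _ _ _ hj]
      exact hp
  refine le_trans ?_ (le_iSup₂ (f := fun (x : Fin N → ℝ) (_ : ∀ i, x i ∈ K) =>
    ⨅ y ∈ K, ∑ j, (ENNReal.ofReal |y - x j|) ^ (-s)) x' hx'K)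
  refine le_iInf₂ fun y hy => ?_
  refine (h y hy).trans ?_
  calc ∑ i, (ENNReal.ofReal |y - x i|) ^ (-s)
      = ∑ i, (ENNReal.ofReal |y - x' (e i)|) ^ (-s) := by
        refine sum_congr rfl fun i _ => ?_
        rw [hx', e.injective.extend_apply]
    _ = ∑ j ∈ univ.map e, (ENNReal.ofReal |y - x' j|) ^ (-s) := by rw [sum_map]
    _ ≤ ∑ j, (ENNReal.ofReal |y - x' j|) ^ (-s) := sum_le_sum_of_subset (subset_univ _)

end Pool.Agent.X110.Pol
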