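import Mathlib
import Pool.Agent.X110.Pol3

set_option autoImplicit false

namespace Pool.Agent.X110.Pol

open Finset MeasureTheory Filter Topology
open scoped ENNReal

/-- lower bound for one large `n` -/
lemma lower_one {K : Set ℝ} (hK : IsCompact K) (hL : 0 < volume.real K) {s : ℝ} (hs : 0 < s)
    {T n M : ℕ} (hn : 0 < n) (hM : 0 < M) {η : ℝ} (hη : 0 < η) (hη1 : η < 1)
    (hW : 2 * ∑ i ∈ range T, ((i : ℝ) + 1 / 2 + η) ^ (-s) ≤ (((T : ℝ) + 1) / M) ^ (-s))
    (hω : 3 * M * volume.real (Metric.cthickening (2 * ((T + 1) * (volume.real K / n))) K \ K) ≤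
      η * (η * volume.real K)) {N : ℕ} (hN : (n : ℝ) + η * n ≤ N) :
    ENNReal.ofReal (2 * ∑ i ∈ range T, (((i : ℝ) + 1 / 2 + η) * (volume.real K / n)) ^ (-s)) ≤
      pol K s N := by
  classical
  have hnR : (0 : ℝ) < n := by exact_mod_cast hn
  have hMR : (0 : ℝ) < M := by exact_mod_cast hM
  set L := volume.real K with hLdef
  set h := L / n with hh
  have hh0 : 0 < h := div_pos hL hnR
  have hnh : (n : ℝ) * h = L := by rw [hh]; field_simp
  set r := ((T : ℝ) + 1) * h with hr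
  have hr0 : 0 < r := by positivity
  have hne : K.Nonempty := by
    rw [Set.nonempty_iff_ne_empty]
    rintro rfl
    simp [hLdef] at hL
  obtain ⟨p, hp⟩ := hne
  -- base points
  have hbase : ∀ j : ℕ, ∃ x ∈ K, j < n → phi K x = ((j : ℝ) + 1 / 2) * h := by
    intro j
    by_cases hj : j < n
    · obtain ⟨x, hx, hxu⟩ := phi_surj hK (u := ((j : ℝ) + 1 / 2) * h) ⟨by positivity, by
        rw [← hLdef, ← hnh]
        have : (j : ℝ) + 1 ≤ n := by exact_mod_cast hj
        exact mul_lt_mul_of_pos_right (by linarith) hh0⟩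
      exact ⟨x, hx, fun _ => hxu⟩
    · exact ⟨p, hp, fun h => absurd h hj⟩
  choose x hxK hx using hbase
  -- the bad cells
  set G := Metric.cthickening (2 * r) K \ K with hG
  have hGm : MeasurableSet G := Metric.isClosed_cthickening.measurableSet.diff hK.measurableSet
  have hGf : volume G ≠ ⊤ := by
    refine ne_top_of_le_ne_top ?_ (measure_mono Set.sdiff_subset)
    exact (hK.isBounded.cthickening).measure_lt_top.ne
  obtain ⟨R, hR⟩ := hK.isBounded.subset_closedBall 0
  obtain ⟨m, hm⟩ := exists_nat_gt (|R| / r + 1)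
  set B : Finset ℤ := (Icc (-(m : ℤ)) m).filter (fun k => (cell r k ∩ K).Nonempty ∧
    η * h < volume.real (Set.Ico (((k : ℝ) - 1) * r) ((k + 2) * r) \ K)) with hB
  have hBsub : ∀ k ∈ B, Set.Ico (((k : ℝ) - 1) * r) ((k + 2) * r) \ K ⊆ G := by
    intro k hk
    rw [hB, mem_filter] at hk
    obtain ⟨_, ⟨z, hz1, hz2⟩, _⟩ := hk
    rintro t ⟨ht1, ht2⟩
    refine ⟨?_, ht2⟩
    refine Metric.mem_cthickening_of_dist_le t z _ K hz2 ?_
    unfold cell at hz1
    rw [Real.dist_eq, abs_le]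
    constructor
    · linarith [ht1.1, hz1.2]
    · linarith [ht1.2, hz1.1]
  have hcard : (B.card : ℝ) * (η * h) ≤ 3 * volume.real G :=
    card_bad hr0 K G hGm hGf B hBsub (fun k hk => by
      rw [hB, mem_filter] at hk
      exact hk.2.2.le)
  have hextra : (B.card : ℝ) * M ≤ η * n := by
    have h1 : (B.card : ℝ) * M * (η * h) ≤ (η * n) * (η * h) := by
      have h2 : (B.card : ℝ) * M * (η * h) = M * ((B.card : ℝ) * (η * h)) := by ring
      have h3 : (η * n) * (η * h) = η * (η * L) := by rw [← hnh]; ring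
      rw [h2, h3]
      calc M * ((B.card : ℝ) * (η * h)) ≤ M * (3 * volume.real G) :=
            mul_le_mul_of_nonneg_left hcard hMR.le
        _ = 3 * M * volume.real G := by ring
        _ ≤ _ := hω
    exact le_of_mul_le_mul_right h1 (by positivity)
  -- the extra points
  have hpt : ∀ (k : ℤ) (i : ℕ), ∃ z ∈ K,
      (K ∩ Set.Ico ((k : ℝ) * r + i * (r / M)) (k * r + (i + 1) * (r / M))).Nonempty →
      z ∈ Set.Ico ((k : ℝ) * r + i * (r / M)) (k * r + (i + 1) * (r / M)) := by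
    intro k i
    by_cases hz : (K ∩ Set.Ico ((k : ℝ) * r + i * (r / M)) (k * r + (i + 1) * (r / M))).Nonempty
    · obtain ⟨z, hz1, hz2⟩ := hz
      exact ⟨z, hz1, fun _ => hz2⟩
    · exact ⟨p, hp, fun h => absurd h hz⟩
  choose pt hptK hpt using hpt
  refine pol_ge (ι := Fin n ⊕ (B × Fin M)) ⟨p, hp⟩
    (Sum.elim (fun j => x j) (fun q => pt q.1 q.2)) ?_ ?_ ?_
  · rintro (j | q)
    · exact hxK _
    · exact hptK _ _
  · rw [Fintype.card_sum, Fintype.card_prod, Fintype.card_fin, Fintype.card_fin, Fintype.card_coe]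
    have : ((n + B.card * M : ℕ) : ℝ) ≤ N := by push_cast; linarith
    exact_mod_cast this
  · intro y hy
    rw [Fintype.sum_sum_type]
    simp only [Sum.elim_inl, Sum.elim_inr]
    set k := ⌊y / r⌋ with hk
    have hk1 : (k : ℝ) * r ≤ y := by
      have := Int.floor_le (y / r)
      rwa [le_div_iff₀ hr0] at this
    have hk2 : y < ((k : ℝ) + 1) * r := by
      have := Int.lt_floor_add_one (y / r)
      rwa [div_lt_iff₀ hr0] at this
    have hcellK : (cell r k ∩ K).Nonempty := ⟨y, ⟨hk1, hk2⟩, hy⟩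
    have hkm : k ∈ Icc (-(m : ℤ)) m := by
      have hyR := hR hy
      rw [Metric.mem_closedBall, Real.dist_eq, sub_zero] at hyR
      have hyR2 : |y| ≤ |R| := hyR.trans (le_abs_self R)
      have h1 : |y / r| ≤ |R| / r := by
        rw [abs_div, abs_of_pos hr0]
        exact div_le_div_of_nonneg_right hyR2 hr0.le
      rw [abs_le] at h1
      have h2 := Int.floor_le (y / r)
      have h3 := Int.lt_floor_add_one (y / r)
      rw [mem_Icc]
      constructor
      · have : (-(m : ℝ)) < (k : ℝ) := by rw [← hk] at h3; linarith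
        have : (-(m : ℤ)) < k := by exact_mod_cast this
        omega
      · have : (k : ℝ) < m := by rw [← hk] at h2; linarith
        have : k < (m : ℤ) := by exact_mod_cast this
        omega
    by_cases hbad : η * h < volume.real (Set.Ico (((k : ℝ) - 1) * r) ((k + 2) * r) \ K)
    · -- bad cell: one extra point is close
      have hkB : k ∈ B := by
        rw [hB, mem_filter]
        exact ⟨hkm, hcellK, hbad⟩
      refine le_trans ?_ (le_add_left le_rfl)
      set ρ := r / M with hρ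
      have hρ0 : 0 < ρ := by positivity
      set i := ⌊(y - k * r) / ρ⌋₊ with hi
      have hq0 : 0 ≤ (y - k * r) / ρ := div_nonneg (by linarith) hρ0.le
      have hi1 : (i : ℝ) * ρ ≤ y - k * r := by
        have := Nat.floor_le hq0
        rwa [le_div_iff₀ hρ0] at this
      have hi2 : y - k * r < ((i : ℝ) + 1) * ρ := by
        have := Nat.lt_floor_add_one ((y - k * r) / ρ)
        rwa [div_lt_iff₀ hρ0] at this
      have hiM : i < M := by
        rw [hi, Nat.floor_lt hq0, div_lt_iff₀ hρ0, hρ]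
        have : (M : ℝ) * (r / M) = r := by field_simp
        rw [this]; linarith
      have hz := hpt k i ⟨y, hy, ⟨by linarith, by linarith⟩⟩
      have hdist : |y - pt k i| ≤ ρ := by
        rw [abs_le]
        constructor <;> linarith [hz.1, hz.2]
      refine le_trans ?_ (single_le_sum (f := fun q : B × Fin M =>
        (ENNReal.ofReal |y - pt q.1 q.2|) ^ (-s)) (fun _ _ => zero_le)
        (mem_univ ((⟨k, hkB⟩, ⟨i, hiM⟩) : B × Fin M)))
      refine le_trans ?_ (rpow_neg_anti (ENNReal.ofReal_le_ofReal hdist) hs.le)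
      rw [ENNReal.ofReal_rpow_of_pos hρ0]
      refine ENNReal.ofReal_le_ofReal ?_
      have e1 : ρ = (((T : ℝ) + 1) / M) * h := by rw [hρ, hr]; ring
      rw [e1, Real.mul_rpow (by positivity) hh0.le]
      have e2 : 2 * ∑ i ∈ range T, (((i : ℝ) + 1 / 2 + η) * h) ^ (-s) =
          (2 * ∑ i ∈ range T, ((i : ℝ) + 1 / 2 + η) ^ (-s)) * h ^ (-s) := by
        rw [mul_assoc, sum_mul]
        congr 1
        refine sum_congr rfl fun i _ => ?_
        rw [Real.mul_rpow (by positivity) hh0.le]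
      rw [e2]
      exact mul_le_mul_of_nonneg_right hW (Real.rpow_nonneg hh0.le _)
    · -- good cell
      push Not at hbad
      refine le_trans ?_ (le_add_right le_rfl)
      have hg : volume.real (Set.Icc (y - r) (y + r) \ K) ≤ η * h := by
        refine le_trans (measureReal_mono ?_ ?_) hbad
        · rintro t ⟨⟨h1, h2⟩, h3⟩
          exact ⟨⟨by linarith, by linarith⟩, h3⟩
        · refine ne_top_of_le_ne_top ?_ (measure_mono Set.sdiff_subset)
          rw [Real.volume_Ico]; exact ENNReal.ofReal_ne_top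
      have := good_pot hK hL hs (T := T) hn hη hη1 x (fun j hj => hx j hj) (y := y) hg
      rw [Finset.sum_range (fun j => (ENNReal.ofReal |y - x j|) ^ (-s))] at this
      exact this

lemma omega_tendsto {K : Set ℝ} (hK : IsCompact K) :
    Tendsto (fun r : ℝ => volume.real (Metric.cthickening r K \ K)) (𝓝 0) (𝓝 0) := by
  have h1 := tendsto_measure_cthickening_of_isClosed (μ := (volume : Measure ℝ)) (s := K)
    ⟨1, one_pos, (hK.isBounded.cthickening).measure_lt_top.ne⟩ hK.isClosed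
  have h2 : Tendsto (fun r : ℝ => volume.real (Metric.cthickening r K)) (𝓝 0)
      (𝓝 (volume.real K)) :=
    (ENNReal.tendsto_toReal hK.measure_lt_top.ne).comp h1
  have h3 : (fun r : ℝ => volume.real (Metric.cthickening r K \ K)) =
      fun r : ℝ => volume.real (Metric.cthickening r K) - volume.real K := by
    funext r
    rw [measureReal_sdiff (Metric.self_subset_cthickening K) hK.measurableSet
      (hK.isBounded.cthickening).measure_lt_top.ne]
  rw [h3]
  have := h2.sub_const (volume.real K)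
  rwa [sub_self] at this

lemma lower_ev {K : Set ℝ} (hK : IsCompact K) (hL : 0 < volume.real K) {s : ℝ} (hs : 0 < s)
    (T : ℕ) {η : ℝ} (hη : 0 < η) (hη1 : η < 1) :
    ∀ᶠ n : ℕ in atTop, ∀ N : ℕ, (n : ℝ) + η * n ≤ N →
    ENNReal.ofReal (2 * ∑ i ∈ range T, (((i : ℝ) + 1 / 2 + η) * (volume.real K / n)) ^ (-s)) ≤
      pol K s N := by
  -- choice of `M`
  have hM : ∀ᶠ M : ℕ in atTop, 2 * ∑ i ∈ range T, ((i : ℝ) + 1 / 2 + η) ^ (-s) ≤
      (((T : ℝ) + 1) / M) ^ (-s) := by
    have h1 : Tendsto (fun M : ℕ => ((M : ℝ) / ((T : ℝ) + 1)) ^ s) atTop atTop :=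
      (tendsto_rpow_atTop hs).comp
        (tendsto_natCast_atTop_atTop.atTop_div_const (by positivity))
    filter_upwards [h1.eventually_ge_atTop (2 * ∑ i ∈ range T, ((i : ℝ) + 1 / 2 + η) ^ (-s)),
      eventually_gt_atTop 0] with M h2 h3
    have h4 : (0 : ℝ) < M := by exact_mod_cast h3
    have : (((T : ℝ) + 1) / M) ^ (-s) = ((M : ℝ) / ((T : ℝ) + 1)) ^ s := by
      rw [Real.rpow_neg (by positivity), ← Real.inv_rpow (by positivity), inv_div]
    rw [this]
    exact h2
  obtain ⟨M, hM1, hM0⟩ := (hM.and (eventually_gt_atTop 0)).exists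
  have hMR : (0 : ℝ) < M := by exact_mod_cast hM0
  have hω : ∀ᶠ n : ℕ in atTop,
      3 * M * volume.real (Metric.cthickening (2 * ((T + 1) * (volume.real K / n))) K \ K) ≤
      η * (η * volume.real K) := by
    have h1 : Tendsto (fun n : ℕ => 2 * (((T : ℝ) + 1) * (volume.real K / n))) atTop (𝓝 0) := by
      have := (tendsto_const_div_atTop_nhds_zero_nat (volume.real K)).const_mul
        (2 * ((T : ℝ) + 1))
      simp only [mul_zero] at this
      refine this.congr fun n => by ring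
    have h2 := ((omega_tendsto hK).comp h1).const_mul (3 * (M : ℝ))
    rw [mul_zero] at h2
    have h3 : (0 : ℝ) < η * (η * volume.real K) := by positivity
    filter_upwards [h2.eventually_lt_const h3] with n hn
    exact hn.le
  filter_upwards [hω, eventually_gt_atTop 0] with n h1 h2 N hN
  exact lower_one hK hL hs h2 hM0 hη hη1 hM1 h1 hN

/-- the constant `2 ∑ (n + 1/2)^(-s)` -/
noncomputable def cst (s : ℝ) : ℝ≥0∞ := 2 * ∑' n : ℕ, ENNReal.ofReal (((n : ℝ) + 1 / 2) ^ (-s))

lemma tsum_scale (s : ℝ) {h : ℝ} (hh : 0 < h) :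
    2 * ∑' n : ℕ, ENNReal.ofReal ((((n : ℝ) + 1 / 2) * h) ^ (-s)) =
      cst s * ENNReal.ofReal (h ^ (-s)) := by
  unfold cst
  rw [mul_assoc, ← ENNReal.tsum_mul_right]
  congr 1
  refine tsum_congr fun n => ?_
  rw [Real.mul_rpow (by positivity) hh.le, ENNReal.ofReal_mul (by positivity)]

theorem pol_tendsto {K : Set ℝ} (hK : IsCompact K) (hL : 0 < volume.real K) {s : ℝ} (hs : 0 < s) :
    Tendsto (fun N : ℕ => pol K s N / ((N : ℝ≥0∞) ^ s)) atTop
      (𝓝 (cst s * ENNReal.ofReal ((volume.real K) ^ (-s)))) := by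
  set L := volume.real K with hLdef
  rw [tendsto_order]
  constructor
  · intro θ hθ
    -- choose T
    have hθ2 : ∃ T : ℕ, θ < ENNReal.ofReal (2 * ∑ i ∈ range T, ((i : ℝ) + 1 / 2) ^ (-s) * L ^ (-s)) := by
      have h1 : cst s * ENNReal.ofReal (L ^ (-s)) =
          ∑' n : ℕ, ENNReal.ofReal (2 * (((n : ℝ) + 1 / 2) ^ (-s) * L ^ (-s))) := by
        unfold cst
        rw [mul_assoc, ← ENNReal.tsum_mul_right, ← ENNReal.tsum_mul_left]
        refine tsum_congr fun n => ?_
        rw [ENNReal.ofReal_mul (by norm_num : (0 : ℝ) ≤ 2), ENNReal.ofReal_mul (by positivity)]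
        norm_num
      rw [h1] at hθ
      have h2 := (ENNReal.summable.hasSum (f := fun n : ℕ =>
        ENNReal.ofReal (2 * (((n : ℝ) + 1 / 2) ^ (-s) * L ^ (-s))))).tendsto_sum_nat
      obtain ⟨T, hT⟩ := (h2.eventually_const_lt hθ).exists
      refine ⟨T, hT.trans_le (le_of_eq ?_)⟩
      rw [← ENNReal.ofReal_sum_of_nonneg (fun i _ => by positivity), mul_sum]
    obtain ⟨T, hT⟩ := hθ2
    -- choose η
    have hη : ∃ η : ℝ, 0 < η ∧ η < 1 ∧
        θ < ENNReal.ofReal (2 * ∑ i ∈ range T, ((i : ℝ) + 1 / 2 + η) ^ (-s) * L ^ (-s) *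
          (1 + 2 * η) ^ (-s)) := by
      have hc : ContinuousAt (fun η : ℝ => ENNReal.ofReal (2 * ∑ i ∈ range T,
          ((i : ℝ) + 1 / 2 + η) ^ (-s) * L ^ (-s) * (1 + 2 * η) ^ (-s))) 0 := by
        refine ENNReal.continuous_ofReal.continuousAt.comp ?_
        refine ContinuousAt.mul continuousAt_const ?_
        refine tendsto_finsetSum _ fun i _ => ?_
        refine ContinuousAt.mul (ContinuousAt.mul ?_ continuousAt_const) ?_
        · refine ContinuousAt.rpow_const (by fun_prop) (Or.inl ?_)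
          have : (0 : ℝ) ≤ i := Nat.cast_nonneg _
          linarith
        · exact ContinuousAt.rpow_const (by fun_prop) (Or.inl (by norm_num))
      have h0 : θ < ENNReal.ofReal (2 * ∑ i ∈ range T,
          ((i : ℝ) + 1 / 2 + 0) ^ (-s) * L ^ (-s) * (1 + 2 * 0) ^ (-s)) := by
        simpa using hT
      have h1 := hc.eventually_const_lt h0
      have h2 : ∀ᶠ η : ℝ in 𝓝[>] (0 : ℝ), θ < ENNReal.ofReal (2 * ∑ i ∈ range T,
          ((i : ℝ) + 1 / 2 + η) ^ (-s) * L ^ (-s) * (1 + 2 * η) ^ (-s)) := nhdsWithin_le_nhds h1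
      obtain ⟨η, h3, h4, h5⟩ := (h2.and (Ioo_mem_nhdsGT (show (0 : ℝ) < 1 by norm_num))).exists
      exact ⟨η, h4, h5, h3⟩
    obtain ⟨η, hη0, hη1, hθη⟩ := hη
    -- the number n
    have hfl : Tendsto (fun N : ℕ => ⌊(N : ℝ) / (1 + η)⌋₊) atTop atTop :=
      tendsto_nat_floor_atTop.comp (tendsto_natCast_atTop_atTop.atTop_div_const (by positivity))
    have hev := hfl.eventually (lower_ev hK hL hs T hη0 hη1)
    have hbig : ∀ᶠ N : ℕ in atTop, (1 + η) * (1 + 2 * η) / η ≤ (N : ℝ) :=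
      tendsto_natCast_atTop_atTop.eventually_ge_atTop _
    filter_upwards [hev, hbig, eventually_gt_atTop 0, hfl.eventually_gt_atTop 0] with N h1 h2 h3 h4
    have hNR : (0 : ℝ) < N := by exact_mod_cast h3
    set n := ⌊(N : ℝ) / (1 + η)⌋₊ with hn
    have hnR : (0 : ℝ) < n := by exact_mod_cast h4
    have hn1 : (n : ℝ) ≤ N / (1 + η) := Nat.floor_le (by positivity)
    have hn2 : (N : ℝ) / (1 + η) < n + 1 := Nat.lt_floor_add_one _
    have hnN : (n : ℝ) + η * n ≤ N := by
      rw [le_div_iff₀ (by positivity)] at hn1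
      linarith
    have hnN2 : (N : ℝ) / (1 + 2 * η) ≤ n := by
      have h5 : (N : ℝ) / (1 + η) - N / (1 + 2 * η) = N * η / ((1 + η) * (1 + 2 * η)) := by
        field_simp
        ring
      have h6 : 1 ≤ N * η / ((1 + η) * (1 + 2 * η)) := by
        rw [le_div_iff₀ (by positivity)]
        rw [div_le_iff₀ hη0] at h2
        linarith
      linarith
    have h5 := h1 N hnN
    refine hθη.trans_le ?_
    rw [ENNReal.le_div_iff_mul_le (Or.inl (by
      have : (N : ℝ≥0∞) ≠ 0 := by exact_mod_cast h3.ne'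
      simp [this])) (Or.inl (ENNReal.rpow_ne_top_of_nonneg hs.le (ENNReal.natCast_ne_top N)))]
    refine le_trans ?_ h5
    have e0 : (N : ℝ≥0∞) ^ s = ENNReal.ofReal ((N : ℝ) ^ s) := by
      rw [← ENNReal.ofReal_natCast, ENNReal.ofReal_rpow_of_nonneg hNR.le hs.le]
    rw [e0, ← ENNReal.ofReal_mul' (by positivity)]
    refine ENNReal.ofReal_le_ofReal ?_
    rw [mul_assoc, sum_mul]
    refine mul_le_mul_of_nonneg_left (sum_le_sum fun i _ => ?_) (by norm_num)
    have e1 : (((i : ℝ) + 1 / 2 + η) * (L / n)) ^ (-s) =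
        ((i : ℝ) + 1 / 2 + η) ^ (-s) * L ^ (-s) * (n : ℝ) ^ s := by
      rw [Real.mul_rpow (by positivity) (by positivity), Real.div_rpow hL.le hnR.le,
        Real.rpow_neg hnR.le s, div_inv_eq_mul]
      ring
    rw [e1, mul_assoc (((i : ℝ) + 1 / 2 + η) ^ (-s) * L ^ (-s))]
    refine mul_le_mul_of_nonneg_left ?_ (by positivity)
    have e2 : (1 + 2 * η) ^ (-s) * (N : ℝ) ^ s = ((N : ℝ) / (1 + 2 * η)) ^ s := by
      rw [Real.div_rpow hNR.le (by positivity), Real.rpow_neg (by positivity)]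
      ring
    rw [e2]
    exact Real.rpow_le_rpow (by positivity) hnN2 hs.le
  · intro θ hθ
    filter_upwards [eventually_gt_atTop 0] with N hN
    have hNR : (0 : ℝ) < N := by exact_mod_cast hN
    refine lt_of_le_of_lt ?_ hθ
    refine ENNReal.div_le_of_le_mul ?_
    refine (pol_le hK hL hs hN).trans (le_of_eq ?_)
    rw [← hLdef, tsum_scale s (div_pos hL hNR), mul_assoc]
    congr 1
    have e0 : (N : ℝ≥0∞) ^ s = ENNReal.ofReal ((N : ℝ) ^ s) := by
      rw [← ENNReal.ofReal_natCast, ENNReal.ofReal_rpow_of_nonneg hNR.le hs.le]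
    rw [e0, ← ENNReal.ofReal_mul (by positivity)]
    congr 1
    rw [Real.div_rpow hL.le hNR.le, Real.rpow_neg hNR.le s, div_inv_eq_mul]

/-- `2 ∑ (n + 1/2)^(-s) = 2 (2^s - 1) ζ(s)` for `s > 1` -/
lemma cst_eq {s : ℝ} (hs : 1 < s) :
    cst s = ENNReal.ofReal (2 * (2 ^ s - 1) * ∑' n : ℕ, 1 / ((n : ℝ) + 1) ^ s) := by
  have hs0 : 0 < s := by linarith
  -- summability of `1 / (n+1)^s`
  have hsum : Summable (fun n : ℕ => 1 / ((n : ℝ) + 1) ^ s) := by
    have h1 := (Real.summable_one_div_nat_rpow (p := s)).2 hs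
    have h2 := (summable_nat_add_iff 1).2 h1
    simpa using h2
  have heven : Summable (fun n : ℕ => 1 / (((2 * n + 1 : ℕ) : ℝ) + 1) ^ s) := by
    have : Function.Injective (fun n : ℕ => 2 * n + 1) := fun a b h => by
      simp only at h; omega
    exact hsum.comp_injective this
  have hodd : Summable (fun n : ℕ => 1 / (((2 * n : ℕ) : ℝ) + 1) ^ s) := by
    have : Function.Injective (fun n : ℕ => 2 * n) := fun a b h => by
      simp only at h; omega
    exact hsum.comp_injective this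
  have hsplit : (∑' n : ℕ, 1 / (((2 * n : ℕ) : ℝ) + 1) ^ s) +
      ∑' n : ℕ, 1 / (((2 * n + 1 : ℕ) : ℝ) + 1) ^ s = ∑' n : ℕ, 1 / ((n : ℝ) + 1) ^ s :=
    tsum_even_add_odd (f := fun n : ℕ => 1 / ((n : ℝ) + 1) ^ s) hodd heven
  have h2s : (0 : ℝ) < 2 ^ s := by positivity
  have e1 : ∑' n : ℕ, 1 / (((2 * n + 1 : ℕ) : ℝ) + 1) ^ s =
      (2 ^ s)⁻¹ * ∑' n : ℕ, 1 / ((n : ℝ) + 1) ^ s := by
    rw [← tsum_mul_left]
    refine tsum_congr fun n => ?_
    have : (((2 * n + 1 : ℕ) : ℝ) + 1) = 2 * ((n : ℝ) + 1) := by push_cast; ring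
    rw [this, Real.mul_rpow (by norm_num) (by positivity), one_div, mul_inv, one_div]
  have e2 : ∀ n : ℕ, ((n : ℝ) + 1 / 2) ^ (-s) = 2 ^ s * (1 / (((2 * n : ℕ) : ℝ) + 1) ^ s) := by
    intro n
    have : (n : ℝ) + 1 / 2 = (((2 * n : ℕ) : ℝ) + 1) / 2 := by push_cast; ring
    rw [this, Real.rpow_neg (by positivity), Real.div_rpow (by positivity) (by norm_num), inv_div]
    ring
  unfold cst
  have e3 : ∑' n : ℕ, ENNReal.ofReal (((n : ℝ) + 1 / 2) ^ (-s)) =
      ENNReal.ofReal (2 ^ s * ∑' n : ℕ, 1 / (((2 * n : ℕ) : ℝ) + 1) ^ s) := by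
    rw [← tsum_mul_left, ENNReal.ofReal_tsum_of_nonneg (fun n => by positivity)
      (hodd.mul_left _)]
    exact tsum_congr fun n => by rw [e2]
  rw [e3]
  have e4 : (2 : ℝ≥0∞) = ENNReal.ofReal 2 := by norm_num
  rw [e4, ← ENNReal.ofReal_mul (by norm_num)]
  congr 1
  rw [e1] at hsplit
  have : ∑' n : ℕ, 1 / (((2 * n : ℕ) : ℝ) + 1) ^ s =
      (1 - (2 ^ s)⁻¹) * ∑' n : ℕ, 1 / ((n : ℝ) + 1) ^ s := by linarith
  rw [this]
  field_simp

end Pool.Agent.X110.Pol
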