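import Pool.Agent.X110.NB4

set_option autoImplicit false

/-! Moments of partial Euler products, alone and under the moment measures. -/

namespace Pool.Agent.X110.NA

open Finset Filter Topology MeasureTheory
open Pool.Agent.H306R2 (lc lc_zero lc_nonneg aF)

/-- the product as a function of the point of the torus -/
noncomputable def Fz {m : ℕ} (p : Fin m → ℕ) (e : ℝ) (z : Fin m → ℂ) : ℂ :=
  ((∏ j, ‖1 - (((p j : ℝ) ^ (-(1 / 2 : ℝ)) : ℝ) : ℂ) * (starRingEnd ℂ) (z j)‖ ^ e : ℝ) : ℂ)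

lemma Fz_contOn {m : ℕ} {p : Fin m → ℕ} (hp : ∀ j, (p j).Prime) (e : ℝ) : ContinuousOn (Fz p e) {z | ∀ j, ‖z j‖ = 1} := by
  unfold Fz
  refine Complex.continuous_ofReal.comp_continuousOn (continuousOn_finsetProd _ fun j _ => ?_)
  refine ContinuousOn.rpow_const ?_ fun z hz => Or.inl ?_
  · refine Continuous.continuousOn ?_
    exact (continuous_const.sub (continuous_const.mul (Complex.continuous_conj.comp (continuous_apply j)))).norm
  · refine (norm_pos_iff.mpr ?_).ne'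
    intro h
    have h1 : (((p j : ℝ) ^ (-(1 / 2 : ℝ)) : ℝ) : ℂ) * (starRingEnd ℂ) (z j) = 1 := (sub_eq_zero.mp h).symm
    have h2 := congrArg norm h1
    rw [norm_mul, RCLike.norm_conj, hz j, mul_one, Complex.norm_real, norm_one, Real.norm_of_nonneg (by positivity)] at h2
    have := rp_lt (hp j)
    linarith

lemma Fz_tau {m : ℕ} (p : Fin m → ℕ) (e : ℝ) (y : Fin m → ℝ) : Ep p e 0 (tau y) = Fz p e fun j => ee (y j) := by
  unfold Ep Fz
  simp_rw [f1_tau, add_zero]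

lemma Fz_box {m : ℕ} (p : Fin m → ℕ) (e : ℝ) (x : Fin m → ℝ) :
    Fz p e (fun j => ee (x j)) = ((∏ j, ‖1 - (((p j : ℝ) ^ (-(1 / 2 : ℝ)) : ℝ) : ℂ) * ee (x j)‖ ^ e : ℝ) : ℂ) := by
  rw [← Fz_tau, Ep_box]

lemma Lf_zero_one {p : ℕ} : Lf 0 0 p 0 0 = 1 := by
  unfold Lf
  rw [tsum_eq_single 0]
  · rw [lc_zero]; simp
  · intro j hj
    have h1 : lc 0 (0 + j) = 0 := by
      obtain ⟨i, rfl⟩ := Nat.exists_eq_succ_of_ne_zero hj
      unfold lc
      rw [zero_add]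
      exact prod_eq_zero (mem_range.mpr (Nat.succ_pos i)) (by simp)
    rw [h1]; simp

/-- the mean of a power over the circle of a prime -/
lemma W_mean {κ : ℝ} (hκ : 0 ≤ κ) {p : ℕ} (hp : p.Prime) :
    ∫ y in (0:ℝ)..1, ((Wp κ p y : ℝ) : ℂ) = ((Lf κ 0 p 0 0 : ℝ) : ℂ) := by
  rcases hκ.eq_or_lt with h | h
  · subst h
    rw [Lf_zero_one]
    unfold Wp
    simp
  · have h1 := Wp_coef h hp 0
    simpa using h1

/-- the moments of the zeta function and of the partial Euler products -/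
theorem euler_moment {s κ : ℝ} (hs : 0 < s) (haF : 0 ≤ aF s) (hκ : 0 ≤ κ) {m : ℕ} (p : Fin m → ℕ) (hp : ∀ j, (p j).Prime)
    (hinj : Function.Injective p) {δ : ℝ → ℝ} (hδ : Tendsto δ atTop (𝓝 0)) (hpos : ∀ᶠ T in atTop, 0 < δ T)
    (Z : ℝ → ℝ → ℝ) (D : ℝ → Set ℝ) (c : ℝ → ℝ)
    (hc : ∀ᶠ T in atTop, 0 ≤ c T) (hZ0 : ∀ T t, 0 ≤ Z T t) (hZi : ∀ᶠ T in atTop, IntegrableOn (Z T) (D T))
    (htw : ∀ a b : ℕ, a ≠ 0 → b ≠ 0 → a.Coprime b → Tendsto (fun T => (c T : ℂ) * ∫ t in D T, ((Z T t : ℝ) : ℂ) *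
      Complex.exp (((t * Real.log (a / b) : ℝ) : ℂ) * Complex.I)) atTop
      (𝓝 ((((a:ℝ) * b) ^ (-(1 / 2 : ℝ)) * (aF s * ∏ q ∈ (a * b).primeFactors,
            (Lf s 0 q (a.factorization q) (b.factorization q) / Lf s 0 q 0 0)) : ℝ) : ℂ))) :
    Tendsto (fun T => (c T : ℂ) * ∫ t in D T, ((Z T t : ℝ) : ℂ) *
      ((∏ j, ‖1 - ((p j : ℕ) : ℂ) ^ (-(1 / 2 + δ T + Complex.I * t))‖ ^ (2 * (s - κ)) : ℝ) : ℂ)) atTop
      (𝓝 ((aF s * ∏ j, (Lf κ 0 (p j) 0 0 / Lf s 0 (p j) 0 0) : ℝ) : ℂ)) := by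
  obtain ⟨e, he⟩ : ∃ e : ℝ, e = 2 * (s - κ) := ⟨_, rfl⟩
  have h1 := tilt_of_twist hs haF p hp hinj Z D c hc hZ0 hZi htw (Fz p e) (Fz_contOn hp e)
  have hmass : Tendsto (fun T => c T * ∫ t in D T, Z T t) atTop (𝓝 (Lgen s 1 1)) := by
    have h1 := twist_gen (s := s) Z D c htw one_ne_zero one_ne_zero
    simp only [Nat.cast_one, Complex.one_cpow, mul_one] at h1
    have h2 : Tendsto (fun T => ((c T * ∫ t in D T, Z T t : ℝ) : ℂ)) atTop (𝓝 ((Lgen s 1 1 : ℝ) : ℂ)) := by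
      refine h1.congr fun T => ?_
      rw [integral_complex_ofReal]
      push_cast; rfl
    exact (Complex.continuous_re.tendsto _).comp h2
  have h2 := limit_perturb (fun j => Real.log (p j) / (2 * Real.pi)) Z D c hc hZ0 hZi hmass (Ep p e 0) (fun T => Ep p e (δ T))
    (Ep_cont hp e (by norm_num)) (hpos.mono fun T hT => Ep_cont hp e (by linarith)) (Ep_unif hp e hδ)
    (by simp_rw [Fz_tau]; exact h1)
  have h3 : ∫ x in Set.Icc (0 : Fin m → ℝ) 1, ((aF s * ∏ j, (Wp s (p j) (x j) / Lf s 0 (p j) 0 0) : ℝ) : ℂ) * Fz p e (fun j => ee (x j)) =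
      ((aF s * ∏ j, (Lf κ 0 (p j) 0 0 / Lf s 0 (p j) 0 0) : ℝ) : ℂ) := by
    have h4 : ∀ x : Fin m → ℝ, ((aF s * ∏ j, (Wp s (p j) (x j) / Lf s 0 (p j) 0 0) : ℝ) : ℂ) * Fz p e (fun j => ee (x j)) =
        (aF s : ℂ) * ∏ j, ((Lf s 0 (p j) 0 0 : ℂ)⁻¹ * ((Wp κ (p j) (x j) : ℝ) : ℂ)) := by
      intro x
      rw [Fz_box]
      push_cast
      rw [mul_assoc, ← prod_mul_distrib]
      congr 1
      refine prod_congr rfl fun j _ => ?_
      have h5 : Wp s (p j) (x j) * ‖1 - (((p j : ℝ) ^ (-(1 / 2 : ℝ)) : ℝ) : ℂ) * ee (x j)‖ ^ e = Wp κ (p j) (x j) := by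
        have h6 := Wp_pos 1 (hp j) (x j)
        unfold Wp at h6 ⊢
        have h7 : 0 < ‖1 - (((p j : ℝ) ^ (-(1 / 2 : ℝ)) : ℝ) : ℂ) * ee (x j)‖ := by
          refine lt_of_le_of_ne (norm_nonneg _) fun h => ?_
          rw [← h, Real.zero_rpow (by norm_num)] at h6
          exact lt_irrefl _ h6
        rw [← Real.rpow_add h7, he]
        congr 1; ring
      have h8 := congrArg (fun y : ℝ => (y : ℂ)) h5
      push_cast at h8
      rw [← h8, div_eq_mul_inv]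
      push_cast
      ring
    simp_rw [h4]
    rw [integral_const_mul, pi_int fun j y => (Lf s 0 (p j) 0 0 : ℂ)⁻¹ * ((Wp κ (p j) y : ℝ) : ℂ)]
    push_cast
    congr 1
    refine prod_congr rfl fun j _ => ?_
    rw [intervalIntegral.integral_const_mul, W_mean hκ (hp j), div_eq_mul_inv]
    ring
  rw [h3] at h2
  simp_rw [Ep_tau hp, he] at h2
  exact h2

lemma osc {l : ℝ} (hl : l ≠ 0) : Tendsto (fun T : ℝ => ((1 / T : ℝ) : ℂ) * ∫ t in Set.Icc 0 T, Complex.exp (((t * l : ℝ) : ℂ) * Complex.I)) atTop (𝓝 0) := by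
  have hc : (l:ℂ) * Complex.I ≠ 0 := mul_ne_zero (by exact_mod_cast hl) Complex.I_ne_zero
  have hb : Tendsto (fun T : ℝ => 1 / T * (2 / |l|)) atTop (𝓝 0) := by
    have : Tendsto (fun T : ℝ => 1 / T) atTop (𝓝 0) := by simpa using tendsto_inv_atTop_zero (𝕜 := ℝ)
    simpa using this.mul_const (2 / |l|)
  refine squeeze_zero_norm' ?_ hb
  filter_upwards [eventually_gt_atTop 0] with T hT
  rw [norm_mul, Complex.norm_real, Real.norm_of_nonneg (by positivity), integral_Icc_eq_integral_Ioc, ← intervalIntegral.integral_of_le hT.le]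
  refine mul_le_mul_of_nonneg_left ?_ (by positivity)
  have e : ∀ t : ℝ, Complex.exp (((t * l : ℝ) : ℂ) * Complex.I) = Complex.exp ((l:ℂ) * Complex.I * t) := by
    intro t; congr 1; push_cast; ring
  simp_rw [e]
  rw [integral_exp_mul_complex hc, norm_div, norm_mul, Complex.norm_I, mul_one, Complex.norm_real, Real.norm_eq_abs]
  refine div_le_div_of_nonneg_right ?_ (abs_nonneg _)
  refine (norm_sub_le _ _).trans ?_
  have n1 : ∀ t : ℝ, ‖Complex.exp ((l:ℂ) * Complex.I * t)‖ = 1 := by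
    intro t
    rw [← e, Complex.norm_exp_ofReal_mul_I]
  rw [n1, n1]; norm_num

/-- the moments of the partial Euler products -/
theorem euler_mean {κ : ℝ} (hκ : 0 ≤ κ) {m : ℕ} (p : Fin m → ℕ) (hp : ∀ j, (p j).Prime)
    (hinj : Function.Injective p) {δ : ℝ → ℝ} (hδ : Tendsto δ atTop (𝓝 0)) (hpos : ∀ᶠ T in atTop, 0 < δ T) :
    Tendsto (fun T : ℝ => ((1 / T : ℝ) : ℂ) * ∫ t in Set.Icc 0 T,
      ((∏ j, ‖1 - ((p j : ℕ) : ℂ) ^ (-(1 / 2 + δ T + Complex.I * t))‖ ^ (-(2 * κ)) : ℝ) : ℂ)) atTop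
      (𝓝 ((∏ j, Lf κ 0 (p j) 0 0 : ℝ) : ℂ)) := by
  obtain ⟨e, he⟩ : ∃ e : ℝ, e = -(2 * κ) := ⟨_, rfl⟩
  have hc : ∀ᶠ T : ℝ in atTop, 0 ≤ 1 / T := by
    filter_upwards [eventually_gt_atTop 0] with T hT
    positivity
  have hZi : ∀ᶠ T : ℝ in atTop, IntegrableOn (fun _ : ℝ => (1:ℝ)) (Set.Icc 0 T) :=
    Eventually.of_forall fun T => continuous_const.continuousOn.integrableOn_compact isCompact_Icc
  have hone : Tendsto (fun T : ℝ => 1 / T * ∫ _t in Set.Icc 0 T, (1:ℝ)) atTop (𝓝 1) := by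
    refine tendsto_const_nhds.congr' ?_
    filter_upwards [eventually_gt_atTop 0] with T hT
    rw [setIntegral_const, smul_eq_mul, mul_one, Real.volume_real_Icc_of_le hT.le, sub_zero]
    field_simp
  have h1 : Tendsto (fun T : ℝ => ((1 / T : ℝ) : ℂ) * ∫ t in Set.Icc 0 T, (((1:ℝ) : ℝ) : ℂ) *
      Fz p e fun j => ee (t * (Real.log (p j) / (2 * Real.pi)))) atTop
      (𝓝 (∫ x in Set.Icc (0 : Fin m → ℝ) 1, (((1:ℝ) : ℝ) : ℂ) * Fz p e fun j => ee (x j))) := by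
    refine torus_limit _ (fun _ _ => 1) (fun T => Set.Icc 0 T) (fun T => 1 / T) hc (fun _ _ => zero_le_one) hZi (fun _ => 1)
      (fun _ => zero_le_one) (continuous_const.continuousOn.integrableOn_compact isCompact_Icc) (fun v => ?_) (Fz p e) (Fz_contOn hp e)
    have hR : ∫ x in Set.Icc (0 : Fin m → ℝ) 1, (((1:ℝ) : ℝ) : ℂ) * ∏ j, ee (x j) ^ v j = if v = 0 then 1 else 0 := by
      simp only [Complex.ofReal_one, one_mul]
      rw [pi_int fun j y => ee y ^ v j]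
      simp_rw [int_ee]
      split_ifs with h
      · rw [h]; simp
      · obtain ⟨j, hj⟩ := Function.ne_iff.mp h
        exact prod_eq_zero (mem_univ j) (if_neg hj)
    rw [hR]
    have e1 : ∀ t : ℝ, ∏ j, ee (t * (Real.log (p j) / (2 * Real.pi))) ^ v j =
        Complex.exp (((t * ∑ j, (v j : ℝ) * Real.log (p j) : ℝ) : ℂ) * Complex.I) := by
      intro t
      have hpi : (Real.pi : ℂ) ≠ 0 := by exact_mod_cast Real.pi_ne_zero
      have e3 : ∀ j, ee (t * (Real.log (p j) / (2 * Real.pi))) ^ v j = Complex.exp (((t * ((v j : ℝ) * Real.log (p j)) : ℝ) : ℂ) * Complex.I) := by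
        intro j
        rw [ee_zpow]
        congr 1
        push_cast
        field_simp
      rw [prod_congr rfl fun j _ => e3 j, ← Complex.exp_sum]
      congr 1
      rw [← sum_mul]
      congr 1
      push_cast
      rw [mul_sum]
    simp_rw [e1]
    split_ifs with h
    · have h2 : ∑ j, (v j : ℝ) * Real.log (p j) = 0 := by rw [h]; simp
      simp_rw [h2]
      simp only [mul_zero, Complex.ofReal_zero, zero_mul, Complex.exp_zero, mul_one]
      have h3 : Tendsto (fun T : ℝ => (((1 / T * ∫ _t in Set.Icc 0 T, (1:ℝ)) : ℝ) : ℂ)) atTop (𝓝 ((1:ℝ) : ℂ)) :=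
        (Complex.continuous_ofReal.tendsto _).comp hone
      rw [Complex.ofReal_one] at h3
      refine h3.congr fun T => ?_
      rw [integral_complex_ofReal]
      push_cast; rfl
    · have h2 : ∑ j, (v j : ℝ) * Real.log (p j) ≠ 0 := by
        intro h0
        apply h
        obtain ⟨a, ha⟩ : ∃ a : Fin m → ℕ, ∀ j, a j = (v j).toNat := ⟨_, fun _ => rfl⟩
        obtain ⟨b, hb⟩ : ∃ b : Fin m → ℕ, ∀ j, b j = (-v j).toNat := ⟨_, fun _ => rfl⟩
        have hp0 : ∀ j, (0:ℝ) < p j := fun j => by exact_mod_cast (hp j).pos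
        have hA : (0:ℝ) < ∏ j, (p j : ℝ) ^ a j := prod_pos fun j _ => pow_pos (hp0 j) _
        have hB : (0:ℝ) < ∏ j, (p j : ℝ) ^ b j := prod_pos fun j _ => pow_pos (hp0 j) _
        have h3 : Real.log (∏ j, (p j : ℝ) ^ a j) = Real.log (∏ j, (p j : ℝ) ^ b j) := by
          rw [← sub_eq_zero, ← h0, Real.log_prod fun j _ => (pow_pos (hp0 j) _).ne',
            Real.log_prod fun j _ => (pow_pos (hp0 j) _).ne', ← sum_sub_distrib]
          refine sum_congr rfl fun j _ => ?_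
          rw [Real.log_pow, Real.log_pow, ← sub_mul]
          congr 1
          have : (v j : ℤ) = (a j : ℤ) - (b j : ℤ) := by rw [ha, hb]; omega
          rw [this]; push_cast; rfl
        have h4 : ∏ j, p j ^ a j = ∏ j, p j ^ b j := by
          have := Real.log_injOn_pos (Set.mem_Ioi.mpr hA) (Set.mem_Ioi.mpr hB) h3
          exact_mod_cast this
        funext j
        have h5 := congrArg (fun n : ℕ => n.factorization (p j)) h4
        simp only [pp_fact p hp hinj] at h5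
        rw [ha, hb] at h5
        simp only [Pi.zero_apply]
        omega
      simpa using osc h2
  have hmass : Tendsto (fun T : ℝ => 1 / T * ∫ _t in Set.Icc 0 T, (1:ℝ)) atTop (𝓝 1) := hone
  have h2 := limit_perturb (fun j => Real.log (p j) / (2 * Real.pi)) (fun _ _ => 1) (fun T => Set.Icc 0 T) (fun T => 1 / T) hc
    (fun _ _ => zero_le_one) hZi hmass (Ep p e 0) (fun T => Ep p e (δ T))
    (Ep_cont hp e (by norm_num)) (hpos.mono fun T hT => Ep_cont hp e (by linarith)) (Ep_unif hp e hδ)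
    (by simp_rw [Fz_tau]; exact h1)
  have h3 : ∫ x in Set.Icc (0 : Fin m → ℝ) 1, (((1:ℝ) : ℝ) : ℂ) * Fz p e (fun j => ee (x j)) =
      ((∏ j, Lf κ 0 (p j) 0 0 : ℝ) : ℂ) := by
    have h4 : ∀ x : Fin m → ℝ, (((1:ℝ) : ℝ) : ℂ) * Fz p e (fun j => ee (x j)) = ∏ j, ((Wp κ (p j) (x j) : ℝ) : ℂ) := by
      intro x
      rw [Fz_box, Complex.ofReal_one, one_mul, he]
      push_cast
      rfl
    simp_rw [h4]
    rw [pi_int fun j y => ((Wp κ (p j) y : ℝ) : ℂ)]
    push_cast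
    exact prod_congr rfl fun j _ => W_mean hκ (hp j)
  rw [h3] at h2
  simp_rw [Ep_tau hp, he] at h2
  simpa using h2

end Pool.Agent.X110.NA
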