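import Mathlib
import Pool.Agent.X110.ZB

set_option autoImplicit false

/-!
The corner lemma.
-/

namespace Pool.Agent.X110.ZB

open Complex Metric Set Filter Topology

/-- the phase function: `|exp (m·ψ(z))| = exp(m λ (1 + 2θ/π))`, `λ = log(|z|/a)`, `θ = arg z`. -/
noncomputable def psi (a : ℝ) (z : ℂ) : ℂ :=
  (Complex.log z - (Real.log a : ℂ)) - (((1 / Real.pi : ℝ) : ℂ) * I) *
    (Complex.log z - (Real.log a : ℂ)) ^ 2

lemma psi_re (a : ℝ) (z : ℂ) : (psi a z).re =
    (Real.log ‖z‖ - Real.log a) * (1 + 2 * arg z / Real.pi) := by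
  unfold psi
  set w := Complex.log z - (Real.log a : ℂ) with hw
  have h1 : w.re = Real.log ‖z‖ - Real.log a := by
    rw [hw, sub_re, log_re, ofReal_re]
  have h2 : w.im = arg z := by
    rw [hw, sub_im, log_im, ofReal_im, sub_zero]
  rw [sub_re, mul_assoc, re_ofReal_mul, I_mul_re, pow_two, mul_im, ← h1, ← h2]
  ring

lemma arg_range {z : ℂ} (h1 : 0 ≤ z.re) (h2 : z.im ≤ 0) :
    0 ≤ 1 + 2 * arg z / Real.pi ∧ 1 + 2 * arg z / Real.pi ≤ 1 := by
  have hpi := Real.pi_pos
  have h3 : -(Real.pi / 2) ≤ arg z := neg_pi_div_two_le_arg_iff.2 (Or.inl h1)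
  have h4 : arg z ≤ 0 := by
    rcases lt_or_eq_of_le h2 with h | h
    · exact (arg_neg_iff.2 h).le
    · exact (arg_eq_zero_iff.2 ⟨h1, h⟩).le
  constructor
  · have : -1 ≤ 2 * arg z / Real.pi := by
      rw [le_div_iff₀ hpi]
      linarith
    linarith
  · have : 2 * arg z / Real.pi ≤ 0 := by
      apply div_nonpos_of_nonpos_of_nonneg _ hpi.le
      linarith
    linarith

lemma neg_mul_log_le {y : ℝ} (hy : 0 < y) : -(y * Real.log y) ≤ Real.exp (-1) := by
  have h1 := Real.log_le_sub_one_of_pos (x := Real.exp (-1) / y) (by positivity)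
  rw [Real.log_div (by positivity) hy.ne', Real.log_exp] at h1
  have h2 : -Real.log y ≤ Real.exp (-1) / y := by linarith
  rw [le_div_iff₀ hy] at h2
  linarith

/-- on the vertical side `re z = a` the phase is at most `1/e`. -/
lemma psi_right {a : ℝ} (ha : 0 < a) {z : ℂ} (h1 : z.re = a) (h2 : z.im ≤ 0) :
    (psi a z).re ≤ Real.exp (-1) := by
  rw [psi_re]
  have hz : z ≠ 0 := by
    rintro rfl
    simp at h1
    linarith
  have hnz : 0 < ‖z‖ := norm_pos_iff.2 hz
  obtain ⟨h3, h4⟩ := arg_range (z := z) (by linarith) h2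
  set y := 1 + 2 * arg z / Real.pi with hy
  have hcos : Real.cos (arg z) = a / ‖z‖ := by
    rw [cos_arg hz, h1]
  have hpi := Real.pi_pos
  have harg : arg z = Real.pi / 2 * (y - 1) := by
    rw [hy]; field_simp; ring
  have hsin : y ≤ Real.cos (arg z) := by
    have h5 := Real.mul_le_sin (x := Real.pi / 2 * y) (by positivity) (by nlinarith)
    have h6 : Real.cos (arg z) = Real.sin (Real.pi / 2 * y) := by
      rw [harg, ← Real.cos_pi_div_two_sub, ← Real.cos_neg]
      congr 1
      ring
    rw [h6]
    refine le_trans (le_of_eq ?_) h5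
    field_simp
  have hlog : Real.log ‖z‖ - Real.log a = -Real.log (Real.cos (arg z)) := by
    rw [hcos, Real.log_div ha.ne' hnz.ne']
    ring
  rw [hlog]
  rcases lt_or_eq_of_le h3 with h | h
  · have h7 : Real.log y ≤ Real.log (Real.cos (arg z)) := Real.log_le_log h hsin
    have h8 := neg_mul_log_le h
    nlinarith
  · rw [← h, mul_zero]
    exact (Real.exp_pos _).le

lemma corner {F : ℂ → ℂ} {a α ε H M C0 P m : ℝ} (ha : 0 < a) (haH : a < H) (hα : 0 ≤ α)
    (hε : 0 ≤ ε) (hm : 0 ≤ m) (hM0 : 0 ≤ M) (hP0 : 0 ≤ P)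
    (hF : ∀ z : ℂ, 0 ≤ z.re → z.re ≤ a → -H ≤ z.im → z.im ≤ 0 → DifferentiableAt ℂ F z)
    (hM : ∀ z : ℂ, z.re = 0 → -H ≤ z.im → z.im ≤ 0 → ‖F z‖ ≤ M)
    (hC : ∀ z : ℂ, 0 < z.re → z.re ≤ a → -H ≤ z.im → z.im ≤ 0 → ‖F z‖ ≤ C0 * z.re ^ (-m))
    (hP : ∀ z : ℂ, 0 ≤ z.re → z.re ≤ a → z.im = -H → ‖F z‖ ≤ P)
    (h1 : C0 * a ^ (-m) * Real.exp (Real.exp (-1) * m + α * m * a) ≤ M)
    (h2 : P * ((H + a) / a) ^ m * Real.exp (α * m * a - ε * H) ≤ M) {x : ℝ} (hx0 : 0 ≤ x)
    (hxa : x ≤ a) :
    ‖F (x - a * I)‖ ≤ M * Real.exp (ε * a) * Real.exp (-(α * m * x)) := by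
  have hamp : 0 < a ^ (-m) := Real.rpow_pos_of_pos ha _
  have hC0 : 0 ≤ C0 := by
    have h3 := hC a (by simpa using ha) (by simp) (by simp; linarith) (by simp)
    simp only [ofReal_re] at h3
    have h4 := (norm_nonneg _).trans h3
    by_contra h5
    push Not at h5
    nlinarith
  have hexp1 : 1 ≤ Real.exp (ε * a) := Real.one_le_exp (by positivity)
  set z0 : ℂ := x - a * I with hz0
  have hz0re : z0.re = x := by simp [hz0]
  have hz0im : z0.im = -a := by simp [hz0]
  rcases eq_or_lt_of_le hx0 with hx | hx
  · rw [← hx, mul_zero, neg_zero, Real.exp_zero, mul_one]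
    refine (hM z0 (by rw [hz0re, ← hx]) (by rw [hz0im]; linarith) (by rw [hz0im]; linarith)).trans ?_
    nlinarith
  rcases eq_or_lt_of_le hxa with hx' | hx'
  · have h3 := hC z0 (by rw [hz0re]; exact hx) (by rw [hz0re]; exact hxa)
      (by rw [hz0im]; linarith) (by rw [hz0im]; linarith)
    rw [hz0re, hx'] at h3
    rw [hx']
    have h4 : C0 * a ^ (-m) ≤ M * Real.exp (-(α * m * a)) := by
      rw [Real.exp_add, ← mul_assoc] at h1
      rw [Real.exp_neg, ← div_eq_mul_inv, le_div_iff₀ (Real.exp_pos _)]
      refine le_trans ?_ h1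
      have h5 : 1 ≤ Real.exp (Real.exp (-1) * m) := Real.one_le_exp (by positivity)
      have h6 : 0 ≤ C0 * a ^ (-m) := by positivity
      have h7 : C0 * a ^ (-m) ≤ C0 * a ^ (-m) * Real.exp (Real.exp (-1) * m) :=
        le_mul_of_one_le_right h6 h5
      exact mul_le_mul_of_nonneg_right h7 (Real.exp_pos _).le
    refine h3.trans (h4.trans ?_)
    have h8 : M ≤ M * Real.exp (ε * a) := le_mul_of_one_le_right hM0 hexp1
    exact mul_le_mul_of_nonneg_right h8 (Real.exp_pos _).le
  -- the main case
  have hkey : ∀ M' : ℝ, M < M' →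
      ‖F z0‖ * Real.exp (α * m * x) * Real.exp (-(ε * a)) ≤ M' := by
    intro M' hM'
    -- small radius
    obtain ⟨ρ, hρ0, hρa, hρ⟩ : ∃ ρ : ℝ, 0 < ρ ∧ ρ < a ∧ ∀ z : ℂ, ‖z‖ ≤ ρ →
        ‖F z‖ * Real.exp (α * m * z.re) ≤ M' := by
      have hc : ContinuousAt F 0 := (hF 0 (by simp) (by simpa using ha.le)
        (by simp; linarith) (by simp)).continuousAt
      have hc2 : ContinuousAt (fun z : ℂ => Real.exp (α * m * z.re)) 0 := by
        apply Continuous.continuousAt
        fun_prop
      have h3 : ‖F 0‖ * Real.exp (α * m * (0 : ℂ).re) < M' := by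
        rw [zero_re, mul_zero, Real.exp_zero, mul_one]
        exact lt_of_le_of_lt (hM 0 (by simp) (by simp; linarith) (by simp)) hM'
      have h4 := (hc.norm.mul hc2).eventually_lt continuousAt_const h3
      obtain ⟨ρ1, hρ1, hρ1'⟩ := Metric.eventually_nhds_iff.1 h4
      refine ⟨min (ρ1 / 2) (a / 2), by positivity, ?_, fun z hz => ?_⟩
      · exact lt_of_le_of_lt (min_le_right _ _) (by linarith)
      · apply (hρ1' _).le
        rw [dist_zero_right]
        exact lt_of_le_of_lt (hz.trans (min_le_left _ _)) (by linarith)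
    have hM'0 : 0 ≤ M' := hM0.trans hM'.le
    set U : Set ℂ := {z : ℂ | 0 < z.re ∧ z.re < a ∧ -H < z.im ∧ z.im < 0 ∧ ρ < ‖z‖} with hU
    set K : Set ℂ := {z : ℂ | 0 ≤ z.re ∧ z.re ≤ a ∧ -H ≤ z.im ∧ z.im ≤ 0 ∧ ρ ≤ ‖z‖} with hK
    have hUopen : IsOpen U := by
      refine (isOpen_lt continuous_const continuous_re).inter
        ((isOpen_lt continuous_re continuous_const).inter
        ((isOpen_lt continuous_const continuous_im).inter
        ((isOpen_lt continuous_im continuous_const).inter
        (isOpen_lt continuous_const continuous_norm))))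
    have hKclosed : IsClosed K := by
      refine (isClosed_le continuous_const continuous_re).inter
        ((isClosed_le continuous_re continuous_const).inter
        ((isClosed_le continuous_const continuous_im).inter
        ((isClosed_le continuous_im continuous_const).inter
        (isClosed_le continuous_const continuous_norm))))
    have hUK : U ⊆ K := fun z hz => ⟨hz.1.le, hz.2.1.le, hz.2.2.1.le, hz.2.2.2.1.le, hz.2.2.2.2.le⟩
    have hclUK : closure U ⊆ K := closure_minimal hUK hKclosed
    have hbdd : Bornology.IsBounded U := by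
      rw [isBounded_iff_forall_norm_le]
      refine ⟨a + H, fun z hz => ?_⟩
      obtain ⟨h3, h4, h5, h6, _⟩ := hz
      refine (Complex.norm_le_abs_re_add_abs_im z).trans ?_
      rw [abs_of_pos h3, abs_of_neg h6]
      linarith
    set G : ℂ → ℂ := fun z => F z * exp ((m : ℂ) * psi a z + ((α * m : ℝ) : ℂ) * z -
      ((ε : ℝ) : ℂ) * (I * z)) with hG
    have hGn : ∀ z, ‖G z‖ = ‖F z‖ * Real.exp (m * (psi a z).re + α * m * z.re + ε * z.im) := by
      intro z
      simp only [hG]
      rw [norm_mul, Complex.norm_exp]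
      congr 2
      rw [sub_re, add_re, re_ofReal_mul, re_ofReal_mul, re_ofReal_mul, I_mul_re]
      ring
    have hd : DiffContOnCl ℂ G U := by
      apply DifferentiableOn.diffContOnCl
      intro z hz
      obtain ⟨h3, h4, h5, h6, h7⟩ := hclUK hz
      have h8 := hF z h3 h4 h5 h6
      have hslit : z ∈ slitPlane := by
        rw [mem_slitPlane_iff]
        rcases lt_or_eq_of_le h3 with h | h
        · exact Or.inl h
        · right
          intro h9
          have : z = 0 := Complex.ext h.symm h9
          rw [this, norm_zero] at h7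
          linarith
      have h9 : DifferentiableAt ℂ (psi a) z := by
        unfold psi
        have := differentiableAt_id.clog hslit
        simp only [id] at this
        fun_prop
      have h10 : DifferentiableAt ℂ (fun z : ℂ => exp ((m : ℂ) * psi a z +
          ((α * m : ℝ) : ℂ) * z - ((ε : ℝ) : ℂ) * (I * z))) z := by
        fun_prop
      exact (h8.mul h10).differentiableWithinAt
    have hfr : ∀ z ∈ frontier U, ‖G z‖ ≤ M' := by
      intro z hz
      rw [hUopen.frontier_eq] at hz
      obtain ⟨hzcl, hznot⟩ := hz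
      obtain ⟨h3, h4, h5, h6, h7⟩ := hclUK hzcl
      have hzn : 0 < ‖z‖ := lt_of_lt_of_le hρ0 h7
      have hz0' : z ≠ 0 := norm_pos_iff.1 hzn
      obtain ⟨h8, h9⟩ := arg_range h3 h6
      have hεim : ε * z.im ≤ 0 := mul_nonpos_of_nonneg_of_nonpos hε h6
      have hαre : α * m * z.re ≤ α * m * a := mul_le_mul_of_nonneg_left h4 (by positivity)
      rw [hGn]
      -- the cases
      by_cases c1 : z.re = 0
      · -- left side
        have him : z.im < 0 := by
          rcases lt_or_eq_of_le h6 with h | h
          · exact h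
          · exact absurd (Complex.ext c1 h) hz0'
        have harg : arg z = -(Real.pi / 2) := arg_eq_neg_pi_div_two_iff.2 ⟨c1, him⟩
        have hpsi : (psi a z).re = 0 := by
          rw [psi_re, harg]
          have : 1 + 2 * -(Real.pi / 2) / Real.pi = 0 := by
            have := Real.pi_pos.ne'
            field_simp
            ring
          rw [this, mul_zero]
        rw [hpsi, c1]
        refine le_trans ?_ hM'.le
        calc ‖F z‖ * Real.exp (m * 0 + α * m * 0 + ε * z.im) ≤ M * 1 := by
              apply mul_le_mul (hM z c1 h5 h6) _ (Real.exp_pos _).le hM0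
              rw [Real.exp_le_one_iff]
              linarith
          _ = M := mul_one _
      have hre : 0 < z.re := lt_of_le_of_ne h3 (Ne.symm c1)
      by_cases c2 : z.re = a
      · -- right side
        have h10 := psi_right ha c2 h6
        have h11 := hC z hre h4 h5 h6
        rw [c2] at h11 ⊢
        refine le_trans ?_ hM'.le
        refine le_trans (mul_le_mul h11 (Real.exp_le_exp.2 ?_) (Real.exp_pos _).le
          (by positivity)) h1
        nlinarith
      by_cases c3 : z.im = -H
      · -- bottom side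
        refine le_trans ?_ hM'.le
        refine le_trans ?_ h2
        rw [mul_assoc P]
        refine mul_le_mul (hP z h3 h4 c3) ?_ (Real.exp_pos _).le hP0
        have hHa : 1 ≤ (H + a) / a := by
          rw [le_div_iff₀ ha]; linarith
        have h10 : (psi a z).re ≤ Real.log ((H + a) / a) := by
          rw [psi_re, ← Real.log_div hzn.ne' ha.ne']
          have h11 : ‖z‖ ≤ H + a := by
            refine (Complex.norm_le_abs_re_add_abs_im z).trans ?_
            rw [abs_of_pos hre, c3, abs_neg, abs_of_pos (by linarith)]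
            linarith
          have h12 : Real.log (‖z‖ / a) ≤ Real.log ((H + a) / a) := by
            apply Real.log_le_log (by positivity)
            gcongr
          have h13 : 0 ≤ Real.log ((H + a) / a) := Real.log_nonneg hHa
          nlinarith
        have h14 : ((H + a) / a) ^ m = Real.exp (m * Real.log ((H + a) / a)) := by
          rw [Real.rpow_def_of_pos (by linarith), mul_comm]
        rw [h14, ← Real.exp_add]
        apply Real.exp_le_exp.2
        rw [c3]
        have := mul_le_mul_of_nonneg_left h10 hm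
        linarith
      by_cases c4 : z.im = 0
      · -- top side
        have harg : arg z = 0 := arg_eq_zero_iff.2 ⟨h3, c4⟩
        have hnorm : ‖z‖ = z.re := by
          have : z = (z.re : ℂ) := Complex.ext (by simp) (by simpa using c4)
          rw [this, Complex.norm_real, Real.norm_of_nonneg]
          · simp
          · simpa using h3
        have hpsi : (psi a z).re = Real.log z.re - Real.log a := by
          rw [psi_re, harg, hnorm]
          ring
        rw [hpsi, c4]
        refine le_trans ?_ hM'.le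
        refine le_trans ?_ h1
        have h10 : Real.exp (m * (Real.log z.re - Real.log a) + α * m * z.re + ε * 0) =
            z.re ^ m * a ^ (-m) * Real.exp (α * m * z.re) := by
          rw [Real.rpow_def_of_pos hre, Real.rpow_def_of_pos ha, ← Real.exp_add, ← Real.exp_add]
          congr 1
          ring
        rw [h10]
        have h11 := hC z hre h4 h5 h6
        have h12 : z.re ^ (-m) * z.re ^ m = 1 := by
          rw [← Real.rpow_add hre]
          simp
        calc ‖F z‖ * (z.re ^ m * a ^ (-m) * Real.exp (α * m * z.re)) ≤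
            (C0 * z.re ^ (-m)) * (z.re ^ m * a ^ (-m) * Real.exp (α * m * z.re)) := by
              gcongr
          _ = C0 * a ^ (-m) * (z.re ^ (-m) * z.re ^ m) * Real.exp (α * m * z.re) := by ring
          _ = C0 * a ^ (-m) * Real.exp (α * m * z.re) := by rw [h12, mul_one]
          _ ≤ _ := by
            apply mul_le_mul_of_nonneg_left _ (by positivity)
            apply Real.exp_le_exp.2
            have : 0 ≤ Real.exp (-1) * m := by positivity
            linarith
      -- the small arc
      have hnorm : ‖z‖ = ρ := by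
        by_contra c5
        apply hznot
        exact ⟨hre, lt_of_le_of_ne h4 c2, lt_of_le_of_ne h5 (Ne.symm c3), lt_of_le_of_ne h6 c4,
          lt_of_le_of_ne h7 (Ne.symm c5)⟩
      have h10 : (psi a z).re ≤ 0 := by
        rw [psi_re, hnorm]
        have : Real.log ρ ≤ Real.log a := Real.log_le_log hρ0 hρa.le
        nlinarith
      refine le_trans ?_ (hρ z hnorm.le)
      apply mul_le_mul_of_nonneg_left _ (norm_nonneg _)
      apply Real.exp_le_exp.2
      nlinarith
    have hz0U : z0 ∈ U := by
      refine ⟨by rw [hz0re]; exact hx, by rw [hz0re]; exact hx', by rw [hz0im]; linarith,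
        by rw [hz0im]; linarith, ?_⟩
      have h3 := abs_im_le_norm z0
      rw [hz0im, abs_neg, abs_of_pos ha] at h3
      linarith
    have hfin := norm_le_of_forall_mem_frontier_norm_le hbdd hd hfr (subset_closure hz0U)
    rw [hGn, hz0re, hz0im] at hfin
    refine le_trans ?_ hfin
    rw [mul_assoc, ← Real.exp_add]
    apply mul_le_mul_of_nonneg_left _ (norm_nonneg _)
    apply Real.exp_le_exp.2
    have h10 : 0 ≤ (psi a z0).re := by
      rw [psi_re]
      have h3 := abs_im_le_norm z0
      rw [hz0im, abs_neg, abs_of_pos ha] at h3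
      have h4 : Real.log a ≤ Real.log ‖z0‖ := Real.log_le_log ha h3
      obtain ⟨h5, _⟩ := arg_range (z := z0) (by rw [hz0re]; exact hx0) (by rw [hz0im]; linarith)
      have : 0 ≤ Real.log ‖z0‖ - Real.log a := by linarith
      positivity
    nlinarith
  have hfin := le_of_forall_gt_imp_ge_of_dense hkey
  rw [Real.exp_neg (ε * a)] at hfin
  rw [Real.exp_neg (α * m * x)]
  have e1 := Real.exp_pos (α * m * x)
  have e2 := Real.exp_pos (ε * a)
  calc ‖F z0‖ = (‖F z0‖ * Real.exp (α * m * x) * (Real.exp (ε * a))⁻¹) * Real.exp (ε * a) *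
        (Real.exp (α * m * x))⁻¹ := by field_simp
    _ ≤ M * Real.exp (ε * a) * (Real.exp (α * m * x))⁻¹ := by gcongr

end Pool.Agent.X110.ZB
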