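import Mathlib
import Pool.Agent.X110.ZD
import Pool.Agent.X110.ZF

set_option autoImplicit false

/-!
Key inequality for the maxima on the line `Re s = 1`.
-/

namespace Pool.Agent.X110.ZB

open Complex Metric Set Filter Topology
open scoped ComplexConjugate

lemma Z_conj (j : ℕ) (s : ℂ) : Z j (conj s) = conj (Z j s) := by
  induction j generalizing s with
  | zero =>
    simp only [Z, iteratedDeriv_zero]
    exact riemannZeta_conj s
  | succ j ih =>
    rw [← deriv_Z, ← deriv_Z]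
    have h : Z j = conj ∘ Z j ∘ conj := by
      funext z
      simp only [Function.comp]
      rw [ih, conj_conj]
    conv_lhs => rw [h]
    rw [deriv_conj_conj]
    simp

lemma Z_line_neg (j : ℕ) (t : ℝ) : ‖Z j (1 + ((-t : ℝ) : ℂ) * I)‖ = ‖Z j (1 + t * I)‖ := by
  have e : (1 + ((-t : ℝ) : ℂ) * I) = conj (1 + t * I) := by
    simp only [map_add, map_one, map_mul, conj_ofReal, conj_I, ofReal_neg]
    ring
  rw [e, Z_conj, norm_conj]

/-- `A_j(1+x) ≤ e (j+2) j! x^{-(j+1)}` for `0 < x ≤ 1`. -/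
lemma A_bound {j : ℕ} (hj : 1 ≤ j) {x : ℝ} (hx : 0 < x) (hx1 : x ≤ 1) :
    A j (1 + x) ≤ (Real.exp 1 * (j + 2) * j.factorial) * x ^ (-((j : ℝ) + 1)) := by
  have hj0 : (0 : ℝ) < j := by exact_mod_cast hj
  set y : ℝ := x * j / (j + 1) with hy
  have hy0 : 0 < y := by positivity
  have hxy : 1 + x - y - 1 = x / (j + 1) := by
    rw [hy]; field_simp; ring
  have hpos : 0 < x / (j + 1) := by positivity
  have h1 := A_le j (x := 1 + x) hy0 (by linarith)
  rw [hxy] at h1
  have h2 : y ^ j * (1 + 1 / (j : ℝ)) ^ j = x ^ j := by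
    rw [← mul_pow, hy]
    congr 1
    field_simp
  have h3 : (1 + 1 / (j : ℝ)) ^ j ≤ Real.exp 1 := by
    have h4 := Real.add_one_le_exp (1 / (j : ℝ))
    calc (1 + 1 / (j : ℝ)) ^ j ≤ (Real.exp (1 / (j : ℝ))) ^ j := by
          gcongr
          linarith
      _ = Real.exp 1 := by
          rw [← Real.exp_nat_mul]
          congr 1
          field_simp
  have h5 : 1 / y ^ j ≤ Real.exp 1 / x ^ j := by
    rw [div_le_div_iff₀ (by positivity) (by positivity), ← h2, one_mul, mul_comm]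
    gcongr
  have h6 : 1 + 1 / (x / (j + 1)) ≤ (j + 2) / x := by
    rw [one_div_div, le_div_iff₀ hx, add_mul, div_mul_cancel₀ _ hx.ne']
    linarith
  calc A j (1 + x) ≤ j.factorial / y ^ j * (1 + 1 / (x / (j + 1))) := h1
    _ = j.factorial * (1 / y ^ j) * (1 + 1 / (x / (j + 1))) := by ring
    _ ≤ j.factorial * (Real.exp 1 / x ^ j) * ((j + 2) / x) := by gcongr
    _ = _ := by
      rw [Real.rpow_neg hx.le, Real.rpow_add hx, Real.rpow_natCast, Real.rpow_one]
      field_simp

lemma key {l : ℕ} {T M a α ε t0 P C0 : ℝ} (hT : 4 ≤ T) (ha : 0 < a) (ha1 : a ≤ 1)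
    (hα : 0 < α) (hε : 0 ≤ ε) (hM0 : 0 ≤ M) (hP0 : 0 ≤ P)
    (hM : ∀ t ∈ Icc T (2 * T), ‖Z (l + 1) (1 + t * I)‖ ≤ M) (ht0 : t0 ∈ Icc T (2 * T))
    (hP : ∀ z : ℂ, 1 ≤ z.re → z.re ≤ 3 → T / 2 ≤ |z.im| → |z.im| ≤ 3 * T →
      ‖Z (l + 1) z‖ ≤ P)
    (hC : ∀ x : ℝ, 0 < x → x ≤ a → A (l + 1) (1 + x) ≤ C0 * x ^ (-((l : ℝ) + 2)))
    (h1 : C0 * a ^ (-((l : ℝ) + 2)) *
      Real.exp (Real.exp (-1) * ((l : ℝ) + 2) + α * ((l : ℝ) + 2) * a) ≤ M)
    (h2 : P * ((T / 2 + a) / a) ^ ((l : ℝ) + 2) *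
      Real.exp (α * ((l : ℝ) + 2) * a - ε * (T / 2)) ≤ M) :
    ‖Z l (1 + t0 * I)‖ ≤ a * M + M * Real.exp (ε * a) * min a (1 / (α * ((l : ℝ) + 2))) +
      A l (1 + a) := by
  set m : ℝ := (l : ℝ) + 2 with hm
  have hm0 : 0 < m := by positivity
  have hMn : ∀ t : ℝ, T ≤ |t| → |t| ≤ 2 * T → ‖Z (l + 1) (1 + t * I)‖ ≤ M := by
    intro t h3 h4
    rcases le_total 0 t with h | h
    · rw [abs_of_nonneg h] at h3 h4
      exact hM t ⟨h3, h4⟩
    · rw [abs_of_nonpos h] at h3 h4
      rw [← Z_line_neg]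
      exact hM (-t) ⟨h3, h4⟩
  obtain ⟨b, hb1, hb2⟩ : ∃ b : ℝ, ‖Z l (1 + b * I)‖ = ‖Z l (1 + t0 * I)‖ ∧
      ∀ y : ℝ, -(T / 2) ≤ y → y ≤ 0 → T ≤ |b + y| ∧ |b + y| ≤ 2 * T := by
    rcases le_total t0 (3 * T / 2) with h | h
    · refine ⟨-t0, Z_line_neg l t0, fun y h3 h4 => ?_⟩
      rw [abs_of_neg (by linarith [ht0.1])]
      constructor <;> linarith [ht0.1]
    · refine ⟨t0, rfl, fun y h3 h4 => ?_⟩
      rw [abs_of_pos (by linarith)]
      constructor <;> linarith [ht0.2]
  rw [← hb1]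
  set F : ℂ → ℂ := fun z => Z (l + 1) (1 + b * I + z) with hF
  have hre : ∀ z : ℂ, (1 + b * I + z).re = 1 + z.re := by intro z; simp
  have him : ∀ z : ℂ, (1 + b * I + z).im = b + z.im := by intro z; simp
  have hcor : ∀ x : ℝ, 0 ≤ x → x ≤ a →
      ‖F (x - a * I)‖ ≤ M * Real.exp (ε * a) * Real.exp (-(α * m * x)) := by
    intro x hx0 hxa
    refine corner (F := F) (a := a) (α := α) (ε := ε) (H := T / 2) (M := M) (C0 := C0) (P := P)
      (m := m) ha (by linarith) hα.le hε hm0.le hM0 hP0 ?_ ?_ ?_ ?_ h1 h2 hx0 hxa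
    · intro z h3 h4 h5 h6
      have h7 := (hb2 z.im h5 h6).1
      have h8 : DifferentiableAt ℂ (Z (l + 1)) (1 + b * I + z) := by
        apply Z_diffAt
        apply ne_one_of_im
        rw [him]
        linarith
      have h9 : DifferentiableAt ℂ (fun z : ℂ => 1 + b * I + z) z := by fun_prop
      exact h8.comp z h9
    · intro z h3 h4 h5
      obtain ⟨h6, h7⟩ := hb2 z.im h4 h5
      have e : 1 + b * I + z = 1 + ((b + z.im : ℝ) : ℂ) * I := by
        apply Complex.ext
        · rw [hre, h3]; simp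
        · rw [him]; simp
      simp only [hF]
      rw [e]
      exact hMn _ h6 h7
    · intro z h3 h4 _ _
      have h5 := Z_norm_le_A (l + 1) (s := 1 + b * I + z) (by rw [hre]; linarith)
      rw [hre] at h5
      exact h5.trans (hC _ h3 h4)
    · intro z h3 h4 h5
      obtain ⟨h6, h7⟩ := hb2 z.im h5.ge (by rw [h5]; linarith)
      apply hP
      · rw [hre]; linarith
      · rw [hre]; linarith
      · rw [him]; linarith
      · rw [him]; linarith
  -- first piece
  have hpa : ‖Z l (1 + b * I) - Z l (1 + ((b - a : ℝ) : ℂ) * I)‖ ≤ M * a := by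
    have h3 := Convex.norm_image_sub_le_of_norm_hasDerivWithin_le (𝕜 := ℝ)
      (f := fun t : ℝ => Z l (1 + t * I)) (f' := fun t : ℝ => Z (l + 1) (1 + t * I) * I)
      (C := M) (s := Icc (b - a) b) (x := b - a) (y := b) ?_ ?_ (convex_Icc _ _)
      ⟨le_rfl, by linarith⟩ ⟨by linarith, le_rfl⟩
    · refine h3.trans (le_of_eq ?_)
      rw [sub_sub_cancel, Real.norm_of_nonneg ha.le]
    · intro t ht
      obtain ⟨h6, _⟩ := hb2 (t - b) (by linarith [ht.1]) (by linarith [ht.2])
      rw [add_sub_cancel] at h6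
      have hne : (1 + t * I : ℂ) ≠ 1 := by
        apply ne_one_of_im
        simp only [add_im, one_im, mul_im, ofReal_re, I_im, ofReal_im, I_re, mul_one, mul_zero,
          add_zero, zero_add]
        linarith
      have h2 := (Z_hasDerivAt l hne)
      have h3 : HasDerivAt (fun t : ℝ => (1 + t * I : ℂ)) I t := by
        have := ((ofRealCLM.hasDerivAt (x := t)).mul_const I).const_add (1 : ℂ)
        simpa using this
      exact (h2.comp t h3).hasDerivWithinAt
    · intro t ht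
      obtain ⟨h6, h7⟩ := hb2 (t - b) (by linarith [ht.1]) (by linarith [ht.2])
      rw [add_sub_cancel] at h6 h7
      rw [norm_mul, norm_I, mul_one]
      exact hMn t h6 h7
  -- second piece
  have hpb : ‖Z l (1 + ((b - a : ℝ) : ℂ) * I + a) - Z l (1 + ((b - a : ℝ) : ℂ) * I)‖ ≤
      M * Real.exp (ε * a) * min a (1 / (α * m)) := by
    set c := M * Real.exp (ε * a) with hc
    have hc0 : 0 ≤ c := by positivity
    have hαm : 0 < α * m := by positivity
    have hne : ∀ x : ℝ, 0 ≤ x → (1 + ((b - a : ℝ) : ℂ) * I + x : ℂ) ≠ 1 := by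
      intro x _
      obtain ⟨h6, _⟩ := hb2 (-a) (by linarith) (by linarith)
      apply ne_one_of_im
      simp only [add_im, one_im, mul_im, ofReal_re, I_im, ofReal_im, I_re, mul_one, mul_zero,
        add_zero, zero_add]
      rw [sub_eq_add_neg]
      linarith
    have hder : ∀ x : ℝ, 0 ≤ x → HasDerivAt (fun x : ℝ => Z l (1 + ((b - a : ℝ) : ℂ) * I + x) -
        Z l (1 + ((b - a : ℝ) : ℂ) * I)) (Z (l + 1) (1 + ((b - a : ℝ) : ℂ) * I + x)) x := by
      intro x hx
      have h2 := (Z_hasDerivAt l (hne x hx))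
      have h3 : HasDerivAt (fun x : ℝ => (1 + ((b - a : ℝ) : ℂ) * I + x : ℂ)) 1 x := by
        have := ((ofRealCLM.hasDerivAt (x := x))).const_add (1 + ((b - a : ℝ) : ℂ) * I : ℂ)
        simpa using this
      have h4 := h2.comp x h3
      rw [mul_one] at h4
      exact h4.sub_const _
    have hmain := image_norm_le_of_norm_deriv_right_le_deriv_boundary (a := (0 : ℝ)) (b := a)
      (f := fun x : ℝ => Z l (1 + ((b - a : ℝ) : ℂ) * I + x) -
        Z l (1 + ((b - a : ℝ) : ℂ) * I))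
      (f' := fun x : ℝ => Z (l + 1) (1 + ((b - a : ℝ) : ℂ) * I + x))
      (B := fun x : ℝ => c * ((1 - Real.exp (-(α * m * x))) / (α * m)))
      (B' := fun x : ℝ => c * Real.exp (-(α * m * x)))
      (fun x hx => (hder x hx.1).continuousAt.continuousWithinAt)
      (fun x hx => (hder x hx.1).hasDerivWithinAt)
      (by simp)
      (by
        intro x
        have h3 : HasDerivAt (fun x : ℝ => -(α * m * x)) (-(α * m)) x := by
          have := ((hasDerivAt_id x).const_mul (-(α * m)))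
          simpa [neg_mul] using this
        have h4 := ((h3.exp.const_sub 1).div_const (α * m)).const_mul c
        have e : c * Real.exp (-(α * m * x)) =
            c * (-(Real.exp (-(α * m * x)) * -(α * m)) / (α * m)) := by
          field_simp
        rw [e]
        exact h4)
      (by
        intro x hx
        have h3 := hcor x hx.1 hx.2.le
        have e : 1 + b * I + (x - a * I) = 1 + ((b - a : ℝ) : ℂ) * I + x := by
          push_cast
          ring
        simp only [hF] at h3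
        rw [e] at h3
        exact h3)
      (x := a) ⟨ha.le, le_rfl⟩
    refine hmain.trans ?_
    apply mul_le_mul_of_nonneg_left _ hc0
    apply le_min
    · rw [div_le_iff₀ hαm]
      have := Real.add_one_le_exp (-(α * m * a))
      linarith
    · apply div_le_div_of_nonneg_right _ hαm.le
      have := Real.exp_pos (-(α * m * a))
      linarith
  have hpc : ‖Z l (1 + ((b - a : ℝ) : ℂ) * I + a)‖ ≤ A l (1 + a) := by
    have h3 := Z_norm_le_A l (s := 1 + ((b - a : ℝ) : ℂ) * I + a) (by simpa using ha)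
    have e : (1 + ((b - a : ℝ) : ℂ) * I + a : ℂ).re = 1 + a := by simp
    rwa [e] at h3
  have e : Z l (1 + b * I) = (Z l (1 + b * I) - Z l (1 + ((b - a : ℝ) : ℂ) * I)) -
      (Z l (1 + ((b - a : ℝ) : ℂ) * I + a) - Z l (1 + ((b - a : ℝ) : ℂ) * I)) +
      Z l (1 + ((b - a : ℝ) : ℂ) * I + a) := by ring
  rw [e]
  refine (norm_add_le _ _).trans ?_
  refine add_le_add ((norm_sub_le _ _).trans (add_le_add ?_ hpb)) hpc
  rw [mul_comm a M]
  exact hpa

end Pool.Agent.X110.ZB
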