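import Mathlib
import Pool.Agent.X110.ZD

set_option autoImplicit false

/-!
Mean value of a Dirichlet polynomial and lower bounds for the derivatives of zeta near `Re s = 1`,
uniformly in the order of the derivative.
-/

namespace Pool.Agent.X110.ZB

open Complex Metric Set Filter Topology

/-- the Dirichlet polynomial with nonnegative coefficients -/
noncomputable def S (c : ℕ → ℝ) (N : ℕ) (t : ℝ) : ℂ :=
  ∑ n ∈ Finset.range N, (c n : ℂ) * Complex.exp (-((t * Real.log ((n : ℝ) + 1) : ℝ) : ℂ) * I)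

lemma S_sq (c : ℕ → ℝ) (N : ℕ) (t : ℝ) : ‖S c N t‖ ^ 2 =
    ∑ n ∈ Finset.range N, ∑ k ∈ Finset.range N, c n * c k *
      Real.cos (t * (Real.log ((n : ℝ) + 1) - Real.log ((k : ℝ) + 1))) := by
  have hre : (S c N t).re = ∑ n ∈ Finset.range N, c n * Real.cos (t * Real.log ((n : ℝ) + 1)) := by
    unfold S
    rw [re_sum]
    refine Finset.sum_congr rfl fun n _ => ?_
    rw [re_ofReal_mul, ← ofReal_neg, exp_ofReal_mul_I_re, Real.cos_neg]
  have him : (S c N t).im = -∑ n ∈ Finset.range N, c n * Real.sin (t * Real.log ((n : ℝ) + 1)) := by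
    unfold S
    rw [im_sum, ← Finset.sum_neg_distrib]
    refine Finset.sum_congr rfl fun n _ => ?_
    rw [im_ofReal_mul, ← ofReal_neg, exp_ofReal_mul_I_im, Real.sin_neg]
    ring
  rw [Complex.sq_norm, normSq_apply, hre, him, neg_mul_neg, Finset.sum_mul_sum, Finset.sum_mul_sum,
    ← Finset.sum_add_distrib]
  refine Finset.sum_congr rfl fun n _ => ?_
  rw [← Finset.sum_add_distrib]
  refine Finset.sum_congr rfl fun k _ => ?_
  rw [mul_sub, Real.cos_sub]
  ring

lemma log_gap {n k N : ℕ} (hn : n < N) (hk : k < N) (hnk : n ≠ k) :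
    1 / (N : ℝ) ≤ |Real.log ((n : ℝ) + 1) - Real.log ((k : ℝ) + 1)| := by
  have main : ∀ n k : ℕ, n < N → k < n →
      1 / (N : ℝ) ≤ Real.log ((n : ℝ) + 1) - Real.log ((k : ℝ) + 1) := by
    intro n k hn hkn
    have hn0 : (0 : ℝ) < n := by exact_mod_cast (Nat.zero_le k).trans_lt hkn
    have h1 : Real.log ((k : ℝ) + 1) ≤ Real.log n := by
      apply Real.log_le_log (by positivity)
      exact_mod_cast hkn
    have h2 : Real.log ((n : ℝ) / (n + 1)) ≤ (n : ℝ) / (n + 1) - 1 :=
      Real.log_le_sub_one_of_pos (by positivity)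
    rw [Real.log_div hn0.ne' (by positivity)] at h2
    have h3 : (n : ℝ) / (n + 1) - 1 = -(1 / ((n : ℝ) + 1)) := by field_simp; ring
    have h4 : 1 / (N : ℝ) ≤ 1 / ((n : ℝ) + 1) := by
      apply one_div_le_one_div_of_le (by positivity)
      exact_mod_cast hn
    linarith
  rcases lt_or_gt_of_ne hnk with h | h
  · rw [abs_sub_comm]
    exact (main k n hk h).trans (le_abs_self _)
  · exact (main n k hn h).trans (le_abs_self _)

lemma int_cos {t1 t2 ξ : ℝ} (hξ : ξ ≠ 0) :
    ∫ t in t1..t2, Real.cos (t * ξ) = (Real.sin (t2 * ξ) - Real.sin (t1 * ξ)) / ξ := by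
  rw [intervalIntegral.integral_comp_mul_right (fun y => Real.cos y) hξ, integral_cos,
    smul_eq_mul, inv_mul_eq_div]

lemma mean_value {c : ℕ → ℝ} (hc : ∀ n, 0 ≤ c n) {N : ℕ} {t1 t2 V : ℝ} (ht : t1 ≤ t2)
    (hV : ∀ τ ∈ Icc t1 t2, ‖S c N τ‖ ^ 2 ≤ V) :
    (t2 - t1) * ∑ n ∈ Finset.range N, c n ^ 2 - 2 * N * (∑ n ∈ Finset.range N, c n) ^ 2 ≤
      V * (t2 - t1) := by
  have hcont : ∀ n k : ℕ, Continuous (fun t : ℝ => c n * c k *
      Real.cos (t * (Real.log ((n : ℝ) + 1) - Real.log ((k : ℝ) + 1)))) := by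
    intro n k; fun_prop
  have hint : ∫ t in t1..t2, ‖S c N t‖ ^ 2 = ∑ n ∈ Finset.range N, ∑ k ∈ Finset.range N,
      c n * c k * ∫ t in t1..t2, Real.cos (t * (Real.log ((n : ℝ) + 1) - Real.log ((k : ℝ) + 1))) := by
    simp only [S_sq]
    rw [intervalIntegral.integral_finsetSum]
    · refine Finset.sum_congr rfl fun n _ => ?_
      rw [intervalIntegral.integral_finsetSum]
      · refine Finset.sum_congr rfl fun k _ => ?_
        rw [intervalIntegral.integral_const_mul]
      · intro k _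
        exact (hcont n k).intervalIntegrable _ _
    · intro n _
      apply Continuous.intervalIntegrable
      exact continuous_finsetSum _ fun k _ => hcont n k
  have hupper : ∫ t in t1..t2, ‖S c N t‖ ^ 2 ≤ V * (t2 - t1) := by
    have h1 : ∫ t in t1..t2, ‖S c N t‖ ^ 2 ≤ ∫ t in t1..t2, V := by
      apply intervalIntegral.integral_mono_on ht
      · apply Continuous.intervalIntegrable
        unfold S
        fun_prop
      · exact continuous_const.intervalIntegrable _ _
      · exact hV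
    rw [intervalIntegral.integral_const, smul_eq_mul, mul_comm] at h1
    exact h1
  have hlower : (t2 - t1) * ∑ n ∈ Finset.range N, c n ^ 2 -
      2 * N * (∑ n ∈ Finset.range N, c n) ^ 2 ≤ ∫ t in t1..t2, ‖S c N t‖ ^ 2 := by
    rw [hint]
    have h1 : ∀ n ∈ Finset.range N, ∀ k ∈ Finset.range N,
        c n * c k * ((if k = n then (t2 - t1) else 0) - 2 * N) ≤
        c n * c k * ∫ t in t1..t2,
          Real.cos (t * (Real.log ((n : ℝ) + 1) - Real.log ((k : ℝ) + 1))) := by
      intro n hn k hk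
      rw [Finset.mem_range] at hn hk
      apply mul_le_mul_of_nonneg_left _ (mul_nonneg (hc n) (hc k))
      split_ifs with h
      · rw [h]
        simp only [sub_self, mul_zero, Real.cos_zero, intervalIntegral.integral_const,
          smul_eq_mul, mul_one]
        have : (0 : ℝ) ≤ N := Nat.cast_nonneg N
        linarith
      · have hN0 : (0 : ℝ) < N := by exact_mod_cast (Nat.zero_le n).trans_lt hn
        have h2 := log_gap hn hk (Ne.symm h)
        set ξ := Real.log ((n : ℝ) + 1) - Real.log ((k : ℝ) + 1) with hξ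
        have hξ0 : 0 < |ξ| := lt_of_lt_of_le (by positivity) h2
        rw [int_cos (abs_pos.1 hξ0)]
        have h3 : |(Real.sin (t2 * ξ) - Real.sin (t1 * ξ)) / ξ| ≤ 2 * N := by
          rw [abs_div, div_le_iff₀ hξ0]
          have h4 : |Real.sin (t2 * ξ) - Real.sin (t1 * ξ)| ≤ 2 := by
            rw [abs_le]
            constructor
            · linarith [Real.neg_one_le_sin (t2 * ξ), Real.sin_le_one (t1 * ξ)]
            · linarith [Real.neg_one_le_sin (t1 * ξ), Real.sin_le_one (t2 * ξ)]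
          have h5 : 2 ≤ 2 * N * |ξ| := by
            rw [div_le_iff₀ hN0] at h2
            linarith
          linarith
        have h6 := (abs_le.1 h3).1
        linarith
    calc _ = ∑ n ∈ Finset.range N, ∑ k ∈ Finset.range N,
        c n * c k * ((if k = n then (t2 - t1) else 0) - 2 * N) := by
          simp only [mul_sub, mul_ite, mul_zero, Finset.sum_sub_distrib]
          congr 1
          · rw [Finset.mul_sum]
            refine Finset.sum_congr rfl fun n hn => ?_
            rw [Finset.sum_ite_eq' (Finset.range N) n, if_pos hn]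
            ring
          · rw [pow_two, Finset.sum_mul_sum, Finset.mul_sum]
            refine Finset.sum_congr rfl fun n _ => ?_
            rw [Finset.mul_sum]
            refine Finset.sum_congr rfl fun k _ => ?_
            ring
      _ ≤ _ := Finset.sum_le_sum fun n hn => Finset.sum_le_sum fun k hk => h1 n hn k hk
  linarith

/-- truncation of the Dirichlet series -/
lemma Z_ge_S (j : ℕ) {x : ℝ} (hx : 1 < x) (N : ℕ) (τ : ℝ) :
    ‖S (a j x) N τ‖ - ∑' n, a j x (n + N) ≤ ‖Z j (x + τ * I)‖ := by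
  have hsum := a_summable j hx
  set s : ℂ := x + τ * I with hs
  have hre : s.re = x := by simp [hs]
  have hs1 : 1 < s.re := by rw [hre]; exact hx
  rw [Z_eq j hs1, norm_mul, norm_pow, norm_neg, norm_one, one_pow, one_mul]
  have hterm : ∀ n : ℕ, ((Real.log ((n : ℝ) + 1) : ℝ) : ℂ) ^ j * ((n : ℂ) + 1) ^ (-s) =
      (a j x n : ℂ) * Complex.exp (-((τ * Real.log ((n : ℝ) + 1) : ℝ) : ℂ) * I) := by
    intro n
    have h0 : (0 : ℝ) < (n : ℝ) + 1 := by positivity
    have h0' : ((n : ℂ) + 1) = (((n : ℝ) + 1 : ℝ) : ℂ) := by push_cast; rfl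
    unfold a
    push_cast
    rw [mul_assoc]
    congr 1
    have h0'' : (n : ℂ) + 1 ≠ 0 := by
      rw [h0']
      exact_mod_cast h0.ne'
    have e1 : (((((n : ℝ) + 1 : ℝ)) ^ (-x) : ℝ) : ℂ) = ((n : ℂ) + 1) ^ (-(x : ℂ)) := by
      rw [Complex.ofReal_cpow h0.le]
      push_cast
      rfl
    rw [e1, hs, neg_add, Complex.cpow_add _ _ h0'']
    congr 1
    rw [Complex.cpow_def_of_ne_zero h0'']
    congr 1
    have e2 : Complex.log ((n : ℂ) + 1) = ((Real.log ((n : ℝ) + 1) : ℝ) : ℂ) := by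
      rw [h0', Complex.ofReal_log h0.le]
    rw [e2]
    ring
  simp only [hterm]
  set g : ℕ → ℂ := fun n => (a j x n : ℂ) *
      Complex.exp (-((τ * Real.log ((n : ℝ) + 1) : ℝ) : ℂ) * I) with hg
  have hn : ∀ n : ℕ, ‖g n‖ = a j x n := by
    intro n
    simp only [hg]
    rw [norm_mul, ← ofReal_neg, Complex.norm_exp_ofReal_mul_I, mul_one, Complex.norm_real,
      Real.norm_of_nonneg (a_nonneg j x n)]
  have hs2 : Summable (fun n : ℕ => ‖g n‖) := by
    simp only [hn]
    exact hsum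
  have hs3 : Summable g := hs2.of_norm
  have hs4 : Summable (fun n : ℕ => ‖g (n + N)‖) := by
    simp only [hn]
    exact (summable_nat_add_iff N).2 hsum
  have hS : S (a j x) N τ = ∑ n ∈ Finset.range N, g n := rfl
  rw [hS, ← hs3.sum_add_tsum_nat_add N]
  have h1 : ‖∑' n : ℕ, g (n + N)‖ ≤ ∑' n, a j x (n + N) := by
    refine (norm_tsum_le_tsum_norm hs4).trans (le_of_eq ?_)
    simp only [hn]
  have h2 := norm_sub_le (∑ n ∈ Finset.range N, g n + ∑' n : ℕ, g (n + N)) (∑' n : ℕ, g (n + N))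
  rw [add_sub_cancel_right] at h2
  linarith

lemma tail_psum {u : ℝ} (hu : 0 < u) {N : ℕ} (hN : 0 < N) (K : ℕ) :
    ∑ n ∈ Finset.range K, (((n + N : ℕ) : ℝ) + 1) ^ (-(1 + u)) ≤
      (1 / u) * (N : ℝ) ^ (-u) - (1 / u) * ((K + N : ℕ) : ℝ) ^ (-u) := by
  have hN0 : (0 : ℝ) < N := by exact_mod_cast hN
  induction K with
  | zero => simp
  | succ K ih =>
    rw [Finset.sum_range_succ]
    have h1 := Pool.Agent.X110.Pol.tangent (s := u) (a := ((K + N : ℕ) : ℝ) + 1)
      (b := ((K + N : ℕ) : ℝ)) hu (by positivity) (by push_cast; positivity)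
    have h2 : (((K + N : ℕ) : ℝ) + 1 - ((K + N : ℕ) : ℝ)) = 1 := by ring
    rw [h2, mul_one] at h1
    have h3 : (((K + 1 + N : ℕ)) : ℝ) = ((K + N : ℕ) : ℝ) + 1 := by push_cast; ring
    rw [h3]
    have h4 : (-(1 + u)) = -u - 1 := by ring
    rw [h4] at ih ⊢
    have h5 : (((K + N : ℕ) : ℝ) + 1) ^ (-u - 1) ≤
        (1 / u) * ((K + N : ℕ) : ℝ) ^ (-u) - (1 / u) * (((K + N : ℕ) : ℝ) + 1) ^ (-u) := by
      rw [← mul_sub, one_div, ← div_eq_inv_mul, le_div_iff₀ hu]
      linarith
    linarith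

lemma tail_le (j : ℕ) {x y : ℝ} (hy : 0 < y) (hxy : 1 < x - y) {N : ℕ} (hN : 0 < N) :
    ∑' n, a j x (n + N) ≤ j.factorial / y ^ j * (1 / (x - y - 1) * (N : ℝ) ^ (-(x - y - 1))) := by
  refine Real.tsum_le_of_sum_range_le (fun n => a_nonneg j x _) fun K => ?_
  calc ∑ n ∈ Finset.range K, a j x (n + N) ≤
      ∑ n ∈ Finset.range K, j.factorial / y ^ j * (((n + N : ℕ) : ℝ) + 1) ^ (-(x - y)) :=
        Finset.sum_le_sum fun n _ => a_le j hy (n + N)
    _ = j.factorial / y ^ j *
        ∑ n ∈ Finset.range K, (((n + N : ℕ) : ℝ) + 1) ^ (-(1 + (x - y - 1))) := by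
        rw [Finset.mul_sum]
        simp only [add_sub_cancel]
    _ ≤ _ := by
        refine mul_le_mul_of_nonneg_left ?_ (by positivity)
        have h1 := tail_psum (u := x - y - 1) (by linarith) hN K
        have h2 : 0 ≤ 1 / (x - y - 1) * ((K + N : ℕ) : ℝ) ^ (-(x - y - 1)) := by
          have : 0 < x - y - 1 := by linarith
          positivity
        linarith

/-- `l! ≤ e l (l/e)^l` -/
lemma fact_le (l : ℕ) (hl : 1 ≤ l) :
    (l.factorial : ℝ) ≤ Real.exp 1 * l * ((l : ℝ) / Real.exp 1) ^ l := by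
  induction l, hl using Nat.le_induction with
  | base =>
    simp only [Nat.factorial_one, Nat.cast_one, mul_one, pow_one]
    have := Real.exp_pos 1
    rw [mul_one_div_cancel this.ne']
  | succ l hl ih =>
    have hl0 : (0 : ℝ) < l := by exact_mod_cast hl
    have he := Real.exp_pos 1
    rw [Nat.factorial_succ, Nat.cast_mul]
    have h1 : Real.exp 1 * (l : ℝ) ^ (l + 1) ≤ ((l + 1 : ℕ) : ℝ) ^ (l + 1) := by
      -- e ≤ (1+1/l)^(l+1)
      have h2 : Real.exp (1 / ((l : ℝ) + 1)) ≤ ((l : ℝ) + 1) / l := by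
        have h3 := Real.add_one_le_exp (-(1 / ((l : ℝ) + 1)))
        have h4 : -(1 / ((l : ℝ) + 1)) + 1 = (l : ℝ) / (l + 1) := by field_simp; ring
        rw [h4, Real.exp_neg, le_inv_comm₀ (by positivity) (Real.exp_pos _), inv_div] at h3
        exact h3
      have h5 : Real.exp 1 = (Real.exp (1 / ((l : ℝ) + 1))) ^ (l + 1) := by
        rw [← Real.exp_nat_mul]
        congr 1
        push_cast
        field_simp
      calc Real.exp 1 * (l : ℝ) ^ (l + 1) =
          (Real.exp (1 / ((l : ℝ) + 1))) ^ (l + 1) * (l : ℝ) ^ (l + 1) := by rw [← h5]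
        _ ≤ (((l : ℝ) + 1) / l) ^ (l + 1) * (l : ℝ) ^ (l + 1) := by gcongr
        _ = _ := by
          rw [← mul_pow, div_mul_cancel₀ _ hl0.ne']
          push_cast
          rfl
    calc ((l + 1 : ℕ) : ℝ) * (l.factorial : ℝ) ≤
        ((l + 1 : ℕ) : ℝ) * (Real.exp 1 * l * ((l : ℝ) / Real.exp 1) ^ l) := by gcongr
      _ = ((l + 1 : ℕ) : ℝ) * (Real.exp 1 * (l : ℝ) ^ (l + 1)) / Real.exp 1 ^ l := by
          rw [div_pow]; field_simp; ring
      _ ≤ ((l + 1 : ℕ) : ℝ) * ((l + 1 : ℕ) : ℝ) ^ (l + 1) / Real.exp 1 ^ l := by gcongr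
      _ = _ := by
          rw [div_pow, pow_succ (Real.exp 1)]
          field_simp

end Pool.Agent.X110.ZB
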