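import Mathlib
import Pool.Agent.X110.ZG
import Pool.Agent.X110.ZH

set_option autoImplicit false

/-!
Uniform lower bound for the maxima on the line `Re s = 1`.
-/

namespace Pool.Agent.X110.ZB

open Complex Metric Set Filter Topology

lemma unif (C c : ℝ) {η : ℝ} (hη : 0 < η) : ∃ T0 : ℝ, ∀ T : ℝ, T0 ≤ T → ∀ l : ℕ,
    (l : ℝ) ≤ Real.log T / Real.log (Real.log T) → C * Real.exp (c * l) ≤ T ^ η := by
  set c' := max c 0 with hc'
  set C' := max C 1 with hC'
  have hc0 : 0 ≤ c' := le_max_right _ _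
  have hC1 : 1 ≤ C' := le_max_right _ _
  refine ⟨max (Real.exp (Real.exp (2 * c' / η + 1))) (Real.exp (2 / η * Real.log C')),
    fun T hT l hl => ?_⟩
  have hT1 := (le_max_left _ _).trans hT
  have hT2 := (le_max_right _ _).trans hT
  have hT0 : 0 < T := lt_of_lt_of_le (Real.exp_pos _) hT1
  have h1 : Real.exp (2 * c' / η + 1) ≤ Real.log T := (Real.le_log_iff_exp_le hT0).2 hT1
  have h2 : 2 / η * Real.log C' ≤ Real.log T := (Real.le_log_iff_exp_le hT0).2 hT2
  have hL0 : 0 < Real.log T := lt_of_lt_of_le (Real.exp_pos _) h1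
  have h3 : 2 * c' / η + 1 ≤ Real.log (Real.log T) := (Real.le_log_iff_exp_le hL0).2 h1
  have h4 : 0 ≤ 2 * c' / η := by positivity
  have hLL0 : 0 < Real.log (Real.log T) := by linarith
  rw [le_div_iff₀ hLL0] at hl
  have h5 : c' * l ≤ η / 2 * Real.log T := by
    have h6 : 2 * c' / η ≤ Real.log (Real.log T) := by linarith
    rw [div_le_iff₀ hη] at h6
    have hl0 : (0 : ℝ) ≤ l := Nat.cast_nonneg l
    nlinarith
  have h7 : Real.log C' ≤ η / 2 * Real.log T := by
    have : Real.log C' = η / 2 * (2 / η * Real.log C') := by field_simp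
    rw [this]
    gcongr
  have hl0 : (0 : ℝ) ≤ l := Nat.cast_nonneg l
  calc C * Real.exp (c * l) ≤ C' * Real.exp (c' * l) := by
        apply mul_le_mul (le_max_left _ _) _ (Real.exp_pos _).le (by linarith)
        apply Real.exp_le_exp.2
        exact mul_le_mul_of_nonneg_right (le_max_left _ _) hl0
    _ = Real.exp (Real.log C' + c' * l) := by
        rw [Real.exp_add, Real.exp_log (by linarith)]
    _ ≤ Real.exp (Real.log T * η) := by
        apply Real.exp_le_exp.2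
        linarith
    _ = T ^ η := by rw [Real.rpow_def_of_pos hT0]

lemma event_pow (C : ℝ) (k : ℕ) {r : ℝ} (hr : 1 < r) : ∃ l0 : ℕ, ∀ l : ℕ, l0 ≤ l →
    C * (l : ℝ) ^ k ≤ r ^ l := by
  have h1 := tendsto_pow_const_div_const_pow_of_one_lt k hr
  have h2 : Tendsto (fun n : ℕ => C * ((n : ℝ) ^ k / r ^ n)) atTop (𝓝 (C * 0)) := h1.const_mul C
  rw [mul_zero] at h2
  have h3 := h2.eventually_lt_const (zero_lt_one)
  obtain ⟨l0, hl0⟩ := eventually_atTop.1 h3
  refine ⟨l0, fun l hl => ?_⟩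
  have h4 := hl0 l hl
  have hrl : 0 < r ^ l := by positivity
  rw [← mul_div_assoc, div_lt_one hrl] at h4
  exact h4.le

lemma poly_bd1 (j : ℕ) {T : ℝ} (hT : 4 ≤ T) {z : ℂ} (h1 : 1 ≤ z.re) (h2 : z.re ≤ 3)
    (h3 : T / 2 ≤ |z.im|) (h4 : |z.im| ≤ 3 * T) :
    ‖Z j z‖ ≤ j.factorial * 2 ^ j * (12 * T) := by
  have h5 := Z_bd (σ := 1) one_pos le_rfl j h1 (by linarith : 2 ≤ |z.im|)
  refine h5.trans ?_
  have h6 : ‖z‖ ≤ |z.re| + |z.im| := Complex.norm_le_abs_re_add_abs_im z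
  have h7 : |z.re| ≤ 3 := by rw [abs_le]; constructor <;> linarith
  have h8 : ‖z‖ + 1 ≤ 4 * T := by linarith
  calc (j.factorial : ℝ) * (2 / 1) ^ j * ((‖z‖ + 1) * (1 + 2 / 1)) ≤
      j.factorial * (2 / 1) ^ j * ((4 * T) * (1 + 2 / 1)) := by gcongr
    _ = _ := by rw [div_one]; ring

/-- the block of the Dirichlet series near `n = e^{2l}` -/
lemma block {l N : ℕ} (hl : 1 ≤ l) (hN : 2 * ⌈Real.exp (2 * l)⌉₊ ≤ N) :
    ((2 * (l : ℝ)) ^ l * Real.exp (-(6 / 5 * l)) / 8) ^ 2 ≤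
      ∑ n ∈ Finset.range N, a l (11 / 10) n ^ 2 := by
  set E := Real.exp (2 * (l : ℝ)) with hE
  have hl1 : (1 : ℝ) ≤ l := by exact_mod_cast hl
  have hE1 : 1 ≤ E := Real.one_le_exp (by positivity)
  set K := ⌈E⌉₊ with hK
  have hKE : E ≤ K := Nat.le_ceil E
  have hKE2 : (K : ℝ) < E + 1 := Nat.ceil_lt_add_one (by linarith)
  have hK1 : 1 ≤ K := by
    have : (1 : ℝ) ≤ K := hE1.trans hKE
    exact_mod_cast this
  have hsub : Finset.Ico (K - 1) (2 * K - 1) ⊆ Finset.range N := by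
    intro n hn
    rw [Finset.mem_Ico] at hn
    rw [Finset.mem_range]
    omega
  have hcard : (Finset.Ico (K - 1) (2 * K - 1)).card = K := by
    rw [Nat.card_Ico]
    omega
  have hterm : ∀ n ∈ Finset.Ico (K - 1) (2 * K - 1),
      ((2 * (l : ℝ)) ^ l * (4 * E) ^ (-(11 / 10) : ℝ)) ^ 2 ≤ a l (11 / 10) n ^ 2 := by
    intro n hn
    rw [Finset.mem_Ico] at hn
    have h1 : E ≤ (n : ℝ) + 1 := by
      have : K ≤ n + 1 := by omega
      have : (K : ℝ) ≤ (n : ℝ) + 1 := by exact_mod_cast this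
      linarith
    have h2 : (n : ℝ) + 1 ≤ 4 * E := by
      have : n + 1 ≤ 2 * K := by omega
      have : (n : ℝ) + 1 ≤ 2 * K := by exact_mod_cast this
      linarith
    have h3 : 2 * (l : ℝ) ≤ Real.log ((n : ℝ) + 1) := by
      rw [Real.le_log_iff_exp_le (by linarith)]
      exact h1
    apply pow_le_pow_left₀ (by positivity)
    unfold a
    apply mul_le_mul
    · apply pow_le_pow_left₀ (by positivity) h3
    · apply Real.rpow_le_rpow_of_nonpos (by positivity) h2 (by norm_num)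
    · positivity
    · have : 0 ≤ Real.log ((n : ℝ) + 1) := by linarith
      positivity
  have h1 : (4 * E) ^ (-(11 / 10) : ℝ) = Real.exp (-(11 / 10) * (Real.log 4 + 2 * l)) := by
    rw [Real.rpow_def_of_pos (by positivity), Real.log_mul (by norm_num) (by positivity), hE,
      Real.log_exp]
    congr 1
    ring
  calc ((2 * (l : ℝ)) ^ l * Real.exp (-(6 / 5 * l)) / 8) ^ 2 =
      ((2 * (l : ℝ)) ^ l) ^ 2 * (Real.exp (-(6 / 5 * l)) ^ 2 * (1 / 64)) := by ring
    _ ≤ ((2 * (l : ℝ)) ^ l) ^ 2 * (E * Real.exp (-(11 / 10) * (Real.log 4 + 2 * l)) ^ 2) := by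
        apply mul_le_mul_of_nonneg_left _ (by positivity)
        have h2 : (1 : ℝ) / 64 = Real.exp (-(3 * Real.log 4)) := by
          rw [Real.exp_neg, show 3 * Real.log 4 = ((3 : ℕ) : ℝ) * Real.log 4 by norm_num,
            Real.exp_nat_mul, Real.exp_log (by norm_num)]
          norm_num
        rw [h2, hE, ← Real.exp_nat_mul, ← Real.exp_nat_mul, ← Real.exp_add, ← Real.exp_add]
        apply Real.exp_le_exp.2
        have h3 : 0 ≤ Real.log 4 := Real.log_nonneg (by norm_num)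
        push_cast
        linarith
    _ = E * ((2 * (l : ℝ)) ^ l * (4 * E) ^ (-(11 / 10) : ℝ)) ^ 2 := by rw [h1]; ring
    _ ≤ K * ((2 * (l : ℝ)) ^ l * (4 * E) ^ (-(11 / 10) : ℝ)) ^ 2 := by gcongr
    _ = ∑ n ∈ Finset.Ico (K - 1) (2 * K - 1),
        ((2 * (l : ℝ)) ^ l * (4 * E) ^ (-(11 / 10) : ℝ)) ^ 2 := by
        rw [Finset.sum_const, hcard, nsmul_eq_mul]
    _ ≤ ∑ n ∈ Finset.Ico (K - 1) (2 * K - 1), a l (11 / 10) n ^ 2 := Finset.sum_le_sum hterm
    _ ≤ _ := Finset.sum_le_sum_of_subset_of_nonneg hsub fun n _ _ => sq_nonneg _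

/-- `β = 2 e^{-1/5}` -/
noncomputable def bet : ℝ := 2 * Real.exp (-(1 / 5))

lemma bet_gt : 3 / 2 < bet := by
  unfold bet
  have h1 := Real.add_one_le_exp (-(1 / 5) : ℝ)
  linarith

/-- the lower bound (before transfer) -/
noncomputable def DL (l : ℕ) : ℝ := bet ^ l * l.factorial / (8 * Real.exp 1 * l)

lemma DL_pos {l : ℕ} (hl : 1 ≤ l) : 0 < DL l := by
  have := bet_gt
  have hl0 : (0 : ℝ) < l := by exact_mod_cast hl
  unfold DL
  positivity

lemma DL_le {l : ℕ} (hl : 1 ≤ l) : DL l ≤ (2 * (l : ℝ)) ^ l * Real.exp (-(6 / 5 * l)) / 8 := by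
  have hl0 : (0 : ℝ) < l := by exact_mod_cast hl
  have hb := bet_gt
  have he := Real.exp_pos 1
  have h1 := fact_le l hl
  unfold DL
  rw [div_le_iff₀ (by positivity)]
  calc bet ^ l * l.factorial ≤ bet ^ l * (Real.exp 1 * l * ((l : ℝ) / Real.exp 1) ^ l) := by
        gcongr
    _ = _ := by
      have h2 : Real.exp (-(6 / 5 * l)) = Real.exp (-(1 / 5)) ^ l * (1 / Real.exp 1) ^ l := by
        rw [one_div (Real.exp 1), ← Real.exp_neg, ← Real.exp_nat_mul, ← Real.exp_nat_mul,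
          ← Real.exp_add]
        congr 1
        ring
      rw [h2]
      unfold bet
      rw [mul_pow, mul_pow, div_pow, div_pow, one_pow]
      field_simp

/-- uniform lower bound for the maxima on the line `Re s = 1`. -/
lemma lower_unif : ∃ l0 : ℕ, ∃ T0 : ℝ, ∀ T : ℝ, T0 ≤ T → ∀ l : ℕ, l0 ≤ l →
    (l : ℝ) ≤ Real.log T / Real.log (Real.log T) → ∀ M : ℝ,
    (∀ t ∈ Icc T (2 * T), ‖Z l (1 + t * I)‖ ≤ M) → DL l / (4 * Real.exp 1) ≤ M := by
  have hb := bet_gt
  have he1 := Real.exp_one_gt_d9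
  have he2 := Real.exp_one_lt_d9
  obtain ⟨l1, hl1⟩ := event_pow 5184 2 (r := bet) (by linarith)
  obtain ⟨T1, hT1⟩ := unif 8 2 (η := 1 / 2) (by norm_num)
  obtain ⟨T2, hT2⟩ := unif 1400000 402 (η := 1 / 2) (by norm_num)
  obtain ⟨T3, hT3⟩ := unif 3840 21 (η := 1 / 40) (by norm_num)
  obtain ⟨T4, hT4⟩ := unif 1 3 (η := 1) (by norm_num)
  refine ⟨max 1 l1, max (max (max T1 T2) (max T3 T4)) 7100, fun T hT l hl hlT M hM => ?_⟩
  have hTT1 : T1 ≤ T := le_trans (le_trans (le_max_left _ _) (le_trans (le_max_left _ _)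
    (le_max_left _ _))) hT
  have hTT2 : T2 ≤ T := le_trans (le_trans (le_max_right _ _) (le_trans (le_max_left _ _)
    (le_max_left _ _))) hT
  have hTT3 : T3 ≤ T := le_trans (le_trans (le_max_left _ _) (le_trans (le_max_right _ _)
    (le_max_left _ _))) hT
  have hTT4 : T4 ≤ T := le_trans (le_trans (le_max_right _ _) (le_trans (le_max_right _ _)
    (le_max_left _ _))) hT
  have hTb : 7100 ≤ T := (le_max_right _ _).trans hT
  have hT0 : 0 < T := by linarith
  have hl1' : 1 ≤ l := (le_max_left _ _).trans hl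
  have hll1 : l1 ≤ l := (le_max_right _ _).trans hl
  have hlr : (1 : ℝ) ≤ l := by exact_mod_cast hl1'
  have hfac : (1 : ℝ) ≤ l.factorial := by exact_mod_cast Nat.succ_le_of_lt (Nat.factorial_pos l)
  have hbl : 1 ≤ bet ^ l := one_le_pow₀ (by linarith)
  have hDL0 := DL_pos hl1'
  have hDL := DL_le hl1'
  set D := (2 * (l : ℝ)) ^ l * Real.exp (-(6 / 5 * l)) / 8 with hD
  have h20 : (20 : ℝ) ^ l ≤ Real.exp (20 * l) := by
    rw [mul_comm, Real.exp_nat_mul]
    apply pow_le_pow_left₀ (by norm_num)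
    have := Real.add_one_le_exp (20 : ℝ)
    linarith
  have h400 : (400 : ℝ) ^ l ≤ Real.exp (400 * l) := by
    rw [mul_comm, Real.exp_nat_mul]
    apply pow_le_pow_left₀ (by norm_num)
    have := Real.add_one_le_exp (400 : ℝ)
    linarith
  have h2l : (2 : ℝ) ^ l ≤ Real.exp (2 * l) := by
    rw [mul_comm, Real.exp_nat_mul]
    apply pow_le_pow_left₀ (by norm_num)
    have := Real.add_one_le_exp (2 : ℝ)
    linarith
  have hlexp : (l : ℝ) ≤ Real.exp l := by
    have := Real.add_one_le_exp (l : ℝ)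
    linarith
  have hsqrt : T ^ (1 / 2 : ℝ) = Real.sqrt T := (Real.sqrt_eq_rpow T).symm
  -- N
  set N := ⌊Real.sqrt T⌋₊ with hN
  have hNle : (N : ℝ) ≤ Real.sqrt T := Nat.floor_le (Real.sqrt_nonneg _)
  have hNgt : Real.sqrt T < N + 1 := Nat.lt_floor_add_one _
  have hKN : 2 * ⌈Real.exp (2 * l)⌉₊ ≤ N := by
    have h1 := hT1 T hTT1 l hlT
    rw [hsqrt] at h1
    have h2 : (⌈Real.exp (2 * (l : ℝ))⌉₊ : ℝ) < Real.exp (2 * l) + 1 :=
      Nat.ceil_lt_add_one (Real.exp_pos _).le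
    have h3 : 1 ≤ Real.exp (2 * (l : ℝ)) := Real.one_le_exp (by positivity)
    have h4 : (2 * ⌈Real.exp (2 * (l : ℝ))⌉₊ : ℝ) < N + 1 := by linarith
    have h5 : 2 * ⌈Real.exp (2 * (l : ℝ))⌉₊ < N + 1 := by exact_mod_cast h4
    omega
  have hblock := block hl1' hKN
  rw [← hD] at hblock
  have hN2 : 2 ≤ N := by
    have : 1 ≤ ⌈Real.exp (2 * (l : ℝ))⌉₊ := Nat.one_le_ceil_iff.2 (Real.exp_pos _)
    omega
  have hN0 : (2 : ℝ) ≤ N := by exact_mod_cast hN2
  have hsumc : ∑ n ∈ Finset.range N, a l (11 / 10) n ≤ 21 * l.factorial * 20 ^ l := by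
    have h1 : ∑ n ∈ Finset.range N, a l (11 / 10) n ≤ A l (11 / 10) :=
      (a_summable l (by norm_num)).sum_le_tsum _ fun n _ => a_nonneg l _ n
    have h2 := A_le l (x := 11 / 10) (y := 1 / 20) (by norm_num) (by norm_num)
    refine h1.trans (h2.trans (le_of_eq ?_))
    rw [div_pow, one_pow]
    have e : (1 : ℝ) + 1 / (11 / 10 - 1 / 20 - 1) = 21 := by norm_num
    rw [e, div_div_eq_mul_div, div_one]
    ring
  have hsumc0 : 0 ≤ ∑ n ∈ Finset.range N, a l (11 / 10) n :=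
    Finset.sum_nonneg fun n _ => a_nonneg l _ n
  -- existence of a large value
  obtain ⟨τ, hτ, hτ2⟩ : ∃ τ ∈ Icc (5 * T / 4) (7 * T / 4), D ^ 2 / 4 < ‖S (a l (11 / 10)) N τ‖ ^ 2 := by
    by_contra hcon
    push Not at hcon
    have h1 := mean_value (a_nonneg l (11 / 10)) (by linarith) hcon
    have h2 := hT2 T hTT2 l hlT
    rw [hsqrt] at h2
    have e1 : (402 : ℝ) * l = 400 * l + (l + l) := by ring
    rw [e1, Real.exp_add, Real.exp_add] at h2
    have h3 : (7 * T / 4 - 5 * T / 4) = T / 2 := by ring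
    rw [h3] at h1
    have hsT : Real.sqrt T * Real.sqrt T = T := Real.mul_self_sqrt hT0.le
    have hsT0 : 0 < Real.sqrt T := Real.sqrt_pos.2 hT0
    have h4 : (∑ n ∈ Finset.range N, a l (11 / 10) n) ^ 2 ≤ (21 * l.factorial * 20 ^ l) ^ 2 :=
      pow_le_pow_left₀ hsumc0 hsumc 2
    have h5 : (21 * (l.factorial : ℝ) * 20 ^ l) ^ 2 = 441 * (l.factorial : ℝ) ^ 2 * 400 ^ l := by
      rw [mul_pow, mul_pow, ← pow_mul, mul_comm l 2, pow_mul]
      norm_num
    rw [h5] at h4
    have h6 : 3 / 8 * T * D ^ 2 ≤ 2 * Real.sqrt T * (441 * (l.factorial : ℝ) ^ 2 * 400 ^ l) := by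
      have h7 : 2 * N * (∑ n ∈ Finset.range N, a l (11 / 10) n) ^ 2 ≤
          2 * Real.sqrt T * (441 * (l.factorial : ℝ) ^ 2 * 400 ^ l) := by gcongr
      have h8 : T / 2 * D ^ 2 ≤ T / 2 * ∑ n ∈ Finset.range N, a l (11 / 10) n ^ 2 := by gcongr
      nlinarith
    have h9 : (l.factorial : ℝ) ^ 2 / (64 * Real.exp 1 ^ 2 * l ^ 2) ≤ D ^ 2 := by
      have h10 : (l.factorial : ℝ) / (8 * Real.exp 1 * l) ≤ D := by
        refine le_trans ?_ hDL
        unfold DL
        gcongr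
        nlinarith
      have h11 := pow_le_pow_left₀ (by positivity) h10 2
      rw [div_pow] at h11
      refine le_trans (le_of_eq ?_) h11
      congr 1
      ring
    have h12 : 3 / 8 * Real.sqrt T * D ^ 2 ≤ 882 * (l.factorial : ℝ) ^ 2 * 400 ^ l := by
      have h13 : (3 / 8 * Real.sqrt T * D ^ 2) * Real.sqrt T ≤
          (882 * (l.factorial : ℝ) ^ 2 * 400 ^ l) * Real.sqrt T := by
        nlinarith
      exact le_of_mul_le_mul_right h13 hsT0
    have h14 : 3 / 8 * Real.sqrt T ≤ 882 * 400 ^ l * (64 * Real.exp 1 ^ 2 * l ^ 2) := by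
      rw [div_le_iff₀ (by positivity)] at h9
      have h15 : (3 / 8 * Real.sqrt T) * (l.factorial : ℝ) ^ 2 ≤
          (882 * 400 ^ l * (64 * Real.exp 1 ^ 2 * l ^ 2)) * (l.factorial : ℝ) ^ 2 := by
        calc (3 / 8 * Real.sqrt T) * (l.factorial : ℝ) ^ 2 ≤
            (3 / 8 * Real.sqrt T) * (D ^ 2 * (64 * Real.exp 1 ^ 2 * l ^ 2)) := by gcongr
          _ = (3 / 8 * Real.sqrt T * D ^ 2) * (64 * Real.exp 1 ^ 2 * l ^ 2) := by ring
          _ ≤ (882 * (l.factorial : ℝ) ^ 2 * 400 ^ l) * (64 * Real.exp 1 ^ 2 * l ^ 2) := by gcongr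
          _ = _ := by ring
      exact le_of_mul_le_mul_right h15 (by positivity)
    have h16 : Real.exp 1 ^ 2 ≤ 8 := by nlinarith
    have h17 : 882 * (400 : ℝ) ^ l * (64 * Real.exp 1 ^ 2 * l ^ 2) ≤
        882 * Real.exp (400 * l) * (64 * 8 * (Real.exp l * Real.exp l)) := by
      have : (l : ℝ) ^ 2 ≤ Real.exp l * Real.exp l := by nlinarith
      gcongr
    have h18 : 0 < Real.exp (400 * (l : ℝ)) * (Real.exp l * Real.exp l) := by positivity
    nlinarith
  have hS : D / 2 ≤ ‖S (a l (11 / 10)) N τ‖ := by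
    have h1 : (D / 2) ^ 2 ≤ ‖S (a l (11 / 10)) N τ‖ ^ 2 := by
      have : (D / 2) ^ 2 = D ^ 2 / 4 := by ring
      rw [this]
      exact hτ2.le
    exact le_of_sq_le_sq h1 (norm_nonneg _)
  -- the tail
  have htail : ∑' n, a l (11 / 10) (n + N) ≤ D / 4 := by
    have h1 := tail_le l (x := 11 / 10) (y := 1 / 20) (N := N) (by norm_num) (by norm_num)
      (by omega)
    have h2 := hT3 T hTT3 l hlT
    have e1 : (21 : ℝ) * l = 20 * l + l := by ring
    rw [e1, Real.exp_add] at h2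
    have h3 : T ^ (1 / 40 : ℝ) ≤ 2 * (N : ℝ) ^ (1 / 20 : ℝ) := by
      have h4 : T ^ (1 / 40 : ℝ) = Real.sqrt T ^ (1 / 20 : ℝ) := by
        rw [Real.sqrt_eq_rpow, ← Real.rpow_mul hT0.le]
        norm_num
      have h5 : Real.sqrt T ≤ 2 * N := by linarith
      rw [h4]
      calc Real.sqrt T ^ (1 / 20 : ℝ) ≤ (2 * (N : ℝ)) ^ (1 / 20 : ℝ) :=
            Real.rpow_le_rpow (Real.sqrt_nonneg _) h5 (by norm_num)
        _ = 2 ^ (1 / 20 : ℝ) * (N : ℝ) ^ (1 / 20 : ℝ) := Real.mul_rpow (by norm_num) (by positivity)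
        _ ≤ 2 * (N : ℝ) ^ (1 / 20 : ℝ) := by
          gcongr
          calc (2 : ℝ) ^ (1 / 20 : ℝ) ≤ 2 ^ (1 : ℝ) :=
                Real.rpow_le_rpow_of_exponent_le (by norm_num) (by norm_num)
            _ = 2 := Real.rpow_one 2
    refine h1.trans (le_trans ?_ (div_le_div_of_nonneg_right hDL (by norm_num)))
    have h6 : (l.factorial : ℝ) / (1 / 20) ^ l *
        (1 / (11 / 10 - 1 / 20 - 1) * (N : ℝ) ^ (-(11 / 10 - 1 / 20 - 1) : ℝ)) =
        l.factorial * 20 ^ l * (20 * ((N : ℝ) ^ (1 / 20 : ℝ))⁻¹) := by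
      have e2 : (-(11 / 10 - 1 / 20 - 1) : ℝ) = -(1 / 20) := by norm_num
      rw [e2, Real.rpow_neg (by positivity), div_pow, one_pow]
      norm_num
    rw [h6]
    unfold DL
    have hNp : 0 < (N : ℝ) ^ (1 / 20 : ℝ) := by positivity
    have h7 : 1920 * (20 ^ l * (l : ℝ)) ≤ (N : ℝ) ^ (1 / 20 : ℝ) := by
      have h8 : (20 : ℝ) ^ l * l ≤ Real.exp (20 * l) * Real.exp l := by gcongr
      linarith
    rw [div_div, ← div_eq_mul_inv 20, mul_div_assoc', div_le_div_iff₀ hNp (by positivity)]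
    have h9 : (l.factorial : ℝ) * 20 ^ l * 20 * (8 * Real.exp 1 * l * 4) ≤
        l.factorial * (1920 * (20 ^ l * l)) := by
      have h10 : (0 : ℝ) ≤ l.factorial * 20 ^ l * l := by positivity
      nlinarith
    have h11 : (l.factorial : ℝ) * (1920 * (20 ^ l * l)) ≤
        l.factorial * (N : ℝ) ^ (1 / 20 : ℝ) := by gcongr
    have h12 : (l.factorial : ℝ) * (N : ℝ) ^ (1 / 20 : ℝ) ≤
        bet ^ l * l.factorial * (N : ℝ) ^ (1 / 20 : ℝ) := by
      have : (0 : ℝ) ≤ (l.factorial : ℝ) * (N : ℝ) ^ (1 / 20 : ℝ) := by positivity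
      nlinarith
    linarith
  have hZ : D / 4 ≤ ‖Z l (((11 / 10 : ℝ) : ℂ) + τ * I)‖ := by
    have h1 := Z_ge_S l (x := 11 / 10) (by norm_num) N τ
    linarith
  -- transfer to the line 1
  have hA2 : A l 2 * Real.exp 1 ≤ DL l / 8 := by
    have h1 := A_bound hl1' (x := 1) one_pos le_rfl
    rw [Real.one_rpow, mul_one, show (1 : ℝ) + 1 = 2 by norm_num] at h1
    have h2 := hl1 l hll1
    have h3 : Real.exp 1 * Real.exp 1 * Real.exp 1 ≤ 27 := by nlinarith
    unfold DL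
    rw [div_div, le_div_iff₀ (by positivity)]
    calc A l 2 * Real.exp 1 * (8 * Real.exp 1 * l * 8) ≤
        (Real.exp 1 * (l + 2) * l.factorial) * Real.exp 1 * (8 * Real.exp 1 * l * 8) := by gcongr
      _ = 64 * (Real.exp 1 * Real.exp 1 * Real.exp 1) * (l * (l + 2)) * l.factorial := by ring
      _ ≤ 64 * 27 * (l * (3 * l)) * l.factorial := by
          gcongr
          linarith
      _ = 5184 * (l : ℝ) ^ 2 * l.factorial := by ring
      _ ≤ _ := by gcongr
  have hPsmall : (l.factorial * 2 ^ l * (12 * T)) * Real.exp (1 - (T / 8) ^ 2) ≤ DL l / 8 := by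
    have h1 := hT4 T hTT4 l hlT
    rw [Real.rpow_one, one_mul] at h1
    have e1 : (3 : ℝ) * l = 2 * l + l := by ring
    rw [e1, Real.exp_add] at h1
    have h2 : (2 : ℝ) ^ l * l ≤ T := by
      refine le_trans ?_ h1
      gcongr
    have h3 : Real.exp (-((T / 8) ^ 2)) ≤ 8192 / T ^ 4 := by
      have h4 := Real.pow_div_factorial_le_exp ((T / 8) ^ 2) (by positivity) 2
      rw [Real.exp_neg, inv_le_comm₀ (Real.exp_pos _) (by positivity), inv_div]
      refine le_trans (le_of_eq ?_) h4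
      rw [show (Nat.factorial 2 : ℝ) = 2 by norm_num [Nat.factorial]]
      ring
    rw [sub_eq_add_neg, Real.exp_add]
    have h5 : DL l / 8 = bet ^ l * l.factorial / (64 * Real.exp 1 * l) := by
      unfold DL
      rw [div_div]
      congr 1
      ring
    rw [h5, le_div_iff₀ (by positivity)]
    calc l.factorial * 2 ^ l * (12 * T) * (Real.exp 1 * Real.exp (-(T / 8) ^ 2)) *
        (64 * Real.exp 1 * l) ≤
        l.factorial * 2 ^ l * (12 * T) * (Real.exp 1 * (8192 / T ^ 4)) * (64 * Real.exp 1 * l) := by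
          gcongr
      _ = l.factorial * (2 ^ l * l) * (Real.exp 1 * Real.exp 1) * (768 * 8192 / T ^ 3) := by
          field_simp
          norm_num
      _ ≤ l.factorial * T * 8 * (768 * 8192 / T ^ 3) := by
          gcongr
          nlinarith
      _ = l.factorial * (8 * 768 * 8192 / T ^ 2) := by field_simp
      _ ≤ l.factorial * 1 := by
          gcongr
          rw [div_le_one (by positivity)]
          have : (8 * 768 * 8192 : ℝ) ≤ 7100 ^ 2 := by norm_num
          exact this.trans (pow_le_pow_left₀ (by norm_num) hTb 2)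
      _ ≤ bet ^ l * l.factorial := by
          rw [mul_one]
          nlinarith
  have hM0 : 0 ≤ M := (norm_nonneg _).trans (hM T ⟨le_rfl, by linarith⟩)
  have him : ∀ z : ℂ, |z.im - τ| ≤ T / 8 → T ≤ z.im ∧ z.im ≤ 2 * T ∧ |z.im| = z.im := by
    intro z hz
    rw [abs_le] at hz
    have : T ≤ z.im := by linarith [hτ.1]
    exact ⟨this, by linarith [hτ.2], abs_of_pos (by linarith)⟩
  have hrect : ‖Z l (((11 / 10 : ℝ) : ℂ) + τ * I)‖ ≤ max (M * Real.exp 1) (DL l / 8) := by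
    apply rect_gauss (F := Z l) (x1 := 1) (x2 := 2) (t1 := τ) (H := T / 8) (x0 := 11 / 10)
      (lam := 0) (A := M) (B := A l 2) (P := l.factorial * 2 ^ l * (12 * T)) (by norm_num)
      (by norm_num) (by norm_num) (by positivity)
    · intro z _ _ hz
      obtain ⟨h4, _, h6⟩ := him z hz
      exact Z_diffAt l (ne_one_of_im (by rw [h6]; linarith))
    · intro z hz hz2
      obtain ⟨h4, h5, h6⟩ := him z hz2
      have := hM z.im ⟨h4, h5⟩
      have e : (1 + z.im * I : ℂ) = z := by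
        apply Complex.ext
        · simp [hz]
        · simp
      rw [e] at this
      exact this
    · intro z hz _
      have := Z_norm_le_A l (s := z) (by rw [hz]; norm_num)
      rwa [hz] at this
    · intro z hz1 hz2 hz3
      obtain ⟨h4, h5, h6⟩ := him z hz3.le
      exact poly_bd1 l (by linarith) hz1 (by linarith) (by rw [h6]; linarith)
        (by rw [h6]; linarith)
    · refine le_trans ?_ (le_max_left _ _)
      apply mul_le_mul_of_nonneg_left _ hM0
      apply Real.exp_le_exp.2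
      norm_num
    · refine le_trans ?_ (le_max_right _ _)
      refine le_trans ?_ hA2
      apply mul_le_mul_of_nonneg_left _ (A_pos l (by norm_num)).le
      apply Real.exp_le_exp.2
      norm_num
    · refine le_trans ?_ (le_max_right _ _)
      refine le_trans (le_of_eq ?_) hPsmall
      norm_num
  have hfin := hZ.trans hrect
  rcases le_max_iff.1 hfin with h | h
  · rw [div_le_iff₀ (by positivity)]
    linarith
  · exfalso
    linarith

end Pool.Agent.X110.ZB
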