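import Mathlib
import Pool.Agent.X110.ZI

set_option autoImplicit false

/-!
`M_l(T) → ∞` for fixed `l`, and the two steps `M_l < M_{l+1}`.
-/

namespace Pool.Agent.X110.ZB

open Complex Metric Set Filter Topology

lemma A_unbounded (l : ℕ) (B : ℝ) : ∃ x : ℝ, 1 < x ∧ x < 2 ∧ B < A l x := by
  -- partial sums at `x = 1`
  obtain ⟨N, hN⟩ : ∃ N : ℕ, B < ∑ n ∈ Finset.range N, a l 1 n := by
    have h1 := Real.tendsto_sum_range_one_div_nat_succ_atTop
    obtain ⟨N, hN⟩ := (h1.eventually_gt_atTop (B + 3 / 2)).exists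
    refine ⟨N, ?_⟩
    have h2 : ∀ n ∈ Finset.range N, 1 / ((n : ℝ) + 1) - (if n = 0 then 1 else 0) -
        (if n = 1 then 1 / 2 else 0) ≤ a l 1 n := by
      intro n _
      have h0 := a_nonneg l 1 n
      rcases Nat.lt_or_ge n 2 with h | h
      · interval_cases n
        · simpa using h0
        · norm_num at h0 ⊢
          exact h0
      · have h3 : n ≠ 0 := by omega
        have h4 : n ≠ 1 := by omega
        rw [if_neg h3, if_neg h4, sub_zero, sub_zero]
        unfold a
        have h5 : (2 : ℝ) ≤ n := by exact_mod_cast h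
        have h6 : 1 ≤ Real.log ((n : ℝ) + 1) := by
          rw [Real.le_log_iff_exp_le (by linarith)]
          have := Real.exp_one_lt_d9
          linarith
        rw [Real.rpow_neg_one, ← one_div]
        have h7 : 1 ≤ Real.log ((n : ℝ) + 1) ^ l := one_le_pow₀ h6
        have h8 : 0 < 1 / ((n : ℝ) + 1) := by positivity
        nlinarith
    have h3 := Finset.sum_le_sum h2
    rw [Finset.sum_sub_distrib, Finset.sum_sub_distrib] at h3
    have h4 : ∑ n ∈ Finset.range N, (if n = 0 then (1 : ℝ) else 0) ≤ 1 := by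
      rw [Finset.sum_ite_eq' (Finset.range N) 0]
      split_ifs <;> norm_num
    have h5 : ∑ n ∈ Finset.range N, (if n = 1 then (1 / 2 : ℝ) else 0) ≤ 1 / 2 := by
      rw [Finset.sum_ite_eq' (Finset.range N) 1]
      split_ifs <;> norm_num
    linarith
  have hcont : Continuous (fun x : ℝ => ∑ n ∈ Finset.range N, a l x n) := by
    apply continuous_finsetSum
    intro n _
    unfold a
    apply Continuous.mul continuous_const
    apply Continuous.rpow continuous_const continuous_neg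
    intro x
    left
    positivity
  have h1 : ∀ᶠ x in 𝓝 (1 : ℝ), B < ∑ n ∈ Finset.range N, a l x n :=
    hcont.continuousAt.eventually_const_lt hN
  obtain ⟨ε, hε, h2⟩ := Metric.eventually_nhds_iff.1 h1
  set x := 1 + min (ε / 2) (1 / 2) with hx
  have hm : 0 < min (ε / 2) (1 / 2) := by positivity
  have hx1 : 1 < x := by linarith
  refine ⟨x, hx1, ?_, ?_⟩
  · have := min_le_right (ε / 2) (1 / 2)
    linarith
  · have h3 : dist x 1 < ε := by
      rw [Real.dist_eq, hx, add_sub_cancel_left, abs_of_pos hm]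
      have := min_le_left (ε / 2) (1 / 2)
      linarith
    refine lt_of_lt_of_le (h2 h3) ?_
    exact (a_summable l hx1).sum_le_tsum _ fun n _ => a_nonneg l x n

lemma M_unbounded (l : ℕ) (B : ℝ) : ∃ T0 : ℝ, ∀ T : ℝ, T0 ≤ T → ∀ M : ℝ,
    (∀ t ∈ Icc T (2 * T), ‖Z l (1 + t * I)‖ ≤ M) → B ≤ M := by
  set B' := 2 * max (B * Real.exp 1) (A l 2 * Real.exp 1) with hB'
  obtain ⟨x, hx1, hx2, hx3⟩ := A_unbounded l B'
  have hA2 := A_pos l (by norm_num : (1 : ℝ) < 2)
  obtain ⟨T0, hT0⟩ := lower_M l (σ := 1) (x := x) (x2 := 2) (lam := 0) (c := 1 / 2) one_pos le_rfl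
    hx1 hx2 (by norm_num) (by norm_num)
  refine ⟨max T0 1, fun T hT M hM => ?_⟩
  have hT1 : T0 ≤ T := (le_max_left _ _).trans hT
  have hT2 : 1 ≤ T := (le_max_right _ _).trans hT
  have h1 := hT0 T hT1 M (by simpa using hM)
  have hM0 : 0 ≤ M := (norm_nonneg _).trans (hM T ⟨le_rfl, by linarith⟩)
  have h2 : max (M * Real.exp (0 * (x - 1) + (x - 1) ^ 2))
      (A l 2 * Real.exp (-0 * (2 - x) + (2 - x) ^ 2)) ≤
      max (M * Real.exp 1) (A l 2 * Real.exp 1) := by
    apply max_le_max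
    · apply mul_le_mul_of_nonneg_left _ hM0
      apply Real.exp_le_exp.2
      nlinarith
    · apply mul_le_mul_of_nonneg_left _ hA2.le
      apply Real.exp_le_exp.2
      nlinarith
  have h12 := h1.trans h2
  have h3 : max (B * Real.exp 1) (A l 2 * Real.exp 1) < max (M * Real.exp 1) (A l 2 * Real.exp 1) := by
    rw [hB'] at hx3
    linarith
  rcases lt_max_iff.1 h3 with h4 | h4
  · have h5 := lt_of_le_of_lt (le_max_left _ _) h4
    exact (lt_of_mul_lt_mul_right h5 (Real.exp_pos _).le).le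
  · exact absurd (lt_of_le_of_lt (le_max_right _ _) h4) (lt_irrefl _)

/-- the common set-up of the two steps: `ε = 1/√T`, `α = 1/20`. -/
lemma crude {a : ℝ} (ha : 1 / 8 ≤ a) (ha1 : a ≤ 1) : ∃ T0 : ℝ, ∀ T : ℝ, T0 ≤ T → ∀ l : ℕ,
    (l : ℝ) ≤ Real.log T →
    (((l + 1).factorial : ℝ) * 2 ^ (l + 1) * (12 * T)) * ((T / 2 + a) / a) ^ ((l : ℝ) + 2) *
      Real.exp (1 / 20 * ((l : ℝ) + 2) * a - 1 / Real.sqrt T * (T / 2)) ≤ 1 := by
  -- `(log T)^2 = o(√T)`
  have h0 : ∀ᶠ T : ℝ in atTop, (4 * Real.log T + 10) * (Real.log T + Real.log 5) ≤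
      Real.sqrt T / 2 := by
    have h1 : (fun T : ℝ => Real.log T) =o[atTop] fun T => T ^ (1 / 8 : ℝ) :=
      isLittleO_log_rpow_atTop (by norm_num)
    have h2 := h1.bound (c := 1) one_pos
    have h3 : Tendsto (fun T : ℝ => T ^ (1 / 8 : ℝ)) atTop atTop := tendsto_rpow_atTop (by norm_num)
    filter_upwards [h2, eventually_ge_atTop (1 : ℝ), h3.eventually_ge_atTop (84 : ℝ)] with T h4 h5 h6
    rw [one_mul, Real.norm_of_nonneg (Real.log_nonneg h5), Real.norm_of_nonneg (by positivity)] at h4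
    set y := T ^ (1 / 8 : ℝ) with hy
    have h7 : Real.sqrt T = y ^ 4 := by
      rw [hy, Real.sqrt_eq_rpow, ← Real.rpow_natCast, ← Real.rpow_mul (by linarith)]
      norm_num
    have h8 : Real.log 5 ≤ 2 := by
      have := Real.log_le_sub_one_of_pos (by norm_num : (0 : ℝ) < 5 / 4)
      have h9 : Real.log 5 = Real.log (5 / 4) + Real.log 2 + Real.log 2 := by
        rw [← Real.log_mul (by norm_num) (by norm_num), ← Real.log_mul (by norm_num) (by norm_num)]
        norm_num
      have := Real.log_two_lt_d9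
      linarith
    have hlog := Real.log_nonneg h5
    rw [h7]
    have h10 : (4 * Real.log T + 10) * (Real.log T + Real.log 5) ≤ (4 * y + 10) * (y + 2) := by
      have : 0 ≤ Real.log 5 := Real.log_nonneg (by norm_num)
      gcongr
    have h11 : (4 * y + 10) * (y + 2) ≤ 42 * y ^ 2 := by nlinarith
    have h12 : 42 * y ^ 2 ≤ y ^ 4 / 2 := by
      have h13 : 84 ≤ y ^ 2 := by nlinarith
      have h14 : y ^ 4 = y ^ 2 * y ^ 2 := by ring
      rw [h14]
      nlinarith
    linarith
  obtain ⟨T1, hT1⟩ := eventually_atTop.1 h0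
  refine ⟨max T1 16, fun T hT l hl => ?_⟩
  have hTT1 : T1 ≤ T := (le_max_left _ _).trans hT
  have hT16 : 16 ≤ T := (le_max_right _ _).trans hT
  have hT0 : 0 < T := by linarith
  have h1 := hT1 T hTT1
  have hlog5 : Real.log (5 * T) = Real.log T + Real.log 5 := by
    rw [Real.log_mul (by norm_num) hT0.ne', add_comm]
  have hlogT : Real.log T ≤ T := by
    have := Real.log_le_sub_one_of_pos hT0
    linarith
  have h5T : 1 ≤ 5 * T := by linarith
  have hl0 : (0 : ℝ) ≤ l := Nat.cast_nonneg l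
  have e1 : ((l + 1).factorial : ℝ) ≤ (5 * T) ^ ((l : ℝ) + 2) := by
    have h2 : ((l + 1).factorial : ℝ) ≤ ((l + 1 : ℕ) : ℝ) ^ (l + 1) := by
      exact_mod_cast Nat.factorial_le_pow (l + 1)
    have h3 : ((l + 1 : ℕ) : ℝ) ≤ 5 * T := by push_cast; linarith
    calc ((l + 1).factorial : ℝ) ≤ ((l + 1 : ℕ) : ℝ) ^ (l + 1) := h2
      _ ≤ (5 * T) ^ (l + 1) := pow_le_pow_left₀ (by positivity) h3 _
      _ = (5 * T) ^ (((l + 1 : ℕ)) : ℝ) := (Real.rpow_natCast _ _).symm
      _ ≤ _ := by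
        apply Real.rpow_le_rpow_of_exponent_le h5T
        push_cast
        linarith
  have e2 : (2 : ℝ) ^ (l + 1) ≤ (5 * T) ^ ((l : ℝ) + 2) := by
    calc (2 : ℝ) ^ (l + 1) ≤ (5 * T) ^ (l + 1) := pow_le_pow_left₀ (by norm_num) (by linarith) _
      _ = (5 * T) ^ (((l + 1 : ℕ)) : ℝ) := (Real.rpow_natCast _ _).symm
      _ ≤ _ := by
        apply Real.rpow_le_rpow_of_exponent_le h5T
        push_cast
        linarith
  have e3 : 12 * T ≤ (5 * T) ^ (2 : ℝ) := by
    rw [Real.rpow_two]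
    nlinarith
  have e4 : ((T / 2 + a) / a) ^ ((l : ℝ) + 2) ≤ (5 * T) ^ ((l : ℝ) + 2) := by
    apply Real.rpow_le_rpow (by positivity) _ (by positivity)
    rw [div_le_iff₀ (by linarith)]
    nlinarith
  have e5 : Real.exp (1 / 20 * ((l : ℝ) + 2) * a - 1 / Real.sqrt T * (T / 2)) ≤
      (5 * T) ^ ((l : ℝ) + 2) * Real.exp (-(Real.sqrt T / 2)) := by
    rw [Real.rpow_def_of_pos (by positivity), ← Real.exp_add]
    apply Real.exp_le_exp.2
    have h2 : 1 / Real.sqrt T * (T / 2) = Real.sqrt T / 2 := by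
      have hs : 0 < Real.sqrt T := Real.sqrt_pos.2 hT0
      have hs2 : Real.sqrt T * Real.sqrt T = T := Real.mul_self_sqrt hT0.le
      field_simp
      nlinarith
    rw [h2]
    have h3 : 1 ≤ Real.log (5 * T) := by
      rw [Real.le_log_iff_exp_le (by positivity)]
      have := Real.exp_one_lt_d9
      linarith
    have h4 : 1 / 20 * ((l : ℝ) + 2) * a ≤ Real.log (5 * T) * (l + 2) := by
      have h5 : (1 / 20) * ((l : ℝ) + 2) * a ≤ ((l : ℝ) + 2) * 1 := by nlinarith
      nlinarith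
    linarith
  have e6 : (5 * T) ^ ((l : ℝ) + 2) * (5 * T) ^ ((l : ℝ) + 2) * (5 * T) ^ (2 : ℝ) *
      (5 * T) ^ ((l : ℝ) + 2) * ((5 * T) ^ ((l : ℝ) + 2) * Real.exp (-(Real.sqrt T / 2))) ≤ 1 := by
    have h2 : (5 * T) ^ ((l : ℝ) + 2) * (5 * T) ^ ((l : ℝ) + 2) * (5 * T) ^ (2 : ℝ) *
      (5 * T) ^ ((l : ℝ) + 2) * ((5 * T) ^ ((l : ℝ) + 2) * Real.exp (-(Real.sqrt T / 2))) =
      Real.exp ((4 * (l : ℝ) + 10) * Real.log (5 * T) - Real.sqrt T / 2) := by
      rw [Real.rpow_def_of_pos (by positivity), Real.rpow_def_of_pos (by positivity),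
        ← Real.exp_add, ← Real.exp_add, ← Real.exp_add, ← Real.exp_add, ← Real.exp_add]
      congr 1
      ring
    rw [h2, Real.exp_le_one_iff]
    have h3 : (4 * (l : ℝ) + 10) * Real.log (5 * T) ≤ (4 * Real.log T + 10) * Real.log (5 * T) := by
      have h4 : 0 ≤ Real.log (5 * T) := Real.log_nonneg h5T
      gcongr
    rw [hlog5] at h3 ⊢
    linarith
  refine le_trans ?_ e6
  gcongr

lemma sq_le_fact (l : ℕ) (hl : 4 ≤ l) : l ^ 2 ≤ l.factorial := by
  induction l, hl using Nat.le_induction with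
  | base => decide
  | succ l hl ih =>
    rw [Nat.factorial_succ]
    calc (l + 1) ^ 2 = (l + 1) * (l + 1) := by ring
      _ ≤ (l + 1) * l ^ 2 := by
          apply Nat.mul_le_mul_left
          nlinarith
      _ ≤ (l + 1) * l.factorial := Nat.mul_le_mul_left _ ih

/-- the step for large `l` -/
lemma step_large : ∃ l0 : ℕ, ∃ T0 : ℝ, ∀ T : ℝ, T0 ≤ T → ∀ l : ℕ, l0 ≤ l →
    (l : ℝ) ≤ Real.log T / Real.log (Real.log T) → ∀ M t0 : ℝ, t0 ∈ Icc T (2 * T) →
    (∀ t ∈ Icc T (2 * T), ‖Z l (1 + t * I)‖ ≤ M) → ‖Z l (1 + t0 * I)‖ = M →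
    ¬ (∀ t ∈ Icc T (2 * T), ‖Z (l + 1) (1 + t * I)‖ ≤ M) := by
  obtain ⟨l1, T1, hlow⟩ := lower_unif
  obtain ⟨T2, hcrude⟩ := crude (a := 19 / 20) (by norm_num) (by norm_num)
  have hb := bet_gt
  have he1 := Real.exp_one_gt_d9
  have he2 := Real.exp_one_lt_d9
  -- the rate
  set κ : ℝ := (20 / 19) * Real.exp (Real.exp (-1) + 1 / 20 * (19 / 20)) with hκ
  have hκ0 : 0 < κ := by positivity
  have hκb : κ < bet := by
    have h1 : Real.exp (-1) < 0.368 := by
      rw [Real.exp_neg, inv_lt_comm₀ (Real.exp_pos _) (by norm_num)]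
      refine lt_of_le_of_lt ?_ he1
      norm_num
    have h2 : Real.exp (Real.exp (-1) + 1 / 20 * (19 / 20)) * Real.exp (1 / 5) < 1.9 := by
      rw [← Real.exp_add]
      have h3 : Real.exp (-1) + 1 / 20 * (19 / 20) + 1 / 5 ≤ Real.log 1.9 := by
        have h4 : Real.log 1.9 = Real.log 2 - Real.log (20 / 19) := by
          rw [← Real.log_div (by norm_num) (by norm_num)]
          norm_num
        have h5 : Real.log (20 / 19) ≤ 20 / 19 - 1 := Real.log_le_sub_one_of_pos (by norm_num)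
        have h6 := Real.log_two_gt_d9
        rw [h4]
        norm_num at h1 h5 h6 ⊢
        linarith
      have h7 : Real.exp (-1) + 1 / 20 * (19 / 20) + 1 / 5 < Real.log 1.9 := by
        have h4 : Real.log 1.9 = Real.log 2 - Real.log (20 / 19) := by
          rw [← Real.log_div (by norm_num) (by norm_num)]
          norm_num
        have h5 : Real.log (20 / 19) ≤ 20 / 19 - 1 := Real.log_le_sub_one_of_pos (by norm_num)
        have h6 := Real.log_two_gt_d9
        rw [h4]
        norm_num at h1 h5 h6 ⊢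
        linarith
      calc Real.exp (Real.exp (-1) + 1 / 20 * (19 / 20) + 1 / 5) < Real.exp (Real.log 1.9) :=
            Real.exp_lt_exp.2 h7
        _ = 1.9 := Real.exp_log (by norm_num)
    have h8 : bet * Real.exp (1 / 5) = 2 := by
      unfold bet
      rw [mul_assoc, ← Real.exp_add]
      norm_num
    have h9 : κ * Real.exp (1 / 5) < bet * Real.exp (1 / 5) := by
      rw [h8, hκ, mul_assoc]
      nlinarith
    exact lt_of_mul_lt_mul_right h9 (Real.exp_pos _).le
  have hr : 1 < bet / κ := (one_lt_div hκ0).2 hκb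
  obtain ⟨l2, hl2⟩ := event_pow (32 * Real.exp 1 ^ 3 * 8 * κ ^ 2) 3 hr
  have hr2 : 1 < bet * (19 / 20) := by nlinarith
  obtain ⟨l3, hl3⟩ := event_pow (100 * (32 * Real.exp 1 ^ 3 * 3 * (20 / 19))) 2 hr2
  obtain ⟨l4, hl4⟩ := event_pow 1 1 (r := bet) (by linarith)
  refine ⟨max (max 3000 l1) (max l2 (max l3 l4)), max (max T1 T2) 16,
    fun T hT l hl hlT M t0 ht0 hM hMt0 hcon => ?_⟩
  have hTT1 : T1 ≤ T := ((le_max_left _ _).trans (le_max_left _ _)).trans hT
  have hTT2 : T2 ≤ T := ((le_max_right _ _).trans (le_max_left _ _)).trans hT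
  have hT16 : 16 ≤ T := (le_max_right _ _).trans hT
  have hT0 : 0 < T := by linarith
  have hll0 : 3000 ≤ l := ((le_max_left _ _).trans (le_max_left _ _)).trans hl
  have hll1 : l1 ≤ l := ((le_max_right _ _).trans (le_max_left _ _)).trans hl
  have hll2 : l2 ≤ l := ((le_max_left _ _).trans (le_max_right _ _)).trans hl
  have hll3 : l3 ≤ l := ((le_max_left _ _).trans ((le_max_right _ _).trans (le_max_right _ _))).trans hl
  have hll4 : l4 ≤ l := ((le_max_right _ _).trans ((le_max_right _ _).trans (le_max_right _ _))).trans hl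
  have hl1' : 1 ≤ l := by omega
  have hlr : (3000 : ℝ) ≤ l := by exact_mod_cast hll0
  have hlow' := hlow T hTT1 l hll1 hlT M hM
  have hDL0 := DL_pos hl1'
  have hM0 : 0 < M := lt_of_lt_of_le (by positivity) hlow'
  have hMb : bet ^ l * l.factorial / (32 * Real.exp 1 ^ 2 * l) ≤ M := by
    refine le_trans (le_of_eq ?_) hlow'
    unfold DL
    rw [div_div]
    congr 1
    ring
  rw [div_le_iff₀ (by positivity)] at hMb
  have hllog : (l : ℝ) ≤ Real.log T := by
    have hlogT : 2.7 ≤ Real.log T := by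
      rw [Real.le_log_iff_exp_le hT0]
      have : Real.exp 2.7 ≤ 16 := by
        have h1 : Real.exp 2.7 ≤ Real.exp (4 * Real.log 2) := by
          apply Real.exp_le_exp.2
          have := Real.log_two_gt_d9
          norm_num at this ⊢
          linarith
        have h2 : Real.exp (4 * Real.log 2) = 16 := by
          rw [show (4 : ℝ) * Real.log 2 = ((4 : ℕ) : ℝ) * Real.log 2 by norm_num, Real.exp_nat_mul,
            Real.exp_log (by norm_num)]
          norm_num
        linarith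
      linarith
    by_contra hneg
    push Not at hneg
    rcases le_or_gt (Real.log (Real.log T)) 0 with h | h
    · have h1 : Real.log T / Real.log (Real.log T) ≤ 0 :=
        div_nonpos_of_nonneg_of_nonpos (by linarith) h
      linarith
    · rw [le_div_iff₀ h] at hlT
      have h2 : Real.log (Real.log T) < 1 := by nlinarith
      rw [Real.log_lt_iff_lt_exp (by linarith)] at h2
      have : (l : ℝ) * Real.log (Real.log T) ≤ 3 := by linarith
      have h3 : Real.log (Real.log T) ≤ 1 / 1000 := by nlinarith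
      have h4 : 1 - 1 / Real.log T ≤ Real.log (Real.log T) := by
        have := Real.one_sub_inv_le_log_of_pos (by linarith : 0 < Real.log T)
        rw [one_div]
        exact this
      have h5 : 1 / Real.log T ≤ 1 / 2.7 := one_div_le_one_div_of_le (by norm_num) hlogT
      have h6 : (1 : ℝ) / 2.7 < 1 / 2 := by norm_num
      linarith
  have hfac0 : (0 : ℝ) < l.factorial := by exact_mod_cast Nat.factorial_pos l
  have hbl0 : 0 < bet ^ l := by
    have : 0 < bet := by linarith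
    positivity
  have hMone : 1 ≤ M := by
    have h1 := hl2 l hll2
    have h2 : 1 ≤ (l.factorial : ℝ) := by exact_mod_cast Nat.succ_le_of_lt (Nat.factorial_pos l)
    have h3 : (l : ℝ) ^ 2 ≤ l.factorial := by
      exact_mod_cast sq_le_fact l (by omega)
    have h6 := hl4 l hll4
    rw [pow_one, one_mul] at h6
    -- M ≥ l * l^2 / (32 e^2 l) ≥ 1
    have h7 : (l : ℝ) * l ^ 2 ≤ M * (32 * Real.exp 1 ^ 2 * l) := by
      refine le_trans ?_ hMb
      gcongr
    have h8 : Real.exp 1 ^ 2 ≤ 8 := by nlinarith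
    have h9 : (l : ℝ) ^ 2 ≤ M * 256 := by
      have h10 : (l : ℝ) ^ 2 * l ≤ (M * 256) * l := by
        calc (l : ℝ) ^ 2 * l = l * l ^ 2 := by ring
          _ ≤ M * (32 * Real.exp 1 ^ 2 * l) := h7
          _ ≤ M * (32 * 8 * l) := by gcongr
          _ = _ := by ring
      exact le_of_mul_le_mul_right h10 (by linarith)
    nlinarith
  have hsq : 4 ≤ Real.sqrt T := by
    rw [Real.le_sqrt (by norm_num) hT0.le]
    linarith
  have hkey := key (l := l) (T := T) (M := M) (a := 19 / 20) (α := 1 / 20) (ε := 1 / Real.sqrt T)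
    (t0 := t0) (P := ((l + 1).factorial : ℝ) * 2 ^ (l + 1) * (12 * T))
    (C0 := Real.exp 1 * (((l + 1 : ℕ) : ℝ) + 2) * (l + 1).factorial)
    (by linarith) (by norm_num) (by norm_num) (by norm_num) (by positivity) hM0.le (by positivity)
    hcon ht0
    (by
      intro z h1 h2 h3 h4
      exact poly_bd1 (l + 1) (by linarith) h1 h2 h3 h4)
    (by
      intro x hx0 hxa
      have h1 := A_bound (j := l + 1) (by omega) hx0 (by linarith)
      have e : (((l + 1 : ℕ) : ℝ) + 1) = (l : ℝ) + 2 := by push_cast; ring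
      rw [e] at h1
      exact h1)
    (by
      -- (C1)
      have h1 := hl2 l hll2
      have e1 : (19 / 20 : ℝ) ^ (-((l : ℝ) + 2)) * Real.exp (Real.exp (-1) * ((l : ℝ) + 2) +
          1 / 20 * ((l : ℝ) + 2) * (19 / 20)) = κ ^ (l + 2) := by
        rw [hκ, mul_pow, ← Real.exp_nat_mul, Real.rpow_neg (by norm_num),
          ← Real.inv_rpow (by norm_num), show ((l : ℝ) + 2) = ((l + 2 : ℕ) : ℝ) by push_cast; ring,
          Real.rpow_natCast]
        congr 1
        · norm_num
        · congr 1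
          ring
      rw [mul_assoc, e1]
      have h2 : κ ^ l * (32 * Real.exp 1 ^ 3 * 8 * κ ^ 2 * (l : ℝ) ^ 3) ≤ bet ^ l := by
        rw [div_pow, le_div_iff₀ (by positivity)] at h1
        linarith
      have h3 : (Real.exp 1 * (((l + 1 : ℕ) : ℝ) + 2) * (l + 1).factorial * κ ^ (l + 2)) *
          (32 * Real.exp 1 ^ 2 * l) ≤ M * (32 * Real.exp 1 ^ 2 * l) := by
        refine le_trans ?_ hMb
        rw [Nat.factorial_succ]
        push_cast
        have h4 : ((l : ℝ) + 1 + 2) * (l + 1) * l ≤ 8 * (l : ℝ) ^ 3 := by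
          calc ((l : ℝ) + 1 + 2) * (l + 1) * l ≤ (4 * l) * (2 * l) * l := by
                gcongr <;> linarith
            _ = 8 * (l : ℝ) ^ 3 := by ring
        calc Real.exp 1 * ((l : ℝ) + 1 + 2) * ((l + 1) * l.factorial) * κ ^ (l + 2) *
            (32 * Real.exp 1 ^ 2 * l) =
            κ ^ l * (32 * Real.exp 1 ^ 3 * κ ^ 2 * (((l : ℝ) + 1 + 2) * (l + 1) * l)) *
              l.factorial := by ring
          _ ≤ κ ^ l * (32 * Real.exp 1 ^ 3 * κ ^ 2 * (8 * (l : ℝ) ^ 3)) * l.factorial := by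
              gcongr
          _ = κ ^ l * (32 * Real.exp 1 ^ 3 * 8 * κ ^ 2 * (l : ℝ) ^ 3) * l.factorial := by ring
          _ ≤ _ := by gcongr
      exact le_of_mul_le_mul_right h3 (by positivity))
    (le_trans (hcrude T hTT2 l hllog) hMone)
  rw [hMt0] at hkey
  -- (iii)
  have hA : A l (1 + 19 / 20) ≤ M / 100 := by
    have h1 := A_bound (j := l) hl1' (x := 19 / 20) (by norm_num) (by norm_num)
    have h2 := hl3 l hll3
    have e1 : (19 / 20 : ℝ) ^ (-((l : ℝ) + 1)) = (20 / 19) ^ (l + 1) := by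
      rw [Real.rpow_neg (by norm_num), ← Real.inv_rpow (by norm_num),
        show ((l : ℝ) + 1) = ((l + 1 : ℕ) : ℝ) by push_cast; ring, Real.rpow_natCast]
      norm_num
    rw [e1] at h1
    refine h1.trans ?_
    have h3 : (Real.exp 1 * ((l : ℝ) + 2) * l.factorial * (20 / 19) ^ (l + 1)) *
        (32 * Real.exp 1 ^ 2 * l * 100) ≤ (M / 100) * (32 * Real.exp 1 ^ 2 * l * 100) := by
      have e2 : (M / 100) * (32 * Real.exp 1 ^ 2 * l * 100) = M * (32 * Real.exp 1 ^ 2 * l) := by
        ring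
      rw [e2]
      refine le_trans ?_ hMb
      have h4 : ((l : ℝ) + 2) * l ≤ 3 * (l : ℝ) ^ 2 := by nlinarith
      have e3 : bet ^ l = (bet * (19 / 20)) ^ l * (20 / 19) ^ l := by
        rw [← mul_pow]
        congr 1
        ring
      calc Real.exp 1 * ((l : ℝ) + 2) * l.factorial * (20 / 19) ^ (l + 1) *
          (32 * Real.exp 1 ^ 2 * l * 100) =
          (100 * (32 * Real.exp 1 ^ 3 * (20 / 19)) * (((l : ℝ) + 2) * l)) * (20 / 19) ^ l *
            l.factorial := by ring
        _ ≤ (100 * (32 * Real.exp 1 ^ 3 * (20 / 19)) * (3 * (l : ℝ) ^ 2)) * (20 / 19) ^ l *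
            l.factorial := by gcongr
        _ = (100 * (32 * Real.exp 1 ^ 3 * 3 * (20 / 19)) * (l : ℝ) ^ 2) * (20 / 19) ^ l *
            l.factorial := by ring
        _ ≤ (bet * (19 / 20)) ^ l * (20 / 19) ^ l * l.factorial := by gcongr
        _ = _ := by rw [e3]
    exact le_of_mul_le_mul_right h3 (by positivity)
  have hmin : M * Real.exp (1 / Real.sqrt T * (19 / 20)) *
      min (19 / 20) (1 / (1 / 20 * ((l : ℝ) + 2))) ≤ M / 50 := by
    have h1 : Real.exp (1 / Real.sqrt T * (19 / 20)) ≤ 2 := by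
      have h2 : 1 / Real.sqrt T * (19 / 20) ≤ Real.log 2 := by
        have h3 : 1 / Real.sqrt T ≤ 1 / 4 := one_div_le_one_div_of_le (by norm_num) hsq
        have := Real.log_two_gt_d9
        have h4 : (0.6931471803 : ℝ) > 1 / 2 := by norm_num
        linarith
      calc _ ≤ Real.exp (Real.log 2) := Real.exp_le_exp.2 h2
        _ = 2 := Real.exp_log (by norm_num)
    have h3 : min (19 / 20) (1 / (1 / 20 * ((l : ℝ) + 2))) ≤ 1 / 100 := by
      refine (min_le_right _ _).trans ?_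
      rw [div_le_div_iff₀ (by positivity) (by norm_num)]
      linarith
    calc _ ≤ M * 2 * (1 / 100) := by gcongr
      _ = _ := by ring
  linarith

/-- the step for a fixed `l` -/
lemma step_small (l : ℕ) (hl : 1 ≤ l) : ∃ T0 : ℝ, ∀ T : ℝ, T0 ≤ T → ∀ M t0 : ℝ,
    t0 ∈ Icc T (2 * T) →
    (∀ t ∈ Icc T (2 * T), ‖Z l (1 + t * I)‖ ≤ M) → ‖Z l (1 + t0 * I)‖ = M →
    ¬ (∀ t ∈ Icc T (2 * T), ‖Z (l + 1) (1 + t * I)‖ ≤ M) := by
  obtain ⟨T2, hcrude⟩ := crude (a := 1 / 8) (by norm_num) (by norm_num)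
  set B1 : ℝ := (Real.exp 1 * (((l + 1 : ℕ) : ℝ) + 2) * (l + 1).factorial) *
    (1 / 8 : ℝ) ^ (-((l : ℝ) + 2)) *
    Real.exp (Real.exp (-1) * ((l : ℝ) + 2) + 1 / 20 * ((l : ℝ) + 2) * (1 / 8)) with hB1
  obtain ⟨T1, hT1⟩ := M_unbounded l (max (max B1 1) (8 * A l (1 + 1 / 8)))
  refine ⟨max (max T1 T2) (max 16 (Real.exp l)), fun T hT M t0 ht0 hM hMt0 hcon => ?_⟩
  have hTT1 : T1 ≤ T := ((le_max_left _ _).trans (le_max_left _ _)).trans hT
  have hTT2 : T2 ≤ T := ((le_max_right _ _).trans (le_max_left _ _)).trans hT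
  have hT16 : 16 ≤ T := ((le_max_left _ _).trans (le_max_right _ _)).trans hT
  have hTl : Real.exp l ≤ T := ((le_max_right _ _).trans (le_max_right _ _)).trans hT
  have hT0 : 0 < T := by linarith
  have hllog : (l : ℝ) ≤ Real.log T := (Real.le_log_iff_exp_le hT0).2 hTl
  have hMB := hT1 T hTT1 M hM
  have hMB1 : B1 ≤ M := ((le_max_left _ _).trans (le_max_left _ _)).trans hMB
  have hMone : 1 ≤ M := ((le_max_right _ _).trans (le_max_left _ _)).trans hMB
  have hMA : 8 * A l (1 + 1 / 8) ≤ M := (le_max_right _ _).trans hMB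
  have hsq : 4 ≤ Real.sqrt T := by
    rw [Real.le_sqrt (by norm_num) hT0.le]
    linarith
  have hM0 : 0 < M := by linarith
  have hkey := key (l := l) (T := T) (M := M) (a := 1 / 8) (α := 1 / 20) (ε := 1 / Real.sqrt T)
    (t0 := t0) (P := ((l + 1).factorial : ℝ) * 2 ^ (l + 1) * (12 * T))
    (C0 := Real.exp 1 * (((l + 1 : ℕ) : ℝ) + 2) * (l + 1).factorial)
    (by linarith) (by norm_num) (by norm_num) (by norm_num) (by positivity) hM0.le (by positivity)
    hcon ht0
    (by
      intro z h1 h2 h3 h4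
      exact poly_bd1 (l + 1) (by linarith) h1 h2 h3 h4)
    (by
      intro x hx0 hxa
      have h1 := A_bound (j := l + 1) (by omega) hx0 (by linarith)
      have e : (((l + 1 : ℕ) : ℝ) + 1) = (l : ℝ) + 2 := by push_cast; ring
      rw [e] at h1
      exact h1)
    hMB1
    (le_trans (hcrude T hTT2 l hllog) hMone)
  rw [hMt0] at hkey
  have hmin : M * Real.exp (1 / Real.sqrt T * (1 / 8)) *
      min (1 / 8) (1 / (1 / 20 * ((l : ℝ) + 2))) ≤ M / 4 := by
    have h1 : Real.exp (1 / Real.sqrt T * (1 / 8)) ≤ 2 := by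
      have h2 : 1 / Real.sqrt T * (1 / 8) ≤ Real.log 2 := by
        have h3 : 1 / Real.sqrt T ≤ 1 / 4 := one_div_le_one_div_of_le (by norm_num) hsq
        have := Real.log_two_gt_d9
        have h4 : (0.6931471803 : ℝ) > 1 / 2 := by norm_num
        linarith
      calc _ ≤ Real.exp (Real.log 2) := Real.exp_le_exp.2 h2
        _ = 2 := Real.exp_log (by norm_num)
    have h3 : min (1 / 8) (1 / (1 / 20 * ((l : ℝ) + 2))) ≤ 1 / 8 := min_le_left _ _
    calc _ ≤ M * 2 * (1 / 8) := by gcongr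
      _ = _ := by ring
  linarith

end Pool.Agent.X110.ZB
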