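import Pool.Agent.Y755.Res

set_option autoImplicit false

/-! Twisted sums of squares of generalised divisor functions: the Euler product. -/

namespace Pool.Agent.X110.NA

open Finset Filter Topology
open Pool.Agent.Y755
open Pool.Agent.H306R2 (dv dv_nonneg dv_one dv_prime_pow lc lc_zero lc_nonneg dA_mult dA_apply aF)

lemma lc_pos {α : ℝ} (hα : 0 < α) (m : ℕ) : 0 < lc α m := by
  unfold lc; exact prod_pos fun i _ => by positivity

/-- divisor function through the exponents -/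
lemma dv_eq_prod (α : ℝ) {n : ℕ} (hn : n ≠ 0) {S : Finset ℕ} (hS : n.primeFactors ⊆ S) :
    dv α n = ∏ p ∈ S, lc α (n.factorization p) := by
  unfold dv
  rw [if_neg hn]
  exact Finsupp.prod_of_support_subset _ (by simpa using hS) _ (fun p _ => lc_zero α)

lemma dv_pos {α : ℝ} (hα : 0 < α) {n : ℕ} (hn : n ≠ 0) : 0 < dv α n := by
  rw [dv_eq_prod α hn (subset_refl _)]; exact prod_pos fun p _ => lc_pos hα _

lemma dv_three (α : ℝ) {m a b : ℕ} (hm : m ≠ 0) (ha : a ≠ 0) (hb : b ≠ 0) (hab : a.Coprime b) :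
    dv α (m * (a * b)) * dv α m = dv α (m * a) * dv α (m * b) := by
  obtain ⟨S, hS⟩ : ∃ S : Finset ℕ, S = m.primeFactors ∪ (a.primeFactors ∪ b.primeFactors) := ⟨_, rfl⟩
  have h1 : (m * (a * b)).primeFactors ⊆ S := by
    rw [Nat.primeFactors_mul hm (mul_ne_zero ha hb), Nat.primeFactors_mul ha hb, hS]
  have h2 : m.primeFactors ⊆ S := by rw [hS]; exact subset_union_left
  have h3 : (m * a).primeFactors ⊆ S := by
    rw [Nat.primeFactors_mul hm ha, hS]
    exact union_subset_union_right subset_union_left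
  have h4 : (m * b).primeFactors ⊆ S := by
    rw [Nat.primeFactors_mul hm hb, hS]
    exact union_subset_union_right subset_union_right
  rw [dv_eq_prod α (mul_ne_zero hm (mul_ne_zero ha hb)) h1, dv_eq_prod α hm h2,
    dv_eq_prod α (mul_ne_zero hm ha) h3, dv_eq_prod α (mul_ne_zero hm hb) h4, ← prod_mul_distrib, ← prod_mul_distrib]
  refine prod_congr rfl fun p _ => ?_
  rw [Nat.factorization_mul hm (mul_ne_zero ha hb), Nat.factorization_mul ha hb, Nat.factorization_mul hm ha,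
    Nat.factorization_mul hm hb]
  simp only [Finsupp.add_apply]
  by_cases hpa : a.factorization p = 0
  · rw [hpa, zero_add, add_zero]; ring
  · have hpb : b.factorization p = 0 := by
      by_contra h
      have h5 : p ∈ a.primeFactors := by
        rw [← Nat.support_factorization]; exact Finsupp.mem_support_iff.mpr hpa
      have h6 : p ∈ b.primeFactors := by
        rw [← Nat.support_factorization]; exact Finsupp.mem_support_iff.mpr h
      exact (disjoint_left.mp hab.disjoint_primeFactors h5) h6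
    rw [hpb, add_zero, add_zero]

/-- the normalised twisted coefficients -/
noncomputable def Gt (α δ : ℝ) (m n r : ℕ) : ℝ := dv α (m * r) * dv α (n * r) / (dv α m * dv α n) * wδ δ r

lemma Gt_one {α : ℝ} (hα : 0 < α) (δ : ℝ) {m n : ℕ} (hm : m ≠ 0) (hn : n ≠ 0) : Gt α δ m n 1 = 1 := by
  unfold Gt
  rw [mul_one, mul_one, div_self (mul_pos (dv_pos hα hm) (dv_pos hα hn)).ne']
  simp [wδ]

lemma Gt_zero (α δ : ℝ) (m n : ℕ) : Gt α δ m n 0 = 0 := by
  unfold Gt
  rw [mul_zero]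
  simp [dv]

lemma Gt_nonneg {α : ℝ} (hα : 0 < α) (δ : ℝ) (m n r : ℕ) : 0 ≤ Gt α δ m n r := by
  unfold Gt
  have := dv_nonneg hα.le
  exact mul_nonneg (div_nonneg (mul_nonneg (this _) (this _)) (mul_nonneg (this _) (this _))) (wδ_nonneg _ _)

lemma Gt_mul {α : ℝ} (hα : 0 < α) (δ : ℝ) {m n : ℕ} (hm : m ≠ 0) (hn : n ≠ 0) {a b : ℕ} (hab : a.Coprime b) :
    Gt α δ m n (a * b) = Gt α δ m n a * Gt α δ m n b := by
  rcases Nat.eq_zero_or_pos a with ha | ha
  · subst ha; rw [zero_mul, Gt_zero, zero_mul]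
  rcases Nat.eq_zero_or_pos b with hb | hb
  · subst hb; rw [mul_zero, Gt_zero, mul_zero]
  have h1 := dv_three α hm ha.ne' hb.ne' hab
  have h2 := dv_three α hn ha.ne' hb.ne' hab
  have h3 := dv_pos hα hm
  have h4 := dv_pos hα hn
  unfold Gt
  rw [wδ_mul]
  have e1 : dv α (m * (a * b)) = dv α (m * a) * dv α (m * b) / dv α m := by rw [← h1]; field_simp
  have e2 : dv α (n * (a * b)) = dv α (n * a) * dv α (n * b) / dv α n := by rw [← h2]; field_simp
  rw [e1, e2]
  field_simp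

lemma dv_mul_pow {α : ℝ} (hα : 0 < α) {m p : ℕ} (hm : m ≠ 0) (hp : p.Prime) (e : ℕ) :
    dv α (m * p ^ e) / dv α m = lc α (m.factorization p + e) / lc α (m.factorization p) := by
  obtain ⟨S, hS⟩ : ∃ S : Finset ℕ, S = insert p m.primeFactors := ⟨_, rfl⟩
  have hpe : p ^ e ≠ 0 := pow_ne_zero _ hp.ne_zero
  have h1 : (m * p ^ e).primeFactors ⊆ S := by
    rw [Nat.primeFactors_mul hm hpe, hS]
    refine union_subset (subset_insert _ _) ?_
    intro q hq
    have h2 := Nat.prime_of_mem_primeFactors hq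
    have h3 := h2.dvd_of_dvd_pow (Nat.dvd_of_mem_primeFactors hq)
    rw [(Nat.prime_dvd_prime_iff_eq h2 hp).mp h3]
    exact mem_insert_self _ _
  have h2 : m.primeFactors ⊆ S := by rw [hS]; exact subset_insert _ _
  have hpS : p ∈ S := by rw [hS]; exact mem_insert_self _ _
  rw [dv_eq_prod α (mul_ne_zero hm hpe) h1, dv_eq_prod α hm h2, ← mul_prod_erase S _ hpS, ← mul_prod_erase S (fun q => lc α (m.factorization q)) hpS]
  have e1 : ∏ q ∈ S.erase p, lc α ((m * p ^ e).factorization q) = ∏ q ∈ S.erase p, lc α (m.factorization q) := by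
    refine prod_congr rfl fun q hq => ?_
    rw [mem_erase] at hq
    rw [Nat.factorization_mul hm hpe, Finsupp.add_apply, hp.factorization_pow, Finsupp.single_apply, if_neg hq.1.symm, add_zero]
  have e2 : (m * p ^ e).factorization p = m.factorization p + e := by
    rw [Nat.factorization_mul hm hpe, Finsupp.add_apply, hp.factorization_pow, Finsupp.single_apply, if_pos rfl]
  rw [e1, e2]
  have h3 : 0 < ∏ q ∈ S.erase p, lc α (m.factorization q) := prod_pos fun q _ => lc_pos hα _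
  rw [mul_div_mul_right _ _ h3.ne']

lemma Gt_pow {α : ℝ} (hα : 0 < α) (δ : ℝ) {m n : ℕ} (hm : m ≠ 0) (hn : n ≠ 0) {p : ℕ} (hp : p.Prime) (e : ℕ) :
    Gt α δ m n (p ^ e) = lc α (m.factorization p + e) * lc α (n.factorization p + e) /
      (lc α (m.factorization p) * lc α (n.factorization p)) * (rp δ p ^ 2) ^ e := by
  unfold Gt
  rw [wδ_pow δ hp]
  have h1 := dv_mul_pow hα hm hp e
  have h2 := dv_mul_pow hα hn hp e
  have e1 : dv α (m * p ^ e) * dv α (n * p ^ e) / (dv α m * dv α n) =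
      (dv α (m * p ^ e) / dv α m) * (dv α (n * p ^ e) / dv α n) := by rw [div_mul_div_comm]
  rw [e1, h1, h2, div_mul_div_comm]

/-- a twisted sum of squares converges -/
lemma sq_shift_summable {α δ : ℝ} (hα : 0 < α) (hδ : 0 < δ) {m : ℕ} (hm : m ≠ 0) :
    Summable fun r : ℕ => dv α (m * r) ^ 2 * wδ δ r := by
  have h1 := (g2_summable hα hδ).comp_injective (i := fun r : ℕ => m * r) (fun a b h => Nat.eq_of_mul_eq_mul_left (Nat.pos_of_ne_zero hm) h)
  have hw : wδ δ m ≠ 0 := by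
    have : (0:ℝ) < m := by exact_mod_cast Nat.pos_of_ne_zero hm
    unfold wδ; positivity
  refine (h1.mul_right (wδ δ m)⁻¹).congr fun r => ?_
  simp only [Function.comp, g2]
  rw [wδ_mul]
  field_simp

lemma Gt_summable {α δ : ℝ} (hα : 0 < α) (hδ : 0 < δ) {m n : ℕ} (hm : m ≠ 0) (hn : n ≠ 0) :
    Summable (Gt α δ m n) := by
  have h1 := sq_shift_summable hα hδ hm
  have h2 := sq_shift_summable hα hδ hn
  have hc : 0 < dv α m * dv α n := mul_pos (dv_pos hα hm) (dv_pos hα hn)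
  refine Summable.of_nonneg_of_le (fun r => Gt_nonneg hα δ m n r) (fun r => ?_)
    ((h1.add h2).mul_right (dv α m * dv α n)⁻¹)
  unfold Gt
  have h3 := wδ_nonneg δ r
  have h4 : dv α (m * r) * dv α (n * r) ≤ dv α (m * r) ^ 2 + dv α (n * r) ^ 2 := by
    nlinarith [sq_nonneg (dv α (m * r) - dv α (n * r)), sq_nonneg (dv α (m * r)), sq_nonneg (dv α (n * r))]
  have h5 : dv α (m * r) * dv α (n * r) / (dv α m * dv α n) * wδ δ r =
      (dv α (m * r) * dv α (n * r) * wδ δ r) * (dv α m * dv α n)⁻¹ := by ring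
  rw [h5]
  refine mul_le_mul_of_nonneg_right ?_ (by positivity)
  rw [← add_mul]
  exact mul_le_mul_of_nonneg_right h4 h3

/-- the local factor -/
noncomputable def Lf (α δ : ℝ) (p a b : ℕ) : ℝ := ∑' j : ℕ, lc α (a + j) * lc α (b + j) * (rp δ p ^ 2) ^ j

lemma Lf_sq_summable {α δ : ℝ} (hα : 0 < α) (hδ : 0 ≤ δ) {p : ℕ} (hp : p.Prime) (a : ℕ) :
    Summable fun j : ℕ => lc α (a + j) ^ 2 * (rp δ p ^ 2) ^ j := by
  have h1 := (summable_nat_add_iff a).mpr (Ed_summable (α := α) hδ hp)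
  have hr : rp δ p ≠ 0 := by
    have : (0:ℝ) < p := by exact_mod_cast hp.pos
    unfold rp; positivity
  refine (h1.mul_right (((rp δ p ^ 2) ^ a)⁻¹)).congr fun j => ?_
  rw [pow_add, add_comm j a]
  field_simp

lemma Lf_summable {α δ : ℝ} (hα : 0 < α) (hδ : 0 ≤ δ) {p : ℕ} (hp : p.Prime) (a b : ℕ) :
    Summable fun j : ℕ => lc α (a + j) * lc α (b + j) * (rp δ p ^ 2) ^ j := by
  refine Summable.of_nonneg_of_le (fun j => mul_nonneg (mul_nonneg (lc_nonneg hα.le _) (lc_nonneg hα.le _)) (by positivity)) (fun j => ?_)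
    ((Lf_sq_summable hα hδ hp a).add (Lf_sq_summable hα hδ hp b))
  have h4 : lc α (a + j) * lc α (b + j) ≤ lc α (a + j) ^ 2 + lc α (b + j) ^ 2 := by
    nlinarith [sq_nonneg (lc α (a + j) - lc α (b + j)), sq_nonneg (lc α (a + j)), sq_nonneg (lc α (b + j))]
  rw [← add_mul]
  exact mul_le_mul_of_nonneg_right h4 (by positivity)

lemma Lf_pos {α δ : ℝ} (hα : 0 < α) (hδ : 0 ≤ δ) {p : ℕ} (hp : p.Prime) (a b : ℕ) : 0 < Lf α δ p a b := by
  have h := (Lf_summable hα hδ hp a b).le_tsum 0 (fun j _ => mul_nonneg (mul_nonneg (lc_nonneg hα.le _) (lc_nonneg hα.le _)) (by positivity))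
  refine lt_of_lt_of_le ?_ h
  simp only [add_zero, pow_zero, mul_one]
  exact mul_pos (lc_pos hα a) (lc_pos hα b)

lemma tsum_Gt_pow {α : ℝ} (hα : 0 < α) (δ : ℝ) {m n : ℕ} (hm : m ≠ 0) (hn : n ≠ 0) {p : ℕ} (hp : p.Prime) :
    ∑' e : ℕ, Gt α δ m n (p ^ e) = Lf α δ p (m.factorization p) (n.factorization p) /
      (lc α (m.factorization p) * lc α (n.factorization p)) := by
  unfold Lf
  rw [← tsum_div_const]
  refine tsum_congr fun e => ?_
  rw [Gt_pow hα δ hm hn hp]
  ring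

/-- the twisted sum -/
noncomputable def tw (α δ : ℝ) (m n : ℕ) : ℝ := ∑' r : ℕ, dv α (m * r) * dv α (n * r) * wδ δ r

/-- the twisted sum through the Euler product -/
theorem tw_eq {α δ : ℝ} (hα : 0 < α) (hδ : 0 < δ) {m n : ℕ} (hm : m ≠ 0) (hn : n ≠ 0) :
    tw α δ m n = DD α δ * ∏ p ∈ (m * n).primeFactors,
      (Lf α δ p (m.factorization p) (n.factorization p) / Lf α δ p 0 0) := by
  have hc : 0 < dv α m * dv α n := mul_pos (dv_pos hα hm) (dv_pos hα hn)
  have h1 := EulerProduct.eulerProduct_hasProd (f := Gt α δ m n) (Gt_one hα δ hm hn)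
    (fun {a b} hab => Gt_mul hα δ hm hn hab) (Gt_summable hα hδ hm hn).norm (Gt_zero α δ m n)
  have h0 := EulerProduct.eulerProduct_hasProd (f := Gt α δ 1 1) (Gt_one hα δ one_ne_zero one_ne_zero)
    (fun {a b} hab => Gt_mul hα δ one_ne_zero one_ne_zero hab) (Gt_summable hα hδ one_ne_zero one_ne_zero).norm (Gt_zero α δ 1 1)
  obtain ⟨Rf, hRf⟩ : ∃ Rf : Nat.Primes → ℝ, ∀ p, Rf p = (∑' e : ℕ, Gt α δ m n ((p:ℕ) ^ e)) / ∑' e : ℕ, Gt α δ 1 1 ((p:ℕ) ^ e) := ⟨_, fun _ => rfl⟩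
  have e0 : ∀ p : Nat.Primes, ∑' e : ℕ, Gt α δ 1 1 ((p:ℕ) ^ e) = Lf α δ p 0 0 := by
    intro p
    rw [tsum_Gt_pow hα δ one_ne_zero one_ne_zero p.2]
    simp [lc_zero]
  have hR1 : ∀ p : Nat.Primes, (p:ℕ) ∉ (m * n).primeFactors → Rf p = 1 := by
    intro p hp
    rw [Nat.primeFactors_mul hm hn, notMem_union, ← Nat.support_factorization, ← Nat.support_factorization,
      Finsupp.notMem_support_iff, Finsupp.notMem_support_iff] at hp
    rw [hRf, e0, tsum_Gt_pow hα δ hm hn p.2, hp.1, hp.2, lc_zero, mul_one, div_one,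
      div_self (Lf_pos hα hδ.le p.2 0 0).ne']
  obtain ⟨S, hS⟩ : ∃ S : Finset Nat.Primes, S = Finset.subtype (fun p => p.Prime) (m * n).primeFactors := ⟨_, rfl⟩
  have hmemS : ∀ p : Nat.Primes, p ∈ S ↔ (p:ℕ) ∈ (m * n).primeFactors := by
    intro p
    rw [hS]
    exact Finset.mem_subtype
  have hRp : HasProd Rf (∏ p ∈ S, Rf p) := hasProd_prod_of_ne_finset_one fun p hp => hR1 p (by
    rw [hmemS] at hp; exact hp)
  have h2 := h0.mul hRp
  have h3 : (fun p : Nat.Primes => (∑' e : ℕ, Gt α δ 1 1 ((p:ℕ) ^ e)) * Rf p) = fun p : Nat.Primes => ∑' e : ℕ, Gt α δ m n ((p:ℕ) ^ e) := by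
    funext p
    rw [hRf, mul_div_cancel₀]
    rw [e0]
    exact (Lf_pos hα hδ.le p.2 0 0).ne'
  rw [h3] at h2
  have h4 := h1.unique h2
  have e1 : tw α δ m n = (dv α m * dv α n) * ∑' r, Gt α δ m n r := by
    unfold tw
    rw [← tsum_mul_left]
    refine tsum_congr fun r => ?_
    unfold Gt
    rw [← mul_assoc]
    congr 1
    rw [mul_div_assoc']
    exact (mul_div_cancel_left₀ _ hc.ne').symm
  have e2 : ∑' r, Gt α δ 1 1 r = DD α δ := by
    unfold DD
    refine tsum_congr fun r => ?_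
    unfold Gt g2
    rw [one_mul, dv_one]; ring
  have e3 : ∏ p ∈ S, Rf p = ∏ p ∈ (m * n).primeFactors, (Lf α δ p (m.factorization p) (n.factorization p) /
      (lc α (m.factorization p) * lc α (n.factorization p)) / Lf α δ p 0 0) := by
    refine prod_bij (fun p _ => (p:ℕ)) (fun p hp => (hmemS p).mp hp) (fun a _ b _ h => Subtype.ext h)
      (fun q hq => ⟨⟨q, Nat.prime_of_mem_primeFactors hq⟩, (hmemS _).mpr hq, rfl⟩) (fun p hp => ?_)
    rw [hRf, e0, tsum_Gt_pow hα δ hm hn p.2]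
  have hmn : m.primeFactors ⊆ (m * n).primeFactors := by rw [Nat.primeFactors_mul hm hn]; exact subset_union_left
  have hmn' : n.primeFactors ⊆ (m * n).primeFactors := by rw [Nat.primeFactors_mul hm hn]; exact subset_union_right
  rw [e1, h4, e2, e3, dv_eq_prod α hm hmn, dv_eq_prod α hn hmn', ← prod_mul_distrib, mul_left_comm, ← prod_mul_distrib]
  congr 1
  refine prod_congr rfl fun p _ => ?_
  have h5 := lc_pos hα (m.factorization p)
  have h6 := lc_pos hα (n.factorization p)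
  field_simp

lemma rp_sq_tendsto {δ : ℝ → ℝ} (hδ : Tendsto δ atTop (𝓝 0)) {p : ℕ} (hp : p.Prime) :
    Tendsto (fun T => rp (δ T) p ^ 2) atTop (𝓝 (rp 0 p ^ 2)) := by
  have hp0 : (0:ℝ) < p := by exact_mod_cast hp.pos
  have h1 : Continuous fun x : ℝ => rp x p := by
    unfold rp
    exact (Real.continuous_const_rpow hp0.ne').comp (by fun_prop)
  exact ((h1.tendsto 0).comp hδ).pow 2

lemma Lf_tendsto {α : ℝ} (hα : 0 < α) {δ : ℝ → ℝ} (h0 : ∀ᶠ T in atTop, 0 < δ T) (hδ : Tendsto δ atTop (𝓝 0)) {p : ℕ}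
    (hp : p.Prime) (a b : ℕ) : Tendsto (fun T => Lf α (δ T) p a b) atTop (𝓝 (Lf α 0 p a b)) := by
  unfold Lf
  refine tendsto_tsum_of_dominated_convergence (bound := fun j => lc α (a + j) * lc α (b + j) * (rp 0 p ^ 2) ^ j)
    (Lf_summable hα le_rfl hp a b) (fun j => ?_) ?_
  · exact ((rp_sq_tendsto hδ hp).pow j).const_mul _
  · filter_upwards [h0] with T hT j
    rw [Real.norm_of_nonneg (mul_nonneg (mul_nonneg (lc_nonneg hα.le _) (lc_nonneg hα.le _)) (by positivity))]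
    refine mul_le_mul_of_nonneg_left (pow_le_pow_left₀ (by positivity) ?_ j) (mul_nonneg (lc_nonneg hα.le _) (lc_nonneg hα.le _))
    have hp1 : (1:ℝ) ≤ p := by exact_mod_cast hp.one_lt.le
    refine pow_le_pow_left₀ (rp_nonneg _ _) ?_ 2
    unfold rp
    exact Real.rpow_le_rpow_of_exponent_le hp1 (by linarith)

/-- the twisted sum along a path -/
theorem tw_asym {α : ℝ} (hα : 0 < α) {δ : ℝ → ℝ} (h0 : ∀ᶠ T in atTop, 0 < δ T) (hδ : Tendsto δ atTop (𝓝 0)) {m n : ℕ}
    (hm : m ≠ 0) (hn : n ≠ 0) : Tendsto (fun T => (2 * δ T) ^ (α ^ 2) * tw α (δ T) m n) atTop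
      (𝓝 (aF α * ∏ p ∈ (m * n).primeFactors, (Lf α 0 p (m.factorization p) (n.factorization p) / Lf α 0 p 0 0))) := by
  have h1 := DD_asym hα h0 hδ
  have h2 : Tendsto (fun T => ∏ p ∈ (m * n).primeFactors,
      (Lf α (δ T) p (m.factorization p) (n.factorization p) / Lf α (δ T) p 0 0)) atTop
      (𝓝 (∏ p ∈ (m * n).primeFactors, (Lf α 0 p (m.factorization p) (n.factorization p) / Lf α 0 p 0 0))) := by
    refine tendsto_finsetProd _ fun p hp => ?_
    have hp' := Nat.prime_of_mem_primeFactors hp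
    exact (Lf_tendsto hα h0 hδ hp' _ _).div (Lf_tendsto hα h0 hδ hp' _ _) (Lf_pos hα le_rfl hp' 0 0).ne'
  refine (h1.mul h2).congr' ?_
  filter_upwards [h0] with T hT
  rw [tw_eq hα hT hm hn, mul_assoc]

end Pool.Agent.X110.NA
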