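import Pool.Agent.X110.NB2

set_option autoImplicit false

/-! Moments twisted by absolutely convergent Dirichlet series. -/

namespace Pool.Agent.X110.NA

open Finset Filter Topology MeasureTheory
open Pool.Agent.H306R2 (lc lc_zero lc_nonneg aF)

/-- the limit of the twisted moment, for arbitrary `m`, `n` -/
noncomputable def Lgen (s : ℝ) (m n : ℕ) : ℝ :=
  (((m / m.gcd n : ℕ):ℝ) * ((n / m.gcd n : ℕ) : ℝ)) ^ (-(1 / 2 : ℝ)) * (aF s * ∏ q ∈ ((m / m.gcd n) * (n / m.gcd n)).primeFactors,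
    (Lf s 0 q ((m / m.gcd n).factorization q) ((n / m.gcd n).factorization q) / Lf s 0 q 0 0))

theorem twist_gen {s : ℝ} (Z : ℝ → ℝ → ℝ) (D : ℝ → Set ℝ) (c : ℝ → ℝ)
    (htw : ∀ a b : ℕ, a ≠ 0 → b ≠ 0 → a.Coprime b → Tendsto (fun T => (c T : ℂ) * ∫ t in D T, ((Z T t : ℝ) : ℂ) *
      Complex.exp (((t * Real.log (a / b) : ℝ) : ℂ) * Complex.I)) atTop
      (𝓝 ((((a:ℝ) * b) ^ (-(1 / 2 : ℝ)) * (aF s * ∏ q ∈ (a * b).primeFactors,
            (Lf s 0 q (a.factorization q) (b.factorization q) / Lf s 0 q 0 0)) : ℝ) : ℂ)))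
    {m n : ℕ} (hm : m ≠ 0) (hn : n ≠ 0) :
    Tendsto (fun T => (c T : ℂ) * ∫ t in D T, ((Z T t : ℝ) : ℂ) *
      ((m:ℂ) ^ (Complex.I * t) * (n:ℂ) ^ (-(Complex.I * t)))) atTop (𝓝 ((Lgen s m n : ℝ) : ℂ)) := by
  have hg : 0 < m.gcd n := Nat.gcd_pos_of_pos_left _ (Nat.pos_of_ne_zero hm)
  have h1 : m / m.gcd n ≠ 0 := (Nat.div_pos (Nat.gcd_le_left _ (Nat.pos_of_ne_zero hm)) hg).ne'
  have h2 : n / m.gcd n ≠ 0 := (Nat.div_pos (Nat.gcd_le_right _ (Nat.pos_of_ne_zero hn)) hg).ne'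
  have h := htw _ _ h1 h2 (Nat.coprime_div_gcd_div_gcd hg)
  have e : ∀ t : ℝ, Complex.exp (((t * Real.log (((m / m.gcd n : ℕ) : ℝ) / ((n / m.gcd n : ℕ) : ℝ)) : ℝ) : ℂ) * Complex.I) =
      (m:ℂ) ^ (Complex.I * t) * (n:ℂ) ^ (-(Complex.I * t)) := by
    intro t
    have hm' : (m:ℂ) ≠ 0 := by exact_mod_cast hm
    have hn' : (n:ℂ) ≠ 0 := by exact_mod_cast hn
    have hgr : ((m.gcd n : ℕ) : ℝ) ≠ 0 := by exact_mod_cast hg.ne'
    have hmr : (m:ℝ) ≠ 0 := by exact_mod_cast hm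
    have hnr : (n:ℝ) ≠ 0 := by exact_mod_cast hn
    have e1 : ((m / m.gcd n : ℕ) : ℝ) / ((n / m.gcd n : ℕ) : ℝ) = (m:ℝ) / n := by
      rw [Nat.cast_div (Nat.gcd_dvd_left _ _) hgr, Nat.cast_div (Nat.gcd_dvd_right _ _) hgr]
      field_simp
    rw [e1, Real.log_div hmr hnr, Complex.cpow_def_of_ne_zero hm', Complex.cpow_def_of_ne_zero hn', ← Complex.exp_add,
      ← Complex.natCast_log, ← Complex.natCast_log]
    congr 1
    push_cast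
    ring
  simp_rw [e] at h
  exact h

lemma cp_norm {n : ℕ} (hn : n ≠ 0) (t : ℝ) : ‖(n:ℂ) ^ (Complex.I * t)‖ = 1 := by
  rw [Complex.norm_natCast_cpow_of_pos (Nat.pos_of_ne_zero hn)]
  simp

lemma cp_norm' {n : ℕ} (hn : n ≠ 0) (t : ℝ) : ‖(n:ℂ) ^ (-(Complex.I * t))‖ = 1 := by
  rw [Complex.norm_natCast_cpow_of_pos (Nat.pos_of_ne_zero hn)]
  simp

lemma cp_cont {n : ℕ} (hn : n ≠ 0) : Continuous fun t : ℝ => (n:ℂ) ^ (Complex.I * t) := by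
  have hn' : (n:ℂ) ≠ 0 := by exact_mod_cast hn
  have e : (fun t : ℝ => (n:ℂ) ^ (Complex.I * t)) = fun t : ℝ => Complex.exp (Complex.log n * (Complex.I * t)) :=
    funext fun t => Complex.cpow_def_of_ne_zero hn' _
  rw [e]; fun_prop

lemma cp_cont' {n : ℕ} (hn : n ≠ 0) : Continuous fun t : ℝ => (n:ℂ) ^ (-(Complex.I * t)) := by
  have hn' : (n:ℂ) ≠ 0 := by exact_mod_cast hn
  have e : (fun t : ℝ => (n:ℂ) ^ (-(Complex.I * t))) = fun t : ℝ => Complex.exp (Complex.log n * (-(Complex.I * t))) :=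
    funext fun t => Complex.cpow_def_of_ne_zero hn' _
  rw [e]; fun_prop

/-- moments twisted by absolutely convergent Dirichlet series -/
theorem twist_series {s : ℝ} (Z : ℝ → ℝ → ℝ) (D : ℝ → Set ℝ) (c : ℝ → ℝ)
    (hc : ∀ᶠ T in atTop, 0 ≤ c T) (hZ0 : ∀ T t, 0 ≤ Z T t) (hZi : ∀ᶠ T in atTop, IntegrableOn (Z T) (D T))
    (htw : ∀ a b : ℕ, a ≠ 0 → b ≠ 0 → a.Coprime b → Tendsto (fun T => (c T : ℂ) * ∫ t in D T, ((Z T t : ℝ) : ℂ) *
      Complex.exp (((t * Real.log (a / b) : ℝ) : ℂ) * Complex.I)) atTop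
      (𝓝 ((((a:ℝ) * b) ^ (-(1 / 2 : ℝ)) * (aF s * ∏ q ∈ (a * b).primeFactors,
            (Lf s 0 q (a.factorization q) (b.factorization q) / Lf s 0 q 0 0)) : ℝ) : ℂ)))
    (a b : ℕ+ → ℂ) (ha : Summable fun n => ‖a n‖) (hb : Summable fun n => ‖b n‖) :
    Tendsto (fun T => (c T : ℂ) * ∫ t in D T, ((Z T t : ℝ) : ℂ) *
      ((∑' m : ℕ+, a m * ((m:ℕ):ℂ) ^ (Complex.I * t)) * ∑' n : ℕ+, b n * ((n:ℕ):ℂ) ^ (-(Complex.I * t)))) atTop
      (𝓝 (∑' q : ℕ+ × ℕ+, a q.1 * b q.2 * ((Lgen s q.1 q.2 : ℝ) : ℂ))) := by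
  obtain ⟨M, hM⟩ : ∃ M : ℝ, M = Lgen s 1 1 := ⟨_, rfl⟩
  have hmass : Tendsto (fun T => c T * ∫ t in D T, Z T t) atTop (𝓝 M) := by
    have h1 := twist_gen (s := s) Z D c htw one_ne_zero one_ne_zero
    simp only [Nat.cast_one, Complex.one_cpow, mul_one] at h1
    have h2 : Tendsto (fun T => ((c T * ∫ t in D T, Z T t : ℝ) : ℂ)) atTop (𝓝 ((M : ℝ) : ℂ)) := by
      rw [hM]
      refine h1.congr fun T => ?_
      rw [integral_complex_ofReal]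
      push_cast; rfl
    exact (Complex.continuous_re.tendsto _).comp h2
  have hM1 : ∀ᶠ T in atTop, c T * ∫ t in D T, Z T t < |M| + 1 :=
    hmass.eventually (gt_mem_nhds (by linarith [le_abs_self M]))
  have hab : Summable fun q : ℕ+ × ℕ+ => ‖a q.1‖ * ‖b q.2‖ := ha.mul_of_nonneg hb (fun _ => norm_nonneg _) (fun _ => norm_nonneg _)
  have hne : ∀ n : ℕ+, (n:ℕ) ≠ 0 := fun n => n.ne_zero
  have key : ∀ᶠ T in atTop, (c T : ℂ) * ∫ t in D T, ((Z T t : ℝ) : ℂ) *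
      ((∑' m : ℕ+, a m * ((m:ℕ):ℂ) ^ (Complex.I * t)) * ∑' n : ℕ+, b n * ((n:ℕ):ℂ) ^ (-(Complex.I * t))) =
      ∑' q : ℕ+ × ℕ+, a q.1 * b q.2 * ((c T : ℂ) * ∫ t in D T, ((Z T t : ℝ) : ℂ) *
        (((q.1:ℕ):ℂ) ^ (Complex.I * t) * ((q.2:ℕ):ℂ) ^ (-(Complex.I * t)))) := by
    filter_upwards [hZi] with T hT
    have i1 : ∀ q : ℕ+ × ℕ+, IntegrableOn (fun t : ℝ => ((Z T t : ℝ) : ℂ) * (a q.1 * b q.2 *
        (((q.1:ℕ):ℂ) ^ (Complex.I * t) * ((q.2:ℕ):ℂ) ^ (-(Complex.I * t))))) (D T) := by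
      intro q
      refine (hT.ofReal (𝕜 := ℂ)).mul_bdd (c := ‖a q.1‖ * ‖b q.2‖)
        (continuous_const.mul ((cp_cont (hne q.1)).mul (cp_cont' (hne q.2)))).aestronglyMeasurable ?_
      refine Eventually.of_forall fun t => ?_
      rw [norm_mul, norm_mul, norm_mul, cp_norm (hne _), cp_norm' (hne _)]
      simp
    have i2 : ∀ q : ℕ+ × ℕ+, ∫ t in D T, ‖((Z T t : ℝ) : ℂ) * (a q.1 * b q.2 *
        (((q.1:ℕ):ℂ) ^ (Complex.I * t) * ((q.2:ℕ):ℂ) ^ (-(Complex.I * t))))‖ = (∫ t in D T, Z T t) * (‖a q.1‖ * ‖b q.2‖) := by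
      intro q
      rw [← integral_mul_const]
      refine integral_congr_ae (Eventually.of_forall fun t => ?_)
      dsimp only
      rw [norm_mul, norm_mul, norm_mul, norm_mul, cp_norm (hne _), cp_norm' (hne _), Complex.norm_real, Real.norm_of_nonneg (hZ0 T t)]
      ring
    have h3 := integral_tsum_of_summable_integral_norm i1 (by simp_rw [i2]; exact hab.mul_left _)
    have h4 : ∀ t : ℝ, ∑' q : ℕ+ × ℕ+, ((Z T t : ℝ) : ℂ) * (a q.1 * b q.2 *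
        (((q.1:ℕ):ℂ) ^ (Complex.I * t) * ((q.2:ℕ):ℂ) ^ (-(Complex.I * t)))) =
        ((Z T t : ℝ) : ℂ) * ((∑' m : ℕ+, a m * ((m:ℕ):ℂ) ^ (Complex.I * t)) * ∑' n : ℕ+, b n * ((n:ℕ):ℂ) ^ (-(Complex.I * t))) := by
      intro t
      rw [tsum_mul_left]
      congr 1
      have s1 : Summable fun m : ℕ+ => ‖a m * ((m:ℕ):ℂ) ^ (Complex.I * t)‖ := by
        refine ha.congr fun m => ?_
        rw [norm_mul, cp_norm (hne _), mul_one]
      have s2 : Summable fun n : ℕ+ => ‖b n * ((n:ℕ):ℂ) ^ (-(Complex.I * t))‖ := by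
        refine hb.congr fun m => ?_
        rw [norm_mul, cp_norm' (hne _), mul_one]
      rw [tsum_mul_tsum_of_summable_norm s1 s2]
      refine tsum_congr fun q => ?_
      ring
    simp_rw [h4] at h3
    rw [← h3, ← tsum_mul_left]
    refine tsum_congr fun q => ?_
    have e : ∀ t : ℝ, ((Z T t : ℝ) : ℂ) * (a q.1 * b q.2 *
        (((q.1:ℕ):ℂ) ^ (Complex.I * t) * ((q.2:ℕ):ℂ) ^ (-(Complex.I * t)))) = (a q.1 * b q.2) * (((Z T t : ℝ) : ℂ) *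
        (((q.1:ℕ):ℂ) ^ (Complex.I * t) * ((q.2:ℕ):ℂ) ^ (-(Complex.I * t)))) := fun t => by ring
    simp_rw [e]
    rw [integral_const_mul]
    ring
  refine Tendsto.congr' (key.mono fun T hT => hT.symm) ?_
  refine tendsto_tsum_of_dominated_convergence (bound := fun q : ℕ+ × ℕ+ => (|M| + 1) * (‖a q.1‖ * ‖b q.2‖)) (hab.mul_left _) ?_ ?_
  · intro q
    exact (twist_gen Z D c htw (hne q.1) (hne q.2)).const_mul _
  · filter_upwards [hM1, hc, hZi] with T h1 h2 h3 q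
    rw [norm_mul, norm_mul, norm_mul, Complex.norm_real, Real.norm_of_nonneg h2, mul_comm]
    refine mul_le_mul_of_nonneg_right ?_ (by positivity)
    have h4 : ‖∫ t in D T, ((Z T t : ℝ) : ℂ) * (((q.1:ℕ):ℂ) ^ (Complex.I * t) * ((q.2:ℕ):ℂ) ^ (-(Complex.I * t)))‖ ≤ ∫ t in D T, Z T t := by
      refine norm_integral_le_of_norm_le h3 (Eventually.of_forall fun t => ?_)
      rw [norm_mul, norm_mul, cp_norm (hne _), cp_norm' (hne _), Complex.norm_real, Real.norm_of_nonneg (hZ0 T t)]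
      simp
    exact (mul_le_mul_of_nonneg_left h4 h2).trans h1.le

end Pool.Agent.X110.NA
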