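import Pool.Agent.X110.NB8
import Pool.Agent.X110.NB3

set_option autoImplicit false

/-! Twisted mixed moments of zeta near the critical line. -/

namespace Pool.Agent.X110.NA

open Finset Filter MeasureTheory MonoidAlgebra Topology
open Pool.Agent.Y755
open Pool.Agent.W184.NZ
open Pool.Agent.Y753.NL
open Pool.Agent.Y753.SH
open Pool.Agent.Y753.SHR
open Pool.Agent.Y901.SHR (Hy Fr Ef dk_mult dk_norm)
open Pool.Agent.H306R2 (dv dv_nonneg dv_one aF aF_pos)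

variable {k l : ℕ} {κ a : Fin k → ℝ} {ρ b : Fin l → ℝ} {s : ℝ}

/-- the polynomials are bounded in mean square -/
lemma pr_bound_gen {δ : ℝ → ℝ} (hδ0 : Tendsto δ atTop (𝓝 0)) (hpos : ∀ᶠ T in atTop, 0 < δ T) (hκ : ∀ j, 0 ≤ κ j)
    (hs : 0 < s) (hκs : ∑ j, κ j = s) (a : Fin k → ℝ) :
    ∃ B : ℝ, ∀ᶠ T in atTop, (2 * δ T) ^ (s ^ 2) / T * ∫ t in Set.Icc 0 T, ‖pr (δ T) κ a (L0 T) t‖ ^ 2 ≤ B := by
  obtain ⟨C, hC, he⟩ := edgesR
  have hD := (DD_asym hs hpos hδ0).const_mul C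
  refine ⟨C * aF s + 1, ?_⟩
  filter_upwards [hpos, eventually_ge_atTop 1, hD.eventually (gt_mem_nhds (lt_add_one _)), L0_le,
    hδ0.eventually (gt_mem_nhds (show (0:ℝ) < 1 / 2 by norm_num))] with T t1 t2 t3 t4 t5
  have hT0 : 0 < T := by linarith
  have h1 := (he k κ hκ (by rw [hκs]; exact hs) (δ T) T 0 (L0 T) a t1 t5.le t2 t4).1
  rw [hκs] at h1
  have h5 := mul_le_mul_of_nonneg_left h1 (by positivity : 0 ≤ (2 * δ T) ^ (s ^ 2) / T)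
  refine h5.trans (le_trans (le_of_eq ?_) t3.le)
  field_simp

/-- the twisted mean values of the products of polynomials -/
lemma pr_twist_c (H : Hy κ ρ s) (a : Fin k → ℝ) (b : Fin l → ℝ) {δ : ℝ → ℝ} (hδ0 : Tendsto δ atTop (𝓝 0))
    (hpos : ∀ᶠ T in atTop, 0 < δ T) (hδL : Tendsto (fun T => δ T * Real.log T) atTop atTop) {m n : ℕ} (hm : m ≠ 0) (hn : n ≠ 0)
    (hmn : m.Coprime n) :
    Tendsto (fun T : ℝ => (((2 * δ T) ^ (s ^ 2) / T : ℝ) : ℂ) * ∫ t in Set.Icc 0 T,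
      (pr (δ T) κ a (L0 T) t * (starRingEnd ℂ) (pr (δ T) ρ b (L0 T) t)) * tws m n t) atTop
      (𝓝 (((((m:ℝ) * n) ^ (-(1 / 2 : ℝ)) : ℝ) : ℂ) * ((aF s : ℂ) * Mx κ a ρ b * ((Tf s m n : ℝ) : ℂ)))) := by
  have m0 : (0:ℝ) < m := by exact_mod_cast Nat.pos_of_ne_zero hm
  have n0 : (0:ℝ) < n := by exact_mod_cast Nat.pos_of_ne_zero hn
  have hmn0 : (0:ℝ) < (m:ℝ) * n := mul_pos m0 n0
  have hs := H.pos
  have h1 := Fs_path H a b hpos hδ0 hm hn (L0_log hpos hδL)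
  have h2 : Tendsto (fun T => ((((m:ℝ) * n) ^ (-(1 / 2 + δ T)) : ℝ) : ℂ)) atTop (𝓝 ((((m:ℝ) * n) ^ (-(1 / 2 : ℝ)) : ℝ) : ℂ)) := by
    refine (Complex.continuous_ofReal.tendsto _).comp ?_
    have h3 : Continuous fun x : ℝ => ((m:ℝ) * n) ^ (-(1 / 2 + x)) := (Real.continuous_const_rpow hmn0.ne').comp (by fun_prop)
    exact (h3.tendsto' 0 _ (by simp)).comp hδ0
  have h4 := h2.mul h1
  -- the error
  have hD := DD_asym hs hpos hδ0
  have herr : Tendsto (fun T : ℝ => ((m:ℝ) * n) ^ (1 / 2 + (1 / 2 : ℝ)) * (2 * (m * n)) * ((L0 T : ℝ) ^ 4 / T * ((2 * δ T) ^ (s ^ 2) * DD s (δ T)))) atTop (𝓝 0) := by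
    have := (L0_four.mul hD).const_mul (((m:ℝ) * n) ^ (1 / 2 + (1 / 2 : ℝ)) * (2 * (m * n)))
    simpa using this
  have hdiff : Tendsto (fun T : ℝ => (((2 * δ T) ^ (s ^ 2) / T : ℝ) : ℂ) * (∫ t in Set.Icc 0 T,
      (pr (δ T) κ a (L0 T) t * (starRingEnd ℂ) (pr (δ T) ρ b (L0 T) t)) * tws m n t) -
      ((((m:ℝ) * n) ^ (-(1 / 2 + δ T)) : ℝ) : ℂ) * ((((2 * δ T) ^ (s ^ 2) : ℝ) : ℂ) * Fs κ a ρ b (δ T) m n (L0 T))) atTop (𝓝 0) := by
    rw [tendsto_zero_iff_norm_tendsto_zero]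
    refine squeeze_zero' (Eventually.of_forall fun T => norm_nonneg _) ?_ herr
    filter_upwards [hpos, eventually_gt_atTop 0, hδ0.eventually (gt_mem_nhds (show (0:ℝ) < 1 / 2 by norm_num))] with T t1 t2 t3
    have h5 := tw_mvc H a b t1 t3.le hm hn hmn (L0 T) T
    rw [intervalIntegral.integral_of_le t2.le, ← integral_Icc_eq_integral_Ioc] at h5
    have h6 : 0 ≤ (2 * δ T) ^ (s ^ 2) / T := by positivity
    have hTc : (T : ℂ) ≠ 0 := by exact_mod_cast t2.ne'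
    have e1 : (((2 * δ T) ^ (s ^ 2) / T : ℝ) : ℂ) * (∫ t in Set.Icc 0 T,
      (pr (δ T) κ a (L0 T) t * (starRingEnd ℂ) (pr (δ T) ρ b (L0 T) t)) * tws m n t) -
      ((((m:ℝ) * n) ^ (-(1 / 2 + δ T)) : ℝ) : ℂ) * ((((2 * δ T) ^ (s ^ 2) : ℝ) : ℂ) * Fs κ a ρ b (δ T) m n (L0 T)) =
      (((2 * δ T) ^ (s ^ 2) / T : ℝ) : ℂ) * ((∫ t in Set.Icc 0 T,
      (pr (δ T) κ a (L0 T) t * (starRingEnd ℂ) (pr (δ T) ρ b (L0 T) t)) * tws m n t) -
      (T : ℂ) * (((((m:ℝ) * n) ^ (-(1 / 2 + δ T)) : ℝ) : ℂ) * Fs κ a ρ b (δ T) m n (L0 T))) := by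
      rw [mul_sub]
      congr 1
      rw [Complex.ofReal_div]
      field_simp
    rw [e1, norm_mul, Complex.norm_real, Real.norm_of_nonneg h6]
    refine (mul_le_mul_of_nonneg_left h5 h6).trans ?_
    have hmn1 : (1:ℝ) ≤ (m:ℝ) * n := by
      have a1 : (1:ℝ) ≤ m := by exact_mod_cast Nat.pos_of_ne_zero hm
      have a2 : (1:ℝ) ≤ n := by exact_mod_cast Nat.pos_of_ne_zero hn
      nlinarith
    have h7 : ((m:ℝ) * n) ^ (1 / 2 + δ T) ≤ ((m:ℝ) * n) ^ (1 / 2 + (1 / 2 : ℝ)) :=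
      Real.rpow_le_rpow_of_exponent_le hmn1 (by linarith)
    have hDp : 0 ≤ DD s (δ T) := by have := DD_ge_one hs t1; linarith
    calc (2 * δ T) ^ (s ^ 2) / T * (((m:ℝ) * n) ^ (1 / 2 + δ T) * (2 * (m * n * L0 T) * (DD s (δ T) * (L0 T:ℝ) ^ 3))) ≤
        (2 * δ T) ^ (s ^ 2) / T * (((m:ℝ) * n) ^ (1 / 2 + (1 / 2 : ℝ)) * (2 * (m * n * L0 T) * (DD s (δ T) * (L0 T:ℝ) ^ 3))) := by
          refine mul_le_mul_of_nonneg_left (mul_le_mul_of_nonneg_right h7 (by positivity)) h6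
      _ = _ := by field_simp
  have h5 := hdiff.add h4
  rw [zero_add] at h5
  refine h5.congr fun T => ?_
  rw [sub_add_cancel]

lemma prod_close (x1 y1 x2 y2 : ℂ) {η : ℝ} (hη : 0 < η) :
    ‖x1 * (starRingEnd ℂ) x2 - y1 * (starRingEnd ℂ) y2‖ ≤
      (1 + 1 / η) * (‖x1 - y1‖ ^ 2 + ‖x2 - y2‖ ^ 2) + η * (‖y1‖ ^ 2 + ‖y2‖ ^ 2) := by
  have e1 : x1 * (starRingEnd ℂ) x2 - y1 * (starRingEnd ℂ) y2 =
      (x1 - y1) * (starRingEnd ℂ) (x2 - y2) + y1 * (starRingEnd ℂ) (x2 - y2) + (x1 - y1) * (starRingEnd ℂ) y2 := by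
    rw [map_sub]; ring
  have h1 : ‖x1 * (starRingEnd ℂ) x2 - y1 * (starRingEnd ℂ) y2‖ ≤ ‖x1 - y1‖ * ‖x2 - y2‖ + ‖y1‖ * ‖x2 - y2‖ + ‖x1 - y1‖ * ‖y2‖ := by
    rw [e1]
    refine (norm_add₃_le).trans ?_
    rw [norm_mul, norm_mul, norm_mul, RCLike.norm_conj, RCLike.norm_conj]
  obtain ⟨u, hu⟩ : ∃ u, u = ‖x1 - y1‖ := ⟨_, rfl⟩
  obtain ⟨v, hv⟩ : ∃ v, v = ‖x2 - y2‖ := ⟨_, rfl⟩
  obtain ⟨p, hp⟩ : ∃ p, p = ‖y1‖ := ⟨_, rfl⟩
  obtain ⟨q, hq⟩ : ∃ q, q = ‖y2‖ := ⟨_, rfl⟩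
  rw [← hu, ← hv, ← hp, ← hq] at h1
  rw [← hu, ← hv, ← hp, ← hq]
  refine h1.trans ?_
  have h2 : ∀ c d : ℝ, c * d ≤ 1 / η * d ^ 2 + η * c ^ 2 := by
    intro c d
    have h5 : 0 ≤ 1 / η * (d - η * c) ^ 2 := by positivity
    have h6 : 1 / η * (d - η * c) ^ 2 = 1 / η * d ^ 2 + η * c ^ 2 - 2 * (c * d) := by
      field_simp
      ring
    have h7 : 0 ≤ 1 / η * d ^ 2 + η * c ^ 2 := by positivity
    linarith
  have h3 := h2 p v
  have h4 := h2 q u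
  nlinarith [sq_nonneg (u - v)]

/-- products of close functions -/
lemma close_bil {c : ℝ → ℝ} {D : ℝ → Set ℝ} {x1 y1 x2 y2 : ℝ → ℝ → ℂ} (hc : ∀ᶠ T in atTop, 0 ≤ c T)
    (hx1 : ∀ᶠ T in atTop, IntegrableOn (fun t => ‖x1 T t - y1 T t‖ ^ 2) (D T))
    (hy1 : ∀ᶠ T in atTop, IntegrableOn (fun t => ‖y1 T t‖ ^ 2) (D T))
    (hx2 : ∀ᶠ T in atTop, IntegrableOn (fun t => ‖x2 T t - y2 T t‖ ^ 2) (D T))
    (hy2 : ∀ᶠ T in atTop, IntegrableOn (fun t => ‖y2 T t‖ ^ 2) (D T))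
    (h1 : Tendsto (fun T => c T * ∫ t in D T, ‖x1 T t - y1 T t‖ ^ 2) atTop (𝓝 0))
    (h1' : Tendsto (fun T => c T * ∫ t in D T, ‖x2 T t - y2 T t‖ ^ 2) atTop (𝓝 0))
    {B : ℝ} (h2 : ∀ᶠ T in atTop, c T * ∫ t in D T, ‖y1 T t‖ ^ 2 ≤ B) (h2' : ∀ᶠ T in atTop, c T * ∫ t in D T, ‖y2 T t‖ ^ 2 ≤ B) :
    Tendsto (fun T => c T * ∫ t in D T, ‖x1 T t * (starRingEnd ℂ) (x2 T t) - y1 T t * (starRingEnd ℂ) (y2 T t)‖) atTop (𝓝 0) := by
  have hB : 0 ≤ B := by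
    obtain ⟨T, t1, t2⟩ := (hc.and h2).exists
    exact (mul_nonneg t1 (integral_nonneg fun t => by positivity)).trans t2
  refine tendsto_order.2 ⟨fun a ha => ?_, fun e he => ?_⟩
  · filter_upwards [hc] with T hT
    exact lt_of_lt_of_le ha (mul_nonneg hT (integral_nonneg fun t => norm_nonneg _))
  · obtain ⟨η, hη⟩ : ∃ η : ℝ, η = e / (4 * (B + 1)) := ⟨_, rfl⟩
    have hη0 : 0 < η := by rw [hη]; positivity
    have h3 := (h1.add h1').const_mul (1 + 1 / η)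
    rw [add_zero, mul_zero] at h3
    have hηB : η * (2 * B) < e / 2 := by
      rw [hη, div_mul_eq_mul_div, div_lt_div_iff₀ (by positivity) (by norm_num)]
      nlinarith
    filter_upwards [hc, hx1, hy1, hx2, hy2, h2, h2', h3.eventually (gt_mem_nhds (half_pos he))] with T t1 t2 t3 t2' t3' t4 t4' t5
    have h4 : ∫ t in D T, ‖x1 T t * (starRingEnd ℂ) (x2 T t) - y1 T t * (starRingEnd ℂ) (y2 T t)‖ ≤
        ∫ t in D T, ((1 + 1 / η) * (‖x1 T t - y1 T t‖ ^ 2 + ‖x2 T t - y2 T t‖ ^ 2) + η * (‖y1 T t‖ ^ 2 + ‖y2 T t‖ ^ 2)) :=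
      integral_mono_of_nonneg (Eventually.of_forall fun t => norm_nonneg _) (((t2.add t2').const_mul _).add ((t3.add t3').const_mul _))
        (Eventually.of_forall fun t => prod_close _ _ _ _ hη0)
    have e4 : ∫ t in D T, ((1 + 1 / η) * (‖x1 T t - y1 T t‖ ^ 2 + ‖x2 T t - y2 T t‖ ^ 2) + η * (‖y1 T t‖ ^ 2 + ‖y2 T t‖ ^ 2)) =
        (1 + 1 / η) * ((∫ t in D T, ‖x1 T t - y1 T t‖ ^ 2) + ∫ t in D T, ‖x2 T t - y2 T t‖ ^ 2) +
        η * ((∫ t in D T, ‖y1 T t‖ ^ 2) + ∫ t in D T, ‖y2 T t‖ ^ 2) := by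
      have j2 : IntegrableOn (fun t => ‖x1 T t - y1 T t‖ ^ 2 + ‖x2 T t - y2 T t‖ ^ 2) (D T) := t2.add t2'
      have j3 : IntegrableOn (fun t => ‖y1 T t‖ ^ 2 + ‖y2 T t‖ ^ 2) (D T) := t3.add t3'
      rw [integral_add (j2.const_mul _) (j3.const_mul _), integral_const_mul, integral_const_mul, integral_add t2 t2',
        integral_add t3 t3']
    rw [e4] at h4
    have h5 := mul_le_mul_of_nonneg_left h4 t1
    have h6 : c T * ((1 + 1 / η) * ((∫ t in D T, ‖x1 T t - y1 T t‖ ^ 2) + ∫ t in D T, ‖x2 T t - y2 T t‖ ^ 2) +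
        η * ((∫ t in D T, ‖y1 T t‖ ^ 2) + ∫ t in D T, ‖y2 T t‖ ^ 2)) =
        (1 + 1 / η) * ((c T * ∫ t in D T, ‖x1 T t - y1 T t‖ ^ 2) + c T * ∫ t in D T, ‖x2 T t - y2 T t‖ ^ 2) +
        η * ((c T * ∫ t in D T, ‖y1 T t‖ ^ 2) + c T * ∫ t in D T, ‖y2 T t‖ ^ 2) := by ring
    rw [h6] at h5
    have h7 := mul_le_mul_of_nonneg_left (add_le_add t4 t4') hη0.le
    linarith

/-- products of real powers are square integrable -/
lemma zr_sq_int {w : ℝ → ℂ} {δ T : ℝ} (hδ : δ < 1 / 2) (hw : Measurable w)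
    (he : ∀ u : ℝ, riemannZeta (1 / 2 + δ + (u : ℂ) * Complex.I) ≠ 0 → Complex.exp (w u) = riemannZeta (1 / 2 + δ + (u : ℂ) * Complex.I))
    (hκ0 : ∀ j, 0 < κ j) (hs0 : 0 < s) (hκs : ∑ j, κ j = s) (a : Fin k → ℝ) :
    IntegrableOn (fun t => ‖zr w δ κ a t‖ ^ 2) (Set.Icc 0 T) := by
  have hi : IntegrableOn (fun t => ∑ j, κ j / s * za δ (a j) t ^ (2 * s)) (Set.Icc 0 T) :=
    integrable_finsetSum _ fun j _ => (ic hδ (a j) (by positivity)).const_mul _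
  refine Integrable.mono' hi ((zr_meas hw δ κ a).norm.pow_const 2).aestronglyMeasurable ?_
  have ha' : ∀ᵐ t : ℝ, ∀ j, riemannZeta (1 / 2 + δ + ((t + a j * δ : ℝ) : ℂ) * Complex.I) ≠ 0 :=
    ae_all_iff.mpr fun j => zeros_ae δ (a j * δ)
  filter_upwards [ae_restrict_of_ae ha'] with t h1
  have n1 : ‖zr w δ κ a t‖ ^ 2 = ∏ j, za δ (a j) t ^ (2 * κ j) := zr_norm fun j => he _ (h1 j)
  have n3 := prod_le (a := a) hκ0 hs0 hκs.symm δ t
  rw [← n1] at n3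
  rw [Real.norm_of_nonneg (by positivity)]
  exact n3

/-- **twisted mixed moments**, off small sets of large values -/
theorem twist_mixed (hDG : S_DIAGR) (hST : S_STARR) {δ : ℝ → ℝ} (hδ : Tendsto δ atTop (𝓝 0))
    (hδL : Tendsto (fun T : ℝ => δ T * Real.log T) atTop atTop) {c : ℝ} (hc : 0 ≤ c) {S R : Set ℝ} (hS : S.Countable)
    (hR : R.Countable) (hR0 : ∀ r ∈ R, 0 < r) :
    ∃ (E : ℝ → Set ℝ) (w : ℝ → ℝ → ℂ), (∀ T, MeasurableSet (E T) ∧ E T ⊆ Set.Icc 0 T ∧ Measurable (w T) ∧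
        ∀ t ∈ E T, ∃ a ∈ S, (δ T) ^ (-(2 + c)) < za (δ T) a t) ∧
      Tendsto (fun T => (volume (E T)).toReal / (T * (δ T) ^ (4 + 4 * c))) atTop (𝓝 0) ∧
      (∀ᶠ T in atTop, ∀ u : ℝ, riemannZeta (1 / 2 + δ T + (u : ℂ) * Complex.I) ≠ 0 →
        Complex.exp (w T u) = riemannZeta (1 / 2 + δ T + (u : ℂ) * Complex.I)) ∧
      ∀ (s : ℝ), 0 < s → ∀ D : ℝ → Set ℝ,
        (((s ≤ 2 ∨ 4 + 4 * c ≤ 2 * s) ∧ ∀ T, D T = Set.Icc 0 T \ E T) ∨ (s ≤ 2 ∧ ∀ T, D T = Set.Icc 0 T)) →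
        ∀ (k l : ℕ) (κ a : Fin k → ℝ) (ρ b : Fin l → ℝ), (∀ j, κ j ∈ R) → (∀ j, ρ j ∈ R) → (∀ j, a j ∈ S) → (∀ j, b j ∈ S) →
          ∑ j, κ j = s → ∑ j, ρ j = s →
          (∃ B : ℝ, ∀ᶠ T in atTop, IntegrableOn (fun t => zr (w T) (δ T) κ a t * (starRingEnd ℂ) (zr (w T) (δ T) ρ b t)) (D T) ∧
            (2 * δ T) ^ (s ^ 2) / T * ∫ t in D T, ‖zr (w T) (δ T) κ a t * (starRingEnd ℂ) (zr (w T) (δ T) ρ b t)‖ ≤ B) ∧
          ∀ m n : ℕ, m ≠ 0 → n ≠ 0 → m.Coprime n →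
          Tendsto (fun T : ℝ => (((2 * δ T) ^ (s ^ 2) / T : ℝ) : ℂ) * ∫ t in D T,
            (zr (w T) (δ T) κ a t * (starRingEnd ℂ) (zr (w T) (δ T) ρ b t)) * tws m n t) atTop
            (𝓝 (((((m:ℝ) * n) ^ (-(1 / 2 : ℝ)) : ℝ) : ℂ) * ((aF s : ℂ) * Mx κ a ρ b * ((Tf s m n : ℝ) : ℂ)))) := by
  obtain ⟨E, w, hE, hvol, hw, hm⟩ := approx_small hDG hST hδ hδL hc hS hR hR0
  have hpos := pos_path hδL
  have hlt : ∀ᶠ T in atTop, δ T < 1 / 2 := hδ.eventually (gt_mem_nhds (by norm_num))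
  refine ⟨E, w, hE, hvol, hw, ?_⟩
  intro s hs0 D hD k l κ a ρ b hκ hρ ha hb hκs hρs
  have hk : 1 ≤ k := by
    rcases Nat.eq_zero_or_pos k with h | h
    · subst h; rw [univ_eq_empty, sum_empty] at hκs; linarith
    · exact h
  have hl : 1 ≤ l := by
    rcases Nat.eq_zero_or_pos l with h | h
    · subst h; rw [univ_eq_empty, sum_empty] at hρs; linarith
    · exact h
  have hκ0 : ∀ j, 0 < κ j := fun j => hR0 _ (hκ j)
  have hρ0 : ∀ j, 0 < ρ j := fun j => hR0 _ (hρ j)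
  have H : Hy κ ρ s := ⟨hs0, fun j => (hκ0 j).le, fun j => (hρ0 j).le, hκs, hρs⟩
  obtain ⟨A1, A2, A3⟩ := hm k κ a s L0 hk hκs hκ ha L0_le (L0_log hpos hδL)
  obtain ⟨B1, B2, B3⟩ := hm l ρ b s L0 hl hρs hρ hb L0_le (L0_log hpos hδL)
  obtain ⟨Ba, hBa⟩ := pr_bound_gen hδ hpos (fun j => (hκ0 j).le) hs0 hκs a
  obtain ⟨Bb, hBb⟩ := pr_bound_gen hδ hpos (fun j => (hρ0 j).le) hs0 hρs b
  obtain ⟨x1, hx1⟩ : ∃ x1 : ℝ → ℝ → ℂ, ∀ T t, x1 T t = zr (w T) (δ T) κ a t := ⟨_, fun _ _ => rfl⟩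
  obtain ⟨y1, hy1⟩ : ∃ y1 : ℝ → ℝ → ℂ, ∀ T t, y1 T t = pr (δ T) κ a (L0 T) t := ⟨_, fun _ _ => rfl⟩
  obtain ⟨x2, hx2⟩ : ∃ x2 : ℝ → ℝ → ℂ, ∀ T t, x2 T t = zr (w T) (δ T) ρ b t := ⟨_, fun _ _ => rfl⟩
  obtain ⟨y2, hy2⟩ : ∃ y2 : ℝ → ℝ → ℂ, ∀ T t, y2 T t = pr (δ T) ρ b (L0 T) t := ⟨_, fun _ _ => rfl⟩
  simp_rw [← hx1, ← hy1] at A1 A2
  simp_rw [← hx2, ← hy2] at B1 B2
  simp_rw [← hy1] at A3 hBa
  simp_rw [← hy2] at B3 hBb
  simp_rw [← hx1, ← hx2]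
  have hDm : ∀ T, MeasurableSet (D T) := fun T => by
    rcases hD with h | h
    · rw [h.2 T]; exact measurableSet_Icc.diff (hE T).1
    · rw [h.2 T]; exact measurableSet_Icc
  have hDs : ∀ T, D T ⊆ Set.Icc 0 T := fun T => by
    rcases hD with h | h
    · rw [h.2 T]; exact Set.sdiff_subset
    · rw [h.2 T]
  have hc0 : ∀ᶠ T in atTop, 0 ≤ (2 * δ T) ^ (s ^ 2) / T := by
    filter_upwards [hpos, eventually_gt_atTop 0] with T t1 t2
    positivity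
  have hy1c : ∀ T, Continuous (y1 T) := fun T => by
    have e : y1 T = pr (δ T) κ a (L0 T) := funext (hy1 T)
    rw [e]; exact pr_cont (δ T) (fun j => (hκ0 j).le) a (L0 T)
  have hy2c : ∀ T, Continuous (y2 T) := fun T => by
    have e : y2 T = pr (δ T) ρ b (L0 T) := funext (hy2 T)
    rw [e]; exact pr_cont (δ T) (fun j => (hρ0 j).le) b (L0 T)
  have hx1m : ∀ T, Measurable (x1 T) := fun T => by
    have e : x1 T = zr (w T) (δ T) κ a := funext (hx1 T)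
    rw [e]; exact zr_meas (hE T).2.2.1 (δ T) _ _
  have hx2m : ∀ T, Measurable (x2 T) := fun T => by
    have e : x2 T = zr (w T) (δ T) ρ b := funext (hx2 T)
    rw [e]; exact zr_meas (hE T).2.2.1 (δ T) _ _
  have hx1i : ∀ᶠ T in atTop, IntegrableOn (fun t => ‖x1 T t‖ ^ 2) (Set.Icc 0 T) := by
    filter_upwards [hlt, hw] with T h1 h2
    simp_rw [hx1]
    exact zr_sq_int h1 (hE T).2.2.1 h2 hκ0 hs0 hκs a
  have hx2i : ∀ᶠ T in atTop, IntegrableOn (fun t => ‖x2 T t‖ ^ 2) (Set.Icc 0 T) := by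
    filter_upwards [hlt, hw] with T h1 h2
    simp_rw [hx2]
    exact zr_sq_int h1 (hE T).2.2.1 h2 hρ0 hs0 hρs b
  have hy1i : ∀ T, IntegrableOn (fun t => ‖y1 T t‖ ^ 2) (Set.Icc 0 T) := fun T =>
    ((hy1c T).norm.pow 2).continuousOn.integrableOn_compact isCompact_Icc
  have hy2i : ∀ T, IntegrableOn (fun t => ‖y2 T t‖ ^ 2) (Set.Icc 0 T) := fun T =>
    ((hy2c T).norm.pow 2).continuousOn.integrableOn_compact isCompact_Icc
  have hsub : ∀ {x y : ℝ → ℂ} {T : ℝ}, Measurable x → Continuous y → IntegrableOn (fun t => ‖x t‖ ^ 2) (Set.Icc 0 T) →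
      IntegrableOn (fun t => ‖y t‖ ^ 2) (Set.Icc 0 T) → IntegrableOn (fun t => ‖x t - y t‖ ^ 2) (Set.Icc 0 T) := by
    intro x y T h1 h2 h3 h4
    refine Integrable.mono' ((h3.const_mul 2).add (h4.const_mul 2)) ((h1.sub h2.measurable).norm.pow_const 2).aestronglyMeasurable
      (Eventually.of_forall fun t => ?_)
    rw [Real.norm_of_nonneg (by positivity)]
    exact sq_sub_le _ _
  have hprod : ∀ {x y : ℝ → ℂ} {T : ℝ}, Measurable x → Measurable y → IntegrableOn (fun t => ‖x t‖ ^ 2) (Set.Icc 0 T) →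
      IntegrableOn (fun t => ‖y t‖ ^ 2) (Set.Icc 0 T) → IntegrableOn (fun t => x t * (starRingEnd ℂ) (y t)) (Set.Icc 0 T) := by
    intro x y T h1 h2 h3 h4
    refine Integrable.mono' (h3.add h4) (h1.mul (Complex.continuous_conj.measurable.comp h2)).aestronglyMeasurable
      (Eventually.of_forall fun t => ?_)
    rw [norm_mul, RCLike.norm_conj]
    show _ ≤ ‖x t‖ ^ 2 + ‖y t‖ ^ 2
    nlinarith [sq_nonneg (‖x t‖ - ‖y t‖), sq_nonneg ‖x t‖, sq_nonneg ‖y t‖]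
  have hd1 : Tendsto (fun T : ℝ => (2 * δ T) ^ (s ^ 2) / T * ∫ t in D T, ‖x1 T t - y1 T t‖ ^ 2) atTop (𝓝 0) := by
    rcases hD with h | h
    · simp_rw [h.2]; exact A1 h.1
    · simp_rw [h.2]; exact A2 h.1
  have hd2 : Tendsto (fun T : ℝ => (2 * δ T) ^ (s ^ 2) / T * ∫ t in D T, ‖x2 T t - y2 T t‖ ^ 2) atTop (𝓝 0) := by
    rcases hD with h | h
    · simp_rw [h.2]; exact B1 h.1
    · simp_rw [h.2]; exact B2 h.1
  have hcomp : ∀ {y : ℝ → ℝ → ℂ}, Tendsto (fun T : ℝ => (2 * δ T) ^ (s ^ 2) / T * ∫ t in E T, ‖y T t‖ ^ 2) atTop (𝓝 0) →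
      Tendsto (fun T : ℝ => (2 * δ T) ^ (s ^ 2) / T * ∫ t in Set.Icc 0 T \ D T, ‖y T t‖ ^ 2) atTop (𝓝 0) := by
    intro y hy
    rcases hD with h | h
    · refine hy.congr fun T => ?_
      rw [h.2, Set.sdiff_sdiff_right_self, Set.inter_eq_right.mpr (hE T).2.1]
    · simp_rw [h.2]; simp
  have hB1 : ∀ᶠ T in atTop, (2 * δ T) ^ (s ^ 2) / T * ∫ t in D T, ‖y1 T t‖ ^ 2 ≤ max Ba Bb := by
    filter_upwards [hBa, hc0] with T t1 t2
    refine le_trans (mul_le_mul_of_nonneg_left ?_ t2) (t1.trans (le_max_left _ _))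
    exact setIntegral_mono_set (hy1i T) (Eventually.of_forall fun t => by positivity) (Eventually.of_forall (hDs T))
  have hB2 : ∀ᶠ T in atTop, (2 * δ T) ^ (s ^ 2) / T * ∫ t in D T, ‖y2 T t‖ ^ 2 ≤ max Ba Bb := by
    filter_upwards [hBb, hc0] with T t1 t2
    refine le_trans (mul_le_mul_of_nonneg_left ?_ t2) (t1.trans (le_max_right _ _))
    exact setIntegral_mono_set (hy2i T) (Eventually.of_forall fun t => by positivity) (Eventually.of_forall (hDs T))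
  have hcl := close_bil hc0
    (by filter_upwards [hx1i] with T h; exact (hsub (hx1m T) (hy1c T) h (hy1i T)).mono_set (hDs T))
    (Eventually.of_forall fun T => (hy1i T).mono_set (hDs T))
    (by filter_upwards [hx2i] with T h; exact (hsub (hx2m T) (hy2c T) h (hy2i T)).mono_set (hDs T))
    (Eventually.of_forall fun T => (hy2i T).mono_set (hDs T)) hd1 hd2 hB1 hB2
  refine ⟨⟨2 * max Ba Bb + 1, ?_⟩, fun m n hm0 hn0 hmn => ?_⟩
  · filter_upwards [hx1i, hx2i, hB1, hB2, hc0, hcl.eventually (gt_mem_nhds one_pos)] with T t1 t2 t3 t4 t5 t6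
    refine ⟨(hprod (hx1m T) (hx2m T) t1 t2).mono_set (hDs T), ?_⟩
    have i1 : IntegrableOn (fun t => x1 T t * (starRingEnd ℂ) (x2 T t)) (D T) := (hprod (hx1m T) (hx2m T) t1 t2).mono_set (hDs T)
    have i2 : IntegrableOn (fun t => y1 T t * (starRingEnd ℂ) (y2 T t)) (D T) :=
      (hprod (hy1c T).measurable (hy2c T).measurable (hy1i T) (hy2i T)).mono_set (hDs T)
    have i3 : IntegrableOn (fun t => ‖x1 T t * (starRingEnd ℂ) (x2 T t) - y1 T t * (starRingEnd ℂ) (y2 T t)‖) (D T) := (i1.sub i2).norm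
    have i4 : IntegrableOn (fun t => ‖y1 T t‖ ^ 2) (D T) := (hy1i T).mono_set (hDs T)
    have i5 : IntegrableOn (fun t => ‖y2 T t‖ ^ 2) (D T) := (hy2i T).mono_set (hDs T)
    have h1 : ∫ t in D T, ‖x1 T t * (starRingEnd ℂ) (x2 T t)‖ ≤
        (∫ t in D T, ‖x1 T t * (starRingEnd ℂ) (x2 T t) - y1 T t * (starRingEnd ℂ) (y2 T t)‖) +
        ((∫ t in D T, ‖y1 T t‖ ^ 2) + ∫ t in D T, ‖y2 T t‖ ^ 2) := by
      have i45 : IntegrableOn (fun t => ‖y1 T t‖ ^ 2 + ‖y2 T t‖ ^ 2) (D T) := i4.add i5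
      rw [← integral_add i4 i5, ← integral_add i3 i45]
      refine integral_mono i1.norm (i3.add i45) fun t => ?_
      show ‖x1 T t * (starRingEnd ℂ) (x2 T t)‖ ≤ ‖x1 T t * (starRingEnd ℂ) (x2 T t) - y1 T t * (starRingEnd ℂ) (y2 T t)‖ +
        (‖y1 T t‖ ^ 2 + ‖y2 T t‖ ^ 2)
      have h2 : ‖x1 T t * (starRingEnd ℂ) (x2 T t)‖ ≤ ‖x1 T t * (starRingEnd ℂ) (x2 T t) - y1 T t * (starRingEnd ℂ) (y2 T t)‖ +
          ‖y1 T t * (starRingEnd ℂ) (y2 T t)‖ := by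
        have := norm_add_le (x1 T t * (starRingEnd ℂ) (x2 T t) - y1 T t * (starRingEnd ℂ) (y2 T t)) (y1 T t * (starRingEnd ℂ) (y2 T t))
        rwa [sub_add_cancel] at this
      rw [norm_mul (y1 T t), RCLike.norm_conj] at h2
      nlinarith [sq_nonneg (‖y1 T t‖ - ‖y2 T t‖), sq_nonneg ‖y1 T t‖, sq_nonneg ‖y2 T t‖]
    have h2 := mul_le_mul_of_nonneg_left h1 t5
    rw [mul_add, mul_add] at h2
    linarith
  · have htw := pr_twist_c H a b hδ hpos hδL hm0 hn0 hmn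
    simp_rw [← hy1, ← hy2] at htw
    have h4 := hcl.add ((hcomp A3).add (hcomp B3))
    simp only [add_zero] at h4
    have h5 : Tendsto (fun T : ℝ => (((2 * δ T) ^ (s ^ 2) / T : ℝ) : ℂ) * (∫ t in D T, (x1 T t * (starRingEnd ℂ) (x2 T t)) * tws m n t) -
        (((2 * δ T) ^ (s ^ 2) / T : ℝ) : ℂ) * ∫ t in Set.Icc 0 T, (y1 T t * (starRingEnd ℂ) (y2 T t)) * tws m n t) atTop (𝓝 0) := by
      rw [tendsto_zero_iff_norm_tendsto_zero]
      refine squeeze_zero' (Eventually.of_forall fun T => norm_nonneg _) ?_ h4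
      filter_upwards [hx1i, hx2i, hc0] with T t1 t2 t5
      have hbdd : ∀ {f : ℝ → ℂ} {X : Set ℝ}, IntegrableOn f X → IntegrableOn (fun t => f t * tws m n t) X := fun hf =>
        hf.mul_bdd (c := 1) (tws_cont m n).aestronglyMeasurable (Eventually.of_forall fun t => (tws_norm m n t).le)
      have i1 : IntegrableOn (fun t => x1 T t * (starRingEnd ℂ) (x2 T t)) (D T) := (hprod (hx1m T) (hx2m T) t1 t2).mono_set (hDs T)
      have i2 : IntegrableOn (fun t => y1 T t * (starRingEnd ℂ) (y2 T t)) (Set.Icc 0 T) :=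
        hprod (hy1c T).measurable (hy2c T).measurable (hy1i T) (hy2i T)
      have hu : Set.Icc 0 T = D T ∪ (Set.Icc 0 T \ D T) := by
        rw [Set.union_sdiff_self, Set.union_eq_right.mpr (hDs T)]
      have e1 : ∫ t in Set.Icc 0 T, (y1 T t * (starRingEnd ℂ) (y2 T t)) * tws m n t =
          (∫ t in D T, (y1 T t * (starRingEnd ℂ) (y2 T t)) * tws m n t) +
          ∫ t in Set.Icc 0 T \ D T, (y1 T t * (starRingEnd ℂ) (y2 T t)) * tws m n t := by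
        conv_lhs => rw [hu]
        rw [setIntegral_union Set.disjoint_sdiff_right (measurableSet_Icc.diff (hDm T)) ((hbdd i2).mono_set (hDs T))
          ((hbdd i2).mono_set Set.sdiff_subset)]
      rw [e1, ← mul_sub, norm_mul, Complex.norm_real, Real.norm_of_nonneg t5, ← sub_sub, ← integral_sub (hbdd i1) ((hbdd i2).mono_set (hDs T)),
        ← mul_add, ← mul_add]
      refine mul_le_mul_of_nonneg_left ?_ t5
      refine (norm_sub_le _ _).trans (add_le_add ?_ ?_)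
      · refine norm_integral_le_of_norm_le ((i1.sub (i2.mono_set (hDs T))).norm) (Eventually.of_forall fun t => ?_)
        rw [← sub_mul, norm_mul, tws_norm, mul_one]
      · have i4 : IntegrableOn (fun t => ‖y1 T t‖ ^ 2) (Set.Icc 0 T \ D T) := (hy1i T).mono_set Set.sdiff_subset
        have i5 : IntegrableOn (fun t => ‖y2 T t‖ ^ 2) (Set.Icc 0 T \ D T) := (hy2i T).mono_set Set.sdiff_subset
        have i45 : IntegrableOn (fun t => ‖y1 T t‖ ^ 2 + ‖y2 T t‖ ^ 2) (Set.Icc 0 T \ D T) := i4.add i5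
        rw [← integral_add i4 i5]
        refine norm_integral_le_of_norm_le i45 (Eventually.of_forall fun t => ?_)
        rw [norm_mul, tws_norm, mul_one, norm_mul, RCLike.norm_conj]
        show _ ≤ ‖y1 T t‖ ^ 2 + ‖y2 T t‖ ^ 2
        nlinarith [sq_nonneg (‖y1 T t‖ - ‖y2 T t‖), sq_nonneg ‖y1 T t‖, sq_nonneg ‖y2 T t‖]
    have h6 := h5.add htw
    rw [zero_add] at h6
    refine h6.congr fun T => ?_
    rw [sub_add_cancel]

end Pool.Agent.X110.NA
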