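import Pool.Agent.Y753.SHR.R7
import Pool.Agent.Y753.NL.Pw6

set_option autoImplicit false

/-! Changing the length of the Dirichlet polynomials. -/

namespace Pool.Agent.X110.NA

open Finset Filter MeasureTheory MonoidAlgebra Topology
open Pool.Agent.Y755
open Pool.Agent.W184.NZ
open Pool.Agent.Y753.NL
open Pool.Agent.Y753.SH
open Pool.Agent.Y753.SHR
open Pool.Agent.H306R2 (dv dv_nonneg dv_one aF aF_pos)

lemma tail_Do {k : ℕ} {κ : Fin k → ℝ} (hκ : ∀ j, 0 ≤ κ j) (h : Fin k → ℝ) (m M : ℕ) (hmM : m ≤ M) :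
    Do (DN (∑ j, κ j) M - DN (∑ j, κ j) m) (Dr κ h M - Dr κ h m) := by
  intro n
  rw [coeff_sub, coeff_sub, Finsupp.sub_apply, Finsupp.sub_apply, Dr_coeff, Dr_coeff, DN_coeff, DN_coeff]
  by_cases h1 : n ∈ Icc 1 m
  · have h2 : n ∈ Icc 1 M := Icc_subset_Icc_right hmM h1
    rw [if_pos h1, if_pos h2, if_pos h1, if_pos h2]
    simp
  · rw [if_neg h1, if_neg h1, sub_zero, sub_zero]
    split_ifs with h2
    · rw [mem_Icc] at h2
      exact dr_le hκ h (by omega)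
    · simp

lemma tail_Bd (s : ℝ) (m M : ℕ) (hmM : m ≤ M) : Bd1 M (DN s M - DN s m) := by
  intro n hn
  rw [Finsupp.mem_support_iff, coeff_sub, Finsupp.sub_apply, DN_coeff, DN_coeff] at hn
  by_cases h2 : n ∈ Icc 1 M
  · rw [mem_Icc] at h2
    exact ⟨by omega, by exact_mod_cast h2.2⟩
  · have h1 : n ∉ Icc 1 m := fun h => h2 (Icc_subset_Icc_right hmM h)
    rw [if_neg h1, if_neg h2] at hn
    simp at hn

lemma tail_ip {s δ : ℝ} (hs : 0 < s) (hδ : 0 < δ) {m M : ℕ} (hm : 1 ≤ m) (hmM : m ≤ M) :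
    ip δ (DN s M - DN s m) (DN s M - DN s m) ≤ (m:ℝ) ^ (-δ) * DD s (δ / 2) := by
  have hsub : (DN s M - DN s m).coeff.support ⊆ Icc 1 M := by
    intro n hn
    have := tail_Bd s m M hmM n hn
    rw [mem_Icc]
    exact ⟨Nat.pos_of_ne_zero this.1, by exact_mod_cast this.2⟩
  rw [ip_eq δ _ _ hsub]
  have hm0 : (0:ℝ) < m := by exact_mod_cast hm
  have h1 : ∀ n ∈ Icc 1 M, (DN s M - DN s m).coeff n * (DN s M - DN s m).coeff n * wδ δ n ≤
      (m:ℝ) ^ (-δ) * g2 s (δ / 2) n := by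
    intro n hn
    rw [coeff_sub, Finsupp.sub_apply, DN_coeff, DN_coeff, if_pos hn]
    have hg := g2_nonneg s (δ / 2) n
    by_cases h1 : n ∈ Icc 1 m
    · rw [if_pos h1, sub_self, zero_mul, zero_mul]
      positivity
    · rw [if_neg h1, sub_zero]
      rw [mem_Icc] at hn h1
      have hn0 : (0:ℝ) < n := by exact_mod_cast hn.1
      have hmn : (m:ℝ) ≤ n := by
        have : m ≤ n := by omega
        exact_mod_cast this
      have e3 : dv s n * dv s n * wδ δ n = (n:ℝ) ^ (-δ) * g2 s (δ / 2) n := by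
        unfold g2 wδ
        rw [one_div (n:ℝ), ← Real.rpow_neg_one (n:ℝ)]
        have e4 : (n:ℝ) ^ (-δ) * (dv s n ^ 2 * ((n:ℝ) ^ (-(2 * (δ / 2))) * (n:ℝ) ^ (-1:ℝ))) =
            dv s n * dv s n * ((n:ℝ) ^ (-δ) * (n:ℝ) ^ (-(2 * (δ / 2))) * (n:ℝ) ^ (-1:ℝ)) := by ring
        have e5 : -δ + -(2 * (δ / 2)) = -(2 * δ) := by ring
        have e6 : (n:ℝ) ^ (-δ) * (n:ℝ) ^ (-(2 * (δ / 2))) = (n:ℝ) ^ (-(2 * δ)) := by rw [← Real.rpow_add hn0, e5]
        rw [e4, e6]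
      rw [e3]
      exact mul_le_mul_of_nonneg_right (Real.rpow_le_rpow_of_nonpos hm0 hmn (by linarith)) hg
  refine (sum_le_sum h1).trans ?_
  rw [← mul_sum]
  refine mul_le_mul_of_nonneg_left ?_ (by positivity)
  exact (g2_summable hs (by positivity)).sum_le_tsum _ fun n _ => g2_nonneg s _ n

/-- the mean square of the difference of two partial sums -/
theorem tail_R : ∃ C : ℝ, 0 < C ∧ ∀ (k : ℕ) (κ a : Fin k → ℝ) (_ : ∀ j, 0 ≤ κ j) (_ : 0 < ∑ j, κ j) (δ T : ℝ) (m M : ℕ),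
    0 < δ → 1 ≤ T → 1 ≤ m → m ≤ M → (M:ℝ) ≤ T →
    ∫ t in (0:ℝ)..(2 * T), ‖pr δ κ a M t - pr δ κ a m t‖ ^ 2 ≤ C * (T * ((m:ℝ) ^ (-δ) * DD (∑ j, κ j) (δ / 2))) := by
  obtain ⟨C, hC, hmv⟩ := mv_dom
  refine ⟨C, hC, fun k κ a hκ hs δ T m M hδ hT hm hmM hMT => ?_⟩
  have h1 := hmv δ T M _ _ hT (tail_Do hκ (fun j => a j * δ) m M hmM) (tail_Bd _ m M hmM) hMT
  have e1 : ∀ t : ℝ, ec (1 / 2 + δ + t * Complex.I) (Dr κ (fun j => a j * δ) M - Dr κ (fun j => a j * δ) m) =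
      pr δ κ a M t - pr δ κ a m t := by
    intro t
    rw [map_sub]
    rfl
  simp_rw [e1] at h1
  refine h1.trans (mul_le_mul_of_nonneg_left (mul_le_mul_of_nonneg_left ?_ (by linarith)) hC.le)
  exact tail_ip hs hδ hm hmM

/-- the same along a path -/
theorem len_R {δ : ℝ → ℝ} (hδ0 : Tendsto δ atTop (𝓝 0)) (hpos : ∀ᶠ T in atTop, 0 < δ T) {k : ℕ} {κ : Fin k → ℝ}
    (hκ : ∀ j, 0 ≤ κ j) {s : ℝ} (hs : 0 < s) (hκs : ∑ j, κ j = s) (a : Fin k → ℝ)
    {N1 N2 : ℝ → ℕ} (h1 : ∀ᶠ T in atTop, (N1 T : ℝ) ≤ T) (h2 : ∀ᶠ T in atTop, (N2 T : ℝ) ≤ T)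
    (h1' : Tendsto (fun T => δ T * Real.log (N1 T)) atTop atTop)
    (h2' : Tendsto (fun T => δ T * Real.log (N2 T)) atTop atTop) :
    Tendsto (fun T => (2 * δ T) ^ (s ^ 2) / T * ∫ t in Set.Icc 0 T, ‖pr (δ T) κ a (N1 T) t - pr (δ T) κ a (N2 T) t‖ ^ 2)
      atTop (𝓝 0) := by
  obtain ⟨C, hC, hmv⟩ := tail_R
  have hD : Tendsto (fun T => (2 * (δ T / 2)) ^ (s ^ 2) * DD s (δ T / 2)) atTop (𝓝 (aF s)) :=
    DD_asym hs (hpos.mono fun T hT => by positivity) (by simpa using hδ0.div_const 2)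
  have hmin : Tendsto (fun T => min (δ T * Real.log (N1 T)) (δ T * Real.log (N2 T))) atTop atTop := by
    rw [tendsto_atTop]
    intro b
    filter_upwards [h1'.eventually_ge_atTop b, h2'.eventually_ge_atTop b] with T hT1 hT2
    exact le_min hT1 hT2
  have he : Tendsto (fun T => Real.exp (-(min (δ T * Real.log (N1 T)) (δ T * Real.log (N2 T))))) atTop (𝓝 0) :=
    Real.tendsto_exp_neg_atTop_nhds_zero.comp hmin
  have hub : Tendsto (fun T => C * ((2:ℝ) ^ (s ^ 2) * (Real.exp (-(min (δ T * Real.log (N1 T)) (δ T * Real.log (N2 T)))) *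
      ((2 * (δ T / 2)) ^ (s ^ 2) * DD s (δ T / 2))))) atTop (𝓝 0) := by
    have := ((he.mul hD).const_mul ((2:ℝ) ^ (s ^ 2))).const_mul C
    simpa using this
  refine squeeze_zero' ?_ ?_ hub
  · filter_upwards [eventually_gt_atTop 0, hpos] with T hT hT'
    have : 0 ≤ ∫ t in Set.Icc 0 T, ‖pr (δ T) κ a (N1 T) t - pr (δ T) κ a (N2 T) t‖ ^ 2 :=
      integral_nonneg fun t => by positivity
    positivity
  · filter_upwards [h1, h2, h1'.eventually_gt_atTop 0, h2'.eventually_gt_atTop 0, hpos, eventually_ge_atTop 1] with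
      T t1 t2 t3 t4 t5 t6
    have hT0 : 0 < T := by linarith
    have n1 : 1 ≤ N1 T := by
      rcases Nat.eq_zero_or_pos (N1 T) with h | h
      · rw [h] at t3; simp at t3
      · exact h
    have n2 : 1 ≤ N2 T := by
      rcases Nat.eq_zero_or_pos (N2 T) with h | h
      · rw [h] at t4; simp at t4
      · exact h
    have hin : ∫ t in Set.Icc 0 T, ‖pr (δ T) κ a (N1 T) t - pr (δ T) κ a (N2 T) t‖ ^ 2 ≤
        ∫ t in (0:ℝ)..(2 * T), ‖pr (δ T) κ a (N1 T) t - pr (δ T) κ a (N2 T) t‖ ^ 2 := by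
      rw [intervalIntegral.integral_of_le (by linarith), ← integral_Icc_eq_integral_Ioc]
      refine setIntegral_mono_set (((((pr_cont (δ T) hκ a (N1 T)).sub (pr_cont (δ T) hκ a (N2 T))).norm.pow 2)).continuousOn.integrableOn_compact isCompact_Icc)
        (Eventually.of_forall fun t => by positivity) (Eventually.of_forall fun t ht => ?_)
      have h3 : t ∈ Set.Icc 0 T := ht
      exact ⟨h3.1, by linarith [h3.2]⟩
    have key : ∫ t in (0:ℝ)..(2 * T), ‖pr (δ T) κ a (N1 T) t - pr (δ T) κ a (N2 T) t‖ ^ 2 ≤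
        C * (T * (Real.exp (-(min (δ T * Real.log (N1 T)) (δ T * Real.log (N2 T)))) * DD s (δ T / 2))) := by
      rcases le_total (N1 T) (N2 T) with h | h
      · have h3 := hmv k κ a hκ (by rw [hκs]; exact hs) (δ T) T (N1 T) (N2 T) t5 t6 n1 h t2
        rw [hκs] at h3
        simp_rw [norm_sub_rev (pr (δ T) κ a (N1 T) _)]
        refine h3.trans (le_of_eq ?_)
        congr 3
        have hn0 : (0:ℝ) < N1 T := by exact_mod_cast n1
        have hlog : Real.log (N1 T) ≤ Real.log (N2 T) := Real.log_le_log hn0 (by exact_mod_cast h)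
        rw [min_eq_left (mul_le_mul_of_nonneg_left hlog t5.le), Real.rpow_def_of_pos hn0]
        congr 1; ring
      · have h3 := hmv k κ a hκ (by rw [hκs]; exact hs) (δ T) T (N2 T) (N1 T) t5 t6 n2 h t1
        rw [hκs] at h3
        refine h3.trans (le_of_eq ?_)
        congr 3
        have hn0 : (0:ℝ) < N2 T := by exact_mod_cast n2
        have hlog : Real.log (N2 T) ≤ Real.log (N1 T) := Real.log_le_log hn0 (by exact_mod_cast h)
        rw [min_eq_right (mul_le_mul_of_nonneg_left hlog t5.le), Real.rpow_def_of_pos hn0]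
        congr 1; ring
    have e1 : (2 * δ T) ^ (s ^ 2) = (2:ℝ) ^ (s ^ 2) * (2 * (δ T / 2)) ^ (s ^ 2) := by
      rw [← Real.mul_rpow (by norm_num) (by positivity)]; congr 1; ring
    rw [e1]
    have h5 : 0 ≤ (2:ℝ) ^ (s ^ 2) * (2 * (δ T / 2)) ^ (s ^ 2) / T := by positivity
    refine (mul_le_mul_of_nonneg_left (hin.trans key) h5).trans (le_of_eq ?_)
    field_simp

/-- the length used for the construction -/
lemma L0_le : ∀ᶠ T : ℝ in atTop, (L0 T : ℝ) ≤ T := N0_le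

lemma L0_log {δ : ℝ → ℝ} (hpos : ∀ᶠ T in atTop, 0 < δ T) (hδL : Tendsto (fun T => δ T * Real.log T) atTop atTop) :
    Tendsto (fun T : ℝ => δ T * Real.log ((L0 T : ℕ) : ℝ)) atTop atTop := N0_log hpos hδL

end Pool.Agent.X110.NA
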