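import Pool.Agent.X110.NA4
import Pool.Agent.X110.NA2

set_option autoImplicit false

/-! Twisted mean values of Dirichlet polynomials. -/

namespace Pool.Agent.X110.NA

open Finset Filter MeasureTheory MonoidAlgebra Topology
open Pool.Agent.Y755
open Pool.Agent.W184.NZ
open Pool.Agent.Y753.NL
open Pool.Agent.Y753.SH
open Pool.Agent.Y753.SHR
open Pool.Agent.H306R2 (dv dv_nonneg dv_one aF aF_pos)

/-- the polynomial at multiples -/
noncomputable def mC (s : ℝ) (n L : ℕ) : PC := ∑ r ∈ Icc 1 L, single (n * r) ((dv s r : ℝ) : ℂ)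

noncomputable def mR (s : ℝ) (n L : ℕ) : P1 := ∑ r ∈ Icc 1 L, single (n * r) (dv s r)

lemma mC_Do {s : ℝ} (hs : 0 ≤ s) (n L : ℕ) : Do (mR s n L) (mC s n L) :=
  Do.sum fun r _ => Do.single (by rw [Complex.norm_real, Real.norm_of_nonneg (dv_nonneg hs r)])

lemma mC_coeff (s : ℝ) (n L q : ℕ) : (mC s n L).coeff q = ∑ r ∈ Icc 1 L, if n * r = q then ((dv s r : ℝ) : ℂ) else 0 := by
  unfold mC
  rw [coeff_sum, Finsupp.finsetSum_apply]
  simp_rw [coeff_single, Finsupp.single_apply]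

lemma mR_coeff (s : ℝ) (n L q : ℕ) : (mR s n L).coeff q = ∑ r ∈ Icc 1 L, if n * r = q then dv s r else 0 := by
  unfold mR
  rw [coeff_sum, Finsupp.finsetSum_apply]
  simp_rw [coeff_single, Finsupp.single_apply]

lemma mR_Bd (s : ℝ) {n : ℕ} (hn : n ≠ 0) {L M : ℕ} (hM : n * L ≤ M) : Bd1 (M : ℝ) (mR s n L) := by
  intro q hq
  rw [Finsupp.mem_support_iff, mR_coeff] at hq
  obtain ⟨r, hr, h⟩ := exists_ne_zero_of_sum_ne_zero hq
  have h1 : n * r = q := by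
    by_contra h'
    rw [if_neg h'] at h
    exact h rfl
  rw [mem_Icc] at hr
  have h2 : 1 ≤ q := by rw [← h1]; exact Nat.mul_pos (Nat.pos_of_ne_zero hn) hr.1
  have h3 : q ≤ M := by rw [← h1]; exact (Nat.mul_le_mul_left n hr.2).trans hM
  exact ⟨by omega, by exact_mod_cast h3⟩

lemma mR_l1 {s : ℝ} (hs : 0 ≤ s) (n L : ℕ) : l1' (mR s n L) ≤ l1' (DN s L) := by
  have e1 : l1' (DN s L) = ∑ r ∈ Icc 1 L, dv s r := by
    rw [l1'_eq (DN_supp s L)]
    refine sum_congr rfl fun r hr => ?_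
    rw [DN_coeff, if_pos hr, abs_of_nonneg (dv_nonneg hs r)]
  rw [e1]
  refine (l1'_sum _ _).trans (sum_le_sum fun r _ => ?_)
  rw [l1'_single, abs_of_nonneg (dv_nonneg hs r)]

lemma ec_mC (S : ℂ) (s : ℝ) (n L : ℕ) : ec S (mC s n L) = (n:ℂ) ^ (-S) * ∑ r ∈ Icc 1 L, ((dv s r : ℝ) : ℂ) * (r:ℂ) ^ (-S) := by
  unfold mC
  rw [map_sum, mul_sum]
  refine sum_congr rfl fun r _ => ?_
  rw [ec_single, Nat.cast_mul, Complex.natCast_mul_natCast_cpow]
  ring

/-- the Dirichlet polynomial of one factor -/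
lemma pr_one (δ s : ℝ) (L : ℕ) (t : ℝ) : pr δ (fun _ : Fin 1 => s) (fun _ => 0) L t =
    ∑ r ∈ Icc 1 L, ((dv s r : ℝ) : ℂ) * (r:ℂ) ^ (-(1 / 2 + (δ:ℂ) + t * Complex.I)) := by
  unfold pr Dr
  rw [map_sum]
  refine sum_congr rfl fun r hr => ?_
  rw [mem_Icc] at hr
  rw [ec_single]
  congr 1
  unfold dr
  rw [Fin.prod_univ_one, tk_apply _ _ (by omega)]
  simp

/-- the twist `(m / n)^{it}` -/
noncomputable def tws (m n : ℕ) (t : ℝ) : ℂ := Complex.exp (((t * Real.log (m / n) : ℝ) : ℂ) * Complex.I)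

lemma tws_norm (m n : ℕ) (t : ℝ) : ‖tws m n t‖ = 1 := by
  unfold tws
  exact Complex.norm_exp_ofReal_mul_I _

lemma tws_cont (m n : ℕ) : Continuous (tws m n) := by
  unfold tws
  fun_prop

lemma tws_eq {m n : ℕ} (hm : m ≠ 0) (hn : n ≠ 0) (δ t : ℝ) :
    (n:ℂ) ^ (-(1 / 2 + (δ:ℂ) + t * Complex.I)) * (starRingEnd ℂ) ((m:ℂ) ^ (-(1 / 2 + (δ:ℂ) + t * Complex.I))) =
      ((((m:ℝ) * n) ^ (-(1 / 2 + δ)) : ℝ) : ℂ) * tws m n t := by
  have m0 : (0:ℝ) < m := by exact_mod_cast Nat.pos_of_ne_zero hm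
  have n0 : (0:ℝ) < n := by exact_mod_cast Nat.pos_of_ne_zero hn
  have mc : (m:ℂ) ≠ 0 := by exact_mod_cast hm
  have nc : (n:ℂ) ≠ 0 := by exact_mod_cast hn
  have e1 : (starRingEnd ℂ) ((m:ℂ) ^ (-(1 / 2 + (δ:ℂ) + t * Complex.I))) = (m:ℂ) ^ (-(1 / 2 + (δ:ℂ) - t * Complex.I)) := by
    rw [Complex.cpow_def_of_ne_zero mc, ← Complex.exp_conj, map_mul, ← Complex.natCast_log, Complex.conj_ofReal,
      Complex.natCast_log, Complex.cpow_def_of_ne_zero mc]
    congr 2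
    simp only [map_neg, map_add, map_mul, Complex.conj_ofReal, Complex.conj_I, map_div₀, map_one, map_ofNat]
    ring
  rw [e1, Complex.cpow_def_of_ne_zero nc, Complex.cpow_def_of_ne_zero mc, ← Complex.exp_add]
  unfold tws
  rw [Real.rpow_def_of_pos (mul_pos m0 n0), Real.log_mul m0.ne' n0.ne', Real.log_div m0.ne' n0.ne', Complex.ofReal_exp,
    ← Complex.exp_add, ← Complex.natCast_log, ← Complex.natCast_log]
  congr 1
  push_cast
  ring

lemma comb_eq (s : ℝ) {n : ℕ} (hn : n ≠ 0) (L r : ℕ) (hr : r ≠ 0) (x : ℕ) :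
    (∑ a ∈ Icc 1 L, if n * a = n * (x * r) then dv s a else 0) = if x * r ≤ L ∧ 1 ≤ x * r then dv s (x * r) else 0 := by
  have h1 : ∀ a, (if n * a = n * (x * r) then dv s a else 0) = if a = x * r then dv s a else 0 := by
    intro a
    have : n * a = n * (x * r) ↔ a = x * r := Nat.mul_right_inj hn
    simp only [this]
  simp_rw [h1]
  rw [sum_ite_eq']
  simp only [mem_Icc]
  by_cases h : x * r ≤ L ∧ 1 ≤ x * r
  · rw [if_pos h, if_pos ⟨h.2, h.1⟩]
  · rw [if_neg h, if_neg (fun h2 => h ⟨h2.2, h2.1⟩)]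

/-- the diagonal of a twisted mean value -/
lemma dg_tw (s δ : ℝ) {m n : ℕ} (hm : m ≠ 0) (hn : n ≠ 0) (hmn : m.Coprime n) (L : ℕ) :
    dg δ (Icc 1 (n * m * L)) (mC s n L) (mC s m L) =
      ((∑ r ∈ (Icc 1 L).filter (fun r => m * r ≤ L ∧ n * r ≤ L), dv s (m * r) * dv s (n * r) * wδ δ (n * m * r) : ℝ) : ℂ) := by
  obtain ⟨F, hF⟩ : ∃ F : ℕ → ℝ, ∀ q, F q = (∑ a ∈ Icc 1 L, if n * a = q then dv s a else 0) *
      (∑ b ∈ Icc 1 L, if m * b = q then dv s b else 0) * wδ δ q := ⟨_, fun _ => rfl⟩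
  have e1 : dg δ (Icc 1 (n * m * L)) (mC s n L) (mC s m L) = ((∑ q ∈ Icc 1 (n * m * L), F q : ℝ) : ℂ) := by
    unfold dg
    push_cast
    refine sum_congr rfl fun q _ => ?_
    rw [mC_coeff, mC_coeff, hF, map_sum]
    push_cast
    congr 2
    · refine sum_congr rfl fun a _ => ?_
      by_cases ha : n * a = q
      · rw [if_pos ha, if_pos ha]
      · rw [if_neg ha, if_neg ha, Complex.ofReal_zero]
    · refine sum_congr rfl fun b _ => ?_
      by_cases hb : m * b = q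
      · rw [if_pos hb, if_pos hb]; exact Complex.conj_ofReal _
      · rw [if_neg hb, if_neg hb, map_zero, Complex.ofReal_zero]
  rw [e1]
  congr 1
  have hnm : n * m ≠ 0 := mul_ne_zero hn hm
  have hinj : Set.InjOn (fun r : ℕ => n * m * r) (Icc 1 L : Finset ℕ) := fun a _ b _ h =>
    Nat.eq_of_mul_eq_mul_left (Nat.pos_of_ne_zero hnm) h
  have h1 : ∑ q ∈ Icc 1 (n * m * L), F q = ∑ q ∈ (Icc 1 L).image (fun r => n * m * r), F q := by
    refine (sum_subset (fun q hq => ?_) fun q hq hq' => ?_).symm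
    · rw [mem_image] at hq
      obtain ⟨r, hr, rfl⟩ := hq
      rw [mem_Icc] at hr ⊢
      exact ⟨Nat.mul_pos (Nat.pos_of_ne_zero hnm) hr.1, Nat.mul_le_mul_left _ hr.2⟩
    · rw [hF]
      by_contra h0
      have h2 : (∑ a ∈ Icc 1 L, if n * a = q then dv s a else 0) ≠ 0 := fun h => h0 (by rw [h]; ring)
      have h3 : (∑ b ∈ Icc 1 L, if m * b = q then dv s b else 0) ≠ 0 := fun h => h0 (by rw [h]; ring)
      obtain ⟨a, -, ha⟩ := exists_ne_zero_of_sum_ne_zero h2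
      obtain ⟨b, -, hb⟩ := exists_ne_zero_of_sum_ne_zero h3
      have ha' : n * a = q := by
        by_contra h'
        rw [if_neg h'] at ha
        exact ha rfl
      have hb' : m * b = q := by
        by_contra h'
        rw [if_neg h'] at hb
        exact hb rfl
      have hd : n * m ∣ q := (hmn.symm).mul_dvd_of_dvd_of_dvd ⟨a, ha'.symm⟩ ⟨b, hb'.symm⟩
      obtain ⟨r, hr⟩ := hd
      apply hq'
      rw [mem_image]
      rw [mem_Icc] at hq
      refine ⟨r, ?_, hr.symm⟩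
      rw [mem_Icc]
      constructor
      · rcases Nat.eq_zero_or_pos r with h | h
        · rw [h, mul_zero] at hr; omega
        · exact h
      · rw [hr] at hq
        exact Nat.le_of_mul_le_mul_left hq.2 (Nat.pos_of_ne_zero hnm)
  rw [h1, sum_image hinj, sum_filter]
  refine sum_congr rfl fun r hr => ?_
  rw [mem_Icc] at hr
  have hr0 : r ≠ 0 := by omega
  have e2 : n * m * r = n * (m * r) := by ring
  have e3 : n * m * r = m * (n * r) := by ring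
  have h4 : (∑ a ∈ Icc 1 L, if n * a = n * m * r then dv s a else 0) = if m * r ≤ L ∧ 1 ≤ m * r then dv s (m * r) else 0 := by
    rw [e2]; exact comb_eq s hn L r hr0 m
  have h5 : (∑ b ∈ Icc 1 L, if m * b = n * m * r then dv s b else 0) = if n * r ≤ L ∧ 1 ≤ n * r then dv s (n * r) else 0 := by
    rw [e3]; exact comb_eq s hm L r hr0 n
  have h6 : 1 ≤ m * r := Nat.mul_pos (Nat.pos_of_ne_zero hm) hr.1
  have h7 : 1 ≤ n * r := Nat.mul_pos (Nat.pos_of_ne_zero hn) hr.1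
  show F (n * m * r) = _
  rw [hF, h4, h5]
  by_cases h8 : m * r ≤ L
  · by_cases h9 : n * r ≤ L
    · rw [if_pos ⟨h8, h6⟩, if_pos ⟨h9, h7⟩, if_pos ⟨h8, h9⟩]
    · have h9' : ¬(n * r ≤ L ∧ 1 ≤ n * r) := fun h => h9 h.1
      have h9'' : ¬(m * r ≤ L ∧ n * r ≤ L) := fun h => h9 h.2
      rw [if_neg h9', if_neg h9'', mul_zero, zero_mul]
  · have h8' : ¬(m * r ≤ L ∧ 1 ≤ m * r) := fun h => h8 h.1
    have h8'' : ¬(m * r ≤ L ∧ n * r ≤ L) := fun h => h8 h.1
    rw [if_neg h8', if_neg h8'', zero_mul, zero_mul]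

/-- a finite part of the twisted sum -/
noncomputable def twF (s δ : ℝ) (m n L : ℕ) : ℝ :=
  ∑ r ∈ (Icc 1 L).filter (fun r => m * r ≤ L ∧ n * r ≤ L), dv s (m * r) * dv s (n * r) * wδ δ r

lemma tw_summable {α δ : ℝ} (hα : 0 < α) (hδ : 0 < δ) {m n : ℕ} (hm : m ≠ 0) (hn : n ≠ 0) :
    Summable fun r : ℕ => dv α (m * r) * dv α (n * r) * wδ δ r := by
  have hc1 : dv α m ≠ 0 := (dv_pos hα hm).ne'
  have hc2 : dv α n ≠ 0 := (dv_pos hα hn).ne'
  refine ((Gt_summable hα hδ hm hn).mul_left (dv α m * dv α n)).congr fun r => ?_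
  unfold Gt
  field_simp

lemma tw_nonneg {α : ℝ} (hα : 0 < α) (δ : ℝ) (m n r : ℕ) : 0 ≤ dv α (m * r) * dv α (n * r) * wδ δ r :=
  mul_nonneg (mul_nonneg (dv_nonneg hα.le _) (dv_nonneg hα.le _)) (wδ_nonneg _ _)

lemma twF_bds {α δ : ℝ} (hα : 0 < α) (hδ : 0 < δ) {m n : ℕ} (hm : m ≠ 0) (hn : n ≠ 0) {L : ℕ} (hL : 1 ≤ L) :
    twF α δ m n L ≤ tw α δ m n ∧ tw α δ m n - ((L:ℝ) / (m * n)) ^ (-δ) * tw α (δ / 2) m n ≤ twF α δ m n L := by
  have hs := tw_summable hα hδ hm hn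
  have hs2 := tw_summable hα (half_pos hδ) hm hn
  have m0 : (0:ℝ) < m := by exact_mod_cast Nat.pos_of_ne_zero hm
  have n0 : (0:ℝ) < n := by exact_mod_cast Nat.pos_of_ne_zero hn
  have L0' : (0:ℝ) < L := by exact_mod_cast hL
  constructor
  · exact hs.sum_le_tsum _ fun r _ => tw_nonneg hα δ m n r
  · obtain ⟨F, hF⟩ : ∃ F : Finset ℕ, F = (Icc 1 L).filter (fun r => m * r ≤ L ∧ n * r ≤ L) := ⟨_, rfl⟩
    have h1 : twF α δ m n L = ∑' r, if r ∈ F then dv α (m * r) * dv α (n * r) * wδ δ r else 0 := by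
      unfold twF
      rw [← hF, tsum_eq_sum (s := F) fun r hr => if_neg hr]
      exact sum_congr rfl fun r hr => (if_pos hr).symm
    have hsF : Summable fun r => if r ∈ F then dv α (m * r) * dv α (n * r) * wδ δ r else 0 :=
      summable_of_ne_finset_zero (s := F) fun r hr => if_neg hr
    have h2 : tw α δ m n - twF α δ m n L ≤ ((L:ℝ) / (m * n)) ^ (-δ) * tw α (δ / 2) m n := by
      unfold tw
      rw [h1, ← hs.tsum_sub hsF, ← tsum_mul_left]
      refine (hs.sub hsF).tsum_le_tsum (fun r => ?_) (hs2.mul_left _)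
      by_cases hr : r ∈ F
      · rw [if_pos hr, sub_self]
        exact mul_nonneg (by positivity) (tw_nonneg hα _ m n r)
      · rw [if_neg hr, sub_zero]
        rcases Nat.eq_zero_or_pos r with h0 | h0
        · rw [h0]; simp [dv]
        have r0 : (0:ℝ) < r := by exact_mod_cast h0
        have h3 : (L:ℝ) / (m * n) ≤ r := by
          rw [div_le_iff₀ (mul_pos m0 n0)]
          by_contra hcon
          push Not at hcon
          have h4 : r * (m * n) < L := by exact_mod_cast hcon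
          apply hr
          have m1 := Nat.pos_of_ne_zero hm
          have n1 := Nat.pos_of_ne_zero hn
          have h5 : m * r ≤ r * (m * n) := by
            calc m * r = r * (m * 1) := by ring
              _ ≤ r * (m * n) := Nat.mul_le_mul_left _ (Nat.mul_le_mul_left _ n1)
          have h6 : n * r ≤ r * (m * n) := by
            calc n * r = r * (1 * n) := by ring
              _ ≤ r * (m * n) := Nat.mul_le_mul_left _ (Nat.mul_le_mul_right _ m1)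
          have h7 : r ≤ m * r := Nat.le_mul_of_pos_left r m1
          rw [hF, mem_filter, mem_Icc]
          exact ⟨⟨h0, by omega⟩, by omega, by omega⟩
        have e4 : wδ δ r = (r:ℝ) ^ (-δ) * wδ (δ / 2) r := by
          unfold wδ
          rw [← mul_assoc, ← Real.rpow_add r0]
          congr 2
          ring
        rw [e4]
        have h8 : (r:ℝ) ^ (-δ) ≤ ((L:ℝ) / (m * n)) ^ (-δ) :=
          Real.rpow_le_rpow_of_nonpos (by positivity) h3 (by linarith)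
        have h9 := tw_nonneg hα (δ / 2) m n r
        calc dv α (m * r) * dv α (n * r) * ((r:ℝ) ^ (-δ) * wδ (δ / 2) r) =
            (r:ℝ) ^ (-δ) * (dv α (m * r) * dv α (n * r) * wδ (δ / 2) r) := by ring
          _ ≤ _ := mul_le_mul_of_nonneg_right h8 h9
    linarith

/-- the finite part along a path -/
theorem twF_path {α : ℝ} (hα : 0 < α) {δ : ℝ → ℝ} (h0 : ∀ᶠ T in atTop, 0 < δ T) (hδ : Tendsto δ atTop (𝓝 0)) {m n : ℕ}
    (hm : m ≠ 0) (hn : n ≠ 0) {N : ℝ → ℕ} (hN : Tendsto (fun T => δ T * Real.log (N T)) atTop atTop) :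
    Tendsto (fun T => (2 * δ T) ^ (α ^ 2) * twF α (δ T) m n (N T)) atTop
      (𝓝 (aF α * ∏ p ∈ (m * n).primeFactors, (Lf α 0 p (m.factorization p) (n.factorization p) / Lf α 0 p 0 0))) := by
  have h1 := tw_asym hα h0 hδ hm hn
  have h2 := tw_asym hα (δ := fun T => δ T / 2) (h0.mono fun T hT => by positivity) (by simpa using hδ.div_const 2) hm hn
  obtain ⟨B, hB⟩ : ∃ B, B = aF α * ∏ p ∈ (m * n).primeFactors, (Lf α 0 p (m.factorization p) (n.factorization p) / Lf α 0 p 0 0) := ⟨_, rfl⟩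
  rw [← hB] at h1 h2 ⊢
  have m0 : (0:ℝ) < m := by exact_mod_cast Nat.pos_of_ne_zero hm
  have n0 : (0:ℝ) < n := by exact_mod_cast Nat.pos_of_ne_zero hn
  have he : Tendsto (fun T => Real.exp (-(δ T * Real.log (N T) - δ T * Real.log ((m:ℝ) * n)))) atTop (𝓝 0) := by
    refine Real.tendsto_exp_neg_atTop_nhds_zero.comp ?_
    have h3 := hN.atTop_add ((hδ.mul_const (Real.log ((m:ℝ) * n))).neg)
    refine h3.congr fun T => ?_
    ring
  have hlow : Tendsto (fun T => (2 * δ T) ^ (α ^ 2) * tw α (δ T) m n -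
      (2:ℝ) ^ (α ^ 2) * (Real.exp (-(δ T * Real.log (N T) - δ T * Real.log ((m:ℝ) * n))) *
      ((2 * (δ T / 2)) ^ (α ^ 2) * tw α (δ T / 2) m n))) atTop (𝓝 B) := by
    have := h1.sub ((he.mul h2).const_mul ((2:ℝ) ^ (α ^ 2)))
    simpa using this
  refine tendsto_of_tendsto_of_tendsto_of_le_of_le' hlow h1 ?_ ?_
  · filter_upwards [h0, hN.eventually_gt_atTop 0] with T hT hT2
    have hL : 1 ≤ N T := by
      rcases Nat.eq_zero_or_pos (N T) with h | h
      · rw [h] at hT2; simp at hT2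
      · exact h
    have hL0 : (0:ℝ) < N T := by exact_mod_cast hL
    have h3 := (twF_bds hα hT hm hn hL).2
    have e1 : (2 * δ T) ^ (α ^ 2) = (2:ℝ) ^ (α ^ 2) * (2 * (δ T / 2)) ^ (α ^ 2) := by
      rw [← Real.mul_rpow (by norm_num) (by positivity)]; congr 1; ring
    have e2 : ((N T:ℝ) / (m * n)) ^ (-δ T) = Real.exp (-(δ T * Real.log (N T) - δ T * Real.log ((m:ℝ) * n))) := by
      rw [Real.rpow_def_of_pos (by positivity), Real.log_div hL0.ne' (by positivity)]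
      congr 1; ring
    rw [e2] at h3
    have h4 : 0 ≤ (2 * δ T) ^ (α ^ 2) := by positivity
    have h5 := mul_le_mul_of_nonneg_left h3 h4
    refine le_trans (le_of_eq ?_) h5
    rw [mul_sub]
    congr 1
    rw [e1]
    ring
  · filter_upwards [h0, hN.eventually_gt_atTop 0] with T hT hT2
    have hL : 1 ≤ N T := by
      rcases Nat.eq_zero_or_pos (N T) with h | h
      · rw [h] at hT2; simp at hT2
      · exact h
    exact mul_le_mul_of_nonneg_left (twF_bds hα hT hm hn hL).1 (by positivity)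

/-- the twisted mean value of a Dirichlet polynomial -/
theorem tw_mv {s δ : ℝ} (hs : 0 < s) (hδ : 0 < δ) (hδ1 : δ ≤ 1 / 2) {m n : ℕ} (hm : m ≠ 0) (hn : n ≠ 0) (hmn : m.Coprime n)
    (L : ℕ) (T : ℝ) :
    ‖(∫ t in (0:ℝ)..T, (((‖pr δ (fun _ : Fin 1 => s) (fun _ => 0) L t‖ ^ 2 : ℝ) : ℂ)) * tws m n t) -
      ((T * (((m:ℝ) * n) ^ (-(1 / 2 + δ)) * twF s δ m n L) : ℝ) : ℂ)‖ ≤
      ((m:ℝ) * n) ^ (1 / 2 + δ) * (2 * (m * n * L) * (DD s δ * (L:ℝ) ^ 3)) := by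
  have m0 : (0:ℝ) < m := by exact_mod_cast Nat.pos_of_ne_zero hm
  have n0 : (0:ℝ) < n := by exact_mod_cast Nat.pos_of_ne_zero hn
  have hmn0 : (0:ℝ) < (m:ℝ) * n := mul_pos m0 n0
  have hM1 : n * L ≤ n * m * L := by
    calc n * L = n * 1 * L := by ring
      _ ≤ n * m * L := Nat.mul_le_mul_right _ (Nat.mul_le_mul_left _ (Nat.pos_of_ne_zero hm))
  have hM2 : m * L ≤ n * m * L := by
    calc m * L = 1 * m * L := by ring
      _ ≤ n * m * L := Nat.mul_le_mul_right _ (Nat.mul_le_mul_right _ (Nat.pos_of_ne_zero hn))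
  have hsup : (mR s n L).coeff.support ⊆ Icc 1 (n * m * L) := by
    intro q hq
    have h1 := mR_Bd s hn hM1 q hq
    rw [mem_Icc]
    exact ⟨Nat.pos_of_ne_zero h1.1, by exact_mod_cast h1.2⟩
  have hb := bil hδ.le (mC_Do hs.le n L) (mC_Do hs.le m L) (mR_Bd s hn hM1) (mR_Bd s hm hM2) hsup 0 T
  rw [sub_zero, dg_tw s δ hm hn hmn L] at hb
  have e1 : ∀ t : ℝ, ec (1 / 2 + δ + t * Complex.I) (mC s n L) * (starRingEnd ℂ) (ec (1 / 2 + δ + t * Complex.I) (mC s m L)) =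
      ((((m:ℝ) * n) ^ (-(1 / 2 + δ)) : ℝ) : ℂ) * ((((‖pr δ (fun _ : Fin 1 => s) (fun _ => 0) L t‖ ^ 2 : ℝ) : ℂ)) * tws m n t) := by
    intro t
    rw [ec_mC, ec_mC, ← pr_one, map_mul, mul_mul_mul_comm, tws_eq hm hn, Complex.mul_conj, Complex.normSq_eq_norm_sq]
    push_cast
    ring
  have e2 : ∑ r ∈ (Icc 1 L).filter (fun r => m * r ≤ L ∧ n * r ≤ L), dv s (m * r) * dv s (n * r) * wδ δ (n * m * r) =
      ((m:ℝ) * n) ^ (-(1 + 2 * δ)) * twF s δ m n L := by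
    unfold twF
    rw [mul_sum]
    refine sum_congr rfl fun r _ => ?_
    rw [wδ_mul]
    have : wδ δ (n * m) = ((m:ℝ) * n) ^ (-(1 + 2 * δ)) := by
      unfold wδ
      rw [one_div, ← Real.rpow_neg_one ((n * m : ℕ) : ℝ)]
      push_cast
      rw [mul_comm (n:ℝ) m, ← Real.rpow_add hmn0]
      congr 1; ring
    rw [this]; ring
  simp_rw [e1] at hb
  rw [intervalIntegral.integral_const_mul, e2] at hb
  set I0 := ∫ t in (0:ℝ)..T, (((‖pr δ (fun _ : Fin 1 => s) (fun _ => 0) L t‖ ^ 2 : ℝ) : ℂ)) * tws m n t with hI0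
  have e3 : ((m:ℝ) * n) ^ (1 / 2 + δ) * ((m:ℝ) * n) ^ (-(1 / 2 + δ)) = 1 := by
    rw [← Real.rpow_add hmn0]; simp
  have e4 : I0 - ((T * (((m:ℝ) * n) ^ (-(1 / 2 + δ)) * twF s δ m n L) : ℝ) : ℂ) =
      ((((m:ℝ) * n) ^ (1 / 2 + δ) : ℝ) : ℂ) * (((((m:ℝ) * n) ^ (-(1 / 2 + δ)) : ℝ) : ℂ) * I0 -
        ((T:ℝ):ℂ) * ((((m:ℝ) * n) ^ (-(1 + 2 * δ)) * twF s δ m n L : ℝ) : ℂ)) := by
    have e5 : ((m:ℝ) * n) ^ (1 / 2 + δ) * ((m:ℝ) * n) ^ (-(1 + 2 * δ)) = ((m:ℝ) * n) ^ (-(1 / 2 + δ)) := by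
      rw [← Real.rpow_add hmn0]; congr 1; ring
    have e3' : ((((m:ℝ) * n) ^ (1 / 2 + δ) : ℝ) : ℂ) * ((((m:ℝ) * n) ^ (-(1 / 2 + δ)) : ℝ) : ℂ) = 1 := by
      rw [← Complex.ofReal_mul, e3, Complex.ofReal_one]
    have e5' : ((((m:ℝ) * n) ^ (1 / 2 + δ) : ℝ) : ℂ) * ((((m:ℝ) * n) ^ (-(1 + 2 * δ)) : ℝ) : ℂ) =
        ((((m:ℝ) * n) ^ (-(1 / 2 + δ)) : ℝ) : ℂ) := by
      rw [← Complex.ofReal_mul, e5]
    have e6 : ((((m:ℝ) * n) ^ (1 / 2 + δ) : ℝ) : ℂ) * (((((m:ℝ) * n) ^ (-(1 / 2 + δ)) : ℝ) : ℂ) * I0) = I0 := by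
      rw [← mul_assoc, e3', one_mul]
    rw [mul_sub, e6]
    congr 1
    rw [Complex.ofReal_mul, Complex.ofReal_mul, Complex.ofReal_mul, ← e5']
    ring
  rw [e4, norm_mul, Complex.norm_real, Real.norm_of_nonneg (by positivity)]
  refine mul_le_mul_of_nonneg_left (hb.trans ?_) (by positivity)
  have h1 := mR_l1 hs.le n L
  have h2 := mR_l1 hs.le m L
  have h3 := DN_l1 hs hδ hδ1 L
  have h4 : l1' (mR s n L) * l1' (mR s m L) ≤ DD s δ * (L:ℝ) ^ 3 := by
    refine le_trans ?_ h3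
    rw [sq]
    exact mul_le_mul h1 h2 (l1'_nonneg _) (l1'_nonneg _)
  have h5 : (((n * m * L : ℕ) : ℝ)) = m * n * L := by push_cast; ring
  rw [h5]
  exact mul_le_mul_of_nonneg_left h4 (by positivity)

lemma L0_four : Tendsto (fun T : ℝ => (L0 T : ℝ) ^ 4 / T) atTop (𝓝 0) := by
  have h5 : Tendsto (fun T : ℝ => 2 * (2 * T) ^ (-(3 / 5 : ℝ))) atTop (𝓝 0) := by
    have := (tendsto_rpow_neg_atTop (show (0:ℝ) < 3 / 5 by norm_num)).comp (tendsto_id.const_mul_atTop (show (0:ℝ) < 2 by norm_num))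
    simpa using this.const_mul 2
  refine squeeze_zero' ?_ ?_ h5
  · filter_upwards [eventually_gt_atTop 0] with T hT
    positivity
  · filter_upwards [eventually_gt_atTop 0] with T hT
    have h6 : (L0 T : ℝ) ≤ (2 * T) ^ ((1:ℝ)/10) := Nat.floor_le (by positivity)
    have h7 : (L0 T : ℝ) ^ 4 ≤ (2 * T) ^ ((2:ℝ)/5) := by
      refine (pow_le_pow_left₀ (Nat.cast_nonneg _) h6 4).trans (le_of_eq ?_)
      rw [← Real.rpow_natCast, ← Real.rpow_mul (by positivity)]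
      norm_num
    rw [div_le_iff₀ hT]
    refine h7.trans (le_of_eq ?_)
    have h8 : (2 * T) ^ ((2:ℝ)/5) = (2 * T) ^ (-(3 / 5 : ℝ)) * (2 * T) := by
      nth_rewrite 3 [← Real.rpow_one (2 * T)]
      rw [← Real.rpow_add (by positivity)]
      norm_num
    rw [h8]; ring

end Pool.Agent.X110.NA
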