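import Pool.Agent.X110.NA3
import Pool.Agent.X110.NA5

set_option autoImplicit false

/-! Twisted real moments of zeta near the critical line. -/

namespace Pool.Agent.X110.NA

open Finset Filter MeasureTheory MonoidAlgebra Topology
open Pool.Agent.Y755
open Pool.Agent.W184.NZ
open Pool.Agent.Y753.NL
open Pool.Agent.Y753.SH
open Pool.Agent.Y753.SHR
open Pool.Agent.H306R2 (dv dv_nonneg dv_one aF aF_pos)

lemma sq_close (x y : ℂ) {l : ℝ} (hl : 0 < l) : |‖x‖ ^ 2 - ‖y‖ ^ 2| ≤ (1 + 1 / l) * ‖x - y‖ ^ 2 + l * ‖y‖ ^ 2 := by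
  have h1 : |‖x‖ - ‖y‖| ≤ ‖x - y‖ := abs_norm_sub_norm_le x y
  have h2 : ‖x‖ ^ 2 - ‖y‖ ^ 2 = (‖x‖ - ‖y‖) * (‖x‖ - ‖y‖) + 2 * ‖y‖ * (‖x‖ - ‖y‖) := by ring
  have h3 : |‖x‖ ^ 2 - ‖y‖ ^ 2| ≤ ‖x - y‖ * ‖x - y‖ + 2 * ‖y‖ * ‖x - y‖ := by
    rw [h2]
    refine (abs_add_le _ _).trans ?_
    rw [abs_mul, abs_mul, abs_of_nonneg (by positivity : 0 ≤ 2 * ‖y‖)]
    exact add_le_add (mul_le_mul h1 h1 (abs_nonneg _) (norm_nonneg _)) (mul_le_mul_of_nonneg_left h1 (by positivity))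
  refine h3.trans ?_
  have h4 : 2 * ‖y‖ * ‖x - y‖ ≤ 1 / l * ‖x - y‖ ^ 2 + l * ‖y‖ ^ 2 := by
    have h5 : 0 ≤ 1 / l * (‖x - y‖ - l * ‖y‖) ^ 2 := by positivity
    have h6 : 1 / l * (‖x - y‖ - l * ‖y‖) ^ 2 = 1 / l * ‖x - y‖ ^ 2 + l * ‖y‖ ^ 2 - 2 * ‖y‖ * ‖x - y‖ := by
      field_simp
      ring
    linarith
  nlinarith

/-- squares of close functions -/
lemma close_sq {c : ℝ → ℝ} {D : ℝ → Set ℝ} {x y : ℝ → ℝ → ℂ} (hc : ∀ᶠ T in atTop, 0 ≤ c T)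
    (hx : ∀ᶠ T in atTop, IntegrableOn (fun t => ‖x T t - y T t‖ ^ 2) (D T))
    (hy : ∀ᶠ T in atTop, IntegrableOn (fun t => ‖y T t‖ ^ 2) (D T))
    (h1 : Tendsto (fun T => c T * ∫ t in D T, ‖x T t - y T t‖ ^ 2) atTop (𝓝 0))
    {B : ℝ} (h2 : ∀ᶠ T in atTop, c T * ∫ t in D T, ‖y T t‖ ^ 2 ≤ B) :
    Tendsto (fun T => c T * ∫ t in D T, |‖x T t‖ ^ 2 - ‖y T t‖ ^ 2|) atTop (𝓝 0) := by
  have hB : 0 ≤ B := by
    obtain ⟨T, t1, t2⟩ := (hc.and h2).exists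
    exact (mul_nonneg t1 (integral_nonneg fun t => by positivity)).trans t2
  refine tendsto_order.2 ⟨fun a ha => ?_, fun e he => ?_⟩
  · filter_upwards [hc] with T hT
    exact lt_of_lt_of_le ha (mul_nonneg hT (integral_nonneg fun t => abs_nonneg _))
  · obtain ⟨l, hl⟩ : ∃ l : ℝ, l = e / (2 * (B + 1)) := ⟨_, rfl⟩
    have hl0 : 0 < l := by rw [hl]; positivity
    have h3 := h1.const_mul (1 + 1 / l)
    rw [mul_zero] at h3
    have hlB : l * B < e / 2 := by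
      rw [hl, div_mul_eq_mul_div, div_lt_div_iff₀ (by positivity) (by norm_num)]
      nlinarith
    filter_upwards [hc, hx, hy, h2, h3.eventually (gt_mem_nhds (half_pos he))] with T t1 t2 t3 t4 t5
    have h4 : ∫ t in D T, |‖x T t‖ ^ 2 - ‖y T t‖ ^ 2| ≤ ∫ t in D T, ((1 + 1 / l) * ‖x T t - y T t‖ ^ 2 + l * ‖y T t‖ ^ 2) :=
      integral_mono_of_nonneg (Eventually.of_forall fun t => abs_nonneg _) ((t2.const_mul _).add (t3.const_mul _))
        (Eventually.of_forall fun t => sq_close _ _ hl0)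
    rw [integral_add (t2.const_mul _) (t3.const_mul _), integral_const_mul, integral_const_mul] at h4
    have h5 := mul_le_mul_of_nonneg_left h4 t1
    have h6 : c T * ((1 + 1 / l) * (∫ t in D T, ‖x T t - y T t‖ ^ 2) + l * ∫ t in D T, ‖y T t‖ ^ 2) =
        (1 + 1 / l) * (c T * ∫ t in D T, ‖x T t - y T t‖ ^ 2) + l * (c T * ∫ t in D T, ‖y T t‖ ^ 2) := by ring
    rw [h6] at h5
    have h7 := mul_le_mul_of_nonneg_left t4 hl0.le
    linarith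

/-- the polynomials are bounded in mean square -/
lemma pr_bound {δ : ℝ → ℝ} (hδ0 : Tendsto δ atTop (𝓝 0)) (hpos : ∀ᶠ T in atTop, 0 < δ T) {s : ℝ} (hs : 0 < s) :
    ∃ B : ℝ, ∀ᶠ T in atTop, (2 * δ T) ^ (s ^ 2) / T *
      ∫ t in Set.Icc 0 T, ‖pr (δ T) (fun _ : Fin 1 => s) (fun _ => 0) (L0 T) t‖ ^ 2 ≤ B := by
  obtain ⟨C, hC, hmv⟩ := mv_dom
  have hD := (DD_asym hs hpos hδ0).const_mul C
  refine ⟨C * aF s + 1, ?_⟩
  filter_upwards [hpos, eventually_ge_atTop 1, hD.eventually (gt_mem_nhds (lt_add_one _)), L0_le] with T t1 t2 t3 t4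
  have hT0 : 0 < T := by linarith
  have h1 := hmv (δ T) T (L0 T) _ _ t2 (Dr_Do (κ := fun _ : Fin 1 => s) (fun _ => hs.le) (fun j => (0:ℝ) * δ T) (L0 T)) (DN_Bd _ (L0 T)) t4
  have h2 : ∫ t in Set.Icc 0 T, ‖pr (δ T) (fun _ : Fin 1 => s) (fun _ => 0) (L0 T) t‖ ^ 2 ≤
      ∫ t in (0:ℝ)..(2 * T), ‖pr (δ T) (fun _ : Fin 1 => s) (fun _ => 0) (L0 T) t‖ ^ 2 := by
    rw [intervalIntegral.integral_of_le (by linarith), ← integral_Icc_eq_integral_Ioc]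
    refine setIntegral_mono_set (((pr_cont (δ T) (fun _ => hs.le) _ (L0 T)).norm.pow 2).continuousOn.integrableOn_compact isCompact_Icc)
      (Eventually.of_forall fun t => by positivity) (Eventually.of_forall fun t ht => ?_)
    have h3 : t ∈ Set.Icc 0 T := ht
    exact ⟨h3.1, by linarith [h3.2]⟩
  have h3 : ∑ _j : Fin 1, s = s := by simp
  rw [h3] at h1
  have h4 : ∫ t in Set.Icc 0 T, ‖pr (δ T) (fun _ : Fin 1 => s) (fun _ => 0) (L0 T) t‖ ^ 2 ≤ C * (T * DD s (δ T)) := by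
    refine h2.trans (h1.trans ?_)
    have := ip_DN_le hs t1 (L0 T)
    gcongr
  have h5 := mul_le_mul_of_nonneg_left h4 (by positivity : 0 ≤ (2 * δ T) ^ (s ^ 2) / T)
  refine h5.trans (le_trans (le_of_eq ?_) t3.le)
  field_simp

/-- the twisted mean values of the polynomials -/
lemma pr_twist {δ : ℝ → ℝ} (hδ0 : Tendsto δ atTop (𝓝 0)) (hpos : ∀ᶠ T in atTop, 0 < δ T)
    (hδL : Tendsto (fun T => δ T * Real.log T) atTop atTop) {s : ℝ} (hs : 0 < s) {m n : ℕ} (hm : m ≠ 0) (hn : n ≠ 0)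
    (hmn : m.Coprime n) :
    Tendsto (fun T : ℝ => ((2 * δ T) ^ (s ^ 2) / T) • ∫ t in Set.Icc 0 T,
      (((‖pr (δ T) (fun _ : Fin 1 => s) (fun _ => 0) (L0 T) t‖ ^ 2 : ℝ) : ℂ)) * tws m n t) atTop
      (𝓝 ((((m:ℝ) * n) ^ (-(1 / 2 : ℝ)) * (aF s * ∏ p ∈ (m * n).primeFactors,
        (Lf s 0 p (m.factorization p) (n.factorization p) / Lf s 0 p 0 0)) : ℝ) : ℂ)) := by
  have m0 : (0:ℝ) < m := by exact_mod_cast Nat.pos_of_ne_zero hm
  have n0 : (0:ℝ) < n := by exact_mod_cast Nat.pos_of_ne_zero hn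
  have hmn0 : (0:ℝ) < (m:ℝ) * n := mul_pos m0 n0
  have h1 := twF_path hs hpos hδ0 hm hn (L0_log hpos hδL)
  have h2 : Tendsto (fun T => ((m:ℝ) * n) ^ (-(1 / 2 + δ T))) atTop (𝓝 (((m:ℝ) * n) ^ (-(1 / 2 : ℝ)))) := by
    have h3 : Continuous fun x : ℝ => ((m:ℝ) * n) ^ (-(1 / 2 + x)) := (Real.continuous_const_rpow hmn0.ne').comp (by fun_prop)
    exact (h3.tendsto' 0 _ (by simp)).comp hδ0
  have h3 := h2.mul h1
  have h4 := (Complex.continuous_ofReal.tendsto _).comp h3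
  -- the error
  have hD := DD_asym hs hpos hδ0
  have hL := L0_four
  have herr : Tendsto (fun T : ℝ => ((m:ℝ) * n) ^ (1 / 2 + (1 / 2 : ℝ)) * (2 * (m * n)) * ((L0 T : ℝ) ^ 4 / T * ((2 * δ T) ^ (s ^ 2) * DD s (δ T)))) atTop (𝓝 0) := by
    have := (hL.mul hD).const_mul (((m:ℝ) * n) ^ (1 / 2 + (1 / 2 : ℝ)) * (2 * (m * n)))
    simpa using this
  have hdiff : Tendsto (fun T : ℝ => ((2 * δ T) ^ (s ^ 2) / T) • (∫ t in Set.Icc 0 T,
      (((‖pr (δ T) (fun _ : Fin 1 => s) (fun _ => 0) (L0 T) t‖ ^ 2 : ℝ) : ℂ)) * tws m n t) -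
      (((((m:ℝ) * n) ^ (-(1 / 2 + δ T)) * ((2 * δ T) ^ (s ^ 2) * twF s (δ T) m n (L0 T)) : ℝ)) : ℂ)) atTop (𝓝 0) := by
    rw [tendsto_zero_iff_norm_tendsto_zero]
    refine squeeze_zero' (Eventually.of_forall fun T => norm_nonneg _) ?_ herr
    filter_upwards [hpos, eventually_gt_atTop 0, hδ0.eventually (gt_mem_nhds (show (0:ℝ) < 1 / 2 by norm_num))] with T t1 t2 t3
    have h5 := tw_mv hs t1 t3.le hm hn hmn (L0 T) T
    rw [intervalIntegral.integral_of_le t2.le, ← integral_Icc_eq_integral_Ioc] at h5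
    have h6 : 0 ≤ (2 * δ T) ^ (s ^ 2) / T := by positivity
    have e1 : ((2 * δ T) ^ (s ^ 2) / T) • (∫ t in Set.Icc 0 T,
      (((‖pr (δ T) (fun _ : Fin 1 => s) (fun _ => 0) (L0 T) t‖ ^ 2 : ℝ) : ℂ)) * tws m n t) -
      (((((m:ℝ) * n) ^ (-(1 / 2 + δ T)) * ((2 * δ T) ^ (s ^ 2) * twF s (δ T) m n (L0 T)) : ℝ)) : ℂ) =
      ((2 * δ T) ^ (s ^ 2) / T) • ((∫ t in Set.Icc 0 T,
      (((‖pr (δ T) (fun _ : Fin 1 => s) (fun _ => 0) (L0 T) t‖ ^ 2 : ℝ) : ℂ)) * tws m n t) -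
      ((T * (((m:ℝ) * n) ^ (-(1 / 2 + δ T)) * twF s (δ T) m n (L0 T)) : ℝ) : ℂ)) := by
      rw [smul_sub]
      congr 1
      rw [Complex.real_smul, ← Complex.ofReal_mul]
      congr 1
      field_simp
    rw [e1, norm_smul, Real.norm_of_nonneg h6]
    refine (mul_le_mul_of_nonneg_left h5 h6).trans ?_
    have hmn1 : (1:ℝ) ≤ (m:ℝ) * n := by
      have a1 : (1:ℝ) ≤ m := by exact_mod_cast Nat.pos_of_ne_zero hm
      have a2 : (1:ℝ) ≤ n := by exact_mod_cast Nat.pos_of_ne_zero hn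
      nlinarith
    have h7 : ((m:ℝ) * n) ^ (1 / 2 + δ T) ≤ ((m:ℝ) * n) ^ (1 / 2 + (1 / 2 : ℝ)) :=
      Real.rpow_le_rpow_of_exponent_le hmn1 (by linarith)
    have hDp : 0 ≤ DD s (δ T) := by have := DD_ge_one hs t1; linarith
    calc (2 * δ T) ^ (s ^ 2) / T * (((m:ℝ) * n) ^ (1 / 2 + δ T) * (2 * (m * n * L0 T) * (DD s (δ T) * (L0 T:ℝ) ^ 3))) ≤
        (2 * δ T) ^ (s ^ 2) / T * (((m:ℝ) * n) ^ (1 / 2 + (1 / 2 : ℝ)) * (2 * (m * n * L0 T) * (DD s (δ T) * (L0 T:ℝ) ^ 3))) := by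
          refine mul_le_mul_of_nonneg_left (mul_le_mul_of_nonneg_right h7 (by positivity)) h6
      _ = _ := by field_simp
  have h5 := hdiff.add h4
  rw [zero_add] at h5
  refine h5.congr fun T => ?_
  simp only [Function.comp]
  rw [sub_add_cancel]

/-- twisted moments, off small sets of large values -/
theorem twist_small (hDG : S_DIAGR) (hST : S_STARR) {δ : ℝ → ℝ} (hδ : Tendsto δ atTop (𝓝 0))
    (hδL : Tendsto (fun T : ℝ => δ T * Real.log T) atTop atTop) {c : ℝ} (hc : 0 ≤ c) {R : Set ℝ} (hR : R.Countable)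
    (hR0 : ∀ r ∈ R, 0 < r) :
    ∃ E : ℝ → Set ℝ, (∀ T, MeasurableSet (E T) ∧ E T ⊆ Set.Icc 0 T ∧
        ∀ t ∈ E T, (δ T) ^ (-(2 + c)) < ‖riemannZeta (1 / 2 + δ T + (t : ℂ) * Complex.I)‖) ∧
      Tendsto (fun T => (volume (E T)).toReal / (T * (δ T) ^ (4 + 4 * c))) atTop (𝓝 0) ∧
      ∀ (s : ℝ), s ∈ R → ∀ m n : ℕ, m ≠ 0 → n ≠ 0 → m.Coprime n →
        ((s ≤ 2 ∨ 4 + 4 * c ≤ 2 * s) → Tendsto (fun T : ℝ => ((2 * δ T) ^ (s ^ 2) / T) •
          ∫ t in Set.Icc 0 T \ E T, (((‖riemannZeta (1 / 2 + δ T + (t : ℂ) * Complex.I)‖ ^ (2 * s) : ℝ) : ℂ)) * tws m n t)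
          atTop (𝓝 ((((m:ℝ) * n) ^ (-(1 / 2 : ℝ)) * (aF s * ∏ p ∈ (m * n).primeFactors,
            (Lf s 0 p (m.factorization p) (n.factorization p) / Lf s 0 p 0 0)) : ℝ) : ℂ))) ∧
        (s ≤ 2 → Tendsto (fun T : ℝ => ((2 * δ T) ^ (s ^ 2) / T) •
          ∫ t in Set.Icc 0 T, (((‖riemannZeta (1 / 2 + δ T + (t : ℂ) * Complex.I)‖ ^ (2 * s) : ℝ) : ℂ)) * tws m n t)
          atTop (𝓝 ((((m:ℝ) * n) ^ (-(1 / 2 : ℝ)) * (aF s * ∏ p ∈ (m * n).primeFactors,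
            (Lf s 0 p (m.factorization p) (n.factorization p) / Lf s 0 p 0 0)) : ℝ) : ℂ))) := by
  obtain ⟨E, w, hE, hvol, hw, hm⟩ := approx_small hDG hST hδ hδL hc (S := {0}) (Set.countable_singleton 0) hR hR0
  have hpos := pos_path hδL
  have hlt : ∀ᶠ T in atTop, δ T < 1 / 2 := hδ.eventually (gt_mem_nhds (by norm_num))
  refine ⟨E, fun T => ⟨(hE T).1, (hE T).2.1, fun t ht => ?_⟩, hvol, ?_⟩
  · obtain ⟨a, ha, h1⟩ := (hE T).2.2.2 t ht
    rw [Set.mem_singleton_iff] at ha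
    subst ha
    unfold za at h1
    simpa using h1
  intro s hs m n hm0 hn0 hmn
  have hs0 := hR0 s hs
  obtain ⟨A1, A2, A3⟩ := hm 1 (fun _ => s) (fun _ => 0) s L0 le_rfl (by simp) (fun _ => hs) (fun _ => Set.mem_singleton 0)
    L0_le (L0_log hpos hδL)
  obtain ⟨B, hB⟩ := pr_bound hδ hpos hs0
  have htw := pr_twist hδ hpos hδL hs0 hm0 hn0 hmn
  obtain ⟨x, hx⟩ : ∃ x : ℝ → ℝ → ℂ, ∀ T t, x T t = zr (w T) (δ T) (fun _ : Fin 1 => s) (fun _ => 0) t := ⟨_, fun _ _ => rfl⟩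
  obtain ⟨y, hy⟩ : ∃ y : ℝ → ℝ → ℂ, ∀ T t, y T t = pr (δ T) (fun _ : Fin 1 => s) (fun _ => 0) (L0 T) t := ⟨_, fun _ _ => rfl⟩
  obtain ⟨L, hL⟩ : ∃ L : ℂ, L = ((((m:ℝ) * n) ^ (-(1 / 2 : ℝ)) * (aF s * ∏ p ∈ (m * n).primeFactors,
            (Lf s 0 p (m.factorization p) (n.factorization p) / Lf s 0 p 0 0)) : ℝ) : ℂ) := ⟨_, rfl⟩
  rw [← hL] at htw ⊢
  simp_rw [← hx, ← hy] at A1 A2
  simp_rw [← hy] at A3 hB htw
  have hc0 : ∀ᶠ T in atTop, 0 ≤ (2 * δ T) ^ (s ^ 2) / T := by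
    filter_upwards [hpos, eventually_gt_atTop 0] with T t1 t2
    positivity
  have hyc : ∀ T, Continuous (y T) := fun T => by
    have e : y T = pr (δ T) (fun _ : Fin 1 => s) (fun _ => 0) (L0 T) := funext (hy T)
    rw [e]
    exact pr_cont (δ T) (fun _ => hs0.le) _ (L0 T)
  have hxm : ∀ T, Measurable (x T) := fun T => by
    have e : x T = zr (w T) (δ T) (fun _ : Fin 1 => s) (fun _ => 0) := funext (hx T)
    rw [e]
    exact zr_meas (hE T).2.2.1 (δ T) _ _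
  -- modulus
  have hmod : ∀ᶠ T in atTop, ∀ᵐ t : ℝ, ‖x T t‖ ^ 2 = ‖riemannZeta (1 / 2 + δ T + (t : ℂ) * Complex.I)‖ ^ (2 * s) := by
    filter_upwards [hw] with T hT
    filter_upwards [zeros_ae (δ T) ((0:ℝ) * δ T)] with t ht
    have n1 := zr_norm (w := w T) (δ := δ T) (κ := fun _ : Fin 1 => s) (a := fun _ => 0) (t := t) fun _ => hT _ ht
    rw [Fin.prod_univ_one] at n1
    rw [hx, n1]
    unfold za
    simp
  have hzi : ∀ᶠ T in atTop, IntegrableOn (fun t : ℝ => ‖riemannZeta (1 / 2 + δ T + (t : ℂ) * Complex.I)‖ ^ (2 * s)) (Set.Icc 0 T) := by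
    filter_upwards [hlt] with T hT
    have := ic hT (0:ℝ) (r := 2 * s) (by positivity) (T := T)
    unfold za at this
    simpa using this
  have hyi : ∀ T, IntegrableOn (fun t => ‖y T t‖ ^ 2) (Set.Icc 0 T) := fun T =>
    ((hyc T).norm.pow 2).continuousOn.integrableOn_compact isCompact_Icc
  have hxi : ∀ᶠ T in atTop, IntegrableOn (fun t => ‖x T t - y T t‖ ^ 2) (Set.Icc 0 T) := by
    filter_upwards [hzi, hmod] with T h1 h2
    refine Integrable.mono' ((h1.const_mul 2).add ((hyi T).const_mul 2))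
      (((hxm T).sub (hyc T).measurable).norm.pow_const 2).aestronglyMeasurable ?_
    filter_upwards [ae_restrict_of_ae h2] with t ht
    rw [Real.norm_of_nonneg (by positivity)]
    show _ ≤ 2 * ‖riemannZeta (1 / 2 + δ T + (t : ℂ) * Complex.I)‖ ^ (2 * s) + 2 * ‖y T t‖ ^ 2
    rw [← ht]
    exact sq_sub_le _ _
  -- the main passage
  have hmain : ∀ {D : ℝ → Set ℝ}, (∀ T, MeasurableSet (D T) ∧ D T ⊆ Set.Icc 0 T) →
      Tendsto (fun T : ℝ => (2 * δ T) ^ (s ^ 2) / T * ∫ t in D T, ‖x T t - y T t‖ ^ 2) atTop (𝓝 0) →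
      Tendsto (fun T : ℝ => (2 * δ T) ^ (s ^ 2) / T * ∫ t in Set.Icc 0 T \ D T, ‖y T t‖ ^ 2) atTop (𝓝 0) →
      Tendsto (fun T : ℝ => ((2 * δ T) ^ (s ^ 2) / T) •
          ∫ t in D T, (((‖riemannZeta (1 / 2 + δ T + (t : ℂ) * Complex.I)‖ ^ (2 * s) : ℝ) : ℂ)) * tws m n t) atTop (𝓝 L) := by
    intro D hD h1 h2
    have h3 := close_sq hc0 (hxi.mono fun T hT => hT.mono_set (hD T).2)
      (Eventually.of_forall fun T => (hyi T).mono_set (hD T).2) h1 (B := B) (by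
        filter_upwards [hB, hc0] with T t1 t2
        refine le_trans (mul_le_mul_of_nonneg_left ?_ t2) t1
        exact setIntegral_mono_set (hyi T) (Eventually.of_forall fun t => by positivity) (Eventually.of_forall (hD T).2))
    have h4 := h3.add h2
    rw [add_zero] at h4
    have h5 : Tendsto (fun T : ℝ => ((2 * δ T) ^ (s ^ 2) / T) •
          (∫ t in D T, (((‖riemannZeta (1 / 2 + δ T + (t : ℂ) * Complex.I)‖ ^ (2 * s) : ℝ) : ℂ)) * tws m n t) -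
        ((2 * δ T) ^ (s ^ 2) / T) • ∫ t in Set.Icc 0 T, (((‖y T t‖ ^ 2 : ℝ) : ℂ)) * tws m n t) atTop (𝓝 0) := by
      rw [tendsto_zero_iff_norm_tendsto_zero]
      refine squeeze_zero' (Eventually.of_forall fun T => norm_nonneg _) ?_ h4
      filter_upwards [hc0, hzi, hmod, hxi] with T t1 t2 t3 t4
      have i1 : IntegrableOn (fun t : ℝ => (((‖riemannZeta (1 / 2 + δ T + (t : ℂ) * Complex.I)‖ ^ (2 * s) : ℝ) : ℂ)) * tws m n t) (Set.Icc 0 T) :=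
        (t2.ofReal).mul_bdd (c := 1) (tws_cont m n).aestronglyMeasurable (Eventually.of_forall fun t => (tws_norm m n t).le)
      have i2 : IntegrableOn (fun t : ℝ => (((‖y T t‖ ^ 2 : ℝ) : ℂ)) * tws m n t) (Set.Icc 0 T) :=
        ((hyi T).ofReal).mul_bdd (c := 1) (tws_cont m n).aestronglyMeasurable (Eventually.of_forall fun t => (tws_norm m n t).le)
      have hu : Set.Icc 0 T = D T ∪ (Set.Icc 0 T \ D T) := by
        rw [Set.union_sdiff_self, Set.union_eq_right.mpr (hD T).2]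
      have e1 : ∫ t in Set.Icc 0 T, (((‖y T t‖ ^ 2 : ℝ) : ℂ)) * tws m n t =
          (∫ t in D T, (((‖y T t‖ ^ 2 : ℝ) : ℂ)) * tws m n t) + ∫ t in Set.Icc 0 T \ D T, (((‖y T t‖ ^ 2 : ℝ) : ℂ)) * tws m n t := by
        conv_lhs => rw [hu]
        rw [setIntegral_union Set.disjoint_sdiff_right (measurableSet_Icc.diff (hD T).1) (i2.mono_set (hD T).2)
          (i2.mono_set Set.sdiff_subset)]
      rw [e1, ← smul_sub, norm_smul, Real.norm_of_nonneg t1, ← sub_sub, ← integral_sub (i1.mono_set (hD T).2) (i2.mono_set (hD T).2),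
        ← mul_add]
      refine mul_le_mul_of_nonneg_left ?_ t1
      refine (norm_sub_le _ _).trans (add_le_add ?_ ?_)
      · refine norm_integral_le_of_norm_le ?_ ?_
        · have : Integrable (fun t : ℝ => |‖riemannZeta (1 / 2 + δ T + (t : ℂ) * Complex.I)‖ ^ (2 * s) - ‖y T t‖ ^ 2|) (volume.restrict (D T)) :=
            ((t2.mono_set (hD T).2).sub ((hyi T).mono_set (hD T).2)).abs
          refine this.congr ?_
          filter_upwards [ae_restrict_of_ae t3] with t ht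
          rw [ht]
        · filter_upwards [ae_restrict_of_ae t3] with t ht
          rw [← sub_mul, norm_mul, tws_norm, mul_one, ← Complex.ofReal_sub, Complex.norm_real, Real.norm_eq_abs, ht]
      · refine norm_integral_le_of_norm_le ((hyi T).mono_set Set.sdiff_subset) (Eventually.of_forall fun t => ?_)
        rw [norm_mul, tws_norm, mul_one, Complex.norm_real, Real.norm_of_nonneg (by positivity)]
    have h6 := h5.add htw
    rw [zero_add] at h6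
    refine h6.congr fun T => ?_
    rw [sub_add_cancel]
  refine ⟨fun hcase => ?_, fun hs2 => ?_⟩
  · refine hmain (fun T => ⟨measurableSet_Icc.diff (hE T).1, Set.sdiff_subset⟩) (A1 hcase) ?_
    refine A3.congr fun T => ?_
    rw [Set.sdiff_sdiff_right_self, Set.inter_eq_right.mpr (hE T).2.1]
  · refine hmain (D := fun T => Set.Icc 0 T) (fun T => ⟨measurableSet_Icc, subset_rfl⟩) (A2 hs2) ?_
    simp

end Pool.Agent.X110.NA
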