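import Pool.Agent.X110.NB1

set_option autoImplicit false

/-! From the twisted means to the law of the small primes. -/

namespace Pool.Agent.X110.NA

open Finset Filter Topology MeasureTheory
open Pool.Agent.H306R2 (lc lc_zero lc_nonneg aF)

section arith

variable {m : ℕ} (p : Fin m → ℕ) (hp : ∀ j, (p j).Prime) (hinj : Function.Injective p) (a b : Fin m → ℕ)

include hp in
lemma pp_ne : ∏ j, p j ^ a j ≠ 0 := prod_ne_zero_iff.mpr fun j _ => pow_ne_zero _ (hp j).ne_zero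

include hp hinj in
lemma pp_fact (j : Fin m) : (∏ i, p i ^ a i).factorization (p j) = a j := by
  rw [Nat.factorization_prod fun i _ => pow_ne_zero _ (hp i).ne_zero, Finsupp.finsetSum_apply]
  rw [sum_eq_single j]
  · rw [(hp j).factorization_pow, Finsupp.single_eq_same]
  · intro i _ hij
    rw [(hp i).factorization_pow, Finsupp.single_apply, if_neg fun h => hij (hinj h)]
  · intro h; exact absurd (mem_univ _) h

include hp in
lemma pp_fact_zero {q : ℕ} (hq : ∀ j, q ≠ p j) : (∏ i, p i ^ a i).factorization q = 0 := by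
  rw [Nat.factorization_prod fun i _ => pow_ne_zero _ (hp i).ne_zero, Finsupp.finsetSum_apply]
  refine sum_eq_zero fun i _ => ?_
  rw [(hp i).factorization_pow, Finsupp.single_apply, if_neg fun h => hq i h.symm]

include hp hinj in
lemma pp_coprime (hab : ∀ j, a j = 0 ∨ b j = 0) : (∏ j, p j ^ a j).Coprime (∏ j, p j ^ b j) := by
  refine Nat.Coprime.prod_left fun i _ => Nat.Coprime.prod_right fun j _ => ?_
  by_cases h : i = j
  · subst h
    rcases hab i with h1 | h1
    · rw [h1, pow_zero]; exact Nat.coprime_one_left _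
    · rw [h1, pow_zero]; exact Nat.coprime_one_right _
  · exact Nat.Coprime.pow _ _ ((Nat.coprime_primes (hp i) (hp j)).mpr fun h1 => h (hinj h1))

include hp hinj in
lemma pp_prod (L : ℕ → ℕ → ℕ → ℝ) (hL : ∀ q, q.Prime → L q 0 0 = 1) :
    ∏ q ∈ ((∏ j, p j ^ a j) * ∏ j, p j ^ b j).primeFactors,
      L q ((∏ j, p j ^ a j).factorization q) ((∏ j, p j ^ b j).factorization q) = ∏ j, L (p j) (a j) (b j) := by
  have h1 : ∏ j, L (p j) (a j) (b j) = ∏ q ∈ univ.image p,
      L q ((∏ j, p j ^ a j).factorization q) ((∏ j, p j ^ b j).factorization q) := by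
    rw [prod_image fun i _ j _ h => hinj h]
    refine prod_congr rfl fun j _ => ?_
    rw [pp_fact p hp hinj, pp_fact p hp hinj]
  rw [h1]
  refine prod_subset ?_ ?_
  · intro q hq
    by_contra h
    have h2 : ∀ j, q ≠ p j := fun j hj => h (mem_image.mpr ⟨j, mem_univ _, hj.symm⟩)
    have h3 : ((∏ j, p j ^ a j) * ∏ j, p j ^ b j).factorization q = 0 := by
      rw [Nat.factorization_mul (pp_ne p hp a) (pp_ne p hp b), Finsupp.add_apply, pp_fact_zero p hp a h2,
        pp_fact_zero p hp b h2]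
    rw [← Nat.support_factorization, Finsupp.mem_support_iff] at hq
    exact hq h3
  · intro q hq hq'
    obtain ⟨j, _, hj⟩ := mem_image.mp hq
    rw [← Nat.support_factorization, Finsupp.mem_support_iff, not_not, Nat.factorization_mul (pp_ne p hp a) (pp_ne p hp b),
      Finsupp.add_apply] at hq'
    have h2 : (∏ j, p j ^ a j).factorization q = 0 := by omega
    have h3 : (∏ j, p j ^ b j).factorization q = 0 := by omega
    rw [h2, h3]
    exact hL q (by rw [← hj]; exact hp j)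

end arith

lemma pi_int {m : ℕ} (f : Fin m → ℝ → ℂ) :
    ∫ x in Set.Icc (0 : Fin m → ℝ) 1, ∏ j, f j (x j) = ∏ j, ∫ y in (0:ℝ)..1, f j y := by
  have h1 : (volume : Measure (Fin m → ℝ)).restrict (Set.Icc 0 1) = Measure.pi fun _ : Fin m => (volume : Measure ℝ).restrict (Set.Icc 0 1) := by
    rw [← Measure.restrict_pi_pi, ← volume_pi, Set.pi_univ_Icc]
    rfl
  rw [h1, integral_fintype_prod_eq_prod]
  refine prod_congr rfl fun j _ => ?_
  rw [integral_Icc_eq_integral_Ioc, intervalIntegral.integral_of_le zero_le_one]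

/-- the law of the small primes -/
theorem tilt_of_twist {s : ℝ} (hs : 0 < s) (haF : 0 ≤ aF s) {m : ℕ} (p : Fin m → ℕ) (hp : ∀ j, (p j).Prime) (hinj : Function.Injective p)
    (Z : ℝ → ℝ → ℝ) (D : ℝ → Set ℝ) (c : ℝ → ℝ)
    (hc : ∀ᶠ T in atTop, 0 ≤ c T) (hZ0 : ∀ T t, 0 ≤ Z T t) (hZi : ∀ᶠ T in atTop, IntegrableOn (Z T) (D T))
    (htw : ∀ a b : ℕ, a ≠ 0 → b ≠ 0 → a.Coprime b → Tendsto (fun T => (c T : ℂ) * ∫ t in D T, ((Z T t : ℝ) : ℂ) *
      Complex.exp (((t * Real.log (a / b) : ℝ) : ℂ) * Complex.I)) atTop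
      (𝓝 ((((a:ℝ) * b) ^ (-(1 / 2 : ℝ)) * (aF s * ∏ q ∈ (a * b).primeFactors,
            (Lf s 0 q (a.factorization q) (b.factorization q) / Lf s 0 q 0 0)) : ℝ) : ℂ)))
    (F : (Fin m → ℂ) → ℂ) (hF : ContinuousOn F {z | ∀ j, ‖z j‖ = 1}) :
    Tendsto (fun T => (c T : ℂ) * ∫ t in D T, ((Z T t : ℝ) : ℂ) * F fun j => ee (t * (Real.log (p j) / (2 * Real.pi)))) atTop
      (𝓝 (∫ x in Set.Icc (0 : Fin m → ℝ) 1, ((aF s * ∏ j, (Wp s (p j) (x j) / Lf s 0 (p j) 0 0) : ℝ) : ℂ) * F fun j => ee (x j))) := by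
  have hLpos : ∀ j a b, 0 < Lf s 0 (p j) a b := fun j a b => Lf_pos hs le_rfl (hp j) a b
  have hWc : Continuous fun x : Fin m → ℝ => aF s * ∏ j, (Wp s (p j) (x j) / Lf s 0 (p j) 0 0) := by
    refine continuous_const.mul (continuous_finsetProd _ fun j _ => ?_)
    exact ((Wp_cont s (hp j)).comp (continuous_apply j)).div_const _
  refine torus_limit _ Z D c hc hZ0 hZi _ (fun x => ?_) ?_ (fun v => ?_) F hF
  · exact mul_nonneg haF (prod_nonneg fun j _ => div_nonneg (Wp_pos s (hp j) _).le (hLpos j 0 0).le)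
  · exact hWc.continuousOn.integrableOn_compact isCompact_Icc
  · obtain ⟨a, ha⟩ : ∃ a : Fin m → ℕ, ∀ j, a j = (v j).toNat := ⟨_, fun _ => rfl⟩
    obtain ⟨b, hb⟩ : ∃ b : Fin m → ℕ, ∀ j, b j = (-v j).toNat := ⟨_, fun _ => rfl⟩
    have hab : ∀ j, a j = 0 ∨ b j = 0 := by intro j; rw [ha, hb]; omega
    have h := htw (∏ j, p j ^ a j) (∏ j, p j ^ b j) (pp_ne p hp a) (pp_ne p hp b) (pp_coprime p hp hinj a b hab)
    rw [pp_prod p hp hinj a b (fun q x y => Lf s 0 q x y / Lf s 0 q 0 0)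
      (fun q hq => div_self (Lf_pos hs le_rfl hq 0 0).ne')] at h
    -- the left sides
    have e1 : ∀ t : ℝ, Complex.exp (((t * Real.log (((∏ j, p j ^ a j : ℕ) : ℝ) / ((∏ j, p j ^ b j : ℕ) : ℝ)) : ℝ) : ℂ) * Complex.I) =
        ∏ j, ee (t * (Real.log (p j) / (2 * Real.pi))) ^ v j := by
      intro t
      have hp0 : ∀ j, (0:ℝ) < p j := fun j => by exact_mod_cast (hp j).pos
      have hpi : (Real.pi : ℂ) ≠ 0 := by exact_mod_cast Real.pi_ne_zero
      have e2 : Real.log (((∏ j, p j ^ a j : ℕ) : ℝ) / ((∏ j, p j ^ b j : ℕ) : ℝ)) = ∑ j, (v j : ℝ) * Real.log (p j) := by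
        rw [Real.log_div (by exact_mod_cast pp_ne p hp a) (by exact_mod_cast pp_ne p hp b)]
        push_cast
        rw [Real.log_prod fun j _ => (pow_pos (hp0 j) _).ne', Real.log_prod fun j _ => (pow_pos (hp0 j) _).ne', ← sum_sub_distrib]
        refine sum_congr rfl fun j _ => ?_
        rw [Real.log_pow, Real.log_pow, ← sub_mul]
        congr 1
        have : (v j : ℤ) = (a j : ℤ) - (b j : ℤ) := by rw [ha, hb]; omega
        rw [this]; push_cast; rfl
      rw [e2]
      have e3 : ∀ j, ee (t * (Real.log (p j) / (2 * Real.pi))) ^ v j = Complex.exp (((t * ((v j : ℝ) * Real.log (p j)) : ℝ) : ℂ) * Complex.I) := by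
        intro j
        rw [ee_zpow]
        congr 1
        push_cast
        field_simp
      rw [prod_congr rfl fun j _ => e3 j, ← Complex.exp_sum]
      congr 1
      rw [← sum_mul]
      congr 1
      push_cast
      rw [mul_sum]
    simp_rw [e1] at h
    -- the limits
    have e4 : ((((∏ j, p j ^ a j : ℕ) : ℝ) * ((∏ j, p j ^ b j : ℕ) : ℝ)) ^ (-(1 / 2 : ℝ)) *
        (aF s * ∏ j, (Lf s 0 (p j) (a j) (b j) / Lf s 0 (p j) 0 0)) : ℝ) =
        aF s * ∏ j, (((p j : ℝ) ^ (-(1 / 2 : ℝ))) ^ (v j).natAbs * Lf s 0 (p j) (a j) (b j) / Lf s 0 (p j) 0 0) := by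
      have e5 : (((∏ j, p j ^ a j : ℕ) : ℝ) * ((∏ j, p j ^ b j : ℕ) : ℝ)) = ∏ j, (p j : ℝ) ^ (v j).natAbs := by
        push_cast
        rw [← prod_mul_distrib]
        refine prod_congr rfl fun j _ => ?_
        rw [← pow_add]
        congr 1
        rw [ha, hb]; omega
      rw [e5, ← Real.finsetProd_rpow _ _ fun j _ => by positivity]
      have e6 : ∀ j, ((p j : ℝ) ^ (v j).natAbs) ^ (-(1 / 2 : ℝ)) = ((p j : ℝ) ^ (-(1 / 2 : ℝ))) ^ (v j).natAbs := by
        intro j
        rw [← Real.rpow_natCast, ← Real.rpow_natCast, ← Real.rpow_mul (by positivity), ← Real.rpow_mul (by positivity), mul_comm]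
      simp_rw [e6]
      rw [mul_left_comm, ← prod_mul_distrib]
      congr 1
      refine prod_congr rfl fun j _ => ?_
      ring
    have e7 : ∫ x in Set.Icc (0 : Fin m → ℝ) 1, ((aF s * ∏ j, (Wp s (p j) (x j) / Lf s 0 (p j) 0 0) : ℝ) : ℂ) * ∏ j, ee (x j) ^ v j =
        ((aF s * ∏ j, (((p j : ℝ) ^ (-(1 / 2 : ℝ))) ^ (v j).natAbs * Lf s 0 (p j) (a j) (b j) / Lf s 0 (p j) 0 0) : ℝ) : ℂ) := by
      have e8 : ∀ x : Fin m → ℝ, ((aF s * ∏ j, (Wp s (p j) (x j) / Lf s 0 (p j) 0 0) : ℝ) : ℂ) * ∏ j, ee (x j) ^ v j =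
          (aF s : ℂ) * ∏ j, ((Lf s 0 (p j) 0 0 : ℂ)⁻¹ * (ee (x j) ^ v j * ((Wp s (p j) (x j) : ℝ) : ℂ))) := by
        intro x
        push_cast
        rw [mul_assoc, ← prod_mul_distrib]
        congr 1
        refine prod_congr rfl fun j _ => ?_
        rw [div_eq_mul_inv]; ring
      simp_rw [e8]
      rw [integral_const_mul, pi_int fun j y => (Lf s 0 (p j) 0 0 : ℂ)⁻¹ * (ee y ^ v j * ((Wp s (p j) y : ℝ) : ℂ))]
      push_cast
      congr 1
      refine prod_congr rfl fun j _ => ?_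
      rw [intervalIntegral.integral_const_mul, Wp_coef hs (hp j), ha, hb]
      push_cast
      rw [div_eq_mul_inv]; ring
    rw [e4] at h
    rw [e7]
    exact h

end Pool.Agent.X110.NA
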