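import Pool.Agent.X110.SP2
import Pool.Agent.Y928.JL.Fam

/-!
# Digits of odd zeta values in windows
-/

set_option autoImplicit false

open Finset

namespace Pool.Agent.X110.DW

open Pool.Agent.X110.SP Pool.Agent.Y928.JL.Fam

lemma good (b K s S : ℕ) (hK : 1 ≤ K) (hS : 1 ≤ S)
    (hs : (2 : ℝ) ^ (132 * S) * ((b : ℝ) + 1) ^ 2 * (K : ℝ) ^ 3 * Real.log (K + 1) ≤ (s : ℝ) ^ 2) :
    ∃ q0 : ℕ, Good (win b s) z S K q0 := by
  obtain ⟨q0, hq0⟩ := (Pool.Agent.Y926.TW.main b K s S hK hS hs).2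
  refine ⟨q0, fun q hq => ?_⟩
  have h1 := hq0 q hq
  have h2 : K ≤ Set.ncard {i : ℕ | i ∈ win b s ∧ ∀ p : ℤ,
      (q : ℝ) ^ (-(1 / (S : ℝ))) ≤ |(q : ℝ) * z i - p|} := by
    refine h1.trans (le_of_eq ?_)
    congr 1
    ext j
    simp only [Set.mem_setOf_eq, mem_win]
    unfold z
    tauto
  exact_mod_cast h2

lemma card_win (b s : ℕ) (hbs : b ≤ s) : (win b s).card ≤ (s - b + 1) / 2 := by
  classical
  have h1 : (win b s).card ≤ ((Finset.range ((s - b + 1) / 2)).image fun i => b + 1 + 2 * i + b % 2).card := by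
    apply Finset.card_le_card
    intro j hj
    rw [mem_win] at hj
    obtain ⟨⟨h1, h2⟩, k, hk⟩ := hj
    rw [Finset.mem_image]
    refine ⟨(j - (b + 1)) / 2, ?_, ?_⟩
    · rw [Finset.mem_range]
      omega
    · omega
  refine h1.trans (Finset.card_image_le.trans ?_)
  simp

theorem main (b K s S : ℕ) (hK : 1 ≤ K) (hS : 1 ≤ S)
    (hs : (2 : ℝ) ^ (132 * S) * ((b : ℝ) + 1) ^ 2 * (K : ℝ) ^ 3 * Real.log (K + 1) ≤ (s : ℝ) ^ 2) :
    (∀ ε : ℝ, 0 < ε → ε < 1 → ∃ L0 : ℕ, ∀ a : ℕ, 2 ≤ a → ∀ L : ℕ, L0 ≤ L →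
      K ≤ ((win b s).filter fun j => (1 - ε) * ((S : ℝ) / (S + 1)) * (2 * L / ((s : ℝ) - b + 1)) ≤
        (complexity a (z j) L : ℝ)).card) ∧
    ∃ C : ℝ, 0 < C ∧ ∀ T ⊆ win b s, (win b s \ T).card < K → ∀ a : ℕ, 2 ≤ a → ∀ k L : ℕ,
      (L : ℝ) ≤ (∑ i ∈ range (k + 1), (1 + 1 / (S : ℝ)) ^ (i + 1)) * F C (jointComplexity a T z k L) := by
  obtain ⟨q0, hg⟩ := good b K s S hK hS hs
  have hbs : b ≤ s := by
    by_contra hlt
    push Not at hlt
    have h1 := (Pool.Agent.Y926.TW.main b K s S hK hS hs).1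
    have h2 : {j : ℕ | b < j ∧ j ≤ s ∧ Odd j ∧ Irrational (∑' n : ℕ, 1 / ((n : ℝ) + 1) ^ j)} = ∅ := by
      ext j
      simp only [Set.mem_setOf_eq, Set.mem_empty_iff_false, iff_false]
      rintro ⟨h3, h4, _⟩
      omega
    rw [h2, Set.ncard_empty] at h1
    omega
  have hbsr : (b : ℝ) ≤ s := by exact_mod_cast hbs
  refine ⟨fun ε hε hε1 => ?_, ?_⟩
  · have hN : ((win b s).card : ℝ) ≤ ((s : ℝ) - b + 1) / 2 := by
      rw [le_div_iff₀ (by norm_num)]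
      have h1 := card_win b s hbs
      have h2 : (win b s).card * 2 ≤ s - b + 1 := by omega
      have h3 : (((win b s).card * 2 : ℕ) : ℝ) ≤ ((s - b + 1 : ℕ) : ℝ) := by exact_mod_cast h2
      rw [Nat.cast_add, Nat.cast_sub hbs] at h3
      push_cast at h3
      exact h3
    obtain ⟨L0, hL0⟩ := count_linear hS hg (N := ((s : ℝ) - b + 1) / 2) (by linarith) hN hε hε1
    refine ⟨L0, fun a ha L hL => ?_⟩
    have h1 := hL0 a ha L hL
    have h2 : ((K : ℕ) : ℝ) ≤ (((win b s).filter fun j => (1 - ε) * ((S : ℝ) / (S + 1)) *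
        (2 * L / ((s : ℝ) - b + 1)) ≤ (complexity a (z j) L : ℝ)).card : ℝ) := by
      refine h1.trans (le_of_eq ?_)
      congr 2
      ext j
      rw [div_div_eq_mul_div, mul_comm (L : ℝ) 2]
    exact_mod_cast h2
  · obtain ⟨C, hC, h⟩ := joint_family hS hg
    refine ⟨C, hC, fun T hT hTK a ha k L => ?_⟩
    obtain ⟨s', c, E, hE, hs'⟩ := joint_attained a ha T z k L
    exact h T hT (by exact_mod_cast hTK) a ha k L _ s' c E hE hs'

end Pool.Agent.X110.DW
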