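import Pool.Agent.X238.DW.Stm3

set_option autoImplicit false

/-! Part SA of the third stage of project DW (statement of helper238). -/

namespace Pool.Agent.X110.DWSA

open MeasureTheory Set Filter Topology
open Pool.Agent.X238.DW

universe v

theorem t_SA : S_SA.{v} := by
  intro H _ _ _ A b hb hd hA hc
  have hsym : ∀ x y : A.domain, inner ℝ (A x) (y : H) = inner ℝ (x : H) (A y) := by
    have h := LinearPMap.adjoint_isFormalAdjoint hd
    rw [hA] at h
    exact h
  have hclosed : A.IsClosed := by
    have h := LinearPMap.adjoint_isClosed hd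
    rwa [hA] at h
  have hlow : ∀ x : A.domain, b * ‖(x : H)‖ ≤ ‖A x‖ := by
    intro x
    have h1 := hc x
    have h2 := real_inner_le_norm (A x) (x : H)
    rcases (norm_nonneg (x : H)).eq_or_lt with h0 | h0
    · rw [← h0, mul_zero]
      exact norm_nonneg _
    · nlinarith
  have hker : ∀ y : H, (∀ x : A.domain, inner ℝ y (A x) = 0) → y = 0 := by
    intro y hy
    have h1 : y ∈ A.adjoint.domain := LinearPMap.mem_adjoint_domain_of_exists y ⟨0, fun x => by rw [inner_zero_left, hy x]⟩
    have h2 : A.adjoint ⟨y, h1⟩ = 0 := LinearPMap.adjoint_apply_eq hd ⟨y, h1⟩ (fun x => by rw [inner_zero_left]; exact (hy x).symm)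
    have h3 : ∃ h : y ∈ A.domain, A ⟨y, h⟩ = 0 := by
      rw [← hA]
      exact ⟨h1, h2⟩
    obtain ⟨h4, h5⟩ := h3
    have h6 := hc ⟨y, h4⟩
    rw [h5, inner_zero_left] at h6
    have h7 : ‖y‖ ^ 2 ≤ 0 := by
      by_contra h
      push Not at h
      have := mul_pos hb h
      exact absurd h6 (not_le.mpr this)
    have h8 : ‖y‖ = 0 := by nlinarith [norm_nonneg y]
    exact norm_eq_zero.mp h8
  have hinj : Function.Injective A.toFun := by
    rw [← LinearMap.ker_eq_bot, LinearMap.ker_eq_bot']
    intro x hx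
    have h1 := hlow x
    have h2 : A x = 0 := hx
    rw [h2, norm_zero] at h1
    have h3 : ‖(x : H)‖ = 0 := by
      have := norm_nonneg (x : H)
      nlinarith
    exact Subtype.ext (norm_eq_zero.mp h3)
  have hrc : IsClosed (LinearMap.range A.toFun : Set H) := by
    refine IsSeqClosed.isClosed fun y y0 hy hlim => ?_
    choose x hx using fun n => (LinearMap.mem_range.mp (hy n))
    have hcau : CauchySeq fun n => ((x n : A.domain) : H) := by
      have hcy := hlim.cauchySeq
      rw [Metric.cauchySeq_iff] at hcy ⊢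
      intro e he
      obtain ⟨N, hN⟩ := hcy (b * e) (mul_pos hb he)
      refine ⟨N, fun m hm n hn => ?_⟩
      have h1 := hN m hm n hn
      have h2 := hlow (x m - x n)
      have h3 : A (x m - x n) = y m - y n := by
        have : A.toFun (x m - x n) = y m - y n := by rw [map_sub, hx, hx]
        exact this
      rw [h3, ← dist_eq_norm] at h2
      have h4 : ((x m - x n : A.domain) : H) = (x m : H) - x n := rfl
      rw [h4, ← dist_eq_norm] at h2
      nlinarith
    obtain ⟨x0, hx0⟩ := cauchySeq_tendsto_of_complete hcau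
    have hg : ((x0, y0) : H × H) ∈ A.graph := by
      have h1 : Tendsto (fun n => (((x n : A.domain) : H), y n)) atTop (𝓝 (x0, y0)) := hx0.prodMk_nhds hlim
      refine hclosed.mem_of_tendsto h1 (Eventually.of_forall fun n => ?_)
      show (((x n : A.domain) : H), y n) ∈ A.graph
      rw [LinearPMap.mem_graph_iff]
      exact ⟨x n, rfl, hx n⟩
    rw [LinearPMap.mem_graph_iff] at hg
    obtain ⟨z, -, hz⟩ := hg
    exact ⟨z, hz⟩
  have hsurj : Function.Surjective A.toFun := by
    rw [← LinearMap.range_eq_top]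
    haveI : CompleteSpace (LinearMap.range A.toFun) := hrc.completeSpace_coe
    rw [← Submodule.orthogonal_eq_bot_iff, Submodule.eq_bot_iff]
    intro y hy
    refine hker y fun x => ?_
    rw [Submodule.mem_orthogonal'] at hy
    exact hy _ ⟨x, rfl⟩
  set e := LinearEquiv.ofBijective A.toFun ⟨hinj, hsurj⟩ with he
  have he1 : ∀ x, A (e.symm x) = x := fun x => e.apply_symm_apply x
  have he2 : ∀ v : A.domain, e.symm (A v) = v := fun v => e.symm_apply_apply v
  set T0 : H →ₗ[ℝ] H := A.domain.subtype ∘ₗ (e.symm : H →ₗ[ℝ] A.domain) with hT0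
  set T : H →L[ℝ] H := T0.mkContinuous b⁻¹ (fun x => by
    have h := hlow (e.symm x)
    rw [he1] at h
    show ‖((e.symm x : A.domain) : H)‖ ≤ b⁻¹ * ‖x‖
    rw [inv_mul_eq_div, le_div_iff₀ hb, mul_comm]
    exact h) with hT
  have hTv : ∀ x, T x = ((e.symm x : A.domain) : H) := fun x => rfl
  refine ⟨T, ?_, ?_, ?_, ?_, ?_, ?_⟩
  · intro x
    rw [hTv]
    exact (e.symm x).2
  · intro x h
    exact he1 x
  · intro v
    rw [hTv, he2]
  · intro x y
    have h := hsym (e.symm x) (e.symm y)
    rw [he1, he1] at h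
    rw [hTv, hTv]
    exact h.symm
  · intro x
    have h := hc (e.symm x)
    rw [he1] at h
    rw [hTv, real_inner_comm]
    exact h
  · refine hd.mono fun v hv => ?_
    exact ⟨A ⟨v, hv⟩, by rw [hTv, he2]⟩

end Pool.Agent.X110.DWSA
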