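import Pool.Agent.X297.LO.Stm

set_option autoImplicit false

/-! Part MEAS of the disproof of MP_218893_pr (statement of helper297). -/

namespace Pool.Agent.X110.LOM

open MeasureTheory Pool.Agent.X297.LO
open scoped ENNReal

section cntlemmas

variable {Ω G : Type} [Fintype Ω] [AddCommGroup G] (g : Ω → G)

lemma cnt_swap12 (a b c : ℤ) (k : G) : cnt g a b c k = cnt g b a c k := by
  unfold cnt
  refine Nat.card_congr ⟨fun p => ⟨(p.1.2.1, p.1.1, p.1.2.2), ?_⟩,
    fun p => ⟨(p.1.2.1, p.1.1, p.1.2.2), ?_⟩, fun p => rfl, fun p => rfl⟩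
  · have h := p.2
    show b • g p.1.2.1 + a • g p.1.1 + c • g p.1.2.2 = k
    refine Eq.trans ?_ h; abel
  · have h := p.2
    show a • g p.1.2.1 + b • g p.1.1 + c • g p.1.2.2 = k
    refine Eq.trans ?_ h; abel

lemma cnt_swap23 (a b c : ℤ) (k : G) : cnt g a b c k = cnt g a c b k := by
  unfold cnt
  refine Nat.card_congr ⟨fun p => ⟨(p.1.1, p.1.2.2, p.1.2.1), ?_⟩,
    fun p => ⟨(p.1.1, p.1.2.2, p.1.2.1), ?_⟩, fun p => rfl, fun p => rfl⟩
  · have h := p.2
    show a • g p.1.1 + c • g p.1.2.2 + b • g p.1.2.1 = k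
    refine Eq.trans ?_ h; abel
  · have h := p.2
    show a • g p.1.1 + b • g p.1.2.2 + c • g p.1.2.1 = k
    refine Eq.trans ?_ h; abel

lemma cnt_neg (a b c : ℤ) (k : G) : cnt g a b c k = cnt g (-a) (-b) (-c) (-k) := by
  unfold cnt
  refine Nat.card_congr (Equiv.subtypeEquivRight fun p => ?_)
  have e : (-a) • g p.1 + (-b) • g p.2.1 + (-c) • g p.2.2 = -(a • g p.1 + b • g p.2.1 + c • g p.2.2) := by
    simp only [neg_smul]
    abel
  rw [e, neg_inj]

lemma cnt_lt {A : ℕ} (h1 : ∀ k, cnt g 1 1 1 k < A) (h2 : ∀ k, cnt g 1 (-1) 1 k < A) {u v w : ℤ}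
    (hu : u = 1 ∨ u = -1) (hv : v = 1 ∨ v = -1) (hw : w = 1 ∨ w = -1) (k : G) : cnt g u v w k < A := by
  rcases hu with rfl | rfl <;> rcases hv with rfl | rfl <;> rcases hw with rfl | rfl
  · exact h1 k
  · rw [cnt_swap23]; exact h2 k
  · exact h2 k
  · rw [cnt_neg, cnt_swap12]; simp only [neg_neg]; exact h2 _
  · rw [cnt_swap12]; exact h2 k
  · rw [cnt_neg]; simp only [neg_neg]; exact h2 _
  · rw [cnt_neg, cnt_swap23]; simp only [neg_neg]; exact h2 _
  · rw [cnt_neg]; simp only [neg_neg]; exact h1 _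

end cntlemmas

lemma pi_count {Ω : Type} [Fintype Ω] [Nonempty Ω] {d : ℕ} (G : Ω → Fin d → ℤ) :
    ∃ μ : Measure (Fin d → ℤ), IsProbabilityMeasure μ ∧ ∀ S : Set (Fin 3 → Fin d → ℤ),
      Measure.pi (fun _ : Fin 3 => μ) S = ((Fintype.card Ω : ℝ≥0∞)⁻¹) ^ 3 *
        ((Nat.card {t : Fin 3 → Ω // (fun i => G (t i)) ∈ S} : ℕ) : ℝ≥0∞) := by
  classical
  letI : MeasurableSpace Ω := ⊤
  set c : ℝ≥0∞ := (Fintype.card Ω : ℝ≥0∞)⁻¹ with hc
  have hcard : (Fintype.card Ω : ℝ≥0∞) ≠ 0 := by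
    exact_mod_cast Fintype.card_ne_zero
  set ν : Measure Ω := c • Measure.count with hν
  have hν1 : ∀ p, ν {p} = c := by
    intro p
    rw [hν, Measure.smul_apply, Measure.count_singleton, smul_eq_mul, mul_one]
  haveI hprob : IsProbabilityMeasure ν := ⟨by
    rw [hν, Measure.smul_apply, Measure.count_univ, smul_eq_mul, ENat.card_eq_coe_fintype_card]
    exact ENNReal.inv_mul_cancel hcard (ENNReal.natCast_ne_top _)⟩
  have hG : Measurable G := measurable_from_top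
  refine ⟨ν.map G, Measure.isProbabilityMeasure_map hG.aemeasurable, fun S => ?_⟩
  have hpi : Measure.pi (fun _ : Fin 3 => ν.map G) = (Measure.pi (fun _ : Fin 3 => ν)).map (fun t i => G (t i)) :=
    (Measure.pi_map_pi (fun _ => hG.aemeasurable)).symm
  have hm : Measurable (fun (t : Fin 3 → Ω) (i : Fin 3) => G (t i)) :=
    measurable_pi_lambda _ fun i => hG.comp (measurable_pi_apply i)
  rw [hpi, Measure.map_apply hm S.to_countable.measurableSet]
  have e1 : ((fun (t : Fin 3 → Ω) (i : Fin 3) => G (t i)) ⁻¹' S) =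
      ((Finset.univ.filter (fun t : Fin 3 → Ω => (fun i => G (t i)) ∈ S) : Finset (Fin 3 → Ω)) : Set (Fin 3 → Ω)) := by
    ext t
    simp
  rw [e1, ← sum_measure_singleton]
  have e2 : ∀ t : Fin 3 → Ω, Measure.pi (fun _ : Fin 3 => ν) {t} = c ^ 3 := by
    intro t
    rw [Measure.pi_singleton]
    simp [hν1]
  rw [Finset.sum_congr rfl fun t _ => e2 t, Finset.sum_const, nsmul_eq_mul, mul_comm]
  rw [Nat.card_eq_fintype_card, Fintype.card_subtype]

def T3 (Ω : Type) : (Fin 3 → Ω) ≃ Ω × Ω × Ω where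
  toFun t := (t 0, t 1, t 2)
  invFun p := ![p.1, p.2.1, p.2.2]
  left_inv t := by
    funext i
    fin_cases i <;> rfl
  right_inv p := rfl

theorem t_MEAS : S_MEAS := by
  rintro ⟨ι, Ω, _, _, _, g, x, h1, h2⟩ hall
  classical
  set A := cnt g 1 (-1) 2 x with hA
  set e := Fintype.equivFin ι with he
  set G : Ω → Fin (Fintype.card ι) → ℤ := fun p j => g p (e.symm j) with hG
  obtain ⟨μ, hμ, hS⟩ := pi_count G
  obtain ⟨w, hw, hmain⟩ := hall 3 (Fintype.card ι) μ
  have h := hmain ![1, -1, 2] (by intro i; fin_cases i <;> simp) (fun j => ((x (e.symm j) : ℤ) : ℝ))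
  simp_rw [hS] at h
  have hL : Nat.card {t : Fin 3 → Ω // (fun i => G (t i)) ∈ {ω : Fin 3 → Fin (Fintype.card ι) → ℤ |
      ∑ i, (![1, -1, 2] : Fin 3 → ℝ) i • (fun j => ((ω i j : ℤ) : ℝ)) = fun j => ((x (e.symm j) : ℤ) : ℝ)}} = A := by
    rw [hA]
    unfold cnt
    refine Nat.card_congr (Equiv.subtypeEquiv (T3 Ω) fun t => ?_)
    rw [Set.mem_setOf_eq, funext_iff, funext_iff]
    show (∀ j, _) ↔ ∀ i, ((1:ℤ) • g (t 0) + (-1:ℤ) • g (t 1) + (2:ℤ) • g (t 2)) i = x i
    have e1 : ∀ j, ((∑ i, (![1, -1, 2] : Fin 3 → ℝ) i • (fun j => ((G (t i) j : ℤ) : ℝ))) j =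
        ((x (e.symm j) : ℤ) : ℝ)) ↔ ((1:ℤ) • g (t 0) + (-1:ℤ) • g (t 1) + (2:ℤ) • g (t 2)) (e.symm j) = x (e.symm j) := by
      intro j
      rw [Fin.sum_univ_three]
      simp only [Pi.add_apply, Pi.smul_apply, smul_eq_mul, Matrix.cons_val_zero, Matrix.cons_val_one,
        Matrix.cons_val_two, Matrix.cons_val, Matrix.head_cons, Matrix.tail_cons, hG]
      constructor
      · intro h
        exact_mod_cast h
      · intro h
        exact_mod_cast h
    constructor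
    · intro h i
      have := (e1 (e i)).mp (h (e i))
      rwa [e.symm_apply_apply] at this
    · intro h j
      exact (e1 j).mpr (h (e.symm j))
  have hR : ∀ k : Fin (Fintype.card ι) → ℤ, Nat.card {t : Fin 3 → Ω // (fun i => G (t i)) ∈
      {ω : Fin 3 → Fin (Fintype.card ι) → ℤ | ∑ i, w i • ω i = k}} < A := by
    intro k
    have e0 : Nat.card {t : Fin 3 → Ω // (fun i => G (t i)) ∈
        {ω : Fin 3 → Fin (Fintype.card ι) → ℤ | ∑ i, w i • ω i = k}} =
        cnt g (w 0) (w 1) (w 2) (fun i => k (e i)) := by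
      unfold cnt
      refine Nat.card_congr (Equiv.subtypeEquiv (T3 Ω) fun t => ?_)
      rw [Set.mem_setOf_eq, funext_iff, funext_iff]
      show (∀ j, _) ↔ ∀ i, (w 0 • g (t 0) + w 1 • g (t 1) + w 2 • g (t 2)) i = k (e i)
      have e1 : ∀ j, ((∑ i, w i • G (t i)) j = k j) ↔
          (w 0 • g (t 0) + w 1 • g (t 1) + w 2 • g (t 2)) (e.symm j) = k j := by
        intro j
        rw [Fin.sum_univ_three]
        rfl
      constructor
      · intro h i
        have := (e1 (e i)).mp (h (e i))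
        rwa [e.symm_apply_apply] at this
      · intro h j
        refine (e1 j).mpr ?_
        have := h (e.symm j)
        rwa [e.apply_symm_apply] at this
    rw [e0]
    exact cnt_lt g h1 h2 (hw 0) (hw 1) (hw 2) _
  rw [hL] at h
  set c3 : ℝ≥0∞ := ((Fintype.card Ω : ℝ≥0∞)⁻¹) ^ 3 with hc3
  have hc0 : c3 ≠ 0 := pow_ne_zero _ (ENNReal.inv_ne_zero.mpr (ENNReal.natCast_ne_top _))
  have hct : c3 ≠ ⊤ := ENNReal.pow_ne_top (ENNReal.inv_ne_top.mpr (by exact_mod_cast Fintype.card_ne_zero))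
  have hA1 : 1 ≤ A := by
    have := h1 0
    omega
  have h3 : c3 * (A : ℝ≥0∞) ≤ c3 * ((A - 1 : ℕ) : ℝ≥0∞) := by
    refine h.trans (iSup_le fun k => ?_)
    refine mul_le_mul_right ?_ _
    have := hR k
    exact_mod_cast (by omega : _ ≤ A - 1)
  rw [ENNReal.mul_le_mul_iff_right hc0 hct] at h3
  have h4 : A ≤ A - 1 := by exact_mod_cast h3
  omega

end Pool.Agent.X110.LOM
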