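import Pool.Agent.X110.LP1
import Pool.Agent.Y928.JL.Fam

/-!
# The linear complexity profile of the digits of numbers with a Roth type bound in a range
-/

set_option autoImplicit false

namespace Pool.Agent.X110.LP

open Finset
open Pool.Agent.W47.JL (err err_ge err_le)
open Pool.Agent.Y928.PL (err_mono)
open Pool.Agent.Y928.JL.Fam (digit Recurrence complexity F F_linear)

lemma digit_eq (a : ℕ) (ha : 2 ≤ a) (x : ℝ) (j : ℕ) :
    digit a x (j + 1) = ⌊x * (a : ℝ) ^ (j + 1)⌋ - a * ⌊x * (a : ℝ) ^ j⌋ := by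
  unfold digit
  rw [Int.emod_def, ← Int.floor_div_natCast]
  congr 3
  have : (a : ℝ) ≠ 0 := by positivity
  rw [pow_succ]
  field_simp

lemma digit_nonneg (a : ℕ) (ha : 2 ≤ a) (x : ℝ) (j : ℕ) : 0 ≤ digit a x j :=
  Int.emod_nonneg _ (by positivity)

lemma digit_lt (a : ℕ) (ha : 2 ≤ a) (x : ℝ) (j : ℕ) : digit a x j < a :=
  Int.emod_lt_of_pos _ (by positivity)

lemma digit_abs (a : ℕ) (ha : 2 ≤ a) (x : ℝ) (j : ℕ) : |digit a x j| ≤ ((a ^ 1 : ℕ) : ℤ) := by
  rw [abs_of_nonneg (digit_nonneg a ha x j), pow_one]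
  exact (digit_lt a ha x j).le

lemma partial_sum (a : ℕ) (ha : 2 ≤ a) (x : ℝ) (N : ℕ) :
    ∑ j ∈ range N, (digit a x (j + 1) : ℝ) / (a : ℝ) ^ (j + 1) = (⌊x * (a : ℝ) ^ N⌋ : ℝ) / (a : ℝ) ^ N - ⌊x⌋ := by
  have ha0 : (a : ℝ) ≠ 0 := by positivity
  induction N with
  | zero => simp
  | succ N ih =>
    rw [sum_range_succ, ih, digit_eq a ha]
    push_cast
    rw [pow_succ]
    field_simp
    ring

lemma hasSum_digit (a : ℕ) (ha : 2 ≤ a) (x : ℝ) :
    HasSum (fun j : ℕ => (digit a x (j + 1) : ℝ) / (a : ℝ) ^ (j + 1)) (x - ⌊x⌋) := by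
  have haR : (2 : ℝ) ≤ a := by exact_mod_cast ha
  have ha0 : (0 : ℝ) < a := by linarith
  rw [hasSum_iff_tendsto_nat_of_nonneg]
  · simp only [partial_sum a ha]
    apply Filter.Tendsto.sub_const
    have h1 : Filter.Tendsto (fun N : ℕ => x - (1 / (a : ℝ)) ^ N) Filter.atTop (nhds (x - 0)) :=
      (tendsto_pow_atTop_nhds_zero_of_lt_one (by positivity) (by
        rw [div_lt_one ha0]; linarith)).const_sub x
    rw [sub_zero] at h1
    refine tendsto_of_tendsto_of_tendsto_of_le_of_le h1 tendsto_const_nhds ?_ ?_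
    · intro N
      have hp : (0 : ℝ) < (a : ℝ) ^ N := by positivity
      show x - (1 / (a : ℝ)) ^ N ≤ (⌊x * (a : ℝ) ^ N⌋ : ℝ) / (a : ℝ) ^ N
      rw [le_div_iff₀ hp, one_div, inv_pow, sub_mul, inv_mul_cancel₀ hp.ne']
      linarith [Int.sub_one_lt_floor (x * (a : ℝ) ^ N)]
    · intro N
      have hp : (0 : ℝ) < (a : ℝ) ^ N := by positivity
      show (⌊x * (a : ℝ) ^ N⌋ : ℝ) / (a : ℝ) ^ N ≤ x
      rw [div_le_iff₀ hp]
      exact Int.floor_le _
  · intro j
    have h1 := digit_nonneg a ha x (j + 1)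
    have h2 : (0 : ℝ) ≤ (digit a x (j + 1) : ℝ) := by exact_mod_cast h1
    positivity

/-- the digits vanish at first -/
lemma digit_zero_of (a : ℕ) (ha : 2 ≤ a) (x : ℝ) (hx1 : 1 < x) (L : ℕ) (h : (x - 1) * (a : ℝ) ^ L < 1)
    (j : ℕ) (hj : j + 1 ≤ L) : digit a x (j + 1) = 0 := by
  have haR : (2 : ℝ) ≤ a := by exact_mod_cast ha
  have key : ∀ i ≤ L, ⌊x * (a : ℝ) ^ i⌋ = (a : ℤ) ^ i := by
    intro i hi
    rw [Int.floor_eq_iff]
    push_cast
    have h1 : (a : ℝ) ^ i ≤ (a : ℝ) ^ L := pow_le_pow_right₀ (by linarith) hi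
    have h2 : (x - 1) * (a : ℝ) ^ i ≤ (x - 1) * (a : ℝ) ^ L := mul_le_mul_of_nonneg_left h1 (by linarith)
    have h3 : (0 : ℝ) < (a : ℝ) ^ i := by positivity
    constructor
    · nlinarith
    · linarith
  rw [digit_eq a ha, key (j + 1) hj, key j (by omega), pow_succ]
  ring

/-- if all digits vanish then the number is close to one -/
lemma small_of_digits (a : ℕ) (ha : 2 ≤ a) (x : ℝ) (hx1 : 1 < x) (hx2 : x < 2) (L : ℕ)
    (h : ∀ j : ℕ, j + 1 ≤ L → digit a x (j + 1) = 0) : (x - 1) * (a : ℝ) ^ L < 1 := by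
  have haR : (2 : ℝ) ≤ a := by exact_mod_cast ha
  have h1 := partial_sum a ha x L
  have hfl : ⌊x⌋ = 1 := by
    rw [Int.floor_eq_iff]
    constructor
    · push_cast; linarith
    · push_cast; linarith
  rw [Finset.sum_eq_zero (fun j hj => by
    rw [mem_range] at hj
    rw [h j (by omega)]
    simp), hfl] at h1
  have hp : (0 : ℝ) < (a : ℝ) ^ L := by positivity
  push_cast at h1
  have h2 : (⌊x * (a : ℝ) ^ L⌋ : ℝ) = (a : ℝ) ^ L := by
    have : (⌊x * (a : ℝ) ^ L⌋ : ℝ) / (a : ℝ) ^ L = 1 := by linarith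
    rwa [div_eq_one_iff_eq hp.ne'] at this
  have h3 := Int.lt_floor_add_one (x * (a : ℝ) ^ L)
  rw [h2] at h3
  linarith

lemma attained (a : ℕ) (x : ℝ) (L : ℕ) : ∃ c : ℕ → ℚ, Recurrence (digit a x) c L (complexity a x L) := by
  refine Nat.sInf_mem (s := {m | ∃ c : ℕ → ℚ, Recurrence (digit a x) c L m}) ?_
  exact ⟨L, fun _ => 0, fun i h1 h2 => by omega⟩

lemma complexity_le {a : ℕ} {x : ℝ} {L m : ℕ} {c : ℕ → ℚ} (h : Recurrence (digit a x) c L m) :
    complexity a x L ≤ m := Nat.sInf_le ⟨c, h⟩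

lemma complexity_le_self (a : ℕ) (x : ℝ) (L : ℕ) : complexity a x L ≤ L :=
  complexity_le (c := fun _ => 0) (fun i h1 h2 => by omega)

/-- the first nonzero digit -/
lemma complexity_first (a : ℕ) (ha : 2 ≤ a) (x : ℝ) (hx1 : 1 < x) (hx2 : x < 2) (L : ℕ)
    (hL : 1 ≤ (x - 1) * (a : ℝ) ^ L) :
    1 ≤ (x - 1) * (a : ℝ) ^ (complexity a x L) := by
  by_contra hcon
  push Not at hcon
  obtain ⟨c, hc⟩ := attained a x L
  obtain ⟨N, hN⟩ : ∃ N, N = complexity a x L := ⟨_, rfl⟩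
  rw [← hN] at hc hcon
  have h0 : ∀ j : ℕ, j + 1 ≤ L → digit a x (j + 1) = 0 := by
    intro j
    induction j using Nat.strong_induction_on with
    | _ j ih =>
      intro hj
      rcases Nat.lt_or_ge j N with hjN | hjN
      · exact digit_zero_of a ha x hx1 N hcon j (by omega)
      · have h1 := hc (j - N + 1) (by omega) (by omega)
        rw [show j - N + 1 + N = j + 1 by omega] at h1
        have h2 : ∑ l ∈ range N, c l * (digit a x (j - N + 1 + l) : ℚ) = 0 := by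
          refine Finset.sum_eq_zero fun l hl => ?_
          rw [mem_range] at hl
          have h3 := ih (j - N + l) (by omega) (by omega)
          rw [show j - N + 1 + l = j - N + l + 1 by omega, h3]
          simp
        rw [h2] at h1
        exact_mod_cast h1
  have h4 := small_of_digits a ha x hx1 hx2 L h0
  linarith

/-- **The alternative**: a relation of order `m` between the first `L` digits -/
lemma alt (a : ℕ) (ha : 2 ≤ a) (x : ℝ) (hx1 : 1 < x) (hx2 : x < 2) (Cn Bn : ℝ)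
    (hR : ∀ p q : ℤ, 1 ≤ q → (q : ℝ) ≤ Cn → (p : ℝ) / q ≠ 1 → 1 / ((q : ℝ) ^ 2 * Bn) < |x - p / q|)
    (L m : ℕ) (c : ℕ → ℚ) (hc0 : ∃ l ≤ m, c l ≠ 0)
    (hc : ∀ i, i + m < L → ∑ l ∈ range (m + 1), c l * (digit a x (i + l + 1) : ℚ) = 0)
    (hCn : (a : ℝ) ^ ((m : ℝ) + (15 * err m + 1)) ≤ Cn) :
    1 / Bn < (a : ℝ) ^ (2 * ((m : ℝ) + (15 * err m + 1)) - L) ∨
      x - 1 ≤ (a : ℝ) ^ ((m : ℝ) + (15 * err m + 1) - L) := by
  have haR : (2 : ℝ) ≤ a := by exact_mod_cast ha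
  have ha0 : (0 : ℝ) < a := by linarith
  have hfl : ⌊x⌋ = 1 := by
    rw [Int.floor_eq_iff]
    constructor
    · push_cast; linarith
    · push_cast; linarith
  have hs := hasSum_digit a ha x
  rw [hfl] at hs
  push_cast at hs
  obtain ⟨q, hq, hq2, p, hp⟩ := coreR' 1 a le_rfl ha (x - 1) (fun j => digit a x (j + 1))
    (fun i => digit_abs a ha x (i + 1)) hs L m c hc0 (fun i hi => hc i hi)
  push_cast at hq2 hp
  rw [mul_one, add_assoc] at hq2 hp
  have hqR : (1 : ℝ) ≤ q := by exact_mod_cast hq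
  by_cases hp0 : p = 0
  · right
    rw [hp0] at hp
    push_cast at hp
    rw [sub_zero, abs_of_nonneg (mul_nonneg (by linarith) (by linarith))] at hp
    nlinarith
  · left
    have h1 := hR (p + q) q (by exact_mod_cast hq) (by exact_mod_cast hq2.trans hCn) (by
      push_cast
      rw [Ne, div_eq_one_iff_eq (by linarith)]
      intro h
      apply hp0
      have : (p : ℝ) = 0 := by linarith
      exact_mod_cast this)
    push_cast at h1
    have e1 : |x - ((p : ℝ) + q) / q| = |(q : ℝ) * (x - 1) - p| / q := by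
      have hq0 : (0 : ℝ) < q := by linarith
      rw [eq_div_iff hq0.ne', ← abs_of_pos hq0, ← abs_mul, abs_of_pos hq0]
      congr 1
      field_simp
      ring
    rw [e1] at h1
    have hq0 : (0 : ℝ) < q := by linarith
    have h2 : 1 / Bn < q * |(q : ℝ) * (x - 1) - p| := by
      rw [lt_div_iff₀ hq0] at h1
      have h3 := mul_lt_mul_of_pos_left h1 hq0
      calc 1 / Bn = q * (1 / ((q : ℝ) ^ 2 * Bn) * q) := by
            rcases eq_or_ne Bn 0 with h0 | h0
            · rw [h0]; simp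
            · field_simp
        _ < _ := h3
    refine h2.trans_le ?_
    calc (q : ℝ) * |(q : ℝ) * (x - 1) - p| ≤
        (a : ℝ) ^ ((m : ℝ) + (15 * err m + 1)) * (a : ℝ) ^ ((m : ℝ) + (15 * err m + 1) - L) :=
          mul_le_mul hq2 hp (abs_nonneg _) (by positivity)
      _ = _ := by
        rw [← Real.rpow_add ha0]
        congr 1
        ring

end Pool.Agent.X110.LP
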