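import Pool.Agent.X110.LP2

/-!
# The linear complexity profile
-/

set_option autoImplicit false

namespace Pool.Agent.X110.LP

open Finset
open Pool.Agent.W47.JL (err err_ge err_le)
open Pool.Agent.Y928.PL (err_mono exists_rec)
open Pool.Agent.Y928.JL.Fam (digit Recurrence complexity F F_linear)

/-- **The profile** -/
theorem profile (X : ℕ → ℝ) (n1 : ℕ) (hX1 : ∀ n, n1 ≤ n → 1 < X n) (hX2 : ∀ n, n1 ≤ n → X n < 2)
    (hlow : ∀ n, n1 ≤ n → 1 ≤ (X n - 1) * 2 ^ n) (hup : ∀ n, n1 ≤ n → (X n - 1) * 2 ^ n < 4)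
    (hR : ∀ C B : ℝ, 1 < B → ∃ n0 : ℕ, ∀ n : ℕ, n0 ≤ n → ∀ p q : ℤ, 1 ≤ q → (q : ℝ) ≤ C ^ n →
      (p : ℝ) / q ≠ 1 → 1 / ((q : ℝ) ^ 2 * B ^ n) < |X n - p / q|)
    (a : ℕ) (ha : 2 ≤ a) (A ε : ℝ) (hε : 0 < ε) :
    ∃ n0 : ℕ, ∀ n : ℕ, n0 ≤ n → ∀ L : ℕ, (L : ℝ) ≤ A * n →
      (4 * (a : ℝ) ^ L ≤ 2 ^ n → complexity a (X n) L = 0) ∧
      ((2 : ℝ) ^ n ≤ (a : ℝ) ^ L →
        |(complexity a (X n) L : ℝ) - max (n * Real.log 2 / Real.log a) ((L : ℝ) / 2)| ≤ ε * n) := by
  have haR : (2 : ℝ) ≤ a := by exact_mod_cast ha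
  have ha0 : (0 : ℝ) < a := by linarith
  obtain ⟨la, hla⟩ : ∃ la, la = Real.log a := ⟨_, rfl⟩
  have hla0 : 0 < la := by rw [hla]; exact Real.log_pos (by linarith)
  have hl2 : 0 < Real.log 2 := Real.log_pos (by norm_num)
  have hl2la : Real.log 2 ≤ la := by rw [hla]; exact Real.log_le_log (by norm_num) haR
  obtain ⟨A', hA'⟩ : ∃ A' : ℝ, A' = |A| + 1 := ⟨_, rfl⟩
  have hA'0 : 1 ≤ A' := by rw [hA']; linarith [abs_nonneg A]
  have hAA' : A ≤ A' := by rw [hA']; linarith [le_abs_self A]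
  obtain ⟨B, hB⟩ : ∃ B : ℝ, B = Real.exp (ε * la / 4) := ⟨_, rfl⟩
  have hB1 : 1 < B := by rw [hB]; exact Real.one_lt_exp_iff.2 (by positivity)
  obtain ⟨C, hC⟩ : ∃ C : ℝ, C = (a : ℝ) ^ (32 * A') := ⟨_, rfl⟩
  obtain ⟨nR, hnR⟩ := hR C B hB1
  obtain ⟨K', hK'0, hK'⟩ := F_linear 15 (ε / (16 * A')) (by norm_num) (by positivity)
  obtain ⟨n2, hn2⟩ := exists_nat_ge (16 * (K' + 2) / ε)
  refine ⟨max (max n1 nR) (max n2 1), fun n hn L hL => ?_⟩
  have hn1 : n1 ≤ n := (le_max_left _ _).trans ((le_max_left _ _).trans hn)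
  have hnR' : nR ≤ n := (le_max_right _ _).trans ((le_max_left _ _).trans hn)
  have hn2' : n2 ≤ n := (le_max_left _ _).trans ((le_max_right _ _).trans hn)
  have hn3 : 1 ≤ n := (le_max_right _ _).trans ((le_max_right _ _).trans hn)
  have hnr : (1 : ℝ) ≤ n := by exact_mod_cast hn3
  have hn0 : (0 : ℝ) < n := by linarith
  have hεn : 16 * (K' + 2) ≤ ε * n := by
    have h1 : 16 * (K' + 2) / ε ≤ n := hn2.trans (by exact_mod_cast hn2')
    rw [div_le_iff₀ hε] at h1
    linarith
  obtain ⟨x, hx⟩ : ∃ x, x = X n := ⟨_, rfl⟩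
  have hx1 := hX1 n hn1
  have hx2 := hX2 n hn1
  have hxl := hlow n hn1
  have hxu := hup n hn1
  have hR' := hnR n hnR'
  rw [← hx] at hx1 hx2 hxl hxu hR' ⊢
  have hL' : (L : ℝ) ≤ A' * n := hL.trans (mul_le_mul_of_nonneg_right hAA' hn0.le)
  -- the error
  have herr : ∀ m : ℕ, m ≤ L → 15 * err m + 1 ≤ ε * n / 8 := by
    intro m hm
    have h1 := hK' L
    have e1 : F 15 L = L + 15 * err L := rfl
    rw [e1] at h1
    have h2 := err_mono hm
    have h3 : ε / (16 * A') * L ≤ ε / 16 * n := by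
      have : ε / (16 * A') * L ≤ ε / (16 * A') * (A' * n) := mul_le_mul_of_nonneg_left hL' (by positivity)
      refine this.trans (le_of_eq ?_)
      field_simp
    linarith
  -- the alternative
  have halt : ∀ (L' m : ℕ) (c : ℕ → ℚ), m ≤ L → (∃ l ≤ m, c l ≠ 0) →
      (∀ i, i + m < L' → ∑ l ∈ range (m + 1), c l * (digit a x (i + l + 1) : ℚ) = 0) →
      (L' : ℝ) < 2 * m + ε * n / 2 ∨ (L' : ℝ) ≤ m + n * Real.log 2 / la + ε * n / 8 := by
    intro L' m c hm hc0 hc
    have h1 := herr m hm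
    have hm' : (m : ℝ) ≤ L := by exact_mod_cast hm
    have hCn : (a : ℝ) ^ ((m : ℝ) + (15 * err m + 1)) ≤ C ^ n := by
      rw [hC, ← Real.rpow_natCast, ← Real.rpow_mul ha0.le]
      apply Real.rpow_le_rpow_of_exponent_le (by linarith)
      have h3 := err_le m
      have h4 : 16 * ((m : ℝ) + 1) ≤ 32 * A' * n := by nlinarith
      linarith
    rcases alt a ha x hx1 hx2 (C ^ n) (B ^ n) hR' L' m c hc0 hc hCn with h2 | h2
    · left
      have h3 : Real.log (1 / B ^ n) < (2 * ((m : ℝ) + (15 * err m + 1)) - L') * la := by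
        have h4 := Real.log_lt_log (by positivity) h2
        rwa [Real.log_rpow ha0, ← hla] at h4
      rw [one_div, Real.log_inv, Real.log_pow, hB, Real.log_exp] at h3
      have h5 : -(n * (ε / 4)) * la < (2 * ((m : ℝ) + (15 * err m + 1)) - L') * la := by
        calc -(n * (ε / 4)) * la = -(n * (ε * la / 4)) := by ring
          _ < _ := h3
      have h6 := lt_of_mul_lt_mul_right h5 hla0.le
      linarith
    · right
      have h3 : (1 / 2 ^ n : ℝ) ≤ (a : ℝ) ^ ((m : ℝ) + (15 * err m + 1) - L') := by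
        refine le_trans ?_ h2
        rw [div_le_iff₀ (by positivity)]
        exact hxl
      have h4 : -(n * Real.log 2) ≤ ((m : ℝ) + (15 * err m + 1) - L') * la := by
        have h5 := Real.log_le_log (by positivity) h3
        rwa [Real.log_rpow ha0, ← hla, one_div, Real.log_inv, Real.log_pow] at h5
      have h5 : -(n * Real.log 2 / la) ≤ (m : ℝ) + (15 * err m + 1) - L' := by
        rw [neg_le_iff_add_nonneg, ← sub_nonneg] at h4
        have h6 : 0 ≤ ((m : ℝ) + (15 * err m + 1) - L' + n * Real.log 2 / la) * la := by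
          rw [add_mul, div_mul_cancel₀ _ hla0.ne']
          linarith
        have h7 := nonneg_of_mul_nonneg_left h6 hla0
        linarith
      linarith
  constructor
  · intro h4
    have h5 : (x - 1) * (a : ℝ) ^ L < 1 := by
      have hp : (0 : ℝ) < (2 : ℝ) ^ n := by positivity
      have hpa : (0 : ℝ) < (a : ℝ) ^ L := by positivity
      have h6 : (x - 1) * (4 * (a : ℝ) ^ L) ≤ (x - 1) * 2 ^ n := mul_le_mul_of_nonneg_left h4 (by linarith)
      nlinarith
    have h6 : complexity a x L ≤ 0 := complexity_le (c := fun _ => 0) (fun i h1 h2 => by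
      obtain ⟨j, rfl⟩ : ∃ j, i = j + 1 := ⟨i - 1, by omega⟩
      rw [Finset.range_zero, Finset.sum_empty, digit_zero_of a ha x hx1 L h5 (j + 0) (by omega)]
      simp)
    omega
  · intro h4
    rw [← hla]
    obtain ⟨ℓ, hℓ⟩ : ∃ ℓ, ℓ = n * Real.log 2 / la := ⟨_, rfl⟩
    rw [← hℓ] at halt ⊢
    obtain ⟨N, hN⟩ : ∃ N, N = complexity a x L := ⟨_, rfl⟩
    have hNL : N ≤ L := by rw [hN]; exact complexity_le_self a x L
    rw [← hN]
    have hNL' : (N : ℝ) ≤ L := by exact_mod_cast hNL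
    -- the first nonzero digit
    have hfirst : ℓ - 2 ≤ N := by
      have h5 : 1 ≤ (x - 1) * (a : ℝ) ^ L :=
        hxl.trans (mul_le_mul_of_nonneg_left h4 (by linarith))
      have h6 := complexity_first a ha x hx1 hx2 L h5
      rw [← hN] at h6
      have h7 : (2 : ℝ) ^ n ≤ 4 * (a : ℝ) ^ N := by
        have hp : (0 : ℝ) < (2 : ℝ) ^ n := by positivity
        have hpa : (0 : ℝ) < (a : ℝ) ^ N := by positivity
        have h8 : (x - 1) * (2 : ℝ) ^ n * (a : ℝ) ^ N < 4 * (a : ℝ) ^ N := mul_lt_mul_of_pos_right hxu hpa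
        have h9 : 1 * (2 : ℝ) ^ n ≤ (x - 1) * (a : ℝ) ^ N * 2 ^ n := mul_le_mul_of_nonneg_right h6 hp.le
        linarith
      have h8 := Real.log_le_log (by positivity) h7
      rw [Real.log_pow, Real.log_mul (by norm_num) (by positivity), Real.log_pow, ← hla,
        show (4 : ℝ) = 2 ^ 2 by norm_num, Real.log_pow] at h8
      push_cast at h8
      rw [hℓ, sub_le_iff_le_add, div_le_iff₀ hla0]
      nlinarith
    rw [abs_le]
    constructor
    · -- lower bound
      obtain ⟨c, hc⟩ := attained a x L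
      rw [← hN] at hc
      have h5 := halt L N (fun l => if l = N then 1 else - c l) hNL ⟨N, le_rfl, by simp⟩ (fun i hi => by
        rw [sum_range_succ, if_pos rfl, one_mul]
        have h6 := hc (i + 1) (by omega) (by omega)
        rw [show i + 1 + N = i + N + 1 by ring] at h6
        rw [h6, ← sum_add_distrib]
        refine Finset.sum_eq_zero fun l hl => ?_
        rw [mem_range] at hl
        rw [if_neg (by omega), show i + 1 + l = i + l + 1 by ring]
        ring)
      have h6 : (L : ℝ) / 2 - ε * n ≤ N := by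
        rcases h5 with h5 | h5 <;> nlinarith
      rcases le_total ℓ ((L : ℝ) / 2) with h7 | h7
      · rw [max_eq_right h7]; linarith
      · rw [max_eq_left h7]; nlinarith
    · -- upper bound
      obtain ⟨Y, hY⟩ : ∃ Y : ℝ, Y = max ℓ ((L : ℝ) / 2) + ε * n / 2 := ⟨_, rfl⟩
      have hm1 : ℓ ≤ max ℓ ((L : ℝ) / 2) := le_max_left _ _
      have hm2 : (L : ℝ) / 2 ≤ max ℓ ((L : ℝ) / 2) := le_max_right _ _
      have hY0 : 0 ≤ Y := by
        have h5 : (0 : ℝ) ≤ (L : ℝ) / 2 := by positivity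
        have h6 : 0 ≤ ε * n / 2 := by positivity
        rw [hY]; linarith
      obtain ⟨M, hM⟩ : ∃ M : ℕ, M = ⌊Y⌋₊ + 1 := ⟨_, rfl⟩
      have hMR1 : Y < M := by rw [hM]; push_cast; exact Nat.lt_floor_add_one Y
      have hMR2 : (M : ℝ) ≤ Y + 1 := by
        rw [hM]; push_cast
        linarith [Nat.floor_le hY0]
      have hNM : N ≤ M := by
        by_cases hML : M ≤ L
        swap
        · omega
        obtain ⟨c, hc⟩ := exists_rec (digit a x) 1 L M hML (by
          rintro d ⟨i0, hi0, hd⟩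
          by_contra hcon
          push Not at hcon
          obtain ⟨m, hm⟩ : ∃ m, L - M = m + 1 := ⟨L - M - 1, by omega⟩
          rw [hm] at hcon hi0
          have h1 := halt (L - 1) m d (by omega) ⟨i0, by omega, hd⟩ (fun i hi => by
            rw [← hcon i (by omega)]
            refine Finset.sum_congr rfl fun l _ => ?_
            rw [show 1 + i + l = i + l + 1 by ring])
          have h3 : ((L - 1 : ℕ) : ℝ) = L - 1 := by
            rw [Nat.cast_sub (by omega)]; simp
          have h4 : (m : ℝ) = L - M - 1 := by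
            have : L = m + 1 + M := by omega
            rw [this]; push_cast; ring
          rw [h3, h4] at h1
          rcases h1 with h1 | h1
          · linarith
          · have : 0 < ε * n := by positivity
            linarith)
        rw [hN]
        exact complexity_le (c := c) (fun i h1 h2 => by
          obtain ⟨j, rfl⟩ : ∃ j, i = j + 1 := ⟨i - 1, by omega⟩
          have h5 := hc j (by omega)
          rw [show j + 1 + M = 1 + j + M by ring, h5]
          refine Finset.sum_congr rfl fun l _ => ?_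
          rw [show 1 + j + l = j + 1 + l by ring])
      have hNM' : (N : ℝ) ≤ M := by exact_mod_cast hNM
      have : 2 ≤ ε * n := by nlinarith
      linarith

end Pool.Agent.X110.LP
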