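import Pool.Agent.X110.LP3
import Pool.Agent.Y760.RT.Ser

/-!
# Zeta values at large integers
-/

set_option autoImplicit false

namespace Pool.Agent.X110.LP

open Finset
open Pool.Agent.TH507.ZS (dser zQ zQ_apply zQ_pb)
open Pool.Agent.Y928.JL.Fam (digit Recurrence complexity)

/-- `ζ(n) = ∑ 1/(k+1)^n` -/
noncomputable def zt (n : ℕ) : ℝ := ∑' k : ℕ, 1 / ((k : ℝ) + 1) ^ n

lemma zt_eq (n : ℕ) : dser zQ n = zt n := by
  unfold dser zt
  refine tsum_congr fun k => ?_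
  rw [zQ_apply (by omega)]
  push_cast
  rfl

/-- Roth's theorem for `ζ(n)`, `n → ∞` -/
theorem roth (C B : ℝ) (hB : 1 < B) : ∃ n0 : ℕ, ∀ n : ℕ, n0 ≤ n → ∀ p q : ℤ, 1 ≤ q → (q : ℝ) ≤ C ^ n →
    (p : ℝ) / q ≠ 1 → 1 / ((q : ℝ) ^ 2 * B ^ n) < |zt n - p / q| := by
  obtain ⟨A, hA⟩ := zQ_pb
  have h1 : zQ 1 = 1 := zQ_apply one_ne_zero
  obtain ⟨n0, hn0⟩ := Pool.Agent.Y760.RT.mainQ hA (fun h hh => by
    obtain ⟨k, h1, h2, h3, h4⟩ := Pool.Agent.Y760.RT.exists_prime_coprime hh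
    refine ⟨k, h1, h2, h3, ?_⟩
    rw [zQ_apply h4.ne_zero]
    norm_num) 1 isAlgebraic_one one_ne_zero C B hB
  refine ⟨n0, fun n hn p q hq hqC hpq => ?_⟩
  have h2 := hn0 n hn p q hq hqC (by rwa [h1, Rat.cast_one, mul_one])
  rwa [one_mul, zt_eq] at h2

lemma summ (n : ℕ) (hn : 2 ≤ n) : Summable (fun k : ℕ => 1 / ((k : ℝ) + 1) ^ n) := by
  have h := (summable_nat_add_iff 1).mpr (Real.summable_one_div_nat_pow.mpr (by omega : 1 < n))
  refine h.congr fun j => ?_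
  push_cast
  rfl

lemma zt_split (n : ℕ) (hn : 2 ≤ n) : zt n = 1 + ∑' k : ℕ, 1 / ((k : ℝ) + 2) ^ n := by
  unfold zt
  rw [(summ n hn).tsum_eq_zero_add]
  congr 1
  · simp
  · refine tsum_congr fun k => ?_
    push_cast
    rw [show (k : ℝ) + 1 + 1 = k + 2 by ring]

lemma summ2 (n : ℕ) (hn : 2 ≤ n) : Summable (fun k : ℕ => 1 / ((k : ℝ) + 2) ^ n) := by
  have h := (summable_nat_add_iff 1).mpr (summ n hn)
  refine h.congr fun k => ?_
  push_cast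
  rw [show (k : ℝ) + 1 + 1 = k + 2 by ring]

lemma zt2 : zt 2 - 1 < 1 := by
  have h := hasSum_zeta_two
  have h1 : zt 2 = Real.pi ^ 2 / 6 := by
    have h2 : HasSum (fun n : ℕ => 1 / (((n + 1 : ℕ) : ℝ)) ^ 2) (Real.pi ^ 2 / 6) := by
      have := (hasSum_nat_add_iff' 1).2 h
      simpa using this
    unfold zt
    rw [← h2.tsum_eq]
    refine tsum_congr fun k => ?_
    push_cast
    rfl
  rw [h1]
  have := Real.pi_lt_d2
  have hp := Real.pi_pos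
  nlinarith

lemma zt_low (n : ℕ) (hn : 2 ≤ n) : 1 ≤ (zt n - 1) * 2 ^ n := by
  rw [zt_split n hn, add_sub_cancel_left]
  have h1 := (summ2 n hn).le_tsum 0 (fun k _ => by positivity)
  have h2 : (1 : ℝ) / 2 ^ n ≤ ∑' k : ℕ, 1 / ((k : ℝ) + 2) ^ n := by
    refine le_trans (le_of_eq ?_) h1
    simp
  rwa [div_le_iff₀ (by positivity)] at h2

lemma zt_up (n : ℕ) (hn : 2 ≤ n) : (zt n - 1) * 2 ^ n < 4 := by
  have h0 := zt2
  rw [zt_split 2 le_rfl, add_sub_cancel_left] at h0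
  rw [zt_split n hn, add_sub_cancel_left]
  have h1 : ∑' k : ℕ, 1 / ((k : ℝ) + 2) ^ n ≤ ∑' k : ℕ, (1 / 2 ^ (n - 2)) * (1 / ((k : ℝ) + 2) ^ 2) := by
    refine (summ2 n hn).tsum_le_tsum (fun k => ?_) ((summ2 2 le_rfl).mul_left _)
    have e : ((k : ℝ) + 2) ^ n = ((k : ℝ) + 2) ^ 2 * ((k : ℝ) + 2) ^ (n - 2) := by
      rw [← pow_add]; congr 1; omega
    rw [e]
    have h2 : (2 : ℝ) ^ (n - 2) ≤ ((k : ℝ) + 2) ^ (n - 2) :=
      pow_le_pow_left₀ (by norm_num) (by linarith [Nat.cast_nonneg (α := ℝ) k]) _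
    rw [div_mul_div_comm, one_mul, mul_comm ((2 : ℝ) ^ (n - 2))]
    apply div_le_div_of_nonneg_left (by norm_num) (by positivity)
    exact mul_le_mul_of_nonneg_left h2 (by positivity)
  rw [tsum_mul_left] at h1
  have h3 : (2 : ℝ) ^ n = 4 * 2 ^ (n - 2) := by
    rw [show (4 : ℝ) = 2 ^ 2 by norm_num, ← pow_add]; congr 1; omega
  rw [h3]
  have h4 : (0 : ℝ) < 2 ^ (n - 2) := by positivity
  calc (∑' k : ℕ, 1 / ((k : ℝ) + 2) ^ n) * (4 * 2 ^ (n - 2))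
      ≤ (1 / 2 ^ (n - 2) * ∑' k : ℕ, 1 / ((k : ℝ) + 2) ^ 2) * (4 * 2 ^ (n - 2)) :=
        mul_le_mul_of_nonneg_right h1 (by positivity)
    _ = 4 * ∑' k : ℕ, 1 / ((k : ℝ) + 2) ^ 2 := by field_simp
    _ < 4 := by linarith

theorem zeta_profile (a : ℕ) (ha : 2 ≤ a) (A ε : ℝ) (hε : 0 < ε) :
    ∃ n0 : ℕ, ∀ n : ℕ, n0 ≤ n → ∀ L : ℕ, (L : ℝ) ≤ A * n →
      (4 * (a : ℝ) ^ L ≤ 2 ^ n → complexity a (zt n) L = 0) ∧
      ((2 : ℝ) ^ n ≤ (a : ℝ) ^ L →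
        |(complexity a (zt n) L : ℝ) - max (n * Real.log 2 / Real.log a) ((L : ℝ) / 2)| ≤ ε * n) := by
  refine profile zt 3 (fun n hn => ?_) (fun n hn => ?_) (fun n hn => zt_low n (by omega))
    (fun n hn => zt_up n (by omega)) roth a ha A ε hε
  · have h1 := zt_low n (by omega)
    have h2 : (0 : ℝ) < 2 ^ n := by positivity
    by_contra hcon
    push Not at hcon
    nlinarith
  · have h1 := zt_up n (by omega)
    have h2 : (8 : ℝ) ≤ 2 ^ n := by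
      calc (8 : ℝ) = 2 ^ 3 := by norm_num
        _ ≤ 2 ^ n := pow_le_pow_right₀ (by norm_num) hn
    nlinarith

end Pool.Agent.X110.LP
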