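import Pool.Agent.X110.LP4
import Pool.Agent.TH507.ZS.Inst

/-!
# The linear complexity profile, general constant, and `ζ(2n) / ζ(n) ^ 2`
-/

set_option autoImplicit false

namespace Pool.Agent.X110.LP

open Finset
open Pool.Agent.W47.JL (err err_ge err_le)
open Pool.Agent.Y928.PL (err_mono exists_rec)
open Pool.Agent.Y928.JL.Fam (digit Recurrence complexity F F_linear)

/-- **The profile** -/
theorem profileK (k0 : ℕ) (X : ℕ → ℝ) (n1 : ℕ) (hX1 : ∀ n, n1 ≤ n → 1 < X n) (hX2 : ∀ n, n1 ≤ n → X n < 2)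
    (hlow : ∀ n, n1 ≤ n → 1 ≤ (X n - 1) * 2 ^ n) (hup : ∀ n, n1 ≤ n → (X n - 1) * 2 ^ n < 2 ^ k0)
    (hR : ∀ C B : ℝ, 1 < B → ∃ n0 : ℕ, ∀ n : ℕ, n0 ≤ n → ∀ p q : ℤ, 1 ≤ q → (q : ℝ) ≤ C ^ n →
      (p : ℝ) / q ≠ 1 → 1 / ((q : ℝ) ^ 2 * B ^ n) < |X n - p / q|)
    (a : ℕ) (ha : 2 ≤ a) (A ε : ℝ) (hε : 0 < ε) :
    ∃ n0 : ℕ, ∀ n : ℕ, n0 ≤ n → ∀ L : ℕ, (L : ℝ) ≤ A * n →
      ((2 : ℝ) ^ k0 * (a : ℝ) ^ L ≤ 2 ^ n → complexity a (X n) L = 0) ∧
      ((2 : ℝ) ^ n ≤ (a : ℝ) ^ L →
        |(complexity a (X n) L : ℝ) - max (n * Real.log 2 / Real.log a) ((L : ℝ) / 2)| ≤ ε * n) := by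
  have haR : (2 : ℝ) ≤ a := by exact_mod_cast ha
  have ha0 : (0 : ℝ) < a := by linarith
  obtain ⟨la, hla⟩ : ∃ la, la = Real.log a := ⟨_, rfl⟩
  have hla0 : 0 < la := by rw [hla]; exact Real.log_pos (by linarith)
  have hl2 : 0 < Real.log 2 := Real.log_pos (by norm_num)
  have hl2la : Real.log 2 ≤ la := by rw [hla]; exact Real.log_le_log (by norm_num) haR
  obtain ⟨A', hA'⟩ : ∃ A' : ℝ, A' = |A| + 1 := ⟨_, rfl⟩
  have hA'0 : 1 ≤ A' := by rw [hA']; linarith [abs_nonneg A]
  have hAA' : A ≤ A' := by rw [hA']; linarith [le_abs_self A]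
  obtain ⟨B, hB⟩ : ∃ B : ℝ, B = Real.exp (ε * la / 4) := ⟨_, rfl⟩
  have hB1 : 1 < B := by rw [hB]; exact Real.one_lt_exp_iff.2 (by positivity)
  obtain ⟨C, hC⟩ : ∃ C : ℝ, C = (a : ℝ) ^ (32 * A') := ⟨_, rfl⟩
  obtain ⟨nR, hnR⟩ := hR C B hB1
  obtain ⟨K', hK'0, hK'⟩ := F_linear 15 (ε / (16 * A')) (by norm_num) (by positivity)
  obtain ⟨n2, hn2⟩ := exists_nat_ge (16 * (K' + 2 + k0) / ε)
  refine ⟨max (max n1 nR) (max n2 1), fun n hn L hL => ?_⟩
  have hn1 : n1 ≤ n := (le_max_left _ _).trans ((le_max_left _ _).trans hn)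
  have hnR' : nR ≤ n := (le_max_right _ _).trans ((le_max_left _ _).trans hn)
  have hn2' : n2 ≤ n := (le_max_left _ _).trans ((le_max_right _ _).trans hn)
  have hn3 : 1 ≤ n := (le_max_right _ _).trans ((le_max_right _ _).trans hn)
  have hnr : (1 : ℝ) ≤ n := by exact_mod_cast hn3
  have hn0 : (0 : ℝ) < n := by linarith
  have hk0 : (0 : ℝ) ≤ k0 := Nat.cast_nonneg k0
  have hεn : 16 * (K' + 2 + k0) ≤ ε * n := by
    have h1 : 16 * (K' + 2 + k0) / ε ≤ n := hn2.trans (by exact_mod_cast hn2')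
    rw [div_le_iff₀ hε] at h1
    linarith
  obtain ⟨x, hx⟩ : ∃ x, x = X n := ⟨_, rfl⟩
  have hx1 := hX1 n hn1
  have hx2 := hX2 n hn1
  have hxl := hlow n hn1
  have hxu := hup n hn1
  have hR' := hnR n hnR'
  rw [← hx] at hx1 hx2 hxl hxu hR' ⊢
  have hL' : (L : ℝ) ≤ A' * n := hL.trans (mul_le_mul_of_nonneg_right hAA' hn0.le)
  -- the error
  have herr : ∀ m : ℕ, m ≤ L → 15 * err m + 1 ≤ ε * n / 8 := by
    intro m hm
    have h1 := hK' L
    have e1 : F 15 L = L + 15 * err L := rfl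
    rw [e1] at h1
    have h2 := err_mono hm
    have h3 : ε / (16 * A') * L ≤ ε / 16 * n := by
      have : ε / (16 * A') * L ≤ ε / (16 * A') * (A' * n) := mul_le_mul_of_nonneg_left hL' (by positivity)
      refine this.trans (le_of_eq ?_)
      field_simp
    linarith
  -- the alternative
  have halt : ∀ (L' m : ℕ) (c : ℕ → ℚ), m ≤ L → (∃ l ≤ m, c l ≠ 0) →
      (∀ i, i + m < L' → ∑ l ∈ range (m + 1), c l * (digit a x (i + l + 1) : ℚ) = 0) →
      (L' : ℝ) < 2 * m + ε * n / 2 ∨ (L' : ℝ) ≤ m + n * Real.log 2 / la + ε * n / 8 := by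
    intro L' m c hm hc0 hc
    have h1 := herr m hm
    have hm' : (m : ℝ) ≤ L := by exact_mod_cast hm
    have hCn : (a : ℝ) ^ ((m : ℝ) + (15 * err m + 1)) ≤ C ^ n := by
      rw [hC, ← Real.rpow_natCast, ← Real.rpow_mul ha0.le]
      apply Real.rpow_le_rpow_of_exponent_le (by linarith)
      have h3 := err_le m
      have h4 : 16 * ((m : ℝ) + 1) ≤ 32 * A' * n := by nlinarith
      linarith
    rcases alt a ha x hx1 hx2 (C ^ n) (B ^ n) hR' L' m c hc0 hc hCn with h2 | h2
    · left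
      have h3 : Real.log (1 / B ^ n) < (2 * ((m : ℝ) + (15 * err m + 1)) - L') * la := by
        have h4 := Real.log_lt_log (by positivity) h2
        rwa [Real.log_rpow ha0, ← hla] at h4
      rw [one_div, Real.log_inv, Real.log_pow, hB, Real.log_exp] at h3
      have h5 : -(n * (ε / 4)) * la < (2 * ((m : ℝ) + (15 * err m + 1)) - L') * la := by
        calc -(n * (ε / 4)) * la = -(n * (ε * la / 4)) := by ring
          _ < _ := h3
      have h6 := lt_of_mul_lt_mul_right h5 hla0.le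
      linarith
    · right
      have h3 : (1 / 2 ^ n : ℝ) ≤ (a : ℝ) ^ ((m : ℝ) + (15 * err m + 1) - L') := by
        refine le_trans ?_ h2
        rw [div_le_iff₀ (by positivity)]
        exact hxl
      have h4 : -(n * Real.log 2) ≤ ((m : ℝ) + (15 * err m + 1) - L') * la := by
        have h5 := Real.log_le_log (by positivity) h3
        rwa [Real.log_rpow ha0, ← hla, one_div, Real.log_inv, Real.log_pow] at h5
      have h5 : -(n * Real.log 2 / la) ≤ (m : ℝ) + (15 * err m + 1) - L' := by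
        rw [neg_le_iff_add_nonneg, ← sub_nonneg] at h4
        have h6 : 0 ≤ ((m : ℝ) + (15 * err m + 1) - L' + n * Real.log 2 / la) * la := by
          rw [add_mul, div_mul_cancel₀ _ hla0.ne']
          linarith
        have h7 := nonneg_of_mul_nonneg_left h6 hla0
        linarith
      linarith
  constructor
  · intro h4
    have h5 : (x - 1) * (a : ℝ) ^ L < 1 := by
      have hp : (0 : ℝ) < (2 : ℝ) ^ n := by positivity
      have hpa : (0 : ℝ) < (a : ℝ) ^ L := by positivity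
      have h6 : (x - 1) * ((2 : ℝ) ^ k0 * (a : ℝ) ^ L) ≤ (x - 1) * 2 ^ n := mul_le_mul_of_nonneg_left h4 (by linarith)
      have h7 : (0 : ℝ) < (2 : ℝ) ^ k0 := by positivity
      have h8 : (2 : ℝ) ^ k0 * ((x - 1) * (a : ℝ) ^ L) < (2 : ℝ) ^ k0 * 1 := by
        rw [mul_one]
        calc (2 : ℝ) ^ k0 * ((x - 1) * (a : ℝ) ^ L) = (x - 1) * ((2 : ℝ) ^ k0 * (a : ℝ) ^ L) := by ring
          _ ≤ _ := h6
          _ < _ := hxu
      exact lt_of_mul_lt_mul_left h8 h7.le
    have h6 : complexity a x L ≤ 0 := complexity_le (c := fun _ => 0) (fun i h1 h2 => by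
      obtain ⟨j, rfl⟩ : ∃ j, i = j + 1 := ⟨i - 1, by omega⟩
      rw [Finset.range_zero, Finset.sum_empty, digit_zero_of a ha x hx1 L h5 (j + 0) (by omega)]
      simp)
    omega
  · intro h4
    rw [← hla]
    obtain ⟨ℓ, hℓ⟩ : ∃ ℓ, ℓ = n * Real.log 2 / la := ⟨_, rfl⟩
    rw [← hℓ] at halt ⊢
    obtain ⟨N, hN⟩ : ∃ N, N = complexity a x L := ⟨_, rfl⟩
    have hNL : N ≤ L := by rw [hN]; exact complexity_le_self a x L
    rw [← hN]
    have hNL' : (N : ℝ) ≤ L := by exact_mod_cast hNL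
    -- the first nonzero digit
    have hfirst : ℓ - k0 ≤ N := by
      have h5 : 1 ≤ (x - 1) * (a : ℝ) ^ L :=
        hxl.trans (mul_le_mul_of_nonneg_left h4 (by linarith))
      have h6 := complexity_first a ha x hx1 hx2 L h5
      rw [← hN] at h6
      have h7 : (2 : ℝ) ^ n ≤ (2 : ℝ) ^ k0 * (a : ℝ) ^ N := by
        have hp : (0 : ℝ) < (2 : ℝ) ^ n := by positivity
        have hpa : (0 : ℝ) < (a : ℝ) ^ N := by positivity
        have h8 : (x - 1) * (2 : ℝ) ^ n * (a : ℝ) ^ N < (2 : ℝ) ^ k0 * (a : ℝ) ^ N := mul_lt_mul_of_pos_right hxu hpa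
        have h9 : 1 * (2 : ℝ) ^ n ≤ (x - 1) * (a : ℝ) ^ N * 2 ^ n := mul_le_mul_of_nonneg_right h6 hp.le
        linarith
      have h8 := Real.log_le_log (by positivity) h7
      rw [Real.log_pow, Real.log_mul (by positivity) (by positivity), Real.log_pow, Real.log_pow, ← hla] at h8
      rw [hℓ, sub_le_iff_le_add, div_le_iff₀ hla0]
      nlinarith
    rw [abs_le]
    constructor
    · -- lower bound
      obtain ⟨c, hc⟩ := attained a x L
      rw [← hN] at hc
      have h5 := halt L N (fun l => if l = N then 1 else - c l) hNL ⟨N, le_rfl, by simp⟩ (fun i hi => by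
        rw [sum_range_succ, if_pos rfl, one_mul]
        have h6 := hc (i + 1) (by omega) (by omega)
        rw [show i + 1 + N = i + N + 1 by ring] at h6
        rw [h6, ← sum_add_distrib]
        refine Finset.sum_eq_zero fun l hl => ?_
        rw [mem_range] at hl
        rw [if_neg (by omega), show i + 1 + l = i + l + 1 by ring]
        ring)
      have h6 : (L : ℝ) / 2 - ε * n ≤ N := by
        rcases h5 with h5 | h5 <;> nlinarith
      rcases le_total ℓ ((L : ℝ) / 2) with h7 | h7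
      · rw [max_eq_right h7]; linarith
      · rw [max_eq_left h7]; nlinarith
    · -- upper bound
      obtain ⟨Y, hY⟩ : ∃ Y : ℝ, Y = max ℓ ((L : ℝ) / 2) + ε * n / 2 := ⟨_, rfl⟩
      have hm1 : ℓ ≤ max ℓ ((L : ℝ) / 2) := le_max_left _ _
      have hm2 : (L : ℝ) / 2 ≤ max ℓ ((L : ℝ) / 2) := le_max_right _ _
      have hY0 : 0 ≤ Y := by
        have h5 : (0 : ℝ) ≤ (L : ℝ) / 2 := by positivity
        have h6 : 0 ≤ ε * n / 2 := by positivity
        rw [hY]; linarith
      obtain ⟨M, hM⟩ : ∃ M : ℕ, M = ⌊Y⌋₊ + 1 := ⟨_, rfl⟩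
      have hMR1 : Y < M := by rw [hM]; push_cast; exact Nat.lt_floor_add_one Y
      have hMR2 : (M : ℝ) ≤ Y + 1 := by
        rw [hM]; push_cast
        linarith [Nat.floor_le hY0]
      have hNM : N ≤ M := by
        by_cases hML : M ≤ L
        swap
        · omega
        obtain ⟨c, hc⟩ := exists_rec (digit a x) 1 L M hML (by
          rintro d ⟨i0, hi0, hd⟩
          by_contra hcon
          push Not at hcon
          obtain ⟨m, hm⟩ : ∃ m, L - M = m + 1 := ⟨L - M - 1, by omega⟩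
          rw [hm] at hcon hi0
          have h1 := halt (L - 1) m d (by omega) ⟨i0, by omega, hd⟩ (fun i hi => by
            rw [← hcon i (by omega)]
            refine Finset.sum_congr rfl fun l _ => ?_
            rw [show 1 + i + l = i + l + 1 by ring])
          have h3 : ((L - 1 : ℕ) : ℝ) = L - 1 := by
            rw [Nat.cast_sub (by omega)]; simp
          have h4 : (m : ℝ) = L - M - 1 := by
            have : L = m + 1 + M := by omega
            rw [this]; push_cast; ring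
          rw [h3, h4] at h1
          rcases h1 with h1 | h1
          · linarith
          · have : 0 < ε * n := by positivity
            linarith)
        rw [hN]
        exact complexity_le (c := c) (fun i h1 h2 => by
          obtain ⟨j, rfl⟩ : ∃ j, i = j + 1 := ⟨i - 1, by omega⟩
          have h5 := hc j (by omega)
          rw [show j + 1 + M = 1 + j + M by ring, h5]
          refine Finset.sum_congr rfl fun l _ => ?_
          rw [show 1 + j + l = j + 1 + l by ring])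
      have hNM' : (N : ℝ) ≤ M := by exact_mod_cast hNM
      have : 2 ≤ ε * n := by nlinarith
      linarith

open Pool.Agent.TH507.ZS (dser tQ tQ_mult tQ_pb tQ_prime zQ dser_t)

/-- `t(n) = ζ(2n) / ζ(n) ^ 2` -/
noncomputable def tt (n : ℕ) : ℝ := zt (2 * n) / zt n ^ 2

theorem roth_t (C B : ℝ) (hB : 1 < B) : ∃ n0 : ℕ, ∀ n : ℕ, n0 ≤ n → ∀ p q : ℤ, 1 ≤ q → (q : ℝ) ≤ C ^ n →
    (p : ℝ) / q ≠ 1 → 1 / ((q : ℝ) ^ 2 * B ^ n) < |tt n - p / q| := by
  obtain ⟨A, hA⟩ := tQ_pb
  have h1 : tQ 1 = 1 := tQ_mult.1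
  obtain ⟨n0, hn0⟩ := Pool.Agent.Y760.RT.mainQ hA (fun h hh => by
    obtain ⟨k, h1, h2, h3, h4⟩ := Pool.Agent.Y760.RT.exists_prime_coprime hh
    refine ⟨k, h1, h2, h3, ?_⟩
    rw [tQ_prime h4]
    norm_num) 1 isAlgebraic_one one_ne_zero C B hB
  obtain ⟨n1, hn1⟩ := dser_t
  refine ⟨n0 + n1, fun n hn p q hq hqC hpq => ?_⟩
  have h2 := hn0 n (by omega) p q hq hqC (by rwa [h1, Rat.cast_one, mul_one])
  rwa [one_mul, hn1 n (by omega), zt_eq, zt_eq] at h2

theorem t_profile (a : ℕ) (ha : 2 ≤ a) (A ε : ℝ) (hε : 0 < ε) :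
    ∃ n0 : ℕ, ∀ n : ℕ, n0 ≤ n → ∀ L : ℕ, (L : ℝ) ≤ A * n →
      (16 * (a : ℝ) ^ L ≤ 2 ^ n → complexity a (1 - tt n) L = 0) ∧
      ((2 : ℝ) ^ n ≤ (a : ℝ) ^ L →
        |(complexity a (1 - tt n) L : ℝ) - max (n * Real.log 2 / Real.log a) ((L : ℝ) / 2)| ≤ ε * n) := by
  have hb : ∀ n : ℕ, 5 ≤ n → 1 ≤ (1 - tt n) * 2 ^ n ∧ (1 - tt n) * 2 ^ n < 16 := by
    intro n hn
    have h1 := zt_low n (by omega)
    have h2 := zt_up n (by omega)
    have h3 := zt_low (2 * n) (by omega)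
    have h4 := zt_up (2 * n) (by omega)
    obtain ⟨P, hP⟩ : ∃ P : ℝ, P = 2 ^ n := ⟨_, rfl⟩
    have hP2 : (2 : ℝ) ^ (2 * n) = P ^ 2 := by rw [hP, ← pow_mul, mul_comm]
    have hP32 : 32 ≤ P := by
      rw [hP]
      calc (32 : ℝ) = 2 ^ 5 := by norm_num
        _ ≤ 2 ^ n := pow_le_pow_right₀ (by norm_num) hn
    rw [hP2] at h3 h4
    rw [← hP] at h1 h2 ⊢
    obtain ⟨z, hz⟩ : ∃ z, z = zt n - 1 := ⟨_, rfl⟩
    obtain ⟨w, hw⟩ : ∃ w, w = zt (2 * n) - 1 := ⟨_, rfl⟩
    have e1 : zt n = 1 + z := by rw [hz]; ring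
    have e2 : zt (2 * n) = 1 + w := by rw [hw]; ring
    unfold tt
    rw [← hz] at h1 h2
    rw [← hw] at h3 h4
    rw [e1, e2]
    have hP0 : 0 < P := by linarith
    have hz0 : 0 < z := by
      by_contra hcon
      push Not at hcon
      nlinarith
    have hw0 : 0 < w := by
      by_contra hcon
      push Not at hcon
      nlinarith [sq_nonneg P]
    have hz1 : z < 1 / 8 := by
      by_contra hcon
      push Not at hcon
      nlinarith
    have hwz : w < 4 * z ^ 2 := by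
      have h5 : w * P ^ 2 < 4 * z ^ 2 * P ^ 2 := by nlinarith
      exact lt_of_mul_lt_mul_right h5 (by positivity)
    have hden : 0 < (1 + z) ^ 2 := by positivity
    have e3 : 1 - (1 + w) / (1 + z) ^ 2 = (2 * z + z ^ 2 - w) / (1 + z) ^ 2 := by
      field_simp
      ring
    rw [e3]
    constructor
    · have h6 : z ≤ (2 * z + z ^ 2 - w) / (1 + z) ^ 2 := by
        rw [le_div_iff₀ hden]
        nlinarith
      nlinarith
    · have h6 : (2 * z + z ^ 2 - w) / (1 + z) ^ 2 ≤ 4 * z := by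
        rw [div_le_iff₀ hden]
        nlinarith
      nlinarith
  have key := profileK 4 (fun n => 2 - tt n) 5 (fun n hn => ?_) (fun n hn => ?_) (fun n hn => ?_)
    (fun n hn => ?_) (fun C B hB => ?_) a ha A ε hε
  · obtain ⟨n0, hn0⟩ := key
    refine ⟨n0, fun n hn L hL => ?_⟩
    have h1 := hn0 n hn L hL
    have e : ∀ L : ℕ, complexity a (2 - tt n) L = complexity a (1 - tt n) L := by
      intro L
      have hd : ∀ i, 1 ≤ i → digit a (2 - tt n) i = digit a (1 - tt n) i := by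
        intro i hi
        unfold digit
        have e4 : (2 - tt n) * (a : ℝ) ^ i = (1 - tt n) * (a : ℝ) ^ i + (((a : ℤ) ^ i : ℤ) : ℝ) := by
          push_cast; ring
        rw [e4, Int.floor_add_intCast]
        obtain ⟨j, rfl⟩ : ∃ j, i = j + 1 := ⟨i - 1, by omega⟩
        rw [pow_succ (a : ℤ) j, mul_comm ((a : ℤ) ^ j) (a : ℤ), Int.add_mul_emod_self_left]
      unfold complexity
      congr 1
      ext m
      simp only [Set.mem_setOf_eq]
      refine exists_congr fun c => ?_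
      unfold Recurrence
      refine forall_congr' fun i => forall_congr' fun hi => forall_congr' fun him => ?_
      rw [hd (i + m) (by omega)]
      have e5 : ∑ j ∈ range m, c j * (digit a (2 - tt n) (i + j) : ℚ) =
          ∑ j ∈ range m, c j * (digit a (1 - tt n) (i + j) : ℚ) :=
        Finset.sum_congr rfl fun j _ => by rw [hd (i + j) (by omega)]
      rw [e5]
    simp only [e] at h1
    norm_num at h1
    exact h1
  · have h1 := (hb n hn).1
    have h2 : (0 : ℝ) < 2 ^ n := by positivity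
    show 1 < 2 - tt n
    by_contra hcon
    push Not at hcon
    nlinarith
  · have h1 := (hb n hn).2
    have h2 : (32 : ℝ) ≤ 2 ^ n := by
      calc (32 : ℝ) = 2 ^ 5 := by norm_num
        _ ≤ 2 ^ n := pow_le_pow_right₀ (by norm_num) hn
    show 2 - tt n < 2
    have h3 : 0 < tt n := by
      by_contra hcon
      push Not at hcon
      nlinarith
    linarith
  · have h1 := (hb n hn).1
    show 1 ≤ (2 - tt n - 1) * 2 ^ n
    rw [show (2 - tt n - 1) = 1 - tt n by ring]
    exact h1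
  · have h1 := (hb n hn).2
    show (2 - tt n - 1) * 2 ^ n < 2 ^ 4
    rw [show (2 - tt n - 1) = 1 - tt n by ring]
    norm_num
    exact h1
  · obtain ⟨n0, hn0⟩ := roth_t C B hB
    refine ⟨n0, fun n hn p q hq hqC hpq => ?_⟩
    have hqR : (1 : ℝ) ≤ q := by exact_mod_cast hq
    have h1 := hn0 n hn (2 * q - p) q hq hqC (by
      intro h
      apply hpq
      rw [div_eq_one_iff_eq (by linarith)] at h ⊢
      push_cast at h
      linarith)
    refine h1.trans_le (le_of_eq ?_)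
    rw [← abs_neg]
    congr 1
    push_cast
    field_simp
    ring

end Pool.Agent.X110.LP
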