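import Pool.Agent.Y746.OA.SSum
import Pool.Agent.H306R2.EPLim

set_option autoImplicit false

/-! The diagonal sum for complex orders: Euler product and the limit at the critical line. -/

namespace Pool.Agent.X110.LT

open Finset Filter Topology
open Pool.Agent.H306R2 Pool.Agent.Y746.OA

noncomputable section

/-- the coefficients of `(1-x)^(-z)` -/
def lcC (z : ℂ) (m : ℕ) : ℂ := ∏ i ∈ range m, (z + i) / ((i : ℂ) + 1)

/-- the coefficients of `ζ(s)^z` -/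
def dvC (z : ℂ) (n : ℕ) : ℂ := if n = 0 then 0 else n.factorization.prod fun _ e => lcC z e

/-- local factor -/
def FC (z : ℂ) (x : ℝ) : ℂ := ∑' m : ℕ, lcC z m ^ 2 * (x : ℂ) ^ m

/-- the diagonal sum -/
def SSC (z : ℂ) (δ : ℝ) : ℂ := ∑' n : ℕ, dvC z n ^ 2 * (((n:ℝ) ^ (-(2 * (1 / 2 + δ))) : ℝ) : ℂ)

/-- normalised local factor -/
def GC (z : ℂ) (x : ℝ) : ℂ := ((1 - x : ℝ) : ℂ) ^ (z ^ 2) * FC z x

/-- the arithmetic factor -/
def aFC (z : ℂ) : ℂ := ∏' p : Nat.Primes, GC z (1 / ((p:ℕ):ℝ))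

lemma lcC_ofReal (α : ℝ) (m : ℕ) : lcC α m = ((lc α m : ℝ) : ℂ) := by
  unfold lcC lc
  push_cast
  rfl

lemma dvC_ofReal (α : ℝ) (n : ℕ) : dvC α n = ((dv α n : ℝ) : ℂ) := by
  unfold dvC dv
  split_ifs
  · simp
  · unfold Finsupp.prod
    push_cast
    exact prod_congr rfl fun p _ => lcC_ofReal α _

lemma lcC_norm (z : ℂ) (m : ℕ) : ‖lcC z m‖ ≤ lc ‖z‖ m := by
  unfold lcC lc
  rw [norm_prod]
  refine prod_le_prod (fun _ _ => norm_nonneg _) fun i _ => ?_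
  rw [norm_div]
  have h1 : ‖((i:ℂ) + 1)‖ = (i:ℝ) + 1 := by
    have : ((i:ℂ) + 1) = (((i:ℝ) + 1 : ℝ) : ℂ) := by push_cast; rfl
    rw [this, Complex.norm_real, Real.norm_of_nonneg (by positivity)]
  rw [h1]
  refine div_le_div_of_nonneg_right ?_ (by positivity)
  refine (norm_add_le _ _).trans ?_
  rw [Complex.norm_natCast]

lemma lcC_norm_le {z : ℂ} {R : ℝ} (hz : ‖z‖ ≤ R) (m : ℕ) : ‖lcC z m‖ ≤ lc R m :=
  (lcC_norm z m).trans (lc_mono (norm_nonneg _) hz m)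

lemma dvC_norm (z : ℂ) (n : ℕ) : ‖dvC z n‖ ≤ dv ‖z‖ n := by
  unfold dvC dv
  split_ifs
  · simp
  · unfold Finsupp.prod
    rw [norm_prod]
    exact prod_le_prod (fun _ _ => norm_nonneg _) fun p _ => lcC_norm z _

lemma dvC_norm_le {z : ℂ} {R : ℝ} (hz : ‖z‖ ≤ R) (n : ℕ) : ‖dvC z n‖ ≤ dv R n :=
  (dvC_norm z n).trans (dv_mono (norm_nonneg _) hz n)

lemma lcC_cont (m : ℕ) : Continuous fun z => lcC z m := by
  unfold lcC
  exact continuous_finsetProd _ fun i _ => (continuous_id.add continuous_const).div_const _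

lemma lcC_diff (m : ℕ) : Differentiable ℂ fun z => lcC z m := by
  unfold lcC
  refine Differentiable.fun_finsetProd fun i _ => ?_
  exact (differentiable_id.add (differentiable_const _)).div_const _

lemma dvC_diff (n : ℕ) : Differentiable ℂ fun z => dvC z n := by
  unfold dvC
  split_ifs
  · exact differentiable_const _
  · unfold Finsupp.prod
    exact Differentiable.fun_finsetProd fun i _ => lcC_diff _

lemma lcC_zero (z : ℂ) : lcC z 0 = 1 := by simp [lcC]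
lemma lcC_one (z : ℂ) : lcC z 1 = z := by simp [lcC]

lemma dvC_prime_pow (z : ℂ) {p : ℕ} (hp : p.Prime) (m : ℕ) : dvC z (p ^ m) = lcC z m := by
  unfold dvC
  rw [if_neg (pow_ne_zero _ hp.ne_zero), hp.factorization_pow]
  exact Finsupp.prod_single_index (lcC_zero z)

lemma dvC_mul (z : ℂ) {m n : ℕ} (h : Nat.Coprime m n) : dvC z (m * n) = dvC z m * dvC z n := by
  rcases Nat.eq_zero_or_pos m with hm | hm
  · subst hm; simp [dvC]
  rcases Nat.eq_zero_or_pos n with hn | hn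
  · subst hn; simp [dvC]
  unfold dvC
  rw [if_neg hm.ne', if_neg hn.ne', if_neg (mul_ne_zero hm.ne' hn.ne'), Nat.factorization_mul_of_coprime h,
    Finsupp.prod_add_index_of_disjoint]
  exact h.disjoint_primeFactors

/-- the variable at the prime `p` -/
def xp (p : ℕ) (δ : ℝ) : ℝ := (p:ℝ) ^ (-(2 * (1 / 2 + δ)))

lemma xp_pos {p : ℕ} (hp : p.Prime) (δ : ℝ) : 0 < xp p δ :=
  Real.rpow_pos_of_pos (by exact_mod_cast hp.pos) _

lemma xp_le {p : ℕ} (hp : p.Prime) {δ : ℝ} (hδ : 0 ≤ δ) : xp p δ ≤ 1 / p := by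
  have hp1 : (1:ℝ) ≤ p := by exact_mod_cast hp.one_le
  have e : (1:ℝ) / p = (p:ℝ) ^ (-1:ℝ) := by rw [Real.rpow_neg_one, one_div]
  unfold xp
  rw [e]
  exact Real.rpow_le_rpow_of_exponent_le hp1 (by linarith)

lemma inv_half {p : ℕ} (hp : p.Prime) : 1 / (p:ℝ) ≤ 1 / 2 :=
  one_div_le_one_div_of_le (by norm_num) (by exact_mod_cast hp.two_le)

lemma xp_zero (p : ℕ) : xp p 0 = 1 / p := by
  have e : (1:ℝ) / p = (p:ℝ) ^ (-1:ℝ) := by rw [Real.rpow_neg_one, one_div]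
  have e2 : -(2 * (1 / 2 + (0:ℝ))) = -1 := by norm_num
  unfold xp
  rw [e, e2]

lemma xp_cont {p : ℕ} (hp : p.Prime) : Continuous fun δ => xp p δ := by
  unfold xp
  exact Continuous.rpow continuous_const (by fun_prop) fun _ => Or.inl (by exact_mod_cast hp.ne_zero)

lemma sq_sum {R : ℝ} (hR : 0 < R) {x : ℝ} (hx : 0 < x) (hx1 : x < 1) : Summable fun m : ℕ => lc R m ^ 2 * x ^ m := by
  refine Summable.of_nonneg_of_le (fun m => by positivity) (fun m => ?_) (lc_summable (α := R ^ 2) (by positivity) hx hx1)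
  exact mul_le_mul_of_nonneg_right (lc_sq_le hR.le m) (by positivity)

lemma FC_term {z : ℂ} {R : ℝ} (hz : ‖z‖ ≤ R) {x : ℝ} (hx : 0 ≤ x) (hx1 : x ≤ 1 / 2) (m : ℕ) :
    ‖lcC z m ^ 2 * (x : ℂ) ^ m‖ ≤ lc R m ^ 2 * (1 / 2) ^ m := by
  rw [norm_mul, norm_pow, norm_pow, Complex.norm_real, Real.norm_of_nonneg hx]
  have h1 := lcC_norm_le hz m
  gcongr

lemma FC_summable {z : ℂ} {R : ℝ} (hR : 0 < R) (hz : ‖z‖ ≤ R) {x : ℝ} (hx : 0 ≤ x) (hx1 : x ≤ 1 / 2) :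
    Summable fun m : ℕ => lcC z m ^ 2 * (x : ℂ) ^ m :=
  Summable.of_norm_bounded (sq_sum hR (by norm_num : (0:ℝ) < 1 / 2) (by norm_num)) (FC_term hz hx hx1)

/-- the constant in the expansion of the local factor -/
def CF (R : ℝ) : ℝ := ∑' m : ℕ, lc R (m + 2) ^ 2 * (1 / 2 : ℝ) ^ m

lemma CF_sum {R : ℝ} (hR : 0 < R) : Summable fun m : ℕ => lc R (m + 2) ^ 2 * (1 / 2 : ℝ) ^ m := by
  have h := (summable_nat_add_iff 2).mpr (sq_sum hR (by norm_num : (0:ℝ) < 1 / 2) (by norm_num))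
  refine (h.mul_left 4).congr fun m => ?_
  rw [pow_add]; ring

lemma CF_nonneg (R : ℝ) : 0 ≤ CF R := tsum_nonneg fun m => by positivity

lemma FC_exp {z : ℂ} {R : ℝ} (hR : 0 < R) (hz : ‖z‖ ≤ R) {x : ℝ} (hx : 0 ≤ x) (hx1 : x ≤ 1 / 2) :
    ‖FC z x - 1 - z ^ 2 * x‖ ≤ CF R * x ^ 2 := by
  have hs := FC_summable hR hz hx hx1
  have h1 : FC z x = 1 + z ^ 2 * x + ∑' m : ℕ, lcC z (m + 2) ^ 2 * (x : ℂ) ^ (m + 2) := by
    unfold FC
    rw [← hs.sum_add_tsum_nat_add 2, sum_range_succ, sum_range_one, lcC_zero, lcC_one]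
    ring
  have h2 : FC z x - 1 - z ^ 2 * x = ∑' m : ℕ, lcC z (m + 2) ^ 2 * (x : ℂ) ^ (m + 2) := by rw [h1]; ring
  rw [h2]
  refine tsum_of_norm_bounded ((CF_sum hR).hasSum.mul_right (x ^ 2)) fun m => ?_
  rw [norm_mul, norm_pow, norm_pow, Complex.norm_real, Real.norm_of_nonneg hx, pow_add]
  have h3 := lcC_norm_le hz (m + 2)
  have h4 : x ^ m ≤ (1 / 2) ^ m := pow_le_pow_left₀ hx hx1 m
  calc ‖lcC z (m + 2)‖ ^ 2 * (x ^ m * x ^ 2) ≤ lc R (m + 2) ^ 2 * ((1 / 2) ^ m * x ^ 2) := by gcongr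
    _ = _ := by ring

/-- the power of `1 - x` -/
lemma pw_exp {w : ℂ} {S : ℝ} (hw : ‖w‖ ≤ S) {x : ℝ} (hx : 0 ≤ x) (hx1 : x ≤ 1 / 2) :
    ‖((1 - x : ℝ) : ℂ) ^ w - 1 + w * x‖ ≤ (4 * S ^ 2 * Real.exp (2 * S) + 2 * S) * x ^ 2 := by
  have hS : 0 ≤ S := (norm_nonneg _).trans hw
  have h0 : (0:ℝ) < 1 - x := by linarith
  have hl : |Real.log (1 - x) + x| ≤ 2 * x ^ 2 := by
    have h := Real.abs_log_sub_add_sum_range_le (x := x) (by rw [abs_of_nonneg hx]; linarith) 1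
    rw [sum_range_one, abs_of_nonneg hx] at h
    have e1 : x ^ (0 + 1) / ((0:ℕ) + 1 : ℝ) + Real.log (1 - x) = Real.log (1 - x) + x := by
      simp; ring
    rw [e1] at h
    have h' : |Real.log (1 - x) + x| ≤ x ^ 2 / (1 - x) := h
    refine h'.trans ?_
    rw [div_le_iff₀ h0]
    nlinarith [sq_nonneg x]
  have hl2 : |Real.log (1 - x)| ≤ 2 * x := by
    have h1 : |Real.log (1 - x)| ≤ |Real.log (1 - x) + x| + |x| := by
      have := abs_sub (Real.log (1 - x) + x) x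
      rwa [add_sub_cancel_right] at this
    rw [abs_of_nonneg hx] at h1
    nlinarith
  have hcp : ((1 - x : ℝ) : ℂ) ^ w = Complex.exp ((Real.log (1 - x) : ℝ) * w) := by
    rw [Complex.cpow_def_of_ne_zero (by exact_mod_cast h0.ne'), Complex.ofReal_log h0.le]
  set y : ℂ := (Real.log (1 - x) : ℝ) * w with hy
  have hyn : ‖y‖ ≤ 2 * S * x := by
    rw [hy, norm_mul, Complex.norm_real, Real.norm_eq_abs]
    calc _ ≤ 2 * x * S := mul_le_mul hl2 hw (norm_nonneg _) (by linarith)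
      _ = _ := by ring
  have h2 := Complex.norm_exp_sub_sum_le_norm_mul_exp y 2
  rw [sum_range_succ, sum_range_one] at h2
  simp only [pow_zero, Nat.factorial_zero, Nat.cast_one, div_one, pow_one, Nat.factorial_one] at h2
  have e2 : ((1 - x : ℝ) : ℂ) ^ w - 1 + w * x = (Complex.exp y - (1 + y)) + (((Real.log (1 - x) + x : ℝ) : ℂ)) * w := by
    rw [hcp, hy]
    push_cast
    ring
  rw [e2]
  refine (norm_add_le _ _).trans ?_
  have h3 : ‖(((Real.log (1 - x) + x : ℝ) : ℂ)) * w‖ ≤ 2 * x ^ 2 * S := by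
    rw [norm_mul, Complex.norm_real, Real.norm_eq_abs]
    exact mul_le_mul hl hw (norm_nonneg _) (by positivity)
  have h4 : ‖y‖ ^ 2 * Real.exp ‖y‖ ≤ (2 * S * x) ^ 2 * Real.exp (2 * S) := by
    have h5 : ‖y‖ ≤ 2 * S := hyn.trans (by nlinarith)
    gcongr
  calc _ ≤ (2 * S * x) ^ 2 * Real.exp (2 * S) + 2 * x ^ 2 * S := add_le_add (h2.trans h4) h3
    _ = _ := by ring

/-- the constant for the normalised factor -/
def CG (R : ℝ) : ℝ := R ^ 4 + (4 * (R ^ 2) ^ 2 * Real.exp (2 * R ^ 2) + 2 * R ^ 2) * (1 + R ^ 2 + CF R) + (1 + R ^ 2) * CF R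

lemma CG_nonneg (R : ℝ) : 0 ≤ CG R := by
  unfold CG
  have := CF_nonneg R
  positivity

lemma GC_bound {z : ℂ} {R : ℝ} (hR : 0 < R) (hz : ‖z‖ ≤ R) {x : ℝ} (hx : 0 ≤ x) (hx1 : x ≤ 1 / 2) :
    ‖GC z x - 1‖ ≤ CG R * x ^ 2 := by
  have hz2 : ‖z ^ 2‖ ≤ R ^ 2 := by rw [norm_pow]; exact pow_le_pow_left₀ (norm_nonneg _) hz 2
  have h1 := FC_exp hR hz hx hx1
  have h2 := pw_exp hz2 hx hx1
  set A := ((1 - x : ℝ) : ℂ) ^ (z ^ 2) with hA
  set F := FC z x with hF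
  set a := A - 1 + z ^ 2 * x with ha
  set f := F - 1 - z ^ 2 * x with hf
  have hxn : ‖z ^ 2 * (x:ℂ)‖ ≤ R ^ 2 := by
    rw [norm_mul, Complex.norm_real, Real.norm_of_nonneg hx]
    nlinarith [norm_nonneg (z ^ 2)]
  have hCF := CF_nonneg R
  have hx2 : x ^ 2 ≤ 1 := by nlinarith
  have hFn : ‖F‖ ≤ 1 + R ^ 2 + CF R := by
    have e : F = 1 + z ^ 2 * x + f := by rw [hf]; ring
    rw [e]
    refine (norm_add_le _ _).trans ?_
    have h3 : ‖(1:ℂ) + z ^ 2 * x‖ ≤ 1 + R ^ 2 := (norm_add_le _ _).trans (by rw [norm_one]; linarith)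
    have h4 : CF R * x ^ 2 ≤ CF R := mul_le_of_le_one_right hCF hx2
    linarith
  have e : GC z x - 1 = -(z ^ 2) ^ 2 * x ^ 2 + a * F + (1 - z ^ 2 * x) * f := by
    unfold GC
    rw [← hA, ← hF, ha, hf]
    ring
  rw [e]
  refine (norm_add_le _ _).trans ?_
  have g1 : ‖-(z ^ 2) ^ 2 * (x:ℂ) ^ 2 + a * F‖ ≤ R ^ 4 * x ^ 2 +
      ((4 * (R ^ 2) ^ 2 * Real.exp (2 * R ^ 2) + 2 * R ^ 2) * x ^ 2) * (1 + R ^ 2 + CF R) := by
    refine (norm_add_le _ _).trans (add_le_add ?_ ?_)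
    · have e5 : ‖-(z ^ 2) ^ 2 * (x:ℂ) ^ 2‖ = ‖z ^ 2‖ ^ 2 * x ^ 2 := by
        rw [norm_mul, norm_neg, norm_pow (z ^ 2), norm_pow (x:ℂ), Complex.norm_real, Real.norm_of_nonneg hx]
      have : ‖z ^ 2‖ ^ 2 ≤ R ^ 4 := by
        calc _ ≤ (R ^ 2) ^ 2 := pow_le_pow_left₀ (norm_nonneg _) hz2 2
          _ = _ := by ring
      rw [e5]
      gcongr
    · rw [norm_mul]
      exact mul_le_mul h2 hFn (norm_nonneg _) (by positivity)
  have g2 : ‖(1 - z ^ 2 * (x:ℂ)) * f‖ ≤ (1 + R ^ 2) * (CF R * x ^ 2) := by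
    rw [norm_mul]
    refine mul_le_mul ?_ h1 (norm_nonneg _) (by positivity)
    exact (norm_sub_le _ _).trans (by rw [norm_one]; linarith)
  calc _ ≤ (R ^ 4 * x ^ 2 + ((4 * (R ^ 2) ^ 2 * Real.exp (2 * R ^ 2) + 2 * R ^ 2) * x ^ 2) * (1 + R ^ 2 + CF R)) +
        (1 + R ^ 2) * (CF R * x ^ 2) := add_le_add g1 g2
    _ = _ := by unfold CG; ring

lemma SSC_term {z : ℂ} {K : ℕ} (hz : ‖z‖ ≤ K) (δ : ℝ) (n : ℕ) :
    ‖dvC z n ^ 2 * (((n:ℝ) ^ (-(2 * (1 / 2 + δ))) : ℝ) : ℂ)‖ ≤ dv K n ^ 2 * (n:ℝ) ^ (-(2 * (1 / 2 + δ))) := by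
  rw [norm_mul, norm_pow, Complex.norm_real, Real.norm_of_nonneg (by positivity)]
  have := dvC_norm_le hz n
  gcongr

/-- the Euler product -/
lemma SSC_hasProd (z : ℂ) {δ : ℝ} (hδ : 0 < δ) : HasProd (fun p : Nat.Primes => FC z (xp p δ)) (SSC z δ) := by
  obtain ⟨K, hK⟩ := exists_nat_ge ‖z‖
  set f : ℕ → ℂ := fun n => dvC z n ^ 2 * (((n:ℝ) ^ (-(2 * (1 / 2 + δ))) : ℝ) : ℂ) with hf
  have hsum : Summable fun n => ‖f n‖ :=
    Summable.of_nonneg_of_le (fun _ => norm_nonneg _) (fun n => SSC_term hK δ n) (SS_summable (K:ℝ) hδ)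
  have hf0 : f 0 = 0 := by simp [hf, dvC]
  have hf1 : f 1 = 1 := by simp [hf, dvC]
  have hmul : ∀ {m n : ℕ}, Nat.Coprime m n → f (m * n) = f m * f n := by
    intro m n h
    simp only [hf]
    rw [dvC_mul z h, Nat.cast_mul, Real.mul_rpow (Nat.cast_nonneg _) (Nat.cast_nonneg _)]
    push_cast
    ring
  have h := EulerProduct.eulerProduct_hasProd hf1 hmul hsum hf0
  refine h.congr_fun fun p => ?_
  unfold FC
  refine tsum_congr fun e => ?_
  simp only [hf]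
  rw [dvC_prime_pow z p.2, ← Complex.ofReal_pow]
  congr 2
  unfold xp
  rw [Nat.cast_pow, ← Real.rpow_natCast, ← Real.rpow_natCast, ← Real.rpow_mul (Nat.cast_nonneg _),
    ← Real.rpow_mul (Nat.cast_nonneg _)]
  congr 1; ring

/-- complex powers of convergent products of positive reals -/
lemma hasProd_cpow {ι : Type*} {f : ι → ℝ} {a : ℝ} (hf : HasProd f a) (h0 : ∀ i, 0 ≤ f i) (ha : 0 < a) (c : ℂ) :
    HasProd (fun i => ((f i : ℝ) : ℂ) ^ c) (((a : ℝ) : ℂ) ^ c) := by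
  unfold HasProd at hf ⊢
  have hc : ContinuousAt (fun r : ℝ => ((r : ℝ) : ℂ) ^ c) a :=
    (continuousAt_cpow_const (by
      rw [Complex.mem_slitPlane_iff]
      left
      simpa using ha)).comp Complex.continuous_ofReal.continuousAt
  have h := hc.tendsto.comp hf
  refine h.congr fun s => ?_
  simp only [Function.comp]
  induction s using Finset.cons_induction with
  | empty => simp
  | cons i s hi ih =>
    rw [prod_cons, prod_cons, ← ih, Complex.ofReal_mul, Complex.mul_cpow_ofReal_nonneg (h0 i) (prod_nonneg fun i _ => h0 i)]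

lemma Zr_hasProd' {δ : ℝ} (hδ : 0 < δ) : HasProd (fun p : Nat.Primes => 1 - xp p δ) (Zr (2 * δ))⁻¹ := by
  have h := Zr_hasProd (σ := 2 * δ) (by linarith)
  have h2 := h.inv₀ (Zr_pos (by linarith : 0 < 2 * δ)).ne'
  refine h2.congr_fun fun p => ?_
  rw [inv_inv]
  unfold xp
  congr 2
  ring

/-- the normalised Euler product -/
lemma GC_hasProd (z : ℂ) {δ : ℝ} (hδ : 0 < δ) :
    HasProd (fun p : Nat.Primes => GC z (xp p δ)) ((((Zr (2 * δ))⁻¹ : ℝ) : ℂ) ^ (z ^ 2) * SSC z δ) := by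
  have h1 := SSC_hasProd z hδ
  have h2 := hasProd_cpow (Zr_hasProd' hδ) (fun p => by
    have h3 := xp_le p.2 hδ.le
    have h4 := inv_half p.2
    linarith) (inv_pos.mpr (Zr_pos (by linarith : 0 < 2 * δ))) (z ^ 2)
  exact h2.mul h1

end

end Pool.Agent.X110.LT
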