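import Pool.Agent.X110.LT1
import Mathlib.Analysis.Normed.Ring.InfiniteProd

set_option autoImplicit false

/-! The diagonal sum for complex orders near the critical line. -/

namespace Pool.Agent.X110.LT

open Finset Filter Topology
open Pool.Agent.H306R2 Pool.Agent.Y746.OA

noncomputable section

/-- the normalised diagonal sum -/
def hh (z : ℂ) (δ : ℝ) : ℂ := ((2 * δ : ℝ) : ℂ) ^ (z ^ 2) * SSC z δ

/-- the filter of the limits -/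
abbrev lf (z₀ : ℂ) : Filter (ℂ × ℝ) := 𝓝 z₀ ×ˢ 𝓝[>] (0:ℝ)

lemma lf_fst (z₀ : ℂ) : Tendsto (fun p : ℂ × ℝ => p.1) (lf z₀) (𝓝 z₀) := tendsto_fst
lemma lf_snd (z₀ : ℂ) : Tendsto (fun p : ℂ × ℝ => p.2) (lf z₀) (𝓝 0) :=
  (tendsto_snd (f := 𝓝 z₀) (g := 𝓝[>] (0:ℝ))).mono_right nhdsWithin_le_nhds
lemma lf_pos (z₀ : ℂ) : ∀ᶠ p : ℂ × ℝ in lf z₀, 0 < p.2 := by
  have : ∀ᶠ δ : ℝ in 𝓝[>] (0:ℝ), 0 < δ := eventually_mem_nhdsWithin
  exact (tendsto_snd (f := 𝓝 z₀) (g := 𝓝[>] (0:ℝ))).eventually this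
lemma lf_bdd (z₀ : ℂ) : ∀ᶠ p : ℂ × ℝ in lf z₀, ‖p.1‖ ≤ ‖z₀‖ + 1 := by
  have h : ∀ᶠ z : ℂ in 𝓝 z₀, ‖z‖ < ‖z₀‖ + 1 := continuous_norm.continuousAt.eventually (gt_mem_nhds (by linarith))
  exact ((lf_fst z₀).eventually h).mono fun p hp => hp.le

lemma FC_tendsto (z₀ : ℂ) {p : ℕ} (hp : p.Prime) :
    Tendsto (fun q : ℂ × ℝ => FC q.1 (xp p q.2)) (lf z₀) (𝓝 (FC z₀ (1 / p))) := by
  unfold FC
  refine tendsto_tsum_of_dominated_convergence (bound := fun m => lc (‖z₀‖ + 1) m ^ 2 * (1 / 2 : ℝ) ^ m)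
    (sq_sum (by positivity) (by norm_num) (by norm_num)) (fun m => ?_) ?_
  · have h1 := ((lcC_cont m).tendsto z₀).comp (lf_fst z₀)
    have h2 := ((xp_cont hp).tendsto 0).comp (lf_snd z₀)
    rw [xp_zero] at h2
    have h3 := (Complex.continuous_ofReal.tendsto _).comp h2
    exact (h1.pow 2).mul (h3.pow m)
  · filter_upwards [lf_pos z₀, lf_bdd z₀] with q hq hb m
    exact FC_term hb (xp_pos hp _).le ((xp_le hp hq.le).trans (inv_half hp)) m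

lemma GC_tendsto (z₀ : ℂ) {p : ℕ} (hp : p.Prime) :
    Tendsto (fun q : ℂ × ℝ => GC q.1 (xp p q.2)) (lf z₀) (𝓝 (GC z₀ (1 / p))) := by
  unfold GC
  refine Tendsto.mul ?_ (FC_tendsto z₀ hp)
  have h2 := ((xp_cont hp).tendsto 0).comp (lf_snd z₀)
  rw [xp_zero] at h2
  have h3 := (Complex.continuous_ofReal.tendsto _).comp (h2.const_sub 1)
  refine h3.cpow ((lf_fst z₀).pow 2) ?_
  rw [Complex.mem_slitPlane_iff]
  left
  have := inv_half hp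
  rw [Complex.ofReal_re]
  linarith

lemma tprod_tendsto (z₀ : ℂ) :
    Tendsto (fun q : ℂ × ℝ => ∏' p : Nat.Primes, GC q.1 (xp p q.2)) (lf z₀) (𝓝 (aFC z₀)) := by
  have h := tendsto_tprod_one_add_of_dominated_convergence (𝓕 := lf z₀)
    (f := fun (q : ℂ × ℝ) (p : Nat.Primes) => GC q.1 (xp p q.2) - 1)
    (g := fun p : Nat.Primes => GC z₀ (1 / ((p:ℕ):ℝ)) - 1)
    (bound := fun p : Nat.Primes => CG (‖z₀‖ + 1) * (1 / ((p:ℕ):ℝ)) ^ 2)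
    (primes_summable.mul_left _) (fun p => (GC_tendsto z₀ p.2).sub_const 1) ?_
  · simp only [add_sub_cancel] at h
    exact h
  · filter_upwards [lf_pos z₀, lf_bdd z₀] with q hq hb p
    have h1 := xp_le p.2 hq.le
    refine (GC_bound (by positivity) hb (xp_pos p.2 _).le (h1.trans (inv_half p.2))).trans ?_
    have h2 := CG_nonneg (‖z₀‖ + 1)
    have h3 := (xp_pos p.2 q.2).le
    gcongr

lemma Zr_lim : Tendsto (fun δ : ℝ => 2 * δ * Zr (2 * δ)) (𝓝[>] 0) (𝓝 1) := by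
  have h := (Zr_tendsto (s := 2) (by norm_num)).comp (tendsto_inv_nhdsGT_zero (𝕜 := ℝ))
  have h2 := h.const_mul 2
  rw [mul_inv_cancel₀ (by norm_num : (2:ℝ) ≠ 0)] at h2
  refine h2.congr' ?_
  filter_upwards [self_mem_nhdsWithin] with δ hδ
  simp only [Function.comp]
  rw [div_inv_eq_mul, div_inv_eq_mul]
  ring

/-- **The joint limit.** -/
theorem hh_tendsto (z₀ : ℂ) : Tendsto (fun q : ℂ × ℝ => hh q.1 q.2) (lf z₀) (𝓝 (aFC z₀)) := by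
  have h1 : Tendsto (fun q : ℂ × ℝ => (((2 * q.2 * Zr (2 * q.2) : ℝ)) : ℂ) ^ (q.1 ^ 2)) (lf z₀) (𝓝 1) := by
    have h2 : Tendsto (fun q : ℂ × ℝ => 2 * q.2 * Zr (2 * q.2)) (lf z₀) (𝓝 1) :=
      Zr_lim.comp (tendsto_snd (f := 𝓝 z₀) (g := 𝓝[>] (0:ℝ)))
    have h3 := (Complex.continuous_ofReal.tendsto _).comp h2
    have h4 := h3.cpow ((lf_fst z₀).pow 2) (by
      rw [Complex.mem_slitPlane_iff]; left; simp)
    rw [Complex.ofReal_one, Complex.one_cpow] at h4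
    exact h4
  have h5 := h1.mul (tprod_tendsto z₀)
  rw [one_mul] at h5
  refine h5.congr' ?_
  filter_upwards [lf_pos z₀] with q hq
  have hZ : 0 < Zr (2 * q.2) := Zr_pos (by linarith)
  rw [(GC_hasProd q.1 hq).tprod_eq]
  unfold hh
  rw [Complex.ofReal_mul (2 * q.2), Complex.mul_cpow_ofReal_nonneg (by linarith) hZ.le]
  have e1 : (((Zr (2 * q.2)) : ℝ) : ℂ) ^ (q.1 ^ 2) * ((((Zr (2 * q.2))⁻¹ : ℝ) : ℂ) ^ (q.1 ^ 2)) = 1 := by
    rw [← Complex.mul_cpow_ofReal_nonneg hZ.le (inv_pos.mpr hZ).le, ← Complex.ofReal_mul, mul_inv_cancel₀ hZ.ne',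
      Complex.ofReal_one, Complex.one_cpow]
  calc _ = ((2 * q.2 : ℝ) : ℂ) ^ (q.1 ^ 2) * ((((Zr (2 * q.2)) : ℝ) : ℂ) ^ (q.1 ^ 2) *
        ((((Zr (2 * q.2))⁻¹ : ℝ) : ℂ) ^ (q.1 ^ 2))) * SSC q.1 q.2 := by ring
    _ = _ := by rw [e1, mul_one]

/-- local boundedness -/
theorem hh_bdd (R : ℝ) : ∃ C δ0 : ℝ, 0 < C ∧ 0 < δ0 ∧ ∀ z : ℂ, ‖z‖ ≤ R → ∀ δ : ℝ, 0 < δ → δ < δ0 → ‖hh z δ‖ ≤ C := by
  have hK : IsCompact (Metric.closedBall (0:ℂ) R) := isCompact_closedBall _ _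
  suffices H : ∃ C δ0 : ℝ, 0 < C ∧ 0 < δ0 ∧ ∀ z ∈ Metric.closedBall (0:ℂ) R, ∀ δ : ℝ, 0 < δ → δ < δ0 → ‖hh z δ‖ ≤ C by
    obtain ⟨C, δ0, h1, h2, h3⟩ := H
    exact ⟨C, δ0, h1, h2, fun z hz => h3 z (by rw [Metric.mem_closedBall, dist_zero_right]; exact hz)⟩
  refine hK.induction_on (p := fun S => ∃ C δ0 : ℝ, 0 < C ∧ 0 < δ0 ∧ ∀ z ∈ S, ∀ δ : ℝ, 0 < δ → δ < δ0 → ‖hh z δ‖ ≤ C) ?_ ?_ ?_ ?_
  · exact ⟨1, 1, one_pos, one_pos, fun z hz => absurd hz (Set.notMem_empty z)⟩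
  · rintro S S' hS ⟨C, δ0, h1, h2, h3⟩
    exact ⟨C, δ0, h1, h2, fun z hz => h3 z (hS hz)⟩
  · rintro S S' ⟨C, δ0, h1, h2, h3⟩ ⟨C', δ0', h1', h2', h3'⟩
    refine ⟨max C C', min δ0 δ0', lt_max_of_lt_left h1, lt_min h2 h2', ?_⟩
    rintro z (hz | hz) δ hδ hδ2
    · exact (h3 z hz δ hδ (lt_of_lt_of_le hδ2 (min_le_left _ _))).trans (le_max_left _ _)
    · exact (h3' z hz δ hδ (lt_of_lt_of_le hδ2 (min_le_right _ _))).trans (le_max_right _ _)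
  · intro z₀ _
    have h1 := (hh_tendsto z₀).norm.eventually (gt_mem_nhds (lt_add_one ‖aFC z₀‖))
    rw [eventually_prod_iff] at h1
    obtain ⟨pa, ha, pb, hb, h⟩ := h1
    rw [eventually_nhdsWithin_iff, Metric.eventually_nhds_iff] at hb
    obtain ⟨ε, hε, hb⟩ := hb
    refine ⟨{z | pa z}, nhdsWithin_le_nhds ha, ‖aFC z₀‖ + 1, ε, by positivity, hε, fun z hz δ hδ hδ2 => ?_⟩
    exact (h hz (hb (by rw [Real.dist_eq, sub_zero, abs_of_pos hδ]; exact hδ2) hδ)).le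

lemma SSC_diff {δ : ℝ} (hδ : 0 < δ) : Differentiable ℂ fun z => SSC z δ := by
  intro z₀
  obtain ⟨K, hK⟩ := exists_nat_ge (‖z₀‖ + 1)
  have h : DifferentiableOn ℂ (fun z => SSC z δ) (Metric.ball z₀ 1) := by
    unfold SSC
    refine Complex.differentiableOn_tsum_of_summable_norm (SS_summable (K:ℝ) hδ) (fun n => ?_) Metric.isOpen_ball fun n z hz => ?_
    · exact (((dvC_diff n).pow 2).mul_const _).differentiableOn
    · refine SSC_term ?_ δ n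
      rw [Metric.mem_ball, dist_eq_norm] at hz
      have := norm_sub_norm_le z z₀
      linarith
  exact (h z₀ (Metric.mem_ball_self one_pos)).differentiableAt (Metric.isOpen_ball.mem_nhds (Metric.mem_ball_self one_pos))

lemma SSC_ofReal (α δ : ℝ) : SSC α δ = ((SS α δ : ℝ) : ℂ) := by
  unfold SSC SS
  rw [Complex.ofReal_tsum]
  refine tsum_congr fun n => ?_
  rw [dvC_ofReal]
  push_cast
  rfl

end

end Pool.Agent.X110.LT
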