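import Mathlib

set_option autoImplicit false

/-! Small values on an equidistant set of many real points and small values nearby, for entire functions. -/

namespace Pool.Agent.X110.ND

open Finset Complex

/-- division by a product of linear factors -/
lemma exists_div {g : ℂ → ℂ} (hg : Differentiable ℂ g) (s : Finset ℂ) (h0 : ∀ x ∈ s, g x = 0) :
    ∃ h : ℂ → ℂ, Differentiable ℂ h ∧ ∀ z, g z = (∏ x ∈ s, (z - x)) * h z := by
  classical
  induction s using Finset.induction_on generalizing g with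
  | empty => exact ⟨g, hg, fun z => by simp⟩
  | insert a s ha ih =>
    have hd : Differentiable ℂ (dslope g a) := by
      rw [← differentiableOn_univ] at hg ⊢
      exact (differentiableOn_dslope (Filter.univ_mem)).mpr hg
    have hga : g a = 0 := h0 a (mem_insert_self a s)
    have e1 : ∀ z, g z = (z - a) * dslope g a z := by
      intro z
      have := sub_smul_dslope g a z
      rw [hga, sub_zero, smul_eq_mul] at this
      exact this.symm
    obtain ⟨h, hh, he⟩ := ih (g := dslope g a) hd (by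
      intro x hx
      have hxa : x ≠ a := fun h => ha (h ▸ hx)
      have h1 := h0 x (mem_insert_of_mem hx)
      rw [e1 x] at h1
      exact (mul_eq_zero.mp h1).resolve_left (sub_ne_zero.mpr hxa))
    refine ⟨h, hh, fun z => ?_⟩
    rw [e1 z, he z, prod_insert ha]
    ring

/-- the nodes `j/m`, `j = 0, …, m` -/
noncomputable def node (m j : ℕ) : ℝ := (j : ℝ) / m

lemma node_inj {m : ℕ} (hm : 0 < m) : Function.Injective (fun j : ℕ => ((node m j : ℝ) : ℂ)) := by
  intro i j h
  have h1 : node m i = node m j := Complex.ofReal_injective h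
  unfold node at h1
  have hm' : (m:ℝ) ≠ 0 := by positivity
  field_simp at h1
  exact_mod_cast h1

/-- the denominators of the Lagrange basis -/
lemma basis_den {m i : ℕ} (hm : 0 < m) (hi : i ≤ m) :
    ((1:ℝ) / (2 * Real.exp 1)) ^ m ≤ ∏ j ∈ (range (m + 1)).erase i, |node m i - node m j| := by
  have hm' : (0:ℝ) < m := by exact_mod_cast hm
  -- the product is `i! (m-i)! / m^m`
  have e1 : ∏ j ∈ (range (m + 1)).erase i, |node m i - node m j| =
      ((i.factorial * (m - i).factorial : ℕ) : ℝ) / (m:ℝ) ^ m := by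
    have h1 : ∀ j ∈ (range (m + 1)).erase i, |node m i - node m j| = |(i:ℝ) - j| / m := by
      intro j _
      unfold node
      rw [← sub_div, abs_div, abs_of_pos hm']
    rw [prod_congr rfl h1, prod_div_distrib, prod_const, card_erase_of_mem (mem_range.mpr (by omega)), card_range,
      Nat.add_sub_cancel]
    congr 1
    have h2 : (range (m + 1)).erase i = range i ∪ Ico (i + 1) (m + 1) := by
      ext j
      simp only [mem_erase, mem_range, mem_union, mem_Ico]
      omega
    rw [h2, prod_union (by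
      rw [disjoint_left]
      intro j hj
      simp only [mem_range, mem_Ico] at hj ⊢
      omega)]
    push_cast
    congr 1
    · rw [← prod_range_add_one_eq_factorial, ← prod_range_reflect]
      push_cast
      refine prod_congr rfl fun j hj => ?_
      rw [mem_range] at hj
      have : ((i - 1 - j : ℕ) : ℝ) = (i:ℝ) - 1 - j := by
        rw [Nat.cast_sub (by omega), Nat.cast_sub (by omega)]; push_cast; ring
      rw [this]
      rw [abs_of_pos (by
        have : (j:ℝ) + 1 ≤ i := by exact_mod_cast hj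
        linarith)]
      ring
    · rw [prod_Ico_eq_prod_range, ← prod_range_add_one_eq_factorial]
      push_cast
      have e3 : m + 1 - (i + 1) = m - i := by omega
      try rw [e3]
      refine prod_congr rfl fun j _ => ?_
      have e4 : (i:ℝ) - (i + 1 + j) = -((j:ℝ) + 1) := by ring
      rw [e4, abs_neg, abs_of_pos (by positivity)]
  rw [e1]
  -- `i! (m-i)! ≥ m!/2^m`, `m! ≥ (m/e)^m`
  have h1 : (m.factorial : ℝ) ≤ 2 ^ m * ((i.factorial * (m - i).factorial : ℕ) : ℝ) := by
    have h2 := Nat.choose_mul_factorial_mul_factorial hi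
    have h3 : m.choose i ≤ 2 ^ m := Nat.choose_le_two_pow m i
    have h4 : m.factorial ≤ 2 ^ m * (i.factorial * (m - i).factorial) := by
      calc m.factorial = m.choose i * (i.factorial * (m - i).factorial) := by rw [← h2]; ring
        _ ≤ _ := Nat.mul_le_mul_right _ h3
    exact_mod_cast h4
  have h2 : ((m:ℝ) / Real.exp 1) ^ m ≤ m.factorial := by
    have h3 : (m:ℝ) ^ m / m.factorial ≤ Real.exp m := by
      exact Real.pow_div_factorial_le_exp (m:ℝ) hm'.le m
    rw [div_pow, ← Real.exp_nat_mul, mul_one, div_le_iff₀ (Real.exp_pos _)]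
    rw [div_le_iff₀ (by positivity)] at h3
    linarith
  have e4 : ((1:ℝ) / (2 * Real.exp 1)) ^ m = ((m:ℝ) / Real.exp 1) ^ m / (2 ^ m * (m:ℝ) ^ m) := by
    rw [div_pow, div_pow, mul_pow, one_pow]
    field_simp
  rw [e4]
  calc ((m:ℝ) / Real.exp 1) ^ m / (2 ^ m * (m:ℝ) ^ m) ≤
      2 ^ m * ((i.factorial * (m - i).factorial : ℕ) : ℝ) / (2 ^ m * (m:ℝ) ^ m) := by
        gcongr
        exact h2.trans h1
    _ = _ := by field_simp

/-- **Interpolation.** If `f` is at most `M` in the disc of radius `ρ` and at most `η` at the points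
`0, 1/m, …, 1`, then it is small in the disc of radius `r`. -/
theorem interp {f : ℂ → ℂ} (hf : Differentiable ℂ f) {m : ℕ} (hm : 0 < m) {M η ρ r : ℝ} (hr : 0 ≤ r) (hρ : 1 + Real.exp 1 * (r + 1) ≤ ρ)
    (hM : ∀ z : ℂ, ‖z‖ ≤ ρ → ‖f z‖ ≤ M) (hη : ∀ j ≤ m, ‖f (node m j : ℝ)‖ ≤ η) {z : ℂ} (hz : ‖z‖ ≤ r) :
    ‖f z‖ ≤ (M + 2 * ((m + 1) * (2 * Real.exp 1 * (ρ + 1)) ^ m * η)) * Real.exp (-(m + 1 : ℕ)) +
      (m + 1) * (2 * Real.exp 1 * (ρ + 1)) ^ m * η := by
  classical
  have he1 : 1 ≤ Real.exp 1 := Real.one_le_exp (by norm_num)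
  have hρ1 : 1 < ρ := by nlinarith
  have hη0 : 0 ≤ η := (norm_nonneg _).trans (hη 0 (Nat.zero_le _))
  set s : Finset ℕ := range (m + 1) with hs
  set v : ℕ → ℂ := fun j => ((node m j : ℝ) : ℂ) with hv
  have hvinj : Set.InjOn v s := (node_inj hm).injOn
  set p : Polynomial ℂ := Lagrange.interpolate s v (fun j => f (v j)) with hp
  have hpe : ∀ j ∈ s, p.eval (v j) = f (v j) := fun j hj => Lagrange.eval_interpolate_at_node _ hvinj hj
  set P : ℝ := (m + 1) * (2 * Real.exp 1 * (ρ + 1)) ^ m * η with hP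
  have hP0 : 0 ≤ P := by rw [hP]; positivity
  have hnode : ∀ j ∈ s, ‖v j‖ ≤ 1 := by
    intro j hj
    rw [hs, mem_range] at hj
    rw [hv]
    simp only [norm_real]
    unfold node
    rw [Real.norm_of_nonneg (by positivity), div_le_one (by positivity)]
    exact_mod_cast (by omega : j ≤ m)
  -- the size of the polynomial
  have hpb : ∀ w : ℂ, ‖w‖ ≤ ρ → ‖p.eval w‖ ≤ P := by
    intro w hw
    rw [hp, Lagrange.interpolate_apply, Polynomial.eval_finsetSum]
    refine (norm_sum_le _ _).trans ?_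
    have h1 : ∀ i ∈ s, ‖(Polynomial.C (f (v i)) * Lagrange.basis s v i).eval w‖ ≤
        (2 * Real.exp 1 * (ρ + 1)) ^ m * η := by
      intro i hi
      have hi' : i ≤ m := by rw [hs, mem_range] at hi; omega
      rw [Polynomial.eval_mul, Polynomial.eval_C, norm_mul]
      have h2 : ‖(Lagrange.basis s v i).eval w‖ ≤ (2 * Real.exp 1 * (ρ + 1)) ^ m := by
        have h3 : (Lagrange.basis s v i).eval w = ∏ j ∈ s.erase i, ((w - v j) / (v i - v j)) := by
          unfold Lagrange.basis
          rw [Polynomial.eval_prod]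
          refine prod_congr rfl fun j _ => ?_
          unfold Lagrange.basisDivisor
          simp only [Polynomial.eval_mul, Polynomial.eval_C, Polynomial.eval_sub, Polynomial.eval_X]
          rw [div_eq_inv_mul]
        rw [h3, norm_prod]
        simp_rw [norm_div]
        rw [prod_div_distrib]
        have h4 : ∏ j ∈ s.erase i, ‖w - v j‖ ≤ (ρ + 1) ^ m := by
          have h5 : ∀ j ∈ s.erase i, ‖w - v j‖ ≤ ρ + 1 := by
            intro j hj
            exact (norm_sub_le _ _).trans (add_le_add hw (hnode j (mem_of_mem_erase hj)))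
          refine (prod_le_prod (fun j _ => norm_nonneg _) h5).trans ?_
          rw [prod_const, card_erase_of_mem hi, hs, card_range, Nat.add_sub_cancel]
        have h6 : ((1:ℝ) / (2 * Real.exp 1)) ^ m ≤ ∏ j ∈ s.erase i, ‖v i - v j‖ := by
          have h7 := basis_den hm hi'
          refine h7.trans (le_of_eq (prod_congr rfl fun j _ => ?_))
          rw [hv]
          simp only
          rw [← ofReal_sub, norm_real, Real.norm_eq_abs]
        have h8 : (0:ℝ) < ((1:ℝ) / (2 * Real.exp 1)) ^ m := by positivity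
        calc (∏ j ∈ s.erase i, ‖w - v j‖) / ∏ j ∈ s.erase i, ‖v i - v j‖ ≤
            (ρ + 1) ^ m / ((1:ℝ) / (2 * Real.exp 1)) ^ m := by gcongr
          _ = _ := by
            rw [one_div, inv_pow, div_inv_eq_mul, ← mul_pow, mul_comm]
      have h9 : ‖f (v i)‖ ≤ η := hη i hi'
      calc ‖f (v i)‖ * ‖(Lagrange.basis s v i).eval w‖ ≤ η * (2 * Real.exp 1 * (ρ + 1)) ^ m := by gcongr
        _ = _ := by ring
    refine (sum_le_sum h1).trans (le_of_eq ?_)
    rw [sum_const, hs, card_range, nsmul_eq_mul, hP]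
    push_cast; ring
  -- the remainder
  have hgd : Differentiable ℂ (fun w => f w - p.eval w) := hf.sub p.differentiable
  obtain ⟨h, hh, hdiv⟩ := exists_div hgd (s.image v) (by
    intro x hx
    rw [mem_image] at hx
    obtain ⟨j, hj, rfl⟩ := hx
    rw [hpe j hj, sub_self])
  have hprod : ∀ w : ℂ, ∏ x ∈ s.image v, (w - x) = ∏ j ∈ s, (w - v j) := by
    intro w
    rw [prod_image (fun a ha b hb hab => hvinj ha hb hab)]
  have hcard : #s = m + 1 := by rw [hs, card_range]
  have hhb : ∀ w ∈ Metric.sphere (0:ℂ) ρ, ‖h w‖ ≤ (M + P) / (ρ - 1) ^ (m + 1) := by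
    intro w hw
    rw [mem_sphere_zero_iff_norm] at hw
    have h1 := hdiv w
    rw [hprod] at h1
    have h2 : (ρ - 1) ^ (m + 1) ≤ ‖∏ j ∈ s, (w - v j)‖ := by
      rw [norm_prod, ← hcard, ← prod_const]
      refine prod_le_prod (fun j _ => by linarith) fun j hj => ?_
      have h3 := norm_sub_norm_le w (v j)
      have h4 := hnode j hj
      linarith
    have h5 : ‖f w - p.eval w‖ ≤ M + P := (norm_sub_le _ _).trans (add_le_add (hM w hw.le) (hpb w hw.le))
    rw [h1, norm_mul] at h5
    rw [le_div_iff₀ (by have : 0 < ρ - 1 := by linarith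
                        positivity)]
    calc ‖h w‖ * (ρ - 1) ^ (m + 1) ≤ ‖h w‖ * ‖∏ j ∈ s, (w - v j)‖ := by gcongr
      _ = ‖∏ j ∈ s, (w - v j)‖ * ‖h w‖ := mul_comm _ _
      _ ≤ _ := h5
  have hrρ : r ≤ ρ := by nlinarith
  have hhz : ‖h z‖ ≤ (M + P) / (ρ - 1) ^ (m + 1) := by
    have h1 : z ∈ closure (Metric.ball (0:ℂ) ρ) := by
      rw [closure_ball _ (by linarith : ρ ≠ 0)]
      rw [mem_closedBall_zero_iff]
      linarith
    refine Complex.norm_le_of_forall_mem_frontier_norm_le Metric.isBounded_ball hh.diffContOnCl ?_ h1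
    intro w hw
    rw [frontier_ball _ (by linarith : ρ ≠ 0)] at hw
    exact hhb w hw
  have hMP0 : 0 ≤ M + P := by
    have := (norm_nonneg _).trans (hM 0 (by rw [norm_zero]; linarith))
    linarith
  have hz2 : ‖∏ j ∈ s, (z - v j)‖ ≤ (r + 1) ^ (m + 1) := by
    rw [norm_prod, ← hcard, ← prod_const]
    refine prod_le_prod (fun j _ => norm_nonneg _) fun j hj => ?_
    exact (norm_sub_le _ _).trans (add_le_add hz (hnode j hj))
  have hfin : ‖f z - p.eval z‖ ≤ (M + P) * Real.exp (-(m + 1 : ℕ)) := by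
    have h1 := hdiv z
    rw [h1, hprod, norm_mul]
    calc ‖∏ j ∈ s, (z - v j)‖ * ‖h z‖ ≤ (r + 1) ^ (m + 1) * ((M + P) / (ρ - 1) ^ (m + 1)) := by gcongr
      _ = (M + P) * ((r + 1) / (ρ - 1)) ^ (m + 1) := by rw [div_pow]; ring
      _ ≤ (M + P) * (Real.exp (-1)) ^ (m + 1) := by
          have h2 : (r + 1) / (ρ - 1) ≤ Real.exp (-1) := by
            rw [div_le_iff₀ (by linarith), Real.exp_neg]
            rw [← div_eq_inv_mul, le_div_iff₀ (by positivity)]
            linarith
          have h3 : 0 ≤ (r + 1) / (ρ - 1) := div_nonneg (by linarith) (by linarith)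
          exact mul_le_mul_of_nonneg_left (pow_le_pow_left₀ h3 h2 _) hMP0
      _ = _ := by rw [← Real.exp_nat_mul]; congr 2; push_cast; ring
  calc ‖f z‖ = ‖(f z - p.eval z) + p.eval z‖ := by rw [sub_add_cancel]
    _ ≤ ‖f z - p.eval z‖ + ‖p.eval z‖ := norm_add_le _ _
    _ ≤ (M + P) * Real.exp (-(m + 1 : ℕ)) + P := add_le_add hfin (hpb z (hz.trans hrρ))
    _ ≤ (M + 2 * P) * Real.exp (-(m + 1 : ℕ)) + P := by gcongr; linarith

end Pool.Agent.X110.ND
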