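import Pool.Agent.X110.ND1

set_option autoImplicit false

/-! Moments of all real orders over the set where zeta is neither large nor small. -/

namespace Pool.Agent.X110.ND

open Finset MeasureTheory Filter Topology
open Pool.Agent.H306R2 Pool.Agent.Y746.OA

noncomputable section

/-- the points at which zeta is neither large nor small -/
def gset (V δ T : ℝ) : Set ℝ := {t | t ∈ Set.Ioc 0 T ∧ V⁻¹ < ‖riemannZeta (sp δ t)‖ ∧ ‖riemannZeta (sp δ t)‖ < V}

lemma SS_le {k : ℕ} {α δ L : ℝ} (hα : |α| ≤ k) (hδ : 0 < δ) (hδ1 : δ ≤ 1) (hL : 1 ≤ L) (h2 : 2 / δ ≤ L) :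
    SS α δ ≤ 2 * L ^ (k ^ 2) := by
  have h := SS_tail hα hδ hδ1 (le_refl 1)
  rw [Icc_self, sum_singleton, dv_one, Nat.cast_one, Real.one_rpow, Real.one_rpow] at h
  have h3 : (2 / δ) ^ (k ^ 2) ≤ L ^ (k ^ 2) := pow_le_pow_left₀ (by positivity) h2 _
  have h4 : 1 ≤ L ^ (k ^ 2) := one_le_pow₀ hL
  linarith

lemma gset_meas (V δ T : ℝ) (hδ : δ ≤ 1 / 16) : MeasurableSet (gset V δ T) := by
  have hc := (zeta_sp_cont hδ).norm.measurable
  exact measurableSet_Ioc.inter ((measurableSet_lt measurable_const hc).inter (measurableSet_lt hc measurable_const))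

/-- the moments over the good set -/
theorem trunc_set (K : ℝ) : ∃ c : ℝ, 0 < c ∧ ∀ B : ℝ, ∃ (A C T0 : ℝ), 0 < C ∧
    ∀ T : ℝ, T0 ≤ T → ∀ δ : ℝ, C * Real.log (Real.log T) / Real.log T ≤ δ → δ ≤ 1 / 16 →
    ∀ V : ℝ, Real.log T ^ A ≤ V → V ≤ T ^ (c * δ) →
    (volume (Set.Ioc 0 T \ gset V δ T)).toReal ≤ T * Real.log T ^ (-B) ∧ ∀ α : ℝ, |α| ≤ K →
    |1 / T * (∫ t in gset V δ T, ‖riemannZeta (sp δ t)‖ ^ (2 * α)) - SS α δ| ≤ Real.log T ^ (-B) := by
  obtain ⟨k0, hk0⟩ := exists_nat_ge |K|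
  set k : ℕ := k0 + 1 with hk
  obtain ⟨c, hc, H⟩ := trunc_real k
  refine ⟨c, hc, fun B => ?_⟩
  obtain ⟨B', hB'⟩ := exists_nat_ge B
  obtain ⟨A, C, T0, hC, H2⟩ := H (B' + 1)
  refine ⟨((max A (k ^ 2 + B' + 2) : ℕ) : ℝ), C, T0, hC, fun T hT δ hδ hδ1 V hV1 hV2 => ?_⟩
  obtain ⟨hT4, hL24, hδ0, h2δ, H3⟩ := H2 T hT δ hδ hδ1
  set L := Real.log T with hL
  have hL0 : 0 < L := by linarith
  have hL1 : 1 ≤ L := by linarith
  have hT0 : 0 < T := by linarith
  rw [Real.rpow_natCast] at hV1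
  have hV1A : L ^ A ≤ V := (pow_le_pow_right₀ hL1 (le_max_left _ _)).trans hV1
  have hV1B : L ^ (k ^ 2 + B' + 2) ≤ V := (pow_le_pow_right₀ hL1 (le_max_right _ _)).trans hV1
  have hV : 1 ≤ V := (one_le_pow₀ hL1).trans hV1B
  have hVp : 0 < V := by linarith
  have H4 := H3 V hV1A hV2
  have hpow : 1 / L ^ B' ≤ L ^ (-B) := by
    rw [Real.rpow_neg hL0.le, one_div]
    refine inv_anti₀ (Real.rpow_pos_of_pos hL0 _) ?_
    rw [← Real.rpow_natCast]
    exact Real.rpow_le_rpow_of_exponent_le hL1 hB'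
  have hS : ∀ β : ℝ, |β| ≤ k → SS β δ ≤ 2 * L ^ (k ^ 2) := fun β hβ => SS_le hβ hδ0 (by linarith) hL1 h2δ
  set Z : ℝ → ℝ := fun t => ‖riemannZeta (sp δ t)‖ with hZ
  have hZc : Continuous Z := (zeta_sp_cont hδ1).norm
  have hcc : ∀ β : ℝ, Continuous fun t => clip V (Z t) ^ (2 * β) := fun β => clip_cont hV hδ1
  have hpos : ∀ t, 0 < clip V (Z t) := fun t => clip_pos hV
  have hI : ∀ β : ℝ, |β| ≤ k → ∫ t in Set.Ioc 0 T, clip V (Z t) ^ (2 * β) ≤ T * (3 * L ^ (k ^ 2)) := by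
    intro β hβ
    have h1 := H4 β hβ
    rw [intervalIntegral.integral_of_le hT0.le] at h1
    have h2 := (abs_le.mp h1).2
    have h3 := hS β hβ
    have h4 : T / L ^ (B' + 1) ≤ T * L ^ (k ^ 2) := by
      rw [div_le_iff₀ (by positivity)]
      have : 1 ≤ L ^ (k ^ 2) * L ^ (B' + 1) := by
        have a1 := one_le_pow₀ hL1 (n := k ^ 2)
        have a2 := one_le_pow₀ hL1 (n := B' + 1)
        nlinarith
      calc T = T * 1 := (mul_one T).symm
        _ ≤ T * (L ^ (k ^ 2) * L ^ (B' + 1)) := by gcongr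
        _ = _ := by ring
    have h5 : T * SS β δ ≤ T * (2 * L ^ (k ^ 2)) := by gcongr
    linarith
  have hint : ∀ β : ℝ, IntegrableOn (fun t => clip V (Z t) ^ (2 * β)) (Set.Ioc 0 T) := fun β =>
    ((hcc β).integrableOn_Icc (a := 0) (b := T)).mono_set Set.Ioc_subset_Icc_self
  have hgm := gset_meas V δ T hδ1
  have hgsub : gset V δ T ⊆ Set.Ioc 0 T := fun t ht => ht.1
  have hcm : MeasurableSet (Set.Ioc 0 T \ gset V δ T) := measurableSet_Ioc.diff hgm
  -- the complement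
  have hcomp : ∀ β : ℝ, |β| + 1 ≤ k → ∫ t in Set.Ioc 0 T \ gset V δ T, clip V (Z t) ^ (2 * β) ≤
      T * (6 * L ^ (k ^ 2)) * (V ^ 2)⁻¹ := by
    intro β hβ
    have h1 : ∀ t ∈ Set.Ioc 0 T \ gset V δ T, clip V (Z t) ^ (2 * β) ≤
        (V ^ 2)⁻¹ * (clip V (Z t) ^ (2 * (β + 1)) + clip V (Z t) ^ (2 * (β - 1))) := by
      intro t ht
      have hp1 : 0 < clip V (Z t) ^ (2 * (β + 1)) := Real.rpow_pos_of_pos (hpos t) _
      have hp2 : 0 < clip V (Z t) ^ (2 * (β - 1)) := Real.rpow_pos_of_pos (hpos t) _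
      have hor : V ≤ Z t ∨ Z t ≤ V⁻¹ := by
        by_contra hcon
        push Not at hcon
        exact ht.2 ⟨ht.1, hcon.2, hcon.1⟩
      have hVV : V⁻¹ ≤ V := (inv_le_one_of_one_le₀ hV).trans hV
      rcases hor with h | h
      · have e1 : clip V (Z t) = V := by
          unfold clip
          rw [min_eq_right h, max_eq_right hVV]
        have e2 : clip V (Z t) ^ (2 * β) = (V ^ 2)⁻¹ * clip V (Z t) ^ (2 * (β + 1)) := by
          rw [e1, show 2 * (β + 1) = 2 * β + 2 by ring, Real.rpow_add hVp, Real.rpow_two]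
          field_simp
        rw [e2]
        gcongr
        linarith
      · have e1 : clip V (Z t) = V⁻¹ := by
          unfold clip
          rw [max_eq_left]
          exact (min_le_left _ _).trans h
        have e2 : clip V (Z t) ^ (2 * β) = (V ^ 2)⁻¹ * clip V (Z t) ^ (2 * (β - 1)) := by
          rw [e1, show 2 * (β - 1) = 2 * β - 2 by ring, Real.rpow_sub (by positivity), Real.rpow_two, inv_pow]
          field_simp
        rw [e2]
        gcongr
        linarith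
    have hJ : IntegrableOn (fun t => (V ^ 2)⁻¹ * (clip V (Z t) ^ (2 * (β + 1)) + clip V (Z t) ^ (2 * (β - 1))))
        (Set.Ioc 0 T) := ((hint (β + 1)).add (hint (β - 1))).const_mul _
    have h2 : ∫ t in Set.Ioc 0 T \ gset V δ T, clip V (Z t) ^ (2 * β) ≤
        ∫ t in Set.Ioc 0 T \ gset V δ T,
          (V ^ 2)⁻¹ * (clip V (Z t) ^ (2 * (β + 1)) + clip V (Z t) ^ (2 * (β - 1))) :=
      setIntegral_mono_on ((hint β).mono_set Set.sdiff_subset) (hJ.mono_set Set.sdiff_subset) hcm h1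
    have h3 : ∫ t in Set.Ioc 0 T \ gset V δ T,
          (V ^ 2)⁻¹ * (clip V (Z t) ^ (2 * (β + 1)) + clip V (Z t) ^ (2 * (β - 1))) ≤
        ∫ t in Set.Ioc 0 T, (V ^ 2)⁻¹ * (clip V (Z t) ^ (2 * (β + 1)) + clip V (Z t) ^ (2 * (β - 1))) := by
      refine setIntegral_mono_set hJ ?_ (Set.sdiff_subset.eventuallyLE)
      refine Filter.Eventually.of_forall fun t => ?_
      have hp1 : 0 < clip V (Z t) ^ (2 * (β + 1)) := Real.rpow_pos_of_pos (hpos t) _
      have hp2 : 0 < clip V (Z t) ^ (2 * (β - 1)) := Real.rpow_pos_of_pos (hpos t) _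
      simp only [Pi.zero_apply]
      positivity
    have hJe : ∫ t in Set.Ioc 0 T, (V ^ 2)⁻¹ * (clip V (Z t) ^ (2 * (β + 1)) + clip V (Z t) ^ (2 * (β - 1))) =
        (V ^ 2)⁻¹ * ((∫ t in Set.Ioc 0 T, clip V (Z t) ^ (2 * (β + 1))) +
          ∫ t in Set.Ioc 0 T, clip V (Z t) ^ (2 * (β - 1))) := by
      rw [integral_const_mul, integral_add (hint _) (hint _)]
    rw [hJe] at h3
    have hb1 : |β + 1| ≤ k := (abs_add_le _ _).trans (by rw [abs_one]; exact hβ)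
    have hb2 : |β - 1| ≤ k := (abs_sub _ _).trans (by rw [abs_one]; exact hβ)
    have h4 := hI (β + 1) hb1
    have h5 := hI (β - 1) hb2
    calc _ ≤ _ := h2
      _ ≤ _ := h3
      _ ≤ (V ^ 2)⁻¹ * (T * (3 * L ^ (k ^ 2)) + T * (3 * L ^ (k ^ 2))) := by gcongr
      _ = _ := by ring
  have hVL : 6 * L ^ (k ^ 2) * (V ^ 2)⁻¹ ≤ 1 / L ^ (B' + 1) := by
    have h1 : L ^ (k ^ 2 + B' + 2) ≤ V ^ 2 := hV1B.trans (le_self_pow₀ hV (by norm_num))
    rw [mul_inv_le_iff₀ (by positivity), one_div, ← div_eq_inv_mul, le_div_iff₀ (by positivity)]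
    calc 6 * L ^ (k ^ 2) * L ^ (B' + 1) ≤ L * L ^ (k ^ 2) * L ^ (B' + 1) := by gcongr; linarith
      _ = L ^ (k ^ 2 + B' + 2) := by ring
      _ ≤ _ := h1
  have hk1 : (k:ℝ) = k0 + 1 := by rw [hk]; push_cast; ring
  have hk1' : (1:ℝ) ≤ k := by rw [hk1]; have : (0:ℝ) ≤ k0 := Nat.cast_nonneg _; linarith
  have hLB : 1 / L ^ (B' + 1) ≤ 1 / L ^ B' :=
    one_div_le_one_div_of_le (by positivity) (pow_le_pow_right₀ hL1 (by omega))
  have hLB2 : 2 * (1 / L ^ (B' + 1)) ≤ 1 / L ^ B' := by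
    rw [pow_succ, mul_one_div, div_le_div_iff₀ (by positivity) (by positivity)]
    have : 0 < L ^ B' := by positivity
    nlinarith
  have hcomp' : ∀ β : ℝ, |β| + 1 ≤ k → ∫ t in Set.Ioc 0 T \ gset V δ T, clip V (Z t) ^ (2 * β) ≤
      T * (1 / L ^ (B' + 1)) := by
    intro β hβ
    refine (hcomp β hβ).trans ?_
    calc T * (6 * L ^ (k ^ 2)) * (V ^ 2)⁻¹ = T * (6 * L ^ (k ^ 2) * (V ^ 2)⁻¹) := by ring
      _ ≤ _ := by gcongr
  constructor
  · have h1 := hcomp' 0 (by rw [abs_zero]; linarith)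
    simp only [mul_zero, Real.rpow_zero] at h1
    rw [setIntegral_const, smul_eq_mul, mul_one] at h1
    calc (volume (Set.Ioc 0 T \ gset V δ T)).toReal ≤ T * (1 / L ^ (B' + 1)) := h1
      _ ≤ T * L ^ (-B) := by gcongr; exact hLB.trans hpow
  · intro α hα
    have hαk : |α| + 1 ≤ k := by rw [hk1]; linarith [le_abs_self K]
    have h1 := H4 α (by linarith)
    rw [intervalIntegral.integral_of_le hT0.le] at h1
    have e1 : ∫ t in Set.Ioc 0 T, clip V (Z t) ^ (2 * α) =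
        (∫ t in gset V δ T, clip V (Z t) ^ (2 * α)) + ∫ t in Set.Ioc 0 T \ gset V δ T, clip V (Z t) ^ (2 * α) := by
      rw [← setIntegral_union Set.disjoint_sdiff_right hcm ((hint α).mono_set hgsub)
        ((hint α).mono_set Set.sdiff_subset), Set.union_diff_cancel hgsub]
    have e2 : ∫ t in gset V δ T, clip V (Z t) ^ (2 * α) = ∫ t in gset V δ T, Z t ^ (2 * α) := by
      refine setIntegral_congr_fun hgm fun t ht => ?_
      have e3 : clip V (Z t) = Z t := by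
        unfold clip
        rw [min_eq_left ht.2.2.le, max_eq_right ht.2.1.le]
      simp only [e3]
    have h2 := hcomp' α hαk
    have h3 : 0 ≤ ∫ t in Set.Ioc 0 T \ gset V δ T, clip V (Z t) ^ (2 * α) :=
      setIntegral_nonneg hcm fun t _ => (Real.rpow_pos_of_pos (hpos t) _).le
    rw [e1, e2] at h1
    obtain ⟨h4, h5⟩ := abs_le.mp h1
    have h6 : |(∫ t in gset V δ T, Z t ^ (2 * α)) - T * SS α δ| ≤ T * (2 * (1 / L ^ (B' + 1))) := by
      rw [abs_le]
      have e7 : T / L ^ (B' + 1) = T * (1 / L ^ (B' + 1)) := by ring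
      rw [e7] at h4 h5
      constructor <;> linarith
    have e8 : 1 / T * (∫ t in gset V δ T, Z t ^ (2 * α)) - SS α δ =
        1 / T * ((∫ t in gset V δ T, Z t ^ (2 * α)) - T * SS α δ) := by field_simp
    rw [e8, abs_mul, abs_of_pos (by positivity : 0 < 1 / T)]
    calc 1 / T * |(∫ t in gset V δ T, Z t ^ (2 * α)) - T * SS α δ| ≤ 1 / T * (T * (2 * (1 / L ^ (B' + 1)))) := by
          gcongr
      _ = 2 * (1 / L ^ (B' + 1)) := by field_simp
      _ ≤ _ := hLB2.trans hpow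

end

end Pool.Agent.X110.ND
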