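import Pool.Agent.X110.LT2
import Pool.Agent.X110.ND2
import Pool.Agent.X110.ND3

set_option autoImplicit false

/-! Moments of complex orders near the critical line. -/

namespace Pool.Agent.X110.LT

open Finset Filter Topology MeasureTheory ProbabilityTheory
open Pool.Agent.H306R2 Pool.Agent.Y746.OA Pool.Agent.X110.ND

noncomputable section

/-- `log |ζ|` -/
def Xf (δ t : ℝ) : ℝ := Real.log ‖riemannZeta (sp δ t)‖

/-- the moment of order `2z` over the good set -/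
def MT (V δ T : ℝ) (z : ℂ) : ℂ := (1 / (T:ℂ)) * complexMGF (Xf δ) (volume.restrict (gset V δ T)) (2 * z)

lemma Xf_meas {δ : ℝ} (hδ : δ ≤ 1 / 16) : Measurable (Xf δ) := (zeta_sp_cont hδ).norm.measurable.log

lemma gset_fin (V δ T : ℝ) : volume (gset V δ T) ≠ ⊤ := by
  refine ne_top_of_le_ne_top ?_ (measure_mono (fun t (ht : t ∈ gset V δ T) => ht.1))
  simp

lemma Xf_abs {V δ T : ℝ} (hV : 1 ≤ V) {t : ℝ} (ht : t ∈ gset V δ T) : |Xf δ t| ≤ Real.log V := by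
  have hV0 : 0 < V := by linarith
  have h1 : 0 < ‖riemannZeta (sp δ t)‖ := lt_trans (inv_pos.mpr hV0) ht.2.1
  unfold Xf
  rw [abs_le]
  constructor
  · rw [← Real.log_inv]
    exact Real.log_le_log (inv_pos.mpr hV0) ht.2.1.le
  · exact Real.log_le_log h1 ht.2.2.le

lemma exp_Xf {V δ T : ℝ} (hV : 1 ≤ V) {t : ℝ} (ht : t ∈ gset V δ T) (s : ℝ) :
    Real.exp (s * Xf δ t) = ‖riemannZeta (sp δ t)‖ ^ s := by
  have hV0 : 0 < V := by linarith
  have h1 : 0 < ‖riemannZeta (sp δ t)‖ := lt_trans (inv_pos.mpr hV0) ht.2.1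
  rw [Real.rpow_def_of_pos h1, mul_comm]
  rfl

lemma exp_int {V δ T : ℝ} (hV : 1 ≤ V) (hδ : δ ≤ 1 / 16) (s : ℝ) :
    Integrable (fun t => Real.exp (s * Xf δ t)) (volume.restrict (gset V δ T)) := by
  have hm := gset_meas V δ T hδ
  refine Measure.integrableOn_of_bounded (M := Real.exp (|s| * Real.log V)) (gset_fin V δ T) ?_ ?_
  · exact (Real.measurable_exp.comp ((Xf_meas hδ).const_mul s)).aestronglyMeasurable
  · rw [ae_restrict_iff' hm]
    refine Eventually.of_forall fun t ht => ?_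
    rw [Real.norm_of_nonneg (Real.exp_pos _).le]
    refine Real.exp_le_exp.mpr ?_
    calc s * Xf δ t ≤ |s * Xf δ t| := le_abs_self _
      _ = |s| * |Xf δ t| := abs_mul _ _
      _ ≤ _ := mul_le_mul_of_nonneg_left (Xf_abs hV ht) (abs_nonneg _)

lemma MT_diff {V δ T : ℝ} (hV : 1 ≤ V) (hδ : δ ≤ 1 / 16) : Differentiable ℂ (MT V δ T) := by
  have h1 : integrableExpSet (Xf δ) (volume.restrict (gset V δ T)) = Set.univ := by
    ext s
    simp only [Set.mem_univ, iff_true]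
    exact exp_int hV hδ s
  have h2 : Differentiable ℂ (complexMGF (Xf δ) (volume.restrict (gset V δ T))) := by
    intro z
    refine (hasDerivAt_complexMGF (z := z) ?_).differentiableAt
    rw [h1, interior_univ]
    trivial
  unfold MT
  exact (h2.comp (differentiable_id.const_mul 2)).const_mul _

lemma MT_real {V δ T : ℝ} (hV : 1 ≤ V) (hδ : δ ≤ 1 / 16) (α : ℝ) :
    MT V δ T α = ((1 / T * ∫ t in gset V δ T, ‖riemannZeta (sp δ t)‖ ^ (2 * α) : ℝ) : ℂ) := by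
  unfold MT complexMGF
  push_cast
  congr 1
  rw [← integral_complex_ofReal]
  refine setIntegral_congr_fun (gset_meas V δ T hδ) fun t ht => ?_
  rw [← exp_Xf hV ht]
  push_cast
  rfl

lemma MT_norm {V δ T : ℝ} (hV : 1 ≤ V) (hδ : δ ≤ 1 / 16) (hT : 0 < T) (z : ℂ) :
    ‖MT V δ T z‖ ≤ 1 / T * ∫ t in gset V δ T, ‖riemannZeta (sp δ t)‖ ^ (2 * z.re) := by
  unfold MT complexMGF
  rw [norm_mul, norm_div, norm_one, Complex.norm_real, Real.norm_of_nonneg hT.le]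
  refine mul_le_mul_of_nonneg_left ?_ (by positivity)
  refine (norm_integral_le_integral_norm _).trans (le_of_eq ?_)
  refine setIntegral_congr_fun (gset_meas V δ T hδ) fun t ht => ?_
  rw [← exp_Xf hV ht, Complex.norm_exp]
  congr 1
  rw [Complex.re_mul_ofReal]
  simp

lemma SSC_norm {z : ℂ} {k : ℕ} (hz : ‖z‖ ≤ k) {δ : ℝ} (hδ : 0 < δ) : ‖SSC z δ‖ ≤ SS k δ := by
  unfold SSC SS
  exact tsum_of_norm_bounded (SS_summable (k:ℝ) hδ).hasSum fun n => SSC_term hz δ n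

/-- the final estimate -/
lemma num5 {k : ℕ} {B a q L : ℝ} (hq : 1 ≤ q) (hB : 0 ≤ B) (ha : a = k ^ 2 + B + 2) (hL1 : 1 ≤ L)
    (hLc : 20 + 4 * ((a + 3) * q) ≤ L) {m : ℕ} (hm1 : a * Real.log L ≤ m) (hm2 : (m:ℝ) ≤ a * Real.log L + 1) :
    (5 * L ^ (k ^ 2) + 2 * ((m + 1) * q ^ m * L ^ (-(B + 3 + a * Real.log q)))) * Real.exp (-(m + 1 : ℕ)) +
      (m + 1) * q ^ m * L ^ (-(B + 3 + a * Real.log q)) ≤ L ^ (-B) := by
  have hL0 : 0 < L := by linarith
  have ha0 : 0 ≤ a := by rw [ha]; positivity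
  have hlq : 0 ≤ Real.log q := Real.log_nonneg hq
  have hlL : 0 ≤ Real.log L := Real.log_nonneg hL1
  have hlL2 : Real.log L ≤ L := (Real.log_le_sub_one_of_pos hL0).trans (by linarith)
  set P := (m + 1) * q ^ m * L ^ (-(B + 3 + a * Real.log q)) with hP
  have hqm : q ^ m ≤ q * L ^ (a * Real.log q) := by
    have h1 : (q:ℝ) ^ m = Real.exp (m * Real.log q) := by
      rw [mul_comm, Real.exp_mul, Real.exp_log (by linarith), Real.rpow_natCast]
    have h2 : q * L ^ (a * Real.log q) = Real.exp (Real.log q + Real.log L * (a * Real.log q)) := by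
      rw [Real.exp_add, Real.exp_log (by linarith), Real.rpow_def_of_pos hL0]
    rw [h1, h2]
    refine Real.exp_le_exp.mpr ?_
    nlinarith
  have hm3 : (m:ℝ) + 1 ≤ (a + 3) * L := by nlinarith
  have hLB : 0 < L ^ (-B) := Real.rpow_pos_of_pos hL0 _
  have hPle : P ≤ (1 / 4) * L ^ (-B) := by
    have h1 : P ≤ (a + 3) * L * (q * L ^ (a * Real.log q)) * L ^ (-(B + 3 + a * Real.log q)) := by
      rw [hP]
      gcongr
    have h2 : L ^ (a * Real.log q) * L ^ (-(B + 3 + a * Real.log q)) = L ^ (-B) * L ^ (-(3:ℝ)) := by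
      rw [← Real.rpow_add hL0, ← Real.rpow_add hL0]
      congr 1; ring
    have h3 : L ^ (-(3:ℝ)) = (L ^ 3)⁻¹ := by
      rw [Real.rpow_neg hL0.le]
      norm_cast
    calc P ≤ (a + 3) * L * (q * L ^ (a * Real.log q)) * L ^ (-(B + 3 + a * Real.log q)) := h1
      _ = (a + 3) * L * q * (L ^ (a * Real.log q) * L ^ (-(B + 3 + a * Real.log q))) := by ring
      _ = ((a + 3) * q) * (L * (L ^ 3)⁻¹) * L ^ (-B) := by rw [h2, h3]; ring
      _ ≤ (L / 4) * (L * (L ^ 3)⁻¹) * L ^ (-B) := by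
          gcongr
          linarith
      _ = (1 / 4) * (L⁻¹ * L ^ (-B)) := by field_simp
      _ ≤ (1 / 4) * (1 * L ^ (-B)) := by
          gcongr
          exact inv_le_one_of_one_le₀ hL1
      _ = _ := by ring
  have hP0 : 0 ≤ P := by rw [hP]; positivity
  have hexp : Real.exp (-(m + 1 : ℕ)) ≤ L ^ (-a) := by
    rw [Real.rpow_def_of_pos hL0]
    refine Real.exp_le_exp.mpr ?_
    push_cast
    nlinarith
  have hexp1 : Real.exp (-(m + 1 : ℕ)) ≤ 1 := Real.exp_le_one_iff.mpr (by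
    have : (0:ℝ) ≤ ((m + 1 : ℕ) : ℝ) := Nat.cast_nonneg _
    linarith)
  have hM : 5 * L ^ (k ^ 2) * Real.exp (-(m + 1 : ℕ)) ≤ (1 / 4) * L ^ (-B) := by
    calc 5 * L ^ (k ^ 2) * Real.exp (-(m + 1 : ℕ)) ≤ 5 * L ^ (k ^ 2) * L ^ (-a) := by gcongr
      _ = 5 * (L ^ (-B) * (L ^ 2)⁻¹) := by
          have h1 : L ^ (k ^ 2) * L ^ (-a) = L ^ (-B) * L ^ (-(2:ℝ)) := by
            rw [← Real.rpow_natCast, ← Real.rpow_add hL0, ← Real.rpow_add hL0, ha]
            congr 1; push_cast; ring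
          have h3 : L ^ (-(2:ℝ)) = (L ^ 2)⁻¹ := by
            rw [Real.rpow_neg hL0.le]
            norm_cast
          rw [mul_assoc, h1, h3]
      _ = (5 * (L ^ 2)⁻¹) * L ^ (-B) := by ring
      _ ≤ (1 / 4) * L ^ (-B) := by
          gcongr
          have h5 : 20 ≤ L := by
            have : 0 ≤ (a + 3) * q := by positivity
            linarith
          rw [mul_inv_le_iff₀ (by positivity)]
          nlinarith
  calc (5 * L ^ (k ^ 2) + 2 * P) * Real.exp (-(m + 1 : ℕ)) + P =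
      5 * L ^ (k ^ 2) * Real.exp (-(m + 1 : ℕ)) + 2 * (P * Real.exp (-(m + 1 : ℕ))) + P := by ring
    _ ≤ (1 / 4) * L ^ (-B) + 2 * (P * 1) + P := by gcongr
    _ ≤ L ^ (-B) := by linarith

/-- **Moments of complex orders.** -/
theorem cmoment (r : ℝ) (hr : 0 ≤ r) : ∃ c : ℝ, 0 < c ∧ ∀ B : ℝ, 0 ≤ B → ∃ (A C T0 : ℝ), 0 < C ∧
    ∀ T : ℝ, T0 ≤ T → ∀ δ : ℝ, C * Real.log (Real.log T) / Real.log T ≤ δ → δ ≤ 1 / 16 →
    1 ≤ Real.log T ∧ 0 < δ ∧ 2 / δ ≤ Real.log T ∧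
    ∀ V : ℝ, Real.log T ^ A ≤ V → V ≤ T ^ (c * δ) →
    (volume (Set.Ioc 0 T \ gset V δ T)).toReal ≤ T * Real.log T ^ (-B) ∧ ∀ z : ℂ, ‖z‖ ≤ r →
    ‖MT V δ T z - SSC z δ‖ ≤ Real.log T ^ (-B) := by
  set ρ : ℝ := 1 + Real.exp 1 * (r + 1) with hρ
  have hρ0 : 1 ≤ ρ := by rw [hρ]; have := Real.exp_pos 1; nlinarith
  set k : ℕ := ⌈ρ⌉₊ with hk
  have hkρ : ρ ≤ k := Nat.le_ceil ρ
  obtain ⟨c, hc, H⟩ := trunc_set (k:ℝ)
  obtain ⟨c', hc', H'⟩ := trunc_real 1
  refine ⟨c, hc, fun B hB => ?_⟩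
  set q : ℝ := 2 * Real.exp 1 * (ρ + 1) with hq
  have hq1 : 1 ≤ q := by
    rw [hq]
    have : 1 ≤ Real.exp 1 := Real.one_le_exp (by norm_num)
    nlinarith
  set a : ℝ := (k:ℝ) ^ 2 + B + 2 with ha
  have ha0 : 0 ≤ a := by rw [ha]; positivity
  obtain ⟨A, C, T0, hC, H2⟩ := H (B + 3 + a * Real.log q)
  obtain ⟨A', C', T0', hC', H2'⟩ := H' 0
  set Lc : ℝ := max (20 + 4 * ((a + 3) * q)) 1 with hLc
  refine ⟨max A 0, max C C', max (max T0 T0') (Real.exp Lc), lt_max_of_lt_left hC, fun T hT δ hδ hδ1 => ?_⟩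
  have hTe : Real.exp Lc ≤ T := (le_max_right _ _).trans hT
  have hT0 : 0 < T := lt_of_lt_of_le (Real.exp_pos _) hTe
  have hLL : Lc ≤ Real.log T := by rwa [Real.le_log_iff_exp_le hT0]
  set L := Real.log T with hL
  have hL1 : 1 ≤ L := (le_max_right _ _).trans hLL
  have hL0 : 0 < L := by linarith
  have hlL : 0 ≤ Real.log L := Real.log_nonneg hL1
  have hδC : C * Real.log L / L ≤ δ := le_trans (by gcongr; exact le_max_left _ _) hδ
  have hδC' : C' * Real.log L / L ≤ δ := le_trans (by gcongr; exact le_max_right _ _) hδ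
  obtain ⟨hT4, hL24, hδ0, h2δ, -⟩ := H2' T ((le_max_right _ _).trans ((le_max_left _ _).trans hT)) δ hδC' hδ1
  refine ⟨hL1, hδ0, h2δ, fun V hV1 hV2 => ?_⟩
  have hV1A : L ^ A ≤ V := (Real.rpow_le_rpow_of_exponent_le hL1 (le_max_left _ _)).trans hV1
  have hV : 1 ≤ V := by
    have h0 := Real.rpow_le_rpow_of_exponent_le hL1 (le_max_right A 0)
    rw [Real.rpow_zero] at h0
    exact h0.trans hV1
  obtain ⟨g1, g2⟩ := H2 T ((le_max_left _ _).trans ((le_max_left _ _).trans hT)) δ hδC hδ1 V hV1A hV2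
  have hlq : 0 ≤ Real.log q := Real.log_nonneg hq1
  have hsm : L ^ (-(B + 3 + a * Real.log q)) ≤ L ^ (-B) :=
    Real.rpow_le_rpow_of_exponent_le hL1 (by nlinarith)
  have hsm1 : L ^ (-(B + 3 + a * Real.log q)) ≤ 1 := by
    have := Real.rpow_le_rpow_of_exponent_le hL1 (by nlinarith : -(B + 3 + a * Real.log q) ≤ 0)
    rwa [Real.rpow_zero] at this
  refine ⟨g1.trans (by gcongr), fun z hz => ?_⟩
  have hkk : ∀ x : ℝ, |x| ≤ ρ → |x| ≤ (k:ℝ) := fun x hx => hx.trans hkρ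
  have hSS : ∀ β : ℝ, |β| ≤ (k:ℝ) → SS β δ ≤ 2 * L ^ (k ^ 2) := fun β hβ => SS_le hβ hδ0 (by linarith) hL1 h2δ
  set f : ℂ → ℂ := fun z => MT V δ T z - SSC z δ with hf
  have hfd : Differentiable ℂ f := (MT_diff hV hδ1).sub (SSC_diff hδ0)
  have hfM : ∀ w : ℂ, ‖w‖ ≤ ρ → ‖f w‖ ≤ 5 * L ^ (k ^ 2) := by
    intro w hw
    have hwre : |w.re| ≤ (k:ℝ) := hkk _ ((Complex.abs_re_le_norm w).trans hw)
    have h1 := MT_norm (V := V) (T := T) hV hδ1 hT0 w
    have h2 := (abs_le.mp (g2 w.re hwre)).2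
    have h3 := hSS _ hwre
    have h4 := SSC_norm (k := k) (hw.trans hkρ) hδ0
    have h5 := hSS k (by rw [abs_of_nonneg (Nat.cast_nonneg k)])
    have h6 : (1:ℝ) ≤ L ^ (k ^ 2) := one_le_pow₀ hL1
    have h7 := norm_sub_le (MT V δ T w) (SSC w δ)
    show ‖MT V δ T w - SSC w δ‖ ≤ _
    linarith
  set m : ℕ := ⌈a * Real.log L⌉₊ + 1 - 1 + (if ⌈a * Real.log L⌉₊ = 0 then 1 else 0) with hm
  have hmpos : 0 < m := by
    rw [hm]; split_ifs <;> omega
  have hm1 : a * Real.log L ≤ m := by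
    have h1 := Nat.le_ceil (a * Real.log L)
    have h2 : ((⌈a * Real.log L⌉₊ : ℕ) : ℝ) ≤ (m:ℝ) := by
      exact_mod_cast (by rw [hm]; split_ifs <;> omega : ⌈a * Real.log L⌉₊ ≤ m)
    linarith
  have hm2 : (m:ℝ) ≤ a * Real.log L + 1 := by
    by_cases h0 : ⌈a * Real.log L⌉₊ = 0
    · have h1 : m = 1 := by rw [hm, if_pos h0, h0]
      rw [h1]
      have : 0 ≤ a * Real.log L := by positivity
      push_cast
      linarith
    · have h1 : m = ⌈a * Real.log L⌉₊ := by rw [hm, if_neg h0]; omega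
      rw [h1]
      exact (Nat.ceil_lt_add_one (by positivity)).le
  have hη : ∀ j ≤ m, ‖f (node m j : ℝ)‖ ≤ L ^ (-(B + 3 + a * Real.log q)) := by
    intro j hj
    have hn0 : 0 ≤ node m j := by unfold node; positivity
    have hn1 : node m j ≤ 1 := by
      unfold node
      rw [div_le_one (by exact_mod_cast hmpos)]
      exact_mod_cast hj
    have hnk : |node m j| ≤ (k:ℝ) := by
      rw [abs_of_nonneg hn0]
      linarith
    have h1 := g2 _ hnk
    show ‖MT V δ T ((node m j : ℝ) : ℂ) - SSC ((node m j : ℝ) : ℂ) δ‖ ≤ _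
    rw [MT_real hV hδ1, SSC_ofReal, ← Complex.ofReal_sub, Complex.norm_real, Real.norm_eq_abs]
    exact h1
  have hint := interp hfd hmpos hr (le_of_eq hρ.symm) hfM hη hz
  have hnum := num5 (k := k) (B := B) (a := a) (q := q) (L := L) hq1 hB ha hL1 ((le_max_left _ _).trans hLL) hm1 hm2
  exact hint.trans hnum

end

end Pool.Agent.X110.LT
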