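import Pool.Agent.X110.LT3

set_option autoImplicit false

/-! Mod-Gaussian convergence near the critical line. -/

namespace Pool.Agent.X110.LT

open Finset Filter Topology MeasureTheory ProbabilityTheory
open Pool.Agent.H306R2 Pool.Agent.Y746.OA Pool.Agent.X110.ND

noncomputable section

/-- admissible distances and truncations -/
def Adm (δ V : ℝ → ℝ) : Prop := Tendsto δ atTop (𝓝 0) ∧ (∀ᶠ T in atTop, 1 ≤ V T) ∧ (∀ᶠ T in atTop, 0 < δ T) ∧
  Tendsto (fun T => Real.log (V T) / Real.log (Real.log T)) atTop atTop ∧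
  Tendsto (fun T => Real.log (V T) / (δ T * Real.log T)) atTop (𝓝 0)

/-- all the estimates hold eventually -/
lemma Adm.ev {δ V : ℝ → ℝ} (h : Adm δ V) {c C A T0 : ℝ} (hc : 0 < c) :
    ∀ᶠ T in atTop, T0 ≤ T ∧ 1 < T ∧ 1 < Real.log T ∧ 1 ≤ V T ∧ C * Real.log (Real.log T) / Real.log T ≤ δ T ∧
      δ T ≤ 1 / 16 ∧ Real.log T ^ A ≤ V T ∧ V T ≤ T ^ (c * δ T) := by
  obtain ⟨h1, h2, h3, h4, h5⟩ := h
  have e1 : ∀ᶠ T : ℝ in atTop, 1 < Real.log T := Real.tendsto_log_atTop.eventually (eventually_gt_atTop 1)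
  filter_upwards [e1, h2, h3, h1.eventually (gt_mem_nhds (by norm_num : (0:ℝ) < 1 / 16)), eventually_ge_atTop T0,
    eventually_gt_atTop (1:ℝ), h4.eventually (eventually_ge_atTop (max A (max C 0))),
    h5.eventually (gt_mem_nhds (lt_min hc one_pos))] with T g1 g2 g3 g4 g5 g6 g7 g8
  have hT0 : 0 < T := by linarith
  have hL0 : 0 < Real.log T := by linarith
  have hll : 0 < Real.log (Real.log T) := Real.log_pos g1
  have hV0 : 0 < V T := by linarith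
  have hδL : 0 < δ T * Real.log T := by positivity
  have k1 : max A (max C 0) * Real.log (Real.log T) ≤ Real.log (V T) := by
    rwa [le_div_iff₀ hll] at g7
  have k2 : Real.log (V T) < min c 1 * (δ T * Real.log T) := by
    rwa [div_lt_iff₀ hδL] at g8
  have k3 : C * Real.log (Real.log T) ≤ Real.log (V T) :=
    le_trans (mul_le_mul_of_nonneg_right ((le_max_left _ _).trans (le_max_right _ _)) hll.le) k1
  have k4 : A * Real.log (Real.log T) ≤ Real.log (V T) :=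
    le_trans (mul_le_mul_of_nonneg_right (le_max_left _ _) hll.le) k1
  have k5 : Real.log (V T) ≤ δ T * Real.log T :=
    k2.le.trans (mul_le_of_le_one_left hδL.le (min_le_right _ _))
  have k6 : Real.log (V T) ≤ c * (δ T * Real.log T) :=
    k2.le.trans (mul_le_mul_of_nonneg_right (min_le_left _ _) hδL.le)
  refine ⟨g5, g6, g1, g2, ?_, g4.le, ?_, ?_⟩
  · rw [div_le_iff₀ hL0]; linarith
  · rw [Real.rpow_def_of_pos hL0, ← Real.exp_log hV0]
    refine Real.exp_le_exp.mpr ?_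
    linarith
  · rw [Real.rpow_def_of_pos hT0, ← Real.exp_log hV0]
    refine Real.exp_le_exp.mpr ?_
    linarith

/-- the size of `(2δ)^(z^2)` -/
lemma two_delta_pow {δ L : ℝ} (hδ : 0 < δ) (h2 : 2 / δ ≤ L) (hδ1 : δ ≤ 1 / 16) {z : ℂ} {r : ℝ} (hz : ‖z‖ ≤ r) :
    ‖((2 * δ : ℝ) : ℂ) ^ (z ^ 2)‖ ≤ L ^ (r ^ 2) := by
  have hL0 : 0 < L := lt_of_lt_of_le (by positivity) h2
  have h2δ0 : 0 < 2 * δ := by linarith
  rw [Complex.norm_cpow_eq_rpow_re_of_pos h2δ0]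
  have hre : -(r ^ 2) ≤ (z ^ 2).re := by
    have h1 : |(z ^ 2).re| ≤ r ^ 2 := (Complex.abs_re_le_norm _).trans (by
      rw [norm_pow]; exact pow_le_pow_left₀ (norm_nonneg _) hz 2)
    exact (abs_le.mp h1).1
  have h3 : (2 * δ) ^ (z ^ 2).re ≤ (2 * δ) ^ (-(r ^ 2)) := Real.rpow_le_rpow_of_exponent_ge h2δ0 (by linarith) hre
  refine h3.trans ?_
  rw [Real.rpow_neg h2δ0.le, ← Real.inv_rpow h2δ0.le]
  refine Real.rpow_le_rpow (by positivity) ?_ (by positivity)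
  have h4 : (2 * δ)⁻¹ ≤ 2 / δ := by
    rw [mul_inv, div_eq_mul_inv]
    have : 0 < δ⁻¹ := by positivity
    nlinarith
  exact h4.trans h2

/-- **Mod-Gaussian convergence.** -/
theorem modGauss {δ V : ℝ → ℝ} (h : Adm δ V) (z₀ : ℂ) :
    Tendsto (fun q : ℂ × ℝ => ((2 * δ q.2 : ℝ) : ℂ) ^ (q.1 ^ 2) * MT (V q.2) (δ q.2) q.2 q.1) (𝓝 z₀ ×ˢ atTop)
      (𝓝 (aFC z₀)) := by
  set r : ℝ := ‖z₀‖ + 1 with hr
  obtain ⟨c, hc, H⟩ := cmoment r (by positivity)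
  obtain ⟨A, C, T0, hC, H2⟩ := H (r ^ 2 + 1) (by positivity)
  have hev := h.ev (C := C) (A := A) (T0 := T0) hc
  -- the main term
  have h1 : Tendsto (fun q : ℂ × ℝ => hh q.1 (δ q.2)) (𝓝 z₀ ×ˢ atTop) (𝓝 (aFC z₀)) := by
    have h2 : Tendsto (fun q : ℂ × ℝ => (q.1, δ q.2)) (𝓝 z₀ ×ˢ atTop) (lf z₀) := by
      refine Tendsto.prodMk tendsto_fst ?_
      rw [tendsto_nhdsWithin_iff]
      refine ⟨h.1.comp tendsto_snd, ?_⟩
      exact tendsto_snd.eventually h.2.2.1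
    exact (hh_tendsto z₀).comp h2
  -- the error
  have h3 : Tendsto (fun q : ℂ × ℝ => ((2 * δ q.2 : ℝ) : ℂ) ^ (q.1 ^ 2) * MT (V q.2) (δ q.2) q.2 q.1 - hh q.1 (δ q.2))
      (𝓝 z₀ ×ˢ atTop) (𝓝 0) := by
    have hL : Tendsto (fun q : ℂ × ℝ => (Real.log q.2)⁻¹) (𝓝 z₀ ×ˢ atTop) (𝓝 0) :=
      (tendsto_inv_atTop_zero.comp Real.tendsto_log_atTop).comp tendsto_snd
    refine squeeze_zero_norm' ?_ hL
    have hb : ∀ᶠ q : ℂ × ℝ in 𝓝 z₀ ×ˢ atTop, ‖q.1‖ ≤ r := by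
      have h : ∀ᶠ z : ℂ in 𝓝 z₀, ‖z‖ < ‖z₀‖ + 1 := continuous_norm.continuousAt.eventually (gt_mem_nhds (by linarith))
      exact (tendsto_fst.eventually h).mono fun p hp => hp.le
    filter_upwards [hb, tendsto_snd.eventually hev] with q hq ⟨g1, g2, g3, g4, g5, g6, g7, g8⟩
    obtain ⟨k1, k2, k3, k4⟩ := H2 q.2 g1 (δ q.2) g5 g6
    have k5 := (k4 (V q.2) g7 g8).2 q.1 hq
    have e1 : ((2 * δ q.2 : ℝ) : ℂ) ^ (q.1 ^ 2) * MT (V q.2) (δ q.2) q.2 q.1 - hh q.1 (δ q.2) =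
        ((2 * δ q.2 : ℝ) : ℂ) ^ (q.1 ^ 2) * (MT (V q.2) (δ q.2) q.2 q.1 - SSC q.1 (δ q.2)) := by
      unfold hh; ring
    rw [e1, norm_mul]
    have hL0 : 0 < Real.log q.2 := by linarith
    calc _ ≤ Real.log q.2 ^ (r ^ 2) * Real.log q.2 ^ (-(r ^ 2 + 1)) :=
          mul_le_mul (two_delta_pow k2 k3 g6 hq) k5 (norm_nonneg _) (by positivity)
      _ = (Real.log q.2)⁻¹ := by
          rw [← Real.rpow_add hL0, ← Real.rpow_neg_one]
          congr 1; ring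
  have h4 := h3.add h1
  rw [zero_add] at h4
  exact h4.congr fun q => by ring

end

end Pool.Agent.X110.LT
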