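import Pool.Agent.X110.LT4

set_option autoImplicit false

/-! The arithmetic factor. -/

namespace Pool.Agent.X110.LT

open Finset Filter Topology
open Pool.Agent.H306R2 Pool.Agent.Y746.OA

noncomputable section

lemma inv_pos' {p : ℕ} (hp : p.Prime) : 0 < 1 / (p:ℝ) := one_div_pos.mpr (by exact_mod_cast hp.pos)

/-- convergence of the product -/
lemma GC_mult (z : ℂ) : Multipliable fun p : Nat.Primes => GC z (1 / ((p:ℕ):ℝ)) := by
  have h : Summable fun p : Nat.Primes => GC z (1 / ((p:ℕ):ℝ)) - 1 :=
    Summable.of_norm_bounded (primes_summable.mul_left (CG (‖z‖ + 1))) fun p =>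
      GC_bound (by positivity) (by linarith) (inv_pos' p.2).le (inv_half p.2)
  have h2 := Complex.multipliable_one_add_of_summable h
  simpa only [add_sub_cancel] using h2

/-- the real local factor -/
def gR (α : ℝ) (p : ℕ) : ℝ := (1 - 1 / (p : ℝ)) ^ (α ^ 2) * ∑' m : ℕ, lc α m ^ 2 * (1 / (p : ℝ)) ^ m

lemma gR_ofReal (α : ℝ) {p : ℕ} (hp : p.Prime) : GC α (1 / (p:ℝ)) = ((gR α p : ℝ) : ℂ) := by
  unfold GC gR FC
  have h1 := inv_half hp
  rw [Complex.ofReal_mul, Complex.ofReal_cpow (by linarith), Complex.ofReal_tsum]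
  congr 1
  · push_cast; rfl
  · refine tsum_congr fun m => ?_
    rw [lcC_ofReal]
    push_cast
    rfl

lemma gR_pos (α : ℝ) {p : ℕ} (hp : p.Prime) : 0 < gR α p := by
  unfold gR
  have h1 := inv_half hp
  have h2 := inv_pos' hp
  refine mul_pos (Real.rpow_pos_of_pos (by linarith) _) ?_
  have hs : Summable fun m : ℕ => lc α m ^ 2 * (1 / (p : ℝ)) ^ m := by
    refine Summable.of_nonneg_of_le (fun m => by positivity) (fun m => ?_)
      (sq_sum (R := |α| + 1) (by positivity) h2 (by linarith))
    have h3 : |lc α m| ≤ lc (|α| + 1) m := (lc_abs α m).trans (lc_mono (abs_nonneg _) (by linarith) m)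
    have h4 : lc α m ^ 2 ≤ lc (|α| + 1) m ^ 2 := by
      rw [← sq_abs]
      exact pow_le_pow_left₀ (abs_nonneg _) h3 2
    exact mul_le_mul_of_nonneg_right h4 (by positivity)
  refine hs.tsum_pos (fun m => by positivity) 0 ?_
  simp [lc_zero]

lemma gR_summable (α : ℝ) : Summable fun p : Nat.Primes => gR α p - 1 := by
  refine Summable.of_norm_bounded (primes_summable.mul_left (CG (|α| + 1))) fun p => ?_
  have h := GC_bound (z := (α:ℂ)) (R := |α| + 1) (by positivity)
    (by rw [Complex.norm_real, Real.norm_eq_abs]; linarith) (inv_pos' p.2).le (inv_half p.2)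
  rwa [gR_ofReal α p.2, ← Complex.ofReal_one, ← Complex.ofReal_sub, Complex.norm_real] at h

/-- the arithmetic factor for real arguments -/
def aR (α : ℝ) : ℝ := ∏' p : Nat.Primes, gR α p

lemma gR_mult (α : ℝ) : Multipliable fun p : Nat.Primes => gR α p := by
  have h2 := Real.multipliable_one_add_of_summable (gR_summable α)
  simpa only [add_sub_cancel] using h2

theorem aR_pos (α : ℝ) : 0 < aR α := by
  have h := Real.summable_log_one_add_of_summable (gR_summable α)
  simp only [add_sub_cancel] at h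
  have h2 := Real.rexp_tsum_eq_tprod (f := fun p : Nat.Primes => gR α p) (fun p => gR_pos α p.2) h
  unfold aR
  rw [← h2]
  exact Real.exp_pos _

theorem aFC_ofReal (α : ℝ) : aFC α = ((aR α : ℝ) : ℂ) := by
  have h := (gR_mult α).hasProd.map Complex.ofRealHom Complex.continuous_ofReal
  unfold aFC
  have e : (fun p : Nat.Primes => GC α (1 / ((p:ℕ):ℝ))) = Complex.ofRealHom ∘ fun p : Nat.Primes => gR α p := by
    funext p
    exact gR_ofReal α p.2
  rw [e, h.tprod_eq]
  rfl

end

end Pool.Agent.X110.LT
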