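import Pool.Agent.X110.LT5

set_option autoImplicit false

/-! The tilted distribution of `log |ζ|` near the critical line: test functions with compact spectrum. -/

namespace Pool.Agent.X110.LT

open Finset Filter Topology MeasureTheory ProbabilityTheory
open Pool.Agent.H306R2 Pool.Agent.Y746.OA Pool.Agent.X110.ND

noncomputable section

/-- the normalised moment -/
def hM (δ V : ℝ → ℝ) (T : ℝ) (z : ℂ) : ℂ := ((2 * δ T : ℝ) : ℂ) ^ (z ^ 2) * MT (V T) (δ T) T z

lemma hM_bdd {δ V : ℝ → ℝ} (h : Adm δ V) (r : ℝ) : ∃ C : ℝ, 0 < C ∧ ∀ᶠ T in atTop, ∀ z : ℂ, ‖z‖ ≤ r → ‖hM δ V T z‖ ≤ C := by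
  obtain ⟨c, hc, H⟩ := cmoment |r| (abs_nonneg r)
  obtain ⟨A, C, T0, hC, H2⟩ := H (|r| ^ 2 + 1) (by positivity)
  have hev := h.ev (C := C) (A := A) (T0 := T0) hc
  obtain ⟨C1, δ0, hC1, hδ0, hb⟩ := hh_bdd |r|
  refine ⟨C1 + 1, by positivity, ?_⟩
  filter_upwards [hev, h.1.eventually (gt_mem_nhds hδ0)] with T ⟨g1, g2, g3, g4, g5, g6, g7, g8⟩ g9 z hz
  have hz' : ‖z‖ ≤ |r| := hz.trans (le_abs_self r)
  obtain ⟨k1, k2, k3, k4⟩ := H2 T g1 (δ T) g5 g6
  have k5 := (k4 (V T) g7 g8).2 z hz'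
  have e1 : hM δ V T z = hh z (δ T) + ((2 * δ T : ℝ) : ℂ) ^ (z ^ 2) * (MT (V T) (δ T) T z - SSC z (δ T)) := by
    unfold hM hh; ring
  have hL0 : 0 < Real.log T := by linarith
  rw [e1]
  refine (norm_add_le _ _).trans (add_le_add (hb z hz' (δ T) k2 g9) ?_)
  rw [norm_mul]
  calc _ ≤ Real.log T ^ (|r| ^ 2) * Real.log T ^ (-(|r| ^ 2 + 1)) :=
        mul_le_mul (two_delta_pow k2 k3 g6 hz') k5 (norm_nonneg _) (by positivity)
    _ = (Real.log T)⁻¹ := by
        rw [← Real.rpow_add hL0, ← Real.rpow_neg_one]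
        congr 1; ring
    _ ≤ 1 := inv_le_one_of_one_le₀ k1

/-- the centred variable -/
def Xc (δ : ℝ) (α : ℝ) (t : ℝ) : ℝ := Xf δ t + α * Real.log (2 * δ)

/-- the tilted functional -/
def Lam (δ V : ℝ → ℝ) (α T : ℝ) (g : ℝ → ℂ) : ℂ :=
  (((2 * δ T) ^ (α ^ 2) * (1 / T) : ℝ) : ℂ) *
    ∫ t in gset (V T) (δ T) T, ((‖riemannZeta (sp (δ T) t)‖ ^ (2 * α) : ℝ) : ℂ) * g (Xc (δ T) α t)

lemma Xc_meas {δ : ℝ} (hδ : δ ≤ 1 / 16) (α : ℝ) : Measurable (Xc δ α) := (Xf_meas hδ).add_const _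

/-- the integrand of the complex moment, and the normalisation -/
lemma J_eq {δ V : ℝ → ℝ} {α T : ℝ} (hV : 1 ≤ V T) (hδ : δ T ≤ 1 / 16) (hδ0 : 0 < δ T) (y : ℝ) :
    Lam δ V α T (fun x => Complex.exp (y * x * Complex.I)) =
      Complex.exp (((Real.log (2 * δ T) * y ^ 2 / 4 : ℝ)) : ℂ) * hM δ V T (α + y / 2 * Complex.I) := by
  have h2 : 0 < 2 * δ T := by linarith
  set ℓ := Real.log (2 * δ T) with hℓ
  unfold Lam hM MT complexMGF
  have e1 : ∀ t ∈ gset (V T) (δ T) T, ((‖riemannZeta (sp (δ T) t)‖ ^ (2 * α) : ℝ) : ℂ) *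
      Complex.exp (y * (Xc (δ T) α t : ℝ) * Complex.I) =
      Complex.exp ((y * α * ℓ : ℝ) * Complex.I) * Complex.exp (2 * (α + y / 2 * Complex.I) * (Xf (δ T) t : ℝ)) := by
    intro t ht
    rw [← exp_Xf hV ht, Complex.ofReal_exp, ← Complex.exp_add, ← Complex.exp_add]
    congr 1
    unfold Xc
    push_cast
    ring
  have e2 : ∫ t in gset (V T) (δ T) T, ((‖riemannZeta (sp (δ T) t)‖ ^ (2 * α) : ℝ) : ℂ) *
      Complex.exp (y * (Xc (δ T) α t : ℝ) * Complex.I) =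
      Complex.exp ((y * α * ℓ : ℝ) * Complex.I) *
        ∫ t in gset (V T) (δ T) T, Complex.exp (2 * (α + y / 2 * Complex.I) * (Xf (δ T) t : ℝ)) := by
    rw [← integral_const_mul]
    exact setIntegral_congr_fun (gset_meas _ _ _ hδ) e1
  rw [e2]
  have e3 : ((2 * δ T : ℝ) : ℂ) ^ ((α + y / 2 * Complex.I) ^ 2) =
      Complex.exp ((ℓ : ℂ) * (α + y / 2 * Complex.I) ^ 2) := by
    rw [Complex.cpow_def_of_ne_zero (by exact_mod_cast h2.ne'), ← Complex.ofReal_log h2.le]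
  have e4 : (((2 * δ T) ^ (α ^ 2) * (1 / T) : ℝ) : ℂ) = Complex.exp ((ℓ * α ^ 2 : ℝ) : ℂ) * (1 / (T:ℂ)) := by
    rw [Real.rpow_def_of_pos h2]
    push_cast
    rfl
  rw [e3, e4]
  have e5 : Complex.exp ((ℓ * α ^ 2 : ℝ) : ℂ) * Complex.exp ((y * α * ℓ : ℝ) * Complex.I) =
      Complex.exp ((ℓ * y ^ 2 / 4 : ℝ) : ℂ) * Complex.exp ((ℓ : ℂ) * (α + y / 2 * Complex.I) ^ 2) := by
    rw [← Complex.exp_add, ← Complex.exp_add]
    congr 1
    push_cast
    have : (Complex.I) ^ 2 = -1 := Complex.I_sq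
    linear_combination (-(ℓ:ℂ) * (y:ℂ) ^ 2 / 4) * this
  linear_combination (1 / (T:ℂ)) *
    (∫ t in gset (V T) (δ T) T, Complex.exp (2 * (α + y / 2 * Complex.I) * (Xf (δ T) t : ℝ))) * e5

/-- the transform -/
def Phi (φ : ℝ → ℂ) (x : ℝ) : ℂ := ∫ y, φ y * Complex.exp (y * x * Complex.I)

lemma exp_unit (a : ℝ) : ‖Complex.exp ((a:ℂ) * Complex.I)‖ = 1 := Complex.norm_exp_ofReal_mul_I a

lemma w_int {V δ T : ℝ} (hV : 1 ≤ V) (hδ : δ ≤ 1 / 16) (α : ℝ) :
    IntegrableOn (fun t => ((‖riemannZeta (sp δ t)‖ ^ (2 * α) : ℝ) : ℂ)) (gset V δ T) := by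
  have h := exp_int (T := T) hV hδ (2 * α)
  have h2 : IntegrableOn (fun t => ‖riemannZeta (sp δ t)‖ ^ (2 * α)) (gset V δ T) := by
    refine Integrable.congr h ?_
    rw [EventuallyEq, ae_restrict_iff' (gset_meas V δ T hδ)]
    exact Eventually.of_forall fun t ht => exp_Xf hV ht _
  exact h2.ofReal

lemma Lam_Phi {δ V : ℝ → ℝ} {α T : ℝ} (hV : 1 ≤ V T) (hδ : δ T ≤ 1 / 16) (hδ0 : 0 < δ T) {φ : ℝ → ℂ}
    (hφ : Continuous φ) (hc : HasCompactSupport φ) :
    Lam δ V α T (Phi φ) = ∫ y : ℝ, φ y * (Complex.exp (((Real.log (2 * δ T) * y ^ 2 / 4 : ℝ)) : ℂ) *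
      hM δ V T (α + y / 2 * Complex.I)) := by
  have hφi : Integrable φ := hφ.integrable_of_hasCompactSupport hc
  set ν := (volume : Measure ℝ).restrict (gset (V T) (δ T) T) with hν
  set w : ℝ → ℂ := fun t => ((‖riemannZeta (sp (δ T) t)‖ ^ (2 * α) : ℝ) : ℂ) with hw
  have hwi : Integrable w ν := w_int hV hδ α
  have hprod : Integrable (fun p : ℝ × ℝ => w p.1 * φ p.2) (ν.prod volume) := hwi.mul_prod hφi
  have hmeas : Measurable fun p : ℝ × ℝ => Complex.exp (p.2 * (Xc (δ T) α p.1 : ℝ) * Complex.I) := by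
    have h1 := (Xc_meas hδ α).comp (measurable_fst : Measurable (Prod.fst : ℝ × ℝ → ℝ))
    have h2 : Measurable fun p : ℝ × ℝ => ((Xc (δ T) α p.1 : ℝ) : ℂ) := Complex.measurable_ofReal.comp h1
    exact Complex.measurable_exp.comp (((Complex.measurable_ofReal.comp measurable_snd).mul h2).mul_const _)
  have hI : Integrable (Function.uncurry fun (t y : ℝ) => w t * (φ y * Complex.exp (y * (Xc (δ T) α t : ℝ) * Complex.I)))
      (ν.prod volume) := by
    have h1 : (Function.uncurry fun (t y : ℝ) => w t * (φ y * Complex.exp (y * (Xc (δ T) α t : ℝ) * Complex.I))) =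
        fun p : ℝ × ℝ => (w p.1 * φ p.2) * Complex.exp (p.2 * (Xc (δ T) α p.1 : ℝ) * Complex.I) := by
      funext p
      simp only [Function.uncurry]
      ring
    rw [h1]
    refine hprod.mul_bdd (c := 1) hmeas.aestronglyMeasurable (Eventually.of_forall fun p => ?_)
    have h2 : (p.2 : ℂ) * (Xc (δ T) α p.1 : ℝ) * Complex.I = ((p.2 * Xc (δ T) α p.1 : ℝ) : ℂ) * Complex.I := by
      push_cast; ring
    rw [h2, exp_unit]
  have e1 : ∫ t, w t * Phi φ (Xc (δ T) α t) ∂ν =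
      ∫ y : ℝ, φ y * ∫ t, w t * Complex.exp (y * (Xc (δ T) α t : ℝ) * Complex.I) ∂ν := by
    have h1 : ∫ t, w t * Phi φ (Xc (δ T) α t) ∂ν =
        ∫ t, (∫ y : ℝ, w t * (φ y * Complex.exp (y * (Xc (δ T) α t : ℝ) * Complex.I))) ∂ν := by
      refine integral_congr_ae (Eventually.of_forall fun t => ?_)
      simp only [Phi]
      rw [← integral_const_mul]
    rw [h1, integral_integral_swap hI]
    refine integral_congr_ae (Eventually.of_forall fun y => ?_)
    simp only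
    rw [← integral_const_mul]
    refine integral_congr_ae (Eventually.of_forall fun t => ?_)
    simp only
    ring
  unfold Lam
  rw [show (∫ t in gset (V T) (δ T) T, ((‖riemannZeta (sp (δ T) t)‖ ^ (2 * α) : ℝ) : ℂ) * Phi φ (Xc (δ T) α t)) =
    ∫ t, w t * Phi φ (Xc (δ T) α t) ∂ν from rfl, e1, ← integral_const_mul]
  refine integral_congr_ae (Eventually.of_forall fun y => ?_)
  simp only
  have h := J_eq (α := α) hV hδ hδ0 y
  rw [← h]
  unfold Lam
  simp only [hw]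
  ring

/-- the large parameter -/
def Lg (δ : ℝ → ℝ) (T : ℝ) : ℝ := -Real.log (2 * δ T)

lemma Lg_tendsto {δ V : ℝ → ℝ} (h : Adm δ V) : Tendsto (Lg δ) atTop atTop := by
  have h1 : Tendsto (fun T => 2 * δ T) atTop (𝓝[>] 0) := by
    rw [tendsto_nhdsWithin_iff]
    refine ⟨by simpa using h.1.const_mul 2, ?_⟩
    filter_upwards [h.2.2.1] with T hT
    exact mul_pos two_pos hT
  exact tendsto_neg_atBot_atTop.comp (Real.tendsto_log_nhdsGT_zero.comp h1)

/-- **The limit for test functions with compact spectrum.** -/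
theorem key {δ V : ℝ → ℝ} (h : Adm δ V) (α : ℝ) {φ : ℝ → ℂ} (hφ : Continuous φ) (hc : HasCompactSupport φ) :
    Tendsto (fun T => ((Real.sqrt (Lg δ T) : ℝ) : ℂ) * Lam δ V α T (Phi φ)) atTop
      (𝓝 (φ 0 * (aR α : ℂ) * ((2 * Real.sqrt Real.pi : ℝ) : ℂ))) := by
  obtain ⟨Y, hY⟩ : ∃ Y : ℝ, ∀ y, Y < |y| → φ y = 0 := by
    obtain ⟨R, hR⟩ := hc.isCompact.isBounded.subset_closedBall (0:ℝ)
    refine ⟨R, fun y hy => ?_⟩
    by_contra hne
    have := hR (subset_tsupport φ (Function.mem_support.mpr hne))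
    rw [Metric.mem_closedBall, dist_zero_right, Real.norm_eq_abs] at this
    linarith
  obtain ⟨M, hM'⟩ := hφ.bounded_above_of_compact_support hc
  obtain ⟨C, hC0, hC⟩ := hM_bdd h (|α| + |Y|)
  have hL := Lg_tendsto h
  have hs : Tendsto (fun T => Real.sqrt (Lg δ T)) atTop atTop := Real.tendsto_sqrt_atTop.comp hL
  set F : ℝ → ℝ → ℂ := fun T u => φ (u / Real.sqrt (Lg δ T)) * (Complex.exp ((-(u ^ 2 / 4) : ℝ) : ℂ) *
      hM δ V T (α + (u / Real.sqrt (Lg δ T) : ℝ) / 2 * Complex.I)) with hF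
  have hev : ∀ᶠ T in atTop, ((Real.sqrt (Lg δ T) : ℝ) : ℂ) * Lam δ V α T (Phi φ) = ∫ u, F T u := by
    filter_upwards [h.2.1, h.2.2.1, h.1.eventually (gt_mem_nhds (by norm_num : (0:ℝ) < 1 / 16)),
      hL.eventually (eventually_gt_atTop 0)] with T g1 g2 g3 g4
    rw [Lam_Phi g1 g3.le g2 hφ hc]
    have hs0 : 0 < Real.sqrt (Lg δ T) := Real.sqrt_pos.mpr g4
    have h1 := Measure.integral_comp_div (fun y : ℝ => φ y * (Complex.exp (((Real.log (2 * δ T) * y ^ 2 / 4 : ℝ)) : ℂ) *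
      hM δ V T (α + y / 2 * Complex.I))) (Real.sqrt (Lg δ T))
    rw [abs_of_pos hs0, Complex.real_smul] at h1
    rw [← h1]
    refine integral_congr_ae (Eventually.of_forall fun u => ?_)
    simp only [hF]
    congr 3
    · congr 1
      rw [div_pow, Real.sq_sqrt g4.le]
      unfold Lg
      have : Real.log (2 * δ T) ≠ 0 := by
        intro h0
        unfold Lg at g4
        rw [h0] at g4
        simp at g4
      field_simp
  refine Tendsto.congr' (EventuallyEq.symm hev) ?_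
  have hgauss : ∫ u : ℝ, φ 0 * (Complex.exp ((-(u ^ 2 / 4) : ℝ) : ℂ) * aFC α) =
      φ 0 * (aR α : ℂ) * ((2 * Real.sqrt Real.pi : ℝ) : ℂ) := by
    have h1 : ∫ u : ℝ, φ 0 * (Complex.exp ((-(u ^ 2 / 4) : ℝ) : ℂ) * aFC α) =
        (φ 0 * aFC α) * ((∫ u : ℝ, Real.exp (-(1 / 4) * u ^ 2) : ℝ) : ℂ) := by
      rw [← integral_complex_ofReal, ← integral_const_mul]
      refine integral_congr_ae (Eventually.of_forall fun u => ?_)
      simp only
      rw [Complex.ofReal_exp]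
      have : (((-(1 / 4) * u ^ 2 : ℝ)) : ℂ) = ((-(u ^ 2 / 4) : ℝ) : ℂ) := by push_cast; ring
      rw [this]; ring
    rw [h1, integral_gaussian, aFC_ofReal]
    have h2 : Real.sqrt (Real.pi / (1 / 4)) = 2 * Real.sqrt Real.pi := by
      rw [show Real.pi / (1 / 4) = 2 ^ 2 * Real.pi by ring, Real.sqrt_mul (by norm_num), Real.sqrt_sq (by norm_num)]
    rw [h2]
  rw [← hgauss]
  refine tendsto_integral_filter_of_dominated_convergence (fun u => M * C * Real.exp (-(1 / 4) * u ^ 2)) ?_ ?_ ?_ ?_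
  · filter_upwards [h.2.1, h.1.eventually (gt_mem_nhds (by norm_num : (0:ℝ) < 1 / 16)), h.2.2.1] with T g1 g2 g3
    have c1 : Continuous fun u : ℝ => ((u / Real.sqrt (Lg δ T) : ℝ) : ℂ) := by fun_prop
    have c2 : Continuous fun z : ℂ => hM δ V T z := by
      unfold hM
      refine Continuous.mul ?_ (MT_diff g1 g2.le).continuous
      refine Continuous.const_cpow (by fun_prop) (Or.inl ?_)
      have h9 : 0 < 2 * δ T := by linarith
      exact_mod_cast h9.ne'
    have c3 : Continuous (F T) := by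
      simp only [hF]
      refine (hφ.comp (by fun_prop)).mul (Continuous.mul (by fun_prop) (c2.comp ?_))
      exact continuous_const.add ((c1.div_const _).mul continuous_const)
    exact c3.aestronglyMeasurable
  · filter_upwards [hC, hL.eventually (eventually_gt_atTop 0)] with T g1 g2
    refine Eventually.of_forall fun u => ?_
    simp only [hF]
    by_cases hu : Y < |u / Real.sqrt (Lg δ T)|
    · rw [hY _ hu, zero_mul, norm_zero]
      have hM0 : 0 ≤ M := (norm_nonneg _).trans (hM' 0)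
      positivity
    · push Not at hu
      have hz : ‖((α : ℂ) + ((u / Real.sqrt (Lg δ T) : ℝ) : ℂ) / 2 * Complex.I)‖ ≤ |α| + |Y| := by
        refine (norm_add_le _ _).trans ?_
        rw [Complex.norm_real, norm_mul, norm_div, Complex.norm_real, Complex.norm_I, Real.norm_eq_abs, Real.norm_eq_abs]
        have h3 : ‖(2:ℂ)‖ = 2 := by simp
        rw [h3]
        have h4 := hu.trans (le_abs_self Y)
        have h5 := abs_nonneg (u / Real.sqrt (Lg δ T))
        linarith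
      have h6 := g1 _ hz
      rw [norm_mul, norm_mul, Complex.norm_exp_ofReal]
      have hM0 : 0 ≤ M := (norm_nonneg _).trans (hM' 0)
      have h7 : -(u ^ 2 / 4) = -(1 / 4) * u ^ 2 := by ring
      rw [h7]
      calc _ ≤ M * (Real.exp (-(1 / 4) * u ^ 2) * C) := by
            gcongr
            exact hM' _
        _ = _ := by ring
  · exact (integrable_exp_neg_mul_sq (by norm_num)).const_mul _
  · refine Eventually.of_forall fun u => ?_
    simp only [hF]
    have h1 : Tendsto (fun T => u / Real.sqrt (Lg δ T)) atTop (𝓝 0) := tendsto_const_nhds.div_atTop hs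
    have h2 : Tendsto (fun T => φ (u / Real.sqrt (Lg δ T))) atTop (𝓝 (φ 0)) := (hφ.tendsto 0).comp h1
    refine h2.mul (tendsto_const_nhds.mul ?_)
    have h3 : Tendsto (fun T => ((α : ℂ) + ((u / Real.sqrt (Lg δ T) : ℝ) : ℂ) / 2 * Complex.I)) atTop (𝓝 α) := by
      have h4 := (((Complex.continuous_ofReal.tendsto 0).comp h1).div_const 2).mul_const Complex.I
      have h5 := h4.const_add (α : ℂ)
      simpa using h5
    exact (modGauss h (α : ℂ)).comp (h3.prodMk tendsto_id)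

end

end Pool.Agent.X110.LT
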