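import Mathlib

set_option autoImplicit false

/-! A positive function with compact spectrum and slow decay. -/

namespace Pool.Agent.X110.LT

open Filter Topology MeasureTheory

noncomputable section

/-- the triangle -/
def tri (s : ℝ) : ℝ := max 0 (1 - |s|)

lemma tri_cont : Continuous tri := by unfold tri; fun_prop

lemma tri_zero_of {s : ℝ} (hs : 1 ≤ |s|) : tri s = 0 := by
  unfold tri
  exact max_eq_left (by linarith)

lemma tri_supp : HasCompactSupport tri := by
  refine HasCompactSupport.of_support_subset_isCompact (isCompact_Icc (a := (-1:ℝ)) (b := 1)) ?_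
  intro s hs
  rw [Function.mem_support] at hs
  by_contra h
  apply hs
  apply tri_zero_of
  rw [Set.mem_Icc, not_and_or] at h
  rcases h with h | h
  · push Not at h
    rw [abs_of_neg (by linarith)]; linarith
  · push Not at h
    exact h.le.trans (le_abs_self s)

/-- the Fejér function -/
def Fe (x : ℝ) : ℝ := if x = 0 then 1 else 2 * (1 - Real.cos x) / x ^ 2

lemma Fe_nonneg (x : ℝ) : 0 ≤ Fe x := by
  unfold Fe
  split_ifs
  · norm_num
  · have := Real.cos_le_one x
    exact div_nonneg (by linarith) (sq_nonneg _)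

lemma int_half {x : ℝ} (hx : x ≠ 0) : ∫ s in (0:ℝ)..1, (1 - s) * Real.cos (s * x) = (1 - Real.cos x) / x ^ 2 := by
  have h : ∀ s ∈ Set.uIcc (0:ℝ) 1, HasDerivAt (fun s => (1 - s) * (Real.sin (s * x) / x) - Real.cos (s * x) / x ^ 2)
      ((1 - s) * Real.cos (s * x)) s := by
    intro s _
    have h1 : HasDerivAt (fun s => s * x) x s := by simpa using (hasDerivAt_id s).mul_const x
    have h2 := (h1.sin.div_const x)
    have h3 := (h1.cos.div_const (x ^ 2))
    have h4 : HasDerivAt (fun s : ℝ => 1 - s) (-1) s := by simpa using (hasDerivAt_id s).const_sub 1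
    have h5 := (h4.mul h2).sub h3
    refine h5.congr_deriv ?_
    field_simp
    ring
  rw [intervalIntegral.integral_eq_sub_of_hasDerivAt h (Continuous.intervalIntegrable (by fun_prop) _ _)]
  simp
  ring

lemma int_tri (x : ℝ) : ∫ s : ℝ, tri s * Real.cos (s * x) = Fe x := by
  have e1 : ∫ s : ℝ, tri s * Real.cos (s * x) = ∫ s in (-1:ℝ)..1, tri s * Real.cos (s * x) := by
    rw [intervalIntegral.integral_of_le (by norm_num), ← integral_Icc_eq_integral_Ioc]
    rw [setIntegral_eq_integral_of_forall_compl_eq_zero]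
    intro s hs
    rw [tri_zero_of, zero_mul]
    rw [Set.mem_Icc, not_and_or] at hs
    rcases hs with h | h
    · push Not at h
      rw [abs_of_neg (by linarith)]; linarith
    · push Not at h
      exact h.le.trans (le_abs_self s)
  have hc : Continuous fun s => tri s * Real.cos (s * x) := tri_cont.mul (by fun_prop)
  have e2 : ∫ s in (-1:ℝ)..0, tri s * Real.cos (s * x) = ∫ s in (0:ℝ)..1, tri s * Real.cos (s * x) := by
    have h := intervalIntegral.integral_comp_neg (a := 0) (b := 1) (fun s => tri s * Real.cos (s * x))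
    rw [neg_zero] at h
    rw [← h]
    refine intervalIntegral.integral_congr fun s _ => ?_
    simp only [tri, abs_neg, neg_mul, Real.cos_neg]
  have e3 : ∫ s in (0:ℝ)..1, tri s * Real.cos (s * x) = ∫ s in (0:ℝ)..1, (1 - s) * Real.cos (s * x) := by
    refine intervalIntegral.integral_congr fun s hs => ?_
    rw [Set.uIcc_of_le (by norm_num), Set.mem_Icc] at hs
    simp only [tri]
    rw [abs_of_nonneg hs.1, max_eq_right (by linarith)]
  rw [e1, ← intervalIntegral.integral_add_adjacent_intervals (hc.intervalIntegrable (-1) 0) (hc.intervalIntegrable 0 1), e2, e3]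
  unfold Fe
  split_ifs with h
  · subst h
    simp only [mul_zero, Real.cos_zero, mul_one]
    have : ∫ s in (0:ℝ)..1, (1 - s) = 1 / 2 := by
      rw [intervalIntegral.integral_sub (by simp) (by simp)]
      simp
      norm_num
    rw [this]
    norm_num
  · rw [int_half h]
    ring

lemma int_tri_sin (x : ℝ) : ∫ s : ℝ, tri s * Real.sin (s * x) = 0 := by
  have h := integral_neg_eq_self (fun s : ℝ => tri s * Real.sin (s * x)) volume
  have h2 : ∫ s : ℝ, tri (-s) * Real.sin (-s * x) = -∫ s : ℝ, tri s * Real.sin (s * x) := by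
    rw [← integral_neg]
    refine integral_congr_ae (Eventually.of_forall fun s => ?_)
    simp only [tri, abs_neg, neg_mul, Real.sin_neg]
    ring
  rw [h2] at h
  linarith

lemma int_tri_exp (x : ℝ) : ∫ s : ℝ, (tri s : ℂ) * Complex.exp (s * x * Complex.I) = (Fe x : ℂ) := by
  have h1 : ∀ s : ℝ, (tri s : ℂ) * Complex.exp (s * x * Complex.I) =
      ((tri s * Real.cos (s * x) : ℝ) : ℂ) + ((tri s * Real.sin (s * x) : ℝ) : ℂ) * Complex.I := by
    intro s
    have : (s:ℂ) * x * Complex.I = ((s * x : ℝ) : ℂ) * Complex.I := by push_cast; ring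
    rw [this, Complex.exp_mul_I]
    push_cast
    ring
  simp_rw [h1]
  have c1 : Continuous fun s : ℝ => tri s * Real.cos (s * x) := tri_cont.mul (by fun_prop)
  have c2 : Continuous fun s : ℝ => tri s * Real.sin (s * x) := tri_cont.mul (by fun_prop)
  have i1 : Integrable fun s : ℝ => ((tri s * Real.cos (s * x) : ℝ) : ℂ) :=
    (c1.integrable_of_hasCompactSupport (tri_supp.mul_right)).ofReal
  have i2 : Integrable fun s : ℝ => ((tri s * Real.sin (s * x) : ℝ) : ℂ) * Complex.I :=
    ((c2.integrable_of_hasCompactSupport (tri_supp.mul_right)).ofReal).mul_const _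
  rw [integral_add i1 i2, integral_mul_const, integral_complex_ofReal, integral_complex_ofReal, int_tri, int_tri_sin]
  simp

/-- the spectrum -/
def φ0 (s : ℝ) : ℂ := (tri s : ℂ) * (1 + Complex.exp (s * Complex.I))

/-- the positive function -/
def g0 (x : ℝ) : ℝ := Fe x + Fe (x + 1)

lemma φ0_cont : Continuous φ0 := by
  unfold φ0
  exact (Complex.continuous_ofReal.comp tri_cont).mul (by fun_prop)

lemma φ0_supp : HasCompactSupport φ0 := by
  have h : HasCompactSupport fun s => (tri s : ℂ) := tri_supp.comp_left (g := fun x : ℝ => (x : ℂ)) (by simp)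
  exact h.mul_right

lemma φ0_zero : φ0 0 = 2 := by
  unfold φ0 tri
  norm_num

lemma φ0_int : Integrable φ0 := φ0_cont.integrable_of_hasCompactSupport φ0_supp

lemma trans_φ0 (x : ℝ) : ∫ s : ℝ, φ0 s * Complex.exp (s * x * Complex.I) = (g0 x : ℂ) := by
  have h1 : ∀ s : ℝ, φ0 s * Complex.exp (s * x * Complex.I) =
      (tri s : ℂ) * Complex.exp (s * x * Complex.I) + (tri s : ℂ) * Complex.exp (s * ((x + 1 : ℝ) : ℂ) * Complex.I) := by
    intro s
    unfold φ0
    have : (s:ℂ) * ((x + 1 : ℝ) : ℂ) * Complex.I = s * x * Complex.I + s * Complex.I := by push_cast; ring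
    rw [this, Complex.exp_add]
    ring
  simp_rw [h1]
  have h : HasCompactSupport fun s => (tri s : ℂ) := tri_supp.comp_left (g := fun x : ℝ => (x : ℂ)) (by simp)
  have ht : Continuous fun s => (tri s : ℂ) := Complex.continuous_ofReal.comp tri_cont
  have i : ∀ y : ℝ, Integrable fun s : ℝ => (tri s : ℂ) * Complex.exp (s * (y : ℂ) * Complex.I) := fun y =>
    (ht.mul (by fun_prop)).integrable_of_hasCompactSupport h.mul_right
  rw [integral_add (i x) (i (x + 1)), int_tri_exp, int_tri_exp]
  unfold g0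
  push_cast
  rfl

/-- lower bound -/
lemma Fe_lower (x : ℝ) {D : ℝ} (hD : 0 < D) (hx : x ^ 2 ≤ D) : 2 * (1 - Real.cos x) / D ≤ Fe x := by
  unfold Fe
  split_ifs with h
  · subst h; simp
  · have h1 := Real.cos_le_one x
    have h2 : 0 < x ^ 2 := by positivity
    exact div_le_div_of_nonneg_left (by linarith) h2 hx

lemma g0_lower (x : ℝ) : 4 * (1 - Real.cos (1 / 2)) / (|x| + 2) ^ 2 ≤ g0 x := by
  have hD : 0 < (|x| + 2) ^ 2 := by positivity
  have h1 := Fe_lower x hD (by
    have := sq_abs x
    nlinarith [abs_nonneg x])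
  have h2 := Fe_lower (x + 1) hD (by
    have h3 : |x + 1| ≤ |x| + 2 := (abs_add_le x 1).trans (by rw [abs_one]; linarith)
    rw [← sq_abs]
    exact pow_le_pow_left₀ (abs_nonneg _) h3 2)
  have h3 : 4 * (1 - Real.cos (1 / 2)) ≤ 2 * (1 - Real.cos x) + 2 * (1 - Real.cos (x + 1)) := by
    have h4 : Real.cos x + Real.cos (x + 1) = 2 * (Real.cos (x + 1 / 2) * Real.cos (1 / 2)) := by
      have h7 := Real.cos_add_cos x (x + 1)
      have a1 : (x + (x + 1)) / 2 = x + 1 / 2 := by ring
      have a2 : (x - (x + 1)) / 2 = -(1 / 2) := by ring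
      rw [a1, a2, Real.cos_neg] at h7
      rw [h7]
      ring
    have h5 : 0 ≤ Real.cos (1 / 2) := Real.cos_nonneg_of_mem_Icc ⟨by linarith [Real.pi_gt_three], by linarith [Real.pi_gt_three]⟩
    have h6 := Real.cos_le_one (x + 1 / 2)
    nlinarith
  calc 4 * (1 - Real.cos (1 / 2)) / (|x| + 2) ^ 2 ≤
      (2 * (1 - Real.cos x) + 2 * (1 - Real.cos (x + 1))) / (|x| + 2) ^ 2 := div_le_div_of_nonneg_right h3 hD.le
    _ = 2 * (1 - Real.cos x) / (|x| + 2) ^ 2 + 2 * (1 - Real.cos (x + 1)) / (|x| + 2) ^ 2 := by ring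
    _ ≤ _ := add_le_add h1 h2

/-- the constant in the lower bound -/
def cg : ℝ := 4 * (1 - Real.cos (1 / 2))

lemma cg_pos : 0 < cg := by
  unfold cg
  have h : Real.cos (1 / 2) < 1 := by
    have := Real.cos_lt_cos_of_nonneg_of_le_pi (x := 0) (y := 1 / 2) le_rfl (by linarith [Real.pi_gt_three]) (by norm_num)
    rwa [Real.cos_zero] at this
  linarith

lemma g0_pos (x : ℝ) : 0 < g0 x := lt_of_lt_of_le (div_pos cg_pos (by positivity)) (g0_lower x)

lemma Fe_le (x : ℝ) : Fe x ≤ 8 / (1 + x ^ 2) := by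
  unfold Fe
  split_ifs with h
  · subst h; norm_num
  · have hx : 0 < x ^ 2 := by positivity
    rw [div_le_div_iff₀ hx (by positivity)]
    have h1 := Real.one_sub_sq_div_two_le_cos (x := x)
    have h2 := Real.neg_one_le_cos x
    have h3 := Real.cos_le_one x
    rcases le_or_gt (x ^ 2) 1 with h4 | h4
    · nlinarith
    · nlinarith

lemma Fe_cont : Continuous Fe := by
  have h : Fe = fun x => ∫ s : ℝ, tri s * Real.cos (s * x) := by funext x; rw [int_tri]
  rw [h]
  refine continuous_of_dominated (bound := fun s => tri s) ?_ ?_ ?_ ?_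
  · intro x
    exact (tri_cont.mul (by fun_prop)).aestronglyMeasurable
  · intro x
    refine Eventually.of_forall fun s => ?_
    have h0 : 0 ≤ tri s := le_max_left _ _
    rw [norm_mul, Real.norm_of_nonneg h0, Real.norm_eq_abs]
    exact mul_le_of_le_one_right h0 (Real.abs_cos_le_one _)
  · exact tri_cont.integrable_of_hasCompactSupport tri_supp
  · exact Eventually.of_forall fun s => by fun_prop

lemma Fe_int : Integrable Fe := by
  refine Integrable.mono' ((integrable_inv_one_add_sq).const_mul 8) Fe_cont.aestronglyMeasurable ?_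
  refine Eventually.of_forall fun x => ?_
  rw [Real.norm_of_nonneg (Fe_nonneg x)]
  have := Fe_le x
  rwa [div_eq_mul_inv] at this

lemma g0_cont : Continuous g0 := Fe_cont.add (Fe_cont.comp (continuous_id.add continuous_const))

lemma g0_int : Integrable g0 := Fe_int.add (Fe_int.comp_add_right 1)

/-- Fourier inversion -/
lemma g0_inv (y : ℝ) : ∫ x : ℝ, (g0 x : ℂ) * Complex.exp (y * x * Complex.I) = 2 * Real.pi * φ0 (-y) := by
  have hF : ∀ w : ℝ, FourierTransform.fourier φ0 w = ((g0 (-(2 * Real.pi) * w) : ℝ) : ℂ) := by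
    intro w
    rw [Real.fourier_eq', ← trans_φ0]
    refine integral_congr_ae (Eventually.of_forall fun s => ?_)
    simp only [smul_eq_mul, RCLike.inner_apply, conj_trivial]
    rw [mul_comm]
    congr 2
    push_cast
    ring
  have hFi : Integrable (FourierTransform.fourier φ0) := by
    have h1 : FourierTransform.fourier φ0 = fun w : ℝ => ((g0 (-(2 * Real.pi) * w) : ℝ) : ℂ) := funext hF
    rw [h1]
    exact (g0_int.comp_mul_left' (by have := Real.pi_pos; linarith)).ofReal
  have h := MeasureTheory.Integrable.fourierInv_fourier_eq φ0_int hFi (v := -y) φ0_cont.continuousAt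
  rw [Real.fourierInv_eq'] at h
  simp_rw [hF] at h
  have h2 := Measure.integral_comp_mul_left (fun x : ℝ => Complex.exp (y * x * Complex.I) * (g0 x : ℂ)) (-(2 * Real.pi))
  have h3 : ∫ w : ℝ, Complex.exp ((2 * Real.pi * inner ℝ w (-y) : ℝ) * Complex.I) • ((g0 (-(2 * Real.pi) * w) : ℝ) : ℂ) =
      ∫ w : ℝ, Complex.exp (y * ((-(2 * Real.pi) * w : ℝ) : ℂ) * Complex.I) * ((g0 (-(2 * Real.pi) * w) : ℝ) : ℂ) := by
    refine integral_congr_ae (Eventually.of_forall fun w => ?_)
    simp only [smul_eq_mul, RCLike.inner_apply, conj_trivial]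
    congr 2
    push_cast
    ring
  rw [h3, h2] at h
  have h4 : |(-(2 * Real.pi))⁻¹| = (2 * Real.pi)⁻¹ := by
    rw [inv_neg, abs_neg, abs_of_pos (by positivity)]
  rw [h4, Complex.real_smul] at h
  have h5 : ∫ x : ℝ, (g0 x : ℂ) * Complex.exp (y * x * Complex.I) = ∫ x : ℝ, Complex.exp (y * x * Complex.I) * (g0 x : ℂ) :=
    integral_congr_ae (Eventually.of_forall fun x => mul_comm _ _)
  rw [h5]
  have hpi : (Real.pi : ℂ) ≠ 0 := by exact_mod_cast Real.pi_ne_zero
  generalize ∫ x : ℝ, Complex.exp (y * x * Complex.I) * (g0 x : ℂ) = II at h ⊢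
  rw [← h]
  push_cast
  field_simp

end

end Pool.Agent.X110.LT
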