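import Pool.Agent.X110.LT6
import Pool.Agent.X110.LT7

set_option autoImplicit false

/-! Weak convergence of the tilted distributions. -/

namespace Pool.Agent.X110.LT

open Finset Filter Topology MeasureTheory ProbabilityTheory
open Pool.Agent.H306R2 Pool.Agent.Y746.OA Pool.Agent.X110.ND
open scoped BoundedContinuousFunction

noncomputable section

/-- tilted distribution -/
def tilt {Ω : Type*} [MeasurableSpace Ω] (ν : Measure Ω) (w : Ω → ℝ) (X : Ω → ℝ) : Measure ℝ :=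
  (ν.withDensity fun t => ENNReal.ofReal (w t / ∫ t, w t ∂ν)).map X

section
variable {Ω : Type*} [MeasurableSpace Ω] {ν : Measure Ω} {w : Ω → ℝ} {X : Ω → ℝ}

lemma tilt_prob (hw0 : ∀ t, 0 ≤ w t) (hwi : Integrable w ν) (hm : 0 < ∫ t, w t ∂ν)
    (hX : Measurable X) : IsProbabilityMeasure (tilt ν w X) := by
  constructor
  unfold tilt
  rw [Measure.map_apply hX MeasurableSet.univ, Set.preimage_univ, withDensity_apply _ MeasurableSet.univ,
    Measure.restrict_univ, ← ofReal_integral_eq_lintegral_ofReal (hwi.div_const _)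
      (Eventually.of_forall fun t => div_nonneg (hw0 t) hm.le), integral_div, div_self hm.ne', ENNReal.ofReal_one]

lemma tilt_integral {E : Type*} [NormedAddCommGroup E] [NormedSpace ℝ E] (hw : Measurable w) (hw0 : ∀ t, 0 ≤ w t)
    (hm : 0 < ∫ t, w t ∂ν) (hX : Measurable X) {f : ℝ → E}
    (hf : AEStronglyMeasurable f (tilt ν w X)) :
    ∫ x, f x ∂(tilt ν w X) = (∫ t, w t ∂ν)⁻¹ • ∫ t, w t • f (X t) ∂ν := by
  unfold tilt at hf ⊢
  rw [integral_map hX.aemeasurable hf, integral_withDensity_eq_integral_toReal_smul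
    ((hw.div_const _).ennreal_ofReal) (Eventually.of_forall fun _ => ENNReal.ofReal_lt_top), ← integral_smul]
  refine integral_congr_ae (Eventually.of_forall fun t => ?_)
  simp only
  rw [ENNReal.toReal_ofReal (div_nonneg (hw0 t) hm.le), smul_smul]
  congr 1
  rw [div_eq_mul_inv, mul_comm]

end

/-- the weight -/
def wT (δ : ℝ → ℝ) (α T t : ℝ) : ℝ := ‖riemannZeta (sp (δ T) t)‖ ^ (2 * α) * g0 (Xc (δ T) α t)

lemma g0_bdd : ∃ C : ℝ, 0 < C ∧ ∀ x, g0 x ≤ C := by
  refine ⟨16, by norm_num, fun x => ?_⟩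
  have h : ∀ y, Fe y ≤ 8 := fun y => (Fe_le y).trans (by
    rw [div_le_iff₀ (by positivity)]
    nlinarith [sq_nonneg y])
  unfold g0
  have := h x
  have := h (x + 1)
  linarith

lemma wT_meas {δ : ℝ → ℝ} {T : ℝ} (hδ : δ T ≤ 1 / 16) (α : ℝ) : Measurable (wT δ α T) := by
  unfold wT
  have hc := (zeta_sp_cont hδ).norm.measurable
  exact (hc.pow_const _).mul (g0_cont.measurable.comp (Xc_meas hδ α))

lemma wT_nonneg (δ : ℝ → ℝ) (α T t : ℝ) : 0 ≤ wT δ α T t := by
  unfold wT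
  have := (g0_pos (Xc (δ T) α t)).le
  positivity

lemma wT_int {δ V : ℝ → ℝ} {T : ℝ} (hV : 1 ≤ V T) (hδ : δ T ≤ 1 / 16) (α : ℝ) :
    Integrable (wT δ α T) (volume.restrict (gset (V T) (δ T) T)) := by
  obtain ⟨C, hC, hb⟩ := g0_bdd
  have h1 := (exp_int (T := T) hV hδ (2 * α)).mul_const C
  refine Integrable.mono' h1 (wT_meas hδ α).aestronglyMeasurable ?_
  rw [ae_restrict_iff' (gset_meas _ _ _ hδ)]
  refine Eventually.of_forall fun t ht => ?_
  rw [Real.norm_of_nonneg (wT_nonneg δ α T t), exp_Xf hV ht]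
  unfold wT
  exact mul_le_mul_of_nonneg_left (hb _) (by positivity)

/-- the functional with the weight -/
lemma Lam_g0 (δ V : ℝ → ℝ) (α T : ℝ) (h : ℝ → ℂ) :
    Lam δ V α T (fun x => (g0 x : ℂ) * h x) = (((2 * δ T) ^ (α ^ 2) * (1 / T) : ℝ) : ℂ) *
      ∫ t in gset (V T) (δ T) T, (wT δ α T t) • h (Xc (δ T) α t) := by
  unfold Lam
  congr 1
  refine integral_congr_ae (Eventually.of_forall fun t => ?_)
  simp only [wT, Complex.real_smul]
  push_cast
  ring

lemma Lam_one (δ V : ℝ → ℝ) (α T : ℝ) :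
    Lam δ V α T (fun x => (g0 x : ℂ)) = (((2 * δ T) ^ (α ^ 2) * (1 / T) *
      ∫ t in gset (V T) (δ T) T, wT δ α T t : ℝ) : ℂ) := by
  have h := Lam_g0 δ V α T (fun _ => 1)
  simp only [mul_one] at h
  rw [h]
  simp only [Complex.real_smul, mul_one]
  rw [integral_complex_ofReal]
  push_cast
  ring

/-- modulated spectrum -/
lemma Phi_mod (y x : ℝ) : Phi (fun s => φ0 (s - y)) x = (g0 x : ℂ) * Complex.exp (y * x * Complex.I) := by
  unfold Phi
  have h := integral_add_right_eq_self (μ := (volume : Measure ℝ))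
    (fun s : ℝ => φ0 (s - y) * Complex.exp (s * x * Complex.I)) y
  rw [← h, ← trans_φ0, ← integral_mul_const]
  refine integral_congr_ae (Eventually.of_forall fun s => ?_)
  simp only [add_sub_cancel_right]
  rw [mul_assoc (φ0 s), ← Complex.exp_add]
  congr 2
  push_cast
  ring

lemma mod_cont (y : ℝ) : Continuous fun s => φ0 (s - y) := φ0_cont.comp (by fun_prop)

lemma mod_supp (y : ℝ) : HasCompactSupport fun s => φ0 (s - y) := by
  have h := φ0_supp.comp_homeomorph (Homeomorph.subRight y)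
  exact h

/-- limits for the modulated weight -/
lemma lim_mod {δ V : ℝ → ℝ} (h : Adm δ V) (α y : ℝ) :
    Tendsto (fun T => ((Real.sqrt (Lg δ T) : ℝ) : ℂ) *
      Lam δ V α T (fun x => (g0 x : ℂ) * Complex.exp (y * x * Complex.I))) atTop
      (𝓝 (φ0 (-y) * (aR α : ℂ) * ((2 * Real.sqrt Real.pi : ℝ) : ℂ))) := by
  have h1 := key h α (mod_cont y) (mod_supp y)
  simp only [zero_sub] at h1
  have e : Phi (fun s => φ0 (s - y)) = fun x : ℝ => (g0 x : ℂ) * Complex.exp (y * x * Complex.I) := by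
    funext x; exact Phi_mod y x
  rwa [e] at h1

lemma lim_one {δ V : ℝ → ℝ} (h : Adm δ V) (α : ℝ) :
    Tendsto (fun T => Real.sqrt (Lg δ T) * ((2 * δ T) ^ (α ^ 2) * (1 / T) *
      ∫ t in gset (V T) (δ T) T, wT δ α T t)) atTop (𝓝 (4 * Real.sqrt Real.pi * aR α)) := by
  have h1 := lim_mod h α 0
  have e1 : (fun x : ℝ => (g0 x : ℂ) * Complex.exp (((0:ℝ):ℂ) * x * Complex.I)) = fun x => (g0 x : ℂ) := by
    funext x; simp
  rw [e1, neg_zero, φ0_zero] at h1
  have h2 := (Complex.continuous_re.tendsto _).comp h1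
  have e2 : (2 * (aR α : ℂ) * ((2 * Real.sqrt Real.pi : ℝ) : ℂ)).re = 4 * Real.sqrt Real.pi * aR α := by
    have : (2 * (aR α : ℂ) * ((2 * Real.sqrt Real.pi : ℝ) : ℂ)) = ((4 * Real.sqrt Real.pi * aR α : ℝ) : ℂ) := by
      push_cast; ring
    rw [this, Complex.ofReal_re]
  rw [e2] at h2
  refine h2.congr fun T => ?_
  simp only [Function.comp]
  rw [Lam_one, ← Complex.ofReal_mul, Complex.ofReal_re]

/-- the mass of the limit -/
lemma g0_mass : ∫ x, g0 x = 4 * Real.pi := by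
  have h := g0_inv 0
  have e1 : (fun x : ℝ => (g0 x : ℂ) * Complex.exp (((0:ℝ):ℂ) * x * Complex.I)) = fun x => (g0 x : ℂ) := by
    funext x; simp
  rw [e1, neg_zero, φ0_zero, integral_complex_ofReal] at h
  have h2 : ((∫ x, g0 x : ℝ) : ℂ) = ((4 * Real.pi : ℝ) : ℂ) := by rw [h]; push_cast; ring
  exact_mod_cast h2

/-- the limit distribution -/
def Pinf : Measure ℝ := tilt volume g0 id

lemma g0_mass_pos : 0 < ∫ x, g0 x := by rw [g0_mass]; positivity

instance : IsProbabilityMeasure Pinf := tilt_prob (fun x => (g0_pos x).le) g0_int g0_mass_pos measurable_id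

lemma Pinf_char (y : ℝ) : charFun Pinf y = φ0 (-y) / 2 := by
  rw [charFun_apply_real]
  unfold Pinf
  rw [tilt_integral g0_cont.measurable (fun x => (g0_pos x).le) g0_mass_pos measurable_id
    (Continuous.aestronglyMeasurable (by fun_prop)), g0_mass]
  have e : ∫ t : ℝ, g0 t • Complex.exp (y * (id t : ℝ) * Complex.I) = 2 * Real.pi * φ0 (-y) := by
    rw [← g0_inv]
    refine integral_congr_ae (Eventually.of_forall fun t => ?_)
    simp only [Complex.real_smul, id]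
  rw [e, Complex.real_smul]
  have hpi : (Real.pi : ℂ) ≠ 0 := by exact_mod_cast Real.pi_ne_zero
  push_cast
  field_simp
  ring

/-- the tilted distribution of `log |ζ|`, or a point mass for small `T` -/
def PT (δ V : ℝ → ℝ) (α T : ℝ) : Measure ℝ := by
  classical
  exact if 1 ≤ V T ∧ δ T ≤ 1 / 16 ∧ 0 < ∫ t in gset (V T) (δ T) T, wT δ α T t then
    tilt (volume.restrict (gset (V T) (δ T) T)) (wT δ α T) (Xc (δ T) α) else Measure.dirac 0

instance (δ V : ℝ → ℝ) (α T : ℝ) : IsProbabilityMeasure (PT δ V α T) := by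
  unfold PT
  split_ifs with h
  · exact tilt_prob (wT_nonneg δ α T) (wT_int h.1 h.2.1 α) h.2.2 (Xc_meas h.2.1 α)
  · infer_instance

lemma PT_ev {δ V : ℝ → ℝ} (h : Adm δ V) (α : ℝ) : ∀ᶠ T in atTop, 0 < T ∧ 0 < δ T ∧ 0 < Lg δ T ∧
    (1 ≤ V T ∧ δ T ≤ 1 / 16 ∧ 0 < ∫ t in gset (V T) (δ T) T, wT δ α T t) := by
  have h1 := (lim_one h α).eventually (lt_mem_nhds (by
    have := aR_pos α
    have := Real.sqrt_pos.mpr Real.pi_pos
    positivity : 0 < 4 * Real.sqrt Real.pi * aR α))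
  filter_upwards [h1, h.2.1, h.2.2.1, h.1.eventually (gt_mem_nhds (by norm_num : (0:ℝ) < 1 / 16)),
    eventually_gt_atTop (0:ℝ), (Lg_tendsto h).eventually (eventually_gt_atTop 0)] with T g1 g2 g3 g4 g5 g6
  refine ⟨g5, g3, g6, g2, g4.le, ?_⟩
  by_contra hcon
  push Not at hcon
  have h2 : Real.sqrt (Lg δ T) * ((2 * δ T) ^ (α ^ 2) * (1 / T) * ∫ t in gset (V T) (δ T) T, wT δ α T t) ≤ 0 := by
    refine mul_nonpos_of_nonneg_of_nonpos (Real.sqrt_nonneg _) (mul_nonpos_of_nonneg_of_nonpos (by positivity) hcon)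
  linarith

lemma PT_char {δ V : ℝ → ℝ} (h : Adm δ V) (α y : ℝ) :
    Tendsto (fun T => charFun (PT δ V α T) y) atTop (𝓝 (charFun Pinf y)) := by
  have h1 := lim_mod h α y
  have h2 := (Complex.continuous_ofReal.tendsto _).comp (lim_one h α)
  have hne : ((4 * Real.sqrt Real.pi * aR α : ℝ) : ℂ) ≠ 0 := by
    have := aR_pos α
    have := Real.sqrt_pos.mpr Real.pi_pos
    exact_mod_cast (by positivity : 4 * Real.sqrt Real.pi * aR α ≠ 0)
  have h3 := h1.div h2 hne
  have e : φ0 (-y) * (aR α : ℂ) * ((2 * Real.sqrt Real.pi : ℝ) : ℂ) / ((4 * Real.sqrt Real.pi * aR α : ℝ) : ℂ) =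
      charFun Pinf y := by
    rw [Pinf_char]
    push_cast at hne ⊢
    have h4 : (aR α : ℂ) ≠ 0 := by exact_mod_cast (aR_pos α).ne'
    have h5 : ((Real.sqrt Real.pi : ℝ) : ℂ) ≠ 0 := by exact_mod_cast (Real.sqrt_pos.mpr Real.pi_pos).ne'
    field_simp
    ring
  rw [e] at h3
  refine h3.congr' ?_
  filter_upwards [PT_ev h α] with T ⟨g1, g2, g3, g4⟩
  have e2 : PT δ V α T = tilt (volume.restrict (gset (V T) (δ T) T)) (wT δ α T) (Xc (δ T) α) := by
    unfold PT
    rw [if_pos g4]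
  rw [e2, charFun_apply_real, tilt_integral (wT_meas g4.2.1 α) (wT_nonneg δ α T) g4.2.2 (Xc_meas g4.2.1 α)
    (Continuous.aestronglyMeasurable (by fun_prop))]
  simp only [Pi.div_apply, Function.comp]
  rw [Lam_g0, Complex.real_smul]
  have hs : ((Real.sqrt (Lg δ T) : ℝ) : ℂ) ≠ 0 := by exact_mod_cast (Real.sqrt_pos.mpr g3).ne'
  have hc : (((2 * δ T) ^ (α ^ 2) * (1 / T) : ℝ) : ℂ) ≠ 0 := by
    have : 0 < (2 * δ T) ^ (α ^ 2) * (1 / T) := by positivity
    exact_mod_cast this.ne'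
  have hm : ((∫ t in gset (V T) (δ T) T, wT δ α T t : ℝ) : ℂ) ≠ 0 := by exact_mod_cast g4.2.2.ne'
  rw [Complex.ofReal_mul (Real.sqrt (Lg δ T)), Complex.ofReal_mul ((2 * δ T) ^ (α ^ 2) * (1 / T))]
  generalize (((2 * δ T) ^ (α ^ 2) * (1 / T) : ℝ) : ℂ) = c at hc ⊢
  generalize ((Real.sqrt (Lg δ T) : ℝ) : ℂ) = s at hs ⊢
  rw [Complex.ofReal_inv]
  generalize ((∫ t in gset (V T) (δ T) T, wT δ α T t : ℝ) : ℂ) = m at hm ⊢
  generalize (∫ t in gset (V T) (δ T) T, wT δ α T t • Complex.exp (y * (Xc (δ T) α t : ℝ) * Complex.I)) = II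
  field_simp

/-- the real functional -/
def LamR (δ V : ℝ → ℝ) (α T : ℝ) (F : ℝ → ℝ) : ℝ :=
  Real.sqrt (Lg δ T) * ((2 * δ T) ^ (α ^ 2) * (1 / T) *
    ∫ t in gset (V T) (δ T) T, ‖riemannZeta (sp (δ T) t)‖ ^ (2 * α) * F (Xc (δ T) α t))

/-- **The limit for continuous functions.** -/
theorem lim_cont {δ V : ℝ → ℝ} (h : Adm δ V) (α : ℝ) {F : ℝ → ℝ} (hF : Continuous F) {C : ℝ}
    (hFC : ∀ x, |F x| ≤ C * g0 x) :
    Tendsto (fun T => LamR δ V α T F) atTop (𝓝 (aR α / Real.sqrt Real.pi * ∫ x, F x)) := by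
  refine tendsto_of_seq_tendsto fun u hu => ?_
  set f : ℝ →ᵇ ℝ := BoundedContinuousFunction.ofNormedAddCommGroup (fun x => F x / g0 x)
    (hF.div g0_cont fun x => (g0_pos x).ne') C (fun x => by
      rw [norm_div, Real.norm_eq_abs, Real.norm_of_nonneg (g0_pos x).le, div_le_iff₀ (g0_pos x)]
      exact hFC x) with hf
  have hfx : ∀ x, f x = F x / g0 x := fun x => rfl
  let μ : ℕ → ProbabilityMeasure ℝ := fun n => ⟨PT δ V α (u n), inferInstance⟩
  let μ0 : ProbabilityMeasure ℝ := ⟨Pinf, inferInstance⟩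
  have hw : Tendsto μ atTop (𝓝 μ0) := by
    refine ProbabilityMeasure.tendsto_of_tendsto_charFun fun y => ?_
    exact (PT_char h α y).comp hu
  have h1 := (ProbabilityMeasure.tendsto_iff_forall_integral_tendsto.mp hw) f
  have h2 : Tendsto (fun n => ∫ x, f x ∂(PT δ V α (u n))) atTop (𝓝 (∫ x, f x ∂Pinf)) := h1
  have h3 := ((lim_one h α).comp hu).mul h2
  have e0 : ∫ x, f x ∂Pinf = (4 * Real.pi)⁻¹ * ∫ x, F x := by
    unfold Pinf
    rw [tilt_integral g0_cont.measurable (fun x => (g0_pos x).le) g0_mass_pos measurable_id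
      f.continuous.aestronglyMeasurable, g0_mass, smul_eq_mul]
    congr 1
    refine integral_congr_ae (Eventually.of_forall fun x => ?_)
    simp only [id, smul_eq_mul, hfx]
    rw [mul_div_cancel₀ _ (g0_pos x).ne']
  have e1 : 4 * Real.sqrt Real.pi * aR α * ∫ x, f x ∂Pinf = aR α / Real.sqrt Real.pi * ∫ x, F x := by
    rw [e0]
    have h4 := Real.sq_sqrt Real.pi_pos.le
    have h5 := Real.sqrt_pos.mpr Real.pi_pos
    have h6 : (4 * Real.pi)⁻¹ = (4 * (Real.sqrt Real.pi * Real.sqrt Real.pi))⁻¹ := by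
      rw [Real.mul_self_sqrt Real.pi_pos.le]
    rw [h6]
    field_simp
  rw [e1] at h3
  refine h3.congr' ?_
  filter_upwards [hu.eventually (PT_ev h α)] with n ⟨g1, g2, g3, g4⟩
  have e2 : PT δ V α (u n) = tilt (volume.restrict (gset (V (u n)) (δ (u n)) (u n))) (wT δ α (u n)) (Xc (δ (u n)) α) := by
    unfold PT
    rw [if_pos g4]
  simp only [Function.comp]
  rw [e2, tilt_integral (wT_meas g4.2.1 α) (wT_nonneg δ α (u n)) g4.2.2 (Xc_meas g4.2.1 α)
    f.continuous.aestronglyMeasurable, smul_eq_mul]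
  have e3 : ∫ t in gset (V (u n)) (δ (u n)) (u n), wT δ α (u n) t • f (Xc (δ (u n)) α t) =
      ∫ t in gset (V (u n)) (δ (u n)) (u n), ‖riemannZeta (sp (δ (u n)) t)‖ ^ (2 * α) * F (Xc (δ (u n)) α t) := by
    refine integral_congr_ae (Eventually.of_forall fun t => ?_)
    simp only [smul_eq_mul, hfx, wT]
    have := (g0_pos (Xc (δ (u n)) α t)).ne'
    field_simp
  rw [e3]
  unfold LamR
  have hm := g4.2.2.ne'
  generalize (∫ t in gset (V (u n)) (δ (u n)) (u n), wT δ α (u n) t) = m at hm ⊢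
  field_simp

end

end Pool.Agent.X110.LT
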