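import Pool.Agent.X110.LT8

set_option autoImplicit false

/-! Sharp large deviations of `log |ζ|` near the critical line. -/

namespace Pool.Agent.X110.LT

open Finset Filter Topology MeasureTheory ProbabilityTheory
open Pool.Agent.H306R2 Pool.Agent.Y746.OA Pool.Agent.X110.ND

noncomputable section

/-- clamping to `[0,1]` -/
def cl (x : ℝ) : ℝ := max 0 (min 1 x)

lemma cl_cont : Continuous cl := by unfold cl; fun_prop
lemma cl_nonneg (x : ℝ) : 0 ≤ cl x := le_max_left _ _
lemma cl_le_one (x : ℝ) : cl x ≤ 1 := max_le zero_le_one (min_le_left _ _)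
lemma cl_one {x : ℝ} (h : 1 ≤ x) : cl x = 1 := by
  unfold cl
  rw [min_eq_left h]; simp
lemma cl_zero {x : ℝ} (h : x ≤ 0) : cl x = 0 := by
  unfold cl
  exact max_eq_left ((min_le_right _ _).trans h)

lemma LamR_mono {δ V : ℝ → ℝ} {α T : ℝ} (hT : 0 < T) (hV : 1 ≤ V T) (hδ0 : 0 < δ T) (hδ : δ T ≤ 1 / 16) {F G : ℝ → ℝ}
    (hFm : Measurable F) (hGm : Measurable G) {C : ℝ} (hF : ∀ x, |F x| ≤ C) (hG : ∀ x, |G x| ≤ C)
    (hFG : ∀ x, F x ≤ G x) : LamR δ V α T F ≤ LamR δ V α T G := by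
  have hI : ∀ H : ℝ → ℝ, Measurable H → (∀ x, |H x| ≤ C) →
      Integrable (fun t => ‖riemannZeta (sp (δ T) t)‖ ^ (2 * α) * H (Xc (δ T) α t)) (volume.restrict (gset (V T) (δ T) T)) := by
    intro H hH hb
    have h1 : Integrable (fun t => ‖riemannZeta (sp (δ T) t)‖ ^ (2 * α)) (volume.restrict (gset (V T) (δ T) T)) := by
      have h2 := exp_int (T := T) hV hδ (2 * α)
      refine Integrable.congr h2 ?_
      rw [EventuallyEq, ae_restrict_iff' (gset_meas _ _ _ hδ)]
      exact Eventually.of_forall fun t ht => exp_Xf hV ht _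
    exact h1.mul_bdd (c := C) (hH.comp (Xc_meas hδ α)).aestronglyMeasurable (Eventually.of_forall fun t => hb _)
  unfold LamR
  refine mul_le_mul_of_nonneg_left (mul_le_mul_of_nonneg_left ?_ (by positivity)) (Real.sqrt_nonneg _)
  refine integral_mono (hI F hFm hF) (hI G hGm hG) fun t => ?_
  exact mul_le_mul_of_nonneg_left (hFG _) (Real.rpow_nonneg (norm_nonneg _) _)

/-- the tilted indicator -/
def Ei (α : ℝ) (ρ : ℝ → ℝ) (x : ℝ) : ℝ := Set.indicator {x | 0 ≤ ρ x} (fun x => Real.exp (-(2 * α * x))) x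

/-- **The limit for indicators.** -/
theorem lim_ind {δ V : ℝ → ℝ} (h : Adm δ V) (α : ℝ) {ρ : ℝ → ℝ} (hρ : Continuous ρ) (h0 : volume {x | ρ x = 0} = 0)
    {C : ℝ} (hC : 0 ≤ C) (hb : ∀ x, -1 ≤ ρ x → Real.exp (-(2 * α * x)) ≤ C * g0 x) :
    Tendsto (fun T => LamR δ V α T (Ei α ρ)) atTop (𝓝 (aR α / Real.sqrt Real.pi * ∫ x, Ei α ρ x)) := by
  set κ := aR α / Real.sqrt Real.pi with hκ
  set E : ℝ → ℝ := fun x => Real.exp (-(2 * α * x)) with hE
  have hEc : Continuous E := by fun_prop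
  have hE0 : ∀ x, 0 < E x := fun x => Real.exp_pos _
  set P : ℕ → ℝ → ℝ := fun n x => E x * cl (1 + (n + 1) * ρ x) with hP
  set Q : ℕ → ℝ → ℝ := fun n x => E x * cl ((n + 1) * ρ x) with hQ
  have hPc : ∀ n, Continuous (P n) := fun n => hEc.mul (cl_cont.comp (by fun_prop))
  have hQc : ∀ n, Continuous (Q n) := fun n => hEc.mul (cl_cont.comp (by fun_prop))
  have hP0 : ∀ n x, 0 ≤ P n x := fun n x => mul_nonneg (hE0 x).le (cl_nonneg _)
  have hQ0 : ∀ n x, 0 ≤ Q n x := fun n x => mul_nonneg (hE0 x).le (cl_nonneg _)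
  have hg0 : ∀ x, 0 ≤ C * g0 x := fun x => mul_nonneg hC (g0_pos x).le
  have hPb : ∀ n x, |P n x| ≤ C * g0 x := by
    intro n x
    rw [abs_of_nonneg (hP0 n x)]
    by_cases hx : -1 ≤ ρ x
    · exact (mul_le_of_le_one_right (hE0 x).le (cl_le_one _)).trans (hb x hx)
    · push Not at hx
      have : 1 + (n + 1) * ρ x ≤ 0 := by
        have hn : (0:ℝ) ≤ n := Nat.cast_nonneg n
        nlinarith
      simp only [hP]
      rw [cl_zero this, mul_zero]
      exact hg0 x
  have hQb : ∀ n x, |Q n x| ≤ C * g0 x := by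
    intro n x
    rw [abs_of_nonneg (hQ0 n x)]
    by_cases hx : -1 ≤ ρ x
    · exact (mul_le_of_le_one_right (hE0 x).le (cl_le_one _)).trans (hb x hx)
    · push Not at hx
      have : (n + 1) * ρ x ≤ 0 := by
        have hn : (0:ℝ) ≤ n := Nat.cast_nonneg n
        nlinarith
      simp only [hQ]
      rw [cl_zero this, mul_zero]
      exact hg0 x
  have hEi0 : ∀ x, 0 ≤ Ei α ρ x := fun x => Set.indicator_nonneg (fun y _ => (hE0 y).le) x
  have hQE : ∀ n x, Q n x ≤ Ei α ρ x := by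
    intro n x
    by_cases hx : 0 ≤ ρ x
    · unfold Ei
      rw [Set.indicator_of_mem (show x ∈ {x | 0 ≤ ρ x} from hx)]
      exact mul_le_of_le_one_right (hE0 x).le (cl_le_one _)
    · push Not at hx
      have : (n + 1) * ρ x ≤ 0 := by
        have hn : (0:ℝ) ≤ n := Nat.cast_nonneg n
        nlinarith
      simp only [hQ]
      rw [cl_zero this, mul_zero]
      exact hEi0 x
  have hEP : ∀ n x, Ei α ρ x ≤ P n x := by
    intro n x
    by_cases hx : 0 ≤ ρ x
    · unfold Ei
      rw [Set.indicator_of_mem (show x ∈ {x | 0 ≤ ρ x} from hx)]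
      simp only [hP]
      rw [cl_one, mul_one]
      have hn : (0:ℝ) ≤ n := Nat.cast_nonneg n
      have : 0 ≤ (n + 1) * ρ x := by positivity
      linarith
    · unfold Ei
      rw [Set.indicator_of_notMem (show x ∉ {x | 0 ≤ ρ x} from hx)]
      exact hP0 n x
  have hEib : ∀ x, |Ei α ρ x| ≤ C * g0 x := by
    intro x
    rw [abs_of_nonneg (hEi0 x)]
    exact (hEP 0 x).trans ((le_abs_self _).trans (hPb 0 x))
  have hmS : MeasurableSet {x | 0 ≤ ρ x} := measurableSet_le measurable_const hρ.measurable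
  have hEim : Measurable (Ei α ρ) := by
    unfold Ei
    exact hEc.measurable.indicator hmS
  have hgi : Integrable fun x => C * g0 x := g0_int.const_mul C
  -- convergence of the integrals
  have hPl : Tendsto (fun n => ∫ x, P n x) atTop (𝓝 (∫ x, Ei α ρ x)) := by
    refine tendsto_integral_of_dominated_convergence (fun x => C * g0 x) (fun n => (hPc n).aestronglyMeasurable) hgi
      (fun n => Eventually.of_forall fun x => hPb n x) (Eventually.of_forall fun x => ?_)
    by_cases hx : 0 ≤ ρ x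
    · refine tendsto_const_nhds.congr fun n => ?_
      exact le_antisymm (hEP n x) (by
        unfold Ei
        rw [Set.indicator_of_mem (show x ∈ {x | 0 ≤ ρ x} from hx)]
        exact mul_le_of_le_one_right (hE0 x).le (cl_le_one _))
    · push Not at hx
      have e1 : Ei α ρ x = 0 := by
        unfold Ei
        rw [Set.indicator_of_notMem (show x ∉ {x | 0 ≤ ρ x} from not_le.mpr hx)]
      rw [e1]
      refine tendsto_const_nhds.congr' ?_
      obtain ⟨N, hN⟩ := exists_nat_gt (1 / (-ρ x))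
      filter_upwards [eventually_ge_atTop N] with n hn
      have h2 : (N:ℝ) ≤ n := by exact_mod_cast hn
      have h3 : 1 / (-ρ x) < (n:ℝ) + 1 := by linarith
      rw [div_lt_iff₀ (by linarith)] at h3
      simp only [hP]
      rw [cl_zero (by linarith), mul_zero]
  have hQl : Tendsto (fun n => ∫ x, Q n x) atTop (𝓝 (∫ x, Ei α ρ x)) := by
    refine tendsto_integral_of_dominated_convergence (fun x => C * g0 x) (fun n => (hQc n).aestronglyMeasurable) hgi
      (fun n => Eventually.of_forall fun x => hQb n x) ?_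
    have hae : ∀ᵐ x : ℝ, ρ x ≠ 0 := by
      rw [ae_iff]
      simpa using h0
    filter_upwards [hae] with x hx0
    rcases lt_or_gt_of_ne hx0 with hx | hx
    · have e1 : Ei α ρ x = 0 := by
        unfold Ei
        rw [Set.indicator_of_notMem (show x ∉ {x | 0 ≤ ρ x} from not_le.mpr hx)]
      rw [e1]
      refine tendsto_const_nhds.congr fun n => ?_
      have hn : (0:ℝ) ≤ n := Nat.cast_nonneg n
      simp only [hQ]
      rw [cl_zero (by nlinarith), mul_zero]
    · have e1 : Ei α ρ x = E x := by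
        unfold Ei
        rw [Set.indicator_of_mem (show x ∈ {x | 0 ≤ ρ x} from hx.le)]
      rw [e1]
      refine tendsto_const_nhds.congr' ?_
      obtain ⟨N, hN⟩ := exists_nat_gt (1 / ρ x)
      filter_upwards [eventually_ge_atTop N] with n hn
      have h2 : (N:ℝ) ≤ n := by exact_mod_cast hn
      have h3 : 1 / ρ x < (n:ℝ) + 1 := by linarith
      rw [div_lt_iff₀ hx] at h3
      simp only [hQ]
      rw [cl_one h3.le, mul_one]
  obtain ⟨Cg, hCg, hgb⟩ := g0_bdd
  have hmono : ∀ᶠ T in atTop, ∀ n, LamR δ V α T (Q n) ≤ LamR δ V α T (Ei α ρ) ∧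
      LamR δ V α T (Ei α ρ) ≤ LamR δ V α T (P n) := by
    filter_upwards [h.2.1, h.2.2.1, h.1.eventually (gt_mem_nhds (by norm_num : (0:ℝ) < 1 / 16)),
      eventually_gt_atTop (0:ℝ)] with T g1 g2 g3 g4 n
    have hbb : ∀ {H : ℝ → ℝ}, (∀ x, |H x| ≤ C * g0 x) → ∀ x, |H x| ≤ C * Cg := fun hH x =>
      (hH x).trans (mul_le_mul_of_nonneg_left (hgb x) hC)
    exact ⟨LamR_mono g4 g1 g2 g3.le (hQc n).measurable hEim (hbb (hQb n)) (hbb hEib) (hQE n),
      LamR_mono g4 g1 g2 g3.le hEim (hPc n).measurable (hbb hEib) (hbb (hPb n)) (hEP n)⟩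
  refine tendsto_order.mpr ⟨fun a ha => ?_, fun b hb' => ?_⟩
  · have h1 := ((hQl.const_mul κ).eventually (lt_mem_nhds ha)).exists
    obtain ⟨n, hn⟩ := h1
    filter_upwards [(lim_cont h α (hQc n) (hQb n)).eventually (lt_mem_nhds hn), hmono] with T g1 g2
    exact lt_of_lt_of_le g1 (g2 n).1
  · have h1 := ((hPl.const_mul κ).eventually (gt_mem_nhds hb')).exists
    obtain ⟨n, hn⟩ := h1
    filter_upwards [(lim_cont h α (hPc n) (hPb n)).eventually (gt_mem_nhds hn), hmono] with T g1 g2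
    exact lt_of_le_of_lt (g2 n).2 g1

lemma LamR_ind {δ V : ℝ → ℝ} {α T : ℝ} (hV : 1 ≤ V T) (hδ0 : 0 < δ T) (hδ : δ T ≤ 1 / 16) {ρ : ℝ → ℝ}
    (hρ : Continuous ρ) : LamR δ V α T (Ei α ρ) = Real.sqrt (Lg δ T) * ((2 * δ T) ^ (-(α ^ 2)) * (1 / T) *
      (volume (gset (V T) (δ T) T ∩ {t | 0 ≤ ρ (Xc (δ T) α t)})).toReal) := by
  have h2 : 0 < 2 * δ T := by linarith
  have hmS : MeasurableSet {t | 0 ≤ ρ (Xc (δ T) α t)} :=
    measurableSet_le measurable_const (hρ.measurable.comp (Xc_meas hδ α))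
  unfold LamR
  have e1 : ∫ t in gset (V T) (δ T) T, ‖riemannZeta (sp (δ T) t)‖ ^ (2 * α) * Ei α ρ (Xc (δ T) α t) =
      ∫ t in gset (V T) (δ T) T, Set.indicator {t | 0 ≤ ρ (Xc (δ T) α t)} (fun _ => (2 * δ T) ^ (-(2 * α ^ 2))) t := by
    refine setIntegral_congr_fun (gset_meas _ _ _ hδ) fun t ht => ?_
    by_cases hx : 0 ≤ ρ (Xc (δ T) α t)
    · unfold Ei
      rw [Set.indicator_of_mem (show Xc (δ T) α t ∈ {x | 0 ≤ ρ x} from hx),
        Set.indicator_of_mem (show t ∈ {t | 0 ≤ ρ (Xc (δ T) α t)} from hx), ← exp_Xf hV ht, ← Real.exp_add,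
        Real.rpow_def_of_pos h2]
      congr 1
      unfold Xc
      ring
    · unfold Ei
      rw [Set.indicator_of_notMem (show Xc (δ T) α t ∉ {x | 0 ≤ ρ x} from hx),
        Set.indicator_of_notMem (show t ∉ {t | 0 ≤ ρ (Xc (δ T) α t)} from hx), mul_zero]
  rw [e1, integral_indicator hmS, setIntegral_const, Measure.real, Measure.restrict_apply hmS, smul_eq_mul,
    Set.inter_comm]
  have e2 : (2 * δ T) ^ (-(α ^ 2)) = (2 * δ T) ^ (α ^ 2) * (2 * δ T) ^ (-(2 * α ^ 2)) := by
    rw [← Real.rpow_add h2]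
    congr 1; ring
  rw [e2]
  ring

/-- existence of an admissible truncation -/
lemma exists_Adm {δ : ℝ → ℝ} (h1 : Tendsto δ atTop (𝓝 0)) (h2 : ∀ᶠ T in atTop, 0 < δ T)
    (h3 : Tendsto (fun T => δ T * Real.log T / Real.log (Real.log T)) atTop atTop) : ∃ V : ℝ → ℝ, Adm δ V := by
  have hll : Tendsto (fun T => Real.log (Real.log T)) atTop atTop := Real.tendsto_log_atTop.comp Real.tendsto_log_atTop
  refine ⟨fun T => Real.exp (Real.sqrt (Real.log (Real.log T) * (δ T * Real.log T))), h1, ?_, h2, ?_, ?_⟩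
  · exact Eventually.of_forall fun T => Real.one_le_exp (Real.sqrt_nonneg _)
  · have h4 := Real.tendsto_sqrt_atTop.comp h3
    refine h4.congr' ?_
    filter_upwards [hll.eventually (eventually_gt_atTop 0), h2, Real.tendsto_log_atTop.eventually (eventually_gt_atTop 0)]
      with T g1 g2 g3
    simp only [Function.comp]
    rw [Real.log_exp, Real.sqrt_eq_iff_eq_sq (by positivity) (by positivity), div_pow, Real.sq_sqrt (by positivity)]
    field_simp
  · have h4 : Tendsto (fun T => Real.sqrt ((δ T * Real.log T / Real.log (Real.log T))⁻¹)) atTop (𝓝 0) := by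
      have h5 := (Real.continuous_sqrt.tendsto 0).comp (tendsto_inv_atTop_zero.comp h3)
      rwa [Real.sqrt_zero] at h5
    refine h4.congr' ?_
    filter_upwards [hll.eventually (eventually_gt_atTop 0), h2, Real.tendsto_log_atTop.eventually (eventually_gt_atTop 0)]
      with T g1 g2 g3
    have hp : 0 < δ T * Real.log T := by positivity
    rw [Real.log_exp, Real.sqrt_eq_iff_eq_sq (by positivity) (by positivity), div_pow, Real.sq_sqrt (by positivity)]
    field_simp

/-- from the good set to the whole interval -/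
theorem lim_meas {δ : ℝ → ℝ} (h1 : Tendsto δ atTop (𝓝 0)) (h2 : ∀ᶠ T in atTop, 0 < δ T)
    (h3 : Tendsto (fun T => δ T * Real.log T / Real.log (Real.log T)) atTop atTop) (α : ℝ) {ρ : ℝ → ℝ}
    (hρ : Continuous ρ) (h0 : volume {x | ρ x = 0} = 0)
    {C : ℝ} (hC : 0 ≤ C) (hb : ∀ x, -1 ≤ ρ x → Real.exp (-(2 * α * x)) ≤ C * g0 x) (S : ℝ → Set ℝ)
    (hS : ∀ T t, 0 < δ T → t ∈ Set.Ioc 0 T → riemannZeta (sp (δ T) t) ≠ 0 → (t ∈ S T ↔ 0 ≤ ρ (Xc (δ T) α t))) :
    Tendsto (fun T => Real.sqrt (Lg δ T) * ((2 * δ T) ^ (-(α ^ 2)) * (1 / T) *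
      (volume (Set.Ioc 0 T ∩ S T)).toReal)) atTop (𝓝 (aR α / Real.sqrt Real.pi * ∫ x, Ei α ρ x)) := by
  obtain ⟨V, hA⟩ := exists_Adm h1 h2 h3
  have hlim := lim_ind hA α hρ h0 hC hb
  -- the error
  obtain ⟨c, hc, H⟩ := cmoment 0 le_rfl
  obtain ⟨A, C', T0, hC', H2⟩ := H (α ^ 2 + 2) (by positivity)
  have hev := hA.ev (C := C') (A := A) (T0 := T0) hc
  have hz : Tendsto (fun T : ℝ => (Real.log T)⁻¹) atTop (𝓝 0) := tendsto_inv_atTop_zero.comp Real.tendsto_log_atTop
  have hlim2 := hlim.add hz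
  rw [add_zero] at hlim2
  refine tendsto_of_tendsto_of_tendsto_of_le_of_le' hlim hlim2 ?_ ?_
  · filter_upwards [hev, h2] with T ⟨g1, g2, g3, g4, g5, g6, g7, g8⟩ g9
    rw [LamR_ind g4 g9 g6 hρ]
    have h22 : 0 < 2 * δ T := by linarith
    refine mul_le_mul_of_nonneg_left (mul_le_mul_of_nonneg_left ?_ (by positivity)) (Real.sqrt_nonneg _)
    refine ENNReal.toReal_mono ?_ (measure_mono ?_)
    · refine ne_top_of_le_ne_top ?_ (measure_mono Set.inter_subset_left)
      simp
    · intro t ht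
      refine ⟨ht.1.1, ?_⟩
      have hne : riemannZeta (sp (δ T) t) ≠ 0 := by
        intro h9
        have h10 := ht.1.2.1
        rw [h9, norm_zero] at h10
        exact absurd h10 (not_lt.mpr (inv_nonneg.mpr (by linarith)))
      exact (hS T t g9 ht.1.1 hne).mpr ht.2
  · filter_upwards [hev, h2] with T ⟨g1, g2, g3, g4, g5, g6, g7, g8⟩ g9
    rw [LamR_ind g4 g9 g6 hρ]
    obtain ⟨k1, k2, k3, k4⟩ := H2 T g1 (δ T) g5 g6
    have k5 := (k4 (V T) g7 g8).1
    have h22 : 0 < 2 * δ T := by linarith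
    have hT0 : 0 < T := by linarith
    have hL0 : 0 < Real.log T := by linarith
    set U := gset (V T) (δ T) T ∩ {t | 0 ≤ ρ (Xc (δ T) α t)} with hU
    have m1 : (volume (Set.Ioc 0 T ∩ S T)).toReal ≤ (volume U).toReal + T * Real.log T ^ (-(α ^ 2 + 2)) := by
      refine le_trans ?_ (add_le_add_right k5 _)
      rw [← ENNReal.toReal_add (ne_top_of_le_ne_top (gset_fin (V T) (δ T) T) (measure_mono Set.inter_subset_left))
        (ne_top_of_le_ne_top (by simp) (measure_mono Set.sdiff_subset))]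
      refine ENNReal.toReal_mono ?_ ((measure_mono ?_).trans (measure_union_le _ _))
      · refine ENNReal.add_ne_top.mpr ⟨ne_top_of_le_ne_top (gset_fin (V T) (δ T) T) (measure_mono Set.inter_subset_left),
          ne_top_of_le_ne_top (by simp) (measure_mono Set.sdiff_subset)⟩
      · intro t ht
        by_cases hg : t ∈ gset (V T) (δ T) T
        · left
          have hne : riemannZeta (sp (δ T) t) ≠ 0 := by
            intro h9
            have h10 := hg.2.1
            rw [h9, norm_zero] at h10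
            exact absurd h10 (not_lt.mpr (inv_nonneg.mpr (by linarith)))
          exact ⟨hg, (hS T t g9 ht.1 hne).mp ht.2⟩
        · right
          exact ⟨ht.1, hg⟩
    have m2 : Real.sqrt (Lg δ T) ≤ Real.log T := by
      have e1 : Lg δ T ≤ Real.log T := by
        unfold Lg
        rw [← Real.log_inv]
        have e2 : (2 * δ T)⁻¹ ≤ Real.log T := by
          have : (2 * δ T)⁻¹ ≤ 2 / δ T := by
            rw [mul_inv, div_eq_mul_inv]
            have := inv_pos.mpr g9
            nlinarith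
          linarith
        calc Real.log (2 * δ T)⁻¹ ≤ (2 * δ T)⁻¹ := (Real.log_le_sub_one_of_pos (inv_pos.mpr h22)).trans (by linarith)
          _ ≤ _ := e2
      calc Real.sqrt (Lg δ T) ≤ Real.sqrt (Real.log T) := Real.sqrt_le_sqrt e1
        _ ≤ Real.log T := by
          rw [Real.sqrt_le_left (by linarith)]
          nlinarith
    have m3 : (2 * δ T) ^ (-(α ^ 2)) ≤ Real.log T ^ (α ^ 2) := by
      rw [Real.rpow_neg h22.le, ← Real.inv_rpow h22.le]
      refine Real.rpow_le_rpow (by positivity) ?_ (sq_nonneg _)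
      have : (2 * δ T)⁻¹ ≤ 2 / δ T := by
        rw [mul_inv, div_eq_mul_inv]
        have := inv_pos.mpr g9
        nlinarith
      linarith
    have m4 : Real.sqrt (Lg δ T) * ((2 * δ T) ^ (-(α ^ 2)) * (1 / T) * (T * Real.log T ^ (-(α ^ 2 + 2)))) ≤
        (Real.log T)⁻¹ := by
      calc Real.sqrt (Lg δ T) * ((2 * δ T) ^ (-(α ^ 2)) * (1 / T) * (T * Real.log T ^ (-(α ^ 2 + 2))))
          = Real.sqrt (Lg δ T) * ((2 * δ T) ^ (-(α ^ 2)) * Real.log T ^ (-(α ^ 2 + 2))) := by
            field_simp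
        _ ≤ Real.log T * (Real.log T ^ (α ^ 2) * Real.log T ^ (-(α ^ 2 + 2))) := by gcongr
        _ = (Real.log T)⁻¹ := by
            rw [← Real.rpow_add hL0]
            have : α ^ 2 + -(α ^ 2 + 2) = -2 := by ring
            rw [this, show (-2:ℝ) = -1 + -1 by norm_num, Real.rpow_add hL0, Real.rpow_neg_one]
            field_simp
    calc Real.sqrt (Lg δ T) * ((2 * δ T) ^ (-(α ^ 2)) * (1 / T) * (volume (Set.Ioc 0 T ∩ S T)).toReal)
        ≤ Real.sqrt (Lg δ T) * ((2 * δ T) ^ (-(α ^ 2)) * (1 / T) *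
          ((volume U).toReal + T * Real.log T ^ (-(α ^ 2 + 2)))) := by gcongr
      _ = Real.sqrt (Lg δ T) * ((2 * δ T) ^ (-(α ^ 2)) * (1 / T) * (volume U).toReal) +
          Real.sqrt (Lg δ T) * ((2 * δ T) ^ (-(α ^ 2)) * (1 / T) * (T * Real.log T ^ (-(α ^ 2 + 2)))) := by ring
      _ ≤ _ := by gcongr

end

end Pool.Agent.X110.LT
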