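import Pool.Agent.X110.LT9

set_option autoImplicit false

/-! Sharp large deviations of `log |ζ|` near the critical line: intervals and half-lines. -/

namespace Pool.Agent.X110.LT

open Finset Filter Topology MeasureTheory ProbabilityTheory
open Pool.Agent.H306R2 Pool.Agent.Y746.OA Pool.Agent.X110.ND

noncomputable section

lemma aR_mult (α : ℝ) : Multipliable fun p : Nat.Primes => gR α p := by
  have h := Real.multipliable_one_add_of_summable (gR_summable α)
  simpa only [add_sub_cancel] using h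

/-- weight comparison on bounded sets -/
lemma exp_le_g0_of_abs (α M : ℝ) (hM : 0 ≤ M) : ∃ C : ℝ, 0 ≤ C ∧ ∀ x, |x| ≤ M → Real.exp (-(2 * α * x)) ≤ C * g0 x := by
  have hc : 0 < 4 * (1 - Real.cos (1 / 2)) := cg_pos
  refine ⟨Real.exp (2 * |α| * M) * ((M + 2) ^ 2 / (4 * (1 - Real.cos (1 / 2)))), by positivity, fun x hx => ?_⟩
  have h1 : -(2 * α * x) ≤ 2 * |α| * M := by
    have h2 : |α * x| ≤ |α| * M := by rw [abs_mul]; gcongr
    have h3 := neg_abs_le (α * x)
    linarith
  have h2 : 4 * (1 - Real.cos (1 / 2)) / (M + 2) ^ 2 ≤ g0 x := by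
    refine le_trans ?_ (g0_lower x)
    gcongr
  have h3 : 1 ≤ (M + 2) ^ 2 / (4 * (1 - Real.cos (1 / 2))) * g0 x := by
    calc (1:ℝ) = (M + 2) ^ 2 / (4 * (1 - Real.cos (1 / 2))) * (4 * (1 - Real.cos (1 / 2)) / (M + 2) ^ 2) := by
          generalize 4 * (1 - Real.cos (1 / 2)) = q at hc
          have hM2 : (0:ℝ) < (M + 2) ^ 2 := by positivity
          field_simp
      _ ≤ _ := by gcongr
  calc Real.exp (-(2 * α * x)) ≤ Real.exp (2 * |α| * M) * 1 := by
        rw [mul_one]; exact Real.exp_le_exp.mpr h1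
    _ ≤ Real.exp (2 * |α| * M) * ((M + 2) ^ 2 / (4 * (1 - Real.cos (1 / 2))) * g0 x) := by gcongr
    _ = _ := by ring

/-- weight comparison on half-lines -/
lemma exp_le_g0_right {α : ℝ} (hα : 0 < α) (a : ℝ) : ∃ C : ℝ, 0 ≤ C ∧ ∀ x, a ≤ x → Real.exp (-(2 * α * x)) ≤ C * g0 x := by
  have hc : 0 < 4 * (1 - Real.cos (1 / 2)) := cg_pos
  set b := |a| + 2 with hb
  have hb0 : 0 < b := by positivity
  refine ⟨Real.exp (-(2 * α * a)) * ((1 / α + b) ^ 2 / (4 * (1 - Real.cos (1 / 2)))), by positivity, fun x hx => ?_⟩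
  set y := x - a with hy
  have hy0 : 0 ≤ y := by simp only [hy]; linarith
  have hax : |x| + 2 ≤ y + b := by
    have : |x| ≤ |x - a| + |a| := by
      have := abs_add_le (x - a) a
      rwa [sub_add_cancel] at this
    rw [abs_of_nonneg (by linarith : 0 ≤ x - a)] at this
    simp only [hy, hb]
    linarith
  have h1 : y + b ≤ (1 / α + b) * Real.exp (α * y) := by
    have h2 : α * y + 1 ≤ Real.exp (α * y) := Real.add_one_le_exp _
    have h3 : y ≤ 1 / α * Real.exp (α * y) := by
      rw [one_div, inv_mul_eq_div, le_div_iff₀ hα]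
      linarith
    have h4 : b ≤ b * Real.exp (α * y) := le_mul_of_one_le_right hb0.le (Real.one_le_exp (by positivity))
    linarith
  have h5 : (|x| + 2) ^ 2 ≤ (1 / α + b) ^ 2 * Real.exp (2 * α * y) := by
    calc (|x| + 2) ^ 2 ≤ ((1 / α + b) * Real.exp (α * y)) ^ 2 :=
          pow_le_pow_left₀ (by positivity) (hax.trans h1) 2
      _ = _ := by
          rw [mul_pow, ← Real.exp_nat_mul]
          congr 2; push_cast; ring
  have h6 := g0_lower x
  rw [div_le_iff₀ (by positivity)] at h6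
  have h7 : Real.exp (-(2 * α * x)) = Real.exp (-(2 * α * a)) * (Real.exp (2 * α * y))⁻¹ := by
    rw [← Real.exp_neg, ← Real.exp_add]
    congr 1
    simp only [hy]; ring
  have hE := Real.exp_pos (2 * α * y)
  rw [h7]
  have h8 : (Real.exp (2 * α * y))⁻¹ ≤ (1 / α + b) ^ 2 / (4 * (1 - Real.cos (1 / 2))) * g0 x := by
    rw [inv_le_iff_one_le_mul₀ hE]
    have h9 : 4 * (1 - Real.cos (1 / 2)) ≤ g0 x * ((1 / α + b) ^ 2 * Real.exp (2 * α * y)) :=
      h6.trans (mul_le_mul_of_nonneg_left h5 (g0_pos x).le)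
    have h10 : 1 ≤ g0 x * ((1 / α + b) ^ 2 * Real.exp (2 * α * y)) / (4 * (1 - Real.cos (1 / 2))) := by
      rwa [one_le_div hc]
    calc (1:ℝ) ≤ _ := h10
      _ = _ := by ring
  calc _ ≤ Real.exp (-(2 * α * a)) * ((1 / α + b) ^ 2 / (4 * (1 - Real.cos (1 / 2))) * g0 x) := by gcongr
    _ = _ := by ring

lemma exp_le_g0_left {α : ℝ} (hα : α < 0) (b : ℝ) : ∃ C : ℝ, 0 ≤ C ∧ ∀ x, x ≤ b → Real.exp (-(2 * α * x)) ≤ C * g0 x := by
  obtain ⟨C, hC, h⟩ := exp_le_g0_right (α := -α) (by linarith) (-b)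
  -- `g0` is comparable with its reflection
  have hc : 0 < 4 * (1 - Real.cos (1 / 2)) := cg_pos
  set c := |b| + 2 with hcc
  have hb0 : 0 < c := by positivity
  refine ⟨Real.exp (-(2 * α * b)) * ((1 / (-α) + c) ^ 2 / (4 * (1 - Real.cos (1 / 2)))), by positivity, fun x hx => ?_⟩
  set y := b - x with hy
  have hy0 : 0 ≤ y := by simp only [hy]; linarith
  have hα' : 0 < -α := by linarith
  have hax : |x| + 2 ≤ y + c := by
    have : |x| ≤ |x - b| + |b| := by
      have := abs_add_le (x - b) b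
      rwa [sub_add_cancel] at this
    rw [abs_of_nonpos (by linarith : x - b ≤ 0)] at this
    simp only [hy, hcc]
    linarith
  have h1 : y + c ≤ (1 / (-α) + c) * Real.exp (-α * y) := by
    have h2 : -α * y + 1 ≤ Real.exp (-α * y) := Real.add_one_le_exp _
    have h3 : y ≤ 1 / (-α) * Real.exp (-α * y) := by
      rw [one_div, inv_mul_eq_div, le_div_iff₀ hα']
      linarith
    have h4 : c ≤ c * Real.exp (-α * y) := le_mul_of_one_le_right hb0.le (Real.one_le_exp (by positivity))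
    linarith
  have h5 : (|x| + 2) ^ 2 ≤ (1 / (-α) + c) ^ 2 * Real.exp (2 * (-α) * y) := by
    calc (|x| + 2) ^ 2 ≤ ((1 / (-α) + c) * Real.exp (-α * y)) ^ 2 :=
          pow_le_pow_left₀ (by positivity) (hax.trans h1) 2
      _ = _ := by
          rw [mul_pow, ← Real.exp_nat_mul]
          congr 2; push_cast; ring
  have h6 := g0_lower x
  rw [div_le_iff₀ (by positivity)] at h6
  have h7 : Real.exp (-(2 * α * x)) = Real.exp (-(2 * α * b)) * (Real.exp (2 * (-α) * y))⁻¹ := by
    rw [← Real.exp_neg, ← Real.exp_add]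
    congr 1
    simp only [hy]; ring
  have hE := Real.exp_pos (2 * (-α) * y)
  rw [h7]
  have h8 : (Real.exp (2 * (-α) * y))⁻¹ ≤ (1 / (-α) + c) ^ 2 / (4 * (1 - Real.cos (1 / 2))) * g0 x := by
    rw [inv_le_iff_one_le_mul₀ hE]
    have h9 : 4 * (1 - Real.cos (1 / 2)) ≤ g0 x * ((1 / (-α) + c) ^ 2 * Real.exp (2 * (-α) * y)) :=
      h6.trans (mul_le_mul_of_nonneg_left h5 (g0_pos x).le)
    have h10 : 1 ≤ g0 x * ((1 / (-α) + c) ^ 2 * Real.exp (2 * (-α) * y)) / (4 * (1 - Real.cos (1 / 2))) := by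
      rwa [one_le_div hc]
    calc (1:ℝ) ≤ _ := h10
      _ = _ := by ring
  calc _ ≤ Real.exp (-(2 * α * b)) * ((1 / (-α) + c) ^ 2 / (4 * (1 - Real.cos (1 / 2))) * g0 x) := by gcongr
    _ = _ := by ring

/-- the normalised size -/
def Ys (δ α t : ℝ) : ℝ := (2 * δ) ^ α * ‖riemannZeta (sp δ t)‖

lemma Xc_log {δ α t : ℝ} (hδ : 0 < δ) (h : riemannZeta (sp δ t) ≠ 0) : Xc δ α t = Real.log (Ys δ α t) := by
  have h2 : 0 < 2 * δ := by linarith
  unfold Xc Xf Ys
  rw [Real.log_mul (Real.rpow_pos_of_pos h2 _).ne' (norm_ne_zero_iff.mpr h), Real.log_rpow h2]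
  ring

lemma Ys_pos {δ α t : ℝ} (hδ : 0 < δ) (h : riemannZeta (sp δ t) ≠ 0) : 0 < Ys δ α t :=
  mul_pos (Real.rpow_pos_of_pos (by linarith) _) (norm_pos_iff.mpr h)

/-- the measured quantity -/
def Mq (δ : ℝ → ℝ) (α T : ℝ) (J : Set ℝ) : ℝ :=
  Real.sqrt (Lg δ T) * ((2 * δ T) ^ (-(α ^ 2)) * (1 / T) * (volume (Set.Ioc 0 T ∩ {t | Ys (δ T) α t ∈ J})).toReal)

variable {δ : ℝ → ℝ}

/-- intervals -/
theorem lim_Icc (h1 : Tendsto δ atTop (𝓝 0)) (h2 : ∀ᶠ T in atTop, 0 < δ T)
    (h3 : Tendsto (fun T => δ T * Real.log T / Real.log (Real.log T)) atTop atTop) (α : ℝ) {A B : ℝ} (hA : 0 < A)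
    (hAB : A ≤ B) : Tendsto (fun T => Mq δ α T (Set.Icc A B)) atTop
      (𝓝 (aR α / Real.sqrt Real.pi * ∫ y in A..B, y ^ (-2 * α - 1))) := by
  have hB : 0 < B := lt_of_lt_of_le hA hAB
  set ρ : ℝ → ℝ := fun x => min (x - Real.log A) (Real.log B - x) with hρ
  have hρc : Continuous ρ := by fun_prop
  have h0 : volume {x | ρ x = 0} = 0 := by
    refine measure_mono_null (t := {Real.log A, Real.log B}) (fun x hx => ?_) (Set.Finite.measure_zero (by simp) _)
    simp only [Set.mem_insert_iff, Set.mem_singleton_iff]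
    have hx' : min (x - Real.log A) (Real.log B - x) = 0 := hx
    rcases min_choice (x - Real.log A) (Real.log B - x) with h | h
    · left; linarith
    · right; linarith
  obtain ⟨C, hC, hb⟩ := exp_le_g0_of_abs α (|Real.log A| + |Real.log B| + 1) (by positivity)
  have hlim := lim_meas h1 h2 h3 α hρc h0 hC (fun x hx => hb x (by
    have e1 : -1 ≤ x - Real.log A := hx.trans (min_le_left _ _)
    have e2 : -1 ≤ Real.log B - x := hx.trans (min_le_right _ _)
    have e3 := neg_abs_le (Real.log A)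
    have e4 := le_abs_self (Real.log B)
    have e5 := abs_nonneg (Real.log A)
    have e6 := abs_nonneg (Real.log B)
    rw [abs_le]; constructor <;> linarith)) (fun T => {t | Ys (δ T) α t ∈ Set.Icc A B}) (fun T t hd ht hne => by
      have hY := Ys_pos (α := α) hd hne
      have hX := Xc_log (α := α) hd hne
      simp only [Set.mem_ofPred_eq, Set.mem_Icc, hρ, le_min_iff, sub_nonneg]
      rw [hX, Real.log_le_log_iff hA hY, Real.log_le_log_iff hY hB])
  have hint : ∫ x, Ei α ρ x = ∫ y in A..B, y ^ (-2 * α - 1) := by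
    have hset : {x | 0 ≤ ρ x} = Set.Icc (Real.log A) (Real.log B) := by
      ext x
      simp only [Set.mem_ofPred_eq, Set.mem_Icc, hρ, le_min_iff, sub_nonneg]
    have e1 : ∫ x, Ei α ρ x = ∫ x in Set.Icc (Real.log A) (Real.log B), Real.exp (-(2 * α * x)) := by
      rw [← integral_indicator measurableSet_Icc, ← hset]
      rfl
    have hlog : Real.log A ≤ Real.log B := Real.log_le_log hA hAB
    rw [e1, integral_Icc_eq_integral_Ioc, ← intervalIntegral.integral_of_le hlog]
    have h5 := intervalIntegral.integral_comp_mul_deriv'' (f := Real.exp) (f' := Real.exp)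
      (g := fun y : ℝ => y ^ (-2 * α - 1)) (a := Real.log A) (b := Real.log B) Real.continuous_exp.continuousOn
      (fun x _ => (Real.hasDerivAt_exp x).hasDerivWithinAt) Real.continuous_exp.continuousOn (by
        intro y hy
        obtain ⟨x, _, rfl⟩ := hy
        exact (Real.continuousAt_rpow_const _ _ (Or.inl (Real.exp_pos x).ne')).continuousWithinAt)
    rw [Real.exp_log hA, Real.exp_log hB] at h5
    rw [← h5]
    refine intervalIntegral.integral_congr fun x _ => ?_
    simp only [Function.comp]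
    rw [← Real.exp_mul, ← Real.exp_add]
    congr 1; ring
  rw [hint] at hlim
  exact hlim

/-- large values -/
theorem lim_Ici (h1 : Tendsto δ atTop (𝓝 0)) (h2 : ∀ᶠ T in atTop, 0 < δ T)
    (h3 : Tendsto (fun T => δ T * Real.log T / Real.log (Real.log T)) atTop atTop) {α : ℝ} (hα : 0 < α) {A : ℝ}
    (hA : 0 < A) : Tendsto (fun T => Mq δ α T (Set.Ici A)) atTop
      (𝓝 (aR α / Real.sqrt Real.pi * (A ^ (-2 * α) / (2 * α)))) := by
  set ρ : ℝ → ℝ := fun x => x - Real.log A with hρ
  have hρc : Continuous ρ := by fun_prop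
  have h0 : volume {x | ρ x = 0} = 0 := by
    refine measure_mono_null (t := {Real.log A}) (fun x hx => ?_) (by simp)
    have hx' : x - Real.log A = 0 := hx
    simp only [Set.mem_singleton_iff]; linarith
  obtain ⟨C, hC, hb⟩ := exp_le_g0_right hα (Real.log A - 1)
  have hlim := lim_meas h1 h2 h3 α hρc h0 hC (fun x hx => hb x (by
    have hx' : -1 ≤ x - Real.log A := hx
    linarith)) (fun T => {t | Ys (δ T) α t ∈ Set.Ici A}) (fun T t hd ht hne => by
      have hY := Ys_pos (α := α) hd hne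
      have hX := Xc_log (α := α) hd hne
      simp only [Set.mem_ofPred_eq, Set.mem_Ici, hρ, sub_nonneg]
      rw [hX, Real.log_le_log_iff hA hY])
  have hint : ∫ x, Ei α ρ x = A ^ (-2 * α) / (2 * α) := by
    have hset : {x | 0 ≤ ρ x} = Set.Ici (Real.log A) := by
      ext x
      simp only [Set.mem_ofPred_eq, Set.mem_Ici, hρ, sub_nonneg]
    have e1 : ∫ x, Ei α ρ x = ∫ x in Set.Ici (Real.log A), Real.exp (-(2 * α * x)) := by
      rw [← integral_indicator measurableSet_Ici, ← hset]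
      rfl
    rw [e1, integral_Ici_eq_integral_Ioi]
    have e2 : ∫ x in Set.Ioi (Real.log A), Real.exp (-(2 * α * x)) = ∫ x in Set.Ioi (Real.log A), Real.exp ((-(2 * α)) * x) := by
      refine setIntegral_congr_fun measurableSet_Ioi fun x _ => ?_
      congr 1; ring
    rw [e2, integral_exp_mul_Ioi (by linarith), Real.rpow_def_of_pos hA]
    rw [neg_div_neg_eq]
    congr 2; ring
  rw [hint] at hlim
  exact hlim

/-- small values -/
theorem lim_Iic (h1 : Tendsto δ atTop (𝓝 0)) (h2 : ∀ᶠ T in atTop, 0 < δ T)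
    (h3 : Tendsto (fun T => δ T * Real.log T / Real.log (Real.log T)) atTop atTop) {α : ℝ} (hα : α < 0) {A : ℝ}
    (hA : 0 < A) : Tendsto (fun T => Mq δ α T (Set.Iic A)) atTop
      (𝓝 (aR α / Real.sqrt Real.pi * (A ^ (-2 * α) / (-2 * α)))) := by
  set ρ : ℝ → ℝ := fun x => Real.log A - x with hρ
  have hρc : Continuous ρ := by fun_prop
  have h0 : volume {x | ρ x = 0} = 0 := by
    refine measure_mono_null (t := {Real.log A}) (fun x hx => ?_) (by simp)
    have hx' : Real.log A - x = 0 := hx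
    simp only [Set.mem_singleton_iff]; linarith
  obtain ⟨C, hC, hb⟩ := exp_le_g0_left hα (Real.log A + 1)
  have hlim := lim_meas h1 h2 h3 α hρc h0 hC (fun x hx => hb x (by
    have hx' : -1 ≤ Real.log A - x := hx
    linarith)) (fun T => {t | Ys (δ T) α t ∈ Set.Iic A}) (fun T t hd ht hne => by
      have hY := Ys_pos (α := α) hd hne
      have hX := Xc_log (α := α) hd hne
      simp only [Set.mem_ofPred_eq, Set.mem_Iic, hρ, sub_nonneg]
      rw [hX, Real.log_le_log_iff hY hA])
  have hint : ∫ x, Ei α ρ x = A ^ (-2 * α) / (-2 * α) := by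
    have hset : {x | 0 ≤ ρ x} = Set.Iic (Real.log A) := by
      ext x
      simp only [Set.mem_ofPred_eq, Set.mem_Iic, hρ, sub_nonneg]
    have e1 : ∫ x, Ei α ρ x = ∫ x in Set.Iic (Real.log A), Real.exp (-(2 * α * x)) := by
      rw [← integral_indicator measurableSet_Iic, ← hset]
      rfl
    rw [e1]
    have e2 : ∫ x in Set.Iic (Real.log A), Real.exp (-(2 * α * x)) = ∫ x in Set.Iic (Real.log A), Real.exp ((-2 * α) * x) := by
      refine setIntegral_congr_fun measurableSet_Iic fun x _ => ?_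
      congr 1; ring
    rw [e2, integral_exp_mul_Iic (by linarith), Real.rpow_def_of_pos hA]
    congr 2; ring
  rw [hint] at hlim
  exact hlim

end

end Pool.Agent.X110.LT
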