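import Pool.Agent.X110.LT2

set_option autoImplicit false

/-! The diagonal sum with two complex orders near the critical line. -/

namespace Pool.Agent.X110.LV

open Finset Filter Topology
open Pool.Agent.H306R2 Pool.Agent.Y746.OA Pool.Agent.X110.LT

noncomputable section

/-- local factor -/
def F2 (c : ℂ × ℂ) (x : ℝ) : ℂ := ∑' m : ℕ, lcC c.1 m * lcC c.2 m * (x : ℂ) ^ m

/-- the diagonal sum -/
def S2 (c : ℂ × ℂ) (δ : ℝ) : ℂ := ∑' n : ℕ, dvC c.1 n * dvC c.2 n * (((n:ℝ) ^ (-(2 * (1 / 2 + δ))) : ℝ) : ℂ)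

/-- normalised local factor -/
def G2 (c : ℂ × ℂ) (x : ℝ) : ℂ := ((1 - x : ℝ) : ℂ) ^ (c.1 * c.2) * F2 c x

/-- the arithmetic factor -/
def a2 (c : ℂ × ℂ) : ℂ := ∏' p : Nat.Primes, G2 c (1 / ((p:ℕ):ℝ))

lemma F2_term {c : ℂ × ℂ} {R : ℝ} (h1 : ‖c.1‖ ≤ R) (h2 : ‖c.2‖ ≤ R) {x : ℝ} (hx : 0 ≤ x) (hx1 : x ≤ 1 / 2) (m : ℕ) :
    ‖lcC c.1 m * lcC c.2 m * (x : ℂ) ^ m‖ ≤ lc R m ^ 2 * (1 / 2) ^ m := by
  rw [norm_mul, norm_mul, norm_pow, Complex.norm_real, Real.norm_of_nonneg hx]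
  have g1 := lcC_norm_le h1 m
  have g2 := lcC_norm_le h2 m
  have g3 : 0 ≤ lc R m := (norm_nonneg _).trans g1
  calc ‖lcC c.1 m‖ * ‖lcC c.2 m‖ * x ^ m ≤ lc R m * lc R m * (1 / 2) ^ m := by gcongr
    _ = _ := by ring

lemma F2_summable {c : ℂ × ℂ} {R : ℝ} (hR : 0 < R) (h1 : ‖c.1‖ ≤ R) (h2 : ‖c.2‖ ≤ R) {x : ℝ} (hx : 0 ≤ x) (hx1 : x ≤ 1 / 2) :
    Summable fun m : ℕ => lcC c.1 m * lcC c.2 m * (x : ℂ) ^ m :=
  Summable.of_norm_bounded (sq_sum hR (by norm_num : (0:ℝ) < 1 / 2) (by norm_num)) (F2_term h1 h2 hx hx1)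

lemma F2_exp {c : ℂ × ℂ} {R : ℝ} (hR : 0 < R) (h1 : ‖c.1‖ ≤ R) (h2 : ‖c.2‖ ≤ R) {x : ℝ} (hx : 0 ≤ x) (hx1 : x ≤ 1 / 2) :
    ‖F2 c x - 1 - c.1 * c.2 * x‖ ≤ CF R * x ^ 2 := by
  have hs := F2_summable hR h1 h2 hx hx1
  have g1 : F2 c x = 1 + c.1 * c.2 * x + ∑' m : ℕ, lcC c.1 (m + 2) * lcC c.2 (m + 2) * (x : ℂ) ^ (m + 2) := by
    unfold F2
    rw [← hs.sum_add_tsum_nat_add 2, sum_range_succ, sum_range_one, lcC_zero, lcC_one, lcC_zero, lcC_one]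
    ring
  have g2 : F2 c x - 1 - c.1 * c.2 * x = ∑' m : ℕ, lcC c.1 (m + 2) * lcC c.2 (m + 2) * (x : ℂ) ^ (m + 2) := by
    rw [g1]; ring
  rw [g2]
  refine tsum_of_norm_bounded ((CF_sum hR).hasSum.mul_right (x ^ 2)) fun m => ?_
  rw [norm_mul, norm_mul, norm_pow, Complex.norm_real, Real.norm_of_nonneg hx, pow_add]
  have h3 := lcC_norm_le h1 (m + 2)
  have h3' := lcC_norm_le h2 (m + 2)
  have h5 : 0 ≤ lc R (m + 2) := (norm_nonneg _).trans h3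
  have h4 : x ^ m ≤ (1 / 2) ^ m := pow_le_pow_left₀ hx hx1 m
  calc ‖lcC c.1 (m + 2)‖ * ‖lcC c.2 (m + 2)‖ * (x ^ m * x ^ 2) ≤
        lc R (m + 2) * lc R (m + 2) * ((1 / 2) ^ m * x ^ 2) := by gcongr
    _ = _ := by ring

lemma G2_bound {c : ℂ × ℂ} {R : ℝ} (hR : 0 < R) (hc1 : ‖c.1‖ ≤ R) (hc2 : ‖c.2‖ ≤ R) {x : ℝ} (hx : 0 ≤ x) (hx1 : x ≤ 1 / 2) :
    ‖G2 c x - 1‖ ≤ CG R * x ^ 2 := by
  set w : ℂ := c.1 * c.2 with hw
  have hz2 : ‖w‖ ≤ R ^ 2 := by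
    rw [hw, norm_mul, pow_two]
    exact mul_le_mul hc1 hc2 (norm_nonneg _) hR.le
  have h1 := F2_exp hR hc1 hc2 hx hx1
  have h2 := pw_exp hz2 hx hx1
  rw [← hw] at h1
  set A := ((1 - x : ℝ) : ℂ) ^ w with hA
  set F := F2 c x with hF
  set a := A - 1 + w * x with ha
  set f := F - 1 - w * x with hf
  have hxn : ‖w * (x:ℂ)‖ ≤ R ^ 2 := by
    rw [norm_mul, Complex.norm_real, Real.norm_of_nonneg hx]
    nlinarith [norm_nonneg w]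
  have hCF := CF_nonneg R
  have hx2 : x ^ 2 ≤ 1 := by nlinarith
  have hFn : ‖F‖ ≤ 1 + R ^ 2 + CF R := by
    have e : F = 1 + w * x + f := by rw [hf]; ring
    rw [e]
    refine (norm_add_le _ _).trans ?_
    have h3 : ‖(1:ℂ) + w * x‖ ≤ 1 + R ^ 2 := (norm_add_le _ _).trans (by rw [norm_one]; linarith)
    have h4 : CF R * x ^ 2 ≤ CF R := mul_le_of_le_one_right hCF hx2
    linarith
  have e : G2 c x - 1 = -w ^ 2 * x ^ 2 + a * F + (1 - w * x) * f := by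
    unfold G2
    rw [← hw, ← hA, ← hF, ha, hf]
    ring
  rw [e]
  refine (norm_add_le _ _).trans ?_
  have g1 : ‖-w ^ 2 * (x:ℂ) ^ 2 + a * F‖ ≤ R ^ 4 * x ^ 2 +
      ((4 * (R ^ 2) ^ 2 * Real.exp (2 * R ^ 2) + 2 * R ^ 2) * x ^ 2) * (1 + R ^ 2 + CF R) := by
    refine (norm_add_le _ _).trans (add_le_add ?_ ?_)
    · have e5 : ‖-w ^ 2 * (x:ℂ) ^ 2‖ = ‖w‖ ^ 2 * x ^ 2 := by
        rw [norm_mul, norm_neg, norm_pow w, norm_pow (x:ℂ), Complex.norm_real, Real.norm_of_nonneg hx]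
      have : ‖w‖ ^ 2 ≤ R ^ 4 := by
        calc _ ≤ (R ^ 2) ^ 2 := pow_le_pow_left₀ (norm_nonneg _) hz2 2
          _ = _ := by ring
      rw [e5]
      gcongr
    · rw [norm_mul]
      exact mul_le_mul h2 hFn (norm_nonneg _) (by positivity)
  have g2 : ‖(1 - w * (x:ℂ)) * f‖ ≤ (1 + R ^ 2) * (CF R * x ^ 2) := by
    rw [norm_mul]
    refine mul_le_mul ?_ h1 (norm_nonneg _) (by positivity)
    exact (norm_sub_le _ _).trans (by rw [norm_one]; linarith)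
  calc _ ≤ (R ^ 4 * x ^ 2 + ((4 * (R ^ 2) ^ 2 * Real.exp (2 * R ^ 2) + 2 * R ^ 2) * x ^ 2) * (1 + R ^ 2 + CF R)) +
        (1 + R ^ 2) * (CF R * x ^ 2) := add_le_add g1 g2
    _ = _ := by unfold CG; ring

lemma S2_term {c : ℂ × ℂ} {K : ℕ} (h1 : ‖c.1‖ ≤ K) (h2 : ‖c.2‖ ≤ K) (δ : ℝ) (n : ℕ) :
    ‖dvC c.1 n * dvC c.2 n * (((n:ℝ) ^ (-(2 * (1 / 2 + δ))) : ℝ) : ℂ)‖ ≤ dv K n ^ 2 * (n:ℝ) ^ (-(2 * (1 / 2 + δ))) := by
  rw [norm_mul, norm_mul, Complex.norm_real, Real.norm_of_nonneg (by positivity)]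
  have g1 := dvC_norm_le h1 n
  have g2 := dvC_norm_le h2 n
  have g3 : 0 ≤ dv K n := (norm_nonneg _).trans g1
  calc ‖dvC c.1 n‖ * ‖dvC c.2 n‖ * (n:ℝ) ^ (-(2 * (1 / 2 + δ))) ≤
      dv K n * dv K n * (n:ℝ) ^ (-(2 * (1 / 2 + δ))) := by gcongr
    _ = _ := by ring

lemma S2_norm {c : ℂ × ℂ} {K : ℕ} (h1 : ‖c.1‖ ≤ K) (h2 : ‖c.2‖ ≤ K) {δ : ℝ} (hδ : 0 < δ) : ‖S2 c δ‖ ≤ SS K δ := by
  unfold S2 SS
  exact tsum_of_norm_bounded (SS_summable (K:ℝ) hδ).hasSum fun n => S2_term h1 h2 δ n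

/-- the Euler product -/
lemma S2_hasProd (c : ℂ × ℂ) {δ : ℝ} (hδ : 0 < δ) : HasProd (fun p : Nat.Primes => F2 c (xp p δ)) (S2 c δ) := by
  obtain ⟨K, hK⟩ := exists_nat_ge (max ‖c.1‖ ‖c.2‖)
  have hK1 := (le_max_left _ _).trans hK
  have hK2 := (le_max_right _ _).trans hK
  set f : ℕ → ℂ := fun n => dvC c.1 n * dvC c.2 n * (((n:ℝ) ^ (-(2 * (1 / 2 + δ))) : ℝ) : ℂ) with hf
  have hsum : Summable fun n => ‖f n‖ :=
    Summable.of_nonneg_of_le (fun _ => norm_nonneg _) (fun n => S2_term hK1 hK2 δ n) (SS_summable (K:ℝ) hδ)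
  have hf0 : f 0 = 0 := by simp [hf, dvC]
  have hf1 : f 1 = 1 := by simp [hf, dvC]
  have hmul : ∀ {m n : ℕ}, Nat.Coprime m n → f (m * n) = f m * f n := by
    intro m n h
    simp only [hf]
    rw [dvC_mul c.1 h, dvC_mul c.2 h, Nat.cast_mul, Real.mul_rpow (Nat.cast_nonneg _) (Nat.cast_nonneg _)]
    push_cast
    ring
  have h := EulerProduct.eulerProduct_hasProd hf1 hmul hsum hf0
  refine h.congr_fun fun p => ?_
  unfold F2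
  refine tsum_congr fun e => ?_
  simp only [hf]
  rw [dvC_prime_pow c.1 p.2, dvC_prime_pow c.2 p.2, ← Complex.ofReal_pow]
  congr 2
  unfold xp
  rw [Nat.cast_pow, ← Real.rpow_natCast, ← Real.rpow_natCast, ← Real.rpow_mul (Nat.cast_nonneg _),
    ← Real.rpow_mul (Nat.cast_nonneg _)]
  congr 1; ring

/-- the normalised Euler product -/
lemma G2_hasProd (c : ℂ × ℂ) {δ : ℝ} (hδ : 0 < δ) :
    HasProd (fun p : Nat.Primes => G2 c (xp p δ)) ((((Zr (2 * δ))⁻¹ : ℝ) : ℂ) ^ (c.1 * c.2) * S2 c δ) := by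
  have h1 := S2_hasProd c hδ
  have h2 := hasProd_cpow (Zr_hasProd' hδ) (fun p => by
    have h3 := xp_le p.2 hδ.le
    have h4 := inv_half p.2
    linarith) (inv_pos.mpr (Zr_pos (by linarith : 0 < 2 * δ))) (c.1 * c.2)
  exact h2.mul h1

/-- the filter of the limits -/
abbrev l2 (c₀ : ℂ × ℂ) : Filter ((ℂ × ℂ) × ℝ) := 𝓝 c₀ ×ˢ 𝓝[>] (0:ℝ)

lemma l2_fst (c₀ : ℂ × ℂ) : Tendsto (fun p : (ℂ × ℂ) × ℝ => p.1) (l2 c₀) (𝓝 c₀) := tendsto_fst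
lemma l2_1 (c₀ : ℂ × ℂ) : Tendsto (fun p : (ℂ × ℂ) × ℝ => p.1.1) (l2 c₀) (𝓝 c₀.1) :=
  (continuous_fst.tendsto c₀).comp (l2_fst c₀)
lemma l2_2 (c₀ : ℂ × ℂ) : Tendsto (fun p : (ℂ × ℂ) × ℝ => p.1.2) (l2 c₀) (𝓝 c₀.2) :=
  (continuous_snd.tendsto c₀).comp (l2_fst c₀)
lemma l2_snd (c₀ : ℂ × ℂ) : Tendsto (fun p : (ℂ × ℂ) × ℝ => p.2) (l2 c₀) (𝓝 0) :=
  (tendsto_snd (f := 𝓝 c₀) (g := 𝓝[>] (0:ℝ))).mono_right nhdsWithin_le_nhds
lemma l2_pos (c₀ : ℂ × ℂ) : ∀ᶠ p : (ℂ × ℂ) × ℝ in l2 c₀, 0 < p.2 := by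
  have : ∀ᶠ δ : ℝ in 𝓝[>] (0:ℝ), 0 < δ := eventually_mem_nhdsWithin
  exact (tendsto_snd (f := 𝓝 c₀) (g := 𝓝[>] (0:ℝ))).eventually this
lemma l2_bdd (c₀ : ℂ × ℂ) : ∀ᶠ p : (ℂ × ℂ) × ℝ in l2 c₀, ‖p.1.1‖ ≤ ‖c₀‖ + 1 ∧ ‖p.1.2‖ ≤ ‖c₀‖ + 1 := by
  have h : ∀ᶠ z : ℂ × ℂ in 𝓝 c₀, ‖z‖ < ‖c₀‖ + 1 := continuous_norm.continuousAt.eventually (gt_mem_nhds (by linarith))
  exact ((l2_fst c₀).eventually h).mono fun p hp => ⟨(norm_fst_le p.1).trans hp.le, (norm_snd_le p.1).trans hp.le⟩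

lemma F2_tendsto (c₀ : ℂ × ℂ) {p : ℕ} (hp : p.Prime) :
    Tendsto (fun q : (ℂ × ℂ) × ℝ => F2 q.1 (xp p q.2)) (l2 c₀) (𝓝 (F2 c₀ (1 / p))) := by
  unfold F2
  refine tendsto_tsum_of_dominated_convergence (bound := fun m => lc (‖c₀‖ + 1) m ^ 2 * (1 / 2 : ℝ) ^ m)
    (sq_sum (by positivity) (by norm_num) (by norm_num)) (fun m => ?_) ?_
  · have h1 := ((lcC_cont m).tendsto c₀.1).comp (l2_1 c₀)
    have h1' := ((lcC_cont m).tendsto c₀.2).comp (l2_2 c₀)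
    have h2 := ((xp_cont hp).tendsto 0).comp (l2_snd c₀)
    rw [xp_zero] at h2
    have h3 := (Complex.continuous_ofReal.tendsto _).comp h2
    exact (h1.mul h1').mul (h3.pow m)
  · filter_upwards [l2_pos c₀, l2_bdd c₀] with q hq hb m
    exact F2_term hb.1 hb.2 (xp_pos hp _).le ((xp_le hp hq.le).trans (inv_half hp)) m

lemma G2_tendsto (c₀ : ℂ × ℂ) {p : ℕ} (hp : p.Prime) :
    Tendsto (fun q : (ℂ × ℂ) × ℝ => G2 q.1 (xp p q.2)) (l2 c₀) (𝓝 (G2 c₀ (1 / p))) := by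
  unfold G2
  refine Tendsto.mul ?_ (F2_tendsto c₀ hp)
  have h2 := ((xp_cont hp).tendsto 0).comp (l2_snd c₀)
  rw [xp_zero] at h2
  have h3 := (Complex.continuous_ofReal.tendsto _).comp (h2.const_sub 1)
  refine h3.cpow ((l2_1 c₀).mul (l2_2 c₀)) ?_
  rw [Complex.mem_slitPlane_iff]
  left
  have := inv_half hp
  rw [Complex.ofReal_re]
  linarith

lemma tprod2_tendsto (c₀ : ℂ × ℂ) :
    Tendsto (fun q : (ℂ × ℂ) × ℝ => ∏' p : Nat.Primes, G2 q.1 (xp p q.2)) (l2 c₀) (𝓝 (a2 c₀)) := by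
  have h := tendsto_tprod_one_add_of_dominated_convergence (𝓕 := l2 c₀)
    (f := fun (q : (ℂ × ℂ) × ℝ) (p : Nat.Primes) => G2 q.1 (xp p q.2) - 1)
    (g := fun p : Nat.Primes => G2 c₀ (1 / ((p:ℕ):ℝ)) - 1)
    (bound := fun p : Nat.Primes => CG (‖c₀‖ + 1) * (1 / ((p:ℕ):ℝ)) ^ 2)
    (primes_summable.mul_left _) (fun p => (G2_tendsto c₀ p.2).sub_const 1) ?_
  · simp only [add_sub_cancel] at h
    exact h
  · filter_upwards [l2_pos c₀, l2_bdd c₀] with q hq hb p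
    have h1 := xp_le p.2 hq.le
    refine (G2_bound (by positivity) hb.1 hb.2 (xp_pos p.2 _).le (h1.trans (inv_half p.2))).trans ?_
    have h2 := CG_nonneg (‖c₀‖ + 1)
    have h3 := (xp_pos p.2 q.2).le
    gcongr

/-- the normalised diagonal sum -/
def h2 (c : ℂ × ℂ) (δ : ℝ) : ℂ := ((2 * δ : ℝ) : ℂ) ^ (c.1 * c.2) * S2 c δ

/-- **The joint limit.** -/
theorem h2_tendsto (c₀ : ℂ × ℂ) : Tendsto (fun q : (ℂ × ℂ) × ℝ => h2 q.1 q.2) (l2 c₀) (𝓝 (a2 c₀)) := by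
  have h1 : Tendsto (fun q : (ℂ × ℂ) × ℝ => (((2 * q.2 * Zr (2 * q.2) : ℝ)) : ℂ) ^ (q.1.1 * q.1.2)) (l2 c₀) (𝓝 1) := by
    have h2 : Tendsto (fun q : (ℂ × ℂ) × ℝ => 2 * q.2 * Zr (2 * q.2)) (l2 c₀) (𝓝 1) :=
      Zr_lim.comp (tendsto_snd (f := 𝓝 c₀) (g := 𝓝[>] (0:ℝ)))
    have h3 := (Complex.continuous_ofReal.tendsto _).comp h2
    have h4 := h3.cpow ((l2_1 c₀).mul (l2_2 c₀)) (by
      rw [Complex.mem_slitPlane_iff]; left; simp)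
    rw [Complex.ofReal_one, Complex.one_cpow] at h4
    exact h4
  have h5 := h1.mul (tprod2_tendsto c₀)
  rw [one_mul] at h5
  refine h5.congr' ?_
  filter_upwards [l2_pos c₀] with q hq
  have hZ : 0 < Zr (2 * q.2) := Zr_pos (by linarith)
  rw [(G2_hasProd q.1 hq).tprod_eq]
  unfold h2
  set e := q.1.1 * q.1.2
  rw [Complex.ofReal_mul (2 * q.2), Complex.mul_cpow_ofReal_nonneg (by linarith) hZ.le]
  have e1 : (((Zr (2 * q.2)) : ℝ) : ℂ) ^ e * ((((Zr (2 * q.2))⁻¹ : ℝ) : ℂ) ^ e) = 1 := by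
    rw [← Complex.mul_cpow_ofReal_nonneg hZ.le (inv_pos.mpr hZ).le, ← Complex.ofReal_mul, mul_inv_cancel₀ hZ.ne',
      Complex.ofReal_one, Complex.one_cpow]
  calc _ = ((2 * q.2 : ℝ) : ℂ) ^ e * ((((Zr (2 * q.2)) : ℝ) : ℂ) ^ e *
        ((((Zr (2 * q.2))⁻¹ : ℝ) : ℂ) ^ e)) * S2 q.1 q.2 := by ring
    _ = _ := by rw [e1, mul_one]

/-- convergence of the product -/
lemma G2_mult (c : ℂ × ℂ) : Multipliable fun p : Nat.Primes => G2 c (1 / ((p:ℕ):ℝ)) := by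
  have h : Summable fun p : Nat.Primes => G2 c (1 / ((p:ℕ):ℝ)) - 1 :=
    Summable.of_norm_bounded (primes_summable.mul_left (CG (‖c‖ + 1))) fun p =>
      G2_bound (by positivity) ((norm_fst_le c).trans (by linarith)) ((norm_snd_le c).trans (by linarith))
        (by positivity) (inv_half p.2)
  have h2 := Complex.multipliable_one_add_of_summable h
  simpa only [add_sub_cancel] using h2

lemma G2_diag (z : ℂ) (x : ℝ) : G2 (z, z) x = GC z x := by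
  unfold G2 GC F2 FC
  simp only [← pow_two]

lemma a2_diag (z : ℂ) : a2 (z, z) = aFC z := by
  unfold a2 aFC
  simp only [G2_diag]

/-- holomorphy in one variable, with an integer difference of the orders -/
lemma S2_diff (s : ℂ) {δ : ℝ} (hδ : 0 < δ) : Differentiable ℂ fun z : ℂ => S2 (z + s, z) δ := by
  intro z₀
  obtain ⟨K, hK⟩ := exists_nat_ge (‖z₀‖ + ‖s‖ + 1)
  have h : DifferentiableOn ℂ (fun z => S2 (z + s, z) δ) (Metric.ball z₀ 1) := by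
    unfold S2
    refine Complex.differentiableOn_tsum_of_summable_norm (SS_summable (K:ℝ) hδ) (fun n => ?_) Metric.isOpen_ball fun n z hz => ?_
    · have d1 : Differentiable ℂ fun z : ℂ => dvC (z + s) n := (dvC_diff n).comp (differentiable_id.add_const s)
      exact ((d1.mul (dvC_diff n)).mul_const _).differentiableOn
    · rw [Metric.mem_ball, dist_eq_norm] at hz
      have h1 := norm_sub_norm_le z z₀
      have h2 := norm_add_le z s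
      refine S2_term (c := (z + s, z)) ?_ ?_ δ n
      · show ‖z + s‖ ≤ _
        linarith
      · show ‖z‖ ≤ _
        linarith [norm_nonneg s]
  exact (h z₀ (Metric.mem_ball_self one_pos)).differentiableAt (Metric.isOpen_ball.mem_nhds (Metric.mem_ball_self one_pos))

end

end Pool.Agent.X110.LV
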