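import Pool.Agent.X110.RR6

set_option autoImplicit false

/-! Ratios of zeta near the line: the theorem. -/

namespace Pool.Agent.X110.RR

open Finset MeasureTheory
open Pool.Agent.H306R2 Pool.Agent.Y746.OA Pool.Agent.Y746.CS

noncomputable section

lemma two_pow_big {L X : ℝ} (hL : 24 ≤ L) (hX : 0 < X) (hlogX : 16 * Real.log X ≤ L) {J : ℕ} (hJ : L ≤ J) :
    (1 / 2 : ℝ) ^ J * L ≤ (X ^ 2)⁻¹ := by
  have h1 : (1 / 2 : ℝ) ^ J = Real.exp (-(J * Real.log 2)) := by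
    rw [Real.exp_neg, mul_comm, Real.exp_mul, Real.exp_log (by norm_num), Real.rpow_natCast, one_div, inv_pow]
  have h2 : (X ^ 2)⁻¹ = Real.exp (-(2 * Real.log X)) := by
    rw [Real.exp_neg]; congr 1
    rw [← Real.exp_log hX, Real.log_exp, ← Real.exp_nat_mul]; norm_num
  have h3 : L ≤ Real.exp (L / 2) := by
    have := Real.quadratic_le_exp_of_nonneg (x := L / 2) (by linarith)
    nlinarith [sq_nonneg (L - 2)]
  have h4 := Real.log_two_gt_d9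
  rw [h1, h2]
  calc Real.exp (-(J * Real.log 2)) * L ≤ Real.exp (-(J * Real.log 2)) * Real.exp (L / 2) := by gcongr
    _ = Real.exp (-(J * Real.log 2) + L / 2) := (Real.exp_add _ _).symm
    _ ≤ _ := by
        refine Real.exp_le_exp.mpr ?_
        nlinarith

/-- **Joint moments of all real orders, with phases and complex shifts.** -/
theorem ratio (m K : ℕ) : ∃ c : ℝ, 0 < c ∧ ∀ B : ℕ, ∃ (A : ℕ) (C T0 : ℝ), 0 < C ∧
    ∀ T : ℝ, T0 ≤ T → ∀ δ : ℝ, C * Real.log (Real.log T) / Real.log T ≤ δ → δ ≤ 1 / 16 →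
    4 ≤ T ∧ 24 ≤ Real.log T ∧ 0 < δ ∧ 2 / δ ≤ Real.log T ∧
    ∀ V : ℝ, Real.log T ^ A ≤ V → V ≤ T ^ (c * δ) →
    ∀ (w : Fin m → ℂ) (β : Fin m → ℝ) (r : Fin m → ℤ),
      (∀ j, 0 ≤ (w j).re ∧ δ + (w j).re ≤ 1 / 16 ∧ |(w j).im| ≤ T) → (∀ j, |β j| ≤ K) → (∀ j, |r j| ≤ K) →
    ‖(∫ t in Set.Ioc 0 T ∩ GS δ V w, Zf δ w β r t) -
      (T:ℂ) * ∑' n : ℕ, Ty (fun j => β j + r j) w n * (starRingEnd ℂ) (Ty β w n) * Pool.Agent.Y746.CS.wt δ n‖ ≤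
      T / Real.log T ^ B ∧
    (volume (Set.Ioc 0 T \ GS δ V w)).toReal ≤ T / Real.log T ^ B := by
  set mm : ℕ := 4 * K + 2 with hmm
  set D : ℕ := (2 * mm) ^ 2 + (2 * (m * (2 * K))) ^ 2 with hD
  set Q : ℕ := 2 * (4 * mm + 3) + (m + 1) * (2 * (m * (2 * K)) + 3) + 2 * m * (2 * (2 * (m * (2 * K))) + 3) with hQ
  set R : ℕ := 3 * K * (m + 1) + 1 with hR
  set b : ℝ := 2 * K + 1 with hb
  have hK0 : (0:ℝ) ≤ K := Nat.cast_nonneg K
  have hm0 : (0:ℝ) ≤ m := Nat.cast_nonneg m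
  set c1 : ℝ := 16 * (b + 1) + K with hc1
  have hc1p : 1 ≤ c1 := by rw [hc1, hb]; linarith
  set c0 : ℝ := 2 ^ m * (m * c1) with hc0
  have hc00 : 0 ≤ c0 := by positivity
  refine ⟨1 / (64 * Q * R), by positivity, fun B => ?_⟩
  obtain ⟨C1, T1, hC1, hT1, hz⟩ := zeta_ms_shift
  obtain ⟨C, T0, hC, hpar⟩ := Pool.Agent.Y746.CS.par Q (2 * D + 2 * B + 8) R (by omega) (by omega)
    (max T1 (max (c0 + 2 * m * (130 + 64 * C1) + 64 * m + 5) (max c1 (9 * (2 * K + 1)))))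
  refine ⟨2 * D + 2 * B + 4, C, T0, hC, fun T hT δ hδ hδ1 => ?_⟩
  obtain ⟨hT4, hL24, hLL, hTL, hδ0, h2δ, h1L, N, X, hN1, hN3, hX1, hNQ, hNd, hN2d, hXP, hVX⟩ := hpar T hT δ hδ hδ1
  refine ⟨hT4, hL24, hδ0, h2δ, fun V hV1 hV2 w β r hw hβ hr => ?_⟩
  set L := Real.log T with hL
  have hT0 : 0 < T := by linarith
  have hL0 : 0 < L := by linarith
  have hL1 : 1 ≤ L := by linarith
  have hTT1 : T1 ≤ T := (le_max_left _ _).trans hTL
  have hLc : c0 + 2 * m * (130 + 64 * C1) + 64 * m + 5 ≤ L := (le_max_left _ _).trans ((le_max_right _ _).trans hLL)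
  have hLc1 : c1 ≤ L := (le_max_left _ _).trans ((le_max_right _ _).trans ((le_max_right _ _).trans hLL))
  have hLK : 9 * (2 * (K:ℝ) + 1) ≤ L := (le_max_right _ _).trans ((le_max_right _ _).trans ((le_max_right _ _).trans hLL))
  have hX0 : 0 < X := by linarith
  have hVone : 1 ≤ V := (one_le_pow₀ hL1).trans hV1
  have hV0 : 0 < V := by linarith
  have hVR : V ^ R ≤ X := by
    refine hVX V hVone (hV2.trans (le_of_eq ?_))
    congr 1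
    field_simp
  have hVpow : ∀ n : ℕ, n ≤ R → V ^ n ≤ X := fun n hn => (pow_le_pow_right₀ hVone hn).trans hVR
  have hLX : ∀ n : ℕ, n ≤ 2 * D + 2 * B + 8 → L ^ n ≤ X := fun n hn => (pow_le_pow_right₀ hL1 hn).trans hXP
  set J : ℕ := ⌈L⌉₊ with hJ
  have hJL : L ≤ J := Nat.le_ceil L
  have hJ1 : (J:ℝ) ≤ L + 1 := (Nat.ceil_lt_add_one hL0.le).le
  set W : ℝ := X ^ 2 with hW
  set e : ℝ := (8 * X ^ 6)⁻¹ with he
  have he0 : 0 < e := by positivity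
  have hW1 : 1 ≤ W := one_le_pow₀ hX1
  have h8 : 8 * W ^ 2 * e = (X ^ 2)⁻¹ := by rw [hW, he]; field_simp
  have hXinv1 : (X ^ 2)⁻¹ ≤ 1 := inv_le_one_of_one_le₀ (one_le_pow₀ hX1)
  have h8' : 8 * W ^ 2 * e ≤ 1 := by rw [h8]; exact hXinv1
  have hN1r : (1:ℝ) ≤ N := by exact_mod_cast hN1
  have hXT : X ^ 16 ≤ T := by
    have h1 : (1:ℝ) ≤ (N:ℝ) ^ Q := one_le_pow₀ hN1r
    have h2 : 1 ≤ T * (X ^ 16)⁻¹ := by linarith
    rwa [le_mul_inv_iff₀ (by positivity), one_mul] at h2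
  have hlogX : 16 * Real.log X ≤ L := by
    have := Real.log_le_log (by positivity) hXT
    rwa [Real.log_pow] at this
  have hlogX0 : 0 ≤ Real.log X := Real.log_nonneg hX1
  have hlog2W : 2 * Real.log (2 * W) ≤ L := by
    rw [hW, Real.log_mul (by norm_num) (by positivity), Real.log_pow]
    have : Real.log 2 ≤ 1 := by linarith [Real.log_two_lt_d9]
    push_cast
    linarith
  have hrho : rho b W e J ≤ 4 * (b + 1) * (X ^ 2)⁻¹ := by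
    unfold rho
    rw [h8]
    have h1 : (1 / 2 : ℝ) ^ J * (2 * Real.log (2 * W)) ≤ (X ^ 2)⁻¹ := by
      refine le_trans ?_ (two_pow_big hL24 hX0 hlogX hJL)
      gcongr
    have hb0 : 0 ≤ b + 1 := by rw [hb]; linarith
    calc (b + 1) * ((1 / 2 : ℝ) ^ J * (2 * Real.log (2 * W)) + 3 * (X ^ 2)⁻¹) ≤
        (b + 1) * ((X ^ 2)⁻¹ + 3 * (X ^ 2)⁻¹) := by gcongr
      _ = _ := by ring
  have hc1X : c1 * (X ^ 2)⁻¹ ≤ X⁻¹ := by
    have h1 : c1 ≤ X := by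
      refine hLc1.trans ?_
      have := hLX 1 (by omega)
      rwa [pow_one] at this
    calc c1 * (X ^ 2)⁻¹ ≤ X * (X ^ 2)⁻¹ := by gcongr
      _ = X⁻¹ := by field_simp
  have hXi1 : X⁻¹ ≤ 1 := inv_le_one_of_one_le₀ hX1
  have hrho4 : rho b W e J ≤ 1 / 4 := by
    have h1 : 16 * (b + 1) * (X ^ 2)⁻¹ ≤ c1 * (X ^ 2)⁻¹ := by
      rw [hc1]; gcongr; linarith
    linarith
  have hfac : 4 * rho b W e J + 2 * K * (W ^ 2 * e) ≤ c1 * (X ^ 2)⁻¹ := by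
    have h1 : W ^ 2 * e = (X ^ 2)⁻¹ / 8 := by linarith
    rw [h1, hc1]
    have h2 : 0 ≤ (X ^ 2)⁻¹ := by positivity
    nlinarith [mul_nonneg hK0 h2]
  have heV : e ≤ V⁻¹ := by
    have h1 : V ≤ X := by
      have := hVpow 1 (by omega)
      rwa [pow_one] at this
    rw [he]
    refine inv_anti₀ hV0 (h1.trans ?_)
    have h2 : X ≤ X ^ 6 := le_self_pow₀ hX1 (by norm_num)
    linarith [pow_pos hX0 6]
  -- the exponents
  have hβb : ∀ j, |β j| + K ≤ b := fun j => by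
    have := hβ j
    rw [hb]; linarith
  have hmmr : (mm:ℝ) = 2 * b := by rw [hmm, hb]; push_cast; ring
  set E : Fin m → Finset ℝ := fun j => EE K b (β j) J with hE
  have hEb : ∀ j, ∀ a ∈ E j, |a| ≤ mm := by
    intro j a ha
    rw [hmmr]
    exact EE_bd (by rw [hb]; linarith) (hβb j) ha
  have hEc : ∀ j, ((#(E j) : ℕ) : ℝ) ≤ L ^ 2 := by
    intro j
    have h1 : ((#(E j) : ℕ) : ℝ) ≤ (2 * K + 1) * (8 * J + 16) := by exact_mod_cast EE_card K b (β j) J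
    have h2 : (8 * (J:ℝ) + 16) ≤ 9 * L := by linarith
    have h3 : (2 * (K:ℝ) + 1) * (8 * J + 16) ≤ (2 * K + 1) * (9 * L) := by gcongr
    nlinarith
  -- the mean squares
  have hNn : ∀ n : ℕ, n ≤ Q → 4 * (N:ℝ) ^ n ≤ T * (X ^ 16)⁻¹ := fun n hn =>
    le_trans (mul_le_mul_of_nonneg_left (pow_le_pow_right₀ hN1r hn) (by norm_num)) hNQ
  have hδn : ∀ n : ℕ, n ≤ D → (2 / δ) ^ n ≤ L ^ D := fun n hn =>
    (pow_le_pow_left₀ (by positivity) h2δ n).trans (pow_le_pow_right₀ hL1 hn)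
  have hLD1 : 1 ≤ L ^ D := one_le_pow₀ hL1
  have hXi16 : (X ^ 16)⁻¹ ≤ 1 := inv_le_one_of_one_le₀ (one_le_pow₀ hX1)
  have hXi0 : 0 < (X ^ 16)⁻¹ := by positivity
  have hiR : ∀ j, ∫ t in (0:ℝ)..T, Rg N (E j) W e (sp δ t + w j) ≤ (130 + 64 * C1) * T * (X ^ 3)⁻¹ := by
    intro j
    obtain ⟨hw1, hw2, hw3⟩ := hw j
    obtain ⟨mG, mI⟩ := ms_sh (k := mm) hN1 hδ0 hw1 (by linarith : δ + (w j).re ≤ 1) hT0.le
    have hz1 : ∫ t in (0:ℝ)..T, ‖riemannZeta (sp δ t + w j) - Dy N 1 (sp δ t + w j)‖ ^ 2 ≤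
        C1 * (X ^ 16)⁻¹ * (T * L) := by
      have h1 := hz T hTT1 N hN1 hN3 (δ + (w j).re) (by linarith) hw2 (w j).im hw3
      simp_rw [sp_add]
      refine h1.trans ?_
      have h2 : (N:ℝ) ^ (-(2 * (δ + (w j).re))) ≤ (X ^ 16)⁻¹ :=
        le_trans (Real.rpow_le_rpow_of_exponent_le hN1r (by linarith)) hN2d
      gcongr
    have g1 : ∀ a ∈ E j, ∀ b' ∈ E j,
        ∫ t in (0:ℝ)..T, ‖Dy N (a + b') (sp δ t + w j) - Dy N a (sp δ t + w j) * Dy N b' (sp δ t + w j)‖ ^ 2 ≤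
        2 * T * L ^ D * (X ^ 16)⁻¹ := by
      intro a ha b' hb'
      refine (mG a b' (hEb j a ha) (hEb j b' hb')).trans ?_
      have h1 := hNn (2 * (4 * mm + 3)) (by omega)
      have h2 : (N:ℝ) ^ (-δ) * (2 / δ) ^ ((2 * mm) ^ 2) ≤ (X ^ 16)⁻¹ * L ^ D := by
        have := hδn ((2 * mm) ^ 2) (by omega)
        gcongr
      have h3 : T * ((N:ℝ) ^ (-δ) * (2 / δ) ^ ((2 * mm) ^ 2)) ≤ T * ((X ^ 16)⁻¹ * L ^ D) := by gcongr
      have h4 : T * (X ^ 16)⁻¹ ≤ T * ((X ^ 16)⁻¹ * L ^ D) := by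
        gcongr
        exact le_mul_of_one_le_right hXi0.le hLD1
      calc _ ≤ T * ((X ^ 16)⁻¹ * L ^ D) + T * ((X ^ 16)⁻¹ * L ^ D) := by linarith
        _ = _ := by ring
    have g2 : ∀ a ∈ E j, ∫ t in (0:ℝ)..T, ‖Dy N a (sp δ t + w j)‖ ^ 2 ≤ 2 * T * L ^ D := by
      intro a ha
      refine (mI a (hEb j a ha)).trans ?_
      have h1 := hNn (2 * (4 * mm + 3)) (by omega)
      have h2 := hδn ((2 * mm) ^ 2) (by omega)
      have h3 : T * (2 / δ) ^ ((2 * mm) ^ 2) ≤ T * L ^ D := by gcongr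
      have h4 : T * (X ^ 16)⁻¹ ≤ T * L ^ D := by
        gcongr
        linarith
      linarith
    have h := iRg N (E j) W e hw2 g1 g2 hz1
    refine h.trans ?_
    have hEj := hEc j
    have hE0 : (0:ℝ) ≤ ((#(E j) : ℕ) : ℝ) := Nat.cast_nonneg _
    have hLD4 : L ^ (D + 4) ≤ X := hLX _ (by omega)
    have t1 : ((#(E j) : ℕ) : ℝ) * (((#(E j) : ℕ) : ℝ) * (2 * T * L ^ D * (X ^ 16)⁻¹ / e ^ 2)) ≤
        128 * T * (X ^ 3)⁻¹ := by
      calc _ ≤ L ^ 2 * (L ^ 2 * (2 * T * L ^ D * (X ^ 16)⁻¹ / e ^ 2)) := by gcongr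
        _ = 128 * T * L ^ (D + 4) * (X ^ 4)⁻¹ := by rw [he]; field_simp; ring
        _ ≤ 128 * T * X * (X ^ 4)⁻¹ := by gcongr
        _ = 128 * T * (X ^ 3)⁻¹ := by field_simp
    have hLD2 : L ^ (D + 2) ≤ X := hLX _ (by omega)
    have t2 : ((#(E j) : ℕ) : ℝ) * (2 * T * L ^ D / W ^ 2) ≤ 2 * T * (X ^ 3)⁻¹ := by
      calc _ ≤ L ^ 2 * (2 * T * L ^ D / W ^ 2) := by gcongr
        _ = 2 * T * L ^ (D + 2) * (X ^ 4)⁻¹ := by rw [hW]; field_simp; ring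
        _ ≤ 2 * T * X * (X ^ 4)⁻¹ := by gcongr
        _ = _ := by field_simp
    have hLX1 : L ≤ X := by have := hLX 1 (by omega); rwa [pow_one] at this
    have t3 : C1 * (X ^ 16)⁻¹ * (T * L) / e ^ 2 ≤ 64 * C1 * T * (X ^ 3)⁻¹ := by
      calc _ = 64 * C1 * T * L * (X ^ 4)⁻¹ := by rw [he]; field_simp; ring
        _ ≤ 64 * C1 * T * X * (X ^ 4)⁻¹ := by gcongr
        _ = _ := by field_simp
    calc _ ≤ 128 * T * (X ^ 3)⁻¹ + 2 * T * (X ^ 3)⁻¹ + 64 * C1 * T * (X ^ 3)⁻¹ := by linarith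
      _ = _ := by ring
  have hi2 : ∀ a : ℝ, |a| ≤ 1 → ∀ j, ∫ t in (0:ℝ)..T, ‖Dy N a (sp δ t + w j)‖ ^ 2 ≤ 2 * T * L ^ D := by
    intro a ha j
    obtain ⟨hw1, hw2, hw3⟩ := hw j
    obtain ⟨mG, mI⟩ := ms_sh (k := mm) hN1 hδ0 hw1 (by linarith : δ + (w j).re ≤ 1) hT0.le
    have hmm1 : (1:ℝ) ≤ mm := by rw [hmmr, hb]; linarith
    refine (mI a (ha.trans hmm1)).trans ?_
    have h1 := hNn (2 * (4 * mm + 3)) (by omega)
    have h2 := hδn ((2 * mm) ^ 2) (by omega)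
    have h3 : T * (2 / δ) ^ ((2 * mm) ^ 2) ≤ T * L ^ D := by gcongr
    have h4 : T * (X ^ 16)⁻¹ ≤ T * L ^ D := by
      gcongr
      linarith
    linarith
  have hmv : 4 * (N:ℝ) ^ ((m + 1) * (2 * (m * (2 * K)) + 3)) +
      T * (2 * ((N:ℝ) ^ (-δ) * (2 / δ) ^ ((m * (2 * K)) ^ 2))) ≤ 3 * T * L ^ D * (X ^ 16)⁻¹ := by
    have h1 := hNn ((m + 1) * (2 * (m * (2 * K)) + 3)) (by omega)
    have h0 : (m * (2 * K)) ^ 2 ≤ D := by
      have : (m * (2 * K)) ^ 2 ≤ (2 * (m * (2 * K))) ^ 2 := Nat.pow_le_pow_left (by omega) 2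
      omega
    have h2 := hδn _ h0
    have h3 : T * (2 * ((N:ℝ) ^ (-δ) * (2 / δ) ^ ((m * (2 * K)) ^ 2))) ≤ T * (2 * ((X ^ 16)⁻¹ * L ^ D)) := by gcongr
    have h4 : T * (X ^ 16)⁻¹ ≤ T * ((X ^ 16)⁻¹ * L ^ D) := by
      gcongr
      exact le_mul_of_one_le_right hXi0.le hLD1
    calc _ ≤ T * ((X ^ 16)⁻¹ * L ^ D) + T * (2 * ((X ^ 16)⁻¹ * L ^ D)) := by linarith
      _ = _ := by ring
  have hms : T * (2 / δ) ^ ((2 * (m * (2 * K))) ^ 2) + 4 * (N:ℝ) ^ (2 * m * (2 * (2 * (m * (2 * K))) + 3)) ≤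
      T * (2 * L ^ D) := by
    have h1 := hNn (2 * m * (2 * (2 * (m * (2 * K))) + 3)) (by omega)
    have h2 := hδn ((2 * (m * (2 * K))) ^ 2) (by omega)
    have h3 : T * (2 / δ) ^ ((2 * (m * (2 * K))) ^ 2) ≤ T * L ^ D := by gcongr
    have h4 : T * (X ^ 16)⁻¹ ≤ T * L ^ D := by
      gcongr
      linarith
    linarith
  exact second (b := b) (W := W) (e := e) (J := J) (N := N) (D := D) (B := B) (C1 := C1) (c1 := c1) (X := X)
    hT0 hC1.le hc1p hL24 hLc hX1 hXP hV1 hN1 hVone hW1 he0 h8' (by rw [hb]; linarith)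
    (fun j => by have := hβb j; linarith) hβ hr hrho4 hfac (hc1X.trans hXi1) heV
    (fun j => ⟨(hw j).1, (hw j).2.1⟩) hδ0 (by linarith) hVR hiR hi2 hmv hms

end

end Pool.Agent.X110.RR
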