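import Pool.Agent.X110.LV1
import Pool.Agent.X110.LT4
import Pool.Agent.X110.RR5

set_option autoImplicit false

/-! Joint moments of modulus (complex order) and argument (integer order). -/

namespace Pool.Agent.X110.LV

open Finset Filter Topology MeasureTheory
open Pool.Agent.H306R2 Pool.Agent.Y746.OA Pool.Agent.X110.LT Pool.Agent.X110.ND Pool.Agent.X110.RR

noncomputable section

/-- the joint moment `ζ^r |ζ|^(2z)` over the good set -/
def MP (V δ T : ℝ) (r : ℤ) (z : ℂ) : ℂ :=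
  (1 / (T:ℂ)) * ∫ t in gset V δ T, riemannZeta (sp δ t) ^ r * Complex.exp (2 * z * (Xf δ t : ℝ))

lemma zr_norm {V δ T : ℝ} (hV : 1 ≤ V) {t : ℝ} (ht : t ∈ gset V δ T) (r : ℤ) :
    ‖riemannZeta (sp δ t) ^ r‖ = Real.exp (r * Xf δ t) := by
  have hV0 : 0 < V := by linarith
  have h1 : 0 < ‖riemannZeta (sp δ t)‖ := lt_trans (inv_pos.mpr hV0) ht.2.1
  rw [norm_zpow, exp_Xf hV ht, Real.rpow_intCast]

lemma zr_meas {δ : ℝ} (hδ : δ ≤ 1 / 16) (r : ℤ) : Measurable fun t => riemannZeta (sp δ t) ^ r := by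
  have h := (zeta_sp_cont hδ).measurable
  rcases r with n | n
  · simp only [Int.ofNat_eq_natCast, zpow_natCast]
    exact h.pow_const n
  · simp only [zpow_negSucc]
    exact (h.pow_const (n + 1)).inv

lemma MP_diff {V δ T : ℝ} (hV : 1 ≤ V) (hδ : δ ≤ 1 / 16) (r : ℤ) : Differentiable ℂ (MP V δ T r) := by
  unfold MP
  refine Differentiable.const_mul (fun z₀ => ?_) _
  set ν := (volume : Measure ℝ).restrict (gset V δ T) with hν
  have hfin : IsFiniteMeasure ν := ⟨by rw [hν, Measure.restrict_apply_univ]; exact (gset_fin V δ T).lt_top⟩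
  set X : ℝ → ℝ := Xf δ with hX
  have hXm : Measurable X := Xf_meas hδ
  set l := Real.log V with hl
  have hl0 : 0 ≤ l := Real.log_nonneg hV
  have hfm : ∀ z : ℂ, Measurable fun t => riemannZeta (sp δ t) ^ r * Complex.exp (2 * z * (X t : ℝ)) := fun z =>
    (zr_meas hδ r).mul (Complex.measurable_exp.comp ((Complex.measurable_ofReal.comp hXm).const_mul _))
  have hb : ∀ z : ℂ, ∀ t ∈ gset V δ T, ‖riemannZeta (sp δ t) ^ r * Complex.exp (2 * z * (X t : ℝ))‖ ≤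
      Real.exp ((|(r:ℝ)| + 2 * ‖z‖) * l) := by
    intro z t ht
    rw [norm_mul, zr_norm hV ht, Complex.norm_exp, ← Real.exp_add]
    refine Real.exp_le_exp.mpr ?_
    have h1 := Xf_abs hV ht
    have h2 : (2 * z * ((X t : ℝ) : ℂ)).re = 2 * z.re * X t := by
      rw [Complex.re_mul_ofReal]
      simp
    rw [h2]
    have h3 : (r:ℝ) * Xf δ t ≤ |(r:ℝ)| * l := by
      calc _ ≤ |(r:ℝ) * Xf δ t| := le_abs_self _
        _ = |(r:ℝ)| * |Xf δ t| := abs_mul _ _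
        _ ≤ _ := mul_le_mul_of_nonneg_left h1 (abs_nonneg _)
    have h4 : 2 * z.re * X t ≤ 2 * ‖z‖ * l := by
      calc _ ≤ |2 * z.re * X t| := le_abs_self _
        _ = 2 * |z.re| * |X t| := by rw [abs_mul, abs_mul, abs_two]
        _ ≤ 2 * ‖z‖ * l := by
          have := Complex.abs_re_le_norm z
          gcongr
    calc _ ≤ |(r:ℝ)| * l + 2 * ‖z‖ * l := add_le_add h3 h4
      _ = _ := by ring
  have key := hasDerivAt_integral_of_dominated_loc_of_deriv_le (μ := ν) (𝕜 := ℂ)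
    (F := fun z t => riemannZeta (sp δ t) ^ r * Complex.exp (2 * z * (X t : ℝ)))
    (F' := fun z t => riemannZeta (sp δ t) ^ r * Complex.exp (2 * z * (X t : ℝ)) * (2 * (X t : ℝ))) (x₀ := z₀)
    (s := Metric.ball z₀ 1)
    (bound := fun _ => Real.exp ((|(r:ℝ)| + 2 * (‖z₀‖ + 1)) * l) * (2 * l)) (Metric.ball_mem_nhds z₀ one_pos)
    (Eventually.of_forall fun z => (hfm z).aestronglyMeasurable) ?_ ?_ ?_ ?_ ?_
  · exact key.2.differentiableAt
  · refine Integrable.mono' (integrable_const (Real.exp ((|(r:ℝ)| + 2 * ‖z₀‖) * l))) (hfm z₀).aestronglyMeasurable ?_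
    rw [ae_restrict_iff' (gset_meas V δ T hδ)]
    exact Eventually.of_forall fun t ht => hb z₀ t ht
  · exact ((hfm z₀).mul ((Complex.measurable_ofReal.comp hXm).const_mul 2)).aestronglyMeasurable
  · rw [ae_restrict_iff' (gset_meas V δ T hδ)]
    refine Eventually.of_forall fun t ht z hz => ?_
    rw [norm_mul]
    have h1 : ‖z‖ ≤ ‖z₀‖ + 1 := by
      rw [Metric.mem_ball, dist_eq_norm] at hz
      have := norm_sub_norm_le z z₀
      linarith
    have h2 : ‖(2 * ((X t : ℝ) : ℂ))‖ ≤ 2 * l := by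
      rw [norm_mul, Complex.norm_real, Real.norm_eq_abs]
      have h3 : ‖(2:ℂ)‖ = 2 := by simp
      rw [h3]
      have := Xf_abs hV ht
      linarith
    refine mul_le_mul ((hb z t ht).trans ?_) h2 (norm_nonneg _) (Real.exp_pos _).le
    gcongr
  · exact integrable_const _
  · refine Eventually.of_forall fun t z hz => ?_
    have h1 : HasDerivAt (fun z : ℂ => 2 * z * ((X t : ℝ) : ℂ)) (2 * ((X t : ℝ) : ℂ)) z := by
      simpa using ((hasDerivAt_id z).const_mul 2).mul_const ((X t : ℝ) : ℂ)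
    have h2 := (h1.cexp).const_mul (riemannZeta (sp δ t) ^ r)
    refine h2.congr_deriv ?_
    ring

lemma MP_norm {V δ T : ℝ} (hV : 1 ≤ V) (hδ : δ ≤ 1 / 16) (hT : 0 < T) (r : ℤ) (z : ℂ) :
    ‖MP V δ T r z‖ ≤ 1 / T * ∫ t in gset V δ T, ‖riemannZeta (sp δ t)‖ ^ (2 * (z.re + r / 2)) := by
  unfold MP
  rw [norm_mul, norm_div, norm_one, Complex.norm_real, Real.norm_of_nonneg hT.le]
  refine mul_le_mul_of_nonneg_left ?_ (by positivity)
  refine (norm_integral_le_integral_norm _).trans (le_of_eq ?_)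
  refine setIntegral_congr_fun (gset_meas V δ T hδ) fun t ht => ?_
  rw [← exp_Xf hV ht, norm_mul, zr_norm hV ht, Complex.norm_exp, ← Real.exp_add]
  congr 1
  rw [Complex.re_mul_ofReal]
  simp
  ring

/-- the main term for real orders -/
lemma Ty_one (β : ℝ) (n : ℕ) : Ty (fun _ : Fin 1 => β) (fun _ => 0) n = ((dv β n : ℝ) : ℂ) := by
  unfold Ty
  rw [Fin.prod_univ_one, tw2_apply, neg_zero, Complex.cpow_zero, mul_one]

lemma MP_real {V δ T : ℝ} (hV : 1 ≤ V) (hδ : δ ≤ 1 / 16) (r : ℤ) (β : ℝ) :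
    MP V δ T r β = (1 / (T:ℂ)) * ∫ t in Set.Ioc 0 T ∩ GS δ V (fun _ : Fin 1 => (0:ℂ)),
      Zf δ (fun _ : Fin 1 => (0:ℂ)) (fun _ => β) (fun _ => r) t := by
  unfold MP
  congr 1
  have hset : Set.Ioc 0 T ∩ GS δ V (fun _ : Fin 1 => (0:ℂ)) = gset V δ T := by
    ext t
    unfold GS gset
    simp only [add_zero, Set.mem_inter_iff, Set.mem_ofPred_eq, forall_const]
  rw [hset]
  refine setIntegral_congr_fun (gset_meas V δ T hδ) fun t ht => ?_
  unfold Zf
  rw [Fin.prod_univ_one, add_zero, ← exp_Xf hV ht]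
  push_cast
  rfl

lemma S2_real (r : ℤ) (β δ : ℝ) :
    ∑' n : ℕ, Ty (fun _ : Fin 1 => β + (r:ℝ)) (fun _ => 0) n * (starRingEnd ℂ) (Ty (fun _ : Fin 1 => β) (fun _ => 0) n) *
      Pool.Agent.Y746.CS.wt δ n = S2 ((β:ℂ) + r, β) δ := by
  unfold S2 Pool.Agent.Y746.CS.wt
  refine tsum_congr fun n => ?_
  have e : ((β:ℂ) + (r:ℂ)) = ((β + r : ℝ) : ℂ) := by push_cast; rfl
  rw [Ty_one, Ty_one, Complex.conj_ofReal, e, dvC_ofReal, dvC_ofReal]

/-- **Joint moments of complex orders.** -/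
theorem cphase (R : ℝ) (hR : 0 ≤ R) (r : ℤ) : ∃ c : ℝ, 0 < c ∧ ∀ B : ℝ, 0 ≤ B → ∃ (A C T0 : ℝ), 0 < C ∧
    ∀ T : ℝ, T0 ≤ T → ∀ δ : ℝ, C * Real.log (Real.log T) / Real.log T ≤ δ → δ ≤ 1 / 16 →
    1 ≤ Real.log T ∧ 0 < δ ∧ 2 / δ ≤ Real.log T ∧
    ∀ V : ℝ, Real.log T ^ A ≤ V → V ≤ T ^ (c * δ) → ∀ z : ℂ, ‖z‖ ≤ R →
    ‖MP V δ T r z - S2 (z + r, z) δ‖ ≤ Real.log T ^ (-B) := by
  set ρ : ℝ := 1 + Real.exp 1 * (R + 1) with hρ
  have hρ0 : 1 ≤ ρ := by rw [hρ]; have := Real.exp_pos 1; nlinarith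
  set k : ℕ := ⌈ρ⌉₊ + r.natAbs with hk
  have hrk : |(r:ℝ)| = (r.natAbs : ℝ) := by rw [Nat.cast_natAbs, Int.cast_abs]
  have hkρ : ρ + |(r:ℝ)| ≤ k := by
    rw [hk, hrk]
    push_cast
    have := Nat.le_ceil ρ
    linarith
  obtain ⟨c1, hc1, H⟩ := trunc_set (k:ℝ)
  obtain ⟨c2, hc2, H'⟩ := ratio 1 k
  refine ⟨min c1 c2, lt_min hc1 hc2, fun B hB => ?_⟩
  set q : ℝ := 2 * Real.exp 1 * (ρ + 1) with hq
  have hq1 : 1 ≤ q := by
    rw [hq]
    have : 1 ≤ Real.exp 1 := Real.one_le_exp (by norm_num)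
    nlinarith
  set a : ℝ := (k:ℝ) ^ 2 + B + 2 with ha
  have ha0 : 0 ≤ a := by rw [ha]; positivity
  have hlq : 0 ≤ Real.log q := Real.log_nonneg hq1
  obtain ⟨B2, hB2⟩ := exists_nat_ge (B + 3 + a * Real.log q)
  obtain ⟨A, C, T0, hC, H2⟩ := H 0
  obtain ⟨A', C', T0', hC', H2'⟩ := H' B2
  set Lc : ℝ := max (20 + 4 * ((a + 3) * q)) 1 with hLc
  refine ⟨max (max A A') 0, max C C', max (max T0 T0') (Real.exp Lc), lt_max_of_lt_left hC, fun T hT δ hδ hδ1 => ?_⟩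
  have hTe : Real.exp Lc ≤ T := (le_max_right _ _).trans hT
  have hT0 : 0 < T := lt_of_lt_of_le (Real.exp_pos _) hTe
  have hLL : Lc ≤ Real.log T := by rwa [Real.le_log_iff_exp_le hT0]
  set L := Real.log T with hL
  have hL1 : 1 ≤ L := (le_max_right _ _).trans hLL
  have hL0 : 0 < L := by linarith
  have hlL : 0 ≤ Real.log L := Real.log_nonneg hL1
  have hT1 : 1 ≤ T := by
    have h1 : Real.exp 0 ≤ Real.exp Lc := Real.exp_le_exp.mpr (le_trans zero_le_one (le_max_right _ _))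
    rw [Real.exp_zero] at h1
    linarith
  have hδC : C * Real.log L / L ≤ δ := le_trans (by gcongr; exact le_max_left _ _) hδ
  have hδC' : C' * Real.log L / L ≤ δ := le_trans (by gcongr; exact le_max_right _ _) hδ
  obtain ⟨hT4, hL24, hδ0, h2δ, H3⟩ := H2' T ((le_max_right _ _).trans ((le_max_left _ _).trans hT)) δ hδC' hδ1
  refine ⟨hL1, hδ0, h2δ, fun V hV1 hV2 z hz => ?_⟩
  have hV1A : L ^ A ≤ V :=
    (Real.rpow_le_rpow_of_exponent_le hL1 ((le_max_left _ _).trans (le_max_left _ _))).trans hV1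
  have hV1A' : L ^ A' ≤ V := by
    have h1 := (Real.rpow_le_rpow_of_exponent_le hL1 ((le_max_right A (A':ℝ)).trans (le_max_left _ 0))).trans hV1
    rwa [Real.rpow_natCast] at h1
  have hV : 1 ≤ V := by
    have h0 := Real.rpow_le_rpow_of_exponent_le hL1 (le_max_right (max A A') 0)
    rw [Real.rpow_zero] at h0
    exact h0.trans hV1
  have hV2a : V ≤ T ^ (c1 * δ) := hV2.trans (Real.rpow_le_rpow_of_exponent_le hT1 (by
    gcongr; exact min_le_left _ _))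
  have hV2b : V ≤ T ^ (c2 * δ) := hV2.trans (Real.rpow_le_rpow_of_exponent_le hT1 (by
    gcongr; exact min_le_right _ _))
  obtain ⟨-, g2⟩ := H2 T ((le_max_left _ _).trans ((le_max_left _ _).trans hT)) δ hδC hδ1 V hV1A hV2a
  have hSS : ∀ β : ℝ, |β| ≤ (k:ℝ) → SS β δ ≤ 2 * L ^ (k ^ 2) := fun β hβ => SS_le hβ hδ0 (by linarith) hL1 h2δ
  set f : ℂ → ℂ := fun z => MP V δ T r z - S2 (z + r, z) δ with hf
  have hfd : Differentiable ℂ f := (MP_diff hV hδ1 r).sub (S2_diff (r:ℂ) hδ0)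
  have hfM : ∀ w : ℂ, ‖w‖ ≤ ρ → ‖f w‖ ≤ 5 * L ^ (k ^ 2) := by
    intro w hw
    have hr2 : |(r:ℝ) / 2| ≤ |(r:ℝ)| := by
      rw [abs_div, abs_two]
      have := abs_nonneg (r:ℝ)
      linarith
    have hwre : |w.re + (r:ℝ) / 2| ≤ (k:ℝ) := by
      refine (abs_add_le _ _).trans ?_
      have := Complex.abs_re_le_norm w
      linarith
    have h1 := MP_norm (V := V) (T := T) hV hδ1 hT0 r w
    have h2 := (abs_le.mp (g2 _ hwre)).2
    rw [neg_zero, Real.rpow_zero] at h2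
    have h3 := hSS _ hwre
    have hw1 : ‖w + (r:ℂ)‖ ≤ (k:ℝ) := by
      refine (norm_add_le _ _).trans ?_
      rw [Complex.norm_intCast]
      linarith
    have hw2 : ‖w‖ ≤ (k:ℝ) := by linarith [abs_nonneg (r:ℝ)]
    have h4 := S2_norm (c := (w + (r:ℂ), w)) (K := k) hw1 hw2 hδ0
    have h5 := hSS k (by rw [abs_of_nonneg (Nat.cast_nonneg k)])
    have h6 : (1:ℝ) ≤ L ^ (k ^ 2) := one_le_pow₀ hL1
    have h7 := norm_sub_le (MP V δ T r w) (S2 (w + r, w) δ)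
    show ‖MP V δ T r w - S2 (w + r, w) δ‖ ≤ _
    linarith
  set m : ℕ := ⌈a * Real.log L⌉₊ + 1 - 1 + (if ⌈a * Real.log L⌉₊ = 0 then 1 else 0) with hm
  have hmpos : 0 < m := by
    rw [hm]; split_ifs <;> omega
  have hm1 : a * Real.log L ≤ m := by
    have h1 := Nat.le_ceil (a * Real.log L)
    have h2 : ((⌈a * Real.log L⌉₊ : ℕ) : ℝ) ≤ (m:ℝ) := by
      exact_mod_cast (by rw [hm]; split_ifs <;> omega : ⌈a * Real.log L⌉₊ ≤ m)
    linarith
  have hm2 : (m:ℝ) ≤ a * Real.log L + 1 := by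
    by_cases h0 : ⌈a * Real.log L⌉₊ = 0
    · have h1 : m = 1 := by rw [hm, if_pos h0, h0]
      rw [h1]
      have : 0 ≤ a * Real.log L := by positivity
      push_cast
      linarith
    · have h1 : m = ⌈a * Real.log L⌉₊ := by rw [hm, if_neg h0]; omega
      rw [h1]
      exact (Nat.ceil_lt_add_one (by positivity)).le
  have hη : ∀ j ≤ m, ‖f (node m j : ℝ)‖ ≤ L ^ (-(B + 3 + a * Real.log q)) := by
    intro j hj
    have hn0 : 0 ≤ node m j := by unfold node; positivity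
    have hn1 : node m j ≤ 1 := by
      unfold node
      rw [div_le_one (by exact_mod_cast hmpos)]
      exact_mod_cast hj
    have hnk : |node m j| ≤ (k:ℝ) := by
      rw [abs_of_nonneg hn0]
      linarith [abs_nonneg (r:ℝ)]
    have hrk' : |r| ≤ ((k:ℕ):ℤ) := by
      rw [hk, Int.abs_eq_natAbs]
      push_cast
      have : (0:ℤ) ≤ (⌈ρ⌉₊ : ℤ) := Int.natCast_nonneg _
      omega
    obtain ⟨g3, -⟩ := H3 V hV1A' hV2b (fun _ => 0) (fun _ => node m j) (fun _ => r)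
      (fun _ => ⟨by simp, by simpa using hδ1, by simpa using hT0.le⟩) (fun _ => hnk) (fun _ => by exact_mod_cast hrk')
    show ‖MP V δ T r ((node m j : ℝ) : ℂ) - S2 (((node m j : ℝ) : ℂ) + r, ((node m j : ℝ) : ℂ)) δ‖ ≤ _
    rw [MP_real hV hδ1, ← S2_real]
    have hTc : (T:ℂ) ≠ 0 := by exact_mod_cast hT0.ne'
    have e8 : ∀ I D : ℂ, (1 / (T:ℂ)) * I - D = (1 / (T:ℂ)) * (I - T * D) := by
      intro I D
      field_simp
    rw [e8, norm_mul, norm_div, norm_one, Complex.norm_real, Real.norm_of_nonneg hT0.le]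
    calc _ ≤ 1 / T * (T / L ^ B2) := mul_le_mul_of_nonneg_left g3 (by positivity)
      _ = (L ^ B2)⁻¹ := by field_simp
      _ = L ^ (-(B2:ℝ)) := by rw [Real.rpow_neg hL0.le, Real.rpow_natCast]
      _ ≤ _ := Real.rpow_le_rpow_of_exponent_le hL1 (by linarith)
  have hint := interp hfd hmpos hR (le_of_eq hρ.symm) hfM hη hz
  have hnum := num5 (k := k) (B := B) (a := a) (q := q) (L := L) hq1 hB ha hL1 ((le_max_left _ _).trans hLL) hm1 hm2
  exact hint.trans hnum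

end

end Pool.Agent.X110.LV
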