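import Pool.Agent.X110.SD3

set_option autoImplicit false

/-! Precise deviations under mod-Gaussian convergence: the Gaussian tail, the central limit theorem, and both together. -/

namespace Pool.Agent.X110.SD

open Filter Topology MeasureTheory ProbabilityTheory
open Pool.Agent.X110.LT

noncomputable section

/-- the Gaussian tail -/
def Qg (c : ℝ) : ℝ := (Real.sqrt (2 * Real.pi))⁻¹ * ∫ t in Set.Ioi c, Real.exp (-t ^ 2 / 2)

lemma sp_pos : 0 < Real.sqrt (2 * Real.pi) := Real.sqrt_pos.mpr (by positivity)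

lemma gi : Integrable fun t : ℝ => Real.exp (-t ^ 2 / 2) := by
  have h := integrable_exp_neg_mul_sq (b := 1 / 2) (by norm_num)
  refine h.congr (Eventually.of_forall fun t => ?_)
  simp only
  congr 1; ring

lemma Qg_cont : Continuous Qg := by
  have h : Qg = fun c => (Real.sqrt (2 * Real.pi))⁻¹ * ((∫ t in Set.Ioi (0:ℝ), Real.exp (-t ^ 2 / 2)) -
      ∫ t in (0:ℝ)..c, Real.exp (-t ^ 2 / 2)) := by
    funext c
    unfold Qg
    congr 1
    have h1 := intervalIntegral.integral_interval_add_Ioi (f := fun t : ℝ => Real.exp (-t ^ 2 / 2)) (a := 0) (b := c)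
      (μ := volume) gi.integrableOn gi.integrableOn
    linarith
  rw [h]
  refine continuous_const.mul (continuous_const.sub ?_)
  exact intervalIntegral.continuous_primitive (fun a b => Continuous.intervalIntegrable (by fun_prop) a b) 0

lemma Qg_lower {c : ℝ} (hc : 0 ≤ c) : (Real.sqrt (2 * Real.pi))⁻¹ * Real.exp (-(c + 1) ^ 2 / 2) ≤ Qg c := by
  unfold Qg
  refine mul_le_mul_of_nonneg_left ?_ (inv_nonneg.mpr sp_pos.le)
  have h1 : ∫ t in Set.Ioc c (c + 1), Real.exp (-(c + 1) ^ 2 / 2) = Real.exp (-(c + 1) ^ 2 / 2) := by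
    rw [setIntegral_const]
    simp
  rw [← h1]
  refine le_trans (setIntegral_mono_on (integrableOn_const (by simp)) gi.integrableOn measurableSet_Ioc fun t ht => ?_)
    (setIntegral_mono_set gi.integrableOn (Eventually.of_forall fun t => (Real.exp_pos _).le)
      (Eventually.of_forall fun t ht => ht.1))
  refine Real.exp_le_exp.mpr ?_
  have h2 : t ^ 2 ≤ (c + 1) ^ 2 := pow_le_pow_left₀ (hc.trans ht.1.le) ht.2 2
  linarith

lemma Qg_pos {c : ℝ} (hc : 0 ≤ c) : 0 < Qg c :=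
  lt_of_lt_of_le (mul_pos (inv_pos.mpr sp_pos) (Real.exp_pos _)) (Qg_lower hc)

lemma mills_int {c : ℝ} (hc : 0 < c) :
    IntegrableOn (fun t : ℝ => Real.exp (-t ^ 2 / 2) * (1 + 1 / t ^ 2)) (Set.Ioi c) ∧
    ∫ t in Set.Ioi c, Real.exp (-t ^ 2 / 2) * (1 + 1 / t ^ 2) = Real.exp (-c ^ 2 / 2) / c := by
  have hd : ∀ t ∈ Set.Ici c, HasDerivAt (fun t : ℝ => -(Real.exp (-t ^ 2 / 2) / t))
      (Real.exp (-t ^ 2 / 2) * (1 + 1 / t ^ 2)) t := by
    intro t ht
    have ht0 : t ≠ 0 := (lt_of_lt_of_le hc ht).ne'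
    have h1 : HasDerivAt (fun t : ℝ => -t ^ 2 / 2) (-t) t := by
      have := ((hasDerivAt_pow 2 t).neg).div_const 2
      refine this.congr_deriv ?_
      push_cast; ring
    have h2 := (h1.exp.div (hasDerivAt_id t) ht0).neg
    refine h2.congr_deriv ?_
    simp only [id]
    field_simp
    ring
  have hlim : Tendsto (fun t : ℝ => -(Real.exp (-t ^ 2 / 2) / t)) atTop (𝓝 0) := by
    have h1 : Tendsto (fun t : ℝ => Real.exp (-t ^ 2 / 2) / t) atTop (𝓝 0) := by
      refine squeeze_zero' ?_ ?_ tendsto_inv_atTop_zero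
      · filter_upwards [eventually_gt_atTop (0:ℝ)] with t ht
        positivity
      · filter_upwards [eventually_gt_atTop (0:ℝ)] with t ht
        rw [div_eq_mul_inv]
        refine mul_le_of_le_one_left (inv_nonneg.mpr ht.le) (Real.exp_le_one_iff.mpr ?_)
        nlinarith [sq_nonneg t]
    simpa using h1.neg
  have hi := integrableOn_Ioi_deriv_of_nonneg' hd (fun t _ => by positivity) hlim
  refine ⟨hi, ?_⟩
  rw [integral_Ioi_of_hasDerivAt_of_tendsto' hd hi hlim]
  ring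

/-- Mills' ratio -/
lemma mills : Tendsto (fun c : ℝ => c * Real.exp (c ^ 2 / 2) * Qg c) atTop (𝓝 ((Real.sqrt (2 * Real.pi))⁻¹)) := by
  set κ := (Real.sqrt (2 * Real.pi))⁻¹ with hκ
  have hκ0 : 0 < κ := inv_pos.mpr sp_pos
  have hlo : Tendsto (fun c : ℝ => κ * (1 + 1 / c ^ 2)⁻¹) atTop (𝓝 κ) := by
    have h1 : Tendsto (fun c : ℝ => 1 / c ^ 2) atTop (𝓝 0) :=
      tendsto_const_nhds.div_atTop (tendsto_pow_atTop (by norm_num))
    have h2 := ((h1.const_add 1).inv₀ (by norm_num)).const_mul κ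
    simpa using h2
  refine tendsto_of_tendsto_of_tendsto_of_le_of_le' hlo tendsto_const_nhds ?_ ?_
  · filter_upwards [eventually_gt_atTop (0:ℝ)] with c hc
    obtain ⟨hi, he⟩ := mills_int hc
    have h1 : ∫ t in Set.Ioi c, Real.exp (-t ^ 2 / 2) * (1 + 1 / t ^ 2) ≤
        ∫ t in Set.Ioi c, Real.exp (-t ^ 2 / 2) * (1 + 1 / c ^ 2) := by
      refine setIntegral_mono_on hi (gi.integrableOn.mul_const _) measurableSet_Ioi fun t ht => ?_
      have h2 : c ^ 2 ≤ t ^ 2 := pow_le_pow_left₀ hc.le (le_of_lt ht) 2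
      gcongr
    rw [he, integral_mul_const] at h1
    have hE : Real.exp (-c ^ 2 / 2) = (Real.exp (c ^ 2 / 2))⁻¹ := by
      rw [← Real.exp_neg]; congr 1; ring
    rw [hE] at h1
    have hEp := Real.exp_pos (c ^ 2 / 2)
    have hq : 0 < 1 + 1 / c ^ 2 := by positivity
    unfold Qg
    rw [← hκ]
    set I := ∫ t in Set.Ioi c, Real.exp (-t ^ 2 / 2) with hI
    have h3 : (1 + 1 / c ^ 2)⁻¹ ≤ c * Real.exp (c ^ 2 / 2) * I := by
      rw [inv_le_iff_one_le_mul₀ hq]
      have h4 : (Real.exp (c ^ 2 / 2))⁻¹ / c * (c * Real.exp (c ^ 2 / 2)) ≤ I * (1 + 1 / c ^ 2) * (c * Real.exp (c ^ 2 / 2)) :=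
        mul_le_mul_of_nonneg_right h1 (by positivity)
      have h5 : (Real.exp (c ^ 2 / 2))⁻¹ / c * (c * Real.exp (c ^ 2 / 2)) = 1 := by field_simp
      rw [h5] at h4
      linarith
    calc κ * (1 + 1 / c ^ 2)⁻¹ ≤ κ * (c * Real.exp (c ^ 2 / 2) * I) := mul_le_mul_of_nonneg_left h3 hκ0.le
      _ = _ := by ring
  · filter_upwards [eventually_gt_atTop (0:ℝ)] with c hc
    obtain ⟨hi, he⟩ := mills_int hc
    have h1 : ∫ t in Set.Ioi c, Real.exp (-t ^ 2 / 2) ≤ ∫ t in Set.Ioi c, Real.exp (-t ^ 2 / 2) * (1 + 1 / t ^ 2) := by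
      refine setIntegral_mono_on gi.integrableOn hi measurableSet_Ioi fun t _ => ?_
      refine le_mul_of_one_le_right (Real.exp_pos _).le ?_
      have : 0 ≤ 1 / t ^ 2 := by positivity
      linarith
    rw [he] at h1
    have hE : Real.exp (-c ^ 2 / 2) = (Real.exp (c ^ 2 / 2))⁻¹ := by
      rw [← Real.exp_neg]; congr 1; ring
    rw [hE] at h1
    have hEp := Real.exp_pos (c ^ 2 / 2)
    unfold Qg
    rw [← hκ]
    set I := ∫ t in Set.Ioi c, Real.exp (-t ^ 2 / 2) with hI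
    have h4 : I * (c * Real.exp (c ^ 2 / 2)) ≤ (Real.exp (c ^ 2 / 2))⁻¹ / c * (c * Real.exp (c ^ 2 / 2)) :=
      mul_le_mul_of_nonneg_right h1 (by positivity)
    have h5 : (Real.exp (c ^ 2 / 2))⁻¹ / c * (c * Real.exp (c ^ 2 / 2)) = 1 := by field_simp
    rw [h5] at h4
    calc c * Real.exp (c ^ 2 / 2) * (κ * I) = κ * (I * (c * Real.exp (c ^ 2 / 2))) := by ring
      _ ≤ κ * 1 := mul_le_mul_of_nonneg_left h4 hκ0.le
      _ = κ := mul_one _

/-- the tail as a Gaussian measure -/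
lemma gauss_Ici (c : ℝ) : (gaussianReal (-c) 1).real (Set.Ici 0) = Qg c := by
  rw [Measure.real, gaussianReal_apply_eq_integral _ one_ne_zero, ENNReal.toReal_ofReal
    (setIntegral_nonneg measurableSet_Ici fun x _ => gaussianPDFReal_nonneg _ _ _), integral_Ici_eq_integral_Ioi]
  unfold Qg gaussianPDFReal
  rw [integral_const_mul]
  simp only [NNReal.coe_one, mul_one, sub_neg_eq_add]
  congr 1
  have h1 := integral_add_right_eq_self (μ := (volume : Measure ℝ))
    (fun t : ℝ => Set.indicator (Set.Ioi c) (fun t => Real.exp (-t ^ 2 / 2)) t) c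
  rw [integral_indicator measurableSet_Ioi] at h1
  rw [← h1, ← integral_indicator measurableSet_Ioi]
  refine integral_congr_ae (Eventually.of_forall fun x => ?_)
  simp only [Set.indicator, Set.mem_Ioi]
  have : (0 < x) = (c < x + c) := by
    rw [eq_iff_iff]; constructor <;> intro h <;> linarith
  simp only [this]

variable {ι : Type*} {𝓕 : Filter ι} {μ : ι → Measure ℝ} {ℓ : ι → ℝ} {a : ℂ → ℂ}

/-- the total mass -/
lemma mass_lim (h : MG 𝓕 μ ℓ a) {A : ℝ} (hA : a 0 = (A : ℂ)) : Tendsto (fun i => (μ i).real Set.univ) 𝓕 (𝓝 A) := by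
  have h1 : Tendsto (fun i : ι => ((0:ℂ), i)) 𝓕 (𝓝 (0:ℂ) ×ˢ 𝓕) := tendsto_const_nhds.prodMk tendsto_id
  have h2 := Tendsto.comp (h.lim 0) h1
  rw [hA] at h2
  have h3 := (Complex.continuous_re.tendsto _).comp h2
  rw [Complex.ofReal_re] at h3
  refine h3.congr fun i => ?_
  have := h.fin i
  simp [Function.comp, Measure.real]

/-- **Central limit theorem** -/
theorem clt [𝓕.IsCountablyGenerated] (h : MG 𝓕 μ ℓ a) {A : ℝ} (hA : a 0 = (A : ℂ)) (hA0 : 0 < A) {c : ι → ℝ} {c₀ : ℝ} (hc : Tendsto c 𝓕 (𝓝 c₀)) :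
    Tendsto (fun i => (μ i).real (Set.Ici (c i * Real.sqrt (ℓ i)))) 𝓕 (𝓝 (A * Qg c₀)) := by
  classical
  set T : ι → ℝ → ℝ := fun i x => x / Real.sqrt (ℓ i) - c i with hT
  have hTc : ∀ i, Continuous (T i) := fun i => by simp only [hT]; fun_prop
  have hm : ∀ i, ∫ _, (1:ℝ) ∂(μ i) = (μ i).real Set.univ := fun i => by simp
  set P : ι → Measure ℝ := fun i => if 0 < ∫ _, (1:ℝ) ∂(μ i) then tilt (μ i) (fun _ => 1) (T i) else Measure.dirac 0 with hP
  have hPp : ∀ i, IsProbabilityMeasure (P i) := by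
    intro i
    have := h.fin i
    simp only [hP]
    split_ifs with h1
    · exact tilt_prob (fun _ => zero_le_one) (integrable_const _) h1 (hTc i).measurable
    · infer_instance
  have hml := mass_lim h hA
  have hev : ∀ᶠ i in 𝓕, 0 < ℓ i ∧ 0 < ∫ _, (1:ℝ) ∂(μ i) := by
    filter_upwards [h.big.eventually (eventually_gt_atTop 0), hml.eventually (lt_mem_nhds hA0)] with i g1 g2
    exact ⟨g1, by rw [hm]; exact g2⟩
  have hchar : ∀ y : ℝ, Tendsto (fun i => charFun (P i) y) 𝓕 (𝓝 (charFun (gaussianReal (-c₀) 1) y)) := by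
    intro y
    rw [charFun_gaussianReal]
    have h1 : Tendsto (fun i => (((y / Real.sqrt (ℓ i) : ℝ) : ℂ) * Complex.I, i)) 𝓕 (𝓝 (0:ℂ) ×ˢ 𝓕) := by
      refine Tendsto.prodMk ?_ tendsto_id
      have h2 : Tendsto (fun i => y / Real.sqrt (ℓ i)) 𝓕 (𝓝 0) := tendsto_const_nhds.div_atTop (sqrt_big h.big)
      have h3 := ((Complex.continuous_ofReal.tendsto 0).comp h2).mul_const Complex.I
      simpa using h3
    have h2 := Tendsto.comp (h.lim 0) h1
    rw [hA] at h2
    have h3 := (Complex.continuous_ofReal.tendsto _).comp hml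
    have hA1 : (A:ℂ) ≠ 0 := by exact_mod_cast hA0.ne'
    have h4 := h2.div h3 hA1
    rw [div_self hA1] at h4
    have h5 : Tendsto (fun i => Complex.exp ((y:ℂ) * ((-c i : ℝ) : ℂ) * Complex.I - (y:ℂ) ^ 2 / 2)) 𝓕
        (𝓝 (Complex.exp ((y:ℂ) * ((-c₀ : ℝ) : ℂ) * Complex.I - (y:ℂ) ^ 2 / 2))) := by
      have hcc : Continuous fun c : ℝ => Complex.exp ((y:ℂ) * ((-c : ℝ) : ℂ) * Complex.I - (y:ℂ) ^ 2 / 2) := by fun_prop
      exact (hcc.tendsto c₀).comp hc
    have h6 := h5.mul h4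
    rw [mul_one] at h6
    have e1 : Complex.exp ((y:ℂ) * ((-c₀ : ℝ) : ℂ) * Complex.I - ((1:NNReal) : ℂ) * (y:ℂ) ^ 2 / 2) =
        Complex.exp ((y:ℂ) * ((-c₀ : ℝ) : ℂ) * Complex.I - (y:ℂ) ^ 2 / 2) := by
      congr 1
      push_cast
      ring
    rw [e1]
    refine h6.congr' ?_
    filter_upwards [hev] with i ⟨g1, g2⟩
    have := h.fin i
    have e2 : P i = tilt (μ i) (fun _ => 1) (T i) := by simp only [hP]; rw [if_pos g2]
    have hq0 : 0 < Real.sqrt (ℓ i) := Real.sqrt_pos.mpr g1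
    rw [e2, charFun_apply_real, tilt_integral measurable_const (fun _ => zero_le_one) g2 (hTc i).measurable
      (Continuous.aestronglyMeasurable (by fun_prop))]
    simp only [Pi.div_apply, Function.comp, one_smul]
    have e3 : ∀ x : ℝ, Complex.exp ((y:ℂ) * ((T i x : ℝ) : ℂ) * Complex.I) =
        Complex.exp ((y:ℂ) * ((-c i : ℝ) : ℂ) * Complex.I) * Complex.exp ((((y / Real.sqrt (ℓ i) : ℝ) : ℂ) * Complex.I) * x) := by
      intro x
      rw [← Complex.exp_add]
      congr 1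
      simp only [hT]
      push_cast
      ring
    simp_rw [e3]
    rw [integral_const_mul, hm, Complex.real_smul, Complex.ofReal_inv]
    have e4 : Complex.exp ((y:ℂ) * ((-c i : ℝ) : ℂ) * Complex.I - (y:ℂ) ^ 2 / 2) *
        Complex.exp (-((ℓ i : ℝ) : ℂ) * (((y / Real.sqrt (ℓ i) : ℝ) : ℂ) * Complex.I) ^ 2 / 2) =
        Complex.exp ((y:ℂ) * ((-c i : ℝ) : ℂ) * Complex.I) := by
      rw [← Complex.exp_add]
      congr 1
      have e5 : ((y / Real.sqrt (ℓ i) : ℝ) : ℂ) ^ 2 * ((ℓ i : ℝ) : ℂ) = (y:ℂ) ^ 2 := by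
        rw [← Complex.ofReal_pow, ← Complex.ofReal_mul, div_pow, Real.sq_sqrt g1.le, div_mul_cancel₀ _ g1.ne']
        push_cast; rfl
      have : (Complex.I) ^ 2 = -1 := Complex.I_sq
      rw [mul_pow, this]
      linear_combination (1/2 : ℂ) * e5
    rw [← mul_div_assoc, ← mul_assoc, e4]
    ring
  let Ps : ι → ProbabilityMeasure ℝ := fun i => ⟨P i, hPp i⟩
  let P0 : ProbabilityMeasure ℝ := ⟨gaussianReal (-c₀) 1, inferInstance⟩
  refine tendsto_of_seq_tendsto fun σ hσ => ?_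
  have hw : Tendsto (fun n => Ps (σ n)) atTop (𝓝 P0) := by
    refine ProbabilityMeasure.tendsto_of_tendsto_charFun fun y => ?_
    exact (hchar y).comp hσ
  have hfr : ((P0 : ProbabilityMeasure ℝ) : Measure ℝ) (frontier (Set.Ici 0)) = 0 := by
    rw [frontier_Ici]
    have hns : NullSingletonClass (gaussianReal (-c₀) 1) := nullSingletonClass_gaussianReal (by norm_num)
    show (gaussianReal (-c₀) 1) {0} = 0
    exact measure_singleton _
  have h1 := ProbabilityMeasure.tendsto_measure_of_null_frontier_of_tendsto' hw hfr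
  have h2 := (ENNReal.tendsto_toReal (measure_ne_top ((P0 : ProbabilityMeasure ℝ) : Measure ℝ) _)).comp h1
  have h3 : (((P0 : ProbabilityMeasure ℝ) : Measure ℝ) (Set.Ici 0)).toReal = Qg c₀ := gauss_Ici c₀
  rw [h3] at h2
  have h4 : Tendsto (fun n => (P (σ n)).real (Set.Ici 0)) atTop (𝓝 (Qg c₀)) := h2
  have h5 := (hml.comp hσ).mul h4
  refine h5.congr' ?_
  filter_upwards [hσ.eventually hev] with n ⟨g1, g2⟩
  have := h.fin (σ n)
  simp only [Function.comp]
  have e2 : P (σ n) = tilt (μ (σ n)) (fun _ => 1) (T (σ n)) := by simp only [hP]; rw [if_pos g2]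
  have hq0 : 0 < Real.sqrt (ℓ (σ n)) := Real.sqrt_pos.mpr g1
  have e3 : (P (σ n)).real (Set.Ici 0) = ∫ x, Set.indicator (Set.Ici (0:ℝ)) (fun _ => (1:ℝ)) x ∂(P (σ n)) := by
    rw [integral_indicator measurableSet_Ici, setIntegral_const, smul_eq_mul, mul_one]
  rw [e3, e2, tilt_integral measurable_const (fun _ => zero_le_one) g2 (hTc _).measurable
    (measurable_const.indicator measurableSet_Ici).aestronglyMeasurable, hm, smul_eq_mul, ← mul_assoc]
  have g3 : (μ (σ n)).real Set.univ ≠ 0 := by rw [← hm]; exact g2.ne'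
  rw [mul_inv_cancel₀ g3, one_mul]
  have e4 : ∀ x : ℝ, (1:ℝ) • Set.indicator (Set.Ici (0:ℝ)) (fun _ => (1:ℝ)) (T (σ n) x) =
      Set.indicator (Set.Ici (c (σ n) * Real.sqrt (ℓ (σ n)))) (fun _ => (1:ℝ)) x := by
    intro x
    rw [one_smul]
    have : (0 ≤ T (σ n) x) = (c (σ n) * Real.sqrt (ℓ (σ n)) ≤ x) := by
      rw [eq_iff_iff]
      simp only [hT, sub_nonneg]
      rw [le_div_iff₀ hq0]
    simp only [Set.indicator, Set.mem_Ici, this]
  simp_rw [e4]
  rw [integral_indicator measurableSet_Ici, setIntegral_const, smul_eq_mul, mul_one]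

/-- **The normal approximation in the whole range of large deviations.** -/
theorem unif [𝓕.IsCountablyGenerated] (h : MG 𝓕 μ ℓ a) {x : ι → ℝ} {b : ℝ} (hx : ∀ᶠ i in 𝓕, 0 ≤ x i)
    (hb : Tendsto (fun i => x i / ℓ i) 𝓕 (𝓝 b)) {A : ℝ} (hA : a b = (A : ℂ)) (hA0 : 0 < A) :
    Tendsto (fun i => (μ i).real (Set.Ici (x i)) / Qg (x i / Real.sqrt (ℓ i))) 𝓕 (𝓝 A) := by
  refine tendsto_of_subseq_tendsto fun ns hns => ?_
  set c : ℕ → ℝ := fun n => x (ns n) / Real.sqrt (ℓ (ns n)) with hc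
  obtain ⟨L, -, φ, hφ, hL⟩ := isCompact_univ.tendsto_subseq (x := fun n => ENNReal.ofReal (c n)) (fun n => Set.mem_univ _)
  refine ⟨φ, ?_⟩
  set σ : ℕ → ι := fun n => ns (φ n) with hσdef
  have hσ : Tendsto σ atTop 𝓕 := hns.comp hφ.tendsto_atTop
  have h' := h.comp hσ
  have hev : ∀ᶠ n in atTop, 0 ≤ x (σ n) ∧ 0 < ℓ (σ n) := by
    filter_upwards [hσ.eventually hx, hσ.eventually (h.big.eventually (eventually_gt_atTop 0))] with n g1 g2
    exact ⟨g1, g2⟩
  by_cases hLt : L = ⊤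
  · -- deviations
    have hcinf : Tendsto (fun n => c (φ n)) atTop atTop := by
      rw [hLt] at hL
      rw [ENNReal.tendsto_nhds_top_iff_nnreal] at hL
      refine tendsto_atTop.mpr fun K => ?_
      filter_upwards [hL (Real.toNNReal K)] with n hn
      simp only [Function.comp] at hn
      have h1 : ENNReal.ofReal K < ENNReal.ofReal (c (φ n)) := hn
      rw [ENNReal.ofReal_lt_ofReal_iff'] at h1
      exact h1.1.le
    have hβpos : ∀ᶠ n in atTop, 0 < x (σ n) / ℓ (σ n) := by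
      filter_upwards [hev, hcinf.eventually (eventually_gt_atTop 0)] with n ⟨g1, g2⟩ g3
      have h2 : x (σ n) ≠ 0 := by
        intro h0
        have : c (φ n) = 0 := by
          simp only [hc]
          rw [show x (ns (φ n)) = 0 from h0, zero_div]
        linarith
      exact div_pos (lt_of_le_of_ne g1 (Ne.symm h2)) g2
    have e1 : ∀ᶠ n in atTop, c (φ n) = x (σ n) / ℓ (σ n) * Real.sqrt (ℓ (σ n)) := by
      filter_upwards [hev] with n ⟨g1, g2⟩
      have hq0 : 0 < Real.sqrt (ℓ (σ n)) := Real.sqrt_pos.mpr g2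
      have hq2 := Real.mul_self_sqrt g2.le
      show x (σ n) / Real.sqrt (ℓ (σ n)) = _
      rw [div_mul_eq_mul_div, div_eq_div_iff hq0.ne' g2.ne', mul_assoc, hq2]
    have hbig : Tendsto (fun n => x (σ n) / ℓ (σ n) * Real.sqrt (ℓ (σ n))) atTop atTop := hcinf.congr' e1
    have ht := tail (β := fun n => x (σ n) / ℓ (σ n)) h' (hb.comp hσ) hβpos hbig hA hA0
    have hmi := mills.comp hcinf
    have h3 := ht.div hmi (inv_ne_zero sp_pos.ne')
    have e2 : A / Real.sqrt (2 * Real.pi) / (Real.sqrt (2 * Real.pi))⁻¹ = A := by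
      have := sp_pos
      field_simp
    rw [e2] at h3
    refine h3.congr' ?_
    filter_upwards [hev, hcinf.eventually (eventually_gt_atTop 0), e1] with n ⟨g1, g2⟩ g3 g4
    have hq0 : 0 < Real.sqrt (ℓ (σ n)) := Real.sqrt_pos.mpr g2
    have e3 : x (σ n) / ℓ (σ n) * ℓ (σ n) = x (σ n) := div_mul_cancel₀ _ g2.ne'
    have e4 : ℓ (σ n) * (x (σ n) / ℓ (σ n)) ^ 2 / 2 = c (φ n) ^ 2 / 2 := by
      rw [g4, mul_pow, Real.sq_sqrt g2.le]; ring
    simp only [Pi.div_apply, Function.comp]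
    rw [← g4, e3, e4]
    have hE := Real.exp_pos (c (φ n) ^ 2 / 2)
    have hQ : 0 < Qg (c (φ n)) := Qg_pos g3.le
    show _ = (μ (σ n)).real (Set.Ici (x (σ n))) / Qg (c (φ n))
    field_simp
  · -- the central range
    have hcl : Tendsto (fun n => c (φ n)) atTop (𝓝 L.toReal) := by
      refine ((ENNReal.tendsto_toReal hLt).comp hL).congr' ?_
      filter_upwards [hev] with n ⟨g1, g2⟩
      simp only [Function.comp]
      exact ENNReal.toReal_ofReal (div_nonneg g1 (Real.sqrt_nonneg _))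
    have hL0 : 0 ≤ L.toReal := ENNReal.toReal_nonneg
    have hb0 : b = 0 := by
      have h1 : Tendsto (fun n => c (φ n) / Real.sqrt (ℓ (σ n))) atTop (𝓝 0) := hcl.div_atTop (sqrt_big h'.big)
      have h2 : Tendsto (fun n => x (σ n) / ℓ (σ n)) atTop (𝓝 0) := by
        refine h1.congr' ?_
        filter_upwards [hev] with n ⟨g1, g2⟩
        show x (σ n) / Real.sqrt (ℓ (σ n)) / Real.sqrt (ℓ (σ n)) = _
        rw [div_div, Real.mul_self_sqrt g2.le]
      exact tendsto_nhds_unique (hb.comp hσ) h2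
    have hA' : a 0 = (A : ℂ) := by rw [← hA, hb0, Complex.ofReal_zero]
    have ht := clt h' hA' hA0 hcl
    have hQ0 := Qg_pos hL0
    have h3 := ht.div ((Qg_cont.tendsto _).comp hcl) hQ0.ne'
    rw [mul_div_cancel_right₀ _ hQ0.ne'] at h3
    refine h3.congr' ?_
    filter_upwards [hev] with n ⟨g1, g2⟩
    have hq0 : 0 < Real.sqrt (ℓ (σ n)) := Real.sqrt_pos.mpr g2
    simp only [Pi.div_apply, Function.comp]
    have e5 : c (φ n) * Real.sqrt (ℓ (σ n)) = x (σ n) := by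
      show x (σ n) / Real.sqrt (ℓ (σ n)) * Real.sqrt (ℓ (σ n)) = _
      exact div_mul_cancel₀ _ hq0.ne'
    rw [e5]

end

end Pool.Agent.X110.SD
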