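import Pool.Agent.X110.LV2
import Pool.Agent.X110.SD4

set_option autoImplicit false

/-! Mod-Gaussian convergence jointly with the argument. -/

namespace Pool.Agent.X110.LV

open Finset Filter Topology MeasureTheory
open Pool.Agent.H306R2 Pool.Agent.Y746.OA Pool.Agent.X110.LT Pool.Agent.X110.ND Pool.Agent.X110.SD

noncomputable section

lemma two_delta_gen {δ L : ℝ} (hδ : 0 < δ) (h2 : 2 / δ ≤ L) (hδ1 : δ ≤ 1 / 16) {w : ℂ} {E : ℝ} (hw : ‖w‖ ≤ E) :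
    ‖((2 * δ : ℝ) : ℂ) ^ w‖ ≤ L ^ E := by
  have hL0 : 0 < L := lt_of_lt_of_le (by positivity) h2
  have h2δ0 : 0 < 2 * δ := by linarith
  have hE : 0 ≤ E := (norm_nonneg _).trans hw
  rw [Complex.norm_cpow_eq_rpow_re_of_pos h2δ0]
  have hre : -E ≤ w.re := (abs_le.mp ((Complex.abs_re_le_norm w).trans hw)).1
  have h3 : (2 * δ) ^ w.re ≤ (2 * δ) ^ (-E) := Real.rpow_le_rpow_of_exponent_ge h2δ0 (by linarith) hre
  refine h3.trans ?_
  rw [Real.rpow_neg h2δ0.le, ← Real.inv_rpow h2δ0.le]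
  refine Real.rpow_le_rpow (by positivity) ?_ hE
  have h4 : (2 * δ)⁻¹ ≤ 2 / δ := by
    rw [mul_inv, div_eq_mul_inv]
    have : 0 < δ⁻¹ := by positivity
    nlinarith
  exact h4.trans h2

/-- **Mod-Gaussian convergence with phases.** -/
theorem modG2 {δ V : ℝ → ℝ} (h : Adm δ V) (r : ℤ) (z₀ : ℂ) :
    Tendsto (fun q : ℂ × ℝ => ((2 * δ q.2 : ℝ) : ℂ) ^ (q.1 * (q.1 + r)) * MP (V q.2) (δ q.2) q.2 r q.1) (𝓝 z₀ ×ˢ atTop)
      (𝓝 (a2 (z₀ + r, z₀))) := by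
  set R : ℝ := ‖z₀‖ + 1 with hR
  set E : ℝ := R * (R + |(r:ℝ)|) with hE
  have hR0 : 0 ≤ R := by positivity
  have hE0 : 0 ≤ E := by positivity
  obtain ⟨c, hc, H⟩ := cphase R hR0 r
  obtain ⟨A, C, T0, hC, H2⟩ := H (E + 1) (by positivity)
  have hev := h.ev (C := C) (A := A) (T0 := T0) hc
  have h1 : Tendsto (fun q : ℂ × ℝ => h2 (q.1 + r, q.1) (δ q.2)) (𝓝 z₀ ×ˢ atTop) (𝓝 (a2 (z₀ + r, z₀))) := by
    have hcz : Continuous fun z : ℂ => (z + (r:ℂ), z) := by fun_prop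
    have g1 : Tendsto (fun q : ℂ × ℝ => ((q.1 + (r:ℂ), q.1), δ q.2)) (𝓝 z₀ ×ˢ atTop) (l2 (z₀ + r, z₀)) := by
      refine Tendsto.prodMk ((hcz.tendsto z₀).comp tendsto_fst) ?_
      rw [tendsto_nhdsWithin_iff]
      exact ⟨h.1.comp tendsto_snd, tendsto_snd.eventually h.2.2.1⟩
    have g2 := Tendsto.comp (h2_tendsto (z₀ + r, z₀)) g1
    simpa only [Function.comp_def] using g2
  have h3 : Tendsto (fun q : ℂ × ℝ => ((2 * δ q.2 : ℝ) : ℂ) ^ (q.1 * (q.1 + r)) * MP (V q.2) (δ q.2) q.2 r q.1 -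
      h2 (q.1 + r, q.1) (δ q.2)) (𝓝 z₀ ×ˢ atTop) (𝓝 0) := by
    have hL : Tendsto (fun q : ℂ × ℝ => (Real.log q.2)⁻¹) (𝓝 z₀ ×ˢ atTop) (𝓝 0) :=
      (tendsto_inv_atTop_zero.comp Real.tendsto_log_atTop).comp tendsto_snd
    refine squeeze_zero_norm' ?_ hL
    have hb : ∀ᶠ q : ℂ × ℝ in 𝓝 z₀ ×ˢ atTop, ‖q.1‖ ≤ R := by
      have h : ∀ᶠ z : ℂ in 𝓝 z₀, ‖z‖ < ‖z₀‖ + 1 := continuous_norm.continuousAt.eventually (gt_mem_nhds (by linarith))
      exact (tendsto_fst.eventually h).mono fun p hp => hp.le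
    filter_upwards [hb, tendsto_snd.eventually hev] with q hq ⟨g1, g2, g3, g4, g5, g6, g7, g8⟩
    obtain ⟨k1, k2, k3, k4⟩ := H2 q.2 g1 (δ q.2) g5 g6
    have k5 := k4 (V q.2) g7 g8 q.1 hq
    have e0 : h2 (q.1 + r, q.1) (δ q.2) = ((2 * δ q.2 : ℝ) : ℂ) ^ (q.1 * (q.1 + r)) * S2 (q.1 + r, q.1) (δ q.2) := by
      unfold h2
      simp only
      rw [mul_comm (q.1 + (r:ℂ)) q.1]
    have e1 : ((2 * δ q.2 : ℝ) : ℂ) ^ (q.1 * (q.1 + r)) * MP (V q.2) (δ q.2) q.2 r q.1 - h2 (q.1 + r, q.1) (δ q.2) =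
        ((2 * δ q.2 : ℝ) : ℂ) ^ (q.1 * (q.1 + r)) * (MP (V q.2) (δ q.2) q.2 r q.1 - S2 (q.1 + r, q.1) (δ q.2)) := by
      rw [e0]; ring
    rw [e1, norm_mul]
    have hL0 : 0 < Real.log q.2 := by linarith
    have hwE : ‖q.1 * (q.1 + (r:ℂ))‖ ≤ E := by
      rw [norm_mul]
      have h6 : ‖q.1 + (r:ℂ)‖ ≤ R + |(r:ℝ)| := (norm_add_le _ _).trans (by rw [Complex.norm_intCast]; linarith)
      exact mul_le_mul hq h6 (norm_nonneg _) hR0
    calc _ ≤ Real.log q.2 ^ E * Real.log q.2 ^ (-(E + 1)) :=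
          mul_le_mul (two_delta_gen k2 k3 g6 hwE) k5 (norm_nonneg _) (by positivity)
      _ = (Real.log q.2)⁻¹ := by
          rw [← Real.rpow_add hL0, ← Real.rpow_neg_one]
          congr 1; ring
  have h4 := h3.add h1
  rw [zero_add] at h4
  exact h4.congr fun q => by ring

/-- the argument -/
def ph (δ t : ℝ) : ℂ := riemannZeta (sp δ t) / (‖riemannZeta (sp δ t)‖ : ℂ)

lemma ph_le (δ t : ℝ) : ‖ph δ t‖ ≤ 1 := by
  unfold ph
  rw [norm_div, Complex.norm_real, norm_norm]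
  exact div_self_le_one _

lemma ph_one {V δ T t : ℝ} (hV : 1 ≤ V) (ht : t ∈ gset V δ T) : ‖ph δ t‖ = 1 := by
  have h1 : 0 < ‖riemannZeta (sp δ t)‖ := lt_trans (inv_pos.mpr (by linarith)) ht.2.1
  unfold ph
  rw [norm_div, Complex.norm_real, norm_norm, div_self h1.ne']

lemma ph_meas {δ : ℝ} (hδ : δ ≤ 1 / 16) : Measurable (ph δ) := by
  have h := (zeta_sp_cont hδ)
  exact h.measurable.div (Complex.measurable_ofReal.comp h.norm.measurable)

/-- the weight `1 + Re (κ e^(irθ))` -/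
def pw (κ : ℂ) (r : ℕ) (δ t : ℝ) : ℝ := 1 + (κ * ph δ t ^ r).re

lemma pw_nonneg {κ : ℂ} (hκ : ‖κ‖ ≤ 1) (r : ℕ) (δ t : ℝ) : 0 ≤ pw κ r δ t := by
  unfold pw
  have h1 : ‖κ * ph δ t ^ r‖ ≤ 1 := by
    rw [norm_mul, norm_pow]
    have := pow_le_one₀ (norm_nonneg _) (ph_le δ t) (n := r)
    calc _ ≤ 1 * 1 := mul_le_mul hκ this (by positivity) zero_le_one
      _ = 1 := one_mul 1
  have h2 := (abs_le.mp ((Complex.abs_re_le_norm _).trans h1)).1
  linarith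

lemma pw_le {κ : ℂ} (hκ : ‖κ‖ ≤ 1) (r : ℕ) (δ t : ℝ) : pw κ r δ t ≤ 2 := by
  unfold pw
  have h1 : ‖κ * ph δ t ^ r‖ ≤ 1 := by
    rw [norm_mul, norm_pow]
    have := pow_le_one₀ (norm_nonneg _) (ph_le δ t) (n := r)
    calc _ ≤ 1 * 1 := mul_le_mul hκ this (by positivity) zero_le_one
      _ = 1 := one_mul 1
  have h2 := (abs_le.mp ((Complex.abs_re_le_norm _).trans h1)).2
  linarith

lemma pw_meas {δ : ℝ} (hδ : δ ≤ 1 / 16) (κ : ℂ) (r : ℕ) : Measurable (pw κ r δ) := by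
  unfold pw
  exact (Complex.measurable_re.comp (((ph_meas hδ).pow_const r).const_mul κ)).const_add 1

/-- the weighted distribution of `log |ζ|` -/
def muP (κ : ℂ) (r : ℕ) (δ V : ℝ → ℝ) (T : ℝ) : Measure ℝ := by
  classical
  exact if 0 < T ∧ 1 ≤ V T ∧ δ T ≤ 1 / 16 then
    ((volume.restrict (gset (V T) (δ T) T)).withDensity fun t => ENNReal.ofReal (pw κ r (δ T) t / T)).map (Xf (δ T)) else 0

lemma muP_integral {E : Type*} [NormedAddCommGroup E] [NormedSpace ℝ E] {κ : ℂ} (hκ : ‖κ‖ ≤ 1) (r : ℕ) {δ V : ℝ → ℝ} {T : ℝ}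
    (hT : 0 < T ∧ 1 ≤ V T ∧ δ T ≤ 1 / 16) {f : ℝ → E} (hf : StronglyMeasurable f) :
    ∫ x, f x ∂(muP κ r δ V T) = (1 / T) • ∫ t in gset (V T) (δ T) T, pw κ r (δ T) t • f (Xf (δ T) t) := by
  unfold muP
  rw [if_pos hT, integral_map (Xf_meas hT.2.2).aemeasurable hf.aestronglyMeasurable,
    integral_withDensity_eq_integral_toReal_smul (((pw_meas hT.2.2 κ r).div_const _).ennreal_ofReal)
      (Eventually.of_forall fun _ => ENNReal.ofReal_lt_top), ← integral_smul]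
  refine integral_congr_ae (Eventually.of_forall fun t => ?_)
  simp only
  rw [ENNReal.toReal_ofReal (div_nonneg (pw_nonneg hκ r _ _) hT.1.le), smul_smul]
  congr 1
  ring

lemma muP_fin {κ : ℂ} (hκ : ‖κ‖ ≤ 1) (r : ℕ) (δ V : ℝ → ℝ) (T : ℝ) : IsFiniteMeasure (muP κ r δ V T) := by
  unfold muP
  split_ifs with h
  · constructor
    rw [Measure.map_apply (Xf_meas h.2.2) MeasurableSet.univ, Set.preimage_univ, withDensity_apply _ MeasurableSet.univ,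
      Measure.restrict_univ]
    have h1 : ∀ t, ENNReal.ofReal (pw κ r (δ T) t / T) ≤ ENNReal.ofReal (2 / T) := fun t =>
      ENNReal.ofReal_le_ofReal (div_le_div_of_nonneg_right (pw_le hκ r _ _) h.1.le)
    refine lt_of_le_of_lt (lintegral_mono h1) ?_
    rw [lintegral_const, Measure.restrict_apply_univ]
    exact ENNReal.mul_lt_top ENNReal.ofReal_lt_top (gset_fin _ _ _).lt_top
  · infer_instance

lemma muP_int {κ : ℂ} (hκ : ‖κ‖ ≤ 1) (r : ℕ) (δ V : ℝ → ℝ) (T : ℝ) (c : ℝ) :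
    Integrable (fun x => Real.exp (c * x)) (muP κ r δ V T) := by
  have hf := muP_fin hκ r δ V T
  by_cases h : 0 < T ∧ 1 ≤ V T ∧ δ T ≤ 1 / 16
  · refine Integrable.mono' (integrable_const (Real.exp (|c| * Real.log (V T)))) (Continuous.aestronglyMeasurable (by fun_prop)) ?_
    unfold muP
    rw [if_pos h, ae_map_iff (Xf_meas h.2.2).aemeasurable (by measurability)]
    have hae : ∀ᵐ t ∂(volume.restrict (gset (V T) (δ T) T)),
        ‖Real.exp (c * Xf (δ T) t)‖ ≤ Real.exp (|c| * Real.log (V T)) := by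
      rw [ae_restrict_iff' (gset_meas _ _ _ h.2.2)]
      refine Eventually.of_forall fun t ht => ?_
      rw [Real.norm_of_nonneg (Real.exp_pos _).le]
      refine Real.exp_le_exp.mpr ?_
      calc c * Xf (δ T) t ≤ |c * Xf (δ T) t| := le_abs_self _
        _ = |c| * |Xf (δ T) t| := abs_mul _ _
        _ ≤ _ := mul_le_mul_of_nonneg_left (Xf_abs h.2.1 ht) (abs_nonneg _)
    exact (withDensity_absolutelyContinuous _ _).ae_le hae
  · have : muP κ r δ V T = 0 := by unfold muP; rw [if_neg h]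
    rw [this]
    exact integrable_zero_measure

/-- the transform of the weighted distribution -/
lemma muP_exp {κ : ℂ} (hκ : ‖κ‖ ≤ 1) (r : ℕ) {δ V : ℝ → ℝ} {T : ℝ} (hT : 0 < T ∧ 1 ≤ V T ∧ δ T ≤ 1 / 16) (z : ℂ) :
    ∫ x : ℝ, Complex.exp (z * x) ∂(muP κ r δ V T) = MP (V T) (δ T) T 0 (z / 2) +
      κ / 2 * MP (V T) (δ T) T r ((z - r) / 2) + (starRingEnd ℂ) κ / 2 * MP (V T) (δ T) T (-(r:ℤ)) ((z + r) / 2) := by
  rw [muP_integral hκ r hT (Continuous.stronglyMeasurable (by fun_prop))]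
  unfold MP
  set ν := (volume : Measure ℝ).restrict (gset (V T) (δ T) T) with hν
  have hfin : IsFiniteMeasure ν := ⟨by rw [hν, Measure.restrict_apply_univ]; exact (gset_fin _ _ _).lt_top⟩
  have hI : ∀ (s : ℤ) (w : ℂ), Integrable (fun t => riemannZeta (sp (δ T) t) ^ s * Complex.exp (2 * w * (Xf (δ T) t : ℝ))) ν := by
    intro s w
    have hm : Measurable fun t => riemannZeta (sp (δ T) t) ^ s * Complex.exp (2 * w * (Xf (δ T) t : ℝ)) :=
      (zr_meas hT.2.2 s).mul (Complex.measurable_exp.comp ((Complex.measurable_ofReal.comp (Xf_meas hT.2.2)).const_mul _))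
    refine Integrable.mono' (exp_int (T := T) hT.2.1 hT.2.2 (s + 2 * w.re)) hm.aestronglyMeasurable ?_
    rw [ae_restrict_iff' (gset_meas _ _ _ hT.2.2)]
    refine Eventually.of_forall fun t ht => ?_
    rw [norm_mul, zr_norm hT.2.1 ht, Complex.norm_exp, ← Real.exp_add]
    refine le_of_eq ?_
    congr 1
    rw [Complex.re_mul_ofReal]
    simp
    ring
  have e1 : ∫ t, pw κ r (δ T) t • Complex.exp (z * (Xf (δ T) t : ℝ)) ∂ν =
      ∫ t, (riemannZeta (sp (δ T) t) ^ (0:ℤ) * Complex.exp (2 * (z / 2) * (Xf (δ T) t : ℝ)) +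
        κ / 2 * (riemannZeta (sp (δ T) t) ^ (r:ℤ) * Complex.exp (2 * ((z - r) / 2) * (Xf (δ T) t : ℝ))) +
        (starRingEnd ℂ) κ / 2 * (riemannZeta (sp (δ T) t) ^ (-(r:ℤ)) * Complex.exp (2 * ((z + r) / 2) * (Xf (δ T) t : ℝ)))) ∂ν := by
    refine setIntegral_congr_fun (gset_meas _ _ _ hT.2.2) fun t ht => ?_
    have h1 : 0 < ‖riemannZeta (sp (δ T) t)‖ := lt_trans (inv_pos.mpr (by linarith [hT.2.1])) ht.2.1
    set ζ := riemannZeta (sp (δ T) t) with hζ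
    set X := Xf (δ T) t with hX
    have hζ0 : ζ ≠ 0 := norm_pos_iff.mp h1
    have hXe : ((‖ζ‖ : ℝ) : ℂ) = Complex.exp X := by
      rw [hX, ← Complex.ofReal_exp]
      unfold Xf
      rw [Real.exp_log h1]
    have hn0 : ((‖ζ‖ : ℝ) : ℂ) ≠ 0 := by exact_mod_cast h1.ne'
    have hph : ph (δ T) t = ζ / ((‖ζ‖ : ℝ) : ℂ) := rfl
    have hcj : (starRingEnd ℂ) (ph (δ T) t ^ r) = (ph (δ T) t ^ r)⁻¹ := by
      have h2 : ‖ph (δ T) t ^ r‖ = 1 := by rw [norm_pow, ph_one hT.2.1 ht, one_pow]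
      rw [Complex.inv_def, Complex.normSq_eq_norm_sq, h2]
      simp
    have hpw : ((pw κ r (δ T) t : ℝ) : ℂ) = 1 + κ / 2 * ph (δ T) t ^ r + (starRingEnd ℂ) κ / 2 * (ph (δ T) t ^ r)⁻¹ := by
      unfold pw
      have h3 := Complex.add_conj (κ * ph (δ T) t ^ r)
      rw [map_mul, hcj, Complex.ofReal_mul, Complex.ofReal_ofNat] at h3
      rw [Complex.ofReal_add, Complex.ofReal_one]
      linear_combination (-(1/2 : ℂ)) * h3
    rw [Complex.real_smul, hpw, hph, div_pow, zpow_zero, zpow_neg, zpow_natCast]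
    have e2 : Complex.exp (z * X) = Complex.exp (2 * ((z - r) / 2) * X) * ((‖ζ‖ : ℝ) : ℂ) ^ r := by
      rw [hXe, ← Complex.exp_nat_mul, ← Complex.exp_add]
      congr 1; ring
    have e3 : Complex.exp (2 * ((z + r) / 2) * X) = Complex.exp (z * X) * ((‖ζ‖ : ℝ) : ℂ) ^ r := by
      rw [hXe, ← Complex.exp_nat_mul, ← Complex.exp_add]
      congr 1; ring
    have e4 : Complex.exp (2 * (z / 2) * X) = Complex.exp (z * X) := by
      congr 1; ring
    rw [e3, e4]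
    have hr0 : ((‖ζ‖ : ℝ) : ℂ) ^ r ≠ 0 := pow_ne_zero _ hn0
    have hz0 : ζ ^ r ≠ 0 := pow_ne_zero _ hζ0
    have e5 : κ / 2 * (ζ ^ r / ((‖ζ‖ : ℝ) : ℂ) ^ r) * Complex.exp (z * X) =
        κ / 2 * (ζ ^ r * Complex.exp (2 * ((z - r) / 2) * X)) := by
      rw [e2]
      field_simp
    have e6 : (starRingEnd ℂ) κ / 2 * (ζ ^ r / ((‖ζ‖ : ℝ) : ℂ) ^ r)⁻¹ * Complex.exp (z * X) =
        (starRingEnd ℂ) κ / 2 * ((ζ ^ r)⁻¹ * (Complex.exp (z * X) * ((‖ζ‖ : ℝ) : ℂ) ^ r)) := by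
      rw [inv_div]
      field_simp
    linear_combination e5 + e6
  have i1 := hI 0 (z / 2)
  have i2 := (hI (r:ℤ) ((z - r) / 2)).const_mul (κ / 2)
  have i3 := (hI (-(r:ℤ)) ((z + r) / 2)).const_mul ((starRingEnd ℂ) κ / 2)
  have s1 := integral_add (i1.add i2) i3
  simp only [Pi.add_apply] at s1
  rw [e1, s1, integral_add i1 i2, integral_const_mul, integral_const_mul, Complex.real_smul]
  push_cast
  ring

/-- the large parameter -/
def elz (δ : ℝ → ℝ) (T : ℝ) : ℝ := Real.log (1 / (2 * δ T)) / 2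

lemma elz_tendsto {δ V : ℝ → ℝ} (h : Adm δ V) : Tendsto (elz δ) atTop atTop := by
  have h1 := (Lg_tendsto h).atTop_div_const (by norm_num : (0:ℝ) < 2)
  refine h1.congr fun T => ?_
  unfold elz Lg
  rw [one_div, Real.log_inv]

lemma exp_elz {δ : ℝ → ℝ} {T : ℝ} (hδ : 0 < δ T) (z : ℂ) :
    Complex.exp (-((elz δ T : ℝ) : ℂ) * z ^ 2 / 2) = ((2 * δ T : ℝ) : ℂ) ^ (z ^ 2 / 4) := by
  have h2 : 0 < 2 * δ T := by linarith
  rw [Complex.cpow_def_of_ne_zero (by exact_mod_cast h2.ne'), ← Complex.ofReal_log h2.le]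
  congr 1
  unfold elz
  rw [one_div, Real.log_inv]
  push_cast
  ring

/-- **The weighted families are mod-Gaussian with the same limit.** -/
theorem mgP {δ V : ℝ → ℝ} (h : Adm δ V) {κ : ℂ} (hκ : ‖κ‖ ≤ 1) {r : ℕ} (hr : 0 < r) :
    MG atTop (muP κ r δ V) (elz δ) (fun z => aFC (z / 2)) := by
  have hgood : ∀ᶠ T : ℝ in atTop, (0 < T ∧ 1 ≤ V T ∧ δ T ≤ 1 / 16) ∧ 0 < δ T := by
    filter_upwards [eventually_gt_atTop (0:ℝ), h.2.1, h.2.2.1, h.1.eventually (gt_mem_nhds (by norm_num : (0:ℝ) < 1 / 16))]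
      with T g1 g2 g3 g4
    exact ⟨⟨g1, g2, g4.le⟩, g3⟩
  refine ⟨fun T => muP_fin hκ r δ V T, fun T c => muP_int hκ r δ V T c, fun T => ?_, fun z₀ => ?_, elz_tendsto h⟩
  · by_cases hT : 0 < T ∧ 1 ≤ V T ∧ δ T ≤ 1 / 16
    · simp_rw [muP_exp hκ r hT]
      have d0 := (MP_diff (T := T) hT.2.1 hT.2.2 0).continuous
      have d1 := (MP_diff (T := T) hT.2.1 hT.2.2 (r:ℤ)).continuous
      have d2 := (MP_diff (T := T) hT.2.1 hT.2.2 (-(r:ℤ))).continuous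
      exact ((d0.comp (by fun_prop)).add (continuous_const.mul (d1.comp (by fun_prop)))).add
        (continuous_const.mul (d2.comp (by fun_prop)))
    · have : muP κ r δ V T = 0 := by unfold muP; rw [if_neg hT]
      simp only [this, integral_zero_measure]
      exact continuous_const
  · have hF : Tendsto (fun q : ℂ × ℝ => q.2) (𝓝 z₀ ×ˢ (atTop : Filter ℝ)) atTop := tendsto_snd
    have hsm : Tendsto (fun T => ((2 * δ T : ℝ) : ℂ) ^ ((r:ℂ) ^ 2 / 4)) atTop (𝓝 0) := by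
      have hp : 0 < (r:ℝ) ^ 2 / 4 := by
        have : (0:ℝ) < r := by exact_mod_cast hr
        positivity
      have g1 : Tendsto (fun T => (2 * δ T) ^ ((r:ℝ) ^ 2 / 4)) atTop (𝓝 0) := by
        have g2 : Tendsto (fun T => 2 * δ T) atTop (𝓝 0) := by simpa using h.1.const_mul 2
        have g3 := (Real.continuousAt_rpow_const (0:ℝ) ((r:ℝ) ^ 2 / 4) (Or.inr hp.le)).tendsto.comp g2
        rwa [Real.zero_rpow hp.ne'] at g3
      have g4 := (Complex.continuous_ofReal.tendsto 0).comp g1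
      rw [Complex.ofReal_zero] at g4
      refine g4.congr' ?_
      filter_upwards [hgood] with T ⟨_, g5⟩
      simp only [Function.comp]
      rw [Complex.ofReal_cpow (by linarith)]
      congr 1
      push_cast; ring
    have t0 : Tendsto (fun q : ℂ × ℝ => ((2 * δ q.2 : ℝ) : ℂ) ^ (q.1 ^ 2 / 4) * MP (V q.2) (δ q.2) q.2 0 (q.1 / 2))
        (𝓝 z₀ ×ˢ atTop) (𝓝 (aFC (z₀ / 2))) := by
      have g1 : Tendsto (fun q : ℂ × ℝ => (q.1 / 2, q.2)) (𝓝 z₀ ×ˢ (atTop : Filter ℝ)) (𝓝 (z₀ / 2) ×ˢ atTop) :=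
        (tendsto_fst.div_const 2).prodMk tendsto_snd
      have g2 := Tendsto.comp (modG2 h 0 (z₀ / 2)) g1
      have e1 : a2 (z₀ / 2 + ((0:ℤ):ℂ), z₀ / 2) = aFC (z₀ / 2) := by
        rw [Int.cast_zero, add_zero, a2_diag]
      rw [e1] at g2
      refine g2.congr fun q => ?_
      simp only [Function.comp]
      congr 2
      push_cast; ring
    have tr : ∀ s : ℤ, (s:ℂ) ^ 2 = (r:ℂ) ^ 2 → Tendsto (fun q : ℂ × ℝ => ((2 * δ q.2 : ℝ) : ℂ) ^ (q.1 ^ 2 / 4) *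
        MP (V q.2) (δ q.2) q.2 s ((q.1 - s) / 2)) (𝓝 z₀ ×ˢ atTop) (𝓝 0) := by
      intro s hs
      have g1 : Tendsto (fun q : ℂ × ℝ => ((q.1 - s) / 2, q.2)) (𝓝 z₀ ×ˢ (atTop : Filter ℝ)) (𝓝 ((z₀ - s) / 2) ×ˢ atTop) :=
        ((tendsto_fst.sub_const (s:ℂ)).div_const 2).prodMk tendsto_snd
      have g2 := Tendsto.comp (modG2 h s ((z₀ - s) / 2)) g1
      have g3 := (hsm.comp hF).mul g2
      rw [zero_mul] at g3
      refine g3.congr' ?_
      filter_upwards [hF.eventually hgood] with q ⟨_, g5⟩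
      simp only [Function.comp]
      have hb : ((2 * δ q.2 : ℝ) : ℂ) ≠ 0 := by exact_mod_cast (by linarith : 2 * δ q.2 ≠ 0)
      rw [← mul_assoc, ← Complex.cpow_add _ _ hb]
      congr 2
      rw [← hs]
      ring
    have t1 := tr (r:ℤ) (by push_cast; rfl)
    have t2 := tr (-(r:ℤ)) (by push_cast; ring)
    have t3 := (t0.add (t1.const_mul (κ / 2))).add (t2.const_mul ((starRingEnd ℂ) κ / 2))
    simp only [mul_zero, add_zero] at t3
    refine t3.congr' ?_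
    filter_upwards [hF.eventually hgood] with q ⟨g4, g5⟩
    rw [exp_elz g5, muP_exp hκ r g4]
    push_cast
    simp only [sub_neg_eq_add]
    ring

end

end Pool.Agent.X110.LV
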