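import Mathlib

set_option autoImplicit false

/-! Equidistribution on the circle from the characters. -/

namespace Pool.Agent.X110.LV

open Filter Topology MeasureTheory

noncomputable section

instance fact2pi : Fact (0 < 2 * Real.pi) := ⟨by positivity⟩

/-- the mean over the circle -/
def Mn (G : C(AddCircle (2 * Real.pi), ℂ)) : ℂ := ((2 * Real.pi : ℝ) : ℂ)⁻¹ * ∫ θ in (0:ℝ)..(2 * Real.pi), G (θ : AddCircle (2 * Real.pi))

lemma G_cont (G : C(AddCircle (2 * Real.pi), ℂ)) : Continuous fun θ : ℝ => G (θ : AddCircle (2 * Real.pi)) :=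
  G.continuous.comp (AddCircle.continuous_mk' _)

lemma Mn_add (G H : C(AddCircle (2 * Real.pi), ℂ)) : Mn (G + H) = Mn G + Mn H := by
  unfold Mn
  rw [← mul_add, ← intervalIntegral.integral_add ((G_cont G).intervalIntegrable _ _) ((G_cont H).intervalIntegrable _ _)]
  rfl

lemma Mn_smul (c : ℂ) (G : C(AddCircle (2 * Real.pi), ℂ)) : Mn (c • G) = c * Mn G := by
  unfold Mn
  have : ∫ θ in (0:ℝ)..(2 * Real.pi), (c • G) (θ : AddCircle (2 * Real.pi)) =
      c * ∫ θ in (0:ℝ)..(2 * Real.pi), G (θ : AddCircle (2 * Real.pi)) := by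
    rw [← intervalIntegral.integral_const_mul]
    rfl
  rw [this]; ring

lemma Mn_norm (G : C(AddCircle (2 * Real.pi), ℂ)) : ‖Mn G‖ ≤ ‖G‖ := by
  unfold Mn
  have hp : (0:ℝ) < 2 * Real.pi := by positivity
  rw [norm_mul, norm_inv, Complex.norm_real, Real.norm_of_nonneg hp.le, inv_mul_le_iff₀ hp]
  have h := intervalIntegral.norm_integral_le_of_norm_le_const (a := 0) (b := 2 * Real.pi) (C := ‖G‖)
    (f := fun θ : ℝ => G (θ : AddCircle (2 * Real.pi))) fun θ _ => G.norm_coe_le_norm _
  rw [sub_zero, abs_of_pos hp] at h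
  linarith

lemma Mn_fourier (n : ℤ) : Mn (fourier n) = if n = 0 then 1 else 0 := by
  unfold Mn
  have hp : ((2 * Real.pi : ℝ) : ℂ) ≠ 0 := by
    have : (2 * Real.pi : ℝ) ≠ 0 := by positivity
    exact_mod_cast this
  have h1 : ∀ θ : ℝ, fourier n (θ : AddCircle (2 * Real.pi)) = Complex.exp ((n * Complex.I) * θ) := by
    intro θ
    rw [fourier_coe_apply]
    congr 1
    push_cast at hp ⊢
    field_simp
  simp_rw [h1]
  split_ifs with h
  · subst h
    simp only [Int.cast_zero, zero_mul, Complex.exp_zero, intervalIntegral.integral_const, sub_zero]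
    rw [Complex.real_smul, mul_one]
    exact inv_mul_cancel₀ hp
  · have hc : ((n:ℂ) * Complex.I) ≠ 0 := mul_ne_zero (by exact_mod_cast h) Complex.I_ne_zero
    rw [integral_exp_mul_complex hc]
    have e1 : Complex.exp ((n:ℂ) * Complex.I * ((2 * Real.pi : ℝ) : ℂ)) = 1 := by
      have := Complex.exp_int_mul_two_pi_mul_I n
      rw [← this]
      congr 1
      push_cast; ring
    rw [e1]
    simp

variable {Ω : Type*} [MeasurableSpace Ω]

/-- the average over a family of sets -/
def Lt (ν : ℝ → Measure Ω) (x : ℝ → Ω → AddCircle (2 * Real.pi)) (G : C(AddCircle (2 * Real.pi), ℂ)) (T : ℝ) : ℂ :=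
  (((ν T).real Set.univ)⁻¹ : ℝ) • ∫ t, G (x T t) ∂(ν T)

variable {ν : ℝ → Measure Ω} {x : ℝ → Ω → AddCircle (2 * Real.pi)}

lemma Lt_int (hν : ∀ T, IsFiniteMeasure (ν T)) {T : ℝ} (hx : Measurable (x T)) (G : C(AddCircle (2 * Real.pi), ℂ)) :
    Integrable (fun t => G (x T t)) (ν T) := by
  have := hν T
  refine Integrable.mono' (integrable_const ‖G‖) ?_ (Eventually.of_forall fun t => G.norm_coe_le_norm _)
  exact (G.continuous.measurable.comp hx).aestronglyMeasurable

lemma Lt_norm (hν : ∀ T, IsFiniteMeasure (ν T)) (G : C(AddCircle (2 * Real.pi), ℂ)) (T : ℝ) :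
    ‖Lt ν x G T‖ ≤ ‖G‖ := by
  have := hν T
  unfold Lt
  rw [norm_smul, norm_inv, Real.norm_of_nonneg measureReal_nonneg]
  have h1 : ‖∫ t, G (x T t) ∂(ν T)‖ ≤ ‖G‖ * (ν T).real Set.univ :=
    norm_integral_le_of_norm_le_const (Eventually.of_forall fun t => G.norm_coe_le_norm _)
  rcases (measureReal_nonneg (μ := ν T) (s := Set.univ)).eq_or_lt with h0 | h0
  · rw [← h0, inv_zero, zero_mul]; exact norm_nonneg _
  · rw [inv_mul_le_iff₀ h0]
    linarith

lemma Lt_add (hν : ∀ T, IsFiniteMeasure (ν T)) {T : ℝ} (hx : Measurable (x T)) (G H : C(AddCircle (2 * Real.pi), ℂ)) :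
    Lt ν x (G + H) T = Lt ν x G T + Lt ν x H T := by
  unfold Lt
  rw [← smul_add, ← integral_add (Lt_int hν hx G) (Lt_int hν hx H)]
  rfl

lemma Lt_smul (c : ℂ) (G : C(AddCircle (2 * Real.pi), ℂ)) (T : ℝ) : Lt ν x (c • G) T = c * Lt ν x G T := by
  unfold Lt
  have : ∫ t, (c • G) (x T t) ∂(ν T) = c * ∫ t, G (x T t) ∂(ν T) := by
    rw [← integral_const_mul]
    rfl
  rw [this, Complex.real_smul, Complex.real_smul]
  ring

/-- **Weyl's criterion** in the form needed -/
theorem weyl (hν : ∀ T, IsFiniteMeasure (ν T)) (hx : ∀ᶠ T in atTop, Measurable (x T))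
    (hpos : ∀ᶠ T in atTop, 0 < (ν T).real Set.univ)
    (hch : ∀ n : ℕ, 0 < n → Tendsto (fun T => Lt ν x (fourier (n:ℤ)) T) atTop (𝓝 0))
    (G : C(AddCircle (2 * Real.pi), ℂ)) : Tendsto (fun T => Lt ν x G T) atTop (𝓝 (Mn G)) := by
  -- the characters
  have hch' : ∀ n : ℤ, Tendsto (fun T => Lt ν x (fourier n) T) atTop (𝓝 (Mn (fourier n))) := by
    intro n
    rw [Mn_fourier]
    rcases lt_trichotomy n 0 with h | h | h
    · rw [if_neg h.ne]
      have h1 := hch (-n).toNat (by omega)
      have h2 : (((-n).toNat : ℕ) : ℤ) = -n := Int.toNat_of_nonneg (by omega)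
      rw [h2] at h1
      have h3 := (Complex.continuous_conj.tendsto 0).comp h1
      rw [map_zero] at h3
      refine h3.congr fun T => ?_
      simp only [Function.comp, Lt]
      rw [Complex.real_smul, Complex.real_smul, map_mul, Complex.conj_ofReal, ← integral_conj]
      congr 1
      refine integral_congr_ae (Eventually.of_forall fun t => ?_)
      simp only
      rw [← fourier_neg, neg_neg]
    · subst h
      rw [if_pos rfl]
      refine tendsto_const_nhds.congr' ?_
      filter_upwards [hpos] with T hT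
      unfold Lt
      simp only [fourier_zero, integral_const]
      rw [Complex.real_smul, Complex.real_smul, mul_one, ← Complex.ofReal_mul, inv_mul_cancel₀ hT.ne', Complex.ofReal_one]
    · rw [if_neg h.ne']
      have h1 := hch n.toNat (by omega)
      have h2 : ((n.toNat : ℕ) : ℤ) = n := Int.toNat_of_nonneg (by omega)
      rwa [h2] at h1
  -- the span
  have hspan : ∀ H ∈ Submodule.span ℂ (Set.range (@fourier (2 * Real.pi))),
      Tendsto (fun T => Lt ν x H T) atTop (𝓝 (Mn H)) := by
    intro H hH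
    induction hH using Submodule.span_induction with
    | mem H h =>
      obtain ⟨n, rfl⟩ := h
      exact hch' n
    | zero =>
      have e1 : Mn 0 = 0 := by
        have := Mn_smul 0 0
        rwa [zero_smul, zero_mul] at this
      rw [e1]
      refine tendsto_const_nhds.congr fun T => ?_
      have := Lt_smul (ν := ν) (x := x) 0 0 T
      rw [zero_smul, zero_mul] at this
      exact this.symm
    | add G H _ _ h1 h2 =>
      rw [Mn_add]
      refine (h1.add h2).congr' ?_
      filter_upwards [hx] with T hT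
      exact (Lt_add hν hT G H).symm
    | smul c G _ h1 =>
      rw [Mn_smul]
      exact (h1.const_mul c).congr fun T => (Lt_smul c G T).symm
  have hdense : G ∈ closure ((Submodule.span ℂ (Set.range (@fourier (2 * Real.pi))) : Submodule ℂ _) :
      Set C(AddCircle (2 * Real.pi), ℂ)) := by
    have h1 : G ∈ (Submodule.span ℂ (Set.range (@fourier (2 * Real.pi)))).topologicalClosure := by
      rw [span_fourier_closure_eq_top]
      exact Submodule.mem_top
    exact h1
  rw [Metric.tendsto_nhds]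
  intro ε hε
  obtain ⟨H, hH, hd⟩ := Metric.mem_closure_iff.mp hdense (ε / 3) (by linarith)
  rw [dist_eq_norm] at hd
  filter_upwards [(Metric.tendsto_nhds.mp (hspan H hH)) (ε / 3) (by linarith), hx] with T h1 h2
  rw [dist_eq_norm] at h1 ⊢
  have e1 : Lt ν x G T = Lt ν x (G - H) T + Lt ν x H T := by
    rw [← Lt_add hν h2, sub_add_cancel]
  have e2 : Mn G = Mn (G - H) + Mn H := by
    rw [← Mn_add, sub_add_cancel]
  have e3 : Lt ν x G T - Mn G = Lt ν x (G - H) T + (Lt ν x H T - Mn H) - Mn (G - H) := by rw [e1, e2]; ring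
  rw [e3]
  have b1 := Lt_norm hν (x := x) (G - H) T
  have b2 := Mn_norm (G - H)
  have b3 := norm_sub_le (Lt ν x (G - H) T + (Lt ν x H T - Mn H)) (Mn (G - H))
  have b4 := norm_add_le (Lt ν x (G - H) T) (Lt ν x H T - Mn H)
  linarith

end

end Pool.Agent.X110.LV
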