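import Pool.Agent.X110.LV3
import Pool.Agent.X110.LV4

set_option autoImplicit false

/-! The argument of zeta at large, small and typical values. -/

namespace Pool.Agent.X110.LV

open Filter Topology MeasureTheory
open Pool.Agent.H306R2 Pool.Agent.Y746.OA Pool.Agent.X110.LT Pool.Agent.X110.ND Pool.Agent.X110.SD

noncomputable section

/-- the set on which `log |ζ|` lies in `J` -/
def SJ (δ V : ℝ → ℝ) (J : ℝ → Set ℝ) (T : ℝ) : Set ℝ := gset (V T) (δ T) T ∩ {t | Xf (δ T) t ∈ J T}

lemma SJ_meas {δ V : ℝ → ℝ} {J : ℝ → Set ℝ} {T : ℝ} (hδ : δ T ≤ 1 / 16) (hJ : MeasurableSet (J T)) :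
    MeasurableSet (SJ δ V J T) := (gset_meas _ _ _ hδ).inter (Xf_meas hδ hJ)

lemma SJ_fin (δ V : ℝ → ℝ) (J : ℝ → Set ℝ) (T : ℝ) : volume (SJ δ V J T) ≠ ⊤ :=
  ne_top_of_le_ne_top (gset_fin (V T) (δ T) T) (measure_mono Set.inter_subset_left)

lemma muP_real {κ : ℂ} (hκ : ‖κ‖ ≤ 1) (r : ℕ) {δ V : ℝ → ℝ} {J : ℝ → Set ℝ} {T : ℝ}
    (hT : 0 < T ∧ 1 ≤ V T ∧ δ T ≤ 1 / 16) (hJ : MeasurableSet (J T)) :
    (muP κ r δ V T).real (J T) = 1 / T * ∫ t in SJ δ V J T, pw κ r (δ T) t := by
  have h1 : (muP κ r δ V T).real (J T) = ∫ x, Set.indicator (J T) (fun _ => (1:ℝ)) x ∂(muP κ r δ V T) := by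
    rw [integral_indicator hJ, setIntegral_const, smul_eq_mul, mul_one]
  rw [h1, muP_integral hκ r hT (stronglyMeasurable_const.indicator hJ), smul_eq_mul]
  congr 1
  have hm : MeasurableSet {t | Xf (δ T) t ∈ J T} := Xf_meas hT.2.2 hJ
  have h2 : ∫ t in gset (V T) (δ T) T, pw κ r (δ T) t • Set.indicator (J T) (fun _ => (1:ℝ)) (Xf (δ T) t) =
      ∫ t in gset (V T) (δ T) T, Set.indicator {t | Xf (δ T) t ∈ J T} (fun t => pw κ r (δ T) t) t := by
    refine integral_congr_ae (Eventually.of_forall fun t => ?_)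
    simp only [Set.indicator, Set.mem_ofPred_eq, smul_eq_mul]
    split_ifs <;> simp
  rw [h2, setIntegral_indicator hm]
  rfl

/-- the angle -/
def xa (δ : ℝ → ℝ) (T t : ℝ) : AddCircle (2 * Real.pi) :=
  ((Complex.arg (riemannZeta (sp (δ T) t)) : ℝ) : AddCircle (2 * Real.pi))

lemma xa_meas {δ : ℝ → ℝ} {T : ℝ} (hδ : δ T ≤ 1 / 16) : Measurable (xa δ T) := by
  unfold xa
  exact (AddCircle.continuous_mk' _).measurable.comp (Complex.measurable_arg.comp (zeta_sp_cont hδ).measurable)

lemma xa_circle {δ V : ℝ → ℝ} {T t : ℝ} (hV : 1 ≤ V T) (ht : t ∈ gset (V T) (δ T) T) :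
    Complex.exp ((Complex.arg (riemannZeta (sp (δ T) t)) : ℝ) * Complex.I) = ph (δ T) t := by
  have h1 : 0 < ‖riemannZeta (sp (δ T) t)‖ := lt_trans (inv_pos.mpr (by linarith)) ht.2.1
  have h2 : ((‖riemannZeta (sp (δ T) t)‖ : ℝ) : ℂ) ≠ 0 := by exact_mod_cast h1.ne'
  unfold ph
  rw [eq_div_iff h2, mul_comm]
  exact Complex.norm_mul_exp_arg_mul_I _

lemma fourier_xa {δ V : ℝ → ℝ} {T t : ℝ} (hV : 1 ≤ V T) (ht : t ∈ gset (V T) (δ T) T) (n : ℕ) :
    fourier (n:ℤ) (xa δ T t) = ph (δ T) t ^ n := by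
  unfold xa
  rw [fourier_coe_apply, ← xa_circle hV ht, ← Complex.exp_nat_mul]
  congr 1
  have hp : (Real.pi : ℂ) ≠ 0 := by exact_mod_cast Real.pi_ne_zero
  push_cast
  field_simp

/-- **The argument over the sets `SJ` is equidistributed.** -/
theorem equiS {δ V : ℝ → ℝ} (h : Adm δ V) {J : ℝ → Set ℝ} (hJ : ∀ T, MeasurableSet (J T)) {g : ℝ → ℝ} {L : ℝ} (hL : 0 < L)
    (hlim : ∀ κ : ℂ, ‖κ‖ ≤ 1 → ∀ r : ℕ, 0 < r → Tendsto (fun T => (muP κ r δ V T).real (J T) / g T) atTop (𝓝 L)) :
    Tendsto (fun T => (volume (SJ δ V J T)).toReal / (T * g T)) atTop (𝓝 L) ∧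
    ∀ G : C(AddCircle (2 * Real.pi), ℂ),
      Tendsto (fun T => Lt (fun T => volume.restrict (SJ δ V J T)) (xa δ) G T) atTop (𝓝 (Mn G)) := by
  have hgood : ∀ᶠ T : ℝ in atTop, 0 < T ∧ 1 ≤ V T ∧ δ T ≤ 1 / 16 := by
    filter_upwards [eventually_gt_atTop (0:ℝ), h.2.1, h.1.eventually (gt_mem_nhds (by norm_num : (0:ℝ) < 1 / 16))]
      with T g1 g2 g4
    exact ⟨g1, g2, g4.le⟩
  have hvol : Tendsto (fun T => (volume (SJ δ V J T)).toReal / (T * g T)) atTop (𝓝 L) := by
    refine (hlim 0 (by simp) 1 one_pos).congr' ?_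
    filter_upwards [hgood] with T hT
    rw [muP_real (by simp) 1 hT (hJ T)]
    have e1 : ∫ t in SJ δ V J T, pw 0 1 (δ T) t = (volume (SJ δ V J T)).toReal := by
      have : ∀ t, pw 0 1 (δ T) t = 1 := fun t => by simp [pw]
      simp_rw [this]
      rw [setIntegral_const, smul_eq_mul, mul_one]
      rfl
    rw [e1, one_div, inv_mul_eq_div, div_div]
  refine ⟨hvol, fun G => ?_⟩
  have hν : ∀ T, IsFiniteMeasure ((volume : Measure ℝ).restrict (SJ δ V J T)) := fun T =>
    ⟨by rw [Measure.restrict_apply_univ]; exact (SJ_fin δ V J T).lt_top⟩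
  have hru : ∀ T, ((volume : Measure ℝ).restrict (SJ δ V J T)).real Set.univ = (volume (SJ δ V J T)).toReal := fun T => by
    rw [Measure.real, Measure.restrict_apply_univ]
  have hvpos : ∀ᶠ T in atTop, 0 < (volume (SJ δ V J T)).toReal := by
    filter_upwards [hvol.eventually (lt_mem_nhds hL)] with T hT
    rcases (ENNReal.toReal_nonneg (a := volume (SJ δ V J T))).eq_or_lt with h0 | h0
    · rw [← h0, zero_div] at hT
      exact absurd hT (lt_irrefl 0)
    · exact h0
  refine weyl hν ?_ ?_ (fun n hn => ?_) G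
  · filter_upwards [hgood] with T hT
    exact xa_meas hT.2.2
  · filter_upwards [hvpos] with T hT
    rw [hru]; exact hT
  · -- the real and imaginary parts
    have hpart : ∀ κ : ℂ, ‖κ‖ ≤ 1 → Tendsto (fun T => (∫ t in SJ δ V J T, (κ * ph (δ T) t ^ n).re) / (T * g T)) atTop (𝓝 0) := by
      intro κ hκ
      have h1 := (hlim κ hκ n hn).sub hvol
      rw [sub_self] at h1
      refine h1.congr' ?_
      filter_upwards [hgood] with T hT
      rw [muP_real hκ n hT (hJ T)]
      have hfi := hν T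
      have hint : Integrable (fun t => (κ * ph (δ T) t ^ n).re) (volume.restrict (SJ δ V J T)) := by
        refine Integrable.mono' (integrable_const (1:ℝ)) ?_ (Eventually.of_forall fun t => ?_)
        · exact (Complex.measurable_re.comp (((ph_meas hT.2.2).pow_const n).const_mul κ)).aestronglyMeasurable
        · rw [Real.norm_eq_abs]
          refine (Complex.abs_re_le_norm _).trans ?_
          rw [norm_mul, norm_pow]
          have := pow_le_one₀ (norm_nonneg _) (ph_le (δ T) t) (n := n)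
          calc _ ≤ 1 * 1 := mul_le_mul hκ this (by positivity) zero_le_one
            _ = 1 := one_mul 1
      have e1 : ∫ t in SJ δ V J T, pw κ n (δ T) t = (volume (SJ δ V J T)).toReal +
          ∫ t in SJ δ V J T, (κ * ph (δ T) t ^ n).re := by
        unfold pw
        rw [integral_add (integrable_const _) hint, setIntegral_const, smul_eq_mul, mul_one]
        rfl
      rw [e1, one_div, inv_mul_eq_div, div_div]
      ring
    have hre := hpart 1 (by simp)
    have him := hpart (-Complex.I) (by simp)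
    have hcx : Tendsto (fun T => (∫ t in SJ δ V J T, ph (δ T) t ^ n) / ((T * g T : ℝ) : ℂ)) atTop (𝓝 0) := by
      have h1 := ((Complex.continuous_ofReal.tendsto 0).comp hre).add
        (((Complex.continuous_ofReal.tendsto 0).comp him).mul_const Complex.I)
      rw [Complex.ofReal_zero, zero_mul, add_zero] at h1
      refine h1.congr' ?_
      filter_upwards [hgood] with T hT
      have hfi := hν T
      have hint : Integrable (fun t => ph (δ T) t ^ n) (volume.restrict (SJ δ V J T)) := by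
        refine Integrable.mono' (integrable_const (1:ℝ)) ?_ (Eventually.of_forall fun t => ?_)
        · exact ((ph_meas hT.2.2).pow_const n).aestronglyMeasurable
        · rw [norm_pow]
          exact pow_le_one₀ (norm_nonneg _) (ph_le (δ T) t)
      simp only [Function.comp]
      have e1 : ∫ t in SJ δ V J T, ((1:ℂ) * ph (δ T) t ^ n).re = (∫ t in SJ δ V J T, ph (δ T) t ^ n).re := by
        have := integral_re hint
        simp only [one_mul]
        exact this
      have e2 : ∫ t in SJ δ V J T, (-Complex.I * ph (δ T) t ^ n).re = (∫ t in SJ δ V J T, ph (δ T) t ^ n).im := by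
        have := integral_im hint
        have e3 : ∀ w : ℂ, (-Complex.I * w).re = w.im := fun w => by simp
        simp_rw [e3]
        exact this
      rw [e1, e2, Complex.ofReal_div, Complex.ofReal_div]
      have e4 := Complex.re_add_im (∫ t in SJ δ V J T, ph (δ T) t ^ n)
      rw [← e4]
      simp only [Complex.add_re, Complex.ofReal_re, Complex.mul_re, Complex.I_re, mul_zero, Complex.ofReal_im, Complex.I_im,
        mul_one, sub_self, add_zero, Complex.add_im, Complex.mul_im, zero_add]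
      ring
    have hvc := (Complex.continuous_ofReal.tendsto L).comp hvol
    have hLc : (L:ℂ) ≠ 0 := by exact_mod_cast hL.ne'
    have h3 := hcx.div hvc hLc
    rw [zero_div] at h3
    refine h3.congr' ?_
    filter_upwards [hgood, hvpos, hvol.eventually (lt_mem_nhds hL)] with T hT h4 h5
    have hTg : T * g T ≠ 0 := by
      intro h0
      rw [h0, div_zero] at h5
      exact absurd h5 (lt_irrefl 0)
    have hTgc : ((T * g T : ℝ) : ℂ) ≠ 0 := by exact_mod_cast hTg
    have hvv : (((volume (SJ δ V J T)).toReal : ℝ) : ℂ) ≠ 0 := by exact_mod_cast h4.ne'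
    simp only [Pi.div_apply, Function.comp]
    unfold Lt
    rw [hru, Complex.real_smul]
    have e5 : ∫ t in SJ δ V J T, fourier (n:ℤ) (xa δ T t) = ∫ t in SJ δ V J T, ph (δ T) t ^ n :=
      setIntegral_congr_fun (SJ_meas hT.2.2 (hJ T)) fun t ht => fourier_xa hT.2.1 ht.1 n
    rw [e5, Complex.ofReal_inv, Complex.ofReal_div]
    field_simp

/-- the mean over the circle of a function on the plane -/
def Mf (f : ℂ → ℝ) : ℝ := (2 * Real.pi)⁻¹ * ∫ θ in (0:ℝ)..(2 * Real.pi), f (Complex.exp (θ * Complex.I))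

/-- a function on the plane as a function on the circle -/
def Gf (f : ℂ → ℝ) (hf : Continuous f) : C(AddCircle (2 * Real.pi), ℂ) :=
  ⟨fun x => ((f ((AddCircle.toCircle x : Circle) : ℂ) : ℝ) : ℂ), by
    have h1 : Continuous fun x : AddCircle (2 * Real.pi) => ((AddCircle.toCircle x : Circle) : ℂ) :=
      Continuous.comp (by fun_prop) AddCircle.continuous_toCircle
    exact Complex.continuous_ofReal.comp (hf.comp h1)⟩

lemma toC (θ : ℝ) : ((AddCircle.toCircle ((θ : ℝ) : AddCircle (2 * Real.pi)) : Circle) : ℂ) = Complex.exp (θ * Complex.I) := by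
  rw [AddCircle.toCircle_apply_mk, Circle.coe_exp]
  congr 1
  have hp : (Real.pi : ℂ) ≠ 0 := by exact_mod_cast Real.pi_ne_zero
  push_cast
  field_simp

lemma Mn_Gf (f : ℂ → ℝ) (hf : Continuous f) : Mn (Gf f hf) = ((Mf f : ℝ) : ℂ) := by
  unfold Mn Mf
  rw [Complex.ofReal_mul (2 * Real.pi)⁻¹, Complex.ofReal_inv, ← intervalIntegral.integral_ofReal]
  congr 1
  refine intervalIntegral.integral_congr fun θ _ => ?_
  simp only [Gf, ContinuousMap.coe_mk]
  rw [toC]

/-- **From the good sets to the full sets.** -/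
theorem equiA {δ V : ℝ → ℝ} (h : Adm δ V) {J : ℝ → Set ℝ} (hJ : ∀ T, MeasurableSet (J T)) {g : ℝ → ℝ} {L : ℝ} (hL : 0 < L)
    (hlim : ∀ κ : ℂ, ‖κ‖ ≤ 1 → ∀ r : ℕ, 0 < r → Tendsto (fun T => (muP κ r δ V T).real (J T) / g T) atTop (𝓝 L))
    {K : ℕ} (hg : ∀ᶠ T : ℝ in atTop, (Real.log T ^ K)⁻¹ ≤ g T) {A : ℝ → Set ℝ}
    (hAm : ∀ᶠ T in atTop, MeasurableSet (A T)) (hAsub : ∀ T, A T ⊆ Set.Ioc 0 T)
    (hAJ : ∀ᶠ T in atTop, ∀ t ∈ gset (V T) (δ T) T, (t ∈ A T ↔ Xf (δ T) t ∈ J T)) {f : ℂ → ℝ} (hf : Continuous f) :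
    Tendsto (fun T => (∫ t in A T, f (ph (δ T) t)) / (volume (A T)).toReal) atTop (𝓝 (Mf f)) := by
  obtain ⟨hvol, hequi⟩ := equiS h hJ hL hlim
  have h1 := hequi (Gf f hf)
  rw [Mn_Gf] at h1
  have hgood : ∀ᶠ T : ℝ in atTop, 0 < T ∧ 1 ≤ V T ∧ δ T ≤ 1 / 16 := by
    filter_upwards [eventually_gt_atTop (0:ℝ), h.2.1, h.1.eventually (gt_mem_nhds (by norm_num : (0:ℝ) < 1 / 16))]
      with T g1 g2 g4
    exact ⟨g1, g2, g4.le⟩
  obtain ⟨M, hM⟩ : ∃ M : ℝ, ∀ z : ℂ, ‖z‖ ≤ 1 → |f z| ≤ M := by
    obtain ⟨M, hM⟩ := (isCompact_closedBall (0:ℂ) 1).exists_bound_of_continuousOn hf.continuousOn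
    exact ⟨M, fun z hz => by
      have := hM z (by rwa [Metric.mem_closedBall, dist_zero_right])
      rwa [Real.norm_eq_abs] at this⟩
  have hM0 : 0 ≤ M := (abs_nonneg _).trans (hM 0 (by simp))
  -- the average over the good part
  have h2 : Tendsto (fun T => (∫ t in SJ δ V J T, f (ph (δ T) t)) / (volume (SJ δ V J T)).toReal) atTop (𝓝 (Mf f)) := by
    have h3 := (Complex.continuous_re.tendsto _).comp h1
    rw [Complex.ofReal_re] at h3
    refine h3.congr' ?_
    filter_upwards [hgood] with T hT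
    simp only [Function.comp, Lt]
    have e1 : ∫ t in SJ δ V J T, (Gf f hf) (xa δ T t) = ((∫ t in SJ δ V J T, f (ph (δ T) t) : ℝ) : ℂ) := by
      rw [← integral_complex_ofReal]
      refine setIntegral_congr_fun (SJ_meas hT.2.2 (hJ T)) fun t ht => ?_
      simp only [Gf, ContinuousMap.coe_mk, xa]
      rw [toC, xa_circle hT.2.1 ht.1]
    rw [e1, Complex.real_smul, ← Complex.ofReal_mul, Complex.ofReal_re, Measure.real, Measure.restrict_apply_univ,
      inv_mul_eq_div]
  -- the bad part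
  obtain ⟨c, hc, H⟩ := cmoment 0 le_rfl
  obtain ⟨A', C', T0, hC', H2⟩ := H (K + 1) (by positivity)
  have hev := h.ev (C := C') (A := A') (T0 := T0) hc
  have hbad : Tendsto (fun T => (volume (Set.Ioc 0 T \ gset (V T) (δ T) T)).toReal / (T * g T)) atTop (𝓝 0) := by
    refine squeeze_zero' (g := fun T : ℝ => (Real.log T)⁻¹) ?_ ?_ (tendsto_inv_atTop_zero.comp Real.tendsto_log_atTop)
    · filter_upwards [hg, hgood, Real.tendsto_log_atTop.eventually (eventually_gt_atTop 0)] with T g1 g2 g3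
      have : 0 ≤ g T := le_trans (by positivity) g1
      have := g2.1
      positivity
    · filter_upwards [hg, hev, hgood] with T g1 ⟨k1, k2, k3, k4, k5, k6, k7, k8⟩ g2
      obtain ⟨m1, m2, m3, m4⟩ := H2 T k1 (δ T) k5 k6
      have m5 := (m4 (V T) k7 k8).1
      have hL0 : 0 < Real.log T := by linarith
      have hg0 : 0 < g T := lt_of_lt_of_le (by positivity) g1
      have hT0 := g2.1
      rw [div_le_iff₀ (by positivity)]
      refine m5.trans ?_
      have e1 : Real.log T ^ (-((K:ℝ) + 1)) = (Real.log T)⁻¹ * (Real.log T ^ K)⁻¹ := by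
        rw [Real.rpow_neg hL0.le, ← mul_inv]
        congr 1
        rw [Real.rpow_add hL0, Real.rpow_one, Real.rpow_natCast, mul_comm]
      rw [e1]
      calc T * ((Real.log T)⁻¹ * (Real.log T ^ K)⁻¹) ≤ T * ((Real.log T)⁻¹ * g T) := by gcongr
        _ = _ := by ring
  -- comparison
  have hcmp : ∀ᶠ T in atTop, |(∫ t in A T, f (ph (δ T) t)) - ∫ t in SJ δ V J T, f (ph (δ T) t)| ≤
      M * (volume (Set.Ioc 0 T \ gset (V T) (δ T) T)).toReal ∧
      |(volume (A T)).toReal - (volume (SJ δ V J T)).toReal| ≤ (volume (Set.Ioc 0 T \ gset (V T) (δ T) T)).toReal := by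
    filter_upwards [hgood, hAm, hAJ] with T hT hm haj
    have hSA : SJ δ V J T ⊆ A T := fun t ht => (haj t ht.1).mpr ht.2
    have hdiff : A T \ SJ δ V J T ⊆ Set.Ioc 0 T \ gset (V T) (δ T) T := by
      intro t ht
      refine ⟨hAsub T ht.1, fun hg' => ht.2 ⟨hg', (haj t hg').mp ht.1⟩⟩
    have hfinA : volume (A T) ≠ ⊤ := ne_top_of_le_ne_top (by simp) (measure_mono (hAsub T))
    have hfinD : volume (Set.Ioc 0 T \ gset (V T) (δ T) T) ≠ ⊤ := ne_top_of_le_ne_top (by simp) (measure_mono Set.sdiff_subset)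
    have hSm := SJ_meas (V := V) (J := J) hT.2.2 (hJ T)
    have hfm : Measurable fun t => f (ph (δ T) t) := hf.measurable.comp (ph_meas hT.2.2)
    have hint : IntegrableOn (fun t => f (ph (δ T) t)) (A T) := by
      refine Measure.integrableOn_of_bounded (M := M) hfinA hfm.aestronglyMeasurable (Eventually.of_forall fun t => ?_)
      rw [Real.norm_eq_abs]
      exact hM _ (ph_le _ _)
    have e1 : ∫ t in A T, f (ph (δ T) t) = (∫ t in SJ δ V J T, f (ph (δ T) t)) + ∫ t in A T \ SJ δ V J T, f (ph (δ T) t) := by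
      rw [← setIntegral_union Set.disjoint_sdiff_right (hm.diff hSm) (hint.mono_set hSA) (hint.mono_set Set.sdiff_subset),
        Set.union_sdiff_cancel hSA]
    have e2 : (volume (A T)).toReal = (volume (SJ δ V J T)).toReal + (volume (A T \ SJ δ V J T)).toReal := by
      rw [← ENNReal.toReal_add (SJ_fin δ V J T) (ne_top_of_le_ne_top hfinA (measure_mono Set.sdiff_subset)),
        ← measure_union Set.disjoint_sdiff_right (hm.diff hSm), Set.union_sdiff_cancel hSA]
    have e3 : (volume (A T \ SJ δ V J T)).toReal ≤ (volume (Set.Ioc 0 T \ gset (V T) (δ T) T)).toReal :=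
      ENNReal.toReal_mono hfinD (measure_mono hdiff)
    constructor
    · rw [e1, add_sub_cancel_left]
      have h5 := norm_setIntegral_le_of_norm_le_const (μ := (volume : Measure ℝ)) (s := A T \ SJ δ V J T)
        (f := fun t => f (ph (δ T) t)) (C := M) (ne_top_of_le_ne_top hfinA (measure_mono Set.sdiff_subset)).lt_top
        (fun t _ => by rw [Real.norm_eq_abs]; exact hM _ (ph_le _ _))
      rw [Real.norm_eq_abs] at h5
      exact h5.trans (mul_le_mul_of_nonneg_left e3 hM0)
    · rw [e2, add_sub_cancel_left, abs_of_nonneg ENNReal.toReal_nonneg]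
      exact e3
  have hnum : Tendsto (fun T => (∫ t in A T, f (ph (δ T) t)) / (T * g T)) atTop (𝓝 (Mf f * L)) := by
    have h5 := h2.mul hvol
    have h6 : Tendsto (fun T => (∫ t in A T, f (ph (δ T) t)) / (T * g T) - (∫ t in SJ δ V J T, f (ph (δ T) t)) / (T * g T))
        atTop (𝓝 0) := by
      have h7 := hbad.const_mul M
      rw [mul_zero] at h7
      refine squeeze_zero_norm' ?_ h7
      filter_upwards [hcmp, hg, hgood, Real.tendsto_log_atTop.eventually (eventually_gt_atTop 0)] with T g1 g2 g3 g4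
      have hg0 : 0 < g T := lt_of_lt_of_le (by positivity) g2
      have hTg : 0 < T * g T := mul_pos g3.1 hg0
      rw [← sub_div, norm_div, Real.norm_eq_abs, Real.norm_of_nonneg hTg.le, ← mul_div_assoc]
      exact div_le_div_of_nonneg_right g1.1 hTg.le
    have h8 := h6.add h5
    rw [zero_add] at h8
    refine h8.congr' ?_
    filter_upwards [hvol.eventually (lt_mem_nhds hL)] with T g1
    have hv : (volume (SJ δ V J T)).toReal ≠ 0 := by
      intro h0
      rw [h0, zero_div] at g1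
      exact absurd g1 (lt_irrefl 0)
    field_simp
    ring
  have hden : Tendsto (fun T => (volume (A T)).toReal / (T * g T)) atTop (𝓝 L) := by
    have h6 : Tendsto (fun T => (volume (A T)).toReal / (T * g T) - (volume (SJ δ V J T)).toReal / (T * g T)) atTop (𝓝 0) := by
      refine squeeze_zero_norm' ?_ hbad
      filter_upwards [hcmp, hg, hgood, Real.tendsto_log_atTop.eventually (eventually_gt_atTop 0)] with T g1 g2 g3 g4
      have hg0 : 0 < g T := lt_of_lt_of_le (by positivity) g2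
      have hTg : 0 < T * g T := mul_pos g3.1 hg0
      rw [← sub_div, norm_div, Real.norm_eq_abs, Real.norm_of_nonneg hTg.le]
      exact div_le_div_of_nonneg_right g1.2 hTg.le
    have h8 := h6.add hvol
    rw [zero_add] at h8
    exact h8.congr fun T => by ring
  have hfin := hnum.div hden hL.ne'
  rw [mul_div_cancel_right₀ _ hL.ne'] at hfin
  refine hfin.congr' ?_
  filter_upwards [hden.eventually (lt_mem_nhds hL)] with T g1
  have hTg : T * g T ≠ 0 := by
    intro h0
    rw [h0, div_zero] at g1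
    exact absurd g1 (lt_irrefl 0)
  simp only [Pi.div_apply]
  exact div_div_div_cancel_right₀ hTg _ _

end

end Pool.Agent.X110.LV
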