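import Pool.Agent.X110.LV5

set_option autoImplicit false

/-! The argument of zeta at large, small and typical values: the three kinds of sets. -/

namespace Pool.Agent.X110.LV

open Filter Topology MeasureTheory
open Pool.Agent.H306R2 Pool.Agent.Y746.OA Pool.Agent.X110.LT Pool.Agent.X110.ND Pool.Agent.X110.SD

noncomputable section

lemma elz_le {δ V : ℝ → ℝ} (h : Adm δ V) : ∀ᶠ T : ℝ in atTop, 1 < Real.log T ∧ 0 < elz δ T ∧
    Real.exp (elz δ T) ≤ Real.log T := by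
  obtain ⟨c, hc, H⟩ := cmoment 0 le_rfl
  obtain ⟨A, C, T0, hC, H2⟩ := H 0 le_rfl
  filter_upwards [h.ev (C := C) (A := A) (T0 := T0) hc, (elz_tendsto h).eventually (eventually_gt_atTop 0)]
    with T ⟨g1, g2, g3, g4, g5, g6, g7, g8⟩ g9
  obtain ⟨k1, k2, k3, k4⟩ := H2 T g1 (δ T) g5 g6
  refine ⟨g3, g9, ?_⟩
  have h2 : 0 < 2 * δ T := by linarith
  have h1 : elz δ T ≤ Real.log (1 / (2 * δ T)) := by
    have : elz δ T = Real.log (1 / (2 * δ T)) / 2 := rfl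
    linarith
  calc Real.exp (elz δ T) ≤ Real.exp (Real.log (1 / (2 * δ T))) := Real.exp_le_exp.mpr h1
    _ = 1 / (2 * δ T) := Real.exp_log (by positivity)
    _ ≤ 2 / δ T := by
        rw [div_le_div_iff₀ h2 k2]
        linarith
    _ ≤ _ := k3

lemma Qg_bigR {δ V : ℝ → ℝ} (h : Adm δ V) {x : ℝ → ℝ} {b : ℝ} (hx : ∀ᶠ T in atTop, 0 ≤ x T)
    (hb : Tendsto (fun T => x T / elz δ T) atTop (𝓝 b)) :
    ∃ K : ℕ, ∀ᶠ T : ℝ in atTop, (Real.log T ^ K)⁻¹ ≤ Qg (x T / Real.sqrt (elz δ T)) := by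
  obtain ⟨K, hK⟩ := exists_nat_gt (b ^ 2)
  refine ⟨K + 1, ?_⟩
  have h1 : Tendsto (fun T => (x T / elz δ T) ^ 2) atTop (𝓝 (b ^ 2)) := hb.pow 2
  have hκ : 0 < (Real.sqrt (2 * Real.pi))⁻¹ * Real.exp (-1) := mul_pos (inv_pos.mpr SD.sp_pos) (Real.exp_pos _)
  filter_upwards [hx, h1.eventually (gt_mem_nhds hK), elz_le h,
    Real.tendsto_log_atTop.eventually (eventually_ge_atTop (((Real.sqrt (2 * Real.pi))⁻¹ * Real.exp (-1))⁻¹))]
    with T g1 g2 ⟨g3, g7, g6⟩ g8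
  have hq0 : 0 < Real.sqrt (elz δ T) := Real.sqrt_pos.mpr g7
  have hc0 : 0 ≤ x T / Real.sqrt (elz δ T) := by positivity
  refine le_trans ?_ (Qg_lower hc0)
  have e1 : (x T / Real.sqrt (elz δ T)) ^ 2 = (x T / elz δ T) ^ 2 * elz δ T := by
    rw [div_pow, div_pow, Real.sq_sqrt g7.le]
    field_simp
  have e2 : -(x T / Real.sqrt (elz δ T) + 1) ^ 2 / 2 ≥ -1 + -(K * elz δ T) := by
    have h3 : (x T / elz δ T) ^ 2 * elz δ T ≤ K * elz δ T := mul_le_mul_of_nonneg_right g2.le g7.le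
    nlinarith [sq_nonneg (x T / Real.sqrt (elz δ T) - 1)]
  have hL0 : 0 < Real.log T := by linarith
  have e3 : Real.exp (-(K * elz δ T)) ≥ (Real.log T ^ K)⁻¹ := by
    rw [Real.exp_neg, Real.exp_nat_mul]
    exact inv_anti₀ (by positivity) (pow_le_pow_left₀ (Real.exp_pos _).le g6 K)
  calc (Real.log T ^ (K + 1))⁻¹ = (Real.log T)⁻¹ * (Real.log T ^ K)⁻¹ := by
        rw [pow_succ, mul_inv, mul_comm]
    _ ≤ ((Real.sqrt (2 * Real.pi))⁻¹ * Real.exp (-1)) * Real.exp (-(K * elz δ T)) := by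
        refine mul_le_mul ?_ e3 (by positivity) hκ.le
        rw [inv_le_comm₀ hL0 hκ]
        exact g8
    _ = (Real.sqrt (2 * Real.pi))⁻¹ * Real.exp (-1 + -(K * elz δ T)) := by rw [Real.exp_add, mul_assoc]
    _ ≤ _ := mul_le_mul_of_nonneg_left (Real.exp_le_exp.mpr e2) (inv_nonneg.mpr SD.sp_pos.le)

lemma good_ev {δ V : ℝ → ℝ} (h : Adm δ V) : ∀ᶠ T : ℝ in atTop, 0 < T ∧ 1 ≤ V T ∧ δ T ≤ 1 / 16 ∧ 0 < δ T := by
  filter_upwards [eventually_gt_atTop (0:ℝ), h.2.1, h.2.2.1, h.1.eventually (gt_mem_nhds (by norm_num : (0:ℝ) < 1 / 16))]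
    with T g1 g2 g3 g4
  exact ⟨g1, g2, g4.le, g3⟩

lemma zpos {V δ T t : ℝ} (hV : 1 ≤ V) (ht : t ∈ gset V δ T) : 0 < ‖riemannZeta (sp δ t)‖ :=
  lt_trans (inv_pos.mpr (by linarith)) ht.2.1

variable {δ : ℝ → ℝ}

/-- **Large values** -/
theorem argLarge (h1 : Tendsto δ atTop (𝓝 0)) (h2 : ∀ᶠ T in atTop, 0 < δ T)
    (h3 : Tendsto (fun T => δ T * Real.log T / Real.log (Real.log T)) atTop atTop) {x : ℝ → ℝ} {b : ℝ}
    (hx : ∀ᶠ T in atTop, 0 ≤ x T) (hb : Tendsto (fun T => x T / elz δ T) atTop (𝓝 b)) {f : ℂ → ℝ} (hf : Continuous f) :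
    Tendsto (fun T => (∫ t in {t | t ∈ Set.Ioc 0 T ∧ Real.exp (x T) ≤ ‖riemannZeta (sp (δ T) t)‖}, f (ph (δ T) t)) /
      (volume {t | t ∈ Set.Ioc 0 T ∧ Real.exp (x T) ≤ ‖riemannZeta (sp (δ T) t)‖}).toReal) atTop (𝓝 (Mf f)) := by
  obtain ⟨V, hA⟩ := exists_Adm h1 h2 h3
  obtain ⟨K, hK⟩ := Qg_bigR hA hx hb
  have hab : aFC ((b:ℂ) / 2) = ((aR (b / 2) : ℝ) : ℂ) := by
    rw [← aFC_ofReal]; congr 1; push_cast; rfl
  refine equiA hA (J := fun T => Set.Ici (x T)) (fun T => measurableSet_Ici) (aR_pos (b / 2))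
    (fun κ hκ r hr => unif (mgP hA hκ hr) hx hb hab (aR_pos _)) hK ?_ (fun T t ht => ht.1) ?_ hf
  · filter_upwards [good_ev hA] with T ⟨g1, g2, g3, g4⟩
    exact measurableSet_Ioc.inter (measurableSet_le measurable_const (zeta_sp_cont g3).norm.measurable)
  · filter_upwards [good_ev hA] with T ⟨g1, g2, g3, g4⟩ t ht
    have hz := zpos g2 ht
    simp only [Set.mem_ofPred_eq, Set.mem_Ici]
    unfold Xf
    rw [Real.le_log_iff_exp_le hz]
    exact ⟨fun hh => hh.2, fun hh => ⟨ht.1, hh⟩⟩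

/-- **Small values** -/
theorem argSmall (h1 : Tendsto δ atTop (𝓝 0)) (h2 : ∀ᶠ T in atTop, 0 < δ T)
    (h3 : Tendsto (fun T => δ T * Real.log T / Real.log (Real.log T)) atTop atTop) {x : ℝ → ℝ} {b : ℝ}
    (hx : ∀ᶠ T in atTop, 0 ≤ x T) (hb : Tendsto (fun T => x T / elz δ T) atTop (𝓝 b)) {f : ℂ → ℝ} (hf : Continuous f) :
    Tendsto (fun T => (∫ t in {t | t ∈ Set.Ioc 0 T ∧ ‖riemannZeta (sp (δ T) t)‖ ≤ Real.exp (-x T)}, f (ph (δ T) t)) /
      (volume {t | t ∈ Set.Ioc 0 T ∧ ‖riemannZeta (sp (δ T) t)‖ ≤ Real.exp (-x T)}).toReal) atTop (𝓝 (Mf f)) := by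
  obtain ⟨V, hA⟩ := exists_Adm h1 h2 h3
  obtain ⟨K, hK⟩ := Qg_bigR hA hx hb
  have hab : (fun z => (fun z => aFC (z / 2)) (-z)) (b:ℂ) = ((aR (-b / 2) : ℝ) : ℂ) := by
    simp only
    rw [← aFC_ofReal]; congr 1; push_cast; rfl
  have hlim : ∀ κ : ℂ, ‖κ‖ ≤ 1 → ∀ r : ℕ, 0 < r →
      Tendsto (fun T => (muP κ r δ V T).real (Set.Iic (-x T)) / Qg (x T / Real.sqrt (elz δ T))) atTop (𝓝 (aR (-b / 2))) := by
    intro κ hκ r hr
    refine (unif (mgP hA hκ hr).refl hx hb hab (aR_pos _)).congr fun T => ?_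
    congr 1
    rw [map_measureReal_apply measurable_neg measurableSet_Ici]
    congr 1
    ext y
    simp only [Set.mem_preimage, Set.mem_Ici, Set.mem_Iic]
    constructor <;> intro h <;> linarith
  refine equiA hA (J := fun T => Set.Iic (-x T)) (fun T => measurableSet_Iic) (aR_pos (-b / 2)) hlim hK ?_
    (fun T t ht => ht.1) ?_ hf
  · filter_upwards [good_ev hA] with T ⟨g1, g2, g3, g4⟩
    exact measurableSet_Ioc.inter (measurableSet_le (zeta_sp_cont g3).norm.measurable measurable_const)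
  · filter_upwards [good_ev hA] with T ⟨g1, g2, g3, g4⟩ t ht
    have hz := zpos g2 ht
    simp only [Set.mem_ofPred_eq, Set.mem_Iic]
    unfold Xf
    rw [Real.log_le_iff_le_exp hz]
    exact ⟨fun hh => hh.2, fun hh => ⟨ht.1, hh⟩⟩

/-- **Windows** -/
theorem argWindow (h1 : Tendsto δ atTop (𝓝 0)) (h2 : ∀ᶠ T in atTop, 0 < δ T)
    (h3 : Tendsto (fun T => δ T * Real.log T / Real.log (Real.log T)) atTop atTop) {α : ℝ → ℝ} {α₀ : ℝ}
    (hα : Tendsto α atTop (𝓝 α₀)) {A B : ℝ} (hA0 : 0 < A) (hAB : A < B) {f : ℂ → ℝ} (hf : Continuous f) :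
    Tendsto (fun T => (∫ t in {t | t ∈ Set.Ioc 0 T ∧ A ≤ (2 * δ T) ^ α T * ‖riemannZeta (sp (δ T) t)‖ ∧
        (2 * δ T) ^ α T * ‖riemannZeta (sp (δ T) t)‖ ≤ B}, f (ph (δ T) t)) /
      (volume {t | t ∈ Set.Ioc 0 T ∧ A ≤ (2 * δ T) ^ α T * ‖riemannZeta (sp (δ T) t)‖ ∧
        (2 * δ T) ^ α T * ‖riemannZeta (sp (δ T) t)‖ ≤ B}).toReal) atTop (𝓝 (Mf f)) := by
  obtain ⟨V, hA⟩ := exists_Adm h1 h2 h3
  have hB0 : 0 < B := hA0.trans hAB
  have hlog : Real.log A < Real.log B := Real.log_lt_log hA0 hAB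
  have hβ : Tendsto (fun T => 2 * α T) atTop (𝓝 (2 * α₀)) := hα.const_mul 2
  have hab : aFC (((2 * α₀ : ℝ) : ℂ) / 2) = ((aR α₀ : ℝ) : ℂ) := by
    rw [← aFC_ofReal]; congr 1; push_cast; ring
  set L : ℝ := aR α₀ / Real.sqrt (2 * Real.pi) * ∫ x in Real.log A..Real.log B, Real.exp (-(2 * α₀ * x)) with hL
  have hIpos : 0 < ∫ x in Real.log A..Real.log B, Real.exp (-(2 * α₀ * x)) :=
    intervalIntegral.intervalIntegral_pos_of_pos (Continuous.intervalIntegrable (by fun_prop) _ _)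
      (fun x => Real.exp_pos _) hlog
  have hL0 : 0 < L := mul_pos (div_pos (aR_pos _) SD.sp_pos) hIpos
  set g : ℝ → ℝ := fun T => (Real.sqrt (elz δ T) * Real.exp (elz δ T * (2 * α T) ^ 2 / 2))⁻¹ with hg
  have hlim : ∀ κ : ℂ, ‖κ‖ ≤ 1 → ∀ r : ℕ, 0 < r →
      Tendsto (fun T => (muP κ r δ V T).real (Set.Icc (2 * α T * elz δ T + Real.log A) (2 * α T * elz δ T + Real.log B)) / g T)
        atTop (𝓝 L) := by
    intro κ hκ r hr
    refine (loc (mgP hA hκ hr) hβ hab (aR_pos _) hlog.le).congr fun T => ?_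
    simp only [hg]
    rw [div_inv_eq_mul]
    ring
  obtain ⟨K, hK⟩ := exists_nat_gt ((2 * α₀) ^ 2)
  have hK1 : Tendsto (fun T => (2 * α T) ^ 2) atTop (𝓝 ((2 * α₀) ^ 2)) := hβ.pow 2
  have hgb : ∀ᶠ T : ℝ in atTop, (Real.log T ^ (K + 1))⁻¹ ≤ g T := by
    filter_upwards [hK1.eventually (gt_mem_nhds hK), elz_le hA] with T g2 ⟨g3, g7, g6⟩
    have hq0 : 0 < Real.sqrt (elz δ T) := Real.sqrt_pos.mpr g7
    refine inv_anti₀ (by positivity) ?_
    have e1 : Real.sqrt (elz δ T) ≤ Real.log T := by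
      refine le_trans ?_ g6
      rw [Real.sqrt_le_left (Real.exp_pos _).le]
      have h5 := Real.add_one_le_exp (elz δ T)
      nlinarith
    have e2 : Real.exp (elz δ T * (2 * α T) ^ 2 / 2) ≤ Real.log T ^ K := by
      have h5 : elz δ T * (2 * α T) ^ 2 / 2 ≤ K * elz δ T := by nlinarith [sq_nonneg (2 * α T)]
      calc _ ≤ Real.exp (K * elz δ T) := Real.exp_le_exp.mpr h5
        _ = Real.exp (elz δ T) ^ K := Real.exp_nat_mul _ _
        _ ≤ _ := pow_le_pow_left₀ (Real.exp_pos _).le g6 K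
    calc Real.sqrt (elz δ T) * Real.exp (elz δ T * (2 * α T) ^ 2 / 2) ≤ Real.log T * Real.log T ^ K :=
          mul_le_mul e1 e2 (Real.exp_pos _).le (by linarith)
      _ = _ := by ring
  refine equiA hA (J := fun T => Set.Icc (2 * α T * elz δ T + Real.log A) (2 * α T * elz δ T + Real.log B))
    (fun T => measurableSet_Icc) hL0 hlim hgb ?_ (fun T t ht => ht.1) ?_ hf
  · filter_upwards [good_ev hA] with T ⟨g1, g2, g3, g4⟩
    have hm := (zeta_sp_cont g3).norm.measurable.const_mul ((2 * δ T) ^ α T)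
    exact measurableSet_Ioc.inter ((measurableSet_le measurable_const hm).inter (measurableSet_le hm measurable_const))
  · filter_upwards [good_ev hA] with T ⟨g1, g2, g3, g4⟩ t ht
    have hz := zpos g2 ht
    have h22 : 0 < 2 * δ T := by linarith
    have hY : 0 < (2 * δ T) ^ α T * ‖riemannZeta (sp (δ T) t)‖ := mul_pos (Real.rpow_pos_of_pos h22 _) hz
    have e1 : Xf (δ T) t - 2 * α T * elz δ T = Real.log ((2 * δ T) ^ α T * ‖riemannZeta (sp (δ T) t)‖) := by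
      rw [Real.log_mul (Real.rpow_pos_of_pos h22 _).ne' hz.ne', Real.log_rpow h22]
      unfold Xf elz
      rw [one_div (2 * δ T), Real.log_inv]
      ring
    simp only [Set.mem_ofPred_eq, Set.mem_Icc]
    rw [← Real.log_le_log_iff hA0 hY, ← Real.log_le_log_iff hY hB0, ← e1]
    constructor
    · rintro ⟨k0, k1, k2⟩; constructor <;> linarith
    · rintro ⟨k1, k2⟩; exact ⟨ht.1, by linarith, by linarith⟩

end

end Pool.Agent.X110.LV
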