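import Pool.Agent.X110.QF6

set_option autoImplicit false

/-! Averages over the family, twisted by a short character polynomial. -/

namespace Pool.Agent.X110.QF

open Finset Filter Topology
open Pool.Agent.H306R2 Pool.Agent.Y746.OA

noncomputable section

/-- the twist -/
def thW (ε : ℤ) (W : ArithmeticFunction ℝ) (Q0 d : ℕ) : ℝ := ∑ n ∈ Icc 1 Q0, W n * chi ε d n

/-- the twist, scaled -/
def Ws (W : ArithmeticFunction ℝ) (σ : ℝ) : ArithmeticFunction ℝ := ⟨fun n => W n * (n:ℝ) ^ σ, by simp⟩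

lemma Ws_apply (W : ArithmeticFunction ℝ) (σ : ℝ) (n : ℕ) : Ws W σ n = W n * (n:ℝ) ^ σ := rfl

/-- the constant -/
def CW (W : ArithmeticFunction ℝ) (Q0 : ℕ) : ℝ := 1 + ∑ n ∈ Icc 1 Q0, |W n| * n

lemma CW_pos (W : ArithmeticFunction ℝ) (Q0 : ℕ) : 0 < CW W Q0 := by
  unfold CW
  have : 0 ≤ ∑ n ∈ Icc 1 Q0, |W n| * (n:ℝ) := sum_nonneg fun _ _ => by positivity
  linarith

lemma thW_abs (ε : ℤ) (W : ArithmeticFunction ℝ) (Q0 d : ℕ) : |thW ε W Q0 d| ≤ CW W Q0 := by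
  unfold thW CW
  have h : |∑ n ∈ Icc 1 Q0, W n * chi ε d n| ≤ ∑ n ∈ Icc 1 Q0, |W n| * (n:ℝ) := by
    refine (abs_sum_le_sum_abs _ _).trans (sum_le_sum fun n hn => ?_)
    rw [mem_Icc] at hn
    have hn1 : (1:ℝ) ≤ n := by exact_mod_cast hn.1
    rw [abs_mul]
    exact mul_le_mul_of_nonneg_left ((chi_abs ε d n).trans hn1) (abs_nonneg _)
  linarith

lemma thW_PQ (ε : ℤ) (W : ArithmeticFunction ℝ) (σ : ℝ) (Q0 d : ℕ) :
    PQ ε σ (fun n => Ws W σ n) Q0 d = thW ε W Q0 d := by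
  unfold PQ thW
  refine sum_congr rfl fun n hn => ?_
  rw [mem_Icc] at hn
  have hn0 : (0:ℝ) < n := by exact_mod_cast hn.1
  show W n * (n:ℝ) ^ σ * (n:ℝ) ^ (-σ) * chi ε d n = _
  rw [mul_assoc (W n), ← Real.rpow_add hn0, add_neg_cancel, Real.rpow_zero, mul_one]

lemma dv_one' {n : ℕ} (hn : n ≠ 0) : dv 1 n = 1 := by
  unfold dv lc
  rw [if_neg hn]
  unfold Finsupp.prod
  refine prod_eq_one fun p _ => ?_
  refine prod_eq_one fun i _ => ?_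
  rw [add_comm (1:ℝ)]
  exact div_self (by positivity)

lemma Ws_abs {W : ArithmeticFunction ℝ} {Q0 : ℕ} (hW : ∀ n : ℕ, Q0 < n → W n = 0) {σ : ℝ} (hσ : σ ≤ 1) (n : ℕ) :
    |Ws W σ n| ≤ CW W Q0 * dv 1 n := by
  have hC := CW_pos W Q0
  rcases Nat.eq_zero_or_pos n with h0 | h0
  · subst h0
    simp [Ws_apply, dv]
  · rw [dv_one' (by omega), mul_one, Ws_apply]
    rcases lt_or_ge Q0 n with h | h
    · rw [hW n h, zero_mul, abs_zero]; exact hC.le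
    · have hn1 : (1:ℝ) ≤ n := by exact_mod_cast h0
      have h1 : (n:ℝ) ^ σ ≤ n := by
        calc (n:ℝ) ^ σ ≤ (n:ℝ) ^ (1:ℝ) := Real.rpow_le_rpow_of_exponent_le hn1 hσ
          _ = n := Real.rpow_one _
      rw [abs_mul, abs_of_nonneg (by positivity : (0:ℝ) ≤ (n:ℝ) ^ σ)]
      have h2 : |W n| * (n:ℝ) ≤ ∑ n ∈ Icc 1 Q0, |W n| * (n:ℝ) :=
        single_le_sum (f := fun n : ℕ => |W n| * (n:ℝ)) (fun _ _ => by positivity) (mem_Icc.mpr ⟨h0, h⟩)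
      have h3 := mul_le_mul_of_nonneg_left h1 (abs_nonneg (W n))
      unfold CW
      linarith

lemma tw_abs {W : ArithmeticFunction ℝ} {Q0 : ℕ} (hW : ∀ n : ℕ, Q0 < n → W n = 0) {σ : ℝ} (hσ : σ ≤ 1)
    {K : ℕ} {g : ArithmeticFunction ℝ} (hg : ∀ n, |g n| ≤ dv ((2 * K : ℕ) : ℝ) n) (n : ℕ) :
    |(Ws W σ * g) n| ≤ CW W Q0 * dv ((2 * (K + 1) : ℕ) : ℝ) n := by
  have hC := CW_pos W Q0
  have h1 : |(Ws W σ * g) n| ≤ CW W Q0 * (dA 1 * dA ((2 * K : ℕ) : ℝ)) n := by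
    rw [ArithmeticFunction.mul_apply, ArithmeticFunction.mul_apply, mul_sum]
    refine (abs_sum_le_sum_abs _ _).trans (sum_le_sum fun x _ => ?_)
    rw [abs_mul, ← mul_assoc]
    have g1 := Ws_abs hW hσ x.1
    exact mul_le_mul g1 (hg _) (abs_nonneg _) ((abs_nonneg _).trans g1)
  refine h1.trans (mul_le_mul_of_nonneg_left ?_ hC.le)
  rw [dA_mul]
  show dv _ n ≤ _
  refine (le_abs_self _).trans (dv_abs_le ?_ n)
  rw [abs_of_nonneg (by positivity)]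
  push_cast
  linarith

/-- the diagonal series -/
def SW (W : ArithmeticFunction ℝ) (β δ : ℝ) : ℝ :=
  ∑' k : ℕ, if Odd k then (Ws W (1 / 2 + δ) * dA β) (k ^ 2) * hk k * (k:ℝ) ^ (-1 - 2 * δ) else 0

/-- the terms, with the density -/
def ftW (W : ArithmeticFunction ℝ) (β δ : ℝ) (k : ℕ) : ℝ :=
  if Odd k then (Ws W (1 / 2 + δ) * dA β) (k * k) * ((k * k : ℕ) : ℝ) ^ (-(1 / 2 + δ)) * (kap 2 * hk k) else 0

lemma ftW_tsum (W : ArithmeticFunction ℝ) (β δ : ℝ) : ∑' k, ftW W β δ k = kap 2 * SW W β δ := by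
  unfold SW
  rw [← tsum_mul_left]
  refine tsum_congr fun k => ?_
  unfold ftW
  split_ifs
  · rw [sq_rpow, pow_two]; ring
  · ring

lemma sq_partC {K : ℕ} (hK : 1 ≤ K) {C : ℝ} (hC : 0 < C) {g : ℕ → ℝ} (hg : ∀ n, |g n| ≤ C * dv ((2 * K : ℕ) : ℝ) n)
    {N0 : ℕ} (hN0 : 1 ≤ N0) {δ : ℝ} (hδ : 0 < δ) (hδ1 : δ ≤ 1) {F : Finset ℕ} (hF : ∀ k ∈ F, N0 ≤ k) :
    ∑ k ∈ F, |g (k * k) * ((k * k : ℕ) : ℝ) ^ (-(1 / 2 + δ)) * (kap 2 * hk k)| ≤
      C * ((N0:ℝ) ^ (-δ) * (2 / δ) ^ ((2 * K) ^ 2)) := by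
  have h1 := sq_part hK (g := fun n => g n / C) (fun n => by
    rw [abs_div, abs_of_pos hC, div_le_iff₀ hC, mul_comm]; exact hg n) hN0 hδ hδ1 hF
  have h2 : ∑ k ∈ F, |g (k * k) * ((k * k : ℕ) : ℝ) ^ (-(1 / 2 + δ)) * (kap 2 * hk k)| =
      C * ∑ k ∈ F, |g (k * k) / C * ((k * k : ℕ) : ℝ) ^ (-(1 / 2 + δ)) * (kap 2 * hk k)| := by
    rw [mul_sum]
    refine sum_congr rfl fun k _ => ?_
    have e : g (k * k) * ((k * k : ℕ) : ℝ) ^ (-(1 / 2 + δ)) * (kap 2 * hk k) =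
        C * (g (k * k) / C * ((k * k : ℕ) : ℝ) ^ (-(1 / 2 + δ)) * (kap 2 * hk k)) := by
      field_simp
    rw [e, abs_mul C, abs_of_pos hC]
  rw [h2]
  exact mul_le_mul_of_nonneg_left h1 hC.le

lemma ftW_part {W : ArithmeticFunction ℝ} {Q0 : ℕ} (hW : ∀ n : ℕ, Q0 < n → W n = 0) {K : ℕ} (hK : 1 ≤ K) {a : ℝ}
    (ha : |a| ≤ K) {N0 : ℕ} (hN0 : 1 ≤ N0)
    {δ : ℝ} (hδ : 0 < δ) (hδ1 : δ ≤ 1 / 2) {F : Finset ℕ} (hF : ∀ k ∈ F, N0 ≤ k ∨ k = 0) :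
    ∑ k ∈ F, |ftW W (2 * a) δ k| ≤ CW W Q0 * ((N0:ℝ) ^ (-δ) * (2 / δ) ^ ((2 * (K + 1)) ^ 2)) := by
  have h1 : ∑ k ∈ F, |ftW W (2 * a) δ k| ≤ ∑ k ∈ F.filter (fun k => N0 ≤ k),
      |(Ws W (1 / 2 + δ) * dA (2 * a)) (k * k) * ((k * k : ℕ) : ℝ) ^ (-(1 / 2 + δ)) * (kap 2 * hk k)| := by
    rw [sum_filter]
    refine sum_le_sum fun k hk => ?_
    split_ifs with h
    · unfold ftW
      split_ifs
      · exact le_rfl
      · rw [abs_zero]; exact abs_nonneg _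
    · rcases hF k hk with h2 | h2
      · exact absurd h2 h
      · subst h2; unfold ftW; simp
  refine h1.trans (sq_partC (K := K + 1) (by omega) (CW_pos W Q0) (g := fun n => (Ws W (1 / 2 + δ) * dA (2 * a)) n)
    (fun n => tw_abs hW (by linarith) (fun m => ?_) n) hN0 hδ (by linarith) fun k hk => (mem_filter.mp hk).2)
  refine dv_abs_le ?_ m
  rw [abs_mul, abs_two]; push_cast; linarith

lemma ftW_summable {W : ArithmeticFunction ℝ} {Q0 : ℕ} (hW : ∀ n : ℕ, Q0 < n → W n = 0) {K : ℕ} (hK : 1 ≤ K) {a : ℝ}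
    (ha : |a| ≤ K) {δ : ℝ} (hδ : 0 < δ) (hδ1 : δ ≤ 1 / 2) :
    Summable (ftW W (2 * a) δ) := by
  rw [← summable_abs_iff]
  refine summable_of_sum_le (fun k => abs_nonneg _) (c := CW W Q0 * ((1:ℝ) ^ (-δ) * (2 / δ) ^ ((2 * (K + 1)) ^ 2))) fun F => ?_
  have := ftW_part hW hK ha (N0 := 1) le_rfl hδ hδ1 (F := F) (fun k _ => by omega)
  simpa using this

lemma mul_high {A B : ArithmeticFunction ℝ} {N M : ℕ} (hA : ∀ n : ℕ, N < n → A n = 0) (hB : ∀ n : ℕ, M < n → B n = 0) :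
    ∀ n : ℕ, N * M < n → (A * B) n = 0 := by
  intro n hn
  rw [ArithmeticFunction.mul_apply]
  refine sum_eq_zero fun x hx => ?_
  rw [Nat.mem_divisorsAntidiagonal] at hx
  rcases le_or_gt x.1 N with h1 | h1
  · rcases le_or_gt x.2 M with h2 | h2
    · exfalso
      have : x.1 * x.2 ≤ N * M := Nat.mul_le_mul h1 h2
      omega
    · rw [hB _ h2, mul_zero]
  · rw [hA _ h1, zero_mul]

/-- the twisted average of the squares -/
theorem avg_W {ε : ℤ} (hε : ε = 1 ∨ ε = -1) {W : ArithmeticFunction ℝ} {Q0 : ℕ} (hQ0 : 1 ≤ Q0)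
    (hW : ∀ n : ℕ, Q0 < n → W n = 0) {K : ℕ} (hK : 1 ≤ K) {N : ℕ} (hN : 1 ≤ N) {δ : ℝ} (hδ : 0 < δ)
    (hδ1 : δ ≤ 1 / 2) {a : ℝ} (ha : |a| ≤ K) (X : ℕ) :
    |∑ d ∈ fam X, thW ε W Q0 d * zp ε δ N d a ^ 2 - X * (kap 2 * SW W (2 * a) δ)| ≤
      CW W Q0 * (X * (2 * ((N:ℝ) ^ (-(δ / 2)) * (2 / δ) ^ ((2 * (K + 1)) ^ 2))) +
        42 * Real.sqrt X * (((Q0 * N : ℕ)) : ℝ) ^ (4 * (K + 1) + 4)) := by
  have hC := CW_pos W Q0
  set C := CW W Q0 with hCdef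
  set A := Y746.OA.tr N (dA a) with hA
  have hAa : ∀ n, |A n| ≤ dv K n := fun n => tr_abs_le (B := dA (K:ℝ)) (fun n => dv_abs_le ha n) n
  set Bf : ArithmeticFunction ℝ := Ws W (1 / 2 + δ) * (A * A) with hBf
  have hWs : ∀ n : ℕ, Q0 < n → Ws W (1 / 2 + δ) n = 0 := fun n hn => by rw [Ws_apply, hW n hn, zero_mul]
  have hAA : ∀ n : ℕ, N * N < n → (A * A) n = 0 := conv_high (tr_high N _)
  have hBh : ∀ n : ℕ, Q0 * (N * N) < n → Bf n = 0 := mul_high hWs hAA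
  have hBa : ∀ n, |Bf n| ≤ C * dv ((2 * (K + 1) : ℕ) : ℝ) n := fun n => tw_abs hW (by linarith) (conv_abs hAa) n
  set M := Q0 * N with hM
  have hMM : Q0 * (N * N) ≤ M * M := by rw [hM]; nlinarith
  have e1 : ∑ d ∈ fam X, thW ε W Q0 d * zp ε δ N d a ^ 2 = ∑ d ∈ fam X, PQ ε (1 / 2 + δ) (fun n => Bf n) (M * M) d :=
    sum_congr rfl fun d _ => by
      rw [PQ_mono ε (1 / 2 + δ) (fun n => Bf n) hMM hBh d, hBf, PQ_mul ε _ _ _ hWs hAA d, thW_PQ,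
        PQ_mul ε _ A A (tr_high N _) (tr_high N _) d, pow_two]; rfl
  rw [e1]
  have h1 := PQ_avg hε (by linarith : (0:ℝ) ≤ 1 / 2 + δ) (fun n => Bf n) (M * M) X
  have h2 : ∑ n ∈ Icc 1 (M * M), |Bf n| ≤ C * (((M * M : ℕ) : ℝ)) ^ (2 * (K + 1) + 1) := by
    have h3 := l1_poly (g := fun n => Bf n / C) (K := 2 * (K + 1)) (fun n => by
      rw [abs_div, abs_of_pos hC, div_le_iff₀ hC, mul_comm]; exact hBa n) (M * M)
    have h4 : ∑ n ∈ Icc 1 (M * M), |Bf n| = C * ∑ n ∈ Icc 1 (M * M), |Bf n / C| := by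
      rw [mul_sum]
      refine sum_congr rfl fun n _ => ?_
      rw [abs_div, abs_of_pos hC]
      field_simp
    rw [h4]
    exact mul_le_mul_of_nonneg_left h3 hC.le
  rw [wt_sum (fun n => Bf n * (n:ℝ) ^ (-(1 / 2 + δ))) M] at h1
  set g : ℕ → ℝ := fun k => Bf (k * k) * ((k * k : ℕ) : ℝ) ^ (-(1 / 2 + δ)) * (kap 2 * hk k) with hg
  set s := Nat.sqrt N with hs
  set E := C * ((N:ℝ) ^ (-(δ / 2)) * (2 / δ) ^ ((2 * (K + 1)) ^ 2)) with hE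
  have hsE : C * (((s + 1 : ℕ) : ℝ) ^ (-δ) * (2 / δ) ^ ((2 * (K + 1)) ^ 2)) ≤ E :=
    mul_le_mul_of_nonneg_left (mul_le_mul_of_nonneg_right (sqrt_bd hN hδ) (by positivity)) hC.le
  -- the tail of the series
  have h3 : |∑' k, ftW W (2 * a) δ k - ∑ k ∈ Icc 1 s, ftW W (2 * a) δ k| ≤ E := by
    refine tsum_sub_sum (ftW_summable hW hK ha hδ hδ1) _ fun F hF => ?_
    refine (abs_sum_le_sum_abs _ _).trans ((ftW_part hW hK ha (N0 := s + 1) (by omega) hδ hδ1 fun k hk => ?_).trans hsE)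
    have : k ∉ Icc 1 s := fun h => (Finset.disjoint_left.mp hF) hk h
    rw [mem_Icc] at this
    omega
  -- the polynomial
  have h4 : ∑ k ∈ (Icc 1 M).filter (fun k => Odd k), g k = ∑ k ∈ Icc 1 s, ftW W (2 * a) δ k +
      ∑ k ∈ ((Icc 1 M).filter (fun k => Odd k)).filter (fun k => ¬ k ≤ s), g k := by
    rw [← sum_filter_add_sum_filter_not ((Icc 1 M).filter (fun k => Odd k)) (fun k => k ≤ s)]
    congr 1
    rw [filter_filter, sum_filter]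
    have hsN : s ≤ M := (Nat.sqrt_le_self N).trans (by rw [hM]; nlinarith)
    have h5 : ∑ k ∈ Icc 1 s, ftW W (2 * a) δ k = ∑ k ∈ Icc 1 M, if k ≤ s then ftW W (2 * a) δ k else 0 := by
      rw [← sum_filter]
      refine sum_congr ?_ fun _ _ => rfl
      ext k
      rw [mem_filter, mem_Icc, mem_Icc]
      omega
    rw [h5]
    refine sum_congr rfl fun k _ => ?_
    by_cases h6 : k ≤ s
    · rw [if_pos h6]
      unfold ftW
      by_cases h7 : Odd k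
      · rw [if_pos h7, if_pos ⟨h7, h6⟩]
        have h8 : k * k ≤ N := (Nat.mul_self_le_mul_self h6).trans (Nat.sqrt_le N)
        have h9 : Bf (k * k) = (Ws W (1 / 2 + δ) * dA (2 * a)) (k * k) := by
          rw [hBf, ArithmeticFunction.mul_apply, ArithmeticFunction.mul_apply]
          refine sum_congr rfl fun x hx => ?_
          have h10 := (div_le_of_mem hx).2
          rw [hA, tr_mul_low (h10.trans h8), dA_mul]
          congr 3; ring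
        rw [hg]
        show Bf (k * k) * _ * _ = _
        rw [h9]
      · rw [if_neg h7, if_neg (fun h => h7 h.1)]
    · rw [if_neg h6, if_neg (fun h => h6 h.2)]
  have h5 : |∑ k ∈ ((Icc 1 M).filter (fun k => Odd k)).filter (fun k => ¬ k ≤ s), g k| ≤ E := by
    refine (abs_sum_le_sum_abs _ _).trans ((sq_partC (K := K + 1) (by omega) hC (g := fun n => Bf n) hBa (N0 := s + 1) (by omega)
      hδ (by linarith) fun k hk => ?_).trans hsE)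
    have := (mem_filter.mp hk).2
    omega
  rw [ftW_tsum] at h3
  have h6 : |∑ k ∈ (Icc 1 M).filter (fun k => Odd k), g k - kap 2 * SW W (2 * a) δ| ≤ 2 * E := by
    rw [h4]
    rw [abs_le] at h3 h5 ⊢
    constructor <;> linarith [h3.1, h3.2, h5.1, h5.2]
  have hX : 0 ≤ Real.sqrt X := Real.sqrt_nonneg _
  have h7 : (((M * M : ℕ) : ℝ)) * ∑ n ∈ Icc 1 (M * M), |Bf n| ≤ C * (M:ℝ) ^ (4 * (K + 1) + 4) := by
    calc (((M * M : ℕ) : ℝ)) * ∑ n ∈ Icc 1 (M * M), |Bf n| ≤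
          (((M * M : ℕ) : ℝ)) * (C * (((M * M : ℕ) : ℝ)) ^ (2 * (K + 1) + 1)) := by gcongr
      _ = _ := by push_cast; ring
  have h8 : 42 * Real.sqrt X * ((((M * M : ℕ) : ℝ)) * ∑ n ∈ Icc 1 (M * M), |Bf n|) ≤
      42 * Real.sqrt X * (C * (M:ℝ) ^ (4 * (K + 1) + 4)) :=
    mul_le_mul_of_nonneg_left h7 (by positivity)
  have h9 : |(X:ℝ) * ∑ k ∈ (Icc 1 M).filter (fun k => Odd k), g k - X * (kap 2 * SW W (2 * a) δ)| ≤ X * (2 * E) := by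
    rw [← mul_sub, abs_mul, abs_of_nonneg (Nat.cast_nonneg _ : (0:ℝ) ≤ X)]
    exact mul_le_mul_of_nonneg_left h6 (Nat.cast_nonneg _)
  have h10 := h1.trans h8
  have e2 : C * (X * (2 * ((N:ℝ) ^ (-(δ / 2)) * (2 / δ) ^ ((2 * (K + 1)) ^ 2))) +
        42 * Real.sqrt X * (M : ℝ) ^ (4 * (K + 1) + 4)) = X * (2 * E) + 42 * Real.sqrt X * (C * (M:ℝ) ^ (4 * (K + 1) + 4)) := by
    rw [hE]; ring
  rw [e2]
  rw [abs_le] at h9 h10 ⊢
  constructor <;> linarith [h9.1, h9.2, h10.1, h10.2]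

lemma SW_abs {W : ArithmeticFunction ℝ} {Q0 : ℕ} (hW : ∀ n : ℕ, Q0 < n → W n = 0) {K : ℕ} (hK : 1 ≤ K) {a : ℝ}
    (ha : |a| ≤ K) {δ : ℝ} (hδ : 0 < δ) (hδ1 : δ ≤ 1 / 2) :
    |kap 2 * SW W (2 * a) δ| ≤ CW W Q0 * (2 / δ) ^ ((2 * (K + 1)) ^ 2) := by
  rw [← ftW_tsum]
  have h := (ftW_summable hW hK ha hδ hδ1).abs
  refine (norm_tsum_le_tsum_norm (f := ftW W (2 * a) δ) h).trans ?_
  refine h.tsum_le_of_sum_le fun F => ?_
  have := ftW_part hW hK ha (N0 := 1) le_rfl hδ hδ1 (F := F) (fun k _ => by omega)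
  simpa using this

end

end Pool.Agent.X110.QF
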