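import Pool.Agent.X110.QG2

set_option autoImplicit false

/-! The assembly. -/

namespace Pool.Agent.X110.QF

open Finset Filter Topology
open Pool.Agent.H306R2 Pool.Agent.Y746.OA

noncomputable section

theorem asm {ε : ℤ} (hε : ε = 1 ∨ ε = -1) {v : ℕ → ℝ → ℝ} (hv : Hyp ε v) {K : ℕ} (hK : 1 ≤ K) :
    ∃ c : ℝ, 0 < c ∧ ∀ B : ℕ, ∃ (A : ℕ) (C : ℝ) (X0 : ℕ), 0 < C ∧ ∀ X : ℕ, X0 ≤ X → ∀ δ : ℝ,
      C * Real.log (Real.log X) / Real.log X ≤ δ → δ ≤ 1 / 16 → ∀ V : ℝ, Real.log X ^ A ≤ V → V ≤ (X:ℝ) ^ (c * δ) →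
      ∑ d ∈ fam X, ib V (v d (1 / 2 + δ)) ≤ (#(fam X) : ℝ) * (Real.log X ^ B)⁻¹ ∧
      ∀ β : ℝ, |β| ≤ K → |(∑ d ∈ fam X, tp V (β / 2) (v d (1 / 2 + δ))) / (#(fam X) : ℝ) - SQ β δ| ≤ (Real.log X ^ B)⁻¹ := by
  obtain ⟨r, C1, c0, L1, hC1, hc0, hr0, hr1, hr2, hM⟩ := hv
  set k : ℕ := 2 * (K + 1) with hk
  set E0 : ℕ := (4 * k) ^ 2 with hE0
  have hE16 : 16 ≤ E0 := by rw [hE0, hk]; nlinarith
  obtain ⟨q0, hq0⟩ := exists_nat_ge (1 / c0)
  set Q : ℕ := 16 * k + 8 + 200 + q0 with hQ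
  set R : ℕ := 2 * K with hR
  have hQr : (0:ℝ) < Q := by exact_mod_cast (by omega : 0 < Q)
  have hRr : (0:ℝ) < R := by exact_mod_cast (by omega : 0 < R)
  refine ⟨1 / (128 * Q * R), by positivity, fun B => ?_⟩
  set P : ℕ := 2 * (E0 + B + 3) with hP
  set C2 : ℝ := 900000 + 1600 * C1 with hC2
  have hC20 : 0 < C2 := by positivity
  set bb : ℝ := (K:ℝ) + 2 with hbb
  have hbb0 : 0 < bb := by positivity
  set C3 : ℝ := 192 * bb + 240 + 2 * C2 + 12 + 13 with hC3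
  have hC30 : 0 < C3 := by positivity
  set C4 : ℝ := 16 * (C3 + 336) + 16 * (48 + C2) with hC4
  have hC40 : 0 < C4 := by positivity
  set L0 : ℝ := |L1| + 16 * bb + C4 * 2 ^ B + 700 with hL0
  obtain ⟨C, T0, hC0, hpar⟩ := Pool.Agent.Y746.CS.par Q P R (by omega) (by omega) L0
  refine ⟨E0 + B + 1, 2 * C, ⌈(max T0 1) ^ 2⌉₊ + 100, by positivity, fun X hX δ hδ hδ1 V hV1 hV2 => ?_⟩
  -- the variable T
  set T : ℝ := Real.sqrt X with hT
  have hX1 : (max T0 1) ^ 2 ≤ X := (Nat.le_ceil _).trans (by exact_mod_cast (by omega : ⌈(max T0 1) ^ 2⌉₊ ≤ X))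
  have hX100 : (100:ℝ) ≤ X := by exact_mod_cast (by omega : 100 ≤ X)
  have hXpos : (0:ℝ) < X := by linarith
  have hmT : max T0 1 ≤ T := Real.le_sqrt_of_sq_le hX1
  have hT0T : T0 ≤ T := (le_max_left _ _).trans hmT
  have hXT : (X:ℝ) = T ^ 2 := (Real.sq_sqrt hXpos.le).symm
  have hlogT : Real.log T = Real.log X / 2 := Real.log_sqrt hXpos.le
  have hlX4 : 4 ≤ Real.log X := by
    rw [Real.le_log_iff_exp_le hXpos]
    have := Real.exp_one_lt_d9
    have h9 : Real.exp 4 = Real.exp 1 ^ 4 := by rw [← Real.exp_nat_mul]; congr 1; norm_num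
    rw [h9]
    calc Real.exp 1 ^ 4 ≤ 2.7182818286 ^ 4 := pow_le_pow_left₀ (Real.exp_pos _).le (by linarith) 4
      _ ≤ 100 := by norm_num
      _ ≤ _ := hX100
  have hδ' : C * Real.log (Real.log T) / Real.log T ≤ δ := by
    refine le_trans ?_ hδ
    rw [hlogT]
    have h1 : Real.log (Real.log X / 2) ≤ Real.log (Real.log X) := Real.log_le_log (by linarith) (by linarith)
    have e1 : 2 * C * Real.log (Real.log X) / Real.log X = C * Real.log (Real.log X) / (Real.log X / 2) := by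
      field_simp
    rw [e1]
    exact div_le_div_of_nonneg_right (mul_le_mul_of_nonneg_left h1 hC0.le) (by linarith)
  obtain ⟨hT4, hL24, hLL0, hTL0, hδ0, h2δ, h1L, N, w, hN, _, hw1, hNQ, hNδ, _, hwP, hVw⟩ := hpar T hT0T δ hδ' hδ1
  set L : ℝ := Real.log T with hL
  have hlX : Real.log X = 2 * L := by rw [hlogT]; ring
  have hTpos : 0 < T := by linarith
  have hTL : T = Real.exp L := (Real.exp_log hTpos).symm
  have hL1 : 1 ≤ L := by linarith
  have hLpos : 0 < L := by linarith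
  have hw0 : 0 < w := by linarith
  have hwE : L ^ E0 ≤ w := (pow_le_pow_right₀ hL1 (by omega)).trans hwP
  have hw16 : L ^ 16 ≤ w := (pow_le_pow_right₀ hL1 (by omega)).trans hwP
  have hwL : L ≤ w := by
    have : L ^ 1 ≤ L ^ P := pow_le_pow_right₀ hL1 (by omega)
    rw [pow_one] at this
    exact this.trans hwP
  -- the powers of V
  have hLX1 : 1 ≤ Real.log X := by linarith
  have hVL : L ^ (E0 + B + 1) ≤ V := (pow_le_pow_left₀ hLpos.le (by linarith) _).trans hV1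
  have hV1' : 1 ≤ V := (one_le_pow₀ hL1).trans hVL
  have hVT : V ≤ T ^ (δ / (64 * Q * R)) := by
    refine hV2.trans (le_of_eq ?_)
    rw [hXT, ← Real.rpow_natCast, ← Real.rpow_mul hTpos.le]
    congr 1
    push_cast
    field_simp
    norm_num
  have hVR : V ^ R ≤ w := hVw V hV1' hVT
  -- mean squares
  obtain ⟨sz1, sz2, sz3, sz4⟩ := sizeP hTL hL24 hN hδ0 hδ1 hw1 hNQ (by omega : 200 ≤ Q) hNδ
  obtain ⟨g1, g2, g3, g4⟩ := msP hε (k := k) (by omega) hXT rfl hTpos hN hδ0 hδ1 h2δ hw1 hNQ (by omega) hNδ hL1 hwE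
  have g5 := m2P hε hr0 hr1 hr2 hXT rfl hTL hL24 hN hδ0 hδ1 h2δ hw1 hNQ (by omega) hNδ hw16
  have g6 : ∑ d ∈ fam X, (1 - v d (1 / 2 + δ) * mv ε δ r X d) ^ 2 ≤ C1 * X * (w ^ 16)⁻¹ := by
    have h1 : L1 ≤ Real.log X := by
      have : L1 ≤ |L1| := le_abs_self _
      have : 0 ≤ C4 * 2 ^ B := by positivity
      linarith
    have h2 : 1 ≤ δ * Real.log X := by
      rw [hlX]
      have : 1 ≤ δ * L := by rwa [div_le_iff₀ hLpos] at h1L
      linarith
    refine (hM X h1 δ h2 (by linarith)).trans ?_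
    have h3 : Real.exp (-(c0 * (δ * Real.log X))) ≤ (w ^ 16)⁻¹ := by
      rw [Real.exp_neg]
      refine inv_anti₀ (by positivity) (sz4.trans (Real.exp_le_exp.mpr ?_))
      have hq1 : 1 / c0 ≤ Q := hq0.trans (by exact_mod_cast (by omega : q0 ≤ Q))
      have h4 : 1 ≤ c0 * Q := by rwa [div_le_iff₀ hc0, mul_comm] at hq1
      have h5 : L / Q ≤ c0 * L := by
        rw [div_le_iff₀ hQr]
        nlinarith
      rw [hlX]
      have h6 : δ * (L / Q) ≤ δ * (c0 * L) := mul_le_mul_of_nonneg_left h5 hδ0.le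
      nlinarith [mul_pos hδ0 (mul_pos hc0 hLpos)]
    calc (X:ℝ) * (C1 * Real.exp (-(c0 * (δ * Real.log X)))) ≤ X * (C1 * (w ^ 16)⁻¹) := by gcongr
      _ = _ := by ring
  -- the exponents
  have hb : ∀ β : ℝ, |β| ≤ K → |β / 2| + 1 ≤ (K:ℝ) + 1 := by
    intro β hβ
    rw [abs_div, abs_two]
    have := abs_nonneg β
    linarith
  have hkr : ((k:ℕ):ℝ) = 2 * ((K:ℝ) + 1) := by rw [hk]; push_cast; ring
  have hK0 : (0:ℝ) ≤ K := Nat.cast_nonneg K
  set J : ℕ := ⌈4 * L⌉₊ with hJ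
  have hρ : rho ((K:ℝ) + 1) (w ^ 2) (1 / (8 * w ^ 5)) J ≤ bb * (4 * w⁻¹) := by
    have := rho_bound (b := (K:ℝ) + 1) (by positivity) hw1 hL24 (sz3.trans (Real.exp_le_exp.mpr (by linarith)))
    rw [show (K:ℝ) + 1 + 1 = bb by rw [hbb]; ring] at this
    exact this
  have hρ4 : rho ((K:ℝ) + 1) (w ^ 2) (1 / (8 * w ^ 5)) J ≤ 1 / 4 := by
    refine hρ.trans ?_
    have h1 : 16 * bb ≤ w := by
      have : 0 ≤ |L1| := abs_nonneg _
      have : 0 ≤ C4 * 2 ^ B := by positivity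
      linarith
    rw [← div_eq_mul_inv, ← mul_div_assoc, div_le_iff₀ hw0]
    linarith
  have hWe : 8 * (w ^ 2) ^ 2 * (1 / (8 * w ^ 5)) ≤ 1 := by
    have e1 : 8 * (w ^ 2) ^ 2 * (1 / (8 * w ^ 5)) = w⁻¹ := by field_simp
    rw [e1]
    exact inv_le_one_of_one_le₀ hw1
  -- the cost
  have hRS : ∀ β : ℝ, |β| ≤ K → ∑ d ∈ fam X, RR (zp ε δ N d) (Ex ((K:ℝ) + 1) (β / 2) J) (w ^ 2) (1 / (8 * w ^ 5))
      (v d (1 / 2 + δ)) (mv ε δ r X d) ≤ X * (C2 * L ^ (E0 + 2) * w⁻¹) := by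
    intro β hβ
    have hb1 := hb β hβ
    have hEbd : ∀ a ∈ Ex ((K:ℝ) + 1) (β / 2) J, |a| ≤ k := by
      intro a ha
      rw [hkr]
      exact Ex_bd (by linarith) (by linarith) ha
    have h12 : |(1 / 2 : ℝ)| ≤ k := by rw [hkr, abs_of_pos (by norm_num)]; linarith
    have h1 := RS_le (ε := ε) (δ := δ) (N := N) (X := X) (E := Ex ((K:ℝ) + 1) (β / 2) J) (W := w ^ 2) (e := 1 / (8 * w ^ 5))
      (v := fun d => v d (1 / 2 + δ)) (m := fun d => mv ε δ r X d)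
      (fun a ha b hb => g1 a b (hEbd a ha) (hEbd b hb)) (g1 _ _ h12 h12) (fun a ha => g2 a (hEbd a ha)) g6 g5
    refine h1.trans ?_
    refine numR (n := (#(Ex ((K:ℝ) + 1) (β / 2) J) : ℝ)) (Nat.cast_nonneg _) ?_ hXpos.le hw1 hL1 hC1.le le_rfl le_rfl le_rfl le_rfl
    have h2 := Ex_card ((K:ℝ) + 1) (β / 2) J
    have h3 : (#(Ex ((K:ℝ) + 1) (β / 2) J) : ℝ) ≤ 8 * J + 16 := by exact_mod_cast h2
    have h4 : (J:ℝ) ≤ 4 * L + 1 := (Nat.ceil_lt_add_one (by positivity)).le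
    linarith
  -- the family
  have hF := fam_card X
  rw [← hT] at hF
  have hF16 : (X:ℝ) / 16 ≤ (#(fam X) : ℝ) := by
    have h1 := (abs_le.mp hF).1
    have h2 := kap_two_pos
    have h3 : (X:ℝ) * (1 / 8) ≤ X * kap 2 := mul_le_mul_of_nonneg_left h2 hXpos.le
    have h4 : 672 ≤ T := by
      have : 0 ≤ |L1| := abs_nonneg _
      have : 0 ≤ C4 * 2 ^ B := by positivity
      linarith
    have h5 : 42 * T ≤ (X:ℝ) / 16 := by rw [hXT]; nlinarith
    linarith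
  have hFpos : 0 < (#(fam X) : ℝ) := lt_of_lt_of_le (by positivity) hF16
  -- constants
  have hqB : C4 * (L ^ (B + 1))⁻¹ ≤ (Real.log X ^ B)⁻¹ := by
    refine inv_of_mul_le (by positivity) (by positivity) ?_
    rw [hlX, mul_pow, pow_succ L B]
    have h1 : C4 * 2 ^ B ≤ L := by
      have : 0 ≤ |L1| := abs_nonneg _
      linarith
    calc C4 * (2 ^ B * L ^ B) = (C4 * 2 ^ B) * L ^ B := by ring
      _ ≤ L * L ^ B := by gcongr
      _ = _ := by ring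
  set q : ℝ := (L ^ (B + 1))⁻¹ with hq
  have hq0 : 0 < q := by positivity
  have hXF : (X:ℝ) ≤ 16 * (#(fam X) : ℝ) := by linarith
  constructor
  · -- exceptional set
    obtain ⟨f1, f2, f3, f4, f5, f6, f7, f8⟩ := facts (Vb := 0) hL1 hw1 hwP hP hV1' hVL rfl (by simp; linarith)
    have hβ : |(0:ℝ)| ≤ K := by simp
    have h0 : |(0:ℝ) / 2| + 1 ≤ (K:ℝ) + 1 := hb 0 hβ
    have hb2 : |(K:ℝ) + 1| ≤ k := by rw [hkr, abs_of_nonneg (by positivity)]; linarith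
    have hb3 : |-((K:ℝ) + 1)| ≤ k := by rw [abs_neg]; exact hb2
    have hb0 : |(0:ℝ) / 2| ≤ k := by simp
    have := (sumA hN h0 (J := J) (V := V) (W := w ^ 2) (e := 1 / (8 * w ^ 5)) (Y := 1) (v := fun d => v d (1 / 2 + δ))
      (m := fun d => mv ε δ r X d) hV1' (one_le_pow₀ hw1) (by positivity) hWe one_pos hρ4 (g2 _ hb0) (g2 _ hb2) (g2 _ hb3)
      (g3 _ hb0) (hRS 0 hβ)).2
    refine this.trans ?_
    calc 2 * (V ^ 2)⁻¹ * (12 * ↑X * L ^ E0 + 12 * ↑X * L ^ E0) + ↑X * (C2 * L ^ (E0 + 2) * w⁻¹)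
        = X * (48 * (L ^ E0 * (V ^ 2)⁻¹) + C2 * (L ^ (E0 + 2) * w⁻¹)) := by ring
      _ ≤ X * (48 * q + C2 * q) := by gcongr
      _ ≤ (16 * (#(fam X) : ℝ)) * (48 * q + C2 * q) := by gcongr
      _ = (#(fam X) : ℝ) * ((16 * (48 + C2)) * q) := by ring
      _ ≤ (#(fam X) : ℝ) * (C4 * q) := by
        refine mul_le_mul_of_nonneg_left (mul_le_mul_of_nonneg_right ?_ hq0.le) hFpos.le
        rw [hC4]; linarith
      _ ≤ _ := mul_le_mul_of_nonneg_left hqB hFpos.le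
  · intro β hβ
    have hVK : (V ^ |β|) ^ 2 ≤ w := by
      refine le_trans ?_ hVR
      have h1 : V ^ |β| ≤ V ^ (K:ℝ) := Real.rpow_le_rpow_of_exponent_le hV1' hβ
      rw [Real.rpow_natCast] at h1
      calc (V ^ |β|) ^ 2 ≤ (V ^ K) ^ 2 := pow_le_pow_left₀ (by positivity) h1 2
        _ = V ^ R := by rw [← pow_mul, hR, mul_comm]
    obtain ⟨f1, f2, f3, f4, f5, f6, f7, f8⟩ := facts (Vb := V ^ |β|) hL1 hw1 hwP hP hV1' hVL rfl hVK
    have h0 := hb β hβ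
    have hb2 : |(K:ℝ) + 1| ≤ k := by rw [hkr, abs_of_nonneg (by positivity)]; linarith
    have hb3 : |-((K:ℝ) + 1)| ≤ k := by rw [abs_neg]; exact hb2
    have hb0 : |β / 2| ≤ k := by rw [hkr]; linarith
    set Y : ℝ := L ^ (E0 + B + 1) with hY
    have hY0 : 0 < Y := by positivity
    have hs := (sumA hN h0 (J := J) (V := V) (W := w ^ 2) (e := 1 / (8 * w ^ 5)) (Y := Y) (v := fun d => v d (1 / 2 + δ))
      (m := fun d => mv ε δ r X d) hV1' (one_le_pow₀ hw1) (by positivity) hWe hY0 hρ4 (g2 _ hb0) (g2 _ hb2) (g2 _ hb3)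
      (g3 _ hb0) (hRS β hβ)).1
    have e2β : |2 * (β / 2)| = |β| := by congr 1; ring
    rw [e2β] at hs
    have ha := g4 (β / 2) hb0
    rw [show 2 * (β / 2) = β by ring] at ha
    have hnum := numF (X := (X:ℝ)) (L := L) (w := w) (V := V) (Vb := V ^ |β|) (C2 := C2) (bb := bb)
      (ρ := rho ((K:ℝ) + 1) (w ^ 2) (1 / (8 * w ^ 5)) J) (q := q) (Y := Y) (E0 := E0)
      hXpos.le hLpos.le hC20.le hbb0.le hρ f1 f2 f3 f4 f5 f6 f7 (le_refl _)
    have htot : |∑ d ∈ fam X, tp V (β / 2) (v d (1 / 2 + δ)) - X * (kap 2 * SQ β δ)| ≤ X * (C3 * q) := by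
      have e1 : ∑ d ∈ fam X, tp V (β / 2) (v d (1 / 2 + δ)) - X * (kap 2 * SQ β δ) =
          (∑ d ∈ fam X, tp V (β / 2) (v d (1 / 2 + δ)) - ∑ d ∈ fam X, zp ε δ N d (β / 2) ^ 2) +
          (∑ d ∈ fam X, zp ε δ N d (β / 2) ^ 2 - X * (kap 2 * SQ β δ)) := by ring
      rw [e1]
      refine (abs_add_le _ _).trans ((add_le_add hs ha).trans ?_)
      rw [hC3]
      exact hnum
    -- normalisation
    have hSQ : |SQ β δ| ≤ 8 * L ^ E0 := by
      have h1 := SQ_abs (K := k) (by omega) hb0 hδ0 (by linarith)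
      rw [show 2 * (β / 2) = β by ring, abs_mul, abs_of_nonneg kap_two_nonneg] at h1
      have h2 := kap_two_pos
      have h3 : (2 / δ) ^ ((2 * k) ^ 2) ≤ L ^ E0 := by
        refine (pow_le_pow_left₀ (by positivity) h2δ _).trans (pow_le_pow_right₀ hL1 ?_)
        rw [hE0]
        gcongr; omega
      have h4 : 1 / 8 * |SQ β δ| ≤ kap 2 * |SQ β δ| := mul_le_mul_of_nonneg_right h2 (abs_nonneg _)
      linarith
    have hTw : L ^ E0 * T ≤ X * q := by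
      have h1 : w ≤ T := by
        have h2 : w ≤ w ^ 16 := by
          calc w = w ^ 1 := (pow_one w).symm
            _ ≤ w ^ 16 := pow_le_pow_right₀ hw1 (by norm_num)
        rw [hTL]
        exact h2.trans (sz3.trans (Real.exp_le_exp.mpr (by linarith)))
      rw [hXT]
      have h3 : L ^ E0 ≤ q * w := by
        have := f1
        rwa [← div_eq_mul_inv, div_le_iff₀ hw0] at this
      have h4 : L ^ E0 ≤ q * T := h3.trans (mul_le_mul_of_nonneg_left h1 hq0.le)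
      calc L ^ E0 * T ≤ (q * T) * T := mul_le_mul_of_nonneg_right h4 hTpos.le
        _ = _ := by ring
    have hfin : |(∑ d ∈ fam X, tp V (β / 2) (v d (1 / 2 + δ))) / (#(fam X) : ℝ) - SQ β δ| ≤ 16 * (C3 + 336) * q := by
      rw [div_sub' hFpos.ne', abs_div, abs_of_pos hFpos, div_le_iff₀ hFpos]
      have e1 : ∑ d ∈ fam X, tp V (β / 2) (v d (1 / 2 + δ)) - (#(fam X) : ℝ) * SQ β δ =
          (∑ d ∈ fam X, tp V (β / 2) (v d (1 / 2 + δ)) - X * (kap 2 * SQ β δ)) -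
          ((#(fam X) : ℝ) - X * kap 2) * SQ β δ := by ring
      rw [e1]
      refine (abs_sub _ _).trans ?_
      rw [abs_mul]
      calc |∑ d ∈ fam X, tp V (β / 2) (v d (1 / 2 + δ)) - X * (kap 2 * SQ β δ)| + |(#(fam X) : ℝ) - X * kap 2| * |SQ β δ|
          ≤ X * (C3 * q) + (42 * T) * (8 * L ^ E0) := by
            refine add_le_add htot (mul_le_mul hF hSQ (abs_nonneg _) (by positivity))
        _ = X * (C3 * q) + 336 * (L ^ E0 * T) := by ring
        _ ≤ X * (C3 * q) + 336 * (X * q) := by gcongr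
        _ = X * ((C3 + 336) * q) := by ring
        _ ≤ (16 * (#(fam X) : ℝ)) * ((C3 + 336) * q) := by gcongr
        _ = _ := by ring
    refine hfin.trans (le_trans ?_ hqB)
    refine mul_le_mul_of_nonneg_right ?_ hq0.le
    rw [hC4]
    have : 0 < 16 * (48 + C2) := by positivity
    linarith

end

end Pool.Agent.X110.QF
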