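import Pool.Agent.X110.LW1
import Pool.Agent.X110.QG3

set_option autoImplicit false

/-! The twisted assembly. -/

namespace Pool.Agent.X110.QF

open Finset Filter Topology
open Pool.Agent.H306R2 Pool.Agent.Y746.OA

noncomputable section

lemma msW {ε : ℤ} (hε : ε = 1 ∨ ε = -1) {W : ArithmeticFunction ℝ} {Q0 : ℕ} (hQ0 : 1 ≤ Q0)
    (hW : ∀ n : ℕ, Q0 < n → W n = 0) {k : ℕ} (hk : 1 ≤ k) {X : ℕ} {T L w δ : ℝ} {N Q : ℕ} (hXT : (X:ℝ) = T ^ 2)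
    (hT : Real.sqrt X = T) (hT0 : 0 < T) (hN : 1 ≤ N) (hδ0 : 0 < δ) (hδ1 : δ ≤ 1 / 16) (h2δ : 2 / δ ≤ L)
    (hw1 : 1 ≤ w) (hNQ : 4 * (N:ℝ) ^ Q ≤ T * (w ^ 16)⁻¹) (hQ : 16 * k + 8 ≤ Q) (hNδ : (N:ℝ) ^ (-δ) ≤ (w ^ 16)⁻¹)
    (hL1 : 1 ≤ L) (hQN : Q0 ≤ N) {a : ℝ} (ha : |a| ≤ k) :
    |∑ d ∈ fam X, thW ε W Q0 d * zp ε δ N d a ^ 2 - X * (kap 2 * SW W (2 * a) δ)| ≤
      CW W Q0 * (X * (2 * (L ^ ((4 * k) ^ 2) * (w ^ 8)⁻¹)) + 11 * X * (w ^ 16)⁻¹) := by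
  have hC := CW_pos W Q0
  have hN1 : (1:ℝ) ≤ N := by exact_mod_cast hN
  have hN0 : (0:ℝ) < N := by linarith
  have hw0 : 0 < w := by linarith
  have hX0 : (0:ℝ) ≤ X := Nat.cast_nonneg _
  have h2δ0 : 0 ≤ 2 / δ := by positivity
  have h42 : 42 * Real.sqrt X * (N:ℝ) ^ (16 * k + 8) ≤ 11 * X * (w ^ 16)⁻¹ := by
    have h1 : (N:ℝ) ^ (16 * k + 8) ≤ (N:ℝ) ^ Q := pow_le_pow_right₀ hN1 hQ
    rw [hT, hXT]
    calc 42 * T * (N:ℝ) ^ (16 * k + 8) ≤ 42 * T * (N:ℝ) ^ Q := by gcongr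
      _ = (42 / 4 * T) * (4 * (N:ℝ) ^ Q) := by ring
      _ ≤ (42 / 4 * T) * (T * (w ^ 16)⁻¹) := by gcongr
      _ = 42 / 4 * (T ^ 2 * (w ^ 16)⁻¹) := by ring
      _ ≤ 11 * (T ^ 2 * (w ^ 16)⁻¹) := by gcongr; norm_num
      _ = _ := by ring
  refine (avg_W hε hQ0 hW hk hN hδ0 (by linarith) ha X).trans (mul_le_mul_of_nonneg_left ?_ hC.le)
  have h1 : (N:ℝ) ^ (-(δ / 2)) ≤ (w ^ 8)⁻¹ := by
    have h2 : ((N:ℝ) ^ (-(δ / 2))) ^ 2 ≤ ((w ^ 8)⁻¹) ^ 2 := by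
      rw [← Real.rpow_natCast, ← Real.rpow_mul hN0.le, inv_pow, ← pow_mul]
      have : -(δ / 2) * ((2:ℕ):ℝ) = -δ := by push_cast; ring
      rw [this]
      exact hNδ
    exact (pow_le_pow_iff_left₀ (by positivity) (by positivity) (by norm_num)).mp h2
  have h3 : (2 / δ) ^ ((2 * (k + 1)) ^ 2) ≤ L ^ ((4 * k) ^ 2) := by
    refine (pow_le_pow_left₀ h2δ0 h2δ _).trans (pow_le_pow_right₀ hL1 ?_)
    exact Nat.pow_le_pow_left (by omega) 2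
  have h4 : ((Q0 * N : ℕ) : ℝ) ^ (4 * (k + 1) + 4) ≤ (N:ℝ) ^ (16 * k + 8) := by
    have h5 : ((Q0 * N : ℕ) : ℝ) ≤ (N:ℝ) ^ 2 := by
      rw [pow_two]
      exact_mod_cast Nat.mul_le_mul_right N hQN
    calc ((Q0 * N : ℕ) : ℝ) ^ (4 * (k + 1) + 4) ≤ ((N:ℝ) ^ 2) ^ (4 * (k + 1) + 4) := pow_le_pow_left₀ (by positivity) h5 _
      _ = (N:ℝ) ^ (2 * (4 * (k + 1) + 4)) := by rw [← pow_mul]
      _ ≤ _ := pow_le_pow_right₀ hN1 (by omega)
  have h5 : 42 * Real.sqrt X * ((Q0 * N : ℕ) : ℝ) ^ (4 * (k + 1) + 4) ≤ 11 * X * (w ^ 16)⁻¹ := by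
    refine le_trans ?_ h42
    gcongr
  refine add_le_add (mul_le_mul_of_nonneg_left ?_ hX0) h5
  have h6 : (N:ℝ) ^ (-(δ / 2)) * (2 / δ) ^ ((2 * (k + 1)) ^ 2) ≤ (w ^ 8)⁻¹ * L ^ ((4 * k) ^ 2) :=
    mul_le_mul h1 h3 (by positivity) (by positivity)
  linarith

/-- the summed comparison, with weights -/
lemma sumAW {ε : ℤ} {δ : ℝ} {N X : ℕ} (hN : 1 ≤ N) {α b : ℝ} (hαb : |α| + 1 ≤ b) {J : ℕ} {V W e Y s RS : ℝ}
    {v m : ℕ → ℝ} {θ : ℕ → ℝ} {C : ℝ} (hC : 0 ≤ C) (hθ : ∀ d, |θ d| ≤ C) (hV : 1 ≤ V) (hW : 1 ≤ W)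
    (he : 0 < e) (hWe : 8 * W ^ 2 * e ≤ 1) (hY : 0 < Y) (hρ : rho b W e J ≤ 1 / 4)
    (hsα : ∑ d ∈ fam X, zp ε δ N d α ^ 2 ≤ s) (hsb : ∑ d ∈ fam X, zp ε δ N d b ^ 2 ≤ s)
    (hsb' : ∑ d ∈ fam X, zp ε δ N d (-b) ^ 2 ≤ s) (hs4 : ∑ d ∈ fam X, zp ε δ N d α ^ 4 ≤ s)
    (hRS : ∑ d ∈ fam X, RR (zp ε δ N d) (Ex b α J) W e (v d) (m d) ≤ RS) :
    |∑ d ∈ fam X, θ d * tp V α (v d) - ∑ d ∈ fam X, θ d * zp ε δ N d α ^ 2| ≤
      C * (4 * rho b W e J * s + 10 * (V ^ 2)⁻¹ * (s + s) + (V ^ |2 * α| + Y) * RS + s / Y) := by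
  have hb1 : 1 ≤ b := by have := abs_nonneg α; linarith
  have hρ0 : 0 ≤ rho b W e J := by
    unfold rho
    have : 0 ≤ Real.log (2 * W) := Real.log_nonneg (by linarith)
    positivity
  have hV0 : 0 < V := by linarith
  have hp := fun d : ℕ => ptq (z := zp ε δ N d) (zp_zero ε δ hN d) hαb (J := J) (V := V) (W := W) (e := e) (Y := Y)
    (v := v d) (m := m d) hV hW he hWe hY hρ
  rw [← sum_sub_distrib]
  have h0 : ∀ d, |θ d * tp V α (v d) - θ d * zp ε δ N d α ^ 2| ≤ C * |tp V α (v d) - zp ε δ N d α ^ 2| := by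
    intro d
    rw [← mul_sub, abs_mul]
    exact mul_le_mul_of_nonneg_right (hθ d) (abs_nonneg _)
  refine (abs_sum_le_sum_abs _ _).trans ((sum_le_sum fun d _ => h0 d).trans ?_)
  rw [← mul_sum]
  refine mul_le_mul_of_nonneg_left ?_ hC
  refine (sum_le_sum fun d _ => (hp d).1).trans ?_
  rw [sum_add_distrib, sum_add_distrib, sum_add_distrib, ← mul_sum, ← mul_sum, ← mul_sum, ← sum_div, sum_add_distrib]
  have h1 : 0 ≤ V ^ |2 * α| + Y := by positivity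
  gcongr

theorem asmW {ε : ℤ} (hε : ε = 1 ∨ ε = -1) {v : ℕ → ℝ → ℝ} (hv : Hyp ε v) {W : ArithmeticFunction ℝ} {Q0 : ℕ}
    (hQ0 : 1 ≤ Q0) (hW : ∀ n : ℕ, Q0 < n → W n = 0) {K : ℕ} (hK : 1 ≤ K) :
    ∃ c : ℝ, 0 < c ∧ ∀ B : ℕ, ∃ (A : ℕ) (C : ℝ) (X0 : ℕ), 0 < C ∧ ∀ X : ℕ, X0 ≤ X → ∀ δ : ℝ,
      C * Real.log (Real.log X) / Real.log X ≤ δ → δ ≤ 1 / 16 → ∀ V : ℝ, Real.log X ^ A ≤ V → V ≤ (X:ℝ) ^ (c * δ) →
      ∀ β : ℝ, |β| ≤ K → |(∑ d ∈ fam X, thW ε W Q0 d * tp V (β / 2) (v d (1 / 2 + δ))) / (#(fam X) : ℝ) - SW W β δ| ≤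
        (Real.log X ^ B)⁻¹ := by
  obtain ⟨r, C1, c0, L1, hC1, hc0, hr0, hr1, hr2, hM⟩ := hv
  have hCW := CW_pos W Q0
  set CWc : ℝ := CW W Q0 with hCWc
  set k : ℕ := 2 * (K + 1) with hk
  set E0 : ℕ := (4 * k) ^ 2 with hE0
  have hE16 : 16 ≤ E0 := by rw [hE0, hk]; nlinarith
  obtain ⟨q0, hq0⟩ := exists_nat_ge (1 / c0)
  set Q : ℕ := 16 * k + 8 + 200 + q0 with hQ
  set R : ℕ := 2 * K with hR
  have hQr : (0:ℝ) < Q := by exact_mod_cast (by omega : 0 < Q)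
  have hRr : (0:ℝ) < R := by exact_mod_cast (by omega : 0 < R)
  refine ⟨1 / (128 * Q * R), by positivity, fun B => ?_⟩
  set P : ℕ := 2 * (E0 + B + 3) with hP
  set C2 : ℝ := 900000 + 1600 * C1 with hC2
  have hC20 : 0 < C2 := by positivity
  set bb : ℝ := (K:ℝ) + 2 with hbb
  have hbb0 : 0 < bb := by positivity
  set C3 : ℝ := 192 * bb + 240 + 2 * C2 + 12 + 13 with hC3
  have hC30 : 0 < C3 := by positivity
  set C4 : ℝ := CWc * (16 * (C3 + 336)) with hC4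
  have hC40 : 0 < C4 := by positivity
  set L0 : ℝ := |L1| + 16 * bb + C4 * 2 ^ B + 700 + Q0 with hL0
  obtain ⟨C, T0, hC0, hpar⟩ := Pool.Agent.Y746.CS.par Q P R (by omega) (by omega) L0
  refine ⟨E0 + B + 1, 2 * C, ⌈(max T0 1) ^ 2⌉₊ + 100, by positivity, fun X hX δ hδ hδ1 V hV1 hV2 => ?_⟩
  -- the variable T
  set T : ℝ := Real.sqrt X with hT
  have hX1 : (max T0 1) ^ 2 ≤ X := (Nat.le_ceil _).trans (by exact_mod_cast (by omega : ⌈(max T0 1) ^ 2⌉₊ ≤ X))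
  have hX100 : (100:ℝ) ≤ X := by exact_mod_cast (by omega : 100 ≤ X)
  have hXpos : (0:ℝ) < X := by linarith
  have hmT : max T0 1 ≤ T := Real.le_sqrt_of_sq_le hX1
  have hT0T : T0 ≤ T := (le_max_left _ _).trans hmT
  have hXT : (X:ℝ) = T ^ 2 := (Real.sq_sqrt hXpos.le).symm
  have hlogT : Real.log T = Real.log X / 2 := Real.log_sqrt hXpos.le
  have hlX4 : 4 ≤ Real.log X := by
    rw [Real.le_log_iff_exp_le hXpos]
    have := Real.exp_one_lt_d9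
    have h9 : Real.exp 4 = Real.exp 1 ^ 4 := by rw [← Real.exp_nat_mul]; congr 1; norm_num
    rw [h9]
    calc Real.exp 1 ^ 4 ≤ 2.7182818286 ^ 4 := pow_le_pow_left₀ (Real.exp_pos _).le (by linarith) 4
      _ ≤ 100 := by norm_num
      _ ≤ _ := hX100
  have hδ' : C * Real.log (Real.log T) / Real.log T ≤ δ := by
    refine le_trans ?_ hδ
    rw [hlogT]
    have h1 : Real.log (Real.log X / 2) ≤ Real.log (Real.log X) := Real.log_le_log (by linarith) (by linarith)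
    have e1 : 2 * C * Real.log (Real.log X) / Real.log X = C * Real.log (Real.log X) / (Real.log X / 2) := by
      field_simp
    rw [e1]
    exact div_le_div_of_nonneg_right (mul_le_mul_of_nonneg_left h1 hC0.le) (by linarith)
  obtain ⟨hT4, hL24, hLL0, hTL0, hδ0, h2δ, h1L, N, w, hN, _, hw1, hNQ, hNδ, _, hwP, hVw⟩ := hpar T hT0T δ hδ' hδ1
  set L : ℝ := Real.log T with hL
  have hlX : Real.log X = 2 * L := by rw [hlogT]; ring
  have hTpos : 0 < T := by linarith only [hT4]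
  have hTL : T = Real.exp L := (Real.exp_log hTpos).symm
  have hL1 : 1 ≤ L := by linarith only [hL24]
  have hLpos : 0 < L := by linarith only [hL24]
  have hw0 : 0 < w := by linarith only [hw1]
  have hL1abs : 0 ≤ |L1| := abs_nonneg _
  have hC4B : 0 ≤ C4 * 2 ^ B := by positivity
  have hQ0r : (0:ℝ) ≤ Q0 := Nat.cast_nonneg _
  have hwE : L ^ E0 ≤ w := (pow_le_pow_right₀ hL1 (by omega)).trans hwP
  have hw16 : L ^ 16 ≤ w := (pow_le_pow_right₀ hL1 (by omega)).trans hwP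
  have hwL : L ≤ w := by
    have : L ^ 1 ≤ L ^ P := pow_le_pow_right₀ hL1 (by omega)
    rw [pow_one] at this
    exact this.trans hwP
  have hQN : Q0 ≤ N := by
    have hN1 : (1:ℝ) ≤ N := by exact_mod_cast hN
    have hN0 : (0:ℝ) < N := by linarith only [hN1]
    have h1 : w ^ 16 ≤ (N:ℝ) ^ δ := by
      rw [Real.rpow_neg hN0.le] at hNδ
      exact (inv_le_inv₀ (by positivity) (by positivity)).mp hNδ
    have h2 : (N:ℝ) ^ δ ≤ N := by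
      calc (N:ℝ) ^ δ ≤ (N:ℝ) ^ (1:ℝ) := Real.rpow_le_rpow_of_exponent_le hN1 (by linarith only [hδ1])
        _ = N := Real.rpow_one _
    have h3 : w ≤ w ^ 16 := by
      calc w = w ^ 1 := (pow_one w).symm
        _ ≤ w ^ 16 := pow_le_pow_right₀ hw1 (by norm_num)
    have h4 : (Q0:ℝ) ≤ N := by linarith only [h1, h2, h3, hwL, hLL0, hL0, hL1abs, hC4B, hbb0]
    exact_mod_cast h4
  -- the powers of V
  have hLX1 : 1 ≤ Real.log X := by linarith only [hlX4]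
  have hVL : L ^ (E0 + B + 1) ≤ V := (pow_le_pow_left₀ hLpos.le (by linarith only [hlX, hLpos]) _).trans hV1
  have hV1' : 1 ≤ V := (one_le_pow₀ hL1).trans hVL
  have hVT : V ≤ T ^ (δ / (64 * Q * R)) := by
    refine hV2.trans (le_of_eq ?_)
    rw [hXT, ← Real.rpow_natCast, ← Real.rpow_mul hTpos.le]
    congr 1
    push_cast
    field_simp
    norm_num
  have hVR : V ^ R ≤ w := hVw V hV1' hVT
  -- mean squares
  obtain ⟨sz1, sz2, sz3, sz4⟩ := sizeP hTL hL24 hN hδ0 hδ1 hw1 hNQ (by omega : 200 ≤ Q) hNδ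
  obtain ⟨g1, g2, g3, -⟩ := msP hε (k := k) (by omega) hXT rfl hTpos hN hδ0 hδ1 h2δ hw1 hNQ (by omega) hNδ hL1 hwE
  have g4 := fun (a : ℝ) (ha : |a| ≤ k) => msW hε hQ0 hW (k := k) (by omega) hXT rfl hTpos hN hδ0 hδ1 h2δ hw1 hNQ
    (by omega) hNδ hL1 hQN (a := a) ha
  have g5 := m2P hε hr0 hr1 hr2 hXT rfl hTL hL24 hN hδ0 hδ1 h2δ hw1 hNQ (by omega) hNδ hw16
  have g6 : ∑ d ∈ fam X, (1 - v d (1 / 2 + δ) * mv ε δ r X d) ^ 2 ≤ C1 * X * (w ^ 16)⁻¹ := by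
    have h1 : L1 ≤ Real.log X := by
      have : L1 ≤ |L1| := le_abs_self _
      linarith only [this, hLL0, hL0, hlX, hC4B, hQ0r, hbb0, hLpos]
    have h2 : 1 ≤ δ * Real.log X := by
      rw [hlX]
      have : 1 ≤ δ * L := by rwa [div_le_iff₀ hLpos] at h1L
      linarith only [this]
    refine (hM X h1 δ h2 (by linarith only [hδ1])).trans ?_
    have h3 : Real.exp (-(c0 * (δ * Real.log X))) ≤ (w ^ 16)⁻¹ := by
      rw [Real.exp_neg]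
      refine inv_anti₀ (by positivity) (sz4.trans (Real.exp_le_exp.mpr ?_))
      have hq1 : 1 / c0 ≤ Q := hq0.trans (by exact_mod_cast (by omega : q0 ≤ Q))
      have h4 : 1 ≤ c0 * Q := by rwa [div_le_iff₀ hc0, mul_comm] at hq1
      have h5 : L / Q ≤ c0 * L := by
        rw [div_le_iff₀ hQr]
        calc L = L * 1 := (mul_one L).symm
          _ ≤ L * (c0 * Q) := mul_le_mul_of_nonneg_left h4 hLpos.le
          _ = c0 * L * Q := by ring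
      rw [hlX]
      have h6 : δ * (L / Q) ≤ δ * (c0 * L) := mul_le_mul_of_nonneg_left h5 hδ0.le
      have h7 := mul_pos hδ0 (mul_pos hc0 hLpos)
      refine h6.trans ?_
      linarith only [h7]
    calc (X:ℝ) * (C1 * Real.exp (-(c0 * (δ * Real.log X)))) ≤ X * (C1 * (w ^ 16)⁻¹) := by gcongr
      _ = _ := by ring
  -- the exponents
  have hb : ∀ β : ℝ, |β| ≤ K → |β / 2| + 1 ≤ (K:ℝ) + 1 := by
    intro β hβ
    rw [abs_div, abs_two]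
    have := abs_nonneg β
    linarith only [this, hβ]
  have hkr : ((k:ℕ):ℝ) = 2 * ((K:ℝ) + 1) := by rw [hk]; push_cast; ring
  have hK0 : (0:ℝ) ≤ K := Nat.cast_nonneg K
  set J : ℕ := ⌈4 * L⌉₊ with hJ
  have hρ : rho ((K:ℝ) + 1) (w ^ 2) (1 / (8 * w ^ 5)) J ≤ bb * (4 * w⁻¹) := by
    have := rho_bound (b := (K:ℝ) + 1) (by positivity) hw1 hL24 (sz3.trans (Real.exp_le_exp.mpr (by linarith only [hLpos])))
    rw [show (K:ℝ) + 1 + 1 = bb by rw [hbb]; ring] at this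
    exact this
  have hρ4 : rho ((K:ℝ) + 1) (w ^ 2) (1 / (8 * w ^ 5)) J ≤ 1 / 4 := by
    refine hρ.trans ?_
    have h1 : 16 * bb ≤ w := by linarith only [hLL0, hL0, hL1abs, hC4B, hQ0r, hwL]
    rw [← div_eq_mul_inv, ← mul_div_assoc, div_le_iff₀ hw0]
    linarith only [h1]
  have hWe : 8 * (w ^ 2) ^ 2 * (1 / (8 * w ^ 5)) ≤ 1 := by
    have e1 : 8 * (w ^ 2) ^ 2 * (1 / (8 * w ^ 5)) = w⁻¹ := by field_simp
    rw [e1]
    exact inv_le_one_of_one_le₀ hw1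
  -- the cost
  have hRS : ∀ β : ℝ, |β| ≤ K → ∑ d ∈ fam X, RR (zp ε δ N d) (Ex ((K:ℝ) + 1) (β / 2) J) (w ^ 2) (1 / (8 * w ^ 5))
      (v d (1 / 2 + δ)) (mv ε δ r X d) ≤ X * (C2 * L ^ (E0 + 2) * w⁻¹) := by
    intro β hβ
    have hb1 := hb β hβ
    have hEbd : ∀ a ∈ Ex ((K:ℝ) + 1) (β / 2) J, |a| ≤ k := by
      intro a ha
      rw [hkr]
      exact Ex_bd (by linarith only [hK0]) (by linarith only [hb1]) ha
    have h12 : |(1 / 2 : ℝ)| ≤ k := by rw [hkr, abs_of_pos (by norm_num)]; linarith only [hK0]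
    have h1 := RS_le (ε := ε) (δ := δ) (N := N) (X := X) (E := Ex ((K:ℝ) + 1) (β / 2) J) (W := w ^ 2) (e := 1 / (8 * w ^ 5))
      (v := fun d => v d (1 / 2 + δ)) (m := fun d => mv ε δ r X d)
      (fun a ha b hb => g1 a b (hEbd a ha) (hEbd b hb)) (g1 _ _ h12 h12) (fun a ha => g2 a (hEbd a ha)) g6 g5
    refine h1.trans ?_
    refine numR (n := (#(Ex ((K:ℝ) + 1) (β / 2) J) : ℝ)) (Nat.cast_nonneg _) ?_ hXpos.le hw1 hL1 hC1.le le_rfl le_rfl le_rfl le_rfl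
    have h2 := Ex_card ((K:ℝ) + 1) (β / 2) J
    have h3 : (#(Ex ((K:ℝ) + 1) (β / 2) J) : ℝ) ≤ 8 * J + 16 := by exact_mod_cast h2
    have h4 : (J:ℝ) ≤ 4 * L + 1 := (Nat.ceil_lt_add_one (by positivity)).le
    linarith only [h3, h4, hL24]
  -- the family
  have hF := fam_card X
  rw [← hT] at hF
  have hF16 : (X:ℝ) / 16 ≤ (#(fam X) : ℝ) := by
    have h1 := (abs_le.mp hF).1
    have h2 := kap_two_pos
    have h3 : (X:ℝ) * (1 / 8) ≤ X * kap 2 := mul_le_mul_of_nonneg_left h2 hXpos.le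
    have h4 : 672 ≤ T := by linarith only [hTL0, hL0, hL1abs, hC4B, hQ0r, hbb0]
    have h5 : 42 * T ≤ (X:ℝ) / 16 := by
      rw [hXT, pow_two]
      have := mul_le_mul_of_nonneg_right h4 hTpos.le
      linarith only [this]
    linarith only [h1, h3, h5]
  have hFpos : 0 < (#(fam X) : ℝ) := lt_of_lt_of_le (by positivity) hF16
  -- constants
  have hqB : C4 * (L ^ (B + 1))⁻¹ ≤ (Real.log X ^ B)⁻¹ := by
    refine inv_of_mul_le (by positivity) (by positivity) ?_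
    rw [hlX, mul_pow, pow_succ L B]
    have h1 : C4 * 2 ^ B ≤ L := by linarith only [hLL0, hL0, hL1abs, hQ0r, hbb0]
    calc C4 * (2 ^ B * L ^ B) = (C4 * 2 ^ B) * L ^ B := by ring
      _ ≤ L * L ^ B := by gcongr
      _ = _ := by ring
  set q : ℝ := (L ^ (B + 1))⁻¹ with hq
  have hq0 : 0 < q := by positivity
  have hXF : (X:ℝ) ≤ 16 * (#(fam X) : ℝ) := by linarith only [hF16]
  intro β hβ
  have hVK : (V ^ |β|) ^ 2 ≤ w := by
    refine le_trans ?_ hVR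
    have h1 : V ^ |β| ≤ V ^ (K:ℝ) := Real.rpow_le_rpow_of_exponent_le hV1' hβ
    rw [Real.rpow_natCast] at h1
    calc (V ^ |β|) ^ 2 ≤ (V ^ K) ^ 2 := pow_le_pow_left₀ (by positivity) h1 2
      _ = V ^ R := by rw [← pow_mul, hR, mul_comm]
  obtain ⟨f1, f2, f3, f4, f5, f6, f7, f8⟩ := facts (Vb := V ^ |β|) hL1 hw1 hwP hP hV1' hVL rfl hVK
  have h0 := hb β hβ
  have hb2 : |(K:ℝ) + 1| ≤ k := by rw [hkr, abs_of_nonneg (by positivity)]; linarith only [hK0]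
  have hb3 : |-((K:ℝ) + 1)| ≤ k := by rw [abs_neg]; exact hb2
  have hb0 : |β / 2| ≤ k := by rw [hkr]; linarith only [h0, hK0]
  set Y : ℝ := L ^ (E0 + B + 1) with hY
  have hY0 : 0 < Y := by positivity
  have hs := sumAW hN h0 (J := J) (V := V) (W := w ^ 2) (e := 1 / (8 * w ^ 5)) (Y := Y) (v := fun d => v d (1 / 2 + δ))
    (m := fun d => mv ε δ r X d) (θ := thW ε W Q0) hCW.le (thW_abs ε W Q0) hV1' (one_le_pow₀ hw1) (by positivity) hWe hY0 hρ4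
    (g2 _ hb0) (g2 _ hb2) (g2 _ hb3) (g3 _ hb0) (hRS β hβ)
  have e2β : |2 * (β / 2)| = |β| := by congr 1; ring
  rw [e2β] at hs
  have ha := g4 (β / 2) hb0
  rw [show 2 * (β / 2) = β by ring] at ha
  have hnum := numF (X := (X:ℝ)) (L := L) (w := w) (V := V) (Vb := V ^ |β|) (C2 := C2) (bb := bb)
    (ρ := rho ((K:ℝ) + 1) (w ^ 2) (1 / (8 * w ^ 5)) J) (q := q) (Y := Y) (E0 := E0)
    hXpos.le hLpos.le hC20.le hbb0.le hρ f1 f2 f3 f4 f5 f6 f7 (le_refl _)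
  have htot : |∑ d ∈ fam X, thW ε W Q0 d * tp V (β / 2) (v d (1 / 2 + δ)) - X * (kap 2 * SW W β δ)| ≤
      CWc * (X * (C3 * q)) := by
    have e1 : ∑ d ∈ fam X, thW ε W Q0 d * tp V (β / 2) (v d (1 / 2 + δ)) - X * (kap 2 * SW W β δ) =
        (∑ d ∈ fam X, thW ε W Q0 d * tp V (β / 2) (v d (1 / 2 + δ)) - ∑ d ∈ fam X, thW ε W Q0 d * zp ε δ N d (β / 2) ^ 2) +
        (∑ d ∈ fam X, thW ε W Q0 d * zp ε δ N d (β / 2) ^ 2 - X * (kap 2 * SW W β δ)) := by ring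
    rw [e1]
    refine (abs_add_le _ _).trans ((add_le_add hs ha).trans ?_)
    rw [← mul_add]
    refine mul_le_mul_of_nonneg_left ?_ hCW.le
    rw [hC3]
    exact hnum
  -- normalisation
  have hSQ : |SW W β δ| ≤ CWc * (8 * L ^ E0) := by
    have h1 := SW_abs hW (K := k) (by omega) hb0 hδ0 (by linarith only [hδ1])
    rw [show 2 * (β / 2) = β by ring, abs_mul, abs_of_nonneg kap_two_nonneg] at h1
    have h2 := kap_two_pos
    have h3 : (2 / δ) ^ ((2 * (k + 1)) ^ 2) ≤ L ^ E0 := by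
      refine (pow_le_pow_left₀ (by positivity) h2δ _).trans (pow_le_pow_right₀ hL1 ?_)
      rw [hE0]
      exact Nat.pow_le_pow_left (by omega) 2
    have h4 : 1 / 8 * |SW W β δ| ≤ kap 2 * |SW W β δ| := mul_le_mul_of_nonneg_right h2 (abs_nonneg _)
    have h5 : CWc * (2 / δ) ^ ((2 * (k + 1)) ^ 2) ≤ CWc * L ^ E0 := mul_le_mul_of_nonneg_left h3 hCW.le
    linarith only [h1, h4, h5]
  have hTw : L ^ E0 * T ≤ X * q := by
    have h1 : w ≤ T := by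
      have h2 : w ≤ w ^ 16 := by
        calc w = w ^ 1 := (pow_one w).symm
          _ ≤ w ^ 16 := pow_le_pow_right₀ hw1 (by norm_num)
      rw [hTL]
      exact h2.trans (sz3.trans (Real.exp_le_exp.mpr (by linarith only [hLpos])))
    rw [hXT]
    have h3 : L ^ E0 ≤ q * w := by
      have := f1
      rwa [← div_eq_mul_inv, div_le_iff₀ hw0] at this
    have h4 : L ^ E0 ≤ q * T := h3.trans (mul_le_mul_of_nonneg_left h1 hq0.le)
    calc L ^ E0 * T ≤ (q * T) * T := mul_le_mul_of_nonneg_right h4 hTpos.le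
      _ = _ := by ring
  have hfin : |(∑ d ∈ fam X, thW ε W Q0 d * tp V (β / 2) (v d (1 / 2 + δ))) / (#(fam X) : ℝ) - SW W β δ| ≤ C4 * q := by
    rw [div_sub' hFpos.ne', abs_div, abs_of_pos hFpos, div_le_iff₀ hFpos]
    have e1 : ∑ d ∈ fam X, thW ε W Q0 d * tp V (β / 2) (v d (1 / 2 + δ)) - (#(fam X) : ℝ) * SW W β δ =
        (∑ d ∈ fam X, thW ε W Q0 d * tp V (β / 2) (v d (1 / 2 + δ)) - X * (kap 2 * SW W β δ)) -
        ((#(fam X) : ℝ) - X * kap 2) * SW W β δ := by ring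
    rw [e1]
    refine (abs_sub _ _).trans ?_
    rw [abs_mul]
    calc |∑ d ∈ fam X, thW ε W Q0 d * tp V (β / 2) (v d (1 / 2 + δ)) - X * (kap 2 * SW W β δ)| +
          |(#(fam X) : ℝ) - X * kap 2| * |SW W β δ|
        ≤ CWc * (X * (C3 * q)) + (42 * T) * (CWc * (8 * L ^ E0)) := by
          refine add_le_add htot (mul_le_mul hF hSQ (abs_nonneg _) (by positivity))
      _ = CWc * (X * (C3 * q) + 336 * (L ^ E0 * T)) := by ring
      _ ≤ CWc * (X * (C3 * q) + 336 * (X * q)) := by gcongr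
      _ = CWc * (X * ((C3 + 336) * q)) := by ring
      _ ≤ CWc * ((16 * (#(fam X) : ℝ)) * ((C3 + 336) * q)) := by gcongr
      _ = _ := by rw [hC4]; ring
  exact hfin.trans hqB

end

end Pool.Agent.X110.QF
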