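import Pool.Agent.X110.QG6
import Pool.Agent.X110.LT5

set_option autoImplicit false

/-! The arithmetic factor is positive for real orders. -/

namespace Pool.Agent.X110.QF

open Finset Filter Topology
open Pool.Agent.H306R2 Pool.Agent.Y746.OA Pool.Agent.X110.LT

noncomputable section

/-- the binomial series -/
def AA (β y : ℝ) : ℝ := ∑' n : ℕ, lc β n * y ^ n

lemma AA_summable (β : ℝ) {y : ℝ} (hy : |y| ≤ 3 / 4) : Summable fun n : ℕ => ‖lc β n * y ^ n‖ := by
  refine Summable.of_nonneg_of_le (fun _ => norm_nonneg _) (fun n => ?_)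
    (lc_summable (α := |β| + 1) (by positivity) (by norm_num : (0:ℝ) < 3 / 4) (by norm_num))
  rw [norm_mul, norm_pow, Real.norm_eq_abs, Real.norm_eq_abs]
  have h1 : |lc β n| ≤ lc (|β| + 1) n := (lc_abs β n).trans (lc_mono (abs_nonneg _) (by linarith) n)
  have h0 : 0 ≤ lc (|β| + 1) n := lc_nonneg (by positivity) n
  gcongr

lemma AA_mul (α β : ℝ) {y : ℝ} (hy : |y| ≤ 3 / 4) : AA α y * AA β y = AA (α + β) y := by
  unfold AA
  rw [tsum_mul_tsum_eq_tsum_sum_antidiagonal_of_summable_norm (AA_summable α hy) (AA_summable β hy)]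
  refine tsum_congr fun n => ?_
  rw [← lc_conv, sum_mul]
  refine sum_congr rfl fun x hx => ?_
  rw [HasAntidiagonal.mem_antidiagonal] at hx
  rw [← hx, pow_add]
  ring

lemma AA_zero (y : ℝ) : AA 0 y = 1 := by
  unfold AA
  rw [tsum_eq_single 0]
  · rw [lc_zero]; simp
  · intro n hn
    have : lc 0 n = 0 := by
      unfold lc
      rw [prod_eq_zero (i := 0)]
      · rw [mem_range]; omega
      · simp
    rw [this, zero_mul]

lemma AA_pos (β : ℝ) {y : ℝ} (hy : |y| ≤ 3 / 4) : 0 < AA β y := by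
  have h1 := AA_mul β (-β) hy
  rw [add_neg_cancel, AA_zero] at h1
  have h2 := AA_mul (β / 2) (β / 2) hy
  rw [add_halves] at h2
  have h3 : 0 ≤ AA β y := by rw [← h2]; exact mul_self_nonneg _
  rcases h3.lt_or_eq with h4 | h4
  · exact h4
  · rw [← h4, zero_mul] at h1
    exact absurd h1 (by norm_num)

lemma T2R (β : ℝ) {x : ℝ} (hx : 0 ≤ x) (hx1 : x ≤ 1 / 2) :
    ∑' m : ℕ, lc β (2 * m) * x ^ m = (AA β (Real.sqrt x) + AA β (-Real.sqrt x)) / 2 := by
  set y := Real.sqrt x with hy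
  have hy2 : y ^ 2 = x := Real.sq_sqrt hx
  have hy0 : 0 ≤ y := Real.sqrt_nonneg _
  have hy1 : |y| ≤ 3 / 4 := by
    rw [abs_of_nonneg hy0, hy, Real.sqrt_le_iff]
    exact ⟨by norm_num, by linarith⟩
  have hy1' : |-y| ≤ 3 / 4 := by rwa [abs_neg]
  have s1 := (AA_summable β hy1).of_norm
  have s2 := (AA_summable β hy1').of_norm
  have h1 : (AA β y + AA β (-y)) / 2 = ∑' n : ℕ, lc β n * (y ^ n + (-y) ^ n) / 2 := by
    unfold AA
    rw [← s1.tsum_add s2, ← tsum_div_const]
    exact tsum_congr fun n => by ring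
  have hs : Summable fun n : ℕ => lc β n * (y ^ n + (-y) ^ n) / 2 :=
    ((s1.add s2).div_const 2).congr fun n => by ring
  have i1 : Function.Injective (fun m : ℕ => 2 * m) := fun a b h => by
    dsimp only at h; omega
  have i2 : Function.Injective (fun m : ℕ => 2 * m + 1) := fun a b h => by
    dsimp only at h; omega
  set g : ℕ → ℝ := fun n => lc β n * (y ^ n + (-y) ^ n) / 2 with hg
  have hse : Summable fun m : ℕ => g (2 * m) := hs.comp_injective i1
  have hso : Summable fun m : ℕ => g (2 * m + 1) := hs.comp_injective i2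
  rw [h1, ← tsum_even_add_odd hse hso]
  have g1 : ∀ m : ℕ, g (2 * m + 1) = 0 := by
    intro m
    have : (-y) ^ (2 * m + 1) = -y ^ (2 * m + 1) := Odd.neg_pow ⟨m, rfl⟩ y
    rw [hg]
    show lc β (2 * m + 1) * (y ^ (2 * m + 1) + (-y) ^ (2 * m + 1)) / 2 = 0
    rw [this, add_neg_cancel, mul_zero, zero_div]
  have g2 : ∀ m : ℕ, g (2 * m) = lc β (2 * m) * x ^ m := by
    intro m
    have e1 : (-y) ^ (2 * m) = x ^ m := by rw [pow_mul, neg_sq, hy2]
    have e2 : y ^ (2 * m) = x ^ m := by rw [pow_mul, hy2]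
    rw [hg]
    show lc β (2 * m) * (y ^ (2 * m) + (-y) ^ (2 * m)) / 2 = _
    rw [e1, e2]; ring
  simp_rw [g1, g2]
  rw [tsum_zero, add_zero]

lemma gQ_pos (β : ℝ) {p : ℕ} (hp : p.Prime) : 0 < gQ β p := by
  unfold gQ
  have h1 := inv_half hp
  have h2 : 0 < 1 / (p:ℝ) := inv_pos' hp
  have hp0 : (0:ℝ) < p := by exact_mod_cast hp.pos
  refine mul_pos (Real.rpow_pos_of_pos (by linarith) _) ?_
  split_ifs
  · norm_num
  · rw [T2R β h2.le h1]
    have hy1 : |Real.sqrt (1 / (p:ℝ))| ≤ 3 / 4 := by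
      rw [abs_of_nonneg (Real.sqrt_nonneg _), Real.sqrt_le_left (by norm_num)]
      norm_num
      norm_num at h1
      linarith
    have a1 := AA_pos β hy1
    have a2 := AA_pos β (y := -Real.sqrt (1 / (p:ℝ))) (by rwa [abs_neg])
    have h3 : 0 < (p:ℝ) / (p + 1) := by positivity
    have h4 : (p:ℝ) / (p + 1) < 1 := by rw [div_lt_one (by positivity)]; linarith
    have h5 : 0 < (p:ℝ) / (p + 1) * ((AA β (Real.sqrt (1 / (p:ℝ))) + AA β (-Real.sqrt (1 / (p:ℝ)))) / 2) := by positivity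
    linarith

lemma gQ_summable (β : ℝ) : Summable fun p : Nat.Primes => gQ β p - 1 := by
  refine Summable.of_norm_bounded (primes_summable.mul_left (CQ (|β| + 1))) fun p => ?_
  have h := Gq_bound (z := (β:ℂ)) (R := |β| + 1) (by linarith [abs_nonneg β])
    (by rw [Complex.norm_real, Real.norm_eq_abs]; linarith) p.2 (inv_pos' p.2).le le_rfl
  rwa [gQ_ofReal β p.2, ← Complex.ofReal_one, ← Complex.ofReal_sub, Complex.norm_real] at h

/-- the arithmetic factor for real arguments -/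
def aQR (β : ℝ) : ℝ := ∏' p : Nat.Primes, gQ β p

lemma gQ_mult (β : ℝ) : Multipliable fun p : Nat.Primes => gQ β p := by
  have h2 := Real.multipliable_one_add_of_summable (gQ_summable β)
  simpa only [add_sub_cancel] using h2

theorem aQR_pos (β : ℝ) : 0 < aQR β := by
  have h := Real.summable_log_one_add_of_summable (gQ_summable β)
  simp only [add_sub_cancel] at h
  have h2 := Real.rexp_tsum_eq_tprod (f := fun p : Nat.Primes => gQ β p) (fun p => gQ_pos β p.2) h
  unfold aQR
  rw [← h2]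
  exact Real.exp_pos _

theorem aQ_ofReal (β : ℝ) : aQ β = ((aQR β : ℝ) : ℂ) := by
  have h := (gQ_mult β).hasProd.map Complex.ofRealHom Complex.continuous_ofReal
  unfold aQ
  have e : (fun p : Nat.Primes => Gq β p (1 / ((p:ℕ):ℝ))) = Complex.ofRealHom ∘ fun p : Nat.Primes => gQ β p := by
    funext p
    exact gQ_ofReal β p.2
  rw [e, h.tprod_eq]
  rfl

end

end Pool.Agent.X110.QF
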