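import Pool.Agent.X110.QG3
import Pool.Agent.X110.QG7
import Pool.Agent.X110.LT3

set_option autoImplicit false

/-! Complex orders. -/

namespace Pool.Agent.X110.QF

open Finset Filter Topology
open Pool.Agent.H306R2 Pool.Agent.Y746.OA Pool.Agent.X110.LT Pool.Agent.X110.ND

noncomputable section

open Classical in
/-- the truncated complex power -/
def tc (V : ℝ) (z : ℂ) (u : ℝ) : ℂ := if V⁻¹ < u ∧ u < V then ((u : ℝ) : ℂ) ^ z else 0

/-- moment of complex order -/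
def MQ (V : ℝ) (X : ℕ) (u : ℕ → ℝ) (z : ℂ) : ℂ := (∑ d ∈ fam X, tc V z (u d)) / ((#(fam X) : ℝ) : ℂ)

lemma tc_diff {V : ℝ} (hV : 1 ≤ V) (u : ℝ) : Differentiable ℂ fun z => tc V z u := by
  unfold tc
  by_cases h : V⁻¹ < u ∧ u < V
  · simp only [if_pos h]
    have hu : 0 < u := lt_trans (inv_pos.mpr (by linarith)) h.1
    exact fun z => (differentiableAt_id).const_cpow (Or.inl (by exact_mod_cast hu.ne'))
  · simp only [if_neg h]
    exact differentiable_const _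

lemma MQ_diff {V : ℝ} (hV : 1 ≤ V) (X : ℕ) (u : ℕ → ℝ) : Differentiable ℂ (MQ V X u) := by
  unfold MQ
  exact (Differentiable.fun_sum fun d _ => tc_diff hV (u d)).div_const _

lemma tc_real {V : ℝ} (hV : 1 ≤ V) (β u : ℝ) : tc V β u = ((tp V (β / 2) u : ℝ) : ℂ) := by
  unfold tc tp
  split_ifs with h
  · have hu : 0 < u := lt_trans (inv_pos.mpr (by linarith)) h.1
    rw [Complex.ofReal_cpow hu.le]
    congr 1
    push_cast; ring
  · simp

lemma tc_norm {V : ℝ} (hV : 1 ≤ V) (z : ℂ) (u : ℝ) : ‖tc V z u‖ = tp V (z.re / 2) u := by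
  unfold tc tp
  split_ifs with h
  · have hu : 0 < u := lt_trans (inv_pos.mpr (by linarith)) h.1
    rw [Complex.norm_cpow_eq_rpow_re_of_pos hu]
    congr 1
    ring
  · simp

lemma MQ_real {V : ℝ} (hV : 1 ≤ V) (X : ℕ) (u : ℕ → ℝ) (β : ℝ) :
    MQ V X u β = (((∑ d ∈ fam X, tp V (β / 2) (u d)) / (#(fam X) : ℝ) : ℝ) : ℂ) := by
  unfold MQ
  rw [Complex.ofReal_div, Complex.ofReal_sum]
  congr 1
  exact sum_congr rfl fun d _ => tc_real hV β (u d)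

lemma MQ_norm {V : ℝ} (hV : 1 ≤ V) (X : ℕ) (u : ℕ → ℝ) (z : ℂ) :
    ‖MQ V X u z‖ ≤ (∑ d ∈ fam X, tp V (z.re / 2) (u d)) / (#(fam X) : ℝ) := by
  unfold MQ
  rw [norm_div, Complex.norm_real, Real.norm_of_nonneg (Nat.cast_nonneg _)]
  refine div_le_div_of_nonneg_right ?_ (Nat.cast_nonneg _)
  refine (norm_sum_le _ _).trans (le_of_eq ?_)
  exact sum_congr rfl fun d _ => tc_norm hV z (u d)

/-- **Moments of complex orders.** -/
theorem cmom {ε : ℤ} (hε : ε = 1 ∨ ε = -1) {v : ℕ → ℝ → ℝ} (hv : Hyp ε v) {r : ℝ} (hr : 0 ≤ r) :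
    ∃ c : ℝ, 0 < c ∧ ∀ B : ℕ, ∃ (A : ℕ) (C : ℝ) (X0 : ℕ), 0 < C ∧ ∀ X : ℕ, X0 ≤ X → ∀ δ : ℝ,
      C * Real.log (Real.log X) / Real.log X ≤ δ → δ ≤ 1 / 16 → 1 ≤ Real.log X ∧ 0 < δ ∧ 2 / δ ≤ Real.log X ∧
      ∀ V : ℝ, Real.log X ^ A ≤ V → V ≤ (X:ℝ) ^ (c * δ) →
      ∑ d ∈ fam X, ib V (v d (1 / 2 + δ)) ≤ (#(fam X) : ℝ) * (Real.log X ^ B)⁻¹ ∧
      ∀ z : ℂ, ‖z‖ ≤ r → ‖MQ V X (fun d => v d (1 / 2 + δ)) z - SQC z δ‖ ≤ (Real.log X ^ B)⁻¹ := by
  set ρ : ℝ := 1 + Real.exp 1 * (r + 1) with hρ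
  have hρ0 : 1 ≤ ρ := by rw [hρ]; have := Real.exp_pos 1; nlinarith
  set K : ℕ := ⌈ρ⌉₊ with hK
  have hKρ : ρ ≤ K := Nat.le_ceil ρ
  have hK1 : 1 ≤ K := by
    have : (1:ℝ) ≤ K := hρ0.trans hKρ
    exact_mod_cast this
  obtain ⟨c, hc, H⟩ := asm hε hv hK1
  refine ⟨c, hc, fun B => ?_⟩
  set q : ℝ := 2 * Real.exp 1 * (ρ + 1) with hq
  have hq1 : 1 ≤ q := by
    rw [hq]
    have : 1 ≤ Real.exp 1 := Real.one_le_exp (by norm_num)
    nlinarith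
  set a : ℝ := ((2 * K : ℕ) : ℝ) ^ 2 + B + 2 with ha
  have ha0 : 0 ≤ a := by rw [ha]; positivity
  have hlq : 0 ≤ Real.log q := Real.log_nonneg hq1
  set B' : ℕ := ⌈(B:ℝ) + 3 + a * Real.log q⌉₊ with hB'
  have hB'1 : (B:ℝ) + 3 + a * Real.log q ≤ B' := Nat.le_ceil _
  have hBB' : B ≤ B' := by
    have h1 : (B:ℝ) ≤ B' := by
      have : 0 ≤ a * Real.log q := by positivity
      linarith
    exact_mod_cast h1
  obtain ⟨A, C, X0, hC, H2⟩ := H B'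
  set Lc : ℝ := 20 + 4 * ((a + 3) * q) with hLc
  refine ⟨A, max C 2, max X0 (⌈Real.exp Lc⌉₊ + 100), lt_max_of_lt_left hC, fun X hX δ hδ hδ1 => ?_⟩
  have hX0X : X0 ≤ X := (le_max_left _ _).trans hX
  have hX2 : ⌈Real.exp Lc⌉₊ + 100 ≤ X := (le_max_right _ _).trans hX
  have hXe : Real.exp Lc ≤ X := (Nat.le_ceil _).trans (by exact_mod_cast (by omega : ⌈Real.exp Lc⌉₊ ≤ X))
  have hXpos : (0:ℝ) < X := lt_of_lt_of_le (Real.exp_pos _) hXe
  set L := Real.log X with hL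
  have hLL : Lc ≤ L := by rwa [hL, Real.le_log_iff_exp_le hXpos]
  have hL20 : 20 ≤ L := by
    have : 0 ≤ 4 * ((a + 3) * q) := by positivity
    linarith
  have hL1 : 1 ≤ L := by linarith
  have hL0 : 0 < L := by linarith
  have hlL : 1 ≤ Real.log L := by
    rw [Real.le_log_iff_exp_le hL0]
    linarith [Real.exp_one_lt_d9]
  have hδC : C * Real.log L / L ≤ δ := le_trans (by gcongr; exact le_max_left _ _) hδ
  have hδ2 : 2 * Real.log L / L ≤ δ := le_trans (by gcongr; exact le_max_right _ _) hδ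
  have hδL : 2 ≤ δ * L := by
    rw [div_le_iff₀ hL0] at hδ2
    linarith
  have hδ0 : 0 < δ := by
    by_contra h
    push Not at h
    nlinarith
  have h2δ : 2 / δ ≤ L := by rw [div_le_iff₀ hδ0]; linarith
  refine ⟨hL1, hδ0, h2δ, fun V hV1 hV2 => ?_⟩
  have hV : 1 ≤ V := (one_le_pow₀ hL1).trans hV1
  obtain ⟨g1, g2⟩ := H2 X hX0X δ hδC hδ1 V hV1 hV2
  have hinvB : (L ^ B')⁻¹ ≤ (L ^ B)⁻¹ := inv_anti₀ (by positivity) (pow_le_pow_right₀ hL1 hBB')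
  refine ⟨g1.trans (mul_le_mul_of_nonneg_left hinvB (Nat.cast_nonneg _)), fun z hz => ?_⟩
  set u : ℕ → ℝ := fun d => v d (1 / 2 + δ) with hu
  set f : ℂ → ℂ := fun z => MQ V X u z - SQC z δ with hf
  have hfd : Differentiable ℂ f := (MQ_diff hV X u).sub (SQC_diff hδ0 (by linarith))
  have hreal : ∀ β : ℝ, |β| ≤ (K:ℝ) → ‖f β‖ ≤ (L ^ B')⁻¹ := by
    intro β hβ
    have h1 := g2 β hβ
    show ‖MQ V X u β - SQC β δ‖ ≤ _
    rw [MQ_real hV, SQC_ofReal, ← Complex.ofReal_sub, Complex.norm_real, Real.norm_eq_abs]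
    exact h1
  have hSQn : ∀ w : ℂ, ‖w‖ ≤ (K:ℝ) → ‖SQC w δ‖ ≤ L ^ (2 * K) ^ 2 := by
    intro w hw
    have h1 : ‖w‖ ≤ ((2 * K : ℕ) : ℝ) := by
      push_cast
      have : (0:ℝ) ≤ K := Nat.cast_nonneg K
      linarith
    exact (SQC_norm hK1 h1 hδ0 (by linarith)).trans (pow_le_pow_left₀ (by positivity) h2δ _)
  have hinv1 : (L ^ B')⁻¹ ≤ 1 := inv_le_one_of_one_le₀ (one_le_pow₀ hL1)
  have hfM : ∀ w : ℂ, ‖w‖ ≤ ρ → ‖f w‖ ≤ 5 * L ^ (2 * K) ^ 2 := by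
    intro w hw
    have hwK : ‖w‖ ≤ (K:ℝ) := hw.trans hKρ
    have hwre : |w.re| ≤ (K:ℝ) := (Complex.abs_re_le_norm w).trans hwK
    have h1 := MQ_norm hV X u w
    have h2 := (abs_le.mp (g2 w.re hwre)).2
    have h3 : |SQ w.re δ| ≤ L ^ (2 * K) ^ 2 := by
      have := hSQn (w.re : ℂ) (by rw [Complex.norm_real, Real.norm_eq_abs]; exact hwre)
      rwa [SQC_ofReal, Complex.norm_real, Real.norm_eq_abs] at this
    have h4 := hSQn w hwK
    have h6 : (1:ℝ) ≤ L ^ (2 * K) ^ 2 := one_le_pow₀ hL1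
    have h7 := norm_sub_le (MQ V X u w) (SQC w δ)
    have h8 := (abs_le.mp h3).2
    show ‖MQ V X u w - SQC w δ‖ ≤ _
    linarith
  set m : ℕ := ⌈a * Real.log L⌉₊ + 1 - 1 + (if ⌈a * Real.log L⌉₊ = 0 then 1 else 0) with hm
  have hlL0 : 0 ≤ Real.log L := by linarith
  have hmpos : 0 < m := by
    rw [hm]; split_ifs <;> omega
  have hm1 : a * Real.log L ≤ m := by
    have h1 := Nat.le_ceil (a * Real.log L)
    have h2 : ((⌈a * Real.log L⌉₊ : ℕ) : ℝ) ≤ (m:ℝ) := by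
      exact_mod_cast (by rw [hm]; split_ifs <;> omega : ⌈a * Real.log L⌉₊ ≤ m)
    linarith
  have hm2 : (m:ℝ) ≤ a * Real.log L + 1 := by
    by_cases h0 : ⌈a * Real.log L⌉₊ = 0
    · have h1 : m = 1 := by rw [hm, if_pos h0, h0]
      rw [h1]
      have : 0 ≤ a * Real.log L := by positivity
      push_cast
      linarith
    · have h1 : m = ⌈a * Real.log L⌉₊ := by rw [hm, if_neg h0]; omega
      rw [h1]
      exact (Nat.ceil_lt_add_one (by positivity)).le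
  have hsm : (L ^ B')⁻¹ ≤ L ^ (-((B:ℝ) + 3 + a * Real.log q)) := by
    rw [← Real.rpow_natCast, ← Real.rpow_neg hL0.le]
    exact Real.rpow_le_rpow_of_exponent_le hL1 (by linarith)
  have hη : ∀ j ≤ m, ‖f (node m j : ℝ)‖ ≤ L ^ (-((B:ℝ) + 3 + a * Real.log q)) := by
    intro j hj
    have hn0 : 0 ≤ node m j := by unfold node; positivity
    have hn1 : node m j ≤ 1 := by
      unfold node
      rw [div_le_one (by exact_mod_cast hmpos)]
      exact_mod_cast hj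
    have hnk : |node m j| ≤ (K:ℝ) := by
      rw [abs_of_nonneg hn0]
      linarith
    exact (hreal _ hnk).trans hsm
  have hint := interp hfd hmpos hr (le_of_eq hρ.symm) hfM hη hz
  have hnum := num5 (k := 2 * K) (B := (B:ℝ)) (a := a) (q := q) (L := L) hq1 (Nat.cast_nonneg B) ha hL1 hLL hm1 hm2
  have hfin := hint.trans hnum
  rw [Real.rpow_neg hL0.le, Real.rpow_natCast] at hfin
  exact hfin

end

end Pool.Agent.X110.QF
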