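import Pool.Agent.X110.LW2
import Pool.Agent.X110.QG8

set_option autoImplicit false

/-! Twisted moments of complex orders. -/

namespace Pool.Agent.X110.QF

open Finset Filter Topology
open Pool.Agent.H306R2 Pool.Agent.Y746.OA Pool.Agent.X110.LT Pool.Agent.X110.ND

noncomputable section

/-- `d_z` as an arithmetic function -/
def dAC (z : ℂ) : ArithmeticFunction ℂ := ⟨dvC z, by simp [dvC]⟩

/-- the scaled twist, complex -/
def WsC (W : ArithmeticFunction ℝ) (σ : ℝ) : ArithmeticFunction ℂ := ⟨fun n => ((Ws W σ n : ℝ) : ℂ), by simp⟩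

/-- the diagonal series -/
def SWC (W : ArithmeticFunction ℝ) (z : ℂ) (δ : ℝ) : ℂ :=
  ∑' k : ℕ, if Odd k then (WsC W (1 / 2 + δ) * dAC z) (k ^ 2) * (hk k * (k:ℝ) ^ (-1 - 2 * δ) : ℝ) else 0

/-- the terms -/
def fw (W : ArithmeticFunction ℝ) (z : ℂ) (δ : ℝ) (k : ℕ) : ℂ :=
  if Odd k then (WsC W (1 / 2 + δ) * dAC z) (k ^ 2) * (hk k * (k:ℝ) ^ (-1 - 2 * δ) : ℝ) else 0

lemma conv_ofReal (W : ArithmeticFunction ℝ) (σ β : ℝ) (n : ℕ) :
    (WsC W σ * dAC β) n = (((Ws W σ * dA β) n : ℝ) : ℂ) := by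
  rw [ArithmeticFunction.mul_apply, ArithmeticFunction.mul_apply, Complex.ofReal_sum]
  refine sum_congr rfl fun x _ => ?_
  show ((Ws W σ x.1 : ℝ) : ℂ) * dvC β x.2 = _
  rw [dvC_ofReal, Complex.ofReal_mul]
  rfl

lemma SWC_ofReal (W : ArithmeticFunction ℝ) (β δ : ℝ) : SWC W β δ = ((SW W β δ : ℝ) : ℂ) := by
  unfold SWC SW
  rw [Complex.ofReal_tsum]
  refine tsum_congr fun k => ?_
  split_ifs
  · rw [conv_ofReal]
    push_cast
    ring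
  · simp

lemma convC_norm {W : ArithmeticFunction ℝ} {Q0 : ℕ} (hW : ∀ n : ℕ, Q0 < n → W n = 0) {σ : ℝ} (hσ : σ ≤ 1)
    {K : ℕ} {z : ℂ} (hz : ‖z‖ ≤ ((2 * K : ℕ) : ℝ)) (n : ℕ) :
    ‖(WsC W σ * dAC z) n‖ ≤ CW W Q0 * dv ((2 * (K + 1) : ℕ) : ℝ) n := by
  have hC := CW_pos W Q0
  have h1 : ‖(WsC W σ * dAC z) n‖ ≤ CW W Q0 * (dA 1 * dA ((2 * K : ℕ) : ℝ)) n := by
    rw [ArithmeticFunction.mul_apply, ArithmeticFunction.mul_apply, mul_sum]
    refine (norm_sum_le _ _).trans (sum_le_sum fun x _ => ?_)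
    rw [norm_mul, ← mul_assoc]
    have g1 := Ws_abs hW hσ x.1
    have g2 : ‖WsC W σ x.1‖ ≤ CW W Q0 * dv 1 x.1 := by
      show ‖((Ws W σ x.1 : ℝ) : ℂ)‖ ≤ _
      rw [Complex.norm_real, Real.norm_eq_abs]
      exact g1
    exact mul_le_mul g2 (dvC_norm_le hz _) (norm_nonneg _) ((abs_nonneg _).trans g1)
  refine h1.trans (mul_le_mul_of_nonneg_left ?_ hC.le)
  rw [dA_mul]
  show dv _ n ≤ _
  refine (le_abs_self _).trans (dv_abs_le ?_ n)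
  rw [abs_of_nonneg (by positivity)]
  push_cast
  linarith

lemma fw_norm {W : ArithmeticFunction ℝ} {Q0 : ℕ} (hW : ∀ n : ℕ, Q0 < n → W n = 0) {z : ℂ} {K : ℕ}
    (hz : ‖z‖ ≤ ((2 * K : ℕ) : ℝ)) {δ : ℝ} (hδ : 0 < δ) (hδ1 : δ ≤ 1 / 2) (k : ℕ) :
    ‖fw W z δ k‖ ≤ CW W Q0 * (dv (((2 * (K + 1)) ^ 2 : ℕ) : ℝ) k * (k:ℝ) ^ (-1 - δ)) := by
  have hC := CW_pos W Q0
  have h4 : 0 ≤ dv (((2 * (K + 1)) ^ 2 : ℕ) : ℝ) k := dv_nonneg (Nat.cast_nonneg _) k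
  unfold fw
  split_ifs with h
  · have hk1 : (1:ℝ) ≤ k := by exact_mod_cast h.pos
    rw [norm_mul, Complex.norm_real, Real.norm_of_nonneg (mul_nonneg (hk_nonneg k) (by positivity))]
    have h1 : ‖(WsC W (1 / 2 + δ) * dAC z) (k ^ 2)‖ ≤ CW W Q0 * dv (((2 * (K + 1)) ^ 2 : ℕ) : ℝ) k := by
      rw [pow_two]
      exact (convC_norm hW (by linarith) hz _).trans (mul_le_mul_of_nonneg_left (dv_kk (by omega) k) hC.le)
    have h2 : hk k * (k:ℝ) ^ (-1 - 2 * δ) ≤ 1 * (k:ℝ) ^ (-1 - δ) := by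
      refine mul_le_mul (hk_le_one k) ?_ (by positivity) (by norm_num)
      exact Real.rpow_le_rpow_of_exponent_le hk1 (by linarith)
    rw [one_mul] at h2
    calc ‖(WsC W (1 / 2 + δ) * dAC z) (k ^ 2)‖ * (hk k * (k:ℝ) ^ (-1 - 2 * δ)) ≤
          (CW W Q0 * dv (((2 * (K + 1)) ^ 2 : ℕ) : ℝ) k) * (k:ℝ) ^ (-1 - δ) :=
          mul_le_mul h1 h2 (mul_nonneg (hk_nonneg k) (by positivity)) (by positivity)
      _ = _ := by ring
  · rw [norm_zero]; positivity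

lemma fw_summable {W : ArithmeticFunction ℝ} {Q0 : ℕ} (hW : ∀ n : ℕ, Q0 < n → W n = 0) {z : ℂ} {K : ℕ}
    (hz : ‖z‖ ≤ ((2 * K : ℕ) : ℝ)) {δ : ℝ} (hδ : 0 < δ) (hδ1 : δ ≤ 1 / 2) :
    Summable fun k => ‖fw W z δ k‖ := by
  refine summable_of_sum_le (fun k => norm_nonneg _) (c := CW W Q0 * (2 / δ) ^ ((2 * (K + 1)) ^ 2)) fun F => ?_
  refine (sum_le_sum fun k _ => fw_norm hW hz hδ hδ1 k).trans ?_
  rw [← mul_sum]
  exact mul_le_mul_of_nonneg_left (dvJ_sum _ hδ (by linarith) F) (CW_pos W Q0).le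

lemma SWC_norm {W : ArithmeticFunction ℝ} {Q0 : ℕ} (hW : ∀ n : ℕ, Q0 < n → W n = 0) {z : ℂ} {K : ℕ}
    (hz : ‖z‖ ≤ ((2 * K : ℕ) : ℝ)) {δ : ℝ} (hδ : 0 < δ) (hδ1 : δ ≤ 1 / 2) :
    ‖SWC W z δ‖ ≤ CW W Q0 * (2 / δ) ^ ((2 * (K + 1)) ^ 2) := by
  have h := fw_summable hW hz hδ hδ1
  refine (norm_tsum_le_tsum_norm (f := fw W z δ) h).trans ?_
  refine h.tsum_le_of_sum_le fun F => ?_
  refine (sum_le_sum fun k _ => fw_norm hW hz hδ hδ1 k).trans ?_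
  rw [← mul_sum]
  exact mul_le_mul_of_nonneg_left (dvJ_sum _ hδ (by linarith) F) (CW_pos W Q0).le

lemma convC_diff (W : ArithmeticFunction ℝ) (σ : ℝ) (n : ℕ) : Differentiable ℂ fun z => (WsC W σ * dAC z) n := by
  simp only [ArithmeticFunction.mul_apply]
  refine Differentiable.fun_sum fun x _ => ?_
  exact (dvC_diff x.2).const_mul _

lemma SWC_diff {W : ArithmeticFunction ℝ} {Q0 : ℕ} (hW : ∀ n : ℕ, Q0 < n → W n = 0) {δ : ℝ} (hδ : 0 < δ) (hδ1 : δ ≤ 1 / 2) :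
    Differentiable ℂ fun z => SWC W z δ := by
  intro z₀
  obtain ⟨K, hK⟩ := exists_nat_ge (‖z₀‖ + 1)
  have h : DifferentiableOn ℂ (fun z => SWC W z δ) (Metric.ball z₀ 1) := by
    unfold SWC
    have hs : Summable fun k : ℕ => CW W Q0 * (dv (((2 * (K + 1)) ^ 2 : ℕ) : ℝ) k * (k:ℝ) ^ (-1 - δ)) :=
      (summable_of_sum_le (fun k => mul_nonneg (dv_nonneg (Nat.cast_nonneg _) k) (by positivity))
        (c := (2 / δ) ^ ((2 * (K + 1)) ^ 2)) fun F => dvJ_sum _ hδ (by linarith) F).mul_left _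
    refine Complex.differentiableOn_tsum_of_summable_norm hs (fun n => ?_) Metric.isOpen_ball fun n z hz => ?_
    · split_ifs
      · exact ((convC_diff W _ (n ^ 2)).mul_const _).differentiableOn
      · exact differentiableOn_const _
    · refine fw_norm hW ?_ hδ hδ1 n
      rw [Metric.mem_ball, dist_eq_norm] at hz
      have := norm_sub_norm_le z z₀
      push_cast
      linarith
  exact (h z₀ (Metric.mem_ball_self one_pos)).differentiableAt (Metric.isOpen_ball.mem_nhds (Metric.mem_ball_self one_pos))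

/-- weighted moment of complex order -/
def MW (V : ℝ) (X : ℕ) (θ u : ℕ → ℝ) (z : ℂ) : ℂ := (∑ d ∈ fam X, (θ d : ℂ) * tc V z (u d)) / ((#(fam X) : ℝ) : ℂ)

lemma MW_diff {V : ℝ} (hV : 1 ≤ V) (X : ℕ) (θ u : ℕ → ℝ) : Differentiable ℂ (MW V X θ u) := by
  unfold MW
  exact (Differentiable.fun_sum fun d _ => (tc_diff hV (u d)).const_mul _).div_const _

lemma MW_real {V : ℝ} (hV : 1 ≤ V) (X : ℕ) (θ u : ℕ → ℝ) (β : ℝ) :
    MW V X θ u β = (((∑ d ∈ fam X, θ d * tp V (β / 2) (u d)) / (#(fam X) : ℝ) : ℝ) : ℂ) := by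
  unfold MW
  rw [Complex.ofReal_div, Complex.ofReal_sum]
  congr 1
  refine sum_congr rfl fun d _ => ?_
  rw [tc_real hV β (u d), Complex.ofReal_mul]

lemma MW_norm {V : ℝ} (hV : 1 ≤ V) (X : ℕ) {θ : ℕ → ℝ} {C : ℝ} (hθ : ∀ d, |θ d| ≤ C) (u : ℕ → ℝ) (z : ℂ) :
    ‖MW V X θ u z‖ ≤ C * ((∑ d ∈ fam X, tp V (z.re / 2) (u d)) / (#(fam X) : ℝ)) := by
  unfold MW
  rw [norm_div, Complex.norm_real, Real.norm_of_nonneg (Nat.cast_nonneg _), ← mul_div_assoc]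
  refine div_le_div_of_nonneg_right ?_ (Nat.cast_nonneg _)
  rw [mul_sum]
  refine (norm_sum_le _ _).trans (sum_le_sum fun d _ => ?_)
  rw [norm_mul, tc_norm hV z (u d), Complex.norm_real, Real.norm_eq_abs]
  exact mul_le_mul_of_nonneg_right (hθ d) (tp_nonneg hV)

/-- **Twisted moments of complex orders.** -/
theorem cmomW {ε : ℤ} (hε : ε = 1 ∨ ε = -1) {v : ℕ → ℝ → ℝ} (hv : Hyp ε v) {W : ArithmeticFunction ℝ} {Q0 : ℕ}
    (hQ0 : 1 ≤ Q0) (hW : ∀ n : ℕ, Q0 < n → W n = 0) {r : ℝ} (hr : 0 ≤ r) :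
    ∃ c : ℝ, 0 < c ∧ ∀ B : ℕ, ∃ (A : ℕ) (C : ℝ) (X0 : ℕ), 0 < C ∧ ∀ X : ℕ, X0 ≤ X → ∀ δ : ℝ,
      C * Real.log (Real.log X) / Real.log X ≤ δ → δ ≤ 1 / 16 → 1 ≤ Real.log X ∧ 0 < δ ∧ 2 / δ ≤ Real.log X ∧
      ∀ V : ℝ, Real.log X ^ A ≤ V → V ≤ (X:ℝ) ^ (c * δ) →
      ∀ z : ℂ, ‖z‖ ≤ r → ‖MW V X (thW ε W Q0) (fun d => v d (1 / 2 + δ)) z - SWC W z δ‖ ≤ (Real.log X ^ B)⁻¹ := by
  set ρ : ℝ := 1 + Real.exp 1 * (r + 1) with hρ
  have hρ0 : 1 ≤ ρ := by rw [hρ]; have := Real.exp_pos 1; nlinarith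
  set K : ℕ := ⌈ρ⌉₊ with hK
  have hKρ : ρ ≤ K := Nat.le_ceil ρ
  have hK1 : 1 ≤ K := by
    have : (1:ℝ) ≤ K := hρ0.trans hKρ
    exact_mod_cast this
  have hCW := CW_pos W Q0
  set CWc : ℝ := CW W Q0 with hCWc
  obtain ⟨c1, hc1, H1⟩ := asm hε hv hK1
  obtain ⟨c2, hc2, H⟩ := asmW hε hv hQ0 hW hK1
  refine ⟨min c1 c2, lt_min hc1 hc2, fun B => ?_⟩
  set q : ℝ := 2 * Real.exp 1 * (ρ + 1) with hq
  have hq1 : 1 ≤ q := by
    rw [hq]
    have : 1 ≤ Real.exp 1 := Real.one_le_exp (by norm_num)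
    nlinarith
  set k : ℕ := 2 * K + 3 with hk
  set a : ℝ := (k : ℝ) ^ 2 + B + 2 with ha
  have ha0 : 0 ≤ a := by rw [ha]; positivity
  have hlq : 0 ≤ Real.log q := Real.log_nonneg hq1
  set B' : ℕ := ⌈(B:ℝ) + 3 + a * Real.log q⌉₊ with hB'
  have hB'1 : (B:ℝ) + 3 + a * Real.log q ≤ B' := Nat.le_ceil _
  have hBB' : B ≤ B' := by
    have h1 : (B:ℝ) ≤ B' := by
      have : 0 ≤ a * Real.log q := by positivity
      linarith
    exact_mod_cast h1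
  obtain ⟨A1, C1, X1, hC1, K1⟩ := H1 B'
  obtain ⟨A2, C2, X2, hC2, K2⟩ := H B'
  set Lc : ℝ := 20 + 4 * ((a + 3) * q) + CWc with hLc
  refine ⟨max A1 A2, max (max C1 C2) 2, max (max X1 X2) (⌈Real.exp Lc⌉₊ + 100), lt_max_of_lt_right two_pos,
    fun X hX δ hδ hδ1 => ?_⟩
  have hX1X : X1 ≤ X := ((le_max_left _ _).trans (le_max_left _ _)).trans hX
  have hX2X : X2 ≤ X := ((le_max_right _ _).trans (le_max_left _ _)).trans hX
  have hX2 : ⌈Real.exp Lc⌉₊ + 100 ≤ X := (le_max_right _ _).trans hX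
  have hXe : Real.exp Lc ≤ X := (Nat.le_ceil _).trans (by exact_mod_cast (by omega : ⌈Real.exp Lc⌉₊ ≤ X))
  have hXpos : (0:ℝ) < X := lt_of_lt_of_le (Real.exp_pos _) hXe
  have hX100 : (1:ℝ) ≤ X := by exact_mod_cast (by omega : 1 ≤ X)
  set L := Real.log X with hL
  have hLL : Lc ≤ L := by rwa [hL, Real.le_log_iff_exp_le hXpos]
  have h4q : 0 ≤ 4 * ((a + 3) * q) := by positivity
  have hL20 : 20 ≤ L := by linarith
  have hL1 : 1 ≤ L := by linarith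
  have hL0 : 0 < L := by linarith
  have hCL : CWc ≤ L := by linarith
  have hlL : 1 ≤ Real.log L := by
    rw [Real.le_log_iff_exp_le hL0]
    linarith [Real.exp_one_lt_d9]
  have hδC1 : C1 * Real.log L / L ≤ δ := le_trans (by gcongr; exact (le_max_left _ _).trans (le_max_left _ _)) hδ
  have hδC2 : C2 * Real.log L / L ≤ δ := le_trans (by gcongr; exact (le_max_right _ _).trans (le_max_left _ _)) hδ
  have hδ2 : 2 * Real.log L / L ≤ δ := le_trans (by gcongr; exact le_max_right _ _) hδ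
  have hδL : 2 ≤ δ * L := by
    rw [div_le_iff₀ hL0] at hδ2
    linarith
  have hδ0 : 0 < δ := by
    by_contra h
    push Not at h
    nlinarith
  have h2δ : 2 / δ ≤ L := by rw [div_le_iff₀ hδ0]; linarith
  refine ⟨hL1, hδ0, h2δ, fun V hV1 hV2 => ?_⟩
  have hV : 1 ≤ V := (one_le_pow₀ hL1).trans hV1
  have hVa : L ^ A1 ≤ V := (pow_le_pow_right₀ hL1 (le_max_left _ _)).trans hV1
  have hVb : L ^ A2 ≤ V := (pow_le_pow_right₀ hL1 (le_max_right _ _)).trans hV1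
  have hVc : V ≤ (X:ℝ) ^ (c1 * δ) := hV2.trans (Real.rpow_le_rpow_of_exponent_le hX100
    (mul_le_mul_of_nonneg_right (min_le_left _ _) hδ0.le))
  have hVd : V ≤ (X:ℝ) ^ (c2 * δ) := hV2.trans (Real.rpow_le_rpow_of_exponent_le hX100
    (mul_le_mul_of_nonneg_right (min_le_right _ _) hδ0.le))
  obtain ⟨-, g2⟩ := K1 X hX1X δ hδC1 hδ1 V hVa hVc
  have g3 := K2 X hX2X δ hδC2 hδ1 V hVb hVd
  have hinvB : (L ^ B')⁻¹ ≤ (L ^ B)⁻¹ := inv_anti₀ (by positivity) (pow_le_pow_right₀ hL1 hBB')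
  intro z hz
  set u : ℕ → ℝ := fun d => v d (1 / 2 + δ) with hu
  set f : ℂ → ℂ := fun z => MW V X (thW ε W Q0) u z - SWC W z δ with hf
  have hfd : Differentiable ℂ f := (MW_diff hV X _ u).sub (SWC_diff hW hδ0 (by linarith))
  have hreal : ∀ β : ℝ, |β| ≤ (K:ℝ) → ‖f β‖ ≤ (L ^ B')⁻¹ := by
    intro β hβ
    have h1 := g3 β hβ
    show ‖MW V X (thW ε W Q0) u β - SWC W β δ‖ ≤ _
    rw [MW_real hV, SWC_ofReal, ← Complex.ofReal_sub, Complex.norm_real, Real.norm_eq_abs]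
    exact h1
  have hK0 : (0:ℝ) ≤ K := Nat.cast_nonneg K
  have hSQn : ∀ w : ℂ, ‖w‖ ≤ (K:ℝ) → ‖SQC w δ‖ ≤ L ^ (2 * K) ^ 2 := by
    intro w hw
    have h1 : ‖w‖ ≤ ((2 * K : ℕ) : ℝ) := by push_cast; linarith
    exact (SQC_norm hK1 h1 hδ0 (by linarith)).trans (pow_le_pow_left₀ (by positivity) h2δ _)
  have hSWn : ∀ w : ℂ, ‖w‖ ≤ (K:ℝ) → ‖SWC W w δ‖ ≤ CWc * L ^ (2 * (K + 1)) ^ 2 := by
    intro w hw
    have h1 : ‖w‖ ≤ ((2 * K : ℕ) : ℝ) := by push_cast; linarith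
    exact (SWC_norm hW h1 hδ0 (by linarith)).trans
      (mul_le_mul_of_nonneg_left (pow_le_pow_left₀ (by positivity) h2δ _) hCW.le)
  have hinv1 : (L ^ B')⁻¹ ≤ 1 := inv_le_one_of_one_le₀ (one_le_pow₀ hL1)
  have hfM : ∀ w : ℂ, ‖w‖ ≤ ρ → ‖f w‖ ≤ 5 * L ^ k ^ 2 := by
    intro w hw
    have hwK : ‖w‖ ≤ (K:ℝ) := hw.trans hKρ
    have hwre : |w.re| ≤ (K:ℝ) := (Complex.abs_re_le_norm w).trans hwK
    have h1 := MW_norm hV X (thW_abs ε W Q0) u w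
    have h2 := (abs_le.mp (g2 w.re hwre)).2
    have h3 : |SQ w.re δ| ≤ L ^ (2 * K) ^ 2 := by
      have := hSQn (w.re : ℂ) (by rw [Complex.norm_real, Real.norm_eq_abs]; exact hwre)
      rwa [SQC_ofReal, Complex.norm_real, Real.norm_eq_abs] at this
    have h4 := hSWn w hwK
    have h6 : (1:ℝ) ≤ L ^ (2 * K) ^ 2 := one_le_pow₀ hL1
    have h7 := norm_sub_le (MW V X (thW ε W Q0) u w) (SWC W w δ)
    have h8 := (abs_le.mp h3).2
    have h9 : CWc * ((∑ d ∈ fam X, tp V (w.re / 2) (u d)) / (#(fam X) : ℝ)) ≤ CWc * (2 * L ^ (2 * K) ^ 2) :=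
      mul_le_mul_of_nonneg_left (by linarith) hCW.le
    have h10 : L ^ (2 * K) ^ 2 * L ≤ L ^ k ^ 2 := by
      rw [← pow_succ]
      exact pow_le_pow_right₀ hL1 (by rw [hk]; nlinarith)
    have h11 : L ^ (2 * (K + 1)) ^ 2 * L ≤ L ^ k ^ 2 := by
      rw [← pow_succ]
      exact pow_le_pow_right₀ hL1 (by rw [hk]; nlinarith)
    have h12 : CWc * L ^ (2 * K) ^ 2 ≤ L ^ k ^ 2 :=
      (mul_le_mul_of_nonneg_right hCL (by positivity)).trans (le_trans (le_of_eq (mul_comm _ _)) h10)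
    have h13 : CWc * L ^ (2 * (K + 1)) ^ 2 ≤ L ^ k ^ 2 :=
      (mul_le_mul_of_nonneg_right hCL (by positivity)).trans (le_trans (le_of_eq (mul_comm _ _)) h11)
    have h14 : 0 < L ^ k ^ 2 := by positivity
    show ‖MW V X (thW ε W Q0) u w - SWC W w δ‖ ≤ _
    linarith
  set m : ℕ := ⌈a * Real.log L⌉₊ + 1 - 1 + (if ⌈a * Real.log L⌉₊ = 0 then 1 else 0) with hm
  have hlL0 : 0 ≤ Real.log L := by linarith
  have hmpos : 0 < m := by
    rw [hm]; split_ifs <;> omega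
  have hm1 : a * Real.log L ≤ m := by
    have h1 := Nat.le_ceil (a * Real.log L)
    have h2 : ((⌈a * Real.log L⌉₊ : ℕ) : ℝ) ≤ (m:ℝ) := by
      exact_mod_cast (by rw [hm]; split_ifs <;> omega : ⌈a * Real.log L⌉₊ ≤ m)
    linarith
  have hm2 : (m:ℝ) ≤ a * Real.log L + 1 := by
    by_cases h0 : ⌈a * Real.log L⌉₊ = 0
    · have h1 : m = 1 := by rw [hm, if_pos h0, h0]
      rw [h1]
      have : 0 ≤ a * Real.log L := by positivity
      push_cast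
      linarith
    · have h1 : m = ⌈a * Real.log L⌉₊ := by rw [hm, if_neg h0]; omega
      rw [h1]
      exact (Nat.ceil_lt_add_one (by positivity)).le
  have hsm : (L ^ B')⁻¹ ≤ L ^ (-((B:ℝ) + 3 + a * Real.log q)) := by
    rw [← Real.rpow_natCast, ← Real.rpow_neg hL0.le]
    exact Real.rpow_le_rpow_of_exponent_le hL1 (by linarith)
  have hη : ∀ j ≤ m, ‖f (node m j : ℝ)‖ ≤ L ^ (-((B:ℝ) + 3 + a * Real.log q)) := by
    intro j hj
    have hn0 : 0 ≤ node m j := by unfold node; positivity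
    have hn1 : node m j ≤ 1 := by
      unfold node
      rw [div_le_one (by exact_mod_cast hmpos)]
      exact_mod_cast hj
    have hnk : |node m j| ≤ (K:ℝ) := by
      rw [abs_of_nonneg hn0]
      linarith
    exact (hreal _ hnk).trans hsm
  have hLc' : 20 + 4 * ((a + 3) * q) ≤ L := by linarith
  have hint := interp hfd hmpos hr (le_of_eq hρ.symm) hfM hη hz
  have hnum := num5 (k := k) (B := (B:ℝ)) (a := a) (q := q) (L := L) hq1 (Nat.cast_nonneg B) ha hL1 hLc' hm1 hm2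
  have hfin := hint.trans hnum
  rw [Real.rpow_neg hL0.le, Real.rpow_natCast] at hfin
  exact hfin

end

end Pool.Agent.X110.QF
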