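import Pool.Agent.X110.QG8
import Pool.Agent.X110.LT4

set_option autoImplicit false

/-! Mod-Gaussian convergence for the family. -/

namespace Pool.Agent.X110.QF

open Finset Filter Topology
open Pool.Agent.H306R2 Pool.Agent.Y746.OA Pool.Agent.X110.LT Pool.Agent.X110.ND

noncomputable section

/-- admissible distances and truncations -/
def AdmN (δ V : ℕ → ℝ) : Prop := Tendsto δ atTop (𝓝 0) ∧ (∀ᶠ X in atTop, 1 ≤ V X) ∧ (∀ᶠ X in atTop, 0 < δ X) ∧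
  Tendsto (fun X : ℕ => Real.log (V X) / Real.log (Real.log X)) atTop atTop ∧
  Tendsto (fun X : ℕ => Real.log (V X) / (δ X * Real.log X)) atTop (𝓝 0)

lemma log_nat_tendsto : Tendsto (fun X : ℕ => Real.log (X:ℝ)) atTop atTop :=
  Real.tendsto_log_atTop.comp tendsto_natCast_atTop_atTop

/-- all the estimates hold eventually -/
lemma AdmN.ev {δ V : ℕ → ℝ} (h : AdmN δ V) {c C : ℝ} {A X0 : ℕ} (hc : 0 < c) :
    ∀ᶠ X : ℕ in atTop, X0 ≤ X ∧ 1 < Real.log X ∧ 1 ≤ V X ∧ C * Real.log (Real.log X) / Real.log X ≤ δ X ∧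
      δ X ≤ 1 / 16 ∧ Real.log X ^ A ≤ V X ∧ V X ≤ (X:ℝ) ^ (c * δ X) := by
  obtain ⟨h1, h2, h3, h4, h5⟩ := h
  have e1 : ∀ᶠ X : ℕ in atTop, 1 < Real.log (X:ℝ) := log_nat_tendsto.eventually (eventually_gt_atTop 1)
  filter_upwards [e1, h2, h3, h1.eventually (gt_mem_nhds (by norm_num : (0:ℝ) < 1 / 16)), eventually_ge_atTop X0,
    eventually_gt_atTop 1, h4.eventually (eventually_ge_atTop (max (A:ℝ) (max C 0))),
    h5.eventually (gt_mem_nhds (lt_min hc one_pos))] with X g1 g2 g3 g4 g5 g6 g7 g8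
  have hT0 : (0:ℝ) < X := by exact_mod_cast (by omega : 0 < X)
  have hL0 : 0 < Real.log X := by linarith
  have hll : 0 < Real.log (Real.log X) := Real.log_pos g1
  have hV0 : 0 < V X := by linarith
  have hδL : 0 < δ X * Real.log X := by positivity
  have k1 : max (A:ℝ) (max C 0) * Real.log (Real.log X) ≤ Real.log (V X) := by
    rwa [le_div_iff₀ hll] at g7
  have k2 : Real.log (V X) < min c 1 * (δ X * Real.log X) := by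
    rwa [div_lt_iff₀ hδL] at g8
  have k3 : C * Real.log (Real.log X) ≤ Real.log (V X) :=
    le_trans (mul_le_mul_of_nonneg_right ((le_max_left _ _).trans (le_max_right _ _)) hll.le) k1
  have k4 : A * Real.log (Real.log X) ≤ Real.log (V X) :=
    le_trans (mul_le_mul_of_nonneg_right (le_max_left _ _) hll.le) k1
  have k5 : Real.log (V X) ≤ δ X * Real.log X :=
    k2.le.trans (mul_le_of_le_one_left hδL.le (min_le_right _ _))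
  have k6 : Real.log (V X) ≤ c * (δ X * Real.log X) :=
    k2.le.trans (mul_le_mul_of_nonneg_right (min_le_left _ _) hδL.le)
  refine ⟨g5, g1, g2, ?_, g4.le, ?_, ?_⟩
  · rw [div_le_iff₀ hL0]; linarith
  · rw [← Real.rpow_natCast, Real.rpow_def_of_pos hL0, ← Real.exp_log hV0]
    refine Real.exp_le_exp.mpr ?_
    linarith
  · rw [Real.rpow_def_of_pos hT0, ← Real.exp_log hV0]
    refine Real.exp_le_exp.mpr ?_
    linarith

/-- the size of `(2δ)^w` -/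
lemma two_delta_ww {δ L : ℝ} (hδ : 0 < δ) (h2 : 2 / δ ≤ L) (hδ1 : δ ≤ 1 / 16) {w : ℂ} {R : ℕ} (hw : ‖w‖ ≤ R) :
    ‖((2 * δ : ℝ) : ℂ) ^ w‖ ≤ L ^ R := by
  have hL0 : 0 < L := lt_of_lt_of_le (by positivity) h2
  have h2δ0 : 0 < 2 * δ := by linarith
  rw [Complex.norm_cpow_eq_rpow_re_of_pos h2δ0]
  have hre : -(R:ℝ) ≤ w.re := (abs_le.mp ((Complex.abs_re_le_norm w).trans hw)).1
  have h3 : (2 * δ) ^ w.re ≤ (2 * δ) ^ (-(R:ℝ)) := Real.rpow_le_rpow_of_exponent_ge h2δ0 (by linarith) hre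
  refine h3.trans ?_
  rw [Real.rpow_neg h2δ0.le, ← Real.inv_rpow h2δ0.le, Real.rpow_natCast]
  refine pow_le_pow_left₀ (by positivity) ?_ _
  have h4 : (2 * δ)⁻¹ ≤ 2 / δ := by
    rw [mul_inv, div_eq_mul_inv]
    have : 0 < δ⁻¹ := by positivity
    nlinarith
  exact h4.trans h2

/-- **Mod-Gaussian convergence.** -/
theorem modGaussQ {ε : ℤ} (hε : ε = 1 ∨ ε = -1) {v : ℕ → ℝ → ℝ} (hv : Hyp ε v) {δ V : ℕ → ℝ} (h : AdmN δ V) (z₀ : ℂ) :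
    Tendsto (fun q : ℂ × ℕ => ((2 * δ q.2 : ℝ) : ℂ) ^ (ww q.1) * MQ (V q.2) q.2 (fun d => v d (1 / 2 + δ q.2)) q.1)
      (𝓝 z₀ ×ˢ atTop) (𝓝 (aQ z₀)) := by
  obtain ⟨r, hr⟩ := exists_nat_ge (‖z₀‖ + 1)
  have hr1 : (1:ℝ) ≤ r := by linarith [norm_nonneg z₀]
  obtain ⟨c, hc, H⟩ := cmom hε hv (r := (r:ℝ)) (by positivity)
  obtain ⟨A, C, X0, hC, H2⟩ := H (r ^ 2 + 1)
  have hev := h.ev (C := C) (A := A) (X0 := X0) hc
  have h1 : Tendsto (fun q : ℂ × ℕ => hq q.1 (δ q.2)) (𝓝 z₀ ×ˢ atTop) (𝓝 (aQ z₀)) := by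
    have t2 : Tendsto (fun q : ℂ × ℕ => q.2) (𝓝 z₀ ×ˢ (atTop : Filter ℕ)) atTop := tendsto_snd
    have t1 : Tendsto (fun q : ℂ × ℕ => q.1) (𝓝 z₀ ×ˢ (atTop : Filter ℕ)) (𝓝 z₀) := tendsto_fst
    have t3 : Tendsto (fun q : ℂ × ℕ => δ q.2) (𝓝 z₀ ×ˢ (atTop : Filter ℕ)) (𝓝 0) := h.1.comp t2
    have t4 : ∀ᶠ q : ℂ × ℕ in 𝓝 z₀ ×ˢ (atTop : Filter ℕ), δ q.2 ∈ Set.Ioi (0:ℝ) := t2.eventually h.2.2.1
    have t5 : Tendsto (fun q : ℂ × ℕ => δ q.2) (𝓝 z₀ ×ˢ (atTop : Filter ℕ)) (𝓝[>] 0) :=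
      tendsto_nhdsWithin_iff.mpr ⟨t3, t4⟩
    have h2 : Tendsto (fun q : ℂ × ℕ => (q.1, δ q.2)) (𝓝 z₀ ×ˢ (atTop : Filter ℕ)) (𝓝 z₀ ×ˢ 𝓝[>] (0:ℝ)) :=
      Tendsto.prodMk t1 t5
    have h6 : Tendsto (fun q : ℂ × ℝ => hq q.1 q.2) (𝓝 z₀ ×ˢ 𝓝[>] (0:ℝ)) (𝓝 (aQ z₀)) := hq_tendsto z₀
    have h7 := Tendsto.comp h6 h2
    simpa only [Function.comp_def] using h7
  have h3 : Tendsto (fun q : ℂ × ℕ => ((2 * δ q.2 : ℝ) : ℂ) ^ (ww q.1) *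
      MQ (V q.2) q.2 (fun d => v d (1 / 2 + δ q.2)) q.1 - hq q.1 (δ q.2)) (𝓝 z₀ ×ˢ atTop) (𝓝 0) := by
    have hL : Tendsto (fun q : ℂ × ℕ => (Real.log (q.2:ℝ))⁻¹) (𝓝 z₀ ×ˢ atTop) (𝓝 0) :=
      (tendsto_inv_atTop_zero.comp log_nat_tendsto).comp tendsto_snd
    refine squeeze_zero_norm' ?_ hL
    have hb : ∀ᶠ q : ℂ × ℕ in 𝓝 z₀ ×ˢ atTop, ‖q.1‖ ≤ r := by
      have h : ∀ᶠ z : ℂ in 𝓝 z₀, ‖z‖ < ‖z₀‖ + 1 := continuous_norm.continuousAt.eventually (gt_mem_nhds (by linarith))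
      exact (tendsto_fst.eventually h).mono fun p hp => hp.le.trans hr
    filter_upwards [hb, tendsto_snd.eventually hev] with q hq' ⟨g1, g3, g4, g5, g6, g7, g8⟩
    obtain ⟨k1, k2, k3, k4⟩ := H2 q.2 g1 (δ q.2) g5 g6
    have k5 := (k4 (V q.2) g7 g8).2 q.1 hq'
    have e1 : ((2 * δ q.2 : ℝ) : ℂ) ^ (ww q.1) * MQ (V q.2) q.2 (fun d => v d (1 / 2 + δ q.2)) q.1 - hq q.1 (δ q.2) =
        ((2 * δ q.2 : ℝ) : ℂ) ^ (ww q.1) * (MQ (V q.2) q.2 (fun d => v d (1 / 2 + δ q.2)) q.1 - SQC q.1 (δ q.2)) := by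
      unfold hq; ring
    rw [e1, norm_mul]
    have hL0 : 0 < Real.log (q.2:ℝ) := by linarith
    have hww : ‖ww q.1‖ ≤ ((r ^ 2 : ℕ) : ℝ) := by
      push_cast
      exact ww_norm hr1 hq'
    calc _ ≤ Real.log (q.2:ℝ) ^ (r ^ 2) * (Real.log (q.2:ℝ) ^ (r ^ 2 + 1))⁻¹ :=
          mul_le_mul (two_delta_ww k2 k3 g6 hww) k5 (norm_nonneg _) (by positivity)
      _ = (Real.log (q.2:ℝ))⁻¹ := by
          have hne : Real.log (q.2:ℝ) ^ (r ^ 2) ≠ 0 := (pow_pos hL0 _).ne'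
          rw [pow_succ (Real.log (q.2:ℝ)) (r ^ 2), mul_inv, ← mul_assoc, mul_inv_cancel₀ hne, one_mul]
  have h4 := h3.add h1
  rw [zero_add] at h4
  exact h4.congr fun q => by ring

end

end Pool.Agent.X110.QF
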