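import Pool.Agent.X110.LW3
import Pool.Agent.X110.QG9

set_option autoImplicit false

/-! The limit of the twisted diagonal series. -/

namespace Pool.Agent.X110.QF

open Finset Filter Topology
open Pool.Agent.H306R2 Pool.Agent.Y746.OA Pool.Agent.X110.LT Pool.Agent.X110.ND

noncomputable section

variable {W : ArithmeticFunction ℝ} {Q0 : ℕ}

lemma Ws_mult (hm : W.IsMultiplicative) (σ : ℝ) : (WsC W σ).IsMultiplicative := by
  refine ⟨?_, fun {m n} h => ?_⟩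
  · show ((Ws W σ 1 : ℝ) : ℂ) = 1
    rw [Ws_apply, hm.1]
    simp
  · show ((Ws W σ (m * n) : ℝ) : ℂ) = ((Ws W σ m : ℝ) : ℂ) * ((Ws W σ n : ℝ) : ℂ)
    rw [Ws_apply, Ws_apply, Ws_apply, hm.2 h, Nat.cast_mul, Real.mul_rpow (Nat.cast_nonneg _) (Nat.cast_nonneg _)]
    push_cast
    ring

lemma dAC_mult (z : ℂ) : (dAC z).IsMultiplicative := by
  refine ⟨?_, fun {m n} h => dvC_mul z h⟩
  show dvC z 1 = 1
  simp [dvC]

lemma fw_one (hm : W.IsMultiplicative) (z : ℂ) (δ : ℝ) : fw W z δ 1 = 1 := by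
  unfold fw
  rw [if_pos (by norm_num), hk_one', one_pow, ((Ws_mult hm _).mul (dAC_mult z)).1]
  simp

lemma fw_zero (z : ℂ) (δ : ℝ) : fw W z δ 0 = 0 := by
  unfold fw
  rw [if_neg (by simp)]

lemma fw_mul (hm : W.IsMultiplicative) (z : ℂ) (δ : ℝ) {m n : ℕ} (h : Nat.Coprime m n) :
    fw W z δ (m * n) = fw W z δ m * fw W z δ n := by
  unfold fw
  by_cases h1 : Odd m
  · by_cases h2 : Odd n
    · rw [if_pos h1, if_pos h2, if_pos (h1.mul h2), mul_pow, ((Ws_mult hm _).mul (dAC_mult z)).2 (Nat.Coprime.pow 2 2 h),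
        hk_mul' h, Nat.cast_mul, Real.mul_rpow (Nat.cast_nonneg _) (Nat.cast_nonneg _)]
      push_cast
      ring
    · rw [if_neg h2, if_neg (fun h => h2 (Nat.odd_mul.mp h).2), mul_zero]
  · rw [if_neg h1, if_neg (fun h => h1 (Nat.odd_mul.mp h).1), zero_mul]

/-- local factor -/
def FW (W : ArithmeticFunction ℝ) (z : ℂ) (δ : ℝ) (p : ℕ) : ℂ := ∑' e : ℕ, fw W z δ (p ^ e)

/-- normalised local factor -/
def GW (W : ArithmeticFunction ℝ) (z : ℂ) (δ : ℝ) (p : ℕ) : ℂ := ((1 - xp p δ : ℝ) : ℂ) ^ (ww z) * FW W z δ p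

/-- the arithmetic factor -/
def aW (W : ArithmeticFunction ℝ) (z : ℂ) : ℂ := ∏' p : Nat.Primes, GW W z 0 p

lemma conv_big (hW : ∀ n : ℕ, Q0 < n → W n = 0) (hm : W.IsMultiplicative) {p : ℕ} (hp : p.Prime) (hpQ : Q0 < p) (σ : ℝ) (z : ℂ) (j : ℕ) :
    (WsC W σ * dAC z) (p ^ j) = dvC z (p ^ j) := by
  rw [ArithmeticFunction.mul_apply]
  rw [sum_eq_single (1, p ^ j)]
  · show WsC W σ 1 * dvC z (p ^ j) = _
    rw [(Ws_mult hm σ).1, one_mul]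
  · intro x hx hx1
    rw [Nat.mem_divisorsAntidiagonal] at hx
    have h1 : x.1 ∣ p ^ j := ⟨x.2, hx.1.symm⟩
    obtain ⟨i, hi, h2⟩ := (Nat.dvd_prime_pow hp).mp h1
    rcases Nat.eq_zero_or_pos i with h0 | h0
    · exfalso
      apply hx1
      rw [h0, pow_zero] at h2
      have h3 : x.2 = p ^ j := by rw [← hx.1, h2, one_mul]
      exact Prod.ext h2 h3
    · have h3 : p ≤ x.1 := by
        rw [h2]
        calc p = p ^ 1 := (pow_one p).symm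
          _ ≤ p ^ i := Nat.pow_le_pow_right hp.pos h0
      show ((Ws W σ x.1 : ℝ) : ℂ) * _ = 0
      rw [Ws_apply, hW _ (by omega)]
      simp
  · intro h
    exfalso
    apply h
    rw [Nat.mem_divisorsAntidiagonal]
    exact ⟨one_mul _, pow_ne_zero _ hp.ne_zero⟩

lemma fw_big (hW : ∀ n : ℕ, Q0 < n → W n = 0) (hm : W.IsMultiplicative) {p : ℕ} (hp : p.Prime) (hpQ : Q0 < p) (z : ℂ) (δ : ℝ) (e : ℕ) :
    fw W z δ (p ^ e) = fq z δ (p ^ e) := by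
  unfold fw fq
  split_ifs
  · rw [← pow_mul, conv_big hW hm hp hpQ, pow_mul]
  · rfl

/-- `fq_prime` also at `δ = 0` -/
lemma fq_prime0 (z : ℂ) {δ : ℝ} (hδ : 0 ≤ δ) {p : ℕ} (hp : p.Prime) : ∑' e : ℕ, fq z δ (p ^ e) = Fq z p (xp p δ) := by
  unfold Fq
  split_ifs with h2
  · subst h2
    rw [tsum_eq_single 0]
    · rw [pow_zero, fq_one]
    · intro e he
      unfold fq
      rw [if_neg]
      rw [Nat.not_odd_iff_even]
      exact (Nat.even_pow.mpr ⟨by norm_num, he⟩)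
  · obtain ⟨R, hR⟩ := exists_nat_ge (max ‖z‖ 1)
    have hR1 : (1:ℝ) ≤ R := (le_max_right _ _).trans hR
    have hzR : ‖z‖ ≤ R := (le_max_left _ _).trans hR
    have hx0 := (xp_pos hp δ).le
    have hx1 := (xp_le hp hδ).trans (inv_half hp)
    have hs := T2_summable hR1 hzR hx0 hx1
    have hs1 := (summable_nat_add_iff 1).mpr hs
    have e1 : T2 z (xp p δ) - 1 = ∑' m : ℕ, lcC z (2 * (m + 1)) * (xp p δ : ℂ) ^ (m + 1) := by
      unfold T2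
      rw [hs.tsum_eq_zero_add, mul_zero, lcC_zero, pow_zero]
      ring
    have hs2 : Summable fun e : ℕ => fq z δ (p ^ e) := by
      rw [← summable_nat_add_iff 1]
      refine (hs1.mul_left (((p:ℝ) / (p + 1) : ℝ) : ℂ)).congr fun e => ?_
      rw [fq_pow z δ hp h2]
    rw [hs2.tsum_eq_zero_add, pow_zero, fq_one, e1, ← tsum_mul_left]
    congr 1
    exact tsum_congr fun e => fq_pow z δ hp h2 e

lemma GW_big (hW : ∀ n : ℕ, Q0 < n → W n = 0) (hm : W.IsMultiplicative) {p : ℕ} (hp : p.Prime) (hpQ : Q0 < p) (z : ℂ)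
    {δ : ℝ} (hδ : 0 ≤ δ) : GW W z δ p = Gq z p (xp p δ) := by
  unfold GW Gq FW
  rw [tsum_congr fun e => fw_big hW hm hp hpQ z δ e, fq_prime0 z hδ hp]

lemma SWC_hasProd (hW : ∀ n : ℕ, Q0 < n → W n = 0) (hm : W.IsMultiplicative) (z : ℂ) {δ : ℝ} (hδ : 0 < δ) (hδ1 : δ ≤ 1 / 2) :
    HasProd (fun p : Nat.Primes => FW W z δ p) (SWC W z δ) := by
  obtain ⟨K, hK⟩ := exists_nat_ge ‖z‖
  have hz : ‖z‖ ≤ ((2 * K : ℕ) : ℝ) := by
    have h2 : (0:ℝ) ≤ K := Nat.cast_nonneg K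
    push_cast; linarith
  exact EulerProduct.eulerProduct_hasProd (f := fw W z δ) (fw_one hm z δ) (fun {m n} h => fw_mul hm z δ h)
    (fw_summable hW hz hδ hδ1) (fw_zero z δ)

lemma GW_hasProd (hW : ∀ n : ℕ, Q0 < n → W n = 0) (hm : W.IsMultiplicative) (z : ℂ) {δ : ℝ} (hδ : 0 < δ) (hδ1 : δ ≤ 1 / 2) :
    HasProd (fun p : Nat.Primes => GW W z δ p) ((((Zr (2 * δ))⁻¹ : ℝ) : ℂ) ^ (ww z) * SWC W z δ) := by
  have h1 := SWC_hasProd hW hm z hδ hδ1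
  have h2 := hasProd_cpow (Zr_hasProd' hδ) (fun p => by
    have h3 := xp_le p.2 hδ.le
    have h4 := inv_half p.2
    linarith) (inv_pos.mpr (Zr_pos (by linarith : 0 < 2 * δ))) (ww z)
  exact h2.mul h1

lemma fw_cont (W : ArithmeticFunction ℝ) (k : ℕ) : Continuous fun q : ℂ × ℝ => fw W q.1 q.2 k := by
  unfold fw
  by_cases h : Odd k
  · simp only [if_pos h]
    have hk0 : (k:ℝ) ≠ 0 := by exact_mod_cast h.pos.ne'
    refine Continuous.mul ?_ ?_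
    · simp only [ArithmeticFunction.mul_apply]
      refine continuous_finsetSum _ fun x hx => ?_
      rw [Nat.mem_divisorsAntidiagonal] at hx
      have hx1 : (x.1:ℝ) ≠ 0 := by
        have : x.1 ≠ 0 := by rintro h; rw [h, zero_mul] at hx; exact hx.2 hx.1.symm
        exact_mod_cast this
      refine Continuous.mul ?_ ((dvC_diff x.2).continuous.comp continuous_fst)
      show Continuous fun q : ℂ × ℝ => ((W x.1 * (x.1:ℝ) ^ (1 / 2 + q.2) : ℝ) : ℂ)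
      refine Complex.continuous_ofReal.comp (continuous_const.mul ?_)
      exact continuous_const.rpow (continuous_const.add continuous_snd) fun _ => Or.inl hx1
    · refine Complex.continuous_ofReal.comp (continuous_const.mul ?_)
      exact continuous_const.rpow (continuous_const.sub (continuous_const.mul continuous_snd)) fun _ => Or.inl hk0
  · simp only [if_neg h]
    exact continuous_const

lemma FW_tendsto (hW : ∀ n : ℕ, Q0 < n → W n = 0) (z₀ : ℂ) {p : ℕ} (hp : p.Prime) :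
    Tendsto (fun q : ℂ × ℝ => FW W q.1 q.2 p) (lf z₀) (𝓝 (FW W z₀ 0 p)) := by
  obtain ⟨K, hK⟩ := exists_nat_ge (‖z₀‖ + 1)
  have hp2 : (2:ℝ) ≤ p := by exact_mod_cast hp.two_le
  unfold FW
  refine tendsto_tsum_of_dominated_convergence
    (bound := fun e => CW W Q0 * ‖lc (((2 * (K + 1)) ^ 2 : ℕ) : ℝ) e * (1 / 2 : ℝ) ^ e‖)
    ((AA_summable _ (by rw [abs_of_pos (by norm_num)]; norm_num)).mul_left _) (fun e => ?_) ?_
  · have h1 := ((fw_cont W (p ^ e)).tendsto (z₀, 0)).comp (Tendsto.prodMk_nhds (lf_fst z₀) (lf_snd z₀))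
    exact h1
  · filter_upwards [lf_pos z₀, lf_bdd z₀, (lf_snd z₀).eventually (ge_mem_nhds (by norm_num : (0:ℝ) < 1 / 2))] with q hq hb hq2 e
    have h1 : ‖q.1‖ ≤ ((2 * K : ℕ) : ℝ) := by
      have := norm_nonneg z₀
      push_cast; linarith
    refine (fw_norm hW h1 hq hq2 _).trans (mul_le_mul_of_nonneg_left ?_ (CW_pos W Q0).le)
    have h2 : dv (((2 * (K + 1)) ^ 2 : ℕ) : ℝ) (p ^ e) = lc (((2 * (K + 1)) ^ 2 : ℕ) : ℝ) e := by
      unfold dv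
      rw [if_neg (pow_ne_zero _ hp.ne_zero), hp.factorization_pow]
      exact Finsupp.prod_single_index (by simp [lc])
    have h3 : 0 ≤ lc (((2 * (K + 1)) ^ 2 : ℕ) : ℝ) e := by
      rw [← h2]
      exact dv_nonneg (Nat.cast_nonneg _) _
    rw [h2, Real.norm_of_nonneg (by positivity)]
    refine mul_le_mul_of_nonneg_left ?_ h3
    have hpe : (1:ℝ) ≤ ((p ^ e : ℕ) : ℝ) := by exact_mod_cast Nat.one_le_pow _ _ hp.pos
    calc ((p ^ e : ℕ) : ℝ) ^ (-1 - q.2) ≤ ((p ^ e : ℕ) : ℝ) ^ (-1 : ℝ) :=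
          Real.rpow_le_rpow_of_exponent_le hpe (by linarith)
      _ = ((p:ℝ) ^ e)⁻¹ := by rw [Real.rpow_neg_one]; push_cast; rfl
      _ ≤ ((2:ℝ) ^ e)⁻¹ := inv_anti₀ (by positivity) (pow_le_pow_left₀ (by norm_num) hp2 e)
      _ = (1 / 2 : ℝ) ^ e := by rw [one_div, inv_pow]

lemma GW_tendsto (hW : ∀ n : ℕ, Q0 < n → W n = 0) (z₀ : ℂ) {p : ℕ} (hp : p.Prime) :
    Tendsto (fun q : ℂ × ℝ => GW W q.1 q.2 p) (lf z₀) (𝓝 (GW W z₀ 0 p)) := by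
  unfold GW
  refine Tendsto.mul ?_ (FW_tendsto hW z₀ hp)
  have h2 := ((xp_cont hp).tendsto 0).comp (lf_snd z₀)
  have h3 := (Complex.continuous_ofReal.tendsto _).comp (h2.const_sub 1)
  refine h3.cpow ((ww_cont.tendsto z₀).comp (lf_fst z₀)) ?_
  rw [Complex.mem_slitPlane_iff]
  left
  have := inv_half hp
  rw [xp_zero, Complex.ofReal_re]
  linarith

lemma bd_summable (c : ℕ → ℝ) (C : ℝ) (Q0 : ℕ) :
    Summable fun p : Nat.Primes => if (p:ℕ) ≤ Q0 then c p else C * (1 / ((p:ℕ):ℝ)) ^ 2 := by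
  have h1 : Summable fun n : ℕ => if n ≤ Q0 then c n - C * (1 / (n:ℝ)) ^ 2 else 0 := by
    refine summable_of_ne_finset_zero (s := range (Q0 + 1)) fun n hn => ?_
    rw [mem_range] at hn
    rw [if_neg (by omega)]
  have h2 : Summable fun p : Nat.Primes => if (p:ℕ) ≤ Q0 then c p - C * (1 / ((p:ℕ):ℝ)) ^ 2 else 0 :=
    h1.comp_injective Nat.Primes.coe_nat_injective
  refine (h2.add (primes_summable.mul_left C)).congr fun p => ?_
  split_ifs <;> ring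

lemma tprodW_tendsto (hW : ∀ n : ℕ, Q0 < n → W n = 0) (hm : W.IsMultiplicative) (z₀ : ℂ) :
    Tendsto (fun q : ℂ × ℝ => ∏' p : Nat.Primes, GW W q.1 q.2 p) (lf z₀) (𝓝 (aW W z₀)) := by
  have h := tendsto_tprod_one_add_of_dominated_convergence (𝓕 := lf z₀)
    (f := fun (q : ℂ × ℝ) (p : Nat.Primes) => GW W q.1 q.2 p - 1)
    (g := fun p : Nat.Primes => GW W z₀ 0 p - 1)
    (bound := fun p : Nat.Primes => if (p:ℕ) ≤ Q0 then ‖GW W z₀ 0 p - 1‖ + 1 else CQ (‖z₀‖ + 1) * (1 / ((p:ℕ):ℝ)) ^ 2)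
    (bd_summable (fun n => ‖GW W z₀ 0 n - 1‖ + 1) _ Q0) (fun p => (GW_tendsto hW z₀ p.2).sub_const 1) ?_
  · simp only [add_sub_cancel] at h
    exact h
  · have h1 : ∀ᶠ q : ℂ × ℝ in lf z₀, ∀ n ∈ range (Q0 + 1), n.Prime → ‖GW W q.1 q.2 n - 1‖ ≤ ‖GW W z₀ 0 n - 1‖ + 1 := by
      rw [eventually_all_finset]
      intro n _
      by_cases hn : n.Prime
      · have h2 := ((GW_tendsto hW z₀ hn).sub_const 1).norm
        filter_upwards [h2.eventually (gt_mem_nhds (by linarith : ‖GW W z₀ 0 n - 1‖ < ‖GW W z₀ 0 n - 1‖ + 1))] with q hq _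
        exact hq.le
      · exact Eventually.of_forall fun _ h => absurd h hn
    filter_upwards [lf_pos z₀, lf_bdd z₀, h1] with q hq hb h2 p
    split_ifs with h3
    · exact h2 p (mem_range.mpr (by omega)) p.2
    · rw [GW_big hW hm p.2 (by omega) _ hq.le]
      have h1 := xp_le p.2 hq.le
      exact Gq_bound (by linarith [norm_nonneg z₀]) hb p.2 (xp_pos p.2 _).le h1

/-- the normalised series -/
def hqW (W : ArithmeticFunction ℝ) (z : ℂ) (δ : ℝ) : ℂ := ((2 * δ : ℝ) : ℂ) ^ (ww z) * SWC W z δ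

/-- **The joint limit.** -/
theorem hqW_tendsto (hW : ∀ n : ℕ, Q0 < n → W n = 0) (hm : W.IsMultiplicative) (z₀ : ℂ) :
    Tendsto (fun q : ℂ × ℝ => hqW W q.1 q.2) (lf z₀) (𝓝 (aW W z₀)) := by
  have h1 : Tendsto (fun q : ℂ × ℝ => (((2 * q.2 * Zr (2 * q.2) : ℝ)) : ℂ) ^ (ww q.1)) (lf z₀) (𝓝 1) := by
    have h2 : Tendsto (fun q : ℂ × ℝ => 2 * q.2 * Zr (2 * q.2)) (lf z₀) (𝓝 1) :=
      Zr_lim.comp (tendsto_snd (f := 𝓝 z₀) (g := 𝓝[>] (0:ℝ)))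
    have h3 := (Complex.continuous_ofReal.tendsto _).comp h2
    have h4 := h3.cpow ((ww_cont.tendsto z₀).comp (lf_fst z₀)) (by
      rw [Complex.mem_slitPlane_iff]; left; simp)
    rw [Complex.ofReal_one, Complex.one_cpow] at h4
    exact h4
  have h5 := h1.mul (tprodW_tendsto hW hm z₀)
  rw [one_mul] at h5
  refine h5.congr' ?_
  filter_upwards [lf_pos z₀, (lf_snd z₀).eventually (ge_mem_nhds (by norm_num : (0:ℝ) < 1 / 2))] with q hq hq1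
  have hZ : 0 < Zr (2 * q.2) := Zr_pos (by linarith)
  rw [(GW_hasProd hW hm q.1 hq hq1).tprod_eq]
  unfold hqW
  rw [Complex.ofReal_mul (2 * q.2), Complex.mul_cpow_ofReal_nonneg (by linarith) hZ.le]
  have e1 : (((Zr (2 * q.2)) : ℝ) : ℂ) ^ (ww q.1) * ((((Zr (2 * q.2))⁻¹ : ℝ) : ℂ) ^ (ww q.1)) = 1 := by
    rw [← Complex.mul_cpow_ofReal_nonneg hZ.le (inv_pos.mpr hZ).le, ← Complex.ofReal_mul, mul_inv_cancel₀ hZ.ne',
      Complex.ofReal_one, Complex.one_cpow]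
  calc _ = ((2 * q.2 : ℝ) : ℂ) ^ (ww q.1) * ((((Zr (2 * q.2)) : ℝ) : ℂ) ^ (ww q.1) *
        ((((Zr (2 * q.2))⁻¹ : ℝ) : ℂ) ^ (ww q.1))) * SWC W q.1 q.2 := by ring
    _ = _ := by rw [e1, mul_one]

/-- **Mod-Gaussian convergence, twisted.** -/
theorem modGaussW {ε : ℤ} (hε : ε = 1 ∨ ε = -1) {v : ℕ → ℝ → ℝ} (hv : Hyp ε v) (hQ0 : 1 ≤ Q0)
    (hW : ∀ n : ℕ, Q0 < n → W n = 0) (hm : W.IsMultiplicative) {δ V : ℕ → ℝ} (h : AdmN δ V) (z₀ : ℂ) :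
    Tendsto (fun q : ℂ × ℕ => ((2 * δ q.2 : ℝ) : ℂ) ^ (ww q.1) *
      MW (V q.2) q.2 (thW ε W Q0) (fun d => v d (1 / 2 + δ q.2)) q.1) (𝓝 z₀ ×ˢ atTop) (𝓝 (aW W z₀)) := by
  obtain ⟨r, hr⟩ := exists_nat_ge (‖z₀‖ + 1)
  have hr1 : (1:ℝ) ≤ r := by linarith [norm_nonneg z₀]
  obtain ⟨c, hc, H⟩ := cmomW hε hv hQ0 hW (r := (r:ℝ)) (by positivity)
  obtain ⟨A, C, X0, hC, H2⟩ := H (r ^ 2 + 1)
  have hev := h.ev (C := C) (A := A) (X0 := X0) hc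
  have h1 : Tendsto (fun q : ℂ × ℕ => hqW W q.1 (δ q.2)) (𝓝 z₀ ×ˢ atTop) (𝓝 (aW W z₀)) := by
    have t2 : Tendsto (fun q : ℂ × ℕ => q.2) (𝓝 z₀ ×ˢ (atTop : Filter ℕ)) atTop := tendsto_snd
    have t1 : Tendsto (fun q : ℂ × ℕ => q.1) (𝓝 z₀ ×ˢ (atTop : Filter ℕ)) (𝓝 z₀) := tendsto_fst
    have t3 : Tendsto (fun q : ℂ × ℕ => δ q.2) (𝓝 z₀ ×ˢ (atTop : Filter ℕ)) (𝓝 0) := h.1.comp t2
    have t4 : ∀ᶠ q : ℂ × ℕ in 𝓝 z₀ ×ˢ (atTop : Filter ℕ), δ q.2 ∈ Set.Ioi (0:ℝ) := t2.eventually h.2.2.1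
    have t5 : Tendsto (fun q : ℂ × ℕ => δ q.2) (𝓝 z₀ ×ˢ (atTop : Filter ℕ)) (𝓝[>] 0) :=
      tendsto_nhdsWithin_iff.mpr ⟨t3, t4⟩
    have h2 : Tendsto (fun q : ℂ × ℕ => (q.1, δ q.2)) (𝓝 z₀ ×ˢ (atTop : Filter ℕ)) (𝓝 z₀ ×ˢ 𝓝[>] (0:ℝ)) :=
      Tendsto.prodMk t1 t5
    have h6 : Tendsto (fun q : ℂ × ℝ => hqW W q.1 q.2) (𝓝 z₀ ×ˢ 𝓝[>] (0:ℝ)) (𝓝 (aW W z₀)) := hqW_tendsto hW hm z₀
    have h7 := Tendsto.comp h6 h2
    simpa only [Function.comp_def] using h7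
  have h3 : Tendsto (fun q : ℂ × ℕ => ((2 * δ q.2 : ℝ) : ℂ) ^ (ww q.1) *
      MW (V q.2) q.2 (thW ε W Q0) (fun d => v d (1 / 2 + δ q.2)) q.1 - hqW W q.1 (δ q.2)) (𝓝 z₀ ×ˢ atTop) (𝓝 0) := by
    have hL : Tendsto (fun q : ℂ × ℕ => (Real.log (q.2:ℝ))⁻¹) (𝓝 z₀ ×ˢ atTop) (𝓝 0) :=
      (tendsto_inv_atTop_zero.comp log_nat_tendsto).comp tendsto_snd
    refine squeeze_zero_norm' ?_ hL
    have hb : ∀ᶠ q : ℂ × ℕ in 𝓝 z₀ ×ˢ atTop, ‖q.1‖ ≤ r := by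
      have h : ∀ᶠ z : ℂ in 𝓝 z₀, ‖z‖ < ‖z₀‖ + 1 := continuous_norm.continuousAt.eventually (gt_mem_nhds (by linarith))
      exact (tendsto_fst.eventually h).mono fun p hp => hp.le.trans hr
    filter_upwards [hb, tendsto_snd.eventually hev] with q hq' ⟨g1, g3, g4, g5, g6, g7, g8⟩
    obtain ⟨k1, k2, k3, k4⟩ := H2 q.2 g1 (δ q.2) g5 g6
    have k5 := k4 (V q.2) g7 g8 q.1 hq'
    have e1 : ((2 * δ q.2 : ℝ) : ℂ) ^ (ww q.1) * MW (V q.2) q.2 (thW ε W Q0) (fun d => v d (1 / 2 + δ q.2)) q.1 -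
        hqW W q.1 (δ q.2) =
        ((2 * δ q.2 : ℝ) : ℂ) ^ (ww q.1) * (MW (V q.2) q.2 (thW ε W Q0) (fun d => v d (1 / 2 + δ q.2)) q.1 -
          SWC W q.1 (δ q.2)) := by
      unfold hqW; ring
    rw [e1, norm_mul]
    have hL0 : 0 < Real.log (q.2:ℝ) := by linarith
    have hww : ‖ww q.1‖ ≤ ((r ^ 2 : ℕ) : ℝ) := by
      push_cast
      exact ww_norm hr1 hq'
    calc _ ≤ Real.log (q.2:ℝ) ^ (r ^ 2) * (Real.log (q.2:ℝ) ^ (r ^ 2 + 1))⁻¹ :=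
          mul_le_mul (two_delta_ww k2 k3 g6 hww) k5 (norm_nonneg _) (by positivity)
      _ = (Real.log (q.2:ℝ))⁻¹ := by
          have hne : Real.log (q.2:ℝ) ^ (r ^ 2) ≠ 0 := (pow_pos hL0 _).ne'
          rw [pow_succ (Real.log (q.2:ℝ)) (r ^ 2), mul_inv, ← mul_assoc, mul_inv_cancel₀ hne, one_mul]
  have h4 := h3.add h1
  rw [zero_add] at h4
  exact h4.congr fun q => by ring

end

end Pool.Agent.X110.QF
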