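import Pool.Agent.X110.LW4

set_option autoImplicit false

/-! The twisted arithmetic factor for real orders. -/

namespace Pool.Agent.X110.QF

open Finset Filter Topology
open Pool.Agent.H306R2 Pool.Agent.Y746.OA Pool.Agent.X110.LT Pool.Agent.X110.ND

noncomputable section

variable {W : ArithmeticFunction ℝ} {Q0 : ℕ}

/-- value of the twist at `χ(p) = s` -/
def thl (W : ArithmeticFunction ℝ) (p : ℕ) (s : ℝ) : ℝ := ∑' j : ℕ, W (p ^ j) * s ^ j

/-- `√(1/p)` -/
def yp (p : ℕ) : ℝ := Real.sqrt (1 / (p:ℝ))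

lemma yp_le {p : ℕ} (hp : p.Prime) : |yp p| ≤ 3 / 4 := by
  have h1 := inv_half hp
  unfold yp
  rw [abs_of_nonneg (Real.sqrt_nonneg _), Real.sqrt_le_left (by norm_num)]
  norm_num
  norm_num at h1
  linarith

lemma yp_pos {p : ℕ} (hp : p.Prime) : 0 < yp p := Real.sqrt_pos.mpr (inv_pos' hp)

lemma W_van (hW : ∀ n : ℕ, Q0 < n → W n = 0) {p : ℕ} (hp : p.Prime) {j : ℕ} (hj : Q0 ≤ j) : W (p ^ j) = 0 := by
  refine hW _ (lt_of_le_of_lt hj (Nat.lt_pow_self hp.one_lt))

lemma thl_summable (hW : ∀ n : ℕ, Q0 < n → W n = 0) {p : ℕ} (hp : p.Prime) (s : ℝ) :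
    Summable fun j : ℕ => ‖W (p ^ j) * s ^ j‖ := by
  refine summable_of_ne_finset_zero (s := range Q0) fun j hj => ?_
  rw [mem_range] at hj
  rw [W_van hW hp (by omega), zero_mul, norm_zero]

/-- the coefficient -/
def cf (W : ArithmeticFunction ℝ) (β : ℝ) (p n : ℕ) : ℝ := ∑ j ∈ range (n + 1), W (p ^ j) * (lc β (n - j) * yp p ^ (n - j))

lemma cf_sum (hW : ∀ n : ℕ, Q0 < n → W n = 0) (β : ℝ) {p : ℕ} (hp : p.Prime) {s : ℝ} (hs : s = 1 ∨ s = -1) :
    Summable (fun n => cf W β p n * s ^ n) ∧ ∑' n, cf W β p n * s ^ n = thl W p s * AA β (s * yp p) := by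
  have hy : |s * yp p| ≤ 3 / 4 := by
    rw [abs_mul]
    have : |s| = 1 := by rcases hs with h | h <;> rw [h] <;> simp
    rw [this, one_mul]
    exact yp_le hp
  have h1 := thl_summable hW hp s
  have h2 := AA_summable β hy
  have e : ∀ n, cf W β p n * s ^ n = ∑ j ∈ range (n + 1), (W (p ^ j) * s ^ j) * (lc β (n - j) * (s * yp p) ^ (n - j)) := by
    intro n
    unfold cf
    rw [sum_mul]
    refine sum_congr rfl fun j hj => ?_
    rw [mem_range] at hj
    have h3 : s ^ n = s ^ j * s ^ (n - j) := by rw [← pow_add]; congr 1; omega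
    rw [h3, mul_pow]
    ring
  constructor
  · have h3 := (summable_norm_sum_mul_range_of_summable_norm h1 h2).of_norm
    exact h3.congr fun n => (e n).symm
  · unfold thl AA
    rw [tsum_mul_tsum_eq_tsum_sum_range_of_summable_norm h1 h2]
    exact tsum_congr e

lemma cf_even (hW : ∀ n : ℕ, Q0 < n → W n = 0) (β : ℝ) {p : ℕ} (hp : p.Prime) :
    Summable (fun m => cf W β p (2 * m)) ∧
    ∑' m, cf W β p (2 * m) = (thl W p 1 * AA β (yp p) + thl W p (-1) * AA β (-yp p)) / 2 := by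
  obtain ⟨s1, t1⟩ := cf_sum hW β hp (s := 1) (Or.inl rfl)
  obtain ⟨s2, t2⟩ := cf_sum hW β hp (s := -1) (Or.inr rfl)
  rw [one_mul] at t1
  rw [neg_one_mul] at t2
  set g : ℕ → ℝ := fun n => (cf W β p n * 1 ^ n + cf W β p n * (-1) ^ n) / 2 with hg
  have hs : Summable g := (s1.add s2).div_const 2
  have i1 : Function.Injective (fun m : ℕ => 2 * m) := fun a b h => by
    dsimp only at h; omega
  have i2 : Function.Injective (fun m : ℕ => 2 * m + 1) := fun a b h => by
    dsimp only at h; omega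
  have hse : Summable fun m : ℕ => g (2 * m) := hs.comp_injective i1
  have hso : Summable fun m : ℕ => g (2 * m + 1) := hs.comp_injective i2
  have g1 : ∀ m : ℕ, g (2 * m + 1) = 0 := by
    intro m
    have : (-1:ℝ) ^ (2 * m + 1) = -1 := Odd.neg_one_pow ⟨m, rfl⟩
    simp only [hg]
    rw [this]; simp
  have g2 : ∀ m : ℕ, g (2 * m) = cf W β p (2 * m) := by
    intro m
    have : (-1:ℝ) ^ (2 * m) = 1 := by rw [pow_mul]; simp
    simp only [hg]
    rw [this]; simp
  have h1 : ∑' n, g n = (thl W p 1 * AA β (yp p) + thl W p (-1) * AA β (-yp p)) / 2 := by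
    rw [← t1, ← t2, ← s1.tsum_add s2, ← tsum_div_const]
  refine ⟨hse.congr g2, ?_⟩
  rw [← h1, ← tsum_even_add_odd hse hso]
  simp_rw [g1, g2]
  rw [tsum_zero, add_zero]

/-- the local factor, real -/
def FWR (W : ArithmeticFunction ℝ) (β : ℝ) (p : ℕ) : ℝ :=
  if p = 2 then 1 else 1 + (p:ℝ) / (p + 1) * ((thl W p 1 * AA β (yp p) + thl W p (-1) * AA β (-yp p)) / 2 - 1)

/-- the local factor without twist -/
def FQR (β : ℝ) (p : ℕ) : ℝ :=
  if p = 2 then 1 else 1 + (p:ℝ) / (p + 1) * ((AA β (yp p) + AA β (-yp p)) / 2 - 1)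

lemma conv_pp (W : ArithmeticFunction ℝ) (σ β : ℝ) {p : ℕ} (hp : p.Prime) (n : ℕ) :
    (Ws W σ * dA β) (p ^ n) = ∑ j ∈ range (n + 1), Ws W σ (p ^ j) * lc β (n - j) := by
  rw [ArithmeticFunction.mul_apply, Nat.sum_divisorsAntidiagonal (fun i j => Ws W σ i * dA β j),
    Nat.divisors_prime_pow hp, sum_map]
  refine sum_congr rfl fun j hj => ?_
  rw [mem_range] at hj
  simp only [Function.Embedding.coeFn_mk]
  rw [Nat.pow_div (by omega) hp.pos]
  congr 1
  show dv β (p ^ (n - j)) = _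
  unfold dv
  rw [if_neg (pow_ne_zero _ hp.ne_zero), hp.factorization_pow]
  exact Finsupp.prod_single_index (by simp [lc])

lemma fw_pp (W : ArithmeticFunction ℝ) (β : ℝ) {p : ℕ} (hp : p.Prime) (h2 : p ≠ 2) (e : ℕ) :
    fw W β 0 (p ^ (e + 1)) = (((p:ℝ) / (p + 1) * cf W β p (2 * (e + 1)) : ℝ) : ℂ) := by
  have hodd : Odd (p ^ (e + 1)) := (hp.odd_of_ne_two h2).pow
  have hp0 : (0:ℝ) < p := by exact_mod_cast hp.pos
  unfold fw
  rw [if_pos hodd, conv_ofReal, hk_pow hp, ← Complex.ofReal_mul, ← pow_mul, mul_comm (e + 1) 2, conv_pp W _ β hp]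
  congr 1
  unfold cf
  rw [sum_mul, mul_sum]
  refine sum_congr rfl fun j hj => ?_
  rw [mem_range] at hj
  have hy : yp p = (p:ℝ) ^ (-(1 / 2 : ℝ)) := by
    unfold yp
    rw [Real.sqrt_eq_rpow, one_div, Real.inv_rpow hp0.le, ← Real.rpow_neg hp0.le]
  rw [Ws_apply, Nat.cast_pow, Nat.cast_pow, hy, ← Real.rpow_natCast, ← Real.rpow_natCast, ← Real.rpow_natCast,
    ← Real.rpow_mul hp0.le, ← Real.rpow_mul hp0.le, ← Real.rpow_mul hp0.le]
  have h3 : (p:ℝ) ^ ((j:ℝ) * (1 / 2 + 0)) * (p:ℝ) ^ (((e + 1 : ℕ) : ℝ) * (-1 - 2 * 0)) =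
      (p:ℝ) ^ (-(1 / 2 : ℝ) * ((2 * (e + 1) - j : ℕ) : ℝ)) := by
    rw [← Real.rpow_add hp0]
    congr 1
    rw [Nat.cast_sub (by omega)]
    push_cast
    ring
  rw [← h3]
  ring

lemma FW_real (hW : ∀ n : ℕ, Q0 < n → W n = 0) (hm : W.IsMultiplicative) (β : ℝ) {p : ℕ} (hp : p.Prime) :
    FW W β 0 p = ((FWR W β p : ℝ) : ℂ) := by
  unfold FW FWR
  split_ifs with h2
  · subst h2
    rw [tsum_eq_single 0]
    · rw [pow_zero, fw_one hm]; simp
    · intro e he
      unfold fw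
      rw [if_neg]
      rw [Nat.not_odd_iff_even]
      exact (Nat.even_pow.mpr ⟨by norm_num, he⟩)
  · obtain ⟨s1, t1⟩ := cf_even hW β hp
    have hs1 := (summable_nat_add_iff 1).mpr s1
    have hs2 : Summable fun e : ℕ => fw W β 0 (p ^ e) := by
      rw [← summable_nat_add_iff 1]
      have h3 : Summable fun e : ℕ => (((p:ℝ) / (p + 1) * cf W β p (2 * (e + 1)) : ℝ) : ℂ) :=
        Complex.ofRealCLM.summable (hs1.mul_left _)
      exact h3.congr fun e => (fw_pp W β hp h2 e).symm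
    rw [hs2.tsum_eq_zero_add, pow_zero, fw_one hm, ← t1, s1.tsum_eq_zero_add]
    have h0 : cf W β p (2 * 0) = 1 := by
      unfold cf
      rw [mul_zero, zero_add, sum_range_one, pow_zero, hm.1]
      simp [lc]
    rw [h0, add_sub_cancel_left, ← tsum_mul_left]
    push_cast [Complex.ofReal_tsum]
    congr 1
    refine tsum_congr fun e => ?_
    rw [fw_pp W β hp h2 e]
    push_cast
    ring

lemma GW_real (hW : ∀ n : ℕ, Q0 < n → W n = 0) (hm : W.IsMultiplicative) (β : ℝ) {p : ℕ} (hp : p.Prime) :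
    GW W β 0 p = (((1 - 1 / (p : ℝ)) ^ (β * (β + 1) / 2) * FWR W β p : ℝ) : ℂ) := by
  have h0 : (0:ℝ) ≤ 1 - 1 / p := by have := inv_half hp; linarith
  unfold GW
  rw [FW_real hW hm β hp, xp_zero, Complex.ofReal_mul, Complex.ofReal_cpow h0]
  congr 1
  unfold ww
  push_cast
  ring_nf

lemma gQ_eq (β : ℝ) {p : ℕ} (hp : p.Prime) : gQ β p = (1 - 1 / (p : ℝ)) ^ (β * (β + 1) / 2) * FQR β p := by
  unfold gQ FQR
  congr 1
  split_ifs
  · rfl
  · rw [T2R β (inv_pos' hp).le (inv_half hp)]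
    rfl

lemma FQR_pos (β : ℝ) {p : ℕ} (hp : p.Prime) : 0 < FQR β p := by
  have h1 := gQ_pos β hp
  rw [gQ_eq β hp] at h1
  have h0 : (0:ℝ) < 1 - 1 / p := by have := inv_half hp; linarith
  exact pos_of_mul_pos_right h1 (Real.rpow_pos_of_pos h0 _).le

lemma FWR_big (hW : ∀ n : ℕ, Q0 < n → W n = 0) (hm : W.IsMultiplicative) (β : ℝ) {p : ℕ} (hp : p.Prime) (hpQ : Q0 < p) :
    FWR W β p = FQR β p := by
  have h : ∀ s : ℝ, thl W p s = 1 := by
    intro s
    unfold thl
    rw [tsum_eq_single 0]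
    · rw [pow_zero, hm.1, pow_zero, mul_one]
    · intro j hj
      rw [hW, zero_mul]
      calc Q0 < p := hpQ
        _ = p ^ 1 := (pow_one p).symm
        _ ≤ p ^ j := Nat.pow_le_pow_right hp.pos (by omega)
  unfold FWR FQR
  rw [h, h, one_mul, one_mul]

/-- the ratio of the arithmetic factors -/
def RP (W : ArithmeticFunction ℝ) (Q0 : ℕ) (β : ℝ) : ℝ := ∏ p ∈ (Icc 1 Q0).filter Nat.Prime, FWR W β p / FQR β p

/-- **The twisted arithmetic factor.** -/
theorem aW_real (hW : ∀ n : ℕ, Q0 < n → W n = 0) (hm : W.IsMultiplicative) (β : ℝ) :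
    aW W β = ((aQR β * RP W Q0 β : ℝ) : ℂ) := by
  classical
  have h1 : HasProd (fun n : ℕ => if n.Prime then FWR W β n / FQR β n else 1) (RP W Q0 β) := by
    have h2 : HasProd (fun n : ℕ => if n.Prime then FWR W β n / FQR β n else 1)
      (∏ n ∈ Icc 1 Q0, if n.Prime then FWR W β n / FQR β n else 1) := hasProd_prod_of_ne_finset_one (fun n hn => by
        by_cases hp : n.Prime
        · rw [if_pos hp]
          have hn1 : Q0 < n := by
            by_contra h
            exact hn (mem_Icc.mpr ⟨hp.one_lt.le, by omega⟩)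
          rw [FWR_big hW hm β hp hn1]
          exact div_self (FQR_pos β hp).ne'
        · rw [if_neg hp])
    unfold RP
    rw [prod_filter]
    exact h2
  have h2 : HasProd (fun p : Nat.Primes => FWR W β p / FQR β p) (RP W Q0 β) := by
    have h3 := (hasProd_subtype_iff_of_mulSupport_subset (f := fun n : ℕ => if n.Prime then FWR W β n / FQR β n else 1)
      (s := {p : ℕ | p.Prime}) (fun n hn => by
        by_contra h
        apply hn
        show (if n.Prime then FWR W β n / FQR β n else 1) = 1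
        have h' : ¬ n.Prime := h
        rw [if_neg h'])).mpr h1
    refine h3.congr_fun fun p => ?_
    show _ = (if (p:ℕ).Prime then FWR W β p / FQR β p else 1)
    have hp' : (p:ℕ).Prime := p.2
    rw [if_pos hp']
  have h3 := (gQ_mult β).hasProd.mul h2
  have h4 := h3.map Complex.ofRealHom Complex.continuous_ofReal
  unfold aW
  have h5 : HasProd (fun p : Nat.Primes => GW W β 0 p) ((aQR β * RP W Q0 β : ℝ) : ℂ) := by
    refine h4.congr_fun fun p => ?_
    show GW W β 0 p = ((gQ β p * (FWR W β p / FQR β p) : ℝ) : ℂ)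
    rw [GW_real hW hm β p.2, gQ_eq β p.2]
    have := (FQR_pos β p.2).ne'
    congr 1
    field_simp
  exact h5.tprod_eq

lemma FWR_pos (W : ArithmeticFunction ℝ) (β : ℝ) {p : ℕ} (hp : p.Prime) (h1 : 0 ≤ thl W p 1) (h2 : 0 ≤ thl W p (-1)) :
    0 < FWR W β p := by
  have hp0 : (0:ℝ) < p := by exact_mod_cast hp.pos
  unfold FWR
  split_ifs
  · norm_num
  · have a1 := AA_pos β (yp_le hp)
    have a2 := AA_pos β (y := -yp p) (by rw [abs_neg]; exact yp_le hp)
    have h3 : 0 < (p:ℝ) / (p + 1) := by positivity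
    have h4 : (p:ℝ) / (p + 1) < 1 := by rw [div_lt_one (by positivity)]; linarith
    have h5 : 0 ≤ (p:ℝ) / (p + 1) * ((thl W p 1 * AA β (yp p) + thl W p (-1) * AA β (-yp p)) / 2) := by positivity
    linarith

lemma RP_pos (W : ArithmeticFunction ℝ) (Q0 : ℕ) (β : ℝ) (h : ∀ p : ℕ, p.Prime → 0 ≤ thl W p 1 ∧ 0 ≤ thl W p (-1)) :
    0 < RP W Q0 β := by
  unfold RP
  refine prod_pos fun p hp => ?_
  have hpp := (mem_filter.mp hp).2
  exact div_pos (FWR_pos W β hpp (h p hpp).1 (h p hpp).2) (FQR_pos β hpp)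

end

end Pool.Agent.X110.QF
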