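import Pool.Agent.X110.SD4
import Pool.Agent.X110.QG9

set_option autoImplicit false

/-! Precise deviations in the quadratic family. -/

namespace Pool.Agent.X110.SD

open Finset Filter Topology MeasureTheory
open Pool.Agent.X110.QF
open Pool.Agent.X110.LT (exp_unit)

noncomputable section

/-- an atomic measure -/
def At (S : Finset ℕ) (w : ℝ) (f : ℕ → ℝ) : Measure ℝ := ∑ d ∈ S, ENNReal.ofReal w • Measure.dirac (f d)

instance (S : Finset ℕ) (w : ℝ) (f : ℕ → ℝ) : IsFiniteMeasure (At S w f) := by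
  unfold At
  have : ∀ d ∈ S, IsFiniteMeasure (ENNReal.ofReal w • Measure.dirac (f d)) := by
    intro d _
    exact Measure.smul_finite _ ENNReal.ofReal_ne_top
  constructor
  rw [Measure.finsetSum_apply]
  exact ENNReal.sum_lt_top.mpr fun d hd => by
    have := this d hd
    exact measure_lt_top _ _

lemma At_int {E : Type*} [NormedAddCommGroup E] (S : Finset ℕ) (w : ℝ) (f : ℕ → ℝ) (g : ℝ → E) :
    Integrable g (At S w f) := by
  unfold At
  rw [integrable_finsetSum_measure]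
  intro d _
  exact (integrable_dirac (by simp)).smul_measure ENNReal.ofReal_ne_top

lemma At_integral {E : Type*} [NormedAddCommGroup E] [NormedSpace ℝ E] [CompleteSpace E] (S : Finset ℕ) {w : ℝ}
    (hw : 0 ≤ w) (f : ℕ → ℝ) (g : ℝ → E) : ∫ x, g x ∂(At S w f) = w • ∑ d ∈ S, g (f d) := by
  unfold At
  rw [integral_finsetSum_measure fun d _ => (integrable_dirac (by simp)).smul_measure ENNReal.ofReal_ne_top, smul_sum]
  refine sum_congr rfl fun d _ => ?_
  rw [integral_smul_measure, integral_dirac, ENNReal.toReal_ofReal hw]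

open Classical in
lemma At_real (S : Finset ℕ) {w : ℝ} (hw : 0 ≤ w) (f : ℕ → ℝ) {J : Set ℝ} (hJ : MeasurableSet J) :
    (At S w f).real J = w * #(S.filter fun d => f d ∈ J) := by
  have h1 : (At S w f).real J = ∫ x, Set.indicator J (fun _ => (1:ℝ)) x ∂(At S w f) := by
    rw [integral_indicator hJ, setIntegral_const, smul_eq_mul, mul_one]
  rw [h1, At_integral S hw, smul_eq_mul]
  congr 1
  rw [card_filter]
  push_cast
  refine sum_congr rfl fun d _ => ?_
  simp only [Set.indicator]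

/-- the large parameter -/
def el (δ : ℕ → ℝ) (X : ℕ) : ℝ := Real.log (1 / (2 * δ X))

/-- the centred logarithm -/
def xd (v : ℕ → ℝ → ℝ) (δ : ℝ) (d : ℕ) : ℝ := Real.log (v d (1 / 2 + δ)) + Real.log (2 * δ) / 2

open Classical in
/-- the good part of the family -/
def gd (v : ℕ → ℝ → ℝ) (δ V : ℕ → ℝ) (X : ℕ) : Finset ℕ :=
  (fam X).filter fun d => (V X)⁻¹ < v d (1 / 2 + δ X) ∧ v d (1 / 2 + δ X) < V X

/-- the distribution of the centred logarithm on the good part -/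
def muQ (v : ℕ → ℝ → ℝ) (δ V : ℕ → ℝ) (X : ℕ) : Measure ℝ :=
  At (gd v δ V X) (1 / (#(fam X) : ℝ)) (xd v (δ X))

lemma el_tendsto {δ : ℕ → ℝ} (h1 : Tendsto δ atTop (𝓝 0)) (h2 : ∀ᶠ X in atTop, 0 < δ X) : Tendsto (el δ) atTop atTop := by
  have h3 : Tendsto (fun X => 2 * δ X) atTop (𝓝[>] 0) := by
    rw [tendsto_nhdsWithin_iff]
    refine ⟨by simpa using h1.const_mul 2, ?_⟩
    filter_upwards [h2] with T hT
    exact mul_pos two_pos hT
  have h4 := tendsto_neg_atBot_atTop.comp (Real.tendsto_log_nhdsGT_zero.comp h3)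
  refine h4.congr fun X => ?_
  simp only [Function.comp, el]
  rw [one_div, Real.log_inv]

/-- the transform -/
lemma muQ_exp {v : ℕ → ℝ → ℝ} {δ V : ℕ → ℝ} {X : ℕ} (hδ : 0 < δ X) (hV : 1 ≤ V X) (z : ℂ) :
    Complex.exp (-((el δ X : ℝ) : ℂ) * z ^ 2 / 2) * ∫ x : ℝ, Complex.exp (z * x) ∂(muQ v δ V X) =
      ((2 * δ X : ℝ) : ℂ) ^ (ww z) * MQ (V X) X (fun d => v d (1 / 2 + δ X)) z := by
  classical
  have h2 : 0 < 2 * δ X := by linarith
  set lam := Real.log (2 * δ X) with hlam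
  have hel : el δ X = -lam := by unfold el; rw [one_div, Real.log_inv]
  unfold muQ
  rw [At_integral _ (by positivity)]
  have e1 : ∀ d ∈ gd v δ V X, Complex.exp (z * ((xd v (δ X) d : ℝ) : ℂ)) =
      Complex.exp (z * (lam : ℂ) / 2) * ((v d (1 / 2 + δ X) : ℝ) : ℂ) ^ z := by
    intro d hd
    unfold gd at hd
    rw [mem_filter] at hd
    have hv0 : 0 < v d (1 / 2 + δ X) := lt_trans (inv_pos.mpr (by linarith)) hd.2.1
    rw [Complex.cpow_def_of_ne_zero (by exact_mod_cast hv0.ne'), ← Complex.ofReal_log hv0.le, ← Complex.exp_add]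
    congr 1
    unfold xd
    push_cast
    ring
  have e2 : MQ (V X) X (fun d => v d (1 / 2 + δ X)) z =
      ((1 / (#(fam X) : ℝ) : ℝ) : ℂ) * ∑ d ∈ gd v δ V X, ((v d (1 / 2 + δ X) : ℝ) : ℂ) ^ z := by
    unfold MQ gd
    rw [sum_filter]
    simp only [tc]
    push_cast
    ring
  rw [sum_congr rfl e1, ← mul_sum, e2, Complex.real_smul, hel]
  have e3 : ((2 * δ X : ℝ) : ℂ) ^ (ww z) = Complex.exp ((lam : ℂ) * (z * (z + 1) / 2)) := by
    rw [Complex.cpow_def_of_ne_zero (by exact_mod_cast h2.ne'), ← Complex.ofReal_log h2.le]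
    rfl
  have e4 : Complex.exp (-(((-lam : ℝ)) : ℂ) * z ^ 2 / 2) * Complex.exp (z * (lam : ℂ) / 2) =
      Complex.exp ((lam : ℂ) * (z * (z + 1) / 2)) := by
    rw [← Complex.exp_add]
    congr 1
    push_cast
    ring
  rw [e3, ← e4]
  ring

/-- **Mod-Gaussian convergence of the family.** -/
theorem mgQ {ε : ℤ} (hε : ε = 1 ∨ ε = -1) {v : ℕ → ℝ → ℝ} (hv : Hyp ε v) {δ V : ℕ → ℝ} (h : AdmN δ V) :
    MG atTop (muQ v δ V) (el δ) aQ := by
  refine ⟨fun X => ?_, fun X c => At_int _ _ _ _, fun X => ?_, fun z₀ => ?_, el_tendsto h.1 h.2.2.1⟩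
  · unfold muQ; infer_instance
  · unfold muQ
    simp_rw [At_integral (gd v δ V X) (by positivity : (0:ℝ) ≤ 1 / (#(fam X) : ℝ))]
    fun_prop
  · refine (modGaussQ hε hv h z₀).congr' ?_
    have hev : ∀ᶠ X : ℕ in atTop, 0 < δ X ∧ 1 ≤ V X := h.2.2.1.and h.2.1
    have h2 : ∀ᶠ q : ℂ × ℕ in 𝓝 z₀ ×ˢ atTop, 0 < δ q.2 ∧ 1 ≤ V q.2 := tendsto_snd.eventually hev
    filter_upwards [h2] with q ⟨g1, g2⟩
    exact (muQ_exp g1 g2 q.1).symm

/-- existence of an admissible truncation -/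
lemma exists_AdmN {δ : ℕ → ℝ} (h1 : Tendsto δ atTop (𝓝 0)) (h2 : ∀ᶠ X in atTop, 0 < δ X)
    (h3 : Tendsto (fun X : ℕ => δ X * Real.log X / Real.log (Real.log X)) atTop atTop) : ∃ V : ℕ → ℝ, AdmN δ V := by
  have hl : Tendsto (fun X : ℕ => Real.log (X:ℝ)) atTop atTop := log_nat_tendsto
  have hll : Tendsto (fun X : ℕ => Real.log (Real.log (X:ℝ))) atTop atTop := Real.tendsto_log_atTop.comp hl
  refine ⟨fun X => Real.exp (Real.sqrt (Real.log (Real.log X) * (δ X * Real.log X))), h1, ?_, h2, ?_, ?_⟩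
  · exact Eventually.of_forall fun T => Real.one_le_exp (Real.sqrt_nonneg _)
  · have h4 := Real.tendsto_sqrt_atTop.comp h3
    refine h4.congr' ?_
    filter_upwards [hll.eventually (eventually_gt_atTop 0), h2, hl.eventually (eventually_gt_atTop 0)]
      with T g1 g2 g3
    simp only [Function.comp]
    rw [Real.log_exp, Real.sqrt_eq_iff_eq_sq (by positivity) (by positivity), div_pow, Real.sq_sqrt (by positivity)]
    field_simp
  · have h4 : Tendsto (fun X : ℕ => Real.sqrt ((δ X * Real.log X / Real.log (Real.log X))⁻¹)) atTop (𝓝 0) := by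
      have h5 := (Real.continuous_sqrt.tendsto 0).comp (tendsto_inv_atTop_zero.comp h3)
      rwa [Real.sqrt_zero] at h5
    refine h4.congr' ?_
    filter_upwards [hll.eventually (eventually_gt_atTop 0), h2, hl.eventually (eventually_gt_atTop 0)]
      with T g1 g2 g3
    have hp : 0 < δ T * Real.log T := by positivity
    rw [Real.log_exp, Real.sqrt_eq_iff_eq_sq (by positivity) (by positivity), div_pow, Real.sq_sqrt (by positivity)]
    field_simp

open Classical in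
/-- proportion in the family -/
def Pr (X : ℕ) (p : ℕ → Prop) : ℝ := (#((fam X).filter p) : ℝ) / (#(fam X) : ℝ)

open Classical in
/-- from the good part to the whole family -/
lemma Pr_sub {v : ℕ → ℝ → ℝ} {δ V : ℕ → ℝ} {X : ℕ} {J : Set ℝ} (hJ : MeasurableSet J) {p : ℕ → Prop}
    (hp : ∀ d ∈ gd v δ V X, (p d ↔ xd v (δ X) d ∈ J)) :
    |Pr X p - (muQ v δ V X).real J| ≤ (∑ d ∈ fam X, ib (V X) (v d (1 / 2 + δ X))) / (#(fam X) : ℝ) := by
  have h1 : (muQ v δ V X).real J = (#((gd v δ V X).filter p) : ℝ) / (#(fam X) : ℝ) := by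
    unfold muQ
    rw [At_real _ (by positivity) _ hJ]
    have : (gd v δ V X).filter (fun d => xd v (δ X) d ∈ J) = (gd v δ V X).filter p :=
      filter_congr fun d hd => (hp d hd).symm
    rw [this]
    ring
  have h2 : (fam X).filter p = (gd v δ V X).filter p ∪ ((fam X).filter p \ gd v δ V X) := by
    ext d
    simp only [gd, mem_filter, mem_union, Finset.mem_sdiff]
    tauto
  have h3 : Disjoint ((gd v δ V X).filter p) ((fam X).filter p \ gd v δ V X) := by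
    rw [Finset.disjoint_left]
    intro d hd hd2
    exact (Finset.mem_sdiff.mp hd2).2 (mem_filter.mp hd).1
  have h4 : #((fam X).filter p) = #((gd v δ V X).filter p) + #((fam X).filter p \ gd v δ V X) := by
    have h5 := card_union_of_disjoint h3
    rw [← h2] at h5
    exact h5
  have h5 : (#((fam X).filter p \ gd v δ V X) : ℝ) ≤ ∑ d ∈ fam X, ib (V X) (v d (1 / 2 + δ X)) := by
    have h6 : (#((fam X).filter p \ gd v δ V X) : ℝ) = ∑ d ∈ (fam X).filter p \ gd v δ V X, (1:ℝ) := by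
      rw [Finset.sum_const, nsmul_eq_mul, mul_one]
    rw [h6]
    refine le_trans (sum_le_sum (g := fun d => ib (V X) (v d (1 / 2 + δ X))) fun d hd => ?_)
      (sum_le_sum_of_subset_of_nonneg (sdiff_subset.trans (filter_subset _ _)) fun d _ _ => ?_)
    · have h7 := Finset.mem_sdiff.mp hd
      have h8 := (mem_filter.mp h7.1).1
      have h9 : ¬ ((V X)⁻¹ < v d (1 / 2 + δ X) ∧ v d (1 / 2 + δ X) < V X) := fun h => h7.2 (mem_filter.mpr ⟨h8, h⟩)
      simp only [ib]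
      rw [if_neg h9]
    · simp only [ib]
      split_ifs <;> norm_num
  rw [h1]
  unfold Pr
  rw [h4, Nat.cast_add, add_div, add_sub_cancel_left, abs_of_nonneg (div_nonneg (Nat.cast_nonneg _) (Nat.cast_nonneg _))]
  exact div_le_div_of_nonneg_right h5 (Nat.cast_nonneg _)

/-- the bad part is small -/
lemma bad_small {ε : ℤ} (hε : ε = 1 ∨ ε = -1) {v : ℕ → ℝ → ℝ} (hv : Hyp ε v) {δ V : ℕ → ℝ} (h : AdmN δ V) (B : ℕ) :
    ∀ᶠ X : ℕ in atTop, (∑ d ∈ fam X, ib (V X) (v d (1 / 2 + δ X))) / (#(fam X) : ℝ) ≤ (Real.log X ^ B)⁻¹ ∧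
      1 < Real.log X ∧ 0 < δ X ∧ 1 ≤ V X ∧ 1 / (2 * δ X) ≤ Real.log X := by
  obtain ⟨c, hc, H⟩ := cmom hε hv (r := 0) le_rfl
  obtain ⟨A, C, X0, hC, H2⟩ := H B
  filter_upwards [h.ev (C := C) (A := A) (X0 := X0) hc] with X ⟨g1, g3, g4, g5, g6, g7, g8⟩
  obtain ⟨k1, k2, k3, k4⟩ := H2 X g1 (δ X) g5 g6
  refine ⟨?_, g3, k2, g4, ?_⟩
  · have h1 := (k4 (V X) g7 g8).1
    rcases (Nat.cast_nonneg (α := ℝ) (#(fam X))).eq_or_lt with h0 | h0
    · rw [← h0, div_zero]; positivity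
    · rw [div_le_iff₀ h0]; linarith
  · refine le_trans ?_ k3
    rw [div_le_div_iff₀ (by linarith) k2]
    linarith

/-- from the good part to the whole family -/
theorem transfer {ε : ℤ} (hε : ε = 1 ∨ ε = -1) {v : ℕ → ℝ → ℝ} (hv : Hyp ε v) {δ V : ℕ → ℝ} (h : AdmN δ V)
    {p : ℕ → ℕ → Prop} {J : ℕ → Set ℝ} (hJ : ∀ X, MeasurableSet (J X))
    (hp : ∀ᶠ X in atTop, ∀ d ∈ gd v δ V X, (p X d ↔ xd v (δ X) d ∈ J X)) {g : ℕ → ℝ} {L : ℝ}
    (hlim : Tendsto (fun X => (muQ v δ V X).real (J X) / g X) atTop (𝓝 L)) {K : ℕ}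
    (hg : ∀ᶠ X : ℕ in atTop, (Real.log X ^ K)⁻¹ ≤ g X) : Tendsto (fun X => Pr X (p X) / g X) atTop (𝓝 L) := by
  have h0 : Tendsto (fun X => Pr X (p X) / g X - (muQ v δ V X).real (J X) / g X) atTop (𝓝 0) := by
    refine squeeze_zero_norm' (a := fun X : ℕ => (Real.log (X:ℝ))⁻¹) ?_ (tendsto_inv_atTop_zero.comp log_nat_tendsto)
    filter_upwards [bad_small hε hv h (K + 1), hp, hg] with X ⟨g1, g2, g3, g4, g5⟩ g6 g7
    have hL0 : 0 < Real.log (X:ℝ) := by linarith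
    have hg0 : 0 < g X := lt_of_lt_of_le (by positivity) g7
    have h1 := (Pr_sub (V := V) (hJ X) g6).trans g1
    rw [← sub_div, norm_div, Real.norm_eq_abs, Real.norm_of_nonneg hg0.le, div_le_iff₀ hg0]
    refine h1.trans ?_
    calc (Real.log (X:ℝ) ^ (K + 1))⁻¹ = (Real.log (X:ℝ))⁻¹ * (Real.log (X:ℝ) ^ K)⁻¹ := by
          rw [pow_succ, mul_inv, mul_comm]
      _ ≤ _ := mul_le_mul_of_nonneg_left g7 (inv_nonneg.mpr hL0.le)
  have h2 := h0.add hlim
  rw [zero_add] at h2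
  exact h2.congr fun X => by ring

/-- `ℓ` is at most `loglog X` -/
lemma el_le {δ : ℕ → ℝ} {X : ℕ} (_h1 : 1 < Real.log (X:ℝ)) (h2 : 0 < δ X) (h3 : 1 / (2 * δ X) ≤ Real.log X) :
    Real.exp (el δ X) ≤ Real.log X := by
  unfold el
  rw [Real.exp_log (by positivity)]
  exact h3

lemma Qg_big {ε : ℤ} (hε : ε = 1 ∨ ε = -1) {v : ℕ → ℝ → ℝ} (hv : Hyp ε v) {δ V : ℕ → ℝ} (h : AdmN δ V) {x : ℕ → ℝ}
    {b : ℝ} (hx : ∀ᶠ X in atTop, 0 ≤ x X) (hb : Tendsto (fun X => x X / el δ X) atTop (𝓝 b)) :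
    ∃ K : ℕ, ∀ᶠ X : ℕ in atTop, (Real.log X ^ K)⁻¹ ≤ Qg (x X / Real.sqrt (el δ X)) := by
  obtain ⟨K, hK⟩ := exists_nat_gt (b ^ 2)
  refine ⟨K + 1, ?_⟩
  have h1 : Tendsto (fun X => (x X / el δ X) ^ 2) atTop (𝓝 (b ^ 2)) := hb.pow 2
  have hel := el_tendsto h.1 h.2.2.1
  have hκ : 0 < (Real.sqrt (2 * Real.pi))⁻¹ * Real.exp (-1) := mul_pos (inv_pos.mpr sp_pos) (Real.exp_pos _)
  filter_upwards [hx, h1.eventually (gt_mem_nhds hK), bad_small hε hv h 0, hel.eventually (eventually_gt_atTop 0),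
    log_nat_tendsto.eventually (eventually_ge_atTop (((Real.sqrt (2 * Real.pi))⁻¹ * Real.exp (-1))⁻¹))]
    with X g1 g2 ⟨_, g3, g4, g5, g6⟩ g7 g8
  have hq0 : 0 < Real.sqrt (el δ X) := Real.sqrt_pos.mpr g7
  have hc0 : 0 ≤ x X / Real.sqrt (el δ X) := by positivity
  refine le_trans ?_ (Qg_lower hc0)
  have e1 : (x X / Real.sqrt (el δ X)) ^ 2 = (x X / el δ X) ^ 2 * el δ X := by
    rw [div_pow, div_pow, Real.sq_sqrt g7.le]
    field_simp
  have e2 : -(x X / Real.sqrt (el δ X) + 1) ^ 2 / 2 ≥ -1 + -(K * el δ X) := by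
    have h3 : (x X / el δ X) ^ 2 * el δ X ≤ K * el δ X := mul_le_mul_of_nonneg_right g2.le g7.le
    nlinarith [sq_nonneg (x X / Real.sqrt (el δ X) - 1)]
  have hL0 : 0 < Real.log (X:ℝ) := by linarith
  have e3 : Real.exp (-(K * el δ X)) ≥ (Real.log (X:ℝ) ^ K)⁻¹ := by
    rw [Real.exp_neg, Real.exp_nat_mul]
    refine inv_anti₀ (by positivity) (pow_le_pow_left₀ (Real.exp_pos _).le (el_le g3 g4 g6) K)
  calc (Real.log (X:ℝ) ^ (K + 1))⁻¹ = (Real.log (X:ℝ))⁻¹ * (Real.log (X:ℝ) ^ K)⁻¹ := by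
        rw [pow_succ, mul_inv, mul_comm]
    _ ≤ ((Real.sqrt (2 * Real.pi))⁻¹ * Real.exp (-1)) * Real.exp (-(K * el δ X)) := by
        refine mul_le_mul ?_ e3 (by positivity) hκ.le
        rw [inv_le_comm₀ hL0 hκ]
        exact g8
    _ = (Real.sqrt (2 * Real.pi))⁻¹ * Real.exp (-1 + -(K * el δ X)) := by rw [Real.exp_add, mul_assoc]
    _ ≤ _ := by
        refine mul_le_mul_of_nonneg_left (Real.exp_le_exp.mpr e2) (inv_nonneg.mpr sp_pos.le)

/-- **Large values.** -/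
theorem large {ε : ℤ} (hε : ε = 1 ∨ ε = -1) {v : ℕ → ℝ → ℝ} (hv : Hyp ε v) {δ : ℕ → ℝ}
    (h1 : Tendsto δ atTop (𝓝 0)) (h2 : ∀ᶠ X in atTop, 0 < δ X)
    (h3 : Tendsto (fun X : ℕ => δ X * Real.log X / Real.log (Real.log X)) atTop atTop) {x : ℕ → ℝ}
    {b : ℝ} (hx : ∀ᶠ X in atTop, 0 ≤ x X) (hb : Tendsto (fun X => x X / el δ X) atTop (𝓝 b)) :
    Tendsto (fun X => Pr X (fun d => Real.exp (x X) ≤ Real.sqrt (2 * δ X) * v d (1 / 2 + δ X)) /
      Qg (x X / Real.sqrt (el δ X))) atTop (𝓝 (aQR b)) := by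
  obtain ⟨V, hA⟩ := exists_AdmN h1 h2 h3
  obtain ⟨K, hK⟩ := Qg_big hε hv hA hx hb
  have hM := mgQ hε hv hA
  have hlim := unif hM hx hb (aQ_ofReal b) (aQR_pos b)
  refine transfer hε hv hA (J := fun X => Set.Ici (x X)) (fun X => measurableSet_Ici) ?_ hlim hK
  filter_upwards [hA.2.1, hA.2.2.1] with X g1 g2 d hd
  unfold gd at hd
  rw [mem_filter] at hd
  have hv0 : 0 < v d (1 / 2 + δ X) := lt_trans (inv_pos.mpr (by linarith)) hd.2.1
  have h22 : 0 < 2 * δ X := by linarith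
  have hs : 0 < Real.sqrt (2 * δ X) := Real.sqrt_pos.mpr h22
  have e1 : xd v (δ X) d = Real.log (Real.sqrt (2 * δ X) * v d (1 / 2 + δ X)) := by
    rw [Real.log_mul hs.ne' hv0.ne', Real.log_sqrt h22.le]
    unfold xd
    ring
  rw [Set.mem_Ici, e1, Real.le_log_iff_exp_le (by positivity)]

/-- **Small values.** -/
theorem small {ε : ℤ} (hε : ε = 1 ∨ ε = -1) {v : ℕ → ℝ → ℝ} (hv : Hyp ε v) {δ : ℕ → ℝ}
    (h1 : Tendsto δ atTop (𝓝 0)) (h2 : ∀ᶠ X in atTop, 0 < δ X)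
    (h3 : Tendsto (fun X : ℕ => δ X * Real.log X / Real.log (Real.log X)) atTop atTop) {x : ℕ → ℝ}
    {b : ℝ} (hx : ∀ᶠ X in atTop, 0 ≤ x X) (hb : Tendsto (fun X => x X / el δ X) atTop (𝓝 b)) :
    Tendsto (fun X => Pr X (fun d => Real.sqrt (2 * δ X) * v d (1 / 2 + δ X) ≤ Real.exp (-x X)) /
      Qg (x X / Real.sqrt (el δ X))) atTop (𝓝 (aQR (-b))) := by
  obtain ⟨V, hA⟩ := exists_AdmN h1 h2 h3
  obtain ⟨K, hK⟩ := Qg_big hε hv hA hx hb
  have hM := (mgQ hε hv hA).refl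
  have hab : (fun z => aQ (-z)) (b:ℂ) = ((aQR (-b) : ℝ) : ℂ) := by
    simp only
    rw [← aQ_ofReal, Complex.ofReal_neg]
  have hlim := unif hM hx hb hab (aQR_pos (-b))
  have hlim2 : Tendsto (fun X => (muQ v δ V X).real (Set.Iic (-x X)) / Qg (x X / Real.sqrt (el δ X))) atTop
      (𝓝 (aQR (-b))) := by
    refine hlim.congr fun X => ?_
    congr 1
    rw [map_measureReal_apply measurable_neg measurableSet_Ici]
    congr 1
    ext y
    simp only [Set.mem_preimage, Set.mem_Ici, Set.mem_Iic]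
    constructor <;> intro h <;> linarith
  refine transfer hε hv hA (J := fun X => Set.Iic (-x X)) (fun X => measurableSet_Iic) ?_ hlim2 hK
  filter_upwards [hA.2.1, hA.2.2.1] with X g1 g2 d hd
  unfold gd at hd
  rw [mem_filter] at hd
  have hv0 : 0 < v d (1 / 2 + δ X) := lt_trans (inv_pos.mpr (by linarith)) hd.2.1
  have h22 : 0 < 2 * δ X := by linarith
  have hs : 0 < Real.sqrt (2 * δ X) := Real.sqrt_pos.mpr h22
  have e1 : xd v (δ X) d = Real.log (Real.sqrt (2 * δ X) * v d (1 / 2 + δ X)) := by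
    rw [Real.log_mul hs.ne' hv0.ne', Real.log_sqrt h22.le]
    unfold xd
    ring
  rw [Set.mem_Iic, e1, Real.log_le_iff_le_exp (by positivity)]

/-- **Local limits.** -/
theorem local' {ε : ℤ} (hε : ε = 1 ∨ ε = -1) {v : ℕ → ℝ → ℝ} (hv : Hyp ε v) {δ : ℕ → ℝ}
    (h1 : Tendsto δ atTop (𝓝 0)) (h2 : ∀ᶠ X in atTop, 0 < δ X)
    (h3 : Tendsto (fun X : ℕ => δ X * Real.log X / Real.log (Real.log X)) atTop atTop) {β : ℕ → ℝ}
    {b : ℝ} (hβ : Tendsto β atTop (𝓝 b)) {A B : ℝ} (hA0 : 0 < A) (hAB : A ≤ B) :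
    Tendsto (fun X => Real.sqrt (2 * Real.pi * el δ X) * (2 * δ X) ^ (-β X ^ 2 / 2) *
      Pr X (fun d => A ≤ (2 * δ X) ^ (1 / 2 + β X) * v d (1 / 2 + δ X) ∧ (2 * δ X) ^ (1 / 2 + β X) * v d (1 / 2 + δ X) ≤ B))
      atTop (𝓝 (aQR b * ∫ y in A..B, y ^ (-b - 1))) := by
  obtain ⟨V, hA⟩ := exists_AdmN h1 h2 h3
  have hM := mgQ hε hv hA
  have hB0 : 0 < B := lt_of_lt_of_le hA0 hAB
  have hlog : Real.log A ≤ Real.log B := Real.log_le_log hA0 hAB
  have hlim := loc hM hβ (aQ_ofReal b) (aQR_pos b) hlog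
  have hint : ∫ x in Real.log A..Real.log B, Real.exp (-(b * x)) = ∫ y in A..B, y ^ (-b - 1) := by
    have h5 := intervalIntegral.integral_comp_mul_deriv'' (f := Real.exp) (f' := Real.exp)
      (g := fun y : ℝ => y ^ (-b - 1)) (a := Real.log A) (b := Real.log B) Real.continuous_exp.continuousOn
      (fun x _ => (Real.hasDerivAt_exp x).hasDerivWithinAt) Real.continuous_exp.continuousOn (by
        intro y hy
        obtain ⟨x, _, rfl⟩ := hy
        exact (Real.continuousAt_rpow_const _ _ (Or.inl (Real.exp_pos x).ne')).continuousWithinAt)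
    rw [Real.exp_log hA0, Real.exp_log hB0] at h5
    rw [← h5]
    refine intervalIntegral.integral_congr fun x _ => ?_
    simp only [Function.comp]
    rw [← Real.exp_mul, ← Real.exp_add]
    congr 1; ring
  rw [hint] at hlim
  obtain ⟨K, hK⟩ := exists_nat_gt (b ^ 2)
  have hK1 : Tendsto (fun X => (β X) ^ 2) atTop (𝓝 (b ^ 2)) := hβ.pow 2
  have hel := el_tendsto h1 h2
  set G : ℕ → ℝ := fun X => Real.sqrt (el δ X) * Real.exp (el δ X * β X ^ 2 / 2) with hG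
  have hlim2 : Tendsto (fun X => (muQ v δ V X).real (Set.Icc (β X * el δ X + Real.log A) (β X * el δ X + Real.log B)) /
      (G X)⁻¹) atTop (𝓝 (aQR b / Real.sqrt (2 * Real.pi) * ∫ y in A..B, y ^ (-b - 1))) := by
    refine hlim.congr fun X => ?_
    rw [div_inv_eq_mul]
    simp only [hG]
    ring
  have hgb : ∀ᶠ X : ℕ in atTop, (Real.log X ^ (K + 1))⁻¹ ≤ (G X)⁻¹ := by
    filter_upwards [hK1.eventually (gt_mem_nhds hK), bad_small hε hv hA 0, hel.eventually (eventually_gt_atTop 0)]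
      with X g2 ⟨_, g3, g4, g5, g6⟩ g7
    have hq0 : 0 < Real.sqrt (el δ X) := Real.sqrt_pos.mpr g7
    have hel2 := el_le g3 g4 g6
    have hG0 : 0 < G X := by simp only [hG]; positivity
    refine inv_anti₀ hG0 ?_
    have e1 : Real.sqrt (el δ X) ≤ Real.log (X:ℝ) := by
      refine le_trans ?_ hel2
      rw [Real.sqrt_le_left (Real.exp_pos _).le]
      have h5 := Real.add_one_le_exp (el δ X)
      nlinarith
    have e2 : Real.exp (el δ X * β X ^ 2 / 2) ≤ Real.log (X:ℝ) ^ K := by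
      have h5 : el δ X * β X ^ 2 / 2 ≤ K * el δ X := by nlinarith [sq_nonneg (β X)]
      calc _ ≤ Real.exp (K * el δ X) := Real.exp_le_exp.mpr h5
        _ = Real.exp (el δ X) ^ K := Real.exp_nat_mul _ _
        _ ≤ _ := pow_le_pow_left₀ (Real.exp_pos _).le hel2 K
    calc G X ≤ Real.log (X:ℝ) * Real.log (X:ℝ) ^ K := mul_le_mul e1 e2 (Real.exp_pos _).le (by linarith)
      _ = _ := by ring
  have hfin := transfer hε hv hA (p := fun X d => A ≤ (2 * δ X) ^ (1 / 2 + β X) * v d (1 / 2 + δ X) ∧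
      (2 * δ X) ^ (1 / 2 + β X) * v d (1 / 2 + δ X) ≤ B)
    (J := fun X => Set.Icc (β X * el δ X + Real.log A) (β X * el δ X + Real.log B))
    (fun X => measurableSet_Icc) (by
      filter_upwards [hA.2.1, hA.2.2.1] with X g1 g2 d hd
      unfold gd at hd
      rw [mem_filter] at hd
      have hv0 : 0 < v d (1 / 2 + δ X) := lt_trans (inv_pos.mpr (by linarith)) hd.2.1
      have h22 : 0 < 2 * δ X := by linarith
      have hY : 0 < (2 * δ X) ^ (1 / 2 + β X) * v d (1 / 2 + δ X) := mul_pos (Real.rpow_pos_of_pos h22 _) hv0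
      have e1 : xd v (δ X) d - β X * el δ X = Real.log ((2 * δ X) ^ (1 / 2 + β X) * v d (1 / 2 + δ X)) := by
        rw [Real.log_mul (Real.rpow_pos_of_pos h22 _).ne' hv0.ne', Real.log_rpow h22]
        unfold xd el
        rw [one_div (2 * δ X), Real.log_inv]
        ring
      rw [Set.mem_Icc, ← Real.log_le_log_iff hA0 hY, ← Real.log_le_log_iff hY hB0, ← e1]
      constructor
      · rintro ⟨k1, k2⟩; constructor <;> linarith
      · rintro ⟨k1, k2⟩; constructor <;> linarith) hlim2 hgb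
  have hfin2 := hfin.const_mul (Real.sqrt (2 * Real.pi))
  have e9 : Real.sqrt (2 * Real.pi) * (aQR b / Real.sqrt (2 * Real.pi) * ∫ y in A..B, y ^ (-b - 1)) =
      aQR b * ∫ y in A..B, y ^ (-b - 1) := by
    have := sp_pos
    field_simp
  rw [e9] at hfin2
  refine hfin2.congr' ?_
  filter_upwards [h2] with X g2
  have h22 : 0 < 2 * δ X := by linarith
  have e3 : (2 * δ X) ^ (-β X ^ 2 / 2) = Real.exp (el δ X * β X ^ 2 / 2) := by
    rw [Real.rpow_def_of_pos h22]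
    congr 1
    unfold el
    rw [one_div, Real.log_inv]
    ring
  rw [e3, Real.sqrt_mul (show (0:ℝ) ≤ 2 * Real.pi by positivity) (el δ X), div_inv_eq_mul]
  simp only [hG]
  ring

end

end Pool.Agent.X110.SD
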