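import Pool.Agent.X110.LW5
import Pool.Agent.X110.SD5

set_option autoImplicit false

/-! The law of the twist on the large, small and typical values of the family. -/

namespace Pool.Agent.X110.LWL

open Finset Filter Topology MeasureTheory
open Pool.Agent.X110.QF Pool.Agent.X110.SD

noncomputable section

/-- a weighted atomic measure -/
def AtW (S : Finset ℕ) (w f : ℕ → ℝ) : Measure ℝ := ∑ d ∈ S, ENNReal.ofReal (w d) • Measure.dirac (f d)

instance (S : Finset ℕ) (w f : ℕ → ℝ) : IsFiniteMeasure (AtW S w f) := by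
  unfold AtW
  have : ∀ d ∈ S, IsFiniteMeasure (ENNReal.ofReal (w d) • Measure.dirac (f d)) := by
    intro d _
    exact Measure.smul_finite _ ENNReal.ofReal_ne_top
  constructor
  rw [Measure.finsetSum_apply]
  exact ENNReal.sum_lt_top.mpr fun d hd => by
    have := this d hd
    exact measure_lt_top _ _

lemma AtW_int {E : Type*} [NormedAddCommGroup E] (S : Finset ℕ) (w f : ℕ → ℝ) (g : ℝ → E) :
    Integrable g (AtW S w f) := by
  unfold AtW
  rw [integrable_finsetSum_measure]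
  intro d _
  exact (integrable_dirac (by simp)).smul_measure ENNReal.ofReal_ne_top

lemma AtW_integral {E : Type*} [NormedAddCommGroup E] [NormedSpace ℝ E] [CompleteSpace E] (S : Finset ℕ) {w : ℕ → ℝ}
    (hw : ∀ d, 0 ≤ w d) (f : ℕ → ℝ) (g : ℝ → E) : ∫ x, g x ∂(AtW S w f) = ∑ d ∈ S, w d • g (f d) := by
  unfold AtW
  rw [integral_finsetSum_measure fun d _ => (integrable_dirac (by simp)).smul_measure ENNReal.ofReal_ne_top]
  refine sum_congr rfl fun d _ => ?_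
  rw [integral_smul_measure, integral_dirac, ENNReal.toReal_ofReal (hw d)]

open Classical in
lemma AtW_real (S : Finset ℕ) {w : ℕ → ℝ} (hw : ∀ d, 0 ≤ w d) (f : ℕ → ℝ) {J : Set ℝ} (hJ : MeasurableSet J) :
    (AtW S w f).real J = ∑ d ∈ S.filter (fun d => f d ∈ J), w d := by
  have h1 : (AtW S w f).real J = ∫ x, Set.indicator J (fun _ => (1:ℝ)) x ∂(AtW S w f) := by
    rw [integral_indicator hJ, setIntegral_const, smul_eq_mul, mul_one]
  rw [h1, AtW_integral S hw, sum_filter]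
  refine sum_congr rfl fun d _ => ?_
  simp only [Set.indicator]
  split_ifs <;> simp

variable {ε : ℤ} {v : ℕ → ℝ → ℝ} {W : ArithmeticFunction ℝ} {Q0 : ℕ}

/-- the weighted distribution of the centred logarithm -/
def muW (v : ℕ → ℝ → ℝ) (δ V : ℕ → ℝ) (θ : ℕ → ℝ) (X : ℕ) : Measure ℝ :=
  AtW (gd v δ V X) (fun d => θ d / (#(fam X) : ℝ)) (xd v (δ X))

lemma muW_exp {δ V : ℕ → ℝ} {θ : ℕ → ℝ} (hθ : ∀ d, 0 ≤ θ d) {X : ℕ} (hδ : 0 < δ X) (hV : 1 ≤ V X) (z : ℂ) :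
    Complex.exp (-((el δ X : ℝ) : ℂ) * z ^ 2 / 2) * ∫ x : ℝ, Complex.exp (z * x) ∂(muW v δ V θ X) =
      ((2 * δ X : ℝ) : ℂ) ^ (ww z) * MW (V X) X θ (fun d => v d (1 / 2 + δ X)) z := by
  classical
  have h2 : 0 < 2 * δ X := by linarith
  set lam := Real.log (2 * δ X) with hlam
  have hel : el δ X = -lam := by unfold el; rw [one_div, Real.log_inv]
  unfold muW
  rw [AtW_integral _ (fun d => div_nonneg (hθ d) (Nat.cast_nonneg _))]
  have e1 : ∀ d ∈ gd v δ V X, (θ d / (#(fam X) : ℝ)) • Complex.exp (z * ((xd v (δ X) d : ℝ) : ℂ)) =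
      Complex.exp (z * (lam : ℂ) / 2) * (((1 / (#(fam X) : ℝ) : ℝ) : ℂ) * ((θ d : ℂ) * ((v d (1 / 2 + δ X) : ℝ) : ℂ) ^ z)) := by
    intro d hd
    unfold gd at hd
    rw [mem_filter] at hd
    have hv0 : 0 < v d (1 / 2 + δ X) := lt_trans (inv_pos.mpr (by linarith)) hd.2.1
    have e0 : Complex.exp (z * ((xd v (δ X) d : ℝ) : ℂ)) =
        Complex.exp (z * (lam : ℂ) / 2) * ((v d (1 / 2 + δ X) : ℝ) : ℂ) ^ z := by
      rw [Complex.cpow_def_of_ne_zero (by exact_mod_cast hv0.ne'), ← Complex.ofReal_log hv0.le, ← Complex.exp_add]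
      congr 1
      unfold xd
      push_cast
      ring
    rw [e0, Complex.real_smul]
    push_cast
    ring
  have e2 : MW (V X) X θ (fun d => v d (1 / 2 + δ X)) z =
      ((1 / (#(fam X) : ℝ) : ℝ) : ℂ) * ∑ d ∈ gd v δ V X, (θ d : ℂ) * ((v d (1 / 2 + δ X) : ℝ) : ℂ) ^ z := by
    unfold MW gd
    rw [sum_filter]
    simp only [tc, mul_ite, mul_zero]
    push_cast
    ring
  rw [sum_congr rfl e1, ← mul_sum, ← mul_sum, e2, hel]
  have e3 : ((2 * δ X : ℝ) : ℂ) ^ (ww z) = Complex.exp ((lam : ℂ) * (z * (z + 1) / 2)) := by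
    rw [Complex.cpow_def_of_ne_zero (by exact_mod_cast h2.ne'), ← Complex.ofReal_log h2.le]
    rfl
  have e4 : Complex.exp (-(((-lam : ℝ)) : ℂ) * z ^ 2 / 2) * Complex.exp (z * (lam : ℂ) / 2) =
      Complex.exp ((lam : ℂ) * (z * (z + 1) / 2)) := by
    rw [← Complex.exp_add]
    congr 1
    push_cast
    ring
  rw [e3, ← e4]
  ring

/-- **Mod-Gaussian convergence of the weighted family.** -/
theorem mgW (hε : ε = 1 ∨ ε = -1) (hv : Hyp ε v) (hQ0 : 1 ≤ Q0) (hW : ∀ n : ℕ, Q0 < n → W n = 0)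
    (hm : W.IsMultiplicative) (hθ : ∀ d, 0 ≤ thW ε W Q0 d) {δ V : ℕ → ℝ} (h : AdmN δ V) :
    MG atTop (muW v δ V (thW ε W Q0)) (el δ) (aW W) := by
  refine ⟨fun X => ?_, fun X c => AtW_int _ _ _ _, fun X => ?_, fun z₀ => ?_, el_tendsto h.1 h.2.2.1⟩
  · unfold muW; infer_instance
  · unfold muW
    simp_rw [AtW_integral (gd v δ V X) (fun d => div_nonneg (hθ d) (Nat.cast_nonneg _))]
    fun_prop
  · refine (modGaussW hε hv hQ0 hW hm h z₀).congr' ?_
    have hev : ∀ᶠ X : ℕ in atTop, 0 < δ X ∧ 1 ≤ V X := h.2.2.1.and h.2.1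
    have h2 : ∀ᶠ q : ℂ × ℕ in 𝓝 z₀ ×ˢ atTop, 0 < δ q.2 ∧ 1 ≤ V q.2 := tendsto_snd.eventually hev
    filter_upwards [h2] with q ⟨g1, g2⟩
    exact (muW_exp hθ g1 g2 q.1).symm

open Classical in
/-- weighted proportion in the family -/
def PrW (X : ℕ) (θ : ℕ → ℝ) (p : ℕ → Prop) : ℝ := (∑ d ∈ (fam X).filter p, θ d) / (#(fam X) : ℝ)

open Classical in
/-- mean of the weight over a subset of the family -/
def Me (X : ℕ) (θ : ℕ → ℝ) (p : ℕ → Prop) : ℝ := (∑ d ∈ (fam X).filter p, θ d) / (#((fam X).filter p) : ℝ)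

open Classical in
lemma PrW_sub {δ V : ℕ → ℝ} {θ : ℕ → ℝ} {C : ℝ} (hθ : ∀ d, 0 ≤ θ d) (hC : ∀ d, θ d ≤ C) {X : ℕ} {J : Set ℝ}
    (hJ : MeasurableSet J) {p : ℕ → Prop} (hp : ∀ d ∈ gd v δ V X, (p d ↔ xd v (δ X) d ∈ J)) :
    |PrW X θ p - (muW v δ V θ X).real J| ≤ C * ((∑ d ∈ fam X, ib (V X) (v d (1 / 2 + δ X))) / (#(fam X) : ℝ)) := by
  have hC0 : 0 ≤ C := (hθ 0).trans (hC 0)
  have h1 : (muW v δ V θ X).real J = (∑ d ∈ (gd v δ V X).filter p, θ d) / (#(fam X) : ℝ) := by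
    unfold muW
    rw [AtW_real _ (fun d => div_nonneg (hθ d) (Nat.cast_nonneg _)) _ hJ]
    have : (gd v δ V X).filter (fun d => xd v (δ X) d ∈ J) = (gd v δ V X).filter p :=
      filter_congr fun d hd => (hp d hd).symm
    rw [this, sum_div]
  have h2 : (fam X).filter p = (gd v δ V X).filter p ∪ ((fam X).filter p \ gd v δ V X) := by
    ext d
    simp only [gd, mem_filter, mem_union, Finset.mem_sdiff]
    tauto
  have h3 : Disjoint ((gd v δ V X).filter p) ((fam X).filter p \ gd v δ V X) := by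
    rw [Finset.disjoint_left]
    intro d hd hd2
    exact (Finset.mem_sdiff.mp hd2).2 (mem_filter.mp hd).1
  have h4 : ∑ d ∈ (fam X).filter p, θ d = ∑ d ∈ (gd v δ V X).filter p, θ d + ∑ d ∈ (fam X).filter p \ gd v δ V X, θ d := by
    have h5 := sum_union (f := θ) h3
    rw [← h2] at h5
    exact h5
  have h5 : ∑ d ∈ (fam X).filter p \ gd v δ V X, θ d ≤ C * ∑ d ∈ fam X, ib (V X) (v d (1 / 2 + δ X)) := by
    rw [mul_sum]
    refine le_trans (sum_le_sum (g := fun d => C * ib (V X) (v d (1 / 2 + δ X))) fun d hd => ?_)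
      (sum_le_sum_of_subset_of_nonneg (sdiff_subset.trans (filter_subset _ _)) fun d _ _ => ?_)
    · have h7 := Finset.mem_sdiff.mp hd
      have h8 := (mem_filter.mp h7.1).1
      have h9 : ¬ ((V X)⁻¹ < v d (1 / 2 + δ X) ∧ v d (1 / 2 + δ X) < V X) := fun h => h7.2 (mem_filter.mpr ⟨h8, h⟩)
      simp only [ib]
      rw [if_neg h9, mul_one]
      exact hC d
    · refine mul_nonneg hC0 ?_
      simp only [ib]
      split_ifs <;> norm_num
  have h6 : 0 ≤ ∑ d ∈ (fam X).filter p \ gd v δ V X, θ d := sum_nonneg fun d _ => hθ d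
  rw [h1]
  unfold PrW
  rw [h4, add_div, add_sub_cancel_left, abs_of_nonneg (div_nonneg h6 (Nat.cast_nonneg _)), ← mul_div_assoc]
  exact div_le_div_of_nonneg_right h5 (Nat.cast_nonneg _)

/-- from the good part to the whole family -/
theorem transferW (hε : ε = 1 ∨ ε = -1) (hv : Hyp ε v) {δ V : ℕ → ℝ} (h : AdmN δ V) {θ : ℕ → ℝ} {C : ℝ}
    (hθ : ∀ d, 0 ≤ θ d) (hC : ∀ d, θ d ≤ C)
    {p : ℕ → ℕ → Prop} {J : ℕ → Set ℝ} (hJ : ∀ X, MeasurableSet (J X))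
    (hp : ∀ᶠ X in atTop, ∀ d ∈ gd v δ V X, (p X d ↔ xd v (δ X) d ∈ J X)) {g : ℕ → ℝ} {L : ℝ}
    (hlim : Tendsto (fun X => (muW v δ V θ X).real (J X) / g X) atTop (𝓝 L)) {K : ℕ}
    (hg : ∀ᶠ X : ℕ in atTop, (Real.log X ^ K)⁻¹ ≤ g X) : Tendsto (fun X => PrW X θ (p X) / g X) atTop (𝓝 L) := by
  have hC0 : 0 ≤ C := (hθ 0).trans (hC 0)
  have h0 : Tendsto (fun X => PrW X θ (p X) / g X - (muW v δ V θ X).real (J X) / g X) atTop (𝓝 0) := by
    have hz : Tendsto (fun X : ℕ => C * (Real.log (X:ℝ))⁻¹) atTop (𝓝 0) := by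
      have := (tendsto_inv_atTop_zero.comp log_nat_tendsto).const_mul C
      rwa [mul_zero] at this
    refine squeeze_zero_norm' (a := fun X : ℕ => C * (Real.log (X:ℝ))⁻¹) ?_ hz
    filter_upwards [bad_small hε hv h (K + 1), hp, hg] with X ⟨g1, g2, g3, g4, g5⟩ g6 g7
    have hL0 : 0 < Real.log (X:ℝ) := by linarith
    have hg0 : 0 < g X := lt_of_lt_of_le (by positivity) g7
    have h1 := (PrW_sub (V := V) hθ hC (hJ X) g6).trans (mul_le_mul_of_nonneg_left g1 hC0)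
    rw [← sub_div, norm_div, Real.norm_eq_abs, Real.norm_of_nonneg hg0.le, div_le_iff₀ hg0]
    refine h1.trans ?_
    calc C * (Real.log (X:ℝ) ^ (K + 1))⁻¹ = C * (Real.log (X:ℝ))⁻¹ * (Real.log (X:ℝ) ^ K)⁻¹ := by
          rw [pow_succ, mul_inv]; ring
      _ ≤ _ := mul_le_mul_of_nonneg_left g7 (mul_nonneg hC0 (inv_nonneg.mpr hL0.le))
  have h2 := h0.add hlim
  rw [zero_add] at h2
  exact h2.congr fun X => by ring

/-- the mean from the two limits -/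
lemma mean_lim {θ : ℕ → ℝ} {p : ℕ → ℕ → Prop} {g : ℕ → ℝ} {L A : ℝ} (hA : 0 < A) {K : ℕ}
    (hg : ∀ᶠ X : ℕ in atTop, (Real.log X ^ K)⁻¹ ≤ g X)
    (h1 : Tendsto (fun X => PrW X θ (p X) / g X) atTop (𝓝 (A * L)))
    (h2 : Tendsto (fun X => Pr X (p X) / g X) atTop (𝓝 A)) :
    Tendsto (fun X => Me X θ (p X)) atTop (𝓝 L) := by
  have h3 := h1.div h2 hA.ne'
  rw [mul_div_cancel_left₀ _ hA.ne'] at h3
  refine h3.congr' ?_
  filter_upwards [hg, h2.eventually (lt_mem_nhds hA), log_nat_tendsto.eventually (eventually_gt_atTop 0)] with X g1 g2 g3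
  have hg0 : g X ≠ 0 := (lt_of_lt_of_le (by positivity) g1).ne'
  have hF : (#(fam X) : ℝ) ≠ 0 := by
    intro h
    unfold Pr at g2
    rw [h, div_zero, zero_div] at g2
    exact lt_irrefl _ g2
  show PrW X θ (p X) / g X / (Pr X (p X) / g X) = Me X θ (p X)
  rw [div_div_div_cancel_right₀ hg0]
  unfold PrW Pr Me
  rw [div_div_div_cancel_right₀ hF]

variable {δ : ℕ → ℝ}

/-- positivity of the real arithmetic factor -/
lemma A_pos (W : ArithmeticFunction ℝ) (Q0 : ℕ) (β : ℝ) (h : ∀ p : ℕ, p.Prime → 0 ≤ thl W p 1 ∧ 0 ≤ thl W p (-1)) :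
    0 < aQR β * RP W Q0 β := mul_pos (aQR_pos β) (RP_pos W Q0 β h)

/-- **Large values.** -/
theorem largeW (hε : ε = 1 ∨ ε = -1) (hv : Hyp ε v) (hQ0 : 1 ≤ Q0) (hW : ∀ n : ℕ, Q0 < n → W n = 0)
    (hm : W.IsMultiplicative) (hθ : ∀ d, 0 ≤ thW ε W Q0 d)
    (hl : ∀ p : ℕ, p.Prime → 0 ≤ thl W p 1 ∧ 0 ≤ thl W p (-1))
    (h1 : Tendsto δ atTop (𝓝 0)) (h2 : ∀ᶠ X in atTop, 0 < δ X)
    (h3 : Tendsto (fun X : ℕ => δ X * Real.log X / Real.log (Real.log X)) atTop atTop) {x : ℕ → ℝ}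
    {b : ℝ} (hx : ∀ᶠ X in atTop, 0 ≤ x X) (hb : Tendsto (fun X => x X / el δ X) atTop (𝓝 b)) :
    Tendsto (fun X => Me X (thW ε W Q0) (fun d => Real.exp (x X) ≤ Real.sqrt (2 * δ X) * v d (1 / 2 + δ X)))
      atTop (𝓝 (RP W Q0 b)) := by
  obtain ⟨V, hA⟩ := exists_AdmN h1 h2 h3
  obtain ⟨K, hK⟩ := Qg_big hε hv hA hx hb
  have hM := mgW hε hv hQ0 hW hm hθ hA
  have hlim := unif hM hx hb (aW_real hW hm b) (A_pos W Q0 b hl)
  refine mean_lim (aQR_pos b) hK ?_ (large hε hv h1 h2 h3 hx hb)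
  refine transferW hε hv hA (C := CW W Q0) hθ (fun d => (le_abs_self _).trans (thW_abs ε W Q0 d))
    (J := fun X => Set.Ici (x X)) (fun X => measurableSet_Ici) ?_ hlim hK
  filter_upwards [hA.2.1, hA.2.2.1] with X g1 g2 d hd
  unfold gd at hd
  rw [mem_filter] at hd
  have hv0 : 0 < v d (1 / 2 + δ X) := lt_trans (inv_pos.mpr (by linarith)) hd.2.1
  have h22 : 0 < 2 * δ X := by linarith
  have hs : 0 < Real.sqrt (2 * δ X) := Real.sqrt_pos.mpr h22
  have e1 : xd v (δ X) d = Real.log (Real.sqrt (2 * δ X) * v d (1 / 2 + δ X)) := by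
    rw [Real.log_mul hs.ne' hv0.ne', Real.log_sqrt h22.le]
    unfold xd
    ring
  rw [Set.mem_Ici, e1, Real.le_log_iff_exp_le (by positivity)]

/-- **Small values.** -/
theorem smallW (hε : ε = 1 ∨ ε = -1) (hv : Hyp ε v) (hQ0 : 1 ≤ Q0) (hW : ∀ n : ℕ, Q0 < n → W n = 0)
    (hm : W.IsMultiplicative) (hθ : ∀ d, 0 ≤ thW ε W Q0 d)
    (hl : ∀ p : ℕ, p.Prime → 0 ≤ thl W p 1 ∧ 0 ≤ thl W p (-1))
    (h1 : Tendsto δ atTop (𝓝 0)) (h2 : ∀ᶠ X in atTop, 0 < δ X)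
    (h3 : Tendsto (fun X : ℕ => δ X * Real.log X / Real.log (Real.log X)) atTop atTop) {x : ℕ → ℝ}
    {b : ℝ} (hx : ∀ᶠ X in atTop, 0 ≤ x X) (hb : Tendsto (fun X => x X / el δ X) atTop (𝓝 b)) :
    Tendsto (fun X => Me X (thW ε W Q0) (fun d => Real.sqrt (2 * δ X) * v d (1 / 2 + δ X) ≤ Real.exp (-x X)))
      atTop (𝓝 (RP W Q0 (-b))) := by
  obtain ⟨V, hA⟩ := exists_AdmN h1 h2 h3
  obtain ⟨K, hK⟩ := Qg_big hε hv hA hx hb
  have hM := (mgW hε hv hQ0 hW hm hθ hA).refl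
  have hab : (fun z => aW W (-z)) (b:ℂ) = ((aQR (-b) * RP W Q0 (-b) : ℝ) : ℂ) := by
    simp only
    rw [← aW_real hW hm, Complex.ofReal_neg]
  have hlim := unif hM hx hb hab (A_pos W Q0 (-b) hl)
  have hlim2 : Tendsto (fun X => (muW v δ V (thW ε W Q0) X).real (Set.Iic (-x X)) / Qg (x X / Real.sqrt (el δ X))) atTop
      (𝓝 (aQR (-b) * RP W Q0 (-b))) := by
    refine hlim.congr fun X => ?_
    congr 1
    rw [map_measureReal_apply measurable_neg measurableSet_Ici]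
    congr 1
    ext y
    simp only [Set.mem_preimage, Set.mem_Ici, Set.mem_Iic]
    constructor <;> intro h <;> linarith
  refine mean_lim (aQR_pos (-b)) hK ?_ (small hε hv h1 h2 h3 hx hb)
  refine transferW hε hv hA (C := CW W Q0) hθ (fun d => (le_abs_self _).trans (thW_abs ε W Q0 d))
    (J := fun X => Set.Iic (-x X)) (fun X => measurableSet_Iic) ?_ hlim2 hK
  filter_upwards [hA.2.1, hA.2.2.1] with X g1 g2 d hd
  unfold gd at hd
  rw [mem_filter] at hd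
  have hv0 : 0 < v d (1 / 2 + δ X) := lt_trans (inv_pos.mpr (by linarith)) hd.2.1
  have h22 : 0 < 2 * δ X := by linarith
  have hs : 0 < Real.sqrt (2 * δ X) := Real.sqrt_pos.mpr h22
  have e1 : xd v (δ X) d = Real.log (Real.sqrt (2 * δ X) * v d (1 / 2 + δ X)) := by
    rw [Real.log_mul hs.ne' hv0.ne', Real.log_sqrt h22.le]
    unfold xd
    ring
  rw [Set.mem_Iic, e1, Real.log_le_iff_le_exp (by positivity)]

end

end Pool.Agent.X110.LWL
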