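import Pool.Agent.X110.LW6

set_option autoImplicit false

/-! Local weights at finitely many primes. -/

namespace Pool.Agent.X110.LWL

open Finset Filter Topology MeasureTheory
open Pool.Agent.H306R2 Pool.Agent.Y746.OA Pool.Agent.X110.LT Pool.Agent.X110.QF Pool.Agent.X110.SD

noncomputable section

/-- `1 + a [p] + b [p^2]` -/
def wp (p : ℕ) (a b : ℝ) : ArithmeticFunction ℝ :=
  ⟨fun n => if n = 0 then 0 else if n = 1 then 1 else if n = p then a else if n = p ^ 2 then b else 0, by simp⟩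

lemma wp_apply (p : ℕ) (a b : ℝ) (n : ℕ) : wp p a b n =
    if n = 0 then 0 else if n = 1 then 1 else if n = p then a else if n = p ^ 2 then b else 0 := rfl

lemma wp_one (p : ℕ) (a b : ℝ) : wp p a b 1 = 1 := by rw [wp_apply]; simp

lemma wp_supp {p : ℕ} {a b : ℝ} {n : ℕ} (hn : 1 < n) (h : wp p a b n ≠ 0) : n = p ∨ n = p ^ 2 := by
  by_contra hc
  push Not at hc
  apply h
  rw [wp_apply, if_neg (by omega), if_neg (by omega), if_neg hc.1, if_neg hc.2]

lemma wp_mult {p : ℕ} (hp : p.Prime) (a b : ℝ) : (wp p a b).IsMultiplicative := by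
  refine ⟨wp_one p a b, fun {m n} h => ?_⟩
  rcases Nat.lt_or_ge 1 m with hm | hm
  · rcases Nat.lt_or_ge 1 n with hn | hn
    · have h1 : wp p a b m * wp p a b n = 0 := by
        by_contra hc
        have hm0 : wp p a b m ≠ 0 := left_ne_zero_of_mul hc
        have hn0 : wp p a b n ≠ 0 := right_ne_zero_of_mul hc
        have d1 : p ∣ m := by
          rcases wp_supp hm hm0 with h2 | h2 <;> rw [h2]
          exact dvd_pow_self p two_ne_zero
        have d2 : p ∣ n := by
          rcases wp_supp hn hn0 with h2 | h2 <;> rw [h2]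
          exact dvd_pow_self p two_ne_zero
        have := Nat.dvd_gcd d1 d2
        rw [h] at this
        exact hp.one_lt.ne' (Nat.dvd_one.mp this)
      have h2 : wp p a b (m * n) = 0 := by
        by_contra hc
        have hmn : 1 < m * n := by nlinarith
        have h3 : m * n ∣ p ^ 2 := by
          rcases wp_supp hmn hc with h2 | h2 <;> rw [h2]
          exact dvd_pow_self p two_ne_zero
        obtain ⟨i, _, hi⟩ := (Nat.dvd_prime_pow hp).mp ((Dvd.intro _ rfl).trans h3 : m ∣ p ^ 2)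
        obtain ⟨j, _, hj⟩ := (Nat.dvd_prime_pow hp).mp ((Dvd.intro_left _ rfl).trans h3 : n ∣ p ^ 2)
        have hi0 : i ≠ 0 := by rintro rfl; rw [pow_zero] at hi; omega
        have hj0 : j ≠ 0 := by rintro rfl; rw [pow_zero] at hj; omega
        have d1 : p ∣ m := by rw [hi]; exact dvd_pow_self p hi0
        have d2 : p ∣ n := by rw [hj]; exact dvd_pow_self p hj0
        have := Nat.dvd_gcd d1 d2
        rw [h] at this
        exact hp.one_lt.ne' (Nat.dvd_one.mp this)
      rw [h1, h2]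
    · interval_cases n
      · simp
      · rw [mul_one, wp_one, mul_one]
  · interval_cases m
    · simp
    · rw [one_mul, wp_one, one_mul]

lemma wp_van {p : ℕ} (hp : p.Prime) (a b : ℝ) : ∀ n : ℕ, p ^ 2 < n → wp p a b n = 0 := by
  intro n hn
  have h2 := hp.two_le
  by_contra hc
  rcases wp_supp (by nlinarith) hc with h | h
  · rw [h] at hn; nlinarith
  · omega

lemma wp_pow {p q : ℕ} (hp : p.Prime) (hq : q.Prime) (hpq : q ≠ p) (a b : ℝ) {j : ℕ} (hj : j ≠ 0) : wp p a b (q ^ j) = 0 := by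
  by_contra hc
  have h1 : 1 < q ^ j := Nat.one_lt_pow hj hq.one_lt
  have d1 : q ∣ p ^ 2 := by
    have h2 : q ∣ q ^ j := dvd_pow_self q hj
    rcases wp_supp h1 hc with h | h
    · rw [h] at h2; exact h2.trans (dvd_pow_self p two_ne_zero)
    · rwa [h] at h2
  exact hpq ((Nat.prime_dvd_prime_iff_eq hq hp).mp (hq.dvd_of_dvd_pow d1))

/-- the weight -/
def WT (T : Finset ℕ) (a b : ℕ → ℝ) : ArithmeticFunction ℝ := ∏ p ∈ T, wp p (a p) (b p)

/-- the length -/
def QT (T : Finset ℕ) : ℕ := ∏ p ∈ T, p ^ 2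

lemma WT_insert {p : ℕ} {T : Finset ℕ} (h : p ∉ T) (a b : ℕ → ℝ) : WT (insert p T) a b = wp p (a p) (b p) * WT T a b :=
  prod_insert h

lemma QT_insert {p : ℕ} {T : Finset ℕ} (h : p ∉ T) : QT (insert p T) = p ^ 2 * QT T := prod_insert h

lemma QT_pos {T : Finset ℕ} (hT : ∀ p ∈ T, p.Prime) : 1 ≤ QT T := by
  unfold QT
  exact Nat.one_le_iff_ne_zero.mpr (prod_ne_zero_iff.mpr fun p hp => pow_ne_zero 2 (hT p hp).ne_zero)

lemma one_van : ∀ n : ℕ, 1 < n → (1 : ArithmeticFunction ℝ) n = 0 := fun n hn =>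
  ArithmeticFunction.one_apply_ne (by omega)

lemma WT_facts (a b : ℕ → ℝ) (T : Finset ℕ) : (∀ p ∈ T, p.Prime) →
    (WT T a b).IsMultiplicative ∧ (∀ n : ℕ, QT T < n → WT T a b n = 0) ∧
    (∀ (ε : ℤ) (d : ℕ), thW ε (WT T a b) (QT T) d = ∏ p ∈ T, (1 + a p * chi ε d p + b p * chi ε d p ^ 2)) ∧
    ∀ q : ℕ, q.Prime → ∀ j : ℕ, WT T a b (q ^ j) = if q ∈ T then wp q (a q) (b q) (q ^ j) else if j = 0 then 1 else 0 := by
  classical
  refine Finset.induction_on T ?_ ?_
  · intro _
    refine ⟨?_, ?_, ?_, ?_⟩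
    · unfold WT; rw [prod_empty]; exact ArithmeticFunction.isMultiplicative_one
    · unfold WT QT; rw [prod_empty, prod_empty]; exact one_van
    · intro ε d
      unfold WT QT thW
      rw [prod_empty, prod_empty, prod_empty, Icc_self, sum_singleton, chi_one]
      simp
    · intro q hq j
      unfold WT
      rw [prod_empty, if_neg (notMem_empty q)]
      split_ifs with h
      · rw [h, pow_zero, ArithmeticFunction.one_one]
      · exact one_van _ (Nat.one_lt_pow h hq.one_lt)
  · intro p T hpT ih hT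
    have hp := hT p (mem_insert_self p T)
    obtain ⟨i1, i2, i3, i4⟩ := ih fun q hq => hT q (mem_insert_of_mem hq)
    have hpp := wp_mult hp (a p) (b p)
    refine ⟨?_, ?_, ?_, ?_⟩
    · rw [WT_insert hpT]; exact hpp.mul i1
    · rw [WT_insert hpT, QT_insert hpT]
      exact mul_high (wp_van hp _ _) i2
    · intro ε d
      have hW0 : ∀ (A : ArithmeticFunction ℝ) (N : ℕ), PQ ε 0 (fun n => A n) N d = thW ε A N d := by
        intro A N
        unfold PQ thW
        refine sum_congr rfl fun n _ => ?_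
        rw [neg_zero, Real.rpow_zero, mul_one]
      rw [WT_insert hpT, QT_insert hpT, prod_insert hpT, ← i3 ε d, ← hW0, PQ_mul ε 0 _ _ (wp_van hp _ _) i2 d, hW0, hW0]
      congr 1
      unfold thW
      have hp2 := hp.two_le
      have h1 : ({1, p, p ^ 2} : Finset ℕ) ⊆ Icc 1 (p ^ 2) := by
        intro n hn
        simp only [mem_insert, mem_singleton] at hn
        rw [mem_Icc]
        rcases hn with h | h | h <;> subst h <;> constructor <;> nlinarith
      rw [← sum_subset h1]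
      · have n1 : (1:ℕ) ∉ ({p, p ^ 2} : Finset ℕ) := by
          simp only [mem_insert, mem_singleton, not_or]
          constructor <;> nlinarith
        have n2 : p ∉ ({p ^ 2} : Finset ℕ) := by
          simp only [mem_singleton]
          nlinarith
        rw [sum_insert n1, sum_insert n2, sum_singleton, wp_one, chi_one]
        have e1 : wp p (a p) (b p) p = a p := by
          rw [wp_apply, if_neg (by omega), if_neg (by omega), if_pos rfl]
        have e2 : wp p (a p) (b p) (p ^ 2) = b p := by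
          rw [wp_apply, if_neg (by positivity), if_neg (by nlinarith), if_neg (by nlinarith), if_pos rfl]
        rw [e1, e2, pow_two p, chi_mul]
        ring
      · intro n hn hn'
        have h2 : wp p (a p) (b p) n = 0 := by
          by_contra hc
          rw [mem_Icc] at hn
          simp only [mem_insert, mem_singleton, not_or] at hn'
          rcases wp_supp (by omega) hc with h | h
          · exact hn'.2.1 h
          · exact hn'.2.2 h
        rw [h2, zero_mul]
    · intro q hq j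
      rw [WT_insert hpT]
      have hconv : (wp p (a p) (b p) * WT T a b) (q ^ j) =
          ∑ i ∈ range (j + 1), wp p (a p) (b p) (q ^ i) * WT T a b (q ^ (j - i)) := by
        rw [ArithmeticFunction.mul_apply, Nat.sum_divisorsAntidiagonal (fun i j => wp p (a p) (b p) i * WT T a b j),
          Nat.divisors_prime_pow hq, sum_map]
        refine sum_congr rfl fun i hi => ?_
        rw [mem_range] at hi
        simp only [Function.Embedding.coeFn_mk]
        rw [Nat.pow_div (by omega) hq.pos]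
      rw [hconv]
      by_cases hqp : q = p
      · subst hqp
        rw [if_pos (mem_insert_self q T), sum_eq_single j]
        · rw [Nat.sub_self, i4 q hq, if_neg hpT, if_pos rfl, mul_one]
        · intro i hi hij
          rw [mem_range] at hi
          rw [i4 q hq, if_neg hpT, if_neg (by omega), mul_zero]
        · intro h
          exact absurd (mem_range.mpr (by omega)) h
      · rw [sum_eq_single 0]
        · rw [pow_zero, wp_one, one_mul, Nat.sub_zero, i4 q hq]
          have : (q ∈ insert p T) ↔ q ∈ T := by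
            rw [mem_insert]
            constructor
            · rintro (h | h)
              · exact absurd h hqp
              · exact h
            · exact Or.inr
          simp only [this]
        · intro i hi h0
          rw [wp_pow hp hq hqp _ _ h0, zero_mul]
        · intro h
          exact absurd (mem_range.mpr (by omega)) h

lemma thl_WT {a b : ℕ → ℝ} {T : Finset ℕ} (hT : ∀ p ∈ T, p.Prime) {q : ℕ} (hq : q.Prime) (s : ℝ) :
    thl (WT T a b) q s = if q ∈ T then 1 + a q * s + b q * s ^ 2 else 1 := by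
  obtain ⟨-, -, -, i4⟩ := WT_facts a b T hT
  have hq2 := hq.two_le
  unfold thl
  split_ifs with h
  · have h1 : ∀ j ∉ range 3, WT T a b (q ^ j) * s ^ j = 0 := by
      intro j hj
      rw [mem_range] at hj
      rw [i4 q hq, if_pos h, wp_van hq, zero_mul]
      exact Nat.pow_lt_pow_right hq.one_lt (by omega)
    rw [tsum_eq_sum h1, sum_range_succ, sum_range_succ, sum_range_one, i4 q hq, i4 q hq, i4 q hq, if_pos h, if_pos h, if_pos h,
      pow_zero, pow_one, wp_one]
    have e1 : wp q (a q) (b q) q = a q := by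
      rw [wp_apply, if_neg (by omega), if_neg (by omega), if_pos rfl]
    have e2 : wp q (a q) (b q) (q ^ 2) = b q := by
      rw [wp_apply, if_neg (by positivity), if_neg (by nlinarith), if_neg (by nlinarith), if_pos rfl]
    rw [e1, e2]
    ring
  · rw [tsum_eq_single 0]
    · rw [i4 q hq, if_neg h, if_pos rfl, pow_zero, mul_one]
    · intro j hj
      rw [i4 q hq, if_neg h, if_neg hj, zero_mul]

/-- expectation of a function of `χ(p)` in the tilted local law -/
def Ep (β : ℝ) (p : ℕ) (g : ℝ → ℝ) : ℝ :=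
  (g 0 / (p + 1) + (p:ℝ) / (2 * (p + 1)) * (g 1 * AA β (yp p) + g (-1) * AA β (-yp p))) /
    (1 / (p + 1) + (p:ℝ) / (2 * (p + 1)) * (AA β (yp p) + AA β (-yp p)))

lemma den_eq (β : ℝ) {p : ℕ} (h2 : p ≠ 2) :
    1 / ((p:ℝ) + 1) + (p:ℝ) / (2 * (p + 1)) * (AA β (yp p) + AA β (-yp p)) = FQR β p := by
  have hp1 : (p:ℝ) + 1 ≠ 0 := by positivity
  unfold FQR
  rw [if_neg h2]
  field_simp
  ring

lemma Ep_lin (β : ℝ) {p : ℕ} (hp : p.Prime) (h2 : p ≠ 2) (g : ℝ → ℝ) (κ : ℝ) :
    Ep β p (fun s => g s - κ) = Ep β p g - κ := by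
  have h := den_eq β h2
  have h3 := (FQR_pos β hp).ne'
  unfold Ep
  rw [h, div_sub' h3, ← h]
  congr 1
  have hp1 : (p:ℝ) + 1 ≠ 0 := by positivity
  field_simp
  ring

lemma FWR_WT {a b : ℕ → ℝ} {T : Finset ℕ} (hT : ∀ p ∈ T, p.Prime) (hT2 : ∀ p ∈ T, p ≠ 2) (β : ℝ) {p : ℕ} (hp : p ∈ T) :
    FWR (WT T a b) β p / FQR β p = Ep β p (fun s => 1 + a p * s + b p * s ^ 2) := by
  have hp1 : (p:ℝ) + 1 ≠ 0 := by positivity
  have hpp := hT p hp
  have h2 := hT2 p hp
  unfold Ep FWR
  rw [den_eq β h2, thl_WT hT hpp, thl_WT hT hpp, if_pos hp, if_pos hp, if_neg h2]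
  congr 1
  field_simp
  ring

lemma RP_WT {a b : ℕ → ℝ} {T : Finset ℕ} (hT : ∀ p ∈ T, p.Prime) (hT2 : ∀ p ∈ T, p ≠ 2) (β : ℝ) :
    RP (WT T a b) (QT T) β = ∏ p ∈ T, Ep β p (fun s => 1 + a p * s + b p * s ^ 2) := by
  have hsub : T ⊆ (Icc 1 (QT T)).filter Nat.Prime := by
    intro p hp
    rw [mem_filter, mem_Icc]
    refine ⟨⟨(hT p hp).one_lt.le, ?_⟩, hT p hp⟩
    have h1 : p ^ 2 ∣ QT T := dvd_prod_of_mem _ hp
    have h2 := Nat.le_of_dvd (QT_pos hT) h1
    have := (hT p hp).two_le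
    nlinarith
  unfold RP
  rw [← prod_subset hsub]
  · exact prod_congr rfl fun p hp => FWR_WT hT hT2 β hp
  · intro p hp hpT
    have hpp := (mem_filter.mp hp).2
    have h1 : FWR (WT T a b) β p = FQR β p := by
      unfold FWR FQR
      rw [thl_WT hT hpp, thl_WT hT hpp]
      simp only [if_neg hpT, one_mul]
    rw [h1]
    exact div_self (FQR_pos β hpp).ne'

/-- the coefficients of the weight attached to a value -/
def av (η : ℤ) : ℝ := η / 2
def bv (η : ℤ) : ℝ := if η = 0 then -1 else 1 / 2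
def kv (η : ℤ) : ℝ := if η = 0 then 0 else 1

open Classical in
/-- indicator -/
def iv (η : ℤ) (s : ℝ) : ℝ := if s = η then 1 else 0

lemma iv_eq {η : ℤ} (hη : η = 0 ∨ η = 1 ∨ η = -1) {s : ℝ} (hs : s = 0 ∨ s = 1 ∨ s = -1) :
    iv η s = (1 + av η * s + bv η * s ^ 2) - kv η := by
  unfold iv av bv kv
  rcases hη with h | h | h <;> rcases hs with h' | h' | h' <;> subst h <;> subst h' <;> norm_num

lemma pv_nonneg {η : ℤ} (hη : η = 0 ∨ η = 1 ∨ η = -1) {s : ℝ} (hs : s = 0 ∨ s = 1 ∨ s = -1) :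
    0 ≤ 1 + av η * s + bv η * s ^ 2 := by
  unfold av bv
  rcases hη with h | h | h <;> rcases hs with h' | h' | h' <;> subst h <;> subst h' <;> norm_num

lemma chi_val (ε : ℤ) (d n : ℕ) : chi ε d n = 0 ∨ chi ε d n = 1 ∨ chi ε d n = -1 := by
  unfold chi
  split_ifs
  · unfold Pool.Agent.H306R2.RZ.js
    rcases jacobiSym.trichotomy (2 * ε * (d : ℤ)) n with h | h | h <;> rw [h] <;> simp
  · exact Or.inl rfl

lemma Ep_iv (β : ℝ) {p : ℕ} (hp : p.Prime) (h2 : p ≠ 2) {η : ℤ} (hη : η = 0 ∨ η = 1 ∨ η = -1) :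
    Ep β p (iv η) = Ep β p (fun s => 1 + av η * s + bv η * s ^ 2) - kv η := by
  rw [← Ep_lin β hp h2]
  unfold Ep
  rw [iv_eq hη (Or.inl rfl), iv_eq hη (Or.inr (Or.inl rfl)), iv_eq hη (Or.inr (Or.inr rfl))]

lemma Me_sum {ι : Type*} (X : ℕ) (s : Finset ι) (θ : ι → ℕ → ℝ) (c : ι → ℝ) (p : ℕ → Prop) :
    Me X (fun d => ∑ i ∈ s, c i * θ i d) p = ∑ i ∈ s, c i * Me X (θ i) p := by
  classical
  unfold Me
  rw [sum_comm, sum_div]
  refine sum_congr rfl fun i _ => ?_
  rw [← mul_sum, mul_div_assoc]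

variable {ε : ℤ}

/-- **The law of the values at finitely many primes**, from the limits of the weighted means -/
theorem joint {S : Finset ℕ} (hS : ∀ p ∈ S, p.Prime ∧ p ≠ 2) {η : ℕ → ℤ} (hη : ∀ p ∈ S, η p = 0 ∨ η p = 1 ∨ η p = -1)
    {β : ℝ} {p : ℕ → ℕ → Prop}
    (H : ∀ T ⊆ S, Tendsto (fun X => Me X (thW ε (WT T (fun q => av (η q)) (fun q => bv (η q))) (QT T)) (p X)) atTop
      (𝓝 (RP (WT T (fun q => av (η q)) (fun q => bv (η q))) (QT T) β))) :
    Tendsto (fun X => Me X (fun d => ∏ q ∈ S, iv (η q) (chi ε d q)) (p X)) atTop (𝓝 (∏ q ∈ S, Ep β q (iv (η q)))) := by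
  classical
  have e1 : ∀ d, ∏ q ∈ S, iv (η q) (chi ε d q) = ∑ T ∈ S.powerset, (∏ q ∈ S \ T, -kv (η q)) *
      thW ε (WT T (fun q => av (η q)) (fun q => bv (η q))) (QT T) d := by
    intro d
    have h1 : ∀ q ∈ S, iv (η q) (chi ε d q) = (1 + av (η q) * chi ε d q + bv (η q) * chi ε d q ^ 2) + -kv (η q) := by
      intro q hq
      rw [iv_eq (hη q hq) (chi_val ε d q)]
      ring
    rw [prod_congr rfl h1, prod_add]
    refine sum_congr rfl fun T hT => ?_
    rw [mem_powerset] at hT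
    obtain ⟨-, -, i3, -⟩ := WT_facts (fun q => av (η q)) (fun q => bv (η q)) T (fun q hq => (hS q (hT hq)).1)
    rw [i3 ε d, mul_comm]
  have e2 : ∏ q ∈ S, Ep β q (iv (η q)) = ∑ T ∈ S.powerset, (∏ q ∈ S \ T, -kv (η q)) *
      RP (WT T (fun q => av (η q)) (fun q => bv (η q))) (QT T) β := by
    have h1 : ∀ q ∈ S, Ep β q (iv (η q)) = Ep β q (fun s => 1 + av (η q) * s + bv (η q) * s ^ 2) + -kv (η q) := by
      intro q hq
      rw [Ep_iv β (hS q hq).1 (hS q hq).2 (hη q hq)]
      ring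
    rw [prod_congr rfl h1, prod_add]
    refine sum_congr rfl fun T hT => ?_
    rw [mem_powerset] at hT
    rw [RP_WT (fun q hq => (hS q (hT hq)).1) (fun q hq => (hS q (hT hq)).2), mul_comm]
  rw [e2]
  have e3 : ∀ X, Me X (fun d => ∏ q ∈ S, iv (η q) (chi ε d q)) (p X) = ∑ T ∈ S.powerset, (∏ q ∈ S \ T, -kv (η q)) *
      Me X (thW ε (WT T (fun q => av (η q)) (fun q => bv (η q))) (QT T)) (p X) := by
    intro X
    rw [← Me_sum]
    congr 1
    funext d
    exact e1 d
  simp_rw [e3]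
  refine tendsto_finsetSum _ fun T hT => ?_
  exact (H T (mem_powerset.mp hT)).const_mul _

lemma thW_nonneg {T : Finset ℕ} (hT : ∀ p ∈ T, p.Prime) {η : ℕ → ℤ} (hη : ∀ p ∈ T, η p = 0 ∨ η p = 1 ∨ η p = -1) (d : ℕ) :
    0 ≤ thW ε (WT T (fun q => av (η q)) (fun q => bv (η q))) (QT T) d := by
  obtain ⟨-, -, i3, -⟩ := WT_facts (fun q => av (η q)) (fun q => bv (η q)) T hT
  rw [i3 ε d]
  exact prod_nonneg fun q hq => pv_nonneg (hη q hq) (chi_val ε d q)

lemma thl_nonneg {T : Finset ℕ} (hT : ∀ p ∈ T, p.Prime) {η : ℕ → ℤ} (hη : ∀ p ∈ T, η p = 0 ∨ η p = 1 ∨ η p = -1) :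
    ∀ q : ℕ, q.Prime → 0 ≤ thl (WT T (fun q => av (η q)) (fun q => bv (η q))) q 1 ∧
      0 ≤ thl (WT T (fun q => av (η q)) (fun q => bv (η q))) q (-1) := by
  intro q hq
  rw [thl_WT hT hq, thl_WT hT hq]
  split_ifs with h
  · exact ⟨pv_nonneg (hη q h) (Or.inr (Or.inl rfl)), pv_nonneg (hη q h) (Or.inr (Or.inr rfl))⟩
  · exact ⟨zero_le_one, zero_le_one⟩

end

end Pool.Agent.X110.LWL
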