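import Pool.Agent.X110.LW7

set_option autoImplicit false

/-! The law at finitely many primes on the large, small and typical values. -/

namespace Pool.Agent.X110.LWL

open Finset Filter Topology MeasureTheory
open Pool.Agent.H306R2 Pool.Agent.Y746.OA Pool.Agent.X110.LT Pool.Agent.X110.QF Pool.Agent.X110.SD

noncomputable section

variable {ε : ℤ} {v : ℕ → ℝ → ℝ} {W : ArithmeticFunction ℝ} {Q0 : ℕ} {δ : ℕ → ℝ}

/-- **Windows.** -/
theorem windowW (hε : ε = 1 ∨ ε = -1) (hv : Hyp ε v) (hQ0 : 1 ≤ Q0) (hW : ∀ n : ℕ, Q0 < n → W n = 0)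
    (hm : W.IsMultiplicative) (hθ : ∀ d, 0 ≤ thW ε W Q0 d)
    (hl : ∀ p : ℕ, p.Prime → 0 ≤ thl W p 1 ∧ 0 ≤ thl W p (-1))
    (h1 : Tendsto δ atTop (𝓝 0)) (h2 : ∀ᶠ X in atTop, 0 < δ X)
    (h3 : Tendsto (fun X : ℕ => δ X * Real.log X / Real.log (Real.log X)) atTop atTop) {β : ℕ → ℝ}
    {b : ℝ} (hβ : Tendsto β atTop (𝓝 b)) {A B : ℝ} (hA0 : 0 < A) (hAB : A < B) :
    Tendsto (fun X => Me X (thW ε W Q0) (fun d => A ≤ (2 * δ X) ^ (1 / 2 + β X) * v d (1 / 2 + δ X) ∧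
      (2 * δ X) ^ (1 / 2 + β X) * v d (1 / 2 + δ X) ≤ B)) atTop (𝓝 (RP W Q0 b)) := by
  obtain ⟨V, hA⟩ := exists_AdmN h1 h2 h3
  have hM1 := mgQ hε hv hA
  have hM := mgW hε hv hQ0 hW hm hθ hA
  have hB0 : 0 < B := lt_trans hA0 hAB
  have hlog : Real.log A < Real.log B := Real.log_lt_log hA0 hAB
  have hlim1 := loc hM1 hβ (aQ_ofReal b) (aQR_pos b) hlog.le
  have hlimW := loc hM hβ (aW_real hW hm b) (A_pos W Q0 b hl) hlog.le
  have hIpos : 0 < ∫ x in Real.log A..Real.log B, Real.exp (-(b * x)) :=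
    intervalIntegral.intervalIntegral_pos_of_pos (Continuous.intervalIntegrable (by fun_prop) _ _)
      (fun x => Real.exp_pos _) hlog
  set I := ∫ x in Real.log A..Real.log B, Real.exp (-(b * x)) with hI
  set L : ℝ := aQR b / Real.sqrt (2 * Real.pi) * I with hL
  have hL0 : 0 < L := mul_pos (div_pos (aQR_pos b) SD.sp_pos) hIpos
  obtain ⟨K, hK⟩ := exists_nat_gt (b ^ 2)
  have hK1 : Tendsto (fun X => (β X) ^ 2) atTop (𝓝 (b ^ 2)) := hβ.pow 2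
  have hel := el_tendsto h1 h2
  set G : ℕ → ℝ := fun X => Real.sqrt (el δ X) * Real.exp (el δ X * β X ^ 2 / 2) with hG
  have hl1 : Tendsto (fun X => (muQ v δ V X).real (Set.Icc (β X * el δ X + Real.log A) (β X * el δ X + Real.log B)) /
      (G X)⁻¹) atTop (𝓝 L) := by
    refine hlim1.congr fun X => ?_
    rw [div_inv_eq_mul]
    simp only [hG]
    ring
  have hlW : Tendsto (fun X => (muW v δ V (thW ε W Q0) X).real
      (Set.Icc (β X * el δ X + Real.log A) (β X * el δ X + Real.log B)) / (G X)⁻¹) atTop (𝓝 (L * RP W Q0 b)) := by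
    have e : L * RP W Q0 b = aQR b * RP W Q0 b / Real.sqrt (2 * Real.pi) * I := by rw [hL]; ring
    rw [e]
    refine hlimW.congr fun X => ?_
    rw [div_inv_eq_mul]
    simp only [hG]
    ring
  have hgb : ∀ᶠ X : ℕ in atTop, (Real.log X ^ (K + 1))⁻¹ ≤ (G X)⁻¹ := by
    filter_upwards [hK1.eventually (gt_mem_nhds hK), bad_small hε hv hA 0, hel.eventually (eventually_gt_atTop 0)]
      with X g2 ⟨_, g3, g4, g5, g6⟩ g7
    have hq0 : 0 < Real.sqrt (el δ X) := Real.sqrt_pos.mpr g7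
    have hel2 := el_le g3 g4 g6
    have hG0 : 0 < G X := by simp only [hG]; positivity
    refine inv_anti₀ hG0 ?_
    have e1 : Real.sqrt (el δ X) ≤ Real.log (X:ℝ) := by
      refine le_trans ?_ hel2
      rw [Real.sqrt_le_left (Real.exp_pos _).le]
      have h5 := Real.add_one_le_exp (el δ X)
      nlinarith
    have e2 : Real.exp (el δ X * β X ^ 2 / 2) ≤ Real.log (X:ℝ) ^ K := by
      have h5 : el δ X * β X ^ 2 / 2 ≤ K * el δ X := by nlinarith [sq_nonneg (β X)]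
      calc _ ≤ Real.exp (K * el δ X) := Real.exp_le_exp.mpr h5
        _ = Real.exp (el δ X) ^ K := Real.exp_nat_mul _ _
        _ ≤ _ := pow_le_pow_left₀ (Real.exp_pos _).le hel2 K
    calc G X ≤ Real.log (X:ℝ) * Real.log (X:ℝ) ^ K := mul_le_mul e1 e2 (Real.exp_pos _).le (by linarith)
      _ = _ := by ring
  have hev : ∀ᶠ X in atTop, ∀ d ∈ SD.gd v δ V X, ((A ≤ (2 * δ X) ^ (1 / 2 + β X) * v d (1 / 2 + δ X) ∧
      (2 * δ X) ^ (1 / 2 + β X) * v d (1 / 2 + δ X) ≤ B) ↔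
      xd v (δ X) d ∈ Set.Icc (β X * el δ X + Real.log A) (β X * el δ X + Real.log B)) := by
    filter_upwards [hA.2.1, hA.2.2.1] with X g1 g2 d hd
    unfold SD.gd at hd
    rw [mem_filter] at hd
    have hv0 : 0 < v d (1 / 2 + δ X) := lt_trans (inv_pos.mpr (by linarith)) hd.2.1
    have h22 : 0 < 2 * δ X := by linarith
    have hY : 0 < (2 * δ X) ^ (1 / 2 + β X) * v d (1 / 2 + δ X) := mul_pos (Real.rpow_pos_of_pos h22 _) hv0
    have e1 : xd v (δ X) d - β X * el δ X = Real.log ((2 * δ X) ^ (1 / 2 + β X) * v d (1 / 2 + δ X)) := by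
      rw [Real.log_mul (Real.rpow_pos_of_pos h22 _).ne' hv0.ne', Real.log_rpow h22]
      unfold xd el
      rw [one_div (2 * δ X), Real.log_inv]
      ring
    rw [Set.mem_Icc, ← Real.log_le_log_iff hA0 hY, ← Real.log_le_log_iff hY hB0, ← e1]
    constructor
    · rintro ⟨k1, k2⟩; constructor <;> linarith
    · rintro ⟨k1, k2⟩; constructor <;> linarith
  have r1 := transfer hε hv hA (p := fun X d => A ≤ (2 * δ X) ^ (1 / 2 + β X) * v d (1 / 2 + δ X) ∧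
      (2 * δ X) ^ (1 / 2 + β X) * v d (1 / 2 + δ X) ≤ B)
    (J := fun X => Set.Icc (β X * el δ X + Real.log A) (β X * el δ X + Real.log B))
    (fun X => measurableSet_Icc) hev hl1 hgb
  have rW := transferW hε hv hA (C := CW W Q0) hθ (fun d => (le_abs_self _).trans (thW_abs ε W Q0 d))
    (p := fun X d => A ≤ (2 * δ X) ^ (1 / 2 + β X) * v d (1 / 2 + δ X) ∧
      (2 * δ X) ^ (1 / 2 + β X) * v d (1 / 2 + δ X) ≤ B)
    (J := fun X => Set.Icc (β X * el δ X + Real.log A) (β X * el δ X + Real.log B))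
    (fun X => measurableSet_Icc) hev hlW hgb
  exact mean_lim hL0 hgb rW r1

variable {S : Finset ℕ} {η : ℕ → ℤ}

/-- joint law, large values -/
theorem jointLarge (hε : ε = 1 ∨ ε = -1) (hv : Hyp ε v) (hS : ∀ p ∈ S, p.Prime ∧ p ≠ 2)
    (hη : ∀ p ∈ S, η p = 0 ∨ η p = 1 ∨ η p = -1)
    (h1 : Tendsto δ atTop (𝓝 0)) (h2 : ∀ᶠ X in atTop, 0 < δ X)
    (h3 : Tendsto (fun X : ℕ => δ X * Real.log X / Real.log (Real.log X)) atTop atTop) {x : ℕ → ℝ}
    {b : ℝ} (hx : ∀ᶠ X in atTop, 0 ≤ x X) (hb : Tendsto (fun X => x X / el δ X) atTop (𝓝 b)) :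
    Tendsto (fun X => Me X (fun d => ∏ q ∈ S, iv (η q) (chi ε d q))
      (fun d => Real.exp (x X) ≤ Real.sqrt (2 * δ X) * v d (1 / 2 + δ X))) atTop (𝓝 (∏ q ∈ S, Ep b q (iv (η q)))) := by
  refine joint (p := fun X d => Real.exp (x X) ≤ Real.sqrt (2 * δ X) * v d (1 / 2 + δ X)) hS hη fun T hT => ?_
  have hTp : ∀ p ∈ T, p.Prime := fun p hp => (hS p (hT hp)).1
  have hTη := fun p (hp : p ∈ T) => hη p (hT hp)
  obtain ⟨i1, i2, -, -⟩ := WT_facts (fun q => av (η q)) (fun q => bv (η q)) T hTp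
  exact largeW hε hv (QT_pos hTp) i2 i1 (thW_nonneg hTp hTη) (thl_nonneg hTp hTη) h1 h2 h3 hx hb

/-- joint law, small values -/
theorem jointSmall (hε : ε = 1 ∨ ε = -1) (hv : Hyp ε v) (hS : ∀ p ∈ S, p.Prime ∧ p ≠ 2)
    (hη : ∀ p ∈ S, η p = 0 ∨ η p = 1 ∨ η p = -1)
    (h1 : Tendsto δ atTop (𝓝 0)) (h2 : ∀ᶠ X in atTop, 0 < δ X)
    (h3 : Tendsto (fun X : ℕ => δ X * Real.log X / Real.log (Real.log X)) atTop atTop) {x : ℕ → ℝ}
    {b : ℝ} (hx : ∀ᶠ X in atTop, 0 ≤ x X) (hb : Tendsto (fun X => x X / el δ X) atTop (𝓝 b)) :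
    Tendsto (fun X => Me X (fun d => ∏ q ∈ S, iv (η q) (chi ε d q))
      (fun d => Real.sqrt (2 * δ X) * v d (1 / 2 + δ X) ≤ Real.exp (-x X))) atTop (𝓝 (∏ q ∈ S, Ep (-b) q (iv (η q)))) := by
  refine joint (p := fun X d => Real.sqrt (2 * δ X) * v d (1 / 2 + δ X) ≤ Real.exp (-x X)) hS hη fun T hT => ?_
  have hTp : ∀ p ∈ T, p.Prime := fun p hp => (hS p (hT hp)).1
  have hTη := fun p (hp : p ∈ T) => hη p (hT hp)
  obtain ⟨i1, i2, -, -⟩ := WT_facts (fun q => av (η q)) (fun q => bv (η q)) T hTp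
  exact smallW hε hv (QT_pos hTp) i2 i1 (thW_nonneg hTp hTη) (thl_nonneg hTp hTη) h1 h2 h3 hx hb

/-- joint law, windows -/
theorem jointWindow (hε : ε = 1 ∨ ε = -1) (hv : Hyp ε v) (hS : ∀ p ∈ S, p.Prime ∧ p ≠ 2)
    (hη : ∀ p ∈ S, η p = 0 ∨ η p = 1 ∨ η p = -1)
    (h1 : Tendsto δ atTop (𝓝 0)) (h2 : ∀ᶠ X in atTop, 0 < δ X)
    (h3 : Tendsto (fun X : ℕ => δ X * Real.log X / Real.log (Real.log X)) atTop atTop) {β : ℕ → ℝ}
    {b : ℝ} (hβ : Tendsto β atTop (𝓝 b)) {A B : ℝ} (hA0 : 0 < A) (hAB : A < B) :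
    Tendsto (fun X => Me X (fun d => ∏ q ∈ S, iv (η q) (chi ε d q))
      (fun d => A ≤ (2 * δ X) ^ (1 / 2 + β X) * v d (1 / 2 + δ X) ∧
      (2 * δ X) ^ (1 / 2 + β X) * v d (1 / 2 + δ X) ≤ B)) atTop (𝓝 (∏ q ∈ S, Ep b q (iv (η q)))) := by
  refine joint (p := fun X d => A ≤ (2 * δ X) ^ (1 / 2 + β X) * v d (1 / 2 + δ X) ∧
      (2 * δ X) ^ (1 / 2 + β X) * v d (1 / 2 + δ X) ≤ B) hS hη fun T hT => ?_
  have hTp : ∀ p ∈ T, p.Prime := fun p hp => (hS p (hT hp)).1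
  have hTη := fun p (hp : p ∈ T) => hη p (hT hp)
  obtain ⟨i1, i2, -, -⟩ := WT_facts (fun q => av (η q)) (fun q => bv (η q)) T hTp
  exact windowW hε hv (QT_pos hTp) i2 i1 (thW_nonneg hTp hTη) (thl_nonneg hTp hTη) h1 h2 h3 hβ hA0 hAB

/-- explicit local law -/
lemma Ep_iv_val (β : ℝ) {p : ℕ} {η : ℤ} (hη : η = 0 ∨ η = 1 ∨ η = -1) :
    Ep β p (iv η) = (if η = 0 then 1 / ((p:ℝ) + 1) else (p:ℝ) / (2 * (p + 1)) * AA β (η * yp p)) /
      (1 / (p + 1) + (p:ℝ) / (2 * (p + 1)) * (AA β (yp p) + AA β (-yp p))) := by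
  unfold Ep iv
  rcases hη with h | h | h <;> subst h <;> norm_num

end

end Pool.Agent.X110.LWL
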