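import Pool.Agent.X110.LW8
import Pool.Agent.X110.QG4
import Mathlib.Analysis.Analytic.Binomial

set_option autoImplicit false

/-! Closed form of the local law; the character. -/

namespace Pool.Agent.X110.LWL

open Finset Filter Topology MeasureTheory
open Pool.Agent.H306R2 Pool.Agent.Y746.OA Pool.Agent.X110.LT Pool.Agent.X110.QF Pool.Agent.X110.SD

noncomputable section

lemma lc_fac (α : ℝ) (n : ℕ) : ((n.factorial : ℕ) : ℂ) * (lc α n : ℂ) = (ascPochhammer ℂ n).eval (α:ℂ) := by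
  induction n with
  | zero => simp [lc_zero]
  | succ n ih =>
    rw [ascPochhammer_succ_eval, ← ih, Nat.factorial_succ]
    have h := congrArg (fun x : ℝ => (x:ℂ)) (lc_succ' α n)
    push_cast at h ⊢
    calc ((n:ℂ) + 1) * (n.factorial:ℂ) * (lc α (n + 1) : ℂ) = (n.factorial : ℂ) * (((n:ℂ) + 1) * (lc α (n + 1) : ℂ)) := by ring
      _ = (n.factorial : ℂ) * ((α + n) * (lc α n : ℂ)) := by rw [h]
      _ = _ := by ring

lemma lc_choose (α : ℝ) (n : ℕ) : (lc α n : ℂ) = Ring.choose ((α:ℂ) + n - 1) n := by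
  have h1 := Ring.factorial_nsmul_multichoose_eq_ascPochhammer (α:ℂ) n
  rw [Polynomial.ascPochhammer_smeval_eq_eval, Ring.multichoose_eq, ← lc_fac, nsmul_eq_mul] at h1
  exact (mul_left_cancel₀ (by exact_mod_cast n.factorial_ne_zero) h1).symm

lemma lc_hasSum (α : ℝ) {x : ℂ} (hx : ‖x‖ < 1) : HasSum (fun n => (lc α n:ℂ) * x ^ n) (1 / (1 - x) ^ (α:ℂ)) := by
  have h := (Complex.one_div_one_sub_cpow_hasFPowerSeriesOnBall_zero (α:ℂ)).hasSum (y := x) (by
    rw [Metric.mem_eball, edist_zero_right, ← ofReal_norm]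
    exact ENNReal.ofReal_lt_one.mpr hx)
  rw [zero_add] at h
  refine h.congr_fun ?_
  intro n
  rw [FormalMultilinearSeries.ofScalars_apply_eq, lc_choose, smul_eq_mul]

lemma AA_rpow (β : ℝ) {y : ℝ} (hy : |y| ≤ 3 / 4) : AA β y = (1 - y) ^ (-β) := by
  have h0 : 0 ≤ 1 - y := by have := (abs_le.mp hy).2; linarith
  have h1 : HasSum (fun n => (((lc β n * y ^ n : ℝ)) : ℂ)) ((((1 - y) ^ (-β) : ℝ)) : ℂ) := by
    have h2 := lc_hasSum β (x := (y:ℂ)) (by rw [Complex.norm_real, Real.norm_eq_abs]; linarith)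
    have e : (((1 - y) ^ (-β) : ℝ) : ℂ) = 1 / (1 - (y:ℂ)) ^ (β:ℂ) := by
      rw [Complex.ofReal_cpow h0, Complex.ofReal_neg, Complex.cpow_neg, one_div]
      push_cast
      rfl
    rw [e]
    refine h2.congr_fun fun n => ?_
    push_cast
    rfl
  exact (Complex.hasSum_ofReal.mp h1).tsum_eq

lemma chi_jac (ε : ℤ) (d : ℕ) {n : ℕ} (hn : Odd n) : chi ε d n = ((jacobiSym (8 * ε * d) n : ℤ) : ℝ) := by
  unfold chi
  rw [if_pos hn]
  unfold Pool.Agent.H306R2.RZ.js
  have e1 : (8 * ε * (d:ℤ)) = 2 ^ 2 * (2 * ε * (d:ℤ)) := by ring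
  have e2 : jacobiSym (8 * ε * (d:ℤ)) n = jacobiSym (2 * ε * (d:ℤ)) n := by
    have h8 : Nat.Coprime 2 n := Nat.coprime_two_left.mpr hn
    rw [e1, jacobiSym.mul_left (2 ^ 2), jacobiSym.pow_left, jacobiSym.sq_one, one_mul]
    simpa [Int.gcd] using h8
  rw [e2]

lemma chi_even (ε : ℤ) (d : ℕ) {n : ℕ} (hn : ¬ Odd n) : chi ε d n = 0 := by
  unfold chi
  rw [if_neg hn]

lemma GW_mult {W : ArithmeticFunction ℝ} {Q0 : ℕ} (hW : ∀ n : ℕ, Q0 < n → W n = 0) (hm : W.IsMultiplicative) (z : ℂ) :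
    Multipliable fun p : Nat.Primes => GW W z 0 p := by
  have h : Summable fun p : Nat.Primes => ‖GW W z 0 p - 1‖ := by
    refine Summable.of_nonneg_of_le (fun _ => norm_nonneg _) (fun p => ?_)
      (bd_summable (fun n => ‖GW W z 0 n - 1‖) (CQ (‖z‖ + 1)) Q0)
    split_ifs with h
    · exact le_rfl
    · rw [GW_big hW hm p.2 (by omega) z le_rfl, xp_zero]
      exact Gq_bound (by linarith [norm_nonneg z]) (by linarith) p.2 (by positivity) le_rfl
  have := multipliable_one_add_of_summable h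
  simpa using this

end

end Pool.Agent.X110.LWL
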