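import Pool.Agent.X110.LW9

set_option autoImplicit false

/-! The twist by a single character value: inclusion and exclusion over multiplicative twists. -/

namespace Pool.Agent.X110.LWL

open Finset Filter Topology
open Pool.Agent.H306R2 Pool.Agent.Y746.OA Pool.Agent.X110.LT Pool.Agent.X110.QF

noncomputable section

/-- the indicator function of `M` -/
def dM (M : ℕ) : ArithmeticFunction ℝ := ⟨fun n => if n ≠ 0 ∧ n = M then 1 else 0, by simp⟩

lemma dM_apply (M : ℕ) {n : ℕ} (hn : n ≠ 0) : dM M n = if n = M then 1 else 0 := by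
  show (if n ≠ 0 ∧ n = M then (1:ℝ) else 0) = _
  simp [hn]

lemma fw_lin {ι : Type*} (s : Finset ι) (c : ι → ℝ) (Wf : ι → ArithmeticFunction ℝ) (W : ArithmeticFunction ℝ) {k : ℕ}
    (h : ∀ n, n ≠ 0 → n ∣ k ^ 2 → W n = ∑ i ∈ s, c i * Wf i n) (z : ℂ) (δ : ℝ) :
    fw W z δ k = ∑ i ∈ s, (c i : ℂ) * fw (Wf i) z δ k := by
  unfold fw
  split_ifs with hk
  · have e1 : (WsC W (1 / 2 + δ) * dAC z) (k ^ 2) = ∑ i ∈ s, (c i : ℂ) * (WsC (Wf i) (1 / 2 + δ) * dAC z) (k ^ 2) := by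
      simp only [ArithmeticFunction.mul_apply]
      simp_rw [mul_sum]
      rw [sum_comm]
      refine sum_congr rfl fun x hx => ?_
      rw [Nat.mem_divisorsAntidiagonal] at hx
      have hx1 : x.1 ≠ 0 := by
        rintro h0
        rw [h0, zero_mul] at hx
        exact hx.2 hx.1.symm
      show ((W x.1 * (x.1:ℝ) ^ (1 / 2 + δ) : ℝ) : ℂ) * dAC z x.2 =
        ∑ i ∈ s, (c i : ℂ) * (((Wf i x.1 * (x.1:ℝ) ^ (1 / 2 + δ) : ℝ) : ℂ) * dAC z x.2)
      rw [h _ hx1 ⟨x.2, hx.1.symm⟩, sum_mul, Complex.ofReal_sum, sum_mul]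
      refine sum_congr rfl fun i _ => ?_
      push_cast
      ring
    rw [e1, sum_mul]
    refine sum_congr rfl fun i _ => ?_
    ring
  · simp

lemma tsum_lin {ι κ : Type*} (s : Finset ι) (c : ι → ℂ) (f : ι → κ → ℂ) (g : κ → ℂ) (hg : ∀ k, g k = ∑ i ∈ s, c i * f i k)
    (hf : ∀ i ∈ s, Summable (f i)) : ∑' k, g k = ∑ i ∈ s, c i * ∑' k, f i k := by
  have h1 : HasSum (fun k => ∑ i ∈ s, c i * f i k) (∑ i ∈ s, c i * ∑' k, f i k) :=
    hasSum_sum fun i hi => ((hf i hi).hasSum.mul_left (c i))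
  rw [← h1.tsum_eq]
  exact tsum_congr hg

lemma hqW_lin {ι : Type*} (s : Finset ι) (c : ι → ℝ) (Wf : ι → ArithmeticFunction ℝ) (W : ArithmeticFunction ℝ)
    (h : ∀ n, n ≠ 0 → W n = ∑ i ∈ s, c i * Wf i n) {Q0 : ℕ} (hW : ∀ i ∈ s, ∀ n, Q0 < n → Wf i n = 0) (z : ℂ) {δ : ℝ}
    (hδ : 0 < δ) (hδ1 : δ ≤ 1 / 2) : hqW W z δ = ∑ i ∈ s, (c i : ℂ) * hqW (Wf i) z δ := by
  obtain ⟨K, hK⟩ := exists_nat_ge ‖z‖
  have hz : ‖z‖ ≤ ((2 * K : ℕ) : ℝ) := by
    have h2 : (0:ℝ) ≤ K := Nat.cast_nonneg K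
    push_cast
    linarith
  have e := tsum_lin s (fun i => (c i : ℂ)) (fun i => fw (Wf i) z δ) (fw W z δ)
    (fun k => fw_lin s c Wf W (fun n hn _ => h n hn) z δ) (fun i hi => (fw_summable (hW i hi) hz hδ hδ1).of_norm)
  unfold hqW
  have e2 : SWC W z δ = ∑ i ∈ s, (c i : ℂ) * SWC (Wf i) z δ := e
  rw [e2, mul_sum]
  refine sum_congr rfl fun i _ => ?_
  ring

lemma fw0_norm {W : ArithmeticFunction ℝ} {Q0 : ℕ} (hW : ∀ n : ℕ, Q0 < n → W n = 0) {z : ℂ} {K : ℕ}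
    (hz : ‖z‖ ≤ ((2 * K : ℕ) : ℝ)) {k : ℕ} (hk : k ≠ 0) :
    ‖fw W z 0 k‖ ≤ CW W Q0 * (dv (((2 * (K + 1)) ^ 2 : ℕ) : ℝ) k * (k:ℝ) ^ (-1 : ℝ)) := by
  have h1 : Tendsto (fun δ : ℝ => ‖fw W z δ k‖) (𝓝[>] 0) (𝓝 ‖fw W z 0 k‖) := by
    have h := (fw_cont W k).comp (continuous_const.prodMk continuous_id : Continuous fun δ : ℝ => (z, δ))
    exact ((h.norm).tendsto 0).mono_left nhdsWithin_le_nhds
  have hk1 : (1:ℝ) ≤ k := by exact_mod_cast Nat.one_le_iff_ne_zero.mpr hk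
  refine le_of_tendsto h1 ?_
  have h2 : ∀ᶠ δ : ℝ in 𝓝[>] 0, δ ≤ 1 / 2 := nhdsWithin_le_nhds (ge_mem_nhds (by norm_num))
  filter_upwards [self_mem_nhdsWithin, h2] with δ hδ hδ1
  have hδ0 : 0 < δ := hδ
  refine (fw_norm hW hz hδ0 hδ1 k).trans (mul_le_mul_of_nonneg_left (mul_le_mul_of_nonneg_left ?_
    (dv_nonneg (Nat.cast_nonneg _) _)) (CW_pos W Q0).le)
  exact Real.rpow_le_rpow_of_exponent_le hk1 (by linarith)

lemma fw0_summable {W : ArithmeticFunction ℝ} {Q0 : ℕ} (hW : ∀ n : ℕ, Q0 < n → W n = 0) (z : ℂ) {p : ℕ} (hp : p.Prime) :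
    Summable fun e : ℕ => fw W z 0 (p ^ e) := by
  obtain ⟨K, hK⟩ := exists_nat_ge ‖z‖
  have hz : ‖z‖ ≤ ((2 * K : ℕ) : ℝ) := by
    have h2 : (0:ℝ) ≤ K := Nat.cast_nonneg K
    push_cast
    linarith
  have hp2 : (2:ℝ) ≤ p := by exact_mod_cast hp.two_le
  refine Summable.of_norm_bounded
    (g := fun e => CW W Q0 * ‖lc (((2 * (K + 1)) ^ 2 : ℕ) : ℝ) e * (1 / 2 : ℝ) ^ e‖)
    ((AA_summable _ (by rw [abs_of_pos (by norm_num)]; norm_num)).mul_left _) (fun e => ?_)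
  refine (fw0_norm hW hz (pow_ne_zero _ hp.ne_zero)).trans (mul_le_mul_of_nonneg_left ?_ (CW_pos W Q0).le)
  have h2 : dv (((2 * (K + 1)) ^ 2 : ℕ) : ℝ) (p ^ e) = lc (((2 * (K + 1)) ^ 2 : ℕ) : ℝ) e := by
    unfold dv
    rw [if_neg (pow_ne_zero _ hp.ne_zero), hp.factorization_pow]
    exact Finsupp.prod_single_index (by simp [lc])
  have h3 : 0 ≤ lc (((2 * (K + 1)) ^ 2 : ℕ) : ℝ) e := by
    rw [← h2]
    exact dv_nonneg (Nat.cast_nonneg _) _
  rw [h2, Real.norm_of_nonneg (by positivity)]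
  refine mul_le_mul_of_nonneg_left ?_ h3
  calc ((p ^ e : ℕ) : ℝ) ^ (-1 : ℝ) = ((p:ℝ) ^ e)⁻¹ := by rw [Real.rpow_neg_one]; push_cast; rfl
    _ ≤ ((2:ℝ) ^ e)⁻¹ := inv_anti₀ (by positivity) (pow_le_pow_left₀ (by norm_num) hp2 e)
    _ = (1 / 2 : ℝ) ^ e := by rw [one_div, inv_pow]

lemma GW_lin {ι : Type*} (s : Finset ι) (c : ι → ℝ) (Wf : ι → ArithmeticFunction ℝ) (W : ArithmeticFunction ℝ) {p : ℕ}
    (hp : p.Prime) (h : ∀ j, W (p ^ j) = ∑ i ∈ s, c i * Wf i (p ^ j)) {Q0 : ℕ} (hW : ∀ i ∈ s, ∀ n, Q0 < n → Wf i n = 0)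
    (z : ℂ) : GW W z 0 p = ∑ i ∈ s, (c i : ℂ) * GW (Wf i) z 0 p := by
  have e := tsum_lin s (fun i => (c i : ℂ)) (fun i e => fw (Wf i) z 0 (p ^ e)) (fun e => fw W z 0 (p ^ e))
    (fun k => fw_lin s c Wf W (fun n _ hn2 => by
      rw [← pow_mul] at hn2
      obtain ⟨i, -, h2⟩ := (Nat.dvd_prime_pow hp).mp hn2
      rw [h2]
      exact h i) z 0) (fun i hi => fw0_summable (hW i hi) z hp)
  unfold GW
  have e2 : FW W z 0 p = ∑ i ∈ s, (c i : ℂ) * FW (Wf i) z 0 p := e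
  rw [e2, mul_sum]
  refine sum_congr rfl fun i _ => ?_
  ring

/-- the multiplicative function with value 1 at the unitary divisors of `M` with primes in `S` -/
def wS (M : ℕ) (S : Finset ℕ) : ArithmeticFunction ℝ :=
  ⟨fun n => if n = 0 then 0 else n.factorization.prod fun p e => if p ∈ S ∧ e = M.factorization p then (1:ℝ) else 0,
    by simp⟩

lemma wS_val (M : ℕ) (S : Finset ℕ) {n : ℕ} (hn : n ≠ 0) :
    wS M S n = if ∀ p ∈ n.primeFactors, p ∈ S ∧ n.factorization p = M.factorization p then 1 else 0 := by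
  show (if n = 0 then (0:ℝ) else _) = _
  rw [if_neg hn]
  unfold Finsupp.prod
  rw [prod_boole]
  rfl

lemma wS_mult (M : ℕ) (S : Finset ℕ) : (wS M S).IsMultiplicative := by
  refine ⟨?_, fun {m n} h => ?_⟩
  · rw [wS_val M S one_ne_zero]
    simp
  · show (if m * n = 0 then (0:ℝ) else (m * n).factorization.prod _) =
      (if m = 0 then 0 else m.factorization.prod _) * (if n = 0 then 0 else n.factorization.prod _)
    rcases eq_or_ne m 0 with h0 | h0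
    · simp [h0]
    · rcases eq_or_ne n 0 with h1 | h1
      · simp [h1]
      · rw [if_neg (mul_ne_zero h0 h1), if_neg h0, if_neg h1, Nat.factorization_mul h0 h1,
          Finsupp.prod_add_index_of_disjoint]
        exact h.disjoint_primeFactors

lemma wS_supp {M : ℕ} (hM : M ≠ 0) (S : Finset ℕ) : ∀ n, M < n → wS M S n = 0 := by
  intro n hn
  have hn0 : n ≠ 0 := by omega
  rw [wS_val M S hn0, if_neg]
  intro h
  have h1 : n ∣ M := by
    rw [← Nat.factorization_le_iff_dvd hn0 hM]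
    intro p
    by_cases hp : p ∈ n.primeFactors
    · exact (h p hp).2.le
    · rw [← Nat.support_factorization, Finsupp.notMem_support_iff] at hp
      rw [hp]
      exact Nat.zero_le _
  exact absurd (Nat.le_of_dvd (Nat.pos_of_ne_zero hM) h1) (by omega)

lemma incl (P T : Finset ℕ) :
    ∑ S ∈ P.powerset, (∏ _p ∈ P \ S, (-1 : ℝ)) * (if T ∩ P ⊆ S then 1 else 0) = if P ⊆ T then 1 else 0 := by
  have h := prod_add (fun _ : ℕ => (1:ℝ)) (fun p => if p ∈ T then (0:ℝ) else -1) P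
  have e1 : ∏ p ∈ P, ((1:ℝ) + if p ∈ T then (0:ℝ) else -1) = if P ⊆ T then 1 else 0 := by
    have e2 : ∀ p ∈ P, ((1:ℝ) + if p ∈ T then (0:ℝ) else -1) = if p ∈ T then 1 else 0 := by
      intro p _
      split_ifs <;> norm_num
    rw [prod_congr rfl e2, prod_boole]
    rfl
  rw [← e1, h]
  refine sum_congr rfl fun S hS => ?_
  rw [prod_const_one, one_mul]
  rw [mem_powerset] at hS
  split_ifs with h1
  · rw [mul_one]
    refine prod_congr rfl fun p hp => ?_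
    rw [Finset.mem_sdiff] at hp
    rw [if_neg]
    exact fun h2 => hp.2 (h1 (mem_inter.mpr ⟨h2, hp.1⟩))
  · rw [mul_zero]
    symm
    rw [not_subset] at h1
    obtain ⟨p, hp1, hp2⟩ := h1
    rw [mem_inter] at hp1
    exact prod_eq_zero (Finset.mem_sdiff.mpr ⟨hp1.2, hp2⟩) (if_pos hp1.1)

lemma dM_wS {M : ℕ} (hM : M ≠ 0) {n : ℕ} (hn : n ≠ 0) :
    dM M n = ∑ S ∈ M.primeFactors.powerset, (∏ _p ∈ M.primeFactors \ S, (-1 : ℝ)) * wS M S n := by
  rw [dM_apply M hn]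
  by_cases h : ∀ p ∈ n.primeFactors, n.factorization p = M.factorization p
  · have hsub : n.primeFactors ⊆ M.primeFactors := by
      intro p hp
      have h1 := h p hp
      rw [← Nat.support_factorization, Finsupp.mem_support_iff] at hp ⊢
      rwa [← h1]
    have e1 : ∀ S, wS M S n = if n.primeFactors ∩ M.primeFactors ⊆ S then 1 else 0 := by
      intro S
      rw [wS_val M S hn, inter_eq_left.mpr hsub]
      refine if_congr ?_ rfl rfl
      constructor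
      · intro h2 p hp
        exact (h2 p hp).1
      · intro h2 p hp
        exact ⟨h2 hp, h p hp⟩
    simp_rw [e1]
    rw [incl]
    refine if_congr ?_ rfl rfl
    constructor
    · rintro rfl
      exact Subset.rfl
    · intro h2
      refine Nat.eq_of_factorization_eq hn hM fun p => ?_
      by_cases hp : p ∈ n.primeFactors
      · exact h p hp
      · have hp2 : p ∉ M.primeFactors := fun h3 => hp (h2 h3)
        rw [← Nat.support_factorization, Finsupp.notMem_support_iff] at hp hp2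
        rw [hp, hp2]
  · rw [if_neg]
    · symm
      refine sum_eq_zero fun S _ => ?_
      rw [wS_val M S hn, if_neg, mul_zero]
      intro h2
      exact h fun p hp => (h2 p hp).2
    · rintro rfl
      exact h fun p _ => rfl

lemma wS_pow (M : ℕ) (S : Finset ℕ) {p : ℕ} (hp : p.Prime) (j : ℕ) :
    wS M S (p ^ j) = if j = 0 ∨ (p ∈ S ∧ j = M.factorization p) then 1 else 0 := by
  rw [wS_val M S (pow_ne_zero _ hp.ne_zero)]
  refine if_congr ?_ rfl rfl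
  rcases Nat.eq_zero_or_pos j with h0 | h0
  · subst h0
    simp
  · rw [Nat.primeFactors_prime_pow h0.ne' hp]
    have e : (p ^ j).factorization p = j := by rw [hp.factorization_pow]; simp
    constructor
    · intro h
      have h1 := h p (mem_singleton_self p)
      rw [e] at h1
      exact Or.inr h1
    · rintro (h | h) q hq
      · omega
      · rw [mem_singleton] at hq
        subst hq
        rw [e]
        exact h

lemma dM_pow {p : ℕ} (hp : p.Prime) (a j : ℕ) : dM (p ^ a) (p ^ j) = if j = a then 1 else 0 := by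
  rw [dM_apply _ (pow_ne_zero _ hp.ne_zero)]
  refine if_congr ?_ rfl rfl
  exact (Nat.pow_right_injective hp.two_le).eq_iff

lemma dM_supp {M N : ℕ} (h : M ≤ N) : ∀ n, N < n → dM M n = 0 := by
  intro n hn
  rw [dM_apply _ (by omega), if_neg (by omega)]

lemma GW_out (M : ℕ) {S : Finset ℕ} {p : ℕ} (hp : p.Prime) (hpS : p ∉ S) (z : ℂ) :
    GW (wS M S) z 0 p = GW (dM 1) z 0 p := by
  have h := GW_lin (univ : Finset Unit) (fun _ => 1) (fun _ => dM 1) (wS M S) hp (fun j => by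
    have e := dM_pow hp 0 j
    rw [pow_zero] at e
    simp only [univ_unique, sum_singleton, one_mul]
    rw [wS_pow M S hp, e]
    exact if_congr (by simp [hpS]) rfl rfl) (Q0 := 1) (fun _ _ => dM_supp le_rfl) z
  rw [h]
  simp

lemma GW_in {M : ℕ} {S : Finset ℕ} {p : ℕ} (hp : p.Prime) (hpS : p ∈ S) (hM : p ∈ M.primeFactors) (z : ℂ) :
    GW (wS M S) z 0 p = GW (dM (p ^ M.factorization p)) z 0 p + GW (dM 1) z 0 p := by
  have ha : M.factorization p ≠ 0 := by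
    rw [← Nat.support_factorization, Finsupp.mem_support_iff] at hM
    exact hM
  have h := GW_lin (univ : Finset Bool) (fun _ => 1) (fun b => if b then dM (p ^ M.factorization p) else dM 1)
    (wS M S) hp (fun j => by
      have e := dM_pow hp 0 j
      have e1 := dM_pow hp (M.factorization p) j
      rw [pow_zero] at e
      simp only [Fintype.sum_bool, one_mul, if_true, Bool.false_eq_true, if_false]
      rw [wS_pow M S hp, e, e1]
      by_cases h1 : j = 0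
      · have h2 : ¬ j = M.factorization p := by omega
        simp [h1, Ne.symm ha]
      · by_cases h2 : j = M.factorization p
        · simp [h1, h2, hpS, ha]
        · simp [h1, h2]) (Q0 := p ^ M.factorization p) (fun b _ => by
        cases b
        · exact dM_supp (Nat.one_le_pow _ _ hp.pos)
        · exact dM_supp le_rfl) z
  rw [h]
  simp

/-- `∑ |g0 - 1|` -/
lemma g0_summable (z : ℂ) : Summable fun p : Nat.Primes => ‖GW (dM 1) z 0 p - 1‖ := by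
  have hm : (wS 1 ∅).IsMultiplicative := wS_mult 1 ∅
  have hW := wS_supp one_ne_zero ∅
  have h : Summable fun p : Nat.Primes => ‖GW (wS 1 ∅) z 0 p - 1‖ := by
    refine Summable.of_nonneg_of_le (fun _ => norm_nonneg _) (fun p => ?_)
      (bd_summable (fun n => ‖GW (wS 1 ∅) z 0 n - 1‖) (CQ (‖z‖ + 1)) 1)
    split_ifs with h
    · exact le_rfl
    · rw [GW_big hW hm p.2 (by omega) z le_rfl, xp_zero]
      exact Gq_bound (by linarith [norm_nonneg z]) (by linarith) p.2 (by positivity) le_rfl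
  exact h.congr fun p => by rw [GW_out 1 p.2 (notMem_empty _) z]

lemma tprod_split (P : Finset ℕ) (hP : ∀ p ∈ P, p.Prime) (F G : ℕ → ℂ)
    (hFG : ∀ q : Nat.Primes, (q:ℕ) ∉ P → F q = G q) (hG : Summable fun q : Nat.Primes => ‖G q - 1‖) :
    HasProd (fun q : Nat.Primes => F q) ((∏ p ∈ P, F p) * ∏' q : Nat.Primes, (if (q:ℕ) ∈ P then 1 else G q)) := by
  have h1 : Multipliable (fun q : Nat.Primes => if (q:ℕ) ∈ P then (1:ℂ) else G q) := by
    have h2 : Summable fun q : Nat.Primes => ‖(if (q:ℕ) ∈ P then (0:ℂ) else G q - 1)‖ := by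
      refine Summable.of_nonneg_of_le (fun _ => norm_nonneg _) (fun q => ?_) hG
      split_ifs
      · rw [norm_zero]; exact norm_nonneg _
      · exact le_rfl
    refine (multipliable_one_add_of_summable h2).congr fun q => ?_
    split_ifs <;> ring
  have h2 : HasProd (fun q : Nat.Primes => if (q:ℕ) ∈ P then F q else 1)
      (∏ q ∈ P.subtype Nat.Prime, if (q:ℕ) ∈ P then F q else 1) := by
    exact hasProd_prod_of_ne_finset_one fun q hq => if_neg fun h => hq (Finset.mem_subtype.mpr h)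
  have e1 : (∏ q ∈ P.subtype Nat.Prime, if (q:ℕ) ∈ P then F q else 1) = ∏ p ∈ P, F p := by
    rw [prod_subtype_of_mem (fun q => if q ∈ P then F q else 1) hP]
    exact prod_congr rfl fun p hp => if_pos hp
  rw [e1] at h2
  refine (h2.mul h1.hasProd).congr_fun fun q => ?_
  split_ifs with h
  · rw [mul_one]
  · rw [one_mul, hFG q h]

/-- the arithmetic factor of the twist by `M` -/
def aM (M : ℕ) (z : ℂ) : ℂ := ∏' q : Nat.Primes, GW (dM ((q:ℕ) ^ M.factorization q)) z 0 q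

lemma aM_hasProd (M : ℕ) (z : ℂ) :
    HasProd (fun q : Nat.Primes => GW (dM ((q:ℕ) ^ M.factorization q)) z 0 q)
      ((∏ p ∈ M.primeFactors, GW (dM (p ^ M.factorization p)) z 0 p) *
        ∏' q : Nat.Primes, (if (q:ℕ) ∈ M.primeFactors then 1 else GW (dM 1) z 0 q)) := by
  refine tprod_split M.primeFactors (fun p hp => Nat.prime_of_mem_primeFactors hp)
    (fun q => GW (dM (q ^ M.factorization q)) z 0 q) (fun q => GW (dM 1) z 0 q) (fun q hq => ?_) (g0_summable z)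
  rw [← Nat.support_factorization, Finsupp.notMem_support_iff] at hq
  show GW (dM ((q:ℕ) ^ M.factorization q)) z 0 q = _
  rw [hq, pow_zero]

lemma aM_sum (M : ℕ) (z : ℂ) :
    aM M z = ∑ S ∈ M.primeFactors.powerset, ((∏ _p ∈ M.primeFactors \ S, (-1 : ℝ) : ℝ) : ℂ) * aW (wS M S) z := by
  set P := M.primeFactors with hP
  set R : ℂ := ∏' q : Nat.Primes, (if (q:ℕ) ∈ P then 1 else GW (dM 1) z 0 q) with hR
  have e1 : aM M z = (∏ p ∈ P, GW (dM (p ^ M.factorization p)) z 0 p) * R := (aM_hasProd M z).tprod_eq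
  have e2 : ∀ S ∈ P.powerset, aW (wS M S) z =
      ((∏ p ∈ S, (GW (dM (p ^ M.factorization p)) z 0 p + GW (dM 1) z 0 p)) * ∏ p ∈ P \ S, GW (dM 1) z 0 p) * R := by
    intro S hS
    rw [mem_powerset] at hS
    have h1 := (tprod_split P (fun p hp => Nat.prime_of_mem_primeFactors hp)
      (fun q => GW (wS M S) z 0 q) (fun q => GW (dM 1) z 0 q)
      (fun q hq => GW_out M q.2 (fun h => hq (hS h)) z) (g0_summable z)).tprod_eq
    have h2 : ∏ p ∈ P, GW (wS M S) z 0 p =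
        (∏ p ∈ S, (GW (dM (p ^ M.factorization p)) z 0 p + GW (dM 1) z 0 p)) * ∏ p ∈ P \ S, GW (dM 1) z 0 p := by
      rw [← prod_sdiff hS, mul_comm]
      congr 1
      · exact prod_congr rfl fun p hp => GW_in (Nat.prime_of_mem_primeFactors (hS hp)) hp (hS hp) z
      · refine prod_congr rfl fun p hp => ?_
        rw [Finset.mem_sdiff] at hp
        exact GW_out M (Nat.prime_of_mem_primeFactors hp.1) hp.2 z
    unfold aW
    rw [h1, h2]
  rw [e1, sum_congr rfl fun S hS => by rw [e2 S hS]]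
  have e3 := prod_add (fun p => GW (dM (p ^ M.factorization p)) z 0 p + GW (dM 1) z 0 p)
    (fun p => -GW (dM 1) z 0 p) P
  have e4 : ∏ p ∈ P, (GW (dM (p ^ M.factorization p)) z 0 p + GW (dM 1) z 0 p + -GW (dM 1) z 0 p) =
      ∏ p ∈ P, GW (dM (p ^ M.factorization p)) z 0 p := prod_congr rfl fun p _ => by ring
  rw [← e4, e3, sum_mul]
  refine sum_congr rfl fun S _ => ?_
  have e5 : ∏ p ∈ P \ S, -GW (dM 1) z 0 p = ((∏ _p ∈ P \ S, (-1 : ℝ) : ℝ) : ℂ) * ∏ p ∈ P \ S, GW (dM 1) z 0 p := by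
    rw [Complex.ofReal_prod, ← prod_mul_distrib]
    refine prod_congr rfl fun p _ => ?_
    push_cast
    ring
  rw [e5]
  ring

/-- **The limit, twist by `M`.** -/
theorem hqM_tendsto {M : ℕ} (hM : M ≠ 0) (z₀ : ℂ) :
    Tendsto (fun q : ℂ × ℝ => hqW (dM M) q.1 q.2) (lf z₀) (𝓝 (aM M z₀)) := by
  rw [aM_sum]
  have h1 : Tendsto (fun q : ℂ × ℝ => ∑ S ∈ M.primeFactors.powerset,
      ((∏ _p ∈ M.primeFactors \ S, (-1 : ℝ) : ℝ) : ℂ) * hqW (wS M S) q.1 q.2) (lf z₀)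
      (𝓝 (∑ S ∈ M.primeFactors.powerset, ((∏ _p ∈ M.primeFactors \ S, (-1 : ℝ) : ℝ) : ℂ) * aW (wS M S) z₀)) :=
    tendsto_finsetSum _ fun S _ => (hqW_tendsto (wS_supp hM S) (wS_mult M S) z₀).const_mul _
  refine h1.congr' ?_
  filter_upwards [lf_pos z₀, (lf_snd z₀).eventually (ge_mem_nhds (by norm_num : (0:ℝ) < 1 / 2))] with q hq hq1
  exact (hqW_lin M.primeFactors.powerset (fun S => ∏ _p ∈ M.primeFactors \ S, (-1 : ℝ)) (fun S => wS M S) (dM M)
    (fun n hn => dM_wS hM hn) (fun S _ => wS_supp hM S) q.1 hq hq1).symm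

/-- **The limit, any twist.** -/
theorem hqA_tendsto {W : ArithmeticFunction ℝ} {Q0 : ℕ} (hW : ∀ n : ℕ, Q0 < n → W n = 0) (z₀ : ℂ) :
    Tendsto (fun q : ℂ × ℝ => hqW W q.1 q.2) (lf z₀) (𝓝 (∑ M ∈ Icc 1 Q0, (W M : ℂ) * aM M z₀)) := by
  have h1 : Tendsto (fun q : ℂ × ℝ => ∑ M ∈ Icc 1 Q0, (W M : ℂ) * hqW (dM M) q.1 q.2) (lf z₀)
      (𝓝 (∑ M ∈ Icc 1 Q0, (W M : ℂ) * aM M z₀)) :=
    tendsto_finsetSum _ fun M hM => (hqM_tendsto (by rw [mem_Icc] at hM; omega) z₀).const_mul _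
  refine h1.congr' ?_
  filter_upwards [lf_pos z₀, (lf_snd z₀).eventually (ge_mem_nhds (by norm_num : (0:ℝ) < 1 / 2))] with q hq hq1
  refine (hqW_lin (Icc 1 Q0) (fun M => W M) (fun M => dM M) W (fun n hn => ?_) (Q0 := Q0)
    (fun M hM => dM_supp (mem_Icc.mp hM).2) q.1 hq hq1).symm
  have e1 : ∀ M ∈ Icc 1 Q0, W M * dM M n = if n = M then W M else 0 := by
    intro M _
    rw [dM_apply M hn]
    split_ifs <;> simp
  rw [sum_congr rfl e1, sum_ite_eq]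
  split_ifs with h
  · rfl
  · rw [mem_Icc] at h
    exact hW n (by omega)

lemma aW_eq {W : ArithmeticFunction ℝ} {Q0 : ℕ} (hW : ∀ n : ℕ, Q0 < n → W n = 0) (hm : W.IsMultiplicative) (z : ℂ) :
    ∑ M ∈ Icc 1 Q0, (W M : ℂ) * aM M z = aW W z :=
  tendsto_nhds_unique (hqA_tendsto hW z) (hqW_tendsto hW hm z)

/-- **Mod-Gaussian convergence, any twist.** -/
theorem modGaussA {ε : ℤ} (hε : ε = 1 ∨ ε = -1) {v : ℕ → ℝ → ℝ} (hv : Hyp ε v) {W : ArithmeticFunction ℝ} {Q0 : ℕ}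
    (hQ0 : 1 ≤ Q0) (hW : ∀ n : ℕ, Q0 < n → W n = 0) {δ V : ℕ → ℝ} (h : AdmN δ V) (z₀ : ℂ) :
    Tendsto (fun q : ℂ × ℕ => ((2 * δ q.2 : ℝ) : ℂ) ^ (ww q.1) *
      MW (V q.2) q.2 (thW ε W Q0) (fun d => v d (1 / 2 + δ q.2)) q.1) (𝓝 z₀ ×ˢ atTop)
      (𝓝 (∑ M ∈ Icc 1 Q0, (W M : ℂ) * aM M z₀)) := by
  obtain ⟨r, hr⟩ := exists_nat_ge (‖z₀‖ + 1)
  have hr1 : (1:ℝ) ≤ r := by linarith [norm_nonneg z₀]
  obtain ⟨c, hc, H⟩ := cmomW hε hv hQ0 hW (r := (r:ℝ)) (by positivity)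
  obtain ⟨A, C, X0, hC, H2⟩ := H (r ^ 2 + 1)
  have hev := h.ev (C := C) (A := A) (X0 := X0) hc
  have h1 : Tendsto (fun q : ℂ × ℕ => hqW W q.1 (δ q.2)) (𝓝 z₀ ×ˢ atTop) (𝓝 (∑ M ∈ Icc 1 Q0, (W M : ℂ) * aM M z₀)) := by
    have t2 : Tendsto (fun q : ℂ × ℕ => q.2) (𝓝 z₀ ×ˢ (atTop : Filter ℕ)) atTop := tendsto_snd
    have t1 : Tendsto (fun q : ℂ × ℕ => q.1) (𝓝 z₀ ×ˢ (atTop : Filter ℕ)) (𝓝 z₀) := tendsto_fst
    have t3 : Tendsto (fun q : ℂ × ℕ => δ q.2) (𝓝 z₀ ×ˢ (atTop : Filter ℕ)) (𝓝 0) := h.1.comp t2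
    have t4 : ∀ᶠ q : ℂ × ℕ in 𝓝 z₀ ×ˢ (atTop : Filter ℕ), δ q.2 ∈ Set.Ioi (0:ℝ) := t2.eventually h.2.2.1
    have t5 : Tendsto (fun q : ℂ × ℕ => δ q.2) (𝓝 z₀ ×ˢ (atTop : Filter ℕ)) (𝓝[>] 0) :=
      tendsto_nhdsWithin_iff.mpr ⟨t3, t4⟩
    have h2 : Tendsto (fun q : ℂ × ℕ => (q.1, δ q.2)) (𝓝 z₀ ×ˢ (atTop : Filter ℕ)) (𝓝 z₀ ×ˢ 𝓝[>] (0:ℝ)) :=
      Tendsto.prodMk t1 t5
    have h6 : Tendsto (fun q : ℂ × ℝ => hqW W q.1 q.2) (𝓝 z₀ ×ˢ 𝓝[>] (0:ℝ)) (𝓝 (∑ M ∈ Icc 1 Q0, (W M : ℂ) * aM M z₀)) :=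
      hqA_tendsto hW z₀
    have h7 := Tendsto.comp h6 h2
    simpa only [Function.comp_def] using h7
  have h3 : Tendsto (fun q : ℂ × ℕ => ((2 * δ q.2 : ℝ) : ℂ) ^ (ww q.1) *
      MW (V q.2) q.2 (thW ε W Q0) (fun d => v d (1 / 2 + δ q.2)) q.1 - hqW W q.1 (δ q.2)) (𝓝 z₀ ×ˢ atTop) (𝓝 0) := by
    have hL : Tendsto (fun q : ℂ × ℕ => (Real.log (q.2:ℝ))⁻¹) (𝓝 z₀ ×ˢ atTop) (𝓝 0) :=
      (tendsto_inv_atTop_zero.comp log_nat_tendsto).comp tendsto_snd
    refine squeeze_zero_norm' ?_ hL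
    have hb : ∀ᶠ q : ℂ × ℕ in 𝓝 z₀ ×ˢ atTop, ‖q.1‖ ≤ r := by
      have h : ∀ᶠ z : ℂ in 𝓝 z₀, ‖z‖ < ‖z₀‖ + 1 := continuous_norm.continuousAt.eventually (gt_mem_nhds (by linarith))
      exact (tendsto_fst.eventually h).mono fun p hp => hp.le.trans hr
    filter_upwards [hb, tendsto_snd.eventually hev] with q hq' ⟨g1, g3, g4, g5, g6, g7, g8⟩
    obtain ⟨k1, k2, k3, k4⟩ := H2 q.2 g1 (δ q.2) g5 g6
    have k5 := k4 (V q.2) g7 g8 q.1 hq'
    have e1 : ((2 * δ q.2 : ℝ) : ℂ) ^ (ww q.1) * MW (V q.2) q.2 (thW ε W Q0) (fun d => v d (1 / 2 + δ q.2)) q.1 -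
        hqW W q.1 (δ q.2) =
        ((2 * δ q.2 : ℝ) : ℂ) ^ (ww q.1) * (MW (V q.2) q.2 (thW ε W Q0) (fun d => v d (1 / 2 + δ q.2)) q.1 -
          SWC W q.1 (δ q.2)) := by
      unfold hqW; ring
    rw [e1, norm_mul]
    have hL0 : 0 < Real.log (q.2:ℝ) := by linarith
    have hww : ‖ww q.1‖ ≤ ((r ^ 2 : ℕ) : ℝ) := by
      push_cast
      exact ww_norm hr1 hq'
    calc _ ≤ Real.log (q.2:ℝ) ^ (r ^ 2) * (Real.log (q.2:ℝ) ^ (r ^ 2 + 1))⁻¹ :=
          mul_le_mul (two_delta_ww k2 k3 g6 hww) k5 (norm_nonneg _) (by positivity)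
      _ = (Real.log (q.2:ℝ))⁻¹ := by
          have hne : Real.log (q.2:ℝ) ^ (r ^ 2) ≠ 0 := (pow_pos hL0 _).ne'
          rw [pow_succ (Real.log (q.2:ℝ)) (r ^ 2), mul_inv, ← mul_assoc, mul_inv_cancel₀ hne, one_mul]
  have h4 := h3.add h1
  rw [zero_add] at h4
  exact h4.congr fun q => by ring

end

end Pool.Agent.X110.LWL
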