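import Pool.Agent.Y753.SHR.R20

set_option autoImplicit false

/-! Products of shifted real powers of zeta near the critical line and their Dirichlet polynomials: the
sets of the library (`Pool.Agent.Y753.SHR`), with the approximation in mean square. -/

namespace Pool.Agent.X110.NA

open Finset Filter MeasureTheory MonoidAlgebra Topology
open Pool.Agent.Y755
open Pool.Agent.W184.NZ
open Pool.Agent.Y753.NL
open Pool.Agent.Y753.SH
open Pool.Agent.Y753.SHR
open Pool.Agent.H306R2 (dv dv_nonneg dv_one aF aF_pos)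

/-- the sets along a path, the moments and the approximation by Dirichlet polynomials -/
theorem main_A (hDG : S_DIAGR) (hST : S_STARR) {δ : ℝ → ℝ} (hδ : Tendsto δ atTop (𝓝 0))
    (hδL : Tendsto (fun T : ℝ => δ T * Real.log T) atTop atTop)
    {S R : Set ℝ} (hS : S.Countable) (hR : R.Countable) (hR0 : ∀ r ∈ R, 0 < r) :
    ∃ (E : ℝ → Set ℝ) (w : ℝ → ℝ → ℂ), (∀ T, MeasurableSet (E T) ∧ E T ⊆ Set.Icc 0 T ∧ Measurable (w T)) ∧
      Tendsto (fun T => (volume (E T)).toReal / T) atTop (𝓝 0) ∧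
      (∀ a ∈ S, ∀ᶠ T in atTop, ∀ t ∈ Set.Icc 0 T \ E T, Complex.exp (w T (t + a * δ T)) =
        riemannZeta (1 / 2 + δ T + ((t + a * δ T : ℝ) : ℂ) * Complex.I)) ∧
      (∀ a ∈ S, ∀ s ∈ R, Tendsto (fun T : ℝ => (2 * δ T) ^ (s ^ 2) / T *
        ∫ t in Set.Icc 0 T \ E T, za (δ T) a t ^ (2 * s)) atTop (𝓝 (aF s))) ∧
      ∀ (k : ℕ) (κ a : Fin k → ℝ) (s : ℝ), 1 ≤ k → ∑ j, κ j = s → (∀ j, κ j ∈ R) → (∀ j, a j ∈ S) →
        (∀ᶠ T in atTop, IntegrableOn (fun t => ‖zr (w T) (δ T) κ a t - pr (δ T) κ a (L0 T) t‖ ^ 2)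
          (Set.Icc 0 T \ E T)) ∧
        Tendsto (fun T : ℝ => (2 * δ T) ^ (s ^ 2) / T *
          ∫ t in Set.Icc 0 T \ E T, ‖zr (w T) (δ T) κ a t - pr (δ T) κ a (L0 T) t‖ ^ 2) atTop (𝓝 0) ∧
        Tendsto (fun T : ℝ => (2 * δ T) ^ (s ^ 2) / T *
          ∫ t in E T, ‖pr (δ T) κ a (L0 T) t‖ ^ 2) atTop (𝓝 0) := by
  obtain ⟨σ, hσ⟩ := (hS.insert 0).exists_eq_range (Set.insert_nonempty _ _)
  obtain ⟨ρ, hρ⟩ := (hR.insert 1).exists_eq_range (Set.insert_nonempty _ _)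
  have hmem : ∀ x ∈ S, ∃ i, x = σ i := by
    intro x hx
    have h1 : x ∈ Set.range σ := by rw [← hσ]; exact Set.mem_insert_of_mem _ hx
    obtain ⟨i, hi⟩ := h1
    exact ⟨i, hi.symm⟩
  have hmemR : ∀ x ∈ R, ∃ i, x = ρ i := by
    intro x hx
    have h1 : x ∈ Set.range ρ := by rw [← hρ]; exact Set.mem_insert_of_mem _ hx
    obtain ⟨i, hi⟩ := h1
    exact ⟨i, hi.symm⟩
  have hρ0 : ∀ i, 0 < ρ i := by
    intro i
    have h1 : ρ i ∈ insert 1 R := by rw [hρ]; exact Set.mem_range_self i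
    rcases Set.mem_insert_iff.mp h1 with h2 | h2
    · rw [h2]; exact one_pos
    · exact hR0 _ h2
  have hpos := pos_path hδL
  obtain ⟨V, N, hN, hVm, hV⟩ := path_R hST σ ρ hρ0 hδ hδL
  have hE : ∀ᶠ T in atTop, Set.Icc 0 T \ (Set.Icc 0 T \ (V T).1) = (V T).1 := by
    filter_upwards [hV] with T hT
    rw [Set.sdiff_sdiff_right_self, Set.inter_eq_right.mpr hT.1.1.2.1]
  have hw : ∀ a ∈ S, ∀ᶠ T in atTop, ∀ t ∈ Set.Icc 0 T \ (Set.Icc 0 T \ (V T).1), Complex.exp ((V T).2 (t + a * δ T)) =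
        riemannZeta (1 / 2 + δ T + ((t + a * δ T : ℝ) : ℂ) * Complex.I) := by
    intro a ha
    obtain ⟨i, hi⟩ := hmem a ha
    filter_upwards [hV, hE, hN.eventually_ge_atTop i] with T h1 h2 h3 t ht
    rw [h2] at ht
    rw [hi]
    exact h1.1.2.2 t ht i h3
  refine ⟨fun T => Set.Icc 0 T \ (V T).1, fun T => (V T).2,
    fun T => ⟨measurableSet_Icc.diff (hVm T).1, Set.sdiff_subset, (hVm T).2⟩, ?_, hw, ?_, ?_⟩
  · refine squeeze_zero' ?_ ?_ (Pool.Agent.Y753.NL.inv_N (N := N) hN)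
    · filter_upwards [eventually_gt_atTop 0] with T hT
      positivity
    · filter_upwards [eventually_gt_atTop 0, hV] with T hT hT'
      rw [div_le_iff₀ hT]
      have h1 := hT'.1.1.2.2
      have e1 : 1 / ((N T : ℝ) + 1) * T = T / (N T + 1) := by ring
      rw [e1]
      exact h1
  · intro a ha s hs
    obtain ⟨m1, m2⟩ := lim_R hDG hρ0 hδ hδL hN hV (k := 1) (l := 1) le_rfl le_rfl (fun _ => s) (fun _ => a)
      (fun _ => s) (fun _ => a) (s := s) (by simp) (by simp) (fun _ => hmemR _ hs) (fun _ => hmem _ ha)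
      (fun _ => hmemR _ hs) (fun _ => hmem _ ha)
    have m3 : Tendsto (fun T : ℝ => (((2 * δ T) ^ (s ^ 2) / T : ℝ) : ℂ) *
        ∫ t in Set.Icc 0 T \ (Set.Icc 0 T \ (V T).1), zr (V T).2 (δ T) (fun _ : Fin 1 => s) (fun _ => a) t *
        (starRingEnd ℂ) (zr (V T).2 (δ T) (fun _ : Fin 1 => s) (fun _ => a) t)) atTop
          (𝓝 ((aF s : ℂ) * ∏ j : Fin 1, ∏ i : Fin 1, (1 + Complex.I * (((fun _ : Fin 1 => a) j - (fun _ : Fin 1 => a) i : ℝ) : ℂ) / 2) ^
            (-((((fun _ : Fin 1 => s) j) * ((fun _ : Fin 1 => s) i) : ℝ) : ℂ)))) := by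
      refine m2.congr' ?_
      filter_upwards [hE, eventually_gt_atTop 0] with T h1 hT0
      rw [h1]
      have hTc : ((T:ℝ):ℂ) ≠ 0 := by exact_mod_cast hT0.ne'
      push_cast
      field_simp
    have h3 := m3.norm
    rw [norm_mul, lim_norm, Complex.norm_real, Real.norm_of_nonneg (aF_pos (hR0 s hs)).le] at h3
    simp only [univ_unique, Fin.default_eq_zero, Fin.isValue, prod_singleton, sub_self, zero_div] at h3
    have e1 : (1 + (0:ℝ) ^ 2) ^ (-(s * s / 2)) = 1 := by norm_num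
    rw [e1, mul_one] at h3
    refine h3.congr' ?_
    filter_upwards [hw a ha, hpos, eventually_gt_atTop 0] with T h4 h5 hT0
    have hmeas : MeasurableSet (Set.Icc 0 T \ (Set.Icc 0 T \ (V T).1)) :=
      measurableSet_Icc.diff (measurableSet_Icc.diff (hVm T).1)
    have e2 : ∫ t in Set.Icc 0 T \ (Set.Icc 0 T \ (V T).1), zr (V T).2 (δ T) (fun _ : Fin 1 => s) (fun _ => a) t *
        (starRingEnd ℂ) (zr (V T).2 (δ T) (fun _ : Fin 1 => s) (fun _ => a) t) =
        ((∫ t in Set.Icc 0 T \ (Set.Icc 0 T \ (V T).1), za (δ T) a t ^ (2 * s) : ℝ) : ℂ) := by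
      rw [← integral_complex_ofReal]
      refine setIntegral_congr_fun hmeas fun t ht => ?_
      have h6 := zr_sq (k := 1) (w := (V T).2) (δ := δ T) (κ := fun _ => s) (a := fun _ => a) (t := t) fun _ => h4 t ht
      rw [Fin.prod_univ_one] at h6
      exact h6
    rw [e2, norm_mul, Complex.norm_real, Complex.norm_real, Real.norm_of_nonneg (by positivity), Real.norm_of_nonneg]
    exact setIntegral_nonneg hmeas fun t _ => Real.rpow_nonneg (za_nonneg _ _ _) _
  · intro k κ a s hk hs hκ ha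
    have hs0 : 0 < s := by rw [← hs]; exact sum_pos (fun j _ => hR0 _ (hκ j)) ⟨⟨0, by omega⟩, mem_univ _⟩
    obtain ⟨I, hI⟩ : ∃ I : Fin k → ℕ, ∀ j, κ j = ρ (I j) := ⟨fun j => (hmemR _ (hκ j)).choose, fun j => (hmemR _ (hκ j)).choose_spec⟩
    obtain ⟨J, hJ⟩ : ∃ J : Fin k → ℕ, ∀ j, a j = σ (J j) := ⟨fun j => (hmem _ (ha j)).choose, fun j => (hmem _ (ha j)).choose_spec⟩
    have hall : ∀ᶠ T in atTop, IntegrableOn (fun t => ‖zr (V T).2 (δ T) κ a t - pr (δ T) κ a (L0 T) t‖ ^ 2) (V T).1 ∧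
        ∫ t in (V T).1, ‖zr (V T).2 (δ T) κ a t - pr (δ T) κ a (L0 T) t‖ ^ 2 ≤ 1 / ((N T : ℝ) + 1) * (T * DD s (δ T)) ∧
        ∫ t in Set.Icc 0 T \ (V T).1, ‖pr (δ T) κ a (L0 T) t‖ ^ 2 ≤ 1 / ((N T : ℝ) + 1) * (T * DD s (δ T)) := by
      filter_upwards [hV, hN.eventually_ge_atTop k, hN.eventually_ge_atTop (∑ j, I j), hN.eventually_ge_atTop (∑ j, J j)]
        with T t1 t2 t3 t4
      have h1 := t1.2 k hk (by omega) κ a
        (fun j => ⟨I j, (single_le_sum (f := I) (fun _ _ => Nat.zero_le _) (mem_univ j)).trans t3, hI j⟩)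
        (fun j => ⟨J j, (single_le_sum (f := J) (fun _ _ => Nat.zero_le _) (mem_univ j)).trans t4, hJ j⟩)
      rw [hs] at h1
      exact h1
    have hD : Tendsto (fun T => (2 * δ T) ^ (s ^ 2) * DD s (δ T)) atTop (𝓝 (aF s)) := DD_asym hs0 hpos hδ
    have hub : Tendsto (fun T => 1 / ((N T : ℝ) + 1) * ((2 * δ T) ^ (s ^ 2) * DD s (δ T))) atTop (𝓝 0) := by
      have := (Pool.Agent.Y753.NL.inv_N (N := N) hN).mul hD
      rwa [zero_mul] at this
    refine ⟨?_, ?_, ?_⟩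
    · filter_upwards [hall, hE] with T h1 h2
      rw [h2]
      exact h1.1
    · refine squeeze_zero' ?_ ?_ hub
      · filter_upwards [hpos, eventually_gt_atTop 0] with T h1 h2
        exact mul_nonneg (by positivity) (integral_nonneg fun t => by positivity)
      · filter_upwards [hall, hE, hpos, eventually_gt_atTop 0] with T h1 h2 h3 h4
        rw [h2]
        refine (mul_le_mul_of_nonneg_left h1.2.1 (by positivity)).trans (le_of_eq ?_)
        field_simp
    · refine squeeze_zero' ?_ ?_ hub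
      · filter_upwards [hpos, eventually_gt_atTop 0] with T h1 h2
        exact mul_nonneg (by positivity) (integral_nonneg fun t => by positivity)
      · filter_upwards [hall, hpos, eventually_gt_atTop 0] with T h1 h3 h4
        refine (mul_le_mul_of_nonneg_left h1.2.2 (by positivity)).trans (le_of_eq ?_)
        field_simp

end Pool.Agent.X110.NA
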