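import Pool.Agent.X110.NA1
import Pool.Agent.X110.NA2

set_option autoImplicit false

/-! Approximation by Dirichlet polynomials off small sets of large values. -/

namespace Pool.Agent.X110.NA

open Finset Filter MeasureTheory MonoidAlgebra Topology
open Pool.Agent.Y755
open Pool.Agent.W184.NZ
open Pool.Agent.Y753.NL
open Pool.Agent.Y753.SH
open Pool.Agent.Y753.SHR
open Pool.Agent.H306R2 (dv dv_nonneg dv_one aF aF_pos)

lemma sq_add_le (a b : ℂ) : ‖a + b‖ ^ 2 ≤ 2 * ‖a‖ ^ 2 + 2 * ‖b‖ ^ 2 := by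
  have h := norm_add_le a b
  nlinarith [norm_nonneg a, norm_nonneg b, norm_nonneg (a + b), sq_nonneg (‖a‖ - ‖b‖)]

lemma sq_sub_le (a b : ℂ) : ‖a - b‖ ^ 2 ≤ 2 * ‖a‖ ^ 2 + 2 * ‖b‖ ^ 2 := by
  have := sq_add_le a (-b)
  rwa [norm_neg, ← sub_eq_add_neg] at this

/-- the approximation, off a small set of large values -/
theorem approx_small (hDG : S_DIAGR) (hST : S_STARR) {δ : ℝ → ℝ} (hδ : Tendsto δ atTop (𝓝 0))
    (hδL : Tendsto (fun T : ℝ => δ T * Real.log T) atTop atTop) {c : ℝ} (hc : 0 ≤ c)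
    {S R : Set ℝ} (hS : S.Countable) (hR : R.Countable) (hR0 : ∀ r ∈ R, 0 < r) :
    ∃ (E : ℝ → Set ℝ) (w : ℝ → ℝ → ℂ), (∀ T, MeasurableSet (E T) ∧ E T ⊆ Set.Icc 0 T ∧ Measurable (w T) ∧
        ∀ t ∈ E T, ∃ a ∈ S, (δ T) ^ (-(2 + c)) < za (δ T) a t) ∧
      Tendsto (fun T => (volume (E T)).toReal / (T * (δ T) ^ (4 + 4 * c))) atTop (𝓝 0) ∧
      (∀ᶠ T in atTop, ∀ u : ℝ, riemannZeta (1 / 2 + δ T + (u : ℂ) * Complex.I) ≠ 0 →
        Complex.exp (w T u) = riemannZeta (1 / 2 + δ T + (u : ℂ) * Complex.I)) ∧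
      ∀ (k : ℕ) (κ a : Fin k → ℝ) (s : ℝ) (N : ℝ → ℕ), 1 ≤ k → ∑ j, κ j = s →
        (∀ j, κ j ∈ R) → (∀ j, a j ∈ S) → (∀ᶠ T in atTop, (N T : ℝ) ≤ T) →
        Tendsto (fun T => δ T * Real.log (N T)) atTop atTop →
        ((s ≤ 2 ∨ 4 + 4 * c ≤ 2 * s) → Tendsto (fun T : ℝ => (2 * δ T) ^ (s ^ 2) / T *
          ∫ t in Set.Icc 0 T \ E T, ‖zr (w T) (δ T) κ a t - pr (δ T) κ a (N T) t‖ ^ 2) atTop (𝓝 0)) ∧
        (s ≤ 2 → Tendsto (fun T : ℝ => (2 * δ T) ^ (s ^ 2) / T *
          ∫ t in Set.Icc 0 T, ‖zr (w T) (δ T) κ a t - pr (δ T) κ a (N T) t‖ ^ 2) atTop (𝓝 0)) ∧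
        Tendsto (fun T : ℝ => (2 * δ T) ^ (s ^ 2) / T * ∫ t in E T, ‖pr (δ T) κ a (L0 T) t‖ ^ 2) atTop (𝓝 0) := by
  classical
  rcases S.eq_empty_or_nonempty with hSe | hSn
  · have hlt : ∀ᶠ T in atTop, δ T < 1 / 2 := hδ.eventually (gt_mem_nhds (by norm_num))
    refine ⟨fun _ => ∅, fun T => if δ T < 1 / 2 then fun u => Complex.log (riemannZeta (1 / 2 + δ T + (u : ℂ) * Complex.I)) else 0,
      fun T => ⟨MeasurableSet.empty, Set.empty_subset _, ?_, fun t ht => ht.elim⟩, by simp, ?_, ?_⟩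
    · dsimp only
      split_ifs with h
      · have h1 : Continuous fun t : ℝ => riemannZeta (1 / 2 + δ T + t * Complex.I) := zl_cont h
        exact Complex.measurable_log.comp h1.measurable
      · exact measurable_zero
    · filter_upwards [hlt] with T hT u hu
      rw [if_pos hT]
      exact Complex.exp_log hu
    · intro k κ a s N hk _ _ ha
      have := ha ⟨0, by omega⟩
      rw [hSe] at this
      exact this.elim
  obtain ⟨f, hf⟩ := hS.exists_eq_range hSn
  obtain ⟨Q, hQ⟩ : ∃ Q : Set ℝ, Q = {s : ℝ | 0 < s ∧ ∃ (n : ℕ) (κ : Fin n → ℝ), (∀ j, κ j ∈ R) ∧ s = ∑ j, κ j} := ⟨_, rfl⟩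
  have hQc : Q.Countable := by rw [hQ]; exact sums_countable hR
  have hRQ : ∀ r ∈ R, r ∈ insert 2 Q := fun r hr => by
    refine Set.mem_insert_of_mem _ ?_
    rw [hQ]
    exact ⟨hR0 r hr, 1, fun _ => r, fun _ => hr, by simp⟩
  have hQ0 : ∀ r ∈ insert 2 Q, 0 < r := by
    intro r hr
    rcases Set.mem_insert_iff.mp hr with h | h
    · rw [h]; norm_num
    · rw [hQ] at h; exact h.1
  obtain ⟨E, w, hE, hvol, hw, hone, hm⟩ := main_A hDG hST hδ hδL hS (hQc.insert 2) hQ0
  have hpos := pos_path hδL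
  have hlt : ∀ᶠ T in atTop, δ T < 1 / 2 := hδ.eventually (gt_mem_nhds (by norm_num))
  -- the new determination
  obtain ⟨z, hz⟩ : ∃ z : ℝ → ℝ → ℂ, ∀ T u, z T u = riemannZeta (1 / 2 + δ T + (u : ℂ) * Complex.I) := ⟨_, fun _ _ => rfl⟩
  have hzm : ∀ T, δ T < 1 / 2 → Measurable (z T) := by
    intro T hT
    have h1 : Continuous fun t : ℝ => riemannZeta (1 / 2 + δ T + t * Complex.I) := zl_cont hT
    have e : z T = fun t : ℝ => riemannZeta (1 / 2 + δ T + t * Complex.I) := funext (hz T)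
    rw [e]; exact h1.measurable
  obtain ⟨w', hw'⟩ : ∃ w' : ℝ → ℝ → ℂ, ∀ T u, w' T u = if δ T < 1 / 2 ∧ Complex.exp (w T u) ≠ z T u then Complex.log (z T u) else w T u :=
    ⟨_, fun _ _ => rfl⟩
  have hwm : ∀ T, Measurable (w' T) := by
    intro T
    by_cases hT : δ T < 1 / 2
    · have e : w' T = fun u => if Complex.exp (w T u) ≠ z T u then Complex.log (z T u) else w T u := by
        funext u
        rw [hw']
        by_cases h : Complex.exp (w T u) ≠ z T u
        · rw [if_pos ⟨hT, h⟩, if_pos h]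
        · rw [if_neg (fun h1 => h h1.2), if_neg h]
      rw [e]
      refine Measurable.ite ?_ (Complex.measurable_log.comp (hzm T hT)) (hE T).2.2
      exact (measurableSet_eq_fun (Complex.measurable_exp.comp (hE T).2.2) (hzm T hT)).compl
    · have e : w' T = w T := by
        funext u
        rw [hw', if_neg (fun h1 => hT h1.1)]
      rw [e]; exact (hE T).2.2
  have hexp : ∀ᶠ T in atTop, ∀ u : ℝ, z T u ≠ 0 → Complex.exp (w' T u) = z T u := by
    filter_upwards [hlt] with T hT u hu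
    rw [hw']
    split_ifs with h
    · exact Complex.exp_log hu
    · rw [not_and_or, not_ne_iff] at h
      rcases h with h | h
      · exact absurd hT h
      · exact h
  have hsame : ∀ T u, Complex.exp (w T u) = z T u → w' T u = w T u := by
    intro T u h
    rw [hw', if_neg]
    exact fun h1 => h1.2 h
  have hE1 : ∀ T, MeasurableSet (E T) ∧ E T ⊆ Set.Icc 0 T := fun T => ⟨(hE T).1, (hE T).2.1⟩
  have hfS : ∀ j, f j ∈ S := fun j => by rw [hf]; exact Set.mem_range_self j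
  have h4 : ∀ x ∈ S, Tendsto (fun T : ℝ => (2 * δ T) ^ ((2:ℝ) ^ 2) / T * ∫ t in E T, za (δ T) x t ^ (2 * (2:ℝ))) atTop (𝓝 0) :=
    fun x hx => small_E (by norm_num) le_rfl hδ hδL hE1 x (hone _ hx 2 (Set.mem_insert _ _))
  obtain ⟨E', hE', hvol', hV⟩ := shrink (κ := c) hδ hδL hE1 (a := f) fun j => h4 _ (hfS j)
  refine ⟨E', w', fun T => ⟨(hE' T).1, (hE' T).2.1.trans (hE T).2.1, hwm T, fun t ht => ?_⟩, hvol', ?_, ?_⟩
  · obtain ⟨j, hj⟩ := (hE' T).2.2 t ht
    exact ⟨f j, hfS j, hj⟩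
  · filter_upwards [hexp] with T hT u hu
    rw [← hz] at hu ⊢
    exact hT u hu
  intro k κ a s N hk hκs hκ ha hN hN'
  have hκ0 : ∀ j, 0 < κ j := fun j => hR0 _ (hκ j)
  have hs0 : 0 < s := by rw [← hκs]; exact sum_pos (fun j _ => hκ0 j) ⟨⟨0, by omega⟩, mem_univ _⟩
  have hsQ : s ∈ insert 2 Q := by
    refine Set.mem_insert_of_mem _ ?_
    rw [hQ]
    exact ⟨hs0, k, κ, hκ, hκs.symm⟩
  obtain ⟨m1, m2, m3⟩ := hm k κ a s hk hκs (fun j => hRQ _ (hκ j)) ha
  obtain ⟨F, hF⟩ : ∃ F : ℝ → ℝ → ℝ, ∀ T t, F T t = ‖zr (w' T) (δ T) κ a t - pr (δ T) κ a (L0 T) t‖ ^ 2 := ⟨_, fun _ _ => rfl⟩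
  obtain ⟨p, hp⟩ : ∃ p : ℝ → ℝ → ℝ, ∀ T t, p T t = ‖pr (δ T) κ a (L0 T) t‖ ^ 2 := ⟨_, fun _ _ => rfl⟩
  obtain ⟨H, hH⟩ : ∃ H : ℝ → ℝ → ℝ, ∀ T t, H T t = ∑ j, κ j / s * za (δ T) (a j) t ^ (2 * s) := ⟨_, fun _ _ => rfl⟩
  obtain ⟨G, hG⟩ : ∃ G : ℝ → ℝ → ℝ, ∀ T t, G T t = 2 * H T t + 2 * p T t := ⟨_, fun _ _ => rfl⟩
  -- the limit off the first set
  have hgood : ∀ᶠ T in atTop, ∀ t ∈ Set.Icc 0 T \ E T, ∀ j,
      w' T (t + a j * δ T) = w T (t + a j * δ T) := by
    have h1 : ∀ᶠ T in atTop, ∀ j, ∀ t ∈ Set.Icc 0 T \ E T, Complex.exp (w T (t + a j * δ T)) =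
        riemannZeta (1 / 2 + δ T + ((t + a j * δ T : ℝ) : ℂ) * Complex.I) := eventually_all.mpr fun j => hw _ (ha j)
    filter_upwards [h1] with T hT t ht j
    refine hsame T _ ?_
    rw [hz]
    exact hT j t ht
  have hoff : Tendsto (fun T : ℝ => ((2 * δ T) ^ (s ^ 2) / T) • ∫ t in Set.Icc 0 T \ E T, F T t) atTop (𝓝 0) := by
    refine m2.congr' ?_
    filter_upwards [hgood] with T h1
    rw [smul_eq_mul]
    congr 1
    refine setIntegral_congr_fun (measurableSet_Icc.diff (hE T).1) fun t ht => ?_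
    simp only [hF]
    unfold zr
    have h3 := h1 t ht
    simp_rw [h3]
  -- the norm
  have hnorm : ∀ᶠ T in atTop, ∀ᵐ t : ℝ, ‖F T t‖ ≤ G T t := by
    filter_upwards [hexp] with T hT
    have ha' : ∀ᵐ t : ℝ, ∀ j, z T (t + a j * δ T) ≠ 0 := ae_all_iff.mpr fun j => by
      filter_upwards [zeros_ae (δ T) (a j * δ T)] with t ht
      rw [hz]; exact ht
    filter_upwards [ha'] with t h1
    have n1 : ‖zr (w' T) (δ T) κ a t‖ ^ 2 = ∏ j, za (δ T) (a j) t ^ (2 * κ j) := zr_norm fun j => by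
      rw [hT _ (h1 j), hz]
    have n3 := prod_le (a := a) hκ0 hs0 hκs.symm (δ T) t
    rw [← n1] at n3
    rw [hF, hG, hH, hp, Real.norm_of_nonneg (by positivity)]
    refine (sq_sub_le _ _).trans ?_
    linarith
  have hHi : ∀ᶠ T in atTop, IntegrableOn (H T) (Set.Icc 0 T) := by
    filter_upwards [hlt] with T hT
    have e : H T = fun t => ∑ j, κ j / s * za (δ T) (a j) t ^ (2 * s) := funext (hH T)
    rw [e]
    exact integrable_finsetSum _ fun j _ => (ic hT (a j) (by positivity)).const_mul _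
  have hpc : ∀ T, Continuous (p T) := by
    intro T
    have e : p T = fun t => ‖pr (δ T) κ a (L0 T) t‖ ^ 2 := funext (hp T)
    rw [e]
    exact (pr_cont (δ T) (fun j => (hκ0 j).le) a (L0 T)).norm.pow 2
  have hpi : ∀ T, IntegrableOn (p T) (Set.Icc 0 T) := fun T => (hpc T).continuousOn.integrableOn_compact isCompact_Icc
  have hGi : ∀ᶠ T in atTop, IntegrableOn (G T) (Set.Icc 0 T) := by
    filter_upwards [hHi] with T hT
    have e : G T = fun t => 2 * H T t + 2 * p T t := funext (hG T)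
    rw [e]
    exact (hT.const_mul _).add ((hpi T).const_mul _)
  have hFm : ∀ T, Measurable (F T) := by
    intro T
    have e : F T = fun t => ‖zr (w' T) (δ T) κ a t - pr (δ T) κ a (L0 T) t‖ ^ 2 := funext (hF T)
    rw [e]
    have hzr : Measurable (zr (w' T) (δ T) κ a) := by
      unfold zr
      exact Finset.measurable_prod _ fun j _ => Complex.measurable_exp.comp
        (((hwm T).comp (measurable_id.add_const _)).const_mul _)
    exact ((hzr.sub (pr_cont (δ T) (fun j => (hκ0 j).le) a (L0 T)).measurable).norm).pow_const 2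
  have hFi : ∀ᶠ T in atTop, IntegrableOn (F T) (Set.Icc 0 T) := by
    filter_upwards [hGi, hnorm] with T h1 h2
    exact Integrable.mono' h1 (hFm T).aestronglyMeasurable (ae_restrict_of_ae h2)
  have hc0 : ∀ᶠ T in atTop, 0 ≤ (2 * δ T) ^ (s ^ 2) / T := by
    filter_upwards [hpos, eventually_gt_atTop 0] with T t1 t2
    positivity
  -- the sum
  have hsum : ∀ {D : ℝ → Set ℝ}, (∀ T, D T ⊆ E T) →
      (∀ x ∈ S, Tendsto (fun T : ℝ => (2 * δ T) ^ (s ^ 2) / T * ∫ t in D T, za (δ T) x t ^ (2 * s)) atTop (𝓝 0)) →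
      Tendsto (fun T : ℝ => (2 * δ T) ^ (s ^ 2) / T * ∫ t in D T, G T t) atTop (𝓝 0) := by
    intro D hD hx
    have hD' : ∀ T, D T ⊆ Set.Icc 0 T := fun T => (hD T).trans (hE1 T).2
    have h1 := tendsto_finsetSum (univ : Finset (Fin k)) fun j _ => (hx _ (ha j)).const_mul (κ j / s)
    simp only [mul_zero, sum_const_zero] at h1
    have hpD : Tendsto (fun T : ℝ => (2 * δ T) ^ (s ^ 2) / T * ∫ t in D T, p T t) atTop (𝓝 0) := by
      refine squeeze_zero' ?_ ?_ m3
      · filter_upwards [hc0] with T hT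
        refine mul_nonneg hT (integral_nonneg fun t => ?_)
        rw [hp]; positivity
      · filter_upwards [hc0] with T hT
        refine mul_le_mul_of_nonneg_left ?_ hT
        have e : (fun t => ‖pr (δ T) κ a (L0 T) t‖ ^ 2) = p T := (funext (hp T)).symm
        rw [e]
        exact setIntegral_mono_set ((hpi T).mono_set (hE1 T).2) (Eventually.of_forall fun t => by
          rw [hp]; exact sq_nonneg _) (Eventually.of_forall (hD T))
    have h3 := (h1.const_mul 2).add (hpD.const_mul 2)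
    simp only [mul_zero, add_zero] at h3
    refine h3.congr' ?_
    filter_upwards [hlt] with T hT
    have e : G T = fun t => 2 * H T t + 2 * p T t := funext (hG T)
    have e' : H T = fun t => ∑ j, κ j / s * za (δ T) (a j) t ^ (2 * s) := funext (hH T)
    have i1 : ∀ j, IntegrableOn (fun t => κ j / s * za (δ T) (a j) t ^ (2 * s)) (D T) := fun j =>
      ((ic hT (a j) (by positivity)).mono_set (hD' T)).const_mul _
    have i2 : IntegrableOn (p T) (D T) := (hpi T).mono_set (hD' T)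
    have i3 : IntegrableOn (H T) (D T) := by rw [e']; exact integrable_finsetSum _ fun j _ => i1 j
    rw [e, integral_add (i3.const_mul _) (i2.const_mul _), integral_const_mul, integral_const_mul, e',
      integral_finsetSum _ fun j _ => i1 j]
    simp_rw [integral_const_mul]
    have e5 : ∀ (A : ℝ) (n : ℕ) (u v : Fin n → ℝ), ∑ j, u j * (A * v j) = A * ∑ j, u j * v j := by
      intro A n u v
      rw [mul_sum]
      exact sum_congr rfl fun j _ => by ring
    rw [e5]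
    ring
  have hE'' : ∀ T, MeasurableSet (E' T) ∧ E' T ⊆ E T := fun T => ⟨(hE' T).1, (hE' T).2.1⟩
  have hlen := len_R hδ hpos (fun j => (hκ0 j).le) hs0 hκs a L0_le hN (L0_log hpos hδL) hN'
  -- change of length
  have hfin : ∀ {D : ℝ → Set ℝ}, (∀ T, MeasurableSet (D T) ∧ D T ⊆ Set.Icc 0 T) →
      Tendsto (fun T : ℝ => ((2 * δ T) ^ (s ^ 2) / T) • ∫ t in D T, F T t) atTop (𝓝 0) →
      Tendsto (fun T : ℝ => (2 * δ T) ^ (s ^ 2) / T *
          ∫ t in D T, ‖zr (w' T) (δ T) κ a t - pr (δ T) κ a (N T) t‖ ^ 2) atTop (𝓝 0) := by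
    intro D hD h
    have h3 := (h.const_mul 2).add (hlen.const_mul 2)
    simp only [mul_zero, add_zero, smul_eq_mul] at h3
    refine squeeze_zero' ?_ ?_ h3
    · filter_upwards [hc0] with T hT
      exact mul_nonneg hT (integral_nonneg fun t => by positivity)
    · filter_upwards [hc0, hFi] with T hT hi
      have hq : Continuous fun t => ‖pr (δ T) κ a (L0 T) t - pr (δ T) κ a (N T) t‖ ^ 2 :=
        ((pr_cont (δ T) (fun j => (hκ0 j).le) a (L0 T)).sub (pr_cont (δ T) (fun j => (hκ0 j).le) a (N T))).norm.pow 2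
      have hqi : IntegrableOn (fun t => ‖pr (δ T) κ a (L0 T) t - pr (δ T) κ a (N T) t‖ ^ 2) (Set.Icc 0 T) :=
        hq.continuousOn.integrableOn_compact isCompact_Icc
      have b1 : ∫ t in D T, ‖zr (w' T) (δ T) κ a t - pr (δ T) κ a (N T) t‖ ^ 2 ≤
          ∫ t in D T, (2 * F T t + 2 * ‖pr (δ T) κ a (L0 T) t - pr (δ T) κ a (N T) t‖ ^ 2) := by
        refine integral_mono_of_nonneg (Eventually.of_forall fun t => by positivity)
          (((hi.mono_set (hD T).2).const_mul _).add ((hqi.mono_set (hD T).2).const_mul _)) (Eventually.of_forall fun t => ?_)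
        simp only
        rw [hF]
        have e : zr (w' T) (δ T) κ a t - pr (δ T) κ a (N T) t = (zr (w' T) (δ T) κ a t - pr (δ T) κ a (L0 T) t) +
            (pr (δ T) κ a (L0 T) t - pr (δ T) κ a (N T) t) := by ring
        rw [e]
        exact sq_add_le _ _
      rw [integral_add ((hi.mono_set (hD T).2).const_mul _) ((hqi.mono_set (hD T).2).const_mul _),
        integral_const_mul, integral_const_mul] at b1
      have b2 : ∫ t in D T, ‖pr (δ T) κ a (L0 T) t - pr (δ T) κ a (N T) t‖ ^ 2 ≤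
          ∫ t in Set.Icc 0 T, ‖pr (δ T) κ a (L0 T) t - pr (δ T) κ a (N T) t‖ ^ 2 :=
        setIntegral_mono_set hqi (Eventually.of_forall fun t => by positivity) (Eventually.of_forall (hD T).2)
      refine (mul_le_mul_of_nonneg_left (b1.trans (add_le_add_right (mul_le_mul_of_nonneg_left b2 (by norm_num)) _)) hT).trans (le_of_eq ?_)
      ring
  refine ⟨fun hcase => ?_, fun hs2 => ?_, ?_⟩
  · have h5 := transfer_ae (V := ℝ) (f := F) (g := G) hc0 hE1 hE'' hFi hGi hnorm hoff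
      (hsum (fun T => Set.sdiff_subset) fun x hx => by
        obtain ⟨i, hi⟩ : ∃ i, f i = x := by
          rw [hf] at hx
          exact hx
        refine diff_E hc hs0 hcase hδ hδL hE1 hE'' x ?_ (h4 x hx) (hone _ hx s hsQ)
        rw [← hi]
        exact hV i)
    exact hfin (fun T => ⟨measurableSet_Icc.diff (hE' T).1, Set.sdiff_subset⟩) h5
  · have h5 := transfer_ae (V := ℝ) (f := F) (g := G) (E' := fun _ => ∅) hc0 hE1 (fun T => ⟨MeasurableSet.empty, Set.empty_subset _⟩)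
      hFi hGi hnorm hoff
      (hsum (fun T => Set.sdiff_subset) fun x hx => by
        simp only [Set.sdiff_empty]
        exact small_E hs0 hs2 hδ hδL hE1 x (hone _ hx s hsQ))
    have h6 := hfin (D := fun T => Set.Icc 0 T \ ∅) (fun T => ⟨measurableSet_Icc.diff MeasurableSet.empty, Set.sdiff_subset⟩) h5
    simpa using h6
  · refine squeeze_zero' ?_ ?_ m3
    · filter_upwards [hc0] with T hT
      exact mul_nonneg hT (integral_nonneg fun t => by positivity)
    · filter_upwards [hc0] with T hT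
      refine mul_le_mul_of_nonneg_left ?_ hT
      have e : (fun t => ‖pr (δ T) κ a (L0 T) t‖ ^ 2) = p T := (funext (hp T)).symm
      rw [e]
      exact setIntegral_mono_set ((hpi T).mono_set (hE1 T).2) (Eventually.of_forall fun t => by
        rw [hp]; exact sq_nonneg _) (Eventually.of_forall (hE'' T).2)

end Pool.Agent.X110.NA
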