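import Pool.Agent.X110.NA2
import Pool.Agent.H306R2.Karamata

set_option autoImplicit false

/-! The distribution of the mass of the squares of the divisor functions: an incomplete gamma function. -/

namespace Pool.Agent.X110.NA

open Finset Filter MeasureTheory Topology
open Pool.Agent.Y755
open Pool.Agent.H306R2 (dv dv_nonneg dv_one aF aF_pos gd gd_nonneg gd_exp_integral gd_exp_integrable)

/-- the gamma density -/
noncomputable def rho (α u : ℝ) : ℝ := gd (α ^ 2) u * Real.exp (-(1 * u))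

lemma rho_nonneg {α : ℝ} (hα : 0 < α) (u : ℝ) : 0 ≤ rho α u :=
  mul_nonneg (gd_nonneg (by positivity) u) (Real.exp_pos _).le

lemma rho_int {α : ℝ} (hα : 0 < α) : Integrable (rho α) := gd_exp_integrable (by positivity) one_pos

lemma rho_total {α : ℝ} (hα : 0 < α) : ∫ u, rho α u = 1 := by
  unfold rho
  rw [gd_exp_integral (by positivity) one_pos, Real.one_rpow]

lemma rho_neg (α : ℝ) {u : ℝ} (hu : u ≤ 0) : rho α u = 0 := by
  unfold rho gd
  rw [if_neg (not_lt.mpr hu), zero_mul]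

lemma rho_exp_int {α : ℝ} (hα : 0 < α) (k : ℕ) : Integrable (fun u => rho α u * Real.exp (-u) ^ k) := by
  have := gd_exp_integrable (m := α ^ 2) (s := (k:ℝ) + 1) (by positivity) (by positivity)
  refine this.congr (Eventually.of_forall fun u => ?_)
  unfold rho
  simp only
  rw [← Real.exp_nat_mul, mul_assoc, ← Real.exp_add]
  congr 2; ring

lemma rho_exp {α : ℝ} (hα : 0 < α) (k : ℕ) : ∫ u, rho α u * Real.exp (-u) ^ k = ((k:ℝ) + 1) ^ (-(α ^ 2)) := by
  rw [← gd_exp_integral (m := α ^ 2) (s := (k:ℝ) + 1) (by positivity) (by positivity)]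
  refine integral_congr_ae (Eventually.of_forall fun u => ?_)
  unfold rho
  simp only
  rw [← Real.exp_nat_mul, mul_assoc, ← Real.exp_add]
  congr 2; ring

lemma g2_pow_mul (α δ : ℝ) (k n : ℕ) : g2 α δ n * ((n:ℝ) ^ (-(2 * δ))) ^ k = g2 α (((k:ℝ) + 1) * δ) n := by
  rcases Nat.eq_zero_or_pos n with h0 | h0
  · subst h0
    unfold g2 dv
    simp
  · have hn : (0:ℝ) < n := by exact_mod_cast h0
    unfold g2 wδ
    rw [← Real.rpow_natCast ((n:ℝ) ^ (-(2 * δ))), ← Real.rpow_mul hn.le]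
    have e : dv α n ^ 2 * ((n:ℝ) ^ (-(2 * δ)) * (1 / n)) * (n:ℝ) ^ (-(2 * δ) * k) =
        dv α n ^ 2 * (((n:ℝ) ^ (-(2 * δ)) * (n:ℝ) ^ (-(2 * δ) * k)) * (1 / n)) := by ring
    rw [e, ← Real.rpow_add hn]
    congr 3
    ring

lemma x_mem {δ : ℝ} (hδ : 0 < δ) (n : ℕ) : (n:ℝ) ^ (-(2 * δ)) ∈ Set.Icc (0:ℝ) 1 := by
  rcases Nat.eq_zero_or_pos n with h0 | h0
  · subst h0
    rw [Nat.cast_zero, Real.zero_rpow (by linarith)]
    exact ⟨le_rfl, zero_le_one⟩
  · have hn : (1:ℝ) ≤ n := by exact_mod_cast h0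
    exact ⟨by positivity, Real.rpow_le_one_of_one_le_of_nonpos hn (by linarith)⟩

/-- polynomials -/
lemma kar_poly {α : ℝ} (hα : 0 < α) {δ : ℝ → ℝ} (h0 : ∀ᶠ T in atTop, 0 < δ T) (hδ : Tendsto δ atTop (𝓝 0)) (p : Polynomial ℝ) :
    Tendsto (fun T => (2 * δ T) ^ (α ^ 2) * ∑' n, g2 α (δ T) n * p.eval ((n:ℝ) ^ (-(2 * δ T)))) atTop
      (𝓝 (aF α * ∫ u, rho α u * p.eval (Real.exp (-u)))) := by
  have h1 : ∀ k : ℕ, Tendsto (fun T => (2 * δ T) ^ (α ^ 2) * ∑' n, g2 α (δ T) n * ((n:ℝ) ^ (-(2 * δ T))) ^ k) atTop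
      (𝓝 (aF α * ((k:ℝ) + 1) ^ (-(α ^ 2)))) := by
    intro k
    have hk : (0:ℝ) < (k:ℝ) + 1 := by positivity
    have h2 := DD_asym hα (δ := fun T => ((k:ℝ) + 1) * δ T) (h0.mono fun T hT => by positivity)
      (by simpa using hδ.const_mul ((k:ℝ) + 1))
    have h3 := h2.const_mul ((((k:ℝ) + 1) ^ (-(α ^ 2))))
    rw [mul_comm (((k:ℝ) + 1) ^ (-(α ^ 2))) (aF α)] at h3
    refine h3.congr' ?_
    filter_upwards [h0] with T hT
    simp_rw [g2_pow_mul]
    unfold DD
    have e1 : (2 * (((k:ℝ) + 1) * δ T)) ^ (α ^ 2) = ((k:ℝ) + 1) ^ (α ^ 2) * (2 * δ T) ^ (α ^ 2) := by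
      rw [← Real.mul_rpow hk.le (by positivity)]; congr 1; ring
    have e2 : ((k:ℝ) + 1) ^ (-(α ^ 2)) * ((k:ℝ) + 1) ^ (α ^ 2) = 1 := by
      rw [← Real.rpow_add hk]; simp
    rw [e1, ← mul_assoc, ← mul_assoc, e2, one_mul]
  have h4 := tendsto_finsetSum (Finset.range (p.natDegree + 1)) fun k _ => (h1 k).const_mul (p.coeff k)
  have e3 : ∫ u, rho α u * p.eval (Real.exp (-u)) = ∑ k ∈ Finset.range (p.natDegree + 1), p.coeff k * ((k:ℝ) + 1) ^ (-(α ^ 2)) := by
    simp_rw [Polynomial.eval_eq_sum_range, mul_sum]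
    rw [integral_finsetSum]
    · refine sum_congr rfl fun k _ => ?_
      rw [← rho_exp hα k, ← integral_const_mul]
      refine integral_congr_ae (Eventually.of_forall fun u => ?_)
      simp only
      ring
    · intro k _
      refine ((rho_exp_int hα k).const_mul (p.coeff k)).congr (Eventually.of_forall fun u => ?_)
      simp only
      ring
  rw [e3, mul_sum]
  have e4 : ∑ k ∈ Finset.range (p.natDegree + 1), aF α * (p.coeff k * ((k:ℝ) + 1) ^ (-(α ^ 2))) =
      ∑ k ∈ Finset.range (p.natDegree + 1), p.coeff k * (aF α * ((k:ℝ) + 1) ^ (-(α ^ 2))) :=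
    sum_congr rfl fun k _ => by ring
  rw [e4]
  refine h4.congr' ?_
  filter_upwards [h0] with T hT
  have hs : ∀ k : ℕ, Summable fun n => g2 α (δ T) n * ((n:ℝ) ^ (-(2 * δ T))) ^ k := fun k => by
    simp_rw [g2_pow_mul]
    exact g2_summable hα (by positivity)
  have e5 : ∑' n, g2 α (δ T) n * p.eval ((n:ℝ) ^ (-(2 * δ T))) =
      ∑ k ∈ Finset.range (p.natDegree + 1), p.coeff k * ∑' n, g2 α (δ T) n * ((n:ℝ) ^ (-(2 * δ T))) ^ k := by
    simp_rw [Polynomial.eval_eq_sum_range, mul_sum]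
    rw [Summable.tsum_finsetSum]
    · refine sum_congr rfl fun k _ => ?_
      rw [← tsum_mul_left]
      refine tsum_congr fun n => ?_
      ring
    · intro k _
      refine ((hs k).mul_left (p.coeff k)).congr fun n => ?_
      ring
  rw [e5, mul_sum]
  exact sum_congr rfl fun k _ => by ring

/-- continuous functions -/
lemma kar_cont {α : ℝ} (hα : 0 < α) {δ : ℝ → ℝ} (h0 : ∀ᶠ T in atTop, 0 < δ T) (hδ : Tendsto δ atTop (𝓝 0)) {f : ℝ → ℝ}
    (hf : Continuous f) (hf1 : ∀ x, |f x| ≤ 1) :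
    Tendsto (fun T => (2 * δ T) ^ (α ^ 2) * ∑' n, g2 α (δ T) n * f ((n:ℝ) ^ (-(2 * δ T)))) atTop
      (𝓝 (aF α * ∫ u, rho α u * f (Real.exp (-u)))) := by
  have hA := aF_pos hα
  have hD := DD_asym hα h0 hδ
  rw [Metric.tendsto_atTop]
  intro ε hε
  obtain ⟨e, he⟩ : ∃ e : ℝ, e = ε / (2 * aF α + 2) := ⟨_, rfl⟩
  have he0 : 0 < e := by rw [he]; positivity
  obtain ⟨p, hp⟩ := exists_polynomial_near_of_continuousOn 0 1 f hf.continuousOn e he0
  have h1 := kar_poly hα h0 hδ p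
  rw [Metric.tendsto_atTop] at h1
  obtain ⟨T1, hT1⟩ := h1 e he0
  have h2 : ∀ᶠ T in atTop, (2 * δ T) ^ (α ^ 2) * DD α (δ T) < aF α + 1 := hD.eventually (gt_mem_nhds (lt_add_one _))
  obtain ⟨T2, hT2⟩ := (h2.and h0).exists_forall_of_atTop
  refine ⟨max T1 T2, fun T hT => ?_⟩
  have a1 := hT1 T ((le_max_left _ _).trans hT)
  obtain ⟨a2, a3⟩ := hT2 T ((le_max_right _ _).trans hT)
  rw [Real.dist_eq] at a1 ⊢
  have hpos : 0 ≤ (2 * δ T) ^ (α ^ 2) := by positivity
  have hg := g2_summable hα a3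
  have hgn := fun n => g2_nonneg α (δ T) n
  -- sums
  have s1 : Summable fun n => g2 α (δ T) n * f ((n:ℝ) ^ (-(2 * δ T))) :=
    Summable.of_norm_bounded hg fun n => by
      rw [norm_mul, Real.norm_of_nonneg (hgn n), Real.norm_eq_abs]
      exact mul_le_of_le_one_right (hgn n) (hf1 _)
  have s2 : Summable fun n => g2 α (δ T) n * (p.eval ((n:ℝ) ^ (-(2 * δ T))) - f ((n:ℝ) ^ (-(2 * δ T)))) :=
    Summable.of_norm_bounded (hg.mul_right e) fun n => by
      rw [norm_mul, Real.norm_of_nonneg (hgn n), Real.norm_eq_abs]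
      exact mul_le_mul_of_nonneg_left (hp _ (x_mem a3 n)).le (hgn n)
  have s3 : |∑' n, g2 α (δ T) n * (p.eval ((n:ℝ) ^ (-(2 * δ T))) - f ((n:ℝ) ^ (-(2 * δ T))))| ≤ DD α (δ T) * e := by
    unfold DD
    rw [← tsum_mul_right, ← Real.norm_eq_abs]
    refine tsum_of_norm_bounded (hg.mul_right e).hasSum fun n => ?_
    rw [norm_mul, Real.norm_of_nonneg (hgn n), Real.norm_eq_abs]
    exact mul_le_mul_of_nonneg_left (hp _ (x_mem a3 n)).le (hgn n)
  have s4 : ∑' n, g2 α (δ T) n * p.eval ((n:ℝ) ^ (-(2 * δ T))) =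
      (∑' n, g2 α (δ T) n * f ((n:ℝ) ^ (-(2 * δ T)))) +
      ∑' n, g2 α (δ T) n * (p.eval ((n:ℝ) ^ (-(2 * δ T))) - f ((n:ℝ) ^ (-(2 * δ T)))) := by
    rw [← s1.tsum_add s2]
    exact tsum_congr fun n => by ring
  -- integrals
  have hcf : Continuous fun u : ℝ => f (Real.exp (-u)) := by fun_prop
  have i1 : Integrable fun u => rho α u * f (Real.exp (-u)) :=
    (rho_int hα).mul_bdd (c := 1) hcf.aestronglyMeasurable (Eventually.of_forall fun u => hf1 _)
  have hb : ∀ u, ‖rho α u * (p.eval (Real.exp (-u)) - f (Real.exp (-u)))‖ ≤ rho α u * e := by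
    intro u
    rw [norm_mul, Real.norm_of_nonneg (rho_nonneg hα u), Real.norm_eq_abs]
    rcases le_or_gt u 0 with h | h
    · rw [rho_neg α h]; simp
    · exact mul_le_mul_of_nonneg_left (hp _ ⟨(Real.exp_pos _).le, Real.exp_le_one_iff.mpr (by linarith)⟩).le (rho_nonneg hα u)
  have hmeas : AEStronglyMeasurable (fun u => rho α u * (p.eval (Real.exp (-u)) - f (Real.exp (-u)))) volume := by
    refine (rho_int hα).aestronglyMeasurable.mul ?_
    exact ((p.continuous.comp (by fun_prop : Continuous fun u : ℝ => Real.exp (-u))).sub hcf).aestronglyMeasurable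
  have i2 : Integrable fun u => rho α u * (p.eval (Real.exp (-u)) - f (Real.exp (-u))) :=
    Integrable.mono' ((rho_int hα).mul_const e) hmeas (Eventually.of_forall hb)
  have i3 : |∫ u, rho α u * (p.eval (Real.exp (-u)) - f (Real.exp (-u)))| ≤ e := by
    rw [← Real.norm_eq_abs]
    refine (norm_integral_le_of_norm_le ((rho_int hα).mul_const e) (Eventually.of_forall hb)).trans (le_of_eq ?_)
    rw [integral_mul_const, rho_total hα, one_mul]
  have i4 : ∫ u, rho α u * p.eval (Real.exp (-u)) = (∫ u, rho α u * f (Real.exp (-u))) +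
      ∫ u, rho α u * (p.eval (Real.exp (-u)) - f (Real.exp (-u))) := by
    rw [← integral_add i1 i2]
    exact integral_congr_ae (Eventually.of_forall fun u => by simp only; ring)
  rw [s4, i4] at a1
  set A := ∑' n, g2 α (δ T) n * f ((n:ℝ) ^ (-(2 * δ T)))
  set B := ∑' n, g2 α (δ T) n * (p.eval ((n:ℝ) ^ (-(2 * δ T))) - f ((n:ℝ) ^ (-(2 * δ T))))
  set C := ∫ u, rho α u * f (Real.exp (-u))
  set D := ∫ u, rho α u * (p.eval (Real.exp (-u)) - f (Real.exp (-u)))
  set q := (2 * δ T) ^ (α ^ 2)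
  have b1 : |q * B| ≤ (aF α + 1) * e := by
    rw [abs_mul, abs_of_nonneg hpos]
    refine (mul_le_mul_of_nonneg_left s3 hpos).trans ?_
    rw [← mul_assoc]
    exact mul_le_mul_of_nonneg_right a2.le he0.le
  have b2 : |aF α * D| ≤ aF α * e := by
    rw [abs_mul, abs_of_nonneg hA.le]
    exact mul_le_mul_of_nonneg_left i3 hA.le
  have b3 : (2 * aF α + 2) * e = ε := by rw [he]; field_simp
  have b4 : q * A - aF α * C = (q * (A + B) - aF α * (C + D)) - q * B + aF α * D := by ring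
  rw [b4]
  have b5 := abs_add_le ((q * (A + B) - aF α * (C + D)) - q * B) (aF α * D)
  have b6 := abs_sub (q * (A + B) - aF α * (C + D)) (q * B)
  linarith

/-- the distribution function -/
noncomputable def Fd (α y : ℝ) : ℝ := ∫ u in Set.Iic y, rho α u

lemma Fd_cont {α : ℝ} (hα : 0 < α) : Continuous (Fd α) := by
  have h1 : Fd α = fun y => (∫ u in Set.Iic (0:ℝ), rho α u) + ∫ u in (0:ℝ)..y, rho α u := by
    funext y
    unfold Fd
    have := intervalIntegral.integral_Iic_sub_Iic (rho_int hα).integrableOn (rho_int hα).integrableOn (a := (0:ℝ)) (b := y)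
    rw [← this]; ring
  rw [h1]
  exact continuous_const.add (intervalIntegral.continuous_primitive (fun a b => (rho_int hα).intervalIntegrable) 0)

/-- cut-off -/
noncomputable def ph (y ε u : ℝ) : ℝ := max 0 (min 1 ((y + ε - u) / ε))

lemma ph_cont (y ε : ℝ) : Continuous (ph y ε) := by
  unfold ph
  fun_prop

lemma ph_mem (y ε u : ℝ) : 0 ≤ ph y ε u ∧ ph y ε u ≤ 1 :=
  ⟨le_max_left _ _, max_le zero_le_one (min_le_left _ _)⟩

lemma ph_one {y ε u : ℝ} (hε : 0 < ε) (hu : u ≤ y) : ph y ε u = 1 := by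
  unfold ph
  rw [min_eq_left, max_eq_right zero_le_one]
  rw [le_div_iff₀ hε]; linarith

lemma ph_zero {y ε u : ℝ} (hε : 0 < ε) (hu : y + ε ≤ u) : ph y ε u = 0 := by
  unfold ph
  refine max_eq_left ((min_le_right _ _).trans ?_)
  rw [div_le_iff₀ hε]; linarith

noncomputable def pf (y ε x : ℝ) : ℝ := ph y ε (-Real.log (max x (Real.exp (-(y + ε)))))

lemma pf_cont (y ε : ℝ) : Continuous (pf y ε) := by
  unfold pf
  refine (ph_cont y ε).comp (Continuous.neg (Continuous.log (by fun_prop) fun x => ?_))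
  exact (lt_of_lt_of_le (Real.exp_pos _) (le_max_right _ _)).ne'

lemma pf_eq {y ε u : ℝ} (hε : 0 < ε) : pf y ε (Real.exp (-u)) = ph y ε u := by
  unfold pf
  rcases le_total u (y + ε) with h | h
  · rw [max_eq_left (Real.exp_le_exp.mpr (by linarith)), Real.log_exp, neg_neg]
  · rw [max_eq_right (Real.exp_le_exp.mpr (by linarith)), Real.log_exp, neg_neg, ph_zero hε h, ph_zero hε le_rfl]

lemma pf_n {y ε δ : ℝ} (hε : 0 < ε) {n : ℕ} (hn : 1 ≤ n) : pf y ε ((n:ℝ) ^ (-(2 * δ))) = ph y ε (2 * (δ * Real.log n)) := by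
  have hn0 : (0:ℝ) < n := by exact_mod_cast hn
  rw [← pf_eq hε, Real.rpow_def_of_pos hn0]
  congr 2; ring

lemma int_pf_le {α y ε : ℝ} (hα : 0 < α) (hε : 0 < ε) : ∫ u, rho α u * pf y ε (Real.exp (-u)) ≤ Fd α (y + ε) := by
  unfold Fd
  rw [← integral_indicator measurableSet_Iic]
  refine integral_mono_of_nonneg (Eventually.of_forall fun u => mul_nonneg (rho_nonneg hα u) (by rw [pf_eq hε]; exact (ph_mem _ _ _).1))
    ((rho_int hα).indicator measurableSet_Iic) (Eventually.of_forall fun u => ?_)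
  simp only
  rw [pf_eq hε]
  by_cases h : u ≤ y + ε
  · rw [Set.indicator_of_mem (Set.mem_Iic.mpr h)]
    exact mul_le_of_le_one_right (rho_nonneg hα u) (ph_mem _ _ _).2
  · rw [Set.indicator_of_notMem (by simpa using h), ph_zero hε (not_le.mp h).le, mul_zero]

lemma int_pf_ge {α y ε : ℝ} (hα : 0 < α) (hε : 0 < ε) : Fd α y ≤ ∫ u, rho α u * pf y ε (Real.exp (-u)) := by
  unfold Fd
  rw [← integral_indicator measurableSet_Iic]
  have hi : Integrable fun u => rho α u * pf y ε (Real.exp (-u)) :=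
    (rho_int hα).mul_bdd (c := 1) ((pf_cont y ε).comp (by fun_prop : Continuous fun u : ℝ => Real.exp (-u))).aestronglyMeasurable
      (Eventually.of_forall fun u => by
        rw [pf_eq hε, Real.norm_of_nonneg (ph_mem _ _ _).1]; exact (ph_mem _ _ _).2)
  refine integral_mono ((rho_int hα).indicator measurableSet_Iic) hi fun u => ?_
  simp only
  rw [pf_eq hε]
  by_cases h : u ≤ y
  · rw [Set.indicator_of_mem (Set.mem_Iic.mpr h), ph_one hε h, mul_one]
  · rw [Set.indicator_of_notMem (by simpa using h)]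
    exact mul_nonneg (rho_nonneg hα u) (ph_mem _ _ _).1

/-- **the partial sums at the critical length** -/
theorem partial_sums {α : ℝ} (hα : 0 < α) {δ : ℝ → ℝ} (h0 : ∀ᶠ T in atTop, 0 < δ T) (hδ : Tendsto δ atTop (𝓝 0))
    {N : ℝ → ℕ} {l : ℝ} (hN : Tendsto (fun T => δ T * Real.log (N T)) atTop (𝓝 l)) :
    Tendsto (fun T => (2 * δ T) ^ (α ^ 2) * ∑ n ∈ Icc 1 (N T), g2 α (δ T) n) atTop (𝓝 (aF α * Fd α (2 * l))) := by
  have hA := aF_pos hα
  have hc := (Fd_cont hα).const_mul (aF α) |>.tendsto (2 * l)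
  have hpf1 : ∀ {y ε : ℝ}, 0 < ε → ∀ x, |pf y ε x| ≤ 1 := fun {y ε} _ x => by
    unfold pf
    rw [abs_of_nonneg (ph_mem _ _ _).1]; exact (ph_mem _ _ _).2
  refine tendsto_order.2 ⟨fun a ha => ?_, fun b hb => ?_⟩
  · -- lower bound
    have h1 : ∀ᶠ x in 𝓝 (2 * l), a < aF α * Fd α x := hc.eventually (lt_mem_nhds ha)
    obtain ⟨r, hr0, hr⟩ := Metric.eventually_nhds_iff.mp h1
    obtain ⟨ε, hε⟩ : ∃ ε : ℝ, ε = r / 4 := ⟨_, rfl⟩
    have hε0 : 0 < ε := by rw [hε]; positivity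
    have h2 : a < aF α * Fd α (2 * l - 2 * ε) := hr (by
      rw [Real.dist_eq]
      have : 2 * l - 2 * ε - 2 * l = -(2 * ε) := by ring
      rw [this, abs_neg, abs_of_pos (by positivity)]
      linarith)
    have h3 := kar_cont hα h0 hδ (pf_cont (2 * l - 2 * ε) ε) (hpf1 hε0)
    have h4 : a < aF α * ∫ u, rho α u * pf (2 * l - 2 * ε) ε (Real.exp (-u)) :=
      h2.trans_le (mul_le_mul_of_nonneg_left (int_pf_ge hα hε0) hA.le)
    have h5 : ∀ᶠ T in atTop, 2 * l - ε < 2 * (δ T * Real.log (N T)) :=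
      (hN.const_mul 2).eventually (lt_mem_nhds (by linarith))
    filter_upwards [h3.eventually (lt_mem_nhds h4), h0, h5] with T t1 t2 t3
    refine t1.trans_le (mul_le_mul_of_nonneg_left ?_ (by positivity))
    have hz : ∀ n, n ∉ Icc 1 (N T) → g2 α (δ T) n * pf (2 * l - 2 * ε) ε ((n:ℝ) ^ (-(2 * δ T))) = 0 := by
      intro n hn
      rw [mem_Icc, not_and_or] at hn
      rcases Nat.eq_zero_or_pos n with h | h
      · subst h
        unfold g2 dv
        simp
      · rw [pf_n hε0 h, ph_zero hε0, mul_zero]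
        have h6 : N T ≤ n := by omega
        rcases Nat.eq_zero_or_pos (N T) with h7 | h7
        · rw [h7] at t3
          simp only [Nat.cast_zero, Real.log_zero, mul_zero] at t3
          have h8 : 0 ≤ δ T * Real.log n := mul_nonneg t2.le (Real.log_natCast_nonneg n)
          linarith
        · have h8 : Real.log (N T) ≤ Real.log n := Real.log_le_log (by exact_mod_cast h7) (by exact_mod_cast h6)
          have h9 := mul_le_mul_of_nonneg_left h8 t2.le
          linarith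
    rw [tsum_eq_sum (s := Icc 1 (N T)) hz]
    refine sum_le_sum fun n hn => ?_
    rw [mem_Icc] at hn
    rw [pf_n hε0 hn.1]
    exact mul_le_of_le_one_right (g2_nonneg _ _ _) (ph_mem _ _ _).2
  · -- upper bound
    have h1 : ∀ᶠ x in 𝓝 (2 * l), aF α * Fd α x < b := hc.eventually (gt_mem_nhds hb)
    obtain ⟨r, hr0, hr⟩ := Metric.eventually_nhds_iff.mp h1
    obtain ⟨ε, hε⟩ : ∃ ε : ℝ, ε = r / 4 := ⟨_, rfl⟩
    have hε0 : 0 < ε := by rw [hε]; positivity
    have h2 : aF α * Fd α (2 * l + ε + ε) < b := hr (by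
      rw [Real.dist_eq]
      have : 2 * l + ε + ε - 2 * l = 2 * ε := by ring
      rw [this, abs_of_pos (by positivity)]
      linarith)
    have h3 := kar_cont hα h0 hδ (pf_cont (2 * l + ε) ε) (hpf1 hε0)
    have h4 : aF α * (∫ u, rho α u * pf (2 * l + ε) ε (Real.exp (-u))) < b :=
      (mul_le_mul_of_nonneg_left (int_pf_le hα hε0) hA.le).trans_lt h2
    have h5 : ∀ᶠ T in atTop, 2 * (δ T * Real.log (N T)) < 2 * l + ε :=
      (hN.const_mul 2).eventually (gt_mem_nhds (by linarith))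
    filter_upwards [h3.eventually (gt_mem_nhds h4), h0, h5] with T t1 t2 t3
    refine lt_of_le_of_lt (mul_le_mul_of_nonneg_left ?_ (by positivity)) t1
    have hs : Summable fun n => g2 α (δ T) n * pf (2 * l + ε) ε ((n:ℝ) ^ (-(2 * δ T))) :=
      Summable.of_norm_bounded (g2_summable hα t2) fun n => by
        rw [norm_mul, Real.norm_of_nonneg (g2_nonneg _ _ _), Real.norm_eq_abs]
        exact mul_le_of_le_one_right (g2_nonneg _ _ _) (hpf1 hε0 _)
    refine le_trans (le_of_eq ?_) (hs.sum_le_tsum (Icc 1 (N T)) fun n _ => mul_nonneg (g2_nonneg _ _ _) (by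
      unfold pf; exact (ph_mem _ _ _).1))
    refine sum_congr rfl fun n hn => ?_
    rw [mem_Icc] at hn
    rw [pf_n hε0 hn.1, ph_one hε0, mul_one]
    have h8 : Real.log n ≤ Real.log (N T) := Real.log_le_log (by exact_mod_cast hn.1) (by exact_mod_cast hn.2)
    have h9 := mul_le_mul_of_nonneg_left h8 t2.le
    linarith

end Pool.Agent.X110.NA
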