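import Pool.Agent.X110.NA6
import Pool.Agent.X110.NA7

set_option autoImplicit false

/-! The mean square distance between real powers of zeta and Dirichlet polynomials of critical length. -/

namespace Pool.Agent.X110.NA

open Finset Filter MeasureTheory MonoidAlgebra Topology
open Pool.Agent.Y755
open Pool.Agent.W184.NZ
open Pool.Agent.Y753.NL
open Pool.Agent.Y753.SH
open Pool.Agent.Y753.SHR
open Pool.Agent.H306R2 (dv dv_nonneg dv_one aF aF_pos)

lemma dr_one_norm {s : ℝ} (hs : 0 ≤ s) (h : Fin 1 → ℝ) {n : ℕ} (hn : n ≠ 0) : ‖dr (fun _ : Fin 1 => s) h n‖ = dv s n := by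
  unfold dr
  rw [Fin.prod_univ_one, tk_norm hs _ hn]

lemma dg_tail {s : ℝ} (hs : 0 ≤ s) (δ : ℝ) (h : Fin 1 → ℝ) {N L : ℕ} (hNL : N ≤ L) :
    dg δ (Icc 1 L) (Dr (fun _ : Fin 1 => s) h L - Dr (fun _ : Fin 1 => s) h N) (Dr (fun _ : Fin 1 => s) h L - Dr (fun _ : Fin 1 => s) h N) =
      (((∑ n ∈ Icc 1 L, g2 s δ n) - ∑ n ∈ Icc 1 N, g2 s δ n : ℝ) : ℂ) := by
  have hsub : Icc 1 N ⊆ Icc 1 L := Icc_subset_Icc_right hNL
  have h1 : ∑ n ∈ Icc 1 N, g2 s δ n = ∑ n ∈ Icc 1 L, if n ∈ Icc 1 N then g2 s δ n else 0 := by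
    rw [← sum_filter]
    congr 1
    ext n
    rw [mem_filter]
    exact ⟨fun h => ⟨hsub h, h⟩, fun h => h.2⟩
  rw [h1, ← sum_sub_distrib]
  unfold dg
  push_cast
  refine sum_congr rfl fun n hn => ?_
  rw [Complex.mul_conj, Complex.normSq_eq_norm_sq, coeff_sub, Finsupp.sub_apply, Dr_coeff, Dr_coeff, if_pos hn]
  have hn0 : n ≠ 0 := by rw [mem_Icc] at hn; omega
  by_cases h2 : n ∈ Icc 1 N
  · rw [if_pos h2, if_pos h2]; simp
  · rw [if_neg h2, if_neg h2, sub_zero, dr_one_norm hs h hn0]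
    unfold g2
    push_cast
    ring

lemma l1_tail {s : ℝ} (hs : 0 ≤ s) {N L : ℕ} (hNL : N ≤ L) : l1' (DN s L - DN s N) ≤ l1' (DN s L) := by
  have hsub : (DN s L - DN s N).coeff.support ⊆ Icc 1 L := by
    intro n hn
    have := tail_Bd s N L hNL n hn
    rw [mem_Icc]
    exact ⟨Nat.pos_of_ne_zero this.1, by exact_mod_cast this.2⟩
  rw [l1'_eq hsub, l1'_eq (DN_supp s L)]
  refine sum_le_sum fun n hn => ?_
  rw [coeff_sub, Finsupp.sub_apply, DN_coeff, DN_coeff, if_pos hn]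
  have := dv_nonneg hs n
  by_cases h2 : n ∈ Icc 1 N
  · rw [if_pos h2, sub_self, abs_zero]; exact abs_nonneg _
  · rw [if_neg h2, sub_zero]

/-- the mean square of a difference of partial sums -/
theorem diff_mv {s δ : ℝ} (hs : 0 < s) (hδ : 0 < δ) (hδ1 : δ ≤ 1 / 2) (a : ℝ) {N L : ℕ} (hNL : N ≤ L) (T : ℝ) :
    |(∫ t in (0:ℝ)..T, ‖pr δ (fun _ : Fin 1 => s) (fun _ => a) L t - pr δ (fun _ : Fin 1 => s) (fun _ => a) N t‖ ^ 2) -
      T * ((∑ n ∈ Icc 1 L, g2 s δ n) - ∑ n ∈ Icc 1 N, g2 s δ n)| ≤ 2 * (DD s δ * (L:ℝ) ^ 4) := by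
  have hsum : ∑ _j : Fin 1, s = s := by simp
  have hdo := tail_Do (κ := fun _ : Fin 1 => s) (fun _ => hs.le) (fun _ => a * δ) N L hNL
  rw [hsum] at hdo
  have hsub : (DN s L - DN s N).coeff.support ⊆ Icc 1 L := by
    intro n hn
    have := tail_Bd s N L hNL n hn
    rw [mem_Icc]
    exact ⟨Nat.pos_of_ne_zero this.1, by exact_mod_cast this.2⟩
  have hb := bil hδ.le hdo hdo (tail_Bd s N L hNL) (tail_Bd s N L hNL) hsub 0 T
  rw [sub_zero, dg_tail hs.le δ _ hNL] at hb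
  have e1 : ∀ t : ℝ, ec (1 / 2 + δ + t * Complex.I) (Dr (fun _ : Fin 1 => s) (fun _ => a * δ) L - Dr (fun _ : Fin 1 => s) (fun _ => a * δ) N) *
      (starRingEnd ℂ) (ec (1 / 2 + δ + t * Complex.I) (Dr (fun _ : Fin 1 => s) (fun _ => a * δ) L - Dr (fun _ : Fin 1 => s) (fun _ => a * δ) N)) =
      ((‖pr δ (fun _ : Fin 1 => s) (fun _ => a) L t - pr δ (fun _ : Fin 1 => s) (fun _ => a) N t‖ ^ 2 : ℝ) : ℂ) := by
    intro t
    rw [Complex.mul_conj, Complex.normSq_eq_norm_sq, map_sub]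
    rfl
  simp_rw [e1] at hb
  rw [intervalIntegral.integral_ofReal, ← Complex.ofReal_mul, ← Complex.ofReal_sub, Complex.norm_real, Real.norm_eq_abs] at hb
  refine hb.trans ?_
  have h1 := l1_tail hs.le hNL
  have h3 := DN_l1 hs hδ hδ1 L
  have h4 : l1' (DN s L - DN s N) * l1' (DN s L - DN s N) ≤ DD s δ * (L:ℝ) ^ 3 := by
    refine le_trans ?_ h3
    rw [sq]
    exact mul_le_mul h1 h1 (l1'_nonneg _) (l1'_nonneg _)
  calc 2 * (L:ℝ) * (l1' (DN s L - DN s N) * l1' (DN s L - DN s N)) ≤ 2 * (L:ℝ) * (DD s δ * (L:ℝ) ^ 3) :=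
        mul_le_mul_of_nonneg_left h4 (by positivity)
    _ = _ := by ring

/-- the full sum along a path -/
lemma full_path {α : ℝ} (hα : 0 < α) {δ : ℝ → ℝ} (h0 : ∀ᶠ T in atTop, 0 < δ T) (hδ : Tendsto δ atTop (𝓝 0))
    {N : ℝ → ℕ} (hN : Tendsto (fun T => δ T * Real.log (N T)) atTop atTop) :
    Tendsto (fun T => (2 * δ T) ^ (α ^ 2) * ∑ n ∈ Icc 1 (N T), g2 α (δ T) n) atTop (𝓝 (aF α)) := by
  have h1 := twF_path hα h0 hδ one_ne_zero one_ne_zero hN
  simp only [mul_one, Nat.primeFactors_one, prod_empty] at h1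
  refine h1.congr fun T => ?_
  congr 1
  unfold twF g2
  rw [filter_true_of_mem]
  · refine sum_congr rfl fun n _ => ?_
    rw [one_mul]; ring
  · intro n hn
    rw [mem_Icc] at hn
    rw [one_mul]
    exact ⟨hn.2, hn.2⟩

/-- the difference of partial sums along a path -/
theorem diff_path {δ : ℝ → ℝ} (hδ0 : Tendsto δ atTop (𝓝 0)) (hpos : ∀ᶠ T in atTop, 0 < δ T)
    (hδL : Tendsto (fun T => δ T * Real.log T) atTop atTop) {s : ℝ} (hs : 0 < s) (a : ℝ) {N : ℝ → ℕ} {l : ℝ}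
    (hN : Tendsto (fun T => δ T * Real.log (N T)) atTop (𝓝 l)) :
    Tendsto (fun T : ℝ => (2 * δ T) ^ (s ^ 2) / T * ∫ t in Set.Icc 0 T,
      ‖pr (δ T) (fun _ : Fin 1 => s) (fun _ => a) (L0 T) t - pr (δ T) (fun _ : Fin 1 => s) (fun _ => a) (N T) t‖ ^ 2) atTop
      (𝓝 (aF s * (1 - Fd s (2 * l)))) := by
  have hL := L0_log hpos hδL
  have h1 := (full_path hs hpos hδ0 hL).sub (partial_sums hs hpos hδ0 hN)
  have e1 : aF s - aF s * Fd s (2 * l) = aF s * (1 - Fd s (2 * l)) := by ring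
  rw [e1] at h1
  have hD := DD_asym hs hpos hδ0
  have herr : Tendsto (fun T : ℝ => 2 * ((L0 T : ℝ) ^ 4 / T * ((2 * δ T) ^ (s ^ 2) * DD s (δ T)))) atTop (𝓝 0) := by
    have := (L0_four.mul hD).const_mul 2
    simpa using this
  have hNL : ∀ᶠ T in atTop, N T ≤ L0 T := by
    have h2 : ∀ᶠ T in atTop, δ T * Real.log (N T) < l + 1 := hN.eventually (gt_mem_nhds (lt_add_one _))
    filter_upwards [h2, hL.eventually_ge_atTop (max (l + 1) 1), hpos] with T t1 t2 t3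
    have t4 := (le_max_left _ _).trans t2
    have t5 := (le_max_right _ _).trans t2
    by_contra hcon
    push Not at hcon
    have hL1 : 1 ≤ L0 T := by
      rcases Nat.eq_zero_or_pos (L0 T) with h | h
      · rw [h] at t5
        simp only [Nat.cast_zero, Real.log_zero, mul_zero] at t5
        linarith
      · exact h
    have h3 : Real.log (L0 T) ≤ Real.log (N T) := Real.log_le_log (by exact_mod_cast hL1) (by exact_mod_cast hcon.le)
    have h4 := mul_le_mul_of_nonneg_left h3 t3.le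
    linarith
  have hdiff : Tendsto (fun T : ℝ => (2 * δ T) ^ (s ^ 2) / T * (∫ t in Set.Icc 0 T,
      ‖pr (δ T) (fun _ : Fin 1 => s) (fun _ => a) (L0 T) t - pr (δ T) (fun _ : Fin 1 => s) (fun _ => a) (N T) t‖ ^ 2) -
      ((2 * δ T) ^ (s ^ 2) * (∑ n ∈ Icc 1 (L0 T), g2 s (δ T) n) - (2 * δ T) ^ (s ^ 2) * ∑ n ∈ Icc 1 (N T), g2 s (δ T) n))
      atTop (𝓝 0) := by
    rw [tendsto_zero_iff_norm_tendsto_zero]
    refine squeeze_zero' (Eventually.of_forall fun T => norm_nonneg _) ?_ herr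
    filter_upwards [hpos, eventually_gt_atTop 0, hδ0.eventually (gt_mem_nhds (show (0:ℝ) < 1 / 2 by norm_num)), hNL] with T t1 t2 t3 t4
    have h5 := diff_mv hs t1 t3.le a t4 T
    rw [intervalIntegral.integral_of_le t2.le, ← integral_Icc_eq_integral_Ioc] at h5
    have h6 : 0 ≤ (2 * δ T) ^ (s ^ 2) / T := by positivity
    obtain ⟨I0, hI0⟩ : ∃ I0, I0 = ∫ t in Set.Icc 0 T, ‖pr (δ T) (fun _ : Fin 1 => s) (fun _ => a) (L0 T) t -
      pr (δ T) (fun _ : Fin 1 => s) (fun _ => a) (N T) t‖ ^ 2 := ⟨_, rfl⟩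
    rw [← hI0] at h5 ⊢
    have e2 : (2 * δ T) ^ (s ^ 2) / T * I0 - ((2 * δ T) ^ (s ^ 2) * (∑ n ∈ Icc 1 (L0 T), g2 s (δ T) n) -
        (2 * δ T) ^ (s ^ 2) * ∑ n ∈ Icc 1 (N T), g2 s (δ T) n) =
        (2 * δ T) ^ (s ^ 2) / T * (I0 - T * ((∑ n ∈ Icc 1 (L0 T), g2 s (δ T) n) - ∑ n ∈ Icc 1 (N T), g2 s (δ T) n)) := by
      field_simp
    rw [e2, norm_mul, Real.norm_of_nonneg h6, Real.norm_eq_abs]
    refine (mul_le_mul_of_nonneg_left h5 h6).trans (le_of_eq ?_)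
    field_simp
  have h5 := hdiff.add h1
  rw [zero_add] at h5
  refine h5.congr fun T => ?_
  ring

/-- **the threshold for the length** -/
theorem thr_small (hDG : S_DIAGR) (hST : S_STARR) {δ : ℝ → ℝ} (hδ : Tendsto δ atTop (𝓝 0))
    (hδL : Tendsto (fun T : ℝ => δ T * Real.log T) atTop atTop)
    {S R : Set ℝ} (hS : S.Countable) (hR : R.Countable) (hR0 : ∀ r ∈ R, 0 < r) :
    ∃ w : ℝ → ℝ → ℂ, (∀ T, Measurable (w T)) ∧
      (∀ᶠ T in atTop, ∀ u : ℝ, riemannZeta (1 / 2 + δ T + (u : ℂ) * Complex.I) ≠ 0 →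
        Complex.exp (w T u) = riemannZeta (1 / 2 + δ T + (u : ℂ) * Complex.I)) ∧
      ∀ s ∈ R, s ≤ 2 → ∀ a ∈ S,
        Tendsto (fun T : ℝ => (2 * δ T) ^ (s ^ 2) / T *
          ∫ t in Set.Icc 0 T, ‖zr (w T) (δ T) (fun _ : Fin 1 => s) (fun _ => a) t -
            pr (δ T) (fun _ : Fin 1 => s) (fun _ => a) (L0 T) t‖ ^ 2) atTop (𝓝 0) ∧
        ∀ (N : ℝ → ℕ) (l : ℝ), Tendsto (fun T => δ T * Real.log (N T)) atTop (𝓝 l) →
        Tendsto (fun T : ℝ => (2 * δ T) ^ (s ^ 2) / T *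
          ∫ t in Set.Icc 0 T, ‖zr (w T) (δ T) (fun _ : Fin 1 => s) (fun _ => a) t -
            pr (δ T) (fun _ : Fin 1 => s) (fun _ => a) (N T) t‖ ^ 2) atTop (𝓝 (aF s * (1 - Fd s (2 * l)))) := by
  obtain ⟨E, w, hE, hvol, hw, hm⟩ := approx_small hDG hST hδ hδL le_rfl hS hR hR0
  have hpos := pos_path hδL
  have hlt : ∀ᶠ T in atTop, δ T < 1 / 2 := hδ.eventually (gt_mem_nhds (by norm_num))
  refine ⟨w, fun T => (hE T).2.2.1, hw, fun s hs hs2 a ha => ?_⟩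
  have hs0 := hR0 s hs
  obtain ⟨-, A2, -⟩ := hm 1 (fun _ => s) (fun _ => a) s L0 le_rfl (by simp) (fun _ => hs) (fun _ => ha)
    L0_le (L0_log hpos hδL)
  have A2' := A2 hs2
  refine ⟨A2', fun N l hN => ?_⟩
  have hd := diff_path hδ hpos hδL hs0 a hN
  obtain ⟨x, hx⟩ : ∃ x : ℝ → ℝ → ℂ, ∀ T t, x T t = zr (w T) (δ T) (fun _ : Fin 1 => s) (fun _ => a) t -
    pr (δ T) (fun _ : Fin 1 => s) (fun _ => a) (N T) t := ⟨_, fun _ _ => rfl⟩
  obtain ⟨y, hy⟩ : ∃ y : ℝ → ℝ → ℂ, ∀ T t, y T t = pr (δ T) (fun _ : Fin 1 => s) (fun _ => a) (L0 T) t -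
    pr (δ T) (fun _ : Fin 1 => s) (fun _ => a) (N T) t := ⟨_, fun _ _ => rfl⟩
  have hxy : ∀ T t, zr (w T) (δ T) (fun _ : Fin 1 => s) (fun _ => a) t - pr (δ T) (fun _ : Fin 1 => s) (fun _ => a) (L0 T) t =
    x T t - y T t := fun T t => by rw [hx, hy]; ring
  simp_rw [hxy] at A2'
  simp_rw [← hy] at hd
  simp_rw [← hx]
  have hc0 : ∀ᶠ T in atTop, 0 ≤ (2 * δ T) ^ (s ^ 2) / T := by
    filter_upwards [hpos, eventually_gt_atTop 0] with T t1 t2
    positivity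
  have hpc : ∀ T (M : ℕ), Continuous (pr (δ T) (fun _ : Fin 1 => s) (fun _ => a) M) := fun T M => pr_cont (δ T) (fun _ => hs0.le) _ M
  have hyc : ∀ T, Continuous (y T) := fun T => by
    have e : y T = fun t => pr (δ T) (fun _ : Fin 1 => s) (fun _ => a) (L0 T) t -
      pr (δ T) (fun _ : Fin 1 => s) (fun _ => a) (N T) t := funext (hy T)
    rw [e]
    exact (hpc T _).sub (hpc T _)
  have hzm : ∀ T, Measurable (zr (w T) (δ T) (fun _ : Fin 1 => s) (fun _ => a)) := fun T => zr_meas (hE T).2.2.1 (δ T) _ _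
  have hyi : ∀ T, IntegrableOn (fun t => ‖y T t‖ ^ 2) (Set.Icc 0 T) := fun T =>
    ((hyc T).norm.pow 2).continuousOn.integrableOn_compact isCompact_Icc
  have hdi : ∀ᶠ T in atTop, IntegrableOn (fun t => ‖x T t - y T t‖ ^ 2) (Set.Icc 0 T) := by
    filter_upwards [hlt, hw] with T h1 h2
    have hza : IntegrableOn (fun t => za (δ T) a t ^ (2 * s)) (Set.Icc 0 T) := ic h1 a (by positivity)
    have hpi : IntegrableOn (fun t => ‖pr (δ T) (fun _ : Fin 1 => s) (fun _ => a) (L0 T) t‖ ^ 2) (Set.Icc 0 T) :=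
      ((hpc T _).norm.pow 2).continuousOn.integrableOn_compact isCompact_Icc
    have hmeas : Measurable fun t => ‖x T t - y T t‖ ^ 2 := by
      have e : (fun t => ‖x T t - y T t‖ ^ 2) = fun t => ‖zr (w T) (δ T) (fun _ : Fin 1 => s) (fun _ => a) t -
        pr (δ T) (fun _ : Fin 1 => s) (fun _ => a) (L0 T) t‖ ^ 2 := funext fun t => by rw [hxy]
      rw [e]
      exact ((hzm T).sub (hpc T _).measurable).norm.pow_const 2
    refine Integrable.mono' ((hza.const_mul 2).add (hpi.const_mul 2)) hmeas.aestronglyMeasurable ?_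
    filter_upwards [ae_restrict_of_ae (zeros_ae (δ T) (a * δ T))] with t ht
    have n1 := zr_norm (w := w T) (δ := δ T) (κ := fun _ : Fin 1 => s) (a := fun _ => a) (t := t) fun _ => h2 _ ht
    rw [Fin.prod_univ_one] at n1
    rw [← hxy, Real.norm_of_nonneg (by positivity)]
    show _ ≤ 2 * za (δ T) a t ^ (2 * s) + 2 * ‖pr (δ T) (fun _ : Fin 1 => s) (fun _ => a) (L0 T) t‖ ^ 2
    rw [← n1]
    exact sq_sub_le _ _
  have hB : ∀ᶠ T in atTop, (2 * δ T) ^ (s ^ 2) / T * ∫ t in Set.Icc 0 T, ‖y T t‖ ^ 2 ≤ aF s * (1 - Fd s (2 * l)) + 1 :=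
    (hd.eventually (gt_mem_nhds (lt_add_one _))).mono fun T h => h.le
  have h3 := close_sq hc0 hdi (Eventually.of_forall hyi) A2' hB
  have h4 : Tendsto (fun T : ℝ => (2 * δ T) ^ (s ^ 2) / T * (∫ t in Set.Icc 0 T, ‖x T t‖ ^ 2) -
      (2 * δ T) ^ (s ^ 2) / T * ∫ t in Set.Icc 0 T, ‖y T t‖ ^ 2) atTop (𝓝 0) := by
    rw [tendsto_zero_iff_norm_tendsto_zero]
    refine squeeze_zero' (Eventually.of_forall fun T => norm_nonneg _) ?_ h3
    filter_upwards [hc0, hdi] with T t1 t2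
    have hxi : IntegrableOn (fun t => ‖x T t‖ ^ 2) (Set.Icc 0 T) := by
      have hmeas : Measurable fun t => ‖x T t‖ ^ 2 := by
        have e : (fun t => ‖x T t‖ ^ 2) = fun t => ‖zr (w T) (δ T) (fun _ : Fin 1 => s) (fun _ => a) t -
          pr (δ T) (fun _ : Fin 1 => s) (fun _ => a) (N T) t‖ ^ 2 := funext fun t => by rw [hx]
        rw [e]
        exact ((hzm T).sub (hpc T _).measurable).norm.pow_const 2
      refine Integrable.mono' ((t2.const_mul 2).add ((hyi T).const_mul 2)) hmeas.aestronglyMeasurable (Eventually.of_forall fun t => ?_)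
      rw [Real.norm_of_nonneg (by positivity)]
      have e : x T t = (x T t - y T t) + y T t := by ring
      have := sq_add_le (x T t - y T t) (y T t)
      rw [← e] at this
      exact this
    rw [← mul_sub, norm_mul, Real.norm_of_nonneg t1, ← integral_sub hxi (hyi T)]
    refine mul_le_mul_of_nonneg_left ?_ t1
    exact norm_integral_le_integral_norm _
  have h5 := h4.add hd
  rw [zero_add] at h5
  refine h5.congr fun T => ?_
  ring

end Pool.Agent.X110.NA
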