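import Pool.Agent.X110.NA4
import Pool.Agent.Y755.Bin
import Mathlib.Analysis.Fourier.AddCircleMulti

set_option autoImplicit false

/-! The weights on the circles which belong to the primes, and their Fourier coefficients. -/

namespace Pool.Agent.X110.NA

open Finset Filter Topology MeasureTheory
open Pool.Agent.Y755 (lc_hasSum)
open Pool.Agent.H306R2 (lc lc_zero lc_nonneg)

/-- `exp (2 π i x)` -/
noncomputable def ee (x : ℝ) : ℂ := Complex.exp (2 * Real.pi * Complex.I * x)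

lemma ee_norm (x : ℝ) : ‖ee x‖ = 1 := by
  unfold ee
  rw [Complex.norm_exp]
  simp

lemma ee_cont : Continuous ee := by unfold ee; fun_prop

lemma ee_zpow (a : ℤ) (x : ℝ) : ee x ^ a = Complex.exp (2 * Real.pi * Complex.I * a * x) := by
  unfold ee
  rw [← Complex.exp_int_mul]
  congr 1; ring

lemma ee_conj (x : ℝ) : (starRingEnd ℂ) (ee x) = (ee x)⁻¹ := by
  rw [Complex.inv_def, Complex.normSq_eq_norm_sq, ee_norm]
  simp

lemma int_ee (a : ℤ) : ∫ x in (0:ℝ)..1, ee x ^ a = if a = 0 then 1 else 0 := by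
  simp_rw [ee_zpow]
  split_ifs with h
  · rw [h]; simp
  · have hc : (2 * Real.pi * Complex.I * a : ℂ) ≠ 0 := by
      refine mul_ne_zero (mul_ne_zero (mul_ne_zero two_ne_zero (by exact_mod_cast Real.pi_ne_zero)) Complex.I_ne_zero) ?_
      exact_mod_cast h
    rw [integral_exp_mul_complex hc]
    have e1 : Complex.exp (2 * Real.pi * Complex.I * a * ((1:ℝ):ℂ)) = 1 := by
      rw [Complex.exp_eq_one_iff]
      exact ⟨a, by push_cast; ring⟩
    rw [e1]
    simp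

/-- `(1 - r e(x))^(-s)` -/
noncomputable def ff (s r x : ℝ) : ℂ := 1 / (1 - (r:ℂ) * ee x) ^ (s:ℂ)

lemma re_norm {r : ℝ} (hr : 0 ≤ r) (x : ℝ) : ‖(r:ℂ) * ee x‖ = r := by
  rw [norm_mul, ee_norm, mul_one, Complex.norm_real, Real.norm_of_nonneg hr]

lemma ff_hasSum (s : ℝ) {r : ℝ} (hr : 0 ≤ r) (hr1 : r < 1) (x : ℝ) :
    HasSum (fun j : ℕ => (lc s j : ℂ) * ((r:ℂ) * ee x) ^ j) (ff s r x) :=
  lc_hasSum s (by rw [re_norm hr]; exact hr1)

lemma c_summable {s : ℝ} (hs : 0 < s) {r : ℝ} (hr : 0 ≤ r) (hr1 : r < 1) : Summable fun j : ℕ => lc s j * r ^ j := by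
  have h := (ff_hasSum s hr hr1 0).summable.norm
  refine h.congr fun j => ?_
  rw [norm_mul, norm_pow, re_norm hr, Complex.norm_real, Real.norm_of_nonneg (lc_nonneg hs.le j)]

lemma ff_cont (s : ℝ) {r : ℝ} (hr : 0 ≤ r) (hr1 : r < 1) : Continuous (ff s r) := by
  unfold ff
  have h1 : ∀ x : ℝ, 1 - (r:ℂ) * ee x ∈ Complex.slitPlane := by
    intro x
    left
    have h2 : ((r:ℂ) * ee x).re ≤ r := (Complex.re_le_norm _).trans (re_norm hr x).le
    simp only [Complex.sub_re, Complex.one_re]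
    linarith
  have h3 : Continuous fun x : ℝ => (1 - (r:ℂ) * ee x) ^ (s:ℂ) := by
    rw [continuous_iff_continuousAt]
    intro x
    exact ContinuousAt.cpow (by have := ee_cont; fun_prop) continuousAt_const (h1 x)
  refine Continuous.div continuous_const h3 fun x => ?_
  rw [Complex.cpow_def_of_ne_zero (Complex.slitPlane_ne_zero (h1 x))]
  exact Complex.exp_ne_zero _

lemma ff_mul_conj (s : ℝ) {r : ℝ} (hr : 0 ≤ r) (hr1 : r < 1) (x : ℝ) :
    ff s r x * (starRingEnd ℂ) (ff s r x) = ((‖1 - (r:ℂ) * ee x‖ ^ (-(2 * s)) : ℝ) : ℂ) := by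
  rw [Complex.mul_conj, Complex.normSq_eq_norm_sq]
  congr 1
  have hne : 1 - (r:ℂ) * ee x ≠ 0 := by
    intro h
    have h1 : (r:ℂ) * ee x = 1 := (sub_eq_zero.mp h).symm
    have h2 := re_norm hr x
    rw [h1] at h2
    simp at h2
    linarith
  unfold ff
  have hpos : 0 < ‖1 - (r:ℂ) * ee x‖ := norm_pos_iff.mpr hne
  rw [norm_div, norm_one, Complex.norm_cpow_of_ne_zero hne]
  simp only [Complex.ofReal_re, Complex.ofReal_im, mul_zero, Real.exp_zero, div_one]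
  rw [one_div, ← Real.rpow_neg hpos.le, ← Real.rpow_natCast, ← Real.rpow_mul hpos.le]
  congr 1
  push_cast
  ring

lemma conj_hasSum (s : ℝ) {r : ℝ} (hr : 0 ≤ r) (hr1 : r < 1) (x : ℝ) :
    HasSum (fun j : ℕ => ((lc s j * r ^ j : ℝ) : ℂ) * ee x ^ (-(j:ℤ))) ((starRingEnd ℂ) (ff s r x)) := by
  have h := (ff_hasSum s hr hr1 x).map (starRingEnd ℂ) Complex.continuous_conj
  refine h.congr_fun fun j => ?_
  simp only [Function.comp_apply, map_mul, map_pow, Complex.conj_ofReal, ee_conj]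
  rw [mul_pow, zpow_neg, zpow_natCast, inv_pow]
  push_cast
  ring

lemma ff_norm_le {s : ℝ} (hs : 0 < s) {r : ℝ} (hr : 0 ≤ r) (hr1 : r < 1) (x : ℝ) :
    ‖ff s r x‖ ≤ ∑' j : ℕ, lc s j * r ^ j := by
  have h := ff_hasSum s hr hr1 x
  rw [← h.tsum_eq]
  refine (norm_tsum_le_tsum_norm h.summable.norm).trans (le_of_eq (tsum_congr fun j => ?_))
  rw [norm_mul, norm_pow, re_norm hr, Complex.norm_real, Real.norm_of_nonneg (lc_nonneg hs.le j)]

lemma ee_ne (x : ℝ) : ee x ≠ 0 := by unfold ee; exact Complex.exp_ne_zero _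

lemma zpow_cont (a : ℤ) : Continuous fun x => ee x ^ a := by
  simp_rw [ee_zpow]; fun_prop

lemma coef1 {s : ℝ} (hs : 0 < s) {r : ℝ} (hr : 0 ≤ r) (hr1 : r < 1) (a : ℤ) :
    ∫ x in (0:ℝ)..1, ee x ^ a * (starRingEnd ℂ) (ff s r x) =
      if 0 ≤ a then ((lc s a.toNat * r ^ a.toNat : ℝ) : ℂ) else 0 := by
  have h : HasSum (fun j : ℕ => ∫ x in (0:ℝ)..1, ee x ^ a * (((lc s j * r ^ j : ℝ) : ℂ) * ee x ^ (-(j:ℤ))))
      (∫ x in (0:ℝ)..1, ee x ^ a * (starRingEnd ℂ) (ff s r x)) := by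
    refine intervalIntegral.hasSum_integral_of_dominated_convergence (fun j _ => lc s j * r ^ j) (fun j => ?_) (fun j => ?_) ?_ ?_ ?_
    · exact ((zpow_cont a).mul (continuous_const.mul (zpow_cont _))).aestronglyMeasurable
    · refine Eventually.of_forall fun x _ => ?_
      rw [norm_mul, norm_mul, norm_zpow, norm_zpow, ee_norm, one_zpow, one_zpow, one_mul, mul_one, Complex.norm_real,
        Real.norm_of_nonneg (mul_nonneg (lc_nonneg hs.le j) (by positivity))]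
    · exact Eventually.of_forall fun x _ => c_summable hs hr hr1
    · exact intervalIntegrable_const
    · exact Eventually.of_forall fun x _ => (conj_hasSum s hr hr1 x).mul_left _
  have e : ∀ j : ℕ, ∫ x in (0:ℝ)..1, ee x ^ a * (((lc s j * r ^ j : ℝ) : ℂ) * ee x ^ (-(j:ℤ))) =
      if a = j then ((lc s j * r ^ j : ℝ) : ℂ) else 0 := by
    intro j
    have e1 : ∀ x : ℝ, ee x ^ a * (((lc s j * r ^ j : ℝ) : ℂ) * ee x ^ (-(j:ℤ))) = ((lc s j * r ^ j : ℝ) : ℂ) * ee x ^ (a - j) := by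
      intro x
      rw [sub_eq_add_neg, zpow_add₀ (ee_ne x)]
      ring
    simp_rw [e1]
    rw [intervalIntegral.integral_const_mul, int_ee]
    by_cases h1 : a = j
    · rw [if_pos (by omega), if_pos h1, mul_one]
    · rw [if_neg (by omega), if_neg h1, mul_zero]
  simp_rw [e] at h
  refine h.unique ?_
  split_ifs with h0
  · have h1 := hasSum_ite_eq a.toNat ((lc s a.toNat * r ^ a.toNat : ℝ) : ℂ)
    refine h1.congr_fun fun j => ?_
    by_cases h2 : j = a.toNat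
    · rw [if_pos h2, if_pos (by omega), h2]
    · rw [if_neg h2, if_neg (by omega)]
  · have h1 : (fun j : ℕ => if a = j then ((lc s j * r ^ j : ℝ) : ℂ) else 0) = fun _ => 0 := by
      funext j
      rw [if_neg (by omega)]
    rw [h1]
    exact hasSum_zero

lemma coef2 {s : ℝ} (hs : 0 < s) {r : ℝ} (hr : 0 ≤ r) (hr1 : r < 1) (a : ℤ) :
    HasSum (fun j : ℕ => ((lc s j * r ^ j : ℝ) : ℂ) * (if 0 ≤ a + j then ((lc s (a + j).toNat * r ^ (a + j).toNat : ℝ) : ℂ) else 0))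
      (∫ x in (0:ℝ)..1, ee x ^ a * ((‖1 - (r:ℂ) * ee x‖ ^ (-(2 * s)) : ℝ) : ℂ)) := by
  obtain ⟨B, hB⟩ : ∃ B : ℝ, B = ∑' j : ℕ, lc s j * r ^ j := ⟨_, rfl⟩
  have hB0 : 0 ≤ B := by rw [hB]; exact tsum_nonneg fun j => mul_nonneg (lc_nonneg hs.le j) (by positivity)
  have h : HasSum (fun j : ℕ => ∫ x in (0:ℝ)..1, ((lc s j * r ^ j : ℝ) : ℂ) * (ee x ^ (a + j) * (starRingEnd ℂ) (ff s r x)))
      (∫ x in (0:ℝ)..1, ee x ^ a * ((‖1 - (r:ℂ) * ee x‖ ^ (-(2 * s)) : ℝ) : ℂ)) := by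
    refine intervalIntegral.hasSum_integral_of_dominated_convergence (fun j _ => lc s j * r ^ j * B) (fun j => ?_) (fun j => ?_) ?_ ?_ ?_
    · exact (continuous_const.mul ((zpow_cont _).mul (Complex.continuous_conj.comp (ff_cont s hr hr1)))).aestronglyMeasurable
    · refine Eventually.of_forall fun x _ => ?_
      rw [norm_mul, norm_mul, norm_zpow, ee_norm, one_zpow, one_mul, RCLike.norm_conj, Complex.norm_real,
        Real.norm_of_nonneg (mul_nonneg (lc_nonneg hs.le j) (by positivity))]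
      refine mul_le_mul_of_nonneg_left ?_ (mul_nonneg (lc_nonneg hs.le j) (by positivity))
      rw [hB]
      exact ff_norm_le hs hr hr1 x
    · exact Eventually.of_forall fun x _ => (c_summable hs hr hr1).mul_right B
    · exact intervalIntegrable_const
    · refine Eventually.of_forall fun x _ => ?_
      have h1 := ((ff_hasSum s hr hr1 x).mul_left (ee x ^ a)).mul_right ((starRingEnd ℂ) (ff s r x))
      rw [mul_assoc, ff_mul_conj s hr hr1] at h1
      refine h1.congr_fun fun j => ?_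
      rw [mul_pow, zpow_add₀ (ee_ne x), zpow_natCast]
      push_cast
      ring
  refine h.congr_fun fun j => ?_
  rw [intervalIntegral.integral_const_mul, coef1 hs hr hr1]

/-- the Fourier coefficients of the weight -/
theorem coef {s : ℝ} (hs : 0 < s) {r : ℝ} (hr : 0 ≤ r) (hr1 : r < 1) (a : ℤ) :
    ∫ x in (0:ℝ)..1, ee x ^ a * ((‖1 - (r:ℂ) * ee x‖ ^ (-(2 * s)) : ℝ) : ℂ) =
      ((r ^ a.natAbs * ∑' j : ℕ, lc s (a.toNat + j) * lc s ((-a).toNat + j) * (r ^ 2) ^ j : ℝ) : ℂ) := by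
  have h := coef2 hs hr hr1 a
  rw [← tsum_mul_left, Complex.ofReal_tsum]
  rcases le_or_gt 0 a with h0 | h0
  · rw [← h.tsum_eq]
    refine tsum_congr fun j => ?_
    obtain ⟨n, rfl⟩ := Int.eq_ofNat_of_zero_le h0
    rw [if_pos (by positivity)]
    have e1 : ((n:ℤ) + j).toNat = n + j := by omega
    have e2 : ((n:ℤ)).toNat = n := by omega
    have e3 : (-(n:ℤ)).toNat = 0 := by omega
    have e4 : ((n:ℤ)).natAbs = n := by omega
    rw [e1, e2, e3, e4, zero_add]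
    push_cast
    ring
  · obtain ⟨n, hn⟩ : ∃ n : ℕ, a = -(n:ℤ) := ⟨a.natAbs, by omega⟩
    subst hn
    have hsum := (hasSum_nat_add_iff' n).mpr h
    have hz : ∑ i ∈ range n, ((lc s i * r ^ i : ℝ) : ℂ) * (if 0 ≤ -(n:ℤ) + i then ((lc s (-(n:ℤ) + i).toNat * r ^ (-(n:ℤ) + i).toNat : ℝ) : ℂ) else 0) = 0 := by
      refine sum_eq_zero fun i hi => ?_
      rw [mem_range] at hi
      rw [if_neg (by omega), mul_zero]
    rw [hz, sub_zero] at hsum
    rw [← hsum.tsum_eq]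
    refine tsum_congr fun j => ?_
    rw [if_pos (by push_cast; omega)]
    have e1 : (-(n:ℤ) + ((j + n : ℕ) : ℤ)).toNat = j := by omega
    have e2 : (-(n:ℤ)).toNat = 0 := by omega
    have e3 : (- -(n:ℤ)).toNat = n := by omega
    have e4 : (-(n:ℤ)).natAbs = n := by omega
    rw [e1, e2, e3, e4, zero_add, add_comm j n]
    push_cast
    ring

/-- the weight of a prime -/
noncomputable def Wp (s : ℝ) (p : ℕ) (x : ℝ) : ℝ := ‖1 - (((p:ℝ) ^ (-(1 / 2 : ℝ)) : ℝ) : ℂ) * ee x‖ ^ (-(2 * s))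

lemma rp_lt {p : ℕ} (hp : p.Prime) : (p:ℝ) ^ (-(1 / 2 : ℝ)) < 1 :=
  Real.rpow_lt_one_of_one_lt_of_neg (by exact_mod_cast hp.one_lt) (by norm_num)

lemma Wp_pos (s : ℝ) {p : ℕ} (hp : p.Prime) (x : ℝ) : 0 < Wp s p x := by
  unfold Wp
  refine Real.rpow_pos_of_pos (norm_pos_iff.mpr ?_) _
  intro h
  have h1 : ((((p:ℝ) ^ (-(1 / 2 : ℝ)) : ℝ)) : ℂ) * ee x = 1 := (sub_eq_zero.mp h).symm
  have h2 := re_norm (r := (p:ℝ) ^ (-(1 / 2 : ℝ))) (by positivity) x
  rw [h1] at h2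
  simp only [norm_one] at h2
  have := rp_lt hp
  linarith

lemma Wp_cont (s : ℝ) {p : ℕ} (hp : p.Prime) : Continuous (Wp s p) := by
  have h1 : Continuous fun x : ℝ => ‖1 - (((p:ℝ) ^ (-(1 / 2 : ℝ)) : ℝ) : ℂ) * ee x‖ := by
    have := ee_cont; fun_prop
  unfold Wp
  refine h1.rpow_const fun x => ?_
  left
  refine (norm_pos_iff.mpr ?_).ne'
  intro h
  have h1 : ((((p:ℝ) ^ (-(1 / 2 : ℝ)) : ℝ)) : ℂ) * ee x = 1 := (sub_eq_zero.mp h).symm
  have h2 := re_norm (r := (p:ℝ) ^ (-(1 / 2 : ℝ))) (by positivity) x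
  rw [h1] at h2
  simp only [norm_one] at h2
  have := rp_lt hp
  linarith

lemma Wp_coef {s : ℝ} (hs : 0 < s) {p : ℕ} (hp : p.Prime) (a : ℤ) :
    ∫ x in (0:ℝ)..1, ee x ^ a * ((Wp s p x : ℝ) : ℂ) =
      ((((p:ℝ) ^ (-(1 / 2 : ℝ))) ^ a.natAbs * Lf s 0 p a.toNat (-a).toNat : ℝ) : ℂ) := by
  unfold Wp
  rw [coef hs (by positivity) (rp_lt hp)]
  unfold Lf Pool.Agent.Y755.rp
  rw [add_zero]

end Pool.Agent.X110.NA
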