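import Pool.Agent.X110.NA9

set_option autoImplicit false

/-! Limits of weighted means of continuous functions on a torus. -/

namespace Pool.Agent.X110.NA

open Finset Filter Topology MeasureTheory

/-- the point of the torus -/
noncomputable def tau {m : ℕ} (y : Fin m → ℝ) : UnitAddTorus (Fin m) := fun j => ((y j : ℝ) : UnitAddCircle)

lemma tau_cont {m : ℕ} : Continuous (tau (m := m)) := by
  unfold tau
  refine continuous_pi fun j => ?_
  exact (AddCircle.continuous_mk' 1).comp (continuous_apply j)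

lemma mF_tau {m : ℕ} (v : Fin m → ℤ) (y : Fin m → ℝ) : UnitAddTorus.mFourier v (tau y) = ∏ j, ee (y j) ^ v j := by
  unfold UnitAddTorus.mFourier tau
  simp only [ContinuousMap.coe_mk]
  refine prod_congr rfl fun j _ => ?_
  rw [ee_zpow, fourier_coe_apply]
  congr 1
  push_cast
  ring

lemma f1_tau {m : ℕ} (y : Fin m → ℝ) (j : Fin m) : fourier 1 (tau y j) = ee (y j) := by
  have h := ee_zpow 1 (y j)
  rw [zpow_one] at h
  rw [h]
  unfold tau
  rw [fourier_coe_apply]
  congr 1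
  push_cast
  ring

theorem torus_limit {m : ℕ} (θ : Fin m → ℝ) (Z : ℝ → ℝ → ℝ) (D : ℝ → Set ℝ) (c : ℝ → ℝ)
    (hc : ∀ᶠ T in atTop, 0 ≤ c T) (hZ0 : ∀ T t, 0 ≤ Z T t) (hZi : ∀ᶠ T in atTop, IntegrableOn (Z T) (D T))
    (Wt : (Fin m → ℝ) → ℝ) (hW0 : ∀ x, 0 ≤ Wt x) (hWi : IntegrableOn Wt (Set.Icc 0 1))
    (hlim : ∀ v : Fin m → ℤ, Tendsto (fun T => (c T : ℂ) * ∫ t in D T, ((Z T t : ℝ) : ℂ) * ∏ j, ee (t * θ j) ^ v j) atTop
      (𝓝 (∫ x in Set.Icc (0 : Fin m → ℝ) 1, ((Wt x : ℝ) : ℂ) * ∏ j, ee (x j) ^ v j)))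
    (F : (Fin m → ℂ) → ℂ) (hF : ContinuousOn F {z | ∀ j, ‖z j‖ = 1}) :
    Tendsto (fun T => (c T : ℂ) * ∫ t in D T, ((Z T t : ℝ) : ℂ) * F fun j => ee (t * θ j)) atTop
      (𝓝 (∫ x in Set.Icc (0 : Fin m → ℝ) 1, ((Wt x : ℝ) : ℂ) * F fun j => ee (x j))) := by
  obtain ⟨A, hA⟩ : ∃ A : ℝ → C(UnitAddTorus (Fin m), ℂ) → ℂ, ∀ T G, A T G = (c T : ℂ) * ∫ t in D T, ((Z T t : ℝ) : ℂ) *
    G (tau fun j => t * θ j) := ⟨_, fun _ _ => rfl⟩
  obtain ⟨B, hB⟩ : ∃ B : C(UnitAddTorus (Fin m), ℂ) → ℂ, ∀ G, B G = ∫ x in Set.Icc (0 : Fin m → ℝ) 1, ((Wt x : ℝ) : ℂ) *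
    G (tau x) := ⟨_, fun _ => rfl⟩
  have hGt : ∀ G : C(UnitAddTorus (Fin m), ℂ), Continuous fun t : ℝ => G (tau fun j => t * θ j) := fun G =>
    G.continuous.comp (tau_cont.comp (by fun_prop))
  have hGx : ∀ G : C(UnitAddTorus (Fin m), ℂ), Continuous fun x : Fin m → ℝ => G (tau x) := fun G =>
    G.continuous.comp tau_cont
  -- integrability
  have iA : ∀ᶠ T in atTop, ∀ G : C(UnitAddTorus (Fin m), ℂ), IntegrableOn (fun t => ((Z T t : ℝ) : ℂ) * G (tau fun j => t * θ j)) (D T) := by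
    filter_upwards [hZi] with T hT G
    refine (hT.ofReal (𝕜 := ℂ)).mul_bdd (c := ‖G‖) (hGt G).aestronglyMeasurable ?_
    exact Eventually.of_forall fun t => G.norm_coe_le_norm _
  have iB : ∀ G : C(UnitAddTorus (Fin m), ℂ), IntegrableOn (fun x => ((Wt x : ℝ) : ℂ) * G (tau x)) (Set.Icc (0 : Fin m → ℝ) 1) := by
    intro G
    refine (hWi.ofReal (𝕜 := ℂ)).mul_bdd (c := ‖G‖) (hGx G).aestronglyMeasurable ?_
    exact Eventually.of_forall fun t => G.norm_coe_le_norm _
  -- linearity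
  have lA : ∀ᶠ T in atTop, (∀ G H, A T (G + H) = A T G + A T H) ∧ (∀ (z : ℂ) G, A T (z • G) = z * A T G) := by
    filter_upwards [iA] with T hT
    refine ⟨fun G H => ?_, fun z G => ?_⟩
    · rw [hA, hA, hA, ← mul_add, ← integral_add (hT G) (hT H)]
      simp only [ContinuousMap.add_apply, mul_add]
    · rw [hA, hA]
      have e : ∀ t, ((Z T t : ℝ) : ℂ) * (z • G) (tau fun j => t * θ j) = z * (((Z T t : ℝ) : ℂ) * G (tau fun j => t * θ j)) := by
        intro t
        rw [ContinuousMap.smul_apply, smul_eq_mul]; ring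
      simp_rw [e]
      rw [integral_const_mul]; ring
  have lB : (∀ G H, B (G + H) = B G + B H) ∧ (∀ (z : ℂ) G, B (z • G) = z * B G) := by
    refine ⟨fun G H => ?_, fun z G => ?_⟩
    · rw [hB, hB, hB, ← integral_add (iB G) (iB H)]
      simp only [ContinuousMap.add_apply, mul_add]
    · rw [hB, hB]
      have e : ∀ x, ((Wt x : ℝ) : ℂ) * (z • G) (tau x) = z * (((Wt x : ℝ) : ℂ) * G (tau x)) := by
        intro x
        rw [ContinuousMap.smul_apply, smul_eq_mul]; ring
      simp_rw [e]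
      rw [integral_const_mul]
  -- bounds
  obtain ⟨M, hM⟩ : ∃ M : ℝ, M = ∫ x in Set.Icc (0 : Fin m → ℝ) 1, Wt x := ⟨_, rfl⟩
  have hM0 : 0 ≤ M := by rw [hM]; exact setIntegral_nonneg measurableSet_Icc fun x _ => hW0 x
  have hmass : Tendsto (fun T => c T * ∫ t in D T, Z T t) atTop (𝓝 M) := by
    have h1 := hlim 0
    simp only [Pi.zero_apply, zpow_zero, prod_const_one, mul_one] at h1
    have h2 : Tendsto (fun T => ((c T * ∫ t in D T, Z T t : ℝ) : ℂ)) atTop (𝓝 ((M : ℝ) : ℂ)) := by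
      rw [hM, ← integral_complex_ofReal]
      refine h1.congr fun T => ?_
      rw [integral_complex_ofReal]
      push_cast; rfl
    exact (Complex.continuous_re.tendsto _).comp h2
  have bA : ∀ᶠ T in atTop, ∀ G, ‖A T G‖ ≤ (M + 1) * ‖G‖ := by
    filter_upwards [hc, hZi, hmass.eventually (gt_mem_nhds (by linarith : M < M + 1))] with T h1 h2 h3 G
    rw [hA, norm_mul, Complex.norm_real, Real.norm_of_nonneg h1]
    have h4 : ‖∫ t in D T, ((Z T t : ℝ) : ℂ) * G (tau fun j => t * θ j)‖ ≤ ∫ t in D T, Z T t * ‖G‖ := by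
      refine norm_integral_le_of_norm_le (h2.mul_const _) (Eventually.of_forall fun t => ?_)
      rw [norm_mul, Complex.norm_real, Real.norm_of_nonneg (hZ0 T t)]
      exact mul_le_mul_of_nonneg_left (G.norm_coe_le_norm _) (hZ0 T t)
    rw [integral_mul_const] at h4
    calc c T * ‖∫ t in D T, ((Z T t : ℝ) : ℂ) * G (tau fun j => t * θ j)‖ ≤ c T * ((∫ t in D T, Z T t) * ‖G‖) :=
          mul_le_mul_of_nonneg_left h4 h1
      _ = (c T * ∫ t in D T, Z T t) * ‖G‖ := by ring
      _ ≤ (M + 1) * ‖G‖ := mul_le_mul_of_nonneg_right h3.le (norm_nonneg _)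
  have bB : ∀ G, ‖B G‖ ≤ (M + 1) * ‖G‖ := by
    intro G
    rw [hB]
    have h4 : ‖∫ x in Set.Icc (0 : Fin m → ℝ) 1, ((Wt x : ℝ) : ℂ) * G (tau x)‖ ≤ ∫ x in Set.Icc (0 : Fin m → ℝ) 1, Wt x * ‖G‖ := by
      refine norm_integral_le_of_norm_le (hWi.mul_const _) (Eventually.of_forall fun t => ?_)
      rw [norm_mul, Complex.norm_real, Real.norm_of_nonneg (hW0 t)]
      exact mul_le_mul_of_nonneg_left (G.norm_coe_le_norm _) (hW0 t)
    rw [integral_mul_const, ← hM] at h4
    exact h4.trans (mul_le_mul_of_nonneg_right (by linarith) (norm_nonneg _))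
  -- the submodule
  let P : Submodule ℂ C(UnitAddTorus (Fin m), ℂ) :=
    { carrier := {G | Tendsto (fun T => A T G) atTop (𝓝 (B G))}
      add_mem' := by
        intro G H hG hH
        have h1 : Tendsto (fun T => A T G) atTop (𝓝 (B G)) := hG
        have h2 : Tendsto (fun T => A T H) atTop (𝓝 (B H)) := hH
        show Tendsto (fun T => A T (G + H)) atTop (𝓝 (B (G + H)))
        rw [lB.1]
        refine (h1.add h2).congr' ?_
        filter_upwards [lA] with T hT
        rw [hT.1]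
      zero_mem' := by
        show Tendsto (fun T => A T 0) atTop (𝓝 (B 0))
        have e1 : ∀ T, A T 0 = 0 := by intro T; rw [hA]; simp
        have e2 : B 0 = 0 := by rw [hB]; simp
        simp_rw [e1]
        rw [e2]
        exact tendsto_const_nhds
      smul_mem' := by
        intro z G hG
        have h1 : Tendsto (fun T => A T G) atTop (𝓝 (B G)) := hG
        show Tendsto (fun T => A T (z • G)) atTop (𝓝 (B (z • G)))
        rw [lB.2]
        refine (h1.const_mul z).congr' ?_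
        filter_upwards [lA] with T hT
        rw [hT.2] }
  have hPmem : ∀ G, G ∈ P ↔ Tendsto (fun T => A T G) atTop (𝓝 (B G)) := fun G => Iff.rfl
  have hspan : Submodule.span ℂ (Set.range (UnitAddTorus.mFourier (d := Fin m))) ≤ P := by
    rw [Submodule.span_le]
    rintro _ ⟨v, rfl⟩
    show Tendsto (fun T => A T (UnitAddTorus.mFourier v)) atTop (𝓝 (B (UnitAddTorus.mFourier v)))
    rw [hB]
    simp_rw [hA, mF_tau]
    exact hlim v
  have hclosed : ∀ G : C(UnitAddTorus (Fin m), ℂ), G ∈ P := by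
    intro G
    have hG : G ∈ (Submodule.span ℂ (Set.range (UnitAddTorus.mFourier (d := Fin m)))).topologicalClosure := by
      rw [UnitAddTorus.span_mFourier_closure_eq_top]; trivial
    rw [hPmem, Metric.tendsto_nhds]
    intro ε hε
    obtain ⟨H, hH, hGH⟩ := Metric.mem_closure_iff.mp hG (ε / (3 * (M + 1))) (by positivity)
    have hHP := (hPmem H).mp (hspan hH)
    rw [Metric.tendsto_nhds] at hHP
    have hsub : ‖G - H‖ < ε / (3 * (M + 1)) := by rwa [← dist_eq_norm]
    have h3 : (M + 1) * ‖G - H‖ < ε / 3 := by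
      have := mul_lt_mul_of_pos_left hsub (by linarith : 0 < M + 1)
      refine this.trans_le (le_of_eq ?_)
      field_simp
    have sB : B G = B H + B (G - H) := by rw [← lB.1]; congr 1; abel
    filter_upwards [hHP (ε / 3) (by linarith), lA, bA] with T h1 h2 h4
    have sA : A T G = A T H + A T (G - H) := by rw [← h2.1]; congr 1; abel
    rw [dist_eq_norm] at h1 ⊢
    rw [sA, sB]
    have e : A T H + A T (G - H) - (B H + B (G - H)) = (A T H - B H) + A T (G - H) - B (G - H) := by ring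
    rw [e]
    have n1 := h4 (G - H)
    have n2 := bB (G - H)
    calc ‖(A T H - B H) + A T (G - H) - B (G - H)‖ ≤ ‖(A T H - B H) + A T (G - H)‖ + ‖B (G - H)‖ := norm_sub_le _ _
      _ ≤ ‖A T H - B H‖ + ‖A T (G - H)‖ + ‖B (G - H)‖ := by gcongr; exact norm_add_le _ _
      _ < ε := by linarith
  -- conclusion
  have hcont : Continuous fun x : UnitAddTorus (Fin m) => F fun j => fourier 1 (x j) := by
    refine hF.comp_continuous (continuous_pi fun j => ?_) fun x j => ?_
    · exact (map_continuous (fourier 1)).comp (continuous_apply j)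
    · rw [fourier_apply]; exact Circle.norm_coe _
  have h := (hPmem ⟨_, hcont⟩).mp (hclosed _)
  rw [hB] at h
  simp_rw [hA, ContinuousMap.coe_mk, f1_tau] at h
  exact h

end Pool.Agent.X110.NA
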