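import Pool.Agent.X110.NB3

set_option autoImplicit false

/-! Partial Euler products under the moment measures. -/

namespace Pool.Agent.X110.NA

open Finset Filter Topology MeasureTheory
open Pool.Agent.H306R2 (lc lc_zero lc_nonneg aF)

/-- slightly perturbed functions -/
lemma limit_perturb {m : ℕ} (θ : Fin m → ℝ) (Z : ℝ → ℝ → ℝ) (D : ℝ → Set ℝ) (c : ℝ → ℝ) {M : ℝ}
    (hc : ∀ᶠ T in atTop, 0 ≤ c T) (hZ0 : ∀ T t, 0 ≤ Z T t) (hZi : ∀ᶠ T in atTop, IntegrableOn (Z T) (D T))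
    (hmass : Tendsto (fun T => c T * ∫ t in D T, Z T t) atTop (𝓝 M))
    (F : UnitAddTorus (Fin m) → ℂ) (G : ℝ → UnitAddTorus (Fin m) → ℂ) (hF : Continuous F) (hG : ∀ᶠ T in atTop, Continuous (G T))
    (hGF : TendstoUniformly G F atTop) {L : ℂ}
    (hL : Tendsto (fun T => (c T : ℂ) * ∫ t in D T, ((Z T t : ℝ) : ℂ) * F (tau fun j => t * θ j)) atTop (𝓝 L)) :
    Tendsto (fun T => (c T : ℂ) * ∫ t in D T, ((Z T t : ℝ) : ℂ) * G T (tau fun j => t * θ j)) atTop (𝓝 L) := by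
  have hM1 : ∀ᶠ T in atTop, c T * ∫ t in D T, Z T t < |M| + 1 :=
    hmass.eventually (gt_mem_nhds (by linarith [le_abs_self M]))
  have htc : Continuous fun t : ℝ => tau fun j : Fin m => t * θ j := tau_cont.comp (by fun_prop)
  have hdiff : Tendsto (fun T => ((c T : ℂ) * ∫ t in D T, ((Z T t : ℝ) : ℂ) * G T (tau fun j => t * θ j)) -
      (c T : ℂ) * ∫ t in D T, ((Z T t : ℝ) : ℂ) * F (tau fun j => t * θ j)) atTop (𝓝 0) := by
    rw [Metric.tendsto_nhds]
    intro ε hε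
    have h1 := Metric.tendstoUniformly_iff.mp hGF (ε / (2 * (|M| + 1))) (by positivity)
    filter_upwards [h1, hM1, hc, hZi, hG] with T h2 h3 h4 h5 h6
    rw [dist_eq_norm, sub_zero, ← mul_sub]
    obtain ⟨CF, hCF⟩ : ∃ C : ℝ, ∀ x, ‖F x‖ ≤ C := by
      obtain ⟨C, hC⟩ := (isCompact_univ.exists_bound_of_continuousOn hF.continuousOn)
      exact ⟨C, fun x => hC x trivial⟩
    obtain ⟨CG, hCG⟩ : ∃ C : ℝ, ∀ x, ‖G T x‖ ≤ C := by
      obtain ⟨C, hC⟩ := (isCompact_univ.exists_bound_of_continuousOn h6.continuousOn)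
      exact ⟨C, fun x => hC x trivial⟩
    have i1 : IntegrableOn (fun t => ((Z T t : ℝ) : ℂ) * G T (tau fun j => t * θ j)) (D T) :=
      (h5.ofReal (𝕜 := ℂ)).mul_bdd (c := CG) (h6.comp htc).aestronglyMeasurable (Eventually.of_forall fun t => hCG _)
    have i2 : IntegrableOn (fun t => ((Z T t : ℝ) : ℂ) * F (tau fun j => t * θ j)) (D T) :=
      (h5.ofReal (𝕜 := ℂ)).mul_bdd (c := CF) (hF.comp htc).aestronglyMeasurable (Eventually.of_forall fun t => hCF _)
    rw [← integral_sub i1 i2, norm_mul, Complex.norm_real, Real.norm_of_nonneg h4]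
    have h7 : ‖∫ t in D T, (((Z T t : ℝ) : ℂ) * G T (tau fun j => t * θ j) - ((Z T t : ℝ) : ℂ) * F (tau fun j => t * θ j))‖ ≤
        ∫ t in D T, Z T t * (ε / (2 * (|M| + 1))) := by
      refine norm_integral_le_of_norm_le (h5.mul_const _) (Eventually.of_forall fun t => ?_)
      rw [← mul_sub, norm_mul, Complex.norm_real, Real.norm_of_nonneg (hZ0 T t)]
      refine mul_le_mul_of_nonneg_left ?_ (hZ0 T t)
      have := h2 (tau fun j => t * θ j)
      rw [dist_comm, dist_eq_norm] at this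
      exact this.le
    rw [integral_mul_const] at h7
    calc c T * ‖∫ t in D T, (((Z T t : ℝ) : ℂ) * G T (tau fun j => t * θ j) - ((Z T t : ℝ) : ℂ) * F (tau fun j => t * θ j))‖ ≤
          c T * ((∫ t in D T, Z T t) * (ε / (2 * (|M| + 1)))) := mul_le_mul_of_nonneg_left h7 h4
      _ = (c T * ∫ t in D T, Z T t) * (ε / (2 * (|M| + 1))) := by ring
      _ ≤ (|M| + 1) * (ε / (2 * (|M| + 1))) := mul_le_mul_of_nonneg_right h3.le (by positivity)
      _ = ε / 2 := by field_simp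
      _ < ε := by linarith
  have := hdiff.add hL
  simpa using this

/-- the Euler product over finitely many primes, on the torus -/
noncomputable def Ep {m : ℕ} (p : Fin m → ℕ) (e δ : ℝ) (x : UnitAddTorus (Fin m)) : ℂ :=
  ((∏ j, ‖1 - (((p j : ℝ) ^ (-(1 / 2 + δ)) : ℝ) : ℂ) * (starRingEnd ℂ) (fourier 1 (x j))‖ ^ e : ℝ) : ℂ)

lemma Ep_ne {m : ℕ} {p : Fin m → ℕ} (hp : ∀ j, (p j).Prime) {δ : ℝ} (hδ : -(1 / 2) < δ) (x : UnitAddTorus (Fin m)) (j : Fin m) :
    ‖1 - (((p j : ℝ) ^ (-(1 / 2 + δ)) : ℝ) : ℂ) * (starRingEnd ℂ) (fourier 1 (x j))‖ ≠ 0 := by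
  refine (norm_pos_iff.mpr ?_).ne'
  intro h
  have h1 : (((p j : ℝ) ^ (-(1 / 2 + δ)) : ℝ) : ℂ) * (starRingEnd ℂ) (fourier 1 (x j)) = 1 := (sub_eq_zero.mp h).symm
  have h2 := congrArg norm h1
  rw [norm_mul, RCLike.norm_conj, fourier_apply, Circle.norm_coe, mul_one, Complex.norm_real, norm_one, Real.norm_of_nonneg (by positivity)] at h2
  have h3 : (p j : ℝ) ^ (-(1 / 2 + δ)) < 1 :=
    Real.rpow_lt_one_of_one_lt_of_neg (by exact_mod_cast (hp j).one_lt) (by linarith)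
  linarith

lemma Ep_contOn {m : ℕ} {p : Fin m → ℕ} (hp : ∀ j, (p j).Prime) (e : ℝ) :
    ContinuousOn (Function.uncurry (Ep p e)) (Set.Ioi (-(1 / 2)) ×ˢ Set.univ) := by
  unfold Ep Function.uncurry
  refine Complex.continuous_ofReal.comp_continuousOn (continuousOn_finsetProd _ fun j _ => ?_)
  refine ContinuousOn.rpow_const ?_ fun q hq => Or.inl (Ep_ne hp hq.1 q.2 j)
  refine ContinuousOn.norm (continuousOn_const.sub (ContinuousOn.mul ?_ ?_))
  · refine Complex.continuous_ofReal.comp_continuousOn ?_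
    refine Continuous.continuousOn ?_
    have hp0 : (p j : ℝ) ≠ 0 := by exact_mod_cast (hp j).ne_zero
    refine Continuous.rpow continuous_const (by fun_prop) fun q => Or.inl hp0
  · refine Continuous.continuousOn ?_
    exact Complex.continuous_conj.comp ((map_continuous (fourier 1)).comp ((continuous_apply j).comp continuous_snd))

lemma Ep_cont {m : ℕ} {p : Fin m → ℕ} (hp : ∀ j, (p j).Prime) (e : ℝ) {δ : ℝ} (hδ : -(1 / 2) < δ) : Continuous (Ep p e δ) := by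
  have h := (Ep_contOn hp e).comp_continuous (f := fun x : UnitAddTorus (Fin m) => (δ, x)) (by fun_prop) fun x => ⟨hδ, trivial⟩
  exact h

lemma Ep_unif {m : ℕ} {p : Fin m → ℕ} (hp : ∀ j, (p j).Prime) (e : ℝ) {δ : ℝ → ℝ} (hδ : Tendsto δ atTop (𝓝 0)) :
    TendstoUniformly (fun T => Ep p e (δ T)) (Ep p e 0) atTop := by
  have h : TendstoUniformly (Ep p e) (Ep p e 0) (𝓝 0) :=
    ContinuousOn.tendstoUniformly (U := Set.Ioi (-(1 / 2))) (Ioi_mem_nhds (by norm_num)) (Ep_contOn hp e)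
  intro u hu
  exact hδ.eventually (h u hu)

/-- the value at the point which belongs to `t` -/
lemma Ep_tau {m : ℕ} {p : Fin m → ℕ} (hp : ∀ j, (p j).Prime) (e δ t : ℝ) :
    Ep p e δ (tau fun j => t * (Real.log (p j) / (2 * Real.pi))) =
      ((∏ j, ‖1 - ((p j : ℕ) : ℂ) ^ (-(1 / 2 + δ + Complex.I * t))‖ ^ e : ℝ) : ℂ) := by
  unfold Ep
  congr 1
  refine prod_congr rfl fun j _ => ?_
  congr 3
  rw [f1_tau, ee_conj]
  have hp0 : (0:ℝ) < p j := by exact_mod_cast (hp j).pos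
  have hpc : ((p j : ℕ) : ℂ) ≠ 0 := by exact_mod_cast (hp j).ne_zero
  have e0 : (-(1 / 2 + δ + Complex.I * t) : ℂ) = ((-(1 / 2 + δ) : ℝ) : ℂ) + -(Complex.I * t) := by push_cast; ring
  rw [e0, Complex.cpow_add _ _ hpc, Complex.ofReal_cpow hp0.le]
  congr 1
  · rw [Complex.cpow_def_of_ne_zero hpc]
    unfold ee
    rw [← Complex.exp_neg, ← Complex.natCast_log]
    congr 1
    have hpi : (Real.pi : ℂ) ≠ 0 := by exact_mod_cast Real.pi_ne_zero
    push_cast
    field_simp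

/-- on the unit box -/
lemma Ep_box {m : ℕ} {p : Fin m → ℕ} (e : ℝ) (x : Fin m → ℝ) :
    Ep p e 0 (tau x) = ((∏ j, ‖1 - (((p j : ℝ) ^ (-(1 / 2 : ℝ)) : ℝ) : ℂ) * ee (x j)‖ ^ e : ℝ) : ℂ) := by
  unfold Ep
  congr 1
  refine prod_congr rfl fun j _ => ?_
  congr 1
  rw [f1_tau, add_zero, ← Complex.norm_conj]
  simp

end Pool.Agent.X110.NA
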