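import Pool.Agent.X110.NA8

set_option autoImplicit false

/-! Lower bound for the mean square distance from real powers of zeta to arbitrary Dirichlet polynomials. -/

namespace Pool.Agent.X110.NA

open Finset Filter MeasureTheory MonoidAlgebra Topology
open Pool.Agent.Y755
open Pool.Agent.W184.NZ
open Pool.Agent.Y753.NL
open Pool.Agent.Y753.SH
open Pool.Agent.Y753.SHR
open Pool.Agent.H306R2 (dv dv_nonneg dv_one aF aF_pos)

/-- the Dirichlet polynomial with given coefficients -/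
noncomputable def bp (δ : ℝ) (b : ℕ → ℂ) (L : ℕ) (t : ℝ) : ℂ :=
  ∑ n ∈ Icc 1 L, b n * (n:ℂ) ^ (-(1 / 2 + (δ:ℂ) + t * Complex.I))

lemma bp_cont (δ : ℝ) (b : ℕ → ℂ) (L : ℕ) : Continuous (bp δ b L) := by
  unfold bp
  refine continuous_finsetSum _ fun n hn => continuous_const.mul ?_
  have hn0 : (n:ℂ) ≠ 0 := by
    rw [mem_Icc] at hn
    exact_mod_cast (show n ≠ 0 by omega)
  refine Continuous.const_cpow (by fun_prop) (Or.inl hn0)

/-- the mean square of a Dirichlet polynomial from below -/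
theorem mv_lower {δ : ℝ} (hδ : 0 < δ) (hδ1 : δ ≤ 1 / 2) (b : ℕ → ℂ) {L : ℕ} {T : ℝ} :
    (T - 2 * (L:ℝ) ^ 4) * ∑ n ∈ Icc 1 L, ‖b n‖ ^ 2 * wδ δ n ≤ ∫ t in (0:ℝ)..T, ‖bp δ b L t‖ ^ 2 := by
  classical
  obtain ⟨A, hA⟩ : ∃ A : PC, A = ∑ n ∈ Icc 1 L, single n (b n) := ⟨_, rfl⟩
  obtain ⟨g, hg⟩ : ∃ g : P1, g = ∑ n ∈ Icc 1 L, single n ‖b n‖ := ⟨_, rfl⟩
  have hAc : ∀ q, A.coeff q = if q ∈ Icc 1 L then b q else 0 := by
    intro q
    rw [hA, coeff_sum, Finsupp.finsetSum_apply]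
    simp_rw [coeff_single, Finsupp.single_apply]
    rw [sum_ite_eq']
  have hgc : ∀ q, g.coeff q = if q ∈ Icc 1 L then ‖b q‖ else 0 := by
    intro q
    rw [hg, coeff_sum, Finsupp.finsetSum_apply]
    simp_rw [coeff_single, Finsupp.single_apply]
    rw [sum_ite_eq']
  have hdo : Do g A := by
    intro q
    rw [hAc, hgc]
    split_ifs
    · exact le_rfl
    · simp
  have hsub : g.coeff.support ⊆ Icc 1 L := by
    intro q hq
    rw [Finsupp.mem_support_iff, hgc] at hq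
    by_contra h
    rw [if_neg h] at hq
    exact hq rfl
  have hbd : Bd1 (L:ℝ) g := by
    intro q hq
    have := hsub hq
    rw [mem_Icc] at this
    exact ⟨by omega, by exact_mod_cast this.2⟩
  have hb := bil hδ.le hdo hdo hbd hbd hsub 0 T
  rw [sub_zero] at hb
  have e1 : ∀ t : ℝ, ec (1 / 2 + δ + t * Complex.I) A * (starRingEnd ℂ) (ec (1 / 2 + δ + t * Complex.I) A) =
      ((‖bp δ b L t‖ ^ 2 : ℝ) : ℂ) := by
    intro t
    rw [Complex.mul_conj, Complex.normSq_eq_norm_sq]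
    congr 3
    rw [hA, map_sum]
    exact sum_congr rfl fun n _ => ec_single _ _ _
  have e2 : dg δ (Icc 1 L) A A = ((∑ n ∈ Icc 1 L, ‖b n‖ ^ 2 * wδ δ n : ℝ) : ℂ) := by
    unfold dg
    push_cast
    refine sum_congr rfl fun n hn => ?_
    rw [hAc, if_pos hn, Complex.mul_conj, Complex.normSq_eq_norm_sq]
    push_cast
    ring
  simp_rw [e1] at hb
  rw [intervalIntegral.integral_ofReal, e2, ← Complex.ofReal_mul, ← Complex.ofReal_sub, Complex.norm_real, Real.norm_eq_abs] at hb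
  -- the size of the coefficients
  have h1 : l1' g = ∑ n ∈ Icc 1 L, ‖b n‖ := by
    rw [l1'_eq hsub]
    refine sum_congr rfl fun n hn => ?_
    rw [hgc, if_pos hn, abs_of_nonneg (norm_nonneg _)]
  have h2 : l1' g * l1' g ≤ (L:ℝ) ^ 3 * ∑ n ∈ Icc 1 L, ‖b n‖ ^ 2 * wδ δ n := by
    have h3 : (∑ n ∈ Icc 1 L, ‖b n‖) ^ 2 ≤ ((Icc 1 L).card : ℝ) * ∑ n ∈ Icc 1 L, ‖b n‖ ^ 2 := sq_sum_le_card_mul_sum_sq
    rw [Nat.card_Icc, Nat.add_sub_cancel] at h3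
    have h4 : ∑ n ∈ Icc 1 L, ‖b n‖ ^ 2 ≤ (L:ℝ) ^ 2 * ∑ n ∈ Icc 1 L, ‖b n‖ ^ 2 * wδ δ n := by
      rw [mul_sum]
      refine sum_le_sum fun n hn => ?_
      rw [mem_Icc] at hn
      have n0 : (0:ℝ) < n := by exact_mod_cast hn.1
      have n1 : (1:ℝ) ≤ n := by exact_mod_cast hn.1
      have nL : (n:ℝ) ≤ L := by exact_mod_cast hn.2
      have h5 : 1 ≤ (L:ℝ) ^ 2 * wδ δ n := by
        unfold wδ
        have h6 : (n:ℝ) ^ (2 * δ) ≤ n := by
          calc (n:ℝ) ^ (2 * δ) ≤ (n:ℝ) ^ (1:ℝ) := Real.rpow_le_rpow_of_exponent_le n1 (by linarith)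
            _ = n := Real.rpow_one _
        have h7 : (1:ℝ) / n ≤ (n:ℝ) ^ (-(2 * δ)) := by
          rw [Real.rpow_neg n0.le, one_div]
          exact inv_anti₀ (by positivity) h6
        have h8 : (1:ℝ) ≤ (L:ℝ) ^ 2 * ((1:ℝ) / n * ((1:ℝ) / n)) := by
          have e8 : (L:ℝ) ^ 2 * ((1:ℝ) / n * ((1:ℝ) / n)) = (L / n) ^ 2 := by field_simp
          rw [e8]
          exact one_le_pow₀ ((one_le_div n0).mpr nL)
        refine h8.trans ?_
        have h9 : (1:ℝ) / n * ((1:ℝ) / n) ≤ (n:ℝ) ^ (-(2 * δ)) * (1 / n) := mul_le_mul_of_nonneg_right h7 (by positivity)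
        exact mul_le_mul_of_nonneg_left h9 (by positivity)
      calc ‖b n‖ ^ 2 = ‖b n‖ ^ 2 * 1 := by ring
        _ ≤ ‖b n‖ ^ 2 * ((L:ℝ) ^ 2 * wδ δ n) := mul_le_mul_of_nonneg_left h5 (by positivity)
        _ = _ := by ring
    rw [h1, ← sq]
    refine h3.trans ?_
    calc (L:ℝ) * ∑ n ∈ Icc 1 L, ‖b n‖ ^ 2 ≤ (L:ℝ) * ((L:ℝ) ^ 2 * ∑ n ∈ Icc 1 L, ‖b n‖ ^ 2 * wδ δ n) :=
          mul_le_mul_of_nonneg_left h4 (by positivity)
      _ = _ := by ring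
  have h3 := (abs_le.mp hb).1
  have h4 : 2 * (L:ℝ) * (l1' g * l1' g) ≤ 2 * (L:ℝ) ^ 4 * ∑ n ∈ Icc 1 L, ‖b n‖ ^ 2 * wδ δ n := by
    calc 2 * (L:ℝ) * (l1' g * l1' g) ≤ 2 * (L:ℝ) * ((L:ℝ) ^ 3 * ∑ n ∈ Icc 1 L, ‖b n‖ ^ 2 * wδ δ n) :=
          mul_le_mul_of_nonneg_left h2 (by positivity)
      _ = _ := by ring
  have h5 : (T - 2 * (L:ℝ) ^ 4) * ∑ n ∈ Icc 1 L, ‖b n‖ ^ 2 * wδ δ n =
      T * (∑ n ∈ Icc 1 L, ‖b n‖ ^ 2 * wδ δ n) - 2 * (L:ℝ) ^ 4 * ∑ n ∈ Icc 1 L, ‖b n‖ ^ 2 * wδ δ n := by ring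
  rw [h5]
  linarith

/-- the difference of the polynomial of `ζ^s` of length `L` and an arbitrary polynomial of length `N ≤ L` -/
lemma diff_lower {s δ : ℝ} (hδ : 0 < δ) (hδ1 : δ ≤ 1 / 2) (c : ℕ → ℂ) {N L : ℕ} (hNL : N ≤ L) {T : ℝ}
    (hT : 2 * (L:ℝ) ^ 4 ≤ T) :
    (T - 2 * (L:ℝ) ^ 4) * ((∑ n ∈ Icc 1 L, g2 s δ n) - ∑ n ∈ Icc 1 N, g2 s δ n) ≤
      ∫ t in (0:ℝ)..T, ‖pr δ (fun _ : Fin 1 => s) (fun _ => 0) L t - bp δ c N t‖ ^ 2 := by
  obtain ⟨b, hb⟩ : ∃ b : ℕ → ℂ, ∀ n, b n = ((dv s n : ℝ) : ℂ) - if n ≤ N then c n else 0 := ⟨_, fun _ => rfl⟩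
  have hsub : Icc 1 N ⊆ Icc 1 L := Icc_subset_Icc_right hNL
  have e1 : ∀ t, pr δ (fun _ : Fin 1 => s) (fun _ => 0) L t - bp δ c N t = bp δ b L t := by
    intro t
    rw [pr_one]
    unfold bp
    have e2 : ∑ n ∈ Icc 1 N, c n * (n:ℂ) ^ (-(1 / 2 + (δ:ℂ) + t * Complex.I)) =
        ∑ n ∈ Icc 1 L, (if n ≤ N then c n else 0) * (n:ℂ) ^ (-(1 / 2 + (δ:ℂ) + t * Complex.I)) := by
      rw [← sum_subset hsub]
      · refine sum_congr rfl fun n hn => ?_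
        rw [mem_Icc] at hn
        rw [if_pos hn.2]
      · intro n hn hn'
        rw [mem_Icc] at hn hn'
        rw [if_neg (fun h => hn' ⟨hn.1, h⟩), zero_mul]
    rw [e2, ← sum_sub_distrib]
    refine sum_congr rfl fun n _ => ?_
    rw [hb]; ring
  simp_rw [e1]
  refine le_trans ?_ (mv_lower hδ hδ1 b)
  refine mul_le_mul_of_nonneg_left ?_ (by linarith)
  have h1 : ∑ n ∈ Icc 1 N, g2 s δ n = ∑ n ∈ Icc 1 L, if n ≤ N then g2 s δ n else 0 := by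
    rw [← sum_subset hsub]
    · refine sum_congr rfl fun n hn => ?_
      rw [mem_Icc] at hn
      rw [if_pos hn.2]
    · intro n hn hn'
      rw [mem_Icc] at hn hn'
      rw [if_neg (fun h => hn' ⟨hn.1, h⟩)]
  rw [h1, ← sum_sub_distrib]
  refine sum_le_sum fun n _ => ?_
  have hw : 0 ≤ wδ δ n := wδ_nonneg _ _
  by_cases h : n ≤ N
  · rw [if_pos h, sub_self]
    positivity
  · rw [if_neg h, sub_zero, hb, if_neg h, sub_zero, Complex.norm_real, Real.norm_eq_abs, sq_abs]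
    unfold g2
    exact le_rfl

/-- a quadratic inequality with a small parameter -/
lemma young_sq {η : ℝ} (hη : 0 < η) (a b : ℂ) : ‖a‖ ^ 2 ≤ (1 + η) * ‖b‖ ^ 2 + (1 + 1 / η) * ‖b - a‖ ^ 2 := by
  have h1 : ‖a‖ ≤ ‖b‖ + ‖b - a‖ := by
    have := norm_sub_le b (b - a)
    rwa [sub_sub_cancel] at this
  have h2 : ‖a‖ ^ 2 ≤ (‖b‖ + ‖b - a‖) ^ 2 := pow_le_pow_left₀ (norm_nonneg _) h1 2
  have h3 : 0 ≤ (1 / η) * (η * ‖b‖ - ‖b - a‖) ^ 2 := by positivity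
  have h4 : (1 / η) * (η * ‖b‖ - ‖b - a‖) ^ 2 = η * ‖b‖ ^ 2 - 2 * (‖b‖ * ‖b - a‖) + (1 / η) * ‖b - a‖ ^ 2 := by
    field_simp
    ring
  nlinarith

/-- **the threshold for the length, from below**: no Dirichlet polynomial of the same length does better -/
theorem thr_lower (hDG : S_DIAGR) (hST : S_STARR) {δ : ℝ → ℝ} (hδ : Tendsto δ atTop (𝓝 0))
    (hδL : Tendsto (fun T : ℝ => δ T * Real.log T) atTop atTop)
    {R : Set ℝ} (hR : R.Countable) (hR0 : ∀ r ∈ R, 0 < r) :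
    ∃ w : ℝ → ℝ → ℂ, (∀ T, Measurable (w T)) ∧
      (∀ᶠ T in atTop, ∀ u : ℝ, riemannZeta (1 / 2 + δ T + (u : ℂ) * Complex.I) ≠ 0 →
        Complex.exp (w T u) = riemannZeta (1 / 2 + δ T + (u : ℂ) * Complex.I)) ∧
      ∀ s ∈ R, s ≤ 2 → ∀ (N : ℝ → ℕ) (l : ℝ), Tendsto (fun T => δ T * Real.log (N T)) atTop (𝓝 l) →
        Tendsto (fun T : ℝ => (2 * δ T) ^ (s ^ 2) / T *
          ∫ t in Set.Icc 0 T, ‖zr (w T) (δ T) (fun _ : Fin 1 => s) (fun _ => 0) t -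
            pr (δ T) (fun _ : Fin 1 => s) (fun _ => 0) (N T) t‖ ^ 2) atTop (𝓝 (aF s * (1 - Fd s (2 * l)))) ∧
        ∀ (c : ℝ → ℕ → ℂ) (ε : ℝ), 0 < ε → ∀ᶠ T in atTop, aF s * (1 - Fd s (2 * l)) - ε ≤ (2 * δ T) ^ (s ^ 2) / T *
          ∫ t in Set.Icc 0 T, ‖zr (w T) (δ T) (fun _ : Fin 1 => s) (fun _ => 0) t - bp (δ T) (c T) (N T) t‖ ^ 2 := by
  obtain ⟨w, hwm, hw, hm⟩ := thr_small hDG hST hδ hδL (S := {0}) (Set.countable_singleton 0) hR hR0
  have hpos := pos_path hδL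
  have hlt : ∀ᶠ T in atTop, δ T < 1 / 2 := hδ.eventually (gt_mem_nhds (by norm_num))
  refine ⟨w, hwm, hw, fun s hs hs2 N l hN => ?_⟩
  have hs0 := hR0 s hs
  obtain ⟨hL0, hlim⟩ := hm s hs hs2 0 (Set.mem_singleton 0)
  refine ⟨hlim N l hN, fun c ε hε => ?_⟩
  obtain ⟨B, hB⟩ : ∃ B, B = aF s * (1 - Fd s (2 * l)) := ⟨_, rfl⟩
  rw [← hB]
  obtain ⟨z, hz⟩ : ∃ z : ℝ → ℝ → ℂ, ∀ T t, z T t = zr (w T) (δ T) (fun _ : Fin 1 => s) (fun _ => 0) t := ⟨_, fun _ _ => rfl⟩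
  obtain ⟨q, hq⟩ : ∃ q : ℝ → ℝ → ℂ, ∀ T t, q T t = pr (δ T) (fun _ : Fin 1 => s) (fun _ => 0) (L0 T) t := ⟨_, fun _ _ => rfl⟩
  obtain ⟨r, hr⟩ : ∃ r : ℝ → ℝ → ℂ, ∀ T t, r T t = bp (δ T) (c T) (N T) t := ⟨_, fun _ _ => rfl⟩
  simp_rw [← hz, ← hq] at hL0
  simp_rw [← hz, ← hr]
  -- the polynomial part from below
  have hL := L0_log hpos hδL
  have h1 := (full_path hs0 hpos hδ hL).sub (partial_sums hs0 hpos hδ hN)
  have e1 : aF s - aF s * Fd s (2 * l) = B := by rw [hB]; ring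
  rw [e1] at h1
  have hNL : ∀ᶠ T in atTop, N T ≤ L0 T := by
    have h2 : ∀ᶠ T in atTop, δ T * Real.log (N T) < l + 1 := hN.eventually (gt_mem_nhds (lt_add_one _))
    filter_upwards [h2, hL.eventually_ge_atTop (max (l + 1) 1), hpos] with T t1 t2 t3
    have t4 := (le_max_left _ _).trans t2
    have t5 := (le_max_right _ _).trans t2
    by_contra hcon
    push Not at hcon
    have hL1 : 1 ≤ L0 T := by
      rcases Nat.eq_zero_or_pos (L0 T) with h | h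
      · rw [h] at t5
        simp only [Nat.cast_zero, Real.log_zero, mul_zero] at t5
        linarith
      · exact h
    have h3 : Real.log (L0 T) ≤ Real.log (N T) := Real.log_le_log (by exact_mod_cast hL1) (by exact_mod_cast hcon.le)
    have h4 := mul_le_mul_of_nonneg_left h3 t3.le
    linarith
  have h2 : Tendsto (fun T : ℝ => (1 - 2 * ((L0 T : ℝ) ^ 4 / T)) *
      ((2 * δ T) ^ (s ^ 2) * (∑ n ∈ Icc 1 (L0 T), g2 s (δ T) n) - (2 * δ T) ^ (s ^ 2) * ∑ n ∈ Icc 1 (N T), g2 s (δ T) n))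
      atTop (𝓝 B) := by
    have := ((tendsto_const_nhds (x := (1:ℝ))).sub (L0_four.const_mul 2)).mul h1
    simpa using this
  have hsmall : ∀ᶠ T : ℝ in atTop, (L0 T : ℝ) ^ 4 / T < 1 / 2 := L0_four.eventually (gt_mem_nhds (by norm_num))
  have hY : ∀ᶠ T in atTop, B - ε / 4 ≤ (2 * δ T) ^ (s ^ 2) / T * ∫ t in Set.Icc 0 T, ‖q T t - r T t‖ ^ 2 := by
    filter_upwards [h2.eventually (lt_mem_nhds (show B - ε / 4 < B by linarith)), hpos, eventually_gt_atTop 0, hlt, hNL, hsmall] with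
      T t1 t2 t3 t4 t5 t6
    refine t1.le.trans ?_
    have hT : 2 * (L0 T : ℝ) ^ 4 ≤ T := by
      rw [div_lt_iff₀ t3] at t6
      linarith
    have h3 := diff_lower (s := s) t2 t4.le (c T) t5 hT
    rw [intervalIntegral.integral_of_le t3.le, ← integral_Icc_eq_integral_Ioc] at h3
    simp_rw [← hq, ← hr] at h3
    have h4 : 0 ≤ (2 * δ T) ^ (s ^ 2) / T := by positivity
    refine le_trans (le_of_eq ?_) (mul_le_mul_of_nonneg_left h3 h4)
    field_simp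
  -- transfer
  have hzm : ∀ T, Measurable (z T) := fun T => by
    have e : z T = zr (w T) (δ T) (fun _ : Fin 1 => s) (fun _ => 0) := funext (hz T)
    rw [e]; exact zr_meas (hwm T) (δ T) _ _
  have hqc : ∀ T, Continuous (q T) := fun T => by
    have e : q T = pr (δ T) (fun _ : Fin 1 => s) (fun _ => 0) (L0 T) := funext (hq T)
    rw [e]; exact pr_cont (δ T) (fun _ => hs0.le) _ _
  have hrc : ∀ T, Continuous (r T) := fun T => by
    have e : r T = bp (δ T) (c T) (N T) := funext (hr T)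
    rw [e]; exact bp_cont _ _ _
  have hzi : ∀ᶠ T in atTop, IntegrableOn (fun t => ‖z T t‖ ^ 2) (Set.Icc 0 T) := by
    filter_upwards [hlt, hw] with T h1 h2
    have hza : IntegrableOn (fun t => za (δ T) 0 t ^ (2 * s)) (Set.Icc 0 T) := ic h1 0 (by positivity)
    refine Integrable.congr hza ?_
    filter_upwards [ae_restrict_of_ae (zeros_ae (δ T) (0 * δ T))] with t ht
    have n1 := zr_norm (w := w T) (δ := δ T) (κ := fun _ : Fin 1 => s) (a := fun _ => 0) (t := t) fun _ => h2 _ ht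
    rw [Fin.prod_univ_one] at n1
    rw [hz, n1]
  have hint : ∀ᶠ T in atTop, IntegrableOn (fun t => ‖z T t - q T t‖ ^ 2) (Set.Icc 0 T) ∧
      IntegrableOn (fun t => ‖z T t - r T t‖ ^ 2) (Set.Icc 0 T) := by
    filter_upwards [hzi] with T h1
    have hsq : ∀ {f : ℝ → ℂ}, Continuous f → IntegrableOn (fun t => ‖z T t - f t‖ ^ 2) (Set.Icc 0 T) := by
      intro f hf
      refine Integrable.mono' ((h1.const_mul 2).add (((hf.norm.pow 2).continuousOn.integrableOn_compact isCompact_Icc).const_mul 2))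
        (((hzm T).sub hf.measurable).norm.pow_const 2).aestronglyMeasurable (Eventually.of_forall fun t => ?_)
      rw [Real.norm_of_nonneg (by positivity)]
      exact sq_sub_le _ _
    exact ⟨hsq (hqc T), hsq (hrc T)⟩
  have hc0 : ∀ᶠ T in atTop, 0 ≤ (2 * δ T) ^ (s ^ 2) / T := by
    filter_upwards [hpos, eventually_gt_atTop 0] with T t1 t2
    positivity
  obtain ⟨η, hη⟩ : ∃ η : ℝ, η = ε / (4 * (|B| + 1)) := ⟨_, rfl⟩
  have hη0 : 0 < η := by rw [hη]; positivity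
  have hηB : η * B ≤ ε / 4 := by
    rw [hη]
    have h3 : B ≤ |B| + 1 := (le_abs_self B).trans (by linarith)
    rw [div_mul_eq_mul_div, div_le_iff₀ (by positivity)]
    nlinarith [abs_nonneg B]
  have hZ : ∀ᶠ T in atTop, (1 + 1 / η) * ((2 * δ T) ^ (s ^ 2) / T * ∫ t in Set.Icc 0 T, ‖z T t - q T t‖ ^ 2) < ε / 4 := by
    have := hL0.const_mul (1 + 1 / η)
    rw [mul_zero] at this
    exact this.eventually (gt_mem_nhds (by positivity))
  filter_upwards [hY, hint, hc0, hZ] with T t1 t2 t3 t4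
  obtain ⟨X, hX⟩ : ∃ X, X = (2 * δ T) ^ (s ^ 2) / T * ∫ t in Set.Icc 0 T, ‖z T t - r T t‖ ^ 2 := ⟨_, rfl⟩
  rw [← hX]
  by_cases hXB : B ≤ X
  · linarith
  · push Not at hXB
    have h3 : (2 * δ T) ^ (s ^ 2) / T * ∫ t in Set.Icc 0 T, ‖q T t - r T t‖ ^ 2 ≤
        (1 + η) * X + (1 + 1 / η) * ((2 * δ T) ^ (s ^ 2) / T * ∫ t in Set.Icc 0 T, ‖z T t - q T t‖ ^ 2) := by
      have h4 : ∫ t in Set.Icc 0 T, ‖q T t - r T t‖ ^ 2 ≤ (1 + η) * (∫ t in Set.Icc 0 T, ‖z T t - r T t‖ ^ 2) +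
          (1 + 1 / η) * ∫ t in Set.Icc 0 T, ‖z T t - q T t‖ ^ 2 := by
        rw [← integral_const_mul, ← integral_const_mul, ← integral_add (t2.2.const_mul _) (t2.1.const_mul _)]
        refine integral_mono (((((hqc T).sub (hrc T)).norm.pow 2).continuousOn).integrableOn_compact isCompact_Icc)
          ((t2.2.const_mul _).add (t2.1.const_mul _)) fun t => ?_
        have h5 := young_sq hη0 (q T t - r T t) (z T t - r T t)
        have e5 : z T t - r T t - (q T t - r T t) = z T t - q T t := by ring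
        rw [e5] at h5
        exact h5
      refine (mul_le_mul_of_nonneg_left h4 t3).trans (le_of_eq ?_)
      rw [hX]; ring
    have h4 : η * X ≤ η * B := mul_le_mul_of_nonneg_left hXB.le hη0.le
    nlinarith

end Pool.Agent.X110.NA
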