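import Pool.Agent.X110.NA5
import Pool.Agent.Y901.SHR.Diag

set_option autoImplicit false

/-! Twisted diagonals for products of shifted divisor functions: the Euler product. -/

namespace Pool.Agent.X110.NA

open Finset Filter Topology
open Pool.Agent.Y755
open Pool.Agent.Y753.SH (dk tk S_DIAGR)
open Pool.Agent.Y901.SHR (Hy Fr Ef Fr_zero Fr_one Fr_mult Fr_norm Fr_summable Fr_pp_summable dk_mult dk_norm prod_continuous prod_zero_apply)
open Pool.Agent.H306R2 (dv dv_nonneg dv_one dv_prime_pow lc lc_zero lc_nonneg aF)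

section general

variable {f : ArithmeticFunction ℂ}

lemma mf_eq_prod (hf : f.IsMultiplicative) {n : ℕ} (hn : n ≠ 0) {S : Finset ℕ} (hS : n.primeFactors ⊆ S) :
    f n = ∏ p ∈ S, f (p ^ n.factorization p) := by
  rw [hf.multiplicative_factorization f hn]
  exact Finsupp.prod_of_support_subset _ (by simpa using hS) _ (fun p _ => by rw [pow_zero]; exact hf.map_one)

lemma mf_three (hf : f.IsMultiplicative) {m a b : ℕ} (hm : m ≠ 0) (ha : a ≠ 0) (hb : b ≠ 0) (hab : a.Coprime b) :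
    f (m * (a * b)) * f m = f (m * a) * f (m * b) := by
  obtain ⟨S, hS⟩ : ∃ S : Finset ℕ, S = m.primeFactors ∪ (a.primeFactors ∪ b.primeFactors) := ⟨_, rfl⟩
  have h1 : (m * (a * b)).primeFactors ⊆ S := by
    rw [Nat.primeFactors_mul hm (mul_ne_zero ha hb), Nat.primeFactors_mul ha hb, hS]
  have h2 : m.primeFactors ⊆ S := by rw [hS]; exact subset_union_left
  have h3 : (m * a).primeFactors ⊆ S := by
    rw [Nat.primeFactors_mul hm ha, hS]
    exact union_subset_union_right subset_union_left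
  have h4 : (m * b).primeFactors ⊆ S := by
    rw [Nat.primeFactors_mul hm hb, hS]
    exact union_subset_union_right subset_union_right
  rw [mf_eq_prod hf (mul_ne_zero hm (mul_ne_zero ha hb)) h1, mf_eq_prod hf hm h2,
    mf_eq_prod hf (mul_ne_zero hm ha) h3, mf_eq_prod hf (mul_ne_zero hm hb) h4, ← prod_mul_distrib, ← prod_mul_distrib]
  refine prod_congr rfl fun p _ => ?_
  rw [Nat.factorization_mul hm (mul_ne_zero ha hb), Nat.factorization_mul ha hb, Nat.factorization_mul hm ha,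
    Nat.factorization_mul hm hb]
  simp only [Finsupp.add_apply]
  by_cases hpa : a.factorization p = 0
  · rw [hpa, zero_add, add_zero]; ring
  · have hpb : b.factorization p = 0 := by
      by_contra h
      have h5 : p ∈ a.primeFactors := by
        rw [← Nat.support_factorization]; exact Finsupp.mem_support_iff.mpr hpa
      have h6 : p ∈ b.primeFactors := by
        rw [← Nat.support_factorization]; exact Finsupp.mem_support_iff.mpr h
      exact (disjoint_left.mp hab.disjoint_primeFactors h5) h6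
    rw [hpb, add_zero, add_zero]

lemma mf_mul_pow (hf : f.IsMultiplicative) {m p : ℕ} (hm : m ≠ 0) (hp : p.Prime) (e : ℕ) :
    f (m * p ^ e) * f (p ^ m.factorization p) = f (p ^ (m.factorization p + e)) * f m := by
  obtain ⟨S, hS⟩ : ∃ S : Finset ℕ, S = insert p m.primeFactors := ⟨_, rfl⟩
  have hpe : p ^ e ≠ 0 := pow_ne_zero _ hp.ne_zero
  have h1 : (m * p ^ e).primeFactors ⊆ S := by
    rw [Nat.primeFactors_mul hm hpe, hS]
    refine union_subset (subset_insert _ _) ?_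
    intro q hq
    have h2 := Nat.prime_of_mem_primeFactors hq
    have h3 := h2.dvd_of_dvd_pow (Nat.dvd_of_mem_primeFactors hq)
    rw [(Nat.prime_dvd_prime_iff_eq h2 hp).mp h3]
    exact mem_insert_self _ _
  have h2 : m.primeFactors ⊆ S := by rw [hS]; exact subset_insert _ _
  have hpS : p ∈ S := by rw [hS]; exact mem_insert_self _ _
  rw [mf_eq_prod hf (mul_ne_zero hm hpe) h1, mf_eq_prod hf hm h2, ← mul_prod_erase S _ hpS,
    ← mul_prod_erase S (fun q => f (q ^ m.factorization q)) hpS]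
  have e1 : ∏ q ∈ S.erase p, f (q ^ (m * p ^ e).factorization q) = ∏ q ∈ S.erase p, f (q ^ m.factorization q) := by
    refine prod_congr rfl fun q hq => ?_
    rw [mem_erase] at hq
    rw [Nat.factorization_mul hm hpe, Finsupp.add_apply, hp.factorization_pow, Finsupp.single_apply, if_neg hq.1.symm, add_zero]
  have e2 : (m * p ^ e).factorization p = m.factorization p + e := by
    rw [Nat.factorization_mul hm hpe, Finsupp.add_apply, hp.factorization_pow, Finsupp.single_apply, if_pos rfl]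
  rw [e1, e2]
  ring

end general

variable {k l : ℕ} (κ a : Fin k → ℝ) (ρ b : Fin l → ℝ) {s : ℝ}

/-- the twisted summand -/
noncomputable def Ft (x : ℝ) (m n r : ℕ) : ℂ :=
  dk x κ a (m * r) * (starRingEnd ℂ) (dk x ρ b (n * r)) * (((r : ℝ) ^ (-(1 + 2 * x)) : ℝ) : ℂ)

/-- the local factor -/
noncomputable def Lc (x : ℝ) (p u v : ℕ) : ℂ :=
  ∑' e : ℕ, dk x κ a (p ^ (u + e)) * (starRingEnd ℂ) (dk x ρ b (p ^ (v + e))) * ((((p ^ e : ℕ) : ℝ) ^ (-(1 + 2 * x)) : ℝ) : ℂ)

lemma Lc_zero (x : ℝ) (p : ℕ) : Lc κ a ρ b x p 0 0 = Ef κ a ρ b x p := by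
  unfold Lc Ef Fr
  simp only [zero_add]

lemma wd_eq (x : ℝ) {r : ℕ} (hr : r ≠ 0) : wδ x r = (r : ℝ) ^ (-(1 + 2 * x)) := by
  have r0 : (0:ℝ) < r := by exact_mod_cast Nat.pos_of_ne_zero hr
  unfold wδ
  rw [one_div, ← Real.rpow_neg_one (r:ℝ), ← Real.rpow_add r0]
  congr 1; ring

variable {κ ρ}

lemma Ft_norm (H : Hy κ ρ s) (x : ℝ) (m n r : ℕ) : ‖Ft κ a ρ b x m n r‖ ≤ dv s (m * r) * dv s (n * r) * wδ x r := by
  rcases Nat.eq_zero_or_pos r with h | h
  · subst h
    unfold Ft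
    rw [mul_zero, ArithmeticFunction.map_zero, zero_mul, zero_mul, norm_zero]
    exact mul_nonneg (mul_nonneg (dv_nonneg H.pos.le _) (dv_nonneg H.pos.le _)) (wδ_nonneg _ _)
  · rw [wd_eq x h.ne']
    unfold Ft
    rw [norm_mul, norm_mul, RCLike.norm_conj, Complex.norm_real,
      Real.norm_of_nonneg (Real.rpow_nonneg (Nat.cast_nonneg _) _)]
    have h1 := dk_norm κ a H.k0 x (m * r)
    have h2 := dk_norm ρ b H.r0 x (n * r)
    rw [H.ks] at h1
    rw [H.rs] at h2
    refine mul_le_mul_of_nonneg_right ?_ (Real.rpow_nonneg (Nat.cast_nonneg _) _)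
    exact mul_le_mul h1 h2 (norm_nonneg _) ((norm_nonneg _).trans h1)

lemma Ft_summable (H : Hy κ ρ s) {x : ℝ} (hx : 0 < x) {m n : ℕ} (hm : m ≠ 0) (hn : n ≠ 0) :
    Summable fun r => ‖Ft κ a ρ b x m n r‖ :=
  Summable.of_nonneg_of_le (fun _ => norm_nonneg _) (fun r => Ft_norm a b H x m n r) (tw_summable H.pos hx hm hn)

/-- the twisted sum through the Euler product -/
theorem Ft_tsum (H : Hy κ ρ s) {x : ℝ} (hx : 0 < x) {m n : ℕ} (hm : m ≠ 0) (hn : n ≠ 0)
    (hf : ∀ p ∈ (m * n).primeFactors, dk x κ a (p ^ m.factorization p) ≠ 0)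
    (hg : ∀ p ∈ (m * n).primeFactors, dk x ρ b (p ^ n.factorization p) ≠ 0)
    (hE : ∀ p ∈ (m * n).primeFactors, Ef κ a ρ b x p ≠ 0) :
    ∑' r, Ft κ a ρ b x m n r = (∑' r, Fr κ a ρ b x r) *
      ∏ p ∈ (m * n).primeFactors, (Lc κ a ρ b x p (m.factorization p) (n.factorization p) / Ef κ a ρ b x p) := by
  have hmf := dk_mult κ a x
  have hmg := dk_mult ρ b x
  have hmn : m.primeFactors ⊆ (m * n).primeFactors := by rw [Nat.primeFactors_mul hm hn]; exact subset_union_left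
  have hmn' : n.primeFactors ⊆ (m * n).primeFactors := by rw [Nat.primeFactors_mul hm hn]; exact subset_union_right
  have hfm : dk x κ a m ≠ 0 := by rw [mf_eq_prod hmf hm hmn]; exact prod_ne_zero_iff.mpr hf
  have hgn : dk x ρ b n ≠ 0 := by rw [mf_eq_prod hmg hn hmn']; exact prod_ne_zero_iff.mpr hg
  have hgn' : (starRingEnd ℂ) (dk x ρ b n) ≠ 0 := (map_ne_zero _).mpr hgn
  obtain ⟨G, hG⟩ : ∃ G : ℕ → ℂ, ∀ r, G r = Ft κ a ρ b x m n r / (dk x κ a m * (starRingEnd ℂ) (dk x ρ b n)) := ⟨_, fun _ => rfl⟩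
  have hG0 : G 0 = 0 := by
    rw [hG]; unfold Ft
    rw [mul_zero, ArithmeticFunction.map_zero, zero_mul, zero_mul, zero_div]
  have hG1 : G 1 = 1 := by
    rw [hG]; unfold Ft
    rw [mul_one, mul_one, Nat.cast_one, Real.one_rpow, Complex.ofReal_one, mul_one]
    exact div_self (mul_ne_zero hfm hgn')
  have hGm : ∀ {c d : ℕ}, c.Coprime d → G (c * d) = G c * G d := by
    intro c d hcd
    rcases Nat.eq_zero_or_pos c with hc | hc
    · subst hc; rw [zero_mul, hG0, zero_mul]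
    rcases Nat.eq_zero_or_pos d with hd | hd
    · subst hd; rw [mul_zero, hG0, mul_zero]
    have h1 := mf_three hmf hm hc.ne' hd.ne' hcd
    have h2 := mf_three hmg hn hc.ne' hd.ne' hcd
    have h2' : (starRingEnd ℂ) (dk x ρ b (n * (c * d))) * (starRingEnd ℂ) (dk x ρ b n) =
        (starRingEnd ℂ) (dk x ρ b (n * c)) * (starRingEnd ℂ) (dk x ρ b (n * d)) := by
      rw [← map_mul, h2, map_mul]
    rw [hG, hG, hG]
    unfold Ft
    rw [Nat.cast_mul, Real.mul_rpow (Nat.cast_nonneg _) (Nat.cast_nonneg _), Complex.ofReal_mul, div_mul_div_comm,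
      div_eq_div_iff (mul_ne_zero hfm hgn') (mul_ne_zero (mul_ne_zero hfm hgn') (mul_ne_zero hfm hgn'))]
    linear_combination ((starRingEnd ℂ) (dk x ρ b (n * (c * d))) * (starRingEnd ℂ) (dk x ρ b n) *
      ((((c : ℝ) ^ (-(1 + 2 * x)) : ℝ) : ℂ) * (((d : ℝ) ^ (-(1 + 2 * x)) : ℝ) : ℂ)) * (dk x κ a m * (starRingEnd ℂ) (dk x ρ b n))) * h1 +
      (dk x κ a (m * c) * dk x κ a (m * d) *
      ((((c : ℝ) ^ (-(1 + 2 * x)) : ℝ) : ℂ) * (((d : ℝ) ^ (-(1 + 2 * x)) : ℝ) : ℂ)) * (dk x κ a m * (starRingEnd ℂ) (dk x ρ b n))) * h2'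
  have hGs : Summable fun r => ‖G r‖ := by
    refine ((Ft_summable a b H hx hm hn).div_const ‖dk x κ a m * (starRingEnd ℂ) (dk x ρ b n)‖).congr fun r => ?_
    rw [hG, norm_div]
  have h1 := EulerProduct.eulerProduct_hasProd hG1 hGm hGs hG0
  have h0 := EulerProduct.eulerProduct_hasProd (f := Fr κ a ρ b x) (Fr_one κ a ρ b x)
    (fun {c d} hcd => Fr_mult κ a ρ b x hcd) (Fr_summable a b H hx) (Fr_zero κ a ρ b x)
  -- the local factors
  have hloc : ∀ p : ℕ, p.Prime → ∀ e : ℕ, G (p ^ e) * (dk x κ a (p ^ m.factorization p) * (starRingEnd ℂ) (dk x ρ b (p ^ n.factorization p))) =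
      dk x κ a (p ^ (m.factorization p + e)) * (starRingEnd ℂ) (dk x ρ b (p ^ (n.factorization p + e))) *
        ((((p ^ e : ℕ) : ℝ) ^ (-(1 + 2 * x)) : ℝ) : ℂ) := by
    intro p hp e
    have h2 := mf_mul_pow hmf hm hp e
    have h3 := mf_mul_pow hmg hn hp e
    have h3' : (starRingEnd ℂ) (dk x ρ b (n * p ^ e)) * (starRingEnd ℂ) (dk x ρ b (p ^ n.factorization p)) =
        (starRingEnd ℂ) (dk x ρ b (p ^ (n.factorization p + e))) * (starRingEnd ℂ) (dk x ρ b n) := by
      rw [← map_mul, h3, map_mul]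
    rw [hG]
    unfold Ft
    rw [div_mul_eq_mul_div, div_eq_iff (mul_ne_zero hfm hgn')]
    linear_combination ((starRingEnd ℂ) (dk x ρ b (n * p ^ e)) * (starRingEnd ℂ) (dk x ρ b (p ^ n.factorization p)) *
      ((((p ^ e : ℕ) : ℝ) ^ (-(1 + 2 * x)) : ℝ) : ℂ)) * h2 + (dk x κ a (p ^ (m.factorization p + e)) * dk x κ a m *
      ((((p ^ e : ℕ) : ℝ) ^ (-(1 + 2 * x)) : ℝ) : ℂ)) * h3'
  obtain ⟨Rf, hRf⟩ : ∃ Rf : Nat.Primes → ℂ, ∀ p, Rf p = if (p:ℕ) ∈ (m * n).primeFactors then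
    (∑' e : ℕ, G ((p:ℕ) ^ e)) / Ef κ a ρ b x p else 1 := ⟨_, fun _ => rfl⟩
  obtain ⟨S, hS⟩ : ∃ S : Finset Nat.Primes, S = Finset.subtype (fun p => p.Prime) (m * n).primeFactors := ⟨_, rfl⟩
  have hmemS : ∀ p : Nat.Primes, p ∈ S ↔ (p:ℕ) ∈ (m * n).primeFactors := by
    intro p
    rw [hS]
    exact Finset.mem_subtype
  have hRp : HasProd Rf (∏ p ∈ S, Rf p) := hasProd_prod_of_ne_finset_one fun p hp => by
    rw [hmemS] at hp
    rw [hRf, if_neg hp]
  have h2 := h0.mul hRp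
  have h3 : (fun p : Nat.Primes => (∑' e : ℕ, Fr κ a ρ b x ((p:ℕ) ^ e)) * Rf p) = fun p : Nat.Primes => ∑' e : ℕ, G ((p:ℕ) ^ e) := by
    funext p
    have e0 : ∑' e : ℕ, Fr κ a ρ b x ((p:ℕ) ^ e) = Ef κ a ρ b x p := rfl
    rw [hRf, e0]
    by_cases hp : (p:ℕ) ∈ (m * n).primeFactors
    · rw [if_pos hp, mul_div_cancel₀ _ (hE p hp)]
    · rw [if_neg hp, mul_one]
      rw [Nat.primeFactors_mul hm hn, notMem_union, ← Nat.support_factorization, ← Nat.support_factorization,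
        Finsupp.notMem_support_iff, Finsupp.notMem_support_iff] at hp
      unfold Ef
      refine tsum_congr fun e => ?_
      have h4 := hloc p p.2 e
      rw [hp.1, hp.2, pow_zero, zero_add, hmf.map_one, hmg.map_one, map_one, mul_one, mul_one] at h4
      rw [h4]
      rfl
  rw [h3] at h2
  have h4 := h1.unique h2
  have e1 : ∑' r, Ft κ a ρ b x m n r = (dk x κ a m * (starRingEnd ℂ) (dk x ρ b n)) * ∑' r, G r := by
    rw [← tsum_mul_left]
    refine tsum_congr fun r => ?_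
    rw [hG, mul_div_cancel₀ _ (mul_ne_zero hfm hgn')]
  have e3 : ∏ p ∈ S, Rf p = ∏ p ∈ (m * n).primeFactors, (Lc κ a ρ b x p (m.factorization p) (n.factorization p) /
      (dk x κ a (p ^ m.factorization p) * (starRingEnd ℂ) (dk x ρ b (p ^ n.factorization p))) / Ef κ a ρ b x p) := by
    refine prod_bij (fun p _ => (p:ℕ)) (fun p hp => (hmemS p).mp hp) (fun a _ b _ h => Subtype.ext h)
      (fun q hq => ⟨⟨q, Nat.prime_of_mem_primeFactors hq⟩, (hmemS _).mpr hq, rfl⟩) (fun p hp => ?_)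
    have hp' := (hmemS p).mp hp
    have hne : dk x κ a ((p:ℕ) ^ m.factorization p) * (starRingEnd ℂ) (dk x ρ b ((p:ℕ) ^ n.factorization p)) ≠ 0 :=
      mul_ne_zero (hf p hp') ((map_ne_zero _).mpr (hg p hp'))
    rw [hRf, if_pos hp']
    congr 1
    rw [eq_div_iff hne, ← tsum_mul_right]
    unfold Lc
    exact tsum_congr fun e => hloc p p.2 e
  rw [e1, h4, e3, mf_eq_prod hmf hm hmn, mf_eq_prod hmg hn hmn', map_prod, ← prod_mul_distrib, mul_left_comm, ← prod_mul_distrib]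
  congr 1
  refine prod_congr rfl fun p hp => ?_
  have h5 := hf p hp
  have h6 : (starRingEnd ℂ) (dk x ρ b (p ^ n.factorization p)) ≠ 0 := (map_ne_zero _).mpr (hg p hp)
  field_simp

end Pool.Agent.X110.NA
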