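import Pool.Agent.X110.NB7
import Pool.Agent.X110.NA6

set_option autoImplicit false

/-! Twisted mean values of products of shifted Dirichlet polynomials. -/

namespace Pool.Agent.X110.NA

open Finset Filter MeasureTheory MonoidAlgebra Topology
open Pool.Agent.Y755
open Pool.Agent.W184.NZ
open Pool.Agent.Y753.NL
open Pool.Agent.Y753.SH
open Pool.Agent.Y753.SHR
open Pool.Agent.Y901.SHR (Hy Fr Ef Fr_norm Fr_summable dk_mult dk_norm prod_continuous prod_zero_apply)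
open Pool.Agent.H306R2 (dv dv_nonneg dv_one dv_prime_pow lc lc_zero lc_nonneg aF aF_pos)

variable {k l : ℕ} {κ a : Fin k → ℝ} {ρ b : Fin l → ℝ} {s : ℝ}

lemma rp0_sq {p : ℕ} (hp : p.Prime) : rp 0 p ^ 2 = (p:ℝ)⁻¹ := by
  have hp0 : (0:ℝ) < p := by exact_mod_cast hp.pos
  unfold rp
  rw [← Real.rpow_natCast, ← Real.rpow_mul hp0.le]
  norm_num
  rw [Real.rpow_neg_one]

lemma dk_path (hks : ∑ j, κ j = s) (a : Fin k → ℝ) {δ : ℝ → ℝ} (hδ : Tendsto δ atTop (𝓝 0)) (n : ℕ) :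
    Tendsto (fun T => dk (δ T) κ a n) atTop (𝓝 ((dv s n : ℝ) : ℂ)) := by
  have h1 := (prod_continuous univ κ a n).tendsto 0
  rw [prod_zero_apply univ κ (fun j => a j * 0) (fun j _ => mul_zero _) n, hks] at h1
  exact h1.comp hδ

lemma Lc_path (H : Hy κ ρ s) (a : Fin k → ℝ) (b : Fin l → ℝ) {δ : ℝ → ℝ} (h0 : ∀ᶠ T in atTop, 0 < δ T)
    (hδ : Tendsto δ atTop (𝓝 0)) {p : ℕ} (hp : p.Prime) (u v : ℕ) :
    Tendsto (fun T => Lc κ a ρ b (δ T) p u v) atTop (𝓝 ((Lf s 0 p u v : ℝ) : ℂ)) := by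
  have hp0 : (0:ℝ) < p := by exact_mod_cast hp.pos
  have e0 : ((Lf s 0 p u v : ℝ) : ℂ) = ∑' e : ℕ, ((lc s (u + e) * lc s (v + e) * (rp 0 p ^ 2) ^ e : ℝ) : ℂ) := by
    unfold Lf
    rw [Complex.ofReal_tsum]
  rw [e0]
  unfold Lc
  refine tendsto_tsum_of_dominated_convergence (bound := fun e => lc s (u + e) * lc s (v + e) * (rp 0 p ^ 2) ^ e)
    (Lf_summable H.pos le_rfl hp u v) (fun e => ?_) ?_
  · have h1 := dk_path H.ks a hδ (p ^ (u + e))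
    have h2 := (Complex.continuous_conj.tendsto _).comp (dk_path H.rs b hδ (p ^ (v + e)))
    rw [dv_prime_pow s hp] at h1 h2
    have hpe : (0:ℝ) < ((p ^ e : ℕ) : ℝ) := by exact_mod_cast pow_pos hp.pos e
    have h3 : Tendsto (fun T => ((((p ^ e : ℕ) : ℝ) ^ (-(1 + 2 * δ T)) : ℝ) : ℂ)) atTop (𝓝 ((((rp 0 p ^ 2) ^ e : ℝ)) : ℂ)) := by
      refine (Complex.continuous_ofReal.tendsto _).comp ?_
      have hc : Continuous fun x : ℝ => ((p ^ e : ℕ) : ℝ) ^ (-(1 + 2 * x)) :=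
        (Real.continuous_const_rpow hpe.ne').comp (by fun_prop)
      refine (hc.tendsto' 0 _ ?_).comp hδ
      rw [rp0_sq hp]
      simp only [mul_zero, add_zero]
      rw [Real.rpow_neg_one]
      push_cast
      rw [inv_pow]
    have h4 := (h1.mul h2).mul h3
    rw [Complex.conj_ofReal, ← Complex.ofReal_mul, ← Complex.ofReal_mul] at h4
    exact h4
  · filter_upwards [h0] with T hT e
    rw [norm_mul, norm_mul, RCLike.norm_conj, Complex.norm_real,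
      Real.norm_of_nonneg (Real.rpow_nonneg (Nat.cast_nonneg _) _)]
    have h1 := dk_norm κ a H.k0 (δ T) (p ^ (u + e))
    have h2 := dk_norm ρ b H.r0 (δ T) (p ^ (v + e))
    rw [H.ks, dv_prime_pow s hp] at h1
    rw [H.rs, dv_prime_pow s hp] at h2
    have h3 : ((p ^ e : ℕ) : ℝ) ^ (-(1 + 2 * δ T)) ≤ (rp 0 p ^ 2) ^ e := by
      rw [rp0_sq hp, inv_pow]
      have h4 : (1:ℝ) ≤ ((p ^ e : ℕ) : ℝ) := by exact_mod_cast Nat.one_le_pow _ _ hp.pos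
      calc ((p ^ e : ℕ) : ℝ) ^ (-(1 + 2 * δ T)) ≤ ((p ^ e : ℕ) : ℝ) ^ (-1 : ℝ) :=
            Real.rpow_le_rpow_of_exponent_le h4 (by linarith)
        _ = _ := by rw [Real.rpow_neg_one]; push_cast; rfl
    exact mul_le_mul (mul_le_mul h1 h2 (norm_nonneg _) ((norm_nonneg _).trans h1)) h3 (Real.rpow_nonneg (Nat.cast_nonneg _) _)
      (mul_nonneg (lc_nonneg H.pos.le _) (lc_nonneg H.pos.le _))

/-- the limit of the mixed moment -/
noncomputable def Mx {k l : ℕ} (κ a : Fin k → ℝ) (ρ b : Fin l → ℝ) : ℂ :=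
  ∏ j, ∏ i, (1 + Complex.I * ((a j - b i : ℝ) : ℂ) / 2) ^ (-((κ j * ρ i : ℝ) : ℂ))

/-- the arithmetic factor of the twist -/
noncomputable def Tf (s : ℝ) (m n : ℕ) : ℝ :=
  ∏ p ∈ (m * n).primeFactors, (Lf s 0 p (m.factorization p) (n.factorization p) / Lf s 0 p 0 0)

/-- the twisted sum along a path -/
theorem Ft_asym (H : Hy κ ρ s) (a : Fin k → ℝ) (b : Fin l → ℝ) {δ : ℝ → ℝ} (h0 : ∀ᶠ T in atTop, 0 < δ T)
    (hδ : Tendsto δ atTop (𝓝 0)) {m n : ℕ} (hm : m ≠ 0) (hn : n ≠ 0) :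
    Tendsto (fun T => (((2 * δ T) ^ (s ^ 2) : ℝ) : ℂ) * ∑' r, Ft κ a ρ b (δ T) m n r) atTop
      (𝓝 ((aF s : ℂ) * Mx κ a ρ b * ((Tf s m n : ℝ) : ℂ))) := by
  have hδ' : Tendsto δ atTop (𝓝[>] 0) := tendsto_nhdsWithin_iff.mpr ⟨hδ, h0⟩
  have h1 := (Pool.Agent.Y901.SHR.done k l κ a ρ b s H.pos H.k0 H.r0 H.ks H.rs).comp hδ'
  have h2 : Tendsto (fun T => ∏ p ∈ (m * n).primeFactors,
      (Lc κ a ρ b (δ T) p (m.factorization p) (n.factorization p) / Ef κ a ρ b (δ T) p)) atTop (𝓝 ((Tf s m n : ℝ) : ℂ)) := by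
    unfold Tf
    rw [Complex.ofReal_prod]
    refine tendsto_finsetProd _ fun p hp => ?_
    have hp' := Nat.prime_of_mem_primeFactors hp
    rw [Complex.ofReal_div]
    simp_rw [← Lc_zero κ a ρ b]
    refine (Lc_path H a b h0 hδ hp' _ _).div (Lc_path H a b h0 hδ hp' _ _) ?_
    exact_mod_cast (Lf_pos H.pos le_rfl hp' 0 0).ne'
  have h3 := h1.mul h2
  refine h3.congr' ?_
  have hf : ∀ᶠ T in atTop, ∀ p ∈ (m * n).primeFactors, dk (δ T) κ a (p ^ m.factorization p) ≠ 0 :=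
    (Filter.eventually_all_finset _).mpr fun p hp => by
      have hp' := Nat.prime_of_mem_primeFactors hp
      refine (dk_path H.ks a hδ _).eventually_ne ?_
      rw [dv_prime_pow s hp']
      exact_mod_cast (lc_pos H.pos _).ne'
  have hg : ∀ᶠ T in atTop, ∀ p ∈ (m * n).primeFactors, dk (δ T) ρ b (p ^ n.factorization p) ≠ 0 :=
    (Filter.eventually_all_finset _).mpr fun p hp => by
      have hp' := Nat.prime_of_mem_primeFactors hp
      refine (dk_path H.rs b hδ _).eventually_ne ?_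
      rw [dv_prime_pow s hp']
      exact_mod_cast (lc_pos H.pos _).ne'
  have hE : ∀ᶠ T in atTop, ∀ p ∈ (m * n).primeFactors, Ef κ a ρ b (δ T) p ≠ 0 :=
    (Filter.eventually_all_finset _).mpr fun p hp => by
      have hp' := Nat.prime_of_mem_primeFactors hp
      simp_rw [← Lc_zero κ a ρ b]
      refine (Lc_path H a b h0 hδ hp' 0 0).eventually_ne ?_
      exact_mod_cast (Lf_pos H.pos le_rfl hp' 0 0).ne'
  filter_upwards [h0, hf, hg, hE] with T t1 t2 t3 t4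
  rw [Ft_tsum a b H t1 hm hn t2 t3 t4]
  simp only [Function.comp_apply]
  rw [mul_assoc]
  rfl

/-- a finite part of the twisted sum -/
noncomputable def Fs {k l : ℕ} (κ a : Fin k → ℝ) (ρ b : Fin l → ℝ) (δ : ℝ) (m n L : ℕ) : ℂ :=
  ∑ r ∈ (Icc 1 L).filter (fun r => m * r ≤ L ∧ n * r ≤ L), Ft κ a ρ b δ m n r

lemma Fs_bd (H : Hy κ ρ s) (a : Fin k → ℝ) (b : Fin l → ℝ) {δ : ℝ} (hδ : 0 < δ) {m n : ℕ} (hm : m ≠ 0) (hn : n ≠ 0) (L : ℕ) :
    ‖(∑' r, Ft κ a ρ b δ m n r) - Fs κ a ρ b δ m n L‖ ≤ tw s δ m n - twF s δ m n L := by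
  obtain ⟨F, hF⟩ : ∃ F : Finset ℕ, F = (Icc 1 L).filter (fun r => m * r ≤ L ∧ n * r ≤ L) := ⟨_, rfl⟩
  have hs := tw_summable H.pos hδ hm hn
  have hc := (Ft_summable a b H hδ hm hn).of_norm
  have h1 : Fs κ a ρ b δ m n L = ∑' r, if r ∈ F then Ft κ a ρ b δ m n r else 0 := by
    unfold Fs
    rw [← hF, tsum_eq_sum (s := F) fun r hr => if_neg hr]
    exact sum_congr rfl fun r hr => (if_pos hr).symm
  have h2 : twF s δ m n L = ∑' r, if r ∈ F then dv s (m * r) * dv s (n * r) * wδ δ r else 0 := by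
    unfold twF
    rw [← hF, tsum_eq_sum (s := F) fun r hr => if_neg hr]
    exact sum_congr rfl fun r hr => (if_pos hr).symm
  have hsF : Summable fun r => if r ∈ F then dv s (m * r) * dv s (n * r) * wδ δ r else 0 :=
    summable_of_ne_finset_zero (s := F) fun r hr => if_neg hr
  have hcF : Summable fun r => if r ∈ F then Ft κ a ρ b δ m n r else 0 :=
    summable_of_ne_finset_zero (s := F) fun r hr => if_neg hr
  unfold tw
  rw [h1, h2, ← hs.tsum_sub hsF, ← hc.tsum_sub hcF]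
  refine tsum_of_norm_bounded (hs.sub hsF).hasSum fun r => ?_
  by_cases hr : r ∈ F
  · rw [if_pos hr, if_pos hr, sub_self, sub_self, norm_zero]
  · rw [if_neg hr, if_neg hr, sub_zero, sub_zero]
    exact Ft_norm a b H δ m n r

theorem Fs_path (H : Hy κ ρ s) (a : Fin k → ℝ) (b : Fin l → ℝ) {δ : ℝ → ℝ} (h0 : ∀ᶠ T in atTop, 0 < δ T)
    (hδ : Tendsto δ atTop (𝓝 0)) {m n : ℕ} (hm : m ≠ 0) (hn : n ≠ 0) {N : ℝ → ℕ}
    (hN : Tendsto (fun T => δ T * Real.log (N T)) atTop atTop) :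
    Tendsto (fun T => (((2 * δ T) ^ (s ^ 2) : ℝ) : ℂ) * Fs κ a ρ b (δ T) m n (N T)) atTop
      (𝓝 ((aF s : ℂ) * Mx κ a ρ b * ((Tf s m n : ℝ) : ℂ))) := by
  have h1 := Ft_asym H a b h0 hδ hm hn
  have h2 := (tw_asym H.pos h0 hδ hm hn).sub (twF_path H.pos h0 hδ hm hn hN)
  rw [sub_self] at h2
  have h3 : Tendsto (fun T => (((2 * δ T) ^ (s ^ 2) : ℝ) : ℂ) * (∑' r, Ft κ a ρ b (δ T) m n r) -
      (((2 * δ T) ^ (s ^ 2) : ℝ) : ℂ) * Fs κ a ρ b (δ T) m n (N T)) atTop (𝓝 0) := by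
    rw [tendsto_zero_iff_norm_tendsto_zero]
    refine squeeze_zero' (Eventually.of_forall fun T => norm_nonneg _) ?_ h2
    filter_upwards [h0] with T hT
    have h4 : 0 ≤ (2 * δ T) ^ (s ^ 2) := by positivity
    rw [← mul_sub, norm_mul, Complex.norm_real, Real.norm_of_nonneg h4, ← mul_sub]
    exact mul_le_mul_of_nonneg_left (Fs_bd H a b hT hm hn (N T)) h4
  have h4 := h1.sub h3
  rw [sub_zero] at h4
  refine h4.congr fun T => ?_
  ring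

/-- the polynomial at multiples, general coefficients -/
noncomputable def mD (f : ℕ → ℂ) (n L : ℕ) : PC := ∑ r ∈ Icc 1 L, single (n * r) (f r)

lemma mD_Do {s : ℝ} {f : ℕ → ℂ} (hf : ∀ r, ‖f r‖ ≤ dv s r) (n L : ℕ) : Do (mR s n L) (mD f n L) :=
  Do.sum fun r _ => Do.single (hf r)

lemma mD_coeff (f : ℕ → ℂ) (n L q : ℕ) : (mD f n L).coeff q = ∑ r ∈ Icc 1 L, if n * r = q then f r else 0 := by
  unfold mD
  rw [coeff_sum, Finsupp.finsetSum_apply]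
  simp_rw [coeff_single, Finsupp.single_apply]

lemma ec_mD (S : ℂ) (f : ℕ → ℂ) (n L : ℕ) : ec S (mD f n L) = (n:ℂ) ^ (-S) * ∑ r ∈ Icc 1 L, f r * (r:ℂ) ^ (-S) := by
  unfold mD
  rw [map_sum, mul_sum]
  refine sum_congr rfl fun r _ => ?_
  rw [ec_single, Nat.cast_mul, Complex.natCast_mul_natCast_cpow]
  ring

lemma combc_eq (f : ℕ → ℂ) {n : ℕ} (hn : n ≠ 0) (L r : ℕ) (x : ℕ) :
    (∑ a ∈ Icc 1 L, if n * a = n * (x * r) then f a else 0) = if x * r ≤ L ∧ 1 ≤ x * r then f (x * r) else 0 := by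
  have h1 : ∀ a, (if n * a = n * (x * r) then f a else 0) = if a = x * r then f a else 0 := by
    intro a
    have : n * a = n * (x * r) ↔ a = x * r := Nat.mul_right_inj hn
    simp only [this]
  simp_rw [h1]
  rw [sum_ite_eq']
  simp only [mem_Icc]
  by_cases h : x * r ≤ L ∧ 1 ≤ x * r
  · rw [if_pos h, if_pos ⟨h.2, h.1⟩]
  · rw [if_neg h, if_neg (fun h2 => h ⟨h2.2, h2.1⟩)]

/-- the diagonal of a twisted mean value -/
lemma dg_twc (f g : ℕ → ℂ) (δ : ℝ) {m n : ℕ} (hm : m ≠ 0) (hn : n ≠ 0) (hmn : m.Coprime n) (L : ℕ) :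
    dg δ (Icc 1 (n * m * L)) (mD f n L) (mD g m L) =
      ∑ r ∈ (Icc 1 L).filter (fun r => m * r ≤ L ∧ n * r ≤ L), f (m * r) * (starRingEnd ℂ) (g (n * r)) * ((wδ δ (n * m * r) : ℝ) : ℂ) := by
  obtain ⟨F, hF⟩ : ∃ F : ℕ → ℂ, ∀ q, F q = (∑ a ∈ Icc 1 L, if n * a = q then f a else 0) *
      (starRingEnd ℂ) (∑ b ∈ Icc 1 L, if m * b = q then g b else 0) * ((wδ δ q : ℝ) : ℂ) := ⟨_, fun _ => rfl⟩
  have e1 : dg δ (Icc 1 (n * m * L)) (mD f n L) (mD g m L) = ∑ q ∈ Icc 1 (n * m * L), F q := by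
    unfold dg
    refine sum_congr rfl fun q _ => ?_
    rw [mD_coeff, mD_coeff, hF]
  rw [e1]
  have hnm : n * m ≠ 0 := mul_ne_zero hn hm
  have hinj : Set.InjOn (fun r : ℕ => n * m * r) (Icc 1 L : Finset ℕ) := fun a _ b _ h =>
    Nat.eq_of_mul_eq_mul_left (Nat.pos_of_ne_zero hnm) h
  have h1 : ∑ q ∈ Icc 1 (n * m * L), F q = ∑ q ∈ (Icc 1 L).image (fun r => n * m * r), F q := by
    refine (sum_subset (fun q hq => ?_) fun q hq hq' => ?_).symm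
    · rw [mem_image] at hq
      obtain ⟨r, hr, rfl⟩ := hq
      rw [mem_Icc] at hr ⊢
      exact ⟨Nat.mul_pos (Nat.pos_of_ne_zero hnm) hr.1, Nat.mul_le_mul_left _ hr.2⟩
    · rw [hF]
      by_contra h0
      have h2 : (∑ a ∈ Icc 1 L, if n * a = q then f a else 0) ≠ 0 := fun h => h0 (by rw [h, zero_mul, zero_mul])
      have h3 : (∑ b ∈ Icc 1 L, if m * b = q then g b else 0) ≠ 0 := fun h => h0 (by rw [h, map_zero, mul_zero, zero_mul])
      obtain ⟨a, -, ha⟩ := exists_ne_zero_of_sum_ne_zero h2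
      obtain ⟨b, -, hb⟩ := exists_ne_zero_of_sum_ne_zero h3
      have ha' : n * a = q := by
        by_contra h'
        rw [if_neg h'] at ha
        exact ha rfl
      have hb' : m * b = q := by
        by_contra h'
        rw [if_neg h'] at hb
        exact hb rfl
      have hd : n * m ∣ q := (hmn.symm).mul_dvd_of_dvd_of_dvd ⟨a, ha'.symm⟩ ⟨b, hb'.symm⟩
      obtain ⟨r, hr⟩ := hd
      apply hq'
      rw [mem_image]
      rw [mem_Icc] at hq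
      refine ⟨r, ?_, hr.symm⟩
      rw [mem_Icc]
      constructor
      · rcases Nat.eq_zero_or_pos r with h | h
        · rw [h, mul_zero] at hr; omega
        · exact h
      · rw [hr] at hq
        exact Nat.le_of_mul_le_mul_left hq.2 (Nat.pos_of_ne_zero hnm)
  rw [h1, sum_image hinj, sum_filter]
  refine sum_congr rfl fun r hr => ?_
  rw [mem_Icc] at hr
  have e2 : n * m * r = n * (m * r) := by ring
  have e3 : n * m * r = m * (n * r) := by ring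
  have h4 : (∑ a ∈ Icc 1 L, if n * a = n * m * r then f a else 0) = if m * r ≤ L ∧ 1 ≤ m * r then f (m * r) else 0 := by
    rw [e2]; exact combc_eq f hn L r m
  have h5 : (∑ b ∈ Icc 1 L, if m * b = n * m * r then g b else 0) = if n * r ≤ L ∧ 1 ≤ n * r then g (n * r) else 0 := by
    rw [e3]; exact combc_eq g hm L r n
  have h6 : 1 ≤ m * r := Nat.mul_pos (Nat.pos_of_ne_zero hm) hr.1
  have h7 : 1 ≤ n * r := Nat.mul_pos (Nat.pos_of_ne_zero hn) hr.1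
  show F (n * m * r) = _
  rw [hF, h4, h5]
  by_cases h8 : m * r ≤ L
  · by_cases h9 : n * r ≤ L
    · rw [if_pos ⟨h8, h6⟩, if_pos ⟨h9, h7⟩, if_pos ⟨h8, h9⟩]
    · have h9' : ¬(n * r ≤ L ∧ 1 ≤ n * r) := fun h => h9 h.1
      have h9'' : ¬(m * r ≤ L ∧ n * r ≤ L) := fun h => h9 h.2
      rw [if_neg h9', if_neg h9'', map_zero, mul_zero, zero_mul]
  · have h8' : ¬(m * r ≤ L ∧ 1 ≤ m * r) := fun h => h8 h.1
    have h8'' : ¬(m * r ≤ L ∧ n * r ≤ L) := fun h => h8 h.1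
    rw [if_neg h8', if_neg h8'', zero_mul, zero_mul]

/-- the Dirichlet polynomial of a product -/
lemma pr_gen (δ : ℝ) (κ a : Fin k → ℝ) (L : ℕ) (t : ℝ) : pr δ κ a L t =
    ∑ r ∈ Icc 1 L, dk δ κ a r * (r:ℂ) ^ (-(1 / 2 + (δ:ℂ) + t * Complex.I)) := by
  unfold pr Dr
  rw [map_sum]
  refine sum_congr rfl fun r hr => ?_
  rw [ec_single]
  rfl

/-- the twisted mean value of a product of Dirichlet polynomials -/
theorem tw_mvc (H : Hy κ ρ s) (a : Fin k → ℝ) (b : Fin l → ℝ) {δ : ℝ} (hδ : 0 < δ) (hδ1 : δ ≤ 1 / 2) {m n : ℕ} (hm : m ≠ 0)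
    (hn : n ≠ 0) (hmn : m.Coprime n) (L : ℕ) (T : ℝ) :
    ‖(∫ t in (0:ℝ)..T, (pr δ κ a L t * (starRingEnd ℂ) (pr δ ρ b L t)) * tws m n t) -
      (T : ℂ) * (((((m:ℝ) * n) ^ (-(1 / 2 + δ)) : ℝ) : ℂ) * Fs κ a ρ b δ m n L)‖ ≤
      ((m:ℝ) * n) ^ (1 / 2 + δ) * (2 * (m * n * L) * (DD s δ * (L:ℝ) ^ 3)) := by
  have m0 : (0:ℝ) < m := by exact_mod_cast Nat.pos_of_ne_zero hm
  have n0 : (0:ℝ) < n := by exact_mod_cast Nat.pos_of_ne_zero hn
  have hmn0 : (0:ℝ) < (m:ℝ) * n := mul_pos m0 n0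
  have hM1 : n * L ≤ n * m * L := by
    calc n * L = n * 1 * L := by ring
      _ ≤ n * m * L := Nat.mul_le_mul_right _ (Nat.mul_le_mul_left _ (Nat.pos_of_ne_zero hm))
  have hM2 : m * L ≤ n * m * L := by
    calc m * L = 1 * m * L := by ring
      _ ≤ n * m * L := Nat.mul_le_mul_right _ (Nat.mul_le_mul_right _ (Nat.pos_of_ne_zero hn))
  have hsup : (mR s n L).coeff.support ⊆ Icc 1 (n * m * L) := by
    intro q hq
    have h1 := mR_Bd s hn hM1 q hq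
    rw [mem_Icc]
    exact ⟨Nat.pos_of_ne_zero h1.1, by exact_mod_cast h1.2⟩
  obtain ⟨f, hf⟩ : ∃ f : ℕ → ℂ, ∀ r, f r = dk δ κ a r := ⟨_, fun _ => rfl⟩
  obtain ⟨g, hg⟩ : ∃ g : ℕ → ℂ, ∀ r, g r = dk δ ρ b r := ⟨_, fun _ => rfl⟩
  have hfb : ∀ r, ‖f r‖ ≤ dv s r := fun r => by rw [hf, ← H.ks]; exact dk_norm κ a H.k0 δ r
  have hgb : ∀ r, ‖g r‖ ≤ dv s r := fun r => by rw [hg, ← H.rs]; exact dk_norm ρ b H.r0 δ r
  have hb := bil hδ.le (mD_Do hfb n L) (mD_Do hgb m L) (mR_Bd s hn hM1) (mR_Bd s hm hM2) hsup 0 T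
  rw [sub_zero, dg_twc f g δ hm hn hmn L] at hb
  have e1 : ∀ t : ℝ, ec (1 / 2 + δ + t * Complex.I) (mD f n L) * (starRingEnd ℂ) (ec (1 / 2 + δ + t * Complex.I) (mD g m L)) =
      ((((m:ℝ) * n) ^ (-(1 / 2 + δ)) : ℝ) : ℂ) * ((pr δ κ a L t * (starRingEnd ℂ) (pr δ ρ b L t)) * tws m n t) := by
    intro t
    rw [ec_mD, ec_mD]
    simp_rw [hf, hg]
    rw [← pr_gen, ← pr_gen, map_mul, mul_mul_mul_comm, tws_eq hm hn]
    ring
  have e2 : ∑ r ∈ (Icc 1 L).filter (fun r => m * r ≤ L ∧ n * r ≤ L), f (m * r) * (starRingEnd ℂ) (g (n * r)) * ((wδ δ (n * m * r) : ℝ) : ℂ) =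
      ((((m:ℝ) * n) ^ (-(1 + 2 * δ)) : ℝ) : ℂ) * Fs κ a ρ b δ m n L := by
    unfold Fs
    rw [mul_sum]
    refine sum_congr rfl fun r hr => ?_
    rw [mem_filter, mem_Icc] at hr
    have hr0 : r ≠ 0 := by omega
    rw [wδ_mul]
    have : wδ δ (n * m) = ((m:ℝ) * n) ^ (-(1 + 2 * δ)) := by
      rw [wd_eq δ (mul_ne_zero hn hm)]
      push_cast
      rw [mul_comm (n:ℝ) m]
    rw [this, wd_eq δ hr0, hf, hg]
    unfold Ft
    push_cast
    ring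
  simp_rw [e1] at hb
  rw [intervalIntegral.integral_const_mul, e2] at hb
  obtain ⟨I0, hI0⟩ : ∃ I0, I0 = ∫ t in (0:ℝ)..T, (pr δ κ a L t * (starRingEnd ℂ) (pr δ ρ b L t)) * tws m n t := ⟨_, rfl⟩
  rw [← hI0] at hb ⊢
  have e3 : ((m:ℝ) * n) ^ (1 / 2 + δ) * ((m:ℝ) * n) ^ (-(1 / 2 + δ)) = 1 := by
    rw [← Real.rpow_add hmn0]; simp
  have e4 : I0 - (T : ℂ) * (((((m:ℝ) * n) ^ (-(1 / 2 + δ)) : ℝ) : ℂ) * Fs κ a ρ b δ m n L) =
      ((((m:ℝ) * n) ^ (1 / 2 + δ) : ℝ) : ℂ) * (((((m:ℝ) * n) ^ (-(1 / 2 + δ)) : ℝ) : ℂ) * I0 -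
        ((T:ℝ):ℂ) * (((((m:ℝ) * n) ^ (-(1 + 2 * δ)) : ℝ) : ℂ) * Fs κ a ρ b δ m n L)) := by
    have e5 : ((m:ℝ) * n) ^ (1 / 2 + δ) * ((m:ℝ) * n) ^ (-(1 + 2 * δ)) = ((m:ℝ) * n) ^ (-(1 / 2 + δ)) := by
      rw [← Real.rpow_add hmn0]; congr 1; ring
    have e3' : ((((m:ℝ) * n) ^ (1 / 2 + δ) : ℝ) : ℂ) * ((((m:ℝ) * n) ^ (-(1 / 2 + δ)) : ℝ) : ℂ) = 1 := by
      rw [← Complex.ofReal_mul, e3, Complex.ofReal_one]
    have e5' : ((((m:ℝ) * n) ^ (1 / 2 + δ) : ℝ) : ℂ) * ((((m:ℝ) * n) ^ (-(1 + 2 * δ)) : ℝ) : ℂ) =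
        ((((m:ℝ) * n) ^ (-(1 / 2 + δ)) : ℝ) : ℂ) := by
      rw [← Complex.ofReal_mul, e5]
    have e6 : ((((m:ℝ) * n) ^ (1 / 2 + δ) : ℝ) : ℂ) * (((((m:ℝ) * n) ^ (-(1 / 2 + δ)) : ℝ) : ℂ) * I0) = I0 := by
      rw [← mul_assoc, e3', one_mul]
    rw [mul_sub, e6]
    congr 1
    rw [← e5']
    ring
  rw [e4, norm_mul, Complex.norm_real, Real.norm_of_nonneg (by positivity)]
  refine mul_le_mul_of_nonneg_left (hb.trans ?_) (by positivity)
  have h1 := mR_l1 H.pos.le n L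
  have h2 := mR_l1 H.pos.le m L
  have h3 := DN_l1 H.pos hδ hδ1 L
  have h4 : l1' (mR s n L) * l1' (mR s m L) ≤ DD s δ * (L:ℝ) ^ 3 := by
    refine le_trans ?_ h3
    rw [sq]
    exact mul_le_mul h1 h2 (l1'_nonneg _) (l1'_nonneg _)
  have h5 : (((n * m * L : ℕ) : ℝ)) = m * n * L := by push_cast; ring
  rw [h5]
  exact mul_le_mul_of_nonneg_left h4 (by positivity)

end Pool.Agent.X110.NA
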