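import Pool.Agent.Y746.OA.SSum
import Pool.Agent.Y746.CS.Par

set_option autoImplicit false

/-! Truncated moments of zeta of all real orders near the critical line. -/

namespace Pool.Agent.X110.ND

open Finset MeasureTheory Filter Topology
open Pool.Agent.H306R2 Pool.Agent.Y746.OA

noncomputable section

/-- the final numerical estimate -/
lemma numR {k D B : ℕ} {C1 L X T ρ i2 i2b V2 g s z Y w i4 i5 Ec : ℝ} (hT : 0 < T) (hC1 : 0 ≤ C1)
    (hL : 24 ≤ L) (hLc : 40 * (k + 2) + 32 + 260 + 128 * C1 + 2 + 2 ≤ L) (hX1 : 1 ≤ X)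
    (hXP : L ^ (D + B + 4) ≤ X)
    (hρ : ρ ≤ (k + 2) * (5 / L ^ (D + B + 3))) (hρ0 : 0 ≤ ρ)
    (hi2 : i2 ≤ T * (2 * L ^ D)) (hi20 : 0 ≤ i2)
    (hi2b : i2b ≤ 2 * (T * (2 * L ^ D))) (hi2b0 : 0 ≤ i2b)
    (hV2 : V2 ≤ 1 / L ^ (D + B + 2)) (hV20 : 0 ≤ V2)
    (hw : w ≤ X) (hw0 : 0 ≤ w) (hY : Y = L ^ (D + B + 3))
    (hEc : Ec ≤ L ^ 2) (hEc0 : 0 ≤ Ec)
    (hg : g ≤ Ec ^ 2 * (T * (2 * L ^ D * (X ^ 16)⁻¹) * (64 * X ^ 10))) (hg0 : 0 ≤ g)
    (hs : s ≤ Ec * (T * (2 * L ^ D) * (X ^ 4)⁻¹)) (hs0 : 0 ≤ s)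
    (hz : z ≤ C1 * (X ^ 16)⁻¹ * (T * L) * (64 * X ^ 10)) (hz0 : 0 ≤ z)
    (hi4 : i4 ≤ T * (2 * L ^ D)) (hi40 : 0 ≤ i4) (hi5 : i5 ≤ T * (2 * L ^ D * (X ^ 16)⁻¹)) :
    4 * ρ * i2 + 8 * V2 * i2b + (w + Y) * (g + s + z) + i4 / Y + i5 ≤ T / L ^ B := by
  have hL0 : 0 < L := by linarith
  have hL1 : 1 ≤ L := by linarith
  have hX0 : 0 < X := by linarith
  have hLX : ∀ n : ℕ, n ≤ D + B + 4 → L ^ n ≤ X := fun n hn => (pow_le_pow_right₀ hL1 hn).trans hXP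
  have hXi : X⁻¹ ≤ (L ^ (B + 1))⁻¹ := inv_anti₀ (by positivity) (hLX _ (by omega))
  have hk : (0:ℝ) ≤ k := Nat.cast_nonneg k
  set q := (L ^ (B + 1))⁻¹ with hq
  have hq0 : 0 < q := by positivity
  have hpos : 0 < L ^ D := by positivity
  -- first
  have t1 : 4 * ρ * i2 ≤ 40 * (k + 2) * (T * q) := by
    have e : L ^ (D + B + 3) = L ^ D * L ^ (B + 1) * L ^ 2 := by rw [← pow_add, ← pow_add]; congr 1
    have h2 : 1 ≤ L ^ 2 := one_le_pow₀ hL1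
    calc 4 * ρ * i2 ≤ 4 * ((k + 2) * (5 / L ^ (D + B + 3))) * (T * (2 * L ^ D)) := by gcongr
      _ = 40 * (k + 2) * (T * q) * (L ^ 2)⁻¹ := by rw [e, hq]; field_simp; ring
      _ ≤ 40 * (k + 2) * (T * q) * 1 := by gcongr; exact inv_le_one_of_one_le₀ h2
      _ = _ := by ring
  have t2 : 8 * V2 * i2b ≤ 32 * (T * q) := by
    have e : L ^ (D + B + 2) = L ^ D * L ^ (B + 1) * L := by rw [← pow_add, ← pow_succ]; congr 1
    calc 8 * V2 * i2b ≤ 8 * (1 / L ^ (D + B + 2)) * (2 * (T * (2 * L ^ D))) := by gcongr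
      _ = 32 * (T * q) * L⁻¹ := by rw [e, hq]; field_simp; ring
      _ ≤ 32 * (T * q) * 1 := by gcongr; exact inv_le_one_of_one_le₀ hL1
      _ = _ := by ring
  have hYX : Y ≤ X := by rw [hY]; exact hLX _ (by omega)
  have hY0 : 0 < Y := by rw [hY]; positivity
  have t3 : (w + Y) * (g + s + z) ≤ (260 + 128 * C1) * (T * q) := by
    have h1 : w + Y ≤ 2 * X := by linarith
    have hE2 : Ec ^ 2 ≤ L ^ 4 := by
      calc Ec ^ 2 ≤ (L ^ 2) ^ 2 := pow_le_pow_left₀ hEc0 hEc 2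
        _ = L ^ 4 := by ring
    have hLD4 : L ^ 4 * L ^ D ≤ X := by rw [← pow_add]; exact hLX _ (by omega)
    have g1 : 2 * X * g ≤ 256 * (T * q) := by
      calc 2 * X * g ≤ 2 * X * (L ^ 4 * (T * (2 * L ^ D * (X ^ 16)⁻¹) * (64 * X ^ 10))) := by
            gcongr
            exact hg.trans (by gcongr)
        _ = 256 * T * (L ^ 4 * L ^ D) * (X ^ 5)⁻¹ := by field_simp; ring
        _ ≤ 256 * T * X * (X ^ 5)⁻¹ := by gcongr
        _ = 256 * T * X⁻¹ * (X ^ 3)⁻¹ := by field_simp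
        _ ≤ 256 * T * q * 1 := by
            gcongr
            exact inv_le_one_of_one_le₀ (one_le_pow₀ hX1)
        _ = _ := by ring
    have hLD2 : L ^ 2 * L ^ D ≤ X := by rw [← pow_add]; exact hLX _ (by omega)
    have g2 : 2 * X * s ≤ 4 * (T * q) := by
      calc 2 * X * s ≤ 2 * X * (L ^ 2 * (T * (2 * L ^ D) * (X ^ 4)⁻¹)) := by
            gcongr
            exact hs.trans (by gcongr)
        _ = 4 * T * (L ^ 2 * L ^ D) * (X ^ 3)⁻¹ := by field_simp; ring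
        _ ≤ 4 * T * X * (X ^ 3)⁻¹ := by gcongr
        _ = 4 * T * X⁻¹ * X⁻¹ := by field_simp
        _ ≤ 4 * T * q * 1 := by
            gcongr
            exact inv_le_one_of_one_le₀ hX1
        _ = _ := by ring
    have g3 : 2 * X * z ≤ 128 * C1 * (T * q) := by
      calc 2 * X * z ≤ 2 * X * (C1 * (X ^ 16)⁻¹ * (T * L) * (64 * X ^ 10)) := by gcongr
        _ = 128 * C1 * T * L * (X ^ 5)⁻¹ := by field_simp; ring
        _ ≤ 128 * C1 * T * X * (X ^ 5)⁻¹ := by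
            gcongr
            have := hLX 1 (by omega); rwa [pow_one] at this
        _ = 128 * C1 * T * X⁻¹ * (X ^ 3)⁻¹ := by field_simp
        _ ≤ 128 * C1 * T * q * 1 := by
            gcongr
            exact inv_le_one_of_one_le₀ (one_le_pow₀ hX1)
        _ = _ := by ring
    calc (w + Y) * (g + s + z) ≤ 2 * X * (g + s + z) := by gcongr
      _ = 2 * X * g + 2 * X * s + 2 * X * z := by ring
      _ ≤ _ := by linarith
  have t4 : i4 / Y ≤ 2 * (T * q) := by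
    have e : Y = L ^ D * L ^ (B + 1) * L ^ 2 := by rw [hY, ← pow_add, ← pow_add]; congr 1
    rw [div_le_iff₀ hY0]
    refine hi4.trans ?_
    rw [e, hq]
    have h2 : 1 ≤ L ^ 2 := one_le_pow₀ hL1
    calc T * (2 * L ^ D) = 2 * T * L ^ D * 1 := by ring
      _ ≤ 2 * T * L ^ D * L ^ 2 := by gcongr
      _ = _ := by field_simp
  have t5 : i5 ≤ 2 * (T * q) := by
    refine hi5.trans ?_
    calc T * (2 * L ^ D * (X ^ 16)⁻¹) ≤ T * (2 * X * (X ^ 16)⁻¹) := by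
          gcongr; exact hLX _ (by omega)
      _ = 2 * T * X⁻¹ * (X ^ 14)⁻¹ := by field_simp
      _ ≤ 2 * T * q * 1 := by
          gcongr
          exact inv_le_one_of_one_le₀ (one_le_pow₀ hX1)
      _ = _ := by ring
  have hfin : L * (T * q) = T / L ^ B := by
    rw [hq, pow_succ]; field_simp
  rw [← hfin]
  have hTq : 0 < T * q := by positivity
  calc 4 * ρ * i2 + 8 * V2 * i2b + (w + Y) * (g + s + z) + i4 / Y + i5 ≤
      (40 * (k + 2) + 32 + (260 + 128 * C1) + 2 + 2) * (T * q) := by linarith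
    _ ≤ L * (T * q) := by
        gcongr
        linarith

/-- powers against exponentials -/
lemma pow_le_two_rpow (n : ℕ) : ∃ L1 : ℝ, ∀ L : ℝ, L1 ≤ L → L ^ n ≤ (2:ℝ) ^ L := by
  have h := (tendsto_rpow_mul_exp_neg_mul_atTop_nhds_zero n (Real.log 2) (Real.log_pos (by norm_num)))
  have h2 := (h.eventually (gt_mem_nhds one_pos)).and (eventually_gt_atTop (0:ℝ))
  obtain ⟨L1, h3⟩ := eventually_atTop.mp h2
  refine ⟨L1, fun L hL => ?_⟩
  obtain ⟨h4, h5⟩ := h3 L hL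
  rw [Real.rpow_natCast] at h4
  have h6 : (2:ℝ) ^ L = Real.exp (Real.log 2 * L) := by rw [Real.rpow_def_of_pos (by norm_num)]
  rw [h6]
  have h7 : L ^ n * Real.exp (-(Real.log 2) * L) * Real.exp (Real.log 2 * L) ≤ 1 * Real.exp (Real.log 2 * L) :=
    mul_le_mul_of_nonneg_right h4.le (Real.exp_pos _).le
  rwa [mul_assoc, ← Real.exp_add, show -(Real.log 2) * L + Real.log 2 * L = 0 by ring, Real.exp_zero, mul_one,
    one_mul] at h7

/-- **Truncated moments of all real orders.** -/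
theorem trunc_real (k : ℕ) : ∃ c : ℝ, 0 < c ∧ ∀ B : ℕ, ∃ (A : ℕ) (C T0 : ℝ), 0 < C ∧
    ∀ T : ℝ, T0 ≤ T → ∀ δ : ℝ, C * Real.log (Real.log T) / Real.log T ≤ δ → δ ≤ 1 / 16 →
    4 ≤ T ∧ 24 ≤ Real.log T ∧ 0 < δ ∧ 2 / δ ≤ Real.log T ∧
    ∀ V : ℝ, Real.log T ^ A ≤ V → V ≤ T ^ (c * δ) → ∀ α : ℝ, |α| ≤ k →
    |(∫ t in (0:ℝ)..T, clip V ‖riemannZeta (sp δ t)‖ ^ (2 * α)) - T * SS α δ| ≤ T / Real.log T ^ B := by
  set m : ℕ := 2 * k + 2 with hm
  set D : ℕ := (2 * m) ^ 2 with hD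
  set Q : ℕ := 2 * (4 * m + 3) with hQ
  set R : ℕ := 2 * k + 1 with hR
  refine ⟨1 / (64 * Q * R), by positivity, fun B => ?_⟩
  obtain ⟨C1, T1, hC1, hT1, hZZ⟩ := zeta_ms
  obtain ⟨L1, hL1⟩ := pow_le_two_rpow (D + B + 4)
  obtain ⟨C, T0, hC, H⟩ := Pool.Agent.Y746.CS.par Q (D + B + 4) R (by omega) (by omega)
    (max (max T1 L1) (max (40 * (k + 2) + 32 + 260 + 128 * C1 + 2 + 2) (20 * (k + 2))))
  refine ⟨D + B + 2, C, T0, hC, fun T hT δ hδ hδ1 => ?_⟩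
  obtain ⟨hT4, hL24, hLL, hTL, hδ0, h2δ, h1L, N, X, hN1, hN3, hX1, hNQ, hNd, hN2d, hXP, hVX⟩ := H T hT δ hδ hδ1
  refine ⟨hT4, hL24, hδ0, h2δ, fun V hV1 hV2 α hα => ?_⟩
  set L := Real.log T with hL
  have hT0 : 0 < T := by linarith
  have hL0 : 0 < L := by linarith
  have hL1' : 1 ≤ L := by linarith
  have hLL1 : L1 ≤ L := (le_max_right _ _).trans ((le_max_left _ _).trans hLL)
  have hLc : 40 * (k + 2) + 32 + 260 + 128 * C1 + 2 + 2 ≤ L := (le_max_left _ _).trans ((le_max_right _ _).trans hLL)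
  have hLk : 20 * ((k:ℝ) + 2) ≤ L := (le_max_right _ _).trans ((le_max_right _ _).trans hLL)
  have hTT1 : T1 ≤ T := (le_max_left _ _).trans ((le_max_left _ _).trans hTL)
  have hX0 : 0 < X := by linarith
  have hk0 : (0:ℝ) ≤ k := Nat.cast_nonneg k
  have hVone : 1 ≤ V := (one_le_pow₀ hL1').trans hV1
  have hV2' : V ≤ T ^ (δ / (64 * Q * R)) := by
    refine hV2.trans (le_of_eq ?_)
    congr 1
    field_simp
  have hVR := hVX V hVone hV2'
  set b : ℝ := k + 1 with hb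
  have hαb : |α| + 1 ≤ b := by rw [hb]; linarith
  set J : ℕ := ⌈L⌉₊ with hJ
  have hJL : L ≤ J := Nat.le_ceil L
  have hJ1 : (J:ℝ) ≤ L + 1 := (Nat.ceil_lt_add_one hL0.le).le
  set W : ℝ := X ^ 2 with hW
  set e : ℝ := (8 * X ^ 5)⁻¹ with he
  have he0 : 0 < e := by positivity
  have hW1 : 1 ≤ W := one_le_pow₀ hX1
  have h8 : 8 * W ^ 2 * e = X⁻¹ := by rw [hW, he]; field_simp
  have hXinv1 : X⁻¹ ≤ 1 := inv_le_one_of_one_le₀ hX1
  -- the size of X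
  have hN1r : (1:ℝ) ≤ N := by exact_mod_cast hN1
  have hXT : X ^ 16 ≤ T := by
    have h1 : (1:ℝ) ≤ (N:ℝ) ^ Q := one_le_pow₀ hN1r
    have h2 : 1 ≤ T * (X ^ 16)⁻¹ := by linarith
    rwa [le_mul_inv_iff₀ (by positivity), one_mul] at h2
  have hlogX : 16 * Real.log X ≤ L := by
    have := Real.log_le_log (by positivity) hXT
    rwa [Real.log_pow] at this
  have hlogX0 : 0 ≤ Real.log X := Real.log_nonneg hX1
  have hlog2W : 2 * Real.log (2 * W) ≤ L := by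
    rw [hW, Real.log_mul (by norm_num) (by positivity), Real.log_pow]
    have : Real.log 2 ≤ 1 := by linarith [Real.log_two_lt_d9]
    push_cast
    linarith
  have hlog2W0 : 0 ≤ 2 * Real.log (2 * W) := by
    have := Real.log_nonneg (by linarith : (1:ℝ) ≤ 2 * W); linarith
  have hhalf : (1 / 2 : ℝ) ^ J ≤ 1 / L ^ (D + B + 4) := by
    have h1 : (2:ℝ) ^ L ≤ (2:ℝ) ^ J := by
      rw [← Real.rpow_natCast]
      exact Real.rpow_le_rpow_of_exponent_le (by norm_num) hJL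
    have h2 := (hL1 L hLL1).trans h1
    rw [one_div_pow]
    exact one_div_le_one_div_of_le (by positivity) h2
  have hLP : L ^ (D + B + 4) ≤ X := hXP
  have hXiP : X⁻¹ ≤ 1 / L ^ (D + B + 4) := by
    rw [← one_div]; exact one_div_le_one_div_of_le (by positivity) hLP
  have hpow4 : L / L ^ (D + B + 4) = 1 / L ^ (D + B + 3) := by
    rw [pow_succ]; field_simp
  have hpow43 : 1 / L ^ (D + B + 4) ≤ 1 / L ^ (D + B + 3) :=
    one_div_le_one_div_of_le (by positivity) (pow_le_pow_right₀ hL1' (by omega))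
  have hrho : rho b W e J ≤ (k + 2) * (5 / L ^ (D + B + 3)) := by
    unfold rho
    rw [h8]
    have h1 : (1 / 2 : ℝ) ^ J * (2 * Real.log (2 * W)) ≤ 1 / L ^ (D + B + 3) := by
      calc (1 / 2 : ℝ) ^ J * (2 * Real.log (2 * W)) ≤ (1 / L ^ (D + B + 4)) * L := by gcongr
        _ = _ := by rw [← hpow4]; ring
    have h2 : 3 * X⁻¹ ≤ 4 * (1 / L ^ (D + B + 3)) := by
      have h3 : (0:ℝ) < 1 / L ^ (D + B + 3) := by positivity
      linarith
    have h4 : b + 1 = k + 2 := by rw [hb]; ring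
    rw [h4]
    refine mul_le_mul_of_nonneg_left ?_ (by positivity)
    calc _ ≤ 1 / L ^ (D + B + 3) + 4 * (1 / L ^ (D + B + 3)) := by linarith
      _ = _ := by ring
  have hrho0 : 0 ≤ rho b W e J := by
    unfold rho
    rw [h8]
    have h9 : 0 < b := by rw [hb]; positivity
    positivity
  have hrho4 : rho b W e J ≤ 1 / 4 := by
    refine hrho.trans ?_
    have h3 : (1:ℝ) / L ^ (D + B + 3) ≤ 1 / L := by
      refine one_div_le_one_div_of_le hL0 ?_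
      calc L = L ^ 1 := (pow_one L).symm
        _ ≤ _ := pow_le_pow_right₀ hL1' (by omega)
    calc (k + 2) * (5 / L ^ (D + B + 3)) = 5 * (k + 2) * (1 / L ^ (D + B + 3)) := by ring
      _ ≤ 5 * (k + 2) * (1 / L) := by gcongr
      _ ≤ 1 / 4 := by
          rw [mul_one_div, div_le_div_iff₀ hL0 (by norm_num)]
          linarith
  -- the mean squares
  obtain ⟨mG, mI, mI4, mS⟩ := ms_all (k := m) hN1 hδ0 (by linarith : δ ≤ 1) hT0.le
  have hmk : (m:ℝ) = 2 * k + 2 := by rw [hm]; push_cast; ring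
  have hαm : |α| ≤ m := by rw [hmk]; linarith
  have h2δD : (2 / δ) ^ D ≤ L ^ D := pow_le_pow_left₀ (by positivity) h2δ D
  have hLD1 : 1 ≤ L ^ D := one_le_pow₀ hL1'
  have hXi16 : (X ^ 16)⁻¹ ≤ 1 := inv_le_one_of_one_le₀ (one_le_pow₀ hX1)
  have hXi0 : 0 < (X ^ 16)⁻¹ := by positivity
  have bS : T * ((N:ℝ) ^ (-δ) * (2 / δ) ^ D) + 4 * (N:ℝ) ^ Q ≤ T * (2 * L ^ D * (X ^ 16)⁻¹) := by
    have h1 : (N:ℝ) ^ (-δ) * (2 / δ) ^ D ≤ (X ^ 16)⁻¹ * L ^ D := by gcongr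
    have h2 : T * ((N:ℝ) ^ (-δ) * (2 / δ) ^ D) ≤ T * ((X ^ 16)⁻¹ * L ^ D) := by gcongr
    have h3 : T * (X ^ 16)⁻¹ ≤ T * ((X ^ 16)⁻¹ * L ^ D) := by
      gcongr
      exact le_mul_of_one_le_right hXi0.le hLD1
    calc _ ≤ T * ((X ^ 16)⁻¹ * L ^ D) + T * ((X ^ 16)⁻¹ * L ^ D) := by linarith
      _ = _ := by ring
  have bI : T * (2 / δ) ^ D + 4 * (N:ℝ) ^ Q ≤ T * (2 * L ^ D) := by
    have h2 : T * (2 / δ) ^ D ≤ T * L ^ D := by gcongr
    have h3 : T * (X ^ 16)⁻¹ ≤ T * L ^ D := by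
      gcongr
      linarith
    linarith
  have cG : ∀ a b' : ℝ, |a| ≤ m → |b'| ≤ m → GG N a b' δ T ≤ T * (2 * L ^ D * (X ^ 16)⁻¹) := fun a b' ha hb' =>
    (mG a b' ha hb').trans bS
  have cI : ∀ a : ℝ, |a| ≤ m → I2 N a δ T ≤ T * (2 * L ^ D) := fun a ha => (mI a ha).trans bI
  have c4 := (mI4 α hαm).trans bI
  have cS := (mS α hαm).trans bS
  have hExm : ∀ a ∈ Ex b α J, |a| ≤ m := by
    intro a ha
    have := Ex_bd (by rw [hb]; linarith) (by linarith : |α| ≤ b) ha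
    rw [hmk]
    rw [hb] at this
    linarith
  have hEc : ((#(Ex b α J) : ℕ) : ℝ) ≤ L ^ 2 := by
    have h1 : ((#(Ex b α J) : ℕ) : ℝ) ≤ 8 * J + 16 := by exact_mod_cast Ex_card b α J
    nlinarith
  have hcore := core hN1 hαb hT0.le hδ1 hVone hW1 he0 (by rw [h8]; exact hXinv1) (Y := L ^ (D + B + 3))
    (by positivity) hrho4
  have hI20 : ∀ a, 0 ≤ I2 N a δ T := fun a =>
    intervalIntegral.integral_nonneg hT0.le fun t _ => by positivity
  have hI40 : 0 ≤ I4 N α δ T := intervalIntegral.integral_nonneg hT0.le fun t _ => by positivity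
  have hGG0 : ∀ a b', 0 ≤ GG N a b' δ T := fun a b' =>
    intervalIntegral.integral_nonneg hT0.le fun t _ => by positivity
  have hZZ0 : 0 ≤ ZZ N δ T := intervalIntegral.integral_nonneg hT0.le fun t _ => by positivity
  have hZ : ZZ N δ T ≤ C1 * (X ^ 16)⁻¹ * (T * L) := by
    have h1 := hZZ T hTT1 N hN1 hN3 δ h1L hδ1
    refine le_trans h1 ?_
    gcongr
  have he2 : ∀ x : ℝ, x / e ^ 2 = x * (64 * X ^ 10) := by
    intro x; rw [he]; field_simp; ring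
  have hW2 : ∀ x : ℝ, x / W ^ 2 = x * (X ^ 4)⁻¹ := by
    intro x; rw [hW, div_eq_mul_inv, ← pow_mul]
  have hg : ∑ a ∈ Ex b α J, ∑ b' ∈ Ex b α J, GG N a b' δ T / e ^ 2 ≤
      ((#(Ex b α J) : ℕ) : ℝ) ^ 2 * (T * (2 * L ^ D * (X ^ 16)⁻¹) * (64 * X ^ 10)) := by
    have h1 : ∀ a ∈ Ex b α J, ∑ b' ∈ Ex b α J, GG N a b' δ T / e ^ 2 ≤
        ((#(Ex b α J) : ℕ) : ℝ) * (T * (2 * L ^ D * (X ^ 16)⁻¹) * (64 * X ^ 10)) := by
      intro a ha
      refine (sum_le_card_nsmul _ _ (T * (2 * L ^ D * (X ^ 16)⁻¹) * (64 * X ^ 10)) fun b' hb' => ?_).trans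
        (le_of_eq (nsmul_eq_mul _ _))
      rw [he2]
      have := cG a b' (hExm a ha) (hExm b' hb')
      gcongr
    refine (sum_le_card_nsmul _ _ _ h1).trans (le_of_eq ?_)
    rw [nsmul_eq_mul]; ring
  have hs : ∑ a ∈ Ex b α J, I2 N a δ T / W ^ 2 ≤
      ((#(Ex b α J) : ℕ) : ℝ) * (T * (2 * L ^ D) * (X ^ 4)⁻¹) := by
    refine (sum_le_card_nsmul _ _ (T * (2 * L ^ D) * (X ^ 4)⁻¹) fun a ha => ?_).trans
      (le_of_eq (nsmul_eq_mul _ _))
    rw [hW2]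
    have := cI a (hExm a ha)
    gcongr
  have hz : ZZ N δ T / e ^ 2 ≤ C1 * (X ^ 16)⁻¹ * (T * L) * (64 * X ^ 10) := by
    rw [he2]; gcongr
  have hVinv : (V ^ 2)⁻¹ ≤ 1 / L ^ (D + B + 2) := by
    rw [← one_div]
    refine one_div_le_one_div_of_le (by positivity) (hV1.trans ?_)
    exact le_self_pow₀ hVone (by norm_num)
  have hwX : V ^ |2 * α| ≤ X := by
    have h1 : |2 * α| ≤ (R:ℝ) := by
      rw [abs_mul, abs_two, hR]; push_cast; linarith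
    calc V ^ |2 * α| ≤ V ^ (R:ℝ) := Real.rpow_le_rpow_of_exponent_le hVone h1
      _ = V ^ R := Real.rpow_natCast _ _
      _ ≤ X := hVR
  have hbm : |b| ≤ m := by
    rw [hb, abs_of_pos (by positivity), hmk]; linarith
  have hi2b : I2 N b δ T + I2 N (-b) δ T ≤ 2 * (T * (2 * L ^ D)) := by
    have h1 := cI b hbm
    have h2 := cI (-b) (by rwa [abs_neg])
    linarith
  have hfinal := numR (k := k) (D := D) (B := B) (ρ := rho b W e J) (i2 := I2 N α δ T)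
    (i2b := I2 N b δ T + I2 N (-b) δ T) (V2 := (V ^ 2)⁻¹)
    (g := ∑ a ∈ Ex b α J, ∑ b' ∈ Ex b α J, GG N a b' δ T / e ^ 2)
    (s := ∑ a ∈ Ex b α J, I2 N a δ T / W ^ 2) (z := ZZ N δ T / e ^ 2)
    (Y := L ^ (D + B + 3)) (w := V ^ |2 * α|) (i4 := I4 N α δ T) (i5 := |I2 N α δ T - T * SS α δ|)
    (Ec := ((#(Ex b α J) : ℕ) : ℝ)) hT0 hC1.le hL24 hLc hX1 hXP hrho hrho0 (cI α hαm) (hI20 α) hi2b
    (add_nonneg (hI20 _) (hI20 _)) hVinv (by positivity) hwX (by positivity) rfl hEc (by positivity) hg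
    (sum_nonneg fun a _ => sum_nonneg fun b' _ => div_nonneg (hGG0 _ _) (sq_nonneg _)) hs
    (sum_nonneg fun a _ => div_nonneg (hI20 _) (sq_nonneg _)) hz (div_nonneg hZZ0 (sq_nonneg _)) c4 hI40 cS
  calc |(∫ t in (0:ℝ)..T, clip V ‖riemannZeta (sp δ t)‖ ^ (2 * α)) - T * SS α δ| ≤
      |(∫ t in (0:ℝ)..T, clip V ‖riemannZeta (sp δ t)‖ ^ (2 * α)) - I2 N α δ T| +
        |I2 N α δ T - T * SS α δ| := abs_sub_le _ _ _
    _ ≤ _ := by linarith
    _ ≤ _ := hfinal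

end

end Pool.Agent.X110.ND
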