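import Mathlib

set_option autoImplicit false

/-! Sums over squarefree numbers. -/

namespace Pool.Agent.X110.QF

open Finset Filter Topology

noncomputable section

/-- divisibility of squares -/
lemma sq_dvd {a b s : ℕ} (hb : b ≠ 0) (hs : Squarefree s) (h : a ^ 2 ∣ b ^ 2 * s) : a ∣ b := by
  have ha : a ≠ 0 := by
    rintro rfl
    rw [zero_pow (by norm_num), zero_dvd_iff] at h
    have := hs.ne_zero
    simp_all
  have hg : 0 < Nat.gcd a b := Nat.gcd_pos_of_pos_left _ (Nat.pos_of_ne_zero ha)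
  obtain ⟨g, a1, b1, h1, h2, h3, h4⟩ := Nat.exists_coprime' hg
  subst h3 h4
  have h5 : a1 ^ 2 ∣ b1 ^ 2 * s := by
    have e1 : (a1 * g) ^ 2 = g ^ 2 * a1 ^ 2 := by ring
    have e2 : (b1 * g) ^ 2 * s = g ^ 2 * (b1 ^ 2 * s) := by ring
    rw [e1, e2] at h
    exact Nat.dvd_of_mul_dvd_mul_left (by positivity) h
  have h6 : Nat.Coprime (a1 ^ 2) (b1 ^ 2) := Nat.Coprime.pow 2 2 h2
  have h7 : a1 * a1 ∣ s := by
    rw [← sq]; exact h6.dvd_of_dvd_mul_left h5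
  have h8 := Nat.isUnit_iff.mp (hs a1 h7)
  subst h8
  rw [one_mul]
  exact Dvd.intro_left b1 rfl

/-- the sieve identity -/
lemma sf_ind {d A : ℕ} (hd : 1 ≤ d) (hA : d < (A + 1) ^ 2) :
    (if Squarefree d then (1:ℝ) else 0) =
      ∑ a ∈ (Icc 1 A).filter (fun a => a ^ 2 ∣ d), ((ArithmeticFunction.moebius a : ℤ) : ℝ) := by
  obtain ⟨s, b, h1, h2⟩ := Nat.sq_mul_squarefree d
  have hb : b ≠ 0 := by
    rintro rfl
    simp at h1; omega
  have hs : 1 ≤ s := Nat.one_le_iff_ne_zero.mpr h2.ne_zero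
  have hbA : b ≤ A := by
    have h3 : b ^ 2 < (A + 1) ^ 2 := by
      calc b ^ 2 ≤ b ^ 2 * s := Nat.le_mul_of_pos_right _ hs
        _ = d := h1
        _ < _ := hA
    have := lt_of_pow_lt_pow_left₀ 2 (by omega) h3
    omega
  have hset : (Icc 1 A).filter (fun a => a ^ 2 ∣ d) = b.divisors := by
    ext a
    rw [mem_filter, mem_Icc, Nat.mem_divisors]
    constructor
    · rintro ⟨_, h⟩
      exact ⟨sq_dvd hb h2 (by rw [h1]; exact h), hb⟩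
    · rintro ⟨h, _⟩
      refine ⟨⟨Nat.pos_of_dvd_of_pos h (Nat.pos_of_ne_zero hb), (Nat.le_of_dvd (Nat.pos_of_ne_zero hb) h).trans hbA⟩, ?_⟩
      rw [← h1]
      exact (pow_dvd_pow_of_dvd h 2).mul_right s
  have hmu : ∑ a ∈ b.divisors, ArithmeticFunction.moebius a = if b = 1 then 1 else 0 := by
    rw [← ArithmeticFunction.coe_mul_zeta_apply, ArithmeticFunction.moebius_mul_coe_zeta, ArithmeticFunction.one_apply]
  rw [hset]
  have h3 : ∑ a ∈ b.divisors, ((ArithmeticFunction.moebius a : ℤ) : ℝ) = if b = 1 then 1 else 0 := by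
    rw [← Int.cast_sum, hmu]
    split_ifs <;> simp
  rw [h3]
  by_cases hb1 : b = 1
  · rw [if_pos hb1, if_pos]
    rw [← h1, hb1]; simpa using h2
  · rw [if_neg hb1, if_neg]
    intro h4
    apply hb1
    have := h4 b (by rw [← h1, sq]; exact Dvd.intro s rfl)
    exact Nat.isUnit_iff.mp this

/-- partial sums -/
def PS (ψ : ℕ → ℝ) (y : ℕ) : ℝ := ∑ m ∈ Icc 1 y, ψ m

/-- sums over squarefree numbers -/
def HS (ψ : ℕ → ℝ) (x : ℕ) : ℝ := ∑ d ∈ (Icc 1 x).filter Squarefree, ψ d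

lemma HS_eq {ψ : ℕ → ℝ} (hψ : ∀ a m, ψ (a ^ 2 * m) = ψ a ^ 2 * ψ m) (x : ℕ) :
    HS ψ x = ∑ a ∈ Icc 1 (Nat.sqrt x), ((ArithmeticFunction.moebius a : ℤ) : ℝ) * ψ a ^ 2 * PS ψ (x / a ^ 2) := by
  have e1 : HS ψ x = ∑ d ∈ Icc 1 x, (∑ a ∈ (Icc 1 (Nat.sqrt x)).filter (fun a => a ^ 2 ∣ d),
      ((ArithmeticFunction.moebius a : ℤ) : ℝ)) * ψ d := by
    unfold HS
    rw [sum_filter]
    refine sum_congr rfl fun d hd => ?_
    rw [mem_Icc] at hd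
    rw [← sf_ind hd.1 (lt_of_le_of_lt hd.2 (by have := Nat.lt_succ_sqrt x; rw [sq]; exact this))]
    split_ifs <;> simp
  rw [e1]
  simp_rw [sum_filter, sum_mul]
  rw [sum_comm]
  refine sum_congr rfl fun a ha => ?_
  rw [mem_Icc] at ha
  have ha2 : 0 < a ^ 2 := pow_pos (by omega) 2
  unfold PS
  rw [mul_sum]
  have e2 : ∑ d ∈ Icc 1 x, (if a ^ 2 ∣ d then ((ArithmeticFunction.moebius a : ℤ) : ℝ) else 0) * ψ d =
      ∑ d ∈ (Icc 1 x).filter (fun d => a ^ 2 ∣ d), ((ArithmeticFunction.moebius a : ℤ) : ℝ) * ψ d := by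
    rw [sum_filter]
    refine sum_congr rfl fun d _ => ?_
    split_ifs <;> simp
  rw [e2]
  symm
  refine sum_bij (fun m _ => a ^ 2 * m) ?_ ?_ ?_ ?_
  · intro m hm
    rw [mem_Icc] at hm
    rw [mem_filter, mem_Icc]
    refine ⟨⟨?_, ?_⟩, Dvd.intro m rfl⟩
    · exact Nat.mul_pos ha2 hm.1
    · rw [mul_comm]; exact (Nat.le_div_iff_mul_le ha2).mp hm.2
  · intro m _ m' _ h
    exact Nat.eq_of_mul_eq_mul_left ha2 h
  · intro d hd
    rw [mem_filter, mem_Icc] at hd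
    obtain ⟨⟨h1, h2⟩, m, rfl⟩ := hd
    refine ⟨m, ?_, rfl⟩
    rw [mem_Icc]
    refine ⟨?_, ?_⟩
    · by_contra h
      have : m = 0 := by omega
      subst this; simp at h1
    · rw [Nat.le_div_iff_mul_le ha2, mul_comm]; exact h2
  · intro m _
    rw [hψ]; ring

/-- periodic functions -/
lemma per_range {ψ : ℕ → ℝ} {c : ℕ} (hper : ∀ m, ψ (m + c) = ψ m) (q r : ℕ) :
    ∑ m ∈ range (c * q + r), ψ m = q * ∑ m ∈ range c, ψ m + ∑ m ∈ range r, ψ m := by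
  have hper' : ∀ q m, ψ (c * q + m) = ψ m := by
    intro q
    induction q with
    | zero => intro m; simp
    | succ q ih =>
      intro m
      have : c * (q + 1) + m = (c * q + m) + c := by ring
      rw [this, hper, ih]
  have h1 : ∀ q : ℕ, ∑ m ∈ range (c * q), ψ m = q * ∑ m ∈ range c, ψ m := by
    intro q
    induction q with
    | zero => simp
    | succ q ih =>
      rw [mul_add, mul_one, sum_range_add, ih]
      simp_rw [hper']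
      push_cast; ring
  rw [sum_range_add, h1]
  simp_rw [hper']

lemma PS_per {ψ : ℕ → ℝ} {c : ℕ} (hc : 1 ≤ c) (hper : ∀ m, ψ (m + c) = ψ m) (hb : ∀ m, |ψ m| ≤ 1) {μ0 : ℝ}
    (hμ : ∑ m ∈ range c, ψ m = c * μ0) (y : ℕ) : |PS ψ y - y * μ0| ≤ 4 * c := by
  have hcr : (1:ℝ) ≤ c := by exact_mod_cast hc
  have hsum : ∀ r : ℕ, |∑ m ∈ range r, ψ m| ≤ r := by
    intro r
    refine (abs_sum_le_sum_abs _ _).trans ?_
    refine (sum_le_card_nsmul _ _ 1 fun m _ => hb m).trans ?_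
    rw [card_range]; simp
  have hμ1 : |μ0| ≤ 1 := by
    have h1 := hsum c
    rw [hμ, abs_mul, abs_of_pos (by linarith : (0:ℝ) < c)] at h1
    exact le_of_mul_le_mul_left (by linarith) (by linarith : (0:ℝ) < c)
  have e1 : PS ψ y = ∑ m ∈ range (y + 1), ψ m - ψ 0 := by
    unfold PS
    rw [range_eq_Ico, ← sum_Ioo_add_eq_sum_Ico (by omega : 0 < y + 1)]
    have : Ioo 0 (y + 1) = Icc 1 y := by
      ext m; rw [mem_Ioo, mem_Icc]; omega
    rw [this]; ring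
  have h0 := Nat.div_add_mod (y + 1) c
  set q := (y + 1) / c with hq
  set r := (y + 1) % c with hr
  have hrc : r < c := Nat.mod_lt _ (by omega)
  rw [e1, ← h0, per_range hper, hμ]
  have hy : (y:ℝ) + 1 = c * q + r := by exact_mod_cast h0.symm
  have e2 : (q:ℝ) * (c * μ0) + ∑ m ∈ range r, ψ m - ψ 0 - y * μ0 = (1 - r) * μ0 + ∑ m ∈ range r, ψ m - ψ 0 := by
    have : (y:ℝ) = c * q + r - 1 := by linarith
    rw [this]; ring
  rw [e2]
  have hrr : (r:ℝ) ≤ c := by exact_mod_cast hrc.le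
  have hr0 : (0:ℝ) ≤ r := Nat.cast_nonneg r
  have h2 := hsum r
  have h3 := hb 0
  have h4 : |(1 - (r:ℝ)) * μ0| ≤ c := by
    rw [abs_mul]
    have : |1 - (r:ℝ)| ≤ c := by rw [abs_le]; constructor <;> linarith
    calc _ ≤ (c:ℝ) * 1 := mul_le_mul this hμ1 (abs_nonneg _) (by linarith)
      _ = c := mul_one _
  calc |(1 - (r:ℝ)) * μ0 + ∑ m ∈ range r, ψ m - ψ 0| ≤ |(1 - (r:ℝ)) * μ0| + |∑ m ∈ range r, ψ m| + |ψ 0| := by
        refine (abs_sub _ _).trans ?_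
        gcongr
        exact abs_add_le _ _
    _ ≤ 4 * c := by linarith

lemma mu_abs (a : ℕ) : |((ArithmeticFunction.moebius a : ℤ) : ℝ)| ≤ 1 := by
  have := ArithmeticFunction.abs_moebius_le_one (n := a)
  exact_mod_cast this

/-- squarefree sums of periodic functions -/
lemma HS_per {ψ : ℕ → ℝ} (hψ : ∀ a m, ψ (a ^ 2 * m) = ψ a ^ 2 * ψ m) {c : ℕ} (hc : 1 ≤ c)
    (hper : ∀ m, ψ (m + c) = ψ m) (hb : ∀ m, |ψ m| ≤ 1) {μ0 : ℝ} (hμ1 : |μ0| ≤ 1)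
    (hμ : ∑ m ∈ range c, ψ m = c * μ0) (x : ℕ) :
    |HS ψ x - x * (μ0 * ∑ a ∈ Icc 1 (Nat.sqrt x), ((ArithmeticFunction.moebius a : ℤ) : ℝ) * ψ a ^ 2 / (a:ℝ) ^ 2)| ≤
      5 * c * Real.sqrt x := by
  have hcr : (1:ℝ) ≤ c := by exact_mod_cast hc
  rw [HS_eq hψ]
  have e1 : (x:ℝ) * (μ0 * ∑ a ∈ Icc 1 (Nat.sqrt x), ((ArithmeticFunction.moebius a : ℤ) : ℝ) * ψ a ^ 2 / (a:ℝ) ^ 2) =
      ∑ a ∈ Icc 1 (Nat.sqrt x), ((ArithmeticFunction.moebius a : ℤ) : ℝ) * ψ a ^ 2 * (x / (a:ℝ) ^ 2 * μ0) := by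
    rw [mul_sum, mul_sum]
    refine sum_congr rfl fun a _ => ?_
    ring
  rw [e1, ← sum_sub_distrib]
  refine (abs_sum_le_sum_abs _ _).trans ?_
  have h1 : ∀ a ∈ Icc 1 (Nat.sqrt x), |((ArithmeticFunction.moebius a : ℤ) : ℝ) * ψ a ^ 2 * PS ψ (x / a ^ 2) -
      ((ArithmeticFunction.moebius a : ℤ) : ℝ) * ψ a ^ 2 * (x / (a:ℝ) ^ 2 * μ0)| ≤ 5 * c := by
    intro a ha
    rw [mem_Icc] at ha
    have ha2 : 0 < a ^ 2 := by have := ha.1; positivity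
    rw [← mul_sub, abs_mul, abs_mul]
    have h2 := PS_per hc hper hb hμ (x / a ^ 2)
    have h3 : |((x / a ^ 2 : ℕ) : ℝ) * μ0 - x / (a:ℝ) ^ 2 * μ0| ≤ 1 := by
      rw [← sub_mul, abs_mul]
      have h4 : |((x / a ^ 2 : ℕ) : ℝ) - x / (a:ℝ) ^ 2| ≤ 1 := by
        have h5 : ((x / a ^ 2 : ℕ) : ℝ) ≤ (x:ℝ) / ((a ^ 2 : ℕ) : ℝ) := Nat.cast_div_le
        have h6 : (x:ℝ) / ((a ^ 2 : ℕ) : ℝ) < ((x / a ^ 2 : ℕ) : ℝ) + 1 := by
          rw [div_lt_iff₀ (by exact_mod_cast ha2)]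
          have h7 := Nat.lt_mul_div_succ x ha2
          rw [mul_comm] at h7
          exact_mod_cast h7
        push_cast at h5 h6
        rw [abs_le]; constructor <;> linarith
      calc _ ≤ (1:ℝ) * 1 := mul_le_mul h4 hμ1 (abs_nonneg _) (by norm_num)
        _ = 1 := one_mul 1
    have h7 : |PS ψ (x / a ^ 2) - x / (a:ℝ) ^ 2 * μ0| ≤ 4 * c + 1 := by
      have := abs_add_le (PS ψ (x / a ^ 2) - ((x / a ^ 2 : ℕ) : ℝ) * μ0) (((x / a ^ 2 : ℕ) : ℝ) * μ0 - x / (a:ℝ) ^ 2 * μ0)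
      rw [sub_add_sub_cancel] at this
      linarith
    have h8 : |ψ a ^ 2| ≤ 1 := by
      rw [abs_pow]
      exact pow_le_one₀ (abs_nonneg _) (hb a)
    calc _ ≤ 1 * 1 * (4 * (c:ℝ) + 1) := by
          refine mul_le_mul (mul_le_mul (mu_abs a) h8 (abs_nonneg _) (by norm_num)) h7 (abs_nonneg _) (by norm_num)
      _ ≤ 5 * c := by linarith
  refine (sum_le_card_nsmul _ _ _ h1).trans ?_
  rw [Nat.card_Icc, nsmul_eq_mul, Nat.add_sub_cancel]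
  have h2 : ((Nat.sqrt x : ℕ) : ℝ) ≤ Real.sqrt x := Real.nat_sqrt_le_real_sqrt
  calc ((Nat.sqrt x : ℕ) : ℝ) * (5 * c) ≤ Real.sqrt x * (5 * c) := by gcongr
    _ = _ := by ring

end

end Pool.Agent.X110.QF
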