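import Pool.Agent.X110.QF1

set_option autoImplicit false

/-! Densities of squarefree numbers coprime to a modulus. -/

namespace Pool.Agent.X110.QF

open Finset Filter Topology

noncomputable section

/-- indicator of coprimality -/
def pc (c m : ℕ) : ℝ := if Nat.Coprime m c then 1 else 0

lemma pc_mul (c a m : ℕ) : pc c (a * m) = pc c a * pc c m := by
  unfold pc
  by_cases h1 : Nat.Coprime a c
  · by_cases h2 : Nat.Coprime m c
    · rw [if_pos h1, if_pos h2, if_pos (Nat.Coprime.mul_left h1 h2)]; ring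
    · rw [if_neg h2, if_neg (fun h => h2 (Nat.Coprime.coprime_mul_left h)), mul_zero]
  · rw [if_neg h1, if_neg (fun h => h1 (Nat.Coprime.coprime_mul_right h)), zero_mul]

lemma pc_sq (c a m : ℕ) : pc c (a ^ 2 * m) = pc c a ^ 2 * pc c m := by
  rw [sq, pc_mul, pc_mul]; ring

lemma pc_abs (c m : ℕ) : |pc c m| ≤ 1 := by unfold pc; split_ifs <;> simp

lemma pc_per (c m : ℕ) : pc c (m + c) = pc c m := by
  unfold pc
  simp

lemma pc_sum (c : ℕ) (hc : 1 ≤ c) : ∑ m ∈ range c, pc c m = c * ((c.totient : ℝ) / c) := by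
  have hc0 : (c:ℝ) ≠ 0 := by exact_mod_cast (by omega : c ≠ 0)
  rw [mul_div_cancel₀ _ hc0]
  unfold pc
  rw [Nat.totient_eq_card_coprime, card_filter]
  push_cast
  refine sum_congr rfl fun m _ => ?_
  simp only [Nat.coprime_comm]

/-- the summand -/
def fk (c a : ℕ) : ℝ := ((ArithmeticFunction.moebius a : ℤ) : ℝ) * pc c a ^ 2 / (a:ℝ) ^ 2

lemma fk_abs (c a : ℕ) : |fk c a| ≤ ((a:ℝ) ^ 2)⁻¹ := by
  unfold fk
  rw [abs_div, abs_mul, abs_of_nonneg (by positivity : (0:ℝ) ≤ (a:ℝ) ^ 2), div_eq_mul_inv]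
  refine mul_le_of_le_one_left (by positivity) ?_
  have h1 : |pc c a ^ 2| ≤ 1 := by rw [abs_pow]; exact pow_le_one₀ (abs_nonneg _) (pc_abs c a)
  calc _ ≤ (1:ℝ) * 1 := mul_le_mul (mu_abs a) h1 (abs_nonneg _) (by norm_num)
    _ = 1 := one_mul 1

lemma fk_summable (c : ℕ) : Summable (fk c) := by
  refine Summable.of_norm_bounded (g := fun a : ℕ => ((a:ℝ) ^ 2)⁻¹) (Real.summable_nat_pow_inv.mpr (by norm_num)) fun a => ?_
  rw [Real.norm_eq_abs]; exact fk_abs c a

/-- the density -/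
def kap (c : ℕ) : ℝ := (c.totient : ℝ) / c * ∑' a, fk c a

lemma fk_tail (c : ℕ) {A : ℕ} (hA : 1 ≤ A) : |∑ a ∈ Icc 1 A, fk c a - ∑' a, fk c a| ≤ (A:ℝ)⁻¹ := by
  have h0 : fk c 0 = 0 := by unfold fk; simp
  have h1 : Tendsto (fun n : ℕ => ∑ a ∈ Icc 1 A, fk c a - ∑ a ∈ range (n + 1), fk c a) atTop
      (𝓝 (∑ a ∈ Icc 1 A, fk c a - ∑' a, fk c a)) :=
    ((fk_summable c).hasSum.tendsto_sum_nat.comp (tendsto_add_atTop_nat 1)).const_sub _
  refine le_of_tendsto h1.abs ?_
  filter_upwards [eventually_ge_atTop A] with n hn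
  have e1 : ∑ a ∈ range (n + 1), fk c a = ∑ a ∈ Icc 1 A, fk c a + ∑ a ∈ Ioc A n, fk c a := by
    have e2 : range (n + 1) = insert 0 (Icc 1 A ∪ Ioc A n) := by
      ext m; simp only [mem_range, mem_insert, mem_union, mem_Icc, mem_Ioc]; omega
    rw [e2, sum_insert (by simp), h0, zero_add, sum_union]
    rw [disjoint_left]
    intro m hm hm2
    rw [mem_Icc] at hm; rw [mem_Ioc] at hm2; omega
  rw [e1, sub_add_cancel_left, abs_neg]
  refine (abs_sum_le_sum_abs _ _).trans ((sum_le_sum fun a _ => fk_abs c a).trans ?_)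
  refine (sum_Ioc_inv_sq_le_sub (by omega) hn).trans ?_
  have : (0:ℝ) ≤ (n:ℝ)⁻¹ := by positivity
  linarith

/-- the count -/
theorem count {c : ℕ} (hc : 1 ≤ c) (x : ℕ) : |HS (pc c) x - x * kap c| ≤ 7 * c * Real.sqrt x := by
  have hcr : (1:ℝ) ≤ c := by exact_mod_cast hc
  rcases Nat.eq_zero_or_pos x with h0 | h0
  · subst h0; simp [HS]
  have hμ : |(c.totient : ℝ) / c| ≤ 1 := by
    rw [abs_of_nonneg (by positivity), div_le_one (by linarith)]
    exact_mod_cast Nat.totient_le c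
  have h1 := HS_per (pc_sq c) hc (pc_per c) (pc_abs c) hμ (pc_sum c hc) x
  have hA : 1 ≤ Nat.sqrt x := Nat.sqrt_pos.mpr h0
  have h2 := fk_tail c hA
  have hAr : (1:ℝ) ≤ (Nat.sqrt x : ℕ) := by exact_mod_cast hA
  set A := Nat.sqrt x with hAd
  have h3 : (x:ℝ) * (A:ℝ)⁻¹ ≤ 2 * Real.sqrt x := by
    have h4 : Real.sqrt x ≤ 2 * A := by
      rw [Real.sqrt_le_left (by positivity)]
      have h5 : x < (A + 1) ^ 2 := by have := Nat.lt_succ_sqrt x; rw [sq]; exact this
      have h6 : (x:ℝ) < ((A:ℝ) + 1) ^ 2 := by exact_mod_cast h5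
      nlinarith
    rw [← div_eq_mul_inv, div_le_iff₀ (by linarith)]
    have h7 := Real.mul_self_sqrt (Nat.cast_nonneg x : (0:ℝ) ≤ x)
    have h8 := Real.sqrt_nonneg (x:ℝ)
    nlinarith
  have e1 : HS (pc c) x - x * kap c = (HS (pc c) x - x * ((c.totient : ℝ) / c * ∑ a ∈ Icc 1 A, fk c a)) +
      x * ((c.totient : ℝ) / c) * (∑ a ∈ Icc 1 A, fk c a - ∑' a, fk c a) := by
    unfold kap; ring
  rw [e1]
  refine (abs_add_le _ _).trans ?_
  have h5 : |(x:ℝ) * ((c.totient : ℝ) / c) * (∑ a ∈ Icc 1 A, fk c a - ∑' a, fk c a)| ≤ 2 * Real.sqrt x := by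
    rw [abs_mul, abs_mul, abs_of_nonneg (Nat.cast_nonneg x : (0:ℝ) ≤ x)]
    calc _ ≤ (x:ℝ) * 1 * (A:ℝ)⁻¹ := by gcongr
      _ ≤ _ := by rw [mul_one]; exact h3
  have h6 : 2 * Real.sqrt x ≤ 2 * c * Real.sqrt x := by
    have := Real.sqrt_nonneg (x:ℝ)
    nlinarith
  have h7 : |HS (pc c) x - x * ((c.totient : ℝ) / c * ∑ a ∈ Icc 1 A, fk c a)| ≤ 5 * c * Real.sqrt x := h1
  linarith

/-- uniqueness -/
lemma uniq {a b C : ℝ} (h : ∀ y : ℕ, |a - b| * y ≤ C * Real.sqrt y) : a = b := by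
  by_contra hne
  have h0 : 0 < |a - b| := abs_pos.mpr (sub_ne_zero.mpr hne)
  obtain ⟨n, hn⟩ := exists_nat_gt (|C| / |a - b|)
  have h1 := h ((n + 1) ^ 2)
  have e1 : Real.sqrt (((n + 1) ^ 2 : ℕ) : ℝ) = n + 1 := by
    push_cast
    exact Real.sqrt_sq (by positivity)
  rw [e1] at h1
  push_cast at h1
  rw [div_lt_iff₀ h0] at hn
  have h2 := le_abs_self C
  have hn0 : (0:ℝ) ≤ n := Nat.cast_nonneg n
  have h3 : |a - b| * ((n:ℝ) + 1) ≤ C := by
    have : |a - b| * ((n:ℝ) + 1) * (n + 1) ≤ C * (n + 1) := by nlinarith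
    exact le_of_mul_le_mul_right this (by positivity)
  nlinarith

lemma kap_congr {c c' : ℕ} (hc : 1 ≤ c) (hc' : 1 ≤ c') (h : ∀ m, pc c m = pc c' m) : kap c = kap c' := by
  refine uniq (C := 7 * c + 7 * c') fun y => ?_
  have h1 := count hc y
  have h2 := count hc' y
  have e : HS (pc c) y = HS (pc c') y := by unfold HS; exact sum_congr rfl fun d _ => h d
  rw [e] at h1
  have h3 : |kap c - kap c'| * y = |(HS (pc c') y - y * kap c') - (HS (pc c') y - y * kap c)| := by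
    rw [← abs_of_nonneg (Nat.cast_nonneg y : (0:ℝ) ≤ y), ← abs_mul]
    congr 1
    rw [abs_of_nonneg (Nat.cast_nonneg y : (0:ℝ) ≤ y)]
    ring
  rw [h3]
  refine (abs_sub _ _).trans ?_
  linarith

/-- the recurrence for the counts -/
lemma HS_rec {c p : ℕ} (hp : p.Prime) (hpc : ¬ p ∣ c) (x : ℕ) :
    HS (pc c) x = HS (pc (c * p)) x + HS (pc (c * p)) (x / p) := by
  have hcop : Nat.Coprime p c := (Nat.Prime.coprime_iff_not_dvd hp).mpr hpc
  have hz : ∀ m, p ∣ m → pc (c * p) m = 0 := by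
    intro m hm
    unfold pc
    rw [if_neg]
    intro h
    have h1 : Nat.Coprime m p := Nat.Coprime.coprime_mul_left_right h
    have := Nat.Coprime.eq_one_of_dvd h1.symm hm
    exact hp.one_lt.ne' this
  have hnz : ∀ m, ¬ p ∣ m → pc (c * p) m = pc c m := by
    intro m hm
    have h1 : Nat.Coprime m p := ((Nat.Prime.coprime_iff_not_dvd hp).mpr hm).symm
    unfold pc
    by_cases h2 : Nat.Coprime m c
    · rw [if_pos h2, if_pos (Nat.Coprime.mul_right h2 h1)]
    · rw [if_neg h2, if_neg (fun h => h2 (Nat.Coprime.coprime_mul_right_right h))]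
  unfold HS
  rw [← sum_filter_add_sum_filter_not ((Icc 1 x).filter Squarefree) (fun d => ¬ p ∣ d)]
  congr 1
  · rw [← sum_filter_add_sum_filter_not ((Icc 1 x).filter Squarefree) (fun d => ¬ p ∣ d) (fun d => pc (c * p) d)]
    have h1 : ∑ d ∈ ((Icc 1 x).filter Squarefree).filter (fun d => ¬ ¬ p ∣ d), pc (c * p) d = 0 := by
      refine sum_eq_zero fun d hd => ?_
      rw [mem_filter, not_not] at hd
      exact hz d hd.2
    rw [h1, add_zero]
    refine sum_congr rfl fun d hd => ?_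
    rw [mem_filter] at hd
    exact (hnz d hd.2).symm
  · rw [← sum_filter_add_sum_filter_not ((Icc 1 (x / p)).filter Squarefree) (fun d => ¬ p ∣ d) (fun d => pc (c * p) d)]
    have h1 : ∑ d ∈ ((Icc 1 (x / p)).filter Squarefree).filter (fun d => ¬ ¬ p ∣ d), pc (c * p) d = 0 := by
      refine sum_eq_zero fun d hd => ?_
      rw [mem_filter, not_not] at hd
      exact hz d hd.2
    rw [h1, add_zero]
    symm
    refine sum_bij (fun m _ => p * m) ?_ ?_ ?_ ?_
    · intro m hm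
      rw [mem_filter, mem_filter, mem_Icc] at hm
      obtain ⟨⟨⟨h2, h3⟩, h4⟩, h5⟩ := hm
      rw [mem_filter, mem_filter, mem_Icc, not_not]
      refine ⟨⟨⟨Nat.mul_pos hp.pos h2, ?_⟩, ?_⟩, Dvd.intro m rfl⟩
      · rw [mul_comm]; exact (Nat.le_div_iff_mul_le hp.pos).mp h3
      · rw [Nat.squarefree_mul ((Nat.Prime.coprime_iff_not_dvd hp).mpr h5)]
        exact ⟨hp.squarefree, h4⟩
    · intro m _ m' _ h
      exact Nat.eq_of_mul_eq_mul_left hp.pos h
    · intro d hd
      rw [mem_filter, mem_filter, mem_Icc, not_not] at hd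
      obtain ⟨⟨⟨h2, h3⟩, h4⟩, m, rfl⟩ := hd
      have hm0 : m ≠ 0 := by rintro rfl; simp at h2
      have h5 : ¬ p ∣ m := by
        rintro ⟨j, rfl⟩
        have := h4 p ⟨j, by ring⟩
        exact hp.one_lt.ne' (Nat.isUnit_iff.mp this)
      refine ⟨m, ?_, rfl⟩
      rw [mem_filter, mem_filter, mem_Icc]
      refine ⟨⟨⟨Nat.pos_of_ne_zero hm0, ?_⟩, ?_⟩, h5⟩
      · rw [Nat.le_div_iff_mul_le hp.pos, mul_comm]; exact h3
      · exact h4.squarefree_of_dvd (Dvd.intro_left p rfl)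
    · intro m hm
      rw [mem_filter] at hm
      rw [hnz m hm.2, pc_mul]
      have : pc c p = 1 := by unfold pc; rw [if_pos hcop]
      rw [this, one_mul]

lemma kap_rec {c p : ℕ} (hc : 1 ≤ c) (hp : p.Prime) (hpc : ¬ p ∣ c) : kap (c * p) = kap c * ((p:ℝ) / (p + 1)) := by
  have hp0 : (0:ℝ) < p := by exact_mod_cast hp.pos
  have hcp : 1 ≤ c * p := Nat.mul_pos hc hp.pos
  have key : p * kap c = (p + 1) * kap (c * p) := by
    refine uniq (C := 7 * c * p + 7 * (c * p : ℕ) * p + 7 * (c * p : ℕ)) fun y => ?_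
    have h1 := count hc (p * y)
    have h2 := count hcp (p * y)
    have h3 := count hcp y
    have h4 := HS_rec hp hpc (p * y)
    rw [Nat.mul_div_cancel_left y hp.pos] at h4
    have hs : Real.sqrt ((p * y : ℕ) : ℝ) ≤ p * Real.sqrt y := by
      push_cast
      rw [Real.sqrt_mul hp0.le]
      refine mul_le_mul_of_nonneg_right ?_ (Real.sqrt_nonneg _)
      rw [Real.sqrt_le_left hp0.le]
      have : (1:ℝ) ≤ p := by exact_mod_cast hp.one_lt.le
      nlinarith
    have e1 : |(p:ℝ) * kap c - (p + 1) * kap (c * p)| * y = |-(HS (pc c) (p * y) - ((p * y : ℕ) : ℝ) * kap c) +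
        ((HS (pc (c * p)) (p * y) - ((p * y : ℕ) : ℝ) * kap (c * p)) + (HS (pc (c * p)) y - y * kap (c * p)))| := by
      rw [← abs_of_nonneg (Nat.cast_nonneg y : (0:ℝ) ≤ y), ← abs_mul]
      congr 1
      rw [abs_of_nonneg (Nat.cast_nonneg y : (0:ℝ) ≤ y), h4]
      push_cast; ring
    rw [e1]
    refine (abs_add_le _ _).trans ?_
    rw [abs_neg]
    have h5 := abs_add_le (HS (pc (c * p)) (p * y) - ((p * y : ℕ) : ℝ) * kap (c * p)) (HS (pc (c * p)) y - y * kap (c * p))
    have hc0 : (0:ℝ) ≤ c := Nat.cast_nonneg c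
    have h6 : 7 * (c:ℝ) * Real.sqrt ((p * y : ℕ) : ℝ) ≤ 7 * c * (p * Real.sqrt y) := by gcongr
    have h7 : 7 * ((c * p : ℕ):ℝ) * Real.sqrt ((p * y : ℕ) : ℝ) ≤ 7 * ((c * p : ℕ):ℝ) * (p * Real.sqrt y) := by gcongr
    nlinarith
  field_simp
  linarith

/-- `∏_{p | k} p/(p+1)` -/
def hk (k : ℕ) : ℝ := ∏ p ∈ k.primeFactors, (p:ℝ) / ((p:ℝ) + 1)

lemma hk_nonneg (k : ℕ) : 0 ≤ hk k := prod_nonneg fun p _ => by positivity

lemma hk_le_one (k : ℕ) : hk k ≤ 1 :=
  prod_le_one (fun p _ => by positivity) fun p _ => by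
    rw [div_le_one (by positivity)]; linarith

theorem kap_mul (k : ℕ) : ∀ c : ℕ, 1 ≤ c → 1 ≤ k → Nat.Coprime c k → kap (c * k) = kap c * hk k := by
  induction k using induction_on_primes with
  | zero => intro c _ h; omega
  | one => intro c _ _ _; unfold hk; simp
  | prime_mul p a hp ih =>
    intro c hc hk1 hcop
    have ha : 1 ≤ a := by
      by_contra h
      have : a = 0 := by omega
      subst this; simp at hk1
    have hca : Nat.Coprime c a := Nat.Coprime.coprime_mul_left_right hcop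
    have hcp : Nat.Coprime c p := Nat.Coprime.coprime_mul_right_right hcop
    have h1 := ih c hc ha hca
    by_cases hpa : p ∣ a
    · have e1 : kap (c * (p * a)) = kap (c * a) := by
        refine kap_congr (Nat.mul_pos hc hk1) (Nat.mul_pos hc ha) fun m => ?_
        unfold pc
        have : Nat.Coprime m (c * (p * a)) ↔ Nat.Coprime m (c * a) := by
          rw [Nat.coprime_mul_iff_right, Nat.coprime_mul_iff_right, Nat.coprime_mul_iff_right]
          constructor
          · rintro ⟨h2, _, h3⟩; exact ⟨h2, h3⟩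
          · rintro ⟨h2, h3⟩; exact ⟨h2, Nat.Coprime.coprime_dvd_right hpa h3, h3⟩
        simp only [this]
      have e2 : hk (p * a) = hk a := by
        unfold hk
        rw [Nat.primeFactors_mul hp.ne_zero (by omega), hp.primeFactors,
          union_eq_right.mpr (by
            rw [singleton_subset_iff, Nat.mem_primeFactors]
            exact ⟨hp, hpa, by omega⟩)]
      rw [e1, e2, h1]
    · have hpc : ¬ p ∣ c * a := by
        intro h
        rcases hp.dvd_mul.mp h with h2 | h2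
        · exact (hp.coprime_iff_not_dvd.mp hcp.symm) h2
        · exact hpa h2
      have e1 : kap (c * (p * a)) = kap (c * a) * ((p:ℝ) / (p + 1)) := by
        rw [← kap_rec (Nat.mul_pos hc ha) hp hpc]
        congr 1; ring
      have e2 : hk (p * a) = hk a * ((p:ℝ) / (p + 1)) := by
        unfold hk
        rw [Nat.primeFactors_mul hp.ne_zero (by omega), hp.primeFactors, prod_union, prod_singleton, mul_comm]
        rw [disjoint_singleton_left, Nat.mem_primeFactors]
        exact fun h => hpa h.2.1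
      rw [e1, e2, h1]; ring

lemma kap_two_pos : 1 / 8 ≤ kap 2 := by
  -- use the count of odd squarefree numbers through the series
  unfold kap
  have h1 : fk 2 1 = 1 := by unfold fk pc; simp
  have h2 : fk 2 2 = 0 := by unfold fk pc; simp
  have h3 := fk_tail 2 (A := 2) (by norm_num)
  have e1 : ∑ a ∈ Icc 1 2, fk 2 a = 1 := by
    have : Icc 1 2 = ({1, 2} : Finset ℕ) := by decide
    rw [this, sum_pair (by norm_num), h1, h2, add_zero]
  rw [e1] at h3
  have h4 := (abs_le.mp h3).2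
  have h5 : (Nat.totient 2 : ℝ) / ((2:ℕ):ℝ) = 1 / 2 := by simp
  rw [h5]
  push_cast at h4
  linarith

end

end Pool.Agent.X110.QF
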