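import Pool.Agent.X110.QF2
import Pool.Agent.H66R2.RZ_P4

set_option autoImplicit false

/-! Character sums over odd squarefree numbers. -/

namespace Pool.Agent.X110.QF

open Finset Filter Topology
open Pool.Agent.H306R2.RZ (js)

noncomputable section

/-- the family: odd squarefree numbers in `(X, 2X]` -/
def fam (X : ℕ) : Finset ℕ := (Ioc X (2 * X)).filter (fun d => Odd d ∧ Squarefree d)

/-- the character `(8 ε d | n)` -/
def chi (ε : ℤ) (d n : ℕ) : ℝ := if Odd n then js (2 * ε * (d : ℤ)) n else 0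

lemma js_abs (k : ℤ) (n : ℕ) : |js k n| ≤ 1 := by
  unfold js
  rcases jacobiSym.trichotomy k n with h | h | h <;> rw [h] <;> simp

lemma chi_abs (ε : ℤ) (d n : ℕ) : |chi ε d n| ≤ 1 := by
  unfold chi; split_ifs
  · exact js_abs _ _
  · simp

lemma chi_mul (ε : ℤ) (d m n : ℕ) : chi ε d (m * n) = chi ε d m * chi ε d n := by
  unfold chi
  by_cases h1 : Odd m
  · by_cases h2 : Odd n
    · rw [if_pos h1, if_pos h2, if_pos (h1.mul h2)]
      unfold js
      have hm : m ≠ 0 := by rintro rfl; simp at h1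
      have hn : n ≠ 0 := by rintro rfl; simp at h2
      haveI : NeZero m := ⟨hm⟩
      haveI : NeZero n := ⟨hn⟩
      rw [jacobiSym.mul_right]
      push_cast; rfl
    · rw [if_neg h2, if_neg (fun h => h2 (Nat.odd_mul.mp h).2), mul_zero]
  · rw [if_neg h1, if_neg (fun h => h1 (Nat.odd_mul.mp h).1), zero_mul]

lemma chi_one (ε : ℤ) (d : ℕ) : chi ε d 1 = 1 := by
  unfold chi js; simp

/-- the function of `d` -/
def psi (n m : ℕ) : ℝ := if Odd m then js (m : ℤ) n else 0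

lemma psi_abs (n m : ℕ) : |psi n m| ≤ 1 := by
  unfold psi; split_ifs
  · exact js_abs _ _
  · simp

lemma psi_sq (n a m : ℕ) : psi n (a ^ 2 * m) = psi n a ^ 2 * psi n m := by
  unfold psi
  by_cases h1 : Odd a
  · by_cases h2 : Odd m
    · rw [if_pos h1, if_pos h2, if_pos ((h1.pow).mul h2)]
      unfold js
      push_cast
      rw [jacobiSym.mul_left, jacobiSym.pow_left]
      push_cast; rfl
    · rw [if_neg h2, if_neg (fun h => h2 (Nat.odd_mul.mp h).2), mul_zero]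
  · rw [if_neg h1, if_neg (fun h => h1 (Nat.Odd.of_mul_left (by rw [sq, mul_assoc] at h; exact h)))]
    ring

lemma js_add (n m : ℕ) : js ((m + n : ℕ) : ℤ) n = js (m : ℤ) n := by
  unfold js
  rw [jacobiSym.mod_left, jacobiSym.mod_left (m : ℤ)]
  push_cast
  rw [Int.add_emod_right]

lemma psi_per (n m : ℕ) : psi n (m + 2 * n) = psi n m := by
  unfold psi
  have h1 : Odd (m + 2 * n) ↔ Odd m := by
    rw [Nat.odd_add]
    simp
  simp only [h1]
  have h2 : m + 2 * n = (m + n) + n := by ring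
  rw [h2, js_add, js_add]

lemma range_two {n : ℕ} (hn : Odd n) : ∑ m ∈ range (2 * n), psi n m = ∑ m ∈ range n, js (m : ℤ) n := by
  rw [two_mul, sum_range_add, ← sum_add_distrib]
  refine sum_congr rfl fun m _ => ?_
  unfold psi
  have hadd : js ((n + m : ℕ) : ℤ) n = js (m : ℤ) n := by rw [add_comm, js_add]
  by_cases h : Odd m
  · have h2 : ¬ Odd (n + m) := by rw [Nat.not_odd_iff_even]; exact hn.add_odd h
    rw [if_pos h, if_neg h2, add_zero]
  · have h2 : Odd (n + m) := hn.add_even (Nat.not_odd_iff_even.mp h)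
    rw [if_neg h, if_pos h2, zero_add, hadd]

lemma js_sum {n : ℕ} (hn : Odd n) (hs : ¬ IsSquare n) : ∑ m ∈ range n, js (m : ℤ) n = 0 := by
  have h := Pool.Agent.H66R2.RZP4.P4a n hn
  rw [if_neg hs] at h
  unfold Pool.Agent.H306R2.RZ.Gk at h
  rw [← h]
  refine sum_congr rfl fun m _ => ?_
  unfold Pool.Agent.H306R2.RZ.cas
  simp

lemma fam_sum (X : ℕ) {ψ : ℕ → ℝ} (h0 : ∀ m, ¬ Odd m → ψ m = 0) :
    ∑ d ∈ fam X, ψ d = HS ψ (2 * X) - HS ψ X := by
  unfold fam HS
  have e1 : (Icc 1 (2 * X)).filter Squarefree = (Icc 1 X).filter Squarefree ∪ (Ioc X (2 * X)).filter Squarefree := by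
    rw [← filter_union]
    congr 1
    ext m; simp only [mem_Icc, mem_union, mem_Ioc]; omega
  rw [e1, sum_union, add_sub_cancel_left]
  · rw [sum_filter, sum_filter]
    refine sum_congr rfl fun d _ => ?_
    by_cases h1 : Squarefree d
    · by_cases h2 : Odd d
      · rw [if_pos ⟨h2, h1⟩, if_pos h1]
      · rw [if_neg (fun h => h2 h.1), if_pos h1, h0 d h2]
    · rw [if_neg (fun h => h1 h.2), if_neg h1]
  · rw [disjoint_left]
    intro m hm hm2
    rw [mem_filter, mem_Icc] at hm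
    rw [mem_filter, mem_Ioc] at hm2
    omega

lemma sqrt_two_mul (X : ℕ) : Real.sqrt ((2 * X : ℕ) : ℝ) ≤ 2 * Real.sqrt X := by
  push_cast
  rw [Real.sqrt_mul (by norm_num)]
  refine mul_le_mul_of_nonneg_right ?_ (Real.sqrt_nonneg _)
  rw [Real.sqrt_le_left (by norm_num)]
  norm_num

lemma chi_psi (ε : ℤ) {n : ℕ} (hn : Odd n) {d : ℕ} (hd : Odd d) : chi ε d n = js (2 * ε) n * psi n d := by
  unfold chi psi
  rw [if_pos hn, if_pos hd]
  unfold js
  rw [jacobiSym.mul_left]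
  push_cast; rfl

/-- cancellation for non-squares -/
theorem sum_nonsq (ε : ℤ) {n : ℕ} (hn : Odd n) (hs : ¬ IsSquare n) (X : ℕ) :
    |∑ d ∈ fam X, chi ε d n| ≤ 30 * n * Real.sqrt X := by
  have hn1 : 1 ≤ n := hn.pos
  have e1 : ∑ d ∈ fam X, chi ε d n = js (2 * ε) n * ∑ d ∈ fam X, psi n d := by
    rw [mul_sum]
    refine sum_congr rfl fun d hd => ?_
    unfold fam at hd
    rw [mem_filter] at hd
    exact chi_psi ε hn hd.2.1
  rw [e1, fam_sum X (fun m hm => by unfold psi; rw [if_neg hm]), abs_mul]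
  have hμ : ∑ m ∈ range (2 * n), psi n m = ((2 * n : ℕ) : ℝ) * 0 := by
    rw [range_two hn, js_sum hn hs, mul_zero]
  have h1 := HS_per (psi_sq n) (by omega : 1 ≤ 2 * n) (psi_per n) (psi_abs n) (μ0 := 0) (by simp) hμ (2 * X)
  have h2 := HS_per (psi_sq n) (by omega : 1 ≤ 2 * n) (psi_per n) (psi_abs n) (μ0 := 0) (by simp) hμ X
  rw [zero_mul, mul_zero, sub_zero] at h1 h2
  have h3 := abs_sub (HS (psi n) (2 * X)) (HS (psi n) X)
  have h4 := sqrt_two_mul X
  have h5 : (0:ℝ) ≤ n := Nat.cast_nonneg n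
  have h6 : 5 * ((2 * n : ℕ):ℝ) * Real.sqrt ((2 * X : ℕ) : ℝ) ≤ 5 * ((2 * n : ℕ):ℝ) * (2 * Real.sqrt X) := by gcongr
  push_cast at h1 h2 h6
  calc |js (2 * ε) n| * |HS (psi n) (2 * X) - HS (psi n) X| ≤ 1 * (30 * n * Real.sqrt X) := by
        refine mul_le_mul (js_abs _ _) ?_ (abs_nonneg _) (by norm_num)
        linarith
    _ = _ := one_mul _

/-- the squares -/
lemma chi_square {ε : ℤ} (hε : ε = 1 ∨ ε = -1) {k : ℕ} (hk : Odd k) {d : ℕ} (hd : Odd d) :
    chi ε d (k ^ 2) = pc (2 * k) d := by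
  have hk1 : k ≠ 0 := by rintro rfl; simp at hk
  unfold chi
  rw [if_pos hk.pow]
  unfold js pc
  rw [jacobiSym.pow_right]
  have hu : IsUnit ε := by rcases hε with rfl | rfl <;> simp
  have hiff : Int.gcd (2 * ε * (d:ℤ)) k = 1 ↔ Nat.Coprime d (2 * k) := by
    have e1 : Int.gcd (2 * ε * (d:ℤ)) k = Nat.gcd (2 * d) k := by
      rw [Int.gcd_def, Int.natAbs_mul, Int.natAbs_mul, Int.natAbs_of_isUnit hu]
      simp
    rw [e1]
    have h2k : Nat.Coprime 2 k := (Nat.coprime_two_left).mpr hk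
    have hd2 : Nat.Coprime d 2 := (Nat.coprime_two_right).mpr hd
    constructor
    · intro h
      exact Nat.Coprime.mul_right hd2 (Nat.Coprime.coprime_mul_left h)
    · intro h
      exact Nat.Coprime.mul_left h2k (Nat.Coprime.coprime_mul_left_right h)
  by_cases h : Nat.Coprime d (2 * k)
  · rw [if_pos h]
    have h1 := jacobiSym.sq_one (hiff.mpr h)
    exact_mod_cast h1
  · rw [if_neg h]
    haveI : NeZero k := ⟨hk1⟩
    have h1 : jacobiSym (2 * ε * (d:ℤ)) k = 0 := by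
      rw [jacobiSym.eq_zero_iff_not_coprime]
      exact fun h2 => h (hiff.mp h2)
    rw [h1]; simp

theorem sum_sq {ε : ℤ} (hε : ε = 1 ∨ ε = -1) {k : ℕ} (hk : Odd k) (X : ℕ) :
    |∑ d ∈ fam X, chi ε d (k ^ 2) - X * (kap 2 * QF.hk k)| ≤ 42 * k * Real.sqrt X := by
  have hk1 : 1 ≤ k := hk.pos
  have e1 : ∑ d ∈ fam X, chi ε d (k ^ 2) = ∑ d ∈ fam X, pc (2 * k) d := by
    refine sum_congr rfl fun d hd => ?_
    unfold fam at hd
    rw [mem_filter] at hd
    exact chi_square hε hk hd.2.1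
  have h0 : ∀ m, ¬ Odd m → pc (2 * k) m = 0 := by
    intro m hm
    unfold pc
    rw [if_neg]
    intro h
    exact hm ((Nat.coprime_two_right).mp (Nat.Coprime.coprime_mul_right_right h))
  rw [e1, fam_sum X h0]
  have hkap := kap_mul k 2 (by norm_num) hk1 ((Nat.coprime_two_left).mpr hk)
  rw [← hkap]
  have h1 := count (by omega : 1 ≤ 2 * k) (2 * X)
  have h2 := count (by omega : 1 ≤ 2 * k) X
  have h4 := sqrt_two_mul X
  have h6 : 7 * ((2 * k : ℕ):ℝ) * Real.sqrt ((2 * X : ℕ) : ℝ) ≤ 7 * ((2 * k : ℕ):ℝ) * (2 * Real.sqrt X) := by gcongr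
  have e2 : HS (pc (2 * k)) (2 * X) - HS (pc (2 * k)) X - X * kap (2 * k) =
      (HS (pc (2 * k)) (2 * X) - ((2 * X : ℕ) : ℝ) * kap (2 * k)) - (HS (pc (2 * k)) X - X * kap (2 * k)) := by
    push_cast; ring
  rw [e2]
  refine (abs_sub _ _).trans ?_
  push_cast at h1 h2 h6 ⊢
  linarith

lemma fam_card (X : ℕ) : |((#(fam X) : ℕ) : ℝ) - X * kap 2| ≤ 42 * Real.sqrt X := by
  have h := sum_sq (ε := 1) (Or.inl rfl) (k := 1) (by norm_num) X
  have e1 : ∑ d ∈ fam X, chi 1 d (1 ^ 2) = ((#(fam X) : ℕ) : ℝ) := by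
    rw [one_pow]
    simp_rw [chi_one]
    simp
  have e2 : QF.hk 1 = 1 := by unfold QF.hk; simp
  rw [e1, e2] at h
  simpa using h

end

end Pool.Agent.X110.QF
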