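import Pool.Agent.X110.QF3
import Pool.Agent.Y746.OA.AR

set_option autoImplicit false

/-! Dirichlet polynomials twisted by the characters of the family. -/

namespace Pool.Agent.X110.QF

open Finset
open Pool.Agent.H306R2 Pool.Agent.Y746.OA

noncomputable section

/-- the Dirichlet polynomial -/
def PQ (ε : ℤ) (σ : ℝ) (f : ℕ → ℝ) (N d : ℕ) : ℝ := ∑ n ∈ Icc 1 N, f n * (n:ℝ) ^ (-σ) * chi ε d n

lemma PQ_mono (ε : ℤ) (σ : ℝ) (f : ℕ → ℝ) {N M : ℕ} (h : N ≤ M) (hf : ∀ n : ℕ, N < n → f n = 0) (d : ℕ) :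
    PQ ε σ f M d = PQ ε σ f N d := by
  unfold PQ
  symm
  refine sum_subset (Icc_subset_Icc_right h) fun n _ hn' => ?_
  rw [mem_Icc] at *
  rw [hf n (by omega)]; ring

lemma PQ_sub (ε : ℤ) (σ : ℝ) (f g : ℕ → ℝ) (N d : ℕ) :
    PQ ε σ (fun n => f n - g n) N d = PQ ε σ f N d - PQ ε σ g N d := by
  unfold PQ
  rw [← sum_sub_distrib]
  exact sum_congr rfl fun n _ => by ring

lemma PQ_mul (ε : ℤ) (σ : ℝ) (A B : ArithmeticFunction ℝ) {N M : ℕ} (hA : ∀ n : ℕ, N < n → A n = 0)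
    (hB : ∀ n : ℕ, M < n → B n = 0) (d : ℕ) :
    PQ ε σ (fun n => (A * B) n) (N * M) d = PQ ε σ (fun n => A n) N d * PQ ε σ (fun n => B n) M d := by
  unfold PQ
  rw [sum_mul_sum, ← sum_product']
  have h1 : ∀ x ∈ Icc 1 N ×ˢ Icc 1 M, x.1 * x.2 ∈ Icc 1 (N * M) := by
    intro x hx
    rw [mem_product, mem_Icc, mem_Icc] at hx
    rw [mem_Icc]
    exact ⟨Nat.mul_pos hx.1.1 hx.2.1, Nat.mul_le_mul hx.1.2 hx.2.2⟩
  rw [← sum_fiberwise_of_maps_to h1]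
  refine sum_congr rfl fun k hk => ?_
  rw [mem_Icc] at hk
  show (A * B) k * (k:ℝ) ^ (-σ) * chi ε d k = _
  rw [ArithmeticFunction.mul_apply, sum_mul, sum_mul]
  symm
  have hsub : (Icc 1 N ×ˢ Icc 1 M).filter (fun x => x.1 * x.2 = k) ⊆ k.divisorsAntidiagonal := by
    intro x hx
    rw [mem_filter] at hx
    rw [Nat.mem_divisorsAntidiagonal]
    exact ⟨hx.2, by omega⟩
  rw [← sum_subset hsub]
  · refine sum_congr rfl fun x hx => ?_
    rw [mem_filter, mem_product, mem_Icc, mem_Icc] at hx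
    obtain ⟨⟨h2, h3⟩, h4⟩ := hx
    rw [← h4, chi_mul, Nat.cast_mul, Real.mul_rpow (by positivity) (by positivity)]
    ring
  · intro x hx hx'
    rw [Nat.mem_divisorsAntidiagonal] at hx
    have h5 : 1 ≤ x.1 := Nat.pos_of_ne_zero (by rintro h; rw [h, zero_mul] at hx; omega)
    have h6 : 1 ≤ x.2 := Nat.pos_of_ne_zero (by rintro h; rw [h, mul_zero] at hx; omega)
    rcases le_or_gt x.1 N with h7 | h7
    · rcases le_or_gt x.2 M with h8 | h8
      · exfalso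
        apply hx'
        rw [mem_filter, mem_product, mem_Icc, mem_Icc]
        exact ⟨⟨⟨h5, h7⟩, ⟨h6, h8⟩⟩, hx.1⟩
      · rw [hB _ h8]; ring
    · rw [hA _ h7]; ring

/-- the mean value of the character over the family -/
def wt (n : ℕ) : ℝ := if Odd n ∧ IsSquare n then kap 2 * hk (Nat.sqrt n) else 0

lemma kap_two_nonneg : 0 ≤ kap 2 := by linarith [kap_two_pos]

lemma wt_nonneg (n : ℕ) : 0 ≤ wt n := by
  unfold wt; split_ifs
  · exact mul_nonneg kap_two_nonneg (hk_nonneg _)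
  · exact le_rfl

lemma chi_avg {ε : ℤ} (hε : ε = 1 ∨ ε = -1) {n : ℕ} (hn : 1 ≤ n) (X : ℕ) :
    |∑ d ∈ fam X, chi ε d n - X * wt n| ≤ 42 * n * Real.sqrt X := by
  have hX : 0 ≤ Real.sqrt X := Real.sqrt_nonneg _
  have hn1 : (1:ℝ) ≤ n := by exact_mod_cast hn
  unfold wt
  by_cases h : Odd n
  · by_cases h2 : IsSquare n
    · rw [if_pos ⟨h, h2⟩]
      obtain ⟨k, rfl⟩ := h2
      have hk : Odd k := (Nat.odd_mul.mp h).1
      have hk1 : (1:ℝ) ≤ k := by exact_mod_cast hk.pos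
      have := sum_sq hε hk X
      rw [Nat.sqrt_eq, ← pow_two]
      refine this.trans ?_
      have e : (k:ℝ) ≤ ((k ^ 2 : ℕ) : ℝ) := by push_cast; nlinarith
      gcongr
    · rw [if_neg (fun h3 => h2 h3.2), mul_zero, sub_zero]
      refine (sum_nonsq ε h h2 X).trans ?_
      gcongr; norm_num
  · rw [if_neg (fun h3 => h h3.1), mul_zero, sub_zero]
    have : ∑ d ∈ fam X, chi ε d n = 0 := sum_eq_zero fun d _ => by unfold chi; rw [if_neg h]
    rw [this, abs_zero]; positivity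

/-- averages of Dirichlet polynomials over the family -/
lemma PQ_avg {ε : ℤ} (hε : ε = 1 ∨ ε = -1) {σ : ℝ} (hσ : 0 ≤ σ) (f : ℕ → ℝ) (N X : ℕ) :
    |∑ d ∈ fam X, PQ ε σ f N d - X * ∑ n ∈ Icc 1 N, f n * (n:ℝ) ^ (-σ) * wt n| ≤
      42 * Real.sqrt X * (N * ∑ n ∈ Icc 1 N, |f n|) := by
  unfold PQ
  rw [sum_comm, mul_sum, ← sum_sub_distrib, mul_sum, mul_sum]
  refine (abs_sum_le_sum_abs _ _).trans (sum_le_sum fun n hn => ?_)
  rw [mem_Icc] at hn
  have e1 : ∑ d ∈ fam X, f n * (n:ℝ) ^ (-σ) * chi ε d n - X * (f n * (n:ℝ) ^ (-σ) * wt n) =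
      f n * (n:ℝ) ^ (-σ) * (∑ d ∈ fam X, chi ε d n - X * wt n) := by
    rw [← mul_sum]; ring
  rw [e1, abs_mul, abs_mul, abs_of_nonneg (by positivity : (0:ℝ) ≤ (n:ℝ) ^ (-σ))]
  have h1 := rpow_neg_le1 hn.1 hσ
  have h2 := chi_avg hε hn.1 X
  have hX : 0 ≤ Real.sqrt X := Real.sqrt_nonneg _
  have hnN : (n:ℝ) ≤ N := by exact_mod_cast hn.2
  calc |f n| * (n:ℝ) ^ (-σ) * |∑ d ∈ fam X, chi ε d n - X * wt n|
      ≤ |f n| * 1 * (42 * N * Real.sqrt X) := by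
        refine mul_le_mul (mul_le_mul_of_nonneg_left h1 (abs_nonneg _)) (h2.trans ?_) (abs_nonneg _) (by positivity)
        gcongr
    _ = _ := by ring

/-- sums against the weight -/
lemma wt_sum (F : ℕ → ℝ) (M : ℕ) : ∑ n ∈ Icc 1 (M * M), F n * wt n =
    ∑ k ∈ (Icc 1 M).filter (fun k => Odd k), F (k * k) * (kap 2 * hk k) := by
  have hinj : Set.InjOn (fun k : ℕ => k * k) ((Icc 1 M).filter (fun k => Odd k) : Finset ℕ) := by
    intro a _ b _ hab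
    exact Nat.mul_self_inj.mp hab
  have hsub : ((Icc 1 M).filter (fun k => Odd k)).image (fun k => k * k) ⊆ Icc 1 (M * M) := by
    intro n hn
    rw [mem_image] at hn
    obtain ⟨k, hk, rfl⟩ := hn
    rw [mem_filter, mem_Icc] at hk
    rw [mem_Icc]
    exact ⟨Nat.mul_pos hk.1.1 hk.1.1, Nat.mul_le_mul hk.1.2 hk.1.2⟩
  rw [← sum_subset hsub, sum_image hinj]
  · refine sum_congr rfl fun k hk => ?_
    rw [mem_filter] at hk
    unfold wt
    rw [if_pos ⟨hk.2.mul hk.2, ⟨k, rfl⟩⟩, Nat.sqrt_eq]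
  · intro n hn hn'
    unfold wt
    rw [if_neg, mul_zero]
    rintro ⟨h1, k, rfl⟩
    apply hn'
    rw [mem_image]
    rw [mem_Icc] at hn
    have hk : Odd k := (Nat.odd_mul.mp h1).1
    refine ⟨k, ?_, rfl⟩
    rw [mem_filter, mem_Icc]
    exact ⟨⟨hk.pos, Nat.mul_self_le_mul_self_iff.mp hn.2⟩, hk⟩

lemma kap_two_le : kap 2 ≤ 1 := by
  unfold kap
  have h1 : fk 2 1 = 1 := by unfold fk pc; simp
  have h2 : fk 2 2 = 0 := by unfold fk pc; simp
  have h3 := fk_tail 2 (A := 2) (by norm_num)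
  have e1 : ∑ a ∈ Icc 1 2, fk 2 a = 1 := by
    rw [show (Icc 1 2 : Finset ℕ) = {1, 2} from rfl, sum_pair (by norm_num), h1, h2]; norm_num
  rw [e1] at h3
  have h4 := (abs_le.mp h3).1
  have h5 : ((2:ℕ).totient : ℝ) / ((2:ℕ):ℝ) = 1 / 2 := by
    rw [Nat.totient_two]; norm_num
  rw [h5]
  norm_num at h4
  linarith

lemma kh_nonneg (k : ℕ) : 0 ≤ kap 2 * hk k := mul_nonneg kap_two_nonneg (hk_nonneg _)

lemma kh_le_one (k : ℕ) : kap 2 * hk k ≤ 1 := by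
  calc kap 2 * hk k ≤ 1 * 1 := mul_le_mul kap_two_le (hk_le_one k) (hk_nonneg k) (by norm_num)
    _ = 1 := by norm_num

/-- coefficients -/
lemma lc_add_le {α : ℝ} (hα : 1 ≤ α) (a b : ℕ) : lc α (a + b) ≤ lc α a * lc α b := by
  induction b with
  | zero => simp [lc_zero]
  | succ b ih =>
    have h0 : 0 ≤ lc α a := lc_nonneg (by linarith) a
    have h1 : 0 ≤ lc α b := lc_nonneg (by linarith) b
    have h2 : 0 ≤ lc α (a + b) := lc_nonneg (by linarith) _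
    rw [← add_assoc, lc_succ, lc_succ]
    have h3 : (α + ((a + b : ℕ) : ℝ)) / (((a + b : ℕ) : ℝ) + 1) ≤ (α + b) / ((b:ℝ) + 1) := by
      rw [div_le_div_iff₀ (by positivity) (by positivity)]
      push_cast
      have : (0:ℝ) ≤ a := Nat.cast_nonneg a
      have hb : (0:ℝ) ≤ b := Nat.cast_nonneg b
      nlinarith [mul_nonneg this (sub_nonneg.mpr hα)]
    calc lc α (a + b) * ((α + ((a + b : ℕ) : ℝ)) / (((a + b : ℕ) : ℝ) + 1))
        ≤ (lc α a * lc α b) * ((α + b) / ((b:ℝ) + 1)) :=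
          mul_le_mul ih h3 (by positivity) (mul_nonneg h0 h1)
      _ = _ := by ring

lemma dv_sq_arg {α : ℝ} (hα : 1 ≤ α) (k : ℕ) : dv α (k * k) ≤ dv α k ^ 2 := by
  unfold dv
  rcases Nat.eq_zero_or_pos k with h | h
  · subst h; simp
  · rw [if_neg (by positivity), if_neg (by omega), Nat.factorization_mul (by omega) (by omega)]
    have e1 : (k.factorization + k.factorization).prod (fun _ e => lc α e) =
        ∏ p ∈ k.factorization.support, lc α (k.factorization p + k.factorization p) := by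
      rw [Finsupp.prod_of_support_subset (s := k.factorization.support)]
      · rfl
      · intro p hp
        rw [Finsupp.mem_support_iff] at hp ⊢
        intro h0
        apply hp
        simp [h0]
      · intro p _; exact lc_zero α
    rw [e1]
    unfold Finsupp.prod
    rw [← Finset.prod_pow]
    refine prod_le_prod (fun p _ => lc_nonneg (by linarith) _) fun p _ => ?_
    rw [pow_two]
    exact lc_add_le hα _ _

lemma dv_kk {K : ℕ} (hK : 1 ≤ K) (k : ℕ) : dv ((2 * K : ℕ) : ℝ) (k * k) ≤ dv (((2 * K) ^ 2 : ℕ) : ℝ) k := by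
  have h1 : (1:ℝ) ≤ ((2 * K : ℕ) : ℝ) := by
    push_cast
    have : (1:ℝ) ≤ K := by exact_mod_cast hK
    linarith
  refine (dv_sq_arg h1 k).trans ?_
  have := dv_sq_le (Nat.cast_nonneg (2 * K) : (0:ℝ) ≤ ((2 * K : ℕ) : ℝ)) k
  push_cast at this ⊢
  exact this

lemma sq_rpow {k : ℕ} (δ : ℝ) : ((k * k : ℕ) : ℝ) ^ (-(1 / 2 + δ)) = (k:ℝ) ^ (-1 - 2 * δ) := by
  rcases Nat.eq_zero_or_pos k with h | h
  · subst h
    rcases eq_or_ne (-(1 / 2 + δ)) 0 with h1 | h1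
    · rw [h1, show -1 - 2 * δ = 0 by linarith, Real.rpow_zero]
    · rw [Nat.mul_zero, Nat.cast_zero, Real.zero_rpow h1, Real.zero_rpow (fun h2 => h1 (by linarith))]
  · have hk : (0:ℝ) < k := by exact_mod_cast h
    rw [Nat.cast_mul, Real.mul_rpow hk.le hk.le, ← Real.rpow_add hk]
    congr 1; ring

/-- sums over squares of convolution squares -/
lemma sq_part {K : ℕ} (hK : 1 ≤ K) {g : ℕ → ℝ} (hg : ∀ n, |g n| ≤ dv ((2 * K : ℕ) : ℝ) n) {N0 : ℕ} (hN0 : 1 ≤ N0)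
    {δ : ℝ} (hδ : 0 < δ) (hδ1 : δ ≤ 1) {F : Finset ℕ} (hF : ∀ k ∈ F, N0 ≤ k) :
    ∑ k ∈ F, |g (k * k) * ((k * k : ℕ) : ℝ) ^ (-(1 / 2 + δ)) * (kap 2 * hk k)| ≤
      (N0:ℝ) ^ (-δ) * (2 / δ) ^ ((2 * K) ^ 2) := by
  have h1 : ∀ k ∈ F, |g (k * k) * ((k * k : ℕ) : ℝ) ^ (-(1 / 2 + δ)) * (kap 2 * hk k)| ≤
      (N0:ℝ) ^ (-δ) * (dv (((2 * K) ^ 2 : ℕ) : ℝ) k * (k:ℝ) ^ (-1 - δ)) := by
    intro k hk
    have hk1 : 1 ≤ k := hN0.trans (hF k hk)
    have hk0 : (0:ℝ) < k := by exact_mod_cast hk1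
    have hN : (0:ℝ) < N0 := by exact_mod_cast hN0
    rw [sq_rpow, abs_mul, abs_mul, abs_of_nonneg (kh_nonneg k), abs_of_nonneg (by positivity : (0:ℝ) ≤ (k:ℝ) ^ (-1 - 2 * δ))]
    have h2 := (hg (k * k)).trans (dv_kk hK k)
    have h3 : (k:ℝ) ^ (-1 - 2 * δ) ≤ (k:ℝ) ^ (-1 - δ) * (N0:ℝ) ^ (-δ) := by
      rw [show -1 - 2 * δ = (-1 - δ) + (-δ) by ring, Real.rpow_add hk0]
      refine mul_le_mul_of_nonneg_left ?_ (by positivity)
      exact Real.rpow_le_rpow_of_nonpos hN (by exact_mod_cast hF k hk) (by linarith)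
    have h4 : 0 ≤ dv (((2 * K) ^ 2 : ℕ) : ℝ) k := dv_nonneg (Nat.cast_nonneg _) k
    calc |g (k * k)| * (k:ℝ) ^ (-1 - 2 * δ) * (kap 2 * QF.hk k)
        ≤ (dv (((2 * K) ^ 2 : ℕ) : ℝ) k * ((k:ℝ) ^ (-1 - δ) * (N0:ℝ) ^ (-δ))) * 1 := by
          refine mul_le_mul (mul_le_mul h2 h3 (by positivity) h4) (kh_le_one k) (kh_nonneg k) (by positivity)
      _ = _ := by ring
  refine (sum_le_sum h1).trans ?_
  rw [← mul_sum]
  exact mul_le_mul_of_nonneg_left (dvJ_sum _ hδ hδ1 F) (by positivity)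

end

end Pool.Agent.X110.QF
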