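import Pool.Agent.X110.QF4
import Pool.Agent.Y746.OA.Core

set_option autoImplicit false

/-! Mean squares over the family. -/

namespace Pool.Agent.X110.QF

open Finset Filter Topology
open Pool.Agent.H306R2 Pool.Agent.Y746.OA

noncomputable section

lemma conv_low {A : ArithmeticFunction ℝ} {N0 : ℕ} (h : ∀ n < N0, A n = 0) {k : ℕ} (hk : k < N0) :
    (A * A) (k * k) = 0 := by
  rw [ArithmeticFunction.mul_apply]
  refine sum_eq_zero fun x hx => ?_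
  rw [Nat.mem_divisorsAntidiagonal] at hx
  rcases lt_or_ge x.1 N0 with h1 | h1
  · rw [h _ h1, zero_mul]
  · rcases lt_or_ge x.2 N0 with h2 | h2
    · rw [h _ h2, mul_zero]
    · exfalso
      have : N0 * N0 ≤ x.1 * x.2 := Nat.mul_le_mul h1 h2
      rw [hx.1] at this
      have : k * k < N0 * N0 := Nat.mul_self_lt_mul_self hk
      omega

lemma conv_high {A : ArithmeticFunction ℝ} {M : ℕ} (h : ∀ n : ℕ, M < n → A n = 0) : ∀ n : ℕ, M * M < n → (A * A) n = 0 := by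
  intro n hn
  rw [ArithmeticFunction.mul_apply]
  refine sum_eq_zero fun x hx => ?_
  rw [Nat.mem_divisorsAntidiagonal] at hx
  rcases le_or_gt x.1 M with h1 | h1
  · rcases le_or_gt x.2 M with h2 | h2
    · exfalso
      have : x.1 * x.2 ≤ M * M := Nat.mul_le_mul h1 h2
      omega
    · rw [h _ h2, mul_zero]
  · rw [h _ h1, zero_mul]

lemma conv_abs {K : ℕ} {A : ArithmeticFunction ℝ} (hA : ∀ n, |A n| ≤ dv K n) (n : ℕ) :
    |(A * A) n| ≤ dv ((2 * K : ℕ) : ℝ) n := by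
  have := mul_abs_le (A := A) (B := A) (A' := dA K) (B' := dA K) hA hA n
  rw [dA_mul] at this
  refine this.trans (le_of_eq ?_)
  show dv _ n = _
  congr 1; push_cast; ring

/-- mean square over the family -/
theorem ms_fam {ε : ℤ} (hε : ε = 1 ∨ ε = -1) {K : ℕ} (hK : 1 ≤ K) {A : ArithmeticFunction ℝ} (hA : ∀ n, |A n| ≤ dv K n)
    {N0 M : ℕ} (hN0 : 1 ≤ N0) (hlow : ∀ n < N0, A n = 0) (hhigh : ∀ n : ℕ, M < n → A n = 0) {δ : ℝ} (hδ : 0 < δ)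
    (hδ1 : δ ≤ 1) (X : ℕ) :
    ∑ d ∈ fam X, PQ ε (1 / 2 + δ) (fun n => A n) M d ^ 2 ≤
      X * ((N0:ℝ) ^ (-δ) * (2 / δ) ^ ((2 * K) ^ 2)) + 42 * Real.sqrt X * (M:ℝ) ^ (4 * K + 4) := by
  have e1 : ∑ d ∈ fam X, PQ ε (1 / 2 + δ) (fun n => A n) M d ^ 2 =
      ∑ d ∈ fam X, PQ ε (1 / 2 + δ) (fun n => (A * A) n) (M * M) d :=
    sum_congr rfl fun d _ => by rw [PQ_mul ε _ A A hhigh hhigh d, pow_two]
  rw [e1]
  have h1 := PQ_avg hε (by linarith : (0:ℝ) ≤ 1 / 2 + δ) (fun n => (A * A) n) (M * M) X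
  have h2 := l1_poly (conv_abs hA) (M * M)
  rw [wt_sum (fun n => (A * A) n * (n:ℝ) ^ (-(1 / 2 + δ))) M] at h1
  have h3 : ∑ k ∈ (Icc 1 M).filter (fun k => Odd k), (A * A) (k * k) * ((k * k : ℕ) : ℝ) ^ (-(1 / 2 + δ)) * (kap 2 * hk k) ≤
      (N0:ℝ) ^ (-δ) * (2 / δ) ^ ((2 * K) ^ 2) := by
    have h4 : ∑ k ∈ (Icc 1 M).filter (fun k => Odd k), (A * A) (k * k) * ((k * k : ℕ) : ℝ) ^ (-(1 / 2 + δ)) * (kap 2 * hk k) =
        ∑ k ∈ ((Icc 1 M).filter (fun k => Odd k)).filter (fun k => N0 ≤ k),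
          (A * A) (k * k) * ((k * k : ℕ) : ℝ) ^ (-(1 / 2 + δ)) * (kap 2 * hk k) := by
      rw [sum_filter (fun k => N0 ≤ k)]
      refine sum_congr rfl fun k _ => ?_
      split_ifs with h
      · rfl
      · rw [conv_low hlow (by omega)]; ring
    rw [h4]
    refine (sum_le_sum fun k _ => le_abs_self _).trans ?_
    exact sq_part hK (g := fun n => (A * A) n) (conv_abs hA) hN0 hδ hδ1 fun k hk => (mem_filter.mp hk).2
  have h5 := (abs_le.mp h1).2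
  have hX : 0 ≤ Real.sqrt X := Real.sqrt_nonneg _
  have h6 : (((M * M : ℕ) : ℝ)) * ∑ n ∈ Icc 1 (M * M), |(A * A) n| ≤ (M:ℝ) ^ (4 * K + 4) := by
    calc (((M * M : ℕ) : ℝ)) * ∑ n ∈ Icc 1 (M * M), |(A * A) n| ≤ (((M * M : ℕ) : ℝ)) * (((M * M : ℕ) : ℝ)) ^ (2 * K + 1) := by gcongr
      _ = _ := by push_cast; ring
  have h7 : (X:ℝ) * ∑ k ∈ (Icc 1 M).filter (fun k => Odd k), (A * A) (k * k) * ((k * k : ℕ) : ℝ) ^ (-(1 / 2 + δ)) * (kap 2 * hk k) ≤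
      X * ((N0:ℝ) ^ (-δ) * (2 / δ) ^ ((2 * K) ^ 2)) := mul_le_mul_of_nonneg_left h3 (Nat.cast_nonneg _)
  have h8 : 42 * Real.sqrt X * ((((M * M : ℕ) : ℝ)) * ∑ n ∈ Icc 1 (M * M), |(A * A) n|) ≤ 42 * Real.sqrt X * (M:ℝ) ^ (4 * K + 4) :=
    mul_le_mul_of_nonneg_left h6 (by positivity)
  linarith

/-- partial sums against the series -/
lemma tsum_sub_sum {f : ℕ → ℝ} (hf : Summable f) (S : Finset ℕ) {E : ℝ}
    (h : ∀ F : Finset ℕ, Disjoint F S → |∑ k ∈ F, f k| ≤ E) : |∑' k, f k - ∑ k ∈ S, f k| ≤ E := by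
  have h1 : Tendsto (fun F : Finset ℕ => |∑ k ∈ F, f k - ∑ k ∈ S, f k|) atTop (𝓝 |∑' k, f k - ∑ k ∈ S, f k|) :=
    (hf.hasSum.sub_const _).abs
  refine le_of_tendsto h1 ((eventually_ge_atTop S).mono fun F hF => ?_)
  have h2 := sum_sdiff (f := f) hF
  rw [← h2, add_sub_cancel_right]
  exact h _ sdiff_disjoint

/-- the polynomials -/
def zp (ε : ℤ) (δ : ℝ) (N d : ℕ) (a : ℝ) : ℝ := PQ ε (1 / 2 + δ) (fun n => tr N (dA a) n) N d

lemma tr_high (N : ℕ) (A : ArithmeticFunction ℝ) : ∀ n : ℕ, N < n → tr N A n = 0 := by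
  intro n hn
  rw [Y746.OA.tr_apply, if_neg (by omega)]

lemma zp_zero (ε : ℤ) (δ : ℝ) {N : ℕ} (hN : 1 ≤ N) (d : ℕ) : zp ε δ N d 0 = 1 := by
  unfold zp PQ
  rw [sum_eq_single 1]
  · rw [chi_one]
    show tr N (dA 0) 1 * _ * _ = _
    rw [Y746.OA.tr_apply, if_pos hN, dA_apply, dv_one]; simp
  · intro n _ h1
    show tr N (dA 0) n * _ * _ = _
    rw [Y746.OA.tr_apply, dA_zero, ArithmeticFunction.one_apply_ne h1]; simp
  · intro h
    exact absurd (mem_Icc.mpr ⟨le_rfl, hN⟩) h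

/-- coefficients of `z_{a+b} - z_a z_b` as an arithmetic function -/
def gda (N : ℕ) (a b : ℝ) : ArithmeticFunction ℝ := tr N (dA (a + b)) - tr N (dA a) * tr N (dA b)

lemma gda_apply (N : ℕ) (a b : ℝ) (n : ℕ) : gda N a b n = Y746.OA.gd N a b n := rfl

lemma gda_high (N : ℕ) (hN : 1 ≤ N) (a b : ℝ) : ∀ n : ℕ, N * N < n → gda N a b n = 0 := by
  intro n hn
  have h1 : N ≤ N * N := Nat.le_mul_of_pos_left N hN
  rw [gda_apply]
  unfold Y746.OA.gd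
  rw [Y746.OA.tr_apply, if_neg (by omega), ArithmeticFunction.mul_apply]
  rw [sum_eq_zero, sub_zero]
  intro x hx
  rw [Nat.mem_divisorsAntidiagonal] at hx
  rcases le_or_gt x.1 N with h1 | h1
  · rcases le_or_gt x.2 N with h2 | h2
    · exfalso
      have : x.1 * x.2 ≤ N * N := Nat.mul_le_mul h1 h2
      omega
    · rw [tr_high N _ _ h2, mul_zero]
  · rw [tr_high N _ _ h1, zero_mul]

lemma gda_eval (ε : ℤ) (δ : ℝ) {N : ℕ} (hN : 1 ≤ N) (a b : ℝ) (d : ℕ) :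
    PQ ε (1 / 2 + δ) (fun n => gda N a b n) (N * N) d = zp ε δ N d (a + b) - zp ε δ N d a * zp ε δ N d b := by
  have h1 : N ≤ N * N := Nat.le_mul_of_pos_left N hN
  have e1 : (fun n => gda N a b n) = fun n => tr N (dA (a + b)) n - (tr N (dA a) * tr N (dA b)) n := rfl
  rw [e1, PQ_sub, PQ_mul ε _ _ _ (tr_high N _) (tr_high N _), PQ_mono ε _ _ h1 (tr_high N _)]
  rfl

lemma cast_two_mul (k : ℕ) : ((k:ℝ) + k) = ((2 * k : ℕ) : ℝ) := by push_cast; ring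

/-- all the mean squares -/
theorem ms_all_fam {ε : ℤ} (hε : ε = 1 ∨ ε = -1) {k : ℕ} (hk : 1 ≤ k) {N : ℕ} (hN : 1 ≤ N) {δ : ℝ} (hδ : 0 < δ) (hδ1 : δ ≤ 1)
    (X : ℕ) :
    (∀ a b : ℝ, |a| ≤ k → |b| ≤ k → ∑ d ∈ fam X, (zp ε δ N d (a + b) - zp ε δ N d a * zp ε δ N d b) ^ 2 ≤
      X * ((N:ℝ) ^ (-δ) * (2 / δ) ^ ((4 * k) ^ 2)) + 42 * Real.sqrt X * (N:ℝ) ^ (16 * k + 8)) ∧
    (∀ a : ℝ, |a| ≤ k → ∑ d ∈ fam X, zp ε δ N d a ^ 2 ≤
      X * (2 / δ) ^ ((4 * k) ^ 2) + 42 * Real.sqrt X * (N:ℝ) ^ (16 * k + 8)) ∧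
    (∀ a : ℝ, |a| ≤ k → ∑ d ∈ fam X, zp ε δ N d a ^ 4 ≤
      X * (2 / δ) ^ ((4 * k) ^ 2) + 42 * Real.sqrt X * (N:ℝ) ^ (16 * k + 8)) := by
  have hN1 : (1:ℝ) ≤ N := by exact_mod_cast hN
  have h2δ : 1 ≤ 2 / δ := by rw [le_div_iff₀ hδ]; linarith
  have hX : 0 ≤ Real.sqrt X := Real.sqrt_nonneg _
  have eM : (((N * N : ℕ)) : ℝ) ^ (4 * (2 * k) + 4) = (N:ℝ) ^ (16 * k + 8) := by
    rw [show (((N * N : ℕ)) : ℝ) = (N:ℝ) ^ 2 by push_cast; ring, ← pow_mul]; congr 1; ring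
  refine ⟨?_, ?_, ?_⟩
  · intro a b ha hb
    have h := ms_fam hε (K := 2 * k) (by omega) (A := gda N a b) (fun n => by
      have := gd_abs (N := N) ha hb n
      rw [cast_two_mul] at this
      rwa [gda_apply]) (N0 := N) (M := N * N) hN (fun n hn => gd_low hn.le a b) (gda_high N hN a b) hδ hδ1 X
    simp_rw [gda_eval ε δ hN] at h
    rw [eM] at h
    refine h.trans (le_of_eq ?_)
    congr 4; ring
  · intro a ha
    have h := ms_fam hε (K := k) hk (A := tr N (dA a)) (fun n => tr_abs_le (B := dA (k:ℝ)) (fun n => dv_abs_le ha n) n)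
      (N0 := 1) (M := N) le_rfl (fun n hn => by
        have : n = 0 := by omega
        subst this; simp) (tr_high N _) hδ hδ1 X
    rw [Nat.cast_one, Real.one_rpow, one_mul] at h
    refine h.trans ?_
    have h1 : (2 / δ) ^ ((2 * k) ^ 2) ≤ (2 / δ) ^ ((4 * k) ^ 2) := pow_le_pow_right₀ h2δ (by gcongr; omega)
    have h2 : (N:ℝ) ^ (4 * k + 4) ≤ (N:ℝ) ^ (16 * k + 8) := pow_le_pow_right₀ hN1 (by omega)
    gcongr
  · intro a ha
    have h := ms_fam hε (K := 2 * k) (by omega) (A := tr N (dA a) * tr N (dA a)) (fun n =>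
      conv_abs (A := tr N (dA a)) (fun n => tr_abs_le (B := dA (k:ℝ)) (fun n => dv_abs_le ha n) n) n)
      (N0 := 1) (M := N * N) le_rfl (fun n hn => by
        have : n = 0 := by omega
        subst this; simp) (conv_high (tr_high N _)) hδ hδ1 X
    rw [Nat.cast_one, Real.one_rpow, one_mul, eM] at h
    have e1 : ∀ d, zp ε δ N d a ^ 4 = PQ ε (1 / 2 + δ) (fun n => (tr N (dA a) * tr N (dA a)) n) (N * N) d ^ 2 := by
      intro d
      rw [PQ_mul ε _ _ _ (tr_high N _) (tr_high N _)]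
      unfold zp
      ring
    simp_rw [e1]
    refine h.trans (le_of_eq ?_)
    congr 3; ring

end

end Pool.Agent.X110.QF
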