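import Pool.Agent.X110.QF5

set_option autoImplicit false

/-! The main term. -/

namespace Pool.Agent.X110.QF

open Finset Filter Topology
open Pool.Agent.H306R2 Pool.Agent.Y746.OA

noncomputable section

/-- the diagonal series -/
def SQ (β δ : ℝ) : ℝ := ∑' k : ℕ, if Odd k then dv β (k ^ 2) * hk k * (k:ℝ) ^ (-1 - 2 * δ) else 0

/-- the terms, with the density -/
def ft (β δ : ℝ) (k : ℕ) : ℝ := if Odd k then dv β (k * k) * ((k * k : ℕ) : ℝ) ^ (-(1 / 2 + δ)) * (kap 2 * hk k) else 0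

lemma ft_tsum (β δ : ℝ) : ∑' k, ft β δ k = kap 2 * SQ β δ := by
  unfold SQ
  rw [← tsum_mul_left]
  refine tsum_congr fun k => ?_
  unfold ft
  split_ifs
  · rw [sq_rpow, pow_two]; ring
  · ring

lemma ft_part {K : ℕ} (hK : 1 ≤ K) {a : ℝ} (ha : |a| ≤ K) {N0 : ℕ} (hN0 : 1 ≤ N0)
    {δ : ℝ} (hδ : 0 < δ) (hδ1 : δ ≤ 1) {F : Finset ℕ} (hF : ∀ k ∈ F, N0 ≤ k ∨ k = 0) :
    ∑ k ∈ F, |ft (2 * a) δ k| ≤ (N0:ℝ) ^ (-δ) * (2 / δ) ^ ((2 * K) ^ 2) := by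
  have h1 : ∑ k ∈ F, |ft (2 * a) δ k| ≤ ∑ k ∈ F.filter (fun k => N0 ≤ k),
      |dv (2 * a) (k * k) * ((k * k : ℕ) : ℝ) ^ (-(1 / 2 + δ)) * (kap 2 * hk k)| := by
    rw [sum_filter]
    refine sum_le_sum fun k hk => ?_
    split_ifs with h
    · unfold ft
      split_ifs
      · exact le_rfl
      · rw [abs_zero]; exact abs_nonneg _
    · rcases hF k hk with h2 | h2
      · exact absurd h2 h
      · subst h2; unfold ft; simp
  refine h1.trans (sq_part hK (g := fun n => dv (2 * a) n) (fun n => ?_) hN0 hδ hδ1 fun k hk => (mem_filter.mp hk).2)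
  refine dv_abs_le ?_ n
  rw [abs_mul, abs_two]; push_cast; linarith

lemma ft_summable {K : ℕ} (hK : 1 ≤ K) {a : ℝ} (ha : |a| ≤ K) {δ : ℝ} (hδ : 0 < δ) (hδ1 : δ ≤ 1) :
    Summable (ft (2 * a) δ) := by
  rw [← summable_abs_iff]
  refine summable_of_sum_le (fun k => abs_nonneg _) (c := (1:ℝ) ^ (-δ) * (2 / δ) ^ ((2 * K) ^ 2)) fun F => ?_
  have := ft_part hK ha (N0 := 1) le_rfl hδ hδ1 (F := F) (fun k _ => by omega)
  simpa using this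

lemma sqrt_bd {N : ℕ} (hN : 1 ≤ N) {δ : ℝ} (hδ : 0 < δ) : ((Nat.sqrt N + 1 : ℕ) : ℝ) ^ (-δ) ≤ (N:ℝ) ^ (-(δ / 2)) := by
  have h1 : (N:ℝ) < ((Nat.sqrt N + 1 : ℕ) : ℝ) ^ 2 := by
    have := Nat.lt_succ_sqrt N
    rw [← pow_two] at this
    exact_mod_cast this
  have h2 : (0:ℝ) < N := by exact_mod_cast hN
  have h3 : ((Nat.sqrt N + 1 : ℕ) : ℝ) ^ (-δ) = ((((Nat.sqrt N + 1 : ℕ) : ℝ)) ^ 2) ^ (-(δ / 2)) := by
    rw [← Real.rpow_natCast _ 2, ← Real.rpow_mul (by positivity)]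
    congr 1; push_cast; ring
  rw [h3]
  exact Real.rpow_le_rpow_of_nonpos h2 h1.le (by linarith)

/-- the average of the squares -/
theorem avg_fam {ε : ℤ} (hε : ε = 1 ∨ ε = -1) {K : ℕ} (hK : 1 ≤ K) {N : ℕ} (hN : 1 ≤ N) {δ : ℝ} (hδ : 0 < δ)
    (hδ1 : δ ≤ 1) {a : ℝ} (ha : |a| ≤ K) (X : ℕ) :
    |∑ d ∈ fam X, zp ε δ N d a ^ 2 - X * (kap 2 * SQ (2 * a) δ)| ≤
      X * (2 * ((N:ℝ) ^ (-(δ / 2)) * (2 / δ) ^ ((2 * K) ^ 2))) + 42 * Real.sqrt X * (N:ℝ) ^ (4 * K + 4) := by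
  set A := Y746.OA.tr N (dA a) with hA
  have hAa : ∀ n, |A n| ≤ dv K n := fun n => tr_abs_le (B := dA (K:ℝ)) (fun n => dv_abs_le ha n) n
  have e1 : ∑ d ∈ fam X, zp ε δ N d a ^ 2 = ∑ d ∈ fam X, PQ ε (1 / 2 + δ) (fun n => (A * A) n) (N * N) d :=
    sum_congr rfl fun d _ => by
      rw [PQ_mul ε _ A A (tr_high N _) (tr_high N _) d, pow_two]; rfl
  rw [e1]
  have h1 := PQ_avg hε (by linarith : (0:ℝ) ≤ 1 / 2 + δ) (fun n => (A * A) n) (N * N) X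
  have h2 := l1_poly (conv_abs hAa) (N * N)
  rw [wt_sum (fun n => (A * A) n * (n:ℝ) ^ (-(1 / 2 + δ))) N] at h1
  set g : ℕ → ℝ := fun k => (A * A) (k * k) * ((k * k : ℕ) : ℝ) ^ (-(1 / 2 + δ)) * (kap 2 * hk k) with hg
  set s := Nat.sqrt N with hs
  set E := (N:ℝ) ^ (-(δ / 2)) * (2 / δ) ^ ((2 * K) ^ 2) with hE
  have hsE : ((s + 1 : ℕ) : ℝ) ^ (-δ) * (2 / δ) ^ ((2 * K) ^ 2) ≤ E :=
    mul_le_mul_of_nonneg_right (sqrt_bd hN hδ) (by positivity)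
  -- the tail of the series
  have h3 : |∑' k, ft (2 * a) δ k - ∑ k ∈ Icc 1 s, ft (2 * a) δ k| ≤ E := by
    refine tsum_sub_sum (ft_summable hK ha hδ hδ1) _ fun F hF => ?_
    refine (abs_sum_le_sum_abs _ _).trans ((ft_part hK ha (N0 := s + 1) (by omega) hδ hδ1 fun k hk => ?_).trans hsE)
    have : k ∉ Icc 1 s := fun h => (Finset.disjoint_left.mp hF) hk h
    rw [mem_Icc] at this
    omega
  -- the polynomial
  have h4 : ∑ k ∈ (Icc 1 N).filter (fun k => Odd k), g k = ∑ k ∈ Icc 1 s, ft (2 * a) δ k +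
      ∑ k ∈ ((Icc 1 N).filter (fun k => Odd k)).filter (fun k => ¬ k ≤ s), g k := by
    rw [← sum_filter_add_sum_filter_not ((Icc 1 N).filter (fun k => Odd k)) (fun k => k ≤ s)]
    congr 1
    rw [filter_filter, sum_filter]
    have hsN : s ≤ N := Nat.sqrt_le_self N
    have h5 : ∑ k ∈ Icc 1 s, ft (2 * a) δ k = ∑ k ∈ Icc 1 N, if k ≤ s then ft (2 * a) δ k else 0 := by
      rw [← sum_filter]
      refine sum_congr ?_ fun _ _ => rfl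
      ext k
      rw [mem_filter, mem_Icc, mem_Icc]
      omega
    rw [h5]
    refine sum_congr rfl fun k _ => ?_
    by_cases h6 : k ≤ s
    · rw [if_pos h6]
      unfold ft
      by_cases h7 : Odd k
      · rw [if_pos h7, if_pos ⟨h7, h6⟩]
        have h8 : k * k ≤ N := (Nat.mul_self_le_mul_self h6).trans (Nat.sqrt_le N)
        have h9 : (A * A) (k * k) = dv (2 * a) (k * k) := by
          rw [hA, tr_mul_low h8, dA_mul, dA_apply]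
          congr 1; ring
        rw [hg]
        show (A * A) (k * k) * _ * _ = _
        rw [h9]
      · rw [if_neg h7, if_neg (fun h => h7 h.1)]
    · rw [if_neg h6, if_neg (fun h => h6 h.2)]
  have h5 : |∑ k ∈ ((Icc 1 N).filter (fun k => Odd k)).filter (fun k => ¬ k ≤ s), g k| ≤ E := by
    refine (abs_sum_le_sum_abs _ _).trans ((sq_part hK (g := fun n => (A * A) n) (conv_abs hAa) (N0 := s + 1) (by omega)
      hδ hδ1 fun k hk => ?_).trans hsE)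
    have := (mem_filter.mp hk).2
    omega
  rw [ft_tsum] at h3
  have h6 : |∑ k ∈ (Icc 1 N).filter (fun k => Odd k), g k - kap 2 * SQ (2 * a) δ| ≤ 2 * E := by
    rw [h4]
    rw [abs_le] at h3 h5 ⊢
    constructor <;> linarith [h3.1, h3.2, h5.1, h5.2]
  have hX : 0 ≤ Real.sqrt X := Real.sqrt_nonneg _
  have h7 : (((N * N : ℕ) : ℝ)) * ∑ n ∈ Icc 1 (N * N), |(A * A) n| ≤ (N:ℝ) ^ (4 * K + 4) := by
    calc (((N * N : ℕ) : ℝ)) * ∑ n ∈ Icc 1 (N * N), |(A * A) n| ≤ (((N * N : ℕ) : ℝ)) * (((N * N : ℕ) : ℝ)) ^ (2 * K + 1) := by gcongr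
      _ = _ := by push_cast; ring
  have h8 : 42 * Real.sqrt X * ((((N * N : ℕ) : ℝ)) * ∑ n ∈ Icc 1 (N * N), |(A * A) n|) ≤ 42 * Real.sqrt X * (N:ℝ) ^ (4 * K + 4) :=
    mul_le_mul_of_nonneg_left h7 (by positivity)
  have h9 : |(X:ℝ) * ∑ k ∈ (Icc 1 N).filter (fun k => Odd k), g k - X * (kap 2 * SQ (2 * a) δ)| ≤ X * (2 * E) := by
    rw [← mul_sub, abs_mul, abs_of_nonneg (Nat.cast_nonneg _ : (0:ℝ) ≤ X)]
    exact mul_le_mul_of_nonneg_left h6 (Nat.cast_nonneg _)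
  have h10 := h1.trans h8
  rw [abs_le] at h9 h10 ⊢
  constructor <;> linarith [h9.1, h9.2, h10.1, h10.2]

lemma SQ_abs {K : ℕ} (hK : 1 ≤ K) {a : ℝ} (ha : |a| ≤ K) {δ : ℝ} (hδ : 0 < δ) (hδ1 : δ ≤ 1) :
    |kap 2 * SQ (2 * a) δ| ≤ (2 / δ) ^ ((2 * K) ^ 2) := by
  rw [← ft_tsum]
  have h := (ft_summable hK ha hδ hδ1).abs
  refine (norm_tsum_le_tsum_norm (f := ft (2 * a) δ) h).trans ?_
  refine h.tsum_le_of_sum_le fun F => ?_
  have := ft_part hK ha (N0 := 1) le_rfl hδ hδ1 (F := F) (fun k _ => by omega)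
  simpa using this

end

end Pool.Agent.X110.QF
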