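import Pool.Agent.X110.QF6

set_option autoImplicit false

/-! The mollifier. -/

namespace Pool.Agent.X110.QF

open Finset Filter Topology
open Pool.Agent.H306R2 Pool.Agent.Y746.OA

noncomputable section

/-- the mollifier coefficients -/
def mo (r : ℝ → ℝ) (L : ℝ) (M : ℕ) : ArithmeticFunction ℝ :=
  ⟨fun n => if n ≤ M then ((ArithmeticFunction.moebius n : ℤ) : ℝ) * r (Real.log n / L) else 0, by simp⟩

lemma mo_apply (r : ℝ → ℝ) (L : ℝ) (M n : ℕ) :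
    mo r L M n = if n ≤ M then ((ArithmeticFunction.moebius n : ℤ) : ℝ) * r (Real.log n / L) else 0 := rfl

lemma moebius_abs_real (n : ℕ) : |((ArithmeticFunction.moebius n : ℤ) : ℝ)| ≤ 1 := by
  have := ArithmeticFunction.abs_moebius_le_one (n := n)
  exact_mod_cast this

lemma dvone_ge {n : ℕ} (hn : n ≠ 0) : dv 1 n = 1 := by
  unfold dv
  rw [if_neg hn]
  unfold Finsupp.prod
  exact prod_eq_one fun p _ => lc_one_left _

lemma mo_abs {r : ℝ → ℝ} (h0 : ∀ u, 0 ≤ r u) (h1 : ∀ u, r u ≤ 1) (L : ℝ) (M n : ℕ) : |mo r L M n| ≤ dv ((1:ℕ):ℝ) n := by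
  rw [Nat.cast_one]
  rcases eq_or_ne n 0 with h | h
  · subst h; simp [dv]
  · rw [dvone_ge h, mo_apply]
    split_ifs
    · rw [abs_mul, abs_of_nonneg (h0 _)]
      calc _ ≤ (1:ℝ) * 1 := mul_le_mul (moebius_abs_real n) (h1 _) (h0 _) (by norm_num)
        _ = 1 := by norm_num
    · simp

/-- coefficients of `z_1 m - 1` -/
def cc (r : ℝ → ℝ) (L : ℝ) (N M : ℕ) : ArithmeticFunction ℝ := Y746.OA.tr N (dA 1) * mo r L M - 1

lemma cc_low {r : ℝ → ℝ} {L : ℝ} {N M : ℕ} (hr : ∀ u, u ≤ 1 / 400 → r u = 1) (hL : 0 < L)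
    (hN : Real.log N ≤ L / 400) (hNM : N ≤ M) : ∀ n < N + 1, cc r L N M n = 0 := by
  intro n hn
  rcases Nat.eq_zero_or_pos n with h0 | h0
  · subst h0; simp
  · have e1 : (Y746.OA.tr N (dA 1) * mo r L M) n =
        (((ArithmeticFunction.zeta : ArithmeticFunction ℕ) : ArithmeticFunction ℝ) *
          ((ArithmeticFunction.moebius : ArithmeticFunction ℤ) : ArithmeticFunction ℝ)) n := by
      rw [ArithmeticFunction.mul_apply, ArithmeticFunction.mul_apply]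
      refine sum_congr rfl fun x hx => ?_
      have h1 := div_le_of_mem hx
      rw [Nat.mem_divisorsAntidiagonal] at hx
      have h2 : x.1 ≠ 0 := by rintro h; rw [h, zero_mul] at hx; omega
      have h3 : x.2 ≠ 0 := by rintro h; rw [h, mul_zero] at hx; omega
      rw [Y746.OA.tr_apply, if_pos (by omega), dA_apply, dvone_ge h2, mo_apply, if_pos (by omega), hr, mul_one,
        ArithmeticFunction.natCoe_apply, ArithmeticFunction.zeta_apply_ne h2, ArithmeticFunction.intCoe_apply]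
      · simp
      · rw [div_le_iff₀ hL]
        have h4 : Real.log x.2 ≤ Real.log N := Real.log_le_log (by exact_mod_cast Nat.pos_of_ne_zero h3)
          (by exact_mod_cast (by omega : x.2 ≤ N))
        linarith
    have e2 : cc r L N M n = (Y746.OA.tr N (dA 1) * mo r L M) n - (1 : ArithmeticFunction ℝ) n := rfl
    rw [e2, e1, ArithmeticFunction.coe_zeta_mul_coe_moebius, sub_self]

lemma cc_high (r : ℝ → ℝ) (L : ℝ) {N M : ℕ} (hN : 1 ≤ N) (hM : 1 ≤ M) : ∀ n : ℕ, N * M < n → cc r L N M n = 0 := by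
  intro n hn
  have e2 : cc r L N M n = (Y746.OA.tr N (dA 1) * mo r L M) n - (1 : ArithmeticFunction ℝ) n := rfl
  have h0 : 1 ≤ N * M := Nat.mul_pos hN hM
  rw [e2, ArithmeticFunction.one_apply_ne (by omega), sub_zero, ArithmeticFunction.mul_apply]
  refine sum_eq_zero fun x hx => ?_
  rw [Nat.mem_divisorsAntidiagonal] at hx
  rcases le_or_gt x.1 N with h1 | h1
  · rcases le_or_gt x.2 M with h2 | h2
    · exfalso
      have : x.1 * x.2 ≤ N * M := Nat.mul_le_mul h1 h2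
      omega
    · rw [mo_apply, if_neg (by omega), mul_zero]
  · rw [tr_high N _ _ h1, zero_mul]

lemma cc_abs {r : ℝ → ℝ} (h0 : ∀ u, 0 ≤ r u) (h1 : ∀ u, r u ≤ 1) {L : ℝ} {N M : ℕ} (hr : ∀ u, u ≤ 1 / 400 → r u = 1) (hL : 0 < L)
    (hN : Real.log N ≤ L / 400) (hNM : N ≤ M) (hN1 : 1 ≤ N) (n : ℕ) : |cc r L N M n| ≤ dv ((2:ℕ):ℝ) n := by
  rcases lt_or_ge n (N + 1) with h | h
  · rw [cc_low hr hL hN hNM n h, abs_zero]
    exact dv_nonneg (Nat.cast_nonneg _) n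
  · have e2 : cc r L N M n = (Y746.OA.tr N (dA 1) * mo r L M) n - (1 : ArithmeticFunction ℝ) n := rfl
    rw [e2, ArithmeticFunction.one_apply_ne (by omega), sub_zero]
    have := mul_abs_le (A := Y746.OA.tr N (dA 1)) (B := mo r L M) (A' := dA ((1:ℕ):ℝ)) (B' := dA ((1:ℕ):ℝ))
      (tr_abs_le (B := dA ((1:ℕ):ℝ)) (fun n => dv_abs_le (by simp) n)) (mo_abs h0 h1 L M) n
    rw [dA_mul] at this
    refine this.trans (le_of_eq ?_)
    show dv _ n = _
    congr 1; norm_num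

lemma PQ_one (ε : ℤ) (σ : ℝ) {N : ℕ} (hN : 1 ≤ N) (d : ℕ) : PQ ε σ (fun n => (1 : ArithmeticFunction ℝ) n) N d = 1 := by
  unfold PQ
  rw [sum_eq_single 1]
  · rw [chi_one]; simp
  · intro n _ h1
    show (1 : ArithmeticFunction ℝ) n * _ * _ = _
    rw [ArithmeticFunction.one_apply_ne h1]; ring
  · intro h
    exact absurd (mem_Icc.mpr ⟨le_rfl, hN⟩) h

/-- `z_1 m - 1` in mean square -/
theorem moll_ms {ε : ℤ} (hε : ε = 1 ∨ ε = -1) {r : ℝ → ℝ} (h0 : ∀ u, 0 ≤ r u) (h1 : ∀ u, r u ≤ 1) {L : ℝ} {N M : ℕ}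
    (hr : ∀ u, u ≤ 1 / 400 → r u = 1) (hL : 0 < L) (hN : Real.log N ≤ L / 400) (hNM : N ≤ M) (hN1 : 1 ≤ N)
    {δ : ℝ} (hδ : 0 < δ) (hδ1 : δ ≤ 1) (X : ℕ) :
    ∑ d ∈ fam X, (1 - zp ε δ N d 1 * PQ ε (1 / 2 + δ) (fun n => mo r L M n) M d) ^ 2 ≤
      X * ((N:ℝ) ^ (-δ) * (2 / δ) ^ 16) + 42 * Real.sqrt X * ((N:ℝ) * M) ^ 12 := by
  have hM1 : 1 ≤ M := hN1.trans hNM
  have h := ms_fam hε (K := 2) (by norm_num) (A := cc r L N M) (cc_abs h0 h1 hr hL hN hNM hN1) (N0 := N + 1) (M := N * M)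
    (by omega) (cc_low hr hL hN hNM) (cc_high r L hN1 hM1) hδ hδ1 X
  have hNM1 : 1 ≤ N * M := Nat.mul_pos hN1 hM1
  have e1 : ∀ d, PQ ε (1 / 2 + δ) (fun n => cc r L N M n) (N * M) d =
      zp ε δ N d 1 * PQ ε (1 / 2 + δ) (fun n => mo r L M n) M d - 1 := by
    intro d
    have e2 : (fun n => cc r L N M n) = fun n => (Y746.OA.tr N (dA 1) * mo r L M) n - (1 : ArithmeticFunction ℝ) n := rfl
    rw [e2, PQ_sub, PQ_one ε _ hNM1, PQ_mul ε _ _ _ (tr_high N _)]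
    · rfl
    · intro n hn
      rw [mo_apply, if_neg (by omega)]
  simp_rw [e1] at h
  have e3 : ∀ d, (1 - zp ε δ N d 1 * PQ ε (1 / 2 + δ) (fun n => mo r L M n) M d) ^ 2 =
      (zp ε δ N d 1 * PQ ε (1 / 2 + δ) (fun n => mo r L M n) M d - 1) ^ 2 := fun d => by ring
  simp_rw [e3]
  refine h.trans ?_
  have h4 : (((N + 1 : ℕ)) : ℝ) ^ (-δ) ≤ (N:ℝ) ^ (-δ) :=
    Real.rpow_le_rpow_of_nonpos (by exact_mod_cast hN1) (by push_cast; linarith) (by linarith)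
  have h5 : (2 / δ) ^ ((2 * 2) ^ 2) = (2 / δ) ^ 16 := by norm_num
  rw [h5]
  have h6 : (((N * M : ℕ)) : ℝ) ^ (4 * 2 + 4) = ((N:ℝ) * M) ^ 12 := by push_cast; norm_num
  rw [h6]
  have hX : (0:ℝ) ≤ X := Nat.cast_nonneg _
  gcongr

end

end Pool.Agent.X110.QF
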