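import Pool.Agent.X110.QF7

set_option autoImplicit false

/-! The pointwise comparison. -/

namespace Pool.Agent.X110.QF

open Finset Filter Topology
open Pool.Agent.H306R2 Pool.Agent.Y746.OA

noncomputable section

/-- the cost at a point -/
def RR (z : ℝ → ℝ) (E : Finset ℝ) (W e v m : ℝ) : ℝ :=
  (∑ a ∈ E, ∑ b ∈ E, (z (a + b) - z a * z b) ^ 2 / e ^ 2) + (∑ a ∈ E, z a ^ 2 / W ^ 2) +
    (z (1 / 2 + 1 / 2) - z (1 / 2) * z (1 / 2)) ^ 2 / e ^ 2 + (1 - v * m) ^ 2 / (e / (5 * W)) ^ 2 +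
    (1 - z 1 * m) ^ 2 / (e / (5 * W)) ^ 2

lemma RR_nonneg (z : ℝ → ℝ) (E : Finset ℝ) (W e v m : ℝ) : 0 ≤ RR z E W e v m := by
  unfold RR
  have h1 : 0 ≤ ∑ a ∈ E, ∑ b ∈ E, (z (a + b) - z a * z b) ^ 2 / e ^ 2 :=
    sum_nonneg fun _ _ => sum_nonneg fun _ _ => by positivity
  have h2 : 0 ≤ ∑ a ∈ E, z a ^ 2 / W ^ 2 := sum_nonneg fun _ _ => by positivity
  positivity

lemma RR_lt {z : ℝ → ℝ} {E : Finset ℝ} {W e v m : ℝ} (hW : 0 < W) (he : 0 < e) (h : RR z E W e v m < 1) :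
    (∀ a ∈ E, ∀ b ∈ E, |z (a + b) - z a * z b| ≤ e) ∧ (∀ a ∈ E, |z a| ≤ W) ∧
      |z (1 / 2 + 1 / 2) - z (1 / 2) * z (1 / 2)| ≤ e ∧ |1 - v * m| ≤ e / (5 * W) ∧ |1 - z 1 * m| ≤ e / (5 * W) := by
  have h1 : 0 ≤ ∑ a ∈ E, ∑ b ∈ E, (z (a + b) - z a * z b) ^ 2 / e ^ 2 :=
    sum_nonneg fun _ _ => sum_nonneg fun _ _ => by positivity
  have h2 : 0 ≤ ∑ a ∈ E, z a ^ 2 / W ^ 2 := sum_nonneg fun _ _ => by positivity
  have h3 : 0 ≤ (z (1 / 2 + 1 / 2) - z (1 / 2) * z (1 / 2)) ^ 2 / e ^ 2 := by positivity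
  have h4 : 0 ≤ (1 - v * m) ^ 2 / (e / (5 * W)) ^ 2 := by positivity
  have h5 : 0 ≤ (1 - z 1 * m) ^ 2 / (e / (5 * W)) ^ 2 := by positivity
  have key : ∀ x y : ℝ, 0 < y → x ^ 2 / y ^ 2 ≤ 1 → |x| ≤ y := by
    intro x y hy h
    rw [div_le_one (by positivity)] at h
    exact abs_le_of_sq_le_sq h hy.le
  have he5 : 0 < e / (5 * W) := by positivity
  unfold RR at h
  refine ⟨fun a ha b hb => key _ _ he ?_, fun a ha => key _ _ hW ?_, key _ _ he (by linarith), key _ _ he5 (by linarith),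
    key _ _ he5 (by linarith)⟩
  · have h6 : (z (a + b) - z a * z b) ^ 2 / e ^ 2 ≤ ∑ b ∈ E, (z (a + b) - z a * z b) ^ 2 / e ^ 2 :=
      single_le_sum (f := fun b => (z (a + b) - z a * z b) ^ 2 / e ^ 2) (fun _ _ => by positivity) hb
    have h7 : ∑ b ∈ E, (z (a + b) - z a * z b) ^ 2 / e ^ 2 ≤ ∑ a ∈ E, ∑ b ∈ E, (z (a + b) - z a * z b) ^ 2 / e ^ 2 :=
      single_le_sum (f := fun a => ∑ b ∈ E, (z (a + b) - z a * z b) ^ 2 / e ^ 2)
        (fun _ _ => sum_nonneg fun _ _ => by positivity) ha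
    linarith
  · have h6 : z a ^ 2 / W ^ 2 ≤ ∑ a ∈ E, z a ^ 2 / W ^ 2 :=
      single_le_sum (f := fun a => z a ^ 2 / W ^ 2) (fun _ _ => by positivity) ha
    linarith

lemma bad1 {v V B γ b ρ : ℝ} (hV : 1 ≤ V) (hvV : V ≤ v) (hB : 0 < B) (hγ : γ + 1 ≤ b) (hb0 : 0 ≤ b)
    (h0 : 0 ≤ ρ) (h1 : ρ ≤ 1 / 4) (hBv : |Real.log B - b * Real.log v| ≤ ρ) : V ^ (2 * γ) ≤ 2 * ((V ^ 2)⁻¹ * B ^ 2) := by
  have hV0 : 0 < V := by linarith
  have he := exp_two_rho h0 h1
  have he2 : Real.exp (2 * ρ) ≤ 2 := by linarith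
  have hlV : 0 ≤ Real.log V := Real.log_nonneg hV
  have hlv : Real.log V ≤ Real.log v := Real.log_le_log hV0 hvV
  obtain ⟨b1, b2⟩ := abs_le.mp hBv
  have eB : B ^ 2 = Real.exp (2 * Real.log B) := by
    rw [← Real.exp_log hB, Real.log_exp, ← Real.exp_nat_mul]; norm_num
  have eV : (V ^ 2)⁻¹ = Real.exp (-(2 * Real.log V)) := by
    rw [Real.exp_neg]; congr 1
    rw [← Real.exp_log hV0, Real.log_exp, ← Real.exp_nat_mul]; norm_num
  have hVp : V ^ (2 * γ) = Real.exp (2 * γ * Real.log V) := by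
    rw [Real.rpow_def_of_pos hV0]; congr 1; ring
  rw [hVp, eV, eB, ← Real.exp_add]
  have : Real.exp (2 * γ * Real.log V) ≤ Real.exp (2 * ρ) * Real.exp (-(2 * Real.log V) + 2 * Real.log B) := by
    rw [← Real.exp_add]
    refine Real.exp_le_exp.mpr ?_
    nlinarith [mul_nonneg hb0 (sub_nonneg.mpr hlv), mul_nonneg (by linarith : 0 ≤ b - γ - 1) hlV]
  exact this.trans (mul_le_mul_of_nonneg_right he2 (Real.exp_pos _).le)

lemma bad2 {v V B B' γ b ρ : ℝ} (hV : 1 ≤ V) (hv : 0 < v) (hbad : ¬ (V⁻¹ < v ∧ v < V)) (hB : 0 < B) (hB' : 0 < B')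
    (hγ : γ + 1 ≤ b) (hb0 : 0 ≤ b)
    (h0 : 0 ≤ ρ) (h1 : ρ ≤ 1 / 4) (hBv : |Real.log B - b * Real.log v| ≤ ρ) (hBv' : |Real.log B' + b * Real.log v| ≤ ρ) :
    V ^ (2 * γ) ≤ 2 * (V ^ 2)⁻¹ * (B ^ 2 + B' ^ 2) := by
  have hV0 : 0 < V := by linarith
  have p1 : 0 ≤ 2 * ((V ^ 2)⁻¹ * B ^ 2) := by positivity
  have p2 : 0 ≤ 2 * ((V ^ 2)⁻¹ * B' ^ 2) := by positivity
  rcases le_or_gt V v with hc | hc
  · have := bad1 hV hc hB hγ hb0 h0 h1 hBv
    linarith
  · have hd : v ≤ V⁻¹ := by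
      by_contra h
      push Not at h
      exact hbad ⟨h, hc⟩
    have h3 : V ≤ v⁻¹ := by rw [le_inv_comm₀ hV0 hv]; exact hd
    have := bad1 (v := v⁻¹) hV h3 hB' hγ hb0 h0 h1 (by rw [Real.log_inv]; simpa using hBv')
    linarith

open Classical in
/-- the truncated power -/
def tp (V α v : ℝ) : ℝ := if V⁻¹ < v ∧ v < V then v ^ (2 * α) else 0

open Classical in
/-- indicator of the exceptional values -/
def ib (V v : ℝ) : ℝ := if V⁻¹ < v ∧ v < V then 0 else 1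

lemma tp_clip {V α v : ℝ} (h : V⁻¹ < v ∧ v < V) : tp V α v = clip V v ^ (2 * α) := by
  unfold tp clip
  rw [if_pos h, min_eq_left h.2.le, max_eq_right h.1.le]

lemma tp_le {V α v : ℝ} (hV : 1 ≤ V) : tp V α v ≤ V ^ |2 * α| := by
  by_cases h : V⁻¹ < v ∧ v < V
  · rw [tp_clip h]; exact clip_pow_le hV _
  · unfold tp; rw [if_neg h]; positivity

lemma tp_nonneg {V α v : ℝ} (hV : 1 ≤ V) : 0 ≤ tp V α v := by
  unfold tp
  split_ifs with h
  · exact Real.rpow_nonneg ((inv_nonneg.mpr (by linarith)).trans h.1.le) _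
  · exact le_rfl

/-- the pointwise theorem -/
theorem ptq {z : ℝ → ℝ} (hz0 : z 0 = 1) {α b : ℝ} (hαb : |α| + 1 ≤ b) {J : ℕ} {V W e Y v m : ℝ} (hV : 1 ≤ V) (hW : 1 ≤ W)
    (he : 0 < e) (hWe : 8 * W ^ 2 * e ≤ 1) (hY : 0 < Y) (hρ : rho b W e J ≤ 1 / 4) :
    |tp V α v - z α ^ 2| ≤ 4 * rho b W e J * z α ^ 2 + 10 * (V ^ 2)⁻¹ * (z b ^ 2 + z (-b) ^ 2) +
      (V ^ |2 * α| + Y) * RR z (Ex b α J) W e v m + z α ^ 4 / Y ∧
    ib V v ≤ 2 * (V ^ 2)⁻¹ * (z b ^ 2 + z (-b) ^ 2) + RR z (Ex b α J) W e v m := by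
  have hR := RR_nonneg z (Ex b α J) W e v m
  have hb1 : 1 ≤ b := by have := abs_nonneg α; linarith
  have hρ0 : 0 ≤ rho b W e J := by
    unfold rho
    have : 0 ≤ Real.log (2 * W) := Real.log_nonneg (by linarith)
    positivity
  have hVp : 0 < V ^ |2 * α| := by positivity
  have p1 : 0 ≤ 4 * rho b W e J * z α ^ 2 := by positivity
  have p2 : 0 ≤ (V ^ 2)⁻¹ * (z b ^ 2 + z (-b) ^ 2) := by positivity
  have p3 : 0 ≤ z α ^ 4 / Y := by positivity
  have p4 : 0 ≤ (V ^ |2 * α| + Y) * RR z (Ex b α J) W e v m := by positivity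
  rcases lt_or_ge (RR z (Ex b α J) W e v m) 1 with hc | hc
  · obtain ⟨g1, g2, g3, g4, g5⟩ := RR_lt (by linarith) he hc
    have h1E : (1:ℝ) ∈ Ex b α J := S1_sub (S1_iter1 (j := 0) (by omega))
    have hG : Good (fun y => ((z y : ℝ) : ℂ)) (Ex b α J) W e :=
      { z0 := by rw [hz0]; simp
        W1 := hW, e0 := he.le, small := hWe, zero := S1_sub (S1_zero b α J),
        neg := fun a ha => Ex_neg ha
        mul := fun a ha b hb => by
          rw [← Complex.ofReal_mul, ← Complex.ofReal_sub, Complex.norm_real]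
          exact g1 a ha b hb
        bd := fun a ha => by rw [Complex.norm_real]; exact g2 a ha }
    have hz1 := hG.low h1E
    rw [Complex.norm_real, Real.norm_eq_abs] at hz1
    have he8 := hG.e_half
    have hW0 : 0 < W := by linarith
    have heW : e ≤ 1 / (8 * W) := by
      rw [le_div_iff₀ (by positivity)]
      nlinarith
    have hη : e / (5 * W) ≤ 1 / 40 := by
      rw [div_le_div_iff₀ (by positivity) (by norm_num)]
      nlinarith
    -- v close to z 1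
    have hm : 39 / 40 ≤ W * |m| := by
      have h2 : 1 - |1 - z 1 * m| ≤ |z 1| * |m| := by
        rw [← abs_mul]
        have := abs_sub_abs_le_abs_sub (1:ℝ) (1 - z 1 * m)
        rw [abs_one] at this
        have e1 : (1:ℝ) - (1 - z 1 * m) = z 1 * m := by ring
        rw [e1] at this
        exact this
      have h3 : |z 1| * |m| ≤ W * |m| := mul_le_mul_of_nonneg_right (g2 1 h1E) (abs_nonneg _)
      linarith
    have hvz : |v - z 1| ≤ e := by
      have h2 : |v - z 1| * |m| ≤ 2 * (e / (5 * W)) := by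
        rw [← abs_mul]
        have e1 : (v - z 1) * m = (1 - z 1 * m) - (1 - v * m) := by ring
        rw [e1]
        refine (abs_sub _ _).trans ?_
        linarith
      have h3 : |v - z 1| * (W * |m|) ≤ 2 / 5 * e := by
        calc |v - z 1| * (W * |m|) = W * (|v - z 1| * |m|) := by ring
          _ ≤ W * (2 * (e / (5 * W))) := mul_le_mul_of_nonneg_left h2 hW0.le
          _ = 2 / 5 * e := by field_simp
      have h4 : |v - z 1| * (39 / 40) ≤ |v - z 1| * (W * |m|) := mul_le_mul_of_nonneg_left hm (abs_nonneg _)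
      have := abs_nonneg (v - z 1)
      nlinarith
    have e8 : 1 / (8 * W) = 1 / 4 * (1 / (2 * W)) := by field_simp; norm_num
    have hW2 : 0 < 1 / (2 * W) := by positivity
    have hz1p : 1 / (2 * W) ≤ z 1 := by
      have e1 : (1:ℝ) / 2 + 1 / 2 = 1 := by norm_num
      rw [e1] at g3
      have h2 := (abs_le.mp g3).1
      have h3 : 0 ≤ z (1 / 2) * z (1 / 2) := mul_self_nonneg _
      rcases le_or_gt 0 (z 1) with h4 | h4
      · rwa [abs_of_nonneg h4] at hz1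
      · rw [abs_of_neg h4] at hz1
        exfalso
        linarith
    have hv : 0 < v := by
      have := (abs_le.mp hvz).1
      linarith
    obtain ⟨m1, m2, m3, m4⟩ := hG.main hb1 (by linarith) (S1_sub (S1_b b α J)) J
      (fun j hj => ⟨S1_sub (S1_iter hj), S1_two (S1_iter hj)⟩)
      (fun j hj => ⟨S1_sub (S1_iter1 hj), S1_two (S1_iter1 hj)⟩) (ζ := (v : ℂ)) (by
        rw [← Complex.ofReal_sub, Complex.norm_real]; exact hvz)
    have hαE : α ∈ Ex b α J := S1_sub (S1_iter (j := 0) (by omega))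
    have hbE : b ∈ Ex b α J := S1_sub (S1_b b α J)
    have q1 := hG.pos hαE
    have q2 := hG.pos hbE
    have q3 := hG.pos (Ex_neg hbE)
    simp only [Complex.norm_real, Real.norm_eq_abs] at m1 m2 m3 m4 q1 q2 q3
    rw [abs_of_pos hv] at m1 m2 m3 m4
    have G := good_ineq hV hv q1 q2 q3 hαb hρ0 hρ m2 m3 m4
    rw [sq_abs, sq_abs, sq_abs] at G
    by_cases hgood : V⁻¹ < v ∧ v < V
    · constructor
      · rw [tp_clip hgood]
        linarith
      · unfold ib; rw [if_pos hgood]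
        linarith
    · have B1 := bad2 (γ := |α|) hV hv hgood q2 q3 hαb (by linarith) hρ0 hρ m3 m4
      have B0 := bad2 (γ := 0) hV hv hgood q2 q3 (by linarith) (by linarith) hρ0 hρ m3 m4
      rw [sq_abs, sq_abs] at B1 B0
      rw [mul_zero, Real.rpow_zero] at B0
      constructor
      · have h5 : clip V v ^ (2 * α) ≤ V ^ (2 * |α|) := by
          have := clip_pow_le (v := v) hV (2 * α)
          rwa [abs_mul, abs_two] at this
        have h6 : 0 ≤ clip V v ^ (2 * α) := Real.rpow_nonneg (clip_pos hV).le _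
        unfold tp
        rw [if_neg hgood, zero_sub, abs_neg, abs_of_nonneg (sq_nonneg _)]
        have := (abs_le.mp G).1
        linarith
      · unfold ib; rw [if_neg hgood]
        linarith
  · constructor
    · have h1 := tp_le (α := α) (v := v) hV
      have h2 := tp_nonneg (α := α) (v := v) hV
      set A := z α with hA
      have h3 : A ^ 2 ≤ Y + A ^ 4 / Y := by
        rcases le_or_gt (A ^ 2) Y with h | h
        · linarith
        · have : A ^ 2 ≤ A ^ 4 / Y := by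
            rw [le_div_iff₀ hY]
            calc A ^ 2 * Y ≤ A ^ 2 * A ^ 2 := mul_le_mul_of_nonneg_left h.le (by positivity)
              _ = A ^ 4 := by ring
          linarith
      have h4 : V ^ |2 * α| + Y ≤ (V ^ |2 * α| + Y) * RR z (Ex b α J) W e v m :=
        le_mul_of_one_le_right (by positivity) hc
      have h5 : 0 ≤ A ^ 2 := by positivity
      rw [abs_le]
      constructor <;> linarith
    · have : ib V v ≤ 1 := by unfold ib; split_ifs <;> norm_num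
      linarith

end

end Pool.Agent.X110.QF
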