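import Pool.Agent.X110.QF8
import Pool.Agent.Y746.CS.Par

set_option autoImplicit false

/-! The comparison, summed over the family. -/

namespace Pool.Agent.X110.QF

open Finset Filter Topology
open Pool.Agent.H306R2 Pool.Agent.Y746.OA

noncomputable section

lemma RS_le {ε : ℤ} {δ : ℝ} {N X : ℕ} {E : Finset ℝ} {W e g s m1 m2 : ℝ} {v m : ℕ → ℝ}
    (hg : ∀ a ∈ E, ∀ b ∈ E, ∑ d ∈ fam X, (zp ε δ N d (a + b) - zp ε δ N d a * zp ε δ N d b) ^ 2 ≤ g)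
    (hg2 : ∑ d ∈ fam X, (zp ε δ N d (1 / 2 + 1 / 2) - zp ε δ N d (1 / 2) * zp ε δ N d (1 / 2)) ^ 2 ≤ g)
    (hs : ∀ a ∈ E, ∑ d ∈ fam X, zp ε δ N d a ^ 2 ≤ s)
    (h1 : ∑ d ∈ fam X, (1 - v d * m d) ^ 2 ≤ m1) (h2 : ∑ d ∈ fam X, (1 - zp ε δ N d 1 * m d) ^ 2 ≤ m2) :
    ∑ d ∈ fam X, RR (zp ε δ N d) E W e (v d) (m d) ≤
      (#E : ℝ) * ((#E : ℝ) * (g / e ^ 2)) + (#E : ℝ) * (s / W ^ 2) + g / e ^ 2 + m1 / (e / (5 * W)) ^ 2 +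
        m2 / (e / (5 * W)) ^ 2 := by
  unfold RR
  rw [sum_add_distrib, sum_add_distrib, sum_add_distrib, sum_add_distrib]
  have e1 : ∑ d ∈ fam X, ∑ a ∈ E, ∑ b ∈ E, (zp ε δ N d (a + b) - zp ε δ N d a * zp ε δ N d b) ^ 2 / e ^ 2 ≤
      (#E : ℝ) * ((#E : ℝ) * (g / e ^ 2)) := by
    rw [sum_comm]
    have h3 : ∀ a ∈ E, ∑ d ∈ fam X, ∑ b ∈ E, (zp ε δ N d (a + b) - zp ε δ N d a * zp ε δ N d b) ^ 2 / e ^ 2 ≤
        (#E : ℝ) * (g / e ^ 2) := by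
      intro a ha
      rw [sum_comm]
      refine (sum_le_card_nsmul _ _ (g / e ^ 2) fun b hb => ?_).trans (le_of_eq (nsmul_eq_mul _ _))
      rw [← sum_div]
      exact div_le_div_of_nonneg_right (hg a ha b hb) (sq_nonneg _)
    exact (sum_le_card_nsmul _ _ _ h3).trans (le_of_eq (nsmul_eq_mul _ _))
  have e2 : ∑ d ∈ fam X, ∑ a ∈ E, zp ε δ N d a ^ 2 / W ^ 2 ≤ (#E : ℝ) * (s / W ^ 2) := by
    rw [sum_comm]
    refine (sum_le_card_nsmul _ _ (s / W ^ 2) fun a ha => ?_).trans (le_of_eq (nsmul_eq_mul _ _))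
    rw [← sum_div]
    exact div_le_div_of_nonneg_right (hs a ha) (sq_nonneg _)
  have e3 : ∑ d ∈ fam X, (zp ε δ N d (1 / 2 + 1 / 2) - zp ε δ N d (1 / 2) * zp ε δ N d (1 / 2)) ^ 2 / e ^ 2 ≤ g / e ^ 2 := by
    rw [← sum_div]
    exact div_le_div_of_nonneg_right hg2 (sq_nonneg _)
  have e4 : ∑ d ∈ fam X, (1 - v d * m d) ^ 2 / (e / (5 * W)) ^ 2 ≤ m1 / (e / (5 * W)) ^ 2 := by
    rw [← sum_div]
    exact div_le_div_of_nonneg_right h1 (sq_nonneg _)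
  have e5 : ∑ d ∈ fam X, (1 - zp ε δ N d 1 * m d) ^ 2 / (e / (5 * W)) ^ 2 ≤ m2 / (e / (5 * W)) ^ 2 := by
    rw [← sum_div]
    exact div_le_div_of_nonneg_right h2 (sq_nonneg _)
  linarith

/-- the summed comparison -/
lemma sumA {ε : ℤ} {δ : ℝ} {N X : ℕ} (hN : 1 ≤ N) {α b : ℝ} (hαb : |α| + 1 ≤ b) {J : ℕ} {V W e Y s RS : ℝ}
    {v m : ℕ → ℝ} (hV : 1 ≤ V) (hW : 1 ≤ W)
    (he : 0 < e) (hWe : 8 * W ^ 2 * e ≤ 1) (hY : 0 < Y) (hρ : rho b W e J ≤ 1 / 4)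
    (hsα : ∑ d ∈ fam X, zp ε δ N d α ^ 2 ≤ s) (hsb : ∑ d ∈ fam X, zp ε δ N d b ^ 2 ≤ s)
    (hsb' : ∑ d ∈ fam X, zp ε δ N d (-b) ^ 2 ≤ s) (hs4 : ∑ d ∈ fam X, zp ε δ N d α ^ 4 ≤ s)
    (hRS : ∑ d ∈ fam X, RR (zp ε δ N d) (Ex b α J) W e (v d) (m d) ≤ RS) :
    |∑ d ∈ fam X, tp V α (v d) - ∑ d ∈ fam X, zp ε δ N d α ^ 2| ≤
      4 * rho b W e J * s + 10 * (V ^ 2)⁻¹ * (s + s) + (V ^ |2 * α| + Y) * RS + s / Y ∧
    ∑ d ∈ fam X, ib V (v d) ≤ 2 * (V ^ 2)⁻¹ * (s + s) + RS := by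
  have hb1 : 1 ≤ b := by have := abs_nonneg α; linarith
  have hρ0 : 0 ≤ rho b W e J := by
    unfold rho
    have : 0 ≤ Real.log (2 * W) := Real.log_nonneg (by linarith)
    positivity
  have hV0 : 0 < V := by linarith
  have hp := fun d : ℕ => ptq (z := zp ε δ N d) (zp_zero ε δ hN d) hαb (J := J) (V := V) (W := W) (e := e) (Y := Y)
    (v := v d) (m := m d) hV hW he hWe hY hρ
  constructor
  · rw [← sum_sub_distrib]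
    refine (abs_sum_le_sum_abs _ _).trans ((sum_le_sum fun d _ => (hp d).1).trans ?_)
    rw [sum_add_distrib, sum_add_distrib, sum_add_distrib, ← mul_sum, ← mul_sum, ← mul_sum, ← sum_div, sum_add_distrib]
    have h1 : 0 ≤ V ^ |2 * α| + Y := by positivity
    gcongr
  · refine (sum_le_sum fun d _ => (hp d).2).trans ?_
    rw [sum_add_distrib, ← mul_sum, sum_add_distrib]
    gcongr

/-- numerical bound of the cost -/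
lemma numR {n X w L g s m1 m2 C1 : ℝ} {E0 : ℕ} (hn0 : 0 ≤ n) (hn : n ≤ 33 * L) (hX : 0 ≤ X) (hw : 1 ≤ w) (hL : 1 ≤ L) (hC1 : 0 ≤ C1)
    (hg : g ≤ 12 * X * (w ^ 15)⁻¹) (hs : s ≤ 12 * X * L ^ E0) (h1 : m1 ≤ C1 * X * (w ^ 16)⁻¹)
    (h2 : m2 ≤ 2 * X * (w ^ 15)⁻¹) :
    n * (n * (g / (1 / (8 * w ^ 5)) ^ 2)) + n * (s / (w ^ 2) ^ 2) + g / (1 / (8 * w ^ 5)) ^ 2 +
      m1 / ((1 / (8 * w ^ 5)) / (5 * w ^ 2)) ^ 2 + m2 / ((1 / (8 * w ^ 5)) / (5 * w ^ 2)) ^ 2 ≤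
    X * ((900000 + 1600 * C1) * L ^ (E0 + 2) * w⁻¹) := by
  have hw0 : 0 < w := by linarith
  have hL0 : 0 ≤ L := by linarith
  have hLE : 1 ≤ L ^ E0 := one_le_pow₀ hL
  have hLE2 : L ^ 2 ≤ L ^ (E0 + 2) := pow_le_pow_right₀ hL (by omega)
  have hLE1 : L ^ (E0 + 1) ≤ L ^ (E0 + 2) := pow_le_pow_right₀ hL (by omega)
  have hL2 : 1 ≤ L ^ (E0 + 2) := one_le_pow₀ hL
  have winv : w⁻¹ ≤ 1 := inv_le_one_of_one_le₀ hw
  have wi0 : 0 ≤ w⁻¹ := by positivity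
  have hpow : ∀ k : ℕ, w⁻¹ ^ (k + 1) ≤ w⁻¹ := fun k => by
    rw [pow_succ]
    exact mul_le_of_le_one_left wi0 (pow_le_one₀ wi0 winv)
  have hA : g / (1 / (8 * w ^ 5)) ^ 2 ≤ 768 * X * w⁻¹ := by
    rw [show g / (1 / (8 * w ^ 5)) ^ 2 = g * (64 * w ^ 10) by field_simp; ring]
    calc g * (64 * w ^ 10) ≤ 12 * X * (w ^ 15)⁻¹ * (64 * w ^ 10) := mul_le_mul_of_nonneg_right hg (by positivity)
      _ = 768 * X * w⁻¹ ^ 5 := by field_simp; ring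
      _ ≤ 768 * X * w⁻¹ := mul_le_mul_of_nonneg_left (hpow 4) (by positivity)
  have hB : s / (w ^ 2) ^ 2 ≤ 12 * X * L ^ E0 * w⁻¹ := by
    calc s / (w ^ 2) ^ 2 ≤ 12 * X * L ^ E0 / (w ^ 2) ^ 2 := div_le_div_of_nonneg_right hs (by positivity)
      _ = 12 * X * L ^ E0 * w⁻¹ ^ 4 := by field_simp
      _ ≤ _ := mul_le_mul_of_nonneg_left (hpow 3) (by positivity)
  have hC : m1 / ((1 / (8 * w ^ 5)) / (5 * w ^ 2)) ^ 2 ≤ 1600 * C1 * X * w⁻¹ := by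
    rw [show m1 / ((1 / (8 * w ^ 5)) / (5 * w ^ 2)) ^ 2 = m1 * (1600 * w ^ 14) by field_simp; ring]
    calc m1 * (1600 * w ^ 14) ≤ C1 * X * (w ^ 16)⁻¹ * (1600 * w ^ 14) := mul_le_mul_of_nonneg_right h1 (by positivity)
      _ = 1600 * C1 * X * w⁻¹ ^ 2 := by field_simp
      _ ≤ _ := mul_le_mul_of_nonneg_left (hpow 1) (by positivity)
  have hD : m2 / ((1 / (8 * w ^ 5)) / (5 * w ^ 2)) ^ 2 ≤ 3200 * X * w⁻¹ := by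
    rw [show m2 / ((1 / (8 * w ^ 5)) / (5 * w ^ 2)) ^ 2 = m2 * (1600 * w ^ 14) by field_simp; ring]
    calc m2 * (1600 * w ^ 14) ≤ 2 * X * (w ^ 15)⁻¹ * (1600 * w ^ 14) := mul_le_mul_of_nonneg_right h2 (by positivity)
      _ = 3200 * X * w⁻¹ := by field_simp; ring
  have hXw : 0 ≤ X * w⁻¹ := by positivity
  have t1 : n * (n * (g / (1 / (8 * w ^ 5)) ^ 2)) ≤ 836352 * (X * w⁻¹) * L ^ (E0 + 2) := by
    calc n * (n * (g / (1 / (8 * w ^ 5)) ^ 2)) ≤ n * (n * (768 * X * w⁻¹)) := by gcongr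
      _ ≤ (33 * L) * ((33 * L) * (768 * X * w⁻¹)) := by gcongr
      _ = 836352 * (X * w⁻¹) * L ^ 2 := by ring
      _ ≤ _ := by gcongr
  have t2 : n * (s / (w ^ 2) ^ 2) ≤ 396 * (X * w⁻¹) * L ^ (E0 + 2) := by
    calc n * (s / (w ^ 2) ^ 2) ≤ n * (12 * X * L ^ E0 * w⁻¹) := mul_le_mul_of_nonneg_left hB hn0
      _ ≤ (33 * L) * (12 * X * L ^ E0 * w⁻¹) := mul_le_mul_of_nonneg_right hn (by positivity)
      _ = 396 * (X * w⁻¹) * L ^ (E0 + 1) := by ring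
      _ ≤ _ := by gcongr
  have t3 : 768 * X * w⁻¹ ≤ 768 * (X * w⁻¹) * L ^ (E0 + 2) := by
    calc 768 * X * w⁻¹ = 768 * (X * w⁻¹) * 1 := by ring
      _ ≤ _ := by gcongr
  have t4 : 1600 * C1 * X * w⁻¹ ≤ 1600 * C1 * (X * w⁻¹) * L ^ (E0 + 2) := by
    calc 1600 * C1 * X * w⁻¹ = 1600 * C1 * (X * w⁻¹) * 1 := by ring
      _ ≤ _ := by gcongr
  have t5 : 3200 * X * w⁻¹ ≤ 3200 * (X * w⁻¹) * L ^ (E0 + 2) := by
    calc 3200 * X * w⁻¹ = 3200 * (X * w⁻¹) * 1 := by ring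
      _ ≤ _ := by gcongr
  have hXL : 0 ≤ (X * w⁻¹) * L ^ (E0 + 2) := by positivity
  have e0 : X * ((900000 + 1600 * C1) * L ^ (E0 + 2) * w⁻¹) =
      900000 * ((X * w⁻¹) * L ^ (E0 + 2)) + 1600 * C1 * ((X * w⁻¹) * L ^ (E0 + 2)) := by ring
  rw [e0]
  linarith

end

end Pool.Agent.X110.QF
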