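import Pool.Agent.X110.QF9

set_option autoImplicit false

/-! Numerical lemmas for the assembly. -/

namespace Pool.Agent.X110.QF

open Finset Filter Topology
open Pool.Agent.H306R2 Pool.Agent.Y746.OA

noncomputable section

lemma inv_of_mul_le {a b c : ℝ} (ha : 0 < a) (hb : 0 < b) (h : c * b ≤ a) : c * a⁻¹ ≤ b⁻¹ := by
  rw [← div_eq_mul_inv, div_le_iff₀ ha, inv_mul_eq_div, le_div_iff₀ hb]
  exact h

/-- the basic comparisons -/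
lemma facts {L w V Vb : ℝ} {E0 B P A : ℕ} (hL : 1 ≤ L) (hw1 : 1 ≤ w) (hw : L ^ P ≤ w) (hP : P = 2 * (E0 + B + 3))
    (hV1 : 1 ≤ V) (hV : L ^ A ≤ V) (hA : A = E0 + B + 1) (hVb : Vb ^ 2 ≤ w) :
    L ^ E0 * w⁻¹ ≤ (L ^ (B + 1))⁻¹ ∧ L ^ E0 * (V ^ 2)⁻¹ ≤ (L ^ (B + 1))⁻¹ ∧
    Vb * (L ^ (E0 + 2) * w⁻¹) ≤ (L ^ (B + 1))⁻¹ ∧ L ^ (E0 + B + 1) * (L ^ (E0 + 2) * w⁻¹) ≤ (L ^ (B + 1))⁻¹ ∧
    L ^ E0 / L ^ (E0 + B + 1) = (L ^ (B + 1))⁻¹ ∧ L ^ E0 * (w ^ 8)⁻¹ ≤ (L ^ (B + 1))⁻¹ ∧ (w ^ 16)⁻¹ ≤ (L ^ (B + 1))⁻¹ ∧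
    L ^ (E0 + 2) * w⁻¹ ≤ (L ^ (B + 1))⁻¹ := by
  have hL0 : 0 < L := by linarith
  have hw0 : 0 < w := by linarith
  have hq : 0 < L ^ (B + 1) := by positivity
  have hmono : ∀ i : ℕ, i ≤ P → L ^ i ≤ w := fun i hi => (pow_le_pow_right₀ hL hi).trans hw
  have f1 : L ^ E0 * w⁻¹ ≤ (L ^ (B + 1))⁻¹ := by
    refine inv_of_mul_le hw0 hq ?_
    rw [← pow_add]; exact hmono _ (by omega)
  have f8 : L ^ (E0 + 2) * w⁻¹ ≤ (L ^ (B + 1))⁻¹ := by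
    refine inv_of_mul_le hw0 hq ?_
    rw [← pow_add]; exact hmono _ (by omega)
  have hwi : w⁻¹ ≤ 1 := inv_le_one_of_one_le₀ hw1
  have hwi0 : 0 ≤ w⁻¹ := by positivity
  have hE : 1 ≤ L ^ E0 := one_le_pow₀ hL
  refine ⟨f1, ?_, ?_, ?_, ?_, ?_, ?_, f8⟩
  · refine inv_of_mul_le (by positivity) hq ?_
    rw [← pow_add]
    calc L ^ (E0 + (B + 1)) = L ^ A := by rw [hA]; ring_nf
      _ ≤ V := hV
      _ ≤ V ^ 2 := by nlinarith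
  · rw [← mul_assoc]
    refine inv_of_mul_le hw0 hq ?_
    have h1 : L ^ (E0 + 2) * L ^ (B + 1) = L ^ (E0 + B + 3) := by rw [← pow_add]; congr 1; ring
    have h2 : (L ^ (E0 + B + 3)) ^ 2 ≤ w := by rw [← pow_mul]; exact hmono _ (by omega)
    rw [mul_assoc, h1]
    have h3 : 0 ≤ L ^ (E0 + B + 3) := by positivity
    nlinarith [sq_nonneg (Vb - L ^ (E0 + B + 3))]
  · rw [← mul_assoc]
    refine inv_of_mul_le hw0 hq ?_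
    rw [← pow_add, ← pow_add]; exact hmono _ (by omega)
  · rw [add_assoc, pow_add]
    field_simp
  · have : (w ^ 8)⁻¹ ≤ w⁻¹ := by
      rw [← inv_pow]
      exact pow_le_of_le_one hwi0 hwi (by norm_num)
    exact (mul_le_mul_of_nonneg_left this (by positivity)).trans f1
  · have : (w ^ 16)⁻¹ ≤ w⁻¹ := by
      rw [← inv_pow]
      exact pow_le_of_le_one hwi0 hwi (by norm_num)
    refine this.trans (le_trans ?_ f1)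
    exact le_mul_of_one_le_left hwi0 hE

/-- the total error -/
lemma numF {X L w V Vb C2 bb ρ q Y E : ℝ} {E0 : ℕ} (hX : 0 ≤ X) (hL : 0 ≤ L) (hC2 : 0 ≤ C2) (hbb : 0 ≤ bb)
    (hρ : ρ ≤ bb * (4 * w⁻¹))
    (f1 : L ^ E0 * w⁻¹ ≤ q) (f2 : L ^ E0 * (V ^ 2)⁻¹ ≤ q) (f3 : Vb * (L ^ (E0 + 2) * w⁻¹) ≤ q)
    (f4 : Y * (L ^ (E0 + 2) * w⁻¹) ≤ q) (f5 : L ^ E0 / Y = q) (f6 : L ^ E0 * (w ^ 8)⁻¹ ≤ q) (f7 : (w ^ 16)⁻¹ ≤ q)
    (hE : E ≤ X * (2 * (L ^ E0 * (w ^ 8)⁻¹)) + 11 * X * (w ^ 16)⁻¹) :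
    4 * ρ * (12 * X * L ^ E0) + 10 * (V ^ 2)⁻¹ * (12 * X * L ^ E0 + 12 * X * L ^ E0) +
      (Vb + Y) * (X * (C2 * L ^ (E0 + 2) * w⁻¹)) + 12 * X * L ^ E0 / Y + E ≤
    X * ((192 * bb + 240 + 2 * C2 + 12 + 13) * q) := by
  have hXL : 0 ≤ X * L ^ E0 := by positivity
  have t1 : 4 * ρ * (12 * X * L ^ E0) ≤ 192 * bb * (X * q) := by
    calc 4 * ρ * (12 * X * L ^ E0) = 48 * (X * L ^ E0) * ρ := by ring
      _ ≤ 48 * (X * L ^ E0) * (bb * (4 * w⁻¹)) := mul_le_mul_of_nonneg_left hρ (by positivity)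
      _ = 192 * bb * (X * (L ^ E0 * w⁻¹)) := by ring
      _ ≤ _ := by gcongr
  have t2 : 10 * (V ^ 2)⁻¹ * (12 * X * L ^ E0 + 12 * X * L ^ E0) ≤ 240 * (X * q) := by
    calc 10 * (V ^ 2)⁻¹ * (12 * X * L ^ E0 + 12 * X * L ^ E0) = 240 * (X * (L ^ E0 * (V ^ 2)⁻¹)) := by ring
      _ ≤ _ := by gcongr
  have t3 : (Vb + Y) * (X * (C2 * L ^ (E0 + 2) * w⁻¹)) ≤ 2 * C2 * (X * q) := by
    calc (Vb + Y) * (X * (C2 * L ^ (E0 + 2) * w⁻¹)) =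
        C2 * (X * (Vb * (L ^ (E0 + 2) * w⁻¹))) + C2 * (X * (Y * (L ^ (E0 + 2) * w⁻¹))) := by ring
      _ ≤ C2 * (X * q) + C2 * (X * q) := by gcongr
      _ = _ := by ring
  have t4 : 12 * X * L ^ E0 / Y = 12 * (X * q) := by rw [← f5]; ring
  have t5 : E ≤ 13 * (X * q) := by
    refine hE.trans ?_
    calc X * (2 * (L ^ E0 * (w ^ 8)⁻¹)) + 11 * X * (w ^ 16)⁻¹ ≤ X * (2 * q) + 11 * X * q := by gcongr
      _ = _ := by ring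
  rw [t4]
  have e0 : X * ((192 * bb + 240 + 2 * C2 + 12 + 13) * q) = 192 * bb * (X * q) + 240 * (X * q) + 2 * C2 * (X * q) +
      12 * (X * q) + 13 * (X * q) := by ring
  rw [e0]
  linarith

/-- the error of the iteration -/
lemma rho_bound {b w L : ℝ} (hb : 0 ≤ b) (hw : 1 ≤ w) (hL : 24 ≤ L) (hwL : w ^ 16 ≤ Real.exp L) :
    rho b (w ^ 2) (1 / (8 * w ^ 5)) ⌈4 * L⌉₊ ≤ (b + 1) * (4 * w⁻¹) := by
  unfold rho
  have hw0 : 0 < w := by linarith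
  refine mul_le_mul_of_nonneg_left ?_ (by linarith)
  have h1 : 8 * (w ^ 2) ^ 2 * (1 / (8 * w ^ 5)) = w⁻¹ := by field_simp
  rw [h1]
  have h2 : (1 / 2 : ℝ) ^ ⌈4 * L⌉₊ ≤ Real.exp (-(2 * L)) := by
    have h3 : (4 * L) ≤ (⌈4 * L⌉₊ : ℝ) := Nat.le_ceil _
    have h4 : (1 / 2 : ℝ) = Real.exp (-Real.log 2) := by rw [Real.exp_neg, Real.exp_log (by norm_num)]; norm_num
    rw [h4, ← Real.exp_nat_mul]
    refine Real.exp_le_exp.mpr ?_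
    have := Real.log_two_gt_d9
    nlinarith
  have h3 : Real.log (2 * w ^ 2) ≤ 2 * w ^ 2 := (Real.log_le_sub_one_of_pos (by positivity)).trans (by linarith)
  have h4 : (1 / 2 : ℝ) ^ ⌈4 * L⌉₊ * (2 * Real.log (2 * w ^ 2)) ≤ w⁻¹ := by
    have h5 : (1 / 2 : ℝ) ^ ⌈4 * L⌉₊ * (2 * Real.log (2 * w ^ 2)) ≤ Real.exp (-(2 * L)) * (4 * w ^ 2) := by
      have : (0:ℝ) ≤ 2 * Real.log (2 * w ^ 2) := by
        have : 0 ≤ Real.log (2 * w ^ 2) := Real.log_nonneg (by nlinarith)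
        linarith
      exact mul_le_mul h2 (by linarith) this (Real.exp_pos _).le
    refine h5.trans ?_
    have h6 : w ^ 3 ≤ Real.exp L := (pow_le_pow_right₀ hw (by norm_num)).trans hwL
    have h7 : (4:ℝ) ≤ Real.exp L := by linarith [Real.add_one_le_exp L]
    have h8 : 4 * w ^ 3 ≤ Real.exp (2 * L) := by
      calc 4 * w ^ 3 ≤ Real.exp L * Real.exp L := mul_le_mul h7 h6 (by positivity) (Real.exp_pos _).le
        _ = _ := by rw [← Real.exp_add]; congr 1; ring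
    calc Real.exp (-(2 * L)) * (4 * w ^ 2) = (4 * w ^ 3) * Real.exp (-(2 * L)) * w⁻¹ := by field_simp
      _ ≤ Real.exp (2 * L) * Real.exp (-(2 * L)) * w⁻¹ := by gcongr
      _ = w⁻¹ := by rw [← Real.exp_add]; simp
  linarith

end

end Pool.Agent.X110.QF
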