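import Pool.Agent.X110.QG1

set_option autoImplicit false

/-! Mean squares with the parameters. -/

namespace Pool.Agent.X110.QF

open Finset Filter Topology
open Pool.Agent.H306R2 Pool.Agent.Y746.OA

noncomputable section

/-- length of the mollifier -/
def ML (X : ℕ) : ℕ := ⌊(X:ℝ) ^ (1 / 100 : ℝ)⌋₊

/-- the mollifier -/
def mv (ε : ℤ) (δ : ℝ) (r : ℝ → ℝ) (X d : ℕ) : ℝ :=
  PQ ε (1 / 2 + δ) (fun n => mo r (Real.log X) (ML X) n) (ML X) d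

/-- the mollified mean square is small -/
def Hyp (ε : ℤ) (v : ℕ → ℝ → ℝ) : Prop :=
  ∃ (r : ℝ → ℝ) (C1 c0 L1 : ℝ), 0 < C1 ∧ 0 < c0 ∧ (∀ u, 0 ≤ r u) ∧ (∀ u, r u ≤ 1) ∧ (∀ u, u ≤ 1 / 400 → r u = 1) ∧
    ∀ X : ℕ, L1 ≤ Real.log X → ∀ δ : ℝ, 1 ≤ δ * Real.log X → δ ≤ 1 / 2 →
      ∑ d ∈ fam X, (1 - v d (1 / 2 + δ) * mv ε δ r X d) ^ 2 ≤ X * (C1 * Real.exp (-(c0 * (δ * Real.log X))))

lemma msP {ε : ℤ} (hε : ε = 1 ∨ ε = -1) {k : ℕ} (hk : 1 ≤ k) {X : ℕ} {T L w δ : ℝ} {N Q : ℕ} (hXT : (X:ℝ) = T ^ 2)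
    (hT : Real.sqrt X = T) (hT0 : 0 < T) (hN : 1 ≤ N) (hδ0 : 0 < δ) (hδ1 : δ ≤ 1 / 16) (h2δ : 2 / δ ≤ L)
    (hw1 : 1 ≤ w) (hNQ : 4 * (N:ℝ) ^ Q ≤ T * (w ^ 16)⁻¹) (hQ : 16 * k + 8 ≤ Q) (hNδ : (N:ℝ) ^ (-δ) ≤ (w ^ 16)⁻¹)
    (hL1 : 1 ≤ L) (hwE : L ^ ((4 * k) ^ 2) ≤ w) :
    (∀ a b : ℝ, |a| ≤ k → |b| ≤ k → ∑ d ∈ fam X, (zp ε δ N d (a + b) - zp ε δ N d a * zp ε δ N d b) ^ 2 ≤
      12 * X * (w ^ 15)⁻¹) ∧
    (∀ a : ℝ, |a| ≤ k → ∑ d ∈ fam X, zp ε δ N d a ^ 2 ≤ 12 * X * L ^ ((4 * k) ^ 2)) ∧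
    (∀ a : ℝ, |a| ≤ k → ∑ d ∈ fam X, zp ε δ N d a ^ 4 ≤ 12 * X * L ^ ((4 * k) ^ 2)) ∧
    (∀ a : ℝ, |a| ≤ k → |∑ d ∈ fam X, zp ε δ N d a ^ 2 - X * (kap 2 * SQ (2 * a) δ)| ≤
      X * (2 * (L ^ ((4 * k) ^ 2) * (w ^ 8)⁻¹)) + 11 * X * (w ^ 16)⁻¹) := by
  have hN1 : (1:ℝ) ≤ N := by exact_mod_cast hN
  have hN0 : (0:ℝ) < N := by linarith
  have hw0 : 0 < w := by linarith
  have hX0 : (0:ℝ) ≤ X := Nat.cast_nonneg _
  have hδle : δ ≤ 1 := by linarith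
  have h2δ0 : 0 ≤ 2 / δ := by positivity
  have hE : (2 / δ) ^ ((4 * k) ^ 2) ≤ L ^ ((4 * k) ^ 2) := pow_le_pow_left₀ h2δ0 h2δ _
  have hLE : 1 ≤ L ^ ((4 * k) ^ 2) := one_le_pow₀ hL1
  have h42 : 42 * Real.sqrt X * (N:ℝ) ^ (16 * k + 8) ≤ 11 * X * (w ^ 16)⁻¹ := by
    have h1 : (N:ℝ) ^ (16 * k + 8) ≤ (N:ℝ) ^ Q := pow_le_pow_right₀ hN1 hQ
    rw [hT, hXT]
    calc 42 * T * (N:ℝ) ^ (16 * k + 8) ≤ 42 * T * (N:ℝ) ^ Q := by gcongr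
      _ = (42 / 4 * T) * (4 * (N:ℝ) ^ Q) := by ring
      _ ≤ (42 / 4 * T) * (T * (w ^ 16)⁻¹) := by gcongr
      _ = 42 / 4 * (T ^ 2 * (w ^ 16)⁻¹) := by ring
      _ ≤ 11 * (T ^ 2 * (w ^ 16)⁻¹) := by gcongr; norm_num
      _ = _ := by ring
  have hw16 : (w ^ 16)⁻¹ ≤ (w ^ 15)⁻¹ := by
    have : w ^ 15 ≤ w ^ 16 := pow_le_pow_right₀ hw1 (by norm_num)
    exact inv_anti₀ (by positivity) this
  have hw16' : (w ^ 16)⁻¹ ≤ 1 := inv_le_one_of_one_le₀ (one_le_pow₀ hw1)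
  have hww : (w ^ 16)⁻¹ * w = (w ^ 15)⁻¹ := by field_simp
  obtain ⟨a1, a2, a3⟩ := ms_all_fam hε hk hN hδ0 hδle X
  refine ⟨fun a b ha hb => (a1 a b ha hb).trans ?_, fun a ha => (a2 a ha).trans ?_, fun a ha => (a3 a ha).trans ?_,
    fun a ha => ?_⟩
  · calc (X:ℝ) * ((N:ℝ) ^ (-δ) * (2 / δ) ^ ((4 * k) ^ 2)) + 42 * Real.sqrt X * (N:ℝ) ^ (16 * k + 8)
        ≤ X * ((w ^ 16)⁻¹ * w) + 11 * X * (w ^ 15)⁻¹ := by
          refine add_le_add (mul_le_mul_of_nonneg_left (mul_le_mul hNδ (hE.trans hwE) (by positivity) (by positivity)) hX0)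
            (h42.trans (mul_le_mul_of_nonneg_left hw16 (by positivity)))
      _ = _ := by rw [hww]; ring
  · calc (X:ℝ) * (2 / δ) ^ ((4 * k) ^ 2) + 42 * Real.sqrt X * (N:ℝ) ^ (16 * k + 8)
        ≤ X * L ^ ((4 * k) ^ 2) + 11 * X * 1 := by
          refine add_le_add (mul_le_mul_of_nonneg_left hE hX0) (h42.trans (mul_le_mul_of_nonneg_left hw16' (by positivity)))
      _ ≤ X * L ^ ((4 * k) ^ 2) + 11 * X * L ^ ((4 * k) ^ 2) := by gcongr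
      _ = _ := by ring
  · calc (X:ℝ) * (2 / δ) ^ ((4 * k) ^ 2) + 42 * Real.sqrt X * (N:ℝ) ^ (16 * k + 8)
        ≤ X * L ^ ((4 * k) ^ 2) + 11 * X * 1 := by
          refine add_le_add (mul_le_mul_of_nonneg_left hE hX0) (h42.trans (mul_le_mul_of_nonneg_left hw16' (by positivity)))
      _ ≤ X * L ^ ((4 * k) ^ 2) + 11 * X * L ^ ((4 * k) ^ 2) := by gcongr
      _ = _ := by ring
  · refine (avg_fam hε hk hN hδ0 hδle ha X).trans ?_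
    have h1 : (N:ℝ) ^ (-(δ / 2)) ≤ (w ^ 8)⁻¹ := by
      have h2 : ((N:ℝ) ^ (-(δ / 2))) ^ 2 ≤ ((w ^ 8)⁻¹) ^ 2 := by
        rw [← Real.rpow_natCast, ← Real.rpow_mul hN0.le, inv_pow, ← pow_mul]
        have : -(δ / 2) * ((2:ℕ):ℝ) = -δ := by push_cast; ring
        rw [this]
        exact hNδ
      exact (pow_le_pow_iff_left₀ (by positivity) (by positivity) (by norm_num)).mp h2
    have h3 : (2 / δ) ^ ((2 * k) ^ 2) ≤ L ^ ((4 * k) ^ 2) := by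
      refine (pow_le_pow_left₀ h2δ0 h2δ _).trans (pow_le_pow_right₀ hL1 ?_)
      gcongr; omega
    have h4 : (N:ℝ) ^ (4 * k + 4) ≤ (N:ℝ) ^ (16 * k + 8) := pow_le_pow_right₀ hN1 (by omega)
    have h5 : 42 * Real.sqrt X * (N:ℝ) ^ (4 * k + 4) ≤ 11 * X * (w ^ 16)⁻¹ := by
      refine le_trans ?_ h42
      gcongr
    refine add_le_add (mul_le_mul_of_nonneg_left ?_ hX0) h5
    have h6 : (N:ℝ) ^ (-(δ / 2)) * (2 / δ) ^ ((2 * k) ^ 2) ≤ (w ^ 8)⁻¹ * L ^ ((4 * k) ^ 2) :=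
      mul_le_mul h1 h3 (by positivity) (by positivity)
    linarith

/-- size of the parameters -/
lemma sizeP {L w δ T : ℝ} {N Q : ℕ} (hTL : T = Real.exp L) (hL : 24 ≤ L) (hN : 1 ≤ N) (hδ0 : 0 < δ) (hδ1 : δ ≤ 1 / 16)
    (hw1 : 1 ≤ w) (hNQ : 4 * (N:ℝ) ^ Q ≤ T * (w ^ 16)⁻¹) (hQ : 200 ≤ Q) (hNδ : (N:ℝ) ^ (-δ) ≤ (w ^ 16)⁻¹) :
    Real.log N ≤ L / Q ∧ (N:ℝ) ≤ Real.exp (L / 200) ∧ w ^ 16 ≤ Real.exp (L / 200) ∧ w ^ 16 ≤ Real.exp (δ * (L / Q)) := by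
  have hN1 : (1:ℝ) ≤ N := by exact_mod_cast hN
  have hN0 : (0:ℝ) < N := by linarith
  have hQ0 : (0:ℝ) < Q := by exact_mod_cast (by omega : 0 < Q)
  have hw16' : (w ^ 16)⁻¹ ≤ 1 := inv_le_one_of_one_le₀ (one_le_pow₀ hw1)
  have hlogN : 0 ≤ Real.log N := Real.log_nonneg hN1
  have h1 : (N:ℝ) ^ Q ≤ Real.exp L := by
    have h2 : T * (w ^ 16)⁻¹ ≤ T * 1 := mul_le_mul_of_nonneg_left hw16' (by rw [hTL]; positivity)
    have h3 : (0:ℝ) ≤ (N:ℝ) ^ Q := by positivity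
    rw [← hTL]; linarith
  have h2 : Real.log N ≤ L / Q := by
    rw [le_div_iff₀ hQ0, mul_comm]
    have := Real.log_le_log (by positivity) h1
    rwa [Real.log_exp, Real.log_pow] at this
  have h3 : L / Q ≤ L / 200 := by
    have : (200:ℝ) ≤ Q := by exact_mod_cast hQ
    exact div_le_div_of_nonneg_left (by linarith) (by norm_num) this
  have h4 : (N:ℝ) ≤ Real.exp (L / 200) := by
    rw [← Real.exp_log hN0]
    exact Real.exp_le_exp.mpr (h2.trans h3)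
  have h5 : w ^ 16 ≤ (N:ℝ) ^ δ := by
    rw [Real.rpow_neg hN0.le] at hNδ
    exact (inv_le_inv₀ (by positivity) (by positivity)).mp hNδ
  refine ⟨h2, h4, ?_, ?_⟩
  · refine h5.trans (le_trans ?_ h4)
    calc (N:ℝ) ^ δ ≤ (N:ℝ) ^ (1:ℝ) := Real.rpow_le_rpow_of_exponent_le hN1 (by linarith)
      _ = N := Real.rpow_one _
  · refine h5.trans ?_
    rw [Real.rpow_def_of_pos hN0]
    refine Real.exp_le_exp.mpr ?_
    rw [mul_comm]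
    exact mul_le_mul_of_nonneg_left h2 hδ0.le

/-- the mean square of `1 - z_1 m` -/
lemma m2P {ε : ℤ} (hε : ε = 1 ∨ ε = -1) {r : ℝ → ℝ} (h0 : ∀ u, 0 ≤ r u) (h1 : ∀ u, r u ≤ 1) (hr : ∀ u, u ≤ 1 / 400 → r u = 1)
    {X : ℕ} {T L w δ : ℝ} {N Q : ℕ} (hXT : (X:ℝ) = T ^ 2)
    (hT : Real.sqrt X = T) (hTL : T = Real.exp L) (hL : 24 ≤ L) (hN : 1 ≤ N) (hδ0 : 0 < δ) (hδ1 : δ ≤ 1 / 16) (h2δ : 2 / δ ≤ L)
    (hw1 : 1 ≤ w) (hNQ : 4 * (N:ℝ) ^ Q ≤ T * (w ^ 16)⁻¹) (hQ : 200 ≤ Q) (hNδ : (N:ℝ) ^ (-δ) ≤ (w ^ 16)⁻¹)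
    (hwE : L ^ 16 ≤ w) :
    ∑ d ∈ fam X, (1 - zp ε δ N d 1 * mv ε δ r X d) ^ 2 ≤ 2 * X * (w ^ 15)⁻¹ := by
  obtain ⟨s1, s2, s3, s4⟩ := sizeP hTL hL hN hδ0 hδ1 hw1 hNQ hQ hNδ
  have hN1 : (1:ℝ) ≤ N := by exact_mod_cast hN
  have hN0 : (0:ℝ) < N := by linarith
  have hw0 : 0 < w := by linarith
  have hX0 : (0:ℝ) ≤ X := Nat.cast_nonneg _
  have hT0 : 0 < T := by rw [hTL]; positivity
  have hXe : (X:ℝ) = Real.exp (2 * L) := by rw [hXT, hTL, ← Real.exp_nat_mul]; congr 1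
  have hlogX : Real.log X = 2 * L := by rw [hXe, Real.log_exp]
  have hQ0 : (200:ℝ) ≤ Q := by exact_mod_cast hQ
  have hlogN : Real.log N ≤ Real.log X / 400 := by
    rw [hlogX]
    have : L / Q ≤ L / 200 := div_le_div_of_nonneg_left (by linarith) (by norm_num) hQ0
    linarith
  have hX100 : (X:ℝ) ^ (1 / 100 : ℝ) = Real.exp (L / 50) := by
    rw [hXe, ← Real.exp_mul]; congr 1; ring
  have hNM : N ≤ ML X := by
    unfold ML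
    refine Nat.le_floor ?_
    rw [hX100]
    exact s2.trans (Real.exp_le_exp.mpr (by linarith))
  have hML : (ML X : ℝ) ≤ Real.exp (L / 50) := by
    rw [← hX100]
    exact Nat.floor_le (by positivity)
  have h := moll_ms hε h0 h1 (L := Real.log X) (N := N) (M := ML X) hr (by rw [hlogX]; linarith) hlogN hNM hN hδ0
    (by linarith) X
  refine h.trans ?_
  have e1 : (X:ℝ) * ((N:ℝ) ^ (-δ) * (2 / δ) ^ 16) ≤ X * (w ^ 15)⁻¹ := by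
    have h2 : (2 / δ) ^ 16 ≤ w := (pow_le_pow_left₀ (by positivity) h2δ _).trans hwE
    have h3 : (w ^ 16)⁻¹ * w = (w ^ 15)⁻¹ := by field_simp
    rw [← h3]
    refine mul_le_mul_of_nonneg_left (mul_le_mul hNδ h2 (by positivity) (by positivity)) hX0
  have e2 : 42 * Real.sqrt X * ((N:ℝ) * (ML X : ℝ)) ^ 12 ≤ X * (w ^ 15)⁻¹ := by
    rw [le_mul_inv_iff₀ (by positivity), hT, hTL, hXe]
    have h4 : (N:ℝ) * (ML X : ℝ) ≤ Real.exp (L / 40) := by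
      calc (N:ℝ) * (ML X : ℝ) ≤ Real.exp (L / 200) * Real.exp (L / 50) := mul_le_mul s2 hML (by positivity) (by positivity)
        _ = _ := by rw [← Real.exp_add]; congr 1; ring
    have h5 : ((N:ℝ) * (ML X : ℝ)) ^ 12 ≤ Real.exp (3 / 10 * L) := by
      calc ((N:ℝ) * (ML X : ℝ)) ^ 12 ≤ (Real.exp (L / 40)) ^ 12 := pow_le_pow_left₀ (by positivity) h4 _
        _ = _ := by rw [← Real.exp_nat_mul]; congr 1; push_cast; ring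
    have h6 : w ^ 15 ≤ Real.exp (L / 200) := (pow_le_pow_right₀ hw1 (by norm_num)).trans s3
    have h7 : (42:ℝ) ≤ Real.exp (L / 6) := by
      have h8 : (42:ℝ) ≤ Real.exp 4 := by
        have := Real.exp_one_gt_d9
        have h9 : Real.exp 4 = Real.exp 1 ^ 4 := by rw [← Real.exp_nat_mul]; congr 1; norm_num
        rw [h9]
        calc (42:ℝ) ≤ 2.7 ^ 4 := by norm_num
          _ ≤ _ := pow_le_pow_left₀ (by norm_num) (by linarith) 4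
      exact h8.trans (Real.exp_le_exp.mpr (by linarith))
    calc 42 * Real.exp L * ((N:ℝ) * (ML X : ℝ)) ^ 12 * w ^ 15
        ≤ Real.exp (L / 6) * Real.exp L * Real.exp (3 / 10 * L) * Real.exp (L / 200) := by gcongr
      _ = Real.exp (L / 6 + L + 3 / 10 * L + L / 200) := by rw [Real.exp_add, Real.exp_add, Real.exp_add]
      _ ≤ _ := Real.exp_le_exp.mpr (by linarith)
  linarith

end

end Pool.Agent.X110.QF
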