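import Pool.Agent.X110.QF6
import Pool.Agent.X110.LT2

set_option autoImplicit false

/-! The diagonal series for complex orders: Euler product. -/

namespace Pool.Agent.X110.QF

open Finset Filter Topology
open Pool.Agent.H306R2 Pool.Agent.Y746.OA Pool.Agent.X110.LT

noncomputable section

/-- the diagonal series, complex orders -/
def SQC (z : ℂ) (δ : ℝ) : ℂ := ∑' k : ℕ, if Odd k then dvC z (k ^ 2) * (hk k * (k:ℝ) ^ (-1 - 2 * δ) : ℝ) else 0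

lemma SQC_ofReal (β δ : ℝ) : SQC β δ = ((SQ β δ : ℝ) : ℂ) := by
  unfold SQC SQ
  rw [Complex.ofReal_tsum]
  refine tsum_congr fun k => ?_
  split_ifs
  · rw [dvC_ofReal]
    push_cast
    ring
  · simp

/-- the terms -/
def fq (z : ℂ) (δ : ℝ) (k : ℕ) : ℂ := if Odd k then dvC z (k ^ 2) * (hk k * (k:ℝ) ^ (-1 - 2 * δ) : ℝ) else 0

lemma fq_norm {z : ℂ} {K : ℕ} (hK : 1 ≤ K) (hz : ‖z‖ ≤ ((2 * K : ℕ) : ℝ)) {δ : ℝ} (hδ : 0 < δ) (k : ℕ) :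
    ‖fq z δ k‖ ≤ dv (((2 * K) ^ 2 : ℕ) : ℝ) k * (k:ℝ) ^ (-1 - δ) := by
  have h4 : 0 ≤ dv (((2 * K) ^ 2 : ℕ) : ℝ) k := dv_nonneg (Nat.cast_nonneg _) k
  unfold fq
  split_ifs with h
  · have hk1 : (1:ℝ) ≤ k := by exact_mod_cast h.pos
    rw [norm_mul, Complex.norm_real, Real.norm_of_nonneg (mul_nonneg (hk_nonneg k) (by positivity))]
    have h1 : ‖dvC z (k ^ 2)‖ ≤ dv (((2 * K) ^ 2 : ℕ) : ℝ) k := by
      rw [pow_two]
      exact (dvC_norm_le hz _).trans (dv_kk hK k)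
    have h2 : hk k * (k:ℝ) ^ (-1 - 2 * δ) ≤ 1 * (k:ℝ) ^ (-1 - δ) := by
      refine mul_le_mul (hk_le_one k) ?_ (by positivity) (by norm_num)
      exact Real.rpow_le_rpow_of_exponent_le hk1 (by linarith)
    rw [one_mul] at h2
    exact mul_le_mul h1 h2 (mul_nonneg (hk_nonneg k) (by positivity)) h4
  · rw [norm_zero]; positivity

lemma fq_summable {z : ℂ} {K : ℕ} (hK : 1 ≤ K) (hz : ‖z‖ ≤ ((2 * K : ℕ) : ℝ)) {δ : ℝ} (hδ : 0 < δ) (hδ1 : δ ≤ 1) :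
    Summable fun k => ‖fq z δ k‖ := by
  refine summable_of_sum_le (fun k => norm_nonneg _) (c := (2 / δ) ^ ((2 * K) ^ 2)) fun F => ?_
  exact (sum_le_sum fun k _ => fq_norm hK hz hδ k).trans (dvJ_sum _ hδ hδ1 F)

lemma SQC_norm {z : ℂ} {K : ℕ} (hK : 1 ≤ K) (hz : ‖z‖ ≤ ((2 * K : ℕ) : ℝ)) {δ : ℝ} (hδ : 0 < δ) (hδ1 : δ ≤ 1) :
    ‖SQC z δ‖ ≤ (2 / δ) ^ ((2 * K) ^ 2) := by
  have h := fq_summable hK hz hδ hδ1
  refine (norm_tsum_le_tsum_norm (f := fq z δ) h).trans ?_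
  refine h.tsum_le_of_sum_le fun F => ?_
  exact (sum_le_sum fun k _ => fq_norm hK hz hδ k).trans (dvJ_sum _ hδ hδ1 F)

lemma SQC_diff {δ : ℝ} (hδ : 0 < δ) (hδ1 : δ ≤ 1) : Differentiable ℂ fun z => SQC z δ := by
  intro z₀
  obtain ⟨K, hK⟩ := exists_nat_ge (‖z₀‖ + 1)
  have hK1 : 1 ≤ K := by
    have : (0:ℝ) < K := by linarith [norm_nonneg z₀]
    exact_mod_cast this
  have h : DifferentiableOn ℂ (fun z => SQC z δ) (Metric.ball z₀ 1) := by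
    unfold SQC
    have hs : Summable fun k : ℕ => dv (((2 * K) ^ 2 : ℕ) : ℝ) k * (k:ℝ) ^ (-1 - δ) :=
      summable_of_sum_le (fun k => mul_nonneg (dv_nonneg (Nat.cast_nonneg _) k) (by positivity))
        (c := (2 / δ) ^ ((2 * K) ^ 2)) fun F => dvJ_sum _ hδ hδ1 F
    refine Complex.differentiableOn_tsum_of_summable_norm hs (fun n => ?_) Metric.isOpen_ball fun n z hz => ?_
    · split_ifs
      · exact ((dvC_diff (n ^ 2)).mul_const _).differentiableOn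
      · exact differentiableOn_const _
    · refine fq_norm hK1 ?_ hδ n
      rw [Metric.mem_ball, dist_eq_norm] at hz
      have := norm_sub_norm_le z z₀
      push_cast
      linarith
  exact (h z₀ (Metric.mem_ball_self one_pos)).differentiableAt (Metric.isOpen_ball.mem_nhds (Metric.mem_ball_self one_pos))

/-! ### local factors -/

/-- exponent -/
def ww (z : ℂ) : ℂ := z * (z + 1) / 2

/-- `∑ lcC z (2m) x^m` -/
def T2 (z : ℂ) (x : ℝ) : ℂ := ∑' m : ℕ, lcC z (2 * m) * (x : ℂ) ^ m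

/-- local factor -/
def Fq (z : ℂ) (p : ℕ) (x : ℝ) : ℂ := if p = 2 then 1 else 1 + (((p:ℝ) / (p + 1) : ℝ) : ℂ) * (T2 z x - 1)

/-- normalised local factor -/
def Gq (z : ℂ) (p : ℕ) (x : ℝ) : ℂ := ((1 - x : ℝ) : ℂ) ^ (ww z) * Fq z p x

/-- the arithmetic factor -/
def aQ (z : ℂ) : ℂ := ∏' p : Nat.Primes, Gq z p (1 / ((p:ℕ):ℝ))

lemma lcC_two (z : ℂ) : lcC z 2 = ww z := by
  unfold lcC ww
  rw [prod_range_succ, prod_range_one]
  push_cast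
  ring

lemma lc_two_mul {R : ℝ} (hR : 1 ≤ R) (m : ℕ) : lc R (2 * m) ≤ lc R m ^ 2 := by
  rw [two_mul, pow_two]; exact lc_add_le hR m m

lemma T2_term {z : ℂ} {R : ℝ} (hR : 1 ≤ R) (hz : ‖z‖ ≤ R) {x : ℝ} (hx : 0 ≤ x) (hx1 : x ≤ 1 / 2) (m : ℕ) :
    ‖lcC z (2 * m) * (x : ℂ) ^ m‖ ≤ lc R m ^ 2 * (1 / 2) ^ m := by
  rw [norm_mul, norm_pow, Complex.norm_real, Real.norm_of_nonneg hx]
  have h1 := (lcC_norm_le hz (2 * m)).trans (lc_two_mul hR m)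
  gcongr

lemma T2_summable {z : ℂ} {R : ℝ} (hR : 1 ≤ R) (hz : ‖z‖ ≤ R) {x : ℝ} (hx : 0 ≤ x) (hx1 : x ≤ 1 / 2) :
    Summable fun m : ℕ => lcC z (2 * m) * (x : ℂ) ^ m :=
  Summable.of_norm_bounded (sq_sum (by linarith) (by norm_num : (0:ℝ) < 1 / 2) (by norm_num)) (T2_term hR hz hx hx1)

lemma T2_exp {z : ℂ} {R : ℝ} (hR : 1 ≤ R) (hz : ‖z‖ ≤ R) {x : ℝ} (hx : 0 ≤ x) (hx1 : x ≤ 1 / 2) :
    ‖T2 z x - 1 - ww z * x‖ ≤ CF R * x ^ 2 := by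
  have hs := T2_summable hR hz hx hx1
  have h1 : T2 z x = 1 + ww z * x + ∑' m : ℕ, lcC z (2 * (m + 2)) * (x : ℂ) ^ (m + 2) := by
    unfold T2
    rw [← hs.sum_add_tsum_nat_add 2, sum_range_succ, sum_range_one, mul_zero, lcC_zero, mul_one, lcC_two]
    ring
  have h2 : T2 z x - 1 - ww z * x = ∑' m : ℕ, lcC z (2 * (m + 2)) * (x : ℂ) ^ (m + 2) := by rw [h1]; ring
  rw [h2]
  refine tsum_of_norm_bounded ((CF_sum (by linarith : 0 < R)).hasSum.mul_right (x ^ 2)) fun m => ?_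
  rw [norm_mul, norm_pow, Complex.norm_real, Real.norm_of_nonneg hx, pow_add]
  have h3 := (lcC_norm_le hz (2 * (m + 2))).trans (lc_two_mul hR (m + 2))
  have h4 : x ^ m ≤ (1 / 2) ^ m := pow_le_pow_left₀ hx hx1 m
  have h5 : 0 ≤ lc R (m + 2) ^ 2 := sq_nonneg _
  calc ‖lcC z (2 * (m + 2))‖ * (x ^ m * x ^ 2) ≤ lc R (m + 2) ^ 2 * ((1 / 2) ^ m * x ^ 2) := by gcongr
    _ = _ := by ring

lemma ww_norm {z : ℂ} {R : ℝ} (hR : 1 ≤ R) (hz : ‖z‖ ≤ R) : ‖ww z‖ ≤ R ^ 2 := by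
  unfold ww
  rw [norm_div, norm_mul, Complex.norm_ofNat]
  have h1 : ‖z + 1‖ ≤ R + 1 := (norm_add_le _ _).trans (by rw [norm_one]; linarith)
  have h2 : ‖z‖ * ‖z + 1‖ ≤ R * (R + 1) := mul_le_mul hz h1 (norm_nonneg _) (by linarith)
  rw [div_le_iff₀ (by norm_num)]
  nlinarith

/-- expansion of the local factor; `y = 1/p` -/
lemma Fq_exp {z : ℂ} {R : ℝ} (hR : 1 ≤ R) (hz : ‖z‖ ≤ R) {p : ℕ} (hp : p.Prime) {x : ℝ} (hx : 0 ≤ x) (hx1 : x ≤ 1 / p) :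
    ‖Fq z p x - 1 - ww z * x‖ ≤ (CF R + 2 * R ^ 2) * (1 / p) ^ 2 := by
  have hp2 : (2:ℝ) ≤ p := by exact_mod_cast hp.two_le
  have hp0 : (0:ℝ) < p := by linarith
  have hpi : 1 / (p:ℝ) ≤ 1 / 2 := inv_half hp
  have hw := ww_norm hR hz
  have hCF := CF_nonneg R
  have hwx : ‖ww z * (x:ℂ)‖ ≤ R ^ 2 * (1 / p) := by
    rw [norm_mul, Complex.norm_real, Real.norm_of_nonneg hx]
    exact mul_le_mul hw hx1 hx (by positivity)
  unfold Fq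
  split_ifs with h2
  · have e : (1:ℂ) - 1 - ww z * x = -(ww z * x) := by ring
    rw [e, norm_neg]
    refine hwx.trans ?_
    subst h2
    push_cast
    nlinarith
  · set h : ℝ := (p:ℝ) / (p + 1) with hh
    have hh1 : |h| ≤ 1 := by
      rw [hh, abs_of_pos (by positivity), div_le_one (by positivity)]; linarith
    have hh2 : |h - 1| ≤ 1 / p := by
      have e : h - 1 = -(1 / ((p:ℝ) + 1)) := by rw [hh]; field_simp; ring
      rw [e, abs_neg, abs_of_pos (by positivity)]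
      exact one_div_le_one_div_of_le hp0 (by linarith)
    have e : 1 + ((h:ℝ):ℂ) * (T2 z x - 1) - 1 - ww z * x = (h:ℂ) * (T2 z x - 1 - ww z * x) + ((h - 1 : ℝ) : ℂ) * (ww z * x) := by
      push_cast; ring
    rw [e]
    refine (norm_add_le _ _).trans ?_
    rw [norm_mul, norm_mul, Complex.norm_real, Complex.norm_real, Real.norm_eq_abs, Real.norm_eq_abs]
    have h3 := T2_exp hR hz hx (hx1.trans hpi)
    have h4 : |h| * ‖T2 z x - 1 - ww z * x‖ ≤ 1 * (CF R * (1 / p) ^ 2) := by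
      refine mul_le_mul hh1 (h3.trans ?_) (norm_nonneg _) (by norm_num)
      gcongr
    have h5 : |h - 1| * ‖ww z * (x:ℂ)‖ ≤ (1 / p) * (R ^ 2 * (1 / p)) := mul_le_mul hh2 hwx (norm_nonneg _) (by positivity)
    have h6 : 0 ≤ R ^ 2 * (1 / (p:ℝ)) ^ 2 := by positivity
    calc _ ≤ 1 * (CF R * (1 / p) ^ 2) + (1 / p) * (R ^ 2 * (1 / p)) := add_le_add h4 h5
      _ ≤ _ := by nlinarith

/-- the constant -/
def CQ (R : ℝ) : ℝ := R ^ 4 + (4 * (R ^ 2) ^ 2 * Real.exp (2 * R ^ 2) + 2 * R ^ 2) * (1 + R ^ 2 + (CF R + 2 * R ^ 2)) +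
  (1 + R ^ 2) * (CF R + 2 * R ^ 2)

lemma CQ_nonneg (R : ℝ) : 0 ≤ CQ R := by
  unfold CQ
  have := CF_nonneg R
  positivity

lemma Gq_bound {z : ℂ} {R : ℝ} (hR : 1 ≤ R) (hz : ‖z‖ ≤ R) {p : ℕ} (hp : p.Prime) {x : ℝ} (hx : 0 ≤ x) (hx1 : x ≤ 1 / p) :
    ‖Gq z p x - 1‖ ≤ CQ R * (1 / (p:ℝ)) ^ 2 := by
  have hpi : 1 / (p:ℝ) ≤ 1 / 2 := inv_half hp
  have hp0 : 0 ≤ 1 / (p:ℝ) := by positivity
  have hz2 := ww_norm hR hz
  have h1 := Fq_exp hR hz hp hx hx1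
  have h2 := pw_exp hz2 hx (hx1.trans hpi)
  set A := ((1 - x : ℝ) : ℂ) ^ (ww z) with hA
  set F := Fq z p x with hF
  set w := ww z with hw
  set y : ℝ := 1 / (p:ℝ) with hy
  set D : ℝ := CF R + 2 * R ^ 2 with hD
  have hD0 : 0 ≤ D := by have := CF_nonneg R; positivity
  set a := A - 1 + w * x with ha
  set f := F - 1 - w * x with hf
  have hxn : ‖w * (x:ℂ)‖ ≤ R ^ 2 := by
    rw [norm_mul, Complex.norm_real, Real.norm_of_nonneg hx]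
    have hx2 : x ≤ 1 := by linarith
    calc ‖w‖ * x ≤ R ^ 2 * 1 := mul_le_mul hz2 hx2 hx (by positivity)
      _ = _ := mul_one _
  have hy2 : y ^ 2 ≤ 1 := by nlinarith
  have hxy : x ^ 2 ≤ y ^ 2 := pow_le_pow_left₀ hx hx1 2
  have hFn : ‖F‖ ≤ 1 + R ^ 2 + D := by
    have e : F = 1 + w * x + f := by rw [hf]; ring
    rw [e]
    refine (norm_add_le _ _).trans ?_
    have h3 : ‖(1:ℂ) + w * x‖ ≤ 1 + R ^ 2 := (norm_add_le _ _).trans (by rw [norm_one]; linarith)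
    have h4 : D * y ^ 2 ≤ D := mul_le_of_le_one_right hD0 hy2
    linarith
  have e : Gq z p x - 1 = -w ^ 2 * x ^ 2 + a * F + (1 - w * x) * f := by
    unfold Gq
    rw [← hA, ← hF, ha, hf]
    ring
  rw [e]
  refine (norm_add_le _ _).trans ?_
  have g1 : ‖-w ^ 2 * (x:ℂ) ^ 2 + a * F‖ ≤ R ^ 4 * y ^ 2 +
      ((4 * (R ^ 2) ^ 2 * Real.exp (2 * R ^ 2) + 2 * R ^ 2) * y ^ 2) * (1 + R ^ 2 + D) := by
    refine (norm_add_le _ _).trans (add_le_add ?_ ?_)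
    · have e5 : ‖-w ^ 2 * (x:ℂ) ^ 2‖ = ‖w‖ ^ 2 * x ^ 2 := by
        rw [norm_mul, norm_neg, norm_pow w, norm_pow (x:ℂ), Complex.norm_real, Real.norm_of_nonneg hx]
      have : ‖w‖ ^ 2 ≤ R ^ 4 := by
        calc _ ≤ (R ^ 2) ^ 2 := pow_le_pow_left₀ (norm_nonneg _) hz2 2
          _ = _ := by ring
      rw [e5]
      exact mul_le_mul this hxy (sq_nonneg _) (by positivity)
    · rw [norm_mul]
      refine mul_le_mul (h2.trans ?_) hFn (norm_nonneg _) (by positivity)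
      exact mul_le_mul_of_nonneg_left hxy (by positivity)
  have g2 : ‖(1 - w * (x:ℂ)) * f‖ ≤ (1 + R ^ 2) * (D * y ^ 2) := by
    rw [norm_mul]
    refine mul_le_mul ?_ h1 (norm_nonneg _) (by positivity)
    exact (norm_sub_le _ _).trans (by rw [norm_one]; linarith)
  calc _ ≤ (R ^ 4 * y ^ 2 + ((4 * (R ^ 2) ^ 2 * Real.exp (2 * R ^ 2) + 2 * R ^ 2) * y ^ 2) * (1 + R ^ 2 + D)) +
        (1 + R ^ 2) * (D * y ^ 2) := add_le_add g1 g2
    _ = _ := by unfold CQ; rw [← hD]; ring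

end

end Pool.Agent.X110.QF
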