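import Pool.Agent.X110.QG5

set_option autoImplicit false

/-! The diagonal series for complex orders: the limit. -/

namespace Pool.Agent.X110.QF

open Finset Filter Topology
open Pool.Agent.H306R2 Pool.Agent.Y746.OA Pool.Agent.X110.LT

noncomputable section

lemma hk_one' : hk 1 = 1 := by unfold hk; simp

lemma hk_mul' {m n : ℕ} (h : Nat.Coprime m n) : hk (m * n) = hk m * hk n := by
  unfold hk
  rw [h.primeFactors_mul, prod_union h.disjoint_primeFactors]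

lemma hk_pow {p : ℕ} (hp : p.Prime) (e : ℕ) : hk (p ^ (e + 1)) = (p:ℝ) / (p + 1) := by
  unfold hk
  rw [Nat.primeFactors_prime_pow (by omega) hp, prod_singleton]

lemma fq_one (z : ℂ) (δ : ℝ) : fq z δ 1 = 1 := by
  unfold fq
  rw [if_pos (by norm_num), hk_one', one_pow]
  simp [dvC]

lemma fq_zero (z : ℂ) (δ : ℝ) : fq z δ 0 = 0 := by
  unfold fq
  rw [if_neg (by simp)]

lemma fq_mul (z : ℂ) (δ : ℝ) {m n : ℕ} (h : Nat.Coprime m n) : fq z δ (m * n) = fq z δ m * fq z δ n := by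
  unfold fq
  by_cases h1 : Odd m
  · by_cases h2 : Odd n
    · rw [if_pos h1, if_pos h2, if_pos (h1.mul h2), mul_pow, dvC_mul z (Nat.Coprime.pow 2 2 h), hk_mul' h, Nat.cast_mul,
        Real.mul_rpow (Nat.cast_nonneg _) (Nat.cast_nonneg _)]
      push_cast
      ring
    · rw [if_neg h2, if_neg (fun h => h2 (Nat.odd_mul.mp h).2), mul_zero]
  · rw [if_neg h1, if_neg (fun h => h1 (Nat.odd_mul.mp h).1), zero_mul]

lemma fq_pow (z : ℂ) (δ : ℝ) {p : ℕ} (hp : p.Prime) (h2 : p ≠ 2) (e : ℕ) :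
    fq z δ (p ^ (e + 1)) = (((p:ℝ) / (p + 1) : ℝ) : ℂ) * (lcC z (2 * (e + 1)) * (xp p δ : ℂ) ^ (e + 1)) := by
  have hodd : Odd (p ^ (e + 1)) := (hp.odd_of_ne_two h2).pow
  have h1 : ((p ^ (e + 1) : ℕ) : ℝ) ^ (-1 - 2 * δ) = xp p δ ^ (e + 1) := by
    unfold xp
    rw [Nat.cast_pow, ← Real.rpow_natCast, ← Real.rpow_natCast, ← Real.rpow_mul (Nat.cast_nonneg _),
      ← Real.rpow_mul (Nat.cast_nonneg _)]
    congr 1; ring
  unfold fq
  rw [if_pos hodd, hk_pow hp, ← pow_mul, dvC_prime_pow z hp, h1, mul_comm (e + 1) 2]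
  push_cast
  ring

lemma fq_prime (z : ℂ) {δ : ℝ} (hδ : 0 < δ) {p : ℕ} (hp : p.Prime) : ∑' e : ℕ, fq z δ (p ^ e) = Fq z p (xp p δ) := by
  unfold Fq
  split_ifs with h2
  · subst h2
    rw [tsum_eq_single 0]
    · rw [pow_zero, fq_one]
    · intro e he
      unfold fq
      rw [if_neg]
      rw [Nat.not_odd_iff_even]
      exact (Nat.even_pow.mpr ⟨by norm_num, he⟩)
  · obtain ⟨R, hR⟩ := exists_nat_ge (max ‖z‖ 1)
    have hR1 : (1:ℝ) ≤ R := (le_max_right _ _).trans hR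
    have hzR : ‖z‖ ≤ R := (le_max_left _ _).trans hR
    have hx0 := (xp_pos hp δ).le
    have hx1 := (xp_le hp hδ.le).trans (inv_half hp)
    have hs := T2_summable hR1 hzR hx0 hx1
    have hs1 := (summable_nat_add_iff 1).mpr hs
    have e1 : T2 z (xp p δ) - 1 = ∑' m : ℕ, lcC z (2 * (m + 1)) * (xp p δ : ℂ) ^ (m + 1) := by
      unfold T2
      rw [hs.tsum_eq_zero_add, mul_zero, lcC_zero, pow_zero]
      ring
    have hs2 : Summable fun e : ℕ => fq z δ (p ^ e) := by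
      rw [← summable_nat_add_iff 1]
      refine (hs1.mul_left (((p:ℝ) / (p + 1) : ℝ) : ℂ)).congr fun e => ?_
      rw [fq_pow z δ hp h2]
    rw [hs2.tsum_eq_zero_add, pow_zero, fq_one, e1, ← tsum_mul_left]
    congr 1
    exact tsum_congr fun e => fq_pow z δ hp h2 e

/-- the Euler product -/
lemma SQC_hasProd (z : ℂ) {δ : ℝ} (hδ : 0 < δ) (hδ1 : δ ≤ 1) :
    HasProd (fun p : Nat.Primes => Fq z p (xp p δ)) (SQC z δ) := by
  obtain ⟨K, hK⟩ := exists_nat_ge (max ‖z‖ 1)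
  have hK1 : 1 ≤ K := by
    have : (1:ℝ) ≤ K := (le_max_right _ _).trans hK
    exact_mod_cast this
  have hz : ‖z‖ ≤ ((2 * K : ℕ) : ℝ) := by
    have h1 := (le_max_left _ _).trans hK
    have h2 : (0:ℝ) ≤ K := Nat.cast_nonneg K
    push_cast; linarith
  have h := EulerProduct.eulerProduct_hasProd (f := fq z δ) (fq_one z δ) (fun {m n} h => fq_mul z δ h)
    (fq_summable hK1 hz hδ hδ1) (fq_zero z δ)
  refine h.congr_fun fun p => ?_
  exact (fq_prime z hδ p.2).symm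

lemma Gq_hasProd (z : ℂ) {δ : ℝ} (hδ : 0 < δ) (hδ1 : δ ≤ 1) :
    HasProd (fun p : Nat.Primes => Gq z p (xp p δ)) ((((Zr (2 * δ))⁻¹ : ℝ) : ℂ) ^ (ww z) * SQC z δ) := by
  have h1 := SQC_hasProd z hδ hδ1
  have h2 := hasProd_cpow (Zr_hasProd' hδ) (fun p => by
    have h3 := xp_le p.2 hδ.le
    have h4 := inv_half p.2
    linarith) (inv_pos.mpr (Zr_pos (by linarith : 0 < 2 * δ))) (ww z)
  exact h2.mul h1

lemma lf_le_one (z₀ : ℂ) : ∀ᶠ p : ℂ × ℝ in lf z₀, p.2 ≤ 1 :=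
  (lf_snd z₀).eventually (ge_mem_nhds one_pos)

lemma ww_cont : Continuous ww := by
  unfold ww; fun_prop

lemma T2_tendsto (z₀ : ℂ) {p : ℕ} (hp : p.Prime) :
    Tendsto (fun q : ℂ × ℝ => T2 q.1 (xp p q.2)) (lf z₀) (𝓝 (T2 z₀ (1 / p))) := by
  unfold T2
  refine tendsto_tsum_of_dominated_convergence (bound := fun m => lc (‖z₀‖ + 1) m ^ 2 * (1 / 2 : ℝ) ^ m)
    (sq_sum (by positivity) (by norm_num) (by norm_num)) (fun m => ?_) ?_
  · have h1 := ((lcC_cont (2 * m)).tendsto z₀).comp (lf_fst z₀)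
    have h2 := ((xp_cont hp).tendsto 0).comp (lf_snd z₀)
    rw [xp_zero] at h2
    have h3 := (Complex.continuous_ofReal.tendsto _).comp h2
    exact h1.mul (h3.pow m)
  · filter_upwards [lf_pos z₀, lf_bdd z₀] with q hq hb m
    exact T2_term (by linarith [norm_nonneg z₀]) hb (xp_pos hp _).le ((xp_le hp hq.le).trans (inv_half hp)) m

lemma Fq_tendsto (z₀ : ℂ) {p : ℕ} (hp : p.Prime) :
    Tendsto (fun q : ℂ × ℝ => Fq q.1 p (xp p q.2)) (lf z₀) (𝓝 (Fq z₀ p (1 / p))) := by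
  unfold Fq
  split_ifs
  · exact tendsto_const_nhds
  · exact (((T2_tendsto z₀ hp).sub_const 1).const_mul _).const_add 1

lemma Gq_tendsto (z₀ : ℂ) {p : ℕ} (hp : p.Prime) :
    Tendsto (fun q : ℂ × ℝ => Gq q.1 p (xp p q.2)) (lf z₀) (𝓝 (Gq z₀ p (1 / p))) := by
  unfold Gq
  refine Tendsto.mul ?_ (Fq_tendsto z₀ hp)
  have h2 := ((xp_cont hp).tendsto 0).comp (lf_snd z₀)
  rw [xp_zero] at h2
  have h3 := (Complex.continuous_ofReal.tendsto _).comp (h2.const_sub 1)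
  refine h3.cpow ((ww_cont.tendsto z₀).comp (lf_fst z₀)) ?_
  rw [Complex.mem_slitPlane_iff]
  left
  have := inv_half hp
  rw [Complex.ofReal_re]
  linarith

lemma tprod_tendsto' (z₀ : ℂ) :
    Tendsto (fun q : ℂ × ℝ => ∏' p : Nat.Primes, Gq q.1 p (xp p q.2)) (lf z₀) (𝓝 (aQ z₀)) := by
  have h := tendsto_tprod_one_add_of_dominated_convergence (𝓕 := lf z₀)
    (f := fun (q : ℂ × ℝ) (p : Nat.Primes) => Gq q.1 p (xp p q.2) - 1)
    (g := fun p : Nat.Primes => Gq z₀ p (1 / ((p:ℕ):ℝ)) - 1)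
    (bound := fun p : Nat.Primes => CQ (‖z₀‖ + 1) * (1 / ((p:ℕ):ℝ)) ^ 2)
    (primes_summable.mul_left _) (fun p => (Gq_tendsto z₀ p.2).sub_const 1) ?_
  · simp only [add_sub_cancel] at h
    exact h
  · filter_upwards [lf_pos z₀, lf_bdd z₀] with q hq hb p
    have h1 := xp_le p.2 hq.le
    exact Gq_bound (by linarith [norm_nonneg z₀]) hb p.2 (xp_pos p.2 _).le h1

/-- the normalised series -/
def hq (z : ℂ) (δ : ℝ) : ℂ := ((2 * δ : ℝ) : ℂ) ^ (ww z) * SQC z δ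

/-- **The joint limit.** -/
theorem hq_tendsto (z₀ : ℂ) : Tendsto (fun q : ℂ × ℝ => hq q.1 q.2) (lf z₀) (𝓝 (aQ z₀)) := by
  have h1 : Tendsto (fun q : ℂ × ℝ => (((2 * q.2 * Zr (2 * q.2) : ℝ)) : ℂ) ^ (ww q.1)) (lf z₀) (𝓝 1) := by
    have h2 : Tendsto (fun q : ℂ × ℝ => 2 * q.2 * Zr (2 * q.2)) (lf z₀) (𝓝 1) :=
      Zr_lim.comp (tendsto_snd (f := 𝓝 z₀) (g := 𝓝[>] (0:ℝ)))
    have h3 := (Complex.continuous_ofReal.tendsto _).comp h2
    have h4 := h3.cpow ((ww_cont.tendsto z₀).comp (lf_fst z₀)) (by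
      rw [Complex.mem_slitPlane_iff]; left; simp)
    rw [Complex.ofReal_one, Complex.one_cpow] at h4
    exact h4
  have h5 := h1.mul (tprod_tendsto' z₀)
  rw [one_mul] at h5
  refine h5.congr' ?_
  filter_upwards [lf_pos z₀, lf_le_one z₀] with q hq hq1
  have hZ : 0 < Zr (2 * q.2) := Zr_pos (by linarith)
  rw [(Gq_hasProd q.1 hq hq1).tprod_eq]
  unfold QF.hq
  rw [Complex.ofReal_mul (2 * q.2), Complex.mul_cpow_ofReal_nonneg (by linarith) hZ.le]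
  have e1 : (((Zr (2 * q.2)) : ℝ) : ℂ) ^ (ww q.1) * ((((Zr (2 * q.2))⁻¹ : ℝ) : ℂ) ^ (ww q.1)) = 1 := by
    rw [← Complex.mul_cpow_ofReal_nonneg hZ.le (inv_pos.mpr hZ).le, ← Complex.ofReal_mul, mul_inv_cancel₀ hZ.ne',
      Complex.ofReal_one, Complex.one_cpow]
  calc _ = ((2 * q.2 : ℝ) : ℂ) ^ (ww q.1) * ((((Zr (2 * q.2)) : ℝ) : ℂ) ^ (ww q.1) *
        ((((Zr (2 * q.2))⁻¹ : ℝ) : ℂ) ^ (ww q.1))) * SQC q.1 q.2 := by ring
    _ = _ := by rw [e1, mul_one]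

lemma Gq_mult (z : ℂ) : Multipliable fun p : Nat.Primes => Gq z p (1 / ((p:ℕ):ℝ)) := by
  have h : Summable fun p : Nat.Primes => ‖Gq z p (1 / ((p:ℕ):ℝ)) - 1‖ := by
    refine Summable.of_nonneg_of_le (fun _ => norm_nonneg _) (fun p => ?_)
      (primes_summable.mul_left (CQ (‖z‖ + 1)))
    exact Gq_bound (by linarith [norm_nonneg z]) (by linarith) p.2 (by positivity) le_rfl
  have := multipliable_one_add_of_summable h
  simpa using this

/-! ### real orders -/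

/-- real local factor -/
def gQ (β : ℝ) (p : ℕ) : ℝ := (1 - 1 / (p : ℝ)) ^ (β * (β + 1) / 2) *
  (if p = 2 then 1 else 1 + (p:ℝ) / (p + 1) * ((∑' m : ℕ, lc β (2 * m) * (1 / (p : ℝ)) ^ m) - 1))

lemma gQ_ofReal (β : ℝ) {p : ℕ} (hp : p.Prime) : Gq β p (1 / (p:ℝ)) = ((gQ β p : ℝ) : ℂ) := by
  have h0 : (0:ℝ) ≤ 1 - 1 / p := by have := inv_half hp; linarith
  unfold Gq gQ Fq T2 ww
  rw [Complex.ofReal_mul, Complex.ofReal_cpow h0]
  congr 1
  · push_cast; ring_nf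
  · split_ifs
    · simp
    · push_cast
      congr 3
      refine tsum_congr fun m => ?_
      rw [lcC_ofReal]

end

end Pool.Agent.X110.QF
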