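import Pool.Agent.X112.RO.G

set_option autoImplicit false

/-!
# The anatomy of the exceptions to Robin's inequality: the basic identity
-/

open MeasureTheory Filter Topology Set

namespace Pool.Agent.X110.RA

open Pool.Agent.X112.RO

noncomputable section

/-- the primes up to `x` -/
def UU (x : ℝ) : Finset ℕ := (Finset.Icc 1 ⌊x⌋₊).filter Nat.Prime

lemma mem_UU {x : ℝ} (hx : 0 ≤ x) {p : ℕ} : p ∈ UU x ↔ p.Prime ∧ (p : ℝ) ≤ x := by
  unfold UU
  rw [Finset.mem_filter, Finset.mem_Icc]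
  constructor
  · rintro ⟨⟨h1, h2⟩, h3⟩
    exact ⟨h3, (Nat.cast_le.2 h2).trans (Nat.floor_le hx)⟩
  · rintro ⟨h1, h2⟩
    exact ⟨⟨h1.one_le, Nat.le_floor h2⟩, h1⟩

/-- the weight `log p / (x log x)` -/
def ww (x : ℝ) (p : ℕ) : ℝ := Real.log p / (x * Real.log x)

/-- the defect `- log (1 - p^(-(e+1)))` -/
def dd (p e : ℕ) : ℝ := -Real.log (1 - 1 / (p : ℝ) ^ (e + 1))

/-- the total cost -/
def DD (x : ℝ) (n : ℕ) : ℝ :=
  ∑ p ∈ UU x \ n.primeFactors, (bb p - ww x p) +
  ∑ p ∈ n.primeFactors \ UU x, (ww x p - bb p) +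
  ∑ p ∈ n.primeFactors, ((n.factorization p : ℝ) - 1) * ww x p +
  ∑ p ∈ n.primeFactors, dd p (n.factorization p)

lemma dd_nonneg {p : ℕ} (hp : p.Prime) (e : ℕ) : 0 ≤ dd p e := by
  unfold dd
  have h2 : (2 : ℝ) ≤ p := by exact_mod_cast hp.two_le
  have h3 : 1 < (p : ℝ) ^ (e + 1) := one_lt_pow₀ (by linarith) (by omega)
  have h4 : 1 / (p : ℝ) ^ (e + 1) < 1 := by
    rw [div_lt_one (by linarith)]; exact h3
  have h5 : 0 ≤ 1 / (p : ℝ) ^ (e + 1) := by positivity
  have := Real.log_nonpos (x := 1 - 1 / (p : ℝ) ^ (e + 1)) (by linarith) (by linarith)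
  linarith

lemma dd_ge {p : ℕ} (hp : p.Prime) (e : ℕ) : 1 / (p : ℝ) ^ (e + 1) ≤ dd p e := by
  unfold dd
  have h2 : (2 : ℝ) ≤ p := by exact_mod_cast hp.two_le
  have h3 : 1 < (p : ℝ) ^ (e + 1) := one_lt_pow₀ (by linarith) (by omega)
  have h4 : 1 / (p : ℝ) ^ (e + 1) < 1 := by
    rw [div_lt_one (by linarith)]; exact h3
  have := Real.log_le_sub_one_of_pos (show 0 < 1 - 1 / (p : ℝ) ^ (e + 1) by linarith)
  linarith

lemma dd_le {p : ℕ} (hp : p.Prime) {e : ℕ} : dd p e ≤ 2 / (p : ℝ) ^ (e + 1) := by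
  unfold dd
  have h2 : (2 : ℝ) ≤ p := by exact_mod_cast hp.two_le
  have h3 : (2 : ℝ) ≤ (p : ℝ) ^ (e + 1) := by
    calc (2 : ℝ) ≤ p := h2
      _ = (p : ℝ) ^ 1 := (pow_one _).symm
      _ ≤ (p : ℝ) ^ (e + 1) := pow_le_pow_right₀ (by linarith) (by omega)
  have h4 : 1 / (p : ℝ) ^ (e + 1) ≤ 1 / 2 := one_div_le_one_div_of_le (by norm_num) h3
  have := neg_log_le (t := 1 / (p : ℝ) ^ (e + 1)) (by positivity) h4
  calc _ ≤ 2 * (1 / (p : ℝ) ^ (e + 1)) := this
    _ = _ := by ring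

/-- the basic identity -/
lemma sg_identity {n : ℕ} (hn : 0 < n) (x : ℝ) :
    sg n = BB x - Chebyshev.theta x / (x * Real.log x) - DD x n + Real.log n / (x * Real.log x) := by
  have hfac : n = ∏ p ∈ n.primeFactors, p ^ n.factorization p := (Nat.prod_factorization_pow_eq_self hn.ne').symm
  have hpr : ∀ p ∈ n.primeFactors, p.Prime := fun p hp => Nat.prime_of_mem_primeFactors hp
  have h2 : sg n = ∑ p ∈ n.primeFactors, bb p - ∑ p ∈ n.primeFactors, dd p (n.factorization p) := by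
    have e1 : sg n = ∑ p ∈ n.primeFactors, sg (p ^ n.factorization p) := by
      conv_lhs => rw [hfac]
      exact sg_prod _ hpr _
    rw [e1, ← Finset.sum_sub_distrib]
    refine Finset.sum_congr rfl fun p hp => ?_
    rw [sg_pow _ (hpr p hp)]
    unfold dd
    ring
  have h3 : Real.log n = ∑ p ∈ n.primeFactors, (n.factorization p : ℝ) * Real.log p := by
    conv_lhs => rw [hfac]
    push_cast
    rw [Real.log_prod]
    · exact Finset.sum_congr rfl fun p _ => by rw [Real.log_pow]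
    · intro p hp
      have : (0 : ℝ) < p := by exact_mod_cast (hpr p hp).pos
      positivity
  have hBB : BB x = ∑ p ∈ UU x, bb p := rfl
  have hth : Chebyshev.theta x = ∑ p ∈ UU x, Real.log p := theta_eq' x
  have e1 := Finset.sum_sdiff_sub_sum_sdiff (s₁ := n.primeFactors) (s₂ := UU x)
    (f := fun p : ℕ => bb p - ww x p)
  have e2 : ∑ p ∈ n.primeFactors \ UU x, (ww x p - bb p) =
      -∑ p ∈ n.primeFactors \ UU x, (bb p - ww x p) := by
    rw [← Finset.sum_neg_distrib]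
    exact Finset.sum_congr rfl fun p _ => by ring
  have e3 : ∑ p ∈ UU x, (bb p - ww x p) = BB x - Chebyshev.theta x / (x * Real.log x) := by
    rw [Finset.sum_sub_distrib, hBB, hth, Finset.sum_div]
    rfl
  have e4 : ∑ p ∈ n.primeFactors, (bb p - ww x p) =
      ∑ p ∈ n.primeFactors, bb p - ∑ p ∈ n.primeFactors, ww x p := by
    rw [Finset.sum_sub_distrib]
  have e5 : ∑ p ∈ n.primeFactors, ((n.factorization p : ℝ) - 1) * ww x p =
      Real.log n / (x * Real.log x) - ∑ p ∈ n.primeFactors, ww x p := by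
    rw [h3, Finset.sum_div, ← Finset.sum_sub_distrib]
    refine Finset.sum_congr rfl fun p _ => ?_
    unfold ww
    ring
  unfold DD
  rw [e2, e5, h2]
  rw [e3, e4] at e1
  linarith

/-- an exception has a small cost -/
theorem exc_imp {n : ℕ} (hn : 0 < n) (hx : 3 ≤ Real.log n) (hE : Exc n) :
    DD (Real.log n) n ≤ -KQ (Real.log (Real.log n)) := by
  obtain ⟨x, hxn⟩ : ∃ x, x = Real.log n := ⟨_, rfl⟩
  rw [← hxn] at hx ⊢
  have hlx : 0 < Real.log x := Real.log_pos (by linarith)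
  have h0 : 0 < Real.log (Real.log n) := by rw [← hxn]; exact hlx
  have h1 := (exc_iff hn h0).1 hE
  have h2 := sg_identity hn x
  rw [← hxn] at h1 h2
  have h4 := (FF_bd (show 2 ≤ x by linarith)).2
  unfold FF at h4
  have e6 : (Chebyshev.theta x - x) / (x * Real.log x) = Chebyshev.theta x / (x * Real.log x) - x / (x * Real.log x) :=
    sub_div _ _ _
  rw [e6] at h4
  linarith

/-- an integer with a small cost is an exception -/
theorem exc_of_DD {n : ℕ} (hn : 0 < n) {x : ℝ} (hx : 2 ≤ x) (h : DD x n + 2 / x ≤ -KQ (Real.log x)) : Exc n := by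
  refine exc_of hn fun hll0 => ?_
  have hL1 : 1 < Real.log n := by
    by_contra hcon
    have h0 : 0 ≤ Real.log n := Real.log_nonneg (by exact_mod_cast hn)
    have := Real.log_nonpos h0 (not_lt.1 hcon)
    linarith
  have h1 := loglog_le (show 1 < x by linarith) hL1
  have h2 := sg_identity hn x
  have h4 := (FF_bd hx).1
  unfold FF at h4
  have e6 : (Chebyshev.theta x - x) / (x * Real.log x) = Chebyshev.theta x / (x * Real.log x) - x / (x * Real.log x) :=
    sub_div _ _ _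
  have e7 : (Real.log n - x) / (x * Real.log x) = Real.log n / (x * Real.log x) - x / (x * Real.log x) :=
    sub_div _ _ _
  rw [e6] at h4
  rw [e7] at h1
  linarith

/-- the parts of the cost -/
theorem parts {n : ℕ} {x : ℝ} (hn : 0 < n) (hx : 3 ≤ x) :
    (∀ q : ℕ, q.Prime → (q : ℝ) ≤ x → ¬ q ∣ n → bb q - ww x q ≤ DD x n + 2 / x ^ 2) ∧
    (∀ q : ℕ, q.Prime → q ∣ n → dd q (n.factorization q) ≤ DD x n + 2 / x ^ 2) ∧
    (∑ p ∈ n.primeFactors, ((n.factorization p : ℝ) - 1) * ww x p ≤ DD x n + 2 / x ^ 2) ∧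
    (∀ q : ℕ, q.Prime → q ∣ n → x < q → ww x q - bb q ≤ DD x n + 2 / x ^ 2) ∧
    (∑ p ∈ UU x \ n.primeFactors, (x - p) / x ^ 2 ≤ DD x n + 2 / x ^ 2) := by
  have hx0 : 0 < x := by linarith
  have hlx : 0 < Real.log x := Real.log_pos (by linarith)
  have hpr : ∀ p ∈ n.primeFactors, p.Prime := fun p hp => Nat.prime_of_mem_primeFactors hp
  have hf1 : ∀ p ∈ n.primeFactors, 1 ≤ n.factorization p := fun p hp =>
    (hpr p hp).factorization_pos_of_dvd hn.ne' (Nat.dvd_of_mem_primeFactors hp)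
  -- first part
  have a1 : ∀ p ∈ UU x \ n.primeFactors, (x - p) / x ^ 2 ≤ bb p - ww x p := by
    intro p hp
    rw [Finset.mem_sdiff, mem_UU hx0.le] at hp
    exact g_A hx hp.1.1.two_le hp.1.2
  have a0 : ∀ p ∈ UU x \ n.primeFactors, 0 ≤ (x - p) / x ^ 2 := by
    intro p hp
    rw [Finset.mem_sdiff, mem_UU hx0.le] at hp
    exact div_nonneg (by linarith [hp.1.2]) (by positivity)
  have a2 : ∀ p ∈ UU x \ n.primeFactors, 0 ≤ bb p - ww x p := fun p hp => (a0 p hp).trans (a1 p hp)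
  have a3 : 0 ≤ ∑ p ∈ UU x \ n.primeFactors, (bb p - ww x p) := Finset.sum_nonneg a2
  -- second part
  have b1 : ∀ p ∈ n.primeFactors \ UU x, -(if p = ⌊x⌋₊ + 1 then 2 / x ^ 2 else 0) ≤ ww x p - bb p := by
    intro p hp
    rw [Finset.mem_sdiff, mem_UU hx0.le] at hp
    have hpp := hpr p hp.1
    have hxp : x < p := by
      by_contra hcon
      exact hp.2 ⟨hpp, not_lt.1 hcon⟩
    have h1 := bb_le hpp.two_le
    have h2 : 1 / x ≤ ww x p := by
      unfold ww
      rw [div_le_div_iff₀ (by linarith) (by positivity)]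
      have := Real.log_le_log (by linarith) hxp.le
      nlinarith
    have hfl : ⌊x⌋₊ < p := (Nat.floor_lt hx0.le).2 hxp
    by_cases h3 : p = ⌊x⌋₊ + 1
    · rw [if_pos h3]
      have h4 : x - 1 ≤ (p : ℝ) - 1 := by linarith
      have h5 : 1 / ((p : ℝ) - 1) ≤ 1 / (x - 1) := one_div_le_one_div_of_le (by linarith) h4
      have h6 : 1 / (x - 1) ≤ 1 / x + 2 / x ^ 2 := by
        rw [div_add_div _ _ (by linarith) (by positivity), div_le_div_iff₀ (by linarith) (by positivity)]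
        nlinarith [sq_nonneg x, mul_pos hx0 hx0]
      linarith
    · rw [if_neg h3, neg_zero]
      have h4 : ⌊x⌋₊ + 2 ≤ p := by omega
      have h5 : (⌊x⌋₊ : ℝ) + 2 ≤ p := by exact_mod_cast h4
      have h6 := Nat.lt_floor_add_one x
      have h7 : 1 / ((p : ℝ) - 1) ≤ 1 / x := one_div_le_one_div_of_le hx0 (by linarith)
      linarith
  have b2 : ∀ S : Finset ℕ, ∑ p ∈ S, (if p = ⌊x⌋₊ + 1 then 2 / x ^ 2 else (0 : ℝ)) ≤ 2 / x ^ 2 := by
    intro S
    rw [Finset.sum_ite_eq']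
    split_ifs
    · exact le_rfl
    · positivity
  have b3 : ∀ S ⊆ n.primeFactors \ UU x, -(2 / x ^ 2) ≤ ∑ p ∈ S, (ww x p - bb p) := by
    intro S hS
    have h1 := Finset.sum_le_sum fun p (hp : p ∈ S) => b1 p (hS hp)
    rw [Finset.sum_neg_distrib] at h1
    have h2 := b2 S
    linarith
  have b4 := b3 _ (Finset.Subset.refl _)
  -- third part
  have hw0 : ∀ p ∈ n.primeFactors, 0 ≤ ww x p := by
    intro p hp
    unfold ww
    have : 0 ≤ Real.log (p : ℝ) := Real.log_nonneg (by exact_mod_cast (hpr p hp).one_le)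
    positivity
  have c1 : 0 ≤ ∑ p ∈ n.primeFactors, ((n.factorization p : ℝ) - 1) * ww x p :=
    Finset.sum_nonneg fun p hp => by
      have h1 : (1 : ℝ) ≤ n.factorization p := by exact_mod_cast hf1 p hp
      exact mul_nonneg (by linarith) (hw0 p hp)
  -- fourth part
  have d0 : ∀ p ∈ n.primeFactors, 0 ≤ dd p (n.factorization p) := fun p hp => dd_nonneg (hpr p hp) _
  have d1 : 0 ≤ ∑ p ∈ n.primeFactors, dd p (n.factorization p) := Finset.sum_nonneg d0
  refine ⟨fun q hq hqx hqn => ?_, fun q hq hqn => ?_, ?_, fun q hq hqn hxq => ?_, ?_⟩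
  · have hm : q ∈ UU x \ n.primeFactors := by
      rw [Finset.mem_sdiff, mem_UU hx0.le]
      exact ⟨⟨hq, hqx⟩, fun h => hqn (Nat.dvd_of_mem_primeFactors h)⟩
    have h1 := Finset.single_le_sum a2 hm
    unfold DD
    linarith
  · have hm : q ∈ n.primeFactors := Nat.mem_primeFactors.2 ⟨hq, hqn, hn.ne'⟩
    have h1 := Finset.single_le_sum d0 hm
    unfold DD
    linarith
  · unfold DD
    linarith
  · have hm : q ∈ n.primeFactors \ UU x := by
      rw [Finset.mem_sdiff, mem_UU hx0.le]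
      exact ⟨Nat.mem_primeFactors.2 ⟨hq, hqn, hn.ne'⟩, fun h => absurd h.2 (not_le.2 hxq)⟩
    have h1 := Finset.add_sum_erase _ (fun p => ww x p - bb p) hm
    have h2 := b3 _ (Finset.erase_subset q (n.primeFactors \ UU x))
    unfold DD
    linarith
  · have h1 := Finset.sum_le_sum a1
    unfold DD
    linarith

end

end Pool.Agent.X110.RA
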