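import Pool.Agent.X110.RA1

set_option autoImplicit false

/-!
# The anatomy of the exceptions to Robin's inequality: necessary conditions
-/

open MeasureTheory Filter Topology Set

namespace Pool.Agent.X110.RA

open Pool.Agent.X112.RO

noncomputable section

/-- the primes up to `log n` which do not divide `n` -/
def miss (n : ℕ) : Finset ℕ := UU (Real.log n) \ n.primeFactors

lemma count_bound {A : Finset ℕ} {x : ℝ} (hx : 0 ≤ x) (hA : ∀ p ∈ A, (p : ℝ) ≤ x) {c : ℝ}
    (h : ∑ p ∈ A, (x - p) ≤ c ^ 2) (hc : 0 ≤ c) : (A.card : ℝ) ≤ 1 + 2 * c := by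
  obtain ⟨m, hm⟩ : ∃ m, m = A.card := ⟨_, rfl⟩
  obtain ⟨k, hk⟩ : ∃ k, k = m / 2 := ⟨_, rfl⟩
  obtain ⟨N, hN⟩ : ∃ N, N = ⌊x⌋₊ := ⟨_, rfl⟩
  have hNx : (N : ℝ) ≤ x := by rw [hN]; exact Nat.floor_le hx
  have hAN : ∀ p ∈ A, p ≤ N := by
    intro p hp
    rw [hN]
    exact Nat.le_floor (hA p hp)
  have h1 : (A.filter (fun p => ¬ p + k ≤ N)).card ≤ k := by
    have h2 : A.filter (fun p => ¬ p + k ≤ N) ⊆ Finset.Icc (N + 1 - k) N := by
      intro p hp
      rw [Finset.mem_filter] at hp
      rw [Finset.mem_Icc]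
      have := hAN p hp.1
      omega
    have h3 := Finset.card_le_card h2
    rw [Nat.card_Icc] at h3
    omega
  have h2 := Finset.card_filter_add_card_filter_not (s := A) (fun p => p + k ≤ N)
  have h3 : m - k ≤ (A.filter (fun p => p + k ≤ N)).card := by omega
  have h4 : ((m - k : ℕ) : ℝ) * k ≤ ∑ p ∈ A, (x - p) := by
    calc ((m - k : ℕ) : ℝ) * k ≤ ((A.filter (fun p => p + k ≤ N)).card : ℝ) * k := by
          refine mul_le_mul_of_nonneg_right ?_ (Nat.cast_nonneg k)
          exact_mod_cast h3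
      _ = ∑ p ∈ A.filter (fun p => p + k ≤ N), (k : ℝ) := by rw [Finset.sum_const, nsmul_eq_mul]
      _ ≤ ∑ p ∈ A.filter (fun p => p + k ≤ N), (x - p) := by
          refine Finset.sum_le_sum fun p hp => ?_
          rw [Finset.mem_filter] at hp
          have : (p : ℝ) + k ≤ N := by exact_mod_cast hp.2
          linarith
      _ ≤ ∑ p ∈ A, (x - p) := by
          refine Finset.sum_le_sum_of_subset_of_nonneg (Finset.filter_subset _ _) fun p hp _ => ?_
          linarith [hA p hp]
  have h5 : (m : ℝ) ≤ 2 * k + 1 := by exact_mod_cast (show m ≤ 2 * k + 1 by omega)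
  have h6 : (2 * k : ℝ) ≤ m := by exact_mod_cast (show 2 * k ≤ m by omega)
  have h7 : ((m - k : ℕ) : ℝ) = m - k := by
    rw [Nat.cast_sub (by omega)]
  rw [h7] at h4
  have hk0 : (0 : ℝ) ≤ k := Nat.cast_nonneg k
  have h8 : (k : ℝ) * k ≤ c ^ 2 := by nlinarith
  have h9 : (k : ℝ) ≤ c := by
    by_contra hcon
    have := not_le.1 hcon
    nlinarith
  rw [← hm]
  linarith

/-- consequences of being an exception -/
theorem fwd {n : ℕ} (hn : 0 < n) {x δ : ℝ} (hxn : x = Real.log n) (hx : 3 ≤ x) (hE : Exc n)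
    (hδ : |KQ (Real.log x)| + 2 / x ^ 2 ≤ δ) :
    (∀ q : ℕ, q.Prime → 1 / (q : ℝ) ^ (n.factorization q + 1) ≤ 2 * δ + 2 / x) ∧
    (∑ p ∈ n.primeFactors, ((n.factorization p : ℝ) - 1) * Real.log p ≤ δ * (x * Real.log x)) ∧
    (∀ q : ℕ, q.Prime → q ∣ n → Real.log q ≤ 2 * δ * (x * Real.log x) + Real.log (2 * x + 1)) ∧
    ((miss n).card : ℝ) ≤ 1 + 2 * (x * √δ) := by
  have hx0 : 0 < x := by linarith
  have hlx : 0 < Real.log x := Real.log_pos (by linarith)
  have h1 := exc_imp hn (by rw [← hxn]; exact hx) hE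
  rw [← hxn] at h1
  have h2 := neg_abs_le (KQ (Real.log x))
  have hD : DD x n + 2 / x ^ 2 ≤ δ := by linarith
  obtain ⟨p1, p2, p3, p4, p5⟩ := parts (x := x) hn hx
  have hδ0 : 0 ≤ δ := by
    have h3 := abs_nonneg (KQ (Real.log x))
    have : 0 ≤ 2 / x ^ 2 := by positivity
    linarith
  refine ⟨fun q hq => ?_, ?_, fun q hq hqn => ?_, ?_⟩
  · have hq2 : (2 : ℝ) ≤ q := by exact_mod_cast hq.two_le
    by_cases hqn : q ∣ n
    · have h3 := dd_ge hq (n.factorization q)
      have h4 := p2 q hq hqn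
      have : 0 ≤ 2 / x := by positivity
      linarith
    · rw [Nat.factorization_eq_zero_of_not_dvd hqn, zero_add, pow_one]
      by_cases hqx : (q : ℝ) ≤ x / 2
      · have h3 := p1 q hq (by linarith) hqn
        have h4 := bb_ge hq.two_le
        have h5 : ww x q ≤ 1 / x := by
          unfold ww
          rw [div_le_div_iff₀ (by positivity) (by linarith)]
          have := Real.log_le_log (show (0 : ℝ) < q by linarith) (show (q : ℝ) ≤ x by linarith)
          nlinarith
        have : 1 / x ≤ 2 / x := by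
          refine div_le_div_of_nonneg_right (by norm_num) hx0.le
        linarith
      · have h3 : 1 / (q : ℝ) ≤ 2 / x := by
          rw [div_le_div_iff₀ (by linarith) hx0]
          linarith [not_le.1 hqx]
        linarith
  · have h3 : ∑ p ∈ n.primeFactors, ((n.factorization p : ℝ) - 1) * ww x p =
        (∑ p ∈ n.primeFactors, ((n.factorization p : ℝ) - 1) * Real.log p) / (x * Real.log x) := by
      rw [Finset.sum_div]
      refine Finset.sum_congr rfl fun p _ => ?_
      unfold ww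
      ring
    rw [h3] at p3
    have h4 := p3.trans hD
    rwa [div_le_iff₀ (by positivity)] at h4
  · have hq0 : (0 : ℝ) < q := by exact_mod_cast hq.pos
    have hl2 : 0 ≤ Real.log (2 * x + 1) := Real.log_nonneg (by linarith)
    by_cases hqx : 2 * x + 1 < q
    · have h3 := g_big hx hq.two_le hqx
      have h4 := p4 q hq hqn (by linarith)
      have h5 : ww x q = Real.log q / (x * Real.log x) := rfl
      rw [h5] at h4
      have h6 : Real.log q / (x * Real.log x) ≤ 2 * δ := by linarith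
      rw [div_le_iff₀ (by positivity)] at h6
      linarith
    · have h3 := Real.log_le_log hq0 (not_lt.1 hqx)
      have : 0 ≤ 2 * δ * (x * Real.log x) := by positivity
      linarith
  · have h3 : ∑ p ∈ miss n, (x - p) ≤ (x * √δ) ^ 2 := by
      have h4 : ∑ p ∈ UU x \ n.primeFactors, (x - p) / x ^ 2 = (∑ p ∈ miss n, (x - p)) / x ^ 2 := by
        rw [Finset.sum_div, miss, hxn]
      rw [h4] at p5
      have h5 := p5.trans hD
      rw [div_le_iff₀ (by positivity)] at h5
      rw [mul_pow, Real.sq_sqrt hδ0]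
      linarith
    refine count_bound hx0.le (fun p hp => ?_) h3 (by positivity)
    unfold miss at hp
    rw [← hxn, Finset.mem_sdiff, mem_UU hx0.le] at hp
    exact hp.1.2

/-- `log n - log rad n` -/
lemma log_rad {n : ℕ} (hn : 0 < n) :
    Real.log n = ∑ p ∈ n.primeFactors, ((n.factorization p : ℝ) - 1) * Real.log p +
      Real.log (∏ p ∈ n.primeFactors, (p : ℝ)) := by
  have hfac : n = ∏ p ∈ n.primeFactors, p ^ n.factorization p := (Nat.prod_factorization_pow_eq_self hn.ne').symm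
  have hpr : ∀ p ∈ n.primeFactors, p.Prime := fun p hp => Nat.prime_of_mem_primeFactors hp
  have h3 : Real.log n = ∑ p ∈ n.primeFactors, (n.factorization p : ℝ) * Real.log p := by
    conv_lhs => rw [hfac]
    push_cast
    rw [Real.log_prod]
    · exact Finset.sum_congr rfl fun p _ => by rw [Real.log_pow]
    · intro p hp
      have : (0 : ℝ) < p := by exact_mod_cast (hpr p hp).pos
      positivity
  rw [h3, Real.log_prod (fun p hp => by exact_mod_cast (hpr p hp).ne_zero), ← Finset.sum_add_distrib]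
  exact Finset.sum_congr rfl fun p _ => by ring

lemma log_nat_top : Tendsto (fun n : ℕ => Real.log (n : ℝ)) atTop atTop :=
  Real.tendsto_log_atTop.comp tendsto_natCast_atTop_atTop

/-- transfer of eventual statements -/
lemma ev_nat {P : ℝ → Prop} (h : ∀ᶠ x : ℝ in atTop, P x) : ∀ᶠ n : ℕ in atTop, P (Real.log n) :=
  log_nat_top.eventually h

/-- a bound for `KQ` gives all the necessary conditions with explicit bounds -/
theorem fwd_ev {s C : ℝ} (hs0 : 0 ≤ s) (hC : 0 < C) (h : ∀ u : ℝ, 1 ≤ u → |KQ u| ≤ C * Real.exp (-((1 - s) * u))) :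
    ∀ᶠ n : ℕ in atTop, Exc n →
      (∀ q : ℕ, q.Prime → 1 / (q : ℝ) ^ (n.factorization q + 1) ≤ (2 * C + 6) * (Real.log n) ^ (s - 1)) ∧
      (∑ p ∈ n.primeFactors, ((n.factorization p : ℝ) - 1) * Real.log p ≤
        (C + 2) * ((Real.log n) ^ s * Real.log (Real.log n))) ∧
      (∀ q : ℕ, q.Prime → q ∣ n → Real.log q ≤
        (2 * C + 4) * ((Real.log n) ^ s * Real.log (Real.log n)) + Real.log (2 * Real.log n + 1)) ∧
      ((miss n).card : ℝ) ≤ 1 + 2 * (√(C + 2) * (Real.log n) ^ ((1 + s) / 2)) := by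
  have h0 : ∀ᶠ x : ℝ in atTop, 3 ≤ x := eventually_ge_atTop 3
  filter_upwards [ev_nat h0, eventually_gt_atTop 0] with n hx hn hE
  obtain ⟨x, hxn⟩ : ∃ x, x = Real.log n := ⟨_, rfl⟩
  rw [← hxn] at hx ⊢
  have hx0 : 0 < x := by linarith
  have hlx : 1 ≤ Real.log x := by
    rw [Real.le_log_iff_exp_le hx0]
    have := Real.exp_one_lt_d9
    linarith
  have h1 := h (Real.log x) hlx
  have h2 : Real.exp (-((1 - s) * Real.log x)) = x ^ (s - 1) := by
    rw [Real.rpow_def_of_pos hx0]; congr 1; ring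
  rw [h2] at h1
  have h4 : 1 / x ≤ x ^ (s - 1) := by
    rw [one_div, ← Real.rpow_neg_one]
    exact Real.rpow_le_rpow_of_exponent_le (by linarith) (by linarith)
  have h3 : 2 / x ^ 2 ≤ 2 * x ^ (s - 1) := by
    have e1 : 2 / x ^ 2 ≤ 2 * (1 / x) := by
      rw [mul_one_div, div_le_div_iff₀ (by positivity) hx0]
      nlinarith
    linarith
  obtain ⟨f1, f2, f3, f4⟩ := fwd hn hxn hx hE (δ := (C + 2) * x ^ (s - 1)) (by linarith)
  have e1 : x ^ (s - 1) * x = x ^ s := by
    nth_rewrite 2 [← Real.rpow_one x]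
    rw [← Real.rpow_add hx0]; congr 1; ring
  refine ⟨fun q hq => ?_, ?_, fun q hq hqn => ?_, ?_⟩
  · refine (f1 q hq).trans ?_
    have : 2 / x = 2 * (1 / x) := by ring
    rw [this]
    linarith
  · calc _ ≤ (C + 2) * x ^ (s - 1) * (x * Real.log x) := f2
      _ = (C + 2) * (x ^ (s - 1) * x * Real.log x) := by ring
      _ = _ := by rw [e1]
  · calc _ ≤ 2 * ((C + 2) * x ^ (s - 1)) * (x * Real.log x) + Real.log (2 * x + 1) := f3 q hq hqn
      _ = (2 * C + 4) * (x ^ (s - 1) * x * Real.log x) + Real.log (2 * x + 1) := by ring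
      _ = _ := by rw [e1]
  · refine f4.trans (le_of_eq ?_)
    rw [Real.sqrt_mul (by linarith)]
    have e2 : √(x ^ (s - 1)) = x ^ ((s - 1) / 2) := by
      rw [Real.sqrt_eq_rpow, ← Real.rpow_mul hx0.le]; congr 1; ring
    have e3 : x * x ^ ((s - 1) / 2) = x ^ ((1 + s) / 2) := by
      nth_rewrite 1 [← Real.rpow_one x]
      rw [← Real.rpow_add hx0]; congr 1; ring
    rw [e2, ← e3]
    ring

end

end Pool.Agent.X110.RA
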