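import Pool.Agent.X110.RA2

set_option autoImplicit false

/-!
# The anatomy of the exceptions to Robin's inequality: special integers
-/

open MeasureTheory Filter Topology Set

namespace Pool.Agent.X110.RA

open Pool.Agent.X112.RO

noncomputable section

lemma fac_prod {T : Finset ℕ} (hT : ∀ p ∈ T, p.Prime) (e : ℕ → ℕ) {q : ℕ} (hq : q ∈ T) :
    (∏ p ∈ T, p ^ e p).factorization q = e q := by
  rw [Nat.factorization_prod (fun p hp => pow_ne_zero _ (hT p hp).ne_zero), Finsupp.finsetSum_apply]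
  have h1 : ∀ p ∈ T, (p ^ e p).factorization q = if p = q then e p else 0 := by
    intro p hp
    rw [(hT p hp).factorization_pow, Finsupp.single_apply]
  rw [Finset.sum_congr rfl h1, Finset.sum_ite_eq', if_pos hq]

lemma pf_prod {T : Finset ℕ} (hT : ∀ p ∈ T, p.Prime) {e : ℕ → ℕ} (he : ∀ p ∈ T, e p ≠ 0) :
    (∏ p ∈ T, p ^ e p).primeFactors = T := by
  have hne : ∏ p ∈ T, p ^ e p ≠ 0 := Finset.prod_ne_zero_iff.2 fun p hp => pow_ne_zero _ (hT p hp).ne_zero
  ext p
  rw [Nat.mem_primeFactors]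
  constructor
  · rintro ⟨hp, hd, -⟩
    obtain ⟨q, hq, hd⟩ := (Prime.dvd_finsetProd_iff hp.prime _).1 hd
    have h1 := hp.dvd_of_dvd_pow hd
    rw [(Nat.prime_dvd_prime_iff_eq hp (hT q hq)).1 h1]
    exact hq
  · intro hp
    exact ⟨hT p hp, (dvd_pow_self p (he p hp)).trans (Finset.dvd_prod_of_mem _ hp), hne⟩

lemma DD_prod (x : ℝ) {T : Finset ℕ} (hT : ∀ p ∈ T, p.Prime) {e : ℕ → ℕ} (he : ∀ p ∈ T, e p ≠ 0) :
    DD x (∏ p ∈ T, p ^ e p) =
      ∑ p ∈ UU x \ T, (bb p - ww x p) + ∑ p ∈ T \ UU x, (ww x p - bb p) +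
      ∑ p ∈ T, ((e p : ℝ) - 1) * ww x p + ∑ p ∈ T, dd p (e p) := by
  unfold DD
  rw [pf_prod hT he]
  congr 1
  · congr 1
    exact Finset.sum_congr rfl fun p hp => by rw [fac_prod hT e hp]
  · exact Finset.sum_congr rfl fun p hp => by rw [fac_prod hT e hp]

lemma log_prod' {T : Finset ℕ} (hT : ∀ p ∈ T, p.Prime) (e : ℕ → ℕ) :
    Real.log ((∏ p ∈ T, p ^ e p : ℕ) : ℝ) = ∑ p ∈ T, (e p : ℝ) * Real.log p := by
  push_cast
  rw [Real.log_prod]
  · exact Finset.sum_congr rfl fun p _ => by rw [Real.log_pow]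
  · intro p hp
    have : (0 : ℝ) < p := by exact_mod_cast (hT p hp).pos
    positivity

/-- the cost of the standard exponents -/
lemma base {x h : ℝ} {Q : Finset ℕ} (hx : 4 ≤ x) (hQ : ∀ q ∈ Q, q.Prime ∧ x < q ∧ (q : ℝ) ≤ x + h) :
    ∑ p ∈ TT x ∅ Q, ((ee x p : ℝ) - 1) * ww x p + ∑ p ∈ TT x ∅ Q, dd p (ee x p) ≤ 9 / √x := by
  have hx0 : 0 < x := by linarith
  have hlx : 0 < Real.log x := Real.log_pos (by linarith)
  have hsx : 0 < √x := Real.sqrt_pos.2 hx0
  have hss : √x * √x = x := Real.mul_self_sqrt hx0.le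
  have h1 := defect (P := ∅) hx hQ
  have h2 := nn_log_le (P := ∅) hx hQ
  rw [nn_log hQ] at h2
  have h3 : ∑ p ∈ TT x ∅ Q, ((ee x p : ℝ) - 1) * ww x p =
      (∑ p ∈ TT x ∅ Q, (ee x p : ℝ) * Real.log p - ∑ p ∈ TT x ∅ Q, Real.log p) / (x * Real.log x) := by
    rw [← Finset.sum_sub_distrib, Finset.sum_div]
    refine Finset.sum_congr rfl fun p _ => ?_
    unfold ww
    ring
  have h4 : ∑ p ∈ TT x ∅ Q, ((ee x p : ℝ) - 1) * ww x p ≤ 4 / √x := by
    rw [h3, div_le_div_iff₀ (by positivity) hsx]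
    calc _ ≤ (4 * √x * Real.log x) * √x := mul_le_mul_of_nonneg_right (by linarith) hsx.le
      _ = 4 * ((√x * √x) * Real.log x) := by ring
      _ = _ := by rw [hss]
  have h5 : 9 / √x = 4 / √x + 5 / √x := by ring
  rw [h5]
  exact add_le_add h4 h1

lemma TT_empty (x : ℝ) : TT x ∅ ∅ = UU x := by
  unfold TT UU
  simp

lemma UU_prime {x : ℝ} : ∀ p ∈ UU x, p.Prime := by
  intro p hp
  unfold UU at hp
  exact (Finset.mem_filter.1 hp).2

/-- the product of the primes up to `x` with the standard exponents, except that the exponent of `q` is `e` -/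
def N1 (x : ℝ) (q e : ℕ) : ℕ := ∏ p ∈ UU x, p ^ Function.update (ee x) q e p

section

variable {x : ℝ} {q e : ℕ}

lemma upd_ne (he : e ≠ 0) (p : ℕ) : Function.update (ee x) q e p ≠ 0 := by
  by_cases h : p = q
  · rw [h, Function.update_self]; exact he
  · rw [Function.update_of_ne h]; exact ee_pos p

lemma N1_pos : 0 < N1 x q e := Finset.prod_pos fun p hp => pow_pos (UU_prime p hp).pos _

lemma upd_sum (hq : q ∈ UU x) (f : ℕ → ℕ → ℝ) :
    ∑ p ∈ UU x, f p (Function.update (ee x) q e p) = ∑ p ∈ UU x, f p (ee x p) - f q (ee x q) + f q e := by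
  rw [← Finset.add_sum_erase _ _ hq, ← Finset.add_sum_erase (UU x) (fun p => f p (ee x p)) hq, Function.update_self]
  have h1 : ∑ p ∈ (UU x).erase q, f p (Function.update (ee x) q e p) = ∑ p ∈ (UU x).erase q, f p (ee x p) := by
    refine Finset.sum_congr rfl fun p hp => ?_
    rw [Function.update_of_ne (Finset.ne_of_mem_erase hp)]
  rw [h1]
  ring

lemma N1_DD (hx : 4 ≤ x) (hq : q ∈ UU x) (he : e ≠ 0) :
    DD x (N1 x q e) ≤ 9 / √x + e * ww x q + 2 / (q : ℝ) ^ (e + 1) := by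
  have hx0 : 0 < x := by linarith
  have hlx : 0 < Real.log x := Real.log_pos (by linarith)
  have hqp := UU_prime q hq
  have h1 := base (x := x) (h := 0) (Q := ∅) hx (by simp)
  rw [TT_empty] at h1
  unfold N1
  rw [DD_prod x UU_prime (fun p _ => upd_ne he p), Finset.sdiff_self, Finset.sum_empty, Finset.sum_empty, zero_add, zero_add]
  have h2 := upd_sum (e := e) hq (fun p k => ((k : ℝ) - 1) * ww x p)
  have h3 := upd_sum (e := e) hq (fun p k => dd p k)
  rw [h2, h3]
  have h4 : 0 ≤ ww x q := by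
    unfold ww
    have : 0 ≤ Real.log (q : ℝ) := Real.log_nonneg (by exact_mod_cast hqp.one_le)
    positivity
  have h5 : (1 : ℝ) ≤ ee x q := by exact_mod_cast Nat.one_le_iff_ne_zero.2 (ee_pos q)
  have h6 := dd_nonneg hqp (ee x q)
  have h7 := dd_le hqp (e := e)
  have h8 : 0 ≤ ((ee x q : ℝ) - 1) * ww x q := mul_nonneg (by linarith) h4
  have h9 : ((e : ℝ) - 1) * ww x q ≤ e * ww x q := mul_le_mul_of_nonneg_right (by linarith) h4
  linarith

lemma N1_fac (hq : q ∈ UU x) : (N1 x q e).factorization q = e := by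
  unfold N1
  rw [fac_prod UU_prime _ hq, Function.update_self]

lemma N1_log_ge (he : e ≠ 0) : Chebyshev.theta x ≤ Real.log (N1 x q e) := by
  unfold N1
  rw [log_prod' UU_prime, theta_eq']
  refine Finset.sum_le_sum fun p hp => ?_
  have hp1 : p ∈ UU x := hp
  have h1 : 0 ≤ Real.log (p : ℝ) := Real.log_nonneg (by exact_mod_cast (UU_prime p hp1).one_le)
  have h2 : (1 : ℝ) ≤ Function.update (ee x) q e p := by
    exact_mod_cast Nat.one_le_iff_ne_zero.2 (upd_ne he p)
  nlinarith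

lemma N1_log_le (hx : 4 ≤ x) (hq : q ∈ UU x) :
    Real.log (N1 x q e) ≤ Chebyshev.theta x + 4 * √x * Real.log x + e * Real.log q := by
  have hqp := UU_prime q hq
  unfold N1
  rw [log_prod' UU_prime]
  have h1 := upd_sum (e := e) hq (fun p k => (k : ℝ) * Real.log p)
  rw [h1]
  have h2 := nn_log_le (P := ∅) (Q := ∅) (h := 0) hx (by simp)
  rw [nn_log (h := 0) (by simp), TT_empty] at h2
  have h3 : ∑ p ∈ UU x, Real.log (p : ℝ) = Chebyshev.theta x := (theta_eq' x).symm
  rw [h3] at h2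
  have h4 : 0 ≤ (ee x q : ℝ) * Real.log q := by
    have : 0 ≤ Real.log (q : ℝ) := Real.log_nonneg (by exact_mod_cast hqp.one_le)
    positivity
  linarith

end

/-- the product of the primes up to `x` with the standard exponents, times a prime `r` -/
def N2 (x : ℝ) (r : ℕ) : ℕ := nn x ∅ {r}

section

variable {x : ℝ} {r : ℕ}

lemma hQr (hx : 0 ≤ x) (hr : r.Prime) (hxr : x < r) : ∀ q ∈ ({r} : Finset ℕ), q.Prime ∧ x < q ∧ (q : ℝ) ≤ x + r := by
  intro q hq
  rw [Finset.mem_singleton] at hq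
  rw [hq]
  exact ⟨hr, hxr, by linarith⟩

lemma N2_pos (hx : 0 ≤ x) (hr : r.Prime) (hxr : x < r) : 0 < N2 x r := nn_pos (hQr hx hr hxr)

lemma TT_single (x : ℝ) (r : ℕ) : TT x ∅ {r} = UU x ∪ {r} := by
  unfold TT UU
  rw [Finset.sdiff_empty]

lemma N2_DD (hx : 4 ≤ x) (hr : r.Prime) (hxr : x < r) : DD x (N2 x r) ≤ 9 / √x + ww x r := by
  have hx0 : 0 < x := by linarith
  have hQ := hQr hx0.le hr hxr
  have h1 := base hx hQ
  unfold N2 nn
  rw [DD_prod x (TT_prime hQ) (fun p _ => ee_pos p)]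
  have hrU : r ∉ UU x := by
    rw [mem_UU hx0.le]
    exact fun h => absurd h.2 (not_le.2 hxr)
  have h2 : UU x \ TT x ∅ {r} = ∅ := by
    rw [TT_single, Finset.sdiff_eq_empty_iff_subset]
    exact Finset.subset_union_left
  have h3 : TT x ∅ {r} \ UU x = {r} := by
    rw [TT_single, Finset.union_sdiff_left, Finset.sdiff_eq_self_iff_disjoint]
    exact Finset.disjoint_singleton_left.2 hrU
  rw [h2, h3, Finset.sum_empty, Finset.sum_singleton]
  have h4 : 0 ≤ bb r := by
    have := bb_ge hr.two_le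
    have : (0 : ℝ) ≤ 1 / (r : ℝ) := by positivity
    linarith
  linarith

lemma N2_dvd (hx : 0 ≤ x) (hr : r.Prime) (hxr : x < r) : r ∣ N2 x r := by
  have h1 := nn_factors (P := ∅) (hQr hx hr hxr)
  have h2 : r ∈ (N2 x r).primeFactors := by
    unfold N2
    rw [h1, TT_single]
    exact Finset.mem_union_right _ (Finset.mem_singleton_self r)
  exact Nat.dvd_of_mem_primeFactors h2

lemma N2_log_ge (hx : 0 ≤ x) (hr : r.Prime) (hxr : x < r) : Chebyshev.theta x ≤ Real.log (N2 x r) := by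
  have hQ := hQr hx hr hxr
  unfold N2
  rw [nn_log hQ, theta_eq', TT_single]
  refine le_trans ?_ (Finset.sum_le_sum_of_subset_of_nonneg (Finset.subset_union_left (s₁ := UU x)) fun p hp _ => ?_)
  · refine Finset.sum_le_sum fun p hp => ?_
    have hp1 : p ∈ UU x := hp
    have h1 : 0 ≤ Real.log (p : ℝ) := Real.log_nonneg (by exact_mod_cast (UU_prime p hp1).one_le)
    have h2 : (1 : ℝ) ≤ ee x p := by exact_mod_cast Nat.one_le_iff_ne_zero.2 (ee_pos p)
    nlinarith
  · rw [← TT_single] at hp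
    have h1 : 0 ≤ Real.log (p : ℝ) := Real.log_nonneg (by exact_mod_cast (TT_prime hQ p hp).one_le)
    positivity

lemma N2_log_le (hx : 4 ≤ x) (hr : r.Prime) (hxr : x < r) :
    Real.log (N2 x r) ≤ Chebyshev.theta x + Real.log r + 4 * √x * Real.log x := by
  have hx0 : 0 < x := by linarith
  have hQ := hQr hx0.le hr hxr
  have h1 := nn_log_le (P := ∅) hx hQ
  have hrU : r ∉ UU x := by
    rw [mem_UU hx0.le]
    exact fun h => absurd h.2 (not_le.2 hxr)
  rw [TT_single, Finset.sum_union (Finset.disjoint_singleton_right.2 hrU), Finset.sum_singleton] at h1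
  have h3 : ∑ p ∈ UU x, Real.log (p : ℝ) = Chebyshev.theta x := (theta_eq' x).symm
  rw [h3] at h1
  exact h1

end

end

end Pool.Agent.X110.RA
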