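import Pool.Agent.X110.RA3

set_option autoImplicit false

/-!
# The anatomy of the exceptions to Robin's inequality: exceptions of special shape
-/

open MeasureTheory Filter Topology Set

namespace Pool.Agent.X110.RA

open Pool.Agent.X112.RO

noncomputable section

lemma freq_nat {P : ℕ → Prop} (h : ∃ᶠ x : ℝ in atTop, ∃ n : ℕ, 0 < n ∧ x / 2 ≤ Real.log n ∧ P n) :
    ∃ᶠ n : ℕ in atTop, P n := by
  rw [Filter.frequently_atTop]
  intro N
  obtain ⟨x, ⟨n, h1, h2, h3⟩, h4⟩ := (h.and_eventually (eventually_ge_atTop (2 * Real.log (N + 1)))).exists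
  refine ⟨n, ?_, h3⟩
  have h5 : Real.log ((N : ℝ) + 1) ≤ Real.log n := by linarith
  have h6 := (Real.log_le_log_iff (by positivity) (by exact_mod_cast h1)).1 h5
  have h7 : N + 1 ≤ n := by exact_mod_cast h6
  omega

lemma osc_x {ρ : ℂ} (hz : riemannZeta ρ = 0) {a : ℝ} (ha : 0 < a) (ha2 : a ≤ 1 / 2) (hρ : 1 - a < ρ.re) :
    ∃ᶠ x : ℝ in atTop, KQ (Real.log x) < -x ^ (-a) := by
  refine Real.tendsto_exp_atTop.frequently ((KQ_osc hz ha (by linarith) hρ).mono fun u hu => ?_)
  have h1 : Real.exp u ^ (-a) = Real.exp (-(a * u)) := by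
    rw [← Real.exp_mul]; congr 1; ring
  rw [Real.log_exp, h1]
  exact hu

lemma ev_rpow {δ : ℝ} (hδ : 0 < δ) (K : ℝ) : ∀ᶠ x : ℝ in atTop, K ≤ x ^ δ :=
  (tendsto_rpow_atTop hδ).eventually (eventually_ge_atTop K)

lemma theta_half : ∀ᶠ x : ℝ in atTop, x / 2 ≤ Chebyshev.theta x := by
  filter_upwards [theta_pnt, eventually_ge_atTop 0] with x h h0
  have := (abs_le.1 h).1
  linarith

lemma theta_two {x : ℝ} (hx : 0 ≤ x) : Chebyshev.theta x ≤ 2 * x := by
  have h1 := Chebyshev.theta_le_log4_mul_x hx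
  have h2 := mul_le_mul_of_nonneg_right log_four_le hx
  linarith

lemma sqrt_log {x : ℝ} (hx : 0 < x) : 4 * √x * Real.log x ≤ 8 * x := by
  have hsx : 0 < √x := Real.sqrt_pos.2 hx
  have hss : √x * √x = x := Real.mul_self_sqrt hx.le
  have e1 : Real.log x = 2 * Real.log (√x) := by
    rw [Real.log_sqrt hx.le]; ring
  have e2 := Real.log_le_sub_one_of_pos hsx
  rw [e1]
  nlinarith

lemma log_ge_one {x : ℝ} (hx : 3 ≤ x) : 1 ≤ Real.log x := by
  rw [Real.le_log_iff_exp_le (by linarith)]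
  have := Real.exp_one_lt_d9
  linarith

/-- the engine -/
theorem engine {ρ : ℂ} (hz : riemannZeta ρ = 0) {a : ℝ} (ha : 0 < a) (ha2 : a ≤ 1 / 2) (hρ : 1 - a < ρ.re)
    {P : ℕ → Prop} (N : ℝ → ℕ) (h : ∀ᶠ x : ℝ in atTop, 0 < N x ∧ x / 2 ≤ Real.log (N x) ∧
      DD x (N x) + 2 / x ≤ x ^ (-a) ∧ P (N x)) : ∃ᶠ n : ℕ in atTop, Exc n ∧ P n := by
  refine freq_nat (((osc_x hz ha ha2 hρ).and_eventually (h.and (eventually_ge_atTop 2))).mono ?_)
  rintro x ⟨h1, ⟨h2, h3, h4, h5⟩, h6⟩
  exact ⟨N x, h2, h3, exc_of_DD h2 h6 (by linarith), h5⟩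

/-- the first two terms of the cost -/
lemma small_terms {a : ℝ} (ha2 : a < 1 / 2) :
    ∀ᶠ x : ℝ in atTop, 9 / √x ≤ x ^ (-a) / 4 ∧ 4 / x ≤ x ^ (-a) / 4 := by
  filter_upwards [ev_rpow (show 0 < 1 / 2 - a by linarith) 36, ev_rpow (show 0 < 1 - a by linarith) 16,
    eventually_gt_atTop 0] with x h1 h2 hx
  have hxa : 0 < x ^ (-a) := Real.rpow_pos_of_pos hx _
  have hsx : 0 < √x := Real.sqrt_pos.2 hx
  constructor
  · rw [div_le_iff₀ hsx]
    have e7 : x ^ (-a) * √x = x ^ (1 / 2 - a) := by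
      rw [Real.sqrt_eq_rpow, ← Real.rpow_add hx]; congr 1; ring
    have e8 : x ^ (-a) / 4 * √x = x ^ (1 / 2 - a) / 4 := by rw [← e7]; ring
    rw [e8]
    linarith
  · rw [div_le_iff₀ hx]
    have e7 : x ^ (-a) * x = x ^ (1 - a) := by
      nth_rewrite 2 [← Real.rpow_one x]
      rw [← Real.rpow_add hx]; congr 1; ring
    have e8 : x ^ (-a) / 4 * x = x ^ (1 - a) / 4 := by rw [← e7]; ring
    rw [e8]
    linarith

lemma zero_lt_one {ρ : ℂ} (hz : riemannZeta ρ = 0) : ρ.re < 1 := by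
  by_contra h
  exact riemannZeta_ne_zero_of_one_le_re (not_lt.1 h) hz

/-- exceptions with a small exponent of `q` -/
theorem bad_small {ρ : ℂ} (hz : riemannZeta ρ = 0) (hρ : 1 / 2 < ρ.re) {q : ℕ} (hq : q.Prime) {κ : ℝ}
    (hκ : 1 - ρ.re < κ) :
    ∃ᶠ n : ℕ in atTop, Exc n ∧ (q : ℝ) ^ (n.factorization q + 1) ≤ (Real.log n) ^ κ := by
  have hρ1 := zero_lt_one hz
  obtain ⟨a, ha1, ha2⟩ := exists_between (show 1 - ρ.re < min κ (1 / 2) from lt_min hκ (by linarith))
  have haκ : a < κ := ha2.trans_le (min_le_left _ _)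
  have ha3 : a < 1 / 2 := ha2.trans_le (min_le_right _ _)
  obtain ⟨c, hc1, hc2⟩ := exists_between (show a < min κ 1 from lt_min haκ (by linarith))
  have hcκ : c < κ := hc2.trans_le (min_le_left _ _)
  have hc3 : c < 1 := hc2.trans_le (min_le_right _ _)
  have ha0 : 0 < a := by linarith
  have hc0 : 0 < c := by linarith
  have hq2 : (2 : ℝ) ≤ q := by exact_mod_cast hq.two_le
  have hlq : 0 < Real.log q := Real.log_pos (by linarith)
  refine engine hz ha0 ha3.le (by linarith) (fun x => N1 x q ⌊c * Real.log x / Real.log q⌋₊) ?_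
  have hlog : ∀ᶠ x : ℝ in atTop, Real.log q / c ≤ Real.log x :=
    Real.tendsto_log_atTop.eventually (eventually_ge_atTop _)
  filter_upwards [small_terms ha3, ev_rpow (show 0 < c - a by linarith) 8, hlog,
    ev_rpow (show 0 < κ - c by linarith) (q * 2 ^ κ), theta_half, eventually_ge_atTop (max 4 (q : ℝ))]
    with x ⟨h1, h2⟩ h3 h4 h5 h6 h7
  have hx4 : 4 ≤ x := (le_max_left _ _).trans h7
  have hxq : (q : ℝ) ≤ x := (le_max_right _ _).trans h7
  have hx0 : 0 < x := by linarith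
  have hlx := log_ge_one (show 3 ≤ x by linarith)
  obtain ⟨e, he⟩ : ∃ e, e = ⌊c * Real.log x / Real.log q⌋₊ := ⟨_, rfl⟩
  rw [← he]
  have hqU : q ∈ UU x := (mem_UU hx0.le).2 ⟨hq, hxq⟩
  have he0 : e ≠ 0 := by
    rw [he]
    refine (Nat.floor_pos.2 ?_).ne'
    rw [le_div_iff₀ hlq, one_mul]
    rw [div_le_iff₀ hc0] at h4
    linarith
  have hele : (e : ℝ) ≤ c * Real.log x / Real.log q := by
    rw [he]
    exact Nat.floor_le (by positivity)
  have hegt : c * Real.log x / Real.log q < e + 1 := by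
    rw [he]
    exact Nat.lt_floor_add_one _
  have hele' : (e : ℝ) * Real.log q ≤ c * Real.log x := by rwa [le_div_iff₀ hlq] at hele
  have hegt' : c * Real.log x < (e + 1) * Real.log q := by rwa [div_lt_iff₀ hlq] at hegt
  have hxc : x ^ c = Real.exp (c * Real.log x) := by
    rw [Real.rpow_def_of_pos hx0]; congr 1; ring
  have hqe : (q : ℝ) ^ e = Real.exp (e * Real.log q) := by
    rw [← Real.rpow_natCast, Real.rpow_def_of_pos (by linarith)]; congr 1; ring
  have hqe1 : (q : ℝ) ^ (e + 1) = Real.exp ((e + 1) * Real.log q) := by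
    rw [← Real.rpow_natCast, Real.rpow_def_of_pos (by linarith)]; congr 1; push_cast; ring
  have g1 : (q : ℝ) ^ e ≤ x ^ c := by rw [hqe, hxc]; exact Real.exp_le_exp.2 hele'
  have g2 : x ^ c ≤ (q : ℝ) ^ (e + 1) := by rw [hqe1, hxc]; exact Real.exp_le_exp.2 hegt'.le
  have hxc0 : 0 < x ^ c := Real.rpow_pos_of_pos hx0 _
  refine ⟨N1_pos, h6.trans (N1_log_ge he0), ?_, ?_⟩
  · have g3 := N1_DD hx4 hqU he0
    have g4 : (e : ℝ) * ww x q ≤ 1 / x := by
      unfold ww
      rw [mul_div_assoc', div_le_div_iff₀ (by positivity) hx0]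
      have : c * Real.log x ≤ Real.log x := by nlinarith
      nlinarith
    have g5 : 2 / (q : ℝ) ^ (e + 1) ≤ x ^ (-a) / 4 := by
      have g6 : 2 / (q : ℝ) ^ (e + 1) ≤ 2 / x ^ c := div_le_div_of_nonneg_left (by norm_num) hxc0 g2
      refine g6.trans ?_
      rw [div_le_iff₀ hxc0]
      have e8 : x ^ (-a) / 4 * x ^ c = x ^ (c - a) / 4 := by
        rw [sub_eq_neg_add, Real.rpow_add hx0]; ring
      rw [e8]
      linarith
    have e1 : 4 / x = 1 / x + 2 / x + 1 / x := by ring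
    have e2 : 0 ≤ 1 / x := by positivity
    have hxa : 0 < x ^ (-a) := Real.rpow_pos_of_pos hx0 _
    linarith
  · rw [N1_fac hqU]
    have g3 := h6.trans (N1_log_ge (q := q) he0)
    calc (q : ℝ) ^ (e + 1) = q * (q : ℝ) ^ e := by ring
      _ ≤ q * x ^ c := mul_le_mul_of_nonneg_left g1 (by linarith)
      _ ≤ (x / 2) ^ κ := by
          rw [Real.div_rpow hx0.le (by norm_num), le_div_iff₀ (by positivity)]
          have e1 : x ^ κ = x ^ (κ - c) * x ^ c := by
            rw [← Real.rpow_add hx0]; congr 1; ring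
          rw [e1]
          calc (q : ℝ) * x ^ c * 2 ^ κ = q * 2 ^ κ * x ^ c := by ring
            _ ≤ _ := mul_le_mul_of_nonneg_right h5 hxc0.le
      _ ≤ _ := Real.rpow_le_rpow (by positivity) g3 (by linarith)

/-- exceptions with a large prime factor -/
theorem bad_prime {ρ : ℂ} (hz : riemannZeta ρ = 0) (hρ : 1 / 2 < ρ.re) {κ : ℝ} (hκ0 : 0 < κ) (hκ : κ < ρ.re) :
    ∃ᶠ n : ℕ in atTop, Exc n ∧ ∃ p : ℕ, p.Prime ∧ p ∣ n ∧ Real.exp ((Real.log n) ^ κ) < p := by
  have hρ1 := zero_lt_one hz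
  obtain ⟨a, ha1, ha2⟩ := exists_between (show 1 - ρ.re < min (1 - κ) (1 / 2) from lt_min (by linarith) (by linarith))
  have haκ : a < 1 - κ := ha2.trans_le (min_le_left _ _)
  have ha3 : a < 1 / 2 := ha2.trans_le (min_le_right _ _)
  obtain ⟨b, hb1, hb2⟩ := exists_between (show κ < 1 - a by linarith)
  have ha0 : 0 < a := by linarith
  have hb0 : 0 < b := by linarith
  have hbert : ∀ x : ℝ, ∃ r : ℕ, r.Prime ∧ Real.exp (x ^ b) < r ∧ (r : ℝ) ≤ 2 * (Real.exp (x ^ b) + 1) := by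
    intro x
    have h0 : 0 < Real.exp (x ^ b) := Real.exp_pos _
    obtain ⟨p, hp1, hp2, hp3⟩ := Nat.exists_prime_lt_and_le_two_mul ⌈Real.exp (x ^ b)⌉₊ (Nat.ceil_pos.2 h0).ne'
    refine ⟨p, hp1, (Nat.le_ceil _).trans_lt (by exact_mod_cast hp2), ?_⟩
    have h1 : (p : ℝ) ≤ 2 * ⌈Real.exp (x ^ b)⌉₊ := by exact_mod_cast hp3
    have h2 := Nat.ceil_lt_add_one h0.le
    linarith
  choose r hr1 hr2 hr3 using hbert
  refine engine hz ha0 ha3.le (by linarith) (fun x => N2 x (r x)) ?_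
  have hexp : ∀ᶠ x : ℝ in atTop, Real.log x ≤ x ^ b := by
    have := (isLittleO_log_rpow_atTop hb0).bound (show (0 : ℝ) < 1 by norm_num)
    filter_upwards [this, eventually_ge_atTop 1] with x hx hx1
    rw [Real.norm_of_nonneg (Real.log_nonneg hx1), Real.norm_of_nonneg (by positivity)] at hx
    linarith
  filter_upwards [small_terms ha3, ev_rpow (show 0 < 1 - a - b by linarith) 4, hexp,
    ev_rpow (show 0 < b - κ by linarith) (13 ^ κ), theta_half, eventually_ge_atTop 4]
    with x ⟨h1, h2⟩ h3 h4 h5 h6 h7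
  have hx0 : 0 < x := by linarith
  have hlx := log_ge_one (show 3 ≤ x by linarith)
  have hxr : x < r x := by
    refine lt_of_le_of_lt ?_ (hr2 x)
    calc x = Real.exp (Real.log x) := (Real.exp_log hx0).symm
      _ ≤ _ := Real.exp_le_exp.2 h4
  have hrp := hr1 x
  have hr0 : (0 : ℝ) < r x := by exact_mod_cast hrp.pos
  have hxb0 : 0 < x ^ b := Real.rpow_pos_of_pos hx0 _
  have hlr : Real.log (r x) ≤ x ^ b + 2 := by
    have e1 : (r x : ℝ) ≤ Real.exp (x ^ b + 2) := by
      refine (hr3 x).trans ?_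
      have e2 : (1 : ℝ) ≤ Real.exp (x ^ b) := Real.one_le_exp hxb0.le
      have e3 : (4 : ℝ) ≤ Real.exp 2 := by
        have := Real.exp_one_gt_d9
        have e4 : Real.exp 2 = Real.exp 1 ^ 2 := by rw [← Real.exp_nat_mul]; norm_num
        rw [e4]; nlinarith
      rw [Real.exp_add]
      nlinarith
    calc Real.log (r x) ≤ Real.log (Real.exp (x ^ b + 2)) := Real.log_le_log hr0 e1
      _ = _ := Real.log_exp _
  refine ⟨N2_pos hx0.le hrp hxr, h6.trans (N2_log_ge hx0.le hrp hxr), ?_, ?_⟩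
  · have g3 := N2_DD h7 hrp hxr
    have g4 : ww x (r x) ≤ x ^ (-a) / 4 + 2 / x := by
      unfold ww
      calc Real.log (r x) / (x * Real.log x) ≤ (x ^ b + 2) / (x * Real.log x) :=
            div_le_div_of_nonneg_right hlr (by positivity)
        _ ≤ (x ^ b + 2) / x := by
            refine div_le_div_of_nonneg_left (by positivity) hx0 ?_
            nlinarith
        _ = x ^ b / x + 2 / x := add_div _ _ _
        _ ≤ x ^ (-a) / 4 + 2 / x := by
            refine add_le_add ?_ le_rfl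
            rw [div_le_iff₀ hx0]
            have e8 : x ^ (-a) / 4 * x = x ^ (1 - a - b) * x ^ b / 4 := by
              rw [← Real.rpow_add hx0, show 1 - a - b + b = 1 + -a by ring, Real.rpow_add hx0, Real.rpow_one]
              ring
            rw [e8]
            nlinarith
    have e1 : 4 / x = 2 / x + 2 / x := by ring
    have hxa : 0 < x ^ (-a) := Real.rpow_pos_of_pos hx0 _
    linarith
  · refine ⟨r x, hrp, N2_dvd hx0.le hrp hxr, lt_of_le_of_lt ?_ (hr2 x)⟩
    refine Real.exp_le_exp.2 ?_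
    have g1 := N2_log_le h7 hrp hxr
    have g2 := theta_two hx0.le
    have g3 := sqrt_log hx0
    have g4 : x ^ b ≤ x := by
      calc x ^ b ≤ x ^ (1 : ℝ) := Real.rpow_le_rpow_of_exponent_le (by linarith) (by linarith)
        _ = x := Real.rpow_one x
    have g5 : Real.log (N2 x (r x)) ≤ 13 * x := by linarith
    have g6 : 0 ≤ Real.log (N2 x (r x)) := by
      have := h6.trans (N2_log_ge hx0.le hrp hxr)
      linarith
    calc Real.log (N2 x (r x)) ^ κ ≤ (13 * x) ^ κ := Real.rpow_le_rpow g6 g5 hκ0.le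
      _ = 13 ^ κ * x ^ κ := Real.mul_rpow (by norm_num) hx0.le
      _ ≤ x ^ (b - κ) * x ^ κ := mul_le_mul_of_nonneg_right h5 (by positivity)
      _ = x ^ b := by rw [← Real.rpow_add hx0]; congr 1; ring

/-- exceptions with a small radical -/
theorem bad_rad {ρ : ℂ} (hz : riemannZeta ρ = 0) (hρ : 1 / 2 < ρ.re) {κ : ℝ} (hκ0 : 0 < κ) (hκ : κ < ρ.re) :
    ∃ᶠ n : ℕ in atTop, Exc n ∧ Real.exp ((Real.log n) ^ κ) * ∏ p ∈ n.primeFactors, (p : ℝ) < n := by
  have hρ1 := zero_lt_one hz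
  obtain ⟨a, ha1, ha2⟩ := exists_between (show 1 - ρ.re < min (1 - κ) (1 / 2) from lt_min (by linarith) (by linarith))
  have haκ : a < 1 - κ := ha2.trans_le (min_le_left _ _)
  have ha3 : a < 1 / 2 := ha2.trans_le (min_le_right _ _)
  obtain ⟨b, hb1, hb2⟩ := exists_between (show max κ (1 / 2) < 1 - a from max_lt (by linarith) (by linarith))
  have hbκ : κ < b := (le_max_left _ _).trans_lt hb1
  have hb3 : 1 / 2 < b := (le_max_right _ _).trans_lt hb1
  have ha0 : 0 < a := by linarith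
  have hb0 : 0 < b := by linarith
  refine engine hz ha0 ha3.le (by linarith) (fun x => N1 x 2 (⌊x ^ b⌋₊ + 2)) ?_
  filter_upwards [small_terms ha3, ev_rpow (show 0 < 1 - a - b by linarith) 8, ev_rpow (show 0 < b - a by linarith) 16,
    ev_rpow (show 0 < b - κ by linarith) (2 * 13 ^ κ), theta_half, eventually_ge_atTop 4]
    with x ⟨h1, h2⟩ h3 h4 h5 h6 h7
  have hx0 : 0 < x := by linarith
  have hlx := log_ge_one (show 3 ≤ x by linarith)
  have hxb0 : 0 < x ^ b := Real.rpow_pos_of_pos hx0 _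
  obtain ⟨e, he⟩ : ∃ e, e = ⌊x ^ b⌋₊ + 2 := ⟨_, rfl⟩
  rw [← he]
  have he0 : e ≠ 0 := by omega
  have hU : 2 ∈ UU x := (mem_UU hx0.le).2 ⟨Nat.prime_two, by push_cast; linarith⟩
  have hele : (e : ℝ) ≤ x ^ b + 2 := by
    rw [he]; push_cast
    linarith [Nat.floor_le hxb0.le]
  have hege : x ^ b + 1 ≤ e := by
    rw [he]; push_cast
    linarith [Nat.lt_floor_add_one (x ^ b)]
  have hl2 := Real.log_two_lt_d9
  have hl2' := Real.log_two_gt_d9
  have hl3 : (0 : ℝ) < Real.log 2 := by linarith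
  have hxa : 0 < x ^ (-a) := Real.rpow_pos_of_pos hx0 _
  refine ⟨N1_pos, h6.trans (N1_log_ge he0), ?_, ?_⟩
  · have g3 := N1_DD h7 hU he0
    have g4 : (e : ℝ) * ww x 2 ≤ x ^ (-a) / 8 + 2 / x := by
      unfold ww
      push_cast
      calc (e : ℝ) * (Real.log 2 / (x * Real.log x)) = (e * Real.log 2) / (x * Real.log x) := by ring
        _ ≤ (x ^ b + 2) / x := by
            rw [div_le_div_iff₀ (by positivity) hx0]
            have e1 : (e : ℝ) * Real.log 2 ≤ x ^ b + 2 := by nlinarith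
            have e2 : x ≤ x * Real.log x := by nlinarith
            exact mul_le_mul e1 e2 hx0.le (by positivity)
        _ = x ^ b / x + 2 / x := add_div _ _ _
        _ ≤ x ^ (-a) / 8 + 2 / x := by
            refine add_le_add ?_ le_rfl
            rw [div_le_iff₀ hx0]
            have e8 : x ^ (-a) / 8 * x = x ^ (1 - a - b) * x ^ b / 8 := by
              rw [← Real.rpow_add hx0, show 1 - a - b + b = 1 + -a by ring, Real.rpow_add hx0, Real.rpow_one]
              ring
            rw [e8]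
            nlinarith
    have g5 : 2 / ((2 : ℕ) : ℝ) ^ (e + 1) ≤ x ^ (-a) / 8 := by
      have e1 : x ^ b ≤ (2 : ℝ) ^ (e + 1) := by
        have e2 : e + 1 < 2 ^ (e + 1) := Nat.lt_two_pow_self
        have e3 : ((e + 1 : ℕ) : ℝ) < ((2 ^ (e + 1) : ℕ) : ℝ) := by exact_mod_cast e2
        push_cast at e3
        linarith
      have g6 : 2 / ((2 : ℕ) : ℝ) ^ (e + 1) ≤ 2 / x ^ b := by
        push_cast
        exact div_le_div_of_nonneg_left (by norm_num) hxb0 e1
      refine g6.trans ?_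
      rw [div_le_iff₀ hxb0]
      have e8 : x ^ (-a) / 8 * x ^ b = x ^ (b - a) / 8 := by
        rw [sub_eq_neg_add, Real.rpow_add hx0]; ring
      rw [e8]
      linarith
    have e1 : 4 / x = 2 / x + 2 / x := by ring
    linarith
  · obtain ⟨n, hn⟩ : ∃ n, n = N1 x 2 e := ⟨_, rfl⟩
    have hn0 : 0 < n := by rw [hn]; exact N1_pos
    have hge : x / 2 ≤ Real.log n := by rw [hn]; exact h6.trans (N1_log_ge he0)
    have hle : Real.log n ≤ 13 * x := by
      have g1 := N1_log_le (e := e) h7 hU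
      rw [← hn] at g1
      have g2 := theta_two hx0.le
      have g3 := sqrt_log hx0
      have g4 : x ^ b ≤ x := by
        calc x ^ b ≤ x ^ (1 : ℝ) := Real.rpow_le_rpow_of_exponent_le (by linarith) (by linarith)
          _ = x := Real.rpow_one x
      have g5 : (e : ℝ) * Real.log (2 : ℕ) ≤ x + 2 := by
        push_cast
        nlinarith
      linarith
    have hfac : n.factorization 2 = e := by rw [hn]; exact N1_fac hU
    rw [← hn]
    have hrad := log_rad hn0
    have hsum : (e - 1 : ℝ) * Real.log 2 ≤ ∑ p ∈ n.primeFactors, ((n.factorization p : ℝ) - 1) * Real.log p := by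
      have h2m : 2 ∈ n.primeFactors := by
        rw [← Nat.support_factorization, Finsupp.mem_support_iff, hfac]; exact he0
      have h3 := Finset.single_le_sum (s := n.primeFactors) (f := fun p : ℕ => ((n.factorization p : ℝ) - 1) * Real.log p)
        (fun p hp => ?_) h2m
      · simp only [hfac] at h3
        push_cast at h3
        exact h3
      · have hp1 := Nat.prime_of_mem_primeFactors hp
        have h4 : (1 : ℝ) ≤ n.factorization p := by
          exact_mod_cast hp1.factorization_pos_of_dvd hn0.ne' (Nat.dvd_of_mem_primeFactors hp)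
        have h5 : 0 ≤ Real.log (p : ℝ) := Real.log_nonneg (by exact_mod_cast hp1.one_le)
        exact mul_nonneg (by linarith) h5
    have hkey : Real.log n ^ κ < (e - 1 : ℝ) * Real.log 2 := by
      calc Real.log n ^ κ ≤ (13 * x) ^ κ := Real.rpow_le_rpow (by linarith) hle hκ0.le
        _ = 13 ^ κ * x ^ κ := Real.mul_rpow (by norm_num) hx0.le
        _ ≤ (x ^ (b - κ) / 2) * x ^ κ := mul_le_mul_of_nonneg_right (by linarith) (by positivity)
        _ = x ^ b / 2 := by
            rw [div_mul_eq_mul_div, ← Real.rpow_add hx0]; congr 2; ring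
        _ < x ^ b * Real.log 2 := by nlinarith
        _ ≤ (e - 1 : ℝ) * Real.log 2 := mul_le_mul_of_nonneg_right (by linarith) hl3.le
    have hR0 : 0 < ∏ p ∈ n.primeFactors, (p : ℝ) :=
      Finset.prod_pos fun p hp => by exact_mod_cast (Nat.prime_of_mem_primeFactors hp).pos
    have hn0' : (0 : ℝ) < n := by exact_mod_cast hn0
    rw [← Real.log_lt_log_iff (by positivity) hn0', Real.log_mul (Real.exp_pos _).ne' hR0.ne', Real.log_exp]
    linarith

end

end Pool.Agent.X110.RA
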