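import Pool.Agent.X110.RA4

set_option autoImplicit false

/-!
# The anatomy of the exceptions to Robin's inequality: exceptions with many missing primes
-/

open MeasureTheory Filter Topology Set

namespace Pool.Agent.X110.RA

open Pool.Agent.X112.RO

noncomputable section

theorem miss_lower {T : ℝ} (h1 : 1 / 2 < T) (h2 : T ≤ 1)
    (HR : ∀ᶠ t : ℝ in atTop, |Chebyshev.theta t - t| ≤ t ^ ((1 + T) / 2) / 64)
    (Hρ : ∀ δ : ℝ, 0 < δ → ∃ ρ : ℂ, riemannZeta ρ = 0 ∧ T - δ < ρ.re) {c : ℝ} (hc0 : 0 < c)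
    (hc : c < (1 + T) / 2) :
    ∃ᶠ n : ℕ in atTop, Exc n ∧ (Real.log n) ^ c < ((miss n).card : ℝ) := by
  obtain ⟨η, hη⟩ : ∃ η, η = (1 + T) / 2 := ⟨_, rfl⟩
  rw [← hη] at HR hc
  obtain ⟨δ, hδ⟩ : ∃ δ, δ = min (1 / 16) (min ((T - 1 / 2) / 2) ((η - c) / 4)) := ⟨_, rfl⟩
  have hδ1 : δ ≤ 1 / 16 := by rw [hδ]; exact min_le_left _ _
  have hδ2 : δ ≤ (T - 1 / 2) / 2 := by rw [hδ]; exact (min_le_right _ _).trans (min_le_left _ _)
  have hδ3 : δ ≤ (η - c) / 4 := by rw [hδ]; exact (min_le_right _ _).trans (min_le_right _ _)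
  have hδ0 : 0 < δ := by
    rw [hδ]
    exact lt_min (by norm_num) (lt_min (by linarith) (by linarith))
  obtain ⟨κ, hκ⟩ : ∃ κ, κ = η - 2 * δ := ⟨_, rfl⟩
  obtain ⟨a, ha⟩ : ∃ a, a = 1 - T + δ := ⟨_, rfl⟩
  have ha0 : 0 < a := by linarith
  have ha1 : a < 1 / 2 := by linarith
  have hη1 : η ≤ 1 := by linarith
  have hη0 : 3 / 4 < η := by linarith
  have hκ0 : 1 / 2 < κ := by linarith
  have hκ1 : κ < 1 := by linarith
  have hcκ : c < κ := by linarith
  obtain ⟨ρ, hρ, hρ2⟩ := Hρ δ hδ0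
  have hosc := osc_x hρ ha0 ha1.le (by linarith)
  obtain ⟨t0, ht0⟩ := eventually_atTop.1 HR
  -- eventual inequalities in x
  have ev1 : ∀ᶠ x : ℝ in atTop, 8 * Real.log x ≤ x ^ (2 * δ) := by
    have := (isLittleO_log_rpow_atTop (show 0 < 2 * δ by linarith)).bound (show (0 : ℝ) < 1 / 8 by norm_num)
    filter_upwards [this, eventually_ge_atTop 1] with x hx hx1
    rw [Real.norm_of_nonneg (Real.log_nonneg hx1), Real.norm_of_nonneg (by positivity)] at hx
    linarith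
  have ev2 : ∀ᶠ x : ℝ in atTop, 12 ≤ x ^ δ := ev_rpow hδ0 12
  have ev3 : ∀ᶠ x : ℝ in atTop, 22 ≤ x ^ (1 / 2 - a) := ev_rpow (by linarith) 22
  have ev4 : ∀ᶠ x : ℝ in atTop, 4 * 13 ^ c ≤ x ^ (κ - c) := ev_rpow (by linarith) _
  have ev5 : ∀ᶠ x : ℝ in atTop, max 16 (2 * t0) ≤ x := eventually_ge_atTop _
  have ev := (ev1.and (ev2.and (ev3.and (ev4.and ev5))))
  refine freq_nat ((hosc.and_eventually ev).mono ?_)
  rintro x ⟨hK, hx1, hx2, hx3, hx4, hx5⟩
  have hx16 : 16 ≤ x := (le_max_left _ _).trans hx5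
  have hxt : 2 * t0 ≤ x := (le_max_right _ _).trans hx5
  have hx0 : 0 < x := by linarith
  have hxone : 1 ≤ x := by linarith
  obtain ⟨h, hh⟩ : ∃ h, h = x ^ η / 2 := ⟨_, rfl⟩
  obtain ⟨k, hk⟩ : ∃ k, k = ⌊x ^ κ⌋₊ := ⟨_, rfl⟩
  have hxη : x ^ η ≤ x := by
    calc x ^ η ≤ x ^ (1 : ℝ) := Real.rpow_le_rpow_of_exponent_le hxone hη1
      _ = x := Real.rpow_one x
  have hxη0 : 0 < x ^ η := Real.rpow_pos_of_pos hx0 _
  have hh0 : 0 ≤ h := by rw [hh]; positivity
  have hhx : h ≤ x / 2 := by rw [hh]; linarith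
  have hkle : (k : ℝ) ≤ x ^ κ := by rw [hk]; exact Nat.floor_le (by positivity)
  have hκx : x ^ κ ≤ x := by
    calc x ^ κ ≤ x ^ (1 : ℝ) := Real.rpow_le_rpow_of_exponent_le hxone hκ1.le
      _ = x := Real.rpow_one x
  have hlx : 1 ≤ Real.log x := log_ge_one (by linarith)
  -- `x^κ log x ≤ x^η / 8`
  have hκη : x ^ κ * Real.log x ≤ x ^ η / 8 := by
    have e1 : x ^ η = x ^ κ * x ^ (2 * δ) := by
      rw [← Real.rpow_add hx0]; congr 1; linarith
    rw [e1]
    have := mul_le_mul_of_nonneg_left hx1 (show 0 ≤ x ^ κ by positivity)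
    linarith
  -- primes
  have hR1 := ht0 x (by linarith)
  have hR2 := ht0 (x - h) (by linarith)
  have hR4 := ht0 (x - h / 2) (by linarith)
  have hR3 := ht0 (x + h) (by linarith)
  have hp2 : (x - h) ^ η ≤ x ^ η := Real.rpow_le_rpow (by linarith) (by linarith) (by linarith)
  have hp4 : (x - h / 2) ^ η ≤ x ^ η := Real.rpow_le_rpow (by linarith) (by linarith) (by linarith)
  have hp3 : (x + h) ^ η ≤ 2 * x ^ η := by
    calc (x + h) ^ η ≤ (2 * x) ^ η := Real.rpow_le_rpow (by linarith) (by linarith) (by linarith)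
      _ = 2 ^ η * x ^ η := Real.mul_rpow (by norm_num) hx0.le
      _ ≤ 2 * x ^ η := by
          refine mul_le_mul_of_nonneg_right ?_ hxη0.le
          calc (2 : ℝ) ^ η ≤ 2 ^ (1 : ℝ) := Real.rpow_le_rpow_of_exponent_le (by norm_num) hη1
            _ = 2 := Real.rpow_one 2
  have hW := pint_card (show 0 ≤ x - h by linarith) (show x - h ≤ x - h / 2 by linarith)
  have hV := pint_card hx0.le (show x ≤ x + h by linarith)
  have hR1' := abs_le.1 hR1
  have hR2' := abs_le.1 hR2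
  have hR3' := abs_le.1 hR3
  have hR4' := abs_le.1 hR4
  have hWk : k ≤ (pint (x - h) (x - h / 2)).card := by
    have e0 : Real.log (x - h / 2) ≤ Real.log x := Real.log_le_log (by linarith) (by linarith)
    have e00 := mul_le_mul_of_nonneg_left e0 (Nat.cast_nonneg (α := ℝ) (pint (x - h) (x - h / 2)).card)
    have e1 : x ^ η / 8 ≤ (pint (x - h) (x - h / 2)).card * Real.log x := by linarith
    have e2 : (k : ℝ) * Real.log x ≤ (pint (x - h) (x - h / 2)).card * Real.log x := by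
      have := mul_le_mul_of_nonneg_right hkle (show 0 ≤ Real.log x by linarith)
      linarith
    have e3 := le_of_mul_le_mul_right e2 (by linarith)
    exact_mod_cast e3
  have hVk : k ≤ (pint x (x + h)).card := by
    have e0 : Real.log (x + h) ≤ 2 * Real.log x := by
      have e4 : Real.log (x + h) ≤ Real.log (x ^ 2) := Real.log_le_log (by linarith) (by nlinarith)
      rw [Real.log_pow] at e4
      push_cast at e4
      exact e4
    have e00 := mul_le_mul_of_nonneg_left e0 (Nat.cast_nonneg (α := ℝ) (pint x (x + h)).card)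
    have e1 : x ^ η / 4 ≤ (pint x (x + h)).card * (2 * Real.log x) := by linarith
    have e2 : (k : ℝ) * Real.log x ≤ (pint x (x + h)).card * Real.log x := by
      have := mul_le_mul_of_nonneg_right hkle (show 0 ≤ Real.log x by linarith)
      linarith
    have e3 := le_of_mul_le_mul_right e2 (by linarith)
    exact_mod_cast e3
  have hKK : KQ (Real.log x) ≤ -(12 * (k * h) / x ^ 2 + 11 / √x) := by
    have hxa0 : 0 < x ^ (-a) := Real.rpow_pos_of_pos hx0 _
    have e1 : 12 * (k * h) / x ^ 2 ≤ x ^ (-a) / 2 := by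
      have e2 : (k : ℝ) * h ≤ x ^ κ * (x ^ η / 2) := by
        rw [hh]
        exact mul_le_mul_of_nonneg_right hkle (by positivity)
      have e3 : x ^ κ * x ^ η * x ^ δ = x ^ (-a) * x ^ 2 := by
        rw [← Real.rpow_add hx0, ← Real.rpow_add hx0, ← Real.rpow_natCast, ← Real.rpow_add hx0]
        congr 1
        push_cast
        linarith
      rw [div_le_iff₀ (by positivity)]
      have e4 : 0 < x ^ κ * x ^ η := by positivity
      have e5 : x ^ κ * x ^ η * 12 ≤ x ^ (-a) * x ^ 2 := by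
        rw [← e3]
        exact mul_le_mul_of_nonneg_left hx2 e4.le
      linarith
    have e6 : 11 / √x ≤ x ^ (-a) / 2 := by
      have hsx : 0 < √x := Real.sqrt_pos.2 hx0
      rw [div_le_iff₀ hsx]
      have e7 : x ^ (-a) * √x = x ^ (1 / 2 - a) := by
        rw [Real.sqrt_eq_rpow, ← Real.rpow_add hx0]; congr 1; ring
      have e8 : x ^ (-a) / 2 * √x = x ^ (1 / 2 - a) / 2 := by rw [← e7]; ring
      rw [e8]
      linarith
    linarith
  obtain ⟨P, hPW, hPk⟩ := Finset.exists_subset_card_eq hWk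
  obtain ⟨Q, hQV, hQk⟩ := Finset.exists_subset_card_eq hVk
  have hQ : ∀ q ∈ Q, q.Prime ∧ x < q ∧ (q : ℝ) ≤ x + h := fun q hq => pint_mem hx0.le (by linarith) (hQV hq)
  have hP' : ∀ p ∈ P, p.Prime ∧ x - h < p ∧ (p : ℝ) ≤ x - h / 2 := fun p hp =>
    pint_mem (by linarith) (by linarith) (hPW hp)
  have hP : ∀ p ∈ P, p.Prime ∧ x - h < p ∧ (p : ℝ) ≤ x := fun p hp =>
    ⟨(hP' p hp).1, (hP' p hp).2.1, by linarith [(hP' p hp).2.2]⟩
  obtain ⟨b1, b2⟩ := build hx16 hh0 hhx hP hQ hPk hQk (hkle.trans hκx) hKK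
  have hn0 : 0 < nn x P Q := nn_pos hQ
  have hn0' : (0 : ℝ) < nn x P Q := by exact_mod_cast hn0
  have hlogle : Real.log (nn x P Q) ≤ 13 * x := (Real.log_le_iff_le_exp hn0').2 b2
  have hlogge : Chebyshev.theta x ≤ Real.log (nn x P Q) := by
    rw [nn_log hQ]
    have e1 : ∑ p ∈ TT x P Q, Real.log (p : ℝ) ≤ ∑ p ∈ TT x P Q, (ee x p : ℝ) * Real.log p := by
      refine Finset.sum_le_sum fun p hp => ?_
      have g1 : 0 ≤ Real.log (p : ℝ) := Real.log_nonneg (by exact_mod_cast (TT_prime hQ p hp).one_le)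
      have g2 : (1 : ℝ) ≤ ee x p := by exact_mod_cast Nat.one_le_iff_ne_zero.2 (ee_pos p)
      nlinarith
    refine le_trans ?_ e1
    rw [TT_sum hx0.le hP hQ, ← theta_eq']
    have e2 : ∑ p ∈ P, Real.log (p : ℝ) ≤ k * Real.log x := by
      have g1 : ∀ p ∈ P, Real.log (p : ℝ) ≤ Real.log x := fun p hp =>
        Real.log_le_log (by exact_mod_cast (hP p hp).1.pos) (hP p hp).2.2
      have := Finset.sum_le_card_nsmul _ _ _ g1
      rwa [hPk, nsmul_eq_mul] at this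
    have e3 : k * Real.log x ≤ ∑ q ∈ Q, Real.log (q : ℝ) := by
      have g1 : ∀ q ∈ Q, Real.log x ≤ Real.log (q : ℝ) := fun q hq =>
        Real.log_le_log hx0 (hQ q hq).2.1.le
      have := Finset.card_nsmul_le_sum _ _ _ g1
      rwa [hQk, nsmul_eq_mul] at this
    linarith
  have hth : x - h / 2 ≤ Real.log (nn x P Q) := by
    rw [hh]
    linarith
  refine ⟨nn x P Q, hn0, by linarith, b1, ?_⟩
  have hsub : P ⊆ miss (nn x P Q) := by
    intro p hp
    unfold miss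
    rw [Finset.mem_sdiff, mem_UU (by linarith), nn_factors hQ]
    refine ⟨⟨(hP p hp).1, by linarith [(hP' p hp).2.2]⟩, ?_⟩
    unfold TT
    simp only [Finset.mem_union, Finset.mem_sdiff, not_or, not_and, not_not]
    refine ⟨fun _ => hp, fun hq => ?_⟩
    have g1 := (hQ p hq).2.1
    have g2 := (hP p hp).2.2
    linarith
  have hcard : (k : ℝ) ≤ ((miss (nn x P Q)).card : ℝ) := by
    have := Finset.card_le_card hsub
    rw [hPk] at this
    exact_mod_cast this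
  refine lt_of_lt_of_le ?_ hcard
  have hκ2 : 2 ≤ x ^ κ := by
    calc (2 : ℝ) ≤ 16 ^ (1 / 2 : ℝ) := by
          rw [show (16 : ℝ) = 4 ^ (2 : ℝ) by norm_num, ← Real.rpow_mul (by norm_num)]
          norm_num
      _ ≤ x ^ (1 / 2 : ℝ) := Real.rpow_le_rpow (by norm_num) hx16 (by norm_num)
      _ ≤ x ^ κ := Real.rpow_le_rpow_of_exponent_le hxone hκ0.le
  have hklt : x ^ κ < k + 1 := by rw [hk]; exact Nat.lt_floor_add_one _
  have e5 : x ^ κ / 2 ≤ k + 0 := by linarith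
  have e2 : x ^ κ = x ^ c * x ^ (κ - c) := by
    rw [← Real.rpow_add hx0]; congr 1; ring
  have hxc0 : 0 < x ^ c := Real.rpow_pos_of_pos hx0 _
  calc Real.log (nn x P Q) ^ c ≤ (13 * x) ^ c := Real.rpow_le_rpow (by linarith) hlogle hc0.le
    _ = 13 ^ c * x ^ c := Real.mul_rpow (by norm_num) hx0.le
    _ < x ^ κ / 2 := by
        rw [e2]
        have g1 : 0 < (13 : ℝ) ^ c := by positivity
        have g2 := mul_le_mul_of_nonneg_left hx4 hxc0.le
        have g3 : 0 < x ^ c * 13 ^ c := by positivity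
        linarith
    _ ≤ k := by linarith

/-- exceptions with many missing primes -/
theorem bad_miss {ρ : ℂ} (hz : riemannZeta ρ = 0) (hρ : 1 / 2 < ρ.re) {c : ℝ} (hc0 : 0 < c)
    (hc : c < (1 + ρ.re) / 2) :
    ∃ᶠ n : ℕ in atTop, Exc n ∧ (Real.log n) ^ c < ((miss n).card : ℝ) := by
  obtain ⟨A, hA⟩ : ∃ A, A = {x : ℝ | ∃ s : ℂ, riemannZeta s = 0 ∧ s.re = x} := ⟨_, rfl⟩
  have hbdd : ∀ x ∈ A, x ≤ 1 := by
    intro x hx
    rw [hA] at hx
    obtain ⟨s, h1, h2⟩ := hx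
    by_contra hcon
    exact riemannZeta_ne_zero_of_one_le_re (by linarith) h1
  have hne : ρ.re ∈ A := by rw [hA]; exact ⟨ρ, hz, rfl⟩
  obtain ⟨T, hT⟩ : ∃ T, T = sSup A := ⟨_, rfl⟩
  have hρT : ρ.re ≤ T := by rw [hT]; exact le_csSup ⟨1, hbdd⟩ hne
  have hT1 : T ≤ 1 := by rw [hT]; exact csSup_le ⟨_, hne⟩ hbdd
  have hfree : ∀ s : ℂ, T < s.re → riemannZeta s ≠ 0 := by
    intro s hs h0
    have : s.re ≤ T := by
      rw [hT]
      exact le_csSup ⟨1, hbdd⟩ (by rw [hA]; exact ⟨s, h0, rfl⟩)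
    linarith
  have hsup : ∀ δ : ℝ, 0 < δ → ∃ ρ : ℂ, riemannZeta ρ = 0 ∧ T - δ < ρ.re := by
    intro δ hδ
    obtain ⟨x, hx, hx2⟩ := exists_lt_of_lt_csSup ⟨_, hne⟩ (show T - δ < sSup A by rw [← hT]; linarith)
    rw [hA] at hx
    obtain ⟨s, h1, h2⟩ := hx
    exact ⟨s, h1, by rw [h2]; exact hx2⟩
  refine miss_lower (by linarith) hT1 ?_ hsup hc0 (by linarith)
  rcases hT1.lt_or_eq with hlt | heq
  · obtain ⟨C, hC, h⟩ := theta_of_free (by linarith) hfree (s := (1 + 3 * T) / 4) (by linarith) (by linarith)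
    have h1 : ∀ᶠ t : ℝ in atTop, 64 * C ≤ t ^ ((1 + T) / 2 - (1 + 3 * T) / 4) :=
      (tendsto_rpow_atTop (by linarith)).eventually (eventually_ge_atTop _)
    filter_upwards [h1, eventually_ge_atTop 1] with t h2 h3
    refine (h t h3).trans ?_
    have h4 : t ^ ((1 + T) / 2) = t ^ ((1 + T) / 2 - (1 + 3 * T) / 4) * t ^ ((1 + 3 * T) / 4) := by
      rw [← Real.rpow_add (by linarith)]; congr 1; ring
    rw [h4]
    have := mul_le_mul_of_nonneg_right h2 (show 0 ≤ t ^ ((1 + 3 * T) / 4) by positivity)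
    linarith
  · filter_upwards [theta_pnt] with t ht
    rw [heq]
    norm_num
    exact ht

end

end Pool.Agent.X110.RA
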