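import Pool.Agent.X110.RA5

set_option autoImplicit false

/-!
# The anatomy of the exceptions to Robin's inequality: the equivalences
-/

open MeasureTheory Filter Topology Set

namespace Pool.Agent.X110.RA

open Pool.Agent.X112.RO

noncomputable section

/-- `ζ` has no zeros in the half-plane `Re s > θ` -/
def Free (θ : ℝ) : Prop := ∀ s : ℂ, θ < s.re → riemannZeta s ≠ 0

def A2 (q : ℕ) (κ : ℝ) : Prop := ∀ᶠ n : ℕ in atTop, Exc n → (Real.log n) ^ κ ≤ (q : ℝ) ^ (n.factorization q)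
def A3 (κ : ℝ) : Prop := ∀ᶠ n : ℕ in atTop, Exc n → ∀ p : ℕ, p.Prime →
  (Real.log n) ^ κ ≤ (p : ℝ) ^ (n.factorization p + 1)
def A4 (κ : ℝ) : Prop := ∀ᶠ n : ℕ in atTop, Exc n → ∀ p : ℕ, p.Prime → p ∣ n → (p : ℝ) ≤ Real.exp ((Real.log n) ^ κ)
def A5 (κ : ℝ) : Prop := ∀ᶠ n : ℕ in atTop, Exc n →
  (n : ℝ) ≤ Real.exp ((Real.log n) ^ κ) * ∏ p ∈ n.primeFactors, (p : ℝ)
def A6 (κ : ℝ) : Prop := ∀ᶠ n : ℕ in atTop, Exc n → ((miss n).card : ℝ) ≤ (Real.log n) ^ κ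

lemma log_small {s t : ℝ} (hst : s < t) (K : ℝ) : ∀ᶠ x : ℝ in atTop, K * (x ^ s * Real.log x) ≤ x ^ t := by
  have h1 := (isLittleO_log_rpow_atTop (show 0 < t - s by linarith)).bound
    (show (0 : ℝ) < 1 / (|K| + 1) by positivity)
  filter_upwards [h1, eventually_ge_atTop 1] with x hx hx1
  have hx0 : 0 < x := by linarith
  have hl : 0 ≤ Real.log x := Real.log_nonneg hx1
  rw [Real.norm_of_nonneg hl, Real.norm_of_nonneg (by positivity), div_mul_eq_mul_div, le_div_iff₀ (by positivity),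
    one_mul] at hx
  have e1 : x ^ t = x ^ s * x ^ (t - s) := by
    rw [← Real.rpow_add hx0]; congr 1; ring
  have hxs : 0 < x ^ s := Real.rpow_pos_of_pos hx0 _
  rw [e1]
  calc K * (x ^ s * Real.log x) = x ^ s * (K * Real.log x) := by ring
    _ ≤ x ^ s * x ^ (t - s) := by
        refine mul_le_mul_of_nonneg_left (le_trans ?_ hx) hxs.le
        have := le_abs_self K
        nlinarith

lemma log_small' {t : ℝ} (ht : 0 < t) : ∀ᶠ x : ℝ in atTop, Real.log (2 * x + 1) ≤ x ^ t := by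
  filter_upwards [log_small (s := 0) ht 2, eventually_ge_atTop 3] with x h1 h2
  rw [Real.rpow_zero, one_mul] at h1
  refine le_trans ?_ h1
  have e1 : Real.log (2 * x + 1) ≤ Real.log (x ^ 2) := Real.log_le_log (by linarith) (by nlinarith)
  rw [Real.log_pow] at e1
  exact_mod_cast e1

/-- the necessary conditions -/
theorem fwd_free {θ ε : ℝ} (h0 : 1 / 2 ≤ θ) (h1 : θ < 1) (hz : Free θ) (hε : 0 < ε) :
    (∀ q : ℕ, q.Prime → A2 q (1 - θ - ε)) ∧ A3 (1 - θ - ε) ∧ A4 (θ + ε) ∧ A5 (θ + ε) ∧ A6 ((1 + θ) / 2 + ε) := by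
  obtain ⟨s, hs1, hs2⟩ := exists_between (show θ < min (θ + ε) 1 from lt_min (by linarith) h1)
  have hs3 : s < θ + ε := hs2.trans_le (min_le_left _ _)
  have hs4 : s < 1 := hs2.trans_le (min_le_right _ _)
  obtain ⟨C0, hC0, hth⟩ := theta_of_free h0 hz hs1 hs4.le
  obtain ⟨C, hC, hK⟩ := KQ_small hs4 hC0 hth
  have hF := fwd_ev (by linarith) hC hK
  have h3 : ∀ᶠ x : ℝ in atTop, 3 ≤ x := eventually_ge_atTop 3
  have key : ∀ K : ℝ, 0 < K → ∀ x : ℝ, 3 ≤ x → (2 * C + 6) * K ≤ x ^ (θ + ε - s) → ∀ y : ℝ, 0 < y →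
      1 / y ≤ (2 * C + 6) * x ^ (s - 1) → x ^ (1 - θ - ε) * K ≤ y := by
    intro K hK x hx hx2 y hy h
    have hx0 : 0 < x := by linarith
    rw [div_le_iff₀ hy] at h
    have e1 : x ^ (1 - θ - ε) * x ^ (θ + ε - s) = x ^ (1 - s) := by
      rw [← Real.rpow_add hx0]; congr 1; ring
    have e2 : x ^ (1 - s) * x ^ (s - 1) = 1 := by
      rw [← Real.rpow_add hx0]
      have : 1 - s + (s - 1) = 0 := by ring
      rw [this, Real.rpow_zero]
    have p1 : 0 < x ^ (1 - θ - ε) := Real.rpow_pos_of_pos hx0 _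
    have p2 : 0 < x ^ (1 - s) := Real.rpow_pos_of_pos hx0 _
    have e3 : x ^ (1 - s) ≤ (2 * C + 6) * y := by
      have := mul_le_mul_of_nonneg_left h p2.le
      calc x ^ (1 - s) = x ^ (1 - s) * 1 := (mul_one _).symm
        _ ≤ x ^ (1 - s) * ((2 * C + 6) * x ^ (s - 1) * y) := this
        _ = (2 * C + 6) * (x ^ (1 - s) * x ^ (s - 1)) * y := by ring
        _ = (2 * C + 6) * y := by rw [e2, mul_one]
    have e4 := mul_le_mul_of_nonneg_left hx2 p1.le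
    rw [e1] at e4
    have e5 : (2 * C + 6) * (x ^ (1 - θ - ε) * K) ≤ (2 * C + 6) * y := by linarith
    exact le_of_mul_le_mul_left e5 (by linarith)
  refine ⟨fun q hq => ?_, ?_, ?_, ?_, ?_⟩
  · have hq0 : (0 : ℝ) < q := by exact_mod_cast hq.pos
    filter_upwards [hF, ev_nat h3, ev_nat (ev_rpow (show 0 < θ + ε - s by linarith) ((2 * C + 6) * q))] with n g1 g2 g3 hE
    obtain ⟨f1, -, -, -⟩ := g1 hE
    have g4 := key q hq0 _ g2 g3 _ (by positivity) (f1 q hq)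
    rw [pow_succ] at g4
    exact le_of_mul_le_mul_right g4 hq0
  · filter_upwards [hF, ev_nat h3, ev_nat (ev_rpow (show 0 < θ + ε - s by linarith) ((2 * C + 6) * 1))]
      with n g1 g2 g3 hE p hp
    obtain ⟨f1, -, -, -⟩ := g1 hE
    have hp0 : (0 : ℝ) < p := by exact_mod_cast hp.pos
    have g4 := key 1 one_pos _ g2 g3 _ (by positivity) (f1 p hp)
    rwa [mul_one] at g4
  · filter_upwards [hF, ev_nat h3, ev_nat (log_small (show s < θ + ε by linarith) (2 * (2 * C + 4))),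
      ev_nat (log_small' (show 0 < s by linarith)),
      ev_nat (log_small (s := s) (t := θ + ε) (by linarith) 2)] with n g1 g2 g3 g4 g5 hE p hp hpn
    obtain ⟨-, -, f3, -⟩ := g1 hE
    have hp0 : (0 : ℝ) < p := by exact_mod_cast hp.pos
    have g6 := f3 p hp hpn
    have hlx := log_ge_one g2
    obtain ⟨x, hx⟩ : ∃ x, x = Real.log n := ⟨_, rfl⟩
    rw [← hx] at g2 g3 g4 g5 g6 hlx ⊢
    have hx0 : 0 < x := by linarith
    have hxs : 0 < x ^ s := Real.rpow_pos_of_pos hx0 _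
    have g7 : x ^ s ≤ x ^ s * Real.log x := by nlinarith
    rw [← Real.log_le_iff_le_exp hp0]
    linarith
  · filter_upwards [hF, ev_nat h3, ev_nat (log_small (show s < θ + ε by linarith) (C + 2)),
      eventually_gt_atTop 0] with n g1 g2 g3 hn hE
    obtain ⟨-, f2, -, -⟩ := g1 hE
    have hn0 : (0 : ℝ) < n := by exact_mod_cast hn
    have hR0 : 0 < ∏ p ∈ n.primeFactors, (p : ℝ) :=
      Finset.prod_pos fun p hp => by exact_mod_cast (Nat.prime_of_mem_primeFactors hp).pos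
    have h5 := log_rad hn
    rw [← Real.log_le_log_iff hn0 (by positivity), Real.log_mul (Real.exp_pos _).ne' hR0.ne', Real.log_exp]
    linarith
  · filter_upwards [hF, ev_nat h3, ev_nat (ev_rpow (show 0 < (1 + θ) / 2 + ε - (1 + s) / 2 by linarith)
      (2 * (2 * √(C + 2)))), ev_nat (ev_rpow (show 0 < (1 + θ) / 2 + ε by linarith) 2)] with n g1 g2 g3 g4 hE
    obtain ⟨-, -, -, f4⟩ := g1 hE
    refine f4.trans ?_
    obtain ⟨x, hx⟩ : ∃ x, x = Real.log n := ⟨_, rfl⟩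
    rw [← hx] at g2 g3 g4 ⊢
    have hx0 : 0 < x := by linarith
    have e1 : x ^ ((1 + θ) / 2 + ε) = x ^ ((1 + θ) / 2 + ε - (1 + s) / 2) * x ^ ((1 + s) / 2) := by
      rw [← Real.rpow_add hx0]; congr 1; ring
    have p1 : 0 < x ^ ((1 + s) / 2) := Real.rpow_pos_of_pos hx0 _
    have e2 := mul_le_mul_of_nonneg_right g3 p1.le
    rw [← e1] at e2
    linarith

lemma rpow_contra {x κ κ' : ℝ} (hx : 1 < x) (h : κ < κ') (h2 : x ^ κ' ≤ x ^ κ) : False :=
  absurd (Real.rpow_lt_rpow_of_exponent_lt hx h) (not_lt.2 h2)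

lemma ev_gt_one : ∀ᶠ n : ℕ in atTop, 1 < Real.log (n : ℝ) := ev_nat (eventually_gt_atTop 1)

lemma no_A2 {ρ : ℂ} (hz : riemannZeta ρ = 0) (hρ : 1 / 2 < ρ.re) {q : ℕ} (hq : q.Prime) {κ : ℝ}
    (hκ : 1 - ρ.re < κ) : ¬ A2 q κ := by
  intro h
  obtain ⟨κ', h1, h2⟩ := exists_between hκ
  obtain ⟨n, ⟨g1, g2⟩, g3, g4⟩ := ((bad_small hz hρ hq h1).and_eventually (h.and ev_gt_one)).exists
  have hq1 : (1 : ℝ) ≤ q := by exact_mod_cast hq.one_le
  have g5 : (q : ℝ) ^ (n.factorization q) ≤ (q : ℝ) ^ (n.factorization q + 1) := pow_le_pow_right₀ hq1 (by omega)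
  exact rpow_contra g4 h2 ((g3 g1).trans (g5.trans g2))

lemma no_A3 {ρ : ℂ} (hz : riemannZeta ρ = 0) (hρ : 1 / 2 < ρ.re) {κ : ℝ} (hκ : 1 - ρ.re < κ) : ¬ A3 κ := by
  intro h
  obtain ⟨κ', h1, h2⟩ := exists_between hκ
  obtain ⟨n, ⟨g1, g2⟩, g3, g4⟩ := ((bad_small hz hρ Nat.prime_two h1).and_eventually (h.and ev_gt_one)).exists
  exact rpow_contra g4 h2 ((g3 g1 2 Nat.prime_two).trans g2)

lemma no_A4 {ρ : ℂ} (hz : riemannZeta ρ = 0) (hρ : 1 / 2 < ρ.re) {κ : ℝ} (hκ : κ < ρ.re) : ¬ A4 κ := by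
  intro h
  obtain ⟨κ', h1, h2⟩ := exists_between (show max κ 0 < ρ.re from max_lt hκ (by linarith))
  have h3 : κ < κ' := (le_max_left _ _).trans_lt h1
  have h4 : 0 < κ' := (le_max_right _ _).trans_lt h1
  obtain ⟨n, ⟨g1, p, g2, g3, g4⟩, g5, g6⟩ := ((bad_prime hz hρ h4 h2).and_eventually (h.and ev_gt_one)).exists
  have g7 := (g4.le.trans (g5 g1 p g2 g3))
  exact rpow_contra g6 h3 (Real.exp_le_exp.1 g7)

lemma no_A5 {ρ : ℂ} (hz : riemannZeta ρ = 0) (hρ : 1 / 2 < ρ.re) {κ : ℝ} (hκ : κ < ρ.re) : ¬ A5 κ := by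
  intro h
  obtain ⟨κ', h1, h2⟩ := exists_between (show max κ 0 < ρ.re from max_lt hκ (by linarith))
  have h3 : κ < κ' := (le_max_left _ _).trans_lt h1
  have h4 : 0 < κ' := (le_max_right _ _).trans_lt h1
  obtain ⟨n, ⟨g1, g2⟩, g5, g6⟩ := ((bad_rad hz hρ h4 h2).and_eventually (h.and ev_gt_one)).exists
  have g7 := g2.le.trans (g5 g1)
  have hR0 : 0 < ∏ p ∈ n.primeFactors, (p : ℝ) :=
    Finset.prod_pos fun p hp => by exact_mod_cast (Nat.prime_of_mem_primeFactors hp).pos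
  exact rpow_contra g6 h3 (Real.exp_le_exp.1 (le_of_mul_le_mul_right g7 hR0))

lemma no_A6 {ρ : ℂ} (hz : riemannZeta ρ = 0) (hρ : 1 / 2 < ρ.re) {κ : ℝ} (hκ : κ < (1 + ρ.re) / 2) : ¬ A6 κ := by
  intro h
  obtain ⟨κ', h1, h2⟩ := exists_between (show max κ 0 < (1 + ρ.re) / 2 from max_lt hκ (by linarith))
  have h3 : κ < κ' := (le_max_left _ _).trans_lt h1
  have h4 : 0 < κ' := (le_max_right _ _).trans_lt h1
  obtain ⟨n, ⟨g1, g2⟩, g5, g6⟩ := ((bad_miss hz hρ h4 h2).and_eventually (h.and ev_gt_one)).exists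
  exact rpow_contra g6 h3 (g2.le.trans (g5 g1))

lemma not_free {θ : ℝ} (h : ¬ Free θ) : ∃ ρ : ℂ, θ < ρ.re ∧ riemannZeta ρ = 0 := by
  unfold Free at h
  push Not at h
  exact h

/-- the equivalences for a given half-plane -/
theorem main_tfae {θ : ℝ} (h0 : 1 / 2 ≤ θ) (h1 : θ < 1) {q : ℕ} (hq : q.Prime) :
    List.TFAE [Free θ, ∀ ε : ℝ, 0 < ε → A2 q (1 - θ - ε), ∀ ε : ℝ, 0 < ε → A3 (1 - θ - ε),
      ∀ ε : ℝ, 0 < ε → A4 (θ + ε), ∀ ε : ℝ, 0 < ε → A5 (θ + ε), ∀ ε : ℝ, 0 < ε → A6 ((1 + θ) / 2 + ε)] := by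
  tfae_have 1 → 2 := fun h ε hε => (fwd_free h0 h1 h hε).1 q hq
  tfae_have 1 → 3 := fun h ε hε => (fwd_free h0 h1 h hε).2.1
  tfae_have 1 → 4 := fun h ε hε => (fwd_free h0 h1 h hε).2.2.1
  tfae_have 1 → 5 := fun h ε hε => (fwd_free h0 h1 h hε).2.2.2.1
  tfae_have 1 → 6 := fun h ε hε => (fwd_free h0 h1 h hε).2.2.2.2
  tfae_have 2 → 1 := by
    intro h
    by_contra hc
    obtain ⟨ρ, g1, g2⟩ := not_free hc
    exact no_A2 g2 (by linarith) hq (by linarith) (h ((ρ.re - θ) / 2) (by linarith))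
  tfae_have 3 → 1 := by
    intro h
    by_contra hc
    obtain ⟨ρ, g1, g2⟩ := not_free hc
    exact no_A3 g2 (by linarith) (by linarith) (h ((ρ.re - θ) / 2) (by linarith))
  tfae_have 4 → 1 := by
    intro h
    by_contra hc
    obtain ⟨ρ, g1, g2⟩ := not_free hc
    exact no_A4 g2 (by linarith) (by linarith) (h ((ρ.re - θ) / 2) (by linarith))
  tfae_have 5 → 1 := by
    intro h
    by_contra hc
    obtain ⟨ρ, g1, g2⟩ := not_free hc
    exact no_A5 g2 (by linarith) (by linarith) (h ((ρ.re - θ) / 2) (by linarith))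
  tfae_have 6 → 1 := by
    intro h
    by_contra hc
    obtain ⟨ρ, g1, g2⟩ := not_free hc
    exact no_A6 g2 (by linarith) (by linarith) (h ((ρ.re - θ) / 4) (by linarith))
  tfae_finish

/-- the equivalences for some half-plane -/
theorem quasi_tfae :
    List.TFAE [∃ θ : ℝ, θ < 1 ∧ Free θ,
      ∃ c : ℝ, 0 < c ∧ ∀ᶠ n : ℕ in atTop, Exc n → c * Real.log (Real.log n) ≤ n.factorization 2,
      ∃ c : ℝ, 0 < c ∧ A3 c,
      ∃ c : ℝ, c < 1 ∧ A4 c, ∃ c : ℝ, c < 1 ∧ A5 c, ∃ c : ℝ, c < 1 ∧ A6 c] := by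
  have red : (∃ θ : ℝ, θ < 1 ∧ Free θ) → ∃ θ : ℝ, 1 / 2 ≤ θ ∧ θ < 1 ∧ Free θ := by
    rintro ⟨θ, h1, h2⟩
    refine ⟨max θ (1 / 2), le_max_right _ _, max_lt h1 (by norm_num), fun s hs => h2 s ?_⟩
    exact (le_max_left _ _).trans_lt hs
  have cont : ¬ (∃ θ : ℝ, θ < 1 ∧ Free θ) → ∀ θ : ℝ, θ < 1 → ∃ ρ : ℂ, θ < ρ.re ∧ riemannZeta ρ = 0 := by
    intro h θ hθ
    exact not_free fun h' => h ⟨θ, hθ, h'⟩
  tfae_have 1 → 2 := by
    intro h
    obtain ⟨θ, h0, h1, h2⟩ := red h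
    have h3 := (fwd_free h0 h1 h2 (ε := (1 - θ) / 2) (by linarith)).1 2 Nat.prime_two
    refine ⟨(1 - θ) / 2, by linarith, ?_⟩
    have h4 : ∀ᶠ x : ℝ in atTop, 3 ≤ x := eventually_ge_atTop 3
    filter_upwards [h3, ev_nat h4] with n g1 g2 hE
    have g3 := g1 hE
    have hx0 : 0 < Real.log n := by linarith
    have g4 := Real.log_le_log (Real.rpow_pos_of_pos hx0 _) g3
    rw [Real.log_rpow hx0, Real.log_pow] at g4
    have hl2 := Real.log_two_lt_d9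
    have g5 : (n.factorization 2 : ℝ) * Real.log ((2 : ℕ) : ℝ) ≤ n.factorization 2 := by
      push_cast
      have : (0 : ℝ) ≤ n.factorization 2 := Nat.cast_nonneg _
      nlinarith
    have e1 : 1 - θ - (1 - θ) / 2 = (1 - θ) / 2 := by ring
    rw [e1] at g4
    exact g4.trans g5
  tfae_have 1 → 3 := by
    intro h
    obtain ⟨θ, h0, h1, h2⟩ := red h
    exact ⟨1 - θ - (1 - θ) / 2, by linarith, (fwd_free h0 h1 h2 (by linarith)).2.1⟩
  tfae_have 1 → 4 := by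
    intro h
    obtain ⟨θ, h0, h1, h2⟩ := red h
    exact ⟨θ + (1 - θ) / 2, by linarith, (fwd_free h0 h1 h2 (by linarith)).2.2.1⟩
  tfae_have 1 → 5 := by
    intro h
    obtain ⟨θ, h0, h1, h2⟩ := red h
    exact ⟨θ + (1 - θ) / 2, by linarith, (fwd_free h0 h1 h2 (by linarith)).2.2.2.1⟩
  tfae_have 1 → 6 := by
    intro h
    obtain ⟨θ, h0, h1, h2⟩ := red h
    exact ⟨(1 + θ) / 2 + (1 - θ) / 4, by linarith, (fwd_free h0 h1 h2 (by linarith)).2.2.2.2⟩
  tfae_have 2 → 1 := by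
    rintro ⟨c, hc, h⟩
    by_contra hcon
    have hl2 := Real.log_two_gt_d9
    have hcl : 0 < c * Real.log 2 := by positivity
    obtain ⟨ρ, g1, g2⟩ := cont hcon (max (1 / 2) (1 - c * Real.log 2)) (max_lt (by norm_num) (by linarith))
    have g3 : 1 / 2 < ρ.re := (le_max_left _ _).trans_lt g1
    have g4 : 1 - c * Real.log 2 < ρ.re := (le_max_right _ _).trans_lt g1
    refine no_A2 g2 g3 Nat.prime_two (κ := c * Real.log 2) (by linarith) ?_
    have h4 : ∀ᶠ x : ℝ in atTop, 3 ≤ x := eventually_ge_atTop 3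
    filter_upwards [h, ev_nat h4] with n k1 k2 hE
    have k3 := k1 hE
    have hx0 : 0 < Real.log n := by linarith
    rw [← Real.log_le_log_iff (Real.rpow_pos_of_pos hx0 _) (by positivity), Real.log_rpow hx0, Real.log_pow]
    push_cast
    nlinarith
  tfae_have 3 → 1 := by
    rintro ⟨c, hc, h⟩
    by_contra hcon
    obtain ⟨ρ, g1, g2⟩ := cont hcon (max (1 / 2) (1 - c)) (max_lt (by norm_num) (by linarith))
    have g3 : 1 / 2 < ρ.re := (le_max_left _ _).trans_lt g1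
    have g4 : 1 - c < ρ.re := (le_max_right _ _).trans_lt g1
    exact no_A3 g2 g3 (by linarith) h
  tfae_have 4 → 1 := by
    rintro ⟨c, hc, h⟩
    by_contra hcon
    obtain ⟨ρ, g1, g2⟩ := cont hcon (max (1 / 2) c) (max_lt (by norm_num) (by linarith))
    exact no_A4 g2 ((le_max_left _ _).trans_lt g1) ((le_max_right _ _).trans_lt g1) h
  tfae_have 5 → 1 := by
    rintro ⟨c, hc, h⟩
    by_contra hcon
    obtain ⟨ρ, g1, g2⟩ := cont hcon (max (1 / 2) c) (max_lt (by norm_num) (by linarith))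
    exact no_A5 g2 ((le_max_left _ _).trans_lt g1) ((le_max_right _ _).trans_lt g1) h
  tfae_have 6 → 1 := by
    rintro ⟨c, hc, h⟩
    by_contra hcon
    obtain ⟨ρ, g1, g2⟩ := cont hcon (max (1 / 2) (2 * c - 1)) (max_lt (by norm_num) (by linarith))
    have g4 : 2 * c - 1 < ρ.re := (le_max_right _ _).trans_lt g1
    exact no_A6 g2 ((le_max_left _ _).trans_lt g1) (by linarith) h
  tfae_finish

end

end Pool.Agent.X110.RA
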