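import Pool.Agent.X110.RA6

set_option autoImplicit false

/-!
# The anatomy of the exceptions to Robin's inequality: unconditional bounds
-/

open MeasureTheory Filter Topology Set

namespace Pool.Agent.X110.RA

open Pool.Agent.X112.RO

noncomputable section

lemma rr_decK (K : ℕ) (hK : 1 ≤ K) : ∃ C v0 : ℝ, 0 < C ∧ 1 ≤ v0 ∧ ∀ v : ℝ, v0 ≤ v → |rr v| ≤ C / v ^ K := by
  obtain ⟨N1, hN1⟩ := Pool.Agent.W762.EC.PntA.large K hK
  obtain ⟨C, hC⟩ : ∃ C : ℝ, C = 35 + 16 * 8 ^ K := ⟨_, rfl⟩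
  rw [← hC] at hN1
  have hC0 : 0 < C := by rw [hC]; positivity
  have h1 : ∀ᶠ v : ℝ in atTop, v ^ K * Real.exp (-v) ≤ 1 := by
    have := Real.tendsto_pow_mul_exp_neg_atTop_nhds_zero K
    exact (this.eventually (gt_mem_nhds one_pos)).mono fun v hv => hv.le
  obtain ⟨v1, hv1⟩ := eventually_atTop.1 h1
  refine ⟨2 ^ K * C + 1, max (max v1 4) (Real.log (N1 + 1)), by positivity,
    le_trans (by norm_num) ((le_max_right v1 4).trans (le_max_left _ _)), fun v hv => ?_⟩
  have hv4 : 4 ≤ v := ((le_max_right v1 4).trans (le_max_left _ _)).trans hv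
  have hvv : v1 ≤ v := ((le_max_left v1 4).trans (le_max_left _ _)).trans hv
  have hvN : Real.log (N1 + 1) ≤ v := (le_max_right _ _).trans hv
  obtain ⟨N, hN⟩ : ∃ N, N = ⌊Real.exp v⌋₊ := ⟨_, rfl⟩
  have he : (N1 : ℝ) + 1 ≤ Real.exp v := (Real.log_le_iff_le_exp (by positivity)).1 hvN
  have hN1N : N1 ≤ N := by
    rw [hN]
    apply Nat.le_floor
    linarith
  have hNle : (N : ℝ) ≤ Real.exp v := by rw [hN]; exact Nat.floor_le (Real.exp_pos v).le
  have hNlt : Real.exp v < N + 1 := by rw [hN]; exact Nat.lt_floor_add_one _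
  have hexp4 : 4 ≤ Real.exp v := by
    have := Real.add_one_le_exp v
    linarith
  have hN3 : 3 < (N : ℝ) := by linarith
  have hlog : v / 2 ≤ Real.log N := by
    rw [Real.le_log_iff_exp_le (by linarith)]
    have e1 : Real.exp v = Real.exp (v / 2) ^ 2 := by
      rw [← Real.exp_nat_mul]; congr 1; push_cast; ring
    have e2 : 2 ≤ Real.exp (v / 2) := by
      have := Real.add_one_le_exp (v / 2)
      linarith
    have e3 : Real.exp v - 1 < N := by linarith
    rw [e1] at e3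
    nlinarith
  have h2 := hN1 N hN1N
  have h3 : Chebyshev.psi (Real.exp v) = Chebyshev.psi (N : ℝ) := by
    rw [Chebyshev.psi_eq_psi_coe_floor, ← hN]
  unfold rr
  rw [h3]
  have h4 : Chebyshev.psi (N : ℝ) * Real.exp (-v) - 1 = (Chebyshev.psi (N : ℝ) - Real.exp v) * Real.exp (-v) := by
    rw [sub_mul, ← Real.exp_add]; simp
  rw [h4, abs_mul, abs_of_pos (Real.exp_pos _)]
  have h5 : |Chebyshev.psi (N : ℝ) - Real.exp v| ≤ C * (N / Real.log N ^ K) + 1 := by
    have e1 : Chebyshev.psi (N : ℝ) - Real.exp v = (Chebyshev.psi (N : ℝ) - N) + (N - Real.exp v) := by ring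
    rw [e1]
    refine (abs_add_le _ _).trans (add_le_add h2 ?_)
    rw [abs_le]
    constructor <;> linarith
  have hv0 : 0 < v := by linarith
  have h6 : C * (N / Real.log N ^ K) ≤ 2 ^ K * C * (Real.exp v / v ^ K) := by
    have e1 : (v / 2) ^ K ≤ Real.log N ^ K := pow_le_pow_left₀ (by linarith) hlog K
    have e2 : (N : ℝ) / Real.log N ^ K ≤ Real.exp v / (v / 2) ^ K :=
      div_le_div₀ (Real.exp_pos v).le hNle (by positivity) e1
    have e3 : Real.exp v / (v / 2) ^ K = 2 ^ K * (Real.exp v / v ^ K) := by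
      rw [div_pow]; field_simp
    rw [e3] at e2
    calc C * (N / Real.log N ^ K) ≤ C * (2 ^ K * (Real.exp v / v ^ K)) := mul_le_mul_of_nonneg_left e2 hC0.le
      _ = _ := by ring
  have h7 : Real.exp v * Real.exp (-v) = 1 := by rw [← Real.exp_add]; simp
  calc |Chebyshev.psi (N : ℝ) - Real.exp v| * Real.exp (-v) ≤ (2 ^ K * C * (Real.exp v / v ^ K) + 1) * Real.exp (-v) :=
        mul_le_mul_of_nonneg_right (h5.trans (by linarith)) (Real.exp_pos _).le
    _ = 2 ^ K * C * (Real.exp v * Real.exp (-v)) / v ^ K + Real.exp (-v) := by ring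
    _ ≤ 2 ^ K * C * 1 / v ^ K + 1 / v ^ K := by
        rw [h7]
        have := hv1 v hvv
        have h8 : Real.exp (-v) ≤ 1 / v ^ K := by
          rw [le_div_iff₀ (by positivity)]
          linarith
        linarith
    _ = _ := by ring

lemma KQ_decK (K : ℕ) (hK : 1 ≤ K) : ∃ C u0 : ℝ, 0 < C ∧ 1 ≤ u0 ∧ ∀ u : ℝ, u0 ≤ u → |KQ u| ≤ C / u ^ K := by
  obtain ⟨C, v0, hC, hv0, h⟩ := rr_decK K hK
  obtain ⟨C', hC', h'⟩ := rr_sub_rt
  have h1 : ∀ᶠ v : ℝ in atTop, v ^ K * Real.exp (-(v / 2)) ≤ 1 := by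
    have := (isLittleO_pow_exp_pos_mul_atTop K (show (0 : ℝ) < 1 / 2 by norm_num)).bound (show (0 : ℝ) < 1 by norm_num)
    filter_upwards [this, eventually_ge_atTop 0] with v hv hv0
    rw [Real.norm_of_nonneg (by positivity), Real.norm_of_nonneg (Real.exp_pos _).le, one_mul] at hv
    calc v ^ K * Real.exp (-(v / 2)) ≤ Real.exp (1 / 2 * v) * Real.exp (-(v / 2)) :=
          mul_le_mul_of_nonneg_right hv (Real.exp_pos _).le
      _ = 1 := by rw [← Real.exp_add]; ring_nf; exact Real.exp_zero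
  obtain ⟨v1, hv1⟩ := eventually_atTop.1 h1
  obtain ⟨D, hD⟩ : ∃ D, D = C + C' := ⟨_, rfl⟩
  have hD0 : 0 < D := by linarith
  have hrt : ∀ v : ℝ, max v0 v1 ≤ v → |rt v| ≤ D / v ^ K := by
    intro v hv
    have hv2 : v0 ≤ v := (le_max_left _ _).trans hv
    have hv3 : v1 ≤ v := (le_max_right _ _).trans hv
    have hvpos : 0 < v := by linarith
    have g1 := abs_le.1 (h v hv2)
    have g2 := h' v
    have g3 := rt_le_rr v
    have g4 : Real.exp (-(v / 2)) ≤ 1 / v ^ K := by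
      rw [le_div_iff₀ (by positivity)]
      linarith [hv1 v hv3]
    have g5 : C' * Real.exp (-(v / 2)) ≤ C' / v ^ K := by
      have := mul_le_mul_of_nonneg_left g4 hC'.le
      rwa [mul_one_div] at this
    have g6 : D / v ^ K = C / v ^ K + C' / v ^ K := by rw [hD, add_div]
    have g7 : 0 ≤ C' / v ^ K := by positivity
    rw [abs_le, g6]
    constructor <;> linarith
  have hKR : (0 : ℝ) < K := by exact_mod_cast hK
  refine ⟨2 * D, max v0 v1, by positivity, hv0.trans (le_max_left _ _), fun u hu => ?_⟩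
  have hu1 : 1 ≤ u := (hv0.trans (le_max_left _ _)).trans hu
  have hu0 : 0 < u := by linarith
  have hpow : ∀ v : ℝ, 0 < v → v ^ (-((K : ℝ) + 1)) = 1 / v ^ K / v := by
    intro v hv
    rw [Real.rpow_neg hv.le, Real.rpow_add hv, Real.rpow_natCast, Real.rpow_one]
    field_simp
  have hint : IntegrableOn (fun v : ℝ => 2 * D * v ^ (-((K : ℝ) + 1))) (Ioi u) :=
    (integrableOn_Ioi_rpow_of_lt (by linarith) hu0).const_mul _
  unfold KQ
  refine (abs_integral_le_integral_abs).trans ?_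
  calc ∫ v in Ioi u, |kt v| ≤ ∫ v in Ioi u, 2 * D * v ^ (-((K : ℝ) + 1)) := by
        refine setIntegral_mono_on (kt_ii hu0).norm hint measurableSet_Ioi fun v hv => ?_
        have hv' : u < v := hv
        have hvpos : 0 < v := hu0.trans hv'
        unfold kt
        rw [abs_mul, hpow v hvpos]
        have e1 : |(1 + v) / v ^ 2| ≤ 2 / v := by
          rw [abs_of_nonneg (by positivity), div_le_div_iff₀ (by positivity) hvpos]
          nlinarith
        calc |rt v| * |(1 + v) / v ^ 2| ≤ (D / v ^ K) * (2 / v) :=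
              mul_le_mul (hrt v (hu.trans hv'.le)) e1 (abs_nonneg _) (by positivity)
          _ = _ := by ring
    _ = 2 * D / K / u ^ K := by
        rw [integral_const_mul, integral_Ioi_rpow_of_lt (by linarith) hu0,
          show -((K : ℝ) + 1) + 1 = -(K : ℝ) by ring, Real.rpow_neg hu0.le, Real.rpow_natCast]
        field_simp
    _ ≤ 2 * D / u ^ K := by
        refine div_le_div_of_nonneg_right ?_ (by positivity)
        refine div_le_self (by positivity) ?_
        exact_mod_cast hK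

/-- the unconditional bounds -/
theorem uncond (A : ℝ) : ∀ᶠ n : ℕ in atTop, Exc n →
    (∀ q : ℕ, q.Prime → (Real.log (Real.log n)) ^ A ≤ (q : ℝ) ^ (n.factorization q + 1)) ∧
    (∀ p : ℕ, p.Prime → p ∣ n → (p : ℝ) ≤ Real.exp (Real.log n / (Real.log (Real.log n)) ^ A)) ∧
    ((n : ℝ) ≤ Real.exp (Real.log n / (Real.log (Real.log n)) ^ A) * ∏ p ∈ n.primeFactors, (p : ℝ)) ∧
    ((miss n).card : ℝ) ≤ Real.log n / (Real.log (Real.log n)) ^ A := by
  obtain ⟨K, hK⟩ : ∃ K : ℕ, 2 * |A| + 4 ≤ K := exists_nat_ge _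
  have hA1 := le_abs_self A
  have hA2 := abs_nonneg A
  have hK1 : 1 ≤ K := by
    have : (4 : ℝ) ≤ K := by linarith
    have : 4 ≤ K := by exact_mod_cast this
    omega
  obtain ⟨C, u0, hC, hu0, h⟩ := KQ_decK K hK1
  have ev1 : ∀ᶠ x : ℝ in atTop, Real.log x ^ (K : ℝ) ≤ x ^ (1 / 2 : ℝ) := by
    have := (isLittleO_log_rpow_rpow_atTop (K : ℝ) (show (0 : ℝ) < 1 / 2 by norm_num)).bound (show (0 : ℝ) < 1 by norm_num)
    filter_upwards [this, eventually_ge_atTop 1] with x hx hx1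
    have hl : 0 ≤ Real.log x := Real.log_nonneg hx1
    rw [Real.norm_of_nonneg (by positivity), Real.norm_of_nonneg (by positivity), one_mul] at hx
    exact hx
  have ev2 : ∀ᶠ x : ℝ in atTop, max 100 (Real.exp u0) ≤ x := eventually_ge_atTop _
  have ev3 : ∀ δ : ℝ, 0 < δ → ∀ M : ℝ, ∀ᶠ x : ℝ in atTop, M ≤ Real.log x ^ δ := fun δ hδ M =>
    Real.tendsto_log_atTop.eventually (ev_rpow hδ M)
  filter_upwards [ev_nat ev1, ev_nat ev2, ev_nat (ev3 ((K : ℝ) - A) (by linarith) (2 * C + 4)),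
    ev_nat (ev3 ((K : ℝ) - 1 - A) (by linarith) (8 * C + 8)),
    ev_nat (ev3 ((K : ℝ) / 2 - A) (by linarith) (4 * √(C + 1))),
    eventually_gt_atTop 0] with n g1 g2 g3 g4 g5 hn hE
  obtain ⟨x, hx⟩ : ∃ x, x = Real.log n := ⟨_, rfl⟩
  rw [← hx] at g1 g2 g3 g4 g5 ⊢
  have hx100 : 100 ≤ x := (le_max_left _ _).trans g2
  have hxu : Real.exp u0 ≤ x := (le_max_right _ _).trans g2
  have hx0 : 0 < x := by linarith
  obtain ⟨y, hy⟩ : ∃ y, y = Real.log x := ⟨_, rfl⟩
  have hyu : u0 ≤ y := by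
    rw [hy, Real.le_log_iff_exp_le hx0]; exact hxu
  have hy1 : 1 ≤ y := hu0.trans hyu
  have hy0 : 0 < y := by linarith
  have hKQ := h y hyu
  rw [← hy] at g1 g3 g4 g5 ⊢
  have hyK : 0 < y ^ (K : ℝ) := Real.rpow_pos_of_pos hy0 _
  rw [← Real.rpow_natCast] at hKQ
  obtain ⟨δ, hδ⟩ : ∃ δ, δ = (C + 1) / y ^ (K : ℝ) := ⟨_, rfl⟩
  have hsq : x ^ (1 / 2 : ℝ) * x ^ (1 / 2 : ℝ) = x := by
    rw [← Real.rpow_add hx0]; norm_num
  have hsq10 : 10 ≤ x ^ (1 / 2 : ℝ) := by
    have h1 : (0 : ℝ) < x ^ (1 / 2 : ℝ) := Real.rpow_pos_of_pos hx0 _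
    nlinarith
  have hinv : 1 / x ≤ 1 / y ^ (K : ℝ) / 10 := by
    rw [div_div, div_le_div_iff₀ hx0 (by positivity)]
    nlinarith
  have hinv2 : 2 / x ^ 2 ≤ 1 / y ^ (K : ℝ) := by
    have e1 : 2 / x ^ 2 ≤ 1 / x := by
      rw [div_le_div_iff₀ (by positivity) hx0]; nlinarith
    have e2 : 0 < 1 / y ^ (K : ℝ) := by positivity
    linarith
  have hδ2 : |KQ (Real.log x)| + 2 / x ^ 2 ≤ δ := by
    rw [← hy, hδ, add_div]
    linarith
  obtain ⟨f1, f2, f3, f4⟩ := fwd hn hx (by linarith) hE hδ2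
  have hyA : 0 < y ^ A := Real.rpow_pos_of_pos hy0 _
  -- the main comparison
  have hcmp : δ * (x * y) ≤ x / y ^ A / 8 := by
    have e1 : y ^ (K : ℝ) = y ^ ((K : ℝ) - 1 - A) * (y * y ^ A) := by
      nth_rewrite 3 [← Real.rpow_one y]
      rw [← Real.rpow_add hy0, ← Real.rpow_add hy0]; congr 1; ring
    rw [hδ, div_div, div_mul_eq_mul_div, div_le_div_iff₀ hyK (by positivity), e1]
    have e2 : 0 < x * (y * y ^ A) := by positivity
    have e3 := mul_le_mul_of_nonneg_right g4 e2.le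
    linarith
  have hxy : 0 < x / y ^ A := by positivity
  refine ⟨fun q hq => ?_, fun p hp hpn => ?_, ?_, ?_⟩
  · have hq0 : (0 : ℝ) < q := by exact_mod_cast hq.pos
    have k1 := f1 q hq
    have k2 : 1 / (q : ℝ) ^ (n.factorization q + 1) ≤ (2 * C + 4) / y ^ (K : ℝ) := by
      have e1 : 2 / x = 2 * (1 / x) := by ring
      have e2 : (2 * C + 4) / y ^ (K : ℝ) = 2 * ((C + 1) / y ^ (K : ℝ)) + 2 * (1 / y ^ (K : ℝ)) := by ring
      have e3 : 0 < 1 / y ^ (K : ℝ) := by positivity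
      rw [← hδ] at e2
      linarith
    rw [div_le_div_iff₀ (by positivity) hyK, one_mul] at k2
    have e1 : y ^ (K : ℝ) = y ^ ((K : ℝ) - A) * y ^ A := by
      rw [← Real.rpow_add hy0]; congr 1; ring
    rw [e1] at k2
    have e2 := (mul_le_mul_of_nonneg_right g3 hyA.le).trans k2
    exact le_of_mul_le_mul_left e2 (by linarith)
  · have hp0 : (0 : ℝ) < p := by exact_mod_cast hp.pos
    have k1 := f3 p hp hpn
    rw [← hy] at k1
    rw [← Real.log_le_iff_le_exp hp0]
    have k2 : Real.log (2 * x + 1) ≤ x / y ^ A / 2 := by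
      have e1 : Real.log (2 * x + 1) ≤ 2 * y := by
        have e2 : Real.log (2 * x + 1) ≤ Real.log (x ^ 2) := Real.log_le_log (by linarith) (by nlinarith)
        rw [Real.log_pow, ← hy] at e2
        exact_mod_cast e2
      have e3 : y * y ^ A ≤ y ^ (K : ℝ) := by
        nth_rewrite 1 [← Real.rpow_one y]
        rw [← Real.rpow_add hy0]
        exact Real.rpow_le_rpow_of_exponent_le hy1 (by linarith)
      rw [div_div, le_div_iff₀ (by positivity)]
      have e4 : 4 * (y * y ^ A) ≤ x := by nlinarith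
      calc Real.log (2 * x + 1) * (y ^ A * 2) ≤ 2 * y * (y ^ A * 2) :=
            mul_le_mul_of_nonneg_right e1 (by positivity)
        _ = 4 * (y * y ^ A) := by ring
        _ ≤ x := e4
    have k3 : 2 * δ * (x * y) = 2 * (δ * (x * y)) := by ring
    rw [k3] at k1
    linarith
  · have hn0 : (0 : ℝ) < n := by exact_mod_cast hn
    have hR0 : 0 < ∏ p ∈ n.primeFactors, (p : ℝ) :=
      Finset.prod_pos fun p hp => by exact_mod_cast (Nat.prime_of_mem_primeFactors hp).pos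
    have h5 := log_rad hn
    rw [← hy] at f2
    rw [← Real.log_le_log_iff hn0 (by positivity), Real.log_mul (Real.exp_pos _).ne' hR0.ne', Real.log_exp]
    linarith
  · refine f4.trans ?_
    have e1 : √δ = √(C + 1) / y ^ ((K : ℝ) / 2) := by
      rw [hδ, Real.sqrt_div (by linarith), Real.sqrt_eq_rpow (y ^ (K : ℝ)), ← Real.rpow_mul hy0.le]
      congr 2
      ring
    have hy2 : 0 < y ^ ((K : ℝ) / 2) := Real.rpow_pos_of_pos hy0 _
    have e2 : 2 * (x * √δ) ≤ x / y ^ A / 2 := by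
      rw [e1, div_div, le_div_iff₀ (by positivity)]
      have e3 : y ^ ((K : ℝ) / 2) = y ^ ((K : ℝ) / 2 - A) * y ^ A := by
        rw [← Real.rpow_add hy0]; congr 1; ring
      have e4 : 2 * (x * (√(C + 1) / y ^ ((K : ℝ) / 2))) * (y ^ A * 2) =
          x * (4 * √(C + 1) * y ^ A) / y ^ ((K : ℝ) / 2) := by ring
      rw [e4, div_le_iff₀ hy2]
      refine mul_le_mul_of_nonneg_left ?_ hx0.le
      rw [e3]
      exact mul_le_mul_of_nonneg_right g5 hyA.le
    have e5 : 1 ≤ x / y ^ A / 2 := by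
      rw [div_div, le_div_iff₀ (by positivity), one_mul]
      have e6 : y ^ A ≤ y ^ (K : ℝ) := Real.rpow_le_rpow_of_exponent_le hy1 (by linarith)
      nlinarith
    linarith

end

end Pool.Agent.X110.RA
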