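import Pool.Agent.Y746.CS.Cx
import Pool.Agent.Y746.OA.SSum

set_option autoImplicit false

/-! Ratios of zeta near the line: pointwise comparison. -/

namespace Pool.Agent.X110.RR

open Finset MeasureTheory
open Pool.Agent.H306R2 Pool.Agent.Y746.OA

noncomputable section

/-- the exponents needed at one point -/
def EE (K : ℕ) (b β : ℝ) (J : ℕ) : Finset ℝ :=
  (Icc (-(K:ℤ)) K).biUnion fun i => Ex b (β + i) J

lemma EE_card (K : ℕ) (b β : ℝ) (J : ℕ) : #(EE K b β J) ≤ (2 * K + 1) * (8 * J + 16) := by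
  unfold EE
  refine (card_biUnion_le_card_mul (Icc (-(K:ℤ)) K) (fun i : ℤ => Ex b (β + i) J) (8 * J + 16)
    fun i _ => Ex_card b (β + i) J).trans ?_
  refine Nat.mul_le_mul_right _ ?_
  rw [Int.card_Icc]
  omega

lemma EE_sub {K : ℕ} {b β : ℝ} {J : ℕ} {i : ℤ} (hi : |i| ≤ K) : Ex b (β + i) J ⊆ EE K b β J := by
  unfold EE
  have : i ∈ Icc (-(K:ℤ)) K := by rw [mem_Icc]; exact abs_le.mp hi
  exact subset_biUnion_of_mem (fun i : ℤ => Ex b (β + i) J) this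

lemma EE_sub0 {K : ℕ} {b β : ℝ} {J : ℕ} : Ex b β J ⊆ EE K b β J := by
  have h := EE_sub (K := K) (b := b) (β := β) (J := J) (i := 0) (by rw [abs_zero]; positivity)
  rwa [Int.cast_zero, add_zero] at h

lemma EE_bd {K : ℕ} {b β : ℝ} {J : ℕ} (hb : 1 ≤ b) (hβ : |β| + K ≤ b) {a : ℝ} (ha : a ∈ EE K b β J) : |a| ≤ 2 * b := by
  unfold EE at ha
  rw [mem_biUnion] at ha
  obtain ⟨i, hi, ha⟩ := ha
  refine Ex_bd hb ?_ ha
  rw [mem_Icc] at hi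
  have h1 : |(i:ℝ)| ≤ K := by
    rw [abs_le]
    exact ⟨by exact_mod_cast hi.1, by exact_mod_cast hi.2⟩
  exact (abs_add_le _ _).trans (by linarith)

lemma EE_neg {K : ℕ} {b β : ℝ} {J : ℕ} {a : ℝ} (ha : a ∈ EE K b β J) : -a ∈ EE K b β J := by
  unfold EE at ha ⊢
  rw [mem_biUnion] at ha ⊢
  obtain ⟨i, hi, ha⟩ := ha
  exact ⟨i, hi, Ex_neg ha⟩

lemma EE_mem {K : ℕ} {b β : ℝ} {J : ℕ} {i : ℤ} (hi : |i| ≤ K) : β + i ∈ EE K b β J :=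
  EE_sub hi (S1_sub (S1_iter (j := 0) (by omega)))

lemma EE_one {K : ℕ} {b β : ℝ} {J : ℕ} : (1:ℝ) ∈ EE K b β J :=
  EE_sub0 (S1_sub (S1_iter1 (j := 0) (by omega)))

/-- multiplication by powers of zeta -/
lemma step_pos {z : ℝ → ℂ} {E : Finset ℝ} {W e : ℝ} (h : Good z E W e) {ζ : ℂ} (hζ : ‖ζ - z 1‖ ≤ e)
    (h1 : (1:ℝ) ∈ E) {y : ℝ} (hy : y ∈ E) : ‖z (y + 1) - z y * ζ‖ ≤ 2 * W * e := by
  have g1 := h.mul y hy 1 h1
  have g2 := h.bd y hy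
  have hW := h.W1
  have he := h.e0
  have e1 : z (y + 1) - z y * ζ = (z (y + 1) - z y * z 1) - z y * (ζ - z 1) := by ring
  rw [e1]
  refine (norm_sub_le _ _).trans ?_
  rw [norm_mul]
  have g3 : ‖z y‖ * ‖ζ - z 1‖ ≤ W * e := mul_le_mul g2 hζ (norm_nonneg _) (by linarith)
  nlinarith

lemma zpow_norm_le {ζ : ℂ} {V : ℝ} (hV : 1 ≤ V) (h1 : V⁻¹ < ‖ζ‖) (h2 : ‖ζ‖ < V) {K : ℕ} {r : ℤ} (hr : |r| ≤ K) :
    ‖ζ ^ r‖ ≤ V ^ K := by
  have hV0 : 0 < V := by linarith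
  have hz : 0 < ‖ζ‖ := lt_trans (inv_pos.mpr hV0) h1
  obtain ⟨hr1, hr2⟩ := abs_le.mp hr
  rcases Int.eq_nat_or_neg r with ⟨n, hn | hn⟩
  · subst hn
    rw [zpow_natCast, norm_pow]
    exact (pow_le_pow_left₀ hz.le h2.le n).trans (pow_le_pow_right₀ hV (by omega))
  · subst hn
    rw [zpow_neg, zpow_natCast, norm_inv, norm_pow, ← inv_pow]
    have h3 : ‖ζ‖⁻¹ ≤ V := by
      rw [inv_le_comm₀ hz hV0]; exact h1.le
    exact (pow_le_pow_left₀ (by positivity) h3 n).trans (pow_le_pow_right₀ hV (by omega))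

lemma rat_pos {z : ℝ → ℂ} {E : Finset ℝ} {W e V : ℝ} (h : Good z E W e) {ζ : ℂ} (hζ : ‖ζ - z 1‖ ≤ e)
    (hV : 1 ≤ V) (hz2 : ‖ζ‖ < V) (h1 : (1:ℝ) ∈ E) {K : ℕ} {β : ℝ}
    (hE : ∀ i : ℤ, |i| ≤ K → β + i ∈ E) (n : ℕ) (hn : n ≤ K) :
    ‖z (β + n) - ζ ^ n * z β‖ ≤ n * V ^ n * (2 * W * e) := by
  have hW := h.W1
  have he := h.e0
  induction n with
  | zero => simp
  | succ n ih =>
    have g1 := ih (by omega)
    have hmem : β + (n:ℝ) ∈ E := by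
      have := hE (n:ℤ) (by rw [abs_of_nonneg (by positivity)]; exact_mod_cast (by omega : n ≤ K))
      simpa using this
    have g2 := step_pos h hζ h1 hmem
    have e1 : z (β + ((n + 1 : ℕ) : ℝ)) - ζ ^ (n + 1) * z β =
        (z (β + n + 1) - z (β + n) * ζ) + ζ * (z (β + n) - ζ ^ n * z β) := by
      push_cast; rw [← add_assoc]; ring
    rw [e1]
    refine (norm_add_le _ _).trans ?_
    rw [norm_mul]
    have hX : 0 ≤ 2 * W * e := by positivity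
    have g3 : ‖ζ‖ * ‖z (β + n) - ζ ^ n * z β‖ ≤ V * (n * V ^ n * (2 * W * e)) :=
      mul_le_mul hz2.le g1 (norm_nonneg _) (by linarith)
    have g4 : (1:ℝ) ≤ V ^ (n + 1) := one_le_pow₀ hV
    have g5 : 2 * W * e ≤ V ^ (n + 1) * (2 * W * e) := le_mul_of_one_le_left hX g4
    calc _ ≤ 2 * W * e + V * (n * V ^ n * (2 * W * e)) := add_le_add g2 g3
      _ ≤ V ^ (n + 1) * (2 * W * e) + V * (n * V ^ n * (2 * W * e)) := add_le_add g5 le_rfl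
      _ = _ := by push_cast; ring

lemma rat_neg {z : ℝ → ℂ} {E : Finset ℝ} {W e V : ℝ} (h : Good z E W e) {ζ : ℂ} (hζ : ‖ζ - z 1‖ ≤ e)
    (hV : 1 ≤ V) (hz1 : V⁻¹ < ‖ζ‖) (h1 : (1:ℝ) ∈ E) {K : ℕ} {β : ℝ}
    (hE : ∀ i : ℤ, |i| ≤ K → β + i ∈ E) (n : ℕ) (hn : n ≤ K) :
    ‖z (β - n) - (ζ ^ n)⁻¹ * z β‖ ≤ n * V ^ n * (2 * W * e) := by
  have hW := h.W1
  have he := h.e0
  have hV0 : 0 < V := by linarith
  have hz : 0 < ‖ζ‖ := lt_trans (inv_pos.mpr hV0) hz1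
  have hz0 : ζ ≠ 0 := norm_pos_iff.mp hz
  have hinv : ‖ζ⁻¹‖ ≤ V := by
    rw [norm_inv, inv_le_comm₀ hz hV0]; exact hz1.le
  induction n with
  | zero => simp
  | succ n ih =>
    have g1 := ih (by omega)
    have hmem : β - (n:ℝ) - 1 ∈ E := by
      have h5 : |(-((n:ℤ) + 1))| ≤ (K:ℤ) := by
        rw [abs_neg, abs_of_nonneg (by positivity)]
        exact_mod_cast hn
      have := hE (-((n:ℤ) + 1)) h5
      have e2 : β + ((-((n:ℤ) + 1) : ℤ) : ℝ) = β - n - 1 := by push_cast; ring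
      rwa [e2] at this
    have g2 := step_pos h hζ h1 hmem
    rw [sub_add_cancel] at g2
    have e1 : z (β - ((n + 1 : ℕ) : ℝ)) - (ζ ^ (n + 1))⁻¹ * z β =
        -(ζ⁻¹ * (z (β - n) - z (β - n - 1) * ζ)) + ζ⁻¹ * (z (β - n) - (ζ ^ n)⁻¹ * z β) := by
      have e3 : β - ((n + 1 : ℕ) : ℝ) = β - n - 1 := by push_cast; ring
      rw [e3]
      field_simp
      ring
    rw [e1]
    refine (norm_add_le _ _).trans ?_
    rw [norm_neg, norm_mul, norm_mul]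
    have hX : 0 ≤ 2 * W * e := by positivity
    have g3 : ‖ζ⁻¹‖ * ‖z (β - n) - (ζ ^ n)⁻¹ * z β‖ ≤ V * (n * V ^ n * (2 * W * e)) :=
      mul_le_mul hinv g1 (norm_nonneg _) (by linarith)
    have g3' : ‖ζ⁻¹‖ * ‖z (β - n) - z (β - n - 1) * ζ‖ ≤ V * (2 * W * e) :=
      mul_le_mul hinv g2 (norm_nonneg _) (by linarith)
    have g4 : V ≤ V ^ (n + 1) := le_self_pow₀ hV (by omega)
    calc _ ≤ V * (2 * W * e) + V * (n * V ^ n * (2 * W * e)) := add_le_add g3' g3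
      _ ≤ V ^ (n + 1) * (2 * W * e) + V * (n * V ^ n * (2 * W * e)) := by gcongr
      _ = _ := by push_cast; ring

lemma rat_all {z : ℝ → ℂ} {E : Finset ℝ} {W e V : ℝ} (h : Good z E W e) {ζ : ℂ} (hζ : ‖ζ - z 1‖ ≤ e)
    (hV : 1 ≤ V) (hz1 : V⁻¹ < ‖ζ‖) (hz2 : ‖ζ‖ < V) (h1 : (1:ℝ) ∈ E) {K : ℕ} {β : ℝ}
    (hE : ∀ i : ℤ, |i| ≤ K → β + i ∈ E) {r : ℤ} (hr : |r| ≤ K) :
    ‖z (β + r) - ζ ^ r * z β‖ ≤ K * V ^ K * (2 * W * e) := by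
  have hW := h.W1
  have he := h.e0
  obtain ⟨hr1, hr2⟩ := abs_le.mp hr
  have key : ∀ n : ℕ, n ≤ K → (n:ℝ) * V ^ n * (2 * W * e) ≤ K * V ^ K * (2 * W * e) := by
    intro n hn
    have hn' : (n:ℝ) ≤ K := by exact_mod_cast hn
    have h5 : V ^ n ≤ V ^ K := pow_le_pow_right₀ hV hn
    gcongr
  rcases Int.eq_nat_or_neg r with ⟨n, hn | hn⟩
  · subst hn
    have := rat_pos h hζ hV hz2 h1 hE n (by omega)
    rw [Int.cast_natCast, zpow_natCast]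
    exact this.trans (key n (by omega))
  · subst hn
    have := rat_neg h hζ hV hz1 h1 hE n (by omega)
    rw [Int.cast_neg, Int.cast_natCast, zpow_neg, zpow_natCast, ← sub_eq_add_neg]
    exact this.trans (key n (by omega))

/-- real powers against squares -/
lemma sq_close {A v β ρ : ℝ} (hA : 0 < A) (hv : 0 < v) (h1 : ρ ≤ 1 / 4) (h : |Real.log A - β * Real.log v| ≤ ρ) :
    |v ^ (2 * β) - A ^ 2| ≤ 4 * ρ * v ^ (2 * β) := by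
  have eA : A ^ 2 = Real.exp (2 * Real.log A) := by
    rw [← Real.exp_log hA, Real.log_exp, ← Real.exp_nat_mul]; norm_num
  have ev : A ^ 2 = v ^ (2 * β) * Real.exp (2 * (Real.log A - β * Real.log v)) := by
    rw [Real.rpow_def_of_pos hv, eA, ← Real.exp_add]; congr 1; ring
  set x := 2 * (Real.log A - β * Real.log v) with hx
  have hx1 : |x| ≤ 2 * ρ := by
    rw [hx, abs_mul, abs_two]; linarith
  have h6 := Real.abs_exp_sub_one_le (x := x) (by linarith)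
  rw [ev, show v ^ (2 * β) - v ^ (2 * β) * Real.exp x = -(v ^ (2 * β) * (Real.exp x - 1)) by ring, abs_neg, abs_mul,
    abs_of_pos (by positivity : 0 < v ^ (2 * β)), mul_comm]
  refine mul_le_mul_of_nonneg_right ?_ (by positivity)
  linarith

lemma rpow_V {v V : ℝ} (hV : 1 ≤ V) (h1 : V⁻¹ < v) (h2 : v < V) {K : ℕ} {β : ℝ} (hβ : |β| ≤ K) :
    v ^ (2 * β) ≤ V ^ (2 * K) := by
  have hV0 : 0 < V := by linarith
  have hc : clip V v = v := by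
    unfold clip
    rw [min_eq_left h2.le, max_eq_right h1.le]
  have h3 := clip_pow_le (v := v) hV (2 * β)
  rw [hc] at h3
  refine h3.trans ?_
  rw [← Real.rpow_natCast]
  refine Real.rpow_le_rpow_of_exponent_le hV ?_
  rw [abs_mul, abs_two]
  push_cast
  linarith

/-- one factor -/
lemma factor {z : ℝ → ℂ} {K J : ℕ} {b β W e V : ℝ} (h : Good z (EE K b β J) W e) {ζ : ℂ} (hζ : ‖ζ - z 1‖ ≤ e)
    (hV : 1 ≤ V) (hz1 : V⁻¹ < ‖ζ‖) (hz2 : ‖ζ‖ < V) (hb1 : 1 ≤ b) (hβb : |β| ≤ b) (hβ : |β| ≤ K)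
    {r : ℤ} (hr : |r| ≤ K) (hρ : rho b W e J ≤ 1 / 4) :
    ‖ζ ^ r * ((‖ζ‖ ^ (2 * β) : ℝ) : ℂ)‖ ≤ V ^ (3 * K) ∧
    ‖ζ ^ r * ((‖ζ‖ ^ (2 * β) : ℝ) : ℂ) - z (β + r) * (starRingEnd ℂ) (z β)‖ ≤
      V ^ (3 * K) * (4 * rho b W e J + 2 * K * (W ^ 2 * e)) := by
  have hW := h.W1
  have he := h.e0
  have hE : ∀ i : ℤ, |i| ≤ K → β + i ∈ EE K b β J := fun i hi => EE_mem hi
  have hβE : β ∈ EE K b β J := EE_sub0 (S1_sub (S1_iter (j := 0) (by omega)))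
  have hbE : b ∈ EE K b β J := EE_sub0 (S1_sub (S1_b b β J))
  obtain ⟨m1, m2, m3, m4⟩ := h.main hb1 hβb hbE J
    (fun j hj => ⟨EE_sub0 (S1_sub (S1_iter hj)), EE_sub0 (S1_two (S1_iter hj))⟩)
    (fun j hj => ⟨EE_sub0 (S1_sub (S1_iter1 hj)), EE_sub0 (S1_two (S1_iter1 hj))⟩) hζ
  have g1 := rat_all h hζ hV hz1 hz2 EE_one hE hr
  have g2 := zpow_norm_le hV hz1 hz2 hr
  have g3 := rpow_V hV hz1 hz2 hβ
  have g4 := sq_close (h.pos hβE) m1 hρ m2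
  have hρ0 : 0 ≤ rho b W e J := (abs_nonneg _).trans m2
  have hp : 0 ≤ ‖ζ‖ ^ (2 * β) := by positivity
  have hbd := h.bd β hβE
  have hVK : 1 ≤ V ^ (2 * K) := one_le_pow₀ hV
  have hVK' : 0 < V ^ K := by positivity
  constructor
  · rw [norm_mul, Complex.norm_real, Real.norm_of_nonneg hp]
    calc ‖ζ ^ r‖ * ‖ζ‖ ^ (2 * β) ≤ V ^ K * V ^ (2 * K) := mul_le_mul g2 g3 hp hVK'.le
      _ = V ^ (3 * K) := by rw [← pow_add]; congr 1; ring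
  · have e1 : ζ ^ r * ((‖ζ‖ ^ (2 * β) : ℝ) : ℂ) - z (β + r) * (starRingEnd ℂ) (z β) =
        ζ ^ r * (((‖ζ‖ ^ (2 * β) - ‖z β‖ ^ 2 : ℝ)) : ℂ) - (z (β + r) - ζ ^ r * z β) * (starRingEnd ℂ) (z β) := by
      have e2 : ((‖z β‖ ^ 2 : ℝ) : ℂ) = z β * (starRingEnd ℂ) (z β) := by
        rw [Complex.mul_conj, Complex.normSq_eq_norm_sq]
      push_cast at e2 ⊢
      rw [e2]
      ring
    rw [e1]
    refine (norm_sub_le _ _).trans ?_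
    rw [norm_mul, norm_mul, RCLike.norm_conj, Complex.norm_real, Real.norm_eq_abs]
    have t1 : ‖ζ ^ r‖ * |‖ζ‖ ^ (2 * β) - ‖z β‖ ^ 2| ≤ V ^ K * (4 * rho b W e J * V ^ (2 * K)) := by
      refine mul_le_mul g2 (g4.trans ?_) (abs_nonneg _) hVK'.le
      gcongr
    have t2 : ‖z (β + r) - ζ ^ r * z β‖ * ‖z β‖ ≤ K * V ^ K * (2 * W * e) * W :=
      mul_le_mul g1 hbd (norm_nonneg _) (by positivity)
    calc _ ≤ V ^ K * (4 * rho b W e J * V ^ (2 * K)) + K * V ^ K * (2 * W * e) * W := add_le_add t1 t2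
      _ = V ^ (3 * K) * (4 * rho b W e J) + V ^ K * 1 * (2 * K * (W ^ 2 * e)) := by
          rw [show 3 * K = K + 2 * K by ring, pow_add]; ring
      _ ≤ V ^ (3 * K) * (4 * rho b W e J) + V ^ K * V ^ (2 * K) * (2 * K * (W ^ 2 * e)) := by gcongr
      _ = _ := by rw [show 3 * K = K + 2 * K by ring, pow_add]; ring

/-- zeta outside the window -/
lemma outside {z : ℝ → ℂ} {K J : ℕ} {b β W e V : ℝ} (h : Good z (EE K b β J) W e) {ζ : ℂ} (hζ : ‖ζ - z 1‖ ≤ e)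
    (hV : 1 ≤ V) (heV : e ≤ V⁻¹) (hz : ¬ (V⁻¹ < ‖ζ‖ ∧ ‖ζ‖ < V)) :
    V ^ 2 / 16 ≤ ‖z 1‖ ^ 2 + ‖z (-1)‖ ^ 2 := by
  have hV0 : 0 < V := by linarith
  have heh := h.e_half
  have h1 : |‖ζ‖ - ‖z 1‖| ≤ e := (abs_norm_sub_norm_le _ _).trans hζ
  obtain ⟨h2, h3⟩ := abs_le.mp h1
  by_cases hc : V ≤ ‖ζ‖
  · have h4 : V / 4 ≤ ‖z 1‖ := by linarith
    have h5 : (V / 4) ^ 2 ≤ ‖z 1‖ ^ 2 := pow_le_pow_left₀ (by positivity) h4 2
    have h6 : 0 ≤ ‖z (-1)‖ ^ 2 := by positivity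
    calc V ^ 2 / 16 = (V / 4) ^ 2 := by ring
      _ ≤ _ := by linarith
  · have hd : ‖ζ‖ ≤ V⁻¹ := by
      by_contra hcon
      push Not at hcon hc
      exact hz ⟨hcon, hc⟩
    have h4 : ‖z 1‖ ≤ 2 * V⁻¹ := by linarith
    have h5 := h.mul 1 EE_one (-1) (EE_neg EE_one)
    rw [add_neg_cancel, h.z0] at h5
    have h6 := norm_sub_norm_le (1:ℂ) (z 1 * z (-1))
    rw [norm_one, norm_mul] at h6
    have h7 : 1 / 2 ≤ ‖z 1‖ * ‖z (-1)‖ := by linarith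
    have h8 : ‖z 1‖ * ‖z (-1)‖ ≤ 2 * V⁻¹ * ‖z (-1)‖ := mul_le_mul_of_nonneg_right h4 (norm_nonneg _)
    have h9 : V / 4 ≤ ‖z (-1)‖ := by
      have h10 : 1 / 2 ≤ 2 * V⁻¹ * ‖z (-1)‖ := h7.trans h8
      have h11 : V * (1 / 2) ≤ V * (2 * V⁻¹ * ‖z (-1)‖) := mul_le_mul_of_nonneg_left h10 hV0.le
      have h12 : V * (2 * V⁻¹ * ‖z (-1)‖) = 2 * ‖z (-1)‖ := by field_simp
      linarith
    have h10 : (V / 4) ^ 2 ≤ ‖z (-1)‖ ^ 2 := pow_le_pow_left₀ (by positivity) h9 2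
    have h11 : 0 ≤ ‖z 1‖ ^ 2 := by positivity
    calc V ^ 2 / 16 = (V / 4) ^ 2 := by ring
      _ ≤ _ := by linarith

end

end Pool.Agent.X110.RR
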