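import Pool.Agent.X110.RR1

set_option autoImplicit false

/-! Ratios of zeta near the line: mean values. -/

namespace Pool.Agent.X110.RR

open Finset MeasureTheory
open Pool.Agent.H306R2 Pool.Agent.Y746.OA Pool.Agent.Y746.CS

noncomputable section

/-- `n ↦ d_y(n) n^(-w)` -/
def tw2 (y : ℝ) (w : ℂ) : ArithmeticFunction ℂ :=
  ⟨fun n => (dv y n : ℂ) * (n:ℂ) ^ (-w), by simp [dv]⟩

lemma tw2_apply (y : ℝ) (w : ℂ) (n : ℕ) : tw2 y w n = (dv y n : ℂ) * (n:ℂ) ^ (-w) := rfl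

lemma tw2_norm (y : ℝ) {w : ℂ} (hw : 0 ≤ w.re) (n : ℕ) : ‖tw2 y w n‖ ≤ |dv y n| := by
  rw [tw2_apply]
  rcases Nat.eq_zero_or_pos n with h | h
  · subst h; simp [dv]
  · rw [norm_mul, Complex.norm_real, Real.norm_eq_abs, Complex.norm_natCast_cpow_of_pos h, Complex.neg_re]
    exact mul_le_of_le_one_right (abs_nonneg _) (rpow_neg_le1 h hw)

lemma tw2_le {y : ℝ} {K : ℕ} (hy : |y| ≤ K) {w : ℂ} (hw : 0 ≤ w.re) (n : ℕ) : ‖tw2 y w n‖ ≤ dv K n :=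
  (tw2_norm y hw n).trans (dv_abs_le hy n)

lemma Dc_shift2 (N : ℕ) (y : ℝ) (w s : ℂ) : Dc (trC N (tw2 y w)) N s = Dy N y (s + w) := by
  unfold Dc Dy
  rw [Dp_natCast]
  refine sum_congr rfl fun n hn => ?_
  rw [mem_Icc] at hn
  rw [trC_apply, if_pos hn.2, Pool.Agent.Y746.OA.tr_apply, if_pos hn.2, tw2_apply, dA_apply, mul_assoc]
  congr 1
  have hn0 : (n:ℂ) ≠ 0 := by exact_mod_cast (by omega : n ≠ 0)
  rw [← Complex.cpow_add _ _ hn0]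
  congr 1
  ring

lemma sp_add (δ t : ℝ) (w : ℂ) : sp δ t + w = sp (δ + w.re) (t + w.im) := by
  unfold sp
  apply Complex.ext <;> simp
  ring

/-- truncated convolution -/
def Fy (N : ℕ) {m : ℕ} (y : Fin m → ℝ) (w : Fin m → ℂ) : ArithmeticFunction ℂ := ∏ j, trC N (tw2 (y j) (w j))
/-- full convolution -/
def Ty {m : ℕ} (y : Fin m → ℝ) (w : Fin m → ℂ) : ArithmeticFunction ℂ := ∏ j, tw2 (y j) (w j)

section
variable {m K : ℕ} {y : Fin m → ℝ} {w : Fin m → ℂ}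

lemma Fy_le (N : ℕ) (hy : ∀ j, |y j| ≤ K) (hw : ∀ j, 0 ≤ (w j).re) (n : ℕ) : ‖Fy N y w n‖ ≤ dv ((m * K : ℕ) : ℝ) n := by
  have h := norm_prod_le' univ (fun j => trC N (tw2 (y j) (w j))) K (fun j _ n => trC_le N (tw2_le (hy j) (hw j)) n) n
  rwa [card_univ, Fintype.card_fin] at h

lemma Ty_le (hy : ∀ j, |y j| ≤ K) (hw : ∀ j, 0 ≤ (w j).re) (n : ℕ) : ‖Ty y w n‖ ≤ dv ((m * K : ℕ) : ℝ) n := by
  have h := norm_prod_le' univ (fun j => tw2 (y j) (w j)) K (fun j _ n => tw2_le (hy j) (hw j) n) n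
  rwa [card_univ, Fintype.card_fin] at h

lemma Fy_low {N n : ℕ} (hn : n ≤ N) (y : Fin m → ℝ) (w : Fin m → ℂ) : Fy N y w n = Ty y w n :=
  prod_low univ (fun j => tw2 (y j) (w j)) hn

lemma Fy_eval (N : ℕ) (y : Fin m → ℝ) (w : Fin m → ℂ) (s : ℂ) : (∀ n : ℕ, N ^ m < n → Fy N y w n = 0) ∧
    Dc (Fy N y w) (N ^ m) s = ∏ j, Dy N (y j) (s + w j) := by
  have h := Dc_prod univ (fun j => trC N (tw2 (y j) (w j))) N (fun j _ => trC_vanish N _) s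
  rw [card_univ, Fintype.card_fin] at h
  refine ⟨h.1, ?_⟩
  have h2 := h.2
  simp_rw [Dc_shift2] at h2
  exact h2

/-- the mean value of the product of the polynomials -/
lemma mvP {N : ℕ} (hN : 1 ≤ N) {y' : Fin m → ℝ} (hy : ∀ j, |y j| ≤ K) (hy' : ∀ j, |y' j| ≤ K)
    (hw : ∀ j, 0 ≤ (w j).re) {δ T : ℝ} (hδ : 0 < δ) (hδ1 : δ ≤ 1) (hT : 0 ≤ T) :
    ‖(∫ t in (0:ℝ)..T, (∏ j, Dy N (y j) (sp δ t + w j)) * (starRingEnd ℂ) (∏ j, Dy N (y' j) (sp δ t + w j))) -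
      (T:ℂ) * ∑' n : ℕ, Ty y w n * (starRingEnd ℂ) (Ty y' w n) * Pool.Agent.Y746.CS.wt δ n‖ ≤
      4 * (N:ℝ) ^ ((m + 1) * (2 * (m * K) + 3)) + T * (2 * ((N:ℝ) ^ (-δ) * (2 / δ) ^ ((m * K) ^ 2))) := by
  set K' : ℕ := m * K with hK
  set M : ℕ := N ^ (m + 1) with hM
  have hkM : N ^ m ≤ M := Nat.pow_le_pow_right hN (by omega)
  have hNM : N ≤ M := by
    calc N = N ^ 1 := (pow_one N).symm
      _ ≤ M := Nat.pow_le_pow_right hN (by omega)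
  have hFK : ∀ n, ‖Fy N y w n‖ ≤ dv K' n := fun n => Fy_le N hy hw n
  have hGK : ∀ n, ‖Fy N y' w n‖ ≤ dv K' n := fun n => Fy_le N hy' hw n
  have hAK : ∀ n, ‖Ty y w n‖ ≤ dv K' n := fun n => Ty_le hy hw n
  have hBK : ∀ n, ‖Ty y' w n‖ ≤ dv K' n := fun n => Ty_le hy' hw n
  have e1 : ∀ t : ℝ, (∏ j, Dy N (y j) (sp δ t + w j)) * (starRingEnd ℂ) (∏ j, Dy N (y' j) (sp δ t + w j)) =
      Dc (Fy N y w) M (((1 / 2 + δ : ℝ) : ℂ) + (t : ℂ) * Complex.I) *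
        (starRingEnd ℂ) (Dc (Fy N y' w) M (((1 / 2 + δ : ℝ) : ℂ) + (t : ℂ) * Complex.I)) := by
    intro t
    obtain ⟨a1, a2⟩ := Fy_eval N y w (sp δ t)
    obtain ⟨b1, b2⟩ := Fy_eval N y' w (sp δ t)
    rw [← a2, ← b2, ← Dc_ext _ hkM a1, ← Dc_ext _ hkM b1]
    rfl
  simp_rw [e1]
  have h1 := mvDC (fun n => Fy N y w n) (fun n => Fy N y' w n) M (σ := 1 / 2 + δ) (by linarith) 0 T
  have h2 := diag_trunc hFK hGK hAK hBK hN hNM (fun n hn => Fy_low hn y w) (fun n hn => Fy_low hn y' w) hδ hδ1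
  rw [sub_zero] at h1
  have h3 : 4 * (M:ℝ) * ((∑ n ∈ Icc 1 M, ‖Fy N y w n‖) * ∑ n ∈ Icc 1 M, ‖Fy N y' w n‖) ≤
      4 * (N:ℝ) ^ ((m + 1) * (2 * K' + 3)) := by
    have g1 := l1_polyC hFK M
    have g2 := l1_polyC hGK M
    calc 4 * (M:ℝ) * ((∑ n ∈ Icc 1 M, ‖Fy N y w n‖) * ∑ n ∈ Icc 1 M, ‖Fy N y' w n‖) ≤
        4 * (M:ℝ) * ((M:ℝ) ^ (K' + 1) * (M:ℝ) ^ (K' + 1)) := by gcongr
      _ = 4 * (M:ℝ) ^ (2 * K' + 3) := by ring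
      _ = _ := by rw [hM]; push_cast; rw [← pow_mul]
  have h4 := h1.trans h3
  have e2 : ∑ n ∈ Icc 1 M, Fy N y w n * (starRingEnd ℂ) (Fy N y' w n) * (((n:ℝ) ^ (-(2 * (1 / 2 + δ))) : ℝ) : ℂ) =
      ∑ n ∈ Icc 1 M, Fy N y w n * (starRingEnd ℂ) (Fy N y' w n) * Pool.Agent.Y746.CS.wt δ n := rfl
  rw [e2] at h4
  set S1 := ∑ n ∈ Icc 1 M, Fy N y w n * (starRingEnd ℂ) (Fy N y' w n) * Pool.Agent.Y746.CS.wt δ n with hS1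
  set S2 := ∑' n : ℕ, Ty y w n * (starRingEnd ℂ) (Ty y' w n) * Pool.Agent.Y746.CS.wt δ n with hS2
  have h5 : ‖(T:ℂ) * S1 - (T:ℂ) * S2‖ ≤ T * (2 * ((N:ℝ) ^ (-δ) * (2 / δ) ^ (K' ^ 2))) := by
    rw [← mul_sub, norm_mul, Complex.norm_real, Real.norm_of_nonneg hT]
    exact mul_le_mul_of_nonneg_left h2 hT
  refine (norm_sub_le_norm_sub_add_norm_sub _ ((T:ℂ) * S1) _).trans (add_le_add ?_ h5)
  exact h4

lemma msP {N : ℕ} (hN : 1 ≤ N) {y' : Fin m → ℝ} (hy : ∀ j, |y j| ≤ K) (hy' : ∀ j, |y' j| ≤ K)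
    (hw : ∀ j, 0 ≤ (w j).re) {δ T : ℝ} (hδ : 0 < δ) (hδ1 : δ ≤ 1) (hT : 0 ≤ T) :
    ∫ t in (0:ℝ)..T, ‖(∏ j, Dy N (y j) (sp δ t + w j)) * (starRingEnd ℂ) (∏ j, Dy N (y' j) (sp δ t + w j))‖ ^ 2 ≤
      T * (2 / δ) ^ ((2 * (m * K)) ^ 2) + 4 * (N:ℝ) ^ (2 * m * (2 * (2 * (m * K)) + 3)) := by
  set K' : ℕ := 2 * (m * K) with hK
  have hFG : ∀ n, ‖(Fy N y w * Fy N y' w) n‖ ≤ dv K' n := by
    intro n
    have h := norm_mul_le' (A' := dA ((m * K : ℕ) : ℝ)) (B' := dA ((m * K : ℕ) : ℝ)) (Fy_le N hy hw) (Fy_le N hy' hw) n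
    rw [dA_mul] at h
    refine h.trans (le_of_eq ?_)
    have e : (((m * K : ℕ) : ℝ) + ((m * K : ℕ) : ℝ)) = ((K' : ℕ) : ℝ) := by rw [hK]; push_cast; ring
    rw [e]
    rfl
  have h := msC (K := K') (g := fun n => (Fy N y w * Fy N y' w) n) hFG (M := N ^ m * N ^ m) hδ hδ1 0 T hT
  have e : ∀ t : ℝ, ‖(∏ j, Dy N (y j) (sp δ t + w j)) * (starRingEnd ℂ) (∏ j, Dy N (y' j) (sp δ t + w j))‖ =
      ‖Dc (fun n => (Fy N y w * Fy N y' w) n) (N ^ m * N ^ m) (((1 / 2 + δ : ℝ) : ℂ) + (t : ℂ) * Complex.I)‖ := by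
    intro t
    obtain ⟨a1, a2⟩ := Fy_eval N y w (sp δ t)
    obtain ⟨b1, b2⟩ := Fy_eval N y' w (sp δ t)
    have h3 := (Dc_mul (Fy N y w) (Fy N y' w) (N ^ m) (N ^ m) a1 b1 (sp δ t)).2
    rw [norm_mul, RCLike.norm_conj, ← a2, ← b2, ← norm_mul, ← h3]
    rfl
  simp_rw [e]
  refine h.trans ?_
  rw [sub_zero]
  have h4 : (((N ^ m * N ^ m : ℕ)) : ℝ) ^ (2 * K' + 3) = (N:ℝ) ^ (2 * m * (2 * K' + 3)) := by
    push_cast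
    rw [← pow_add, ← pow_mul]
    congr 1
    ring
  rw [h4]

end

/-- mean square of a polynomial supported on `[N, M]`, general interval -/
lemma ms_tail2 {K : ℕ} {g : ℕ → ℝ} (hg : ∀ n, |g n| ≤ dv K n) {N M : ℕ} (hN : 1 ≤ N)
    (h0 : ∀ n, n < N → g n = 0) {δ : ℝ} (hδ : 0 < δ) (hδ1 : δ ≤ 1) {A B : ℝ} (hAB : A ≤ B) :
    ∫ t in A..B, ‖Dp g M (((1 / 2 + δ : ℝ) : ℂ) + (t : ℂ) * Complex.I)‖ ^ 2 ≤
      (B - A) * ((N:ℝ) ^ (-δ) * (2 / δ) ^ (K ^ 2)) + 4 * M ^ (2 * K + 3) := by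
  have h1 := mvD g M (σ := 1 / 2 + δ) (by linarith) A B
  have h2 := (abs_le.mp h1).2
  have h3 : ∑ n ∈ Icc 1 M, g n ^ 2 * (n:ℝ) ^ (-(2 * (1 / 2 + δ))) ≤ (N:ℝ) ^ (-δ) * (2 / δ) ^ (K ^ 2) := by
    have h4 : ∑ n ∈ Icc 1 M, g n ^ 2 * (n:ℝ) ^ (-(2 * (1 / 2 + δ))) =
        ∑ n ∈ (Icc 1 M).filter (fun n => N ≤ n), g n ^ 2 * (n:ℝ) ^ (-(2 * (1 / 2 + δ))) := by
      rw [sum_filter]
      refine sum_congr rfl fun n _ => ?_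
      split_ifs with h
      · rfl
      · rw [h0 n (by omega)]; ring
    rw [h4]
    exact tail_sq hg hN hδ hδ1 fun n hn => (mem_filter.mp hn).2
  have h5 : 4 * (M:ℝ) * (∑ n ∈ Icc 1 M, |g n|) ^ 2 ≤ 4 * M ^ (2 * K + 3) := by
    have h6 := l1_poly hg M
    calc 4 * (M:ℝ) * (∑ n ∈ Icc 1 M, |g n|) ^ 2 ≤ 4 * (M:ℝ) * ((M:ℝ) ^ (K + 1)) ^ 2 := by gcongr
      _ = _ := by ring
  have h6 := mul_le_mul_of_nonneg_left h3 (by linarith : 0 ≤ B - A)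
  linarith

/-- the mean squares at a shifted point -/
lemma ms_sh {k : ℕ} {N : ℕ} (hN : 1 ≤ N) {δ : ℝ} (hδ : 0 < δ) {w : ℂ} (hw : 0 ≤ w.re) (hδ1 : δ + w.re ≤ 1)
    {T : ℝ} (hT : 0 ≤ T) :
    (∀ a b : ℝ, |a| ≤ k → |b| ≤ k →
      ∫ t in (0:ℝ)..T, ‖Dy N (a + b) (sp δ t + w) - Dy N a (sp δ t + w) * Dy N b (sp δ t + w)‖ ^ 2 ≤
      T * ((N:ℝ) ^ (-δ) * (2 / δ) ^ ((2 * k) ^ 2)) + 4 * (N:ℝ) ^ (2 * (4 * k + 3))) ∧
    (∀ a : ℝ, |a| ≤ k → ∫ t in (0:ℝ)..T, ‖Dy N a (sp δ t + w)‖ ^ 2 ≤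
      T * (2 / δ) ^ ((2 * k) ^ 2) + 4 * (N:ℝ) ^ (2 * (4 * k + 3))) := by
  have hN1 : (1:ℝ) ≤ N := by exact_mod_cast hN
  have ec : ((k:ℝ) + k) = ((2 * k : ℕ) : ℝ) := by push_cast; ring
  have hkk : (k:ℝ) ≤ ((2 * k : ℕ) : ℝ) := by push_cast; linarith [(Nat.cast_nonneg k : (0:ℝ) ≤ k)]
  have eM : (((N * N : ℕ)) : ℝ) ^ (2 * (2 * k) + 3) = (N:ℝ) ^ (2 * (4 * k + 3)) := by
    rw [N_cast_sq, ← pow_mul]; congr 1; ring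
  have hsm : (N:ℝ) ^ (2 * (2 * k) + 3) ≤ (N:ℝ) ^ (2 * (4 * k + 3)) := pow_le_pow_right₀ hN1 (by omega)
  set δ' := δ + w.re with hδ'
  have hδδ : δ ≤ δ' := by linarith
  have hδ'0 : 0 < δ' := by linarith
  have h2d : (2 / δ') ^ ((2 * k) ^ 2) ≤ (2 / δ) ^ ((2 * k) ^ 2) :=
    pow_le_pow_left₀ (by positivity) (div_le_div_of_nonneg_left (by norm_num) hδ hδδ) _
  have hNd : (N:ℝ) ^ (-δ') ≤ (N:ℝ) ^ (-δ) := Real.rpow_le_rpow_of_exponent_le hN1 (by linarith)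
  have hle : (0:ℝ) + w.im ≤ T + w.im := by linarith
  have hlen : T + w.im - (0 + w.im) = T := by ring
  constructor
  · intro a b ha hb
    have h := ms_tail2 (K := 2 * k) (g := gd N a b) (fun n => by
      have := gd_abs (N := N) ha hb n
      rwa [ec] at this) (N := N) (M := N * N) hN (fun n hn => gd_low hn.le a b) hδ'0 hδ1 hle
    rw [hlen, eM] at h
    simp_rw [gd_eval hN] at h
    have e1 : ∫ t in (0:ℝ)..T, ‖Dy N (a + b) (sp δ t + w) - Dy N a (sp δ t + w) * Dy N b (sp δ t + w)‖ ^ 2 =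
        ∫ t in (0 + w.im)..(T + w.im), ‖Dy N (a + b) (sp δ' t) - Dy N a (sp δ' t) * Dy N b (sp δ' t)‖ ^ 2 := by
      simp_rw [sp_add]
      exact intervalIntegral.integral_comp_add_right
        (f := fun t => ‖Dy N (a + b) (sp δ' t) - Dy N a (sp δ' t) * Dy N b (sp δ' t)‖ ^ 2) w.im
    rw [e1]
    refine h.trans ?_
    gcongr
  · intro a ha
    have h := ms_tail2 (K := 2 * k) (g := fun n => tr N (dA a) n) (fun n => by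
      refine (tr_abs_le (B := dA (|a|)) (fun n => dv_abs a n) n).trans ?_
      exact dv_mono (abs_nonneg _) (ha.trans hkk) n) (N := 1) (M := N) le_rfl (fun n hn => by
        have : n = 0 := by omega
        subst this; simp) hδ'0 hδ1 hle
    rw [hlen, Nat.cast_one, Real.one_rpow, one_mul] at h
    have e1 : ∫ t in (0:ℝ)..T, ‖Dy N a (sp δ t + w)‖ ^ 2 = ∫ t in (0 + w.im)..(T + w.im), ‖Dy N a (sp δ' t)‖ ^ 2 := by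
      simp_rw [sp_add]
      exact intervalIntegral.integral_comp_add_right (f := fun t => ‖Dy N a (sp δ' t)‖ ^ 2) w.im
    rw [e1]
    refine le_trans h ?_
    gcongr

/-- the cost of exceptional points, at a general point -/
def Rg (N : ℕ) (E : Finset ℝ) (W e : ℝ) (s : ℂ) : ℝ :=
  (∑ a ∈ E, ∑ b ∈ E, ‖Dy N (a + b) s - Dy N a s * Dy N b s‖ ^ 2 / e ^ 2) +
    (∑ a ∈ E, ‖Dy N a s‖ ^ 2 / W ^ 2) + ‖riemannZeta s - Dy N 1 s‖ ^ 2 / e ^ 2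

lemma Rg_nonneg (N : ℕ) (E : Finset ℝ) (W e : ℝ) (s : ℂ) : 0 ≤ Rg N E W e s := by
  unfold Rg
  have h1 : 0 ≤ ∑ a ∈ E, ∑ b ∈ E, ‖Dy N (a + b) s - Dy N a s * Dy N b s‖ ^ 2 / e ^ 2 :=
    sum_nonneg fun _ _ => sum_nonneg fun _ _ => by positivity
  have h2 : 0 ≤ ∑ a ∈ E, ‖Dy N a s‖ ^ 2 / W ^ 2 := sum_nonneg fun _ _ => by positivity
  exact add_nonneg (add_nonneg h1 h2) (div_nonneg (sq_nonneg _) (sq_nonneg _))

lemma Rg_sp (N : ℕ) (E : Finset ℝ) (W e δ t : ℝ) : Rg N E W e (sp δ t) = Rt N E W e δ t := rfl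

/-- the good structure at a good point -/
lemma Rg_good {N : ℕ} (hN : 1 ≤ N) {K J : ℕ} {b β W e δ t : ℝ} {w : ℂ} (hW : 1 ≤ W) (he : 0 < e) (hWe : 8 * W ^ 2 * e ≤ 1)
    (h : Rg N (EE K b β J) W e (sp δ t + w) < 1) :
    Good (fun y => Dy N y (sp δ t + w)) (EE K b β J) W e ∧ ‖riemannZeta (sp δ t + w) - Dy N 1 (sp δ t + w)‖ ≤ e := by
  rw [sp_add] at h ⊢
  rw [Rg_sp] at h
  obtain ⟨g1, g2, g3⟩ := Rt_lt (by linarith) he h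
  refine ⟨⟨Dy_zero hN _, hW, he.le, hWe, EE_sub0 (S1_sub (S1_zero b β J)), fun a ha => EE_neg ha, g1, g2⟩, g3⟩

end

end Pool.Agent.X110.RR
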