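import Mathlib

set_option autoImplicit false

/-! An integrated comparison. -/

namespace Pool.Agent.X110.RR

open Finset MeasureTheory

noncomputable section

/-- comparison of the integral over a good set with a full integral -/
theorem int2 {Z P : ℝ → ℂ} {R Q : ℝ → ℝ} {G : Set ℝ} (hG : MeasurableSet G) (hZm : Measurable Z)
    (hP : Continuous P) (hR : Continuous R) (hQ : Continuous Q) (hR0 : ∀ t, 0 ≤ R t) (hQ0 : ∀ t, 0 ≤ Q t)
    {U κ q η T : ℝ} (hU : 0 ≤ U) (hκ : 0 ≤ κ) (hq : 0 ≤ q) (hη : 0 < η) (hT : 0 ≤ T)
    (hZ : ∀ t ∈ G, ‖Z t‖ ≤ U) (hgood : ∀ t ∈ G, R t < 1 → ‖Z t - P t‖ ≤ κ)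
    (hbad : ∀ t, t ∉ G → R t < 1 → 1 ≤ q * Q t) :
    ‖(∫ t in Set.Ioc 0 T ∩ G, Z t) - ∫ t in (0:ℝ)..T, P t‖ ≤
      κ * T + (U + 1 / η) * (∫ t in (0:ℝ)..T, R t) + η * (∫ t in (0:ℝ)..T, ‖P t‖ ^ 2) +
        q / η * (∫ t in (0:ℝ)..T, Q t) ∧
    (volume (Set.Ioc 0 T \ G)).toReal ≤ (∫ t in (0:ℝ)..T, R t) + q * ∫ t in (0:ℝ)..T, Q t := by
  classical
  have hZi : IntegrableOn (G.indicator Z) (Set.Ioc 0 T) := by
    refine Measure.integrableOn_of_bounded (M := U) (by simp) ?_ ?_
    · exact (hZm.indicator hG).aestronglyMeasurable
    · refine Filter.Eventually.of_forall fun t => ?_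
      rw [Set.indicator_apply]
      split_ifs with h
      · exact hZ t h
      · rw [norm_zero]; exact hU
  have hPi : IntegrableOn P (Set.Ioc 0 T) := (hP.intervalIntegrable 0 T).1
  constructor
  · have e1 : ∫ t in Set.Ioc 0 T ∩ G, Z t = ∫ t in Set.Ioc 0 T, G.indicator Z t := by
      rw [setIntegral_indicator hG]
    rw [e1, intervalIntegral.integral_of_le hT, ← integral_sub hZi hPi]
    set F : ℝ → ℝ := fun t => κ + (U + 1 / η) * R t + η * ‖P t‖ ^ 2 + q / η * Q t with hF
    have c1 : Continuous fun t => κ + (U + 1 / η) * R t := continuous_const.add (continuous_const.mul hR)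
    have c2 : Continuous fun t => κ + (U + 1 / η) * R t + η * ‖P t‖ ^ 2 :=
      c1.add (continuous_const.mul (hP.norm.pow 2))
    have cF : Continuous F := c2.add (continuous_const.mul hQ)
    have h1 : ‖∫ t in Set.Ioc 0 T, (G.indicator Z t - P t)‖ ≤ ∫ t in Set.Ioc 0 T, F t := by
      refine norm_integral_le_of_norm_le (cF.intervalIntegrable 0 T).1 ?_
      refine Filter.Eventually.of_forall fun t => ?_
      have hr := hR0 t
      have hq' := hQ0 t
      have a1 : 0 ≤ 1 / η := by positivity
      have a2 : 0 ≤ U * R t := by positivity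
      have a3 : 0 ≤ 1 / η * R t := by positivity
      have a4 : 0 ≤ η * ‖P t‖ ^ 2 := by positivity
      have a5 : 0 ≤ q / η * Q t := by positivity
      have hPη : ‖P t‖ ≤ η * ‖P t‖ ^ 2 + 1 / η := by
        have h1 : η * ‖P t‖ ^ 2 + 1 / η - 2 * ‖P t‖ = (η * ‖P t‖ - 1) ^ 2 / η := by field_simp; ring
        have h2 : 0 ≤ (η * ‖P t‖ - 1) ^ 2 / η := by positivity
        have := norm_nonneg (P t)
        linarith
      have eF : F t = κ + (U * R t + 1 / η * R t) + η * ‖P t‖ ^ 2 + q / η * Q t := by
        rw [hF]; ring
      rw [eF, Set.indicator_apply]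
      by_cases hc : R t < 1
      · by_cases hg : t ∈ G
        · rw [if_pos hg]
          have := hgood t hg hc
          linarith
        · rw [if_neg hg, zero_sub, norm_neg]
          have h3 := hbad t hg hc
          have h4 : 1 / η ≤ q / η * Q t := by
            calc 1 / η = 1 / η * 1 := (mul_one _).symm
              _ ≤ 1 / η * (q * Q t) := mul_le_mul_of_nonneg_left h3 a1
              _ = _ := by ring
          linarith
      · push Not at hc
        have h4 : 1 / η ≤ 1 / η * R t := le_mul_of_one_le_right a1 hc
        have h5 : U ≤ U * R t := le_mul_of_one_le_right hU hc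
        have h6 : ‖(if t ∈ G then Z t else 0)‖ ≤ U := by
          split_ifs with h
          · exact hZ t h
          · rw [norm_zero]; exact hU
        have h7 := (norm_sub_le (if t ∈ G then Z t else 0) (P t)).trans (add_le_add h6 hPη)
        linarith
    refine h1.trans (le_of_eq ?_)
    rw [← intervalIntegral.integral_of_le hT, hF]
    simp only
    have d1 : Continuous fun t => (U + 1 / η) * R t := continuous_const.mul hR
    have d2 : Continuous fun t => η * ‖P t‖ ^ 2 := continuous_const.mul (hP.norm.pow 2)
    have d3 : Continuous fun t => q / η * Q t := continuous_const.mul hQ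
    rw [intervalIntegral.integral_add (c2.intervalIntegrable _ _) (d3.intervalIntegrable _ _),
      intervalIntegral.integral_add (c1.intervalIntegrable _ _) (d2.intervalIntegrable _ _),
      intervalIntegral.integral_add (continuous_const.intervalIntegrable _ _) (d1.intervalIntegrable _ _),
      intervalIntegral.integral_const, intervalIntegral.integral_const_mul, intervalIntegral.integral_const_mul,
      intervalIntegral.integral_const_mul, smul_eq_mul]
    ring
  · have e1 : (volume (Set.Ioc 0 T \ G)).toReal = ∫ t in Set.Ioc 0 T, Gᶜ.indicator (fun _ => (1:ℝ)) t := by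
      rw [integral_indicator hG.compl, setIntegral_const, smul_eq_mul, mul_one]
      unfold Measure.real
      rw [Measure.restrict_apply hG.compl]
      congr 2
      ext t
      simp only [Set.mem_sdiff, Set.mem_inter_iff, Set.mem_compl_iff]
      tauto
    rw [e1]
    have c3 : Continuous fun t => R t + q * Q t := hR.add (continuous_const.mul hQ)
    have h1 : ∫ t in Set.Ioc 0 T, Gᶜ.indicator (fun _ => (1:ℝ)) t ≤ ∫ t in Set.Ioc 0 T, (R t + q * Q t) := by
      refine integral_mono_of_nonneg (Filter.Eventually.of_forall fun t => ?_) (c3.intervalIntegrable 0 T).1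
        (Filter.Eventually.of_forall fun t => ?_)
      · exact Set.indicator_nonneg (fun _ _ => zero_le_one) t
      · simp only [Set.indicator_apply, Set.mem_compl_iff]
        have hr := hR0 t
        have hq' := hQ0 t
        have : 0 ≤ q * Q t := by positivity
        split_ifs with h
        · linarith
        · rcases lt_or_ge (R t) 1 with hc | hc
          · have := hbad t (by tauto) hc
            linarith
          · linarith
    refine h1.trans (le_of_eq ?_)
    have d3 : Continuous fun t => q * Q t := continuous_const.mul hQ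
    rw [← intervalIntegral.integral_of_le hT]
    rw [intervalIntegral.integral_add (hR.intervalIntegrable _ _) (d3.intervalIntegrable _ _),
      intervalIntegral.integral_const_mul]

end

end Pool.Agent.X110.RR
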