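import Pool.Agent.X110.RR2
import Pool.Agent.X110.RR3

set_option autoImplicit false

/-! Ratios of zeta near the line: the theorem. -/

namespace Pool.Agent.X110.RR

open Finset MeasureTheory
open Pool.Agent.H306R2 Pool.Agent.Y746.OA Pool.Agent.Y746.CS

noncomputable section

/-- the final numerical estimate -/
lemma num3 {D B m : ℕ} {C1 c0 L X V T U κ iR iP iQ s4 : ℝ} (hT : 0 < T) (hC1 : 0 ≤ C1) (hc0 : 0 ≤ c0)
    (hL : 24 ≤ L) (hLc : c0 + 2 * m * (130 + 64 * C1) + 64 * m + 5 ≤ L) (hX1 : 1 ≤ X)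
    (hXP : L ^ (2 * D + 2 * B + 8) ≤ X) (hV : 1 ≤ V) (hVA : L ^ (2 * D + 2 * B + 4) ≤ V) (hU : U ≤ X) (hU0 : 0 ≤ U)
    (hκ : κ ≤ c0 * X⁻¹) (hR : iR ≤ m * ((130 + 64 * C1) * T * (X ^ 3)⁻¹)) (hR0 : 0 ≤ iR)
    (hP : iP ≤ T * (2 * L ^ D)) (hQ : iQ ≤ m * (4 * T * L ^ D)) (hQ0 : 0 ≤ iQ)
    (h4 : s4 ≤ 3 * T * L ^ D * (X ^ 16)⁻¹) :
    κ * T + (U + 1 / (L ^ (D + B + 2))⁻¹) * iR + (L ^ (D + B + 2))⁻¹ * iP +
      16 / V ^ 2 / (L ^ (D + B + 2))⁻¹ * iQ + s4 ≤ T / L ^ B ∧ iR + 16 / V ^ 2 * iQ ≤ T / L ^ B := by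
  have hL0 : 0 < L := by linarith
  have hL1 : 1 ≤ L := by linarith
  have hX0 : 0 < X := by linarith
  have hV0 : 0 < V := by linarith
  have hLX : ∀ n : ℕ, n ≤ 2 * D + 2 * B + 8 → L ^ n ≤ X := fun n hn => (pow_le_pow_right₀ hL1 hn).trans hXP
  set q := L ^ (B + 1) with hq
  have hq0 : 0 < q := by positivity
  have hXq : X⁻¹ ≤ q⁻¹ := inv_anti₀ hq0 (hLX _ (by omega))
  have hm0 : (0:ℝ) ≤ m := Nat.cast_nonneg m
  have t1 : κ * T ≤ c0 * T * q⁻¹ := by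
    calc κ * T ≤ c0 * X⁻¹ * T := by gcongr
      _ = c0 * T * X⁻¹ := by ring
      _ ≤ _ := by gcongr
  have hE : L ^ (D + B + 2) ≤ X := hLX _ (by omega)
  have t2 : (U + 1 / (L ^ (D + B + 2))⁻¹) * iR ≤ 2 * m * (130 + 64 * C1) * T * q⁻¹ := by
    have e1 : U + 1 / (L ^ (D + B + 2))⁻¹ ≤ 2 * X := by
      rw [one_div, inv_inv]; linarith
    calc (U + 1 / (L ^ (D + B + 2))⁻¹) * iR ≤ 2 * X * (m * ((130 + 64 * C1) * T * (X ^ 3)⁻¹)) :=
          mul_le_mul e1 hR hR0 (by positivity)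
      _ = 2 * m * (130 + 64 * C1) * T * (X⁻¹ * X⁻¹) := by field_simp
      _ ≤ 2 * m * (130 + 64 * C1) * T * (X⁻¹ * 1) := by
          gcongr
          exact inv_le_one_of_one_le₀ hX1
      _ ≤ _ := by rw [mul_one]; gcongr
  have t3 : (L ^ (D + B + 2))⁻¹ * iP ≤ 2 * T * q⁻¹ := by
    calc (L ^ (D + B + 2))⁻¹ * iP ≤ (L ^ (D + B + 2))⁻¹ * (T * (2 * L ^ D)) := by gcongr
      _ = 2 * T * (q⁻¹ * L⁻¹) := by rw [hq]; field_simp; ring
      _ ≤ 2 * T * (q⁻¹ * 1) := by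
          gcongr
          exact inv_le_one_of_one_le₀ hL1
      _ = _ := by ring
  have g1 : L ^ (2 * D + 2 * B + 4) ≤ V ^ 2 := hVA.trans (le_self_pow₀ hV (by norm_num))
  have t4 : 16 / V ^ 2 / (L ^ (D + B + 2))⁻¹ * iQ ≤ 64 * m * T * q⁻¹ := by
    calc 16 / V ^ 2 / (L ^ (D + B + 2))⁻¹ * iQ ≤
          16 / L ^ (2 * D + 2 * B + 4) / (L ^ (D + B + 2))⁻¹ * (m * (4 * T * L ^ D)) := by gcongr
      _ = 64 * m * T * (q⁻¹ * L⁻¹) := by rw [hq]; field_simp; ring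
      _ ≤ 64 * m * T * (q⁻¹ * 1) := by
          gcongr
          exact inv_le_one_of_one_le₀ hL1
      _ = _ := by ring
  have t5 : s4 ≤ 3 * T * q⁻¹ := by
    have g2 : L ^ D * (X ^ 16)⁻¹ ≤ q⁻¹ := by
      calc L ^ D * (X ^ 16)⁻¹ ≤ X * (X ^ 16)⁻¹ := by
            gcongr
            exact hLX _ (by omega)
        _ = X⁻¹ * (X ^ 14)⁻¹ := by field_simp
        _ ≤ X⁻¹ * 1 := by
            gcongr
            exact inv_le_one_of_one_le₀ (one_le_pow₀ hX1)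
        _ ≤ q⁻¹ := by rw [mul_one]; exact hXq
    calc s4 ≤ 3 * T * L ^ D * (X ^ 16)⁻¹ := h4
      _ = 3 * T * (L ^ D * (X ^ 16)⁻¹) := by ring
      _ ≤ _ := by gcongr
  have hfin : (c0 + 2 * m * (130 + 64 * C1) + 64 * m + 5) * T * q⁻¹ ≤ T / L ^ B := by
    calc (c0 + 2 * m * (130 + 64 * C1) + 64 * m + 5) * T * q⁻¹ ≤ L * T * q⁻¹ := by gcongr
      _ = T / L ^ B := by rw [hq, pow_succ]; field_simp
  constructor
  · refine le_trans ?_ hfin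
    have e : (c0 + 2 * m * (130 + 64 * C1) + 64 * m + 5) * T * q⁻¹ = c0 * T * q⁻¹ +
        2 * m * (130 + 64 * C1) * T * q⁻¹ + 64 * m * T * q⁻¹ + 2 * T * q⁻¹ + 3 * T * q⁻¹ := by ring
    rw [e]
    linarith
  · refine le_trans ?_ hfin
    have g3 : iR ≤ (U + 1 / (L ^ (D + B + 2))⁻¹) * iR := by
      refine le_mul_of_one_le_left hR0 ?_
      rw [one_div, inv_inv]
      have := one_le_pow₀ hL1 (n := D + B + 2)
      linarith
    have g4 : 16 / V ^ 2 * iQ ≤ 16 / V ^ 2 / (L ^ (D + B + 2))⁻¹ * iQ := by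
      refine mul_le_mul_of_nonneg_right ?_ hQ0
      rw [le_div_iff₀ (by positivity)]
      refine mul_le_of_le_one_right (by positivity) ?_
      exact inv_le_one_of_one_le₀ (one_le_pow₀ hL1)
    have e : (c0 + 2 * m * (130 + 64 * C1) + 64 * m + 5) * T * q⁻¹ = c0 * T * q⁻¹ +
        2 * m * (130 + 64 * C1) * T * q⁻¹ + 64 * m * T * q⁻¹ + 5 * T * q⁻¹ := by ring
    have h5 : 0 ≤ c0 * T * q⁻¹ := by positivity
    have h6 : 0 ≤ 5 * T * q⁻¹ := by positivity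
    rw [e]
    linarith

lemma cDy (N : ℕ) (y δ : ℝ) (w : ℂ) : Continuous fun t : ℝ => Dy N y (sp δ t + w) :=
  (Dy_diff N y).continuous.comp ((sp_cont δ).add continuous_const)

lemma cze {δ : ℝ} {w : ℂ} (h : δ + w.re ≤ 1 / 16) : Continuous fun t : ℝ => riemannZeta (sp δ t + w) := by
  have : (fun t : ℝ => riemannZeta (sp δ t + w)) = fun t => riemannZeta (sp (δ + w.re) (t + w.im)) := by
    funext t; rw [sp_add]
  rw [this]
  exact (zeta_sp_cont h).comp (continuous_id.add continuous_const)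

lemma cRg (N : ℕ) (E : Finset ℝ) (W e : ℝ) {δ : ℝ} {w : ℂ} (h : δ + w.re ≤ 1 / 16) :
    Continuous fun t : ℝ => Rg N E W e (sp δ t + w) := by
  unfold Rg
  have c2 : ∀ a, Continuous fun t => ‖Dy N a (sp δ t + w)‖ ^ 2 := fun a => (cDy N a δ w).norm.pow 2
  have cG : ∀ a b, Continuous fun t => ‖Dy N (a + b) (sp δ t + w) - Dy N a (sp δ t + w) * Dy N b (sp δ t + w)‖ ^ 2 :=
    fun a b => (((cDy N (a + b) δ w).sub ((cDy N a δ w).mul (cDy N b δ w))).norm).pow 2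
  have cZ : Continuous fun t => ‖riemannZeta (sp δ t + w) - Dy N 1 (sp δ t + w)‖ ^ 2 :=
    (((cze h).sub (cDy N 1 δ w)).norm).pow 2
  exact ((continuous_finsetSum _ fun a _ => continuous_finsetSum _ fun b _ => (cG a b).div_const _).add
      (continuous_finsetSum _ fun a _ => (c2 a).div_const _)).add (cZ.div_const _)

/-- the integral of the cost -/
lemma iRg (N : ℕ) (E : Finset ℝ) (W e : ℝ) {δ T : ℝ} {w : ℂ} (h : δ + w.re ≤ 1 / 16) {g1 g2 g3 : ℝ}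
    (h1 : ∀ a ∈ E, ∀ b ∈ E,
      ∫ t in (0:ℝ)..T, ‖Dy N (a + b) (sp δ t + w) - Dy N a (sp δ t + w) * Dy N b (sp δ t + w)‖ ^ 2 ≤ g1)
    (h2 : ∀ a ∈ E, ∫ t in (0:ℝ)..T, ‖Dy N a (sp δ t + w)‖ ^ 2 ≤ g2)
    (h3 : ∫ t in (0:ℝ)..T, ‖riemannZeta (sp δ t + w) - Dy N 1 (sp δ t + w)‖ ^ 2 ≤ g3) :
    ∫ t in (0:ℝ)..T, Rg N E W e (sp δ t + w) ≤
      (#E : ℝ) * ((#E : ℝ) * (g1 / e ^ 2)) + (#E : ℝ) * (g2 / W ^ 2) + g3 / e ^ 2 := by
  have c2 : ∀ a, Continuous fun t => ‖Dy N a (sp δ t + w)‖ ^ 2 := fun a => (cDy N a δ w).norm.pow 2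
  have cG : ∀ a b, Continuous fun t => ‖Dy N (a + b) (sp δ t + w) - Dy N a (sp δ t + w) * Dy N b (sp δ t + w)‖ ^ 2 :=
    fun a b => (((cDy N (a + b) δ w).sub ((cDy N a δ w).mul (cDy N b δ w))).norm).pow 2
  have cZ : Continuous fun t => ‖riemannZeta (sp δ t + w) - Dy N 1 (sp δ t + w)‖ ^ 2 :=
    (((cze h).sub (cDy N 1 δ w)).norm).pow 2
  have d1 : Continuous fun t => ∑ a ∈ E, ∑ b ∈ E,
      ‖Dy N (a + b) (sp δ t + w) - Dy N a (sp δ t + w) * Dy N b (sp δ t + w)‖ ^ 2 / e ^ 2 :=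
    continuous_finsetSum _ fun a _ => continuous_finsetSum _ fun b _ => (cG a b).div_const _
  have d2 : Continuous fun t => ∑ a ∈ E, ‖Dy N a (sp δ t + w)‖ ^ 2 / W ^ 2 :=
    continuous_finsetSum _ fun a _ => (c2 a).div_const _
  have d3 : Continuous fun t => ‖riemannZeta (sp δ t + w) - Dy N 1 (sp δ t + w)‖ ^ 2 / e ^ 2 := cZ.div_const _
  have d12 : Continuous fun t => (∑ a ∈ E, ∑ b ∈ E,
      ‖Dy N (a + b) (sp δ t + w) - Dy N a (sp δ t + w) * Dy N b (sp δ t + w)‖ ^ 2 / e ^ 2) +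
      ∑ a ∈ E, ‖Dy N a (sp δ t + w)‖ ^ 2 / W ^ 2 := d1.add d2
  unfold Rg
  rw [intervalIntegral.integral_add (d12.intervalIntegrable _ _) (d3.intervalIntegrable _ _),
    intervalIntegral.integral_add (d1.intervalIntegrable _ _) (d2.intervalIntegrable _ _),
    intervalIntegral.integral_div,
    intervalIntegral.integral_finsetSum fun a _ => (continuous_finsetSum _ fun b _ =>
      (cG a b).div_const _).intervalIntegrable _ _,
    intervalIntegral.integral_finsetSum fun a _ => ((c2 a).div_const _).intervalIntegrable _ _]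
  have f1 : ∑ a ∈ E, ∫ t in (0:ℝ)..T, ∑ b ∈ E,
      ‖Dy N (a + b) (sp δ t + w) - Dy N a (sp δ t + w) * Dy N b (sp δ t + w)‖ ^ 2 / e ^ 2 ≤
      (#E : ℝ) * ((#E : ℝ) * (g1 / e ^ 2)) := by
    refine (sum_le_card_nsmul _ _ ((#E : ℝ) * (g1 / e ^ 2)) fun a ha => ?_).trans (le_of_eq (nsmul_eq_mul _ _))
    rw [intervalIntegral.integral_finsetSum fun b _ => ((cG a b).div_const _).intervalIntegrable _ _]
    refine (sum_le_card_nsmul _ _ (g1 / e ^ 2) fun b hb => ?_).trans (le_of_eq (nsmul_eq_mul _ _))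
    rw [intervalIntegral.integral_div]
    exact div_le_div_of_nonneg_right (h1 a ha b hb) (sq_nonneg _)
  have f2 : ∑ a ∈ E, ∫ t in (0:ℝ)..T, ‖Dy N a (sp δ t + w)‖ ^ 2 / W ^ 2 ≤ (#E : ℝ) * (g2 / W ^ 2) := by
    refine (sum_le_card_nsmul _ _ (g2 / W ^ 2) fun a ha => ?_).trans (le_of_eq (nsmul_eq_mul _ _))
    rw [intervalIntegral.integral_div]
    exact div_le_div_of_nonneg_right (h2 a ha) (sq_nonneg _)
  have f3 := div_le_div_of_nonneg_right h3 (sq_nonneg e)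
  linarith

end

end Pool.Agent.X110.RR
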