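import Pool.Agent.X110.RR4

set_option autoImplicit false

/-! Ratios of zeta near the line: the second half of the proof. -/

namespace Pool.Agent.X110.RR

open Finset MeasureTheory
open Pool.Agent.H306R2 Pool.Agent.Y746.OA Pool.Agent.Y746.CS

noncomputable section

/-- all factors are neither large nor small -/
def GS (δ V : ℝ) {m : ℕ} (w : Fin m → ℂ) : Set ℝ :=
  {t | ∀ j, V⁻¹ < ‖riemannZeta (sp δ t + w j)‖ ∧ ‖riemannZeta (sp δ t + w j)‖ < V}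

/-- the integrand -/
def Zf (δ : ℝ) {m : ℕ} (w : Fin m → ℂ) (β : Fin m → ℝ) (r : Fin m → ℤ) (t : ℝ) : ℂ :=
  ∏ j, (riemannZeta (sp δ t + w j) ^ (r j) * ((‖riemannZeta (sp δ t + w j)‖ ^ (2 * β j) : ℝ) : ℂ))

/-- its approximation -/
def Pf (N : ℕ) (δ : ℝ) {m : ℕ} (w : Fin m → ℂ) (β : Fin m → ℝ) (r : Fin m → ℤ) (t : ℝ) : ℂ :=
  ∏ j, (Dy N (β j + r j) (sp δ t + w j) * (starRingEnd ℂ) (Dy N (β j) (sp δ t + w j)))

/-- the cost of all points -/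
def Rf (N K J : ℕ) (b W e δ : ℝ) {m : ℕ} (w : Fin m → ℂ) (β : Fin m → ℝ) (t : ℝ) : ℝ :=
  ∑ j, Rg N (EE K b (β j) J) W e (sp δ t + w j)

/-- large values -/
def Qf (N : ℕ) (δ : ℝ) {m : ℕ} (w : Fin m → ℂ) (t : ℝ) : ℝ :=
  ∑ j, (‖Dy N 1 (sp δ t + w j)‖ ^ 2 + ‖Dy N (-1) (sp δ t + w j)‖ ^ 2)

section
variable {m K J N : ℕ} {b W e V δ : ℝ} {w : Fin m → ℂ} {β : Fin m → ℝ} {r : Fin m → ℤ}

lemma Zf_le (hV : 1 ≤ V) (hβ : ∀ j, |β j| ≤ K) (hr : ∀ j, |r j| ≤ K) {t : ℝ} (ht : t ∈ GS δ V w) :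
    ‖Zf δ w β r t‖ ≤ V ^ (3 * K * m) := by
  unfold Zf
  rw [norm_prod]
  have h1 : ∀ j ∈ (univ : Finset (Fin m)), ‖riemannZeta (sp δ t + w j) ^ (r j) *
      ((‖riemannZeta (sp δ t + w j)‖ ^ (2 * β j) : ℝ) : ℂ)‖ ≤ V ^ (3 * K) := by
    intro j _
    obtain ⟨a1, a2⟩ := ht j
    rw [norm_mul, Complex.norm_real, Real.norm_of_nonneg (by positivity)]
    calc _ ≤ V ^ K * V ^ (2 * K) :=
          mul_le_mul (zpow_norm_le hV a1 a2 (hr j)) (rpow_V hV a1 a2 (hβ j)) (by positivity) (by positivity)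
      _ = V ^ (3 * K) := by rw [← pow_add]; congr 1; ring
  refine (prod_le_prod (fun j _ => norm_nonneg _) h1).trans (le_of_eq ?_)
  rw [prod_const, card_univ, Fintype.card_fin, ← pow_mul]

lemma pw (hN : 1 ≤ N) (hV : 1 ≤ V) (hW : 1 ≤ W) (he : 0 < e) (hWe : 8 * W ^ 2 * e ≤ 1) (hb1 : 1 ≤ b)
    (hβb : ∀ j, |β j| ≤ b) (hβ : ∀ j, |β j| ≤ K) (hr : ∀ j, |r j| ≤ K) (hρ : rho b W e J ≤ 1 / 4) {f : ℝ}
    (hf : 4 * rho b W e J + 2 * K * (W ^ 2 * e) ≤ f) (hf1 : f ≤ 1) (heV : e ≤ V⁻¹) {t : ℝ}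
    (hR : Rf N K J b W e δ w β t < 1) :
    (t ∈ GS δ V w → ‖Zf δ w β r t - Pf N δ w β r t‖ ≤ (2 * V ^ (3 * K)) ^ m * (m * (V ^ (3 * K) * f))) ∧
    (t ∉ GS δ V w → 1 ≤ 16 / V ^ 2 * Qf N δ w t) := by
  have hV0 : 0 < V := by linarith
  have hgj : ∀ j, Rg N (EE K b (β j) J) W e (sp δ t + w j) < 1 := fun j =>
    lt_of_le_of_lt (single_le_sum (f := fun j => Rg N (EE K b (β j) J) W e (sp δ t + w j))
      (fun _ _ => Rg_nonneg _ _ _ _ _) (mem_univ j)) hR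
  have hG := fun j => Rg_good hN hW he hWe (hgj j)
  constructor
  · intro ht
    have hF := fun j => factor (r := r j) (hG j).1 (hG j).2 hV (ht j).1 (ht j).2 hb1 (hβb j) (hβ j) (hr j) hρ
    have hV3 : 1 ≤ V ^ (3 * K) := one_le_pow₀ hV
    have hx : ∀ j ∈ (univ : Finset (Fin m)), ‖riemannZeta (sp δ t + w j) ^ (r j) *
        ((‖riemannZeta (sp δ t + w j)‖ ^ (2 * β j) : ℝ) : ℂ)‖ ≤ 2 * V ^ (3 * K) := fun j _ => by
      have := (hF j).1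
      linarith
    have hd : ∀ j, ‖riemannZeta (sp δ t + w j) ^ (r j) * ((‖riemannZeta (sp δ t + w j)‖ ^ (2 * β j) : ℝ) : ℂ) -
        Dy N (β j + r j) (sp δ t + w j) * (starRingEnd ℂ) (Dy N (β j) (sp δ t + w j))‖ ≤ V ^ (3 * K) * f := fun j => by
      refine (hF j).2.trans ?_
      gcongr
    have hy : ∀ j ∈ (univ : Finset (Fin m)), ‖Dy N (β j + r j) (sp δ t + w j) *
        (starRingEnd ℂ) (Dy N (β j) (sp δ t + w j))‖ ≤ 2 * V ^ (3 * K) := fun j _ => by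
      have h1 := (hF j).1
      have h2 := hd j
      have h3 : V ^ (3 * K) * f ≤ V ^ (3 * K) * 1 := by gcongr
      have h4 := norm_sub_norm_le (Dy N (β j + r j) (sp δ t + w j) * (starRingEnd ℂ) (Dy N (β j) (sp δ t + w j)))
        (riemannZeta (sp δ t + w j) ^ (r j) * ((‖riemannZeta (sp δ t + w j)‖ ^ (2 * β j) : ℝ) : ℂ))
      rw [norm_sub_rev] at h4
      linarith
    have h := prod_diff univ (fun j => riemannZeta (sp δ t + w j) ^ (r j) *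
      ((‖riemannZeta (sp δ t + w j)‖ ^ (2 * β j) : ℝ) : ℂ))
      (fun j => Dy N (β j + r j) (sp δ t + w j) * (starRingEnd ℂ) (Dy N (β j) (sp δ t + w j)))
      (B := 2 * V ^ (3 * K)) (by linarith) hx hy
    rw [card_univ, Fintype.card_fin] at h
    unfold Zf Pf
    refine h.trans ?_
    refine mul_le_mul_of_nonneg_left ?_ (by positivity)
    refine (sum_le_card_nsmul _ _ _ fun j _ => hd j).trans (le_of_eq ?_)
    rw [card_univ, Fintype.card_fin, nsmul_eq_mul]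
  · intro ht
    unfold GS at ht
    rw [Set.mem_ofPred_eq] at ht
    push Not at ht
    obtain ⟨j, hj⟩ := ht
    have h1 := outside (hG j).1 (hG j).2 hV heV (by
      intro hcon
      exact absurd hcon.2 (not_lt.mpr (hj hcon.1)))
    have h2 : ‖Dy N 1 (sp δ t + w j)‖ ^ 2 + ‖Dy N (-1) (sp δ t + w j)‖ ^ 2 ≤ Qf N δ w t :=
      single_le_sum (f := fun j => ‖Dy N 1 (sp δ t + w j)‖ ^ 2 + ‖Dy N (-1) (sp δ t + w j)‖ ^ 2)
        (fun _ _ => by positivity) (mem_univ j)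
    have h3 : V ^ 2 / 16 ≤ Qf N δ w t := h1.trans h2
    calc (1:ℝ) = 16 / V ^ 2 * (V ^ 2 / 16) := by field_simp
      _ ≤ _ := mul_le_mul_of_nonneg_left h3 (by positivity)

lemma GS_meas (hw : ∀ j, δ + (w j).re ≤ 1 / 16) : MeasurableSet (GS δ V w) := by
  have : GS δ V w = ⋂ j, {t | V⁻¹ < ‖riemannZeta (sp δ t + w j)‖ ∧ ‖riemannZeta (sp δ t + w j)‖ < V} := by
    ext t; simp [GS]
  rw [this]
  refine MeasurableSet.iInter fun j => ?_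
  have hc := (cze (hw j)).norm.measurable
  exact (measurableSet_lt measurable_const hc).inter (measurableSet_lt hc measurable_const)

lemma Zf_meas (hw : ∀ j, δ + (w j).re ≤ 1 / 16) : Measurable (Zf δ w β r) := by
  unfold Zf
  refine Finset.measurable_prod _ fun j _ => ?_
  have hc := (cze (hw j)).measurable
  refine (hc.pow_const (r j)).mul ?_
  exact Complex.measurable_ofReal.comp (hc.norm.pow_const _)

lemma Pf_cont : Continuous (Pf N δ w β r) := by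
  unfold Pf
  exact continuous_finsetProd _ fun j _ => (cDy N _ δ (w j)).mul (Complex.continuous_conj.comp (cDy N _ δ (w j)))

lemma Pf_eq (t : ℝ) : Pf N δ w β r t = (∏ j, Dy N (β j + r j) (sp δ t + w j)) *
    (starRingEnd ℂ) (∏ j, Dy N (β j) (sp δ t + w j)) := by
  unfold Pf
  rw [prod_mul_distrib, map_prod]

lemma Rf_cont (hw : ∀ j, δ + (w j).re ≤ 1 / 16) : Continuous (Rf N K J b W e δ w β) := by
  unfold Rf
  exact continuous_finsetSum _ fun j _ => cRg N _ W e (hw j)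

lemma Qf_cont : Continuous (Qf N δ w) := by
  unfold Qf
  exact continuous_finsetSum _ fun j _ => ((cDy N 1 δ (w j)).norm.pow 2).add ((cDy N (-1) δ (w j)).norm.pow 2)

/-- the second half of the proof -/
theorem second {D B : ℕ} {C1 c1 L X T : ℝ} (hT : 0 < T) (hC1 : 0 ≤ C1) (hc1 : 1 ≤ c1)
    (hL : 24 ≤ L) (hLc : 2 ^ m * (m * c1) + 2 * m * (130 + 64 * C1) + 64 * m + 5 ≤ L) (hX1 : 1 ≤ X)
    (hXP : L ^ (2 * D + 2 * B + 8) ≤ X) (hVA : L ^ (2 * D + 2 * B + 4) ≤ V)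
    (hN : 1 ≤ N) (hV : 1 ≤ V) (hW : 1 ≤ W) (he : 0 < e) (hWe : 8 * W ^ 2 * e ≤ 1) (hb1 : 1 ≤ b)
    (hβb : ∀ j, |β j| ≤ b) (hβ : ∀ j, |β j| ≤ K) (hr : ∀ j, |r j| ≤ K) (hρ : rho b W e J ≤ 1 / 4)
    (hf : 4 * rho b W e J + 2 * K * (W ^ 2 * e) ≤ c1 * (X ^ 2)⁻¹) (hf1 : c1 * (X ^ 2)⁻¹ ≤ 1) (heV : e ≤ V⁻¹)
    (hw : ∀ j, 0 ≤ (w j).re ∧ δ + (w j).re ≤ 1 / 16) (hδ : 0 < δ) (hδ1 : δ ≤ 1)
    (hVR : V ^ (3 * K * (m + 1) + 1) ≤ X)
    (hiR : ∀ j, ∫ t in (0:ℝ)..T, Rg N (EE K b (β j) J) W e (sp δ t + w j) ≤ (130 + 64 * C1) * T * (X ^ 3)⁻¹)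
    (hi2 : ∀ a : ℝ, |a| ≤ 1 → ∀ j, ∫ t in (0:ℝ)..T, ‖Dy N a (sp δ t + w j)‖ ^ 2 ≤ 2 * T * L ^ D)
    (hmv : 4 * (N:ℝ) ^ ((m + 1) * (2 * (m * (2 * K)) + 3)) +
      T * (2 * ((N:ℝ) ^ (-δ) * (2 / δ) ^ ((m * (2 * K)) ^ 2))) ≤ 3 * T * L ^ D * (X ^ 16)⁻¹)
    (hms : T * (2 / δ) ^ ((2 * (m * (2 * K))) ^ 2) + 4 * (N:ℝ) ^ (2 * m * (2 * (2 * (m * (2 * K))) + 3)) ≤
      T * (2 * L ^ D)) :
    ‖(∫ t in Set.Ioc 0 T ∩ GS δ V w, Zf δ w β r t) -
      (T:ℂ) * ∑' n : ℕ, Ty (fun j => β j + r j) w n * (starRingEnd ℂ) (Ty β w n) * Pool.Agent.Y746.CS.wt δ n‖ ≤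
      T / L ^ B ∧ (volume (Set.Ioc 0 T \ GS δ V w)).toReal ≤ T / L ^ B := by
  have hL0 : 0 < L := by linarith
  have hL1 : 1 ≤ L := by linarith
  have hX0 : 0 < X := by linarith
  have hV0 : 0 < V := by linarith
  have hw2 : ∀ j, δ + (w j).re ≤ 1 / 16 := fun j => (hw j).2
  have hV3 : 1 ≤ V ^ (3 * K) := one_le_pow₀ hV
  have hm0 : (0:ℝ) ≤ m := Nat.cast_nonneg m
  set κ : ℝ := (2 * V ^ (3 * K)) ^ m * (m * (V ^ (3 * K) * (c1 * (X ^ 2)⁻¹))) with hκ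
  have hκ0 : 0 ≤ κ := by positivity
  have hpw := fun t => pw (t := t) (r := r) (δ := δ) (w := w) hN hV hW he hWe hb1 hβb hβ hr hρ hf hf1 heV
  obtain ⟨i1, i2⟩ := int2 (Z := Zf δ w β r) (P := Pf N δ w β r) (R := Rf N K J b W e δ w β) (Q := Qf N δ w)
    (G := GS δ V w) (GS_meas hw2) (Zf_meas hw2) Pf_cont (Rf_cont hw2) Qf_cont
    (fun t => sum_nonneg fun j _ => Rg_nonneg _ _ _ _ _) (fun t => sum_nonneg fun j _ => by positivity)
    (U := V ^ (3 * K * m)) (κ := κ) (q := 16 / V ^ 2) (η := (L ^ (D + B + 2))⁻¹) (T := T)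
    (by positivity) hκ0 (by positivity) (by positivity) hT.le (fun t ht => Zf_le hV hβ hr ht)
    (fun t ht hc => (hpw t hc).1 ht) (fun t ht hc => (hpw t hc).2 ht)
  -- the mean values
  have hy1 : ∀ j, |(fun j => β j + (r j : ℝ)) j| ≤ ((2 * K : ℕ) : ℝ) := by
    intro j
    have h1 := hβ j
    have h2 : |(r j : ℝ)| ≤ K := by
      have := hr j
      have h3 : ((|r j| : ℤ) : ℝ) ≤ K := by exact_mod_cast this
      rwa [Int.cast_abs] at h3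
    refine (abs_add_le _ _).trans ?_
    push_cast
    linarith
  have hy2 : ∀ j, |β j| ≤ ((2 * K : ℕ) : ℝ) := by
    intro j
    have h1 := hβ j
    push_cast
    have : (0:ℝ) ≤ K := Nat.cast_nonneg K
    linarith
  have hw1 : ∀ j, 0 ≤ (w j).re := fun j => (hw j).1
  have hmvP := mvP (y := fun j => β j + (r j : ℝ)) (y' := β) (w := w) (K := 2 * K) hN hy1 hy2 hw1 hδ hδ1 hT.le
  have hmsP := msP (y := fun j => β j + (r j : ℝ)) (y' := β) (w := w) (K := 2 * K) hN hy1 hy2 hw1 hδ hδ1 hT.le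
  simp_rw [← Pf_eq] at hmvP hmsP
  -- the cost
  have hiRf : ∫ t in (0:ℝ)..T, Rf N K J b W e δ w β t ≤ m * ((130 + 64 * C1) * T * (X ^ 3)⁻¹) := by
    unfold Rf
    rw [intervalIntegral.integral_finsetSum fun j _ => (cRg N _ W e (hw2 j)).intervalIntegrable _ _]
    refine (sum_le_card_nsmul _ _ _ fun j _ => hiR j).trans (le_of_eq ?_)
    rw [card_univ, Fintype.card_fin, nsmul_eq_mul]
  have hiRf0 : 0 ≤ ∫ t in (0:ℝ)..T, Rf N K J b W e δ w β t :=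
    intervalIntegral.integral_nonneg hT.le fun t _ => sum_nonneg fun j _ => Rg_nonneg _ _ _ _ _
  have hiQ : ∫ t in (0:ℝ)..T, Qf N δ w t ≤ m * (4 * T * L ^ D) := by
    unfold Qf
    have c2 : ∀ a j, Continuous fun t => ‖Dy N a (sp δ t + w j)‖ ^ 2 := fun a j => (cDy N a δ (w j)).norm.pow 2
    have c3 : ∀ j, Continuous fun t => ‖Dy N 1 (sp δ t + w j)‖ ^ 2 + ‖Dy N (-1) (sp δ t + w j)‖ ^ 2 :=
      fun j => (c2 1 j).add (c2 (-1) j)
    rw [intervalIntegral.integral_finsetSum fun j _ => (c3 j).intervalIntegrable _ _]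
    refine (sum_le_card_nsmul _ _ (4 * T * L ^ D) fun j _ => ?_).trans (le_of_eq ?_)
    · rw [intervalIntegral.integral_add ((c2 1 j).intervalIntegrable _ _) ((c2 (-1) j).intervalIntegrable _ _)]
      have h1 := hi2 1 (by rw [abs_one]) j
      have h2 := hi2 (-1) (by rw [abs_neg, abs_one]) j
      linarith
    · rw [card_univ, Fintype.card_fin, nsmul_eq_mul]
  have hiQ0 : 0 ≤ ∫ t in (0:ℝ)..T, Qf N δ w t :=
    intervalIntegral.integral_nonneg hT.le fun t _ => sum_nonneg fun j _ => by positivity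
  -- the parameters
  have hVpow : ∀ n : ℕ, n ≤ 3 * K * (m + 1) + 1 → V ^ n ≤ X := fun n hn => (pow_le_pow_right₀ hV hn).trans hVR
  have hUX : V ^ (3 * K * m) ≤ X := hVpow _ (by nlinarith)
  have hκX : κ ≤ (2 ^ m * (m * c1)) * X⁻¹ := by
    have h1 : V ^ (3 * K * (m + 1)) ≤ X := hVpow _ (by omega)
    calc κ = (2 ^ m * (m * c1)) * (V ^ (3 * K * (m + 1)) * (X ^ 2)⁻¹) := by
          rw [hκ, mul_pow, show 3 * K * (m + 1) = 3 * K * m + 3 * K by ring, pow_add, pow_mul V (3 * K) m]; ring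
      _ ≤ (2 ^ m * (m * c1)) * (X * (X ^ 2)⁻¹) := by gcongr
      _ = _ := by field_simp
  obtain ⟨f1, f2⟩ := num3 (m := m) (D := D) (B := B) hT hC1 (by positivity : 0 ≤ 2 ^ m * (m * c1)) hL hLc hX1 hXP hV hVA hUX
    (by positivity) hκX hiRf hiRf0 (hmsP.trans hms) hiQ hiQ0 (hmvP.trans hmv)
  refine ⟨?_, i2.trans f2⟩
  refine (norm_sub_le_norm_sub_add_norm_sub _ (∫ t in (0:ℝ)..T, Pf N δ w β r t) _).trans (le_trans ?_ f1)
  exact add_le_add i1 le_rfl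

end

end

end Pool.Agent.X110.RR
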