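import Pool.Agent.X110.LU1

set_option autoImplicit false

/-! Precise deviations under mod-Gaussian convergence: test functions with compact spectrum, moving tilt and scale. -/

namespace Pool.Agent.X110.SD

open Filter Topology MeasureTheory
open Pool.Agent.X110.LT

noncomputable section

variable {ι : Type*}

/-- mod-Gaussian convergence of a family of measures on the line -/
structure MG (𝓕 : Filter ι) (μ : ι → Measure ℝ) (ℓ : ι → ℝ) (a : ℂ → ℂ) : Prop where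
  fin : ∀ i, IsFiniteMeasure (μ i)
  int : ∀ i (c : ℝ), Integrable (fun x => Real.exp (c * x)) (μ i)
  cont : ∀ i, Continuous fun z : ℂ => ∫ x : ℝ, Complex.exp (z * x) ∂(μ i)
  lim : ∀ z₀ : ℂ, Tendsto (fun q : ℂ × ι => Complex.exp (-((ℓ q.2 : ℝ) : ℂ) * q.1 ^ 2 / 2) *
    ∫ x : ℝ, Complex.exp (q.1 * x) ∂(μ q.2)) (𝓝 z₀ ×ˢ 𝓕) (𝓝 (a z₀))
  big : Tendsto ℓ 𝓕 atTop

/-- the normalised transform -/
def hN (μ : ι → Measure ℝ) (ℓ : ι → ℝ) (i : ι) (z : ℂ) : ℂ :=
  Complex.exp (-((ℓ i : ℝ) : ℂ) * z ^ 2 / 2) * ∫ x : ℝ, Complex.exp (z * x) ∂(μ i)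

variable {𝓕 : Filter ι} {μ : ι → Measure ℝ} {ℓ : ι → ℝ} {a : ℂ → ℂ}

/-- local boundedness -/
lemma MG.bdd (h : MG 𝓕 μ ℓ a) (r : ℝ) : ∃ C : ℝ, 0 < C ∧ ∀ᶠ i in 𝓕, ∀ z : ℂ, ‖z‖ ≤ r → ‖hN μ ℓ i z‖ ≤ C := by
  have key : ∃ C : ℝ, 0 < C ∧ ∀ᶠ i in 𝓕, ∀ z ∈ Metric.closedBall (0:ℂ) r, ‖hN μ ℓ i z‖ ≤ C := by
    refine (isCompact_closedBall (0:ℂ) r).induction_on (p := fun s => ∃ C : ℝ, 0 < C ∧ ∀ᶠ i in 𝓕, ∀ z ∈ s, ‖hN μ ℓ i z‖ ≤ C)
      ⟨1, one_pos, Eventually.of_forall fun i z hz => absurd hz (Set.notMem_empty z)⟩ ?_ ?_ ?_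
    · rintro s t hst ⟨C, hC, H⟩
      exact ⟨C, hC, H.mono fun i hi z hz => hi z (hst hz)⟩
    · rintro s t ⟨C, hC, H⟩ ⟨D, hD, K⟩
      refine ⟨C + D, by positivity, ?_⟩
      filter_upwards [H, K] with i h1 h2 z hz
      rcases hz with hz | hz
      · exact (h1 z hz).trans (by linarith)
      · exact (h2 z hz).trans (by linarith)
    · intro z₀ _
      have h1 := (h.lim z₀).norm.eventually (gt_mem_nhds (lt_add_one ‖a z₀‖))
      rw [eventually_prod_iff] at h1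
      obtain ⟨pa, hpa, pb, hpb, H⟩ := h1
      refine ⟨{z | pa z}, mem_nhdsWithin_of_mem_nhds hpa, ‖a z₀‖ + 1, by positivity, ?_⟩
      filter_upwards [hpb] with i hi z hz
      exact (H hz hi).le
  obtain ⟨C, hC, H⟩ := key
  exact ⟨C, hC, H.mono fun i hi z hz => hi z (by rwa [Metric.mem_closedBall, dist_zero_right])⟩

/-- the tilted functional -/
def La (μ : ι → Measure ℝ) (ℓ β s : ι → ℝ) (i : ι) (g : ℝ → ℂ) : ℂ :=
  ((Real.exp (-(ℓ i * β i ^ 2 / 2)) : ℝ) : ℂ) * ∫ x : ℝ, ((Real.exp (β i * x) : ℝ) : ℂ) * g ((x - β i * ℓ i) / s i) ∂(μ i)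

lemma J_eq {β s : ι → ℝ} {i : ι} (hs : s i ≠ 0) (y : ℝ) :
    La μ ℓ β s i (fun x => Complex.exp (y * x * Complex.I)) =
      Complex.exp (((-(ℓ i * (y / s i) ^ 2 / 2) : ℝ)) : ℂ) * hN μ ℓ i (β i + (y / s i : ℝ) * Complex.I) := by
  unfold La hN
  have e1 : ∀ x : ℝ, ((Real.exp (β i * x) : ℝ) : ℂ) * Complex.exp (y * (((x - β i * ℓ i) / s i : ℝ) : ℂ) * Complex.I) =
      Complex.exp ((-(y / s i * (β i * ℓ i)) : ℝ) * Complex.I) *
        Complex.exp ((β i + (y / s i : ℝ) * Complex.I) * x) := by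
    intro x
    rw [Complex.ofReal_exp, ← Complex.exp_add, ← Complex.exp_add]
    congr 1
    have : ((s i : ℝ) : ℂ) ≠ 0 := by exact_mod_cast hs
    push_cast
    field_simp
    ring
  simp_rw [e1]
  rw [integral_const_mul, Complex.ofReal_exp]
  have e5 : Complex.exp ((-(ℓ i * β i ^ 2 / 2) : ℝ) : ℂ) * Complex.exp ((-(y / s i * (β i * ℓ i)) : ℝ) * Complex.I) =
      Complex.exp (((-(ℓ i * (y / s i) ^ 2 / 2) : ℝ)) : ℂ) *
        Complex.exp (-((ℓ i : ℝ) : ℂ) * (β i + (y / s i : ℝ) * Complex.I) ^ 2 / 2) := by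
    rw [← Complex.exp_add, ← Complex.exp_add]
    congr 1
    have : (Complex.I) ^ 2 = -1 := Complex.I_sq
    push_cast
    linear_combination (((ℓ i : ℝ) : ℂ) * ((y:ℂ) / (s i : ℂ)) ^ 2 / 2) * this
  linear_combination (∫ x : ℝ, Complex.exp ((β i + (y / s i : ℝ) * Complex.I) * x) ∂(μ i)) * e5

lemma exp_intC [∀ i, IsFiniteMeasure (μ i)] (h : ∀ i (c : ℝ), Integrable (fun x => Real.exp (c * x)) (μ i)) (i : ι) (c : ℝ) :
    Integrable (fun x => ((Real.exp (c * x) : ℝ) : ℂ)) (μ i) := (h i c).ofReal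

lemma La_Phi (h : MG 𝓕 μ ℓ a) {β s : ι → ℝ} {i : ι} (hs : s i ≠ 0) {φ : ℝ → ℂ}
    (hφ : Continuous φ) (hc : HasCompactSupport φ) :
    La μ ℓ β s i (Phi φ) = ∫ y : ℝ, φ y * (Complex.exp (((-(ℓ i * (y / s i) ^ 2 / 2) : ℝ)) : ℂ) *
      hN μ ℓ i (β i + (y / s i : ℝ) * Complex.I)) := by
  have hφi : Integrable φ := hφ.integrable_of_hasCompactSupport hc
  have := h.fin i
  set w : ℝ → ℂ := fun x => ((Real.exp (β i * x) : ℝ) : ℂ) with hw
  have hwi : Integrable w (μ i) := (h.int i (β i)).ofReal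
  have hprod : Integrable (fun p : ℝ × ℝ => w p.1 * φ p.2) ((μ i).prod volume) := hwi.mul_prod hφi
  set Xc : ℝ → ℝ := fun x => (x - β i * ℓ i) / s i with hXc
  have hI : Integrable (Function.uncurry fun (x y : ℝ) => w x * (φ y * Complex.exp (y * (Xc x : ℝ) * Complex.I)))
      ((μ i).prod volume) := by
    have h1 : (Function.uncurry fun (x y : ℝ) => w x * (φ y * Complex.exp (y * (Xc x : ℝ) * Complex.I))) =
        fun p : ℝ × ℝ => (w p.1 * φ p.2) * Complex.exp (p.2 * (Xc p.1 : ℝ) * Complex.I) := by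
      funext p
      simp only [Function.uncurry]
      ring
    rw [h1]
    have hcX : Continuous fun p : ℝ × ℝ => Complex.exp (p.2 * (Xc p.1 : ℝ) * Complex.I) := by
      have h2 : Continuous fun p : ℝ × ℝ => Xc p.1 := by simp only [hXc]; fun_prop
      have h3 : Continuous fun p : ℝ × ℝ => ((Xc p.1 : ℝ) : ℂ) := Complex.continuous_ofReal.comp h2
      have h4 : Continuous fun p : ℝ × ℝ => ((p.2 : ℝ) : ℂ) := Complex.continuous_ofReal.comp continuous_snd
      exact Complex.continuous_exp.comp ((h4.mul h3).mul continuous_const)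
    refine hprod.mul_bdd (c := 1) hcX.aestronglyMeasurable (Eventually.of_forall fun p => ?_)
    have h2 : (p.2 : ℂ) * (Xc p.1 : ℝ) * Complex.I = ((p.2 * Xc p.1 : ℝ) : ℂ) * Complex.I := by
      push_cast; ring
    rw [h2, exp_unit]
  have e1 : ∫ x, w x * Phi φ (Xc x) ∂(μ i) =
      ∫ y : ℝ, φ y * ∫ x, w x * Complex.exp (y * (Xc x : ℝ) * Complex.I) ∂(μ i) := by
    have h1 : ∫ x, w x * Phi φ (Xc x) ∂(μ i) =
        ∫ x, (∫ y : ℝ, w x * (φ y * Complex.exp (y * (Xc x : ℝ) * Complex.I))) ∂(μ i) := by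
      refine integral_congr_ae (Eventually.of_forall fun t => ?_)
      simp only [Phi]
      rw [← integral_const_mul]
    rw [h1, integral_integral_swap hI]
    refine integral_congr_ae (Eventually.of_forall fun y => ?_)
    simp only
    rw [← integral_const_mul]
    refine integral_congr_ae (Eventually.of_forall fun t => ?_)
    simp only
    ring
  unfold La
  rw [show (∫ x : ℝ, ((Real.exp (β i * x) : ℝ) : ℂ) * Phi φ ((x - β i * ℓ i) / s i) ∂(μ i)) =
    ∫ x, w x * Phi φ (Xc x) ∂(μ i) from rfl, e1, ← integral_const_mul]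
  refine integral_congr_ae (Eventually.of_forall fun y => ?_)
  simp only
  have h9 := J_eq (μ := μ) (ℓ := ℓ) (β := β) (s := s) (i := i) hs y
  rw [← h9]
  unfold La
  simp only [hw, hXc]
  ring

/-- admissible tilts and scales -/
structure TS (𝓕 : Filter ι) (ℓ β s : ι → ℝ) (b : ℝ) : Prop where
  tilt : Tendsto β 𝓕 (𝓝 b)
  pos : ∃ c : ℝ, 0 < c ∧ ∀ᶠ i in 𝓕, c ≤ s i
  small : Tendsto (fun i => s i / Real.sqrt (ℓ i)) 𝓕 (𝓝 0)

lemma sqrt_big (h : Tendsto ℓ 𝓕 atTop) : Tendsto (fun i => Real.sqrt (ℓ i)) 𝓕 atTop := Real.tendsto_sqrt_atTop.comp h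

/-- **The limit for test functions with compact spectrum.** -/
theorem key [𝓕.IsCountablyGenerated] (h : MG 𝓕 μ ℓ a) {β s : ι → ℝ} {b : ℝ} (hT : TS 𝓕 ℓ β s b) {φ : ℝ → ℂ}
    (hφ : Continuous φ) (hc : HasCompactSupport φ) :
    Tendsto (fun i => ((Real.sqrt (ℓ i) / s i : ℝ) : ℂ) * La μ ℓ β s i (Phi φ)) 𝓕
      (𝓝 (φ 0 * a b * ((Real.sqrt (2 * Real.pi) : ℝ) : ℂ))) := by
  obtain ⟨Y, hY⟩ : ∃ Y : ℝ, ∀ y, Y < |y| → φ y = 0 := by
    obtain ⟨R, hR⟩ := hc.isCompact.isBounded.subset_closedBall (0:ℝ)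
    refine ⟨R, fun y hy => ?_⟩
    by_contra hne
    have := hR (subset_tsupport φ (Function.mem_support.mpr hne))
    rw [Metric.mem_closedBall, dist_zero_right, Real.norm_eq_abs] at this
    linarith
  obtain ⟨M, hM'⟩ := hφ.bounded_above_of_compact_support hc
  obtain ⟨c, hc0, hcs⟩ := hT.pos
  obtain ⟨C, hC0, hC⟩ := h.bdd (|b| + 1 + |Y| / c)
  have hL := h.big
  have hsq := sqrt_big hL
  set F : ι → ℝ → ℂ := fun i u => φ (s i / Real.sqrt (ℓ i) * u) * (Complex.exp ((-(u ^ 2 / 2) : ℝ) : ℂ) *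
      hN μ ℓ i (β i + (u / Real.sqrt (ℓ i) : ℝ) * Complex.I)) with hF
  have hev : ∀ᶠ i in 𝓕, ((Real.sqrt (ℓ i) / s i : ℝ) : ℂ) * La μ ℓ β s i (Phi φ) = ∫ u, F i u := by
    filter_upwards [hcs, hL.eventually (eventually_gt_atTop 0)] with i g1 g4
    have hs0 : 0 < s i := lt_of_lt_of_le hc0 g1
    rw [La_Phi h hs0.ne' hφ hc]
    have hq0 : 0 < Real.sqrt (ℓ i) := Real.sqrt_pos.mpr g4
    have h1 := Measure.integral_comp_mul_left (fun y : ℝ => φ y * (Complex.exp (((-(ℓ i * (y / s i) ^ 2 / 2) : ℝ)) : ℂ) *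
      hN μ ℓ i (β i + (y / s i : ℝ) * Complex.I))) (s i / Real.sqrt (ℓ i))
    rw [abs_of_pos (by positivity), Complex.real_smul, inv_div] at h1
    rw [← h1]
    refine integral_congr_ae (Eventually.of_forall fun u => ?_)
    simp only [hF]
    have e1 : s i / Real.sqrt (ℓ i) * u / s i = u / Real.sqrt (ℓ i) := by field_simp
    have e2 : -(ℓ i * (u / Real.sqrt (ℓ i)) ^ 2 / 2) = -(u ^ 2 / 2) := by
      rw [div_pow, Real.sq_sqrt g4.le]
      field_simp
    rw [e1, e2]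
  refine Tendsto.congr' (EventuallyEq.symm hev) ?_
  have hgauss : ∫ u : ℝ, φ 0 * (Complex.exp ((-(u ^ 2 / 2) : ℝ) : ℂ) * a b) =
      φ 0 * a b * ((Real.sqrt (2 * Real.pi) : ℝ) : ℂ) := by
    have h1 : ∫ u : ℝ, φ 0 * (Complex.exp ((-(u ^ 2 / 2) : ℝ) : ℂ) * a b) =
        (φ 0 * a b) * ((∫ u : ℝ, Real.exp (-(1 / 2) * u ^ 2) : ℝ) : ℂ) := by
      rw [← integral_complex_ofReal, ← integral_const_mul]
      refine integral_congr_ae (Eventually.of_forall fun u => ?_)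
      simp only
      rw [Complex.ofReal_exp]
      have : (((-(1 / 2) * u ^ 2 : ℝ)) : ℂ) = ((-(u ^ 2 / 2) : ℝ) : ℂ) := by push_cast; ring
      rw [this]; ring
    rw [h1, integral_gaussian]
    have h2 : Real.pi / (1 / 2) = 2 * Real.pi := by ring
    rw [h2]
  rw [← hgauss]
  refine tendsto_integral_filter_of_dominated_convergence (fun u => M * C * Real.exp (-(1 / 2) * u ^ 2)) ?_ ?_ ?_ ?_
  · refine Eventually.of_forall fun i => ?_
    have c1 : Continuous fun u : ℝ => ((u / Real.sqrt (ℓ i) : ℝ) : ℂ) := by fun_prop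
    have c2 : Continuous fun z : ℂ => hN μ ℓ i z := by
      unfold hN
      exact Continuous.mul (by fun_prop) (h.cont i)
    have c3 : Continuous (F i) := by
      simp only [hF]
      refine (hφ.comp (by fun_prop)).mul (Continuous.mul (by fun_prop) (c2.comp ?_))
      exact continuous_const.add (c1.mul continuous_const)
    exact c3.aestronglyMeasurable
  · filter_upwards [hC, hcs, hL.eventually (eventually_gt_atTop 0),
      hT.tilt.abs.eventually (gt_mem_nhds (lt_add_one |b|))] with i g1 g2 g3 g4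
    have hs0 : 0 < s i := lt_of_lt_of_le hc0 g2
    have hq0 : 0 < Real.sqrt (ℓ i) := Real.sqrt_pos.mpr g3
    refine Eventually.of_forall fun u => ?_
    simp only [hF]
    have hM0 : 0 ≤ M := (norm_nonneg _).trans (hM' 0)
    by_cases hu : Y < |s i / Real.sqrt (ℓ i) * u|
    · rw [hY _ hu, zero_mul, norm_zero]
      positivity
    · push Not at hu
      have hz : ‖((β i : ℂ) + ((u / Real.sqrt (ℓ i) : ℝ) : ℂ) * Complex.I)‖ ≤ |b| + 1 + |Y| / c := by
        refine (norm_add_le _ _).trans ?_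
        rw [Complex.norm_real, norm_mul, Complex.norm_real, Complex.norm_I, Real.norm_eq_abs, Real.norm_eq_abs, mul_one]
        have h3 : |u / Real.sqrt (ℓ i)| ≤ |Y| / c := by
          have h5 : |s i / Real.sqrt (ℓ i) * u| = s i * |u / Real.sqrt (ℓ i)| := by
            rw [abs_mul, abs_div, abs_div, abs_of_pos hs0, abs_of_pos hq0]; ring
          rw [h5] at hu
          rw [le_div_iff₀ hc0]
          have h6 := hu.trans (le_abs_self Y)
          have h7 : c * |u / Real.sqrt (ℓ i)| ≤ s i * |u / Real.sqrt (ℓ i)| :=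
            mul_le_mul_of_nonneg_right g2 (abs_nonneg _)
          linarith
        linarith
      have h6 := g1 _ hz
      rw [norm_mul, norm_mul, Complex.norm_exp_ofReal]
      have h7 : -(u ^ 2 / 2) = -(1 / 2) * u ^ 2 := by ring
      rw [h7]
      calc _ ≤ M * (Real.exp (-(1 / 2) * u ^ 2) * C) := by
            gcongr
            exact hM' _
        _ = _ := by ring
  · exact (integrable_exp_neg_mul_sq (by norm_num)).const_mul _
  · refine Eventually.of_forall fun u => ?_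
    simp only [hF]
    have h1 : Tendsto (fun i => s i / Real.sqrt (ℓ i) * u) 𝓕 (𝓝 0) := by simpa using hT.small.mul_const u
    have h2 : Tendsto (fun i => φ (s i / Real.sqrt (ℓ i) * u)) 𝓕 (𝓝 (φ 0)) := (hφ.tendsto 0).comp h1
    refine h2.mul (tendsto_const_nhds.mul ?_)
    have h8 : Tendsto (fun i => u / Real.sqrt (ℓ i)) 𝓕 (𝓝 0) := tendsto_const_nhds.div_atTop hsq
    have h3 : Tendsto (fun i => ((β i : ℂ) + ((u / Real.sqrt (ℓ i) : ℝ) : ℂ) * Complex.I)) 𝓕 (𝓝 (b : ℂ)) := by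
      have h4 := ((Complex.continuous_ofReal.tendsto 0).comp h8).mul_const Complex.I
      have h5 := ((Complex.continuous_ofReal.tendsto b).comp hT.tilt).add h4
      simpa using h5
    have h6 : Tendsto (fun q : ℂ × ι => hN μ ℓ q.2 q.1) (𝓝 (b:ℂ) ×ˢ 𝓕) (𝓝 (a b)) := h.lim (b : ℂ)
    have h7 : Tendsto (fun i => (((β i : ℂ) + ((u / Real.sqrt (ℓ i) : ℝ) : ℂ) * Complex.I), i)) 𝓕 (𝓝 (b:ℂ) ×ˢ 𝓕) :=
      h3.prodMk tendsto_id
    have h9 := Tendsto.comp h6 h7
    simpa only [Function.comp_def] using h9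

end

end Pool.Agent.X110.SD
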