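import Pool.Agent.X110.SD1

set_option autoImplicit false

/-! Precise deviations under mod-Gaussian convergence: continuous test functions and indicators. -/

namespace Pool.Agent.X110.SD

open Filter Topology MeasureTheory
open Pool.Agent.X110.LT
open scoped BoundedContinuousFunction

noncomputable section

variable {ι : Type*} {𝓕 : Filter ι} {μ : ι → Measure ℝ} {ℓ : ι → ℝ} {a : ℂ → ℂ} {β s : ι → ℝ} {b : ℝ}

/-- the centred and scaled variable -/
def Xs (ℓ β s : ι → ℝ) (i : ι) (x : ℝ) : ℝ := (x - β i * ℓ i) / s i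

lemma Xs_cont (ℓ β s : ι → ℝ) (i : ι) : Continuous (Xs ℓ β s i) := by unfold Xs; fun_prop

/-- the weight -/
def wS (ℓ β s : ι → ℝ) (i : ι) (x : ℝ) : ℝ := Real.exp (β i * x) * g0 (Xs ℓ β s i x)

lemma wS_cont (ℓ β s : ι → ℝ) (i : ι) : Continuous (wS ℓ β s i) := by
  unfold wS
  exact (by fun_prop : Continuous fun x : ℝ => Real.exp (β i * x)).mul (g0_cont.comp (Xs_cont ℓ β s i))

lemma wS_nonneg (ℓ β s : ι → ℝ) (i : ι) (x : ℝ) : 0 ≤ wS ℓ β s i x :=
  mul_nonneg (Real.exp_pos _).le (g0_pos _).le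

lemma wS_int (h : MG 𝓕 μ ℓ a) (β s : ι → ℝ) (i : ι) : Integrable (wS ℓ β s i) (μ i) := by
  obtain ⟨C, hC, hb⟩ := g0_bdd
  refine Integrable.mono' ((h.int i (β i)).mul_const C) (wS_cont ℓ β s i).aestronglyMeasurable ?_
  refine Eventually.of_forall fun x => ?_
  rw [Real.norm_of_nonneg (wS_nonneg ℓ β s i x)]
  exact mul_le_mul_of_nonneg_left (hb _) (Real.exp_pos _).le

/-- the normalising factor -/
def cS (ℓ β s : ι → ℝ) (i : ι) : ℝ := Real.sqrt (ℓ i) / s i * Real.exp (-(ℓ i * β i ^ 2 / 2))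

/-- limits for the modulated weight -/
lemma lim_mod [𝓕.IsCountablyGenerated] (h : MG 𝓕 μ ℓ a) (hT : TS 𝓕 ℓ β s b) (y : ℝ) :
    Tendsto (fun i => ((cS ℓ β s i : ℝ) : ℂ) * ∫ x : ℝ, wS ℓ β s i x • Complex.exp (y * (Xs ℓ β s i x : ℝ) * Complex.I) ∂(μ i)) 𝓕
      (𝓝 (φ0 (-y) * a b * ((Real.sqrt (2 * Real.pi) : ℝ) : ℂ))) := by
  have h1 := key h hT (mod_cont y) (mod_supp y)
  simp only [zero_sub] at h1
  have e : Phi (fun s => φ0 (s - y)) = fun x : ℝ => (g0 x : ℂ) * Complex.exp (y * x * Complex.I) := by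
    funext x; exact Phi_mod y x
  rw [e] at h1
  refine h1.congr fun i => ?_
  unfold La cS
  rw [Complex.ofReal_mul (Real.sqrt (ℓ i) / s i), mul_assoc]
  congr 2
  refine integral_congr_ae (Eventually.of_forall fun x => ?_)
  simp only [wS, Xs, Complex.real_smul]
  push_cast
  ring

lemma lim_one [𝓕.IsCountablyGenerated] (h : MG 𝓕 μ ℓ a) (hT : TS 𝓕 ℓ β s b) {A : ℝ} (hA : a b = (A : ℂ)) :
    Tendsto (fun i => cS ℓ β s i * ∫ x, wS ℓ β s i x ∂(μ i)) 𝓕 (𝓝 (2 * A * Real.sqrt (2 * Real.pi))) := by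
  have h1 := lim_mod h hT 0
  rw [neg_zero, φ0_zero, hA] at h1
  have h2 := (Complex.continuous_re.tendsto _).comp h1
  have e2 : (2 * (A : ℂ) * ((Real.sqrt (2 * Real.pi) : ℝ) : ℂ)).re = 2 * A * Real.sqrt (2 * Real.pi) := by
    have : (2 * (A : ℂ) * ((Real.sqrt (2 * Real.pi) : ℝ) : ℂ)) = ((2 * A * Real.sqrt (2 * Real.pi) : ℝ) : ℂ) := by
      push_cast; ring
    rw [this, Complex.ofReal_re]
  rw [e2] at h2
  refine h2.congr fun i => ?_
  simp only [Function.comp]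
  have e3 : ∫ x : ℝ, wS ℓ β s i x • Complex.exp (((0:ℝ):ℂ) * (Xs ℓ β s i x : ℝ) * Complex.I) ∂(μ i) =
      ((∫ x, wS ℓ β s i x ∂(μ i) : ℝ) : ℂ) := by
    rw [← integral_complex_ofReal]
    refine integral_congr_ae (Eventually.of_forall fun x => ?_)
    simp
  rw [e3, ← Complex.ofReal_mul, Complex.ofReal_re]

/-- the tilted distribution, or a point mass -/
def PS (μ : ι → Measure ℝ) (ℓ β s : ι → ℝ) (i : ι) : Measure ℝ := by
  classical
  exact if 0 < ∫ x, wS ℓ β s i x ∂(μ i) then tilt (μ i) (wS ℓ β s i) (Xs ℓ β s i) else Measure.dirac 0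

lemma PS_prob (h : MG 𝓕 μ ℓ a) (β s : ι → ℝ) (i : ι) : IsProbabilityMeasure (PS μ ℓ β s i) := by
  unfold PS
  split_ifs with h1
  · exact tilt_prob (wS_nonneg ℓ β s i) (wS_int h β s i) h1 (Xs_cont ℓ β s i).measurable
  · infer_instance

lemma PS_ev [𝓕.IsCountablyGenerated] (h : MG 𝓕 μ ℓ a) (hT : TS 𝓕 ℓ β s b) {A : ℝ} (hA : a b = (A : ℂ)) (hA0 : 0 < A) :
    ∀ᶠ i in 𝓕, 0 < s i ∧ 0 < ℓ i ∧ 0 < ∫ x, wS ℓ β s i x ∂(μ i) := by
  obtain ⟨c, hc0, hcs⟩ := hT.pos
  have h1 := (lim_one h hT hA).eventually (lt_mem_nhds (by positivity : 0 < 2 * A * Real.sqrt (2 * Real.pi)))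
  filter_upwards [h1, hcs, h.big.eventually (eventually_gt_atTop 0)] with i g1 g2 g3
  have hs0 : 0 < s i := lt_of_lt_of_le hc0 g2
  refine ⟨hs0, g3, ?_⟩
  by_contra hcon
  push Not at hcon
  have h2 : cS ℓ β s i * ∫ x, wS ℓ β s i x ∂(μ i) ≤ 0 :=
    mul_nonpos_of_nonneg_of_nonpos (by unfold cS; positivity) hcon
  linarith

lemma PS_char [𝓕.IsCountablyGenerated] (h : MG 𝓕 μ ℓ a) (hT : TS 𝓕 ℓ β s b) {A : ℝ} (hA : a b = (A : ℂ)) (hA0 : 0 < A)
    (y : ℝ) : Tendsto (fun i => charFun (PS μ ℓ β s i) y) 𝓕 (𝓝 (charFun Pinf y)) := by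
  have h1 := lim_mod h hT y
  have h2 := (Complex.continuous_ofReal.tendsto _).comp (lim_one h hT hA)
  have hne : ((2 * A * Real.sqrt (2 * Real.pi) : ℝ) : ℂ) ≠ 0 := by
    exact_mod_cast (by positivity : 2 * A * Real.sqrt (2 * Real.pi) ≠ 0)
  have h3 := h1.div h2 hne
  have e : φ0 (-y) * a b * ((Real.sqrt (2 * Real.pi) : ℝ) : ℂ) / ((2 * A * Real.sqrt (2 * Real.pi) : ℝ) : ℂ) =
      charFun Pinf y := by
    rw [Pinf_char, hA]
    have h4 : (A : ℂ) ≠ 0 := by exact_mod_cast hA0.ne'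
    have h5 : ((Real.sqrt (2 * Real.pi) : ℝ) : ℂ) ≠ 0 := by
      exact_mod_cast (Real.sqrt_pos.mpr (by positivity : 0 < 2 * Real.pi)).ne'
    rw [Complex.ofReal_mul, Complex.ofReal_mul, Complex.ofReal_ofNat]
    field_simp
  rw [e] at h3
  refine h3.congr' ?_
  filter_upwards [PS_ev h hT hA hA0] with i ⟨g1, g2, g3⟩
  have e2 : PS μ ℓ β s i = tilt (μ i) (wS ℓ β s i) (Xs ℓ β s i) := by
    unfold PS
    rw [if_pos g3]
  rw [e2, charFun_apply_real, tilt_integral (wS_cont ℓ β s i).measurable (wS_nonneg ℓ β s i) g3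
    (Xs_cont ℓ β s i).measurable (Continuous.aestronglyMeasurable (by fun_prop))]
  simp only [Pi.div_apply, Function.comp]
  rw [Complex.real_smul]
  have hc : ((cS ℓ β s i : ℝ) : ℂ) ≠ 0 := by
    have : 0 < cS ℓ β s i := by
      unfold cS
      have := Real.sqrt_pos.mpr g2
      positivity
    exact_mod_cast this.ne'
  have hm : ((∫ x, wS ℓ β s i x ∂(μ i) : ℝ) : ℂ) ≠ 0 := by exact_mod_cast g3.ne'
  rw [Complex.ofReal_mul (cS ℓ β s i), Complex.ofReal_inv]
  generalize ((cS ℓ β s i : ℝ) : ℂ) = c at hc ⊢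
  generalize ((∫ x, wS ℓ β s i x ∂(μ i) : ℝ) : ℂ) = m at hm ⊢
  generalize (∫ x, wS ℓ β s i x • Complex.exp (y * (Xs ℓ β s i x : ℝ) * Complex.I) ∂(μ i)) = II
  field_simp

/-- the real functional -/
def LR (μ : ι → Measure ℝ) (ℓ β s : ι → ℝ) (i : ι) (F : ℝ → ℝ) : ℝ :=
  cS ℓ β s i * ∫ x, Real.exp (β i * x) * F (Xs ℓ β s i x) ∂(μ i)

/-- **The limit for continuous functions.** -/
theorem lim_cont [𝓕.IsCountablyGenerated] (h : MG 𝓕 μ ℓ a) (hT : TS 𝓕 ℓ β s b) {A : ℝ} (hA : a b = (A : ℂ))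
    (hA0 : 0 < A) {F : ℝ → ℝ} (hF : Continuous F) {C : ℝ} (hFC : ∀ x, |F x| ≤ C * g0 x) :
    Tendsto (fun i => LR μ ℓ β s i F) 𝓕 (𝓝 (A / Real.sqrt (2 * Real.pi) * ∫ x, F x)) := by
  refine tendsto_of_seq_tendsto fun u hu => ?_
  set f : ℝ →ᵇ ℝ := BoundedContinuousFunction.ofNormedAddCommGroup (fun x => F x / g0 x)
    (hF.div g0_cont fun x => (g0_pos x).ne') C (fun x => by
      rw [norm_div, Real.norm_eq_abs, Real.norm_of_nonneg (g0_pos x).le, div_le_iff₀ (g0_pos x)]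
      exact hFC x) with hf
  have hfx : ∀ x, f x = F x / g0 x := fun x => rfl
  let μs : ℕ → ProbabilityMeasure ℝ := fun n => ⟨PS μ ℓ β s (u n), PS_prob h β s (u n)⟩
  let μ0 : ProbabilityMeasure ℝ := ⟨Pinf, inferInstance⟩
  have hw : Tendsto μs atTop (𝓝 μ0) := by
    refine ProbabilityMeasure.tendsto_of_tendsto_charFun fun y => ?_
    exact (PS_char h hT hA hA0 y).comp hu
  have h1 := (ProbabilityMeasure.tendsto_iff_forall_integral_tendsto.mp hw) f
  have h2 : Tendsto (fun n => ∫ x, f x ∂(PS μ ℓ β s (u n))) atTop (𝓝 (∫ x, f x ∂Pinf)) := h1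
  have h3 := ((lim_one h hT hA).comp hu).mul h2
  have e0 : ∫ x, f x ∂Pinf = (4 * Real.pi)⁻¹ * ∫ x, F x := by
    unfold Pinf
    rw [tilt_integral g0_cont.measurable (fun x => (g0_pos x).le) g0_mass_pos measurable_id
      f.continuous.aestronglyMeasurable, g0_mass, smul_eq_mul]
    congr 1
    refine integral_congr_ae (Eventually.of_forall fun x => ?_)
    simp only [id, smul_eq_mul, hfx]
    rw [mul_div_cancel₀ _ (g0_pos x).ne']
  have e1 : 2 * A * Real.sqrt (2 * Real.pi) * ∫ x, f x ∂Pinf = A / Real.sqrt (2 * Real.pi) * ∫ x, F x := by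
    rw [e0]
    have h5 : 0 < Real.sqrt (2 * Real.pi) := Real.sqrt_pos.mpr (by positivity)
    have h6 : (4 * Real.pi)⁻¹ = (2 * (Real.sqrt (2 * Real.pi) * Real.sqrt (2 * Real.pi)))⁻¹ := by
      rw [Real.mul_self_sqrt (by positivity)]
      congr 1; ring
    rw [h6]
    field_simp
  rw [e1] at h3
  refine h3.congr' ?_
  filter_upwards [hu.eventually (PS_ev h hT hA hA0)] with n ⟨g1, g2, g3⟩
  have e2 : PS μ ℓ β s (u n) = tilt (μ (u n)) (wS ℓ β s (u n)) (Xs ℓ β s (u n)) := by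
    unfold PS
    rw [if_pos g3]
  simp only [Function.comp]
  rw [e2, tilt_integral (wS_cont ℓ β s (u n)).measurable (wS_nonneg ℓ β s (u n)) g3 (Xs_cont ℓ β s (u n)).measurable
    f.continuous.aestronglyMeasurable, smul_eq_mul]
  have e3 : ∫ x, wS ℓ β s (u n) x • f (Xs ℓ β s (u n) x) ∂(μ (u n)) =
      ∫ x, Real.exp (β (u n) * x) * F (Xs ℓ β s (u n) x) ∂(μ (u n)) := by
    refine integral_congr_ae (Eventually.of_forall fun x => ?_)
    simp only [smul_eq_mul, hfx, wS]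
    have := (g0_pos (Xs ℓ β s (u n) x)).ne'
    field_simp
  rw [e3]
  unfold LR
  have hm := g3.ne'
  generalize (∫ x, wS ℓ β s (u n) x ∂(μ (u n))) = m at hm ⊢
  field_simp

lemma LR_mono (h : MG 𝓕 μ ℓ a) {i : ι} (hs : 0 < s i) {F G : ℝ → ℝ} (hFm : Measurable F) (hGm : Measurable G) {C : ℝ}
    (hF : ∀ x, |F x| ≤ C) (hG : ∀ x, |G x| ≤ C) (hFG : ∀ x, F x ≤ G x) : LR μ ℓ β s i F ≤ LR μ ℓ β s i G := by
  have hI : ∀ H : ℝ → ℝ, Measurable H → (∀ x, |H x| ≤ C) →
      Integrable (fun x => Real.exp (β i * x) * H (Xs ℓ β s i x)) (μ i) := by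
    intro H hH hb
    exact (h.int i (β i)).mul_bdd (c := C) (hH.comp (Xs_cont ℓ β s i).measurable).aestronglyMeasurable
      (Eventually.of_forall fun t => hb _)
  unfold LR
  refine mul_le_mul_of_nonneg_left ?_ (by unfold cS; positivity)
  refine integral_mono (hI F hFm hF) (hI G hGm hG) fun t => ?_
  exact mul_le_mul_of_nonneg_left (hFG _) (Real.exp_pos _).le

/-- **The limit for indicators.** -/
theorem lim_ind [𝓕.IsCountablyGenerated] (h : MG 𝓕 μ ℓ a) (hT : TS 𝓕 ℓ β s b) {A : ℝ} (hA : a b = (A : ℂ))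
    (hA0 : 0 < A) (α : ℝ) {ρ : ℝ → ℝ} (hρ : Continuous ρ) (h0 : volume {x | ρ x = 0} = 0)
    {C : ℝ} (hC : 0 ≤ C) (hb : ∀ x, -1 ≤ ρ x → Real.exp (-(2 * α * x)) ≤ C * g0 x) :
    Tendsto (fun i => LR μ ℓ β s i (Ei α ρ)) 𝓕 (𝓝 (A / Real.sqrt (2 * Real.pi) * ∫ x, Ei α ρ x)) := by
  set κ := A / Real.sqrt (2 * Real.pi) with hκ
  set E : ℝ → ℝ := fun x => Real.exp (-(2 * α * x)) with hE
  have hEc : Continuous E := by fun_prop
  have hE0 : ∀ x, 0 < E x := fun x => Real.exp_pos _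
  set P : ℕ → ℝ → ℝ := fun n x => E x * cl (1 + (n + 1) * ρ x) with hP
  set Q : ℕ → ℝ → ℝ := fun n x => E x * cl ((n + 1) * ρ x) with hQ
  have hPc : ∀ n, Continuous (P n) := fun n => hEc.mul (cl_cont.comp (by fun_prop))
  have hQc : ∀ n, Continuous (Q n) := fun n => hEc.mul (cl_cont.comp (by fun_prop))
  have hP0 : ∀ n x, 0 ≤ P n x := fun n x => mul_nonneg (hE0 x).le (cl_nonneg _)
  have hQ0 : ∀ n x, 0 ≤ Q n x := fun n x => mul_nonneg (hE0 x).le (cl_nonneg _)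
  have hg0 : ∀ x, 0 ≤ C * g0 x := fun x => mul_nonneg hC (g0_pos x).le
  have hPb : ∀ n x, |P n x| ≤ C * g0 x := by
    intro n x
    rw [abs_of_nonneg (hP0 n x)]
    by_cases hx : -1 ≤ ρ x
    · exact (mul_le_of_le_one_right (hE0 x).le (cl_le_one _)).trans (hb x hx)
    · push Not at hx
      have : 1 + (n + 1) * ρ x ≤ 0 := by
        have hn : (0:ℝ) ≤ n := Nat.cast_nonneg n
        nlinarith
      simp only [hP]
      rw [cl_zero this, mul_zero]
      exact hg0 x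
  have hQb : ∀ n x, |Q n x| ≤ C * g0 x := by
    intro n x
    rw [abs_of_nonneg (hQ0 n x)]
    by_cases hx : -1 ≤ ρ x
    · exact (mul_le_of_le_one_right (hE0 x).le (cl_le_one _)).trans (hb x hx)
    · push Not at hx
      have : (n + 1) * ρ x ≤ 0 := by
        have hn : (0:ℝ) ≤ n := Nat.cast_nonneg n
        nlinarith
      simp only [hQ]
      rw [cl_zero this, mul_zero]
      exact hg0 x
  have hEi0 : ∀ x, 0 ≤ Ei α ρ x := fun x => Set.indicator_nonneg (fun y _ => (hE0 y).le) x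
  have hQE : ∀ n x, Q n x ≤ Ei α ρ x := by
    intro n x
    by_cases hx : 0 ≤ ρ x
    · unfold Ei
      rw [Set.indicator_of_mem (show x ∈ {x | 0 ≤ ρ x} from hx)]
      exact mul_le_of_le_one_right (hE0 x).le (cl_le_one _)
    · push Not at hx
      have : (n + 1) * ρ x ≤ 0 := by
        have hn : (0:ℝ) ≤ n := Nat.cast_nonneg n
        nlinarith
      simp only [hQ]
      rw [cl_zero this, mul_zero]
      exact hEi0 x
  have hEP : ∀ n x, Ei α ρ x ≤ P n x := by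
    intro n x
    by_cases hx : 0 ≤ ρ x
    · unfold Ei
      rw [Set.indicator_of_mem (show x ∈ {x | 0 ≤ ρ x} from hx)]
      simp only [hP]
      rw [cl_one, mul_one]
      have hn : (0:ℝ) ≤ n := Nat.cast_nonneg n
      have : 0 ≤ (n + 1) * ρ x := by positivity
      linarith
    · unfold Ei
      rw [Set.indicator_of_notMem (show x ∉ {x | 0 ≤ ρ x} from hx)]
      exact hP0 n x
  have hEib : ∀ x, |Ei α ρ x| ≤ C * g0 x := by
    intro x
    rw [abs_of_nonneg (hEi0 x)]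
    exact (hEP 0 x).trans ((le_abs_self _).trans (hPb 0 x))
  have hmS : MeasurableSet {x | 0 ≤ ρ x} := measurableSet_le measurable_const hρ.measurable
  have hEim : Measurable (Ei α ρ) := by
    unfold Ei
    exact hEc.measurable.indicator hmS
  have hgi : Integrable fun x => C * g0 x := g0_int.const_mul C
  have hPl : Tendsto (fun n => ∫ x, P n x) atTop (𝓝 (∫ x, Ei α ρ x)) := by
    refine tendsto_integral_of_dominated_convergence (fun x => C * g0 x) (fun n => (hPc n).aestronglyMeasurable) hgi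
      (fun n => Eventually.of_forall fun x => hPb n x) (Eventually.of_forall fun x => ?_)
    by_cases hx : 0 ≤ ρ x
    · refine tendsto_const_nhds.congr fun n => ?_
      exact le_antisymm (hEP n x) (by
        unfold Ei
        rw [Set.indicator_of_mem (show x ∈ {x | 0 ≤ ρ x} from hx)]
        exact mul_le_of_le_one_right (hE0 x).le (cl_le_one _))
    · push Not at hx
      have e1 : Ei α ρ x = 0 := by
        unfold Ei
        rw [Set.indicator_of_notMem (show x ∉ {x | 0 ≤ ρ x} from not_le.mpr hx)]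
      rw [e1]
      refine tendsto_const_nhds.congr' ?_
      obtain ⟨N, hN⟩ := exists_nat_gt (1 / (-ρ x))
      filter_upwards [eventually_ge_atTop N] with n hn
      have h2 : (N:ℝ) ≤ n := by exact_mod_cast hn
      have h3 : 1 / (-ρ x) < (n:ℝ) + 1 := by linarith
      rw [div_lt_iff₀ (by linarith)] at h3
      simp only [hP]
      rw [cl_zero (by linarith), mul_zero]
  have hQl : Tendsto (fun n => ∫ x, Q n x) atTop (𝓝 (∫ x, Ei α ρ x)) := by
    refine tendsto_integral_of_dominated_convergence (fun x => C * g0 x) (fun n => (hQc n).aestronglyMeasurable) hgi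
      (fun n => Eventually.of_forall fun x => hQb n x) ?_
    have hae : ∀ᵐ x : ℝ, ρ x ≠ 0 := by
      rw [ae_iff]
      simpa using h0
    filter_upwards [hae] with x hx0
    rcases lt_or_gt_of_ne hx0 with hx | hx
    · have e1 : Ei α ρ x = 0 := by
        unfold Ei
        rw [Set.indicator_of_notMem (show x ∉ {x | 0 ≤ ρ x} from not_le.mpr hx)]
      rw [e1]
      refine tendsto_const_nhds.congr fun n => ?_
      have hn : (0:ℝ) ≤ n := Nat.cast_nonneg n
      simp only [hQ]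
      rw [cl_zero (by nlinarith), mul_zero]
    · have e1 : Ei α ρ x = E x := by
        unfold Ei
        rw [Set.indicator_of_mem (show x ∈ {x | 0 ≤ ρ x} from hx.le)]
      rw [e1]
      refine tendsto_const_nhds.congr' ?_
      obtain ⟨N, hN⟩ := exists_nat_gt (1 / ρ x)
      filter_upwards [eventually_ge_atTop N] with n hn
      have h2 : (N:ℝ) ≤ n := by exact_mod_cast hn
      have h3 : 1 / ρ x < (n:ℝ) + 1 := by linarith
      rw [div_lt_iff₀ hx] at h3
      simp only [hQ]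
      rw [cl_one h3.le, mul_one]
  obtain ⟨Cg, hCg, hgb⟩ := g0_bdd
  obtain ⟨c, hc0, hcs⟩ := hT.pos
  have hmono : ∀ᶠ i in 𝓕, ∀ n, LR μ ℓ β s i (Q n) ≤ LR μ ℓ β s i (Ei α ρ) ∧
      LR μ ℓ β s i (Ei α ρ) ≤ LR μ ℓ β s i (P n) := by
    filter_upwards [hcs] with i g1 n
    have hs0 : 0 < s i := lt_of_lt_of_le hc0 g1
    have hbb : ∀ {H : ℝ → ℝ}, (∀ x, |H x| ≤ C * g0 x) → ∀ x, |H x| ≤ C * Cg := fun hH x =>
      (hH x).trans (mul_le_mul_of_nonneg_left (hgb x) hC)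
    exact ⟨LR_mono h hs0 (hQc n).measurable hEim (hbb (hQb n)) (hbb hEib) (hQE n),
      LR_mono h hs0 hEim (hPc n).measurable (hbb hEib) (hbb (hPb n)) (hEP n)⟩
  refine tendsto_order.mpr ⟨fun a' ha => ?_, fun b' hb' => ?_⟩
  · have h1 := ((hQl.const_mul κ).eventually (lt_mem_nhds ha)).exists
    obtain ⟨n, hn⟩ := h1
    filter_upwards [(lim_cont h hT hA hA0 (hQc n) (hQb n)).eventually (lt_mem_nhds hn), hmono] with T g1 g2
    exact lt_of_lt_of_le g1 (g2 n).1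
  · have h1 := ((hPl.const_mul κ).eventually (gt_mem_nhds hb')).exists
    obtain ⟨n, hn⟩ := h1
    filter_upwards [(lim_cont h hT hA hA0 (hPc n) (hPb n)).eventually (gt_mem_nhds hn), hmono] with T g1 g2
    exact lt_of_le_of_lt (g2 n).2 g1

end

end Pool.Agent.X110.SD
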