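import Pool.Agent.X110.SD2

set_option autoImplicit false

/-! Precise deviations under mod-Gaussian convergence: tails and local limits. -/

namespace Pool.Agent.X110.SD

open Filter Topology MeasureTheory
open Pool.Agent.X110.LT

noncomputable section

variable {ι : Type*} {𝓕 : Filter ι} {μ : ι → Measure ℝ} {ℓ : ι → ℝ} {a : ℂ → ℂ} {β s : ι → ℝ} {b : ℝ}

/-- subfamilies -/
lemma MG.comp {κ : Type*} {𝓖 : Filter κ} (h : MG 𝓕 μ ℓ a) {σ : κ → ι} (hσ : Tendsto σ 𝓖 𝓕) :
    MG 𝓖 (fun k => μ (σ k)) (fun k => ℓ (σ k)) a := by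
  refine ⟨fun k => h.fin _, fun k => h.int _, fun k => h.cont _, fun z₀ => ?_, h.big.comp hσ⟩
  have h1 : Tendsto (fun q : ℂ × κ => (q.1, σ q.2)) (𝓝 z₀ ×ˢ 𝓖) (𝓝 z₀ ×ˢ 𝓕) :=
    tendsto_fst.prodMk (hσ.comp tendsto_snd)
  have h2 := Tendsto.comp (h.lim z₀) h1
  simpa only [Function.comp_def] using h2

/-- reflection -/
lemma MG.refl (h : MG 𝓕 μ ℓ a) : MG 𝓕 (fun i => (μ i).map fun x => -x) ℓ (fun z => a (-z)) := by
  have hm : ∀ i, AEMeasurable (fun x : ℝ => -x) (μ i) := fun i => measurable_neg.aemeasurable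
  have he : ∀ (i : ι) (z : ℂ), ∫ x : ℝ, Complex.exp (z * x) ∂((μ i).map fun x => -x) = ∫ x : ℝ, Complex.exp (-z * x) ∂(μ i) := by
    intro i z
    rw [integral_map (hm i) (Continuous.aestronglyMeasurable (by fun_prop))]
    refine integral_congr_ae (Eventually.of_forall fun x => ?_)
    simp only
    congr 1
    push_cast; ring
  refine ⟨fun i => ?_, fun i c => ?_, fun i => ?_, fun z₀ => ?_, h.big⟩
  · have := h.fin i
    infer_instance
  · rw [integrable_map_measure (Continuous.aestronglyMeasurable (by fun_prop)) (hm i)]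
    refine (h.int i (-c)).congr (Eventually.of_forall fun x => ?_)
    simp only [Function.comp]
    congr 1; ring
  · simp_rw [he]
    exact (h.cont i).comp continuous_neg
  · simp_rw [he]
    have h1 : Tendsto (fun q : ℂ × ι => (-q.1, q.2)) (𝓝 z₀ ×ˢ 𝓕) (𝓝 (-z₀) ×ˢ 𝓕) :=
      ((continuous_neg.tendsto z₀).comp tendsto_fst).prodMk tendsto_snd
    have h2 := Tendsto.comp (h.lim (-z₀)) h1
    simpa only [Function.comp_def, neg_sq] using h2

/-- the functional of a tilted indicator -/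
lemma LR_ind {i : ι} {α : ℝ} (hα : 2 * α = β i * s i) (hs : s i ≠ 0) {ρ : ℝ → ℝ} (hρ : Continuous ρ) :
    LR μ ℓ β s i (Ei α ρ) = Real.sqrt (ℓ i) / s i * Real.exp (ℓ i * β i ^ 2 / 2) *
      (μ i).real {x | 0 ≤ ρ (Xs ℓ β s i x)} := by
  have hmS : MeasurableSet {x | 0 ≤ ρ (Xs ℓ β s i x)} :=
    measurableSet_le measurable_const (hρ.measurable.comp (Xs_cont ℓ β s i).measurable)
  unfold LR cS
  have e1 : ∫ x, Real.exp (β i * x) * Ei α ρ (Xs ℓ β s i x) ∂(μ i) =
      ∫ x, Set.indicator {x | 0 ≤ ρ (Xs ℓ β s i x)} (fun _ => Real.exp (ℓ i * β i ^ 2)) x ∂(μ i) := by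
    refine integral_congr_ae (Eventually.of_forall fun x => ?_)
    simp only
    by_cases hx : 0 ≤ ρ (Xs ℓ β s i x)
    · unfold Ei
      rw [Set.indicator_of_mem (show Xs ℓ β s i x ∈ {x | 0 ≤ ρ x} from hx),
        Set.indicator_of_mem (show x ∈ {x | 0 ≤ ρ (Xs ℓ β s i x)} from hx), ← Real.exp_add]
      congr 1
      rw [hα]
      unfold Xs
      field_simp
      ring
    · unfold Ei
      rw [Set.indicator_of_notMem (show Xs ℓ β s i x ∉ {x | 0 ≤ ρ x} from hx),
        Set.indicator_of_notMem (show x ∉ {x | 0 ≤ ρ (Xs ℓ β s i x)} from hx), mul_zero]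
  rw [e1, integral_indicator hmS, setIntegral_const, smul_eq_mul]
  have e2 : Real.exp (ℓ i * β i ^ 2 / 2) = Real.exp (-(ℓ i * β i ^ 2 / 2)) * Real.exp (ℓ i * β i ^ 2) := by
    rw [← Real.exp_add]
    congr 1; ring
  rw [e2]
  ring

/-- **Tails**: moderate and large deviations in one. -/
theorem tail [𝓕.IsCountablyGenerated] (h : MG 𝓕 μ ℓ a) (hβ : Tendsto β 𝓕 (𝓝 b)) (hpos : ∀ᶠ i in 𝓕, 0 < β i)
    (hbig : Tendsto (fun i => β i * Real.sqrt (ℓ i)) 𝓕 atTop) {A : ℝ} (hA : a b = (A : ℂ)) (hA0 : 0 < A) :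
    Tendsto (fun i => β i * Real.sqrt (ℓ i) * Real.exp (ℓ i * β i ^ 2 / 2) * (μ i).real (Set.Ici (β i * ℓ i))) 𝓕
      (𝓝 (A / Real.sqrt (2 * Real.pi))) := by
  have hT : TS 𝓕 ℓ β (fun i => 1 / β i) b := by
    refine ⟨hβ, ⟨1 / (|b| + 1), by positivity, ?_⟩, ?_⟩
    · filter_upwards [hpos, hβ.abs.eventually (gt_mem_nhds (lt_add_one |b|))] with i g1 g2
      rw [abs_of_pos g1] at g2
      exact one_div_le_one_div_of_le g1 g2.le
    · refine (tendsto_inv_atTop_zero.comp hbig).congr fun i => ?_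
      simp only [Function.comp]
      rw [mul_inv, one_div, div_eq_mul_inv]
  obtain ⟨C, hC, hb⟩ := exp_le_g0_right (α := 1 / 2) (by norm_num) (-1)
  have h0 : volume {x : ℝ | (fun x => x) x = 0} = 0 := by
    refine measure_mono_null (t := {(0:ℝ)}) (fun x hx => ?_) (by simp)
    exact hx
  have hlim := lim_ind h hT hA hA0 (1 / 2) (ρ := fun x => x) continuous_id h0 hC hb
  have hint : ∫ x, Ei (1 / 2) (fun x => x) x = 1 := by
    have hset : {x : ℝ | 0 ≤ x} = Set.Ici 0 := rfl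
    have e1 : ∫ x, Ei (1 / 2) (fun x => x) x = ∫ x in Set.Ici (0:ℝ), Real.exp (-(2 * (1 / 2) * x)) := by
      rw [← integral_indicator measurableSet_Ici, ← hset]
      rfl
    rw [e1, integral_Ici_eq_integral_Ioi]
    have e2 : ∫ x in Set.Ioi (0:ℝ), Real.exp (-(2 * (1 / 2) * x)) = ∫ x in Set.Ioi (0:ℝ), Real.exp (-x) := by
      refine setIntegral_congr_fun measurableSet_Ioi fun x _ => ?_
      congr 1; ring
    rw [e2, integral_exp_neg_Ioi_zero]
  rw [hint, mul_one] at hlim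
  refine hlim.congr' ?_
  filter_upwards [hpos] with i g1
  rw [LR_ind (ρ := fun x => x) (by field_simp) (by positivity) continuous_id]
  have e3 : {x : ℝ | 0 ≤ Xs ℓ β (fun i => 1 / β i) i x} = Set.Ici (β i * ℓ i) := by
    ext x
    simp only [Set.mem_ofPred_eq, Set.mem_Ici, Xs, one_div, div_inv_eq_mul]
    rw [mul_nonneg_iff_of_pos_right g1, sub_nonneg]
  rw [e3, one_div, div_inv_eq_mul]
  ring

lemma TS_one (h : MG 𝓕 μ ℓ a) (hβ : Tendsto β 𝓕 (𝓝 b)) : TS 𝓕 ℓ β (fun _ => 1) b :=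
  ⟨hβ, ⟨1, one_pos, Eventually.of_forall fun _ => le_rfl⟩, tendsto_const_nhds.div_atTop (sqrt_big h.big)⟩

/-- **Local limits**. -/
theorem loc [𝓕.IsCountablyGenerated] (h : MG 𝓕 μ ℓ a) (hβ : Tendsto β 𝓕 (𝓝 b)) {A : ℝ} (hA : a b = (A : ℂ))
    (hA0 : 0 < A) {u v : ℝ} (huv : u ≤ v) :
    Tendsto (fun i => Real.sqrt (ℓ i) * Real.exp (ℓ i * β i ^ 2 / 2) *
      (μ i).real (Set.Icc (β i * ℓ i + u) (β i * ℓ i + v))) 𝓕
      (𝓝 (A / Real.sqrt (2 * Real.pi) * ∫ x in u..v, Real.exp (-(b * x)))) := by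
  have hT := TS_one h hβ
  set ρ : ℝ → ℝ := fun x => min (x - u) (v - x) with hρ
  have hρc : Continuous ρ := by fun_prop
  have h0 : volume {x | ρ x = 0} = 0 := by
    refine measure_mono_null (t := {u, v}) (fun x hx => ?_) (Set.Finite.measure_zero (by simp) _)
    simp only [Set.mem_insert_iff, Set.mem_singleton_iff]
    have hx' : min (x - u) (v - x) = 0 := hx
    rcases min_choice (x - u) (v - x) with h | h
    · left; linarith
    · right; linarith
  set M : ℝ := |u| + |v| + 1 with hM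
  have hM0 : 0 ≤ M := by positivity
  have hin : ∀ x, -1 ≤ ρ x → |x| ≤ M := by
    intro x hx
    have e1 : -1 ≤ x - u := hx.trans (min_le_left _ _)
    have e2 : -1 ≤ v - x := hx.trans (min_le_right _ _)
    have e3 := neg_abs_le u
    have e4 := le_abs_self v
    have e5 := abs_nonneg u
    have e6 := abs_nonneg v
    rw [abs_le]; constructor <;> linarith
  obtain ⟨C, hC, hb⟩ := exp_le_g0_of_abs (b / 2) M hM0
  have hlim := lim_ind h hT hA hA0 (b / 2) hρc h0 hC (fun x hx => hb x (hin x hx))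
  have hset : {x | 0 ≤ ρ x} = Set.Icc u v := by
    ext x
    simp only [Set.mem_ofPred_eq, Set.mem_Icc, hρ, le_min_iff, sub_nonneg]
  have hint : ∫ x, Ei (b / 2) ρ x = ∫ x in u..v, Real.exp (-(b * x)) := by
    have e1 : ∫ x, Ei (b / 2) ρ x = ∫ x in Set.Icc u v, Real.exp (-(2 * (b / 2) * x)) := by
      rw [← integral_indicator measurableSet_Icc, ← hset]
      rfl
    rw [e1, integral_Icc_eq_integral_Ioc, ← intervalIntegral.integral_of_le huv]
    refine intervalIntegral.integral_congr fun x _ => ?_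
    congr 1; ring
  rw [hint] at hlim
  -- comparison
  set R : ι → ℝ := fun i => Real.sqrt (ℓ i) * Real.exp (ℓ i * β i ^ 2 / 2) *
      (μ i).real (Set.Icc (β i * ℓ i + u) (β i * ℓ i + v)) with hR
  have hS : ∀ i, {x | 0 ≤ ρ (Xs ℓ β (fun _ => 1) i x)} = Set.Icc (β i * ℓ i + u) (β i * ℓ i + v) := by
    intro i
    ext x
    have : Xs ℓ β (fun _ => 1) i x ∈ Set.Icc u v ↔ x ∈ Set.Icc (β i * ℓ i + u) (β i * ℓ i + v) := by
      simp only [Xs, div_one, Set.mem_Icc]
      constructor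
      · rintro ⟨h1, h2⟩; constructor <;> linarith
      · rintro ⟨h1, h2⟩; constructor <;> linarith
    rw [← this, ← hset]
    rfl
  have hcmp : ∀ i, Real.exp (-(|β i - b| * M)) * R i ≤ LR μ ℓ β (fun _ => 1) i (Ei (b / 2) ρ) ∧
      LR μ ℓ β (fun _ => 1) i (Ei (b / 2) ρ) ≤ Real.exp (|β i - b| * M) * R i := by
    intro i
    have := h.fin i
    set D := Real.sqrt (ℓ i) * Real.exp (-(ℓ i * β i ^ 2 / 2)) with hD
    have hD0 : 0 ≤ D := by positivity
    have e1 : LR μ ℓ β (fun _ => 1) i (Ei (b / 2) ρ) = D * ∫ x in Set.Icc (β i * ℓ i + u) (β i * ℓ i + v),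
        Real.exp (ℓ i * β i ^ 2) * Real.exp ((β i - b) * (x - β i * ℓ i)) ∂(μ i) := by
      unfold LR cS
      rw [div_one, ← integral_indicator measurableSet_Icc, ← hS i]
      congr 1
      refine integral_congr_ae (Eventually.of_forall fun x => ?_)
      simp only
      by_cases hx : 0 ≤ ρ (Xs ℓ β (fun _ => 1) i x)
      · unfold Ei
        rw [Set.indicator_of_mem (show Xs ℓ β (fun _ => 1) i x ∈ {x | 0 ≤ ρ x} from hx),
          Set.indicator_of_mem (show x ∈ {x | 0 ≤ ρ (Xs ℓ β (fun _ => 1) i x)} from hx), ← Real.exp_add, ← Real.exp_add]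
        congr 1
        unfold Xs
        ring
      · unfold Ei
        rw [Set.indicator_of_notMem (show Xs ℓ β (fun _ => 1) i x ∉ {x | 0 ≤ ρ x} from hx),
          Set.indicator_of_notMem (show x ∉ {x | 0 ≤ ρ (Xs ℓ β (fun _ => 1) i x)} from hx), mul_zero]
    have e2 : R i = D * (Real.exp (ℓ i * β i ^ 2) * (μ i).real (Set.Icc (β i * ℓ i + u) (β i * ℓ i + v))) := by
      have : Real.exp (ℓ i * β i ^ 2 / 2) = Real.exp (-(ℓ i * β i ^ 2 / 2)) * Real.exp (ℓ i * β i ^ 2) := by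
        rw [← Real.exp_add]
        congr 1; ring
      simp only [hR, hD]
      rw [this]; ring
    have hxb : ∀ x ∈ Set.Icc (β i * ℓ i + u) (β i * ℓ i + v), |(β i - b) * (x - β i * ℓ i)| ≤ |β i - b| * M := by
      intro x hx
      rw [abs_mul]
      refine mul_le_mul_of_nonneg_left ?_ (abs_nonneg _)
      have e3 := neg_abs_le u
      have e4 := le_abs_self v
      have e5 := abs_nonneg u
      have e6 := abs_nonneg v
      rw [abs_le]
      constructor <;> linarith [hx.1, hx.2]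
    have hc : Continuous fun x : ℝ => Real.exp (ℓ i * β i ^ 2) * Real.exp ((β i - b) * (x - β i * ℓ i)) := by fun_prop
    have hi : IntegrableOn (fun x : ℝ => Real.exp (ℓ i * β i ^ 2) * Real.exp ((β i - b) * (x - β i * ℓ i)))
        (Set.Icc (β i * ℓ i + u) (β i * ℓ i + v)) (μ i) := hc.integrableOn_Icc
    have hconst : ∀ c : ℝ, ∫ x in Set.Icc (β i * ℓ i + u) (β i * ℓ i + v), c ∂(μ i) =
        c * (μ i).real (Set.Icc (β i * ℓ i + u) (β i * ℓ i + v)) := by
      intro c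
      rw [setIntegral_const, smul_eq_mul, mul_comm]
    have hci : ∀ c : ℝ, IntegrableOn (fun _ : ℝ => c) (Set.Icc (β i * ℓ i + u) (β i * ℓ i + v)) (μ i) := fun c =>
      integrableOn_const
    have l1 : Real.exp (ℓ i * β i ^ 2) * Real.exp (-(|β i - b| * M)) * (μ i).real (Set.Icc (β i * ℓ i + u) (β i * ℓ i + v)) ≤
        ∫ x in Set.Icc (β i * ℓ i + u) (β i * ℓ i + v),
        Real.exp (ℓ i * β i ^ 2) * Real.exp ((β i - b) * (x - β i * ℓ i)) ∂(μ i) := by
      rw [← hconst]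
      refine setIntegral_mono_on (hci _) hi measurableSet_Icc fun x hx => ?_
      refine mul_le_mul_of_nonneg_left (Real.exp_le_exp.mpr ?_) (Real.exp_pos _).le
      exact (abs_le.mp (hxb x hx)).1
    have l2 : ∫ x in Set.Icc (β i * ℓ i + u) (β i * ℓ i + v),
        Real.exp (ℓ i * β i ^ 2) * Real.exp ((β i - b) * (x - β i * ℓ i)) ∂(μ i) ≤
        Real.exp (ℓ i * β i ^ 2) * Real.exp (|β i - b| * M) * (μ i).real (Set.Icc (β i * ℓ i + u) (β i * ℓ i + v)) := by
      rw [← hconst]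
      refine setIntegral_mono_on hi (hci _) measurableSet_Icc fun x hx => ?_
      refine mul_le_mul_of_nonneg_left (Real.exp_le_exp.mpr ?_) (Real.exp_pos _).le
      exact (abs_le.mp (hxb x hx)).2
    rw [e1, e2]
    constructor
    · calc _ = D * (Real.exp (ℓ i * β i ^ 2) * Real.exp (-(|β i - b| * M)) *
            (μ i).real (Set.Icc (β i * ℓ i + u) (β i * ℓ i + v))) := by ring
        _ ≤ _ := mul_le_mul_of_nonneg_left l1 hD0
    · calc _ ≤ D * (Real.exp (ℓ i * β i ^ 2) * Real.exp (|β i - b| * M) *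
            (μ i).real (Set.Icc (β i * ℓ i + u) (β i * ℓ i + v))) := mul_le_mul_of_nonneg_left l2 hD0
        _ = _ := by ring
  have hd : Tendsto (fun i => |β i - b| * M) 𝓕 (𝓝 0) := by
    have := ((hβ.sub_const b).abs.mul_const M)
    simpa using this
  have hlo : Tendsto (fun i => Real.exp (-(|β i - b| * M)) * LR μ ℓ β (fun _ => 1) i (Ei (b / 2) ρ)) 𝓕
      (𝓝 (A / Real.sqrt (2 * Real.pi) * ∫ x in u..v, Real.exp (-(b * x)))) := by
    have h1 := (Real.continuous_exp.tendsto _).comp hd.neg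
    have h2 := h1.mul hlim
    simpa using h2
  have hhi : Tendsto (fun i => Real.exp (|β i - b| * M) * LR μ ℓ β (fun _ => 1) i (Ei (b / 2) ρ)) 𝓕
      (𝓝 (A / Real.sqrt (2 * Real.pi) * ∫ x in u..v, Real.exp (-(b * x)))) := by
    have h1 := (Real.continuous_exp.tendsto _).comp hd
    have h2 := h1.mul hlim
    simpa using h2
  refine tendsto_of_tendsto_of_tendsto_of_le_of_le hlo hhi (fun i => ?_) (fun i => ?_)
  · have h1 := (hcmp i).2
    have hE := Real.exp_pos (|β i - b| * M)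
    rw [Real.exp_neg]
    calc (Real.exp (|β i - b| * M))⁻¹ * LR μ ℓ β (fun _ => 1) i (Ei (b / 2) ρ) ≤
          (Real.exp (|β i - b| * M))⁻¹ * (Real.exp (|β i - b| * M) * R i) := by gcongr
      _ = R i := by field_simp
  · have h1 := (hcmp i).1
    have hE := Real.exp_pos (|β i - b| * M)
    rw [Real.exp_neg] at h1
    calc R i = Real.exp (|β i - b| * M) * ((Real.exp (|β i - b| * M))⁻¹ * R i) := by field_simp
      _ ≤ _ := by gcongr

end

end Pool.Agent.X110.SD
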