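import Pool.Agent.TH818.SA.Sub

/-!
# From simultaneous approximation to the distance to rational planes
-/

set_option autoImplicit false

open Finset

namespace Pool.Agent.X110.SP

/-- the common denominator of a family of rational approximations -/
def dn {d : ℕ} (r0 : ℚ) (r : Fin d → ℚ) : ℕ := r0.den * ∏ i, (r i).den

lemma dn_pos {d : ℕ} (r0 : ℚ) (r : Fin d → ℚ) : 1 ≤ dn r0 r :=
  Nat.one_le_iff_ne_zero.2 (Nat.mul_ne_zero r0.den_nz (Finset.prod_ne_zero_iff.2 fun i _ => (r i).den_nz))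

lemma dn_le {d : ℕ} {H : ℕ} {r0 : ℚ} {r : Fin d → ℚ} (h0 : r0.den ≤ H) (h : ∀ i, (r i).den ≤ H) :
    dn r0 r ≤ H ^ (d + 1) := by
  unfold dn
  rw [pow_succ, mul_comm]
  refine Nat.mul_le_mul ?_ h0
  calc ∏ i, (r i).den ≤ ∏ _i : Fin d, H := Finset.prod_le_prod' fun i _ => h i
    _ = H ^ d := by simp

lemma dn_int0 {d : ℕ} (r0 : ℚ) (r : Fin d → ℚ) (q : ℕ) (hq : dn r0 r ∣ q) : ∃ k : ℤ, (q : ℚ) * r0 = k := by
  obtain ⟨e, he⟩ := (Dvd.intro _ rfl : r0.den ∣ dn r0 r).trans hq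
  refine ⟨e * r0.num, ?_⟩
  rw [he]
  push_cast
  rw [← Rat.den_mul_eq_num r0]
  ring

lemma dn_int {d : ℕ} (r0 : ℚ) (r : Fin d → ℚ) (q : ℕ) (hq : dn r0 r ∣ q) (i : Fin d) :
    ∃ k : ℤ, (q : ℚ) * r i = k := by
  have h1 : (r i).den ∣ dn r0 r := (Finset.dvd_prod_of_mem (fun i => (r i).den) (Finset.mem_univ i)).trans
    (Dvd.intro_left _ rfl)
  obtain ⟨e, he⟩ := h1.trans hq
  refine ⟨e * (r i).num, ?_⟩
  rw [he]
  push_cast
  rw [← Rat.den_mul_eq_num (r i)]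
  ring

/-- the powers -/
lemma pow_ineq (d : ℕ) (G : ℝ) (hG : 1 ≤ G) :
    G ^ (3 : ℕ) / G ^ (3 * d + 5) ≤ (G ^ (2 + d * (3 * d + 5))) ^ (-(1 / ((d : ℝ) + 1))) := by
  have hG0 : 0 < G := by linarith
  have e1 : G ^ (3 : ℕ) / G ^ (3 * d + 5) = G ^ (-(3 * (d : ℝ) + 2)) := by
    rw [Real.rpow_neg hG0.le, eq_comm, inv_eq_iff_eq_inv, inv_div, eq_div_iff (by positivity)]
    have : G ^ (3 * (d : ℝ) + 2) = G ^ (3 * d + 2) := by
      rw [← Real.rpow_natCast]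
      push_cast
      rfl
    rw [this, ← pow_add]
  have e2 : (G ^ (2 + d * (3 * d + 5))) ^ (-(1 / ((d : ℝ) + 1))) = G ^ (-(3 * (d : ℝ) + 2)) := by
    rw [← Real.rpow_natCast, ← Real.rpow_mul hG0.le]
    congr 1
    push_cast
    field_simp
    ring
  rw [e1, e2]

/-- **Distance to rational planes** -/
theorem planes (x : ℕ → ℝ) (W : Finset ℕ) (K d N : ℕ) (hN : W.card ≤ N) (q0 : ℕ)
    (h : ∀ q : ℕ, q0 ≤ q → K ≤ Set.ncard {j : ℕ | j ∈ W ∧ ∀ p : ℤ,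
      (q : ℝ) ^ (-(1 / ((d : ℝ) + 1))) ≤ |(q : ℝ) * x j - p|}) :
    ∃ H0 : ℕ, ∀ H : ℕ, H0 ≤ H → ∀ θ : Fin d → ℝ,
      K ≤ Set.ncard {j : ℕ | j ∈ W ∧ ∀ (r0 : ℚ) (r : Fin d → ℚ), r0.den ≤ H →
        (∀ i, |(r i).num| ≤ H ∧ (r i).den ≤ H) →
        1 / (H : ℝ) ^ (6 * (d + 1) ^ 2 * ((d + 1) * N + 1)) ≤ |x j - ((r0 : ℝ) + ∑ i, (r i : ℝ) * θ i)|} := by
  classical
  refine ⟨q0 + 2 * d + 2, fun H hH θ => ?_⟩
  have hH2 : 2 ≤ H := by omega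
  have hH1 : (1 : ℝ) ≤ H := by exact_mod_cast (by omega : 1 ≤ H)
  have hH0 : (0 : ℝ) < H := by linarith
  -- the approximations
  have hex : ∀ j : ℕ, ∃ (r0 : ℚ) (r : Fin d → ℚ), r0.den ≤ H ∧ (∀ i, |(r i).num| ≤ H ∧ (r i).den ≤ H) ∧
      ((¬ ∀ (r0 : ℚ) (r : Fin d → ℚ), r0.den ≤ H → (∀ i, |(r i).num| ≤ H ∧ (r i).den ≤ H) →
        1 / (H : ℝ) ^ (6 * (d + 1) ^ 2 * ((d + 1) * N + 1)) ≤ |x j - ((r0 : ℝ) + ∑ i, (r i : ℝ) * θ i)|) →
        |x j - ((r0 : ℝ) + ∑ i, (r i : ℝ) * θ i)| < 1 / (H : ℝ) ^ (6 * (d + 1) ^ 2 * ((d + 1) * N + 1))) := by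
    intro j
    by_cases hj : ∀ (r0 : ℚ) (r : Fin d → ℚ), r0.den ≤ H → (∀ i, |(r i).num| ≤ H ∧ (r i).den ≤ H) →
        1 / (H : ℝ) ^ (6 * (d + 1) ^ 2 * ((d + 1) * N + 1)) ≤ |x j - ((r0 : ℝ) + ∑ i, (r i : ℝ) * θ i)|
    · refine ⟨0, fun _ => 0, ?_, fun i => ?_, fun hn => absurd hj hn⟩
      · rw [Rat.den_zero]; omega
      · rw [Rat.num_zero, Rat.den_zero]
        constructor
        · simp
        · omega
    · have hj' := hj
      push Not at hj'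
      obtain ⟨r0, r, h1, h2, h3⟩ := hj'
      exact ⟨r0, r, h1, h2, fun _ => h3⟩
  choose r0 r hr0 hr hbad using hex
  -- the common denominator
  obtain ⟨q, hq⟩ : ∃ q : ℕ, q = ∏ j ∈ W, dn (r0 j) (r j) := ⟨_, rfl⟩
  have hq1 : 1 ≤ q := by
    rw [hq]
    exact Nat.one_le_iff_ne_zero.2 (Finset.prod_ne_zero_iff.2 fun j _ => by
      have := dn_pos (r0 j) (r j); omega)
  have hqle : q ≤ H ^ ((d + 1) * N) := by
    rw [hq]
    calc ∏ j ∈ W, dn (r0 j) (r j) ≤ ∏ _j ∈ W, H ^ (d + 1) :=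
          Finset.prod_le_prod' fun j _ => dn_le (hr0 j) fun i => (hr j i).2
      _ = H ^ ((d + 1) * W.card) := by rw [Finset.prod_const, ← pow_mul]
      _ ≤ _ := Nat.pow_le_pow_right (by omega) (Nat.mul_le_mul_left _ hN)
  obtain ⟨G, hG⟩ : ∃ G : ℕ, G = H ^ ((d + 1) * N + 1) := ⟨_, rfl⟩
  have hHG : H ≤ G := by
    rw [hG, pow_succ]
    calc H = 1 * H := (one_mul _).symm
      _ ≤ H ^ ((d + 1) * N) * H := Nat.mul_le_mul_right _ (Nat.one_le_pow _ _ (by omega))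
  have hG1 : (1 : ℝ) ≤ G := by exact_mod_cast (by omega : 1 ≤ G)
  have hG0 : (0 : ℝ) < G := by linarith
  have hqG : q * H ≤ G := by
    rw [hG, pow_succ]
    exact Nat.mul_le_mul_right _ hqle
  have hqG' : q ≤ G := by
    calc q = q * 1 := (mul_one _).symm
      _ ≤ q * H := Nat.mul_le_mul_left _ (by omega)
      _ ≤ G := hqG
  -- Dirichlet
  obtain ⟨Q, hQ⟩ : ∃ Q : ℕ, Q = G ^ (3 * d + 5) := ⟨_, rfl⟩
  have hQ1 : 1 ≤ Q := by rw [hQ]; exact Nat.one_le_pow _ _ (by omega)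
  have hQr : (0 : ℝ) < Q := by exact_mod_cast hQ1
  obtain ⟨m, hm1, hm2, hm3⟩ := Pool.Agent.TH818.SA.dirichlet_sim d θ Q hQ1
  choose n hn using hm3
  obtain ⟨q1, hq1'⟩ : ∃ q1 : ℕ, q1 = q0 + 1 := ⟨_, rfl⟩
  obtain ⟨M, hM⟩ : ∃ M : ℕ, M = q1 * m * q := ⟨_, rfl⟩
  have hMq0 : q0 ≤ M := by
    rw [hM]
    have : (q0 + 1) * 1 * 1 ≤ q1 * m * q := by
      rw [hq1']
      exact Nat.mul_le_mul (Nat.mul_le_mul_left _ hm1) hq1
    omega
  have hM1 : 1 ≤ M := by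
    rw [hM]
    exact Nat.mul_pos (Nat.mul_pos (by omega) hm1) hq1
  have hMr : (0 : ℝ) < M := by exact_mod_cast hM1
  have hMle : M ≤ G ^ (2 + d * (3 * d + 5)) := by
    rw [hM]
    calc q1 * m * q ≤ G * Q ^ d * G :=
          Nat.mul_le_mul (Nat.mul_le_mul (by omega) hm2) hqG'
      _ = G ^ (2 + d * (3 * d + 5)) := by rw [hQ]; ring
  -- the size
  have hlow : (G : ℝ) ^ (3 : ℕ) / (G : ℝ) ^ (3 * d + 5) ≤ (M : ℝ) ^ (-(1 / ((d : ℝ) + 1))) := by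
    refine (pow_ineq d G hG1).trans ?_
    have h1 : (M : ℝ) ≤ (G : ℝ) ^ (2 + d * (3 * d + 5)) := by exact_mod_cast hMle
    have h2 : (0 : ℝ) ≤ 1 / ((d : ℝ) + 1) := by positivity
    rw [Real.rpow_neg (by positivity), Real.rpow_neg hMr.le]
    exact inv_anti₀ (Real.rpow_pos_of_pos hMr _) (Real.rpow_le_rpow hMr.le h1 h2)
  refine (h M hMq0).trans ?_
  have hfin : {j : ℕ | j ∈ W ∧ ∀ (r0 : ℚ) (r : Fin d → ℚ), r0.den ≤ H →
        (∀ i, |(r i).num| ≤ H ∧ (r i).den ≤ H) →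
        1 / (H : ℝ) ^ (6 * (d + 1) ^ 2 * ((d + 1) * N + 1)) ≤
          |x j - ((r0 : ℝ) + ∑ i, (r i : ℝ) * θ i)|}.Finite :=
    W.finite_toSet.subset fun j hj => hj.1
  refine Set.ncard_le_ncard ?_ hfin
  rintro j ⟨hjW, hj⟩
  refine ⟨hjW, ?_⟩
  by_contra hcon
  have hb := hbad j hcon
  have hdvd : dn (r0 j) (r j) ∣ q := by
    rw [hq]
    exact Finset.dvd_prod_of_mem _ hjW
  obtain ⟨k0, hk0⟩ := dn_int0 (r0 j) (r j) q hdvd
  choose k hk using dn_int (r0 j) (r j) q hdvd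
  have hk0r : (q : ℝ) * (r0 j : ℝ) = k0 := by exact_mod_cast congrArg (fun z : ℚ => (z : ℝ)) hk0
  have hkr : ∀ i, (q : ℝ) * (r j i : ℝ) = k i := fun i => by
    exact_mod_cast congrArg (fun z : ℚ => (z : ℝ)) (hk i)
  -- the size of the integers
  have hksize : ∀ i, |(k i : ℝ)| ≤ G := by
    intro i
    rw [← hkr i, abs_mul, abs_of_nonneg (by positivity : (0 : ℝ) ≤ q)]
    have h1 : |(r j i : ℝ)| ≤ H := by
      have h2 : |(r j i : ℚ)| ≤ |((r j i).num : ℚ)| := by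
        rw [← Rat.den_mul_eq_num (r j i), abs_mul]
        have : (1 : ℚ) ≤ |(((r j i).den : ℕ) : ℚ)| := by
          rw [abs_of_nonneg (by positivity)]
          exact_mod_cast (r j i).den_pos
        nlinarith [abs_nonneg (r j i : ℚ)]
      have h3 : |((r j i).num : ℚ)| ≤ H := by exact_mod_cast (hr j i).1
      exact_mod_cast h2.trans h3
    calc (q : ℝ) * |(r j i : ℝ)| ≤ q * H := mul_le_mul_of_nonneg_left h1 (by positivity)
      _ ≤ G := by exact_mod_cast hqG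
  -- the integer
  have h5 := hj (q1 * m * k0 + ∑ i, q1 * (k i * n i))
  have e1 : (M : ℝ) * x j - ((q1 * m * k0 + ∑ i, q1 * (k i * n i) : ℤ) : ℝ) =
      M * (x j - ((r0 j : ℝ) + ∑ i, (r j i : ℝ) * θ i)) + q1 * ∑ i, (k i : ℝ) * ((m : ℝ) * θ i - n i) := by
    rw [hM]
    push_cast
    rw [← hk0r]
    have e2 : ∀ i, (k i : ℝ) * ((m : ℝ) * θ i - n i) = q * (r j i : ℝ) * m * θ i - k i * n i := by
      intro i
      rw [← hkr i]
      ring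
    rw [Finset.sum_congr rfl fun i _ => e2 i, Finset.sum_sub_distrib]
    have e3 : ∑ i, (q : ℝ) * (r j i : ℝ) * m * θ i = q * m * ∑ i, (r j i : ℝ) * θ i := by
      rw [Finset.mul_sum]
      exact Finset.sum_congr rfl fun i _ => by ring
    have e4 : ∑ i, (q1 : ℝ) * ((k i : ℝ) * n i) = q1 * ∑ i, (k i : ℝ) * n i := by rw [Finset.mul_sum]
    rw [e3, e4]
    ring
  rw [e1] at h5
  -- the two errors
  have hE1 : |(M : ℝ) * (x j - ((r0 j : ℝ) + ∑ i, (r j i : ℝ) * θ i))| <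
      (1 / 2) * ((G : ℝ) ^ (3 : ℕ) / (G : ℝ) ^ (3 * d + 5)) := by
    rw [abs_mul, abs_of_pos hMr]
    have h6 : (H : ℝ) ^ (6 * (d + 1) ^ 2 * ((d + 1) * N + 1)) = (G : ℝ) ^ (6 * (d + 1) ^ 2) := by
      rw [hG]
      push_cast
      rw [← pow_mul]
      congr 1
      ring
    rw [h6] at hb
    have h7 : (M : ℝ) ≤ (G : ℝ) ^ (2 + d * (3 * d + 5)) := by exact_mod_cast hMle
    have h8 : (2 : ℝ) ≤ G := by exact_mod_cast (by omega : 2 ≤ G)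
    calc (M : ℝ) * |x j - ((r0 j : ℝ) + ∑ i, (r j i : ℝ) * θ i)|
        < M * (1 / (G : ℝ) ^ (6 * (d + 1) ^ 2)) := mul_lt_mul_of_pos_left hb hMr
      _ ≤ (G : ℝ) ^ (2 + d * (3 * d + 5)) * (1 / (G : ℝ) ^ (6 * (d + 1) ^ 2)) :=
          mul_le_mul_of_nonneg_right h7 (by positivity)
      _ ≤ (1 / 2) * ((G : ℝ) ^ (3 : ℕ) / (G : ℝ) ^ (3 * d + 5)) := by
          have h9 : (G : ℝ) ^ (2 + d * (3 * d + 5) + (3 * d + 5)) * 2 ≤
              (G : ℝ) ^ (2 + d * (3 * d + 5) + (3 * d + 5)) * G :=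
            mul_le_mul_of_nonneg_left h8 (by positivity)
          have h10 : (G : ℝ) ^ (2 + d * (3 * d + 5) + (3 * d + 5)) * G ≤ (G : ℝ) ^ (3 + 6 * (d + 1) ^ 2) := by
            rw [← pow_succ]
            apply pow_le_pow_right₀ hG1
            nlinarith
          have h11 : (G : ℝ) ^ (2 + d * (3 * d + 5)) * (G : ℝ) ^ (3 * d + 5) * 2 ≤
              (G : ℝ) ^ (3 : ℕ) * (G : ℝ) ^ (6 * (d + 1) ^ 2) := by
            rw [← pow_add, ← pow_add]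
            exact h9.trans h10
          have e5 : (1 / 2 : ℝ) * ((G : ℝ) ^ (3 : ℕ) / (G : ℝ) ^ (3 * d + 5)) =
              (G : ℝ) ^ (3 : ℕ) / (2 * (G : ℝ) ^ (3 * d + 5)) := by
            field_simp
          rw [mul_one_div, e5, div_le_div_iff₀ (by positivity) (by positivity)]
          linarith
  have hE2 : |(q1 : ℝ) * ∑ i, (k i : ℝ) * ((m : ℝ) * θ i - n i)| ≤
      (1 / 2) * ((G : ℝ) ^ (3 : ℕ) / (G : ℝ) ^ (3 * d + 5)) := by
    rw [abs_mul, abs_of_nonneg (by positivity : (0 : ℝ) ≤ (q1 : ℝ))]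
    have h6 : |∑ i, (k i : ℝ) * ((m : ℝ) * θ i - n i)| ≤ d * ((G : ℝ) * (1 / Q)) := by
      calc |∑ i, (k i : ℝ) * ((m : ℝ) * θ i - n i)| ≤ ∑ i, |(k i : ℝ) * ((m : ℝ) * θ i - n i)| :=
            Finset.abs_sum_le_sum_abs _ _
        _ ≤ ∑ _i : Fin d, (G : ℝ) * (1 / Q) := by
            refine Finset.sum_le_sum fun i _ => ?_
            rw [abs_mul]
            exact mul_le_mul (hksize i) (hn i).le (abs_nonneg _) hG0.le
        _ = _ := by simp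
    have h7 : (q1 : ℝ) ≤ G := by exact_mod_cast (by omega : q1 ≤ G)
    have h8 : 2 * (d : ℝ) ≤ G := by exact_mod_cast (by omega : 2 * d ≤ G)
    have h9 : (Q : ℝ) = (G : ℝ) ^ (3 * d + 5) := by rw [hQ]; push_cast; rfl
    calc (q1 : ℝ) * |∑ i, (k i : ℝ) * ((m : ℝ) * θ i - n i)| ≤ G * (d * ((G : ℝ) * (1 / Q))) :=
          mul_le_mul h7 h6 (abs_nonneg _) hG0.le
      _ = (1 / 2) * ((G ^ 2 * (2 * d)) / (G : ℝ) ^ (3 * d + 5)) := by rw [h9]; ring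
      _ ≤ (1 / 2) * ((G : ℝ) ^ (3 : ℕ) / (G : ℝ) ^ (3 * d + 5)) := by
          apply mul_le_mul_of_nonneg_left _ (by norm_num)
          apply div_le_div_of_nonneg_right _ (by positivity)
          rw [pow_succ (G : ℝ) 2]
          exact mul_le_mul_of_nonneg_left h8 (by positivity)
  have h11 := abs_add_le ((M : ℝ) * (x j - ((r0 j : ℝ) + ∑ i, (r j i : ℝ) * θ i)))
    ((q1 : ℝ) * ∑ i, (k i : ℝ) * ((m : ℝ) * θ i - n i))
  linarith

end Pool.Agent.X110.SP
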