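import Pool.Agent.X110.SP
import Pool.Agent.Y926.TW.Main

/-!
# Odd zeta values and finite-dimensional rational spaces
-/

set_option autoImplicit false

open Finset

namespace Pool.Agent.X110.SP

/-- a finite-dimensional space which contains `1` is spanned by `1` and `dim - 1` further numbers -/
lemma exists_theta (V : Submodule ℚ ℝ) [FiniteDimensional ℚ V] (h1 : (1 : ℝ) ∈ V) (d : ℕ)
    (hd : Module.finrank ℚ V ≤ d + 1) :
    ∃ θ : Fin d → ℝ, ∀ v ∈ V, ∃ (r0 : ℚ) (r : Fin d → ℚ), v = (r0 : ℝ) + ∑ i, (r i : ℝ) * θ i := by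
  classical
  obtain ⟨one, hone⟩ : ∃ one : V, one = ⟨1, h1⟩ := ⟨_, rfl⟩
  obtain ⟨L, hL⟩ : ∃ L : Submodule ℚ V, L = Submodule.span ℚ {one} := ⟨_, rfl⟩
  obtain ⟨U, hU⟩ := Submodule.exists_isCompl L
  have hne : one ≠ 0 := by
    rw [hone]
    intro h
    have := congrArg Subtype.val h
    simp at this
  have hL1 : Module.finrank ℚ L = 1 := by rw [hL]; exact finrank_span_singleton hne
  have hUd : Module.finrank ℚ U ≤ d := by
    have h2 := Submodule.finrank_add_eq_of_isCompl hU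
    omega
  let b := Module.finBasis ℚ U
  refine ⟨Function.extend (Fin.castLE hUd) (fun i => (((b i : U) : V) : ℝ)) 0, fun v hv => ?_⟩
  have h2 : (⟨v, hv⟩ : V) ∈ L ⊔ U := by rw [hU.sup_eq_top]; trivial
  obtain ⟨l, hl, u, hu, hlu⟩ := Submodule.mem_sup.1 h2
  rw [hL, Submodule.mem_span_singleton] at hl
  obtain ⟨c, hc⟩ := hl
  have h3 := b.sum_repr ⟨u, hu⟩
  have h4 : (u : V) = ∑ i, b.repr ⟨u, hu⟩ i • ((b i : U) : V) := by
    have h5 := congrArg (Submodule.subtype U) h3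
    rw [map_sum] at h5
    simp only [Submodule.subtype_apply, map_smul] at h5
    exact h5.symm
  have h6 : v = (c : ℝ) + ∑ i, ((b.repr ⟨u, hu⟩ i : ℚ) : ℝ) * (((b i : U) : V) : ℝ) := by
    have h7 := congrArg (Submodule.subtype V) hlu
    rw [map_add, ← hc, h4, map_smul, map_sum, hone] at h7
    simp only [Submodule.subtype_apply, map_smul] at h7
    rw [← h7, Rat.smul_def, mul_one]
    congr 1
  refine ⟨c, Function.extend (Fin.castLE hUd) (fun i => b.repr ⟨u, hu⟩ i) 0, ?_⟩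
  rw [h6]
  congr 1
  have hinj : Function.Injective (Fin.castLE hUd : Fin (Module.finrank ℚ U) → Fin d) :=
    Fin.castLE_injective hUd
  refine Fintype.sum_of_injective (Fin.castLE hUd) hinj _ _ ?_ ?_
  · intro i hi
    rw [Function.extend_apply' _ _ _ (by rintro ⟨a, ha⟩; exact hi ⟨a, ha⟩)]
    simp
  · intro i
    rw [hinj.extend_apply, hinj.extend_apply]

theorem sub_of_planes (x : ℕ → ℝ) (W : Finset ℕ) (K d E : ℕ)
    (h : ∃ H0 : ℕ, ∀ H : ℕ, H0 ≤ H → ∀ θ : Fin d → ℝ,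
      K ≤ Set.ncard {j : ℕ | j ∈ W ∧ ∀ (r0 : ℚ) (r : Fin d → ℚ), r0.den ≤ H →
        (∀ i, |(r i).num| ≤ H ∧ (r i).den ≤ H) →
        1 / (H : ℝ) ^ E ≤ |x j - ((r0 : ℝ) + ∑ i, (r i : ℝ) * θ i)|})
    (V : Submodule ℚ ℝ) (hV : FiniteDimensional ℚ V) (h1 : (1 : ℝ) ∈ V)
    (hd : Module.finrank ℚ V ≤ d + 1) : K ≤ Set.ncard {j : ℕ | j ∈ W ∧ x j ∉ V} := by
  classical
  obtain ⟨H0, hH0⟩ := h
  obtain ⟨θ, hθ⟩ := exists_theta V h1 d hd
  have hex : ∀ j : ℕ, ∃ (r0 : ℚ) (r : Fin d → ℚ), x j ∈ V → x j = (r0 : ℝ) + ∑ i, (r i : ℝ) * θ i := by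
    intro j
    by_cases hj : x j ∈ V
    · obtain ⟨r0, r, h2⟩ := hθ _ hj
      exact ⟨r0, r, fun _ => h2⟩
    · exact ⟨0, 0, fun h => absurd h hj⟩
  choose r0 r hr using hex
  obtain ⟨H, hH⟩ : ∃ H : ℕ, H = H0 + 1 + ∑ j ∈ W, ((r0 j).den + ∑ i, ((r j i).num.natAbs + (r j i).den)) :=
    ⟨_, rfl⟩
  refine (hH0 H (by omega) θ).trans ?_
  refine Set.ncard_le_ncard ?_ (W.finite_toSet.subset fun j hj => hj.1)
  rintro j ⟨hjW, hj⟩
  refine ⟨hjW, fun hV => ?_⟩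
  have h3 : (r0 j).den + ∑ i, ((r j i).num.natAbs + (r j i).den) ≤ H := by
    have := Finset.single_le_sum (f := fun j => (r0 j).den + ∑ i, ((r j i).num.natAbs + (r j i).den))
      (fun _ _ => Nat.zero_le _) hjW
    omega
  have h4 : ∀ i, (r j i).num.natAbs + (r j i).den ≤ H := by
    intro i
    have := Finset.single_le_sum (f := fun i => (r j i).num.natAbs + (r j i).den)
      (fun _ _ => Nat.zero_le _) (Finset.mem_univ i)
    omega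
  have h5 := hj (r0 j) (r j) (by omega) (fun i => by
    have := h4 i
    refine ⟨?_, by omega⟩
    rw [Int.abs_eq_natAbs]
    exact_mod_cast (by omega : (r j i).num.natAbs ≤ H))
  rw [← hr j hV, sub_self, abs_zero] at h5
  have h6 : (0 : ℝ) < 1 / (H : ℝ) ^ E := by
    have : (0 : ℝ) < H := by exact_mod_cast (by omega : 0 < H)
    positivity
  linarith

/-- `ζ(j) = ∑ 1/(n+1)^j` -/
noncomputable def z (j : ℕ) : ℝ := ∑' n : ℕ, 1 / ((n : ℝ) + 1) ^ j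

/-- the odd numbers in the window -/
def win (b s : ℕ) : Finset ℕ := (Finset.Ioc b s).filter Odd

lemma mem_win {b s j : ℕ} : j ∈ win b s ↔ (b < j ∧ j ≤ s) ∧ Odd j := by
  unfold win
  rw [Finset.mem_filter, Finset.mem_Ioc]

theorem zeta_planes (b K s S : ℕ) (hK : 1 ≤ K) (hS : 1 ≤ S)
    (hs : (2 : ℝ) ^ (132 * S) * ((b : ℝ) + 1) ^ 2 * (K : ℝ) ^ 3 * Real.log (K + 1) ≤ (s : ℝ) ^ 2) :
    ∃ H0 : ℕ, ∀ H : ℕ, H0 ≤ H → ∀ θ : Fin (S - 1) → ℝ,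
      K ≤ Set.ncard {j : ℕ | j ∈ win b s ∧ ∀ (r0 : ℚ) (r : Fin (S - 1) → ℚ), r0.den ≤ H →
        (∀ i, |(r i).num| ≤ H ∧ (r i).den ≤ H) →
        1 / (H : ℝ) ^ (6 * S ^ 2 * (S * s + 1)) ≤ |z j - ((r0 : ℝ) + ∑ i, (r i : ℝ) * θ i)|} := by
  obtain ⟨q0, hq0⟩ := (Pool.Agent.Y926.TW.main b K s S hK hS hs).2
  have hcard : (win b s).card ≤ s := by
    calc (win b s).card ≤ (Finset.Ioc b s).card := Finset.card_filter_le _ _
      _ = s - b := by simp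
      _ ≤ s := Nat.sub_le _ _
  have hS1 : S - 1 + 1 = S := by omega
  have hSr : (((S - 1 : ℕ) : ℝ) + 1) = S := by
    exact_mod_cast congrArg (fun n : ℕ => (n : ℝ)) hS1
  have h := planes z (win b s) K (S - 1) s hcard q0 (fun q hq => by
    have h1 := hq0 q hq
    refine h1.trans (le_of_eq ?_)
    congr 1
    ext j
    simp only [Set.mem_setOf_eq, mem_win, hSr]
    unfold z
    tauto)
  rw [hS1] at h
  exact h

theorem zeta_main (b K s S : ℕ) (hK : 1 ≤ K) (hS : 1 ≤ S)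
    (hs : (2 : ℝ) ^ (132 * S) * ((b : ℝ) + 1) ^ 2 * (K : ℝ) ^ 3 * Real.log (K + 1) ≤ (s : ℝ) ^ 2) :
    (∀ V : Submodule ℚ ℝ, FiniteDimensional ℚ V → (1 : ℝ) ∈ V → Module.finrank ℚ V ≤ S →
      K ≤ Set.ncard {j : ℕ | b < j ∧ j ≤ s ∧ Odd j ∧ (∑' n : ℕ, 1 / ((n : ℝ) + 1) ^ j) ∉ V}) ∧
    (∀ F : IntermediateField ℚ ℝ, FiniteDimensional ℚ F → Module.finrank ℚ F ≤ S →
      K ≤ Set.ncard {j : ℕ | b < j ∧ j ≤ s ∧ Odd j ∧ (∑' n : ℕ, 1 / ((n : ℝ) + 1) ^ j) ∉ F}) ∧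
    ∃ H0 : ℕ, ∀ H : ℕ, H0 ≤ H → ∀ θ : Fin (S - 1) → ℝ,
      K ≤ Set.ncard {j : ℕ | b < j ∧ j ≤ s ∧ Odd j ∧ ∀ (r0 : ℚ) (r : Fin (S - 1) → ℚ), r0.den ≤ H →
        (∀ i, |(r i).num| ≤ H ∧ (r i).den ≤ H) →
        1 / (H : ℝ) ^ (6 * S ^ 2 * (S * s + 1)) ≤
          |(∑' n : ℕ, 1 / ((n : ℝ) + 1) ^ j) - ((r0 : ℝ) + ∑ i, (r i : ℝ) * θ i)|} := by
  have hpl := zeta_planes b K s S hK hS hs
  have hS1 : S - 1 + 1 = S := by omega
  have hsub : ∀ V : Submodule ℚ ℝ, FiniteDimensional ℚ V → (1 : ℝ) ∈ V → Module.finrank ℚ V ≤ S →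
      K ≤ Set.ncard {j : ℕ | b < j ∧ j ≤ s ∧ Odd j ∧ (∑' n : ℕ, 1 / ((n : ℝ) + 1) ^ j) ∉ V} := by
    intro V hV h1 hd
    refine (sub_of_planes z (win b s) K (S - 1) _ hpl V hV h1 (by omega)).trans (le_of_eq ?_)
    congr 1
    ext j
    simp only [Set.mem_setOf_eq, mem_win]
    unfold z
    tauto
  refine ⟨hsub, fun F hF hd => ?_, ?_⟩
  · exact hsub (Subalgebra.toSubmodule F.toSubalgebra) hF (one_mem F) hd
  · obtain ⟨H0, hH0⟩ := hpl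
    refine ⟨H0, fun H hH θ => (hH0 H hH θ).trans (le_of_eq ?_)⟩
    congr 1
    ext j
    simp only [Set.mem_setOf_eq, mem_win]
    unfold z
    tauto

end Pool.Agent.X110.SP
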